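import Pool.Agent.LibCW77.Defs3

/-!
[CW77 T0] Algebra of the six points (all over one field `M`): the weights, partial fractions, interpolation, the polynomial
with given roots.
-/

open scoped Classical
open Polynomial

namespace Pool.Agent.LibCW77

open Pool.Agent.LibBH2
open Pool.Agent.LibCHd (VR RF Red FunF)

variable {k : Type} [Field k]

theorem T0a_erl (i : Fin 3) : (Finset.univ : Finset (Fin 3 ⊕ Fin 3)).erase (Sum.inl i) =
    (Finset.univ.erase i).disjSum Finset.univ := by
  ext x
  cases x <;> simp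

theorem T0a_err (i : Fin 3) : (Finset.univ : Finset (Fin 3 ⊕ Fin 3)).erase (Sum.inr i) =
    Finset.univ.disjSum (Finset.univ.erase i) := by
  ext x
  cases x <;> simp

theorem T0a_wl {M : Type} [Field M] (c : Dat M) (i : Fin 3) :
    ka c i = (∏ j ∈ (Finset.univ : Finset (Fin 3 ⊕ Fin 3)).erase (Sum.inl i),
      (Sum.elim c.a c.b (Sum.inl i) - Sum.elim c.a c.b j))⁻¹ := by
  rw [T0a_erl, Finset.prod_disjSum, ka]
  rfl

theorem T0a_wr {M : Type} [Field M] (c : Dat M) (i : Fin 3) :
    kb c i = (∏ j ∈ (Finset.univ : Finset (Fin 3 ⊕ Fin 3)).erase (Sum.inr i),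
      (Sum.elim c.a c.b (Sum.inr i) - Sum.elim c.a c.b j))⁻¹ := by
  rw [T0a_err, Finset.prod_disjSum, kb]
  rfl

theorem ka_ne {M : Type} [Field M] {c : Dat M} (hc : c.Good) (i : Fin 3) : ka c i ≠ 0 := by
  rw [T0a_wl]
  refine inv_ne_zero (Finset.prod_ne_zero_iff.2 fun j hj => ?_)
  exact sub_ne_zero.2 fun h => (Finset.ne_of_mem_erase hj) (hc.inj h).symm

theorem kb_ne {M : Type} [Field M] {c : Dat M} (hc : c.Good) (i : Fin 3) : kb c i ≠ 0 := by
  rw [T0a_wr]
  refine inv_ne_zero (Finset.prod_ne_zero_iff.2 fun j hj => ?_)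
  exact sub_ne_zero.2 fun h => (Finset.ne_of_mem_erase hj) (hc.inj h).symm

theorem good_map {M : Type} [Field M] [Algebra k M] {c : Dat k} (hc : c.Good) : (c.over M).Good := by
  refine ⟨hc.two, ?_⟩
  have h : Sum.elim (c.over M).a (c.over M).b = fun x => algebraMap k M (Sum.elim c.a c.b x) := by
    funext x
    cases x <;> rfl
  rw [h]
  exact (algebraMap k M).injective.comp hc.inj

theorem ka_map {M M' : Type} [Field M] [Field M'] (f : M →+* M') (c : Dat M) (i : Fin 3) :
    ka (c.map f) i = f (ka c i) := by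
  simp only [ka, Dat.map, map_inv₀, map_mul, map_prod, map_sub]

theorem kb_map {M M' : Type} [Field M] [Field M'] (f : M →+* M') (c : Dat M) (i : Fin 3) :
    kb (c.map f) i = f (kb c i) := by
  simp only [kb, Dat.map, map_inv₀, map_mul, map_prod, map_sub]

theorem T0a_coeff {M : Type} [Field M] {c : Dat M} (hc : c.Good) (p : M[X]) (hp : p.degree < 6) :
    p.coeff 5 = ∑ i, (ka c i * p.eval (c.a i) + kb c i * p.eval (c.b i)) := by
  have h := Lagrange.coeff_eq_sum (s := (Finset.univ : Finset (Fin 3 ⊕ Fin 3))) (v := Sum.elim c.a c.b)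
    hc.inj.injOn (P := p) (by simpa using hp)
  have h6 : (Finset.univ : Finset (Fin 3 ⊕ Fin 3)).card - 1 = 5 := by simp
  rw [h6] at h
  rw [h, Fintype.sum_sum_type, Finset.sum_add_distrib]
  congr 1
  · refine Finset.sum_congr rfl fun i _ => ?_
    rw [T0a_wl, div_eq_mul_inv, mul_comm]
    congr 1
  · refine Finset.sum_congr rfl fun i _ => ?_
    rw [T0a_wr, div_eq_mul_inv, mul_comm]
    congr 1

theorem lagrange {M : Type} [Field M] {c : Dat M} (hc : c.Good) (p : M[X]) (hp : p.natDegree ≤ 4) :
    ∑ i, (ka c i * p.eval (c.a i) + kb c i * p.eval (c.b i)) = 0 := by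
  have h : p.degree < 5 := lt_of_le_of_lt degree_le_natDegree (by exact_mod_cast Nat.lt_succ_of_le hp)
  rw [← T0a_coeff hc p (h.trans (by exact_mod_cast Nat.lt_succ_self 5))]
  exact coeff_eq_zero_of_degree_lt h

theorem exists_poly {M : Type} [Field M] {c : Dat M} (hc : c.Good) (X' Y' : Fin 3 → M)
    (h1 : ∑ i, (ka c i * X' i + kb c i * Y' i) = 0)
    (h2 : ∑ i, (ka c i * c.a i * X' i + kb c i * c.b i * Y' i) = 0) :
    ∃ p : M[X], p.natDegree ≤ 3 ∧ ∀ i, p.eval (c.a i) = X' i ∧ p.eval (c.b i) = Y' i := by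
  obtain ⟨p, hpd⟩ : ∃ p, p = Lagrange.interpolate (Finset.univ : Finset (Fin 3 ⊕ Fin 3)) (Sum.elim c.a c.b)
    (Sum.elim X' Y') := ⟨_, rfl⟩
  have hd6 : p.degree < 6 := by
    have h := Lagrange.degree_interpolate_lt (s := (Finset.univ : Finset (Fin 3 ⊕ Fin 3)))
      (v := Sum.elim c.a c.b) (Sum.elim X' Y') hc.inj.injOn
    rw [← hpd] at h
    simpa using h
  have hev : ∀ i, p.eval (c.a i) = X' i ∧ p.eval (c.b i) = Y' i := by
    intro i
    constructor
    · have h := Lagrange.eval_interpolate_at_node (s := (Finset.univ : Finset (Fin 3 ⊕ Fin 3)))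
        (v := Sum.elim c.a c.b) (Sum.elim X' Y') hc.inj.injOn (Finset.mem_univ (Sum.inl i))
      rw [← hpd] at h
      exact h
    · have h := Lagrange.eval_interpolate_at_node (s := (Finset.univ : Finset (Fin 3 ⊕ Fin 3)))
        (v := Sum.elim c.a c.b) (Sum.elim X' Y') hc.inj.injOn (Finset.mem_univ (Sum.inr i))
      rw [← hpd] at h
      exact h
  have hc5 : p.coeff 5 = 0 := by
    rw [T0a_coeff hc p hd6, ← h1]
    exact Finset.sum_congr rfl fun i _ => by rw [(hev i).1, (hev i).2]
  have hlt : ∀ n, 5 ≤ n → p.coeff n = 0 := by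
    intro n hn
    rcases Nat.eq_or_lt_of_le hn with rfl | hn
    · exact hc5
    · exact coeff_eq_zero_of_degree_lt (hd6.trans_le (by exact_mod_cast hn))
  have hX : (X * p).degree < 6 := by
    refine (degree_lt_iff_coeff_zero (X * p) 6).2 fun n hn => ?_
    cases n with
    | zero => simp
    | succ n =>
      rw [coeff_X_mul]
      exact hlt n (by omega)
  have hc4 : p.coeff 4 = 0 := by
    have h := T0a_coeff hc (X * p) hX
    rw [coeff_X_mul] at h
    rw [h, ← h2]
    refine Finset.sum_congr rfl fun i _ => ?_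
    rw [eval_mul, eval_mul, eval_X, eval_X, (hev i).1, (hev i).2]
    ring
  refine ⟨p, ?_, hev⟩
  rw [natDegree_le_iff_coeff_eq_zero]
  intro n hn
  rcases Nat.eq_or_lt_of_le (Nat.succ_le_of_lt hn) with h | h
  · rw [← h]
    exact hc4
  · exact hlt n h

/-- the linear polynomial (or `1`) with the root `x` -/
noncomputable def T0b_lin {M : Type} [Field M] (x : Option M) : M[X] :=
  match x with
  | none => 1
  | some x => X - C x

theorem T0b_lin_eval {M : Type} [Field M] (x : Option M) (t : M) : (T0b_lin x).eval t = ev x t := by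
  cases x <;> simp [T0b_lin, ev]

theorem T0b_lin_ne {M : Type} [Field M] (x : Option M) : T0b_lin x ≠ 0 := by
  cases x with
  | none => exact one_ne_zero
  | some x => exact X_sub_C_ne_zero x

theorem T0b_lin_deg {M : Type} [Field M] (x : Option M) : (T0b_lin x).natDegree ≤ 1 := by
  cases x with
  | none => simp [T0b_lin]
  | some x => simp [T0b_lin]

/-- the polynomial with the roots `x_j` -/
theorem ev_prod {M : Type} [Field M] {m : ℕ} (x : Fin m → Option M) :
    ∃ p : M[X], p ≠ 0 ∧ p.natDegree ≤ m ∧ (∀ t, p.eval t = ∏ j, ev (x j) t) := by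
  refine ⟨∏ j, T0b_lin (x j), Finset.prod_ne_zero_iff.2 fun j _ => T0b_lin_ne _, ?_, ?_⟩
  · refine (natDegree_prod_le _ _).trans ?_
    refine (Finset.sum_le_sum fun j _ => T0b_lin_deg (x j)).trans ?_
    simp
  · intro t
    rw [eval_prod]
    exact Finset.prod_congr rfl fun j _ => T0b_lin_eval _ _

/-- a nonzero polynomial of degree `≤ 3` which splits is, up to a factor, the polynomial with the roots `x_j` -/
theorem exists_roots {M : Type} [Field M] (p : M[X]) (hp : p ≠ 0) (h3 : p.natDegree ≤ 3) (hs : p.Splits) :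
    ∃ (x : Fin 3 → Option M) (l : M), l ≠ 0 ∧ ∀ t, ∏ j, ev (x j) t = l * p.eval t := by
  have hcard : Multiset.card p.roots ≤ 3 := (card_roots' p).trans h3
  set s : Multiset (Option M) := p.roots.map some + Multiset.replicate (3 - Multiset.card p.roots) none with hsd
  have hs3 : Multiset.card s = 3 := by
    rw [hsd, Multiset.card_add, Multiset.card_map, Multiset.card_replicate]
    omega
  have hlen : s.toList.length = 3 := by rw [Multiset.length_toList, hs3]
  have hprod : ∀ t, (s.map fun x => ev x t).prod = (p.roots.map fun a => t - a).prod := by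
    intro t
    rw [hsd, Multiset.map_add, Multiset.prod_add, Multiset.map_map, Multiset.map_replicate,
      Multiset.prod_replicate]
    simp [ev, Function.comp_def]
  have hpe : ∀ t, p.eval t = p.leadingCoeff * (p.roots.map fun a => t - a).prod := by
    intro t
    have h1 := hs.eq_prod_roots
    conv_lhs => rw [h1]
    rw [eval_mul, eval_C, eval_multiset_prod, Multiset.map_map]
    congr 2
    refine Multiset.map_congr rfl fun a _ => ?_
    simp
  have hl : p.leadingCoeff ≠ 0 := leadingCoeff_ne_zero.2 hp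
  refine ⟨fun j => s.toList.get (Fin.cast hlen.symm j), p.leadingCoeff⁻¹, inv_ne_zero hl, fun t => ?_⟩
  have h2 : ∏ j : Fin 3, ev (s.toList.get (Fin.cast hlen.symm j)) t = (s.map fun x => ev x t).prod := by
    have h3 : (s.toList.map fun x => ev x t).prod = (s.map fun x => ev x t).prod := by
      conv_rhs => rw [← Multiset.coe_toList s]
      rfl
    rw [← h3, ← List.prod_ofFn]
    congr 1
    refine List.ext_get (by simp [hlen]) fun i h1 h2 => ?_
    rw [List.get_ofFn]
    simp
  rw [h2, hprod, hpe]
  field_simp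

theorem T0b_count {M : Type} [Field M] (x : Option M) (a : M) :
    (T0b_lin x).roots.count a = if x = some a then 1 else 0 := by
  cases x with
  | none => simp [T0b_lin]
  | some b =>
    rw [T0b_lin, roots_X_sub_C, Multiset.count_singleton]
    by_cases h : a = b
    · simp [h]
    · simp [h, Ne.symm h]

theorem T0b_rm {M : Type} [Field M] (x : Fin 3 → Option M) (a : M) :
    (∏ j, T0b_lin (x j)).roots.count a = (Finset.univ.filter fun j => x j = some a).card := by
  rw [roots_prod _ _ (Finset.prod_ne_zero_iff.2 fun j _ => T0b_lin_ne _), Multiset.count_bind,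
    Finset.card_filter]
  exact Finset.sum_congr rfl fun j _ => T0b_count _ _

theorem T0b_deg {M : Type} [Field M] (x : Fin 3 → Option M) :
    (∏ j, T0b_lin (x j)).natDegree + (Finset.univ.filter fun j => x j = none).card = 3 := by
  rw [natDegree_prod _ _ fun j _ => T0b_lin_ne _, Finset.card_filter, ← Finset.sum_add_distrib]
  have h : ∀ j ∈ Finset.univ, (T0b_lin (x j)).natDegree + (if x j = none then 1 else 0) = 1 := by
    intro j _
    cases hx : x j with
    | none => simp [T0b_lin]
    | some b => simp [T0b_lin]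
  rw [Finset.sum_congr rfl h]
  simp

theorem T0b_perm {M : Type} [Field M] (x x' : Fin 3 → Option M)
    (h : ∀ y, (Finset.univ.filter fun j => x j = y).card = (Finset.univ.filter fun j => x' j = y).card) :
    ∃ σ : Equiv.Perm (Fin 3), ∀ j, x' j = x (σ j) := by
  have e : ∀ y, Nonempty ({j // x' j = y} ≃ {j // x j = y}) := by
    intro y
    refine ⟨Fintype.equivOfCardEq ?_⟩
    rw [Fintype.card_subtype, Fintype.card_subtype]
    convert (h y).symm
  refine ⟨Equiv.ofFiberEquiv fun y => (e y).some, fun j => ?_⟩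
  exact (Equiv.ofFiberEquiv_map (fun y => (e y).some) j).symm

/-- the roots are determined by the values at four points, up to a permutation -/
theorem roots_unique {M : Type} [Field M] (x x' : Fin 3 → Option M) (l : M) (t : Fin 4 → M)
    (ht : Function.Injective t) (h : ∀ i, ∏ j, ev (x' j) (t i) = l * ∏ j, ev (x j) (t i)) (hl : l ≠ 0) :
    ∃ σ : Equiv.Perm (Fin 3), ∀ j, x' j = x (σ j) := by
  have hdeg : ∀ x : Fin 3 → Option M, (∏ j, T0b_lin (x j)).natDegree ≤ 3 := fun x => by
    have := T0b_deg x
    omega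
  have hev : ∀ (x : Fin 3 → Option M) (s : M), (∏ j, T0b_lin (x j)).eval s = ∏ j, ev (x j) s := by
    intro x s
    rw [eval_prod]
    exact Finset.prod_congr rfl fun j _ => T0b_lin_eval _ _
  have hpp : (∏ j, T0b_lin (x' j)) = C l * ∏ j, T0b_lin (x j) := by
    refine eq_of_natDegree_lt_card_of_eval_eq' _ _ (Finset.univ.image t) ?_ ?_
    · intro s hs
      obtain ⟨i, _, rfl⟩ := Finset.mem_image.1 hs
      rw [eval_mul, eval_C, hev, hev, h]
    · rw [Finset.card_image_of_injective _ ht, Finset.card_univ, Fintype.card_fin]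
      refine max_lt ?_ ?_
      · have := hdeg x'
        omega
      · have h1 := natDegree_C_mul_le l (∏ j, T0b_lin (x j))
        have := hdeg x
        omega
  have hnd : (∏ j, T0b_lin (x' j)).natDegree = (∏ j, T0b_lin (x j)).natDegree := by
    rw [hpp, natDegree_C_mul hl]
  have hroots : (∏ j, T0b_lin (x' j)).roots = (∏ j, T0b_lin (x j)).roots := by
    rw [hpp, roots_C_mul _ hl]
  apply T0b_perm
  intro y
  cases y with
  | none =>
    have h1 := T0b_deg x
    have h2 := T0b_deg x'
    omega
  | some a => rw [← T0b_rm, ← T0b_rm, hroots]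

/-- the relation between the coordinate `v` and the values -/
theorem onC_prod {M : Type} [Field M] {c : Dat M} (hc : c.Good) {x v : Option M} (h : OnC c x v)
    (y : M) (hv : v = some y) : y ^ c.n * ∏ i, ev x (c.b i) = ∏ i, ev x (c.a i) := by
  subst hv
  cases x with
  | none =>
    have h1 : y ^ c.n = 1 := h
    simp [ev, h1]
  | some x =>
    have h1 : y ^ c.n * ∏ i, (x - c.b i) = ∏ i, (x - c.a i) := h
    simp only [ev, Fin.prod_univ_three] at h1 ⊢
    linear_combination -h1

theorem onC_of_prod {M : Type} [Field M] {c : Dat M} (x : Option M) (y : M)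
    (h : y ^ c.n * ∏ i, ev x (c.b i) = ∏ i, ev x (c.a i)) : OnC c x (some y) := by
  cases x with
  | none =>
    change y ^ c.n = 1
    simpa [ev] using h
  | some x =>
    change y ^ c.n * ∏ i, (x - c.b i) = ∏ i, (x - c.a i)
    simp only [ev, Fin.prod_univ_three] at h ⊢
    linear_combination -h

end Pool.Agent.LibCW77
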