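import Pool.Agent.LibCW77.Defs3
import Pool.Agent.LibCW77.T0
/-!
[CW77 A0] Algebra of Z-points and of the cross product (one field). `crs_orth`: `ring` after `Fin.sum_univ_three` and unfolding `crs` at `0, 1, 2`.
`cAB_ne`: `B_i - a_i A_i = kb_i (b_i - a_i)`. `Y_of_crs`: `Y` and the cross product are both orthogonal to `A` and `B`, which are independent; compare
`Y_i crs_j = Y_j crs_i` (identities) and pick `i` with `crs_i ≠ 0`. `exists_C`: the matrix `(A, B)` has rank 1 with no zero column: `C = A` if `A ≠ 0`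
(then all `A_i ≠ 0`? if `A_i = 0` then `B_i ≠ 0` and `A_j B_i = A_i B_j = 0` for all `j`: `A = 0`), else `C = B`.
`crs_point`: `C = A` case: `B = x A` with `x = B_0 / A_0`, all `i`: `ka_i (a_i - x) R_i = - kb_i (b_i - x)`; `A = 0` case: `x = ∞`. `x ≠ a_i, b_i` as `R_i ≠ 0`
and `kb_i (b_i - a_i) ≠ 0`. `v = ν / u`: `v ^ n ∏ ev x b_i = ∏ ev x a_i` by `u ^ n = ∏ R_i`, `ν ^ n = ∏ (- kb_i / ka_i)`; `onC_of_prod`.
-/

open scoped Classical
open Polynomial

namespace Pool.Agent.LibCW77

open Pool.Agent.LibBH2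
open Pool.Agent.LibCHd (VR RF Red FunF)

variable {k : Type} [Field k]

private theorem A0_crs0 {M : Type} [Field M] (c : Dat M) (R : Fin 3 → M) :
    crs c R 0 = cA c R 1 * cB c R 2 - cA c R 2 * cB c R 1 := rfl

private theorem A0_crs1 {M : Type} [Field M] (c : Dat M) (R : Fin 3 → M) :
    crs c R 1 = cA c R 2 * cB c R 0 - cA c R 0 * cB c R 2 := rfl

private theorem A0_crs2 {M : Type} [Field M] (c : Dat M) (R : Fin 3 → M) :
    crs c R 2 = cA c R 0 * cB c R 1 - cA c R 1 * cB c R 0 := rfl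

private theorem A0_ab {M : Type} {c : Dat M} (hc : c.Good) (i j : Fin 3) : c.a i ≠ c.b j := by
  intro h
  have h1 : Sum.elim c.a c.b (Sum.inl i) = Sum.elim c.a c.b (Sum.inr j) := h
  have h2 := hc.inj h1
  cases h2

theorem crs_orth {M : Type} [Field M] (c : Dat M) (R : Fin 3 → M) :
    ∑ i, cA c R i * crs c R i = 0 ∧ ∑ i, cB c R i * crs c R i = 0 := by
  rw [Fin.sum_univ_three, Fin.sum_univ_three, A0_crs0, A0_crs1, A0_crs2]
  constructor <;> ring

theorem cAB_ne {M : Type} [Field M] {c : Dat M} (hc : c.Good) (R : Fin 3 → M) (i : Fin 3) :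
    cA c R i ≠ 0 ∨ cB c R i ≠ 0 := by
  by_contra h
  push Not at h
  obtain ⟨h1, h2⟩ := h
  have h3 : kb c i * (c.b i - c.a i) = 0 := by
    have h4 : kb c i * (c.b i - c.a i) = cB c R i - c.a i * cA c R i := by
      unfold cA cB
      ring
    rw [h4, h1, h2]
    ring
  rcases mul_eq_zero.1 h3 with h4 | h4
  · exact kb_ne hc i h4
  · exact A0_ab hc i i (sub_eq_zero.1 h4).symm

theorem Y_of_crs {M : Type} [Field M] {c : Dat M} {z : Zp M} (hz : IsZ c z) (h : ∃ i, crs c z.R i ≠ 0) :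
    ∃ l, l ≠ 0 ∧ ∀ i, z.Y i = l * crs c z.R i := by
  obtain ⟨i, hi⟩ := h
  have h1 := hz.r1
  have h2 := hz.r2
  rw [Fin.sum_univ_three] at h1 h2
  have h01 : z.Y 0 * crs c z.R 1 = z.Y 1 * crs c z.R 0 := by
    rw [A0_crs0, A0_crs1]
    linear_combination cA c z.R 2 * h2 - cB c z.R 2 * h1
  have h12 : z.Y 1 * crs c z.R 2 = z.Y 2 * crs c z.R 1 := by
    rw [A0_crs1, A0_crs2]
    linear_combination cA c z.R 0 * h2 - cB c z.R 0 * h1
  have h20 : z.Y 2 * crs c z.R 0 = z.Y 0 * crs c z.R 2 := by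
    rw [A0_crs0, A0_crs2]
    linear_combination cA c z.R 1 * h2 - cB c z.R 1 * h1
  have key : ∀ a b : Fin 3, z.Y a * crs c z.R b = z.Y b * crs c z.R a := by
    intro a b
    fin_cases a <;> fin_cases b
    · rfl
    · exact h01
    · exact h20.symm
    · exact h01.symm
    · rfl
    · exact h12
    · exact h20
    · exact h12.symm
    · rfl
  refine ⟨z.Y i / crs c z.R i, div_ne_zero (hz.Y0 i) hi, fun j => ?_⟩
  rw [div_mul_eq_mul_div, eq_div_iff hi]
  exact key j i

private theorem A0_AB {M : Type} [Field M] {c : Dat M} {R : Fin 3 → M} (h : ∀ i, crs c R i = 0)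
    (i j : Fin 3) : cA c R i * cB c R j = cA c R j * cB c R i := by
  have h0 := h 0
  have h1 := h 1
  have h2 := h 2
  rw [A0_crs0] at h0
  rw [A0_crs1] at h1
  rw [A0_crs2] at h2
  have e0 := sub_eq_zero.1 h0
  have e1 := sub_eq_zero.1 h1
  have e2 := sub_eq_zero.1 h2
  fin_cases i <;> fin_cases j
  · rfl
  · exact e2
  · exact e1.symm
  · exact e2.symm
  · rfl
  · exact e0
  · exact e1
  · exact e0.symm
  · rfl

/-- either all `A_i` are different from `0` and `B = x A`, or `A = 0` -/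
private theorem A0_cases {M : Type} [Field M] {c : Dat M} (hc : c.Good) {R : Fin 3 → M}
    (h : ∀ i, crs c R i = 0) :
    ((∀ i, cA c R i ≠ 0) ∧ ∃ x, ∀ i, cB c R i = x * cA c R i) ∨ ∀ i, cA c R i = 0 := by
  by_cases hA : ∀ i, cA c R i ≠ 0
  · refine Or.inl ⟨hA, cB c R 0 / cA c R 0, fun i => ?_⟩
    rw [div_mul_eq_mul_div, eq_div_iff (hA 0)]
    have h1 := A0_AB h 0 i
    linear_combination h1
  · right
    push Not at hA
    obtain ⟨i, hi⟩ := hA
    have hB : cB c R i ≠ 0 := by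
      rcases cAB_ne hc R i with h1 | h1
      · exact absurd hi h1
      · exact h1
    intro j
    have h1 := A0_AB h i j
    rw [hi, zero_mul] at h1
    exact (mul_eq_zero.1 h1.symm).resolve_right hB

theorem exists_C {M : Type} [Field M] {c : Dat M} (hc : c.Good) (R : Fin 3 → M) (h : ∀ i, crs c R i = 0) :
    ∃ C : Fin 3 → M, (∀ i, C i ≠ 0) ∧ ∀ Y : Fin 3 → M,
      ((∑ i, cA c R i * Y i = 0 ∧ ∑ i, cB c R i * Y i = 0) ↔ ∑ i, C i * Y i = 0) := by
  rcases A0_cases hc h with ⟨hA, x, hx⟩ | hA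
  · refine ⟨cA c R, hA, fun Y => ⟨fun h1 => h1.1, fun h1 => ⟨h1, ?_⟩⟩⟩
    have h2 : ∑ i, cB c R i * Y i = x * ∑ i, cA c R i * Y i := by
      rw [Finset.mul_sum]
      refine Finset.sum_congr rfl fun i _ => ?_
      rw [hx i]
      ring
    rw [h2, h1, mul_zero]
  · refine ⟨cB c R, fun i => ?_, fun Y => ⟨fun h1 => h1.2, fun h1 => ⟨?_, h1⟩⟩⟩
    · rcases cAB_ne hc R i with h1 | h1
      · exact absurd (hA i) h1
      · exact h1
    · refine Finset.sum_eq_zero fun i _ => ?_
      rw [hA i, zero_mul]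

theorem crs_point {M : Type} [Field M] {c : Dat M} (hc : c.Good) (ν : M) (hν0 : ν ≠ 0)
    (hν : ν ^ c.n = ∏ i, (-(kb c i) / ka c i))
    (R : Fin 3 → M) (u : M) (hR : ∀ i, R i ≠ 0) (hu0 : u ≠ 0) (hu : u ^ c.n = ∏ i, R i)
    (h : ∀ i, crs c R i = 0) :
    ∃ (x : Option M) (v : M), v ≠ 0 ∧ OnC c x (some v) ∧ (∀ i, R i = lR c x i) ∧ u * v = ν := by
  -- the point `x`
  have hx : ∃ x : Option M, ∀ i, ka c i * R i * ev x (c.a i) = -(kb c i * ev x (c.b i)) := by
    rcases A0_cases hc h with ⟨-, x, hx⟩ | hA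
    · refine ⟨some x, fun i => ?_⟩
      have h1 := hx i
      unfold cA cB at h1
      change ka c i * R i * (c.a i - x) = -(kb c i * (c.b i - x))
      linear_combination h1
    · refine ⟨none, fun i => ?_⟩
      have h1 := hA i
      unfold cA at h1
      change ka c i * R i * 1 = -(kb c i * 1)
      linear_combination h1
  obtain ⟨x, hx⟩ := hx
  have hz : ∀ i, ¬ (ev x (c.a i) = 0 ∧ ev x (c.b i) = 0) := by
    rintro i ⟨h1, h2⟩
    cases x with
    | none => exact one_ne_zero h1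
    | some x =>
      change c.a i - x = 0 at h1
      change c.b i - x = 0 at h2
      exact A0_ab hc i i ((sub_eq_zero.1 h1).trans (sub_eq_zero.1 h2).symm)
  have ha : ∀ i, ev x (c.a i) ≠ 0 := by
    intro i h1
    have h2 := hx i
    rw [h1, mul_zero] at h2
    have h3 : kb c i * ev x (c.b i) = 0 := neg_eq_zero.1 h2.symm
    exact hz i ⟨h1, (mul_eq_zero.1 h3).resolve_left (kb_ne hc i)⟩
  have hb : ∀ i, ev x (c.b i) ≠ 0 := by
    intro i h1
    have h2 := hx i
    rw [h1, mul_zero, neg_zero] at h2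
    exact mul_ne_zero (mul_ne_zero (ka_ne hc i) (hR i)) (ha i) h2
  refine ⟨x, ν / u, div_ne_zero hν0 hu0, ?_, ?_, ?_⟩
  · apply onC_of_prod
    rw [div_pow, hν, hu, ← Finset.prod_div_distrib, ← Finset.prod_mul_distrib]
    refine Finset.prod_congr rfl fun i _ => ?_
    rw [div_mul_eq_mul_div, div_eq_iff (hR i), div_mul_eq_mul_div, div_eq_iff (ka_ne hc i)]
    linear_combination (-1 : M) * hx i
  · intro i
    unfold lR
    rw [eq_div_iff (mul_ne_zero (ka_ne hc i) (ha i))]
    linear_combination hx i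
  · rw [mul_div_cancel₀ _ hu0]

theorem lR_props {M : Type} [Field M] {c : Dat M} (hc : c.Good) (ν : M)
    (hν : ν ^ c.n = ∏ i, (-(kb c i) / ka c i)) (x : Option M) (v : M) (hv : v ≠ 0)
    (h : OnC c x (some v)) : (∀ i, ev x (c.a i) ≠ 0) ∧ (∀ i, ev x (c.b i) ≠ 0) ∧ (∀ i, lR c x i ≠ 0) ∧
      (∀ i, crs c (lR c x) i = 0) ∧ (ν / v) ^ c.n = ∏ i, lR c x i := by
  have h1 := onC_prod hc h v rfl
  have hz : ∀ i j, ¬ (ev x (c.a i) = 0 ∧ ev x (c.b j) = 0) := by
    rintro i j ⟨h1, h2⟩
    cases x with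
    | none => exact one_ne_zero h1
    | some x =>
      change c.a i - x = 0 at h1
      change c.b j - x = 0 at h2
      exact A0_ab hc i j ((sub_eq_zero.1 h1).trans (sub_eq_zero.1 h2).symm)
  have ha : ∀ i, ev x (c.a i) ≠ 0 := by
    intro i h2
    have h3 : ∏ i, ev x (c.a i) = 0 := Finset.prod_eq_zero (Finset.mem_univ i) h2
    rw [h3] at h1
    have h4 := (mul_eq_zero.1 h1).resolve_left (pow_ne_zero _ hv)
    obtain ⟨j, -, hj⟩ := Finset.prod_eq_zero_iff.1 h4
    exact hz i j ⟨h2, hj⟩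
  have hb : ∀ i, ev x (c.b i) ≠ 0 := by
    intro i h2
    have h3 : ∏ i, ev x (c.b i) = 0 := Finset.prod_eq_zero (Finset.mem_univ i) h2
    rw [h3, mul_zero] at h1
    obtain ⟨j, -, hj⟩ := Finset.prod_eq_zero_iff.1 h1.symm
    exact ha j hj
  have hl : ∀ i, ka c i * lR c x i * ev x (c.a i) = -(kb c i * ev x (c.b i)) := by
    intro i
    unfold lR
    have h2 := ka_ne hc i
    have h3 := ha i
    field_simp
  refine ⟨ha, hb, ?_, ?_, ?_⟩
  · intro i
    unfold lR
    exact div_ne_zero (neg_ne_zero.2 (mul_ne_zero (kb_ne hc i) (hb i)))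
      (mul_ne_zero (ka_ne hc i) (ha i))
  · -- `B = x A` or `A = 0`
    have h2 : (∃ t, ∀ i, cB c (lR c x) i = t * cA c (lR c x) i) ∨ ∀ i, cA c (lR c x) i = 0 := by
      cases x with
      | none =>
        right
        intro i
        have h3 := hl i
        change ka c i * lR c none i * 1 = -(kb c i * 1) at h3
        unfold cA
        linear_combination h3
      | some t =>
        left
        refine ⟨t, fun i => ?_⟩
        have h3 := hl i
        change ka c i * lR c (some t) i * (c.a i - t) = -(kb c i * (c.b i - t)) at h3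
        unfold cA cB
        linear_combination h3
    rcases h2 with ⟨t, ht⟩ | h2
    · intro i
      unfold crs
      rw [ht, ht]
      ring
    · intro i
      unfold crs
      rw [h2, h2]
      ring
  · rw [div_pow, hν, div_eq_iff (pow_ne_zero _ hv)]
    have h2 : ∏ i, ev x (c.a i) ≠ 0 := Finset.prod_ne_zero_iff.2 fun i _ => ha i
    have h3 : (∏ i, ev x (c.a i)) * ∏ i, (-(kb c i) / ka c i) =
        (∏ i, ev x (c.a i)) * ((∏ i, lR c x i) * v ^ c.n) := by
      have h4 : (∏ i, ev x (c.a i)) * ((∏ i, lR c x i) * v ^ c.n) =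
          (∏ i, (lR c x i * ev x (c.a i))) * v ^ c.n := by
        rw [Finset.prod_mul_distrib]
        ring
      rw [h4]
      have h5 : ∏ i, (lR c x i * ev x (c.a i)) = ∏ i, ((-(kb c i) / ka c i) * ev x (c.b i)) := by
        refine Finset.prod_congr rfl fun i _ => ?_
        rw [div_mul_eq_mul_div, eq_div_iff (ka_ne hc i)]
        linear_combination hl i
      rw [h5, Finset.prod_mul_distrib, ← h1]
      ring
    exact mul_left_cancel₀ h2 h3

private theorem A0_ev_map {M M' : Type} [Field M] [Field M'] (f : M →+* M') (x : Option M) (t : M) :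
    ev (x.map f) (f t) = f (ev x t) := by
  cases x with
  | none => exact (map_one f).symm
  | some x => exact (map_sub f t x).symm

theorem lR_map {M M' : Type} [Field M] [Field M'] (f : M →+* M') (c : Dat M) (x : Option M) (i : Fin 3) :
    lR (c.map f) (x.map f) i = f (lR c x i) := by
  unfold lR
  rw [kb_map, ka_map, map_div₀, map_neg, map_mul, map_mul, ← A0_ev_map f x, ← A0_ev_map f x]
  rfl

private theorem A0_cA_map {M M' : Type} [Field M] [Field M'] (f : M →+* M') (c : Dat M) (R : Fin 3 → M)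
    (i : Fin 3) : cA (c.map f) (fun j => f (R j)) i = f (cA c R i) := by
  unfold cA
  rw [kb_map, ka_map, map_add, map_mul]

private theorem A0_cB_map {M M' : Type} [Field M] [Field M'] (f : M →+* M') (c : Dat M) (R : Fin 3 → M)
    (i : Fin 3) : cB (c.map f) (fun j => f (R j)) i = f (cB c R i) := by
  unfold cB
  rw [kb_map, ka_map, map_add, map_mul, map_mul, map_mul]
  rfl

theorem crs_map {M M' : Type} [Field M] [Field M'] (f : M →+* M') (c : Dat M) (R : Fin 3 → M) (i : Fin 3) :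
    crs (c.map f) (fun j => f (R j)) i = f (crs c R i) := by
  unfold crs
  rw [A0_cA_map, A0_cA_map, A0_cB_map, A0_cB_map, map_sub, map_mul, map_mul]

theorem nu_ne {c : Dat k} (hc : c.Good) {ν : k} (hν : ν ^ c.n = ∏ i, (-(kb c i) / ka c i)) : ν ≠ 0 := by
  rintro rfl
  rw [zero_pow (by have := hc.two; omega)] at hν
  obtain ⟨i, -, hi⟩ := Finset.prod_eq_zero_iff.1 hν.symm
  exact div_ne_zero (neg_ne_zero.2 (kb_ne hc i)) (ka_ne hc i) hi

theorem nu_map {c : Dat k} {ν : k} (hν : ν ^ c.n = ∏ i, (-(kb c i) / ka c i)) (M : Type) [Field M] [Algebra k M] :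
    (algebraMap k M ν) ^ (c.over M).n = ∏ i, (-(kb (c.over M) i) / ka (c.over M) i) := by
  change (algebraMap k M ν) ^ c.n = _
  rw [← map_pow, hν, map_prod]
  refine Finset.prod_congr rfl fun i _ => ?_
  rw [map_div₀, map_neg, ← kb_map, ← ka_map]

/-- a Z-point with constant `R` is constant if the cross product is not zero -/
theorem cst_of_crs {c : Dat k} {M : Type} [Field M] [Algebra k M] {z : Zp M} (hz : IsZ (c.over M) z)
    (h2 : 2 ≤ c.n) (r : Fin 3 → k) (hr : ∀ i, z.R i = algebraMap k M (r i)) (h : ∃ i, crs c r i ≠ 0) :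
    CstZ k z := by
  have h0 : z.R = fun i => algebraMap k M (r i) := funext hr
  have h1 : ∀ i, crs (c.over M) z.R i = algebraMap k M (crs c r i) := by
    intro i
    rw [h0]
    exact crs_map (algebraMap k M) c r i
  obtain ⟨i₀, hi₀⟩ := h
  obtain ⟨l, hl, hY⟩ := Y_of_crs hz ⟨i₀, by
    rw [h1]
    exact (_root_.map_ne_zero _).2 hi₀⟩
  refine ⟨fun i => ?_, ?_, fun i j => ?_⟩
  · rw [hr i]
    exact isAlgebraic_algebraMap _
  · have h3 : z.u ^ c.n = algebraMap k M (∏ i, r i) := by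
      rw [map_prod]
      have h4 := hz.un
      rw [h0] at h4
      exact h4
    have h5 : IsAlgebraic k (z.u ^ c.n) := by
      rw [h3]
      exact isAlgebraic_algebraMap _
    exact IsAlgebraic.of_pow (by omega) h5
  · have h3 : z.Y i / z.Y j = algebraMap k M (crs c r i / crs c r j) := by
      rw [hY i, hY j, mul_div_mul_left _ _ hl, h1, h1, map_div₀]
    rw [h3]
    exact isAlgebraic_algebraMap _

end Pool.Agent.LibCW77
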