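import Pool.Agent.LibCW77.Defs6
import Pool.Agent.LibCW77.T0

/-!
[CW77 B1] Algebra of the six points under the condition `ND` (all over one field `M`). Let `e_i = (t - a_i) (t - b_i)`; `ND` says that `e_0, e_1, e_2`
are linearly independent (a basis of the polynomials of degree `≤ 2`). `res_poly`: three linear forms `l_i(p') = ka_i p(a_i) p'(a_i) + kb_i p(b_i) p'(b_i)` on the
space of polynomials of degree `≤ 2` with `l_0 + l_1 + l_2 = 0` (`lagrange` for `p * p'`), so there is a common zero: e.g. the cross product of the coefficient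
vectors of `l_0`, `l_1`, or any nonzero zero of `l_0` if `l_0, l_1` are dependent (or dimension count: `LinearMap` to `Fin 2 → M` has a kernel). `res_uniq`: if the
space of solutions had dimension `≥ 2` the three forms `l_i = X_i ka_i e_(a_i) + Y_i kb_i e_(b_i)` (none is zero) would be proportional to one form `l`; `l_i(e_i) = 0`, so
`l(e_0) = l(e_1) = l(e_2) = 0`, `l = 0`, a contradiction. `pen_poly`, `pen_uniq`: `Π_i`, the space of the `p` of degree `≤ 2` with the two relations `j ≠ i`: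
the two relations are equivalent (`lagrange` for `e_i * p`), so `dim Π_i = 2`; `p ↦ (p(a_i), p(b_i))` is injective on `Π_i`: the kernel is spanned by `e_i`, and
`e_i ∈ Π_i` means `ka_j e_i(a_j) ^ 2 + kb_j e_i(b_j) ^ 2 = 0`, i.e. (with `1 / ka_j = e_i(a_j) e_m(a_j) (a_j - b_j)`, `1 / kb_j = e_i(b_j) e_m(b_j) (b_j - a_j)`, `{i, j, m} = {0, 1, 2}`)
`e_i(a_j) e_m(b_j) = e_i(b_j) e_m(a_j)`: a combination of `e_i, e_m` vanishes at `a_j` and `b_j`, so it is a multiple of `e_j`, against `ND`. `pen_node`: `e_m ∈ Π_i` for `m ≠ i`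
(the sum of the two terms is `1 / (a_j - b_j) + 1 / (b_j - a_j) = 0`). It is enough to treat `i = 0` and to permute, or write everything out with `fin_cases i`.
-/

open scoped Classical
open Polynomial

namespace Pool.Agent.LibCW77

open Pool.Agent.LibBH2
open Pool.Agent.LibCHd (VR RF Red FunF)

variable {k : Type} [Field k]

private theorem B1_aa {M : Type} {c : Dat M} (hc : c.Good) {i j : Fin 3} (h : i ≠ j) :
    c.a i ≠ c.a j := by
  intro e
  have h1 : Sum.elim c.a c.b (Sum.inl i) = Sum.elim c.a c.b (Sum.inl j) := e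
  exact h (Sum.inl_injective (hc.inj h1))

private theorem B1_bb {M : Type} {c : Dat M} (hc : c.Good) {i j : Fin 3} (h : i ≠ j) :
    c.b i ≠ c.b j := by
  intro e
  have h1 : Sum.elim c.a c.b (Sum.inr i) = Sum.elim c.a c.b (Sum.inr j) := e
  exact h (Sum.inr_injective (hc.inj h1))

private theorem B1_ab {M : Type} {c : Dat M} (hc : c.Good) (i j : Fin 3) :
    c.a i ≠ c.b j := by
  intro e
  have h1 : Sum.elim c.a c.b (Sum.inl i) = Sum.elim c.a c.b (Sum.inr j) := e
  exact absurd (hc.inj h1) (by simp)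

private theorem B1_ev2 {M : Type} [Field M] {p : M[X]} (hp : p.natDegree ≤ 2) (t : M) :
    p.eval t = p.coeff 0 + p.coeff 1 * t + p.coeff 2 * t ^ 2 := by
  have h1 : p.degree ≤ 2 := by
    exact_mod_cast Polynomial.natDegree_le_iff_degree_le.mp hp
  have h2 := Polynomial.eq_quadratic_of_degree_le_two h1
  conv_lhs => rw [h2]
  simp only [eval_add, eval_mul, eval_C, eval_pow, eval_X]
  ring

private theorem B1_ext2 {M : Type} [Field M] {p q : M[X]} (hp : p.natDegree ≤ 2) (hq : q.natDegree ≤ 2)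
    (h0 : p.coeff 0 = q.coeff 0) (h1 : p.coeff 1 = q.coeff 1) (h2 : p.coeff 2 = q.coeff 2) : p = q := by
  ext n
  by_cases hn : n ≤ 2
  · interval_cases n
    · exact h0
    · exact h1
    · exact h2
  · rw [Polynomial.coeff_eq_zero_of_natDegree_lt (by omega),
      Polynomial.coeff_eq_zero_of_natDegree_lt (by omega)]

private theorem B1_erase : ∀ i j m : Fin 3, i ≠ j → i ≠ m → j ≠ m →
    Finset.univ.erase j = ({i, m} : Finset (Fin 3)) := by
  decide

private theorem B1_univ : ∀ i j m : Fin 3, i ≠ j → i ≠ m → j ≠ m →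
    (Finset.univ : Finset (Fin 3)) = {i, j, m} := by
  decide

private theorem B1_other : ∀ i : Fin 3, ∃ j : Fin 3, i ≠ j := by
  decide

private theorem B1_third : ∀ i j : Fin 3, i ≠ j → ∃ m : Fin 3, i ≠ m ∧ j ≠ m := by
  decide

private theorem B1_prod {M : Type} [Field M] {i j m : Fin 3} (h1 : i ≠ j) (h2 : i ≠ m) (h3 : j ≠ m)
    (f : Fin 3 → M) : ∏ l, f l = f i * (f j * f m) := by
  rw [B1_univ i j m h1 h2 h3, Finset.prod_insert (by simp [h1, h2]), Finset.prod_insert (by simp [h3]),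
    Finset.prod_singleton]

private theorem B1_ka {M : Type} [Field M] {c : Dat M} {i j m : Fin 3} (h1 : i ≠ j) (h2 : i ≠ m)
    (h3 : j ≠ m) : ka c j = ((c.a j - c.b j) * (en c i (c.a j) * en c m (c.a j)))⁻¹ := by
  unfold ka
  rw [B1_erase i j m h1 h2 h3, Finset.prod_pair h2, B1_prod h1 h2 h3]
  congr 1
  unfold en
  ring

private theorem B1_kb {M : Type} [Field M] {c : Dat M} {i j m : Fin 3} (h1 : i ≠ j) (h2 : i ≠ m)
    (h3 : j ≠ m) : kb c j = ((c.b j - c.a j) * (en c i (c.b j) * en c m (c.b j)))⁻¹ := by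
  unfold kb
  rw [B1_erase i j m h1 h2 h3, Finset.prod_pair h2, B1_prod h1 h2 h3]
  congr 1
  unfold en
  ring

private theorem B1_ena {M : Type} [Field M] {c : Dat M} (hc : c.Good) {i j : Fin 3} (h : i ≠ j) :
    en c i (c.a j) ≠ 0 := by
  unfold en
  exact mul_ne_zero (sub_ne_zero.mpr (B1_aa hc (Ne.symm h))) (sub_ne_zero.mpr (B1_ab hc j i))

private theorem B1_enb {M : Type} [Field M] {c : Dat M} (hc : c.Good) {i j : Fin 3} (h : i ≠ j) :
    en c i (c.b j) ≠ 0 := by
  unfold en
  exact mul_ne_zero (sub_ne_zero.mpr (Ne.symm (B1_ab hc i j))) (sub_ne_zero.mpr (B1_bb hc (Ne.symm h)))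

private theorem B1_ka0 {M : Type} [Field M] {c : Dat M} (hc : c.Good) (j : Fin 3) : ka c j ≠ 0 := by
  obtain ⟨i, m, h1, h2, h3⟩ : ∃ i m : Fin 3, i ≠ j ∧ i ≠ m ∧ j ≠ m := by
    revert j
    decide
  rw [B1_ka h1 h2 h3]
  exact inv_ne_zero (mul_ne_zero (sub_ne_zero.mpr (B1_ab hc j j))
    (mul_ne_zero (B1_ena hc h1) (B1_ena hc (Ne.symm h3))))

private theorem B1_kb0 {M : Type} [Field M] {c : Dat M} (hc : c.Good) (j : Fin 3) : kb c j ≠ 0 := by
  obtain ⟨i, m, h1, h2, h3⟩ : ∃ i m : Fin 3, i ≠ j ∧ i ≠ m ∧ j ≠ m := by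
    revert j
    decide
  rw [B1_kb h1 h2 h3]
  exact inv_ne_zero (mul_ne_zero (sub_ne_zero.mpr (Ne.symm (B1_ab hc j j)))
    (mul_ne_zero (B1_enb hc h1) (B1_enb hc (Ne.symm h3))))

/-- the determinant, for any order of the three indices -/
private theorem B1_nd {M : Type} [Field M] {c : Dat M} (hn : ND c) {i j m : Fin 3} (h1 : i ≠ j)
    (h2 : i ≠ m) (h3 : j ≠ m) :
    (c.a j + c.b j - (c.a i + c.b i)) * (c.a m * c.b m - c.a i * c.b i) -
      (c.a m + c.b m - (c.a i + c.b i)) * (c.a j * c.b j - c.a i * c.b i) ≠ 0 := by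
  intro h
  apply hn
  fin_cases i <;> fin_cases j <;> fin_cases m <;>
    first
    | exact absurd rfl h1
    | exact absurd rfl h2
    | exact absurd rfl h3
    | (simp only [Fin.zero_eta, Fin.mk_one, Fin.reduceFinMk] at h; linear_combination h)
    | (simp only [Fin.zero_eta, Fin.mk_one, Fin.reduceFinMk] at h; linear_combination -h)

private theorem B1_rel {M : Type} [Field M] {c : Dat M} (hc : c.Good) (hn : ND c) {i j : Fin 3}
    (h : i ≠ j) :
    ka c j * (en c i (c.a j) * en c i (c.a j)) + kb c j * (en c i (c.b j) * en c i (c.b j)) ≠ 0 := by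
  obtain ⟨m, h2, h3⟩ := B1_third i j h
  rw [B1_ka h h2 h3, B1_kb h h2 h3]
  have e1 := B1_ena hc h
  have e2 := B1_ena hc (Ne.symm h3)
  have e3 := B1_enb hc h
  have e4 := B1_enb hc (Ne.symm h3)
  have e5 : c.a j - c.b j ≠ 0 := sub_ne_zero.mpr (B1_ab hc j j)
  have e6 : c.b j - c.a j ≠ 0 := sub_ne_zero.mpr (Ne.symm (B1_ab hc j j))
  intro h0
  have h4 : ((c.a j - c.b j) * (en c i (c.a j) * en c m (c.a j)))⁻¹ * (en c i (c.a j) * en c i (c.a j)) +
      ((c.b j - c.a j) * (en c i (c.b j) * en c m (c.b j)))⁻¹ * (en c i (c.b j) * en c i (c.b j)) =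
      (en c i (c.a j) * en c m (c.b j) - en c i (c.b j) * en c m (c.a j)) /
        ((c.a j - c.b j) * (en c m (c.a j) * en c m (c.b j))) := by
    rw [show c.b j - c.a j = -(c.a j - c.b j) by ring]
    field_simp
    ring
  rw [h4, div_eq_zero_iff] at h0
  rcases h0 with h0 | h0
  · apply B1_nd hn h h2 h3
    have h5 : en c i (c.a j) * en c m (c.b j) - en c i (c.b j) * en c m (c.a j) =
        (c.a j - c.b j) * ((c.a j + c.b j - (c.a i + c.b i)) * (c.a m * c.b m - c.a i * c.b i) -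
          (c.a m + c.b m - (c.a i + c.b i)) * (c.a j * c.b j - c.a i * c.b i)) := by
      unfold en
      ring
    rw [h5] at h0
    rcases mul_eq_zero.mp h0 with h6 | h6
    · exact absurd h6 e5
    · exact h6
  · exact absurd h0 (mul_ne_zero e5 (mul_ne_zero e2 e4))

private theorem B1_inj {M : Type} [Field M] {c : Dat M} (hc : c.Good) (hn : ND c) {i j : Fin 3}
    (h : i ≠ j) {p : M[X]} (hp : p.natDegree ≤ 2) (ha : p.eval (c.a i) = 0) (hb : p.eval (c.b i) = 0)
    (hr : ka c j * (en c i (c.a j) * p.eval (c.a j)) + kb c j * (en c i (c.b j) * p.eval (c.b j)) = 0) :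
    p = 0 := by
  rw [B1_ev2 hp] at ha hb
  have hab : c.a i - c.b i ≠ 0 := sub_ne_zero.mpr (B1_ab hc i i)
  have h1 : p.coeff 1 = -(p.coeff 2 * (c.a i + c.b i)) := by
    have h2 : (c.a i - c.b i) * (p.coeff 1 + p.coeff 2 * (c.a i + c.b i)) = 0 := by
      linear_combination ha - hb
    rcases mul_eq_zero.mp h2 with h3 | h3
    · exact absurd h3 hab
    · linear_combination h3
  have h0 : p.coeff 0 = p.coeff 2 * (c.a i * c.b i) := by
    linear_combination ha - c.a i * h1
  have hev : ∀ t, p.eval t = p.coeff 2 * en c i t := by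
    intro t
    rw [B1_ev2 hp, h1, h0]
    unfold en
    ring
  rw [hev, hev] at hr
  have h2 : p.coeff 2 * (ka c j * (en c i (c.a j) * en c i (c.a j)) +
      kb c j * (en c i (c.b j) * en c i (c.b j))) = 0 := by
    linear_combination hr
  rcases mul_eq_zero.mp h2 with h3 | h3
  · apply B1_ext2 hp (by simp)
    · rw [h0, h3]; simp
    · rw [h1, h3]; simp
    · rw [h3]; simp
  · exact absurd h3 (B1_rel hc hn h)

theorem nd_map {M : Type} [Field M] [Algebra k M] {c : Dat k} (h : ND c) : ND (c.over M) := by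
  intro h0
  apply h
  apply (algebraMap k M).injective
  simp only [map_mul, map_sub, map_add]
  exact h0

theorem res_poly {M : Type} [Field M] {c : Dat M} (hc : c.Good) (p : M[X]) (hp : p.natDegree ≤ 2) :
    ∃ p' : M[X], p' ≠ 0 ∧ p'.natDegree ≤ 2 ∧
      ∀ i, ka c i * (p.eval (c.a i) * p'.eval (c.a i)) + kb c i * (p.eval (c.b i) * p'.eval (c.b i)) = 0 := by
  set A : Matrix (Fin 2) (Fin 3) M := fun i j =>
    ka c (Fin.castSucc i) * (p.eval (c.a (Fin.castSucc i)) * c.a (Fin.castSucc i) ^ (j : ℕ)) +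
      kb c (Fin.castSucc i) * (p.eval (c.b (Fin.castSucc i)) * c.b (Fin.castSucc i) ^ (j : ℕ)) with hA
  have hker : LinearMap.ker A.mulVecLin ≠ ⊥ := by
    apply LinearMap.ker_ne_bot_of_finrank_lt
    simp
  obtain ⟨x, hx, hx0⟩ := Submodule.exists_mem_ne_zero_of_ne_bot hker
  rw [LinearMap.mem_ker] at hx
  set q : M[X] := C (x 0) + C (x 1) * X + C (x 2) * X ^ 2 with hq
  have hqd : q.natDegree ≤ 2 := by
    rw [hq]
    compute_degree
  have hqe : ∀ t, q.eval t = x 0 + x 1 * t + x 2 * t ^ 2 := by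
    intro t
    rw [hq]
    simp only [eval_add, eval_mul, eval_C, eval_pow, eval_X]
  have hq0 : q ≠ 0 := by
    intro h
    apply hx0
    have c0 : q.coeff 0 = x 0 := by
      rw [hq]; simp [coeff_C, coeff_X]
    have c1 : q.coeff 1 = x 1 := by
      rw [hq]; simp [coeff_C, coeff_X]
    have c2 : q.coeff 2 = x 2 := by
      rw [hq]; simp [coeff_C, coeff_X]
    rw [h] at c0 c1 c2
    funext n
    fin_cases n
    · simpa using c0.symm
    · simpa using c1.symm
    · simpa using c2.symm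
  have hrow : ∀ i : Fin 2, ka c (Fin.castSucc i) *
      (p.eval (c.a (Fin.castSucc i)) * q.eval (c.a (Fin.castSucc i))) +
      kb c (Fin.castSucc i) * (p.eval (c.b (Fin.castSucc i)) * q.eval (c.b (Fin.castSucc i))) = 0 := by
    intro i
    have h := congrFun hx i
    rw [Matrix.mulVecLin_apply, Matrix.mulVec, dotProduct, Fin.sum_univ_three] at h
    rw [hqe, hqe]
    simp only [hA, Pi.zero_apply] at h
    have v0 : ((0 : Fin 3) : ℕ) = 0 := rfl
    have v1 : ((1 : Fin 3) : ℕ) = 1 := rfl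
    have v2 : ((2 : Fin 3) : ℕ) = 2 := rfl
    rw [v0, v1, v2] at h
    linear_combination h
  have r0 := hrow 0
  have r1 := hrow 1
  have hl := lagrange hc (p * q) (le_trans natDegree_mul_le (by omega))
  rw [Fin.sum_univ_three] at hl
  simp only [eval_mul] at hl
  have z0 : Fin.castSucc (0 : Fin 2) = (0 : Fin 3) := rfl
  have z1 : Fin.castSucc (1 : Fin 2) = (1 : Fin 3) := rfl
  rw [z0] at r0
  rw [z1] at r1
  refine ⟨q, hq0, hqd, ?_⟩
  intro i
  fin_cases i
  · exact r0
  · exact r1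
  · show ka c 2 * (p.eval (c.a 2) * q.eval (c.a 2)) + kb c 2 * (p.eval (c.b 2) * q.eval (c.b 2)) = 0
    linear_combination hl - r0 - r1

/-- two nonzero vectors with vanishing minors are proportional -/
private theorem B1_prop {M : Type} [Field M] {p q : M[X]} (hp : p ≠ 0) (hq : q ≠ 0)
    (hp2 : p.natDegree ≤ 2) (hq2 : q.natDegree ≤ 2)
    (m : ∀ i j, i ≤ 2 → j ≤ 2 → p.coeff i * q.coeff j = p.coeff j * q.coeff i) :
    ∃ l : M, l ≠ 0 ∧ q = C l * p := by
  obtain ⟨n, hn2, hn⟩ : ∃ n, n ≤ 2 ∧ p.coeff n ≠ 0 :=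
    ⟨p.natDegree, hp2, by simpa using hp⟩
  have hcd : (C (q.coeff n / p.coeff n) * p).natDegree ≤ 2 :=
    le_trans (natDegree_C_mul_le _ _) hp2
  have key : ∀ j, j ≤ 2 → q.coeff j = (C (q.coeff n / p.coeff n) * p).coeff j := by
    intro j hj
    rw [coeff_C_mul, div_mul_eq_mul_div, eq_div_iff hn]
    have := m n j hn2 hj
    linear_combination this
  have he : q = C (q.coeff n / p.coeff n) * p :=
    B1_ext2 hq2 hcd (key 0 (by omega)) (key 1 (by omega)) (key 2 (by omega))
  refine ⟨q.coeff n / p.coeff n, ?_, he⟩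
  intro h0
  rw [h0] at he
  apply hq
  rw [he]
  simp

theorem res_uniq {M : Type} [Field M] {c : Dat M} (hc : c.Good) (hn : ND c) (X' Y' : Fin 3 → M) (hX : ∀ i, X' i ≠ 0)
    (hY : ∀ i, Y' i ≠ 0) (p q : M[X]) (hp : p ≠ 0) (hq : q ≠ 0) (hp2 : p.natDegree ≤ 2) (hq2 : q.natDegree ≤ 2)
    (h1 : ∀ i, ka c i * (X' i * p.eval (c.a i)) + kb c i * (Y' i * p.eval (c.b i)) = 0)
    (h2 : ∀ i, ka c i * (X' i * q.eval (c.a i)) + kb c i * (Y' i * q.eval (c.b i)) = 0) :
    ∃ l : M, l ≠ 0 ∧ q = C l * p := by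
  -- the minors
  set w0 := p.coeff 1 * q.coeff 2 - p.coeff 2 * q.coeff 1 with hw0
  set w1 := p.coeff 2 * q.coeff 0 - p.coeff 0 * q.coeff 2 with hw1
  set w2 := p.coeff 0 * q.coeff 1 - p.coeff 1 * q.coeff 0 with hw2
  have hw : ∀ i, w0 * (c.a i * c.b i) - w1 * (c.a i + c.b i) + w2 = 0 := by
    intro i
    have g1 := h1 i
    have g2 := h2 i
    rw [B1_ev2 hp2, B1_ev2 hp2] at g1
    rw [B1_ev2 hq2, B1_ev2 hq2] at g2
    set L0 := ka c i * X' i + kb c i * Y' i with hL0
    set L1 := ka c i * X' i * c.a i + kb c i * Y' i * c.b i with hL1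
    set L2 := ka c i * X' i * c.a i ^ 2 + kb c i * Y' i * c.b i ^ 2 with hL2
    have k1 : L0 * p.coeff 0 + L1 * p.coeff 1 + L2 * p.coeff 2 = 0 := by
      rw [hL0, hL1, hL2]; linear_combination g1
    have k2 : L0 * q.coeff 0 + L1 * q.coeff 1 + L2 * q.coeff 2 = 0 := by
      rw [hL0, hL1, hL2]; linear_combination g2
    have x0 : L1 * w2 - L2 * w1 = 0 := by
      rw [hw1, hw2]
      linear_combination p.coeff 0 * k2 - q.coeff 0 * k1
    have x1 : L2 * w0 - L0 * w2 = 0 := by
      rw [hw0, hw2]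
      linear_combination p.coeff 1 * k2 - q.coeff 1 * k1
    have x2 : L0 * w1 - L1 * w0 = 0 := by
      rw [hw0, hw1]
      linear_combination p.coeff 2 * k2 - q.coeff 2 * k1
    have hE : L0 * (c.a i * c.b i) - L1 * (c.a i + c.b i) + L2 = 0 := by
      rw [hL0, hL1, hL2]; ring
    have hL : L1 - L0 * c.b i ≠ 0 := by
      have : L1 - L0 * c.b i = ka c i * X' i * (c.a i - c.b i) := by
        rw [hL0, hL1]; ring
      rw [this]
      exact mul_ne_zero (mul_ne_zero (B1_ka0 hc i) (hX i)) (sub_ne_zero.mpr (B1_ab hc i i))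
    have h3 : (L1 - L0 * c.b i) * (w0 * (c.a i * c.b i) - w1 * (c.a i + c.b i) + w2) = 0 := by
      linear_combination (w1 - w0 * c.b i) * hE + (c.b i * (c.a i + c.b i) - c.a i * c.b i) * x2 +
        x0 + c.b i * x1
    rcases mul_eq_zero.mp h3 with h4 | h4
    · exact absurd h4 hL
    · exact h4
  have hd := B1_nd hn (i := 0) (j := 1) (m := 2) (by decide) (by decide) (by decide)
  have e0 := hw 0
  have e1 := hw 1
  have e2 := hw 2
  have z0 : w0 = 0 := by
    have h3 : w0 * ((c.a 1 + c.b 1 - (c.a 0 + c.b 0)) * (c.a 2 * c.b 2 - c.a 0 * c.b 0) -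
      (c.a 2 + c.b 2 - (c.a 0 + c.b 0)) * (c.a 1 * c.b 1 - c.a 0 * c.b 0)) = 0 := by
      linear_combination (c.a 1 + c.b 1 - (c.a 0 + c.b 0)) * (e2 - e0) -
        (c.a 2 + c.b 2 - (c.a 0 + c.b 0)) * (e1 - e0)
    rcases mul_eq_zero.mp h3 with h4 | h4
    · exact h4
    · exact absurd h4 hd
  have z1 : w1 = 0 := by
    have h3 : w1 * ((c.a 1 + c.b 1 - (c.a 0 + c.b 0)) * (c.a 2 * c.b 2 - c.a 0 * c.b 0) -
      (c.a 2 + c.b 2 - (c.a 0 + c.b 0)) * (c.a 1 * c.b 1 - c.a 0 * c.b 0)) = 0 := by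
      linear_combination (c.a 1 * c.b 1 - c.a 0 * c.b 0) * (e2 - e0) -
        (c.a 2 * c.b 2 - c.a 0 * c.b 0) * (e1 - e0)
    rcases mul_eq_zero.mp h3 with h4 | h4
    · exact h4
    · exact absurd h4 hd
  have z2 : w2 = 0 := by
    rw [z0, z1] at e0
    linear_combination e0
  apply B1_prop hp hq hp2 hq2
  intro i j hi hj
  interval_cases i <;> interval_cases j
  · ring
  · linear_combination z2
  · linear_combination -z1
  · linear_combination -z2
  · ring
  · linear_combination z0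
  · linear_combination z1
  · linear_combination -z0
  · ring

theorem pen_poly {M : Type} [Field M] {c : Dat M} (hc : c.Good) (hn : ND c) (i : Fin 3) (A B : M) :
    ∃ p : M[X], p.natDegree ≤ 2 ∧ p.eval (c.a i) = A ∧ p.eval (c.b i) = B ∧
      ∀ j, j ≠ i → ka c j * (en c i (c.a j) * p.eval (c.a j)) + kb c j * (en c i (c.b j) * p.eval (c.b j)) = 0 := by
  obtain ⟨j, m, h1, h2, h3⟩ : ∃ j m : Fin 3, i ≠ j ∧ i ≠ m ∧ j ≠ m := by
    revert i
    decide
  have hab : c.a i - c.b i ≠ 0 := sub_ne_zero.mpr (B1_ab hc i i)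
  set f : M → M := fun t => A * (t - c.b i) / (c.a i - c.b i) - B * (t - c.a i) / (c.a i - c.b i) with hf
  set R := ka c j * (en c i (c.a j) * en c i (c.a j)) + kb c j * (en c i (c.b j) * en c i (c.b j)) with hR
  have hR0 : R ≠ 0 := B1_rel hc hn h1
  set s := -(ka c j * (en c i (c.a j) * f (c.a j)) + kb c j * (en c i (c.b j) * f (c.b j))) / R with hs
  set p : M[X] := C (A / (c.a i - c.b i)) * (X - C (c.b i)) - C (B / (c.a i - c.b i)) * (X - C (c.a i)) +
    C s * ((X - C (c.a i)) * (X - C (c.b i))) with hp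
  have hpe : ∀ t, p.eval t = f t + s * en c i t := by
    intro t
    rw [hp, hf]
    simp only [eval_add, eval_sub, eval_mul, eval_C, eval_X]
    unfold en
    ring
  have hpd : p.natDegree ≤ 2 := by
    rw [hp]
    compute_degree
  have hj : ka c j * (en c i (c.a j) * p.eval (c.a j)) + kb c j * (en c i (c.b j) * p.eval (c.b j)) = 0 := by
    rw [hpe, hpe]
    have hsR : s * R = -(ka c j * (en c i (c.a j) * f (c.a j)) + kb c j * (en c i (c.b j) * f (c.b j))) := by
      rw [hs, div_mul_cancel₀ _ hR0]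
    rw [hR] at hsR
    linear_combination hsR
  have hena : en c i (c.a i) = 0 := by unfold en; ring
  have henb : en c i (c.b i) = 0 := by unfold en; ring
  have hel : ((X - C (c.a i)) * (X - C (c.b i)) * p).natDegree ≤ 4 := by
    have t1 : ((X - C (c.a i)) * (X - C (c.b i)) : M[X]).natDegree ≤ 2 := by compute_degree
    exact le_trans natDegree_mul_le (by omega)
  have hl := lagrange hc ((X - C (c.a i)) * (X - C (c.b i)) * p) hel
  have hm : ka c m * (en c i (c.a m) * p.eval (c.a m)) + kb c m * (en c i (c.b m) * p.eval (c.b m)) = 0 := by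
    rw [B1_univ i j m h1 h2 h3, Finset.sum_insert (by simp [h1, h2]), Finset.sum_insert (by simp [h3]),
      Finset.sum_singleton] at hl
    simp only [eval_mul, eval_sub, eval_X, eval_C] at hl
    have hl' : ka c i * (en c i (c.a i) * p.eval (c.a i)) + kb c i * (en c i (c.b i) * p.eval (c.b i)) +
        (ka c j * (en c i (c.a j) * p.eval (c.a j)) + kb c j * (en c i (c.b j) * p.eval (c.b j)) +
        (ka c m * (en c i (c.a m) * p.eval (c.a m)) + kb c m * (en c i (c.b m) * p.eval (c.b m)))) = 0 := by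
      unfold en
      exact hl
    rw [hena, henb, hj] at hl'
    linear_combination hl'
  refine ⟨p, hpd, ?_, ?_, ?_⟩
  · rw [hpe, hena, hf]
    field_simp
    ring
  · rw [hpe, henb, hf]
    field_simp
    ring
  · intro j' hj'
    have : j' = j ∨ j' = m := by
      have hmem : j' ∈ (Finset.univ : Finset (Fin 3)) := Finset.mem_univ _
      rw [B1_univ i j m h1 h2 h3] at hmem
      simp only [Finset.mem_insert, Finset.mem_singleton] at hmem
      rcases hmem with h | h | h
      · exact absurd h hj'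
      · exact Or.inl h
      · exact Or.inr h
    rcases this with h | h
    · rw [h]; exact hj
    · rw [h]; exact hm

theorem pen_uniq {M : Type} [Field M] {c : Dat M} (hc : c.Good) (hn : ND c) (i : Fin 3) (p q : M[X]) (hp : p ≠ 0)
    (hq : q ≠ 0) (hp2 : p.natDegree ≤ 2) (hq2 : q.natDegree ≤ 2)
    (h1 : ∀ j, j ≠ i → ka c j * (en c i (c.a j) * p.eval (c.a j)) + kb c j * (en c i (c.b j) * p.eval (c.b j)) = 0)
    (h2 : ∀ j, j ≠ i → ka c j * (en c i (c.a j) * q.eval (c.a j)) + kb c j * (en c i (c.b j) * q.eval (c.b j)) = 0)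
    (h : p.eval (c.a i) * q.eval (c.b i) = q.eval (c.a i) * p.eval (c.b i)) :
    ∃ l : M, l ≠ 0 ∧ q = C l * p := by
  obtain ⟨j, hij⟩ : ∃ j : Fin 3, i ≠ j := B1_other i
  have key : ∀ x y : M, x * p.eval (c.a i) = y * q.eval (c.a i) → x * p.eval (c.b i) = y * q.eval (c.b i) →
      C x * p - C y * q = 0 := by
    intro x y hx hy
    apply B1_inj hc hn hij
    · refine le_trans (natDegree_sub_le _ _) (max_le ?_ ?_)
      · exact le_trans (natDegree_C_mul_le _ _) hp2
      · exact le_trans (natDegree_C_mul_le _ _) hq2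
    · simp only [eval_sub, eval_mul, eval_C]
      linear_combination hx
    · simp only [eval_sub, eval_mul, eval_C]
      linear_combination hy
    · simp only [eval_sub, eval_mul, eval_C]
      linear_combination x * h1 j (Ne.symm hij) - y * h2 j (Ne.symm hij)
  have fin : ∀ x y : M, y ≠ 0 → C x * p - C y * q = 0 → ∃ l : M, l ≠ 0 ∧ q = C l * p := by
    intro x y hy h0
    have hq' : q = C (x / y) * p := by
      have h3 : C y * q = C x * p := (sub_eq_zero.mp h0).symm
      have h4 : C (y⁻¹) * (C y * q) = C (y⁻¹) * (C x * p) := by rw [h3]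
      rw [← mul_assoc, ← C_mul, inv_mul_cancel₀ hy, C_1, one_mul, ← mul_assoc, ← C_mul] at h4
      rw [h4, div_eq_mul_inv, mul_comm x]
    refine ⟨x / y, ?_, hq'⟩
    intro hl
    rw [hl] at hq'
    apply hq
    rw [hq']
    simp
  by_cases ha : p.eval (c.a i) = 0
  · by_cases hb : p.eval (c.b i) = 0
    · exact absurd (B1_inj hc hn hij hp2 ha hb (h1 j (Ne.symm hij))) hp
    · refine fin (q.eval (c.b i)) (p.eval (c.b i)) hb (key _ _ ?_ ?_)
      · linear_combination h
      · ring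
  · refine fin (q.eval (c.a i)) (p.eval (c.a i)) ha (key _ _ ?_ ?_)
    · ring
    · linear_combination -h

theorem pen_node {M : Type} [Field M] {c : Dat M} (hc : c.Good) (i m j : Fin 3) (hm : m ≠ i) (hj : j ≠ i) :
    ka c j * (en c i (c.a j) * en c m (c.a j)) + kb c j * (en c i (c.b j) * en c m (c.b j)) = 0 := by
  by_cases hmj : m = j
  · subst hmj
    have h1 : en c m (c.a m) = 0 := by unfold en; ring
    have h2 : en c m (c.b m) = 0 := by unfold en; ring
    rw [h1, h2]
    ring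
  · rw [B1_ka (Ne.symm hj) (Ne.symm hm) (Ne.symm hmj), B1_kb (Ne.symm hj) (Ne.symm hm) (Ne.symm hmj)]
    have e1 := B1_ena hc (Ne.symm hj)
    have e2 := B1_ena hc hmj
    have e3 := B1_enb hc (Ne.symm hj)
    have e4 := B1_enb hc hmj
    have e5 : c.a j - c.b j ≠ 0 := sub_ne_zero.mpr (B1_ab hc j j)
    rw [show c.b j - c.a j = -(c.a j - c.b j) by ring]
    field_simp
    ring

/-- the product of the ratios for a polynomial of the pencil -/
theorem pen_prod {M : Type} [Field M] {c : Dat M} (hc : c.Good) (i : Fin 3) (p : M[X]) (hb : ∀ j, p.eval (c.b j) ≠ 0)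
    (h1 : ∀ j, j ≠ i → ka c j * (en c i (c.a j) * p.eval (c.a j)) + kb c j * (en c i (c.b j) * p.eval (c.b j)) = 0) :
    ∏ j, p.eval (c.a j) / p.eval (c.b j) = p.eval (c.a i) / p.eval (c.b i) *
      ∏ j ∈ Finset.univ.erase i, (-(kb c j * en c i (c.b j)) / (ka c j * en c i (c.a j))) := by
  rw [← Finset.mul_prod_erase Finset.univ _ (Finset.mem_univ i)]
  congr 1
  apply Finset.prod_congr rfl
  intro j hj
  have hji : j ≠ i := Finset.ne_of_mem_erase hj
  have h := h1 j hji
  have e1 : ka c j * en c i (c.a j) ≠ 0 := mul_ne_zero (B1_ka0 hc j) (B1_ena hc (Ne.symm hji))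
  rw [div_eq_div_iff (hb j) e1]
  linear_combination h

end Pool.Agent.LibCW77
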