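import Pool.Agent.LibCW77.Defs3
import Pool.Agent.LibCHd.B5

/-!
[CW77 D2] Base change of points and of cycles. Template: `LibHL77/E0.lean` (the same statements for products of
hyperelliptic curves: `cyc_mpt`, relfinrank argument), `LibHD77/P1.lean`. `cyc_alg`: all coordinates are algebraic over
`k`, so `k(u)` is algebraic and `M` is not finite over it (`FunF.trdeg`, `B5`), `finrank = 0`.
-/

open scoped Classical
open Polynomial

namespace Pool.Agent.LibCW77

open Pool.Agent.LibBH2
open Pool.Agent.LibCHd (VR RF Red FunF)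

variable {k : Type} [Field k]

private theorem D2_prod_map {M M' : Type} [Field M] [Algebra k M] [Field M'] [Algebra k M']
    (σ : M →ₐ[k] M') (x : M) (f : Fin 3 → k) :
    ∏ i, (σ x - algebraMap k M' (f i)) = σ (∏ i, (x - algebraMap k M (f i))) := by
  rw [map_prod]
  refine Finset.prod_congr rfl fun i _ => ?_
  rw [map_sub, σ.commutes]

private theorem D2_onC_map {c : Dat k} {M M' : Type} [Field M] [Algebra k M] [Field M'] [Algebra k M']
    (σ : M →ₐ[k] M') (x v : Option M) :
    OnC (c.over M') (x.map σ) (v.map σ) ↔ OnC (c.over M) x v := by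
  match x, v with
  | some x, some v =>
    change σ v ^ c.n * ∏ i, (σ x - algebraMap k M' (c.b i)) = ∏ i, (σ x - algebraMap k M' (c.a i)) ↔
      v ^ c.n * ∏ i, (x - algebraMap k M (c.b i)) = ∏ i, (x - algebraMap k M (c.a i))
    rw [D2_prod_map σ x c.b, D2_prod_map σ x c.a, ← map_pow, ← map_mul]
    exact σ.injective.eq_iff
  | none, some v =>
    change σ v ^ c.n = 1 ↔ v ^ c.n = 1
    rw [← map_pow, map_eq_one_iff σ σ.injective]
  | some x, none =>
    change (∃ i, σ x = algebraMap k M' (c.b i)) ↔ ∃ i, x = algebraMap k M (c.b i)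
    refine exists_congr fun i => ?_
    rw [← σ.commutes (c.b i)]
    exact σ.injective.eq_iff
  | none, none => exact Iff.rfl

theorem on_map {m : ℕ} {c : Dat k} {M M' : Type} [Field M] [Algebra k M] [Field M'] [Algebra k M']
    (σ : M →ₐ[k] M') {u : Pnt m M} : On (c.over M') (mpP σ u) ↔ On (c.over M) u :=
  forall_congr' fun j => D2_onC_map σ (u j 0) (u j 1)

theorem tw_map {m : ℕ} {M M' : Type} [Field M] [Algebra k M] [Field M'] [Algebra k M']
    (σ : M →ₐ[k] M') (w : Fin m → k) (u : Pnt m M) : mpP σ (tw w u) = tw w (mpP σ u) := by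
  funext j i
  fin_cases i
  · rfl
  · change ((u j 1).map fun v => algebraMap k M (w j) * v).map σ =
      ((u j 1).map σ).map fun v => algebraMap k M' (w j) * v
    cases u j 1 with
    | none => rfl
    | some v =>
      change some (σ (algebraMap k M (w j) * v)) = some (algebraMap k M' (w j) * σ v)
      rw [map_mul, σ.commutes]

theorem pr_map {m : ℕ} {M M' : Type} (σ : M → M') (s : Equiv.Perm (Fin m)) (u : Pnt m M) :
    mpP σ (pr s u) = pr s (mpP σ u) := rfl

private theorem D2_co_map {m : ℕ} {M M' : Type} [Field M] [Algebra k M] [Field M'] [Algebra k M']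
    (σ : M →ₐ[k] M') (u : Pnt m M) : co (mpP σ u) = fun q => σ (co u q) := by
  funext q
  change ((u q.1 q.2).map σ).getD 0 = σ ((u q.1 q.2).getD 0)
  cases u q.1 q.2 with
  | none => exact (map_zero σ).symm
  | some v => rfl

theorem eqs_map {m : ℕ} {M M' : Type} [Field M] [Algebra k M] [Field M'] [Algebra k M']
    (σ : M →ₐ[k] M') (u : Pnt m M) : eqs k (mpP σ u) = eqs k u := by
  unfold eqs
  congr 1
  · ext q
    change (u q.1 q.2).map σ = none ↔ u q.1 q.2 = none
    exact Option.map_eq_none_iff
  · ext G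
    change MvPolynomial.aeval (co (mpP σ u)) G = 0 ↔ MvPolynomial.aeval (co u) G = 0
    have h2 : MvPolynomial.aeval (co (mpP σ u)) G = σ (MvPolynomial.aeval (co u) G) := by
      rw [D2_co_map, ← AlgHom.comp_apply, MvPolynomial.comp_aeval]
    rw [h2, map_eq_zero]

theorem D2_fld_map {m : ℕ} {M M' : Type} [Field M] [Algebra k M] [Field M'] [Algebra k M']
    (σ : M →ₐ[k] M') (u : Pnt m M) : fld k (mpP σ u) = (fld k u).map σ := by
  unfold fld
  rw [IntermediateField.adjoin_map, D2_co_map]
  congr 1
  rw [← Set.range_comp]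
  rfl

theorem cyc_map {m : ℕ} {M M' : Type} [Field M] [Algebra k M] [Field M'] [Algebra k M']
    (σ : M →ₐ[k] M') (u : Pnt m M) :
    cyc k (mpP σ u) = (Module.finrank σ.fieldRange M' : ℤ) • cyc k u := by
  have h1 : Module.finrank (fld k (mpP σ u)) M' =
      Module.finrank σ.fieldRange M' * Module.finrank (fld k u) M := by
    rw [D2_fld_map, AlgHom.fieldRange_eq_map,
      ← IntermediateField.relfinrank_mul_finrank_top (IntermediateField.map_mono σ (le_top :
        fld k u ≤ ⊤)), IntermediateField.relfinrank_map_map,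
      IntermediateField.relfinrank_top_right, mul_comm]
  rw [cyc, cyc, eqs_map, h1, Finsupp.smul_single]
  congr 1

theorem cls_map {m : ℕ} (c : Dat k) (d : ℕ) {M M' : Type} [Field M] [Algebra k M] [Field M'] [Algebra k M']
    (σ : M →ₐ[k] M') (u : Pnt m M) :
    cls c d (mpP σ u) = (Module.finrank σ.fieldRange M' : ℤ) • cls c d u := by
  unfold cls
  rw [cyc_map]
  rfl

theorem cyc_alg {m d : ℕ} {M : Type} [Field M] [Algebra k M] (hM : FunF k (d + 1) M) (u : Pnt m M)
    (h : ∀ j i x, u j i = some x → IsAlgebraic k x) : cyc k u = 0 := by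
  have hco : ∀ q, IsAlgebraic k (co u q) := by
    intro q
    unfold co
    cases hq : u q.1 q.2 with
    | none => exact isAlgebraic_zero
    | some x => exact h _ _ _ hq
  have h1 : Algebra.IsAlgebraic k (fld k u) := by
    apply IntermediateField.isAlgebraic_adjoin
    rintro _ ⟨q, rfl⟩
    exact (hco q).isIntegral
  have h2 : Module.finrank (fld k u) M = 0 := by
    by_contra h3
    have h4 : Module.Finite (fld k u) M := Module.finite_of_finrank_pos (Nat.pos_of_ne_zero h3)
    have h5 : Algebra.IsAlgebraic k M := Algebra.IsAlgebraic.trans k (fld k u) M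
    have h6 := hM.trdeg
    rw [trdeg_eq_zero_iff.2 h5] at h6
    exact Nat.succ_ne_zero d (by exact_mod_cast h6.symm)
  rw [cyc, h2]
  exact Finsupp.single_zero _

private theorem D2_mem {m : ℕ} {M : Type} [Field M] [Algebra k M] (u : Pnt m M) (q : Fin m × Fin 2) (x : M)
    (h : u q.1 q.2 = some x) : x ∈ fld k u := by
  apply IntermediateField.subset_adjoin
  refine ⟨q, ?_⟩
  unfold co
  rw [h]
  rfl

/-- two generic points of the same subvariety -/
theorem eqs_iso {m : ℕ} {M M' : Type} [Field M] [Algebra k M] [Field M'] [Algebra k M'] (u : Pnt m M)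
    (u' : Pnt m M') (hu : fld k u = ⊤) (hu' : fld k u' = ⊤) (h : eqs k u = eqs k u') :
    ∃ ε : M ≃ₐ[k] M', mpP ε u = u' := by
  have hinf : ∀ q : Fin m × Fin 2, u q.1 q.2 = none ↔ u' q.1 q.2 = none := by
    intro q
    have h1 : (eqs k u).1 = (eqs k u').1 := by rw [h]
    exact (Set.ext_iff.1 h1) q
  have hrel : ∀ G : MvPolynomial (Fin m × Fin 2) k,
      MvPolynomial.aeval (co u) G = 0 ↔ MvPolynomial.aeval (co u') G = 0 := by
    intro G
    have h1 : (eqs k u).2 = (eqs k u').2 := by rw [h]
    exact (Set.ext_iff.1 h1) G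
  let φ : MvPolynomial (Fin m × Fin 2) k →ₐ[k] M := MvPolynomial.aeval (co u)
  let φ' : MvPolynomial (Fin m × Fin 2) k →ₐ[k] M' := MvPolynomial.aeval (co u')
  let I : Ideal (MvPolynomial (Fin m × Fin 2) k) := RingHom.ker φ
  let g : MvPolynomial (Fin m × Fin 2) k ⧸ I →ₐ[k] M :=
    Ideal.Quotient.liftₐ I φ (fun a ha => ha)
  let g' : MvPolynomial (Fin m × Fin 2) k ⧸ I →ₐ[k] M' :=
    Ideal.Quotient.liftₐ I φ' (fun a ha => (hrel a).1 ha)
  have hg : Function.Injective g := by
    rw [injective_iff_map_eq_zero]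
    intro a
    obtain ⟨G, rfl⟩ := Ideal.Quotient.mk_surjective a
    intro ha
    exact Ideal.Quotient.eq_zero_iff_mem.2 ha
  have hg' : Function.Injective g' := by
    rw [injective_iff_map_eq_zero]
    intro a
    obtain ⟨G, rfl⟩ := Ideal.Quotient.mk_surjective a
    intro ha
    exact Ideal.Quotient.eq_zero_iff_mem.2 ((hrel G).2 ha)
  let _ : Algebra (MvPolynomial (Fin m × Fin 2) k ⧸ I) M := (g : _ →+* M).toAlgebra
  let _ : Algebra (MvPolynomial (Fin m × Fin 2) k ⧸ I) M' := (g' : _ →+* M').toAlgebra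
  have ht : IsScalarTower k (MvPolynomial (Fin m × Fin 2) k ⧸ I) M :=
    IsScalarTower.of_algebraMap_eq fun x => (g.commutes x).symm
  have ht' : IsScalarTower k (MvPolynomial (Fin m × Fin 2) k ⧸ I) M' :=
    IsScalarTower.of_algebraMap_eq fun x => (g'.commutes x).symm
  have hf1 : FaithfulSMul (MvPolynomial (Fin m × Fin 2) k ⧸ I) M :=
    (faithfulSMul_iff_algebraMap_injective _ _).2 hg
  have hf2 : FaithfulSMul (MvPolynomial (Fin m × Fin 2) k ⧸ I) M' :=
    (faithfulSMul_iff_algebraMap_injective _ _).2 hg'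
  have hfr : IsFractionRing (MvPolynomial (Fin m × Fin 2) k ⧸ I) M := by
    apply IsFractionRing.of_field
    intro z
    have hz : z ∈ IntermediateField.adjoin k (Set.range (co u)) := by
      change z ∈ fld k u
      rw [hu]
      exact IntermediateField.mem_top
    obtain ⟨r, s, hrs⟩ := (IntermediateField.mem_adjoin_range_iff k (co u) z).1 hz
    exact ⟨Ideal.Quotient.mk I r, Ideal.Quotient.mk I s, hrs⟩
  have hfr' : IsFractionRing (MvPolynomial (Fin m × Fin 2) k ⧸ I) M' := by
    apply IsFractionRing.of_field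
    intro z
    have hz : z ∈ IntermediateField.adjoin k (Set.range (co u')) := by
      change z ∈ fld k u'
      rw [hu']
      exact IntermediateField.mem_top
    obtain ⟨r, s, hrs⟩ := (IntermediateField.mem_adjoin_range_iff k (co u') z).1 hz
    exact ⟨Ideal.Quotient.mk I r, Ideal.Quotient.mk I s, hrs⟩
  let ε₀ : M ≃ₐ[MvPolynomial (Fin m × Fin 2) k ⧸ I] M' :=
    IsLocalization.algEquiv (nonZeroDivisors (MvPolynomial (Fin m × Fin 2) k ⧸ I)) M M'
  refine ⟨ε₀.restrictScalars k, funext fun a => funext fun b => ?_⟩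
  have h1 : co u (a, b) = algebraMap (MvPolynomial (Fin m × Fin 2) k ⧸ I) M
      (Ideal.Quotient.mk I (MvPolynomial.X (a, b))) := by
    change co u (a, b) = MvPolynomial.aeval (co u) (MvPolynomial.X (a, b))
    rw [MvPolynomial.aeval_X]
  have h2 : co u' (a, b) = algebraMap (MvPolynomial (Fin m × Fin 2) k ⧸ I) M'
      (Ideal.Quotient.mk I (MvPolynomial.X (a, b))) := by
    change co u' (a, b) = MvPolynomial.aeval (co u') (MvPolynomial.X (a, b))
    rw [MvPolynomial.aeval_X]
  have h3 : ε₀ (co u (a, b)) = co u' (a, b) := by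
    rw [h1, h2]
    exact ε₀.commutes _
  change (u a b).map (ε₀.restrictScalars k) = u' a b
  cases hx : u a b with
  | none => exact ((hinf (a, b)).1 hx).symm
  | some x =>
    cases hx' : u' a b with
    | none =>
      have h4 := (hinf (a, b)).2 hx'
      rw [show u (a, b).1 (a, b).2 = u a b from rfl, hx] at h4
      cases h4
    | some x' =>
      have h5 : co u (a, b) = x := by
        change (u a b).getD 0 = x
        rw [hx]
        rfl
      have h6 : co u' (a, b) = x' := by
        change (u' a b).getD 0 = x'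
        rw [hx']
        rfl
      rw [h5, h6] at h3
      exact congrArg some h3

theorem exists_min {m : ℕ} {M : Type} [Field M] [Algebra k M] (u : Pnt m M) :
    ∃ u₀ : Pnt m (fld k u), fld k u₀ = ⊤ ∧ mpP (fld k u).val u₀ = u := by
  have h1 : ∀ j i, ∃ p : Option (fld k u), p.map (fld k u).val = u j i := by
    intro j i
    cases hx : u j i with
    | none => exact ⟨none, rfl⟩
    | some x => exact ⟨some ⟨x, D2_mem u (j, i) x hx⟩, rfl⟩
  choose u₀ hu₀ using h1
  have h2 : mpP (fld k u).val u₀ = u := funext fun j => funext fun i => hu₀ j i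
  refine ⟨u₀, ?_, h2⟩
  apply IntermediateField.map_injective (fld k u).val
  have h3 := D2_fld_map (fld k u).val u₀
  rw [h2] at h3
  rw [← h3, ← AlgHom.fieldRange_eq_map, IntermediateField.fieldRange_val]

end Pool.Agent.LibCW77
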