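import Pool.Agent.LibCW77.Defs3
import Pool.Agent.LibCHd.Api

/-!
[CW77 D1] Specialisation of points. Plan: API `LibCHd.Api` (Red.unique, exists_red, red_iff_sub, Red.pow, Red.mul, Red.add,
red_const). `spO_exists`: `none`, `x` with `v.ord x < 0`, or `v.Reg x`. `on_sp`: cases on the two coordinates and their
specialisations. Both finite, specialisations finite: reduce the equation. `v.ord x < 0`, `v` finite: if `y = v`: compare
orders in `y ^ n * ∏ (x - b_i) = ∏ (x - a_i)` (`x - a = x (1 - a/x)`), the residue of `y ^ n` is `1`. `y.ord < 0`: then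
`∏ (x - b_i)` vanishes (x regular: `y ^ n` has a pole and the right side is regular), so `x ≡ b_i`; and if `x` has a pole
`y ^ n` is a unit: contradiction. `(none, some v)`: `v ^ n = 1`, regular. `(some x, none)`: `x = b_i` constant.
-/

open scoped Classical
open Polynomial

namespace Pool.Agent.LibCW77

open Pool.Agent.LibBH2
open Pool.Agent.LibCHd (VR RF Red FunF)

variable {k : Type} [Field k]

private theorem not_reg_of_neg {K : Type} [Field K] [Algebra k K] (v : Place k K) {x : K} (h : v.ord x < 0) :
    ¬ v.Reg x := by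
  rintro (h1 | h1)
  · rw [h1, v.ord_zero] at h
    exact lt_irrefl _ h
  · omega

private theorem neg_of_not_reg {K : Type} [Field K] [Algebra k K] (v : Place k K) {x : K} (h : ¬ v.Reg x) :
    v.ord x < 0 := by
  by_contra h1
  exact h (Or.inr (by omega))

theorem spO_exists {K : Type} [Field K] [Algebra k K] (v : Place k K) (o : Option K) :
    ∃ p : Option (RF v), SpO v o p := by
  rcases o with _ | x
  · exact ⟨none, rfl⟩
  · by_cases h : v.Reg x
    · obtain ⟨c, hc⟩ := Pool.Agent.LibCHd.exists_red h
      exact ⟨some c, hc⟩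
    · exact ⟨none, neg_of_not_reg v h⟩

theorem spO_unique {K : Type} [Field K] [Algebra k K] {v : Place k K} {o : Option K} {p p' : Option (RF v)}
    (h : SpO v o p) (h' : SpO v o p') : p = p' := by
  rcases o with _ | x
  · have h1 : p = none := h
    have h2 : p' = none := h'
    rw [h1, h2]
  · rcases p with _ | c <;> rcases p' with _ | c'
    · rfl
    · have h1 : v.ord x < 0 := h
      have h2 : Red v x c' := h'
      exact absurd h2.reg (not_reg_of_neg v h1)
    · have h1 : v.ord x < 0 := h'
      have h2 : Red v x c := h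
      exact absurd h2.reg (not_reg_of_neg v h1)
    · have h1 : Red v x c := h
      have h2 : Red v x c' := h'
      rw [h1.unique h2]

theorem spP_exists {m : ℕ} {K : Type} [Field K] [Algebra k K] (v : Place k K) (u : Pnt m K) :
    ∃ q : Pnt m (RF v), SpP v u q := by
  choose q hq using fun j i => spO_exists v (u j i)
  exact ⟨q, hq⟩

theorem spP_unique {m : ℕ} {K : Type} [Field K] [Algebra k K] {v : Place k K} {u : Pnt m K}
    {q q' : Pnt m (RF v)} (h : SpP v u q) (h' : SpP v u q') : q = q' := by
  funext j i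
  exact spO_unique (h j i) (h' j i)

/-- the quotient `(x - a) / x` at a pole of `x` -/
private theorem red_pole {K : Type} [Field K] [Algebra k K] {v : Place k K} {x : K} (h : v.ord x < 0) (a : k) :
    Red v ((x - algebraMap k K a) / x) 1 := by
  have hx : x ≠ 0 := by
    rintro rfl
    rw [v.ord_zero] at h
    exact lt_irrefl _ h
  rw [Pool.Agent.LibCHd.red_iff_sub (Pool.Agent.LibCHd.red_one v)]
  have h1 : (x - algebraMap k K a) / x - 1 = -(algebraMap k K a * x⁻¹) := by
    field_simp
    ring
  rw [h1]
  refine Place.Zer.neg ?_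
  refine Place.Zer.reg_mul (v.reg_const a) (Or.inr ?_)
  rw [v.ord_inv]
  omega

private theorem red_prod3 {K : Type} [Field K] [Algebra k K] {v : Place k K} {x : K} {x0 : RF v}
    (h : Red v x x0) (a : Fin 3 → k) :
    Red v (∏ i, (x - algebraMap k K (a i))) (∏ i, (x0 - algebraMap k (RF v) (a i))) := by
  rw [Fin.prod_univ_three, Fin.prod_univ_three]
  exact ((h.sub (Pool.Agent.LibCHd.red_const v _)).mul (h.sub (Pool.Agent.LibCHd.red_const v _))).mul
    (h.sub (Pool.Agent.LibCHd.red_const v _))

private theorem red_pole3 {K : Type} [Field K] [Algebra k K] {v : Place k K} {x : K} (h : v.ord x < 0)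
    (a : Fin 3 → k) : Red v (∏ i, ((x - algebraMap k K (a i)) / x)) 1 := by
  rw [Fin.prod_univ_three]
  have := ((red_pole h (a 0)).mul (red_pole h (a 1))).mul (red_pole h (a 2))
  simpa using this

private theorem pole_eq {K : Type} [Field K] [Algebra k K] {x y : K}
    (a b : Fin 3 → k) (n : ℕ)
    (he : y ^ n * ∏ i, (x - algebraMap k K (b i)) = ∏ i, (x - algebraMap k K (a i))) :
    y ^ n * ∏ i, ((x - algebraMap k K (b i)) / x) = ∏ i, ((x - algebraMap k K (a i)) / x) := by
  rw [Finset.prod_div_distrib, Finset.prod_div_distrib, ← he, mul_div_assoc]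

/-- a pole of `y` is a pole of `y ^ n * z` if `z` is a unit -/
private theorem pole_mul {K : Type} [Field K] [Algebra k K] {v : Place k K} {y z : K} {z0 : RF v}
    (h : v.ord y < 0) {n : ℕ} (hn : 0 < n) (hz : Red v z z0) (hz0 : z0 ≠ 0) : ¬ v.Reg (y ^ n * z) := by
  have hy : y ≠ 0 := by
    rintro rfl
    rw [v.ord_zero] at h
    exact lt_irrefl _ h
  have hz1 : z ≠ 0 := hz.ne_zero hz0
  apply not_reg_of_neg
  rw [v.ord_mul _ _ (pow_ne_zero _ hy) hz1, v.ord_pow, hz.ord_eq_zero hz0, add_zero]
  have hn' : (0 : ℤ) < n := by exact_mod_cast hn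
  exact mul_neg_of_pos_of_neg hn' h

theorem on_sp {m : ℕ} {c : Dat k} (hc : c.Good) {K : Type} [Field K] [Algebra k K] {v : Place k K}
    {u : Pnt m K} {q : Pnt m (RF v)} (hu : On (c.over K) u) (h : SpP v u q) : On (c.over (RF v)) q := by
  have hn : 0 < c.n := by have := hc.two; omega
  intro j
  have h0 := h j 0
  have h1 := h j 1
  have hj := hu j
  revert h0 h1 hj
  generalize u j 0 = X
  generalize u j 1 = Y
  generalize q j 0 = P
  generalize q j 1 = Q
  intro h0 h1 hj
  rcases X with _ | x <;> rcases Y with _ | y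
  · exact absurd hj (by simp [OnC])
  · -- `(∞, y)`
    have hP : P = none := h0
    subst hP
    have hy : y ^ c.n = 1 := hj
    rcases Q with _ | y0
    · exfalso
      have h2 : v.ord y < 0 := h1
      have h3 := pole_mul h2 hn (Pool.Agent.LibCHd.red_one v) one_ne_zero
      rw [mul_one, hy] at h3
      exact h3 (Pool.Agent.LibCHd.red_one v).reg
    · have h2 : Red v y y0 := h1
      have h3 := h2.pow c.n
      rw [hy] at h3
      exact h3.unique (Pool.Agent.LibCHd.red_one v)
  · -- `(x, ∞)`
    have hQ : Q = none := h1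
    subst hQ
    obtain ⟨i, hi⟩ : ∃ i, x = algebraMap k K (c.b i) := hj
    rcases P with _ | x0
    · exfalso
      have h2 : v.ord x < 0 := h0
      rw [hi] at h2
      exact not_reg_of_neg v h2 (v.reg_const _)
    · have h2 : Red v x x0 := h0
      refine ⟨i, ?_⟩
      rw [hi] at h2
      exact h2.unique (Pool.Agent.LibCHd.red_const v _)
  · -- `(x, y)`
    have he : y ^ c.n * ∏ i, (x - algebraMap k K (c.b i)) = ∏ i, (x - algebraMap k K (c.a i)) := hj
    rcases P with _ | x0
    · have h2 : v.ord x < 0 := h0
      have h3 := pole_eq c.a c.b c.n he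
      rcases Q with _ | y0
      · exfalso
        have h4 : v.ord y < 0 := h1
        have h5 := pole_mul h4 hn (red_pole3 h2 c.b) one_ne_zero
        rw [h3] at h5
        exact h5 (red_pole3 h2 c.a).reg
      · have h4 : Red v y y0 := h1
        have h5 := (h4.pow c.n).mul (red_pole3 h2 c.b)
        rw [h3, mul_one] at h5
        exact h5.unique (red_pole3 h2 c.a)
    · have h2 : Red v x x0 := h0
      rcases Q with _ | y0
      · have h4 : v.ord y < 0 := h1
        change ∃ i, x0 = algebraMap k (RF v) (c.b i)
        by_contra hcon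
        push Not at hcon
        have hne : ∏ i, (x0 - algebraMap k (RF v) (c.b i)) ≠ 0 := by
          rw [Finset.prod_ne_zero_iff]
          intro i _
          exact sub_ne_zero.2 (hcon i)
        have h5 := pole_mul h4 hn (red_prod3 h2 c.b) hne
        rw [he] at h5
        exact h5 (red_prod3 h2 c.a).reg
      · have h4 : Red v y y0 := h1
        have h5 := (h4.pow c.n).mul (red_prod3 h2 c.b)
        rw [he] at h5
        exact h5.unique (red_prod3 h2 c.a)

theorem spP_tw {m : ℕ} {K : Type} [Field K] [Algebra k K] {v : Place k K} {u : Pnt m K}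
    {q : Pnt m (RF v)} (w : Fin m → k) (hw : ∀ j, w j ≠ 0) (h : SpP v u q) : SpP v (tw w u) (tw w q) := by
  intro j i
  fin_cases i
  · exact h j 0
  · have h1 := h j 1
    change SpO v ((u j 1).map fun z => algebraMap k K (w j) * z)
      ((q j 1).map fun z => algebraMap k (RF v) (w j) * z)
    revert h1
    generalize u j 1 = Y
    generalize q j 1 = Q
    intro h1
    rcases Y with _ | y
    · have h2 : Q = none := h1
      rw [h2]
      rfl
    · rcases Q with _ | y0
      · have h2 : v.ord y < 0 := h1
        have hy : y ≠ 0 := by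
          rintro rfl
          rw [v.ord_zero] at h2
          exact lt_irrefl _ h2
        change v.ord (algebraMap k K (w j) * y) < 0
        have hw' : algebraMap k K (w j) ≠ 0 := by
          intro h3
          exact hw j ((map_eq_zero (algebraMap k K)).1 h3)
        rw [v.ord_mul _ _ hw' hy, v.ord_const _ (hw j), zero_add]
        exact h2
      · have h2 : Red v y y0 := h1
        exact (Pool.Agent.LibCHd.red_const v (w j)).mul h2

theorem spP_pr {m : ℕ} {K : Type} [Field K] [Algebra k K] {v : Place k K} {u : Pnt m K}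
    {q : Pnt m (RF v)} (σ : Equiv.Perm (Fin m)) (h : SpP v u q) : SpP v (pr σ u) (pr σ q) :=
  fun j i => h (σ j) i

/-- the relation given by one function -/
theorem div_rel (c : Dat k) (m d : ℕ) {N : Type} [Field N] [Algebra k N] (hN : FunF k (d + 1) N) (u : Pnt m N)
    (hu : On (c.over N) u) (g : N) (hg : g ≠ 0) (S : Finset (Place k N)) (q : ∀ v : Place k N, Pnt m (RF v))
    (hq : ∀ v, SpP v u (q v)) (h1 : ∀ v ∈ S, FunF k d (RF v))
    (h2 : ∀ v, v ∉ S → v.ord g ≠ 0 → FunF k d (RF v) → cyc k (q v) = 0) :
    ∑ v ∈ S, v.ord g • cls c d (q v) = 0 := by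
  have hd : IsDiv c m d (∑ v ∈ S, v.ord g • cyc k (q v)) := by
    refine ⟨N, inferInstance, inferInstance, u, g, S, fun v => cyc k (q v), hN, hu, hg, ?_, ?_, rfl⟩
    · intro v hv
      exact ⟨h1 v hv, q v, hq v, rfl⟩
    · intro v hv hgv hF q' hq'
      rw [spP_unique hq' (hq v)]
      exact h2 v hv hgv hF
  have hm : (∑ v ∈ S, v.ord g • cyc k (q v)) ∈ RatEq c m d := AddSubgroup.subset_closure hd
  have h3 := (QuotientAddGroup.eq_zero_iff (N := RatEq c m d) _).2 hm
  have h4 : (QuotientAddGroup.mk' (RatEq c m d)) (∑ v ∈ S, v.ord g • cyc k (q v)) = 0 := h3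
  rw [map_sum] at h4
  rw [← h4]
  refine Finset.sum_congr rfl fun v _ => ?_
  rw [map_zsmul]
  rfl

end Pool.Agent.LibCW77
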