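import Pool.Agent.LibCW77.Defs3
import Pool.Agent.LibCW77.D1
import Pool.Agent.LibCW77.D2
import Pool.Agent.LibHL77.E0
/-!
[CW77 D3] Homomorphisms defined by their values on points. Template: `LibHL77/E1.lean` (`exists_hom`), to be copied with `Pnt m`,
`mpP`, `cyc k`, `fld k`, `eqs k` and the additional condition `On`. `desc`: `AddSubgroup.closure_le` and the definition of
`IsDiv` (choose `q v` by `spP_exists`, `C v = cyc k (q v)` by `spP_unique`).
-/

open scoped Classical
open Polynomial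

namespace Pool.Agent.LibCW77

open Pool.Agent.LibBH2
open Pool.Agent.LibCHd (VR RF Red FunF)

variable {k : Type} [Field k]

theorem exists_hom {m : ℕ} (c : Dat k) (d : ℕ) {G : Type} [AddCommGroup G]
    (Ψ : ∀ (M : Type) [Field M] [Algebra k M], Pnt m M → G)
    (hΨ : ∀ (M M' : Type) [Field M] [Algebra k M] [Field M'] [Algebra k M'] (σ : M →ₐ[k] M')
      (u : Pnt m M), FunF k d M' → On (c.over M) u → fld k u = ⊤ →
      Ψ M' (mpP σ u) = (Module.finrank σ.fieldRange M' : ℤ) • Ψ M u) :
    ∃ H : Cyc k m →+ G, ∀ (M : Type) [Field M] [Algebra k M] (u : Pnt m M), FunF k d M → On (c.over M) u →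
      H (cyc k u) = Ψ M u := by
  -- the values on the basis elements
  let Q : Set (Fin m × Fin 2) × Set (MvPolynomial (Fin m × Fin 2) k) → G → Prop := fun z g =>
    ∃ (M : Type) (_ : Field M) (_ : Algebra k M) (u : Pnt m M),
      FunF k d M ∧ On (c.over M) u ∧ fld k u = ⊤ ∧ eqs k u = z ∧ Ψ M u = g
  let val : Set (Fin m × Fin 2) × Set (MvPolynomial (Fin m × Fin 2) k) → G := fun z =>
    if h : ∃ g, Q z g then h.choose else 0
  have huniq : ∀ (M M' : Type) [Field M] [Algebra k M] [Field M'] [Algebra k M']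
      (u : Pnt m M) (u' : Pnt m M'), FunF k d M' → On (c.over M) u → fld k u = ⊤ → fld k u' = ⊤ →
      eqs k u = eqs k u' → Ψ M' u' = Ψ M u := by
    intro M M' _ _ _ _ u u' hM' hon hu hu' he
    obtain ⟨ε, hε⟩ := eqs_iso u u' hu hu' he
    have h1 := hΨ M M' (ε : M →ₐ[k] M') u hM' hon hu
    have h2 : (ε : M →ₐ[k] M').fieldRange = ⊤ := by
      rw [AlgHom.fieldRange_eq_top]
      exact ε.surjective
    have hε' : mpP (ε : M →ₐ[k] M') u = u' := hε
    rw [hε', h2, IntermediateField.finrank_top, Nat.cast_one, one_smul] at h1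
    exact h1
  have hval : ∀ (M : Type) [Field M] [Algebra k M] (u : Pnt m M), FunF k d M → On (c.over M) u →
      fld k u = ⊤ → val (eqs k u) = Ψ M u := by
    intro M _ _ u hM hon hu
    have hex : ∃ g, Q (eqs k u) g :=
      ⟨Ψ M u, M, inferInstance, inferInstance, u, hM, hon, hu, rfl, rfl⟩
    have h1 : val (eqs k u) = hex.choose := dif_pos hex
    rw [h1]
    obtain ⟨M', _, _, u', hM', hon', hu', he, hg⟩ := hex.choose_spec
    rw [← hg]
    exact huniq M M' u u' hM' hon hu hu' he.symm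
  refine ⟨Finsupp.liftAddHom fun z => zmultiplesHom G (val z), ?_⟩
  intro M _ _ u hM hon
  have e1 : (Finsupp.liftAddHom fun z => zmultiplesHom G (val z)) (cyc k u) =
      (Module.finrank (fld k u) M : ℤ) • val (eqs k u) := by
    unfold cyc
    rw [Finsupp.liftAddHom_apply_single, zmultiplesHom_apply]
  rw [e1]
  obtain ⟨u₀, hu₀, hu⟩ := exists_min (k := k) u
  have hon₀ : On (c.over (fld k u)) u₀ := by
    rw [← on_map (fld k u).val, hu]
    exact hon
  have h1 := hΨ (fld k u) M (fld k u).val u₀ hM hon₀ hu₀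
  have h2 : (fld k u).val.fieldRange = fld k u := IntermediateField.fieldRange_val _
  rw [hu, h2] at h1
  rw [h1]
  by_cases h0 : Module.finrank (fld k u) M = 0
  · rw [h0, Nat.cast_zero, zero_smul, zero_smul]
  · have h3 : Module.finrank (fld k u).val.fieldRange M ≠ 0 := by
      rw [h2]
      exact h0
    have h4 := Pool.Agent.LibHL77.funF_sub (fld k u).val h3 hM
    have h5 : eqs k u = eqs k u₀ := by
      have h6 := eqs_map (fld k u).val u₀
      rw [hu] at h6
      exact h6
    rw [h5, hval (fld k u) u₀ h4 hon₀ hu₀]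

theorem desc {m : ℕ} (c : Dat k) (d : ℕ) {G : Type} [AddCommGroup G] (H : Cyc k m →+ G)
    (h : ∀ (K : Type) [Field K] [Algebra k K] (u : Pnt m K) (g : K) (S : Finset (Place k K))
      (q : ∀ v : Place k K, Pnt m (RF v)), FunF k (d + 1) K → On (c.over K) u → g ≠ 0 →
      (∀ v, SpP v u (q v)) → (∀ v ∈ S, FunF k d (RF v)) →
      (∀ v, v ∉ S → v.ord g ≠ 0 → FunF k d (RF v) → cyc k (q v) = 0) →
      ∑ v ∈ S, v.ord g • H (cyc k (q v)) = 0) : RatEq c m d ≤ H.ker := by
  unfold RatEq
  rw [AddSubgroup.closure_le]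
  rintro e ⟨K, _, _, u, g, S, E, hK, hu, hg, hS, hn, he⟩
  choose q hq using fun v : Place k K => spP_exists v u
  have h1 := h K u g S q hK hu hg hq (fun v hv => (hS v hv).1)
    (fun v hv h2 h3 => hn v hv h2 h3 (q v) (hq v))
  rw [SetLike.mem_coe, AddMonoidHom.mem_ker, he, map_sum, ← h1]
  refine Finset.sum_congr rfl fun v hv => ?_
  obtain ⟨-, q', hq', hE⟩ := hS v hv
  rw [map_zsmul, hE, spP_unique hq' (hq v)]

end Pool.Agent.LibCW77
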