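import Pool.Agent.LibCW77.Defs3
import Pool.Agent.LibCW77.D3
/-!
[CW77 D4] Automorphisms act on the Chow groups. Plan: `exists_hom` with `Ψ M u = cls c d (tw w u)` (`tw_map`, `cls_map`) into
`CH c m d`, then `desc` with `div_rel` for `tw w u` (`spP_tw`; `On` of `tw w u` because `(w_j v) ^ n = v ^ n`; if
`cyc k (q v) = 0` then `cyc k (tw w (q v)) = 0`: `fld k (tw w u) = fld k u`). Outside `S`: as `cyc = 0`.
-/

open scoped Classical
open Polynomial

namespace Pool.Agent.LibCW77

open Pool.Agent.LibBH2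
open Pool.Agent.LibCHd (VR RF Red FunF)

variable {k : Type} [Field k]

theorem on_tw {m : ℕ} {c : Dat k} (w : Fin m → k) (hw : ∀ j, w j ^ c.n = 1) {M : Type} [Field M] [Algebra k M]
    {u : Pnt m M} (hu : On (c.over M) u) : On (c.over M) (tw w u) := by
  intro j
  have h := hu j
  have hn : algebraMap k M (w j) ^ c.n = 1 := by rw [← map_pow, hw, map_one]
  change OnC (c.over M) (u j 0) ((u j 1).map fun v => algebraMap k M (w j) * v)
  revert h
  rcases u j 0 with _ | x <;> rcases u j 1 with _ | v <;> intro h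
  · exact h
  · change v ^ c.n = 1 at h
    change (algebraMap k M (w j) * v) ^ c.n = 1
    rw [mul_pow, hn, h, one_mul]
  · exact h
  · change v ^ c.n * ∏ i, (x - (c.over M).b i) = ∏ i, (x - (c.over M).a i) at h
    change (algebraMap k M (w j) * v) ^ c.n * ∏ i, (x - (c.over M).b i) = ∏ i, (x - (c.over M).a i)
    rw [mul_pow, hn, one_mul, h]

theorem on_pr {m : ℕ} {M : Type} [Field M] {c : Dat M} (σ : Equiv.Perm (Fin m)) {u : Pnt m M} (hu : On c u) :
    On c (pr σ u) := by
  intro j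
  exact hu (σ j)

private theorem D4_co_tw {m : ℕ} (w : Fin m → k) {M : Type} [Field M] [Algebra k M]
    (u : Pnt m M) (q : Fin m × Fin 2) :
    co (tw w u) q = algebraMap k M (if q.2 = 0 then 1 else w q.1) * co u q := by
  obtain ⟨j, i⟩ := q
  fin_cases i
  · change (u j 0).getD 0 = algebraMap k M (if (0 : Fin 2) = 0 then 1 else w j) * (u j 0).getD 0
    rw [if_pos rfl, map_one, one_mul]
  · change ((u j 1).map fun v => algebraMap k M (w j) * v).getD 0 =
      algebraMap k M (if (1 : Fin 2) = 0 then 1 else w j) * (u j 1).getD 0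
    rw [if_neg (by decide)]
    rcases u j 1 with _ | v
    · exact (mul_zero _).symm
    · rfl

theorem fld_tw {m : ℕ} (w : Fin m → k) (hw : ∀ j, w j ≠ 0) {M : Type} [Field M] [Algebra k M]
    (u : Pnt m M) : fld k (tw w u) = fld k u := by
  unfold fld
  apply le_antisymm
  · rw [IntermediateField.adjoin_le_iff]
    rintro _ ⟨q, rfl⟩
    rw [D4_co_tw]
    exact mul_mem (IntermediateField.algebraMap_mem _ _)
      (IntermediateField.subset_adjoin k _ ⟨q, rfl⟩)
  · rw [IntermediateField.adjoin_le_iff]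
    rintro _ ⟨q, rfl⟩
    have h0 : (if q.2 = 0 then 1 else w q.1) ≠ 0 := by
      split_ifs
      · exact one_ne_zero
      · exact hw q.1
    have h1 : co u q = algebraMap k M (if q.2 = 0 then 1 else w q.1)⁻¹ * co (tw w u) q := by
      rw [D4_co_tw, ← mul_assoc, ← map_mul, inv_mul_cancel₀ h0, map_one, one_mul]
    rw [h1]
    exact mul_mem (IntermediateField.algebraMap_mem _ _)
      (IntermediateField.subset_adjoin k _ ⟨q, rfl⟩)

theorem fld_pr {m : ℕ} (σ : Equiv.Perm (Fin m)) {M : Type} [Field M] [Algebra k M]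
    (u : Pnt m M) : fld k (pr σ u) = fld k u := by
  unfold fld
  congr 1
  ext x
  constructor
  · rintro ⟨q, rfl⟩
    exact ⟨(σ q.1, q.2), rfl⟩
  · rintro ⟨q, rfl⟩
    refine ⟨(σ.symm q.1, q.2), ?_⟩
    change (u (σ (σ.symm q.1)) q.2).getD 0 = (u q.1 q.2).getD 0
    rw [Equiv.apply_symm_apply]

theorem cyc_zero_iff {m : ℕ} {M : Type} [Field M] [Algebra k M] (u : Pnt m M) :
    cyc k u = 0 ↔ Module.finrank (fld k u) M = 0 := by
  unfold cyc
  rw [Finsupp.single_eq_zero, Int.natCast_eq_zero]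

private theorem D4_tw_zero {m : ℕ} (w : Fin m → k) (hw : ∀ j, w j ≠ 0) {M : Type} [Field M] [Algebra k M]
    (u : Pnt m M) (h : cyc k u = 0) : cyc k (tw w u) = 0 := by
  rw [cyc_zero_iff] at h ⊢
  rw [fld_tw w hw]
  exact h

private theorem D4_pr_zero {m : ℕ} (σ : Equiv.Perm (Fin m)) {M : Type} [Field M] [Algebra k M]
    (u : Pnt m M) (h : cyc k u = 0) : cyc k (pr σ u) = 0 := by
  rw [cyc_zero_iff] at h ⊢
  rw [fld_pr σ]
  exact h

private theorem D4_ne {m : ℕ} {c : Dat k} (hc : c.Good) (w : Fin m → k) (hw : ∀ j, w j ^ c.n = 1) (j : Fin m) :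
    w j ≠ 0 := by
  intro h
  have h1 := hw j
  have h2 : c.n ≠ 0 := by
    have := hc.two
    omega
  rw [h, zero_pow h2] at h1
  exact zero_ne_one h1

theorem exists_tw {m : ℕ} (c : Dat k) (hc : c.Good) (d : ℕ) (w : Fin m → k) (hw : ∀ j, w j ^ c.n = 1) :
    ∃ Γ : CH c m d →+ CH c m d, ∀ (M : Type) [Field M] [Algebra k M] (u : Pnt m M), FunF k d M →
      On (c.over M) u → Γ (cls c d u) = cls c d (tw w u) := by
  have hw0 := D4_ne hc w hw
  obtain ⟨H, hH⟩ := exists_hom c d (G := CH c m d) (fun M _ _ (u : Pnt m M) => cls c d (tw w u))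
    (by
      intro M M' _ _ _ _ σ u _ _ _
      change cls c d (tw w (mpP σ u)) = _
      rw [← tw_map, cls_map])
  have hker : RatEq c m d ≤ H.ker := by
    apply desc c d H
    intro K _ _ u g S q hK hu hg hq h1 h2
    have h3 : ∑ v ∈ S, v.ord g • H (cyc k (q v)) = ∑ v ∈ S, v.ord g • cls c d (tw w (q v)) := by
      refine Finset.sum_congr rfl ?_
      intro v hv
      rw [hH (RF v) (q v) (h1 v hv) (on_sp hc hu (hq v))]
    rw [h3]
    exact div_rel c m d hK (tw w u) (on_tw w hw hu) g hg S (fun v => tw w (q v))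
      (fun v => spP_tw w hw0 (hq v)) h1 (fun v hv hvg hF => D4_tw_zero w hw0 _ (h2 v hv hvg hF))
  refine ⟨QuotientAddGroup.lift (RatEq c m d) H hker, ?_⟩
  intro M _ _ u hM hu
  change QuotientAddGroup.lift (RatEq c m d) H hker (QuotientAddGroup.mk (cyc k u)) = _
  rw [QuotientAddGroup.lift_mk]
  exact hH M u hM hu

private def D4_f {m : ℕ} (σ : Equiv.Perm (Fin m)) (q : Fin m × Fin 2) : Fin m × Fin 2 := (σ q.1, q.2)

private noncomputable def D4_P {m : ℕ} (σ : Equiv.Perm (Fin m))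
    (e : Set (Fin m × Fin 2) × Set (MvPolynomial (Fin m × Fin 2) k)) :
    Set (Fin m × Fin 2) × Set (MvPolynomial (Fin m × Fin 2) k) :=
  ({q | D4_f σ q ∈ e.1}, {G | MvPolynomial.rename (D4_f σ) G ∈ e.2})

private theorem D4_eqs {m : ℕ} (σ : Equiv.Perm (Fin m)) {M : Type} [Field M] [Algebra k M]
    (u : Pnt m M) : eqs k (pr σ u) = D4_P σ (eqs k u) := by
  unfold eqs D4_P
  refine Prod.ext rfl ?_
  ext G
  change MvPolynomial.aeval (co (pr σ u)) G = 0 ↔
    MvPolynomial.aeval (co u) (MvPolynomial.rename (D4_f σ) G) = 0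
  rw [MvPolynomial.aeval_rename]
  rfl

private theorem D4_cyc {m : ℕ} (σ : Equiv.Perm (Fin m)) {M : Type} [Field M] [Algebra k M]
    (u : Pnt m M) : Finsupp.mapDomain (D4_P σ) (cyc k u) = cyc k (pr σ u) := by
  unfold cyc
  rw [Finsupp.mapDomain_single, D4_eqs, fld_pr]

theorem exists_pr {m : ℕ} (c : Dat k) (d : ℕ) (σ : Equiv.Perm (Fin m)) :
    ∃ Γ : CH c m d →+ CH c m d, ∀ (M : Type) [Field M] [Algebra k M] (u : Pnt m M), FunF k d M →
      On (c.over M) u → Γ (cls c d u) = cls c d (pr σ u) := by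
  let H : Cyc k m →+ CH c m d :=
    (QuotientAddGroup.mk' (RatEq c m d)).comp (Finsupp.mapDomain.addMonoidHom (D4_P σ))
  have hH : ∀ (M : Type) [Field M] [Algebra k M] (u : Pnt m M), H (cyc k u) = cls c d (pr σ u) := by
    intro M _ _ u
    change QuotientAddGroup.mk' (RatEq c m d) (Finsupp.mapDomain (D4_P σ) (cyc k u)) = _
    rw [D4_cyc]
    rfl
  have hker : RatEq c m d ≤ H.ker := by
    apply desc c d H
    intro K _ _ u g S q hK hu hg hq h1 h2
    have h3 : ∑ v ∈ S, v.ord g • H (cyc k (q v)) = ∑ v ∈ S, v.ord g • cls c d (pr σ (q v)) := by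
      refine Finset.sum_congr rfl ?_
      intro v hv
      rw [hH]
    rw [h3]
    exact div_rel c m d hK (pr σ u) (on_pr σ hu) g hg S (fun v => pr σ (q v))
      (fun v => spP_pr σ (hq v)) h1 (fun v hv hvg hF => D4_pr_zero σ _ (h2 v hv hvg hF))
  refine ⟨QuotientAddGroup.lift (RatEq c m d) H hker, ?_⟩
  intro M _ _ u hM hu
  change QuotientAddGroup.lift (RatEq c m d) H hker (QuotientAddGroup.mk (cyc k u)) = _
  rw [QuotientAddGroup.lift_mk]
  exact hH M u

end Pool.Agent.LibCW77
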