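import Pool.Agent.LibCW77.Defs3
import Pool.Agent.LibCW77.D2
import Pool.Agent.LibCW77.D4
/-!
[CW77 T5] The class `mns`. `mns_conj`: the group law of the `(σ, w)` and `h τ₁ h₀ = (h τ₁ h₀ τ₁⁻¹) τ₁` with `h τ₁ h₀ τ₁⁻¹` in the group: reindex the
two sums (`pr σ (tw w (pr σ' (tw w' u)))` is again of the form `pr _ (tw _ u)`; use `Finset.sum_bij` / `Equiv`). `mns_ram`: if `u_j` is ramified
then `tw` at the place `j` does nothing; `τ₁ = τ_j · (τ_j⁻¹ τ₁)` with `τ_j⁻¹ τ₁` in the group, so the two sums are equal. `mns_map`: `cls_map`,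
`tw_map`, `pr_map`. `mns_norm`: `∑_i mns (τ₁ ^ i u) = 0` (telescoping).
-/

open scoped Classical
open Polynomial

namespace Pool.Agent.LibCW77

open Pool.Agent.LibBH2
open Pool.Agent.LibCHd (VR RF Red FunF)

variable {k : Type} [Field k]

/-- the triples of roots of unity with the product `z` -/
private noncomputable def T5_V (c : Dat k) (z : k) : Finset (Fin 3 → k) :=
  (Fintype.piFinset fun _ => nthRootsFinset c.n (1 : k)).filter fun w => ∏ j, w j = z

private noncomputable def T5_S (c : Dat k) (z : k) {M : Type} [Field M] [Algebra k M] (u : Pnt 3 M) : CH c 3 1 :=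
  ∑ σ : Equiv.Perm (Fin 3), ∑ w ∈ T5_V c z, cls c 1 (pr σ (tw w u))

private theorem T5_mem {c : Dat k} (hn : 0 < c.n) {z : k} {w : Fin 3 → k} :
    w ∈ T5_V c z ↔ (∀ j, w j ^ c.n = 1) ∧ ∏ j, w j = z := by
  unfold T5_V
  rw [Finset.mem_filter, Fintype.mem_piFinset]
  simp only [mem_nthRootsFinset hn]

private theorem T5_twtw {m : ℕ} {M : Type} [Field M] [Algebra k M] (w w' : Fin m → k) (u : Pnt m M) :
    tw w (tw w' u) = tw (fun j => w j * w' j) u := by
  funext j i
  fin_cases i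
  · simp [tw]
  · change Option.map (fun v => algebraMap k M (w j) * v) (Option.map (fun v => algebraMap k M (w' j) * v) (u j 1)) =
      Option.map (fun v => algebraMap k M (w j * w' j) * v) (u j 1)
    rw [Option.map_map]
    refine congrArg (fun f => Option.map f (u j 1)) ?_
    funext v
    simp only [Function.comp_apply, map_mul, mul_assoc]

private theorem T5_twpr {m : ℕ} {M : Type} [Field M] [Algebra k M] (w : Fin m → k) (s : Equiv.Perm (Fin m))
    (u : Pnt m M) : tw w (pr s u) = pr s (tw (fun j => w (s.symm j)) u) := by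
  funext j i
  simp [tw, pr]

private theorem T5_prpr {m : ℕ} {M : Type} (σ s : Equiv.Perm (Fin m)) (u : Pnt m M) :
    pr σ (pr s u) = pr (s * σ) u := by
  funext j
  simp [pr]

private theorem T5_shift {c : Dat k} (hn : 0 < c.n) (z : k) (l : Fin 3 → k) (hl : ∀ j, l j ^ c.n = 1)
    {M : Type} [Field M] [Algebra k M] (u : Pnt 3 M) :
    T5_S c z (tw l u) = T5_S c (z * ∏ j, l j) u := by
  have hl0 : ∀ j, l j ≠ 0 := by
    intro j h
    have := hl j
    rw [h, zero_pow hn.ne'] at this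
    exact zero_ne_one this
  unfold T5_S
  refine Finset.sum_congr rfl fun σ _ => ?_
  refine Finset.sum_nbij' (fun w j => w j * l j) (fun w j => w j * (l j)⁻¹) ?_ ?_ ?_ ?_ ?_
  · intro w hw
    rw [T5_mem hn] at hw ⊢
    refine ⟨fun j => ?_, ?_⟩
    · rw [mul_pow, hw.1, hl, one_mul]
    · rw [Finset.prod_mul_distrib, hw.2]
  · intro w hw
    rw [T5_mem hn] at hw ⊢
    refine ⟨fun j => ?_, ?_⟩
    · rw [mul_pow, hw.1, inv_pow, hl, inv_one, one_mul]
    · rw [Finset.prod_mul_distrib, hw.2, mul_assoc, ← Finset.prod_mul_distrib,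
        Finset.prod_congr rfl fun j _ => mul_inv_cancel₀ (hl0 j), Finset.prod_const_one, mul_one]
  · intro w _
    funext j
    exact mul_inv_cancel_right₀ (hl0 j) _
  · intro w _
    funext j
    exact inv_mul_cancel_right₀ (hl0 j) _
  · intro w _
    rw [T5_twtw]

private theorem T5_perm {c : Dat k} (hn : 0 < c.n) (z : k) (s : Equiv.Perm (Fin 3))
    {M : Type} [Field M] [Algebra k M] (u : Pnt 3 M) : T5_S c z (pr s u) = T5_S c z u := by
  unfold T5_S
  refine Finset.sum_bij' (fun σ _ => s * σ) (fun σ _ => s⁻¹ * σ) (fun _ _ => Finset.mem_univ _)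
    (fun _ _ => Finset.mem_univ _) (fun σ _ => by simp) (fun σ _ => by simp) fun σ _ => ?_
  refine Finset.sum_nbij' (fun w j => w (s.symm j)) (fun w j => w (s j)) ?_ ?_ ?_ ?_ ?_
  · intro w hw
    rw [T5_mem hn] at hw ⊢
    exact ⟨fun j => hw.1 _, by rw [Equiv.prod_comp s.symm w, hw.2]⟩
  · intro w hw
    rw [T5_mem hn] at hw ⊢
    exact ⟨fun j => hw.1 _, by rw [Equiv.prod_comp s w, hw.2]⟩
  · intro w _
    funext j
    simp
  · intro w _
    funext j
    simp
  · intro w _
    rw [T5_twpr, T5_prpr]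

private theorem T5_t1 (ζ : k) : ∏ j, t1 ζ j = ζ := by
  simp [t1, Fin.prod_univ_three]

private theorem T5_t1n {n : ℕ} {ζ : k} (h : ζ ^ n = 1) (j : Fin 3) : t1 ζ j ^ n = 1 := by
  fin_cases j <;> simp [t1, h]

private theorem T5_mns {c : Dat k} (hn : 0 < c.n) {ζ : k} (hζ : ζ ^ c.n = 1) {M : Type} [Field M] [Algebra k M]
    (u : Pnt 3 M) : mns c ζ u = T5_S c 1 u - T5_S c ζ u := by
  have h := T5_shift hn 1 (t1 ζ) (T5_t1n hζ) u
  rw [one_mul, T5_t1] at h
  rw [← h]
  unfold mns T5_S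
  simp only [Finset.sum_sub_distrib]
  rfl

theorem mns_conj {c : Dat k} (hc : c.Good) {ζ : k} (hζ : IsPrimitiveRoot ζ c.n) {M : Type} [Field M] [Algebra k M]
    (P : Pnt 3 M) (σ : Equiv.Perm (Fin 3)) (w : Fin 3 → k) (hw : w ∈ W c) :
    mns c ζ (pr σ (tw w P)) = mns c ζ P := by
  have hn : 0 < c.n := by have := hc.two; omega
  have hw' : w ∈ T5_V c 1 := hw
  rw [T5_mem hn] at hw'
  rw [T5_mns hn hζ.pow_eq_one, T5_mns hn hζ.pow_eq_one, T5_perm hn, T5_perm hn, T5_shift hn _ w hw'.1,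
    T5_shift hn _ w hw'.1, hw'.2, mul_one, mul_one]

theorem mns_ram {c : Dat k} (hc : c.Good) {ζ : k} (hζ : IsPrimitiveRoot ζ c.n) {M : Type} [Field M] [Algebra k M]
    (P : Pnt 3 M) (hP : Ram P) : mns c ζ P = 0 := by
  have hn : 0 < c.n := by have := hc.two; omega
  obtain ⟨j, hj⟩ := hP
  let l : Fin 3 → k := fun i => if i = j then ζ else 1
  have hl : ∀ i, l i ^ c.n = 1 := by
    intro i
    by_cases h : i = j
    · simp only [l, if_pos h]
      exact hζ.pow_eq_one
    · simp only [l, if_neg h, one_pow]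
  have hlp : ∏ i, l i = ζ := by
    simp only [l, Finset.prod_ite_eq', Finset.mem_univ, if_true]
  have htw : tw l P = P := by
    funext i q
    fin_cases q
    · simp [tw]
    · simp only [tw, Fin.mk_one, Matrix.cons_val_one]
      by_cases h : i = j
      · subst h
        rcases hj with hj | hj
        · simp [hj]
        · simp [hj]
      · simp [l, h]
  have h := T5_shift hn 1 l hl P
  rw [hlp, one_mul, htw] at h
  rw [T5_mns hn hζ.pow_eq_one, h, sub_self]

theorem mns_map (c : Dat k) (ζ : k) {M M' : Type} [Field M] [Algebra k M] [Field M'] [Algebra k M']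
    (i : M →ₐ[k] M') (P : Pnt 3 M) : mns c ζ (mpP i P) = (Module.finrank i.fieldRange M' : ℤ) • mns c ζ P := by
  unfold mns
  rw [Finset.smul_sum]
  refine Finset.sum_congr rfl fun σ _ => ?_
  rw [Finset.smul_sum]
  refine Finset.sum_congr rfl fun w _ => ?_
  rw [smul_sub, ← cls_map c 1 i, ← cls_map c 1 i, pr_map, pr_map, tw_map, tw_map, tw_map]

theorem mns_alg (c : Dat k) (ζ : k) {M : Type} [Field M] [Algebra k M] (hM : FunF k 1 M) (P : Pnt 3 M)
    (h : ∀ j i x, P j i = some x → IsAlgebraic k x) : mns c ζ P = 0 := by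
  have key : ∀ (w : Fin 3 → k) (u : Pnt 3 M), (∀ j i x, u j i = some x → IsAlgebraic k x) →
      ∀ j i x, tw w u j i = some x → IsAlgebraic k x := by
    intro w u hu j i x hx
    fin_cases i
    · exact hu j 0 x hx
    · change (u j 1).map (fun v => algebraMap k M (w j) * v) = some x at hx
      rw [Option.map_eq_some_iff] at hx
      obtain ⟨v, hv, rfl⟩ := hx
      exact (isAlgebraic_algebraMap (w j)).mul (hu j 1 v hv)
  have key2 : ∀ (σ : Equiv.Perm (Fin 3)) (u : Pnt 3 M), (∀ j i x, u j i = some x → IsAlgebraic k x) →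
      cls c 1 (pr σ u) = 0 := by
    intro σ u hu
    unfold cls
    rw [cyc_alg (d := 0) hM (pr σ u) fun j i x hx => hu (σ j) i x hx]
    rfl
  unfold mns
  refine Finset.sum_eq_zero fun σ _ => Finset.sum_eq_zero fun w _ => ?_
  rw [key2 σ _ (key w P h), key2 σ _ (key w _ (key _ P h)), sub_self]

theorem mns_norm {c : Dat k} (hc : c.Good) {ζ : k} (hζ : IsPrimitiveRoot ζ c.n) {M : Type} [Field M] [Algebra k M]
    (P : Pnt 3 M) : ∑ i ∈ Finset.range c.n, mns c ζ (tw (t1 (ζ ^ i)) P) = 0 := by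
  have hn : 0 < c.n := by have := hc.two; omega
  have h1 : ∀ i, mns c ζ (tw (t1 (ζ ^ i)) P) = T5_S c (ζ ^ i) P - T5_S c (ζ ^ (i + 1)) P := by
    intro i
    have hi : (ζ ^ i) ^ c.n = 1 := by rw [← pow_mul, mul_comm, pow_mul, hζ.pow_eq_one, one_pow]
    rw [T5_mns hn hζ.pow_eq_one, T5_shift hn 1 _ (T5_t1n hi), T5_shift hn ζ _ (T5_t1n hi), T5_t1, one_mul,
      pow_succ, mul_comm ζ]
  simp only [h1]
  rw [Finset.sum_range_sub', pow_zero, hζ.pow_eq_one, sub_self]

end Pool.Agent.LibCW77
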