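import Pool.Agent.LibCW77.Defs6
import Pool.Agent.LibCW77.D2
import Pool.Agent.LibCW77.D4
import Pool.Agent.LibCW77.T5

/-!
[CW77 B3] The class `msp`. As T5 (`mns_conj`, `mns_ram`, `mns_map`, `mns_alg`; store: CW77_T5.lean) for two points: the group is `(w, w⁻¹) σ`, `w ^ n = 1`, `σ` a permutation of `Fin 2`.
`ms0_conj`: reindex the sum. `msp_conj`: for `σ` the exchange `(ζ, 1) σ = σ (1, ζ) = σ (ζ⁻¹, ζ) (ζ, 1)` (up to order), then `ms0_conj`. `msp_ram`: if `P'_0` is ramified `tw ![ζ, 1] P' = P'`; if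
`P'_1` is ramified `tw ![ζ, 1] P' = tw ![ζ, ζ⁻¹] P'`. `msp_map`: `cls_map`, `tw_map`, `pr_map`. `msp_alg`: `cyc_alg`.
-/

open scoped Classical
open Polynomial

namespace Pool.Agent.LibCW77

open Pool.Agent.LibBH2
open Pool.Agent.LibCHd (VR RF Red FunF)

variable {k : Type} [Field k]

/-- the pairs of roots of unity with the product `z` -/
private noncomputable def B3_V (c : Dat k) (z : k) : Finset (Fin 2 → k) :=
  (Fintype.piFinset fun _ => nthRootsFinset c.n (1 : k)).filter fun w => ∏ j, w j = z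

private noncomputable def B3_S (c : Dat k) (z : k) {M : Type} [Field M] [Algebra k M] (u : Pnt 2 M)
    (R : Fin 2 → Option M) : CH c 3 1 :=
  ∑ σ : Equiv.Perm (Fin 2), ∑ w ∈ B3_V c z, cls c 1 (tri (pr σ (tw w u) 0) (pr σ (tw w u) 1) R)

private theorem B3_mem {c : Dat k} (hn : 0 < c.n) {z : k} {w : Fin 2 → k} :
    w ∈ B3_V c z ↔ (∀ j, w j ^ c.n = 1) ∧ ∏ j, w j = z := by
  unfold B3_V
  rw [Finset.mem_filter, Fintype.mem_piFinset]
  simp only [mem_nthRootsFinset hn]

private theorem B3_twtw {m : ℕ} {M : Type} [Field M] [Algebra k M] (w w' : Fin m → k) (u : Pnt m M) :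
    tw w (tw w' u) = tw (fun j => w j * w' j) u := by
  funext j i
  fin_cases i
  · simp [tw]
  · change Option.map (fun v => algebraMap k M (w j) * v) (Option.map (fun v => algebraMap k M (w' j) * v) (u j 1)) =
      Option.map (fun v => algebraMap k M (w j * w' j) * v) (u j 1)
    rw [Option.map_map]
    refine congrArg (fun f => Option.map f (u j 1)) ?_
    funext v
    simp only [Function.comp_apply, map_mul, mul_assoc]

private theorem B3_twpr {m : ℕ} {M : Type} [Field M] [Algebra k M] (w : Fin m → k) (s : Equiv.Perm (Fin m))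
    (u : Pnt m M) : tw w (pr s u) = pr s (tw (fun j => w (s.symm j)) u) := by
  funext j i
  simp [tw, pr]

private theorem B3_prpr {m : ℕ} {M : Type} (σ s : Equiv.Perm (Fin m)) (u : Pnt m M) :
    pr σ (pr s u) = pr (s * σ) u := by
  funext j
  simp [pr]

private theorem B3_ne {n : ℕ} (hn : 0 < n) {w : k} (hw : w ^ n = 1) : w ≠ 0 := by
  intro h
  rw [h, zero_pow hn.ne'] at hw
  exact zero_ne_one hw

private theorem B3_shift {c : Dat k} (hn : 0 < c.n) (z : k) (l : Fin 2 → k) (hl : ∀ j, l j ^ c.n = 1)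
    {M : Type} [Field M] [Algebra k M] (u : Pnt 2 M) (R : Fin 2 → Option M) :
    B3_S c z (tw l u) R = B3_S c (z * ∏ j, l j) u R := by
  have hl0 : ∀ j, l j ≠ 0 := fun j => B3_ne hn (hl j)
  unfold B3_S
  refine Finset.sum_congr rfl fun σ _ => ?_
  refine Finset.sum_nbij' (fun w j => w j * l j) (fun w j => w j * (l j)⁻¹) ?_ ?_ ?_ ?_ ?_
  · intro w hw
    rw [B3_mem hn] at hw ⊢
    refine ⟨fun j => ?_, ?_⟩
    · rw [mul_pow, hw.1, hl, one_mul]
    · rw [Finset.prod_mul_distrib, hw.2]
  · intro w hw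
    rw [B3_mem hn] at hw ⊢
    refine ⟨fun j => ?_, ?_⟩
    · rw [mul_pow, hw.1, inv_pow, hl, inv_one, one_mul]
    · rw [Finset.prod_mul_distrib, hw.2, mul_assoc, ← Finset.prod_mul_distrib,
        Finset.prod_congr rfl fun j _ => mul_inv_cancel₀ (hl0 j), Finset.prod_const_one, mul_one]
  · intro w _
    funext j
    exact mul_inv_cancel_right₀ (hl0 j) _
  · intro w _
    funext j
    exact inv_mul_cancel_right₀ (hl0 j) _
  · intro w _
    rw [B3_twtw]

private theorem B3_perm {c : Dat k} (hn : 0 < c.n) (z : k) (s : Equiv.Perm (Fin 2))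
    {M : Type} [Field M] [Algebra k M] (u : Pnt 2 M) (R : Fin 2 → Option M) :
    B3_S c z (pr s u) R = B3_S c z u R := by
  unfold B3_S
  refine Finset.sum_bij' (fun σ _ => s * σ) (fun σ _ => s⁻¹ * σ) (fun _ _ => Finset.mem_univ _)
    (fun _ _ => Finset.mem_univ _) (fun σ _ => by simp) (fun σ _ => by simp) fun σ _ => ?_
  refine Finset.sum_nbij' (fun w j => w (s.symm j)) (fun w j => w (s j)) ?_ ?_ ?_ ?_ ?_
  · intro w hw
    rw [B3_mem hn] at hw ⊢
    exact ⟨fun j => hw.1 _, by rw [Equiv.prod_comp s.symm w, hw.2]⟩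
  · intro w hw
    rw [B3_mem hn] at hw ⊢
    exact ⟨fun j => hw.1 _, by rw [Equiv.prod_comp s w, hw.2]⟩
  · intro w _
    funext j
    simp
  · intro w _
    funext j
    simp
  · intro w _
    rw [B3_twpr, B3_prpr]

/-- the sum `ms0` as the sum over the pairs with product `1` -/
private theorem B3_ms0 {c : Dat k} (hn : 0 < c.n) {M : Type} [Field M] [Algebra k M] (u : Pnt 2 M)
    (R : Fin 2 → Option M) : ms0 c u R = B3_S c 1 u R := by
  unfold ms0 B3_S
  refine Finset.sum_congr rfl fun σ _ => ?_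
  refine Finset.sum_nbij' (fun w => ![w, w⁻¹]) (fun w => w 0) ?_ ?_ ?_ ?_ ?_
  · intro w hw
    rw [mem_nthRootsFinset hn] at hw
    rw [B3_mem hn]
    refine ⟨fun j => ?_, ?_⟩
    · fin_cases j
      · exact hw
      · change w⁻¹ ^ c.n = 1
        rw [inv_pow, hw, inv_one]
    · rw [Fin.prod_univ_two]
      exact mul_inv_cancel₀ (B3_ne hn hw)
  · intro w hw
    rw [B3_mem hn] at hw
    rw [mem_nthRootsFinset hn]
    exact hw.1 0
  · intro w _
    rfl
  · intro w hw
    rw [B3_mem hn, Fin.prod_univ_two] at hw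
    funext j
    fin_cases j
    · rfl
    · change (w 0)⁻¹ = w 1
      exact inv_eq_of_mul_eq_one_right hw.2
  · intro w _
    rfl

private theorem B3_two {n : ℕ} {w : k} (h : w ^ n = 1) (j : Fin 2) : (![w, w⁻¹] : Fin 2 → k) j ^ n = 1 := by
  fin_cases j
  · exact h
  · change w⁻¹ ^ n = 1
    rw [inv_pow, h, inv_one]

private theorem B3_prod {n : ℕ} (hn : 0 < n) {w : k} (h : w ^ n = 1) : ∏ j, (![w, w⁻¹] : Fin 2 → k) j = 1 := by
  rw [Fin.prod_univ_two]
  exact mul_inv_cancel₀ (B3_ne hn h)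

private theorem B3_msp {c : Dat k} (hn : 0 < c.n) {ζ : k} (hζ : ζ ^ c.n = 1) {M : Type} [Field M] [Algebra k M]
    (u : Pnt 2 M) (R : Fin 2 → Option M) : msp c ζ u R = B3_S c 1 u R - B3_S c ζ u R := by
  have h1 : ∀ j, (![ζ, 1] : Fin 2 → k) j ^ c.n = 1 := by
    intro j
    fin_cases j
    · exact hζ
    · exact one_pow _
  have h := B3_shift hn 1 ![ζ, 1] h1 u R
  have h2 : ∏ j, (![ζ, 1] : Fin 2 → k) j = ζ := by
    rw [Fin.prod_univ_two]
    exact mul_one ζ
  rw [one_mul, h2] at h
  unfold msp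
  rw [B3_ms0 hn, B3_ms0 hn, h]

omit [Field k] in
private theorem B3_pos {c : Dat k} (hc : c.Good) : 0 < c.n := by
  have := hc.two
  omega

private theorem B3_tri {M M' : Type} (f : M → M') (P : Pnt 2 M) (R : Fin 2 → Option M) :
    mpP f (tri (P 0) (P 1) R) = tri (mpP f P 0) (mpP f P 1) (fun a => (R a).map f) := by
  funext j
  fin_cases j <;> rfl

private theorem B3_twalg {M : Type} [Field M] [Algebra k M] (w : Fin 2 → k) (u : Pnt 2 M)
    (hu : ∀ j i x, u j i = some x → IsAlgebraic k x) : ∀ j i x, tw w u j i = some x → IsAlgebraic k x := by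
  intro j i x hx
  fin_cases i
  · exact hu j 0 x hx
  · change (u j 1).map (fun v => algebraMap k M (w j) * v) = some x at hx
    rw [Option.map_eq_some_iff] at hx
    obtain ⟨v, hv, rfl⟩ := hx
    exact (isAlgebraic_algebraMap (w j)).mul (hu j 1 v hv)

private theorem B3_alg0 (c : Dat k) {M : Type} [Field M] [Algebra k M] (hM : FunF k 1 M) (P' : Pnt 2 M)
    (R : Fin 2 → Option M) (h : ∀ j i x, P' j i = some x → IsAlgebraic k x) (hR : ∀ i x, R i = some x → IsAlgebraic k x) :
    ms0 c P' R = 0 := by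
  unfold ms0
  refine Finset.sum_eq_zero fun σ _ => Finset.sum_eq_zero fun w _ => ?_
  have h1 := B3_twalg ![w, w⁻¹] P' h
  unfold cls
  rw [cyc_alg (d := 0) hM]
  · rfl
  · intro j i x hx
    fin_cases j
    · exact h1 (σ 0) i x hx
    · exact h1 (σ 1) i x hx
    · exact hR i x hx

/-- a function field of dimension `1` is finite over `k(x)`, `x` not constant -/
private theorem B3_fin {M : Type} [Field M] [Algebra k M] (hM : FunF k 1 M) {x : M} (hx : Transcendental k x) :
    FiniteDimensional (IntermediateField.adjoin k {x}) M := by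
  have htr : Algebra.trdeg k M = (1 : ℕ) := hM.trdeg
  have h1 : IsTranscendenceBasis k (fun _ : Unit => x) := by
    apply AlgebraicIndependent.isTranscendenceBasis_of_trdeg_le_of_finite (algebraicIndependent_unique_type_iff.2 hx)
    rw [htr]
    simp
  have h2 := h1.isAlgebraic_field
  have h3 : Set.range (fun _ : Unit => x) = {x} := by simp
  rw [h3] at h2
  obtain ⟨t, ht, hf⟩ := hM
  haveI h4 : Algebra.EssFiniteType k (IntermediateField.adjoin k (Set.range t)) := by
    rw [IntermediateField.essFiniteType_iff]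
    exact ⟨Finset.univ.image t, by rw [Finset.coe_image, Finset.coe_univ, Set.image_univ]⟩
  haveI h5 : Algebra.EssFiniteType k M := Algebra.EssFiniteType.comp k (IntermediateField.adjoin k (Set.range t)) M
  haveI : Algebra.EssFiniteType (IntermediateField.adjoin k {x}) M := Algebra.EssFiniteType.of_comp k _ M
  exact Algebra.finite_of_essFiniteType_of_isAlgebraic

theorem ms0_conj {c : Dat k} (hc : c.Good) {M : Type} [Field M] [Algebra k M] (P' : Pnt 2 M) (R : Fin 2 → Option M)
    (σ : Equiv.Perm (Fin 2)) (w : k) (hw : w ^ c.n = 1) : ms0 c (pr σ (tw ![w, w⁻¹] P')) R = ms0 c P' R := by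
  have hn := B3_pos hc
  rw [B3_ms0 hn, B3_ms0 hn, B3_perm hn, B3_shift hn _ _ (B3_two hw), B3_prod hn hw, mul_one]

theorem msp_conj {c : Dat k} (hc : c.Good) {ζ : k} (hζ : ζ ^ c.n = 1) {M : Type} [Field M] [Algebra k M] (P' : Pnt 2 M)
    (R : Fin 2 → Option M) (σ : Equiv.Perm (Fin 2)) (w : k) (hw : w ^ c.n = 1) :
    msp c ζ (pr σ (tw ![w, w⁻¹] P')) R = msp c ζ P' R := by
  have hn := B3_pos hc
  rw [B3_msp hn hζ, B3_msp hn hζ, B3_perm hn, B3_perm hn, B3_shift hn _ _ (B3_two hw), B3_shift hn _ _ (B3_two hw),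
    B3_prod hn hw, mul_one, mul_one]

theorem msp_ram {c : Dat k} (hc : c.Good) {ζ : k} (hζ : ζ ^ c.n = 1) {M : Type} [Field M] [Algebra k M] (P' : Pnt 2 M)
    (R : Fin 2 → Option M) (h : Ram P') : msp c ζ P' R = 0 := by
  have hn := B3_pos hc
  obtain ⟨j, hj⟩ := h
  let l : Fin 2 → k := fun i => if i = j then ζ else 1
  have hl : ∀ i, l i ^ c.n = 1 := by
    intro i
    by_cases h : i = j
    · simp only [l, if_pos h]
      exact hζ
    · simp only [l, if_neg h, one_pow]
  have hlp : ∏ i, l i = ζ := by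
    simp only [l, Finset.prod_ite_eq', Finset.mem_univ, if_true]
  have htw : tw l P' = P' := by
    funext i q
    fin_cases q
    · simp [tw]
    · simp only [tw, Fin.mk_one, Matrix.cons_val_one]
      by_cases h : i = j
      · subst h
        rcases hj with hj | hj
        · simp [hj]
        · simp [hj]
      · simp [l, h]
  have h := B3_shift hn 1 l hl P' R
  rw [hlp, one_mul, htw] at h
  rw [B3_msp hn hζ, h, sub_self]

theorem ms0_map (c : Dat k) {M M' : Type} [Field M] [Algebra k M] [Field M'] [Algebra k M'] (i : M →ₐ[k] M')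
    (P' : Pnt 2 M) (R : Fin 2 → Option M) :
    ms0 c (mpP i P') (fun a => (R a).map i) = (Module.finrank i.fieldRange M' : ℤ) • ms0 c P' R := by
  unfold ms0
  rw [Finset.smul_sum]
  refine Finset.sum_congr rfl fun σ _ => ?_
  rw [Finset.smul_sum]
  refine Finset.sum_congr rfl fun w _ => ?_
  rw [← cls_map c 1 i, B3_tri, pr_map, tw_map]

theorem msp_map (c : Dat k) (ζ : k) {M M' : Type} [Field M] [Algebra k M] [Field M'] [Algebra k M'] (i : M →ₐ[k] M')
    (P' : Pnt 2 M) (R : Fin 2 → Option M) :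
    msp c ζ (mpP i P') (fun a => (R a).map i) = (Module.finrank i.fieldRange M' : ℤ) • msp c ζ P' R := by
  unfold msp
  rw [zsmul_sub, ← ms0_map c i, ← ms0_map c i, tw_map]

theorem msp_alg (c : Dat k) (ζ : k) {M : Type} [Field M] [Algebra k M] (hM : FunF k 1 M) (P' : Pnt 2 M)
    (R : Fin 2 → Option M) (h : ∀ j i x, P' j i = some x → IsAlgebraic k x) (hR : ∀ i x, R i = some x → IsAlgebraic k x) :
    msp c ζ P' R = 0 := by
  unfold msp
  rw [B3_alg0 c hM P' R h hR, B3_alg0 c hM _ R (B3_twalg _ P' h) hR, sub_self]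

/-- the cycle of a point over a function field of dimension `1` is zero only for constant points -/
theorem cyc_zero_alg {m : ℕ} {M : Type} [Field M] [Algebra k M] (hM : FunF k 1 M) (u : Pnt m M)
    (h : cyc k u = 0) : ∀ j i x, u j i = some x → IsAlgebraic k x := by
  intro j i x hx
  by_contra hn
  rw [cyc_zero_iff] at h
  have h1 : x ∈ fld k u := by
    have h2 : co u (j, i) = x := by
      change (u j i).getD 0 = x
      rw [hx]
      rfl
    rw [← h2]
    exact IntermediateField.subset_adjoin k _ ⟨(j, i), rfl⟩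
  have h3 : IntermediateField.adjoin k {x} ≤ fld k u := by
    rw [IntermediateField.adjoin_simple_le_iff]
    exact h1
  haveI h4 := B3_fin hM hn
  letI : Algebra (IntermediateField.adjoin k {x}) (fld k u) := (IntermediateField.inclusion h3).toRingHom.toAlgebra
  haveI : IsScalarTower (IntermediateField.adjoin k {x}) (fld k u) M := IsScalarTower.of_algebraMap_eq fun _ => rfl
  haveI : FiniteDimensional (fld k u) M := Module.Finite.of_restrictScalars_finite (IntermediateField.adjoin k {x}) _ M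
  exact (Module.finrank_pos (R := fld k u) (M := M)).ne' h

end Pool.Agent.LibCW77
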