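import Pool.Agent.LibCW77.Defs3
import Pool.Agent.LibCW77.T0
import Pool.Agent.LibCW77.D2
/-!
[CW77 T4] Two lifts are conjugate under the group. Plan: `roots_unique` at four of the six points (`Xv`, `Yv` of both lifts are multiples
of the same `R Y`, `Y`), so `x'_j = x_(σ j)`; then `v'_j ^ n = v_(σ j) ^ n ≠ 0` (`onC_prod`), `v'_j / v_(σ j)` is an `n`-th
root of unity of `M`, so it comes from `k` (`k` algebraically closed: `X ^ n - 1` splits over `k`), the product is `1`.
`mem_nthRootsFinset`.
-/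

open scoped Classical
open Polynomial

namespace Pool.Agent.LibCW77

open Pool.Agent.LibBH2
open Pool.Agent.LibCHd (VR RF Red FunF)

variable {k : Type} [Field k]

private theorem T4_over {M M' : Type} [Field M] [Algebra k M] [Field M'] [Algebra k M'] (i : M →ₐ[k] M')
    (c : Dat k) : (c.over M).map (i : M →+* M') = c.over M' := by
  simp only [Dat.over, Dat.map]
  congr 1
  · funext j
    exact i.commutes (c.a j)
  · funext j
    exact i.commutes (c.b j)

private theorem T4_ev {M M' : Type} [Field M] [Field M'] (f : M →+* M') (x : Option M) (t : M) :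
    ev (x.map f) (f t) = f (ev x t) := by
  cases x with
  | none => simp [ev]
  | some x => simp [ev]

private theorem T4_root [IsAlgClosed k] {M : Type} [Field M] [Algebra k M] {n : ℕ} (hn : 0 < n) (r : M)
    (hr : r ^ n = 1) : ∃ s : k, algebraMap k M s = r := by
  have hint : IsIntegral k r := by
    refine ⟨X ^ n - 1, monic_X_pow_sub_C 1 hn.ne', ?_⟩
    simp [hr]
  have h1 : (minpoly k r).degree = 1 :=
    IsAlgClosed.degree_eq_one_of_irreducible k (minpoly.irreducible hint)
  have h2 := minpoly.mem_range_of_degree_eq_one k r h1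
  exact h2

theorem lift_not_ram {M : Type} [Field M] {c : Dat M} (hc : c.Good) {z : Zp M} (hz : IsZ c z) {P : Pnt 3 M}
    (h : IsLift c z P) : ¬ Ram P := by
  rintro ⟨j, hj⟩
  obtain ⟨v, hv, hp⟩ := h.prod
  have hne : v j ≠ 0 := by
    intro h0
    apply hz.u0
    rw [← hp]
    exact Finset.prod_eq_zero (Finset.mem_univ j) h0
  rcases hj with hj | hj
  · rw [hv j] at hj
    exact absurd hj (by simp)
  · rw [hv j] at hj
    exact hne (Option.some.inj hj)

theorem lifts_conj [IsAlgClosed k] {c : Dat k} (hc : c.Good) {M : Type} [Field M] [Algebra k M] {z : Zp M}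
    (hz : IsZ (c.over M) z) {P P' : Pnt 3 M} (h : IsLift (c.over M) z P) (h' : IsLift (c.over M) z P') :
    ∃ (σ : Equiv.Perm (Fin 3)) (w : Fin 3 → k), w ∈ W c ∧ P' = pr σ (tw w P) := by
  have hcM : (c.over M).Good := good_map hc
  obtain ⟨l, hl, hv⟩ := h.val
  obtain ⟨l', hl', hv'⟩ := h'.val
  obtain ⟨v, hvP, hvu⟩ := h.prod
  obtain ⟨v', hvP', hvu'⟩ := h'.prod
  have hvne : ∀ j, v j ≠ 0 := by
    intro j h0
    apply hz.u0
    rw [← hvu]
    exact Finset.prod_eq_zero (Finset.mem_univ j) h0
  -- the coordinates x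
  have hsig : ∃ σ : Equiv.Perm (Fin 3), ∀ j, P' j 0 = P (σ j) 0 := by
    refine roots_unique (fun j => P j 0) (fun j => P' j 0) (l' / l)
      (fun i : Fin 4 => Sum.elim (c.over M).a (c.over M).b
        (![Sum.inl 0, Sum.inl 1, Sum.inl 2, Sum.inr 0] i)) ?_ ?_ (div_ne_zero hl' hl)
    · refine hcM.inj.comp ?_
      intro x y hxy
      fin_cases x <;> fin_cases y <;> first | rfl | (exfalso; revert hxy; simp)
    · intro i
      have hX : ∀ i, ∏ j, ev (P' j 0) ((c.over M).a i) = l' / l * ∏ j, ev (P j 0) ((c.over M).a i) := by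
        intro i
        have e1 := (hv i).1
        have e2 := (hv' i).1
        simp only [Xv] at e1 e2
        rw [e1, e2]
        field_simp
      have hY : ∀ i, ∏ j, ev (P' j 0) ((c.over M).b i) = l' / l * ∏ j, ev (P j 0) ((c.over M).b i) := by
        intro i
        have e1 := (hv i).2
        have e2 := (hv' i).2
        simp only [Yv] at e1 e2
        rw [e1, e2]
        field_simp
      fin_cases i
      · exact hX 0
      · exact hX 1
      · exact hX 2
      · exact hY 0
  obtain ⟨σ, hσ⟩ := hsig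
  have hpow : ∀ j, v' j ^ c.n = v (σ j) ^ c.n := by
    intro j
    have e1 := onC_prod hcM (h.on (σ j)) (v (σ j)) (hvP (σ j))
    have e2 := onC_prod hcM (h'.on j) (v' j) (hvP' j)
    rw [hσ j] at e2
    have hne : ∏ i, ev (P (σ j) 0) ((c.over M).b i) ≠ 0 := by
      rw [Finset.prod_ne_zero_iff]
      intro i _ h0
      have e3 := (hv i).2
      simp only [Yv] at e3
      have e4 : ∏ j, ev (P j 0) ((c.over M).b i) = 0 := Finset.prod_eq_zero (Finset.mem_univ (σ j)) h0
      rw [e4] at e3
      exact mul_ne_zero hl (hz.Y0 i) e3.symm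
    have e5 : v' j ^ (c.over M).n * ∏ i, ev (P (σ j) 0) ((c.over M).b i) =
        v (σ j) ^ (c.over M).n * ∏ i, ev (P (σ j) 0) ((c.over M).b i) := by rw [e1, e2]
    exact mul_right_cancel₀ hne e5
  have hn : 0 < c.n := lt_of_lt_of_le (by norm_num) hc.two
  have hr : ∀ j, ∃ s : k, algebraMap k M s = v' j / v (σ j) := by
    intro j
    apply T4_root hn
    rw [div_pow, hpow j, div_self (pow_ne_zero _ (hvne (σ j)))]
  choose s hs using hr
  have hsn : ∀ j, s j ^ c.n = 1 := by
    intro j
    apply (algebraMap k M).injective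
    rw [map_pow, hs j, div_pow, hpow j, div_self (pow_ne_zero _ (hvne (σ j))), map_one]
  have hsp : ∏ j, s j = 1 := by
    apply (algebraMap k M).injective
    rw [map_prod, map_one]
    simp only [hs]
    rw [Finset.prod_div_distrib, Equiv.prod_comp σ v, hvu, hvu', div_self hz.u0]
  refine ⟨σ, fun i => s (σ.symm i), ?_, ?_⟩
  · simp only [W, Finset.mem_filter, Fintype.mem_piFinset]
    refine ⟨fun i => (mem_nthRootsFinset hn (1 : k)).2 (hsn _), ?_⟩
    rw [Equiv.prod_comp σ.symm s]
    exact hsp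
  · funext j i
    simp only [pr, tw, Equiv.symm_apply_apply]
    fin_cases i
    · exact hσ j
    · change P' j 1 = (P (σ j) 1).map fun v => algebraMap k M (s j) * v
      rw [hvP (σ j), hvP' j, Option.map_some, hs j, div_mul_cancel₀ _ (hvne (σ j))]

private theorem T4_ev_ne {M : Type} [Field M] {c : Dat M} (hc : c.Good) (x : Option M) (i j : Fin 3)
    (ha : ev x (c.a i) = 0) : ev x (c.b j) ≠ 0 := by
  cases x with
  | none => simp [ev] at ha
  | some x =>
    intro hb
    simp only [ev] at ha hb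
    have h1 : Sum.elim c.a c.b (Sum.inl i) = Sum.elim c.a c.b (Sum.inr j) := by
      simp only [Sum.elim_inl, Sum.elim_inr]
      rw [sub_eq_zero.1 ha, sub_eq_zero.1 hb]
    exact absurd (hc.inj h1) (by simp)

/-- a triple of unramified points lies over its Z-point -/
theorem zpt_lift {M : Type} [Field M] {c : Dat M} (hc : c.Good) {P : Pnt 3 M} (h : On c P) (hr : ¬ Ram P) :
    IsZ c (zpt c P) ∧ IsLift c (zpt c P) P := by
  have hv : ∀ j, ∃ y : M, P j 1 = some y ∧ y ≠ 0 := by
    intro j
    rcases hP : P j 1 with _ | y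
    · exact absurd ⟨j, Or.inl hP⟩ hr
    · refine ⟨y, rfl, ?_⟩
      rintro rfl
      exact hr ⟨j, Or.inr hP⟩
  choose v hv0 hvne using hv
  have hrel : ∀ j, v j ^ c.n * ∏ i, ev (P j 0) (c.b i) = ∏ i, ev (P j 0) (c.a i) :=
    fun j => onC_prod hc (h j) (v j) (hv0 j)
  have hbne : ∀ j i, ev (P j 0) (c.b i) ≠ 0 := by
    intro j i h0
    have h1 : ∏ i, ev (P j 0) (c.b i) = 0 := Finset.prod_eq_zero (Finset.mem_univ i) h0
    have h2 := hrel j
    rw [h1, mul_zero] at h2
    obtain ⟨i', _, hi'⟩ := Finset.prod_eq_zero_iff.1 h2.symm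
    exact T4_ev_ne hc (P j 0) i' i hi' h0
  have hane : ∀ j i, ev (P j 0) (c.a i) ≠ 0 := by
    intro j i h0
    have h1 : ∏ i, ev (P j 0) (c.a i) = 0 := Finset.prod_eq_zero (Finset.mem_univ i) h0
    have h2 := hrel j
    rw [h1] at h2
    rcases mul_eq_zero.1 h2 with h3 | h3
    · exact pow_ne_zero _ (hvne j) h3
    · obtain ⟨i', _, hi'⟩ := Finset.prod_eq_zero_iff.1 h3
      exact hbne j i' hi'
  have hX : ∀ i, Xv c P i ≠ 0 := fun i => Finset.prod_ne_zero_iff.2 fun j _ => hane j i
  have hY : ∀ i, Yv c P i ≠ 0 := fun i => Finset.prod_ne_zero_iff.2 fun j _ => hbne j i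
  have hget : ∀ j, (P j 1).getD 0 = v j := by
    intro j
    rw [hv0 j, Option.getD_some]
  obtain ⟨p, -, hpd, hpe⟩ := ev_prod (fun j => P j 0)
  refine ⟨⟨?_, ?_, ?_, ?_, ?_, ?_⟩, ⟨h, ⟨1, one_ne_zero, ?_⟩, ⟨fun j => (P j 1).getD 0, ?_, rfl⟩⟩⟩
  · intro i
    exact div_ne_zero (hX i) (hY i)
  · exact hY
  · change ∏ j, (P j 1).getD 0 ≠ 0
    rw [Finset.prod_ne_zero_iff]
    intro j _
    rw [hget j]
    exact hvne j
  · change (∏ j, (P j 1).getD 0) ^ c.n = ∏ i, Xv c P i / Yv c P i
    rw [Finset.prod_div_distrib, eq_div_iff (Finset.prod_ne_zero_iff.2 fun i _ => hY i)]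
    simp only [hget, Xv, Yv]
    rw [Finset.prod_comm, ← Finset.prod_pow, ← Finset.prod_mul_distrib, Finset.prod_comm (s := Finset.univ)
      (f := fun i j => ev (P j 0) (c.a i))]
    exact Finset.prod_congr rfl fun j _ => hrel j
  · change ∑ i, cA c (fun i => Xv c P i / Yv c P i) i * Yv c P i = 0
    have h1 := lagrange hc p (by omega)
    rw [← h1]
    refine Finset.sum_congr rfl fun i _ => ?_
    rw [hpe, hpe]
    change _ = ka c i * Xv c P i + kb c i * Yv c P i
    have hYi := hY i
    simp only [cA]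
    field_simp
  · change ∑ i, cB c (fun i => Xv c P i / Yv c P i) i * Yv c P i = 0
    have h1 := lagrange hc (X * p) (by
      refine (natDegree_mul_le).trans ?_
      have := natDegree_X_le (R := M)
      omega)
    rw [← h1]
    refine Finset.sum_congr rfl fun i _ => ?_
    rw [eval_mul, eval_mul, eval_X, eval_X, hpe, hpe]
    change _ = ka c i * (c.a i * Xv c P i) + kb c i * (c.b i * Yv c P i)
    have hYi := hY i
    simp only [cB]
    field_simp
  · intro i
    change Xv c P i = 1 * (Xv c P i / Yv c P i * Yv c P i) ∧ Yv c P i = 1 * Yv c P i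
    rw [div_mul_cancel₀ _ (hY i), one_mul, one_mul]
    exact ⟨rfl, rfl⟩
  · intro j
    change P j 1 = some ((P j 1).getD 0)
    rw [hget j, hv0 j]

private theorem T4_X {c : Dat k} {M M' : Type} [Field M] [Algebra k M] [Field M'] [Algebra k M'] (i : M →ₐ[k] M')
    (P : Pnt 3 M) (t : Fin 3) : Xv (c.over M') (mpP i P) t = i (Xv (c.over M) P t) := by
  rw [← T4_over i c]
  simp only [Xv, mpP, Dat.map, map_prod]
  exact Finset.prod_congr rfl fun j _ => T4_ev (i : M →+* M') _ _

private theorem T4_Y {c : Dat k} {M M' : Type} [Field M] [Algebra k M] [Field M'] [Algebra k M'] (i : M →ₐ[k] M')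
    (P : Pnt 3 M) (t : Fin 3) : Yv (c.over M') (mpP i P) t = i (Yv (c.over M) P t) := by
  rw [← T4_over i c]
  simp only [Yv, mpP, Dat.map, map_prod]
  exact Finset.prod_congr rfl fun j _ => T4_ev (i : M →+* M') _ _

theorem lift_map {c : Dat k} {M M' : Type} [Field M] [Algebra k M] [Field M'] [Algebra k M'] (i : M →ₐ[k] M')
    {z : Zp M} {P : Pnt 3 M} (h : IsLift (c.over M) z P) : IsLift (c.over M') (z.map i) (mpP i P) := by
  obtain ⟨l, hl, hv⟩ := h.val
  obtain ⟨v, hvP, hvu⟩ := h.prod
  refine ⟨(on_map i).2 h.on, ⟨i l, ?_, ?_⟩, ⟨fun j => i (v j), ?_, ?_⟩⟩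
  · exact (map_ne_zero_iff i i.toRingHom.injective).2 hl
  · intro t
    change Xv (c.over M') (mpP i P) t = i l * (i (z.R t) * i (z.Y t)) ∧
      Yv (c.over M') (mpP i P) t = i l * i (z.Y t)
    rw [T4_X, T4_Y, (hv t).1, (hv t).2]
    simp only [map_mul, and_self]
  · intro j
    change (P j 1).map i = some (i (v j))
    rw [hvP j, Option.map_some]
  · change ∏ j, i (v j) = i z.u
    rw [← hvu, map_prod]

private theorem T4_cA {c : Dat k} {M M' : Type} [Field M] [Algebra k M] [Field M'] [Algebra k M']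
    (i : M →ₐ[k] M') (R : Fin 3 → M) (t : Fin 3) :
    cA (c.over M') (fun j => i (R j)) t = i (cA (c.over M) R t) := by
  rw [← T4_over i c]
  simp only [cA]
  rw [ka_map, kb_map]
  simp

private theorem T4_cB {c : Dat k} {M M' : Type} [Field M] [Algebra k M] [Field M'] [Algebra k M']
    (i : M →ₐ[k] M') (R : Fin 3 → M) (t : Fin 3) :
    cB (c.over M') (fun j => i (R j)) t = i (cB (c.over M) R t) := by
  rw [← T4_over i c]
  simp only [cB]
  rw [ka_map, kb_map]
  simp [Dat.map]

theorem isZ_map {c : Dat k} {M M' : Type} [Field M] [Algebra k M] [Field M'] [Algebra k M'] (i : M →ₐ[k] M')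
    {z : Zp M} : IsZ (c.over M') (z.map i) ↔ IsZ (c.over M) z := by
  have hi : Function.Injective i := i.toRingHom.injective
  have h1 : (∑ t, cA (c.over M') (z.map i).R t * (z.map i).Y t) =
      i (∑ t, cA (c.over M) z.R t * z.Y t) := by
    rw [map_sum]
    refine Finset.sum_congr rfl fun t _ => ?_
    rw [map_mul, ← T4_cA]
    rfl
  have h2 : (∑ t, cB (c.over M') (z.map i).R t * (z.map i).Y t) =
      i (∑ t, cB (c.over M) z.R t * z.Y t) := by
    rw [map_sum]
    refine Finset.sum_congr rfl fun t _ => ?_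
    rw [map_mul, ← T4_cB]
    rfl
  constructor
  · intro h
    refine ⟨?_, ?_, ?_, ?_, ?_, ?_⟩
    · intro t h0
      apply h.R0 t
      change i (z.R t) = 0
      rw [h0, map_zero]
    · intro t h0
      apply h.Y0 t
      change i (z.Y t) = 0
      rw [h0, map_zero]
    · intro h0
      apply h.u0
      change i z.u = 0
      rw [h0, map_zero]
    · apply hi
      have := h.un
      change (i z.u) ^ c.n = ∏ t, i (z.R t) at this
      rw [map_prod, map_pow]
      exact this
    · apply hi
      rw [← h1, h.r1, map_zero]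
    · apply hi
      rw [← h2, h.r2, map_zero]
  · intro h
    refine ⟨?_, ?_, ?_, ?_, ?_, ?_⟩
    · intro t
      exact (map_ne_zero_iff i hi).2 (h.R0 t)
    · intro t
      exact (map_ne_zero_iff i hi).2 (h.Y0 t)
    · exact (map_ne_zero_iff i hi).2 h.u0
    · change (i z.u) ^ c.n = ∏ t, i (z.R t)
      rw [← map_prod, ← map_pow]
      exact congrArg i h.un
    · rw [h1, h.r1, map_zero]
    · rw [h2, h.r2, map_zero]

end Pool.Agent.LibCW77
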