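import Pool.Agent.LibCW77.Defs6
import Pool.Agent.LibCW77.T0
import Pool.Agent.LibCW77.T4

/-!
[CW77 B2] Pairs of points with a given polynomial. `exists_pair`: as T3 (`exists_lift`, LibCW77/T3.lean in the store: CW77_T3.lean): a finite extension `M'` in which `p` splits and the needed `n`-th
roots exist; roots `x_0, x_1` in `ℙ¹` (`none` if the degree is smaller), `v_0 ^ n = ∏ ev x_0 (a_i) / ∏ ev x_0 (b_i)`, `v_1 = u / v_0`; `onC_of_prod`. `pr_conj`: the roots of proportional polynomials agree up to a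
permutation, then `v'_j ^ n = v_(σ j) ^ n ≠ 0` (`onC_prod`), the quotient is an `n`-th root of unity of `M`, so it comes from `k`; the product is `1`, so the
roots of unity are `w, w⁻¹`. As T4 (`lifts_conj`). `ram_pr`: a pair with one ramified point: a root `a_i` or `b_i`.
-/

open scoped Classical
open Polynomial

namespace Pool.Agent.LibCW77

open Pool.Agent.LibBH2
open Pool.Agent.LibCHd (VR RF Red FunF)

variable {k : Type} [Field k]

private theorem B2_ev_map {M M' : Type} [Field M] [Field M'] (g : M →+* M') (x : Option M) (t : M) :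
    ev (x.map g) (g t) = g (ev x t) := by
  cases x with
  | none => simp [ev]
  | some x => simp [ev]

private theorem B2_lin {M : Type} [Field M] (p : M[X]) (hp : p ≠ 0) (h1 : p.natDegree ≤ 1) :
    ∃ (x : Option M) (l : M), l ≠ 0 ∧ ∀ t, ev x t = l * p.eval t := by
  obtain ⟨a, b, rfl⟩ := exists_eq_X_add_C_of_natDegree_le_one h1
  by_cases ha : a = 0
  · subst ha
    have hb : b ≠ 0 := by
      rintro rfl
      simp at hp
    refine ⟨none, b⁻¹, inv_ne_zero hb, fun t => ?_⟩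
    simp only [ev, eval_add, eval_mul, eval_C, eval_X, zero_mul, zero_add]
    rw [inv_mul_cancel₀ hb]
  · refine ⟨some (-b / a), a⁻¹, inv_ne_zero ha, fun t => ?_⟩
    simp only [ev, eval_add, eval_mul, eval_C, eval_X]
    field_simp
    ring

private theorem B2_roots {M : Type} [Field M] [IsAlgClosed M] (p : M[X]) (hp : p ≠ 0)
    (h2 : p.natDegree ≤ 2) :
    ∃ (x : Fin 2 → Option M) (l : M), l ≠ 0 ∧ ∀ t, ∏ j, ev (x j) t = l * p.eval t := by
  by_cases h1 : p.natDegree ≤ 1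
  · obtain ⟨x, l, hl, hx⟩ := B2_lin p hp h1
    refine ⟨![none, x], l, hl, fun t => ?_⟩
    rw [Fin.prod_univ_two]
    show ev none t * ev x t = _
    rw [hx]
    simp only [ev, one_mul]
  · have hd : p.degree ≠ 0 := by
      intro h0
      exact h1 ((natDegree_eq_of_degree_eq_some h0).le.trans (by norm_num))
    obtain ⟨r, hr⟩ := IsAlgClosed.exists_root p hd
    obtain ⟨q, hq⟩ := dvd_iff_isRoot.2 hr
    have hq0 : q ≠ 0 := by
      rintro rfl
      rw [mul_zero] at hq
      exact hp hq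
    have hq1 : q.natDegree ≤ 1 := by
      have h3 : p.natDegree = 1 + q.natDegree := by
        rw [hq, natDegree_mul (X_sub_C_ne_zero r) hq0, natDegree_X_sub_C]
      omega
    obtain ⟨x, l, hl, hx⟩ := B2_lin q hq0 hq1
    refine ⟨![some r, x], l, hl, fun t => ?_⟩
    rw [Fin.prod_univ_two]
    show ev (some r) t * ev x t = _
    rw [hx, hq]
    simp only [ev, eval_mul, eval_sub, eval_X, eval_C]
    ring

/-- The pair over the algebraic closure. -/
private theorem B2_closed {M Ω : Type} [Field M] [Field Ω] [IsAlgClosed Ω] (f : M →+* Ω) {c : Dat M}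
    (hc : c.Good) (p : M[X]) (h2 : p.natDegree ≤ 2) (ha : ∀ i, p.eval (c.a i) ≠ 0)
    (hb : ∀ i, p.eval (c.b i) ≠ 0) (u : M)
    (hu : u ^ c.n * ∏ i, p.eval (c.b i) = ∏ i, p.eval (c.a i)) :
    ∃ (x : Fin 2 → Option Ω) (v : Fin 2 → Ω) (l : Ω), l ≠ 0 ∧
      (∀ t, ∏ j, ev (x j) t = l * (p.map f).eval t) ∧
      (∀ j, v j ^ c.n * ∏ i, ev (x j) (f (c.b i)) = ∏ i, ev (x j) (f (c.a i))) ∧
      ∏ j, v j = f u := by
  have hp0 : p ≠ 0 := by
    rintro rfl
    exact ha 0 (by simp)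
  obtain ⟨x, l, hl, hx⟩ := B2_roots (p.map f) ((Polynomial.map_ne_zero_iff f.injective).mpr hp0)
    (by rw [Polynomial.natDegree_map]; exact h2)
  have hA : ∀ i, ∏ j, ev (x j) (f (c.a i)) = l * f (p.eval (c.a i)) := fun i => by
    rw [hx, Polynomial.eval_map_apply]
  have hB : ∀ i, ∏ j, ev (x j) (f (c.b i)) = l * f (p.eval (c.b i)) := fun i => by
    rw [hx, Polynomial.eval_map_apply]
  have hf : ∀ t : M, t ≠ 0 → f t ≠ 0 := fun t ht h => ht (f.injective (by rw [h, map_zero]))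
  have hA0 : ∀ i j, ev (x j) (f (c.a i)) ≠ 0 := fun i j h => by
    have h1 : ∏ j, ev (x j) (f (c.a i)) = 0 := Finset.prod_eq_zero (Finset.mem_univ j) h
    rw [hA] at h1
    exact mul_ne_zero hl (hf _ (ha i)) h1
  have hB0 : ∀ i j, ev (x j) (f (c.b i)) ≠ 0 := fun i j h => by
    have h1 : ∏ j, ev (x j) (f (c.b i)) = 0 := Finset.prod_eq_zero (Finset.mem_univ j) h
    rw [hB] at h1
    exact mul_ne_zero hl (hf _ (hb i)) h1
  have hA1 : ∀ j, ∏ i, ev (x j) (f (c.a i)) ≠ 0 := fun j =>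
    Finset.prod_ne_zero_iff.mpr fun i _ => hA0 i j
  have hB1 : ∀ j, ∏ i, ev (x j) (f (c.b i)) ≠ 0 := fun j =>
    Finset.prod_ne_zero_iff.mpr fun i _ => hB0 i j
  have hn : 0 < c.n := lt_of_lt_of_le (by norm_num) hc.two
  obtain ⟨v0, hv0⟩ := IsAlgClosed.exists_pow_nat_eq
    ((∏ i, ev (x 0) (f (c.a i))) / ∏ i, ev (x 0) (f (c.b i))) hn
  have h00 : v0 ≠ 0 := by
    rintro rfl
    rw [zero_pow hn.ne'] at hv0
    exact div_ne_zero (hA1 0) (hB1 0) hv0.symm
  have hprod : (∏ j, ∏ i, ev (x j) (f (c.a i))) = f u ^ c.n * ∏ j, ∏ i, ev (x j) (f (c.b i)) := by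
    rw [Finset.prod_comm, Finset.prod_comm (f := fun j i => ev (x j) (f (c.b i)))]
    rw [Finset.prod_congr rfl fun i _ => hA i, Finset.prod_congr rfl fun i _ => hB i]
    rw [Finset.prod_mul_distrib, Finset.prod_mul_distrib, ← map_prod, ← map_prod, ← hu, map_mul,
      map_pow]
    ring
  refine ⟨x, ![v0, f u / v0], l, hl, hx, fun j => ?_, ?_⟩
  · fin_cases j
    · show v0 ^ c.n * ∏ i, ev (x 0) (f (c.b i)) = ∏ i, ev (x 0) (f (c.a i))
      rw [hv0, div_mul_cancel₀ _ (hB1 0)]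
    · show (f u / v0) ^ c.n * ∏ i, ev (x 1) (f (c.b i)) = ∏ i, ev (x 1) (f (c.a i))
      rw [div_pow, hv0]
      rw [Fin.prod_univ_two (fun j => ∏ i, ev (x j) (f (c.a i))),
        Fin.prod_univ_two (fun j => ∏ i, ev (x j) (f (c.b i)))] at hprod
      have a0 := hA1 0
      have b0 := hB1 0
      set A0 := ∏ i, ev (x 0) (f (c.a i))
      set A1 := ∏ i, ev (x 1) (f (c.a i))
      set B0 := ∏ i, ev (x 0) (f (c.b i))
      set B1 := ∏ i, ev (x 1) (f (c.b i))
      rw [div_mul_eq_mul_div, div_eq_iff (div_ne_zero a0 b0)]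
      have e : A1 * (A0 / B0) = (A0 * A1) / B0 := by
        rw [mul_div_assoc', mul_comm A1]
      rw [e, hprod, eq_div_iff b0]
      ring
  · rw [Fin.prod_univ_two]
    show v0 * (f u / v0) = f u
    rw [mul_div_cancel₀ _ h00]

private theorem B2_core {M : Type} [Field M] {c : Dat M} (hc : c.Good) (p : M[X])
    (h2 : p.natDegree ≤ 2) (ha : ∀ i, p.eval (c.a i) ≠ 0)
    (hb : ∀ i, p.eval (c.b i) ≠ 0) (u : M)
    (hu : u ^ c.n * ∏ i, p.eval (c.b i) = ∏ i, p.eval (c.a i)) :
    ∃ (M' : Type) (_ : Field M') (_ : Algebra M M') (P : Pnt 2 M'), FiniteDimensional M M' ∧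
      IsPr (c.map (algebraMap M M')) (p.map (algebraMap M M')) (algebraMap M M' u) P := by
  obtain ⟨x, v, l, hl, hx0, hv, hu⟩ :=
    B2_closed (algebraMap M (AlgebraicClosure M)) hc p h2 ha hb u hu
  let S : Set (AlgebraicClosure M) :=
    Set.range (fun j => (x j).getD 0) ∪ Set.range v ∪ {l}
  have hS : S.Finite := ((Set.finite_range _).union (Set.finite_range _)).union
    (Set.finite_singleton _)
  let K := IntermediateField.adjoin M S
  have hfin : FiniteDimensional M K := by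
    haveI : Finite S := hS
    exact IntermediateField.finiteDimensional_adjoin fun y _ =>
      (Algebra.IsAlgebraic.isAlgebraic (R := M) y).isIntegral
  have hmem : ∀ y ∈ S, y ∈ K := fun y hy => IntermediateField.subset_adjoin M S hy
  have hx : ∀ j, ∃ x' : Option K, x'.map (algebraMap K (AlgebraicClosure M)) = x j := by
    intro j
    rcases hj : x j with _ | t
    · exact ⟨none, rfl⟩
    · refine ⟨some ⟨t, hmem t (Or.inl (Or.inl ⟨j, ?_⟩))⟩, rfl⟩
      show (x j).getD 0 = t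
      rw [hj]
      rfl
  choose x' hx' using hx
  let v' : Fin 2 → K := fun j => ⟨v j, hmem _ (Or.inl (Or.inr ⟨j, rfl⟩))⟩
  let l' : K := ⟨l, hmem _ (Or.inr rfl)⟩
  have hinj : Function.Injective (algebraMap K (AlgebraicClosure M)) :=
    (algebraMap K (AlgebraicClosure M)).injective
  have hT : ∀ t : M, algebraMap K (AlgebraicClosure M) (algebraMap M K t) =
      algebraMap M (AlgebraicClosure M) t := fun t => rfl
  have hev0 : ∀ (j : Fin 2) (t : K), algebraMap K (AlgebraicClosure M) (ev (x' j) t) =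
      ev (x j) (algebraMap K (AlgebraicClosure M) t) := fun j t => by
    rw [← B2_ev_map, hx']
  have hev : ∀ (j : Fin 2) (t : M), algebraMap K (AlgebraicClosure M) (ev (x' j) (algebraMap M K t)) =
      ev (x j) (algebraMap M (AlgebraicClosure M) t) := fun j t => by
    rw [← B2_ev_map, hx', hT]
  refine ⟨K, inferInstance, inferInstance, fun j => ![x' j, some (v' j)], hfin, ?_, ?_, ?_⟩
  · intro j
    show OnC (c.map (algebraMap M K)) (x' j) (some (v' j))
    refine onC_of_prod _ _ (hinj ?_)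
    rw [map_mul, map_pow, map_prod, map_prod]
    show v j ^ c.n * ∏ i, algebraMap K (AlgebraicClosure M) (ev (x' j) (algebraMap M K (c.b i))) =
      ∏ i, algebraMap K (AlgebraicClosure M) (ev (x' j) (algebraMap M K (c.a i)))
    rw [Finset.prod_congr rfl fun i _ => hev j (c.b i),
      Finset.prod_congr rfl fun i _ => hev j (c.a i)]
    exact hv j
  · refine ⟨l', fun h => hl ?_, fun t => hinj ?_⟩
    · have := congrArg (algebraMap K (AlgebraicClosure M)) h
      rw [map_zero] at this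
      exact this
    · show algebraMap K (AlgebraicClosure M) (∏ j, ev (x' j) t) =
        algebraMap K (AlgebraicClosure M) (l' * (p.map (algebraMap M K)).eval t)
      rw [map_prod, Finset.prod_congr rfl fun j _ => hev0 j t, hx0, map_mul,
        ← Polynomial.eval_map_apply, Polynomial.map_map]
      rfl
  · refine ⟨v', fun j => rfl, hinj ?_⟩
    show algebraMap K (AlgebraicClosure M) (∏ j, v' j) =
      algebraMap K (AlgebraicClosure M) (algebraMap M K u)
    rw [map_prod, hT, ← hu]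
    rfl

theorem exists_pair [CharZero k] {c : Dat k} (hc : c.Good) {M : Type} [Field M] [Algebra k M] (p : M[X])
    (h2 : p.natDegree ≤ 2) (ha : ∀ i, p.eval ((c.over M).a i) ≠ 0) (hb : ∀ i, p.eval ((c.over M).b i) ≠ 0) (u : M)
    (hu : u ^ c.n * ∏ i, p.eval ((c.over M).b i) = ∏ i, p.eval ((c.over M).a i)) :
    ∃ (M' : Type) (_ : Field M') (_ : Algebra k M') (i : M →ₐ[k] M') (P : Pnt 2 M'),
      Module.finrank i.fieldRange M' ≠ 0 ∧ IsPr (c.over M') (p.map (i : M →+* M')) (i u) P := by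
  obtain ⟨M', fM, aM, P, hfin, hP⟩ := B2_core (good_map hc) p h2 ha hb u hu
  letI : Algebra k M' := ((algebraMap M M').comp (algebraMap k M)).toAlgebra
  let i : M →ₐ[k] M' := { toRingHom := algebraMap M M', commutes' := fun _ => rfl }
  refine ⟨M', fM, inferInstance, i, P, ?_, hP⟩
  haveI : Module.Finite i.fieldRange M' := by
    obtain ⟨s, hs⟩ := (inferInstance : Module.Finite M M')
    refine ⟨⟨s, ?_⟩⟩
    rw [eq_top_iff]
    intro y _
    have hy : y ∈ Submodule.span M (s : Set M') := by rw [hs]; trivial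
    induction hy using Submodule.span_induction with
    | mem x hx => exact Submodule.subset_span hx
    | zero => exact Submodule.zero_mem _
    | add x y _ _ hx hy => exact Submodule.add_mem _ (hx trivial) (hy trivial)
    | smul a x _ hx =>
      have h1 : a • x = (⟨i a, a, rfl⟩ : i.fieldRange) • x := by
        rw [Algebra.smul_def]
        rfl
      rw [h1]
      exact Submodule.smul_mem _ _ (hx trivial)
  exact Module.finrank_pos.ne'

private theorem B2_root [IsAlgClosed k] {M : Type} [Field M] [Algebra k M] {n : ℕ} (hn : 0 < n) (r : M)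
    (hr : r ^ n = 1) : ∃ s : k, algebraMap k M s = r := by
  have hint : IsIntegral k r := by
    refine ⟨X ^ n - 1, monic_X_pow_sub_C 1 hn.ne', ?_⟩
    simp [hr]
  have h1 : (minpoly k r).degree = 1 :=
    IsAlgClosed.degree_eq_one_of_irreducible k (minpoly.irreducible hint)
  exact minpoly.mem_range_of_degree_eq_one k r h1

private theorem B2_cases {α : Type} (x0 x1 y0 y1 n : α) (s0 s1 s2 : Fin 3) (i01 : s0 ≠ s1)
    (i02 : s0 ≠ s2) (i12 : s1 ≠ s2) (h0 : y0 = (![x0, x1, n] : Fin 3 → α) s0)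
    (h1 : y1 = (![x0, x1, n] : Fin 3 → α) s1) (h2 : n = (![x0, x1, n] : Fin 3 → α) s2) :
    (y0 = x0 ∧ y1 = x1) ∨ (y0 = x1 ∧ y1 = x0) := by
  fin_cases s0 <;> fin_cases s1 <;> fin_cases s2 <;>
    first
    | exact absurd rfl i01
    | exact absurd rfl i02
    | exact absurd rfl i12
    | exact Or.inl ⟨h0, h1⟩
    | exact Or.inl ⟨h0, h1.trans h2⟩
    | exact Or.inl ⟨h0.trans h2, h1⟩
    | exact Or.inr ⟨h0, h1⟩
    | exact Or.inr ⟨h0, h1.trans h2⟩
    | exact Or.inr ⟨h0.trans h2, h1⟩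

private theorem B2_uniq {M : Type} [Field M] (x x' : Fin 2 → Option M) (l : M) (t : Fin 4 → M)
    (ht : Function.Injective t) (h : ∀ i, ∏ j, ev (x' j) (t i) = l * ∏ j, ev (x j) (t i))
    (hl : l ≠ 0) : ∃ σ : Equiv.Perm (Fin 2), ∀ j, x' j = x (σ j) := by
  obtain ⟨σ, hσ⟩ := roots_unique ![x 0, x 1, none] ![x' 0, x' 1, none] l t ht (fun i => by
    have h1 := h i
    rw [Fin.prod_univ_two, Fin.prod_univ_two] at h1
    rw [Fin.prod_univ_three, Fin.prod_univ_three]
    show ev (x' 0) (t i) * ev (x' 1) (t i) * ev none (t i) =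
      l * (ev (x 0) (t i) * ev (x 1) (t i) * ev none (t i))
    rw [h1]
    ring) hl
  have key : (x' 0 = x 0 ∧ x' 1 = x 1) ∨ (x' 0 = x 1 ∧ x' 1 = x 0) :=
    B2_cases (x 0) (x 1) (x' 0) (x' 1) none (σ 0) (σ 1) (σ 2)
      (fun e => absurd (σ.injective e) (by decide)) (fun e => absurd (σ.injective e) (by decide))
      (fun e => absurd (σ.injective e) (by decide)) (hσ 0) (hσ 1) (hσ 2)
  rcases key with ⟨k0, k1⟩ | ⟨k0, k1⟩
  · refine ⟨1, fun j => ?_⟩
    fin_cases j
    · exact k0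
    · exact k1
  · refine ⟨Equiv.swap 0 1, fun j => ?_⟩
    fin_cases j
    · show x' 0 = x (Equiv.swap 0 1 0)
      rw [Equiv.swap_apply_left]
      exact k0
    · show x' 1 = x (Equiv.swap 0 1 1)
      rw [Equiv.swap_apply_right]
      exact k1

theorem pr_conj [IsAlgClosed k] {c : Dat k} (hc : c.Good) {M : Type} [Field M] [Algebra k M] {p p' : M[X]}
    (ha : ∀ i, p.eval ((c.over M).a i) ≠ 0) (hb : ∀ i, p.eval ((c.over M).b i) ≠ 0) {u : M} {l : M} (hl : l ≠ 0)
    (hp : p' = C l * p) {P P' : Pnt 2 M} (h : IsPr (c.over M) p u P) (h' : IsPr (c.over M) p' u P') :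
    ∃ (σ : Equiv.Perm (Fin 2)) (w : k), w ^ c.n = 1 ∧ P' = pr σ (tw ![w, w⁻¹] P) := by
  have hcM : (c.over M).Good := good_map hc
  obtain ⟨l1, hl1, hq⟩ := h.pol
  obtain ⟨l2, hl2, hq'⟩ := h'.pol
  obtain ⟨v, hvP, hvu⟩ := h.prod
  obtain ⟨v', hvP', hvu'⟩ := h'.prod
  have hb1 : ∀ j i, ev (P j 0) ((c.over M).b i) ≠ 0 := by
    intro j i h0
    have e1 := hq ((c.over M).b i)
    rw [Finset.prod_eq_zero (Finset.mem_univ j) h0] at e1
    exact mul_ne_zero hl1 (hb i) e1.symm
  have ha1 : ∀ j i, ev (P j 0) ((c.over M).a i) ≠ 0 := by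
    intro j i h0
    have e1 := hq ((c.over M).a i)
    rw [Finset.prod_eq_zero (Finset.mem_univ j) h0] at e1
    exact mul_ne_zero hl1 (ha i) e1.symm
  have hn : 0 < c.n := lt_of_lt_of_le (by norm_num) hc.two
  have hvne : ∀ j, v j ≠ 0 := by
    intro j h0
    have e1 := onC_prod hcM (h.on j) (v j) (hvP j)
    rw [h0] at e1
    have e2 : (0 : M) ^ (c.over M).n = 0 := zero_pow hn.ne'
    rw [e2, zero_mul] at e1
    exact Finset.prod_ne_zero_iff.2 (fun i _ => ha1 j i) e1.symm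
  have hsig : ∃ σ : Equiv.Perm (Fin 2), ∀ j, P' j 0 = P (σ j) 0 := by
    refine B2_uniq (fun j => P j 0) (fun j => P' j 0) (l2 * l / l1)
      (fun i : Fin 4 => Sum.elim (c.over M).a (c.over M).b
        (![Sum.inl 0, Sum.inl 1, Sum.inl 2, Sum.inr 0] i)) ?_ ?_
      (div_ne_zero (mul_ne_zero hl2 hl) hl1)
    · refine hcM.inj.comp ?_
      intro x y hxy
      fin_cases x <;> fin_cases y <;> first | rfl | (exfalso; revert hxy; simp)
    · intro i
      rw [hq, hq', hp, eval_mul, eval_C]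
      field_simp
  obtain ⟨σ, hσ⟩ := hsig
  have hpow : ∀ j, v' j ^ c.n = v (σ j) ^ c.n := by
    intro j
    have e1 := onC_prod hcM (h.on (σ j)) (v (σ j)) (hvP (σ j))
    have e2 := onC_prod hcM (h'.on j) (v' j) (hvP' j)
    rw [hσ j] at e2
    have hne : ∏ i, ev (P (σ j) 0) ((c.over M).b i) ≠ 0 :=
      Finset.prod_ne_zero_iff.2 fun i _ => hb1 _ i
    have e5 : v' j ^ (c.over M).n * ∏ i, ev (P (σ j) 0) ((c.over M).b i) =
        v (σ j) ^ (c.over M).n * ∏ i, ev (P (σ j) 0) ((c.over M).b i) := by rw [e1, e2]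
    exact mul_right_cancel₀ hne e5
  have hr : ∀ j, ∃ s : k, algebraMap k M s = v' j / v (σ j) := by
    intro j
    apply B2_root hn
    rw [div_pow, hpow j, div_self (pow_ne_zero _ (hvne (σ j)))]
  choose s hs using hr
  have hsn : ∀ j, s j ^ c.n = 1 := by
    intro j
    apply (algebraMap k M).injective
    rw [map_pow, hs j, div_pow, hpow j, div_self (pow_ne_zero _ (hvne (σ j))), map_one]
  have hu0 : u ≠ 0 := by
    rw [← hvu]
    exact Finset.prod_ne_zero_iff.2 fun j _ => hvne j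
  have hsp : ∏ j, s j = 1 := by
    apply (algebraMap k M).injective
    rw [map_prod, map_one]
    simp only [hs]
    rw [Finset.prod_div_distrib, Equiv.prod_comp σ v, hvu, hvu', div_self hu0]
  have hsp2 : s (σ.symm 0) * s (σ.symm 1) = 1 := by
    rw [← hsp, ← Equiv.prod_comp σ.symm s, Fin.prod_univ_two]
  have hinv : s (σ.symm 1) = (s (σ.symm 0))⁻¹ := eq_inv_of_mul_eq_one_right hsp2
  have hw : ∀ i, (![s (σ.symm 0), (s (σ.symm 0))⁻¹] : Fin 2 → k) i = s (σ.symm i) := by
    intro i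
    fin_cases i
    · rfl
    · exact hinv.symm
  refine ⟨σ, s (σ.symm 0), hsn _, ?_⟩
  funext j i
  simp only [pr, tw, hw, Equiv.symm_apply_apply]
  fin_cases i
  · exact hσ j
  · change P' j 1 = (P (σ j) 1).map fun v => algebraMap k M (s j) * v
    rw [hvP (σ j), hvP' j, Option.map_some, hs j, div_mul_cancel₀ _ (hvne (σ j))]

private theorem B2_ev_ne {M : Type} [Field M] {c : Dat M} (hc : c.Good) (x : Option M) (i j : Fin 3)
    (ha : ev x (c.a i) = 0) : ev x (c.b j) ≠ 0 := by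
  cases x with
  | none => simp [ev] at ha
  | some x =>
    intro hb
    simp only [ev] at ha hb
    have h1 : Sum.elim c.a c.b (Sum.inl i) = Sum.elim c.a c.b (Sum.inr j) := by
      simp only [Sum.elim_inl, Sum.elim_inr]
      rw [sub_eq_zero.1 ha, sub_eq_zero.1 hb]
    exact absurd (hc.inj h1) (by simp)

/-- the polynomial of a pair in general; the pair is ramified iff a value is zero -/
theorem pair_poly {M : Type} [Field M] {c : Dat M} (P : Pnt 2 M) :
    ∃ p : M[X], p ≠ 0 ∧ p.natDegree ≤ 2 ∧ (∀ t, p.eval t = ∏ j, ev (P j 0) t) ∧ (∀ i, p.eval (c.a i) = Xv c P i) ∧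
      ∀ i, p.eval (c.b i) = Yv c P i := by
  obtain ⟨p, hp0, hpd, hpe⟩ := ev_prod (fun j => P j 0)
  exact ⟨p, hp0, hpd, hpe, fun i => hpe _, fun i => hpe _⟩

/-- every pair of points (not ramified) has a polynomial and a product -/
theorem pair_of {M : Type} [Field M] {c : Dat M} (hc : c.Good) {P : Pnt 2 M} (h : On c P) (hr : ¬ Ram P) :
    ∃ (p : M[X]) (u : M), p ≠ 0 ∧ p.natDegree ≤ 2 ∧ u ≠ 0 ∧ IsPr c p u P ∧ (∀ i, p.eval (c.a i) = Xv c P i) ∧
      (∀ i, p.eval (c.b i) = Yv c P i) ∧ (∀ i, Xv c P i ≠ 0) ∧ (∀ i, Yv c P i ≠ 0) ∧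
      u ^ c.n * ∏ i, Yv c P i = ∏ i, Xv c P i := by
  have hv : ∀ j, ∃ y : M, P j 1 = some y ∧ y ≠ 0 := by
    intro j
    rcases hP : P j 1 with _ | y
    · exact absurd ⟨j, Or.inl hP⟩ hr
    · refine ⟨y, rfl, ?_⟩
      rintro rfl
      exact hr ⟨j, Or.inr hP⟩
  choose v hv0 hvne using hv
  have hrel : ∀ j, v j ^ c.n * ∏ i, ev (P j 0) (c.b i) = ∏ i, ev (P j 0) (c.a i) :=
    fun j => onC_prod hc (h j) (v j) (hv0 j)
  have hbne : ∀ j i, ev (P j 0) (c.b i) ≠ 0 := by
    intro j i h0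
    have h1 : ∏ i, ev (P j 0) (c.b i) = 0 := Finset.prod_eq_zero (Finset.mem_univ i) h0
    have h2 := hrel j
    rw [h1, mul_zero] at h2
    obtain ⟨i', _, hi'⟩ := Finset.prod_eq_zero_iff.1 h2.symm
    exact B2_ev_ne hc (P j 0) i' i hi' h0
  have hane : ∀ j i, ev (P j 0) (c.a i) ≠ 0 := by
    intro j i h0
    have h1 : ∏ i, ev (P j 0) (c.a i) = 0 := Finset.prod_eq_zero (Finset.mem_univ i) h0
    have h2 := hrel j
    rw [h1] at h2
    rcases mul_eq_zero.1 h2 with h3 | h3
    · exact pow_ne_zero _ (hvne j) h3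
    · obtain ⟨i', _, hi'⟩ := Finset.prod_eq_zero_iff.1 h3
      exact hbne j i' hi'
  have hX : ∀ i, Xv c P i ≠ 0 := fun i => Finset.prod_ne_zero_iff.2 fun j _ => hane j i
  have hY : ∀ i, Yv c P i ≠ 0 := fun i => Finset.prod_ne_zero_iff.2 fun j _ => hbne j i
  obtain ⟨p, hp0, hpd, hpt, hpa, hpb⟩ := pair_poly (c := c) P
  refine ⟨p, ∏ j, v j, hp0, hpd, Finset.prod_ne_zero_iff.2 fun j _ => hvne j,
    ⟨h, ⟨1, one_ne_zero, fun t => ?_⟩, ⟨v, hv0, rfl⟩⟩, hpa, hpb, hX, hY, ?_⟩
  · rw [hpt, one_mul]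
  · simp only [Xv, Yv]
    rw [Finset.prod_comm, ← Finset.prod_pow, ← Finset.prod_mul_distrib, Finset.prod_comm (s := Finset.univ)
      (f := fun i j => ev (P j 0) (c.a i))]
    exact Finset.prod_congr rfl fun j _ => hrel j

theorem ram_iff {M : Type} [Field M] {c : Dat M} (hc : c.Good) {P : Pnt 2 M} (h : On c P) :
    Ram P ↔ ∃ i, Xv c P i = 0 ∨ Yv c P i = 0 := by
  have hn : 0 < c.n := lt_of_lt_of_le (by norm_num) hc.two
  constructor
  · rintro ⟨j, hj⟩
    have hon := h j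
    rcases hj with hj | hj
    · rw [hj] at hon
      rcases hx : P j 0 with _ | x
      · rw [hx] at hon
        exact hon.elim
      · rw [hx] at hon
        obtain ⟨i, hi⟩ := hon
        refine ⟨i, Or.inr (Finset.prod_eq_zero (Finset.mem_univ j) ?_)⟩
        rw [hx, hi]
        simp [ev]
    · have e1 := onC_prod hc hon 0 hj
      rw [zero_pow hn.ne', zero_mul] at e1
      obtain ⟨i, _, hi⟩ := Finset.prod_eq_zero_iff.1 e1.symm
      exact ⟨i, Or.inl (Finset.prod_eq_zero (Finset.mem_univ j) hi)⟩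
  · rintro ⟨i, hi⟩
    by_contra hr
    obtain ⟨p, u, -, -, -, -, -, -, hX, hY, -⟩ := pair_of hc h hr
    rcases hi with hi | hi
    · exact hX i hi
    · exact hY i hi

/-- a polynomial of degree `≤ 2` which vanishes at `a_i` and `b_i` -/
theorem node_poly {M : Type} [Field M] {c : Dat M} (hc : c.Good) (i : Fin 3) (p : M[X]) (hp : p ≠ 0)
    (h2 : p.natDegree ≤ 2) (h3 : p.eval (c.a i) = 0) (h4 : p.eval (c.b i) = 0) :
    ∃ l : M, l ≠ 0 ∧ ∀ t, p.eval t = l * en c i t := by
  have hab : c.a i ≠ c.b i := by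
    intro h0
    have h1 : Sum.elim c.a c.b (Sum.inl i) = Sum.elim c.a c.b (Sum.inr i) := by
      simpa only [Sum.elim_inl, Sum.elim_inr] using h0
    exact absurd (hc.inj h1) (by simp)
  obtain ⟨q, hq⟩ := dvd_iff_isRoot.2 (show p.IsRoot (c.a i) from h3)
  have hqb : q.eval (c.b i) = 0 := by
    rw [hq, eval_mul, eval_sub, eval_X, eval_C] at h4
    rcases mul_eq_zero.1 h4 with h5 | h5
    · exact absurd (sub_eq_zero.1 h5).symm hab
    · exact h5
  obtain ⟨r, hr⟩ := dvd_iff_isRoot.2 (show q.IsRoot (c.b i) from hqb)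
  have hr0 : r ≠ 0 := by
    rintro rfl
    rw [mul_zero] at hr
    rw [hr, mul_zero] at hq
    exact hp hq
  have hd : r.natDegree = 0 := by
    have h5 : p.natDegree = 1 + (1 + r.natDegree) := by
      rw [hq, hr, natDegree_mul (X_sub_C_ne_zero _) (mul_ne_zero (X_sub_C_ne_zero _) hr0),
        natDegree_mul (X_sub_C_ne_zero _) hr0, natDegree_X_sub_C, natDegree_X_sub_C]
    omega
  have hrC := eq_C_of_natDegree_eq_zero hd
  refine ⟨r.coeff 0, ?_, fun t => ?_⟩
  · intro h0
    rw [h0, C_0] at hrC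
    exact hr0 hrC
  · rw [hq, hr, hrC]
    simp only [eval_mul, eval_sub, eval_X, eval_C, en, coeff_C_zero]
    ring

end Pool.Agent.LibCW77
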