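import Pool.Agent.LibCW77.Defs3
import Pool.Agent.LibHL77.Z2
/-!
[CW77 T2] Places of a finite extension. `place_restr`: a place `w` of `N'` is not trivial on `N` (otherwise it is trivial on the algebraic
extension `N'`: an element with `ord ≠ 0` satisfies a monic equation over `N`), then `LibCHd.B4.exists_restrict` (or
`LibHL77.B1.exists_restr`). `funF_finite`: transcendence degree and finiteness; see `LibHL77.E0.funF_sub`. `funF_restr`: with `sum_ef`
(the residue field of `w` is finite over the one of `v`) and `funF_finite` backwards (`funF_sub`).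
-/

open scoped Classical
open Polynomial

namespace Pool.Agent.LibCW77

open Pool.Agent.LibBH2
open Pool.Agent.LibCHd (VR RF Red FunF)

variable {k : Type} [Field k]

/-- the field `M'` is finite over `M` -/
private theorem T2_fin {M M' : Type} [Field M] [Algebra k M] [Field M'] [Algebra k M'] [Algebra M M']
    (σ : M →ₐ[k] M') (hσ : ∀ x, algebraMap M M' x = σ x)
    (h : Module.finrank σ.fieldRange M' ≠ 0) : Module.Finite M M' := by
  have h1 : Module.Finite σ.fieldRange M' :=
    Module.finite_of_finrank_pos (Nat.pos_of_ne_zero h)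
  refine Module.Finite.of_equiv_equiv (AlgHom.equivFieldRange σ).symm.toRingEquiv
    (RingEquiv.refl M') ?_
  ext x
  obtain ⟨m, rfl⟩ := (AlgHom.equivFieldRange σ).surjective x
  change algebraMap M M' ((AlgHom.equivFieldRange σ).symm (AlgHom.equivFieldRange σ m)) =
    ((AlgHom.equivFieldRange σ m : σ.fieldRange) : M')
  rw [AlgEquiv.symm_apply_apply, hσ]
  rfl

private theorem T2_finrank {M M' : Type} [Field M] [Algebra k M] [Field M'] [Algebra k M'] [Algebra M M']
    (σ : M →ₐ[k] M') (hσ : ∀ x, algebraMap M M' x = σ x) [Module.Finite M M'] :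
    Module.finrank σ.fieldRange M' ≠ 0 := by
  have h1 : Module.Finite σ.fieldRange M' := by
    refine Module.Finite.of_equiv_equiv (A₁ := M) (B₁ := M') (AlgHom.equivFieldRange σ).toRingEquiv
      (RingEquiv.refl M') ?_
    ext x
    change ((AlgHom.equivFieldRange σ x : σ.fieldRange) : M') = algebraMap M M' x
    rw [hσ]
    rfl
  exact (Module.finrank_pos (R := σ.fieldRange) (M := M')).ne'

private theorem T2_map {M M' : Type} [Field M] [Algebra k M] [Field M'] [Algebra k M'] (σ : M →ₐ[k] M')
    (F : IntermediateField k M) :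
    Module.finrank (F.map σ) M' = Module.finrank σ.fieldRange M' * Module.finrank F M := by
  rw [AlgHom.fieldRange_eq_map,
    ← IntermediateField.relfinrank_mul_finrank_top (IntermediateField.map_mono σ (le_top :
      F ≤ ⊤)), IntermediateField.relfinrank_map_map,
    IntermediateField.relfinrank_top_right, mul_comm]

theorem place_restr {N N' : Type} [Field N] [Algebra k N] [Field N'] [Algebra k N'] (i : N →ₐ[k] N')
    (hfin : Module.finrank i.fieldRange N' ≠ 0) (w : Place k N') :
    ∃ (v : Place k N) (e : ℤ), 0 < e ∧ ∀ x, w.ord (i x) = e * v.ord x := by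
  have h0 : ∃ φ : N, w.ord (i φ) ≠ 0 := by
    by_contra hcon
    push Not at hcon
    let _ : Algebra N N' := (i : N →+* N').toAlgebra
    have hi : ∀ x, algebraMap N N' x = i x := fun _ => rfl
    have hF := T2_fin i hi hfin
    obtain ⟨t, ht⟩ := w.exists_uniformizer
    have ht0 : t ≠ 0 := by
      rintro rfl
      rw [w.ord_zero] at ht
      omega
    have hint : IsIntegral N t := Algebra.IsIntegral.isIntegral t
    have h1 := minpoly.aeval N t
    have h2 := minpoly.coeff_zero_ne_zero hint ht0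
    rw [← Polynomial.divX_mul_X_add (minpoly N t), map_add, map_mul, aeval_X, aeval_C] at h1
    have hreg : ∀ P : N[X], w.Reg (aeval t P) := by
      intro P
      rw [aeval_eq_sum_range]
      refine Finset.sum_induction _ (fun x => w.Reg x) (fun x y hx hy => hx.add hy) w.reg_zero ?_
      intro l _
      rw [Algebra.smul_def]
      by_cases h3 : P.coeff l = 0
      · rw [h3, map_zero, zero_mul]
        exact w.reg_zero
      · right
        rw [w.ord_mul _ _ ((_root_.map_ne_zero _).2 h3) (pow_ne_zero _ ht0), hi, hcon, w.ord_pow, ht]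
        positivity
    have hz : w.Zer t := Or.inr (by omega)
    have h3 : w.Zer (aeval t (minpoly N t).divX * t) := Place.Zer.reg_mul (hreg _) hz
    have h4 : w.Zer (algebraMap N N' ((minpoly N t).coeff 0)) := by
      have h5 : algebraMap N N' ((minpoly N t).coeff 0) = - (aeval t (minpoly N t).divX * t) := by
        linear_combination h1
      rw [h5]
      exact h3.neg
    rcases h4 with h4 | h4
    · exact h2 ((map_eq_zero _).1 h4)
    · rw [hi, hcon] at h4
      exact lt_irrefl _ h4
  obtain ⟨φ, hφ⟩ := h0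
  obtain ⟨v, e, he, h⟩ := Pool.Agent.LibCHd.exists_restrict i w φ hφ
  exact ⟨v, e, by exact_mod_cast he, h⟩

theorem funF_finite {d : ℕ} {M M' : Type} [Field M] [Algebra k M] [Field M'] [Algebra k M'] (i : M →ₐ[k] M')
    (hfin : Module.finrank i.fieldRange M' ≠ 0) (hM : FunF k d M) : FunF k d M' := by
  obtain ⟨t, ht, hf⟩ := hM
  refine ⟨fun l => i (t l), ht.map' i.injective, ?_⟩
  have h1 : IntermediateField.adjoin k (Set.range fun l => i (t l)) =
      (IntermediateField.adjoin k (Set.range t)).map i := by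
    rw [IntermediateField.adjoin_map, ← Set.range_comp]
    rfl
  rw [h1]
  apply Module.finite_of_finrank_pos
  rw [T2_map]
  exact Nat.mul_pos (Nat.pos_of_ne_zero hfin) Module.finrank_pos

theorem funF_sub {d : ℕ} {M M' : Type} [Field M] [Algebra k M] [Field M'] [Algebra k M'] (i : M →ₐ[k] M')
    (hfin : Module.finrank i.fieldRange M' ≠ 0) (hM : FunF k d M') : FunF k d M := by
  have h0 := hM.trdeg
  obtain ⟨t', ht', hf'⟩ := hM
  let _ : Algebra M M' := (i : M →+* M').toAlgebra
  have htow : IsScalarTower k M M' := IsScalarTower.of_algebraMap_eq fun x => (i.commutes x).symm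
  -- `M'` is finite over `M`
  have hfinM : Module.Finite M M' := T2_fin i (fun _ => rfl) hfin
  have halg : Algebra.IsAlgebraic M M' := inferInstance
  have h1 : Algebra.trdeg k M = d := by
    rw [← h0, ← trdeg_add_eq k M (A := M'), trdeg_eq_zero_iff.2 halg, add_zero]
  obtain ⟨ι, x, hx⟩ := exists_isTranscendenceBasis' k M
  have h2 : Cardinal.mk ι = (d : Cardinal) := by
    rw [hx.cardinalMk_eq_trdeg, h1]
  have h3 : Nonempty (Fin d ≃ ι) := by
    rw [← Cardinal.eq, Cardinal.mk_fin, h2]
  obtain ⟨e⟩ := h3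
  have ht : IsTranscendenceBasis k (fun l => x (e l)) := hx.comp_equiv e
  refine ⟨fun l => x (e l), ht.1, ?_⟩
  set t : Fin d → M := fun l => x (e l) with htdef
  have hE : Algebra.IsAlgebraic (IntermediateField.adjoin k (Set.range t)) M :=
    ht.isAlgebraic_field
  have hEss : Algebra.EssFiniteType k M' := by
    have e1 : Algebra.EssFiniteType k (IntermediateField.adjoin k (Set.range t')) := by
      rw [IntermediateField.essFiniteType_iff]
      exact ⟨Finset.univ.image t', by simp⟩
    exact Algebra.EssFiniteType.comp k (IntermediateField.adjoin k (Set.range t')) M'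
  have hEss' : Algebra.EssFiniteType (IntermediateField.adjoin k (Set.range t)) M' :=
    Algebra.EssFiniteType.of_comp k (IntermediateField.adjoin k (Set.range t)) M'
  have hE' : Algebra.IsAlgebraic (IntermediateField.adjoin k (Set.range t)) M' :=
    Algebra.IsAlgebraic.trans (IntermediateField.adjoin k (Set.range t)) M M'
  have hF : Module.Finite (IntermediateField.adjoin k (Set.range t)) M' :=
    Algebra.finite_of_essFiniteType_of_isAlgebraic
  exact Module.Finite.of_injective
    (IsScalarTower.toAlgHom (IntermediateField.adjoin k (Set.range t)) M M').toLinearMap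
    (algebraMap M M').injective

theorem finrank_trans {M M' M'' : Type} [Field M] [Algebra k M] [Field M'] [Algebra k M'] [Field M'']
    [Algebra k M''] (i : M →ₐ[k] M') (j : M' →ₐ[k] M'') :
    Module.finrank (j.comp i).fieldRange M'' = Module.finrank i.fieldRange M' * Module.finrank j.fieldRange M'' := by
  have h1 : (j.comp i).fieldRange = i.fieldRange.map j := by
    ext x
    constructor
    · rintro ⟨y, rfl⟩
      exact ⟨i y, ⟨y, rfl⟩, rfl⟩
    · rintro ⟨_, ⟨y, rfl⟩, rfl⟩
      exact ⟨y, rfl⟩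
  rw [h1, T2_map, mul_comm]

open scoped TensorProduct in
/-- two finite extensions have a common finite extension -/
theorem common_ext {M M₁ M₂ : Type} [Field M] [Algebra k M] [Field M₁] [Algebra k M₁] [Field M₂]
    [Algebra k M₂] (i₁ : M →ₐ[k] M₁) (i₂ : M →ₐ[k] M₂) (h₁ : Module.finrank i₁.fieldRange M₁ ≠ 0)
    (h₂ : Module.finrank i₂.fieldRange M₂ ≠ 0) :
    ∃ (M' : Type) (_ : Field M') (_ : Algebra k M') (j₁ : M₁ →ₐ[k] M') (j₂ : M₂ →ₐ[k] M'),
      j₁.comp i₁ = j₂.comp i₂ ∧ Module.finrank j₁.fieldRange M' ≠ 0 ∧ Module.finrank j₂.fieldRange M' ≠ 0 := by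
  let _ : Algebra M M₁ := (i₁ : M →+* M₁).toAlgebra
  let _ : Algebra M M₂ := (i₂ : M →+* M₂).toAlgebra
  have hF₁ : Module.Finite M M₁ := T2_fin i₁ (fun _ => rfl) h₁
  have hF₂ : Module.Finite M M₂ := T2_fin i₂ (fun _ => rfl) h₂
  obtain ⟨m, hm⟩ := Ideal.exists_maximal (M₁ ⊗[M] M₂)
  let fM' : Field ((M₁ ⊗[M] M₂) ⧸ m) := Ideal.Quotient.field m
  let f₁ : M₁ →+* (M₁ ⊗[M] M₂) ⧸ m :=
    (Ideal.Quotient.mk m).comp (Algebra.TensorProduct.includeLeft (R := M) (S := M) : M₁ →ₐ[M] M₁ ⊗[M] M₂).toRingHom
  let f₂ : M₂ →+* (M₁ ⊗[M] M₂) ⧸ m :=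
    (Ideal.Quotient.mk m).comp (Algebra.TensorProduct.includeRight : M₂ →ₐ[M] M₁ ⊗[M] M₂).toRingHom
  have hff : ∀ x : M, f₁ (i₁ x) = f₂ (i₂ x) := by
    intro x
    change Ideal.Quotient.mk m (algebraMap M M₁ x ⊗ₜ 1) = Ideal.Quotient.mk m (1 ⊗ₜ algebraMap M M₂ x)
    congr 1
    rw [Algebra.algebraMap_eq_smul_one, Algebra.algebraMap_eq_smul_one, TensorProduct.smul_tmul]
  let aM' : Algebra k ((M₁ ⊗[M] M₂) ⧸ m) := (f₁.comp (algebraMap k M₁)).toAlgebra
  let j₁ : M₁ →ₐ[k] (M₁ ⊗[M] M₂) ⧸ m := { f₁ with commutes' := fun _ => rfl }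
  let j₂ : M₂ →ₐ[k] (M₁ ⊗[M] M₂) ⧸ m :=
    { f₂ with
      commutes' := by
        intro c
        change f₂ (algebraMap k M₂ c) = f₁ (algebraMap k M₁ c)
        rw [← i₁.commutes, ← i₂.commutes, hff] }
  have hcomp : j₁.comp i₁ = j₂.comp i₂ := AlgHom.ext hff
  have hfin : Module.finrank (j₁.comp i₁).fieldRange ((M₁ ⊗[M] M₂) ⧸ m) ≠ 0 := by
    refine T2_finrank (j₁.comp i₁) ?_
    intro x
    rfl
  have e₁ := finrank_trans i₁ j₁
  have e₂ := finrank_trans i₂ j₂
  rw [← hcomp] at e₂
  rw [e₁] at hfin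
  rw [e₁] at e₂
  refine ⟨_, fM', aM', j₁, j₂, hcomp, right_ne_zero_of_mul hfin, ?_⟩
  rw [e₂] at hfin
  exact right_ne_zero_of_mul hfin

end Pool.Agent.LibCW77
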