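import Pool.Agent.LibCW77.Defs6
import Pool.Agent.LibCW77.B1
import Pool.Agent.LibCW77.B2
import Pool.Agent.LibCW77.B3
import Pool.Agent.LibCW77.T2

/-!
[CW77 B4] Residual pairs and their classes `SV`. `exists_res`: `pair_poly` for `P`, `res_poly`; if some value of `p'` at the six points is `0` then (the relation number `i`, `X_i, Y_i ≠ 0`) `p'(a_i) = p'(b_i) = 0`,
`node_poly`: `NodeRel`. Otherwise `exists_pair` for `p'` and `u' = ν / u` (`u` the product for `P`; `u' ^ n = ∏ p'(a_i) / p'(b_i)` because `p'(a_i) / p'(b_i) = - kb_i Y_i / (ka_i X_i)`).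
`res_conj`: `res_uniq`, `pr_conj` (`pair_of`). `node_no_res`: `res_uniq` for the polynomial of `P'` and `en c i` : then `Xv P' i = 0`, `ram_iff`. `SV_spec`: as T7 (`TZ_spec`): the condition
in the definition holds for `t = (finrank)⁻¹ • q (msp P'₀ ..)` of one residual pair: go to a common extension (`common_ext`), `res_conj`, `msp_conj`, `msp_map`, `finrank_trans`.
`SV_zero`: no residual pairs. `SV_map`: if `P` is ramified or `NodeRel` both sides are `0`; else take a residual pair over a common extension. If `finrank = 0` (`M` not finite under `M'`):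
then (`hM'`) the coordinates of `P` are algebraic over `k` (`P` over `M`, `M` algebraic over `k` because the transcendence degree of `M'` is `1`, `k` algebraically closed): `SV_alg`. `SV_alg`: the coordinates of a
residual pair are algebraic over `k` (its polynomial is unique up to a factor, so it can be chosen with coefficients in `k`): `msp_alg`.
-/

open scoped Classical
open Polynomial

namespace Pool.Agent.LibCW77

open Pool.Agent.LibBH2
open Pool.Agent.LibCHd (VR RF Red FunF)

variable {k : Type} [Field k]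

private theorem B4_over {M M' : Type} [Field M] [Algebra k M] [Field M'] [Algebra k M'] (i : M →ₐ[k] M')
    (c : Dat k) : (c.over M).map (i : M →+* M') = c.over M' := by
  simp only [Dat.over, Dat.map]
  congr 1
  · funext j
    exact i.commutes (c.a j)
  · funext j
    exact i.commutes (c.b j)

private theorem B4_ev {M M' : Type} [Field M] [Field M'] (f : M →+* M') (x : Option M) (t : M) :
    ev (x.map f) (f t) = f (ev x t) := by
  cases x with
  | none => simp [ev]
  | some x => simp [ev]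

private theorem B4_X {m : ℕ} {c : Dat k} {M M' : Type} [Field M] [Algebra k M] [Field M'] [Algebra k M'] (i : M →ₐ[k] M')
    (P : Pnt m M) (t : Fin 3) : Xv (c.over M') (mpP i P) t = i (Xv (c.over M) P t) := by
  rw [← B4_over i c]
  simp only [Xv, mpP, Dat.map, map_prod]
  exact Finset.prod_congr rfl fun j _ => B4_ev (i : M →+* M') _ _

private theorem B4_Y {m : ℕ} {c : Dat k} {M M' : Type} [Field M] [Algebra k M] [Field M'] [Algebra k M'] (i : M →ₐ[k] M')
    (P : Pnt m M) (t : Fin 3) : Yv (c.over M') (mpP i P) t = i (Yv (c.over M) P t) := by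
  rw [← B4_over i c]
  simp only [Yv, mpP, Dat.map, map_prod]
  exact Finset.prod_congr rfl fun j _ => B4_ev (i : M →+* M') _ _

private theorem B4_ka {c : Dat k} {M M' : Type} [Field M] [Algebra k M] [Field M'] [Algebra k M'] (i : M →ₐ[k] M')
    (t : Fin 3) : ka (c.over M') t = i (ka (c.over M) t) := by
  rw [← B4_over i c, ka_map]
  rfl

private theorem B4_kb {c : Dat k} {M M' : Type} [Field M] [Algebra k M] [Field M'] [Algebra k M'] (i : M →ₐ[k] M')
    (t : Fin 3) : kb (c.over M') t = i (kb (c.over M) t) := by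
  rw [← B4_over i c, kb_map]
  rfl

private theorem B4_en {c : Dat k} {M M' : Type} [Field M] [Algebra k M] [Field M'] [Algebra k M'] (i : M →ₐ[k] M')
    (j : Fin 3) (t : M) : en (c.over M') j (i t) = i (en (c.over M) j t) := by
  rw [← B4_over i c]
  simp only [en, Dat.map, map_mul, map_sub]
  rfl

private theorem B4_a {c : Dat k} {M M' : Type} [Field M] [Algebra k M] [Field M'] [Algebra k M'] (i : M →ₐ[k] M')
    (j : Fin 3) : (c.over M').a j = i ((c.over M).a j) := (i.commutes (c.a j)).symm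

private theorem B4_b {c : Dat k} {M M' : Type} [Field M] [Algebra k M] [Field M'] [Algebra k M'] (i : M →ₐ[k] M')
    (j : Fin 3) : (c.over M').b j = i ((c.over M).b j) := (i.commutes (c.b j)).symm

private theorem B4_fst2 {M M' : Type} (f : M → M') (P : Pnt 3 M) : fst2 (mpP f P) = mpP f (fst2 P) := by
  funext j
  fin_cases j <;> rfl

private theorem B4_on2 {M : Type} [Field M] {c : Dat M} {P : Pnt 3 M} (h : On c P) : On c (fst2 P) := by
  intro j
  fin_cases j
  · exact h 0
  · exact h 1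

private theorem B4_ram_map {m : ℕ} {M M' : Type} [Field M] [Field M'] (f : M →+* M') {P : Pnt m M} :
    Ram (mpP f P) ↔ Ram P := by
  constructor
  · rintro ⟨j, hj⟩
    refine ⟨j, ?_⟩
    rcases hP : P j 1 with _ | y
    · exact Or.inl rfl
    · right
      simp only [mpP, hP, Option.map_some] at hj
      rcases hj with hj | hj
      · exact absurd hj (by simp)
      · exact congrArg some ((map_eq_zero f).1 (Option.some.inj hj))
  · rintro ⟨j, hj⟩
    refine ⟨j, ?_⟩
    simp only [mpP]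
    rcases hj with hj | hj
    · left; rw [hj]; rfl
    · right; rw [hj]; simp

theorem res_map {c : Dat k} {ν : k} {M M' : Type} [Field M] [Algebra k M] [Field M'] [Algebra k M'] (i : M →ₐ[k] M')
    {P P' : Pnt 2 M} : IsRes (c.over M') (algebraMap k M' ν) (mpP i P) (mpP i P') ↔
      IsRes (c.over M) (algebraMap k M ν) P P' := by
  have hi : Function.Injective i := i.toRingHom.injective
  have hν : algebraMap k M' ν = i (algebraMap k M ν) := (i.commutes ν).symm
  constructor
  · intro h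
    refine ⟨(on_map i).1 h.on, ?_, ?_⟩
    · intro j
      have h1 := h.rel j
      rw [B4_X, B4_X, B4_Y, B4_Y, B4_ka i, B4_kb i, ← map_mul, ← map_mul, ← map_mul, ← map_mul, ← map_add] at h1
      exact (map_eq_zero i).1 h1
    · obtain ⟨v, v', hv, hv', hp⟩ := h.prod
      have e1 : ∀ j, ∃ y, P j 1 = some y ∧ i y = v j := by
        intro j
        have := hv j
        simp only [mpP, Option.map_eq_some_iff] at this
        exact this
      have e2 : ∀ j, ∃ y, P' j 1 = some y ∧ i y = v' j := by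
        intro j
        have := hv' j
        simp only [mpP, Option.map_eq_some_iff] at this
        exact this
      choose y hy hyv using e1
      choose y' hy' hyv' using e2
      refine ⟨y, y', hy, hy', hi ?_⟩
      rw [map_mul, map_prod, map_prod, ← hν, ← hp]
      simp only [hyv, hyv']
  · intro h
    refine ⟨(on_map i).2 h.on, ?_, ?_⟩
    · intro j
      rw [B4_X, B4_X, B4_Y, B4_Y, B4_ka i, B4_kb i, ← map_mul, ← map_mul, ← map_mul, ← map_mul, ← map_add,
        h.rel j, map_zero]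
    · obtain ⟨v, v', hv, hv', hp⟩ := h.prod
      refine ⟨fun j => i (v j), fun j => i (v' j), ?_, ?_, ?_⟩
      · intro j
        simp only [mpP, hv j, Option.map_some]
      · intro j
        simp only [mpP, hv' j, Option.map_some]
      · rw [hν, ← hp, map_mul, map_prod, map_prod]

theorem res_not_ram {M : Type} [Field M] {c : Dat M} (hc : c.Good) {ν : M} (hν : ν ≠ 0) {P P' : Pnt 2 M}
    (h : IsRes c ν P P') : ¬ Ram P ∧ ¬ Ram P' := by
  obtain ⟨v, v', hv, hv', hp⟩ := h.prod
  rw [← hp] at hν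
  have h1 : ∏ j, v j ≠ 0 := left_ne_zero_of_mul hν
  have h2 : ∏ j, v' j ≠ 0 := right_ne_zero_of_mul hν
  rw [Finset.prod_ne_zero_iff] at h1 h2
  constructor
  · rintro ⟨j, hj⟩
    rw [hv j] at hj
    rcases hj with hj | hj
    · exact absurd hj (by simp)
    · exact h1 j (Finset.mem_univ j) (Option.some.inj hj)
  · rintro ⟨j, hj⟩
    rw [hv' j] at hj
    rcases hj with hj | hj
    · exact absurd hj (by simp)
    · exact h2 j (Finset.mem_univ j) (Option.some.inj hj)

theorem exists_res [CharZero k] {c : Dat k} (hc : c.Good) {ν : k} (hν : ν ^ c.n = ∏ i, (-(kb c i) / ka c i)) {M : Type}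
    [Field M] [Algebra k M] (P : Pnt 2 M) (hP : On (c.over M) P) (hr : ¬ Ram P) :
    (∃ i, NodeRel (c.over M) i P) ∨
    ∃ (M' : Type) (_ : Field M') (_ : Algebra k M') (i : M →ₐ[k] M') (P' : Pnt 2 M'),
      Module.finrank i.fieldRange M' ≠ 0 ∧ IsRes (c.over M') (algebraMap k M' ν) (mpP i P) P' := by
  have hcM := good_map (M := M) hc
  obtain ⟨p, u, hp0, hp2, hu0, hpr, hpa, hpb, hX, hY, huu⟩ := pair_of hcM hP hr
  obtain ⟨p', hp'0, hp'2, hrel⟩ := res_poly hcM p hp2
  by_cases hz : ∃ i, p'.eval ((c.over M).a i) = 0 ∨ p'.eval ((c.over M).b i) = 0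
  · obtain ⟨i, hi⟩ := hz
    left
    have hka := ka_ne hcM i
    have hkb := kb_ne hcM i
    have hri := hrel i
    have hab : p'.eval ((c.over M).a i) = 0 ∧ p'.eval ((c.over M).b i) = 0 := by
      rcases hi with hi | hi
      · refine ⟨hi, ?_⟩
        rw [hi, mul_zero, mul_zero, zero_add] at hri
        rcases mul_eq_zero.1 hri with h | h
        · exact absurd h hkb
        · rcases mul_eq_zero.1 h with h | h
          · rw [hpb] at h
            exact absurd h (hY i)
          · exact h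
      · refine ⟨?_, hi⟩
        rw [hi, mul_zero, mul_zero, add_zero] at hri
        rcases mul_eq_zero.1 hri with h | h
        · exact absurd h hka
        · rcases mul_eq_zero.1 h with h | h
          · rw [hpa] at h
            exact absurd h (hX i)
          · exact h
    obtain ⟨l, hl, hle⟩ := node_poly hcM i p' hp'0 hp'2 hab.1 hab.2
    refine ⟨i, ?_⟩
    intro j _
    have hj := hrel j
    rw [hle, hle, hpa, hpb] at hj
    have : l * (ka (c.over M) j * (Xv (c.over M) P j * en (c.over M) i ((c.over M).a j)) +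
        kb (c.over M) j * (Yv (c.over M) P j * en (c.over M) i ((c.over M).b j))) = 0 := by
      rw [← hj]; ring
    exact (mul_eq_zero.1 this).resolve_left hl
  · right
    push Not at hz
    have ha : ∀ i, p'.eval ((c.over M).a i) ≠ 0 := fun i => (hz i).1
    have hb : ∀ i, p'.eval ((c.over M).b i) ≠ 0 := fun i => (hz i).2
    have hquot : ∀ i, p'.eval ((c.over M).a i) =
        (-(kb (c.over M) i) / ka (c.over M) i) * (Yv (c.over M) P i / Xv (c.over M) P i) *
          p'.eval ((c.over M).b i) := by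
      intro i
      have hka := ka_ne hcM i
      have hXi := hX i
      have hri := hrel i
      rw [hpa, hpb] at hri
      field_simp
      linear_combination hri
    have hνM : (algebraMap k M ν) ^ c.n = ∏ i, (-(kb (c.over M) i) / ka (c.over M) i) := by
      rw [← map_pow, hν, map_prod]
      refine Finset.prod_congr rfl fun i _ => ?_
      rw [map_div₀, map_neg, ← ka_map, ← kb_map]
    have hu' : (algebraMap k M ν / u) ^ c.n * ∏ i, p'.eval ((c.over M).b i) =
        ∏ i, p'.eval ((c.over M).a i) := by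
      have e1 : ∏ i, p'.eval ((c.over M).a i) =
          (∏ i, (-(kb (c.over M) i) / ka (c.over M) i)) *
            ((∏ i, Yv (c.over M) P i) / (∏ i, Xv (c.over M) P i)) * ∏ i, p'.eval ((c.over M).b i) := by
        rw [← Finset.prod_div_distrib, ← Finset.prod_mul_distrib, ← Finset.prod_mul_distrib]
        exact Finset.prod_congr rfl fun i _ => hquot i
      rw [e1, ← hνM, div_pow]
      have hY0 : ∏ i, Yv (c.over M) P i ≠ 0 := Finset.prod_ne_zero_iff.2 fun i _ => hY i
      have hun : u ^ c.n ≠ 0 := pow_ne_zero _ hu0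
      have huu' : u ^ c.n * ∏ i, Yv (c.over M) P i = ∏ i, Xv (c.over M) P i := huu
      rw [← huu']
      field_simp
    obtain ⟨M', _, _, i, P', hfin, hPr⟩ := exists_pair hc p' hp'2 ha hb _ hu'
    refine ⟨M', _, _, i, P', hfin, hPr.on, ?_, ?_⟩
    · intro j
      obtain ⟨l, hl, hle⟩ := hPr.pol
      have e1 : Xv (c.over M') P' j = l * i (p'.eval ((c.over M).a j)) := by
        have := hle ((c.over M').a j)
        rw [B4_a i, ← RingHom.coe_coe i, Polynomial.eval_map_apply] at this
        rw [Xv, B4_a i]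
        exact this
      have e2 : Yv (c.over M') P' j = l * i (p'.eval ((c.over M).b j)) := by
        have := hle ((c.over M').b j)
        rw [B4_b i, ← RingHom.coe_coe i, Polynomial.eval_map_apply] at this
        rw [Yv, B4_b i]
        exact this
      have hj := congrArg i (hrel j)
      rw [hpa, hpb] at hj
      simp only [map_add, map_mul, map_zero] at hj
      rw [e1, e2, B4_X, B4_Y, B4_ka i, B4_kb i]
      linear_combination l * hj
    · obtain ⟨v, hv, hvp⟩ := hpr.prod
      obtain ⟨v', hv', hvp'⟩ := hPr.prod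
      refine ⟨fun j => i (v j), v', ?_, hv', ?_⟩
      · intro j
        simp only [mpP, hv j, Option.map_some]
      · rw [hvp', ← map_prod, hvp, ← map_mul, mul_div_cancel₀ _ hu0, i.commutes]

theorem res_conj [IsAlgClosed k] {c : Dat k} (hc : c.Good) (hn : ND c) {ν : k} (hν : ν ≠ 0) {M : Type} [Field M]
    [Algebra k M] {P P' P'' : Pnt 2 M} (hP : On (c.over M) P) (h' : IsRes (c.over M) (algebraMap k M ν) P P')
    (h'' : IsRes (c.over M) (algebraMap k M ν) P P'') :
    ∃ (σ : Equiv.Perm (Fin 2)) (w : k), w ^ c.n = 1 ∧ P'' = pr σ (tw ![w, w⁻¹] P') := by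
  have hcM := good_map (M := M) hc
  have hνM : algebraMap k M ν ≠ 0 := (map_ne_zero (algebraMap k M)).2 hν
  obtain ⟨hr, hr'⟩ := res_not_ram hcM hνM h'
  obtain ⟨-, hr''⟩ := res_not_ram hcM hνM h''
  obtain ⟨p, u, hp0, hp2, hu0, hpr, hpa, hpb, hX, hY, huu⟩ := pair_of hcM hP hr
  obtain ⟨p', u', hp'0, hp'2, hu'0, hpr', hpa', hpb', hX', hY', -⟩ := pair_of hcM h'.on hr'
  obtain ⟨p'', u'', hp''0, hp''2, hu''0, hpr'', hpa'', hpb'', -, -, -⟩ := pair_of hcM h''.on hr''
  obtain ⟨l, hl, hpp⟩ := res_uniq hcM (nd_map hn) (Xv (c.over M) P) (Yv (c.over M) P) hX hY p' p'' hp'0 hp''0 hp'2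
    hp''2 (fun i => by rw [hpa', hpb']; exact h'.rel i) (fun i => by rw [hpa'', hpb'']; exact h''.rel i)
  have hprod : ∀ {Q : Pnt 2 M} {q : M[X]} {t : M}, IsRes (c.over M) (algebraMap k M ν) P Q →
      IsPr (c.over M) q t Q → u * t = algebraMap k M ν := by
    intro Q q t hQ hq
    obtain ⟨v, v', hv, hv', hvv⟩ := hQ.prod
    obtain ⟨w, hw, hwu⟩ := hpr.prod
    obtain ⟨w', hw', hwt⟩ := hq.prod
    have e1 : w = v := by
      funext j
      exact Option.some.inj ((hw j).symm.trans (hv j))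
    have e2 : w' = v' := by
      funext j
      exact Option.some.inj ((hw' j).symm.trans (hv' j))
    rw [← hwu, ← hwt, e1, e2, hvv]
  have e1 := hprod h' hpr'
  have e2 := hprod h'' hpr''
  have e3 : u'' = u' := mul_left_cancel₀ hu0 (e2.trans e1.symm)
  rw [e3] at hpr''
  exact pr_conj hc (fun i => by rw [hpa']; exact hX' i) (fun i => by rw [hpb']; exact hY' i) hl hpp hpr' hpr''

theorem node_map {c : Dat k} {M M' : Type} [Field M] [Algebra k M] [Field M'] [Algebra k M'] (i : M →ₐ[k] M')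
    {P : Pnt 2 M} (j : Fin 3) : NodeRel (c.over M') j (mpP i P) ↔ NodeRel (c.over M) j P := by
  unfold NodeRel
  refine forall_congr' fun t => imp_congr_right fun _ => ?_
  rw [B4_X, B4_Y, B4_ka i, B4_kb i, B4_a i, B4_b i, B4_en, B4_en, ← map_mul, ← map_mul, ← map_mul, ← map_mul,
    ← map_add, map_eq_zero]

theorem node_no_res {M : Type} [Field M] {c : Dat M} (hc : c.Good) (hn : ND c) {ν : M} (hν : ν ≠ 0) {P P' : Pnt 2 M}
    (hP : On c P) (i : Fin 3) (hN : NodeRel c i P) : ¬ IsRes c ν P P' := by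
  intro h
  obtain ⟨hr, hr'⟩ := res_not_ram hc hν h
  obtain ⟨p, u, hp0, hp2, hu0, hpr, hpa, hpb, hX, hY, -⟩ := pair_of hc hP hr
  obtain ⟨p', u', hp'0, hp'2, hu'0, hpr', hpa', hpb', hX', hY', -⟩ := pair_of hc h.on hr'
  set E : M[X] := (X - C (c.a i)) * (X - C (c.b i)) with hE
  have hEe : ∀ t, E.eval t = en c i t := by
    intro t
    simp [hE, en]
  have hE0 : E ≠ 0 := mul_ne_zero (X_sub_C_ne_zero _) (X_sub_C_ne_zero _)
  have hE2 : E.natDegree ≤ 2 := by
    refine natDegree_mul_le.trans ?_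
    rw [natDegree_X_sub_C, natDegree_X_sub_C]
  have hEa : E.eval (c.a i) = 0 := by simp [hE]
  have hEb : E.eval (c.b i) = 0 := by simp [hE]
  obtain ⟨l, hl, hEl⟩ := res_uniq hc hn (Xv c P) (Yv c P) hX hY p' E hp'0 hE0 hp'2 hE2
    (fun j => by rw [hpa', hpb']; exact h.rel j) (fun j => by
      by_cases hj : j = i
      · subst hj
        rw [hEa, hEb]
        ring
      · rw [hEe, hEe]
        exact hN j hj)
  rw [hEl, eval_mul, eval_C, hpa'] at hEa
  exact (mul_ne_zero hl (hX' i)) hEa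

variable {V : Type} [AddCommGroup V] [Module ℚ V]

private theorem B4_cancel {n : ℕ} (hn : n ≠ 0) {x y : V} (h : n • x = n • y) : x = y := by
  have h1 : (n : ℚ) • x = (n : ℚ) • y := by
    rw [Nat.cast_smul_eq_nsmul, Nat.cast_smul_eq_nsmul]
    exact h
  have h2 : (n : ℚ) ≠ 0 := by exact_mod_cast hn
  have h3 := congrArg (fun t => (n : ℚ)⁻¹ • t) h1
  simpa [smul_smul, inv_mul_cancel₀ h2] using h3

private theorem B4_mpP_comp {m : ℕ} {M M' M'' : Type} [Field M] [Algebra k M] [Field M'] [Algebra k M'] [Field M'']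
    [Algebra k M''] (i : M →ₐ[k] M') (j : M' →ₐ[k] M'') (P : Pnt m M) : mpP j (mpP i P) = mpP (j.comp i) P := by
  funext a b
  simp only [mpP, Option.map_map]
  rfl

private theorem B4_key [IsAlgClosed k] {c : Dat k} (hc : c.Good) (hn : ND c) {ζ ν : k} (hζ : ζ ^ c.n = 1)
    (hν : ν ≠ 0) (q : CH c 3 1 →+ V) {M : Type} [Field M] [Algebra k M] {P : Pnt 3 M} (hP : On (c.over M) P)
    {M₁ : Type} [Field M₁] [Algebra k M₁] (i₁ : M →ₐ[k] M₁) (P₁ : Pnt 2 M₁)
    (h₁ : Module.finrank i₁.fieldRange M₁ ≠ 0)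
    (hP₁ : IsRes (c.over M₁) (algebraMap k M₁ ν) (fst2 (mpP i₁ P)) P₁)
    {M₂ : Type} [Field M₂] [Algebra k M₂] (i₂ : M →ₐ[k] M₂) (P₂ : Pnt 2 M₂)
    (h₂ : Module.finrank i₂.fieldRange M₂ ≠ 0)
    (hP₂ : IsRes (c.over M₂) (algebraMap k M₂ ν) (fst2 (mpP i₂ P)) P₂) :
    Module.finrank i₁.fieldRange M₁ • q (msp c ζ P₂ (mpP i₂ P 2)) =
      Module.finrank i₂.fieldRange M₂ • q (msp c ζ P₁ (mpP i₁ P 2)) := by
  obtain ⟨N, _, _, j₁, j₂, hj, hj₁, hj₂⟩ := common_ext i₁ i₂ h₁ h₂
  have hL₁ := (res_map j₁).2 hP₁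
  have hL₂ := (res_map j₂).2 hP₂
  rw [← B4_fst2, B4_mpP_comp] at hL₁ hL₂
  rw [← hj] at hL₂
  have hPN : On (c.over N) (fst2 (mpP (j₁.comp i₁) P)) := B4_on2 ((on_map _).2 hP)
  obtain ⟨σ, w, hw, hPP⟩ := res_conj hc hn hν hPN hL₁ hL₂
  have hR : (fun a => (mpP i₁ P 2 a).map j₁) = (fun a => (mpP i₂ P 2 a).map j₂) := by
    have e1 : (fun a => (mpP i₁ P 2 a).map j₁) = mpP (j₁.comp i₁) P 2 := by
      rw [← B4_mpP_comp]; rfl
    have e2 : (fun a => (mpP i₂ P 2 a).map j₂) = mpP (j₂.comp i₂) P 2 := by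
      rw [← B4_mpP_comp]; rfl
    rw [e1, e2, hj]
  have h3 : msp c ζ (mpP j₂ P₂) (fun a => (mpP i₂ P 2 a).map j₂) =
      msp c ζ (mpP j₁ P₁) (fun a => (mpP i₁ P 2 a).map j₁) := by
    rw [hPP, hR]
    exact msp_conj hc hζ _ _ σ w hw
  rw [msp_map, msp_map] at h3
  have h4 := congrArg q h3
  rw [map_zsmul, map_zsmul, natCast_zsmul, natCast_zsmul] at h4
  have h5 := finrank_trans i₁ j₁
  have h6 := finrank_trans i₂ j₂
  rw [hj] at h5
  rw [h6] at h5
  refine B4_cancel hj₂ ?_
  calc Module.finrank j₂.fieldRange N • (Module.finrank i₁.fieldRange M₁ • q (msp c ζ P₂ (mpP i₂ P 2)))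
      = Module.finrank i₁.fieldRange M₁ • (Module.finrank j₂.fieldRange N • q (msp c ζ P₂ (mpP i₂ P 2))) := by
        rw [smul_smul, smul_smul, mul_comm]
    _ = Module.finrank i₁.fieldRange M₁ • (Module.finrank j₁.fieldRange N • q (msp c ζ P₁ (mpP i₁ P 2))) := by
        rw [h4]
    _ = (Module.finrank i₂.fieldRange M₂ * Module.finrank j₂.fieldRange N) • q (msp c ζ P₁ (mpP i₁ P 2)) := by
        rw [smul_smul, h5]
    _ = Module.finrank j₂.fieldRange N • (Module.finrank i₂.fieldRange M₂ • q (msp c ζ P₁ (mpP i₁ P 2))) := by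
        rw [smul_smul, mul_comm]

private theorem B4_exists [IsAlgClosed k] {c : Dat k} (hc : c.Good) (hn : ND c) {ζ ν : k} (hζ : ζ ^ c.n = 1)
    (hν : ν ≠ 0) (q : CH c 3 1 →+ V) {M : Type} [Field M] [Algebra k M] {P : Pnt 3 M} (hP : On (c.over M) P)
    {M₀ : Type} [Field M₀] [Algebra k M₀] (i₀ : M →ₐ[k] M₀) (P₀ : Pnt 2 M₀)
    (h₀ : Module.finrank i₀.fieldRange M₀ ≠ 0)
    (hP₀ : IsRes (c.over M₀) (algebraMap k M₀ ν) (fst2 (mpP i₀ P)) P₀) :
    ∃ t : V, ∀ (M' : Type) (_ : Field M') (_ : Algebra k M') (i : M →ₐ[k] M') (P' : Pnt 2 M'),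
      Module.finrank i.fieldRange M' ≠ 0 →
        IsRes (c.over M') (algebraMap k M' ν) (fst2 (mpP i P)) P' →
          q (msp c ζ P' (mpP i P 2)) = Module.finrank i.fieldRange M' • t := by
  have h00 : ((Module.finrank i₀.fieldRange M₀ : ℕ) : ℚ) ≠ 0 := by exact_mod_cast h₀
  refine ⟨((Module.finrank i₀.fieldRange M₀ : ℕ) : ℚ)⁻¹ • q (msp c ζ P₀ (mpP i₀ P 2)), ?_⟩
  intro M' _ _ i P' hfin hP'
  have hk := B4_key hc hn hζ hν q hP i₀ P₀ h₀ hP₀ i P' hfin hP'
  refine B4_cancel h₀ ?_
  rw [hk, smul_smul, mul_comm, ← smul_smul]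
  congr 1
  rw [← Nat.cast_smul_eq_nsmul ℚ (Module.finrank i₀.fieldRange M₀), smul_smul, mul_inv_cancel₀ h00, one_smul]

theorem SV_spec [IsAlgClosed k] [CharZero k] {c : Dat k} (hc : c.Good) (hn : ND c) {ζ ν : k} (hζ : ζ ^ c.n = 1)
    (hν : ν ≠ 0) (q : CH c 3 1 →+ V) {M : Type} [Field M] [Algebra k M] {P : Pnt 3 M} (hP : On (c.over M) P)
    {M' : Type} [Field M'] [Algebra k M'] (i : M →ₐ[k] M') (P' : Pnt 2 M')
    (hfin : Module.finrank i.fieldRange M' ≠ 0)
    (h : IsRes (c.over M') (algebraMap k M' ν) (fst2 (mpP i P)) P') :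
    q (msp c ζ P' (mpP i P 2)) = Module.finrank i.fieldRange M' • SV c ζ ν q P := by
  have hex := B4_exists hc hn hζ hν q hP i P' hfin h
  have hex' : (∃ (M' : Type) (_ : Field M') (_ : Algebra k M') (i : M →ₐ[k] M') (P' : Pnt 2 M'),
      Module.finrank i.fieldRange M' ≠ 0 ∧
        IsRes (c.over M') (algebraMap k M' ν) (fst2 (mpP i P)) P') ∧
    ∃ t : V, ∀ (M' : Type) (_ : Field M') (_ : Algebra k M') (i : M →ₐ[k] M') (P' : Pnt 2 M'),
      Module.finrank i.fieldRange M' ≠ 0 →
        IsRes (c.over M') (algebraMap k M' ν) (fst2 (mpP i P)) P' →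
          q (msp c ζ P' (mpP i P 2)) = Module.finrank i.fieldRange M' • t :=
    ⟨⟨M', _, _, i, P', hfin, h⟩, hex⟩
  have h1 := hex'.2.choose_spec M' _ _ i P' hfin h
  rw [h1]
  unfold SV
  rw [dif_pos hex']

private theorem B4_zero {c : Dat k} {ζ ν : k} (q : CH c 3 1 →+ V) {M : Type} [Field M] [Algebra k M]
    {P : Pnt 3 M} (h : ∀ (M' : Type) (_ : Field M') (_ : Algebra k M') (i : M →ₐ[k] M') (P' : Pnt 2 M'),
      Module.finrank i.fieldRange M' ≠ 0 →
        ¬ IsRes (c.over M') (algebraMap k M' ν) (fst2 (mpP i P)) P') : SV c ζ ν q P = 0 := by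
  unfold SV
  rw [dif_neg]
  rintro ⟨⟨M', _, _, i, P', hfin, hP'⟩, -⟩
  exact h M' _ _ i P' hfin hP'

theorem SV_ram {c : Dat k} (hc : c.Good) {ζ ν : k} (hν : ν ≠ 0) (q : CH c 3 1 →+ V) {M : Type} [Field M] [Algebra k M]
    {P : Pnt 3 M} (hP : On (c.over M) P) (hr : Ram (fst2 P)) : SV c ζ ν q P = 0 := by
  refine B4_zero q ?_
  intro M' _ _ i P' _ hP'
  have h1 := (res_not_ram (good_map hc) ((map_ne_zero (algebraMap k M')).2 hν) hP').1
  rw [B4_fst2] at h1
  exact h1 ((B4_ram_map (i : M →+* M')).2 hr)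

theorem SV_node [IsAlgClosed k] [CharZero k] {c : Dat k} (hc : c.Good) (hn : ND c) {ζ ν : k} (hν : ν ≠ 0)
    (q : CH c 3 1 →+ V) {M : Type} [Field M] [Algebra k M] {P : Pnt 3 M} (hP : On (c.over M) P) (i : Fin 3)
    (hN : NodeRel (c.over M) i (fst2 P)) : SV c ζ ν q P = 0 := by
  refine B4_zero q ?_
  intro M' _ _ j P' _
  rw [B4_fst2]
  exact node_no_res (good_map hc) (nd_map hn) ((map_ne_zero (algebraMap k M')).2 hν)
    ((on_map j).2 (B4_on2 hP)) i ((node_map j i).2 hN)

private theorem B4_alg_mem [IsAlgClosed k] {M : Type} [Field M] [Algebra k M] {y : M} (hy : IsAlgebraic k y) :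
    ∃ y₀ : k, algebraMap k M y₀ = y := by
  have hint : IsIntegral k y := hy.isIntegral
  exact minpoly.mem_range_of_degree_eq_one k y (IsAlgClosed.degree_eq_one_of_irreducible k (minpoly.irreducible hint))

private theorem B4_opt [IsAlgClosed k] {M : Type} [Field M] [Algebra k M] (o : Option M)
    (h : ∀ x, o = some x → IsAlgebraic k x) : ∃ o₀ : Option k, o₀.map (algebraMap k M) = o := by
  cases o with
  | none => exact ⟨none, rfl⟩
  | some x =>
    obtain ⟨y, hy⟩ := B4_alg_mem (h x rfl)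
    exact ⟨some y, by rw [Option.map_some, hy]⟩

private theorem B4_ev_zero {M : Type} [Field M] {o : Option M} {a : M} (h : ev o a = 0) : o = some a := by
  cases o with
  | none => exact absurd h (by simp [ev])
  | some x =>
    have : a - x = 0 := h
    rw [sub_eq_zero.1 this]

private theorem B4_alg_ev {M : Type} [Field M] [Algebra k M] (o : Option M) (a : k)
    (h : ∀ x, o = some x → IsAlgebraic k x) : IsAlgebraic k (ev o (algebraMap k M a)) := by
  cases o with
  | none => exact isAlgebraic_one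
  | some x => exact (isAlgebraic_algebraMap a).sub (h x rfl)

private theorem B4_alg_v {m : ℕ} {c : Dat k} (hc : c.Good) {M : Type} [Field M] [Algebra k M]
    {P : Pnt m M} (hP : On (c.over M) P) (hr : ¬ Ram P)
    (j : Fin m) (h : ∀ x, P j 0 = some x → IsAlgebraic k x) (y : M) (hy : P j 1 = some y) : IsAlgebraic k y := by
  have h1 := onC_prod (good_map hc) (hP j) y hy
  have hn : (c.over M).n = c.n := rfl
  rw [hn] at h1
  have hy0 : y ≠ 0 := by
    intro h0
    exact hr ⟨j, Or.inr (by rw [hy, h0])⟩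
  have hA : IsAlgebraic k (∏ i, ev (P j 0) ((c.over M).a i)) := by
    refine (IsIntegral.prod (s := Finset.univ) (fun i => ev (P j 0) ((c.over M).a i)) ?_).isAlgebraic
    intro i _
    exact (B4_alg_ev _ _ h).isIntegral
  have hB : IsAlgebraic k (∏ i, ev (P j 0) ((c.over M).b i)) := by
    refine (IsIntegral.prod (s := Finset.univ) (fun i => ev (P j 0) ((c.over M).b i)) ?_).isAlgebraic
    intro i _
    exact (B4_alg_ev _ _ h).isIntegral
  have hB0 : ∏ i, ev (P j 0) ((c.over M).b i) ≠ 0 := by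
    intro h0
    rw [h0, mul_zero] at h1
    obtain ⟨i, _, hi⟩ := Finset.prod_eq_zero_iff.1 h0
    obtain ⟨i', _, hi'⟩ := Finset.prod_eq_zero_iff.1 h1.symm
    have e1 := B4_ev_zero hi
    have e2 := B4_ev_zero hi'
    rw [e1] at e2
    have e3 : Sum.elim (c.over M).a (c.over M).b (Sum.inr i) = Sum.elim (c.over M).a (c.over M).b (Sum.inl i') :=
      Option.some.inj e2
    exact absurd ((good_map hc).inj e3) (by simp)
  have h2 : y ^ c.n = (∏ i, ev (P j 0) ((c.over M).a i)) / (∏ i, ev (P j 0) ((c.over M).b i)) := by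
    rw [eq_div_iff hB0, h1]
  have h3 : IsAlgebraic k (y ^ c.n) := by
    rw [h2, div_eq_mul_inv]
    exact hA.mul hB.inv
  have hn2 := hc.two
  exact IsAlgebraic.of_pow (by omega) h3

/-- the coordinates of a residual pair of a constant pair are algebraic -/
private theorem B4_alg_x [IsAlgClosed k] {c : Dat k} (hc : c.Good) (hn : ND c) {ν : k} (hν : ν ≠ 0) {M : Type}
    [Field M] [Algebra k M] {P P' : Pnt 2 M} (hP : On (c.over M) P)
    (hA : ∀ j i x, P j i = some x → IsAlgebraic k x)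
    (h : IsRes (c.over M) (algebraMap k M ν) P P') (j : Fin 2) (x : M) (hx : P' j 0 = some x) :
    IsAlgebraic k x := by
  have hcM := good_map (M := M) hc
  obtain ⟨hr, hr'⟩ := res_not_ram hcM ((map_ne_zero (algebraMap k M)).2 hν) h
  obtain ⟨-, -, -, -, -, -, -, -, hX, hY, -⟩ := pair_of hcM hP hr
  obtain ⟨p', u', hp'0, hp'2, hu'0, hpr', hpa', hpb', hX', hY', -⟩ := pair_of hcM h.on hr'
  choose P₀ hP₀ using fun j => fun i => B4_opt (k := k) (P j i) (hA j i)
  have hPP : mpP (Algebra.ofId k M) P₀ = P := by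
    funext a b
    exact hP₀ a b
  obtain ⟨p₀, hp₀0, hp₀2, -, hp₀a, hp₀b⟩ := pair_poly (c := c) P₀
  obtain ⟨r, hr0, hr2, hrrel⟩ := res_poly hc p₀ hp₀2
  have hself : c.over k = c := by
    simp only [Dat.over, Dat.map]
    rfl
  have hXP : ∀ i, Xv (c.over M) P i = algebraMap k M (p₀.eval (c.a i)) := by
    intro i
    rw [← hPP, B4_X, hself, hp₀a]
    rfl
  have hYP : ∀ i, Yv (c.over M) P i = algebraMap k M (p₀.eval (c.b i)) := by
    intro i
    rw [← hPP, B4_Y, hself, hp₀b]
    rfl
  have hrm0 : r.map (algebraMap k M) ≠ 0 := (Polynomial.map_ne_zero_iff (algebraMap k M).injective).2 hr0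
  have hrm2 : (r.map (algebraMap k M)).natDegree ≤ 2 := natDegree_map_le.trans hr2
  obtain ⟨l, hl, hpl⟩ := res_uniq hcM (nd_map hn) (Xv (c.over M) P) (Yv (c.over M) P) hX hY
    (r.map (algebraMap k M)) p' hrm0 hp'0 hrm2 hp'2
    (fun i => by
      have e1 : (r.map (algebraMap k M)).eval ((c.over M).a i) = algebraMap k M (r.eval (c.a i)) := by
        exact Polynomial.eval_map_apply (algebraMap k M) (c.a i)
      have e2 : (r.map (algebraMap k M)).eval ((c.over M).b i) = algebraMap k M (r.eval (c.b i)) := by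
        exact Polynomial.eval_map_apply (algebraMap k M) (c.b i)
      rw [e1, e2, hXP, hYP, ka_map, kb_map, ← map_mul, ← map_mul, ← map_mul, ← map_mul, ← map_add, hrrel i, map_zero])
    (fun i => by rw [hpa', hpb']; exact h.rel i)
  obtain ⟨m, hm, hme⟩ := hpr'.pol
  have h1 : p'.eval x = 0 := by
    have h2 := hme x
    have h3 : ∏ j, ev (P' j 0) x = 0 := by
      refine Finset.prod_eq_zero (Finset.mem_univ j) ?_
      rw [hx]
      simp [ev]
    rw [h3] at h2
    exact (mul_eq_zero.1 h2.symm).resolve_left hm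
  rw [hpl, eval_mul, eval_C] at h1
  have h4 := (mul_eq_zero.1 h1).resolve_left hl
  refine ⟨r, hr0, ?_⟩
  rw [Polynomial.eval_map_algebraMap] at h4
  exact h4

theorem SV_alg [IsAlgClosed k] [CharZero k] {c : Dat k} (hc : c.Good) (hn : ND c) {ζ ν : k} (hζ : ζ ^ c.n = 1)
    (hν : ν ^ c.n = ∏ i, (-(kb c i) / ka c i)) (q : CH c 3 1 →+ V) {M : Type} [Field M] [Algebra k M]
    (hM : FunF k 1 M) {P : Pnt 3 M} (hP : On (c.over M) P) (h : ∀ j i x, P j i = some x → IsAlgebraic k x) :
    SV c ζ ν q P = 0 := by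
  have hν0 : ν ≠ 0 := by
    rintro rfl
    have hn2 := hc.two
    rw [zero_pow (by omega)] at hν
    have := Finset.prod_ne_zero_iff.2 (fun i (_ : i ∈ Finset.univ) =>
      div_ne_zero (neg_ne_zero.2 (kb_ne hc i)) (ka_ne hc i))
    exact this hν.symm
  by_cases hex : ∃ (M' : Type) (_ : Field M') (_ : Algebra k M') (i : M →ₐ[k] M') (P' : Pnt 2 M'),
      Module.finrank i.fieldRange M' ≠ 0 ∧ IsRes (c.over M') (algebraMap k M' ν) (fst2 (mpP i P)) P'
  · obtain ⟨M', _, _, i, P', hfin, hP'⟩ := hex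
    have h1 := SV_spec hc hn hζ hν0 q hP i P' hfin hP'
    have hmap : ∀ j a x, mpP i P j a = some x → IsAlgebraic k x := by
      intro j a x hx
      simp only [mpP, Option.map_eq_some_iff] at hx
      obtain ⟨y, hy, rfl⟩ := hx
      exact (h j a y hy).algHom i
    have hPM : On (c.over M') (fst2 (mpP i P)) := B4_on2 ((on_map i).2 hP)
    have hfa : ∀ j a x, fst2 (mpP i P) j a = some x → IsAlgebraic k x := by
      intro j a x hx
      fin_cases j
      · exact hmap 0 a x hx
      · exact hmap 1 a x hx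
    have hr := (res_not_ram (good_map hc) ((map_ne_zero (algebraMap k M')).2 hν0) hP').2
    have h2 : msp c ζ P' (mpP i P 2) = 0 := by
      refine msp_alg c ζ (funF_finite i hfin hM) P' _ ?_ (fun a x hx => hmap 2 a x hx)
      intro j a x hx
      have hx0 : ∀ x, P' j 0 = some x → IsAlgebraic k x := fun x hx => B4_alg_x hc hn hν0 hPM hfa hP' j x hx
      fin_cases a
      · exact hx0 x hx
      · exact B4_alg_v hc hP'.on hr j hx0 x hx
    rw [h2, map_zero] at h1
    refine B4_cancel hfin ?_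
    rw [← h1, smul_zero]
  · refine B4_zero q ?_
    intro M' _ _ i P' hfin hP'
    exact hex ⟨M', _, _, i, P', hfin, hP'⟩

theorem SV_map [IsAlgClosed k] [CharZero k] {c : Dat k} (hc : c.Good) (hn : ND c) {ζ ν : k} (hζ : ζ ^ c.n = 1)
    (hν : ν ^ c.n = ∏ i, (-(kb c i) / ka c i)) (q : CH c 3 1 →+ V) {M M' : Type} [Field M] [Algebra k M] [Field M']
    [Algebra k M'] (σ : M →ₐ[k] M') (hM' : FunF k 1 M') {P : Pnt 3 M} (hP : On (c.over M) P) :
    SV c ζ ν q (mpP σ P) = (Module.finrank σ.fieldRange M' : ℤ) • SV c ζ ν q P := by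
  have hν0 : ν ≠ 0 := by
    rintro rfl
    have hn2 := hc.two
    rw [zero_pow (by omega)] at hν
    have := Finset.prod_ne_zero_iff.2 (fun i (_ : i ∈ Finset.univ) =>
      div_ne_zero (neg_ne_zero.2 (kb_ne hc i)) (ka_ne hc i))
    exact this hν.symm
  have hPM : On (c.over M') (mpP σ P) := (on_map σ).2 hP
  by_cases h0 : Module.finrank σ.fieldRange M' = 0
  · have h1 : cyc k (mpP σ P) = 0 := by
      rw [cyc_map, h0]
      simp
    rw [SV_alg hc hn hζ hν q hM' hPM (cyc_zero_alg hM' _ h1), h0]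
    simp
  · by_cases hr : Ram (fst2 P)
    · have hr' : Ram (fst2 (mpP σ P)) := by
        rw [B4_fst2]
        exact (B4_ram_map (σ : M →+* M')).2 hr
      rw [SV_ram hc hν0 q hP hr, SV_ram hc hν0 q hPM hr', smul_zero]
    · have hr' : ¬ Ram (fst2 (mpP σ P)) := by
        rw [B4_fst2]
        exact fun h => hr ((B4_ram_map (σ : M →+* M')).1 h)
      rcases exists_res hc hν (fst2 (mpP σ P)) (B4_on2 hPM) hr' with ⟨j, hj⟩ | ⟨M'', _, _, i, P', hfin, hP'⟩
      · have hj' : NodeRel (c.over M) j (fst2 P) := by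
          rw [B4_fst2] at hj
          exact (node_map σ j).1 hj
        rw [SV_node hc hn hν0 q hP j hj', SV_node hc hn hν0 q hPM j hj, smul_zero]
      · rw [← B4_fst2] at hP'
        have h1 := SV_spec hc hn hζ hν0 q hPM i P' hfin hP'
        have hft := finrank_trans σ i
        rw [B4_mpP_comp] at hP' h1
        have h2 := SV_spec hc hn hζ hν0 q hP (i.comp σ) P' (by rw [hft]; exact mul_ne_zero h0 hfin) hP'
        rw [h1, hft, mul_comm, ← smul_smul] at h2
        rw [natCast_zsmul]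
        exact B4_cancel hfin h2

end Pool.Agent.LibCW77
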