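import Pool.Agent.LibCW77.Defs6
import Pool.Agent.LibCW77.B3
import Pool.Agent.LibCW77.B4
import Pool.Agent.LibCW77.T0
import Pool.Agent.LibCW77.T4
import Pool.Agent.LibCW77.T5

/-!
[CW77 B10] The operator on a lift of a point of the line `L(Q)`. `line_res`: `z.u * y = ν`, `z.R i = - kb_i ev(z,b_i) / (ka_i ev(z,a_i))`, `Xv P i = l R_i Y_i`, `Yv P i = l Y_i`: the pair `(Q, P_2)` is a residual pair of `(P_0, P_1)`. `msp_BR`: write out the sum over the two
permutations of `Fin 2`. `SV_line`: `SV_spec` with the identity (`finrank = 1`). `tw_line`: `h τ₁ P` lies over the Z-point with `u` replaced by `ζ u`, which is on the line of `τ⁻¹ Q`. `mns_sum`: `q'(Sop (mns P))`: by `hS` and `SV_line` for all lifts `h P` of `z` and `h τ₁ P` of the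
twisted Z-point (`On` etc.; `IsLift` of `pr σ (tw w P)`: `∏ w_j = 1`).
-/

open scoped Classical
open Polynomial

namespace Pool.Agent.LibCW77

open Pool.Agent.LibBH2
open Pool.Agent.LibCHd (VR RF Red FunF)

variable {k : Type} [Field k]

private theorem B10_ctp_tau (ζ : k) (M : Type) [Field M] [Algebra k M] (Q : Fin 2 → Option k) :
    tau ζ (ctp M Q) = ctp M (tau ζ Q) := by
  funext i
  fin_cases i
  · rfl
  · change ((Q 1).map (algebraMap k M)).map (fun v => algebraMap k M ζ * v) =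
      ((Q 1).map (fun v => algebraMap k k ζ * v)).map (algebraMap k M)
    rcases Q 1 with _ | v
    · rfl
    · change some (algebraMap k M ζ * algebraMap k M v) = some (algebraMap k M (ζ * v))
      rw [map_mul]

private theorem B10_tau_one {M : Type} [Field M] [Algebra k M] (R : Fin 2 → Option M) : tau (1 : k) R = R := by
  funext i
  fin_cases i
  · rfl
  · change (R 1).map (fun v => algebraMap k M 1 * v) = R 1
    rw [map_one]
    rcases R 1 with _ | v
    · rfl
    · change some (1 * v) = some v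
      rw [one_mul]

private theorem B10_tau_tau {M : Type} [Field M] [Algebra k M] (z w : k) (R : Fin 2 → Option M) :
    tau z (tau w R) = tau (z * w) R := by
  funext i
  fin_cases i
  · rfl
  · change ((R 1).map (fun v => algebraMap k M w * v)).map (fun v => algebraMap k M z * v) =
      (R 1).map (fun v => algebraMap k M (z * w) * v)
    rcases R 1 with _ | v
    · rfl
    · change some (algebraMap k M z * (algebraMap k M w * v)) = some (algebraMap k M (z * w) * v)
      rw [map_mul, mul_assoc]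

private theorem B10_ms0 (c : Dat k) {M : Type} [Field M] [Algebra k M] (Q : Fin 2 → Option k)
    (R : Fin 2 → Option M) : ms0 c ![ctp M Q, R] R = BR c R Q := by
  unfold ms0 BR
  rw [Finset.sum_comm]
  refine Finset.sum_congr rfl fun w _ => ?_
  rw [Fintype.sum_eq_add (1 : Equiv.Perm (Fin 2)) (Equiv.swap 0 1) (by decide)]
  · rfl
  · intro σ hσ
    exfalso
    revert σ
    decide

theorem msp_BR (c : Dat k) (ζ : k) {M : Type} [Field M] [Algebra k M] (Q : Fin 2 → Option k) (R : Fin 2 → Option M) :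
    msp c ζ ![ctp M Q, R] R = BR c R Q - BR c R (tau ζ Q) := by
  unfold msp
  rw [B10_ms0]
  have h : tw ![ζ, 1] (![ctp M Q, R] : Pnt 2 M) = ![ctp M (tau ζ Q), R] := by
    funext j
    fin_cases j
    · change tau ζ (ctp M Q) = ctp M (tau ζ Q)
      exact B10_ctp_tau ζ M Q
    · change tau 1 R = R
      exact B10_tau_one R
  rw [h, B10_ms0]

/-- the Z-point with the product `u` multiplied by `ζ` -/
def Zp.mulu {M : Type} [Field M] (z : Zp M) (ζ : M) : Zp M := ⟨z.R, z.Y, ζ * z.u⟩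

private theorem B10_W {c : Dat k} (hc : c.Good) {w : Fin 3 → k} (hw : w ∈ W c) :
    (∀ j, w j ^ c.n = 1) ∧ ∏ j, w j = 1 := by
  have hn : 0 < c.n := by
    have := hc.two
    omega
  unfold W at hw
  rw [Finset.mem_filter, Fintype.mem_piFinset] at hw
  exact ⟨fun j => (mem_nthRootsFinset hn (1 : k)).1 (hw.1 j), hw.2⟩

private theorem B10_tw {c : Dat k} {M : Type} [Field M] [Algebra k M] {z : Zp M} {P : Pnt 3 M}
    (h : IsLift (c.over M) z P) (w : Fin 3 → k) (hw : ∀ j, w j ^ c.n = 1) (r : k) (hr : ∏ j, w j = r) :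
    IsLift (c.over M) ⟨z.R, z.Y, algebraMap k M r * z.u⟩ (tw w P) := by
  obtain ⟨l, hl, hv⟩ := h.val
  obtain ⟨v, hvP, hvu⟩ := h.prod
  refine ⟨on_tw w hw h.on, ⟨l, hl, hv⟩, ⟨fun j => algebraMap k M (w j) * v j, ?_, ?_⟩⟩
  · intro j
    change (P j 1).map (fun v => algebraMap k M (w j) * v) = some (algebraMap k M (w j) * v j)
    rw [hvP j, Option.map_some]
  · change ∏ j, algebraMap k M (w j) * v j = algebraMap k M r * z.u
    rw [Finset.prod_mul_distrib, hvu, ← map_prod, hr]

theorem lift_pr {c : Dat k} (hc : c.Good) {M : Type} [Field M] [Algebra k M] {z : Zp M} {P : Pnt 3 M}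
    (h : IsLift (c.over M) z P) (σ : Equiv.Perm (Fin 3)) (w : Fin 3 → k) (hw : w ∈ W c) :
    IsLift (c.over M) z (pr σ (tw w P)) := by
  obtain ⟨h1, h2⟩ := B10_W hc hw
  have h3 := B10_tw h w h1 1 h2
  rw [map_one, one_mul] at h3
  obtain ⟨l, hl, hv⟩ := h3.val
  obtain ⟨v, hvP, hvu⟩ := h3.prod
  refine ⟨on_pr σ h3.on, ⟨l, hl, fun i => ?_⟩, ⟨fun j => v (σ j), fun j => hvP (σ j), ?_⟩⟩
  · have h4 := hv i
    constructor
    · rw [← h4.1]
      exact Equiv.prod_comp σ (fun j => ev (tw w P j 0) ((c.over M).a i))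
    · rw [← h4.2]
      exact Equiv.prod_comp σ (fun j => ev (tw w P j 0) ((c.over M).b i))
  · rw [Equiv.prod_comp σ v]
    exact hvu

theorem lift_tw {c : Dat k} (hc : c.Good) {ζ : k} (hζ : ζ ^ c.n = 1) {M : Type} [Field M] [Algebra k M] {z : Zp M}
    {P : Pnt 3 M} (h : IsLift (c.over M) z P) :
    IsLift (c.over M) (z.mulu (algebraMap k M ζ)) (tw (t1 ζ) P) := by
  refine B10_tw h (t1 ζ) ?_ ζ ?_
  · intro j
    fin_cases j
    · exact hζ
    · exact one_pow _
    · exact one_pow _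
  · rw [Fin.prod_univ_three]
    change ζ * 1 * 1 = ζ
    rw [mul_one, mul_one]

private theorem B10_ne {c : Dat k} (hc : c.Good) {ζ : k} (hζ : ζ ^ c.n = 1) : ζ ≠ 0 := by
  rintro rfl
  have h2 : c.n ≠ 0 := by
    have := hc.two
    omega
  rw [zero_pow h2] at hζ
  exact zero_ne_one hζ

theorem isZ_mulu {c : Dat k} {ζ : k} (hζ : ζ ^ c.n = 1) (hc : c.Good) {M : Type} [Field M] [Algebra k M] {z : Zp M}
    (h : IsZ (c.over M) z) : IsZ (c.over M) (z.mulu (algebraMap k M ζ)) := by
  refine ⟨h.R0, h.Y0, ?_, ?_, h.r1, h.r2⟩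
  · change algebraMap k M ζ * z.u ≠ 0
    exact mul_ne_zero ((map_ne_zero_iff _ (algebraMap k M).injective).2 (B10_ne hc hζ)) h.u0
  · change (algebraMap k M ζ * z.u) ^ c.n = ∏ i, z.R i
    rw [mul_pow, ← map_pow, hζ, map_one, one_mul]
    exact h.un

theorem onLine_mulu {c : Dat k} {ζ ν : k} (hζ : ζ ^ c.n = 1) (hc : c.Good) {Q : Fin 2 → Option k} {M : Type} [Field M]
    [Algebra k M] {z : Zp M} (h : OnLine c ν Q z) : OnLine c ν (tau ζ⁻¹ Q) (z.mulu (algebraMap k M ζ)) := by
  have h0 := B10_ne hc hζ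
  obtain ⟨h1, q, hq, hq0, hqu⟩ := h
  refine ⟨h1, ζ⁻¹ * q, ?_, mul_ne_zero (inv_ne_zero h0) hq0, ?_⟩
  · change (Q 1).map (fun v => algebraMap k k ζ⁻¹ * v) = some (ζ⁻¹ * q)
    rw [hq, Option.map_some]
    rfl
  · change algebraMap k M ζ * z.u * algebraMap k M (ζ⁻¹ * q) = algebraMap k M ν
    rw [map_mul, ← hqu]
    have h2 : algebraMap k M ζ * algebraMap k M ζ⁻¹ = 1 := by
      rw [← map_mul, mul_inv_cancel₀ h0, map_one]
    linear_combination (z.u * algebraMap k M q) * h2

variable {V : Type} [AddCommGroup V] [Module ℚ V]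

private theorem B10_ev {M M' : Type} [Field M] [Field M'] (f : M →+* M') (x : Option M) (t : M) :
    ev (x.map f) (f t) = f (ev x t) := by
  cases x with
  | none => simp [ev]
  | some x => simp [ev]

private theorem B10_eva {c : Dat k} (hc : c.Good) {x : Option k} {y : k} (h : OnC c x (some y)) (hy : y ≠ 0)
    (i : Fin 3) : ev x (c.a i) ≠ 0 := by
  intro h0
  cases x with
  | none => simp [ev] at h0
  | some x =>
    have h1 : c.a i - x = 0 := h0
    have h2 : y ^ c.n * ∏ j, (x - c.b j) = ∏ j, (x - c.a j) := h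
    have h3 : ∏ j, (x - c.a j) = 0 :=
      Finset.prod_eq_zero (Finset.mem_univ i) (by rw [sub_eq_zero.1 h1, sub_self])
    rw [h3] at h2
    rcases mul_eq_zero.1 h2 with h4 | h4
    · exact pow_ne_zero _ hy h4
    · obtain ⟨j, _, hj⟩ := Finset.prod_eq_zero_iff.1 h4
      have h5 : Sum.elim c.a c.b (Sum.inl i) = Sum.elim c.a c.b (Sum.inr j) := by
        simp only [Sum.elim_inl, Sum.elim_inr]
        rw [sub_eq_zero.1 h1, sub_eq_zero.1 hj]
      exact absurd (hc.inj h5) (by simp)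

theorem SV_line [IsAlgClosed k] [CharZero k] {c : Dat k} (hc : c.Good) (hn : ND c) {ζ ν : k} (hζ : ζ ^ c.n = 1)
    (hν : ν ≠ 0) (q : CH c 3 1 →+ V) {M : Type} [Field M] [Algebra k M] {z : Zp M} (hz : IsZ (c.over M) z)
    {P : Pnt 3 M} (hP : IsLift (c.over M) z P) (Q : Fin 2 → Option k) (hQ : OnC c (Q 0) (Q 1))
    (hl : OnLine c ν Q z) : SV c ζ ν q P = q (BR c (P 2) Q - BR c (P 2) (tau ζ Q)) := by
  obtain ⟨hR, y, hy, hy0, hyu⟩ := hl
  obtain ⟨l, hl0, hv⟩ := hP.val
  obtain ⟨v, hvP, hvu⟩ := hP.prod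
  have hmp : mpP (AlgHom.id k M) P = P := by
    funext j i
    change (P j i).map (fun x => x) = P j i
    exact Option.map_id'
  have hone : Module.finrank (AlgHom.id k M).fieldRange M = 1 := by
    have h1 : (AlgHom.id k M).fieldRange = (⊤ : IntermediateField k M) := by
      rw [eq_top_iff]
      intro x _
      exact ⟨x, rfl⟩
    rw [h1]
    exact IntermediateField.finrank_top
  have hQ' : OnC c (Q 0) (some y) := by rw [← hy]; exact hQ
  have hres : IsRes (c.over M) (algebraMap k M ν) (fst2 (mpP (AlgHom.id k M) P)) ![ctp M Q, P 2] := by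
    rw [hmp]
    refine ⟨?_, ?_, ?_⟩
    · intro j
      fin_cases j
      · have h1 : On c (fun _ : Fin 1 => Q) := fun _ => hQ
        change OnC (c.over M) ((Q 0).map (algebraMap k M)) ((Q 1).map (algebraMap k M))
        rw [hy]
        refine onC_of_prod _ _ ?_
        have h2 := onC_prod hc hQ' y rfl
        have h3 := congrArg (algebraMap k M) h2
        rw [map_mul, map_pow, map_prod, map_prod] at h3
        have h4 : ∀ i, ev ((Q 0).map (algebraMap k M)) ((c.over M).b i) = algebraMap k M (ev (Q 0) (c.b i)) :=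
          fun i => B10_ev _ _ _
        have h5 : ∀ i, ev ((Q 0).map (algebraMap k M)) ((c.over M).a i) = algebraMap k M (ev (Q 0) (c.a i)) :=
          fun i => B10_ev _ _ _
        simp only [h4, h5]
        exact h3
      · exact hP.on 2
    · intro i
      have hX : Xv (c.over M) (fst2 P) i * Xv (c.over M) ![ctp M Q, P 2] i =
          Xv (c.over M) P i * algebraMap k M (ev (Q 0) (c.a i)) := by
        have h5 : ev ((Q 0).map (algebraMap k M)) ((c.over M).a i) = algebraMap k M (ev (Q 0) (c.a i)) :=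
          B10_ev _ _ _
        rw [← h5]
        unfold Xv
        rw [Fin.prod_univ_two, Fin.prod_univ_two, Fin.prod_univ_three]
        change ev (P 0 0) _ * ev (P 1 0) _ * (ev ((Q 0).map (algebraMap k M)) _ * ev (P 2 0) _) =
          ev (P 0 0) _ * ev (P 1 0) _ * ev (P 2 0) _ * ev ((Q 0).map (algebraMap k M)) _
        ring
      have hY : Yv (c.over M) (fst2 P) i * Yv (c.over M) ![ctp M Q, P 2] i =
          Yv (c.over M) P i * algebraMap k M (ev (Q 0) (c.b i)) := by
        have h5 : ev ((Q 0).map (algebraMap k M)) ((c.over M).b i) = algebraMap k M (ev (Q 0) (c.b i)) :=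
          B10_ev _ _ _
        rw [← h5]
        unfold Yv
        rw [Fin.prod_univ_two, Fin.prod_univ_two, Fin.prod_univ_three]
        change ev (P 0 0) _ * ev (P 1 0) _ * (ev ((Q 0).map (algebraMap k M)) _ * ev (P 2 0) _) =
          ev (P 0 0) _ * ev (P 1 0) _ * ev (P 2 0) _ * ev ((Q 0).map (algebraMap k M)) _
        ring
      rw [hX, hY, (hv i).1, (hv i).2, hR i]
      have hka : ka (c.over M) i = algebraMap k M (ka c i) := ka_map _ _ _
      have hkb : kb (c.over M) i = algebraMap k M (kb c i) := kb_map _ _ _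
      rw [hka, hkb]
      have h6 : algebraMap k M (ka c i) * algebraMap k M (lR c (Q 0) i) * algebraMap k M (ev (Q 0) (c.a i)) =
          - (algebraMap k M (kb c i) * algebraMap k M (ev (Q 0) (c.b i))) := by
        rw [← map_mul, ← map_mul, ← map_mul, ← map_neg]
        congr 1
        unfold lR
        have h7 := ka_ne hc i
        have h8 := B10_eva hc hQ' hy0 i
        field_simp
      linear_combination (l * z.Y i) * h6
    · refine ⟨![v 0, v 1], ![algebraMap k M y, v 2], ?_, ?_, ?_⟩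
      · intro j
        fin_cases j
        · exact hvP 0
        · exact hvP 1
      · intro j
        fin_cases j
        · change (Q 1).map (algebraMap k M) = some (algebraMap k M y)
          rw [hy, Option.map_some]
        · exact hvP 2
      · rw [Fin.prod_univ_two, Fin.prod_univ_two, ← hyu, ← hvu, Fin.prod_univ_three]
        change v 0 * v 1 * (algebraMap k M y * v 2) = v 0 * v 1 * v 2 * algebraMap k M y
        ring
  have h1 := SV_spec hc hn hζ hν q hP.on (AlgHom.id k M) ![ctp M Q, P 2] (by rw [hone]; exact one_ne_zero) hres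
  rw [hone, one_smul, hmp, msp_BR] at h1
  exact h1.symm

/-- the operator on `mns` -/
theorem S_mns [IsAlgClosed k] [CharZero k] {c : Dat k} (hc : c.Good) (hn : ND c) {ζ ν : k}
    (hζ : IsPrimitiveRoot ζ c.n) (hν : ν ≠ 0) (q : CH c 3 1 →+ V) (Sop : CH c 3 1 →+ V)
    (hS : ∀ (M : Type) [Field M] [Algebra k M] (u : Pnt 3 M), FunF k 1 M → On (c.over M) u →
      Sop (cls c 1 u) = SV c ζ ν q u) {M : Type} [Field M] [Algebra k M] (hM : FunF k 1 M) {z : Zp M}
    (hz : IsZ (c.over M) z) {P : Pnt 3 M} (hP : IsLift (c.over M) z P) (Q : Fin 2 → Option k)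
    (hQ : OnC c (Q 0) (Q 1)) (hl : OnLine c ν Q z) :
    Sop (mns c ζ P) = ∑ σ : Equiv.Perm (Fin 3), ∑ w ∈ W c,
      (q (BR c (tau (w (σ 2)) (P (σ 2))) Q - BR c (tau (w (σ 2)) (P (σ 2))) (tau ζ Q)) -
        q (BR c (tau (w (σ 2) * t1 ζ (σ 2)) (P (σ 2))) (tau ζ⁻¹ Q) -
          BR c (tau (w (σ 2) * t1 ζ (σ 2)) (P (σ 2))) (tau ζ (tau ζ⁻¹ Q)))) := by
  have hz1 : ζ ^ c.n = 1 := hζ.pow_eq_one
  have hzi : ζ⁻¹ ^ c.n = 1 := by rw [inv_pow, hz1, inv_one]
  have hQi : OnC c (tau ζ⁻¹ Q 0) (tau ζ⁻¹ Q 1) := by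
    have h : On (c.over k) (fun _ : Fin 1 => Q) := fun _ => hQ
    exact on_tw (c := c) (M := k) (fun _ : Fin 1 => ζ⁻¹) (fun _ => hzi) h 0
  unfold mns
  rw [map_sum]
  refine Finset.sum_congr rfl fun σ _ => ?_
  rw [map_sum]
  refine Finset.sum_congr rfl fun w hw => ?_
  have hL1 := lift_pr hc hP σ w hw
  have hL2 := lift_pr hc (lift_tw hc hz1 hP) σ w hw
  rw [map_sub, hS M _ hM hL1.on, hS M _ hM hL2.on, SV_line hc hn hz1 hν q hz hL1 Q hQ hl,
    SV_line hc hn hz1 hν q (isZ_mulu hz1 hc hz) hL2 (tau ζ⁻¹ Q) hQi (onLine_mulu hz1 hc hl)]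
  have h1 : pr σ (tw w P) 2 = tau (w (σ 2)) (P (σ 2)) := rfl
  have h2 : pr σ (tw w (tw (t1 ζ) P)) 2 = tau (w (σ 2) * t1 ζ (σ 2)) (P (σ 2)) := by
    rw [← B10_tau_tau]
    rfl
  rw [h1, h2]

end Pool.Agent.LibCW77
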