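import Pool.Agent.LibCW77.Defs3
import Pool.Agent.LibCW77.D1
import Pool.Agent.LibCW77.D2
import Pool.Agent.LibHL77.Z1
/-!
[CW77 D6] Finiteness. `N` of dimension `d + 1`, `x` in `N`: only finitely many places `v` with `v.ord g ≠ 0` at which ... Plan for
`fin_places` (dimension 2): if `x` is algebraic over `k` there is none. Else let `E = k(x)` (`IntermediateField.adjoin k {x}`);
a place `v` at which `x` has a transcendental residue is trivial on `E` (a nonzero element of `E` is a quotient of
polynomials in `x`, of order 0), so it is a place of `N` over `E` (a structure `Place E N` with the same `ord`), and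
`FunF E 1 N`; there are finitely many places over `E` with `ord g ≠ 0` (`LibHL77.Z1.sum_zeros` : finset of the places with
`0 < v.ord φ`, for `φ = g`, `φ = g⁻¹`, `g` transcendental over `E`; if `g` is algebraic over `E` all orders are 0).
`fin_cyc`: the coordinates of `q` are not all algebraic (`cyc_alg`), so one of the finitely many coordinates `x` of `u` has a
transcendental residue. `fin_zero` (dimension 1): directly `sum_zeros`.

The characteristic is arbitrary, so the finiteness of the set of the places with `0 < v.ord φ` is proved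
by weak approximation: `r` different ones give `r` linearly independent elements of `K` over `E(φ)`.
-/

open scoped Classical
open Polynomial

namespace Pool.Agent.LibCW77

open Pool.Agent.LibBH2
open Pool.Agent.LibCHd (VR RF Red FunF)

variable {k : Type} [Field k]

section D6_approx

variable {E K : Type} [Field E] [Field K] [Algebra E K]

/-- the order of a sum, one summand dominates -/
private theorem D6_ord_add (v : Place E K) {f g : K} (hf : f ≠ 0) (hg : g = 0 ∨ v.ord f < v.ord g) :
    f + g ≠ 0 ∧ v.ord (f + g) = v.ord f := by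
  rcases hg with rfl | hg
  · rw [add_zero]
    exact ⟨hf, rfl⟩
  have hg0 : g ≠ 0 ∨ g = 0 := ne_or_eq g 0
  rcases hg0 with hg0 | hg0
  swap
  · rw [hg0, add_zero]
    exact ⟨hf, rfl⟩
  have hs : f + g ≠ 0 := by
    intro h
    have h1 : g = -f := by linear_combination h
    rw [h1, v.ord_neg] at hg
    exact lt_irrefl _ hg
  refine ⟨hs, le_antisymm ?_ ?_⟩
  · by_contra hcon
    push Not at hcon
    have h1 := v.ord_add (f + g) (-g) hs (neg_ne_zero.2 hg0) (by rwa [add_neg_cancel_right])
    rw [add_neg_cancel_right, v.ord_neg] at h1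
    rcases min_le_iff.1 h1 with h2 | h2 <;> omega
  · have h1 := v.ord_add f g hf hg0 hs
    rcases min_le_iff.1 h1 with h2 | h2 <;> omega

private theorem D6_incomp {v w : Place E K} (hvw : v ≠ w) : ∃ f : K, f ≠ 0 ∧ 0 ≤ v.ord f ∧ w.ord f < 0 := by
  by_contra hcon
  push Not at hcon
  apply hvw
  have hu : ∀ f : K, f ≠ 0 → v.ord f = 0 → w.ord f = 0 := by
    intro f hf h
    have h1 := hcon f hf h.ge
    have h2 := hcon f⁻¹ (inv_ne_zero hf) (by rw [v.ord_inv]; omega)
    rw [w.ord_inv] at h2
    omega
  obtain ⟨t, ht⟩ := v.exists_uniformizer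
  have ht0 : t ≠ 0 := by
    rintro rfl
    rw [v.ord_zero] at ht
    omega
  have hmul : ∀ f : K, f ≠ 0 → w.ord f = w.ord t * v.ord f := by
    intro f hf
    have h1 := hu (f * t ^ (-(v.ord f))) (mul_ne_zero hf (zpow_ne_zero _ ht0)) (by
      rw [v.ord_mul _ _ hf (zpow_ne_zero _ ht0), v.ord_zpow, ht]
      ring)
    rw [w.ord_mul _ _ hf (zpow_ne_zero _ ht0), w.ord_zpow] at h1
    linear_combination h1
  have he : 0 ≤ w.ord t := hcon t ht0 (by omega)
  obtain ⟨s, hs⟩ := w.exists_uniformizer
  have hs0 : s ≠ 0 := by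
    rintro rfl
    rw [w.ord_zero] at hs
    omega
  have h2 := hmul s hs0
  rw [hs] at h2
  have h3 : w.ord t = 1 := by
    have h4 : w.ord t ∣ 1 := ⟨_, h2⟩
    exact Int.eq_one_of_dvd_one he h4
  apply Place.ext'
  intro f
  by_cases hf : f = 0
  · rw [hf, v.ord_zero, w.ord_zero]
  · rw [hmul f hf, h3, one_mul]

private theorem D6_sep {v w : Place E K} (hvw : v ≠ w) : ∃ f : K, f ≠ 0 ∧ v.ord f < 0 ∧ 0 < w.ord f := by
  obtain ⟨a, ha, ha1, ha2⟩ := D6_incomp hvw
  obtain ⟨b, hb, hb1, hb2⟩ := D6_incomp hvw.symm
  refine ⟨b / a, div_ne_zero hb ha, ?_, ?_⟩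
  · rw [v.ord_div _ _ hb ha]
    omega
  · rw [w.ord_div _ _ hb ha]
    omega

private theorem D6_big (S : Finset (Place E K)) (a b : Place E K → ℤ) (ha : ∀ u ∈ S, 0 < a u) :
    ∃ N : ℕ, 0 < N ∧ ∀ u ∈ S, 0 < N * a u + b u := by
  induction S using Finset.induction_on with
  | empty => exact ⟨1, one_pos, by simp⟩
  | insert u S hu ih =>
    obtain ⟨N, hN, h⟩ := ih fun w hw => ha w (Finset.mem_insert_of_mem hw)
    have hau := ha u (Finset.mem_insert_self _ _)
    refine ⟨N + (|b u|.toNat + 1), by omega, ?_⟩
    intro w hw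
    have haw := ha w hw
    rcases Finset.mem_insert.1 hw with rfl | hw
    · push_cast
      rw [Int.toNat_of_nonneg (abs_nonneg _)]
      have h1 : -|b w| ≤ b w := neg_abs_le _
      have h2 : |b w| ≤ |b w| * a w := le_mul_of_one_le_right (abs_nonneg _) haw
      have h3 : (0 : ℤ) ≤ N * a w := by positivity
      nlinarith
    · have h1 := h w hw
      push_cast
      have h3 : (0 : ℤ) ≤ ((|b u|.toNat : ℤ) + 1) * a w := by positivity
      nlinarith

private theorem D6_strong (v : Place E K) (S : Finset (Place E K)) (hv : v ∉ S) :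
    ∃ f : K, f ≠ 0 ∧ v.ord f < 0 ∧ ∀ u ∈ S, 0 < u.ord f := by
  induction S using Finset.induction_on with
  | empty =>
    obtain ⟨t, ht⟩ := v.exists_uniformizer
    refine ⟨t⁻¹, inv_ne_zero ?_, ?_, by simp⟩
    · rintro rfl
      rw [v.ord_zero] at ht
      omega
    · rw [v.ord_inv, ht]
      omega
  | insert w S hw ih =>
    obtain ⟨z, hz, hz1, hz2⟩ := ih fun h => hv (Finset.mem_insert_of_mem h)
    have hvw : v ≠ w := by
      rintro rfl
      exact hv (Finset.mem_insert_self _ _)
    obtain ⟨y, hy, hy1, hy2⟩ := D6_sep hvw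
    obtain ⟨N, hN, hN'⟩ := D6_big S (fun u => u.ord z) (fun u => u.ord y) hz2
    by_cases hwz : 0 ≤ w.ord z
    · refine ⟨z ^ N * y, mul_ne_zero (pow_ne_zero _ hz) hy, ?_, ?_⟩
      · rw [v.ord_mul _ _ (pow_ne_zero _ hz) hy, v.ord_pow]
        have : (N : ℤ) * v.ord z ≤ 0 := mul_nonpos_of_nonneg_of_nonpos (by positivity) hz1.le
        omega
      · intro u hu
        rw [u.ord_mul _ _ (pow_ne_zero _ hz) hy, u.ord_pow]
        rcases Finset.mem_insert.1 hu with rfl | hu
        · have : (0 : ℤ) ≤ (N : ℤ) * u.ord z := mul_nonneg (by positivity) hwz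
          omega
        · exact hN' u hu
    · push Not at hwz
      have hzN : z ^ N ≠ 0 := pow_ne_zero _ hz
      have hneg : ∀ u : Place E K, u.ord z < 0 → z ^ N + 1 ≠ 0 ∧ u.ord (z ^ N + 1) = N * u.ord z := by
        intro u hu
        have h1 := D6_ord_add u hzN (g := 1) (Or.inr (by
          rw [u.ord_pow, u.ord_one]
          exact mul_neg_of_pos_of_neg (by exact_mod_cast hN) hu))
        rw [u.ord_pow] at h1
        exact h1
      have hpos : ∀ u : Place E K, 0 < u.ord z → u.ord (z ^ N + 1) = 0 := by
        intro u hu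
        have h1 := D6_ord_add u (f := 1) one_ne_zero (g := z ^ N) (Or.inr (by
          rw [u.ord_pow, u.ord_one]
          exact mul_pos (by exact_mod_cast hN) hu))
        rw [u.ord_one] at h1
        rw [add_comm]
        exact h1.2
      have h0 : z ^ N + 1 ≠ 0 := (hneg v hz1).1
      have h0' : z ^ N / (z ^ N + 1) ≠ 0 := div_ne_zero hzN h0
      refine ⟨z ^ N / (z ^ N + 1) * y, mul_ne_zero h0' hy, ?_, ?_⟩
      · rw [v.ord_mul _ _ h0' hy, v.ord_div _ _ hzN h0, v.ord_pow, (hneg v hz1).2]
        omega
      · intro u hu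
        rw [u.ord_mul _ _ h0' hy, u.ord_div _ _ hzN h0, u.ord_pow]
        rcases Finset.mem_insert.1 hu with rfl | hu
        · rw [(hneg u hwz).2]
          omega
        · rw [hpos u (hz2 u hu)]
          have := hN' u hu
          omega

private theorem D6_unit (v : Place E K) (S : Finset (Place E K)) (hv : v ∉ S) :
    ∃ f : K, f ≠ 0 ∧ v.ord f = 0 ∧ ∀ u ∈ S, 0 < u.ord f := by
  obtain ⟨z, hz, hz1, hz2⟩ := D6_strong v S hv
  have h1 := D6_ord_add v hz (g := 1) (Or.inr (by rw [v.ord_one]; exact hz1))
  refine ⟨z / (z + 1), div_ne_zero hz h1.1, ?_, ?_⟩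
  · rw [v.ord_div _ _ hz h1.1, h1.2]
    omega
  · intro u hu
    have h2 := D6_ord_add u (f := 1) one_ne_zero (g := z) (Or.inr (by rw [u.ord_one]; exact hz2 u hu))
    rw [u.ord_div _ _ hz h1.1, add_comm, h2.2, u.ord_one]
    have := hz2 u hu
    omega

/-- polynomials in `φ` -/
private theorem D6_poly (φ : K) (P : E[X]) (hP : P ≠ 0) (hφ : aeval φ P ≠ 0) :
    ∃ m : ℕ, ∀ v : Place E K, 0 < v.ord φ → v.ord (aeval φ P) = m * v.ord φ := by
  obtain ⟨Q, hQ, hQ'⟩ := Polynomial.exists_eq_pow_rootMultiplicity_mul_and_not_dvd P hP 0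
  set m := P.rootMultiplicity 0 with hm
  rw [map_zero, sub_zero] at hQ hQ'
  refine ⟨m, fun v hv => ?_⟩
  have h0 : φ ≠ 0 := by
    rintro rfl
    rw [v.ord_zero] at hv
    exact lt_irrefl _ hv
  have hc : Q.coeff 0 ≠ 0 := fun h => hQ' (Polynomial.X_dvd_iff.2 h)
  have h1 : aeval φ P = φ ^ m * aeval φ Q := by
    conv_lhs => rw [hQ]
    rw [map_mul, map_pow, aeval_X]
  have h2 : aeval φ Q ≠ 0 := by
    intro h
    rw [h1, h, mul_zero] at hφ
    exact hφ rfl
  rw [h1, v.ord_mul _ _ (pow_ne_zero _ h0) h2, v.ord_pow]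
  have h3 : aeval φ Q = algebraMap E K (Q.coeff 0) + φ * aeval φ Q.divX := by
    conv_lhs => rw [← Polynomial.divX_mul_X_add Q]
    rw [map_add, map_mul, aeval_X, aeval_C]
    ring
  have h4 : v.ord (aeval φ Q) = 0 := by
    rw [h3]
    have h5 : v.Reg (aeval φ Q.divX) := by
      rw [Polynomial.aeval_eq_sum_range]
      have : ∀ s : Finset ℕ, v.Reg (∑ i ∈ s, Q.divX.coeff i • φ ^ i) := by
        intro s
        induction s using Finset.induction_on with
        | empty => simp [Place.reg_zero]
        | insert a s ha ih =>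
          rw [Finset.sum_insert ha]
          refine Place.Reg.add ?_ ih
          rw [Algebra.smul_def]
          exact (v.reg_const _).mul (Place.Reg.pow (Or.inr hv.le) _)
      exact this _
    have h6 : v.Zer (φ * aeval φ Q.divX) := Place.Zer.mul_reg (Or.inr hv) h5
    have h7 := D6_ord_add v (f := algebraMap E K (Q.coeff 0)) (g := φ * aeval φ Q.divX)
      (by rw [Ne, map_eq_zero]; exact hc) (by rw [v.ord_const _ hc]; exact h6)
    rw [h7.2, v.ord_const _ hc]
  rw [h4, add_zero]

private theorem D6_elt (φ : K) (c : IntermediateField.adjoin E {φ}) (hc : c ≠ 0) :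
    ∃ m : ℤ, ∀ v : Place E K, 0 < v.ord φ → v.ord (c : K) = m * v.ord φ := by
  obtain ⟨P, Q, hPQ⟩ := (IntermediateField.mem_adjoin_simple_iff E (c : K)).1 c.2
  have hc' : (c : K) ≠ 0 := fun h => hc (Subtype.ext h)
  have hP : aeval φ P ≠ 0 := by
    intro h
    rw [h, zero_div] at hPQ
    exact hc' hPQ
  have hQ : aeval φ Q ≠ 0 := by
    intro h
    rw [h, div_zero] at hPQ
    exact hc' hPQ
  obtain ⟨m, hm⟩ := D6_poly φ P (by rintro rfl; simp at hP) hP
  obtain ⟨n, hn⟩ := D6_poly φ Q (by rintro rfl; simp at hQ) hQ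
  refine ⟨m - n, fun v hv => ?_⟩
  rw [hPQ, v.ord_div _ _ hP hQ, hm v hv, hn v hv]
  ring

private theorem D6_card (φ : K) [FiniteDimensional (IntermediateField.adjoin E {φ}) K]
    (S : Finset (Place E K)) (hS : ∀ v ∈ S, 0 < v.ord φ) :
    S.card ≤ Module.finrank (IntermediateField.adjoin E {φ}) K := by
  have hu : ∀ v : S, ∃ f : K, f ≠ 0 ∧ v.1.ord f = 0 ∧ ∀ u ∈ S.erase v.1, 0 < u.ord f := fun v =>
    D6_unit v.1 (S.erase v.1) (Finset.notMem_erase _ _)
  choose f hf0 hf1 hf2 using hu
  have hli : LinearIndependent (IntermediateField.adjoin E {φ}) f := by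
    rw [Fintype.linearIndependent_iff]
    intro c hc
    by_contra hcon
    push Not at hcon
    choose! m hm using fun (i : S) (hi : c i ≠ 0) => D6_elt φ (c i) hi
    let T : Finset S := Finset.univ.filter fun i => c i ≠ 0
    have hT : T.Nonempty := by
      obtain ⟨i, hi⟩ := hcon
      exact ⟨i, by simp [T, hi]⟩
    obtain ⟨i, hiT, hi⟩ := T.exists_min_image m hT
    have hci : c i ≠ 0 := (Finset.mem_filter.1 hiT).2
    have hci' : (c i : K) ≠ 0 := fun h => hci (Subtype.ext h)
    have hvi := hS i.1 i.2
    set e := i.1.ord φ with he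
    -- all other terms have a larger order
    have hbig : ∀ s : Finset S, i ∉ s → (∑ j ∈ s, c j • f j = 0 ∨ m i * e < i.1.ord (∑ j ∈ s, c j • f j)) := by
      intro s
      induction s using Finset.induction_on with
      | empty => intro _; left; simp
      | insert j s hj ih =>
        intro his
        have hs := ih fun h => his (Finset.mem_insert_of_mem h)
        have hij : i ≠ j := by
          rintro rfl
          exact his (Finset.mem_insert_self _ _)
        rw [Finset.sum_insert hj]
        by_cases hcj : c j = 0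
        · rw [hcj, zero_smul, zero_add]
          exact hs
        have hcj' : (c j : K) ≠ 0 := fun h => hcj (Subtype.ext h)
        have h1 : m i * e < i.1.ord (c j • f j) := by
          have h2 : c j • f j = (c j : K) * f j := rfl
          rw [h2, i.1.ord_mul _ _ hcj' (hf0 j), hm j hcj i.1 hvi]
          have h3 : 0 < i.1.ord (f j) := hf2 j i.1 (Finset.mem_erase.2
            ⟨fun h => hij (Subtype.ext h), i.2⟩)
          have h4 : m i ≤ m j := hi j (by simp [T, hcj])
          have h5 : m i * e ≤ m j * e := mul_le_mul_of_nonneg_right h4 hvi.le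
          rw [← he]
          omega
        have h6 : c j • f j ≠ 0 := by
          have h2 : c j • f j = (c j : K) * f j := rfl
          rw [h2]
          exact mul_ne_zero hcj' (hf0 j)
        rcases hs with hs | hs
        · rw [hs, add_zero]
          exact Or.inr h1
        · by_cases h7 : ∑ x ∈ s, c x • f x = 0
          · rw [h7, add_zero]
            exact Or.inr h1
          by_cases h8 : c j • f j + ∑ x ∈ s, c x • f x = 0
          · exact Or.inl h8
          right
          have h9 := i.1.ord_add _ _ h6 h7 h8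
          rcases min_le_iff.1 h9 with h10 | h10 <;> omega
    have hsum : c i • f i + ∑ j ∈ Finset.univ.erase i, c j • f j = 0 := by
      rw [Finset.add_sum_erase Finset.univ (fun j => c j • f j) (Finset.mem_univ i)]
      exact hc
    have hne : c i • f i ≠ 0 := by
      have h2 : c i • f i = (c i : K) * f i := rfl
      rw [h2]
      exact mul_ne_zero hci' (hf0 i)
    have hord : i.1.ord (c i • f i) = m i * e := by
      have h2 : c i • f i = (c i : K) * f i := rfl
      rw [h2, i.1.ord_mul _ _ hci' (hf0 i), hm i hci i.1 hvi, hf1 i, add_zero]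
    have hlast := D6_ord_add i.1 hne (g := ∑ j ∈ Finset.univ.erase i, c j • f j) (by
      rw [hord]
      exact hbig _ (Finset.notMem_erase _ _))
    exact hlast.1 hsum
  have h := hli.fintype_card_le_finrank
  rwa [Fintype.card_coe] at h

private theorem D6_fin_pos (φ : K) [FiniteDimensional (IntermediateField.adjoin E {φ}) K] :
    {v : Place E K | 0 < v.ord φ}.Finite := by
  by_contra hinf
  obtain ⟨S, hS, hcard⟩ := (show Set.Infinite _ from hinf).exists_subset_card_eq
    (Module.finrank (IntermediateField.adjoin E {φ}) K + 1)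
  have h := D6_card φ S fun v hv => hS (Finset.mem_coe.2 hv)
  omega

private theorem D6_ord_alg (v : Place E K) {x : K} (hx : IsAlgebraic E x) : v.ord x = 0 := by
  have h1 : v.Reg x := Pool.Agent.LibEnd77.Val8.reg_of_integral (A := E) v
    (fun a => v.reg_const a) hx.isIntegral
  have h2 : v.Reg x⁻¹ := Pool.Agent.LibEnd77.Val8.reg_of_integral (A := E) v
    (fun a => v.reg_const a) hx.inv.isIntegral
  by_cases h0 : x = 0
  · rw [h0, v.ord_zero]
  have h3 := h1.resolve_left h0
  have h4 := h2.resolve_left (inv_ne_zero h0)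
  rw [v.ord_inv] at h4
  omega

/-- Finitely many zeros and poles. -/
private theorem D6_fin (hfin : ∀ φ : K, Transcendental E φ →
    FiniteDimensional (IntermediateField.adjoin E {φ}) K) (g : K) :
    {v : Place E K | v.ord g ≠ 0}.Finite := by
  by_cases hg : IsAlgebraic E g
  · convert Set.finite_empty
    ext v
    simp [D6_ord_alg v hg]
  · have hg' : Transcendental E g⁻¹ := fun h => hg (by simpa using h.inv)
    have := hfin g hg
    have := hfin g⁻¹ hg'
    refine ((D6_fin_pos g).union (D6_fin_pos g⁻¹)).subset ?_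
    intro v hv
    rcases lt_or_gt_of_ne (show v.ord g ≠ 0 from hv) with h | h
    · right
      change 0 < v.ord g⁻¹
      rw [v.ord_inv]
      omega
    · left
      exact h

end D6_approx

/-- function fields are finitely generated -/
private theorem D6_ess {d : ℕ} {N : Type} [Field N] [Algebra k N] (hN : FunF k d N) :
    Algebra.EssFiniteType k N := by
  obtain ⟨t, ht, hfin⟩ := hN
  have : Algebra.EssFiniteType k (IntermediateField.adjoin k (Set.range t)) := by
    rw [IntermediateField.essFiniteType_iff]
    exact ⟨Finset.univ.image t, by simp⟩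
  exact Algebra.EssFiniteType.comp k (IntermediateField.adjoin k (Set.range t)) N

/-- `N` is finite over `E(φ)` if `trdeg E N = 1` -/
private theorem D6_findim {E N : Type} [Field E] [Field N] [Algebra E N] [Algebra.EssFiniteType E N]
    (h : Algebra.trdeg E N ≤ 1) {φ : N} (hφ : Transcendental E φ) :
    FiniteDimensional (IntermediateField.adjoin E {φ}) N := by
  have h1 : IsTranscendenceBasis E (fun _ : Unit => φ) := by
    apply AlgebraicIndependent.isTranscendenceBasis_of_trdeg_le_of_finite
      (algebraicIndependent_unique_type_iff.2 hφ)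
    simpa using h
  have h2 := h1.isAlgebraic_field
  have h3 : Set.range (fun _ : Unit => φ) = {φ} := by simp
  rw [h3] at h2
  have : Algebra.EssFiniteType (IntermediateField.adjoin E {φ}) N :=
    Algebra.EssFiniteType.of_comp E _ N
  exact Algebra.finite_of_essFiniteType_of_isAlgebraic

/-- a place which is trivial on `E` -/
private def D6_lift {N : Type} [Field N] [Algebra k N] (E : IntermediateField k N) (v : Place k N)
    (h : ∀ c ∈ E, v.ord c = 0) : Place E N where
  ord := v.ord
  ord_zero := v.ord_zero
  ord_mul := v.ord_mul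
  ord_add := v.ord_add
  ord_const c _ := h c c.2
  exists_uniformizer := v.exists_uniformizer

/-- the residue of a polynomial -/
private theorem D6_red_poly {N : Type} [Field N] [Algebra k N] (v : Place k N) {x : N} {y : RF v}
    (h : Red v x y) (P : k[X]) : Red v (aeval x P) (aeval y P) := by
  rw [Polynomial.aeval_eq_sum_range, Polynomial.aeval_eq_sum_range]
  generalize Finset.range (P.natDegree + 1) = s
  induction s using Finset.induction_on with
  | empty => simpa using Pool.Agent.LibCHd.red_zero v
  | insert a s ha ih =>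
    rw [Finset.sum_insert ha, Finset.sum_insert ha, Algebra.smul_def, Algebra.smul_def]
    exact ((Pool.Agent.LibCHd.red_const v _).mul (h.pow a)).add ih

private theorem D6_triv {N : Type} [Field N] [Algebra k N] (v : Place k N) {x : N} {y : RF v}
    (h : Red v x y) (hy : Transcendental k y) : ∀ c ∈ IntermediateField.adjoin k {x}, v.ord c = 0 := by
  have hP : ∀ P : k[X], v.ord (aeval x P) = 0 := by
    intro P
    by_cases hP0 : P = 0
    · rw [hP0, map_zero, v.ord_zero]
    · refine (D6_red_poly v h P).ord_eq_zero ?_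
      intro h0
      exact hy ⟨P, hP0, h0⟩
  intro c hc
  obtain ⟨P, Q, rfl⟩ := (IntermediateField.mem_adjoin_simple_iff k c).1 hc
  by_cases h1 : aeval x P = 0
  · rw [h1, zero_div, v.ord_zero]
  by_cases h2 : aeval x Q = 0
  · rw [h2, div_zero, v.ord_zero]
  rw [v.ord_div _ _ h1 h2, hP, hP, sub_zero]

theorem fin_places {N : Type} [Field N] [Algebra k N] (hN : FunF k 2 N) (g : N) (x : N) :
    {v : Place k N | v.ord g ≠ 0 ∧ ∃ y : RF v, Red v x y ∧ Transcendental k y}.Finite := by
  by_cases hx : IsAlgebraic k x
  · convert Set.finite_empty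
    ext v
    simp only [Set.mem_ofPred_eq, Set.mem_empty_iff_false, iff_false, not_and, not_exists]
    rintro - y hy hty
    obtain ⟨P, hP0, hP⟩ := hx
    have h1 := D6_red_poly v hy P
    rw [hP] at h1
    exact hty ⟨P, hP0, h1.unique (Pool.Agent.LibCHd.red_zero v)⟩
  set E := IntermediateField.adjoin k {x} with hE
  have := D6_ess hN
  have : Algebra.EssFiniteType E N := Algebra.EssFiniteType.of_comp k _ N
  have htr : Algebra.trdeg E N ≤ 1 := by
    have h1 := hN.trdeg
    have h2 : Algebra.trdeg k E = 1 := by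
      have h3 : FunF k 1 E := by
        refine ⟨fun _ => ⟨x, IntermediateField.mem_adjoin_simple_self k x⟩, ?_, ?_⟩
        · rw [algebraicIndependent_unique_type_iff]
          intro h
          apply hx
          exact (isAlgebraic_algHom_iff E.val Subtype.val_injective).2 h
        · have h4 : IntermediateField.adjoin k (Set.range fun _ : Fin 1 =>
              (⟨x, IntermediateField.mem_adjoin_simple_self k x⟩ : E)) = ⊤ := by
            rw [Set.range_const]
            apply IntermediateField.map_injective E.val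
            rw [IntermediateField.adjoin_map, Set.image_singleton, ← AlgHom.fieldRange_eq_map,
              IntermediateField.fieldRange_val]
            rfl
          rw [h4]
          exact Module.Finite.of_surjective (Algebra.linearMap (⊤ : IntermediateField k E) E)
            fun c => ⟨⟨c, trivial⟩, rfl⟩
      simpa using h3.trdeg
    have h3 := _root_.trdeg_add_eq k E (A := N)
    rw [h1, h2] at h3
    have h4 : (1 : Cardinal) + Algebra.trdeg E N = 1 + 1 := by
      rw [h3]
      norm_num
    exact (Cardinal.eq_of_add_eq_add_left h4 Cardinal.one_lt_aleph0).le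
  have hfin := D6_fin (E := E) (K := N) (fun φ hφ => D6_findim htr hφ) g
  refine Set.Finite.of_finite_image (f := fun v : Place k N => v.ord) ?_ ?_
  · refine (hfin.image fun v : Place E N => v.ord).subset ?_
    rintro _ ⟨v, ⟨hv, y, hy, hty⟩, rfl⟩
    exact ⟨D6_lift E v (D6_triv v hy hty), hv, rfl⟩
  · intro v _ w _ h
    exact Place.ext' fun f => congrFun h f

theorem fin_cyc {m : ℕ} {N : Type} [Field N] [Algebra k N] (hN : FunF k 2 N) (g : N) (u : Pnt m N) :
    {v : Place k N | v.ord g ≠ 0 ∧ FunF k 1 (RF v) ∧ ∃ q : Pnt m (RF v), SpP v u q ∧ cyc k q ≠ 0}.Finite := by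
  refine (Set.finite_iUnion (ι := Fin m × Fin 2) fun p => fin_places hN g (co u p)).subset ?_
  rintro v ⟨hv, hF, q, hq, hcyc⟩
  have h1 : ∃ j i x, q j i = some x ∧ Transcendental k x := by
    by_contra hcon
    push Not at hcon
    apply hcyc
    refine cyc_alg hF q fun j i x hx => ?_
    have := hcon j i x hx
    rwa [Transcendental, not_not] at this
  obtain ⟨j, i, y, hy, hty⟩ := h1
  rw [Set.mem_iUnion]
  refine ⟨(j, i), hv, y, ?_, hty⟩
  have h2 := hq j i
  rw [hy] at h2
  unfold co
  dsimp only
  cases hu : u j i with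
  | none =>
    rw [hu] at h2
    exact absurd h2 (by simp [SpO])
  | some x =>
    rw [hu] at h2
    exact h2

theorem fin_zero {M : Type} [Field M] [Algebra k M] (hM : FunF k 1 M) (g : M) :
    {v : Place k M | v.ord g ≠ 0}.Finite := by
  have := D6_ess hM
  refine D6_fin (fun φ hφ => D6_findim ?_ hφ) g
  rw [hM.trdeg]
  simp

end Pool.Agent.LibCW77
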