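import Pool.Agent.LibCW77.Defs3
import Pool.Agent.LibCHd.FunFrac
import Pool.Agent.LibHL77.B2
/-!
[CW77 G1] Rational function fields. `rat1_exists`: `N = RatFunc M` or `FractionRing M[X]` (as algebra over `k` through `M`), `μ = X`. `rat1_funF`:
transcendence degree and finiteness: see `LibCHd.FunFrac.funF_succ` (or `LibHL77.A3`). `rat1_affine`: substitute (see `B2_tr_lin`,
`B2_gen_lin` in `LibHL77/B2.lean`).
-/

open scoped Classical
open Polynomial

namespace Pool.Agent.LibCW77

open Pool.Agent.LibBH2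
open Pool.Agent.LibCHd (VR RF Red FunF)

variable {k : Type} [Field k]

theorem rat1_exists (M : Type) [Field M] [Algebra k M] :
    ∃ (N : Type) (_ : Field N) (_ : Algebra k N) (i : M →ₐ[k] N) (μ : N), Rat1 i μ := by
  refine ⟨FractionRing M[X], inferInstance, inferInstance,
    (IsScalarTower.toAlgHom k M[X] (FractionRing M[X])).comp (Polynomial.CAlgHom),
    algebraMap M[X] (FractionRing M[X]) X, ?_⟩
  have key : ∀ G : M[X], G.eval₂ (((IsScalarTower.toAlgHom k M[X] (FractionRing M[X])).comp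
      (Polynomial.CAlgHom) : M →ₐ[k] FractionRing M[X]) : M →+* FractionRing M[X])
      (algebraMap M[X] (FractionRing M[X]) X) = algebraMap M[X] (FractionRing M[X]) G := by
    intro G
    have h1 := Polynomial.hom_eval₂ G (C : M →+* M[X]) (algebraMap M[X] (FractionRing M[X])) X
    rw [Polynomial.eval₂_C_X] at h1
    rw [h1]
    rfl
  refine ⟨?_, ?_⟩
  · intro G hG
    rw [key]
    exact fun h0 => hG ((IsFractionRing.to_map_eq_zero_iff (K := FractionRing M[X])).1 h0)
  · intro z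
    obtain ⟨P, Q, hQ, hz⟩ := IsFractionRing.div_surjective (A := M[X]) z
    refine ⟨P, Q, nonZeroDivisors.ne_zero hQ, ?_⟩
    rw [key, key]
    exact hz.symm

theorem rat1_funF {d : ℕ} {M N : Type} [Field M] [Algebra k M] [Field N] [Algebra k N] {i : M →ₐ[k] N}
    {μ : N} (h : Rat1 i μ) (hM : FunF k d M) : FunF k (d + 1) N := by
  obtain ⟨t, ht, hfinM⟩ := hM
  let _ : Algebra M N := (i : M →+* N).toAlgebra
  have htow : IsScalarTower k M N := IsScalarTower.of_algebraMap_eq fun x => (i.commutes x).symm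
  have hy : AlgebraicIndependent M (fun _ : Unit => μ) := by
    rw [algebraicIndependent_unique_type_iff, transcendental_iff]
    intro p hp
    by_contra hne
    exact h.tr p hne hp
  have hind := ht.sumElim_comp hy
  let e : Fin (d + 1) ≃ Unit ⊕ Fin d :=
    ((finSuccEquiv d).trans (Equiv.optionEquivSumPUnit (Fin d))).trans (Equiv.sumComm _ _)
  refine ⟨Sum.elim (fun _ : Unit => μ) (algebraMap M N ∘ t) ∘ e, hind.comp e e.injective, ?_⟩
  rw [e.surjective.range_comp]
  set E := IntermediateField.adjoin k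
    (Set.range (Sum.elim (fun _ : Unit => μ) (algebraMap M N ∘ t))) with hE
  have hE1 : μ ∈ E := IntermediateField.subset_adjoin _ _ ⟨Sum.inl (), rfl⟩
  have hE2 : ∀ j, i (t j) ∈ E := fun j => IntermediateField.subset_adjoin _ _ ⟨Sum.inr j, rfl⟩
  obtain ⟨S₂, h2, h2'⟩ := Pool.Agent.LibCHd.funF_image i t hfinM E hE2
  have hmu : μ ∈ IntermediateField.adjoin E (S₂ : Set N) :=
    (IntermediateField.adjoin E (S₂ : Set N)).algebraMap_mem (⟨μ, hE1⟩ : E)
  have hev : ∀ P : M[X], P.eval₂ (i : M →+* N) μ ∈ IntermediateField.adjoin E (S₂ : Set N) := by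
    intro P
    rw [Polynomial.eval₂_eq_sum_range]
    exact sum_mem fun j _ => mul_mem (h2' _) (pow_mem hmu _)
  have htop : IntermediateField.adjoin E (S₂ : Set N) = ⊤ := by
    rw [eq_top_iff]
    intro x _
    obtain ⟨P, Q, _, hx⟩ := h.gen x
    rw [hx]
    exact div_mem (hev P) (hev Q)
  have hfin : FiniteDimensional E (IntermediateField.adjoin E (S₂ : Set N)) :=
    IntermediateField.finiteDimensional_adjoin fun x hx => h2 x hx
  rw [htop] at hfin
  exact Module.Finite.equiv (IntermediateField.topEquiv (F := E) (E := N)).toLinearEquiv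

theorem rat1_affine {M N : Type} [Field M] [Algebra k M] [Field N] [Algebra k N] {i : M →ₐ[k] N}
    {μ : N} (h : Rat1 i μ) (α β : M) (hα : α ≠ 0) : Rat1 i (i α * μ + i β) := by
  have hiα : i α ≠ 0 := by
    rw [Ne, map_eq_zero]
    exact hα
  refine ⟨?_, ?_⟩
  · intro G hG h0
    have h1 : (G.comp (C α * X + C β)).eval₂ (i : M →+* N) μ = 0 := by
      rw [Polynomial.eval₂_comp]
      simpa using h0
    have h2 : G.comp (C α * X + C β) ≠ 0 := by
      intro h
      rcases Polynomial.comp_eq_zero_iff.1 h with h3 | h3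
      · exact hG h3
      · have h4 := congrArg (fun p : M[X] => p.coeff 1) h3.2
        simp at h4
        exact hα h4
    exact h.tr _ h2 h1
  · intro z
    obtain ⟨P, Q, hQ, hz⟩ := h.gen z
    have h3 : ∀ R : M[X], (R.comp (C α⁻¹ * X + C (-(β * α⁻¹)))).eval₂ (i : M →+* N)
        (i α * μ + i β) = R.eval₂ (i : M →+* N) μ := by
      intro R
      rw [Polynomial.eval₂_comp]
      congr 1
      rw [Polynomial.eval₂_add, Polynomial.eval₂_mul, Polynomial.eval₂_C, Polynomial.eval₂_C,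
        Polynomial.eval₂_X]
      simp only [RingHom.coe_coe, map_neg, map_mul, map_inv₀]
      field_simp
      ring
    refine ⟨P.comp (C α⁻¹ * X + C (-(β * α⁻¹))), Q.comp (C α⁻¹ * X + C (-(β * α⁻¹))), ?_, ?_⟩
    · intro h0
      have h4 := h3 Q
      rw [h0, Polynomial.eval₂_zero] at h4
      exact h.tr Q hQ h4.symm
    · rw [h3, h3, hz]

theorem rat1_ne {M N : Type} [Field M] [Algebra k M] [Field N] [Algebra k N] {i : M →ₐ[k] N}
    {μ : N} (h : Rat1 i μ) (α : M) : μ ≠ i α := by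
  intro h0
  refine h.tr (X - C α) (Polynomial.X_sub_C_ne_zero α) ?_
  rw [Polynomial.eval₂_sub, Polynomial.eval₂_X, Polynomial.eval₂_C, h0]
  exact sub_self _

/-- a Laurent polynomial in `μ` with four terms, one of them of exponent `0` and the others not, is not zero -/
theorem rat1_laurent {M N : Type} [Field M] [Algebra k M] [Field N] [Algebra k N] {i : M →ₐ[k] N}
    {μ : N} (h : Rat1 i μ) (α β γ δ : M) (a b c : ℤ) (ha : a ≠ 0) (hb : b ≠ 0) (hc : c ≠ 0) (hδ : δ ≠ 0) :
    i α * μ ^ a + i β * μ ^ b + i γ * μ ^ c + i δ ≠ 0 := by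
  intro h0
  have hmu : μ ≠ 0 := by
    have h1 := rat1_ne h 0
    rwa [map_zero] at h1
  set K : ℕ := a.natAbs + b.natAbs + c.natAbs with hK
  obtain ⟨a', ha'⟩ : ∃ a' : ℕ, (a' : ℤ) = (K : ℤ) + a := ⟨((K : ℤ) + a).toNat, by omega⟩
  obtain ⟨b', hb'⟩ : ∃ b' : ℕ, (b' : ℤ) = (K : ℤ) + b := ⟨((K : ℤ) + b).toNat, by omega⟩
  obtain ⟨c', hc'⟩ : ∃ c' : ℕ, (c' : ℤ) = (K : ℤ) + c := ⟨((K : ℤ) + c).toNat, by omega⟩
  have ha2 : ¬ K = a' := by omega
  have hb2 : ¬ K = b' := by omega
  have hc2 : ¬ K = c' := by omega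
  refine h.tr (C α * X ^ a' + C β * X ^ b' + C γ * X ^ c' + C δ * X ^ K) ?_ ?_
  · intro hG
    have h1 := congrArg (fun p : M[X] => p.coeff K) hG
    simp only [Polynomial.coeff_add, Polynomial.coeff_C_mul, Polynomial.coeff_X_pow,
      Polynomial.coeff_zero, if_neg ha2, if_neg hb2, if_neg hc2, mul_zero, zero_add] at h1
    exact hδ (by simpa using h1)
  · have e1 : ∀ (m : ℕ) (z : ℤ), (m : ℤ) = (K : ℤ) + z → μ ^ m = μ ^ K * μ ^ z := by
      intro m z hm
      rw [← zpow_natCast μ m, hm, zpow_add₀ hmu, zpow_natCast]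
    have h2 : (C α * X ^ a' + C β * X ^ b' + C γ * X ^ c' + C δ * X ^ K : M[X]).eval₂
        (i : M →+* N) μ = μ ^ K * (i α * μ ^ a + i β * μ ^ b + i γ * μ ^ c + i δ) := by
      simp only [Polynomial.eval₂_add, Polynomial.eval₂_mul, Polynomial.eval₂_C,
        Polynomial.eval₂_X_pow, RingHom.coe_coe]
      rw [e1 a' a ha', e1 b' b hb', e1 c' c hc']
      ring
    rw [h2, h0, mul_zero]

end Pool.Agent.LibCW77
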