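import Pool.Agent.LibCW77.Defs3
import Pool.Agent.LibCW77.G1
import Pool.Agent.LibCHd.Api
/-!
[CW77 G2] The place `μ = 1` of `N = M(μ)` trivial on `M`: the order of vanishing at `X = 1` of a rational function (`Polynomial.rootMultiplicity 1`, the
order of `P / Q` is the difference), the residue field is `M` (evaluation at `1`). Uniqueness: a place trivial on `M` with `v'.ord (μ - 1) > 0`: write
`P = (X - 1) ^ r P₁` with `P₁(1) ≠ 0`, then `P₁(μ)` is a unit at `v'` (its residue is `P₁(1)`), so `v'.ord = v'.ord (μ - 1) * v.ord`, and `v'` is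
normalised. Alternatively use the Mathlib valuations on `RatFunc`. Maybe `LibHL77/B0a.lean` has parts.
-/

open scoped Classical
open Polynomial

namespace Pool.Agent.LibCW77

open Pool.Agent.LibBH2
open Pool.Agent.LibCHd (VR RF Red FunF)

variable {k : Type} [Field k]

section g2

variable {M N : Type} [Field M] [Algebra k M] [Field N] [Algebra k N]

/-- value at `μ` -/
private noncomputable def G2_E (i : M →ₐ[k] N) (μ : N) : M[X] →+* N :=
  Polynomial.eval₂RingHom (i : M →+* N) μ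

private theorem G2_EC (i : M →ₐ[k] N) (μ : N) (c : M) : G2_E i μ (C c) = i c := by
  rw [G2_E, Polynomial.coe_eval₂RingHom, Polynomial.eval₂_C]
  rfl

private theorem G2_EX (i : M →ₐ[k] N) (μ : N) : G2_E i μ X = μ := by
  rw [G2_E, Polynomial.coe_eval₂RingHom, Polynomial.eval₂_X]

private theorem G2_E1 (i : M →ₐ[k] N) (μ : N) : G2_E i μ (X - C 1) = μ - 1 := by
  rw [map_sub, G2_EX, G2_EC, map_one]

private theorem G2_ne {i : M →ₐ[k] N} {μ : N} (h : Rat1 i μ) {P : M[X]} (hP : P ≠ 0) : G2_E i μ P ≠ 0 :=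
  h.tr P hP

private theorem G2_mu {i : M →ₐ[k] N} {μ : N} (h : Rat1 i μ) : μ - 1 ≠ 0 := by
  rw [← G2_E1 i μ]
  exact G2_ne h (Polynomial.X_sub_C_ne_zero 1)

private theorem G2_inj {i : M →ₐ[k] N} {μ : N} (h : Rat1 i μ) {P Q : M[X]} (hPQ : G2_E i μ P = G2_E i μ Q) :
    P = Q := by
  by_contra hne
  refine G2_ne h (sub_ne_zero.2 hne) ?_
  rw [map_sub, hPQ, sub_self]

/-- `z = (μ - 1) ^ m P(μ) / Q(μ)` -/
private def G2_R (i : M →ₐ[k] N) (μ z : N) (m : ℤ) (P Q : M[X]) : Prop :=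
  P.eval 1 ≠ 0 ∧ Q.eval 1 ≠ 0 ∧ z = (μ - 1) ^ m * G2_E i μ P / G2_E i μ Q

private theorem G2_ne0 {P : M[X]} (h : P.eval 1 ≠ 0) : P ≠ 0 := by
  rintro rfl
  exact h Polynomial.eval_zero

private theorem G2_fac {P : M[X]} (h : P ≠ 0) :
    ∃ (r : ℕ) (P₁ : M[X]), P = (X - C 1) ^ r * P₁ ∧ P₁.eval 1 ≠ 0 := by
  obtain ⟨P₁, h1, h2⟩ := Polynomial.exists_eq_pow_rootMultiplicity_mul_and_not_dvd P h 1
  exact ⟨_, P₁, h1, fun h3 => h2 (Polynomial.dvd_iff_isRoot.2 h3)⟩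

private theorem G2_Rne {i : M →ₐ[k] N} {μ : N} (h : Rat1 i μ) {z : N} {m : ℤ} {P Q : M[X]}
    (hR : G2_R i μ z m P Q) : z ≠ 0 := by
  obtain ⟨h1, h2, rfl⟩ := hR
  exact div_ne_zero (mul_ne_zero (zpow_ne_zero _ (G2_mu h)) (G2_ne h (G2_ne0 h1))) (G2_ne h (G2_ne0 h2))

private theorem G2_Rex {i : M →ₐ[k] N} {μ : N} (h : Rat1 i μ) {z : N} (hz : z ≠ 0) :
    ∃ (m : ℤ) (P Q : M[X]), G2_R i μ z m P Q := by
  obtain ⟨P, Q, hQ, hPQ⟩ := h.gen z
  have hP : P ≠ 0 := by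
    rintro rfl
    rw [Polynomial.eval₂_zero, zero_div] at hPQ
    exact hz hPQ
  obtain ⟨r, P₁, hP1, hP2⟩ := G2_fac hP
  obtain ⟨s, Q₁, hQ1, hQ2⟩ := G2_fac hQ
  refine ⟨(r : ℤ) - s, P₁, Q₁, hP2, hQ2, ?_⟩
  have h1 : P.eval₂ (i : M →+* N) μ = (μ - 1) ^ r * G2_E i μ P₁ := by
    change G2_E i μ P = _
    conv_lhs => rw [hP1]
    rw [map_mul, map_pow, G2_E1]
  have h2 : Q.eval₂ (i : M →+* N) μ = (μ - 1) ^ s * G2_E i μ Q₁ := by
    change G2_E i μ Q = _
    conv_lhs => rw [hQ1]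
    rw [map_mul, map_pow, G2_E1]
  have h3 := G2_mu h
  have h4 := G2_ne h (G2_ne0 hQ2)
  rw [hPQ, h1, h2, zpow_sub₀ h3, zpow_natCast, zpow_natCast]
  field_simp

private theorem G2_le {i : M →ₐ[k] N} {μ : N} (h : Rat1 i μ) {z : N} {m m' : ℤ} {P Q P' Q' : M[X]}
    (hR : G2_R i μ z m P Q) (hR' : G2_R i μ z m' P' Q') : m' ≤ m := by
  by_contra hlt
  push Not at hlt
  obtain ⟨h1, h2, h3⟩ := hR
  obtain ⟨h1', h2', h3'⟩ := hR'
  obtain ⟨d, hd⟩ : ∃ d : ℕ, m' = m + (d + 1 : ℕ) := ⟨(m' - m - 1).toNat, by omega⟩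
  have hμ := G2_mu h
  have hQ := G2_ne h (G2_ne0 h2)
  have hQ' := G2_ne h (G2_ne0 h2')
  have hm := zpow_ne_zero m hμ
  have h4 : G2_E i μ (P * Q') = G2_E i μ ((X - C 1) ^ (d + 1) * (P' * Q)) := by
    rw [h3, div_eq_div_iff hQ hQ', hd, zpow_add₀ hμ, zpow_natCast] at h3'
    rw [map_mul, map_mul, map_mul, map_pow, G2_E1]
    refine mul_left_cancel₀ hm ?_
    linear_combination h3'
  have h5 := congrArg (Polynomial.eval 1) (G2_inj h h4)
  rw [Polynomial.eval_mul, Polynomial.eval_mul, Polynomial.eval_pow, Polynomial.eval_sub, Polynomial.eval_X,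
    Polynomial.eval_C, sub_self, zero_pow (Nat.succ_ne_zero d), zero_mul] at h5
  exact mul_ne_zero h1 h2' h5

/-- the order -/
private noncomputable def G2_O (i : M →ₐ[k] N) (μ z : N) : ℤ :=
  if h : ∃ m, ∃ P Q : M[X], G2_R i μ z m P Q then h.choose else 0

private theorem G2_Oeq {i : M →ₐ[k] N} {μ : N} (h : Rat1 i μ) {z : N} {m : ℤ} {P Q : M[X]}
    (hR : G2_R i μ z m P Q) : G2_O i μ z = m := by
  have h1 : ∃ m, ∃ P Q : M[X], G2_R i μ z m P Q := ⟨m, P, Q, hR⟩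
  rw [G2_O, dif_pos h1]
  obtain ⟨P', Q', h'⟩ := h1.choose_spec
  exact le_antisymm (G2_le h hR h') (G2_le h h' hR)

private theorem G2_Rmul {i : M →ₐ[k] N} {μ : N} (h : Rat1 i μ) {z z' : N} {m m' : ℤ} {P Q P' Q' : M[X]}
    (hR : G2_R i μ z m P Q) (hR' : G2_R i μ z' m' P' Q') : G2_R i μ (z * z') (m + m') (P * P') (Q * Q') := by
  obtain ⟨h1, h2, rfl⟩ := hR
  obtain ⟨h1', h2', rfl⟩ := hR'
  refine ⟨?_, ?_, ?_⟩
  · rw [Polynomial.eval_mul]
    exact mul_ne_zero h1 h1'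
  · rw [Polynomial.eval_mul]
    exact mul_ne_zero h2 h2'
  · rw [map_mul, map_mul, div_mul_div_comm, zpow_add₀ (G2_mu h)]
    congr 1
    ring

private theorem G2_Radd {i : M →ₐ[k] N} {μ : N} (h : Rat1 i μ) {z z' : N} {m m' : ℤ} {P Q P' Q' : M[X]}
    (hR : G2_R i μ z m P Q) (hR' : G2_R i μ z' m' P' Q') (hle : m ≤ m') (hne : z + z' ≠ 0) :
    m ≤ G2_O i μ (z + z') := by
  obtain ⟨h1, h2, h3⟩ := hR
  obtain ⟨h1', h2', h3'⟩ := hR'
  obtain ⟨d, hd⟩ : ∃ d : ℕ, m' = m + (d : ℕ) := ⟨(m' - m).toNat, by omega⟩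
  have hμ := G2_mu h
  have hQ := G2_ne h (G2_ne0 h2)
  have hQ' := G2_ne h (G2_ne0 h2')
  let S : M[X] := P * Q' + (X - C 1) ^ d * (P' * Q)
  have hS : z + z' = (μ - 1) ^ m * G2_E i μ S / G2_E i μ (Q * Q') := by
    have h5 : G2_E i μ S = G2_E i μ P * G2_E i μ Q' + (μ - 1) ^ d * (G2_E i μ P' * G2_E i μ Q) := by
      rw [map_add, map_mul, map_mul, map_mul, map_pow, G2_E1]
    rw [h5, h3, h3', map_mul, hd, zpow_add₀ hμ, zpow_natCast]
    field_simp
  have hS0 : S ≠ 0 := by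
    intro h0
    refine hne ?_
    rw [hS, h0, map_zero, mul_zero, zero_div]
  obtain ⟨r, S₁, hS1, hS2⟩ := G2_fac hS0
  have h8 : G2_R i μ (z + z') (m + r) S₁ (Q * Q') := by
    refine ⟨hS2, ?_, ?_⟩
    · rw [Polynomial.eval_mul]
      exact mul_ne_zero h2 h2'
    · rw [hS]
      conv_lhs => rw [hS1]
      rw [map_mul, map_pow, G2_E1, zpow_add₀ hμ, zpow_natCast, mul_assoc]
  rw [G2_Oeq h h8]
  omega

private theorem G2_Ri (i : M →ₐ[k] N) (μ : N) {x : M} (hx : x ≠ 0) : G2_R i μ (i x) 0 (C x) 1 := by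
  refine ⟨?_, ?_, ?_⟩
  · rwa [Polynomial.eval_C]
  · rw [Polynomial.eval_one]
    exact one_ne_zero
  · rw [G2_EC, map_one, zpow_zero, one_mul, div_one]

private theorem G2_Rmu (i : M →ₐ[k] N) (μ : N) : G2_R i μ (μ - 1) 1 1 1 := by
  refine ⟨?_, ?_, ?_⟩
  · rw [Polynomial.eval_one]
    exact one_ne_zero
  · rw [Polynomial.eval_one]
    exact one_ne_zero
  · rw [map_one, zpow_one, mul_one, div_one]

/-- the place `μ = 1` -/
private noncomputable def G2_P {i : M →ₐ[k] N} {μ : N} (h : Rat1 i μ) : Place k N where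
  ord := G2_O i μ
  ord_zero := by
    rw [G2_O, dif_neg]
    rintro ⟨m, P, Q, hR⟩
    exact G2_Rne h hR rfl
  ord_mul f g hf hg := by
    obtain ⟨m, P, Q, hR⟩ := G2_Rex h hf
    obtain ⟨m', P', Q', hR'⟩ := G2_Rex h hg
    rw [G2_Oeq h hR, G2_Oeq h hR', G2_Oeq h (G2_Rmul h hR hR')]
  ord_add f g hf hg hfg := by
    obtain ⟨m, P, Q, hR⟩ := G2_Rex h hf
    obtain ⟨m', P', Q', hR'⟩ := G2_Rex h hg
    rw [G2_Oeq h hR, G2_Oeq h hR']
    rcases le_total m m' with hle | hle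
    · exact (min_le_left _ _).trans (G2_Radd h hR hR' hle hfg)
    · rw [add_comm f g]
      exact (min_le_right _ _).trans (G2_Radd h hR' hR hle (by rwa [add_comm]))
  ord_const c hc := by
    have hc' : algebraMap k M c ≠ 0 := (_root_.map_ne_zero _).2 hc
    rw [← i.commutes, G2_Oeq h (G2_Ri i μ hc')]
  exists_uniformizer := ⟨μ - 1, G2_Oeq h (G2_Rmu i μ)⟩

/-- polynomials in `μ` at a place where `μ = 1` -/
private theorem G2_val {i : M →ₐ[k] N} {μ : N} (v : Place k N) (hi : ∀ x, v.ord (i x) = 0)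
    (hμ : v.Zer (μ - 1)) (P : M[X]) : v.Zer (G2_E i μ P - i (P.eval 1)) := by
  have hreg : ∀ x, v.Reg (i x) := fun x => Or.inr (hi x).ge
  have hμr : v.Reg μ := by
    have h1 : v.Reg (1 : N) := Or.inr (by rw [v.ord_one])
    have := hμ.reg.add h1
    rwa [sub_add_cancel] at this
  have hR : ∀ P : M[X], v.Reg (G2_E i μ P) := by
    intro P
    induction P using Polynomial.induction_on' with
    | add P Q hP hQ =>
      rw [map_add]
      exact hP.add hQ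
    | monomial n a =>
      rw [← Polynomial.C_mul_X_pow_eq_monomial, map_mul, map_pow, G2_EC, G2_EX]
      refine (hreg a).mul ?_
      induction n with
      | zero =>
        rw [pow_zero]
        exact Or.inr (by rw [v.ord_one])
      | succ n ih =>
        rw [pow_succ]
        exact ih.mul hμr
  have hdvd : (X - C (1 : M)) ∣ P - C (P.eval 1) := by
    rw [Polynomial.dvd_iff_isRoot, Polynomial.IsRoot.def, Polynomial.eval_sub, Polynomial.eval_C, sub_self]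
  obtain ⟨P₂, hP₂⟩ := hdvd
  have h1 : G2_E i μ P - i (P.eval 1) = (μ - 1) * G2_E i μ P₂ := by
    rw [← G2_EC i μ (P.eval 1), ← map_sub, hP₂, map_mul, G2_E1]
  rw [h1]
  exact hμ.mul_reg (hR P₂)

end g2

theorem place_triv {M N : Type} [Field M] [Algebra k M] [Field N] [Algebra k N] {i : M →ₐ[k] N}
    {μ : N} (h : Rat1 i μ) :
    ∃ (v : Place k N) (ε : M ≃ₐ[k] RF v), (∀ x, v.ord (i x) = 0) ∧ (∀ x, Red v (i x) (ε x)) ∧
      v.ord (μ - 1) = 1 ∧
      ∀ v' : Place k N, (∀ x, v'.ord (i x) = 0) → 0 < v'.ord (μ - 1) → v' = v := by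
  let v : Place k N := G2_P h
  have hv : ∀ z m (P Q : M[X]), G2_R i μ z m P Q → v.ord z = m := fun z m P Q => G2_Oeq h
  have hi : ∀ x, v.ord (i x) = 0 := by
    intro x
    by_cases hx : x = 0
    · rw [hx, map_zero, v.ord_zero]
    · exact hv _ _ _ _ (G2_Ri i μ hx)
  have hμ : v.ord (μ - 1) = 1 := hv _ _ _ _ (G2_Rmu i μ)
  have hμz : v.Zer (μ - 1) := Or.inr (by rw [hμ]; exact one_pos)
  let ε₀ : M →ₐ[k] RF v :=
    { toFun := fun x => IsLocalRing.residue (VR v) ⟨i x, Or.inr (hi x).ge⟩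
      map_one' := by
        rw [← map_one (IsLocalRing.residue (VR v))]
        exact congrArg _ (Subtype.ext (map_one i))
      map_mul' := fun a b => by
        rw [← map_mul (IsLocalRing.residue (VR v))]
        exact congrArg _ (Subtype.ext (map_mul i a b))
      map_zero' := by
        rw [← map_zero (IsLocalRing.residue (VR v))]
        exact congrArg _ (Subtype.ext (map_zero i))
      map_add' := fun a b => by
        rw [← map_add (IsLocalRing.residue (VR v))]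
        exact congrArg _ (Subtype.ext (map_add i a b))
      commutes' := fun c => congrArg (IsLocalRing.residue (VR v)) (Subtype.ext (i.commutes c)) }
  have hε : ∀ x, Red v (i x) (ε₀ x) := fun x => ⟨Or.inr (hi x).ge, rfl⟩
  have hPv : ∀ P : M[X], Red v (G2_E i μ P) (ε₀ (P.eval 1)) := fun P =>
    (Pool.Agent.LibCHd.red_iff_sub (hε _)).2 (G2_val v hi hμz P)
  have hsurj : Function.Surjective ε₀ := by
    intro c
    obtain ⟨f, hf⟩ := Pool.Agent.LibCHd.exists_rep c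
    by_cases hf0 : f = 0
    · subst hf0
      exact ⟨0, by rw [map_zero]; exact (Pool.Agent.LibCHd.red_zero v).unique hf⟩
    · obtain ⟨m, P, Q, hR⟩ := G2_Rex h hf0
      have hm : 0 ≤ m := by
        have := hf.reg.resolve_left hf0
        rwa [hv _ _ _ _ hR] at this
      obtain ⟨h1, h2, h3⟩ := hR
      have hQ0 : ε₀ (Q.eval 1) ≠ 0 := (map_ne_zero ε₀).2 h2
      obtain ⟨n, rfl⟩ := Int.eq_ofNat_of_zero_le hm
      have h4 : Red v ((μ - 1) ^ n) (ε₀ (0 ^ n)) := by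
        rw [map_pow, map_zero]
        exact (Pool.Agent.LibCHd.red_zero_iff.2 hμz).pow n
      refine ⟨0 ^ n * P.eval 1 / Q.eval 1, ?_⟩
      have h5 := (h4.mul (hPv P)).div (hPv Q) hQ0
      rw [map_div₀, map_mul]
      refine Red.unique (v := v) (f := f) ?_ hf
      rw [h3, zpow_natCast]
      exact h5
  refine ⟨v, AlgEquiv.ofBijective ε₀ ⟨ε₀.toRingHom.injective, hsurj⟩, hi, hε, hμ, fun v' hi' hμ' => ?_⟩
  have hμz' : v'.Zer (μ - 1) := Or.inr hμ'
  have hu : ∀ P : M[X], P.eval 1 ≠ 0 → v'.ord (G2_E i μ P) = 0 := by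
    intro P hP
    have h1 := G2_val v' hi' hμz' P
    have h2 : v'.Reg (i (P.eval 1)) := Or.inr (hi' _).ge
    refine Place.ord_eq_zero_of_reg ?_ fun h3 => ?_
    · have := h1.reg.add h2
      rwa [sub_add_cancel] at this
    · have h4 := h3.sub h1
      rw [sub_sub_cancel] at h4
      rcases h4 with h4 | h4
      · exact hP ((map_eq_zero i).1 h4)
      · rw [hi'] at h4
        exact lt_irrefl _ h4
  have hv' : ∀ z m (P Q : M[X]), G2_R i μ z m P Q → v'.ord z = m * v'.ord (μ - 1) := by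
    rintro z m P Q ⟨h1, h2, rfl⟩
    rw [v'.ord_div _ _ (mul_ne_zero (zpow_ne_zero _ (G2_mu h)) (G2_ne h (G2_ne0 h1))) (G2_ne h (G2_ne0 h2)),
      v'.ord_mul _ _ (zpow_ne_zero _ (G2_mu h)) (G2_ne h (G2_ne0 h1)), v'.ord_zpow, hu P h1, hu Q h2]
    ring
  have he : v'.ord (μ - 1) = 1 := by
    obtain ⟨t, ht⟩ := v'.exists_uniformizer
    have ht0 : t ≠ 0 := by
      rintro rfl
      rw [v'.ord_zero] at ht
      exact zero_ne_one ht
    obtain ⟨m, P, Q, hR⟩ := G2_Rex h ht0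
    rw [hv' _ _ _ _ hR] at ht
    exact Int.eq_one_of_mul_eq_one_left hμ'.le ht
  refine Place.ext' fun f => ?_
  by_cases hf : f = 0
  · rw [hf, v'.ord_zero, v.ord_zero]
  · obtain ⟨m, P, Q, hR⟩ := G2_Rex h hf
    rw [hv' _ _ _ _ hR, hv _ _ _ _ hR, he, mul_one]

end Pool.Agent.LibCW77
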