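import Pool.Agent.LibCW77.Defs3
import Pool.Agent.LibCW77.G1
import Pool.Agent.LibHL77.B0b
import Pool.Agent.LibHL77.Z1
/-!
[CW77 G3] Gauss places. `res_k`: the residue field of a place of a function field of dimension 1 is finite over `k` (`LibHL77.Z1.res_finite` or
`fin_res`), so it is `k`. `place_gauss`: `LibHL77.B0a.gauss_exists` (`w` there is our `v`), `RF w = k`, so `RF v = k(t)`; `FunF k 1`.
`gauss_unique`: `LibHL77.B0b.gauss_char` with `L = k` (the `EHom` of `i`; `RF w → RF v` because the residue field of `w` is `k`, `Ovr.res`): `e = 1` and the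
order of `P(μ)` is the minimum of the orders of the coefficients, the same for both places; every element of `N` is a quotient
(`Place.ext'`). `gauss_gen`: from `gauss_char` (third part).
-/

open scoped Classical
open Polynomial

namespace Pool.Agent.LibCW77

open Pool.Agent.LibBH2
open Pool.Agent.LibCHd (VR RF Red FunF)

variable {k : Type} [Field k]

private theorem G3_red_aeval {K : Type} [Field K] [Algebra k K] {v : Place k K} {f : K} {y : RF v} (h : Red v f y)
    (p : k[X]) : Red v (aeval f p) (aeval y p) := by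
  induction p using Polynomial.induction_on' with
  | add p q hp hq =>
    rw [map_add, map_add]
    exact hp.add hq
  | monomial n a =>
    rw [aeval_monomial, aeval_monomial]
    exact (Pool.Agent.LibCHd.red_const v a).mul (h.pow n)

private theorem G3_ff {K : Type} [Field K] [Algebra k K] (hK : FunF k 1 K) :
    Pool.Agent.LibQC8.IsFunctionField k K := by
  obtain ⟨t, ht, h⟩ := hK
  refine ⟨t 0, ht.transcendental 0, ?_⟩
  have h1 : Set.range t = {t 0} := by
    ext z
    simp only [Set.mem_range, Set.mem_singleton_iff]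
    constructor
    · rintro ⟨i, rfl⟩
      rw [Subsingleton.elim i 0]
    · rintro rfl
      exact ⟨0, rfl⟩
  rw [h1] at h
  exact h

private theorem G3_alg_mem [IsAlgClosed k] {M : Type} [Field M] [Algebra k M] {y : M} (hy : IsAlgebraic k y) :
    ∃ y₀ : k, algebraMap k M y₀ = y := by
  have hint : IsIntegral k y := hy.isIntegral
  exact minpoly.mem_range_of_degree_eq_one k y (IsAlgClosed.degree_eq_one_of_irreducible k (minpoly.irreducible hint))

/-- the homomorphism of the residue field `k` of `w` into the one of `v` -/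
private theorem G3_hom [IsAlgClosed k] {M N : Type} [Field M] [Algebra k M] [Field N] [Algebra k N]
    (hs : ∀ w : Place k M, Function.Surjective (algebraMap k (RF w)))
    {i : M →ₐ[k] N} (w : Place k M) {v : Place k N} {e : ℤ} (hv : Ovr i w v e) (t : RF v)
    (htr : Transcendental k t) :
    ∃ j : Pool.Agent.LibHL77.EHom k k (RF w) (RF v),
      (∀ c, j.f (algebraMap k (RF w) c) = algebraMap k (RF v) c) ∧ (∀ x c, Red w x c → Red v (i x) (j.f c)) ∧
      ∀ G : (RF w)[X], G ≠ 0 → G.eval₂ j.f t ≠ 0 := by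
  have hbij : Function.Bijective (algebraMap k (RF w)) := ⟨(algebraMap k (RF w)).injective, hs w⟩
  let ε : k ≃+* RF w := RingEquiv.ofBijective (algebraMap k (RF w)) hbij
  have hε : ∀ c, ε c = algebraMap k (RF w) c := fun c => rfl
  let f : RF w →+* RF v := (algebraMap k (RF v)).comp ε.symm.toRingHom
  have hf : ∀ c, f (algebraMap k (RF w) c) = algebraMap k (RF v) c := by
    intro c
    show algebraMap k (RF v) (ε.symm (algebraMap k (RF w) c)) = algebraMap k (RF v) c
    rw [← hε c, RingEquiv.symm_apply_apply]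
  refine ⟨⟨f, hf⟩, hf, ?_, ?_⟩
  · intro x c hx
    obtain ⟨c₀, rfl⟩ := hs w c
    show Red v (i x) (f _)
    rw [hf]
    exact hv.res x c₀ hx
  · intro G hG h0
    have h1 : G = (G.map (ε.symm : RF w →+* k)).map (algebraMap k (RF w)) := by
      rw [Polynomial.map_map]
      have : (algebraMap k (RF w)).comp (ε.symm : RF w →+* k) = RingHom.id _ := by
        ext c
        exact ε.apply_symm_apply c
      rw [this, Polynomial.map_id]
    have h2 : aeval t (G.map (ε.symm : RF w →+* k)) = 0 := by
      rw [Polynomial.aeval_def, Polynomial.eval₂_map]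
      exact h0
    by_contra
    refine htr ⟨_, ?_, h2⟩
    intro h3
    rw [h3, Polynomial.map_zero] at h1
    exact hG h1

theorem res_k [IsAlgClosed k] {M : Type} [Field M] [Algebra k M] (hM : FunF k 1 M) (w : Place k M) :
    Function.Surjective (algebraMap k (RF w)) := by
  intro y
  obtain ⟨f, hf⟩ := Pool.Agent.LibCHd.exists_rep (v := w) y
  have halg : IsAlgebraic k y := by
    by_contra hy
    have hft : Transcendental k f := by
      rintro ⟨p, hp, hp0⟩
      have h1 := G3_red_aeval hf p
      rw [hp0] at h1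
      exact hy ⟨p, hp, h1.unique (Pool.Agent.LibCHd.red_zero w)⟩
    have := Pool.Agent.LibEnd77.Val8.finite_adjoin (G3_ff hM) hft
    obtain ⟨φ, hφ⟩ := w.exists_uniformizer
    have hA : ∀ a : IntermediateField.adjoin k {f}, w.Reg (algebraMap (IntermediateField.adjoin k {f}) M a) := by
      rintro ⟨a, ha⟩
      obtain ⟨r, s, hrs⟩ := (IntermediateField.mem_adjoin_simple_iff k a).1 ha
      show w.Reg a
      by_cases hs0 : s = 0
      · rw [hrs, hs0, map_zero, div_zero]
        exact Or.inl rfl
      have hsy : aeval y s ≠ 0 := fun h => hy ⟨s, hs0, h⟩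
      rw [hrs]
      exact ((G3_red_aeval hf r).div (G3_red_aeval hf s) hsy).reg
    have hint : IsIntegral (IntermediateField.adjoin k {f}) φ⁻¹ := Algebra.IsIntegral.isIntegral _
    have hreg := Pool.Agent.LibEnd77.Val8.reg_of_integral w hA hint
    have hφ0 : φ ≠ 0 := by
      rintro rfl
      rw [w.ord_zero] at hφ
      exact zero_ne_one hφ
    have h3 := hreg.resolve_left (inv_ne_zero hφ0)
    rw [w.ord_inv] at h3
    omega
  exact G3_alg_mem halg

theorem place_gauss [IsAlgClosed k] {M N : Type} [Field M] [Algebra k M] [Field N] [Algebra k N]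
    (hM : FunF k 1 M) {i : M →ₐ[k] N} {μ : N} (h : Rat1 i μ) (w : Place k M) :
    ∃ (v : Place k N) (t : RF v), Ovr i w v 1 ∧ Red v μ t ∧ Transcendental k t := by
  obtain ⟨v, j, t, hord, hred, ht, htr, _⟩ := Pool.Agent.LibHL77.gauss_exists i μ h.tr h.gen w
  refine ⟨v, t, ⟨one_pos, fun x => by rw [hord, one_mul], fun x c hx => ?_⟩, ht, ?_⟩
  · have := hred x _ hx
    rwa [AlgHom.commutes] at this
  · rintro ⟨p, hp, hp0⟩
    refine htr (p.map (algebraMap k (RF w))) ?_ ?_
    · exact (Polynomial.map_ne_zero_iff (algebraMap k (RF w)).injective).2 hp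
    · rw [Polynomial.eval₂_map]
      have h1 : (j : RF w →+* RF v).comp (algebraMap k (RF w)) = algebraMap k (RF v) := by
        ext c
        exact j.commutes c
      rw [h1]
      exact hp0

theorem gauss_unique [IsAlgClosed k] {M N : Type} [Field M] [Algebra k M] [Field N] [Algebra k N]
    (hM : FunF k 1 M) {i : M →ₐ[k] N} {μ : N} (h : Rat1 i μ) (w : Place k M) {v v' : Place k N} {e e' : ℤ}
    (hv : Ovr i w v e) (hv' : Ovr i w v' e') (t : RF v) (ht : Red v μ t) (htr : Transcendental k t)
    (t' : RF v') (ht' : Red v' μ t') (htr' : Transcendental k t') : e = 1 ∧ v = v' := by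
  obtain ⟨j, _, hj, hG⟩ := G3_hom (fun w => res_k hM w) w hv t htr
  obtain ⟨j', _, hj', hG'⟩ := G3_hom (fun w => res_k hM w) w hv' t' htr'
  let I : Pool.Agent.LibHL77.EHom k k M N := ⟨(i : M →+* N), fun c => i.commutes c⟩
  obtain ⟨he, hP, _⟩ := Pool.Agent.LibHL77.gauss_char I μ h.gen w v e hv.pos hv.ord j hj t ht hG
  obtain ⟨he', hP', _⟩ := Pool.Agent.LibHL77.gauss_char I μ h.gen w v' e' hv'.pos hv'.ord j' hj' t' ht' hG'
  refine ⟨he, Place.ext' fun f => ?_⟩
  obtain ⟨P, Q, hQ, hf⟩ := h.gen f
  by_cases hP0 : P = 0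
  · rw [hf, hP0, Polynomial.eval₂_zero, zero_div, v.ord_zero, v'.ord_zero]
  · obtain ⟨a1, a2⟩ := hP P hP0
    obtain ⟨b1, b2⟩ := hP' P hP0
    obtain ⟨a3, a4⟩ := hP Q hQ
    obtain ⟨b3, b4⟩ := hP' Q hQ
    have e1 : v.ord f = v.ord (P.eval₂ I.f μ) - v.ord (Q.eval₂ I.f μ) := by
      rw [hf]
      exact v.ord_div _ _ a1 a3
    have e2 : v'.ord f = v'.ord (P.eval₂ I.f μ) - v'.ord (Q.eval₂ I.f μ) := by
      rw [hf]
      exact v'.ord_div _ _ a1 a3
    rw [e1, e2, a2, b2, a4, b4]

theorem gauss_gen [IsAlgClosed k] {M N : Type} [Field M] [Algebra k M] [Field N] [Algebra k N]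
    (hM : FunF k 1 M) {i : M →ₐ[k] N} {μ : N} (h : Rat1 i μ) (w : Place k M) {v : Place k N} {e : ℤ}
    (hv : Ovr i w v e) (t : RF v) (ht : Red v μ t) (htr : Transcendental k t) :
    IntermediateField.adjoin k {t} = ⊤ ∧ FunF k 1 (RF v) := by
  obtain ⟨j, hjc, hj, hG⟩ := G3_hom (fun w => res_k hM w) w hv t htr
  let I : Pool.Agent.LibHL77.EHom k k M N := ⟨(i : M →+* N), fun c => i.commutes c⟩
  obtain ⟨_, _, hgen⟩ := Pool.Agent.LibHL77.gauss_char I μ h.gen w v e hv.pos hv.ord j hj t ht hG
  have hev : ∀ P : (RF w)[X], P.eval₂ j.f t ∈ IntermediateField.adjoin k {t} := by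
    intro P
    rw [Polynomial.eval₂_eq_sum_range]
    refine sum_mem fun n _ => mul_mem ?_ (pow_mem (IntermediateField.mem_adjoin_simple_self k t) n)
    obtain ⟨c, hc⟩ := res_k hM w (P.coeff n)
    rw [← hc, hjc]
    exact IntermediateField.algebraMap_mem _ c
  have htop : IntermediateField.adjoin k {t} = ⊤ := by
    rw [eq_top_iff]
    intro z _
    obtain ⟨P, Q, _, rfl⟩ := hgen z
    exact div_mem (hev P) (hev Q)
  refine ⟨htop, fun _ => t, ?_, ?_⟩
  · rw [algebraicIndependent_unique_type_iff]
    exact htr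
  · have h1 : Set.range (fun _ : Fin 1 => t) = {t} := Set.range_const
    rw [h1, htop]
    exact Module.finite_of_finrank_pos (by rw [IntermediateField.finrank_top]; exact one_pos)

/-- a place of `N` is trivial on `M` or lies over a place of `M` -/
theorem place_dich [IsAlgClosed k] {M N : Type} [Field M] [Algebra k M] [Field N] [Algebra k N]
    (hM : FunF k 1 M) (i : M →ₐ[k] N) (v : Place k N) :
    (∀ x, v.ord (i x) = 0) ∨ ∃ (w : Place k M) (e : ℤ), Ovr i w v e := by
  by_cases hx : ∀ x, v.ord (i x) = 0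
  · exact Or.inl hx
  · push Not at hx
    obtain ⟨x₀, hx₀⟩ := hx
    obtain ⟨w, e, he, hw⟩ := Pool.Agent.LibCHd.exists_restrict i v x₀ hx₀
    refine Or.inr ⟨w, e, by exact_mod_cast he, hw, ?_⟩
    intro x c hx
    rw [Pool.Agent.LibCHd.red_iff_val] at hx ⊢
    rw [← i.commutes c, ← map_sub]
    rcases hx with hx | hx
    · left
      rw [hx, map_zero]
    · right
      rw [hw]
      have : (0 : ℤ) < e := by exact_mod_cast he
      positivity

end Pool.Agent.LibCW77
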