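import Pool.Agent.LibCW77.Defs3
import Pool.Agent.LibCW77.T0
/-!
[CW77 T3] Lifts exist. Plan: `exists_poly` for `X' = R Y`, `Y' = Y` (relations `r1`, `r2`) gives `p ≠ 0` of degree `≤ 3` over `M`; let `M'` be a
finite extension of `M` (in the algebraic closure: `IntermediateField.adjoin` of the roots and of `n`-th roots, or two times
`Polynomial.SplittingField`; `M'` must be in `Type`) in which `p` splits and the needed `n`-th roots exist. `exists_roots`: `x_j`, factor `l`; all
`ev x_j (a_i)`, `ev x_j (b_i)` are `≠ 0`. `v_0`, `v_1` with `v_j ^ n = ∏ ev x_j (a_i) / ∏ ev x_j (b_i)`, `v_2 := u / (v_0 v_1)`;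
`v_2 ^ n` is right by `un`. `onC_of_prod`.
-/

open scoped Classical
open Polynomial

namespace Pool.Agent.LibCW77

open Pool.Agent.LibBH2
open Pool.Agent.LibCHd (VR RF Red FunF)

variable {k : Type} [Field k]

private theorem T3_ev_map {M M' : Type} [Field M] [Field M'] (g : M →+* M') (x : Option M) (t : M) :
    ev (x.map g) (g t) = g (ev x t) := by
  cases x with
  | none => simp [ev]
  | some x => simp [ev]

private theorem T3_poly {M : Type} [Field M] {c : Dat M} (hc : c.Good) (z : Zp M) (hz : IsZ c z) :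
    ∃ p : M[X], p ≠ 0 ∧ p.natDegree ≤ 3 ∧ ∀ i, p.eval (c.a i) = z.R i * z.Y i ∧
      p.eval (c.b i) = z.Y i := by
  obtain ⟨p, hp, h⟩ := exists_poly hc (fun i => z.R i * z.Y i) z.Y (by
    rw [← hz.r1]
    refine Finset.sum_congr rfl fun i _ => ?_
    unfold cA
    ring) (by
    rw [← hz.r2]
    refine Finset.sum_congr rfl fun i _ => ?_
    unfold cB
    ring)
  refine ⟨p, ?_, hp, h⟩
  rintro rfl
  have h0 := (h 0).2
  rw [Polynomial.eval_zero] at h0
  exact hz.Y0 0 h0.symm

/-- The lift over the algebraic closure. -/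
private theorem T3_closed {M Ω : Type} [Field M] [Field Ω] [IsAlgClosed Ω] (f : M →+* Ω) {c : Dat M}
    (hc : c.Good) (z : Zp M) (hz : IsZ c z) :
    ∃ (x : Fin 3 → Option Ω) (v : Fin 3 → Ω) (l : Ω), l ≠ 0 ∧
      (∀ i, ∏ j, ev (x j) (f (c.a i)) = l * f (z.R i * z.Y i)) ∧
      (∀ i, ∏ j, ev (x j) (f (c.b i)) = l * f (z.Y i)) ∧
      (∀ j, v j ^ c.n * ∏ i, ev (x j) (f (c.b i)) = ∏ i, ev (x j) (f (c.a i))) ∧
      ∏ j, v j = f z.u := by
  obtain ⟨p, hp0, hp3, hp⟩ := T3_poly hc z hz
  obtain ⟨x, l, hl, hx⟩ := exists_roots (p.map f) ((Polynomial.map_ne_zero_iff f.injective).mpr hp0)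
    (by rw [Polynomial.natDegree_map]; exact hp3) (IsAlgClosed.splits _)
  have hA : ∀ i, ∏ j, ev (x j) (f (c.a i)) = l * f (z.R i * z.Y i) := fun i => by
    rw [hx, Polynomial.eval_map_apply, (hp i).1]
  have hB : ∀ i, ∏ j, ev (x j) (f (c.b i)) = l * f (z.Y i) := fun i => by
    rw [hx, Polynomial.eval_map_apply, (hp i).2]
  have hf : ∀ t : M, t ≠ 0 → f t ≠ 0 := fun t ht h => ht (f.injective (by rw [h, map_zero]))
  have hA0 : ∀ i j, ev (x j) (f (c.a i)) ≠ 0 := fun i j h => by
    have h1 : ∏ j, ev (x j) (f (c.a i)) = 0 := Finset.prod_eq_zero (Finset.mem_univ j) h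
    rw [hA] at h1
    exact mul_ne_zero hl (hf _ (mul_ne_zero (hz.R0 i) (hz.Y0 i))) h1
  have hB0 : ∀ i j, ev (x j) (f (c.b i)) ≠ 0 := fun i j h => by
    have h1 : ∏ j, ev (x j) (f (c.b i)) = 0 := Finset.prod_eq_zero (Finset.mem_univ j) h
    rw [hB] at h1
    exact mul_ne_zero hl (hf _ (hz.Y0 i)) h1
  have hA1 : ∀ j, ∏ i, ev (x j) (f (c.a i)) ≠ 0 := fun j =>
    Finset.prod_ne_zero_iff.mpr fun i _ => hA0 i j
  have hB1 : ∀ j, ∏ i, ev (x j) (f (c.b i)) ≠ 0 := fun j =>
    Finset.prod_ne_zero_iff.mpr fun i _ => hB0 i j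
  have hn : 0 < c.n := lt_of_lt_of_le (by norm_num) hc.two
  obtain ⟨v0, hv0⟩ := IsAlgClosed.exists_pow_nat_eq
    ((∏ i, ev (x 0) (f (c.a i))) / ∏ i, ev (x 0) (f (c.b i))) hn
  obtain ⟨v1, hv1⟩ := IsAlgClosed.exists_pow_nat_eq
    ((∏ i, ev (x 1) (f (c.a i))) / ∏ i, ev (x 1) (f (c.b i))) hn
  have h00 : v0 ≠ 0 := by
    rintro rfl
    rw [zero_pow hn.ne'] at hv0
    exact div_ne_zero (hA1 0) (hB1 0) hv0.symm
  have h10 : v1 ≠ 0 := by
    rintro rfl
    rw [zero_pow hn.ne'] at hv1
    exact div_ne_zero (hA1 1) (hB1 1) hv1.symm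
  have hprod : (∏ j, ∏ i, ev (x j) (f (c.a i))) = f z.u ^ c.n * ∏ j, ∏ i, ev (x j) (f (c.b i)) := by
    rw [Finset.prod_comm, Finset.prod_comm (f := fun j i => ev (x j) (f (c.b i)))]
    rw [Finset.prod_congr rfl fun i _ => hA i, Finset.prod_congr rfl fun i _ => hB i]
    rw [← map_pow, hz.un, map_prod, ← Finset.prod_mul_distrib]
    refine Finset.prod_congr rfl fun i _ => ?_
    rw [map_mul]
    ring
  refine ⟨x, ![v0, v1, f z.u / (v0 * v1)], l, hl, hA, hB, fun j => ?_, ?_⟩
  · fin_cases j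
    · show v0 ^ c.n * ∏ i, ev (x 0) (f (c.b i)) = ∏ i, ev (x 0) (f (c.a i))
      rw [hv0, div_mul_cancel₀ _ (hB1 0)]
    · show v1 ^ c.n * ∏ i, ev (x 1) (f (c.b i)) = ∏ i, ev (x 1) (f (c.a i))
      rw [hv1, div_mul_cancel₀ _ (hB1 1)]
    · show (f z.u / (v0 * v1)) ^ c.n * ∏ i, ev (x 2) (f (c.b i)) = ∏ i, ev (x 2) (f (c.a i))
      rw [div_pow, mul_pow, hv0, hv1]
      rw [Fin.prod_univ_three (fun j => ∏ i, ev (x j) (f (c.a i))),
        Fin.prod_univ_three (fun j => ∏ i, ev (x j) (f (c.b i)))] at hprod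
      have a0 := hA1 0
      have a1 := hA1 1
      have b0 := hB1 0
      have b1 := hB1 1
      set A0 := ∏ i, ev (x 0) (f (c.a i))
      set A1 := ∏ i, ev (x 1) (f (c.a i))
      set A2 := ∏ i, ev (x 2) (f (c.a i))
      set B0 := ∏ i, ev (x 0) (f (c.b i))
      set B1 := ∏ i, ev (x 1) (f (c.b i))
      set B2 := ∏ i, ev (x 2) (f (c.b i))
      rw [div_mul_eq_mul_div, div_eq_iff (mul_ne_zero (div_ne_zero a0 b0) (div_ne_zero a1 b1))]
      have e : A2 * (A0 / B0 * (A1 / B1)) = (A0 * A1 * A2) / (B0 * B1) := by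
        rw [div_mul_div_comm, mul_div_assoc', mul_comm A2]
      rw [e, hprod, eq_div_iff (mul_ne_zero b0 b1)]
      ring
  · rw [Fin.prod_univ_three]
    show v0 * v1 * (f z.u / (v0 * v1)) = f z.u
    rw [mul_div_cancel₀ _ (mul_ne_zero h00 h10)]

private theorem T3_core {M : Type} [Field M] {c : Dat M} (hc : c.Good) (z : Zp M) (hz : IsZ c z) :
    ∃ (M' : Type) (_ : Field M') (_ : Algebra M M') (P : Pnt 3 M'), FiniteDimensional M M' ∧
      IsLift (c.map (algebraMap M M')) (z.map (algebraMap M M')) P := by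
  obtain ⟨x, v, l, hl, hA, hB, hv, hu⟩ :=
    T3_closed (algebraMap M (AlgebraicClosure M)) hc z hz
  let S : Set (AlgebraicClosure M) :=
    Set.range (fun j => (x j).getD 0) ∪ Set.range v ∪ {l}
  have hS : S.Finite := ((Set.finite_range _).union (Set.finite_range _)).union
    (Set.finite_singleton _)
  let K := IntermediateField.adjoin M S
  have hfin : FiniteDimensional M K := by
    haveI : Finite S := hS
    exact IntermediateField.finiteDimensional_adjoin fun y _ =>
      (Algebra.IsAlgebraic.isAlgebraic (R := M) y).isIntegral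
  have hmem : ∀ y ∈ S, y ∈ K := fun y hy => IntermediateField.subset_adjoin M S hy
  have hx : ∀ j, ∃ x' : Option K, x'.map (algebraMap K (AlgebraicClosure M)) = x j := by
    intro j
    rcases hj : x j with _ | t
    · exact ⟨none, rfl⟩
    · refine ⟨some ⟨t, hmem t (Or.inl (Or.inl ⟨j, ?_⟩))⟩, rfl⟩
      show (x j).getD 0 = t
      rw [hj]
      rfl
  choose x' hx' using hx
  let v' : Fin 3 → K := fun j => ⟨v j, hmem _ (Or.inl (Or.inr ⟨j, rfl⟩))⟩
  let l' : K := ⟨l, hmem _ (Or.inr rfl)⟩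
  have hinj : Function.Injective (algebraMap K (AlgebraicClosure M)) :=
    (algebraMap K (AlgebraicClosure M)).injective
  have hT : ∀ t : M, algebraMap K (AlgebraicClosure M) (algebraMap M K t) =
      algebraMap M (AlgebraicClosure M) t := fun t => rfl
  have hev : ∀ (j : Fin 3) (t : M), algebraMap K (AlgebraicClosure M) (ev (x' j) (algebraMap M K t)) =
      ev (x j) (algebraMap M (AlgebraicClosure M) t) := fun j t => by
    rw [← T3_ev_map, hx', hT]
  refine ⟨K, inferInstance, inferInstance, fun j => ![x' j, some (v' j)], hfin, ?_, ?_, ?_⟩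
  · intro j
    show OnC (c.map (algebraMap M K)) (x' j) (some (v' j))
    refine onC_of_prod _ _ (hinj ?_)
    rw [map_mul, map_pow, map_prod, map_prod]
    show v j ^ c.n * ∏ i, algebraMap K (AlgebraicClosure M) (ev (x' j) (algebraMap M K (c.b i))) =
      ∏ i, algebraMap K (AlgebraicClosure M) (ev (x' j) (algebraMap M K (c.a i)))
    rw [Finset.prod_congr rfl fun i _ => hev j (c.b i),
      Finset.prod_congr rfl fun i _ => hev j (c.a i)]
    exact hv j
  · refine ⟨l', fun h => hl ?_, fun i => ⟨hinj ?_, hinj ?_⟩⟩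
    · have := congrArg (algebraMap K (AlgebraicClosure M)) h
      rw [map_zero] at this
      exact this
    · show algebraMap K (AlgebraicClosure M) (∏ j, ev (x' j) (algebraMap M K (c.a i))) =
        algebraMap K (AlgebraicClosure M) (l' * (algebraMap M K (z.R i) * algebraMap M K (z.Y i)))
      rw [map_prod, Finset.prod_congr rfl fun j _ => hev j (c.a i), hA i, map_mul, map_mul, map_mul,
        hT, hT]
      rfl
    · show algebraMap K (AlgebraicClosure M) (∏ j, ev (x' j) (algebraMap M K (c.b i))) =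
        algebraMap K (AlgebraicClosure M) (l' * algebraMap M K (z.Y i))
      rw [map_prod, Finset.prod_congr rfl fun j _ => hev j (c.b i), hB i, map_mul, hT]
      rfl
  · refine ⟨v', fun j => rfl, hinj ?_⟩
    show algebraMap K (AlgebraicClosure M) (∏ j, v' j) =
      algebraMap K (AlgebraicClosure M) (algebraMap M K z.u)
    rw [map_prod, hT, ← hu]
    rfl

theorem exists_lift {c : Dat k} (hc : c.Good) {M : Type} [Field M] [Algebra k M] (z : Zp M)
    (hz : IsZ (c.over M) z) :
    ∃ (M' : Type) (_ : Field M') (_ : Algebra k M') (i : M →ₐ[k] M') (P : Pnt 3 M'),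
      Module.finrank i.fieldRange M' ≠ 0 ∧ IsLift (c.over M') (z.map i) P := by
  obtain ⟨M', fM, aM, P, hfin, hP⟩ := T3_core (good_map hc) z hz
  letI : Algebra k M' := ((algebraMap M M').comp (algebraMap k M)).toAlgebra
  let i : M →ₐ[k] M' := { toRingHom := algebraMap M M', commutes' := fun _ => rfl }
  refine ⟨M', fM, inferInstance, i, P, ?_, hP⟩
  haveI : Module.Finite i.fieldRange M' := by
    obtain ⟨s, hs⟩ := (inferInstance : Module.Finite M M')
    refine ⟨⟨s, ?_⟩⟩
    rw [eq_top_iff]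
    intro y _
    have hy : y ∈ Submodule.span M (s : Set M') := by rw [hs]; trivial
    induction hy using Submodule.span_induction with
    | mem x hx => exact Submodule.subset_span hx
    | zero => exact Submodule.zero_mem _
    | add x y _ _ hx hy => exact Submodule.add_mem _ (hx trivial) (hy trivial)
    | smul a x _ hx =>
      have h1 : a • x = (⟨i a, a, rfl⟩ : i.fieldRange) • x := by
        rw [Algebra.smul_def]
        rfl
      rw [h1]
      exact Submodule.smul_mem _ _ (hx trivial)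
  exact Module.finrank_pos.ne'

end Pool.Agent.LibCW77
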