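import Pool.Agent.LibCW77.Defs3
import Pool.Agent.LibCW77.T2
import Pool.Agent.LibCW77.T3
import Pool.Agent.LibCW77.T4
import Pool.Agent.LibCW77.T5
/-!
[CW77 T7] The class of a Z-point. `TZ_spec`: the condition in the definition of `TZ` holds for `t = q (mns P₀) / finrank` where `P₀` is a lift over `M₀`
(`exists_lift`): for another lift `P` over `M'` take a common extension (`common_ext`), there the two lifts are conjugate (`lifts_conj`), so
their `mns` agree (`mns_conj`), and `mns_map`, `finrank_trans`. Then `TZ_spec` is `choose_spec`. `TZ_map`: `lift_map` and `TZ_spec`.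
`TZ_scale`: a lift of `z` is a lift of the scaled Z-point. `TZ_cst`: the coordinates of a lift are algebraic over `k` (the roots of a
polynomial with algebraic coefficients up to a factor), `mns_alg`. `TZ_zpt`: `zpt_lift`.
-/

open scoped Classical
open Polynomial

namespace Pool.Agent.LibCW77

open Pool.Agent.LibBH2
open Pool.Agent.LibCHd (VR RF Red FunF)

variable {k : Type} [Field k]

variable {V : Type} [AddCommGroup V] [Module ℚ V]

private theorem T7_cancel {n : ℕ} (hn : n ≠ 0) {x y : V} (h : n • x = n • y) : x = y := by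
  have h1 : (n : ℚ) • x = (n : ℚ) • y := by
    rw [Nat.cast_smul_eq_nsmul, Nat.cast_smul_eq_nsmul]
    exact h
  have h2 : (n : ℚ) ≠ 0 := by exact_mod_cast hn
  have h3 := congrArg (fun t => (n : ℚ)⁻¹ • t) h1
  simpa [smul_smul, inv_mul_cancel₀ h2] using h3

private theorem T7_map_comp {M M' M'' : Type} (f : M → M') (g : M' → M'') (z : Zp M) :
    (z.map f).map g = z.map (g ∘ f) := rfl

private theorem T7_key [IsAlgClosed k] {c : Dat k} (hc : c.Good) {ζ : k} (hζ : IsPrimitiveRoot ζ c.n)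
    (q : CH c 3 1 →+ V) {M : Type} [Field M] [Algebra k M] {z : Zp M} (hz : IsZ (c.over M) z)
    {M₁ : Type} [Field M₁] [Algebra k M₁] (i₁ : M →ₐ[k] M₁) (P₁ : Pnt 3 M₁)
    (h₁ : Module.finrank i₁.fieldRange M₁ ≠ 0) (hP₁ : IsLift (c.over M₁) (z.map i₁) P₁)
    {M₂ : Type} [Field M₂] [Algebra k M₂] (i₂ : M →ₐ[k] M₂) (P₂ : Pnt 3 M₂)
    (h₂ : Module.finrank i₂.fieldRange M₂ ≠ 0) (hP₂ : IsLift (c.over M₂) (z.map i₂) P₂) :
    Module.finrank i₁.fieldRange M₁ • q (mns c ζ P₂) = Module.finrank i₂.fieldRange M₂ • q (mns c ζ P₁) := by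
  obtain ⟨N, _, _, j₁, j₂, hj, hj₁, hj₂⟩ := common_ext i₁ i₂ h₁ h₂
  have hL₁ := lift_map j₁ hP₁
  have hL₂ := lift_map j₂ hP₂
  have hzz : (z.map i₁).map j₁ = z.map (j₁.comp i₁) := rfl
  have hzz' : (z.map i₂).map j₂ = z.map (j₁.comp i₁) := by
    rw [hj]
    rfl
  rw [hzz] at hL₁
  rw [hzz'] at hL₂
  have hzN : IsZ (c.over N) (z.map (j₁.comp i₁)) := (isZ_map _).2 hz
  obtain ⟨σ, w, hw, hP⟩ := lifts_conj hc hzN hL₁ hL₂
  have h3 : mns c ζ (mpP j₂ P₂) = mns c ζ (mpP j₁ P₁) := by
    rw [hP]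
    exact mns_conj hc hζ _ σ w hw
  rw [mns_map, mns_map] at h3
  have h4 := congrArg q h3
  rw [map_zsmul, map_zsmul, natCast_zsmul, natCast_zsmul] at h4
  have h5 := finrank_trans i₁ j₁
  have h6 := finrank_trans i₂ j₂
  rw [hj] at h5
  rw [h6] at h5
  refine T7_cancel hj₂ ?_
  calc Module.finrank j₂.fieldRange N • (Module.finrank i₁.fieldRange M₁ • q (mns c ζ P₂))
      = Module.finrank i₁.fieldRange M₁ • (Module.finrank j₂.fieldRange N • q (mns c ζ P₂)) := by
        rw [smul_smul, smul_smul, mul_comm]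
    _ = Module.finrank i₁.fieldRange M₁ • (Module.finrank j₁.fieldRange N • q (mns c ζ P₁)) := by rw [h4]
    _ = (Module.finrank i₂.fieldRange M₂ * Module.finrank j₂.fieldRange N) • q (mns c ζ P₁) := by
        rw [smul_smul, h5]
    _ = Module.finrank j₂.fieldRange N • (Module.finrank i₂.fieldRange M₂ • q (mns c ζ P₁)) := by
        rw [smul_smul, mul_comm]

private theorem T7_exists [IsAlgClosed k] {c : Dat k} (hc : c.Good) {ζ : k} (hζ : IsPrimitiveRoot ζ c.n)
    (q : CH c 3 1 →+ V) {M : Type} [Field M] [Algebra k M] {z : Zp M} (hz : IsZ (c.over M) z) :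
    ∃ t : V, ∀ (M' : Type) (_ : Field M') (_ : Algebra k M') (i : M →ₐ[k] M') (P : Pnt 3 M'),
      Module.finrank i.fieldRange M' ≠ 0 → IsLift (c.over M') (z.map i) P →
      q (mns c ζ P) = Module.finrank i.fieldRange M' • t := by
  obtain ⟨M₀, _, _, i₀, P₀, h₀, hP₀⟩ := exists_lift hc z hz
  have h00 : ((Module.finrank i₀.fieldRange M₀ : ℕ) : ℚ) ≠ 0 := by exact_mod_cast h₀
  refine ⟨((Module.finrank i₀.fieldRange M₀ : ℕ) : ℚ)⁻¹ • q (mns c ζ P₀), ?_⟩
  intro M' _ _ i P hfin hP
  have hk := T7_key hc hζ q hz i₀ P₀ h₀ hP₀ i P hfin hP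
  refine T7_cancel h₀ ?_
  rw [hk, smul_smul, mul_comm, ← smul_smul]
  congr 1
  rw [← Nat.cast_smul_eq_nsmul ℚ (Module.finrank i₀.fieldRange M₀), smul_smul, mul_inv_cancel₀ h00, one_smul]

private theorem T7_ev_self {M : Type} [Field M] (x : M) : ev (some x) x = 0 := by
  simp [ev]

private theorem T7_interp {nod : Fin 3 ⊕ Fin 3 → k} (hnod : Function.Injective nod) (val : Fin 3 ⊕ Fin 3 → k) :
    ∃ p : k[X], p.degree < (6 : ℕ) ∧ ∀ s, p.eval (nod s) = val s := by
  have hinj : Set.InjOn nod (Finset.univ : Finset (Fin 3 ⊕ Fin 3)) := hnod.injOn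
  refine ⟨Lagrange.interpolate Finset.univ nod val, ?_,
    fun s => Lagrange.eval_interpolate_at_node val hinj (Finset.mem_univ s)⟩
  have := Lagrange.degree_interpolate_lt val hinj
  have hcard : (Finset.univ : Finset (Fin 3 ⊕ Fin 3)).card = 6 := by simp
  rwa [hcard] at this

private theorem T7_eq6 {M : Type} [Field M] {nod : Fin 3 ⊕ Fin 3 → M} (hnod : Function.Injective nod) (p q : M[X])
    (hp : p.degree < (6 : ℕ)) (hq : q.degree < (6 : ℕ)) (h : ∀ s, p.eval (nod s) = q.eval (nod s)) : p = q := by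
  have hinj : Set.InjOn nod (Finset.univ : Finset (Fin 3 ⊕ Fin 3)) := hnod.injOn
  have hcard : (Finset.univ : Finset (Fin 3 ⊕ Fin 3)).card = 6 := by simp
  refine Polynomial.eq_of_degrees_lt_of_eval_index_eq Finset.univ hinj ?_ ?_ (fun s _ => h s)
  · rwa [hcard]
  · rwa [hcard]

private theorem T7_alg_mem [IsAlgClosed k] {M : Type} [Field M] [Algebra k M] {y : M} (hy : IsAlgebraic k y) :
    ∃ y₀ : k, algebraMap k M y₀ = y := by
  have hint : IsIntegral k y := hy.isIntegral
  exact minpoly.mem_range_of_degree_eq_one k y (IsAlgClosed.degree_eq_one_of_irreducible k (minpoly.irreducible hint))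

/-- a point with the values of a constant `Z`-point has algebraic coordinates `x` -/
private theorem T7_alg_x [IsAlgClosed k] {c : Dat k} (hc : c.Good) {M : Type} [Field M] [Algebra k M]
    {z : Zp M} (hz : IsZ (c.over M) z) (h : CstZ k z) {P : Pnt 3 M} (hP : IsLift (c.over M) z P)
    (j : Fin 3) (x : M) (hx : P j 0 = some x) : IsAlgebraic k x := by
  obtain ⟨l, hl, hval⟩ := hP.val
  obtain ⟨p, hp0, hp3, hpe⟩ := ev_prod (fun j => P j 0)
  choose r hr using fun i => T7_alg_mem (h.R i)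
  choose y hy using fun i => T7_alg_mem (h.Y i 0)
  obtain ⟨p₀, hdeg₀, hp₀⟩ := T7_interp hc.inj (Sum.elim (fun i => r i * y i) y)
  have hm : l * z.Y 0 ≠ 0 := mul_ne_zero hl (hz.Y0 0)
  have hy0 := hz.Y0 0
  have hpp : p = Polynomial.C (l * z.Y 0) * p₀.map (algebraMap k M) := by
    have hinj : Function.Injective (fun s => algebraMap k M (Sum.elim c.a c.b s)) :=
      (algebraMap k M).injective.comp hc.inj
    refine T7_eq6 hinj _ _ ?_ ?_ ?_
    · have h1 : p.degree ≤ (3 : ℕ) := Polynomial.degree_le_of_natDegree_le hp3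
      refine lt_of_le_of_lt h1 ?_
      exact_mod_cast (by norm_num : (3 : ℕ) < 6)
    · refine lt_of_le_of_lt ?_ hdeg₀
      rw [Polynomial.degree_C_mul hm]
      exact Polynomial.degree_map_le
    · intro s
      have hmap : (p₀.map (algebraMap k M)).eval (algebraMap k M (Sum.elim c.a c.b s)) =
          algebraMap k M (Sum.elim (fun i => r i * y i) y s) := by
        rw [← hp₀ s, Polynomial.eval_map, Polynomial.eval₂_at_apply]
      rw [Polynomial.eval_mul, Polynomial.eval_C, hmap, hpe]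
      rcases s with i | i
      · have h3 : ∏ j, ev (P j 0) (algebraMap k M (c.a i)) = l * (z.R i * z.Y i) := (hval i).1
        show ∏ j, ev (P j 0) (algebraMap k M (c.a i)) = l * z.Y 0 * algebraMap k M (r i * y i)
        rw [h3, map_mul, hr, hy]
        field_simp
      · have h3 : ∏ j, ev (P j 0) (algebraMap k M (c.b i)) = l * z.Y i := (hval i).2
        show ∏ j, ev (P j 0) (algebraMap k M (c.b i)) = l * z.Y 0 * algebraMap k M (y i)
        rw [h3, hy]
        field_simp
  refine ⟨p₀, ?_, ?_⟩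
  · intro h0
    rw [h0] at hpp
    exact hp0 (by rw [hpp, Polynomial.map_zero, mul_zero])
  · have h1 : p.eval x = 0 := by
      rw [hpe]
      exact Finset.prod_eq_zero (Finset.mem_univ j) (by rw [hx]; exact T7_ev_self x)
    rw [hpp, Polynomial.eval_mul, Polynomial.eval_C, Polynomial.eval_map_algebraMap] at h1
    exact (mul_eq_zero.1 h1).resolve_left hm

private theorem T7_ev_zero {M : Type} [Field M] {o : Option M} {a : M} (h : ev o a = 0) : o = some a := by
  cases o with
  | none => exact absurd h (by simp [ev])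
  | some x =>
    have : a - x = 0 := h
    rw [sub_eq_zero.1 this]

private theorem T7_alg_ev {M : Type} [Field M] [Algebra k M] (o : Option M) (a : k)
    (h : ∀ x, o = some x → IsAlgebraic k x) : IsAlgebraic k (ev o (algebraMap k M a)) := by
  cases o with
  | none => exact isAlgebraic_one
  | some x => exact (isAlgebraic_algebraMap a).sub (h x rfl)

private theorem T7_alg_v {c : Dat k} (hc : c.Good) {M : Type} [Field M] [Algebra k M]
    {P : Pnt 3 M} (hP : On (c.over M) P) (hr : ¬ Ram P)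
    (j : Fin 3) (h : ∀ x, P j 0 = some x → IsAlgebraic k x) (y : M) (hy : P j 1 = some y) : IsAlgebraic k y := by
  have h1 := onC_prod (good_map hc) (hP j) y hy
  have hn : (c.over M).n = c.n := rfl
  rw [hn] at h1
  have hy0 : y ≠ 0 := by
    intro h0
    exact hr ⟨j, Or.inr (by rw [hy, h0])⟩
  have hA : IsAlgebraic k (∏ i, ev (P j 0) ((c.over M).a i)) := by
    refine (IsIntegral.prod (s := Finset.univ) (fun i => ev (P j 0) ((c.over M).a i)) ?_).isAlgebraic
    intro i _
    exact (T7_alg_ev _ _ h).isIntegral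
  have hB : IsAlgebraic k (∏ i, ev (P j 0) ((c.over M).b i)) := by
    refine (IsIntegral.prod (s := Finset.univ) (fun i => ev (P j 0) ((c.over M).b i)) ?_).isAlgebraic
    intro i _
    exact (T7_alg_ev _ _ h).isIntegral
  have hB0 : ∏ i, ev (P j 0) ((c.over M).b i) ≠ 0 := by
    intro h0
    rw [h0, mul_zero] at h1
    obtain ⟨i, _, hi⟩ := Finset.prod_eq_zero_iff.1 h0
    obtain ⟨i', _, hi'⟩ := Finset.prod_eq_zero_iff.1 h1.symm
    have e1 := T7_ev_zero hi
    have e2 := T7_ev_zero hi'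
    rw [e1] at e2
    have e3 : Sum.elim (c.over M).a (c.over M).b (Sum.inr i) = Sum.elim (c.over M).a (c.over M).b (Sum.inl i') :=
      Option.some.inj e2
    exact absurd ((good_map hc).inj e3) (by simp)
  have h2 : y ^ c.n = (∏ i, ev (P j 0) ((c.over M).a i)) / (∏ i, ev (P j 0) ((c.over M).b i)) := by
    rw [eq_div_iff hB0, h1]
  have h3 : IsAlgebraic k (y ^ c.n) := by
    rw [h2, div_eq_mul_inv]
    exact hA.mul hB.inv
  have hn2 := hc.two
  exact IsAlgebraic.of_pow (by omega) h3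

theorem TZ_spec [IsAlgClosed k] [CharZero k] {c : Dat k} (hc : c.Good) {ζ : k} (hζ : IsPrimitiveRoot ζ c.n)
    (q : CH c 3 1 →+ V) {M : Type} [Field M] [Algebra k M] {z : Zp M} (hz : IsZ (c.over M) z)
    {M' : Type} [Field M'] [Algebra k M'] (i : M →ₐ[k] M') (P : Pnt 3 M')
    (hfin : Module.finrank i.fieldRange M' ≠ 0) (hP : IsLift (c.over M') (z.map i) P) :
    q (mns c ζ P) = Module.finrank i.fieldRange M' • TZ c ζ q z := by
  have hex := T7_exists hc hζ q hz
  have h1 := hex.choose_spec M' _ _ i P hfin hP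
  rw [h1]
  unfold TZ
  rw [dif_pos hex]

theorem TZ_map [IsAlgClosed k] [CharZero k] {c : Dat k} (hc : c.Good) {ζ : k} (hζ : IsPrimitiveRoot ζ c.n)
    (q : CH c 3 1 →+ V) {M : Type} [Field M] [Algebra k M] {z : Zp M} (hz : IsZ (c.over M) z)
    {M' : Type} [Field M'] [Algebra k M'] (i : M →ₐ[k] M') (hfin : Module.finrank i.fieldRange M' ≠ 0) :
    TZ c ζ q (z.map i) = Module.finrank i.fieldRange M' • TZ c ζ q z := by
  have hz' : IsZ (c.over M') (z.map i) := (isZ_map i).2 hz
  obtain ⟨M₀, _, _, j, P, h₀, hP⟩ := exists_lift hc (z.map i) hz'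
  have h1 := TZ_spec hc hζ q hz' j P h₀ hP
  have hft := finrank_trans i j
  have h2 := TZ_spec hc hζ q hz (j.comp i) P (by rw [hft]; exact mul_ne_zero hfin h₀) hP
  rw [h1, hft, mul_comm, ← smul_smul] at h2
  exact T7_cancel h₀ h2

theorem TZ_scale [IsAlgClosed k] [CharZero k] {c : Dat k} (hc : c.Good) {ζ : k} (hζ : IsPrimitiveRoot ζ c.n)
    (q : CH c 3 1 →+ V) {M : Type} [Field M] [Algebra k M] {z z' : Zp M} (hz : IsZ (c.over M) z)
    (hR : z'.R = z.R) (hu : z'.u = z.u) (l : M) (hl : l ≠ 0) (hY : ∀ i, z'.Y i = l * z.Y i) :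
    TZ c ζ q z' = TZ c ζ q z := by
  have hz' : IsZ (c.over M) z' := by
    refine ⟨?_, ?_, ?_, ?_, ?_, ?_⟩
    · intro i
      rw [hR]
      exact hz.R0 i
    · intro i
      rw [hY]
      exact mul_ne_zero hl (hz.Y0 i)
    · rw [hu]
      exact hz.u0
    · rw [hu, hR]
      exact hz.un
    · have := hz.r1
      rw [hR]
      calc ∑ i, cA (c.over M) z.R i * z'.Y i = l * ∑ i, cA (c.over M) z.R i * z.Y i := by
            rw [Finset.mul_sum]
            refine Finset.sum_congr rfl fun i _ => ?_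
            rw [hY]
            ring
        _ = 0 := by rw [this, mul_zero]
    · have := hz.r2
      rw [hR]
      calc ∑ i, cB (c.over M) z.R i * z'.Y i = l * ∑ i, cB (c.over M) z.R i * z.Y i := by
            rw [Finset.mul_sum]
            refine Finset.sum_congr rfl fun i _ => ?_
            rw [hY]
            ring
        _ = 0 := by rw [this, mul_zero]
  obtain ⟨M₀, _, _, i₀, P₀, h₀, hP₀⟩ := exists_lift hc z hz
  have h1 := TZ_spec hc hζ q hz i₀ P₀ h₀ hP₀
  have hP' : IsLift (c.over M₀) (z'.map i₀) P₀ := by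
    obtain ⟨m, hm, hmv⟩ := hP₀.val
    have hil : i₀ l ≠ 0 := by
      intro h
      exact hl ((map_eq_zero i₀).1 h)
    refine ⟨hP₀.on, ⟨m * (i₀ l)⁻¹, mul_ne_zero hm (inv_ne_zero hil), ?_⟩, ?_⟩
    · intro i
      obtain ⟨e1, e2⟩ := hmv i
      have hYi : (z'.map i₀).Y i = i₀ l * (z.map i₀).Y i := by
        show i₀ (z'.Y i) = i₀ l * i₀ (z.Y i)
        rw [hY, map_mul]
      have hRi : (z'.map i₀).R i = (z.map i₀).R i := by
        show i₀ (z'.R i) = i₀ (z.R i)
        rw [hR]
      rw [hYi, hRi, e1, e2]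
      constructor
      · field_simp
      · field_simp
    · obtain ⟨v, hv, hvp⟩ := hP₀.prod
      refine ⟨v, hv, ?_⟩
      rw [hvp]
      show i₀ z.u = i₀ z'.u
      rw [hu]
  have h2 := TZ_spec hc hζ q hz' i₀ P₀ h₀ hP'
  rw [h1] at h2
  exact (T7_cancel h₀ h2).symm

theorem TZ_cst [IsAlgClosed k] [CharZero k] {c : Dat k} (hc : c.Good) {ζ : k} (hζ : IsPrimitiveRoot ζ c.n)
    (q : CH c 3 1 →+ V) {M : Type} [Field M] [Algebra k M] (hM : FunF k 1 M) {z : Zp M}
    (hz : IsZ (c.over M) z) (h : CstZ k z) : TZ c ζ q z = 0 := by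
  obtain ⟨M₀, _, _, i₀, P₀, h₀, hP₀⟩ := exists_lift hc z hz
  have h1 := TZ_spec hc hζ q hz i₀ P₀ h₀ hP₀
  have hz' : IsZ (c.over M₀) (z.map i₀) := (isZ_map i₀).2 hz
  have hcst : CstZ k (z.map i₀) := by
    refine ⟨fun i => (h.R i).algHom i₀, h.u.algHom i₀, fun i j => ?_⟩
    have := (h.Y i j).algHom i₀
    rw [map_div₀] at this
    exact this
  have hr := lift_not_ram (good_map hc) hz' hP₀
  have h2 : mns c ζ P₀ = 0 := by
    refine mns_alg c ζ (funF_finite i₀ h₀ hM) P₀ ?_
    intro j i x hx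
    have hx0 : ∀ x, P₀ j 0 = some x → IsAlgebraic k x := fun x hx => T7_alg_x hc hz' hcst hP₀ j x hx
    fin_cases i
    · exact hx0 x hx
    · exact T7_alg_v hc hP₀.on hr j hx0 x hx
  rw [h2, map_zero] at h1
  refine T7_cancel h₀ ?_
  rw [← h1, smul_zero]

theorem TZ_zpt [IsAlgClosed k] [CharZero k] {c : Dat k} (hc : c.Good) {ζ : k} (hζ : IsPrimitiveRoot ζ c.n)
    (q : CH c 3 1 →+ V) {M : Type} [Field M] [Algebra k M] {P : Pnt 3 M} (hP : On (c.over M) P) (hr : ¬ Ram P) :
    TZ c ζ q (zpt (c.over M) P) = q (mns c ζ P) := by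
  obtain ⟨hz, hl⟩ := zpt_lift (good_map hc) hP hr
  have hf : Module.finrank (AlgHom.id k M).fieldRange M = 1 := by
    have htop : (AlgHom.id k M).fieldRange = ⊤ := by
      ext x
      simp
    rw [htop]
    exact IntermediateField.finrank_top
  have h1 := TZ_spec hc hζ q hz (AlgHom.id k M) P (by rw [hf]; exact one_ne_zero) hl
  rw [hf, one_smul] at h1
  exact h1.symm

end Pool.Agent.LibCW77
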