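import Pool.Agent.LibCW77.Defs3
import Pool.Agent.LibCW77.A0
import Pool.Agent.LibCW77.T7
import Pool.Agent.LibCHd.B5
/-!
[CW77 LN] The class of a line. `Lval_spec`: let `Q = (x, v_Q)` be not ramified, `r = lR c x`, `C` as in `exists_C` over `k` (`lR_props`: the cross product vanishes), so the plane
`∑ C_i Y_i = 0` over `k` has the basis `f = (C_1, -C_0, 0)`, `g = (0, C_2, -C_1)`. A Z-point on `L(Q)` over `M` has `Y = l (f + τ g)` (`l`, `τ ≠ 0` because `Y_0, Y_2 ≠ 0`); `yf k Y = k(τ)`.
If `τ` is algebraic: `CstZ`, `TZ = 0`, and `finrank (yf) M = 0`. Else `k(τ) ≅ RatFunc k`: the Z-point `z₀ = (r, f + X g, ν / v_Q)` over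
`RatFunc k` (it is a Z-point), `z = l (z₀.map j)`, `j X = τ`; `TZ_scale`, `TZ_map` with `finrank j.fieldRange M = finrank (yf k Y) M` (if this is 0: then
`M` is not finite over `k(τ)`, impossible for `FunF k 1 M` and `τ` transcendental). So `t = TZ z₀` works in the definition of `Lval`.
`Lval_ram` by definition. `line_gen`: for `RF v = k(t)` generated by `t` transcendental and `Y = f + t g` with `f`, `g` independent over `k` all of `k(t)` is generated
by the ratios: `finrank = 1`. `line_pt`: such Z-points exist (over `RatFunc k`).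
-/

open scoped Classical
open Polynomial

namespace Pool.Agent.LibCW77

open Pool.Agent.LibBH2
open Pool.Agent.LibCHd (VR RF Red FunF)

variable {k : Type} [Field k]

variable {V : Type} [AddCommGroup V] [Module ℚ V]

private theorem LN_trdeg {M : Type} [Field M] [Algebra k M] (hM : FunF k 1 M) : Algebra.trdeg k M = 1 := by
  have h := Pool.Agent.LibCHd.FunF.trdeg hM
  simpa using h

private theorem LN_fin {M : Type} [Field M] [Algebra k M] (hM : FunF k 1 M) {τ : M} (hτ : Transcendental k τ) :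
    Module.finrank (IntermediateField.adjoin k {τ}) M ≠ 0 := by
  have h0 := LN_trdeg hM
  have hsum : Algebra.trdeg k (IntermediateField.adjoin k {τ}) +
      Algebra.trdeg (IntermediateField.adjoin k {τ}) M = 1 := by
    rw [← h0]
    exact trdeg_add_eq k (IntermediateField.adjoin k {τ}) (A := M)
  have h1 : Algebra.trdeg k (IntermediateField.adjoin k {τ}) ≠ 0 := by
    intro h
    have h2 : Algebra.IsAlgebraic k (IntermediateField.adjoin k {τ}) := trdeg_eq_zero_iff.1 h
    have h3 := h2.isAlgebraic ⟨τ, IntermediateField.mem_adjoin_simple_self k τ⟩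
    have h4 := (isAlgebraic_algHom_iff (IntermediateField.adjoin k {τ}).val
      (IntermediateField.adjoin k {τ}).val.injective).2 h3
    exact hτ h4
  have h2 : Algebra.trdeg (IntermediateField.adjoin k {τ}) M = 0 := by
    by_contra h
    have h3 : (1 : Cardinal) ≤ Algebra.trdeg k (IntermediateField.adjoin k {τ}) :=
      Cardinal.one_le_iff_ne_zero.2 h1
    have h4 : (1 : Cardinal) ≤ Algebra.trdeg (IntermediateField.adjoin k {τ}) M :=
      Cardinal.one_le_iff_ne_zero.2 h
    have h5 := add_le_add h3 h4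
    rw [hsum] at h5
    have h6 : ((2 : ℕ) : Cardinal) ≤ ((1 : ℕ) : Cardinal) := by
      have h7 : (1 : Cardinal) + 1 = ((2 : ℕ) : Cardinal) := by
        rw [one_add_one_eq_two]
        rfl
      rw [← h7]
      simpa using h5
    have h8 := Nat.cast_le.1 h6
    omega
  have halg : Algebra.IsAlgebraic (IntermediateField.adjoin k {τ}) M := trdeg_eq_zero_iff.1 h2
  have hess : Algebra.EssFiniteType k M := by
    obtain ⟨t, _, hf⟩ := hM
    have hfg : (IntermediateField.adjoin k (Set.range t)).FG :=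
      IntermediateField.fg_adjoin_of_finite (Set.finite_range t)
    have h3 : Algebra.EssFiniteType k (IntermediateField.adjoin k (Set.range t)) :=
      IntermediateField.essFiniteType_iff.2 hfg
    have h4 : Algebra.FiniteType (IntermediateField.adjoin k (Set.range t)) M := inferInstance
    exact Algebra.EssFiniteType.comp k (IntermediateField.adjoin k (Set.range t)) M
  have hess2 : Algebra.EssFiniteType (IntermediateField.adjoin k {τ}) M :=
    Algebra.EssFiniteType.of_comp k (IntermediateField.adjoin k {τ}) M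
  have hfin : Module.Finite (IntermediateField.adjoin k {τ}) M :=
    Algebra.finite_of_essFiniteType_of_isAlgebraic
  exact Module.finrank_pos.ne'

private theorem LN_alg0 {M : Type} [Field M] [Algebra k M] (hM : FunF k 1 M) {τ : M} (hτ : IsAlgebraic k τ) :
    Module.finrank (IntermediateField.adjoin k {τ}) M = 0 := by
  by_contra hne
  have h0 := LN_trdeg hM
  have hfin : Module.Finite (IntermediateField.adjoin k {τ}) M :=
    Module.finite_of_finrank_pos (Nat.pos_of_ne_zero hne)
  have halg : Algebra.IsAlgebraic (IntermediateField.adjoin k {τ}) M := inferInstance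
  have halg2 : Algebra.IsAlgebraic k (IntermediateField.adjoin k {τ}) :=
    IntermediateField.isAlgebraic_adjoin_simple hτ.isIntegral
  have h3 : Algebra.IsAlgebraic k M := Algebra.IsAlgebraic.trans k (IntermediateField.adjoin k {τ}) M
  rw [trdeg_eq_zero_iff.2 h3] at h0
  exact zero_ne_one h0

private theorem LN_ne {M : Type} [Field M] [Algebra k M] {τ : M} (hτ : Transcendental k τ) (a b : k)
    (h : a ≠ 0 ∨ b ≠ 0) : algebraMap k M a + τ * algebraMap k M b ≠ 0 := by
  intro h0
  by_cases hb : b = 0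
  · subst hb
    rw [map_zero, mul_zero, add_zero] at h0
    rcases h with h | h
    · exact h ((map_eq_zero _).1 h0)
    · exact h rfl
  · have hb' : algebraMap k M b ≠ 0 := fun h' => hb ((map_eq_zero _).1 h')
    apply hτ
    have h1 : τ = algebraMap k M (-a / b) := by
      rw [map_div₀, map_neg, eq_div_iff hb']
      linear_combination h0
    rw [h1]
    exact isAlgebraic_algebraMap _

private theorem LN_yf {M : Type} [Field M] [Algebra k M] (t : M) (f g : Fin 3 → k) (hi : Indep f g)
    (Y : Fin 3 → M) (hY0 : ∀ j, Y j ≠ 0) (l : M) (hl : l ≠ 0)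
    (hY : ∀ j, Y j = l * (algebraMap k M (f j) + t * algebraMap k M (g j))) :
    yf k Y = IntermediateField.adjoin k {t} := by
  apply le_antisymm
  · rw [yf, IntermediateField.adjoin_le_iff]
    rintro _ ⟨⟨i, j⟩, rfl⟩
    change Y i / Y j ∈ IntermediateField.adjoin k {t}
    rw [hY i, hY j, mul_div_mul_left _ _ hl]
    have ht := IntermediateField.mem_adjoin_simple_self k t
    exact div_mem (add_mem (IntermediateField.algebraMap_mem _ _)
        (mul_mem ht (IntermediateField.algebraMap_mem _ _)))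
      (add_mem (IntermediateField.algebraMap_mem _ _)
        (mul_mem ht (IntermediateField.algebraMap_mem _ _)))
  · rw [IntermediateField.adjoin_simple_le_iff]
    obtain ⟨i, j, hij⟩ := hi
    have hr : Y i / Y j ∈ yf k Y := IntermediateField.subset_adjoin k _ ⟨(i, j), rfl⟩
    have hj : algebraMap k M (f j) + t * algebraMap k M (g j) ≠ 0 := by
      intro h
      apply hY0 j
      rw [hY j, h, mul_zero]
    have h1 : Y i / Y j * (algebraMap k M (f j) + t * algebraMap k M (g j)) =
        algebraMap k M (f i) + t * algebraMap k M (g i) := by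
      rw [hY i, hY j, mul_div_mul_left _ _ hl, div_mul_cancel₀ _ hj]
    generalize Y i / Y j = r at hr h1
    have h2 : t * (r * algebraMap k M (g j) - algebraMap k M (g i)) =
        algebraMap k M (f i) - r * algebraMap k M (f j) := by
      linear_combination h1
    by_cases h3 : r * algebraMap k M (g j) - algebraMap k M (g i) = 0
    · exfalso
      rw [h3, mul_zero] at h2
      apply hij
      apply (algebraMap k M).injective
      rw [map_mul, map_mul]
      have h4 : algebraMap k M (f i) = r * algebraMap k M (f j) := by linear_combination -h2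
      have h5 : algebraMap k M (g i) = r * algebraMap k M (g j) := by linear_combination -h3
      rw [h4, h5]
      ring
    · have h4 : t = (algebraMap k M (f i) - r * algebraMap k M (f j)) /
          (r * algebraMap k M (g j) - algebraMap k M (g i)) := by
        rw [eq_div_iff h3, h2]
      rw [h4]
      exact div_mem (sub_mem (IntermediateField.algebraMap_mem _ _)
          (mul_mem hr (IntermediateField.algebraMap_mem _ _)))
        (sub_mem (mul_mem hr (IntermediateField.algebraMap_mem _ _))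
          (IntermediateField.algebraMap_mem _ _))

/-- the constants of the plane -/
private def lC0 (C : Fin 3 → k) : Fin 3 → k := ![C 1, -C 0, 0]

private def lC1 (C : Fin 3 → k) : Fin 3 → k := ![0, C 2, -C 1]

private theorem LN_key {c : Dat k} (hc : c.Good) {ν : k} (hν : ν ^ c.n = ∏ i, (-(kb c i) / ka c i))
    (x : Option k) (v : k) (hv : v ≠ 0) (hQ : OnC c x (some v)) :
    ∃ C : Fin 3 → k, (∀ i, C i ≠ 0) ∧ ∀ (M : Type) (_ : Field M) (_ : Algebra k M) (Y : Fin 3 → M),
      ((∑ i, cA (c.over M) (fun i => algebraMap k M (lR c x i)) i * Y i = 0 ∧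
        ∑ i, cB (c.over M) (fun i => algebraMap k M (lR c x i)) i * Y i = 0) ↔
        ∑ i, algebraMap k M (C i) * Y i = 0) := by
  obtain ⟨-, -, -, hcr, -⟩ := lR_props hc ν hν x v hv hQ
  obtain ⟨C, hC0, hC⟩ := exists_C hc (lR c x) hcr
  have hf := (hC (lC0 C)).2 (by
    rw [Fin.sum_univ_three]
    simp only [lC0, Matrix.cons_val_zero, Matrix.cons_val_one, Matrix.cons_val]
    ring)
  have hg := (hC (lC1 C)).2 (by
    rw [Fin.sum_univ_three]
    simp only [lC1, Matrix.cons_val_zero, Matrix.cons_val_one, Matrix.cons_val]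
    ring)
  obtain ⟨hfA, hfB⟩ := hf
  obtain ⟨hgA, hgB⟩ := hg
  rw [Fin.sum_univ_three] at hfA hfB hgA hgB
  simp only [lC0, lC1, Matrix.cons_val_zero, Matrix.cons_val_one, Matrix.cons_val] at hfA hfB hgA hgB
  refine ⟨C, hC0, ?_⟩
  intro M _ _ Y
  have hA : ∀ i, cA (c.over M) (fun i => algebraMap k M (lR c x i)) i = algebraMap k M (cA c (lR c x) i) := by
    intro i
    simp only [cA, ka_map, kb_map, map_add, map_mul]
  have hB : ∀ i, cB (c.over M) (fun i => algebraMap k M (lR c x i)) i = algebraMap k M (cB c (lR c x) i) := by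
    intro i
    simp only [cB, ka_map, kb_map, map_add, map_mul]
    rfl
  have hAB := cAB_ne hc (lR c x) 1
  simp only [hA, hB]
  generalize cA c (lR c x) = A at hfA hgA hAB ⊢
  generalize cB c (lR c x) = B at hfB hgB hAB ⊢
  rw [Fin.sum_univ_three, Fin.sum_univ_three, Fin.sum_univ_three]
  have hC1 : algebraMap k M (C 1) ≠ 0 := fun h => hC0 1 ((map_eq_zero _).1 h)
  have e1 := congrArg (algebraMap k M) hfA
  have e2 := congrArg (algebraMap k M) hgA
  have e3 := congrArg (algebraMap k M) hfB
  have e4 := congrArg (algebraMap k M) hgB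
  simp only [map_add, map_mul, map_neg, map_zero, mul_zero, add_zero, zero_add] at e1 e2 e3 e4
  have hAC : algebraMap k M (C 1) * (algebraMap k M (A 0) * Y 0 + algebraMap k M (A 1) * Y 1 +
      algebraMap k M (A 2) * Y 2) = algebraMap k M (A 1) * (algebraMap k M (C 0) * Y 0 +
      algebraMap k M (C 1) * Y 1 + algebraMap k M (C 2) * Y 2) := by
    linear_combination Y 0 * e1 - Y 2 * e2
  have hBC : algebraMap k M (C 1) * (algebraMap k M (B 0) * Y 0 + algebraMap k M (B 1) * Y 1 +
      algebraMap k M (B 2) * Y 2) = algebraMap k M (B 1) * (algebraMap k M (C 0) * Y 0 +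
      algebraMap k M (C 1) * Y 1 + algebraMap k M (C 2) * Y 2) := by
    linear_combination Y 0 * e3 - Y 2 * e4
  constructor
  · rintro ⟨h1, h2⟩
    rcases hAB with hA1 | hB1
    · rw [h1, mul_zero] at hAC
      rcases mul_eq_zero.1 hAC.symm with h | h
      · exact absurd ((map_eq_zero _).1 h) hA1
      · exact h
    · rw [h2, mul_zero] at hBC
      rcases mul_eq_zero.1 hBC.symm with h | h
      · exact absurd ((map_eq_zero _).1 h) hB1
      · exact h
  · intro h
    rw [h, mul_zero] at hAC hBC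
    exact ⟨(mul_eq_zero.1 hAC).resolve_left hC1, (mul_eq_zero.1 hBC).resolve_left hC1⟩

private theorem LN_indep {C : Fin 3 → k} (hC : ∀ i, C i ≠ 0) : Indep (lC0 C) (lC1 C) := by
  refine ⟨0, 1, ?_⟩
  simp only [lC0, lC1, Matrix.cons_val_zero, Matrix.cons_val_one]
  intro h
  have h1 : C 1 * C 2 = 0 := by linear_combination h
  exact mul_ne_zero (hC 1) (hC 2) h1

/-- the point of the line with the parameter `τ` -/
private noncomputable def LN_z (c : Dat k) (x : Option k) (w : k) (C : Fin 3 → k) {M : Type} [Field M] [Algebra k M]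
    (τ : M) : Zp M :=
  ⟨fun i => algebraMap k M (lR c x i), fun i => algebraMap k M (lC0 C i) + τ * algebraMap k M (lC1 C i),
    algebraMap k M w⟩

private theorem LN_isZ {c : Dat k} (hc : c.Good) {ν : k}
    (hν : ν ^ c.n = ∏ i, (-(kb c i) / ka c i)) (x : Option k) (v : k) (hv : v ≠ 0) (hQ : OnC c x (some v))
    {C : Fin 3 → k} (hC0 : ∀ i, C i ≠ 0)
    (hC : ∀ (M : Type) (_ : Field M) (_ : Algebra k M) (Y : Fin 3 → M),
      ((∑ i, cA (c.over M) (fun i => algebraMap k M (lR c x i)) i * Y i = 0 ∧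
        ∑ i, cB (c.over M) (fun i => algebraMap k M (lR c x i)) i * Y i = 0) ↔
        ∑ i, algebraMap k M (C i) * Y i = 0))
    {M : Type} [Field M] [Algebra k M] {τ : M} (hτ : Transcendental k τ) :
    IsZ (c.over M) (LN_z c x (ν / v) C τ) := by
  obtain ⟨-, -, hR, -, hun⟩ := lR_props hc ν hν x v hv hQ
  have hAB := (hC M _ _ (LN_z c x (ν / v) C τ).Y).2 (by
    rw [Fin.sum_univ_three]
    simp only [LN_z, lC0, lC1, Matrix.cons_val_zero, Matrix.cons_val_one, Matrix.cons_val, map_neg, map_zero]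
    ring)
  refine ⟨?_, ?_, ?_, ?_, hAB.1, hAB.2⟩
  · intro i h
    exact hR i ((map_eq_zero _).1 h)
  · intro i
    apply LN_ne hτ
    fin_cases i
    · exact Or.inl (hC0 1)
    · exact Or.inl (neg_ne_zero.2 (hC0 0))
    · exact Or.inr (neg_ne_zero.2 (hC0 1))
  · intro h
    exact div_ne_zero (nu_ne hc hν) hv ((map_eq_zero _).1 h)
  · change (algebraMap k M (ν / v)) ^ c.n = ∏ i, algebraMap k M (lR c x i)
    rw [← map_pow, hun, map_prod]

private theorem LN_param {c : Dat k} {x : Option k}
    {C : Fin 3 → k} (hC0 : ∀ i, C i ≠ 0)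
    (hC : ∀ (M : Type) (_ : Field M) (_ : Algebra k M) (Y : Fin 3 → M),
      ((∑ i, cA (c.over M) (fun i => algebraMap k M (lR c x i)) i * Y i = 0 ∧
        ∑ i, cB (c.over M) (fun i => algebraMap k M (lR c x i)) i * Y i = 0) ↔
        ∑ i, algebraMap k M (C i) * Y i = 0))
    {M : Type} [Field M] [Algebra k M] {z : Zp M} (hz : IsZ (c.over M) z)
    (hl : ∀ i, z.R i = algebraMap k M (lR c x i)) :
    ∃ (τ l : M), l ≠ 0 ∧ ∀ j, z.Y j = l * (algebraMap k M (lC0 C j) + τ * algebraMap k M (lC1 C j)) := by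
  have hR : z.R = fun i => algebraMap k M (lR c x i) := funext hl
  have h1 := (hC M _ _ z.Y).1 (by
    rw [← hR]
    exact ⟨hz.r1, hz.r2⟩)
  rw [Fin.sum_univ_three] at h1
  have hC1 : algebraMap k M (C 1) ≠ 0 := fun h => hC0 1 ((map_eq_zero _).1 h)
  have hY0 := hz.Y0 0
  refine ⟨-(z.Y 2) / z.Y 0, z.Y 0 / algebraMap k M (C 1), div_ne_zero hY0 hC1, ?_⟩
  intro j
  fin_cases j
  · change z.Y 0 = z.Y 0 / algebraMap k M (C 1) * (algebraMap k M (C 1) +
      -(z.Y 2) / z.Y 0 * algebraMap k M 0)
    rw [map_zero, mul_zero, add_zero, div_mul_cancel₀ _ hC1]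
  · change z.Y 1 = z.Y 0 / algebraMap k M (C 1) * (algebraMap k M (-C 0) +
      -(z.Y 2) / z.Y 0 * algebraMap k M (C 2))
    rw [map_neg]
    field_simp
    linear_combination h1
  · change z.Y 2 = z.Y 0 / algebraMap k M (C 1) * (algebraMap k M 0 +
      -(z.Y 2) / z.Y 0 * algebraMap k M (-C 1))
    rw [map_zero, map_neg]
    field_simp
    ring

private theorem LN_main [IsAlgClosed k] [CharZero k] {c : Dat k} (hc : c.Good) {ζ ν : k}
    (hζ : IsPrimitiveRoot ζ c.n)
    (hν : ν ^ c.n = ∏ i, (-(kb c i) / ka c i)) (q : CH c 3 1 →+ V) (Q : Fin 2 → Option k)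
    (hQ : OnC c (Q 0) (Q 1)) (v : k) (hv : v ≠ 0) (hQv : Q 1 = some v) :
    ∃ t : V, ∀ (M : Type) (_ : Field M) (_ : Algebra k M) (z : Zp M),
    FunF k 1 M → IsZ (c.over M) z → OnLine c ν Q z →
    TZ c ζ q z = Module.finrank (yf k z.Y) M • t := by
  rw [hQv] at hQ
  obtain ⟨C, hC0, hC⟩ := LN_key hc hν (Q 0) v hv hQ
  refine ⟨TZ c ζ q (LN_z c (Q 0) (ν / v) C (RatFunc.X : RatFunc k)), ?_⟩
  intro M _ _ z hM hz hl
  obtain ⟨hR, v', hv', -, hu⟩ := hl
  have hvv : v' = v := by
    rw [hQv] at hv'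
    exact (Option.some.inj hv').symm
  subst hvv
  have hv0 : algebraMap k M v' ≠ 0 := fun h => hv ((map_eq_zero _).1 h)
  have hu' : z.u = algebraMap k M (ν / v') := by
    rw [map_div₀, eq_div_iff hv0, hu]
  obtain ⟨τ, l, hl0, hY⟩ := LN_param hC0 hC hz hR
  have hyf := LN_yf τ (lC0 C) (lC1 C) (LN_indep hC0) z.Y hz.Y0 l hl0 hY
  by_cases hτ : IsAlgebraic k τ
  · rw [hyf, LN_alg0 hM hτ, zero_smul]
    apply TZ_cst hc hζ q hM hz
    have halg2 : Algebra.IsAlgebraic k (IntermediateField.adjoin k {τ}) :=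
      IntermediateField.isAlgebraic_adjoin_simple hτ.isIntegral
    refine ⟨?_, ?_, ?_⟩
    · intro i
      rw [hR i]
      exact isAlgebraic_algebraMap _
    · rw [hu']
      exact isAlgebraic_algebraMap _
    · intro i j
      have hm : z.Y i / z.Y j ∈ IntermediateField.adjoin k {τ} := by
        rw [← hyf]
        exact IntermediateField.subset_adjoin k _ ⟨(i, j), rfl⟩
      have h3 := halg2.isAlgebraic ⟨_, hm⟩
      exact (isAlgebraic_algHom_iff (IntermediateField.adjoin k {τ}).val
        (IntermediateField.adjoin k {τ}).val.injective).2 h3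
  · have hinj : Function.Injective (Polynomial.aeval (R := k) τ) :=
      transcendental_iff_injective.1 hτ
    let j : RatFunc k →ₐ[k] M := IsFractionRing.liftAlgHom (A := k[X]) (K := RatFunc k) hinj
    have hjX : j RatFunc.X = τ := by
      rw [← RatFunc.algebraMap_X]
      change IsFractionRing.liftAlgHom (A := k[X]) (K := RatFunc k) hinj (algebraMap k[X] (RatFunc k) X) = τ
      rw [IsFractionRing.coe_liftAlgHom, IsFractionRing.lift_algebraMap]
      exact Polynomial.aeval_X τ
    have hjr : j.fieldRange = IntermediateField.adjoin k {τ} := by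
      rw [AlgHom.fieldRange_eq_map, ← RatFunc.adjoin_X, IntermediateField.adjoin_map, Set.image_singleton, hjX]
    have hz0 := LN_isZ hc hν (Q 0) v' hv hQ hC0 hC (M := RatFunc k) (τ := RatFunc.X) RatFunc.transcendental_X
    have hfin : Module.finrank j.fieldRange M ≠ 0 := by
      rw [hjr]
      exact LN_fin hM hτ
    have h1 := TZ_map hc hζ q hz0 j hfin
    have h2 : TZ c ζ q ((LN_z c (Q 0) (ν / v') C (RatFunc.X : RatFunc k)).map j) = TZ c ζ q z := by
      apply TZ_scale hc hζ q hz _ _ l⁻¹ (inv_ne_zero hl0)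
      · intro i
        change j (algebraMap k (RatFunc k) (lC0 C i) + RatFunc.X * algebraMap k (RatFunc k) (lC1 C i)) = _
        rw [map_add, map_mul, hjX, AlgHom.commutes, AlgHom.commutes, hY i, inv_mul_cancel_left₀ hl0]
      · funext i
        change j (algebraMap k (RatFunc k) (lR c (Q 0) i)) = _
        rw [AlgHom.commutes, hR i]
      · change j (algebraMap k (RatFunc k) (ν / v')) = _
        rw [AlgHom.commutes, hu']
    rw [← h2, h1, hyf, hjr]

theorem Lval_spec [IsAlgClosed k] [CharZero k] {c : Dat k} (hc : c.Good) {ζ ν : k} (hζ : IsPrimitiveRoot ζ c.n)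
    (hν : ν ^ c.n = ∏ i, (-(kb c i) / ka c i)) (q : CH c 3 1 →+ V) (Q : Fin 2 → Option k)
    (hQ : OnC c (Q 0) (Q 1)) {M : Type} [Field M] [Algebra k M] (hM : FunF k 1 M) {z : Zp M}
    (hz : IsZ (c.over M) z) (hl : OnLine c ν Q z) :
    TZ c ζ q z = Module.finrank (yf k z.Y) M • Lval c ζ ν q Q := by
  obtain ⟨-, v, hQv, hv, -⟩ := id hl
  have h : (∃ x, Q 1 = some x ∧ x ≠ 0) ∧ ∃ t : V, ∀ (M : Type) (_ : Field M) (_ : Algebra k M) (z : Zp M),
      FunF k 1 M → IsZ (c.over M) z → OnLine c ν Q z →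
      TZ c ζ q z = Module.finrank (yf k z.Y) M • t :=
    ⟨⟨v, hQv, hv⟩, LN_main hc hζ hν q Q hQ v hv hQv⟩
  have h1 : Lval c ζ ν q Q = h.2.choose := by
    rw [Lval]
    exact dif_pos h
  rw [h1]
  exact h.2.choose_spec M _ _ z hM hz hl

theorem Lval_ram {c : Dat k} {ζ ν : k} (q : CH c 3 1 →+ V) (Q : Fin 2 → Option k)
    (h : Q 1 = none ∨ Q 1 = some 0) : Lval c ζ ν q Q = 0 := by
  rw [Lval]
  apply dif_neg
  rintro ⟨⟨x, hx, hx0⟩, -⟩
  rcases h with h | h
  · rw [h] at hx
    exact absurd hx (by simp)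
  · rw [h] at hx
    exact hx0 (Option.some.inj hx).symm

theorem line_gen {M : Type} [Field M] [Algebra k M] (t : M) (ht : Transcendental k t)
    (hg : IntermediateField.adjoin k {t} = ⊤) (f g : Fin 3 → k) (hi : Indep f g) (Y : Fin 3 → M)
    (hY0 : ∀ j, Y j ≠ 0) (l : M) (hl : l ≠ 0) (hY : ∀ j, Y j = l * (algebraMap k M (f j) + t * algebraMap k M (g j))) :
    Module.finrank (yf k Y) M = 1 := by
  rw [LN_yf t f g hi Y hY0 l hl hY, hg]
  exact IntermediateField.finrank_top

theorem line_pt [IsAlgClosed k] [CharZero k] {c : Dat k} (hc : c.Good) {ν : k}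
    (hν : ν ^ c.n = ∏ i, (-(kb c i) / ka c i)) (Q : Fin 2 → Option k)
    (hQ : OnC c (Q 0) (Q 1)) (hr : ¬ (Q 1 = none ∨ Q 1 = some 0)) :
    ∃ (M : Type) (_ : Field M) (_ : Algebra k M) (z : Zp M), FunF k 1 M ∧ IsZ (c.over M) z ∧ OnLine c ν Q z ∧
      Module.finrank (yf k z.Y) M = 1 := by
  obtain ⟨v, hv⟩ : ∃ v, Q 1 = some v := by
    rcases h : Q 1 with _ | v
    · exact absurd (Or.inl h) hr
    · exact ⟨v, rfl⟩
  have hv0 : v ≠ 0 := by
    rintro rfl
    exact hr (Or.inr hv)
  rw [hv] at hQ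
  obtain ⟨C, hC0, hC⟩ := LN_key hc hν (Q 0) v hv0 hQ
  have hz0 := LN_isZ hc hν (Q 0) v hv0 hQ hC0 hC (M := RatFunc k) (τ := RatFunc.X) RatFunc.transcendental_X
  refine ⟨RatFunc k, inferInstance, inferInstance, LN_z c (Q 0) (ν / v) C RatFunc.X,
    Pool.Agent.LibCHd.funF_one (AlgHom.id k (RatFunc k)) (RingHom.Finite.id _), hz0, ⟨fun i => rfl, v, hv, hv0, ?_⟩, ?_⟩
  · change algebraMap k (RatFunc k) (ν / v) * algebraMap k (RatFunc k) v = _
    rw [← map_mul, div_mul_cancel₀ _ hv0]
  · exact line_gen (RatFunc.X : RatFunc k) RatFunc.transcendental_X RatFunc.adjoin_X (lC0 C) (lC1 C) (LN_indep hC0) _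
      hz0.Y0 1 one_ne_zero (fun j => (one_mul _).symm)

end Pool.Agent.LibCW77
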