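import Pool.Agent.LibCW77.Defs3
import Pool.Agent.LibHL77.Z2
/-!
[CW77 T1] The formula `∑ e f = n` for a place `v` of `N` and a finite extension `N'` of `N`. Template: `LibHL77/Z2.lean` (private lemmas
`T1_dvr`, `T1_ded`, `T1_lies`, `T1_over`, `T1_deg`, `T1_main`: the same for the residue degrees over `k`; here the residue fields are
infinite over `k` and the inertia degree is the one of the homomorphism `RF v → RF w`). `VR v` is a discrete valuation ring with fraction field
`N`, its integral closure `B` in `N'` is Dedekind and finite over `VR v` (characteristic 0), the primes of `B` above the maximal ideal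
correspond to the places `w`, `Ideal.sum_ramification_inertia`.
(The homomorphism `RF v → RF w` exists only for the places `w` over `v`, so it is quantified inside `∀ w ∈ S`.)
-/

open scoped Classical
open Polynomial

namespace Pool.Agent.LibCW77

section T1aux

open Pool.Agent.LibBH2 Pool.Agent.LibCHd Pool.Agent.LibEnd77.Val8 IsDedekindDomain

variable {k : Type} [Field k] {H K : Type} [Field H] [Algebra k H] [Field K] [Algebra k K]

private theorem T1_frac (v : Place k H) : IsFractionRing (VR v) H := by
  refine IsFractionRing.of_field (VR v) H fun z => ?_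
  by_cases hz : v.Reg z
  · exact ⟨⟨z, hz⟩, 1, by simp; rfl⟩
  · have hz0 : z ≠ 0 := fun h => hz (Or.inl h)
    have h1 : v.ord z < 0 := by
      by_contra h
      exact hz (Or.inr (not_lt.1 h))
    refine ⟨1, ⟨z⁻¹, Or.inr (by rw [v.ord_inv]; omega)⟩, ?_⟩
    rw [map_one]
    change z = 1 / z⁻¹
    simp

private theorem T1_unit (v : Place k H) (u : VR v) (hu : v.ord (u : H) = 0) (hu0 : (u : H) ≠ 0) :
    IsUnit u := by
  apply isUnit_VR
  rintro (h | h)
  · exact hu0 h
  · omega

private theorem T1_dvr (v : Place k H) : IsDiscreteValuationRing (VR v) := by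
  obtain ⟨t, ht⟩ := v.exists_uniformizer
  have ht0 : t ≠ 0 := by
    rintro rfl
    rw [v.ord_zero] at ht
    omega
  have htr : v.Reg t := Or.inr (by omega)
  apply IsDiscreteValuationRing.ofHasUnitMulPowIrreducibleFactorization
  refine ⟨⟨t, htr⟩, ⟨?_, ?_⟩, ?_⟩
  · intro h
    obtain ⟨s, hs⟩ := h.exists_right_inv
    have h1 : t * (s : H) = 1 := congrArg Subtype.val hs
    have hs0 : (s : H) ≠ 0 := by
      intro h
      rw [h, mul_zero] at h1
      exact zero_ne_one h1
    have h2 : v.ord (t * (s : H)) = 0 := by rw [h1, v.ord_one]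
    rw [v.ord_mul _ _ ht0 hs0, ht] at h2
    have h3 := s.2.resolve_left hs0
    omega
  · intro a b hab
    have h1 : t = (a : H) * (b : H) := congrArg Subtype.val hab
    have ha0 : (a : H) ≠ 0 := by
      intro h
      rw [h, zero_mul] at h1
      exact ht0 h1
    have hb0 : (b : H) ≠ 0 := by
      intro h
      rw [h, mul_zero] at h1
      exact ht0 h1
    have h2 : v.ord ((a : H) * (b : H)) = 1 := by rw [← h1, ht]
    rw [v.ord_mul _ _ ha0 hb0] at h2
    have h3 := a.2.resolve_left ha0
    have h4 := b.2.resolve_left hb0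
    by_cases h5 : v.ord (a : H) = 0
    · exact Or.inl (T1_unit v a h5 ha0)
    · exact Or.inr (T1_unit v b (by omega) hb0)
  · intro x hx
    have hx0 : (x : H) ≠ 0 := fun h => hx (Subtype.ext h)
    have h1 := x.2.resolve_left hx0
    obtain ⟨n, hn⟩ := Int.eq_ofNat_of_zero_le h1
    refine ⟨n, ?_⟩
    have hreg : v.Reg ((x : H) / t ^ n) := by
      right
      rw [v.ord_div _ _ hx0 (pow_ne_zero _ ht0), v.ord_pow, ht]
      omega
    have hu : IsUnit (⟨(x : H) / t ^ n, hreg⟩ : VR v) := by
      apply T1_unit
      · show v.ord ((x : H) / t ^ n) = 0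
        rw [v.ord_div _ _ hx0 (pow_ne_zero _ ht0), v.ord_pow, ht]
        omega
      · exact div_ne_zero hx0 (pow_ne_zero _ ht0)
    refine ⟨hu.unit, ?_⟩
    apply Subtype.ext
    change t ^ n * ((x : H) / t ^ n) = x
    field_simp

section gen

variable {R : Type} [CommRing R] [IsDedekindDomain R] [Algebra R K] [IsFractionRing R K]
  [Algebra k R] [IsScalarTower k R K]

private theorem T1_regR (P : HeightOneSpectrum R) (r : R) :
    (ofHOS (k := k) (H := K) P).Reg (algebraMap R K r) := by
  by_cases h0 : algebraMap R K r = 0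
  · exact Or.inl h0
  · right
    have h1 := P.valuation_le_one (K := K) r
    rw [ofHOS_ord (k := k) P h0, ← WithZero.exp_zero, WithZero.exp_le_exp] at h1
    omega

private theorem T1_quot (P : HeightOneSpectrum R) {x : K}
    (hx : (ofHOS (k := k) (H := K) P).Reg x) :
    ∃ a s : R, s ∉ P.asIdeal ∧ x = algebraMap R K a / algebraMap R K s := by
  by_cases h0 : x = 0
  · refine ⟨0, 1, fun h => P.isPrime.ne_top ((Ideal.eq_top_iff_one _).2 h), ?_⟩
    rw [h0, map_zero, zero_div]
  have h2 := hx.resolve_left h0
  have h1 : x ∈ (P.valuation K).valuationSubring := by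
    rw [Valuation.mem_valuationSubring_iff, ofHOS_ord (k := k) P h0, ← WithZero.exp_zero,
      WithZero.exp_le_exp]
    omega
  rw [← HeightOneSpectrum.valuationSubringAtPrime_eq_valuationSubring] at h1
  obtain ⟨a, s, hs, rfl⟩ := h1
  exact ⟨a, s, hs, (div_eq_mul_inv _ _).symm⟩


/-- the ring homomorphism to the residue field of the place of a prime -/
private theorem T1_rho (P : HeightOneSpectrum R) : ∃ ρ : R →+* RF (ofHOS (k := k) (H := K) P),
    (∀ r, Red (ofHOS (k := k) (H := K) P) (algebraMap R K r) (ρ r)) ∧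
      RingHom.ker ρ = P.asIdeal ∧ Function.Surjective ρ := by
  set w := ofHOS (k := k) (H := K) P with hw
  let g : R →+* VR w := (algebraMap R K).codRestrict (VR w) (fun r => T1_regR P r)
  let ρ : R →+* RF w := (IsLocalRing.residue (VR w)).comp g
  have hred' : ∀ r, Red w (algebraMap R K r) (ρ r) := fun r => ⟨T1_regR P r, rfl⟩
  refine ⟨ρ, hred', ?_, ?_⟩
  · ext r
    rw [RingHom.mem_ker, ← ofHOS_zer (k := k) (H := K) P r, ← red_zero_iff]
    constructor
    · intro h
      have := hred' r
      rwa [h] at this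
    · intro h
      exact (hred' r).unique h
  · intro x
    obtain ⟨f, hf⟩ := exists_rep x
    obtain ⟨a, s, hs, hfa⟩ := T1_quot P hf.reg
    have hPmax : P.asIdeal.IsMaximal := P.isMaximal
    obtain ⟨s', hs'⟩ : ∃ s' : R, s * s' - 1 ∈ P.asIdeal := by
      have h1 : (Ideal.Quotient.mk P.asIdeal s) ≠ 0 := by
        rwa [Ne, Ideal.Quotient.eq_zero_iff_mem]
      let _ : Field (R ⧸ P.asIdeal) := Ideal.Quotient.field P.asIdeal
      obtain ⟨s', hs'⟩ := Ideal.Quotient.mk_surjective (Ideal.Quotient.mk P.asIdeal s)⁻¹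
      refine ⟨s', ?_⟩
      rw [← Ideal.Quotient.eq_zero_iff_mem, map_sub, map_mul, hs', mul_inv_cancel₀ h1, map_one,
        sub_self]
    refine ⟨a * s', ?_⟩
    have hs0 : algebraMap R K s ≠ 0 := by
      intro h
      apply hs
      have : s = 0 := by
        rwa [FaithfulSMul.algebraMap_eq_zero_iff] at h
      rw [this]
      exact zero_mem _
    have h2 : w.Zer (algebraMap R K (a * s') - f) := by
      have h3 : algebraMap R K (a * s') - f = f * algebraMap R K (s * s' - 1) := by
        rw [hfa, map_mul, map_sub, map_mul, map_one]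
        field_simp
      rw [h3]
      exact Place.Zer.reg_mul hf.reg ((ofHOS_zer (k := k) (H := K) P _).2 hs')
    exact (hred' _).unique ((red_iff_sub hf).2 h2)

end gen

section setup

attribute [local instance] T1_frac T1_dvr

variable [Algebra H K] [IsScalarTower k H K]

private theorem T1_tower (v : Place k H) : IsScalarTower k (VR v) K := by
  refine IsScalarTower.of_algebraMap_eq fun c => ?_
  change algebraMap k K c = algebraMap H K (algebraMap k H c)
  exact IsScalarTower.algebraMap_apply k H K c

attribute [local instance] T1_tower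

private theorem T1_charH [CharZero k] : CharZero H :=
  charZero_of_injective_algebraMap (algebraMap k H).injective

private theorem T1_ded [CharZero k] [FiniteDimensional H K] (v : Place k H) :
    IsDedekindDomain (integralClosure (VR v) K) := by
  have := T1_charH (k := k) (H := H)
  exact integralClosure.isDedekindDomain (VR v) H K

private theorem T1_fracB [FiniteDimensional H K] (v : Place k H) :
    IsFractionRing (integralClosure (VR v) K) K :=
  integralClosure.isFractionRing_of_finite_extension H K

private theorem T1_finB [CharZero k] [FiniteDimensional H K] (v : Place k H) :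
    Module.Finite (VR v) (integralClosure (VR v) K) := by
  have := T1_charH (k := k) (H := H)
  exact IsIntegralClosure.finite (VR v) H K _

private theorem T1_towB (v : Place k H) : IsScalarTower k (integralClosure (VR v) K) K :=
  IsScalarTower.of_algebraMap_eq fun _ => rfl

private theorem T1_faith (v : Place k H) : FaithfulSMul (VR v) (integralClosure (VR v) K) := by
  rw [faithfulSMul_iff_algebraMap_injective]
  intro a b hab
  have h1 : algebraMap (VR v) K a = algebraMap (VR v) K b := congrArg Subtype.val hab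
  exact Subtype.ext ((algebraMap H K).injective h1)

attribute [local instance] T1_ded T1_fracB T1_finB T1_towB T1_faith

private theorem T1_lies [CharZero k] [FiniteDimensional H K] (v : Place k H)
    (P : HeightOneSpectrum (integralClosure (VR v) K)) :
    P.asIdeal.LiesOver (IsLocalRing.maximalIdeal (VR v)) := by
  constructor
  have hp := P.isPrime
  have h1 : (P.asIdeal.under (VR v)).IsPrime := inferInstance
  have h2 : P.asIdeal.under (VR v) ≠ ⊥ := by
    intro h
    exact P.ne_bot (Ideal.eq_bot_of_comap_eq_bot h)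
  have h3 : (P.asIdeal.under (VR v)).IsMaximal := h1.isMaximal h2
  exact (IsLocalRing.eq_maximalIdeal h3).symm

private theorem T1_finite [CharZero k] [FiniteDimensional H K] (v : Place k H) :
    Finite (HeightOneSpectrum (integralClosure (VR v) K)) := by
  have hm0 : IsLocalRing.maximalIdeal (VR v) ≠ ⊥ := IsDiscreteValuationRing.not_a_field _
  let F : HeightOneSpectrum (integralClosure (VR v) K) →
      {P // P ∈ IsDedekindDomain.primesOverFinset (IsLocalRing.maximalIdeal (VR v))
        (integralClosure (VR v) K)} := fun P =>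
    ⟨P.asIdeal, (IsDedekindDomain.mem_primesOverFinset_iff hm0 _).2 ⟨P.isPrime, T1_lies v P⟩⟩
  refine Finite.of_injective F fun P Q h => ?_
  exact HeightOneSpectrum.ext (congrArg Subtype.val h)

private theorem T1_towA (v : Place k H) : IsScalarTower k (VR v) H :=
  IsScalarTower.of_algebraMap_eq fun _ => rfl

attribute [local instance] T1_towA

/-- the places of the primes are over `v` -/
private theorem T1_over [CharZero k] [FiniteDimensional H K] (v : Place k H)
    (P : HeightOneSpectrum (integralClosure (VR v) K)) :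
    ∃ e : ℤ, 0 < e ∧ ∀ x : H, (ofHOS (k := k) (H := K) P).ord (algebraMap H K x) = e * v.ord x := by
  have hm0 : IsLocalRing.maximalIdeal (VR v) ≠ ⊥ := IsDiscreteValuationRing.not_a_field _
  have hlies := T1_lies v P
  let vm : HeightOneSpectrum (VR v) :=
    ⟨IsLocalRing.maximalIdeal (VR v), (IsLocalRing.maximalIdeal.isMaximal _).isPrime, hm0⟩
  have hq : v = ofHOS (k := k) (H := H) vm :=
    eq_ofHOS v (fun r => r.2) vm (fun r => mem_max_iff r)
  have hl : P.asIdeal.LiesOver vm.asIdeal := hlies
  have hpr := P.isPrime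
  refine ⟨(Ideal.ramificationIdx' (IsLocalRing.maximalIdeal (VR v)) P.asIdeal : ℤ), ?_, ?_⟩
  · have h2 := Ideal.IsDedekindDomain.ramificationIdx'_ne_zero_of_liesOver
      (p := IsLocalRing.maximalIdeal (VR v)) P.asIdeal hm0
    omega
  · intro f
    by_cases hf : f = 0
    · rw [hf, map_zero, Place.ord_zero, Place.ord_zero, mul_zero]
    have h1 := HeightOneSpectrum.valuation_liesOver (K := H) K vm P f
    rw [ofHOS_ord (k := k) vm hf, ofHOS_ord (k := k) P ((_root_.map_ne_zero _).2 hf), ← hq,
      ← WithZero.exp_nsmul, WithZero.exp_inj] at h1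
    change (Ideal.ramificationIdx' (IsLocalRing.maximalIdeal (VR v)) P.asIdeal) •
      (-v.ord f) = -(ofHOS (k := k) (H := K) P).ord (algebraMap H K f) at h1
    rw [nsmul_eq_mul] at h1
    linarith

/-- a place over `v` is the place of a prime -/
private theorem T1_prime [CharZero k] [FiniteDimensional H K] (v : Place k H) (w : Place k K)
    (hw : ∃ e : ℤ, 0 < e ∧ ∀ x : H, w.ord (algebraMap H K x) = e * v.ord x) :
    ∃ P : HeightOneSpectrum (integralClosure (VR v) K), w = ofHOS (k := k) (H := K) P := by
  obtain ⟨e, he, hw⟩ := hw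
  have hA : ∀ a : VR v, w.Reg (algebraMap (VR v) K a) := by
    intro a
    by_cases h0 : (a : H) = 0
    · left
      change algebraMap H K (a : H) = 0
      rw [h0, map_zero]
    · right
      change 0 ≤ w.ord (algebraMap H K (a : H))
      rw [hw]
      exact mul_nonneg he.le (a.2.resolve_left h0)
  have hreg : ∀ b : integralClosure (VR v) K, w.Reg (b : K) := fun b => reg_of_integral w hA b.2
  let I : Ideal (integralClosure (VR v) K) :=
    { carrier := {r | w.Zer (r : K)}
      add_mem' := fun {a b} ha hb => Place.Zer.add ha hb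
      zero_mem' := w.zer_zero
      smul_mem' := fun a b hb => Place.Zer.reg_mul (hreg a) hb }
  have hI : ∀ r, r ∈ I ↔ w.Zer (r : K) := fun r => Iff.rfl
  have hIp : I.IsPrime := by
    refine ⟨?_, ?_⟩
    · intro h
      have h1 : (1 : integralClosure (VR v) K) ∈ I := by rw [h]; trivial
      rcases (hI 1).1 h1 with h1 | h1
      · exact one_ne_zero h1
      · have h2 : w.ord ((1 : integralClosure (VR v) K) : K) = 0 := w.ord_one
        omega
    · intro a b hab
      have hab' : w.Zer ((a : K) * (b : K)) := hab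
      rw [hI, hI]
      by_contra hcon
      push Not at hcon
      obtain ⟨h1, h2⟩ := hcon
      have ha0 : (a : K) ≠ 0 := fun h => h1 (Or.inl h)
      have hb0 : (b : K) ≠ 0 := fun h => h2 (Or.inl h)
      have h3 := hab'.resolve_left (mul_ne_zero ha0 hb0)
      rw [w.ord_mul _ _ ha0 hb0, Place.ord_eq_zero_of_reg (hreg a) h1,
        Place.ord_eq_zero_of_reg (hreg b) h2] at h3
      exact lt_irrefl _ h3
  have hI0 : I ≠ ⊥ := by
    obtain ⟨t, ht⟩ := v.exists_uniformizer
    have ht0 : t ≠ 0 := by
      rintro rfl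
      rw [v.ord_zero] at ht
      omega
    intro h
    have h1 : algebraMap (VR v) (integralClosure (VR v) K) ⟨t, Or.inr (by omega)⟩ ∈ I := by
      rw [hI]
      right
      change 0 < w.ord (algebraMap H K t)
      rw [hw, ht]
      omega
    rw [h, Ideal.mem_bot] at h1
    have h2 : algebraMap H K t = 0 := congrArg Subtype.val h1
    exact ht0 ((algebraMap H K).injective (by rw [h2, map_zero]))
  exact ⟨⟨I, hIp, hI0⟩, eq_ofHOS w hreg ⟨I, hIp, hI0⟩ hI⟩


/-- the order of an element of the lower field, with the ramification index -/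
private theorem T1_over' [CharZero k] [FiniteDimensional H K] (v : Place k H)
    (P : HeightOneSpectrum (integralClosure (VR v) K)) (f : H) :
    (ofHOS (k := k) (H := K) P).ord (algebraMap H K f) =
      (Ideal.ramificationIdx' (IsLocalRing.maximalIdeal (VR v)) P.asIdeal : ℤ) * v.ord f := by
  have hm0 : IsLocalRing.maximalIdeal (VR v) ≠ ⊥ := IsDiscreteValuationRing.not_a_field _
  have hlies := T1_lies v P
  let vm : HeightOneSpectrum (VR v) :=
    ⟨IsLocalRing.maximalIdeal (VR v), (IsLocalRing.maximalIdeal.isMaximal _).isPrime, hm0⟩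
  have hq : v = ofHOS (k := k) (H := H) vm :=
    eq_ofHOS v (fun r => r.2) vm (fun r => mem_max_iff r)
  have hl : P.asIdeal.LiesOver vm.asIdeal := hlies
  have hpr := P.isPrime
  by_cases hf : f = 0
  · rw [hf, map_zero, Place.ord_zero, Place.ord_zero, mul_zero]
  have h1 := HeightOneSpectrum.valuation_liesOver (K := H) K vm P f
  rw [ofHOS_ord (k := k) vm hf, ofHOS_ord (k := k) P ((_root_.map_ne_zero _).2 hf), ← hq,
    ← WithZero.exp_nsmul, WithZero.exp_inj] at h1
  change (Ideal.ramificationIdx' (IsLocalRing.maximalIdeal (VR v)) P.asIdeal) •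
    (-v.ord f) = -(ofHOS (k := k) (H := K) P).ord (algebraMap H K f) at h1
  rw [nsmul_eq_mul] at h1
  linarith


/-- the homomorphism of the residue fields -/
private theorem T1_hom (v : Place k H) (w : Place k K)
    (hw : ∃ e : ℤ, 0 < e ∧ ∀ x : H, w.ord (algebraMap H K x) = e * v.ord x) :
    ∃ j : RF v →ₐ[k] RF w, ∀ x y, Red v x y → Red w (algebraMap H K x) (j y) := by
  obtain ⟨e, he, hw⟩ := hw
  have hreg : ∀ x : H, v.Reg x → w.Reg (algebraMap H K x) := by
    intro x hx
    by_cases h0 : x = 0
    · left
      rw [h0, map_zero]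
    · right
      rw [hw]
      exact mul_nonneg he.le (hx.resolve_left h0)
  have hzer : ∀ x : H, v.Zer x → w.Zer (algebraMap H K x) := by
    intro x hx
    by_cases h0 : x = 0
    · left
      rw [h0, map_zero]
    · right
      rw [hw]
      exact mul_pos he (hx.resolve_left h0)
  let g : VR v →+* VR w :=
    ((algebraMap H K).comp (VR v).subtype).codRestrict (VR w) (fun r => hreg r r.2)
  let g' : VR v →+* RF w := (IsLocalRing.residue (VR w)).comp g
  have hg' : ∀ r : VR v, Red w (algebraMap H K (r : H)) (g' r) := fun r => ⟨hreg r r.2, rfl⟩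
  have hker : ∀ a : VR v, a ∈ IsLocalRing.maximalIdeal (VR v) → g' a = 0 := by
    intro a ha
    have h1 : w.Zer (algebraMap H K (a : H)) := hzer _ ((mem_max_iff a).1 ha)
    exact (hg' a).unique (red_zero_iff.2 h1)
  let j₀ : RF v →+* RF w := Ideal.Quotient.lift (IsLocalRing.maximalIdeal (VR v)) g' hker
  have hj₀ : ∀ r : VR v, j₀ (IsLocalRing.residue (VR v) r) = g' r := fun r => rfl
  have hred : ∀ x y, Red v x y → Red w (algebraMap H K x) (j₀ y) := by
    rintro x y ⟨h, rfl⟩
    rw [hj₀]
    exact hg' ⟨x, h⟩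
  let j : RF v →ₐ[k] RF w :=
    { toRingHom := j₀
      commutes' := by
        intro c
        have h1 := hred _ _ (red_const v c)
        rw [← IsScalarTower.algebraMap_apply k H K] at h1
        exact ((red_const w c).unique h1).symm }
  exact ⟨j, hred⟩

/-- the residue degree -/
private theorem T1_degw [CharZero k] [FiniteDimensional H K] (v : Place k H)
    (P : HeightOneSpectrum (integralClosure (VR v) K))
    (j : RF v →ₐ[k] RF (ofHOS (k := k) (H := K) P))
    (hj : ∀ x y, Red v x y → Red (ofHOS (k := k) (H := K) P) (algebraMap H K x) (j y)) :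
    Module.finrank j.fieldRange (RF (ofHOS (k := k) (H := K) P)) =
      Ideal.inertiaDeg' (IsLocalRing.maximalIdeal (VR v)) P.asIdeal := by
  have hlies := T1_lies v P
  have hmax : P.asIdeal.IsMaximal := P.isMaximal
  rw [Ideal.inertiaDeg'_algebraMap]
  obtain ⟨ρ, hρ, hker, hsurj⟩ := T1_rho (k := k) (K := K) P
  let e₁ : (VR v ⧸ IsLocalRing.maximalIdeal (VR v)) ≃+* j.fieldRange :=
    (AlgEquiv.ofInjectiveField j).toRingEquiv
  let e₂ : (integralClosure (VR v) K ⧸ P.asIdeal) ≃+* RF (ofHOS (k := k) (H := K) P) :=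
    (Ideal.quotEquivOfEq hker.symm).trans (RingHom.quotientKerEquivOfSurjective hsurj)
  symm
  refine Algebra.finrank_eq_of_equiv_equiv e₁ e₂ ?_
  refine Ideal.Quotient.ringHom_ext ?_
  ext r
  have h1 : Red v (r : H) (IsLocalRing.residue (VR v) r) := ⟨r.2, rfl⟩
  have h2 := hj _ _ h1
  have h3 := hρ (algebraMap (VR v) (integralClosure (VR v) K) r)
  have h4 : algebraMap (integralClosure (VR v) K) K
      (algebraMap (VR v) (integralClosure (VR v) K) r) = algebraMap H K (r : H) := rfl
  rw [h4] at h3
  exact h2.unique h3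

private theorem T1_main [CharZero k] [FiniteDimensional H K] (v : Place k H) :
    ∃ (S : Finset (Place k K)) (e f : Place k K → ℕ),
      (∀ w, w ∈ S ↔ ∃ e' : ℤ, 0 < e' ∧ ∀ x, w.ord (algebraMap H K x) = e' * v.ord x) ∧
      (∀ w ∈ S, (0 < e w ∧ ∀ x, w.ord (algebraMap H K x) = (e w : ℤ) * v.ord x) ∧
        ∃ j : RF v →ₐ[k] RF w, (∀ x y, Red v x y → Red w (algebraMap H K x) (j y)) ∧
          Module.finrank j.fieldRange (RF w) ≠ 0 ∧
          Module.finrank j.fieldRange (RF w) = f w) ∧
      ∑ w ∈ S, e w * f w = Module.finrank H K := by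
  have hfin := T1_finite (K := K) v
  have hm0 : IsLocalRing.maximalIdeal (VR v) ≠ ⊥ := IsDiscreteValuationRing.not_a_field _
  let _ : Fintype (HeightOneSpectrum (integralClosure (VR v) K)) := Fintype.ofFinite _
  let F : HeightOneSpectrum (integralClosure (VR v) K) → Place k K := fun P =>
    ofHOS (k := k) (H := K) P
  have hF : Function.Injective F := by
    intro P Q h
    apply HeightOneSpectrum.ext
    ext r
    have h3 := ofHOS_zer (k := k) (H := K) P r
    have h4 := ofHOS_zer (k := k) (H := K) Q r
    change (F P).Zer _ ↔ r ∈ P.asIdeal at h3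
    change (F Q).Zer _ ↔ r ∈ Q.asIdeal at h4
    rw [← h3, ← h4, h]
  obtain ⟨e, he⟩ : ∃ e : Place k K → ℕ, ∀ P, e (F P) =
      Ideal.ramificationIdx' (IsLocalRing.maximalIdeal (VR v)) P.asIdeal :=
    ⟨Function.extend F (fun P => Ideal.ramificationIdx' (IsLocalRing.maximalIdeal (VR v)) P.asIdeal)
      0, fun P => hF.extend_apply _ _ P⟩
  obtain ⟨f, hf⟩ : ∃ f : Place k K → ℕ, ∀ P, f (F P) =
      Ideal.inertiaDeg' (IsLocalRing.maximalIdeal (VR v)) P.asIdeal :=
    ⟨Function.extend F (fun P => Ideal.inertiaDeg' (IsLocalRing.maximalIdeal (VR v)) P.asIdeal)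
      0, fun P => hF.extend_apply _ _ P⟩
  refine ⟨Finset.univ.image F, e, f, ?_, ?_, ?_⟩
  · intro w
    constructor
    · intro hw
      obtain ⟨P, -, rfl⟩ := Finset.mem_image.1 hw
      exact T1_over v P
    · intro hw
      obtain ⟨P, hP⟩ := T1_prime v w hw
      exact Finset.mem_image.2 ⟨P, Finset.mem_univ _, hP.symm⟩
  · intro w hw
    obtain ⟨P, -, rfl⟩ := Finset.mem_image.1 hw
    have hlies := T1_lies v P
    have hpr := P.isPrime
    refine ⟨⟨?_, ?_⟩, ?_⟩
    · rw [he]
      have h2 := Ideal.IsDedekindDomain.ramificationIdx'_ne_zero_of_liesOver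
        (p := IsLocalRing.maximalIdeal (VR v)) P.asIdeal hm0
      omega
    · intro x
      rw [he]
      exact T1_over' v P x
    · obtain ⟨j, hj⟩ := T1_hom v (F P) (T1_over v P)
      have h1 := T1_degw v P j hj
      refine ⟨j, hj, ?_, ?_⟩
      · change Module.finrank j.fieldRange (RF (ofHOS (k := k) (H := K) P)) ≠ 0
        rw [h1]
        have hmax : P.asIdeal.IsMaximal := P.isMaximal
        exact (Ideal.inertiaDeg'_pos (IsLocalRing.maximalIdeal (VR v)) P.asIdeal).ne'
      · rw [hf]
        exact h1
  · rw [Finset.sum_image fun P _ Q _ h => hF h]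
    rw [← Ideal.sum_ramification_inertia (integralClosure (VR v) K) H K hm0]
    refine Finset.sum_bij (fun P _ => P.asIdeal) ?_ ?_ ?_ ?_
    · intro P _
      rw [IsDedekindDomain.mem_primesOverFinset_iff hm0]
      exact ⟨P.isPrime, T1_lies v P⟩
    · intro P _ Q _ h
      exact HeightOneSpectrum.ext h
    · intro Q hQ
      rw [IsDedekindDomain.mem_primesOverFinset_iff hm0] at hQ
      have h1 := hQ.2
      exact ⟨⟨Q, hQ.1, Ideal.ne_bot_of_liesOver_of_ne_bot hm0 Q⟩, Finset.mem_univ _, rfl⟩
    · intro P _
      rw [he, hf]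

end setup

end T1aux

open Pool.Agent.LibBH2
open Pool.Agent.LibCHd (VR RF Red FunF)

variable {k : Type} [Field k]

theorem sum_ef [CharZero k] {N N' : Type} [Field N] [Algebra k N] [Field N'] [Algebra k N'] (i : N →ₐ[k] N')
    (hfin : Module.finrank i.fieldRange N' ≠ 0) (v : Place k N) :
    ∃ (S : Finset (Place k N')) (e f : Place k N' → ℕ),
      (∀ w, w ∈ S ↔ ∃ e' : ℤ, 0 < e' ∧ ∀ x, w.ord (i x) = e' * v.ord x) ∧
      (∀ w ∈ S, (0 < e w ∧ ∀ x, w.ord (i x) = (e w : ℤ) * v.ord x) ∧
        ∃ j : RF v →ₐ[k] RF w, (∀ x y, Red v x y → Red w (i x) (j y)) ∧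
          Module.finrank j.fieldRange (RF w) ≠ 0 ∧ Module.finrank j.fieldRange (RF w) = f w) ∧
      ∑ w ∈ S, e w * f w = Module.finrank i.fieldRange N' := by
  let _ : Algebra N N' := (i : N →+* N').toAlgebra
  have htow : IsScalarTower k N N' := IsScalarTower.of_algebraMap_eq fun x => (i.commutes x).symm
  have hrank : Module.finrank N N' = Module.finrank i.fieldRange N' := by
    refine Algebra.finrank_eq_of_equiv_equiv (AlgEquiv.ofInjectiveField i).toRingEquiv
      (RingEquiv.refl N') ?_
    ext x
    rfl
  have hfd : FiniteDimensional N N' := by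
    apply FiniteDimensional.of_finrank_pos
    rw [hrank]
    omega
  obtain ⟨S, e, f, h1, h2, h3⟩ := T1_main (K := N') v
  exact ⟨S, e, f, h1, h2, h3.trans hrank⟩

end Pool.Agent.LibCW77
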