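import Pool.Agent.LibCW77.Defs3
import Pool.Agent.LibCW77.T0
import Pool.Agent.LibCW77.T4
import Pool.Agent.LibCW77.D1
import Pool.Agent.LibCHd.Api
/-!
[CW77 T8a] Specialisation of a lift. `N' / N`, `w` a place of `N'` above the place `v` of `N` (`w.ord (i x) = e v.ord x`), `P` a lift of `z` over
`N'`, `q` the specialisation of `P` at `w`, no point of `q` ramified. Then `z` specialises to a Z-point `z'` at `v` and `q` is a lift of `z'`.
Plan: for every `j` there is `l_j` in `N'` with `Red w (l_j * ev (x_j) t) (ev (q_j) t)` for all constants `t` (`l_j = 1`, or `- x_j⁻¹` if `x_j` has a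
pole). So `Xv q`, `Yv q` are the residues of `l Xv P`, `l Yv P`, all different from `0` (no ramification: `onC_prod`). Hence `R_i` is a
`w`-unit, so a `v`-unit, with residue `r_i` in `RF v`, `j r_i = Xv q i / Yv q i`; `Y_i / Y_0` is a unit with residue `y_i`; `Y' = (1, y_1, y_2)`, `l = Y_0⁻¹`;
`u` is a unit (`∏ v_j`). `IsZ` by reducing the relations. `j` is the homomorphism with `Red v x y → Red w (i x) (j y)`.
-/

open scoped Classical
open Polynomial

namespace Pool.Agent.LibCW77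

open Pool.Agent.LibBH2
open Pool.Agent.LibCHd (VR RF Red FunF)

variable {k : Type} [Field k]

/-- the value of a linear form at a place, up to a factor -/
private theorem t8_one {K : Type} [Field K] [Algebra k K] {w : Place k K} {X : Option K}
    {Q : Option (RF w)} (h : SpO w X Q) :
    ∃ l : K, l ≠ 0 ∧ ∀ t : k, Red w (l * ev X (algebraMap k K t)) (ev Q (algebraMap k (RF w) t)) := by
  rcases X with _ | x
  · have hQ : Q = none := h
    subst hQ
    refine ⟨1, one_ne_zero, fun t => ?_⟩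
    rw [one_mul]
    exact Pool.Agent.LibCHd.red_one w
  · rcases Q with _ | x0
    · have hx : w.ord x < 0 := h
      have hx0 : x ≠ 0 := by
        rintro rfl
        rw [w.ord_zero] at hx
        exact lt_irrefl _ hx
      refine ⟨-x⁻¹, neg_ne_zero.mpr (inv_ne_zero hx0), fun t => ?_⟩
      change Red w (-x⁻¹ * (algebraMap k K t - x)) 1
      rw [Pool.Agent.LibCHd.red_iff_sub (Pool.Agent.LibCHd.red_one w)]
      have e1 : -x⁻¹ * (algebraMap k K t - x) - 1 = -(algebraMap k K t * x⁻¹) := by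
        field_simp
        ring
      rw [e1]
      refine Place.Zer.neg (Place.Zer.reg_mul (w.reg_const t) (Or.inr ?_))
      rw [w.ord_inv]
      omega
    · refine ⟨1, one_ne_zero, fun t => ?_⟩
      rw [one_mul]
      exact (Pool.Agent.LibCHd.red_const w t).sub h

private theorem t8_prod {K : Type} [Field K] [Algebra k K] {w : Place k K} {ι : Type} (s : Finset ι)
    (f : ι → K) (g : ι → RF w) (h : ∀ i, Red w (f i) (g i)) : Red w (∏ i ∈ s, f i) (∏ i ∈ s, g i) := by
  induction s using Finset.induction_on with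
  | empty =>
    rw [Finset.prod_empty, Finset.prod_empty]
    exact Pool.Agent.LibCHd.red_one w
  | insert a s ha ih =>
    rw [Finset.prod_insert ha, Finset.prod_insert ha]
    exact (h a).mul ih

private theorem t8_sum {K : Type} [Field K] [Algebra k K] {w : Place k K} {ι : Type} (s : Finset ι)
    (f : ι → K) (g : ι → RF w) (h : ∀ i, Red w (f i) (g i)) : Red w (∑ i ∈ s, f i) (∑ i ∈ s, g i) := by
  induction s using Finset.induction_on with
  | empty =>
    rw [Finset.sum_empty, Finset.sum_empty]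
    exact Pool.Agent.LibCHd.red_zero w
  | insert a s ha ih =>
    rw [Finset.sum_insert ha, Finset.sum_insert ha]
    exact (h a).add ih

/-- the values of a specialisation -/
private theorem t8_vals {c : Dat k} {K : Type} [Field K] [Algebra k K] {w : Place k K} {m : ℕ}
    {P : Pnt m K} {q : Pnt m (RF w)} (hq : SpP w P q) :
    ∃ L : K, L ≠ 0 ∧ (∀ i, Red w (L * Xv (c.over K) P i) (Xv (c.over (RF w)) q i)) ∧
      ∀ i, Red w (L * Yv (c.over K) P i) (Yv (c.over (RF w)) q i) := by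
  choose l hl0 hl using fun j => t8_one (hq j 0)
  refine ⟨∏ j, l j, Finset.prod_ne_zero_iff.mpr fun j _ => hl0 j, fun i => ?_, fun i => ?_⟩
  · unfold Xv
    rw [← Finset.prod_mul_distrib]
    exact t8_prod _ _ _ fun j => hl j (c.a i)
  · unfold Yv
    rw [← Finset.prod_mul_distrib]
    exact t8_prod _ _ _ fun j => hl j (c.b i)

/-- descent of a unit -/
private theorem t8_desc {N N' : Type} [Field N] [Algebra k N] [Field N'] [Algebra k N']
    (i : N →ₐ[k] N') (v : Place k N) (w : Place k N') (e : ℤ) (he : 0 < e) (hw : ∀ x, w.ord (i x) = e * v.ord x)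
    (j : RF v →ₐ[k] RF w) (hj : ∀ x y, Red v x y → Red w (i x) (j y)) (x : N) (y : RF w)
    (h : Red w (i x) y) (hy : y ≠ 0) : ∃ y' : RF v, Red v x y' ∧ j y' = y ∧ y' ≠ 0 := by
  have h0 : w.ord (i x) = 0 := h.ord_eq_zero hy
  rw [hw] at h0
  have h1 : v.ord x = 0 := by
    rcases mul_eq_zero.mp h0 with h2 | h2
    · omega
    · exact h2
  obtain ⟨y', hy'⟩ := Pool.Agent.LibCHd.exists_red (v := v) (f := x) (Or.inr h1.ge)
  have h2 : j y' = y := (hj x y' hy').unique h
  refine ⟨y', hy', h2, ?_⟩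
  rintro rfl
  exact hy (by rw [← h2, map_zero])

private theorem t8_ka {c : Dat k} (M : Type) [Field M] [Algebra k M] (i : Fin 3) :
    ka (c.over M) i = algebraMap k M (ka c i) := ka_map (algebraMap k M) c i

private theorem t8_kb {c : Dat k} (M : Type) [Field M] [Algebra k M] (i : Fin 3) :
    kb (c.over M) i = algebraMap k M (kb c i) := kb_map (algebraMap k M) c i

private theorem t8_cA {c : Dat k} {K : Type} [Field K] [Algebra k K] {w : Place k K} {R : Fin 3 → K}
    {r : Fin 3 → RF w} (h : ∀ i, Red w (R i) (r i)) (i : Fin 3) :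
    Red w (cA (c.over K) R i) (cA (c.over (RF w)) r i) := by
  unfold cA
  rw [t8_ka K, t8_kb K, t8_ka (RF w), t8_kb (RF w)]
  exact ((Pool.Agent.LibCHd.red_const w _).mul (h i)).add (Pool.Agent.LibCHd.red_const w _)

private theorem t8_cB {c : Dat k} {K : Type} [Field K] [Algebra k K] {w : Place k K} {R : Fin 3 → K}
    {r : Fin 3 → RF w} (h : ∀ i, Red w (R i) (r i)) (i : Fin 3) :
    Red w (cB (c.over K) R i) (cB (c.over (RF w)) r i) := by
  unfold cB
  rw [t8_ka K, t8_kb K, t8_ka (RF w), t8_kb (RF w)]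
  exact (((Pool.Agent.LibCHd.red_const w _).mul (Pool.Agent.LibCHd.red_const w (c.a i))).mul (h i)).add
    ((Pool.Agent.LibCHd.red_const w _).mul (Pool.Agent.LibCHd.red_const w (c.b i)))

theorem lift_sp {c : Dat k} (hc : c.Good) {N N' : Type} [Field N] [Algebra k N] [Field N'] [Algebra k N']
    (i : N →ₐ[k] N') (v : Place k N) (w : Place k N') (e : ℤ) (he : 0 < e) (hw : ∀ x, w.ord (i x) = e * v.ord x)
    (j : RF v →ₐ[k] RF w) (hj : ∀ x y, Red v x y → Red w (i x) (j y)) {z : Zp N} (hz : IsZ (c.over N) z)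
    {P : Pnt 3 N'} (hP : IsLift (c.over N') (z.map i) P) (q : Pnt 3 (RF w)) (hq : SpP w P q) (hr : ¬ Ram q) :
    ∃ z' : Zp (RF v), SpZ v z z' ∧ IsZ (c.over (RF v)) z' ∧ IsLift (c.over (RF w)) (z'.map j) q := by
  have hon : On (c.over (RF w)) q := on_sp hc hP.on hq
  obtain ⟨hZq, -⟩ := zpt_lift (good_map (M := RF w) hc) hon hr
  have hYq : ∀ i, Yv (c.over (RF w)) q i ≠ 0 := hZq.Y0
  have hXq : ∀ i, Xv (c.over (RF w)) q i ≠ 0 := fun i' h0 => hZq.R0 i' (by
    change Xv (c.over (RF w)) q i' / Yv (c.over (RF w)) q i' = 0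
    rw [h0, zero_div])
  obtain ⟨L, hL0, hLX, hLY⟩ := t8_vals (c := c) hq
  obtain ⟨l, hl0, hl⟩ := hP.val
  have hzY : ∀ i', i (z.Y i') ≠ 0 := fun i' h0 => hz.Y0 i' ((map_eq_zero i).mp h0)
  have hYP : ∀ i', Yv (c.over N') P i' = l * i (z.Y i') := fun i' => (hl i').2
  have hXP : ∀ i', Xv (c.over N') P i' = l * (i (z.R i') * i (z.Y i')) := fun i' => (hl i').1
  -- the ratios
  have hR : ∀ i', Red w (i (z.R i')) (Xv (c.over (RF w)) q i' / Yv (c.over (RF w)) q i') := by
    intro i'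
    have h1 := (hLX i').div (hLY i') (hYq i')
    have h2 : L * Xv (c.over N') P i' / (L * Yv (c.over N') P i') = i (z.R i') := by
      rw [hXP, hYP]
      have := hzY i'
      field_simp
    rwa [h2] at h1
  have hY : ∀ i', Red w (i ((z.Y 0)⁻¹ * z.Y i')) (Yv (c.over (RF w)) q i' / Yv (c.over (RF w)) q 0) := by
    intro i'
    have h1 := (hLY i').div (hLY 0) (hYq 0)
    have h2 : L * Yv (c.over N') P i' / (L * Yv (c.over N') P 0) = i ((z.Y 0)⁻¹ * z.Y i') := by
      rw [hYP, hYP, map_mul, map_inv₀]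
      have := hzY 0
      field_simp
    rwa [h2] at h1
  choose r hr1 hr2 hr3 using fun i' => t8_desc i v w e he hw j hj _ _ (hR i') (div_ne_zero (hXq i') (hYq i'))
  choose y hy1 hy2 hy3 using fun i' => t8_desc i v w e he hw j hj _ _ (hY i') (div_ne_zero (hYq i') (hYq 0))
  -- the product of the coordinates
  obtain ⟨vv, hvv, hprod⟩ := hP.prod
  have hq1 : ∀ j', ∃ t : RF w, q j' 1 = some t ∧ t ≠ 0 ∧ Red w (vv j') t := by
    intro j'
    have h1 := hq j' 1
    rw [hvv] at h1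
    rcases hqj : q j' 1 with _ | t
    · exact absurd ⟨j', Or.inl hqj⟩ hr
    · rw [hqj] at h1
      refine ⟨t, rfl, ?_, h1⟩
      rintro rfl
      exact hr ⟨j', Or.inr hqj⟩
  choose t ht1 ht2 ht3 using hq1
  have hu : Red w (i z.u) (∏ j', t j') := by
    have h1 := t8_prod Finset.univ vv t ht3
    rw [hprod] at h1
    exact h1
  obtain ⟨u', hu1, hu2, hu3⟩ := t8_desc i v w e he hw j hj _ _ hu
    (Finset.prod_ne_zero_iff.mpr fun j' _ => ht2 j')
  refine ⟨⟨r, y, u'⟩, ⟨hr1, hu1, (z.Y 0)⁻¹, hy1⟩, ⟨hr3, hy3, hu3, ?_, ?_, ?_⟩, ⟨hon, ?_, ?_⟩⟩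
  · have h1 := hu1.pow c.n
    have h2 := t8_prod Finset.univ z.R r hr1
    have h3 : z.u ^ c.n = ∏ i', z.R i' := hz.un
    rw [h3] at h1
    exact h1.unique h2
  · have h1 := t8_sum Finset.univ (fun i' => cA (c.over N) z.R i' * ((z.Y 0)⁻¹ * z.Y i'))
      (fun i' => cA (c.over (RF v)) r i' * y i') fun i' => (t8_cA hr1 i').mul (hy1 i')
    have h2 : ∑ i', cA (c.over N) z.R i' * ((z.Y 0)⁻¹ * z.Y i') = 0 := by
      have h3 : ∑ i', cA (c.over N) z.R i' * ((z.Y 0)⁻¹ * z.Y i') =
          (z.Y 0)⁻¹ * ∑ i', cA (c.over N) z.R i' * z.Y i' := by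
        rw [Finset.mul_sum]
        exact Finset.sum_congr rfl fun i' _ => by ring
      rw [h3, hz.r1, mul_zero]
    rw [h2] at h1
    exact h1.unique (Pool.Agent.LibCHd.red_zero v)
  · have h1 := t8_sum Finset.univ (fun i' => cB (c.over N) z.R i' * ((z.Y 0)⁻¹ * z.Y i'))
      (fun i' => cB (c.over (RF v)) r i' * y i') fun i' => (t8_cB hr1 i').mul (hy1 i')
    have h2 : ∑ i', cB (c.over N) z.R i' * ((z.Y 0)⁻¹ * z.Y i') = 0 := by
      have h3 : ∑ i', cB (c.over N) z.R i' * ((z.Y 0)⁻¹ * z.Y i') =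
          (z.Y 0)⁻¹ * ∑ i', cB (c.over N) z.R i' * z.Y i' := by
        rw [Finset.mul_sum]
        exact Finset.sum_congr rfl fun i' _ => by ring
      rw [h3, hz.r2, mul_zero]
    rw [h2] at h1
    exact h1.unique (Pool.Agent.LibCHd.red_zero v)
  · refine ⟨Yv (c.over (RF w)) q 0, hYq 0, fun i' => ⟨?_, ?_⟩⟩
    · change Xv (c.over (RF w)) q i' = Yv (c.over (RF w)) q 0 * (j (r i') * j (y i'))
      rw [hr2, hy2]
      have h1 := hYq i'
      have h2 := hYq 0
      field_simp
    · change Yv (c.over (RF w)) q i' = Yv (c.over (RF w)) q 0 * j (y i')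
      rw [hy2]
      have h2 := hYq 0
      field_simp
  · exact ⟨t, ht1, hu2.symm⟩

/-- specialisations of Z-points are unique up to scaling -/
theorem spZ_unique {c : Dat k} {N : Type} [Field N] [Algebra k N] {v : Place k N} {z : Zp N} {z' z'' : Zp (RF v)}
    (h : SpZ v z z') (h' : SpZ v z z'') (hz : IsZ (c.over (RF v)) z') (hz' : IsZ (c.over (RF v)) z'') :
    z''.R = z'.R ∧ z''.u = z'.u ∧ ∃ l : RF v, l ≠ 0 ∧ ∀ i, z''.Y i = l * z'.Y i := by
  refine ⟨funext fun i => (h'.R i).unique (h.R i), h'.u.unique h.u, ?_⟩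
  obtain ⟨l1, hl1⟩ := h.Y
  obtain ⟨l2, hl2⟩ := h'.Y
  have h1 : l1 * z.Y 0 ≠ 0 := (hl1 0).ne_zero (hz.Y0 0)
  have h2 : l1 ≠ 0 := fun h0 => h1 (by rw [h0, zero_mul])
  have h3 : z.Y 0 ≠ 0 := fun h0 => h1 (by rw [h0, mul_zero])
  have h4 : Red v (l2 / l1) (z''.Y 0 / z'.Y 0) := by
    have h5 := (hl2 0).div (hl1 0) (hz.Y0 0)
    have h6 : l2 * z.Y 0 / (l1 * z.Y 0) = l2 / l1 := by
      field_simp
    rwa [h6] at h5
  refine ⟨z''.Y 0 / z'.Y 0, div_ne_zero (hz'.Y0 0) (hz.Y0 0), fun i => ?_⟩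
  have h5 := h4.mul (hl1 i)
  have h6 : l2 / l1 * (l1 * z.Y i) = l2 * z.Y i := by
    field_simp
  rw [h6] at h5
  exact (hl2 i).unique h5

end Pool.Agent.LibCW77
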