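import Pool.Agent.LibCW77.Defs3
import Pool.Agent.LibCW77.T1
import Pool.Agent.LibCW77.T7
import Pool.Agent.LibCW77.T8a
import Pool.Agent.LibCW77.D4
import Pool.Agent.LibCW77.D6
/-!
[CW77 T8] The master relation. Plan: a lift `P` of `z` over a finite extension `N'` (`exists_lift`). For every `(σ, w)` and for `τ₁`: `div_rel` for
`pr σ (tw w P)` and the function `i g` on `N'` (dimension 2), with one finite set `S'` of places of `N'` containing all places with `ord ≠ 0`, residue
field of dimension 1 and `cyc ≠ 0` (`fin_cyc`; `FunF k 1` for all of them), enlarged by all places above the places in `S` (`sum_ef`). Add up: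
`∑_(w' ∈ S') w'.ord (i g) • mns (q w') = 0`. For `w'` in `S'` let `v` be its restriction (`place_restr`). If `q w'` is ramified `mns = 0`
(`mns_ram`). Else `lift_sp` gives `z'` at `v`; `FunF k 1 (RF v)` (`funF_sub`). If `v` is not in `S`: `z'` is constant (`h2`), `TZ = 0` (`TZ_cst`), so
`q (mns (q w')) = 0` (`TZ_spec`). If `v ∈ S`: `spZ_unique`, `TZ_scale`: `q (mns (q w')) = f(w') • TZ (Z v)`. Group the sum by `v` (every `w'` above a `v ∈ S`
occurs): `∑_(v ∈ S) v.ord g (∑ e f) • TZ (Z v) = finrank • ∑_(v ∈ S) v.ord g • TZ (Z v)` (`sum_ef`) and divide. Places above `v ∈ S` where `q w'` is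
ramified do not occur: `hint` below: if `z` specialises to a Z-point at `v` then no `q w'` above `v` is ramified.
-/

open scoped Classical
open Polynomial

namespace Pool.Agent.LibCW77

open Pool.Agent.LibBH2
open Pool.Agent.LibCHd (VR RF Red FunF)

variable {k : Type} [Field k]

private theorem T8_restr_unique {N N' : Type} [Field N] [Algebra k N] [Field N'] [Algebra k N']
    (i : N →ₐ[k] N') (w : Place k N') {v v' : Place k N} {e e' : ℤ} (he : 0 < e) (he' : 0 < e')
    (h : ∀ x, w.ord (i x) = e * v.ord x) (h' : ∀ x, w.ord (i x) = e' * v'.ord x) : v = v' := by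
  obtain ⟨t, ht⟩ := v.exists_uniformizer
  obtain ⟨t', ht'⟩ := v'.exists_uniformizer
  have h1 : e = e' * v'.ord t := by rw [← h', h, ht, mul_one]
  have h2 : e' = e * v.ord t' := by rw [← h, h', ht', mul_one]
  have h3 : e = e' := Int.dvd_antisymm he.le he'.le ⟨_, h2⟩ ⟨_, h1⟩
  refine Place.ext' fun x => ?_
  have h4 : e * v.ord x = e * v'.ord x := by
    rw [← h, h', ← h3]
  exact mul_left_cancel₀ he.ne' h4

private theorem T8_ev {N' : Type} [Field N'] [Algebra k N'] (w : Place k N') (x : Option N') :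
    ∃ (p : ℤ) (T : Finset k), T.card ≤ 1 ∧ ∀ t : k,
      (t ∉ T → w.ord (ev x (algebraMap k N' t)) = p) ∧
      (ev x (algebraMap k N' t) ≠ 0 → p ≤ w.ord (ev x (algebraMap k N' t))) := by
  cases x with
  | none =>
    exact ⟨0, ∅, by simp, fun t => ⟨fun _ => w.ord_one, fun _ => w.ord_one.ge⟩⟩
  | some x =>
    by_cases hx : w.Reg x
    · have hreg : ∀ t : k, w.Reg (algebraMap k N' t - x) := fun t => (w.reg_const t).sub hx
      have hle : ∀ t : k, algebraMap k N' t - x ≠ 0 → 0 ≤ w.ord (algebraMap k N' t - x) := by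
        intro t h
        rcases hreg t with h0 | h0
        · exact absurd h0 h
        · exact h0
      by_cases hex : ∃ t0 : k, w.Zer (x - algebraMap k N' t0)
      · obtain ⟨t0, ht0⟩ := hex
        refine ⟨0, {t0}, by simp, fun t => ⟨fun ht => ?_, fun h => hle t h⟩⟩
        have ht' : t ≠ t0 := by simpa using ht
        refine Place.ord_eq_zero_of_val (c := t - t0) ?_ (sub_ne_zero.2 ht')
        have h1 : algebraMap k N' t - x - algebraMap k N' (t - t0) =
            -(x - algebraMap k N' t0) := by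
          rw [map_sub]
          ring
        show w.Zer (algebraMap k N' t - x - algebraMap k N' (t - t0))
        rw [h1]
        exact ht0.neg
      · refine ⟨0, ∅, by simp, fun t => ⟨fun _ => ?_, fun h => hle t h⟩⟩
        refine Place.ord_eq_zero_of_reg (hreg t) fun h => hex ⟨t, ?_⟩
        have h1 : x - algebraMap k N' t = -(algebraMap k N' t - x) := by ring
        rw [h1]
        exact h.neg
    · have hx0 : x ≠ 0 := fun h => hx (Or.inl h)
      have hx1 : w.ord x < 0 := by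
        by_contra h
        exact hx (Or.inr (not_lt.1 h))
      have key : ∀ t : k, w.ord (algebraMap k N' t - x) = w.ord x := by
        intro t
        by_cases ht : t = 0
        · rw [ht, map_zero, zero_sub, w.ord_neg]
        · have h1 : algebraMap k N' t - x = -x + algebraMap k N' t := by ring
          have h2 := (Place.ord_add_of_lt (v := w) (neg_ne_zero.2 hx0)
            ((map_ne_zero (algebraMap k N')).2 ht)
            (by rw [w.ord_neg, w.ord_const t ht]; exact hx1)).2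
          rw [h1, h2, w.ord_neg]
      exact ⟨w.ord x, ∅, by simp, fun t => ⟨fun _ => key t, fun _ => (key t).ge⟩⟩

private theorem T8_ord_prod {N' : Type} [Field N'] [Algebra k N'] (w : Place k N') {ι : Type}
    (s : Finset ι) (f : ι → N') (hf : ∀ j ∈ s, f j ≠ 0) :
    w.ord (∏ j ∈ s, f j) = ∑ j ∈ s, w.ord (f j) := by
  induction s using Finset.induction_on with
  | empty => simp
  | insert a s ha ih =>
    rw [Finset.prod_insert ha, Finset.sum_insert ha,
      w.ord_mul _ _ (hf a (Finset.mem_insert_self _ _))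
        (Finset.prod_ne_zero_iff.2 fun j hj => hf j (Finset.mem_insert_of_mem hj)),
      ih fun j hj => hf j (Finset.mem_insert_of_mem hj)]

/-- if `z` specialises to a Z-point at `v` the specialisations of a lift above `v` are not ramified -/
theorem sp_not_ram {c : Dat k} (hc : c.Good) {N N' : Type} [Field N] [Algebra k N] [Field N'] [Algebra k N']
    (i : N →ₐ[k] N') (v : Place k N) (w : Place k N') (e : ℤ) (he : 0 < e) (hw : ∀ x, w.ord (i x) = e * v.ord x)
    {z : Zp N} (hz : IsZ (c.over N) z) {z' : Zp (RF v)} (hz' : IsZ (c.over (RF v)) z') (hs : SpZ v z z')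
    {P : Pnt 3 N'} (hP : IsLift (c.over N') (z.map i) P) (q : Pnt 3 (RF w)) (hq : SpP w P q) : ¬ Ram q := by
  intro hram
  obtain ⟨v', hv', hprod⟩ := hP.prod
  have hu0 : i z.u ≠ 0 := (map_ne_zero i).2 hz.u0
  have hv0 : ∀ j, v' j ≠ 0 := by
    intro j h0
    apply hu0
    have h1 : ∏ j, v' j = i z.u := hprod
    rw [← h1]
    exact Finset.prod_eq_zero (Finset.mem_univ j) h0
  have hR : ∀ a, w.ord (i (z.R a)) = 0 := fun a => by
    rw [hw, (hs.R a).ord_eq_zero (hz'.R0 a), mul_zero]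
  obtain ⟨l0, hl0⟩ := hs.Y
  have hl0' : l0 ≠ 0 := left_ne_zero_of_mul ((hl0 0).ne_zero (hz'.Y0 0))
  have hY : ∀ a, w.ord (i (z.Y a)) = - w.ord (i l0) := by
    intro a
    have h1 := (hl0 a).ord_eq_zero (hz'.Y0 a)
    rw [v.ord_mul _ _ hl0' (hz.Y0 a)] at h1
    have h2 : v.ord (z.Y a) = - v.ord l0 := by omega
    rw [hw, hw, h2, mul_neg]
  obtain ⟨l, hl, hval⟩ := hP.val
  have hRi : ∀ a, i (z.R a) ≠ 0 := fun a => (map_ne_zero i).2 (hz.R0 a)
  have hYi : ∀ a, i (z.Y a) ≠ 0 := fun a => (map_ne_zero i).2 (hz.Y0 a)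
  have hX : ∀ a, Xv (c.over N') P a ≠ 0 ∧
      w.ord (Xv (c.over N') P a) = w.ord l - w.ord (i l0) := by
    intro a
    have h1 : Xv (c.over N') P a = l * (i (z.R a) * i (z.Y a)) := (hval a).1
    rw [h1]
    refine ⟨mul_ne_zero hl (mul_ne_zero (hRi a) (hYi a)), ?_⟩
    rw [w.ord_mul _ _ hl (mul_ne_zero (hRi a) (hYi a)), w.ord_mul _ _ (hRi a) (hYi a), hR, hY]
    ring
  have hYv : ∀ a, Yv (c.over N') P a ≠ 0 ∧
      w.ord (Yv (c.over N') P a) = w.ord l - w.ord (i l0) := by
    intro a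
    have h1 : Yv (c.over N') P a = l * i (z.Y a) := (hval a).2
    rw [h1]
    refine ⟨mul_ne_zero hl (hYi a), ?_⟩
    rw [w.ord_mul _ _ hl (hYi a), hY]
    ring
  have htot : ∀ s : Fin 3 ⊕ Fin 3,
      (∏ j, ev (P j 0) (algebraMap k N' (Sum.elim c.a c.b s))) ≠ 0 ∧
      w.ord (∏ j, ev (P j 0) (algebraMap k N' (Sum.elim c.a c.b s))) =
        w.ord l - w.ord (i l0) := by
    rintro (a | a)
    · exact hX a
    · exact hYv a
  have hne : ∀ (s : Fin 3 ⊕ Fin 3) (j : Fin 3),
      ev (P j 0) (algebraMap k N' (Sum.elim c.a c.b s)) ≠ 0 := by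
    intro s j
    exact Finset.prod_ne_zero_iff.1 (htot s).1 j (Finset.mem_univ j)
  have hord : ∀ s : Fin 3 ⊕ Fin 3,
      ∑ j, w.ord (ev (P j 0) (algebraMap k N' (Sum.elim c.a c.b s))) =
        w.ord l - w.ord (i l0) := by
    intro s
    rw [← (htot s).2, T8_ord_prod w _ _ fun j _ => hne s j]
  choose p T hT hpT using fun j => T8_ev w (P j 0)
  obtain ⟨s0, hs0⟩ : ∃ s, ∀ j, Sum.elim c.a c.b s ∉ T j := by
    by_contra hcon
    push Not at hcon
    have h1 : Finset.univ.image (Sum.elim c.a c.b) ⊆ Finset.univ.biUnion T := by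
      intro t ht
      obtain ⟨s, -, rfl⟩ := Finset.mem_image.1 ht
      obtain ⟨j, hj⟩ := hcon s
      exact Finset.mem_biUnion.2 ⟨j, Finset.mem_univ j, hj⟩
    have h2 := Finset.card_le_card h1
    rw [Finset.card_image_of_injective _ hc.inj] at h2
    have h3 : (Finset.univ.biUnion T).card ≤ ∑ j, (T j).card := Finset.card_biUnion_le
    have h4 : ∑ j, (T j).card ≤ ∑ _j : Fin 3, 1 := Finset.sum_le_sum fun j _ => hT j
    simp at h2 h4
    omega
  have hm : ∑ j, p j = w.ord l - w.ord (i l0) := by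
    rw [← hord s0]
    exact Finset.sum_congr rfl fun j _ => ((hpT j _).1 (hs0 j)).symm
  have hev : ∀ (s : Fin 3 ⊕ Fin 3) (j : Fin 3),
      w.ord (ev (P j 0) (algebraMap k N' (Sum.elim c.a c.b s))) = p j := by
    intro s j
    have hle : ∀ j ∈ (Finset.univ : Finset (Fin 3)),
        p j ≤ w.ord (ev (P j 0) (algebraMap k N' (Sum.elim c.a c.b s))) :=
      fun j _ => (hpT j _).2 (hne s j)
    exact ((Finset.sum_eq_sum_iff_of_le hle).1 (hm.trans (hord s).symm) j
      (Finset.mem_univ j)).symm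
  obtain ⟨j, hj⟩ := hram
  have hov : w.ord (v' j) = 0 := by
    have h1 := onC_prod (good_map (M := N') hc) (hP.on j) (v' j) (hv' j)
    have h2 := congrArg w.ord h1
    have hb : ∀ a ∈ (Finset.univ : Finset (Fin 3)), ev (P j 0) ((c.over N').b a) ≠ 0 :=
      fun a _ => hne (Sum.inr a) j
    have ha : ∀ a ∈ (Finset.univ : Finset (Fin 3)), ev (P j 0) ((c.over N').a a) ≠ 0 :=
      fun a _ => hne (Sum.inl a) j
    rw [w.ord_mul _ _ (pow_ne_zero _ (hv0 j)) (Finset.prod_ne_zero_iff.2 hb), w.ord_pow,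
      T8_ord_prod w _ _ hb, T8_ord_prod w _ _ ha] at h2
    have h3 : ∑ a, w.ord (ev (P j 0) ((c.over N').b a)) = ∑ _a : Fin 3, p j :=
      Finset.sum_congr rfl fun a _ => hev (Sum.inr a) j
    have h4 : ∑ a, w.ord (ev (P j 0) ((c.over N').a a)) = ∑ _a : Fin 3, p j :=
      Finset.sum_congr rfl fun a _ => hev (Sum.inl a) j
    rw [h3, h4] at h2
    have h5 : ((c.over N').n : ℤ) * w.ord (v' j) = 0 := by linarith
    have h6 : ((c.over N').n : ℤ) ≠ 0 := by
      have := hc.two
      show ((c.n : ℕ) : ℤ) ≠ 0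
      omega
    exact (mul_eq_zero.1 h5).resolve_left h6
  have hsp := hq j 1
  rw [hv' j] at hsp
  rcases hj with h | h
  · rw [h] at hsp
    change w.ord (v' j) < 0 at hsp
    omega
  · rw [h] at hsp
    change Red w (v' j) 0 at hsp
    rcases Pool.Agent.LibCHd.red_zero_iff.1 hsp with h1 | h1
    · exact hv0 j h1
    · omega

variable {V : Type} [AddCommGroup V] [Module ℚ V]

theorem master [IsAlgClosed k] [CharZero k] {c : Dat k} (hc : c.Good) {ζ : k} (hζ : IsPrimitiveRoot ζ c.n)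
    (q : CH c 3 1 →+ V) {N : Type} [Field N] [Algebra k N] (hN : FunF k 2 N) {z : Zp N} (hz : IsZ (c.over N) z)
    (g : N) (hg : g ≠ 0) (S : Finset (Place k N)) (Z : ∀ v : Place k N, Zp (RF v))
    (h1 : ∀ v ∈ S, FunF k 1 (RF v) ∧ IsZ (c.over (RF v)) (Z v) ∧ SpZ v z (Z v))
    (h2 : ∀ v, v ∉ S → v.ord g ≠ 0 → FunF k 1 (RF v) → ∀ z' : Zp (RF v), IsZ (c.over (RF v)) z' →
      SpZ v z z' → CstZ k z') :
    ∑ v ∈ S, v.ord g • TZ c ζ q (Z v) = 0 := by
  obtain ⟨N', _, _, i, P, hfin, hP⟩ := exists_lift hc z hz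
  have hN' : FunF k 2 N' := funF_finite i hfin hN
  choose qq hqq using fun w : Place k N' => spP_exists w P
  have hig : i g ≠ 0 := (map_ne_zero i).2 hg
  choose T e f hT hj0 hsum using fun v : Place k N => sum_ef i hfin v
  choose hee j hred0 hf0 hff using hj0
  have hj : ∀ (v : Place k N) (w : Place k N') (hw : w ∈ T v),
      (0 < e v w ∧ ∀ x, w.ord (i x) = (e v w : ℤ) * v.ord x) ∧
        (∀ x y, Red v x y → Red w (i x) (j v w hw y)) ∧
          Module.finrank (j v w hw).fieldRange (RF w) ≠ 0 := fun v w hw =>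
    ⟨hee v w hw, hred0 v w hw, hf0 v w hw⟩
  obtain ⟨S1, hS1⟩ : ∃ S1 : Finset (Place k N'), S1 =
    (fin_cyc hN' (i g) P).toFinset ∪ S.biUnion T := ⟨_, rfl⟩
  have hTS : ∀ v ∈ S, ∀ w ∈ T v, FunF k 1 (RF w) := fun v hv w hw =>
    funF_finite (j v w hw) (hj v w hw).2.2 (h1 v hv).1
  have hFun : ∀ w ∈ S1, FunF k 1 (RF w) := by
    intro w hw
    rw [hS1, Finset.mem_union, Set.Finite.mem_toFinset, Finset.mem_biUnion] at hw
    rcases hw with hw | ⟨v, hv, hw⟩
    · exact hw.2.1
    · exact hTS v hv w hw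
  have hout : ∀ w, w ∉ S1 → w.ord (i g) ≠ 0 → FunF k 1 (RF w) → cyc k (qq w) = 0 := by
    intro w hw ho hF
    by_contra hcon
    apply hw
    rw [hS1, Finset.mem_union, Set.Finite.mem_toFinset]
    exact Or.inl ⟨ho, hF, qq w, hqq w, hcon⟩
  have hn : 0 < c.n := lt_of_lt_of_le two_pos hc.two
  have hζ1 : ∀ a, t1 ζ a ^ c.n = 1 := by
    intro a
    fin_cases a
    · exact hζ.pow_eq_one
    · exact one_pow _
    · exact one_pow _
  have hW : ∀ a ∈ W c, ∀ s, a s ^ c.n = 1 := by
    intro a ha s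
    unfold W at ha
    rw [Finset.mem_filter, Fintype.mem_piFinset] at ha
    exact (mem_nthRootsFinset hn (1 : k)).1 (ha.1 s)
  have hne0 : ∀ a : Fin 3 → k, (∀ s, a s ^ c.n = 1) → ∀ s, a s ≠ 0 := by
    intro a ha s h0
    have h3 := ha s
    rw [h0, zero_pow hn.ne'] at h3
    exact zero_ne_one h3
  have hzero : ∀ (a : Fin 3 → k), (∀ s, a s ≠ 0) → ∀ {M : Type} [Field M] [Algebra k M]
      (u : Pnt 3 M), cyc k u = 0 → cyc k (tw a u) = 0 := by
    intro a ha M _ _ u h
    rw [cyc_zero_iff] at h ⊢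
    rw [fld_tw a ha]
    exact h
  have hzero' : ∀ (σ : Equiv.Perm (Fin 3)), ∀ {M : Type} [Field M] [Algebra k M]
      (u : Pnt 3 M), cyc k u = 0 → cyc k (pr σ u) = 0 := by
    intro σ M _ _ u h
    rw [cyc_zero_iff] at h ⊢
    rw [fld_pr σ]
    exact h
  have hr1 : ∀ (σ : Equiv.Perm (Fin 3)) (a : Fin 3 → k), a ∈ W c →
      ∑ w ∈ S1, w.ord (i g) • cls c 1 (pr σ (tw a (qq w))) = 0 := by
    intro σ a ha
    have ha1 := hW a ha
    have ha0 := hne0 a ha1
    exact div_rel c 3 1 hN' (pr σ (tw a P)) (on_pr σ (on_tw a ha1 hP.on)) (i g) hig S1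
      (fun w => pr σ (tw a (qq w))) (fun w => spP_pr σ (spP_tw a ha0 (hqq w))) hFun
      (fun w hw ho hF => hzero' σ _ (hzero a ha0 _ (hout w hw ho hF)))
  have hr2 : ∀ (σ : Equiv.Perm (Fin 3)) (a : Fin 3 → k), a ∈ W c →
      ∑ w ∈ S1, w.ord (i g) • cls c 1 (pr σ (tw a (tw (t1 ζ) (qq w)))) = 0 := by
    intro σ a ha
    have ha1 := hW a ha
    have ha0 := hne0 a ha1
    have hb0 := hne0 _ hζ1
    exact div_rel c 3 1 hN' (pr σ (tw a (tw (t1 ζ) P)))
      (on_pr σ (on_tw a ha1 (on_tw _ hζ1 hP.on))) (i g) hig S1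
      (fun w => pr σ (tw a (tw (t1 ζ) (qq w))))
      (fun w => spP_pr σ (spP_tw a ha0 (spP_tw _ hb0 (hqq w)))) hFun
      (fun w hw ho hF => hzero' σ _ (hzero a ha0 _ (hzero _ hb0 _ (hout w hw ho hF))))
  have hmns : ∑ w ∈ S1, w.ord (i g) • mns c ζ (qq w) = 0 := by
    unfold mns
    simp only [Finset.smul_sum]
    rw [Finset.sum_comm]
    refine Finset.sum_eq_zero fun σ _ => ?_
    rw [Finset.sum_comm]
    refine Finset.sum_eq_zero fun a ha => ?_
    simp only [smul_sub, Finset.sum_sub_distrib]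
    rw [hr1 σ a ha, hr2 σ a ha, sub_zero]
  have hV : ∑ w ∈ S1, w.ord (i g) • q (mns c ζ (qq w)) = 0 := by
    have h3 := congrArg q hmns
    rw [map_sum, map_zero] at h3
    rw [← h3]
    exact Finset.sum_congr rfl fun w _ => (map_zsmul q _ _).symm
  have hin : ∀ v ∈ S, ∀ w ∈ T v, q (mns c ζ (qq w)) = f v w • TZ c ζ q (Z v) := by
    intro v hv w hw
    rw [← hff v w hw]
    obtain ⟨⟨he0, he⟩, hred, hf⟩ := hj v w hw
    obtain ⟨hF, hZ, hSp⟩ := h1 v hv
    have he0' : (0 : ℤ) < (e v w : ℤ) := by exact_mod_cast he0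
    have hnr := sp_not_ram hc i v w (e v w) he0' he hz hZ hSp hP (qq w) (hqq w)
    obtain ⟨z', hs', hz', hl'⟩ := lift_sp hc i v w (e v w) he0' he (j v w hw) hred hz hP (qq w)
      (hqq w) hnr
    obtain ⟨hR, hu, l, hl, hY⟩ := spZ_unique hs' hSp hz' hZ
    rw [TZ_scale hc hζ q hz' hR hu l hl hY]
    exact TZ_spec hc hζ q hz' (j v w hw) (qq w) hf hl'
  have hnot : ∀ w ∈ S1, w ∉ S.biUnion T → w.ord (i g) • q (mns c ζ (qq w)) = 0 := by
    intro w hw hw'
    have hw2 := hw
    rw [hS1, Finset.mem_union, Set.Finite.mem_toFinset] at hw2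
    obtain ⟨ho, hF, -⟩ := hw2.resolve_right hw'
    obtain ⟨v, e', he', hve⟩ := place_restr i hfin w
    have hwT : w ∈ T v := (hT v w).2 ⟨e', he', hve⟩
    have hvS : v ∉ S := fun hv => hw' (Finset.mem_biUnion.2 ⟨v, hv, hwT⟩)
    by_cases hram : Ram (qq w)
    · rw [mns_ram hc hζ _ hram, map_zero, smul_zero]
    · obtain ⟨⟨he0, he⟩, hred, hf⟩ := hj v w hwT
      have he0' : (0 : ℤ) < (e v w : ℤ) := by exact_mod_cast he0
      obtain ⟨z', hs', hz', hl'⟩ := lift_sp hc i v w (e v w) he0' he (j v w hwT) hred hz hP (qq w)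
        (hqq w) hram
      have hFv : FunF k 1 (RF v) := funF_sub (j v w hwT) hf hF
      have hvg : v.ord g ≠ 0 := by
        intro h0
        rw [he, h0, mul_zero] at ho
        exact ho rfl
      have hcst := h2 v hvS hvg hFv z' hz' hs'
      rw [TZ_spec hc hζ q hz' (j v w hwT) (qq w) hf hl', TZ_cst hc hζ q hFv hz' hcst, smul_zero,
        smul_zero]
  have hsub : S.biUnion T ⊆ S1 := by
    rw [hS1]
    exact Finset.subset_union_right
  have hdisj : (S : Set (Place k N)).PairwiseDisjoint T := by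
    intro v _ v' _ hvv
    rw [Function.onFun, Finset.disjoint_left]
    intro w hw hw'
    obtain ⟨e1, he1, h3⟩ := (hT v w).1 hw
    obtain ⟨e2, he2, h4⟩ := (hT v' w).1 hw'
    exact hvv (T8_restr_unique i w he1 he2 h3 h4)
  rw [← Finset.sum_subset hsub hnot, Finset.sum_biUnion hdisj] at hV
  have hfinal : ∑ v ∈ S, Module.finrank i.fieldRange N' • (v.ord g • TZ c ζ q (Z v)) = 0 := by
    rw [← hV]
    refine Finset.sum_congr rfl fun v hv => ?_
    rw [← hsum v, Finset.sum_smul]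
    refine Finset.sum_congr rfl fun w hw => ?_
    rw [hin v hv w hw, (hj v w hw).1.2 g, mul_smul, mul_smul, smul_comm _ (v.ord g),
      natCast_zsmul, smul_comm (v.ord g)]
  rw [← Finset.smul_sum] at hfinal
  have h3 : ((Module.finrank i.fieldRange N' : ℕ) : ℚ) • ∑ v ∈ S, v.ord g • TZ c ζ q (Z v) = 0 := by
    rw [Nat.cast_smul_eq_nsmul]
    exact hfinal
  exact (smul_eq_zero.1 h3).resolve_left (by exact_mod_cast hfin)

end Pool.Agent.LibCW77
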