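import Pool.Agent.LibCW77.Defs3
import Pool.Agent.LibCW77.T8
import Pool.Agent.LibCW77.G2
import Pool.Agent.LibCW77.G3
import Pool.Agent.LibCW77.A0
import Pool.Agent.LibCW77.LN
import Pool.Agent.LibCW77.D6
/-!
[CW77 L1] The relation for a function on a curve with a map to `C`. Plan: if `Q` is ramified over `M` (`Q 1 = none`, or `some 0`) all `Qw w` are
ramified (`SpO`), `Lval_ram`. Else `R = lR (c.over M) (Q 0)`, `u = ν / v`; `C` as in `exists_C` over `M`; `N = M(lam)`, `z = (R, (lam, 1, -(lam C_0 + C_1) / C_2), u)`, a Z-point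
(`lR_props`, `crs = 0`). Function `i h`. A place `v` with `v.ord (i h) ≠ 0` lies over a place `w` (`place_dich`), `w.ord h ≠ 0`, so `w ∈ S`. If `z` specialises to a Z-point `z'` at `v`: the
`R_j` are units at `w`, residues `r_j` in `k`, `lam` is a unit at `v` (`Y'_0, Y'_1 ≠ 0`), residue `t` algebraic: constant; else the Gauss place of `lam`,
`v.ord (i h) = w.ord h`, and `z'` is on `L(Qw w)` (`Qw w` is the specialisation of `Q`: `lR` commutes with specialisation of `x` also if `x` has a pole at `w`;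
`Qw w` is not ramified because the `r_j` are not 0), generic (`line_gen`). If `Qw w` is ramified `Lval = 0` and the Gauss place has no specialisation (leave it out of the finite set). `master`.
-/

open scoped Classical
open Polynomial

namespace Pool.Agent.LibCW77

open Pool.Agent.LibBH2
open Pool.Agent.LibCHd (VR RF Red FunF)

variable {k : Type} [Field k]

open Pool.Agent.LibCHd (red_const red_one red_zero red_zero_iff exists_red)

private theorem L1_over {M M' : Type} [Field M] [Algebra k M] [Field M'] [Algebra k M'] (i : M →ₐ[k] M')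
    (c : Dat k) : (c.over M).map (i : M →+* M') = c.over M' := by
  simp only [Dat.over, Dat.map]
  congr 1
  · funext j
    exact i.commutes (c.a j)
  · funext j
    exact i.commutes (c.b j)

private theorem L1_ev {M M' : Type} [Field M] [Field M'] (f : M →+* M') (x : Option M) (t : M) :
    ev (x.map f) (f t) = f (ev x t) := by
  cases x with
  | none => simp [ev]
  | some x => simp [ev]

/-- the ratios of the coefficients of the plane of the line -/
private noncomputable def L1_D {F : Type} [Field F] (c : Dat F) (x : Option F) (j : Fin 3) : F :=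
  (kb c j * (c.a j - c.b j) * ev x (c.a 2)) / (kb c 2 * (c.a 2 - c.b 2) * ev x (c.a j))

private noncomputable def L1_z {F : Type} [Field F] (c : Dat F) (x : Option F) (u t : F) : Zp F :=
  ⟨lR c x, ![t, 1, -(t * L1_D c x 0 + L1_D c x 1)], u⟩

private theorem L1_Dmap {F F' : Type} [Field F] [Field F'] (f : F →+* F') (c : Dat F) (x : Option F) (j : Fin 3) :
    L1_D (c.map f) (x.map f) j = f (L1_D c x j) := by
  have e1 : ∀ l, ev (x.map f) ((c.map f).a l) = f (ev x (c.a l)) := fun l => L1_ev f x (c.a l)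
  simp only [L1_D]
  rw [kb_map, kb_map, e1, e1]
  simp [Dat.map]

private theorem L1_ab {F : Type} [Field F] {c : Dat F} (hc : c.Good) (i j : Fin 3) : c.a i - c.b j ≠ 0 := by
  intro h
  have h1 : Sum.elim c.a c.b (Sum.inl i) = Sum.elim c.a c.b (Sum.inr j) := by
    simp only [Sum.elim_inl, Sum.elim_inr]
    exact sub_eq_zero.1 h
  exact absurd (hc.inj h1) (by simp)

private noncomputable def L1_C {F : Type} [Field F] (c : Dat F) (x : Option F) (j : Fin 3) : F :=
  kb c j * (c.a j - c.b j) / ev x (c.a j)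

private theorem L1_AB {F : Type} [Field F] {c : Dat F} (hc : c.Good) (x : Option F)
    (ha : ∀ i, ev x (c.a i) ≠ 0) : ∃ α β : F, ∀ j, cA c (lR c x) j = α * L1_C c x j ∧
      cB c (lR c x) j = β * L1_C c x j := by
  cases x with
  | none =>
    refine ⟨0, -1, fun j => ?_⟩
    have h1 := ka_ne hc j
    simp only [cA, cB, lR, L1_C, ev]
    constructor
    · field_simp
      ring
    · field_simp
      ring
  | some x =>
    refine ⟨1, x, fun j => ?_⟩
    have h1 := ka_ne hc j
    have h2 := ha j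
    simp only [ev] at h2
    simp only [cA, cB, lR, L1_C, ev]
    constructor
    · field_simp
      ring
    · field_simp
      ring

private theorem L1_isZ {F : Type} [Field F] {c : Dat F} (hc : c.Good) (x : Option F) (u t : F)
    (ha : ∀ i, ev x (c.a i) ≠ 0) (hR : ∀ i, lR c x i ≠ 0) (hu : u ≠ 0) (hun : u ^ c.n = ∏ i, lR c x i)
    (ht : t ≠ 0) (ht' : t * L1_D c x 0 + L1_D c x 1 ≠ 0) : IsZ c (L1_z c x u t) := by
  obtain ⟨α, β, hAB⟩ := L1_AB hc x ha
  have hsum : ∑ j, L1_C c x j * (L1_z c x u t).Y j = 0 := by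
    have h0 := ha 0
    have h1 := ha 1
    have h2 := ha 2
    have hk := kb_ne hc 2
    have hd := L1_ab hc 2 2
    rw [Fin.sum_univ_three]
    change L1_C c x 0 * t + L1_C c x 1 * 1 + L1_C c x 2 * (-(t * L1_D c x 0 + L1_D c x 1)) = 0
    simp only [L1_C, L1_D]
    field_simp
    ring
  refine ⟨hR, ?_, hu, hun, ?_, ?_⟩
  · intro j
    fin_cases j
    · exact ht
    · exact one_ne_zero
    · exact neg_ne_zero.2 ht'
  · have : ∀ j, cA c (L1_z c x u t).R j * (L1_z c x u t).Y j = α * (L1_C c x j * (L1_z c x u t).Y j) := by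
      intro j
      change cA c (lR c x) j * _ = _
      rw [(hAB j).1]
      ring
    rw [Finset.sum_congr rfl fun j _ => this j, ← Finset.mul_sum, hsum, mul_zero]
  · have : ∀ j, cB c (L1_z c x u t).R j * (L1_z c x u t).Y j = β * (L1_C c x j * (L1_z c x u t).Y j) := by
      intro j
      change cB c (lR c x) j * _ = _
      rw [(hAB j).2]
      ring
    rw [Finset.sum_congr rfl fun j _ => this j, ← Finset.mul_sum, hsum, mul_zero]

private theorem L1_m {M : Type} [Field M] [Algebra k M] (w : Place k M) (x : Option M) (p : Option k)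
    (h : SpO w x (p.map (algebraMap k (RF w)))) :
    ∃ m : M, ∀ t : k, Red w (m * ev x (algebraMap k M t)) (algebraMap k (RF w) (ev p t)) := by
  rcases x with _ | x
  · have hp : p = none := Option.map_eq_none_iff.1 h
    subst hp
    refine ⟨1, fun t => ?_⟩
    simp only [ev, mul_one, map_one]
    exact red_one w
  · rcases p with _ | p
    · have h1 : w.ord x < 0 := h
      have hx : x ≠ 0 := by
        rintro rfl
        rw [w.ord_zero] at h1
        exact lt_irrefl _ h1
      have h2 : Red w x⁻¹ 0 := red_zero_iff.2 (Or.inr (by rw [w.ord_inv]; omega))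
      refine ⟨-x⁻¹, fun t => ?_⟩
      have h3 := (red_one w).sub ((red_const w t).mul h2)
      rw [mul_zero, sub_zero] at h3
      have h4 : -x⁻¹ * ev (some x) (algebraMap k M t) = 1 - algebraMap k M t * x⁻¹ := by
        simp only [ev]
        field_simp
        ring
      rw [h4]
      simp only [ev, map_one]
      exact h3
    · have h1 : Red w x (algebraMap k (RF w) p) := h
      refine ⟨1, fun t => ?_⟩
      have h3 := (red_const w t).sub h1
      simp only [ev, one_mul, map_sub]
      exact h3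

private theorem L1_spR {M : Type} [Field M] [Algebra k M] {c : Dat k} (hc : c.Good) (w : Place k M)
    (x : Option M) (p : Option k) (m : M)
    (hm : ∀ t : k, Red w (m * ev x (algebraMap k M t)) (algebraMap k (RF w) (ev p t))) (j : Fin 3)
    (hp : ev p (c.a j) ≠ 0) : Red w (lR (c.over M) x j) (algebraMap k (RF w) (lR c p j)) := by
  have h1 := hm (c.a j)
  have h2 := hm (c.b j)
  have hka : algebraMap k (RF w) (ka c j) ≠ 0 := by
    rw [Ne, map_eq_zero]
    exact ka_ne hc j
  have hpa : algebraMap k (RF w) (ev p (c.a j)) ≠ 0 := by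
    rw [Ne, map_eq_zero]
    exact hp
  have h3 := (((red_const w (kb c j)).mul h2).neg).div ((red_const w (ka c j)).mul h1) (mul_ne_zero hka hpa)
  have hne : m * ev x (algebraMap k M (c.a j)) ≠ 0 := h1.ne_zero hpa
  have hm0 : m ≠ 0 := left_ne_zero_of_mul hne
  have e1 : lR (c.over M) x j = -(algebraMap k M (kb c j) * (m * ev x (algebraMap k M (c.b j)))) /
      (algebraMap k M (ka c j) * (m * ev x (algebraMap k M (c.a j)))) := by
    simp only [lR]
    rw [ka_map, kb_map]
    change -(algebraMap k M (kb c j) * ev x (algebraMap k M (c.b j))) /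
      (algebraMap k M (ka c j) * ev x (algebraMap k M (c.a j))) = _
    have hka' : algebraMap k M (ka c j) ≠ 0 := by
      rw [Ne, map_eq_zero]
      exact ka_ne hc j
    have hev := right_ne_zero_of_mul hne
    field_simp
  have e2 : algebraMap k (RF w) (lR c p j) = -(algebraMap k (RF w) (kb c j) * algebraMap k (RF w) (ev p (c.b j))) /
      (algebraMap k (RF w) (ka c j) * algebraMap k (RF w) (ev p (c.a j))) := by
    simp only [lR, map_div₀, map_neg, map_mul]
  rw [e1, e2]
  exact h3

private theorem L1_spD {M : Type} [Field M] [Algebra k M] {c : Dat k} (hc : c.Good) (w : Place k M)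
    (x : Option M) (p : Option k) (m : M)
    (hm : ∀ t : k, Red w (m * ev x (algebraMap k M t)) (algebraMap k (RF w) (ev p t))) (j : Fin 3)
    (hp : ev p (c.a j) ≠ 0) : Red w (L1_D (c.over M) x j) (algebraMap k (RF w) (L1_D c p j)) := by
  have h1 := hm (c.a j)
  have h2 := hm (c.a 2)
  have hk : kb c 2 * (c.a 2 - c.b 2) ≠ 0 := mul_ne_zero (kb_ne hc 2) (L1_ab hc 2 2)
  have hk1 : algebraMap k (RF w) (kb c 2 * (c.a 2 - c.b 2)) ≠ 0 := by
    rw [Ne, map_eq_zero]
    exact hk
  have hpa : algebraMap k (RF w) (ev p (c.a j)) ≠ 0 := by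
    rw [Ne, map_eq_zero]
    exact hp
  have h3 := ((red_const w (kb c j * (c.a j - c.b j))).mul h2).div
    ((red_const w (kb c 2 * (c.a 2 - c.b 2))).mul h1) (mul_ne_zero hk1 hpa)
  have hne : m * ev x (algebraMap k M (c.a j)) ≠ 0 := h1.ne_zero hpa
  have hm0 : m ≠ 0 := left_ne_zero_of_mul hne
  have e1 : L1_D (c.over M) x j = (algebraMap k M (kb c j * (c.a j - c.b j)) * (m * ev x (algebraMap k M (c.a 2)))) /
      (algebraMap k M (kb c 2 * (c.a 2 - c.b 2)) * (m * ev x (algebraMap k M (c.a j)))) := by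
    simp only [L1_D]
    rw [kb_map, kb_map]
    change (algebraMap k M (kb c j) * (algebraMap k M (c.a j) - algebraMap k M (c.b j)) *
        ev x (algebraMap k M (c.a 2))) /
      (algebraMap k M (kb c 2) * (algebraMap k M (c.a 2) - algebraMap k M (c.b 2)) *
        ev x (algebraMap k M (c.a j))) = _
    rw [← map_sub, ← map_sub, ← map_mul, ← map_mul]
    have hk' : algebraMap k M (kb c 2 * (c.a 2 - c.b 2)) ≠ 0 := by
      rw [Ne, map_eq_zero]
      exact hk
    have hev := right_ne_zero_of_mul hne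
    field_simp
  have e2 : algebraMap k (RF w) (L1_D c p j) =
      (algebraMap k (RF w) (kb c j * (c.a j - c.b j)) * algebraMap k (RF w) (ev p (c.a 2))) /
      (algebraMap k (RF w) (kb c 2 * (c.a 2 - c.b 2)) * algebraMap k (RF w) (ev p (c.a j))) := by
    rw [L1_D, map_div₀, map_mul, map_mul (algebraMap k (RF w)) (kb c 2 * (c.a 2 - c.b 2))]
  rw [e1, e2]
  exact h3

/-- if the ratios are units at `w` the specialisation of `x` is not one of the `a_j` -/
private theorem L1_ne_a {M : Type} [Field M] [Algebra k M] {c : Dat k} (hc : c.Good) (w : Place k M)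
    (x : Option M) (p : Option k) (m : M)
    (hm : ∀ t : k, Red w (m * ev x (algebraMap k M t)) (algebraMap k (RF w) (ev p t))) (j : Fin 3)
    (hx : ev x (algebraMap k M (c.a j)) ≠ 0)
    (hR : w.Reg (lR (c.over M) x j)) : ev p (c.a j) ≠ 0 := by
  intro h0
  have h1 := hm (c.a j)
  have h2 := hm (c.b j)
  rw [h0, map_zero] at h1
  obtain ⟨r, hr⟩ := exists_red hR
  have h3 := hr.mul ((red_const w (ka c j)).mul h1)
  rw [mul_zero, mul_zero] at h3
  have h4 := ((red_const w (kb c j)).mul h2).neg
  have hka' : algebraMap k M (ka c j) ≠ 0 := by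
    rw [Ne, map_eq_zero]
    exact ka_ne hc j
  have e1 : lR (c.over M) x j * (algebraMap k M (ka c j) * (m * ev x (algebraMap k M (c.a j)))) =
      -(algebraMap k M (kb c j) * (m * ev x (algebraMap k M (c.b j)))) := by
    simp only [lR]
    rw [ka_map, kb_map]
    change -(algebraMap k M (kb c j) * ev x (algebraMap k M (c.b j))) /
      (algebraMap k M (ka c j) * ev x (algebraMap k M (c.a j))) *
      (algebraMap k M (ka c j) * (m * ev x (algebraMap k M (c.a j)))) = _
    field_simp
  rw [e1] at h3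
  have h5 := h4.unique h3
  rw [neg_eq_zero, ← map_mul, map_eq_zero, mul_eq_zero] at h5
  rcases h5 with h5 | h5
  · exact kb_ne hc j h5
  · cases p with
    | none => simp [ev] at h5
    | some p =>
      simp only [ev] at h0 h5
      apply L1_ab hc j j
      rw [sub_eq_zero.1 h0, sub_eq_zero.1 h5, sub_self]

variable {V : Type} [AddCommGroup V] [Module ℚ V]

/-- the Z-point on the line over a field with a transcendental generator -/
private theorem L1_line [IsAlgClosed k] [CharZero k] {c : Dat k} (hc : c.Good) {ζ ν : k} (hζ : IsPrimitiveRoot ζ c.n)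
    (hν : ν ^ c.n = ∏ i, (-(kb c i) / ka c i)) (q : CH c 3 1 →+ V) (Q : Fin 2 → Option k)
    (hQ : OnC c (Q 0) (Q 1)) (y : k) (hy : Q 1 = some y) (hy0 : y ≠ 0) {F : Type} [Field F] [Algebra k F]
    (hF : FunF k 1 F) (t : F) (ht : Transcendental k t) (hg : IntermediateField.adjoin k {t} = ⊤) :
    IsZ (c.over F) (L1_z (c.over F) ((Q 0).map (algebraMap k F)) (algebraMap k F (ν / y)) t) ∧
    TZ c ζ q (L1_z (c.over F) ((Q 0).map (algebraMap k F)) (algebraMap k F (ν / y)) t) =
      Lval c ζ ν q Q := by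
  have hν0 : ν ≠ 0 := nu_ne hc hν
  obtain ⟨ha, hb, hR, hcr, hun⟩ := lR_props hc ν hν (Q 0) y hy0 (hy ▸ hQ)
  have hinj : ∀ r : k, algebraMap k F r = 0 → r = 0 := fun r hr => (map_eq_zero (algebraMap k F)).1 hr
  have ht0 : t ≠ 0 := by
    rintro rfl
    exact ht (isAlgebraic_zero)
  have hD : ∀ j, L1_D (c.over F) ((Q 0).map (algebraMap k F)) j = algebraMap k F (L1_D c (Q 0) j) :=
    fun j => L1_Dmap (algebraMap k F) c (Q 0) j
  have hD0 : L1_D c (Q 0) 0 ≠ 0 := by
    simp only [L1_D]
    exact div_ne_zero (mul_ne_zero (mul_ne_zero (kb_ne hc 0) (L1_ab hc 0 0)) (ha 2))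
      (mul_ne_zero (mul_ne_zero (kb_ne hc 2) (L1_ab hc 2 2)) (ha 0))
  have hlR : ∀ j, lR (c.over F) ((Q 0).map (algebraMap k F)) j = algebraMap k F (lR c (Q 0) j) :=
    fun j => lR_map (algebraMap k F) c (Q 0) j
  have hz : IsZ (c.over F) (L1_z (c.over F) ((Q 0).map (algebraMap k F)) (algebraMap k F (ν / y)) t) := by
    refine L1_isZ (good_map hc) _ _ _ ?_ ?_ ?_ ?_ ht0 ?_
    · intro j h0
      apply ha j
      apply hinj
      rw [← L1_ev]
      exact h0
    · intro j h0
      apply hR j
      apply hinj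
      rw [← hlR]
      exact h0
    · intro h0
      exact div_ne_zero hν0 hy0 (hinj _ h0)
    · change algebraMap k F (ν / y) ^ c.n = _
      rw [← map_pow, hun, map_prod]
      exact Finset.prod_congr rfl fun j _ => (hlR j).symm
    · intro h0
      rw [hD, hD] at h0
      apply ht
      have h1 : t = algebraMap k F (-(L1_D c (Q 0) 1) / L1_D c (Q 0) 0) := by
        have h2 : algebraMap k F (L1_D c (Q 0) 0) ≠ 0 := fun h => hD0 (hinj _ h)
        rw [map_div₀, map_neg, eq_div_iff h2]
        linear_combination h0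
      rw [h1]
      exact isAlgebraic_algebraMap _
  refine ⟨hz, ?_⟩
  have hl : OnLine c ν Q (L1_z (c.over F) ((Q 0).map (algebraMap k F)) (algebraMap k F (ν / y)) t) := by
    refine ⟨hlR, y, hy, hy0, ?_⟩
    change algebraMap k F (ν / y) * algebraMap k F y = algebraMap k F ν
    rw [← map_mul, div_mul_cancel₀ _ hy0]
  rw [Lval_spec hc hζ hν q Q hQ hF hz hl]
  have h1 : Module.finrank (yf k (L1_z (c.over F) ((Q 0).map (algebraMap k F)) (algebraMap k F (ν / y)) t).Y) F
      = 1 := by
    refine line_gen t ht hg ![0, 1, -(L1_D c (Q 0) 1)] ![1, 0, -(L1_D c (Q 0) 0)] ⟨1, 0, ?_⟩ _ hz.Y0 1 one_ne_zero ?_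
    · simp
    · intro j
      fin_cases j
      · change t = _
        simp
      · change (1 : F) = _
        simp
      · change -(t * L1_D (c.over F) ((Q 0).map (algebraMap k F)) 0 +
          L1_D (c.over F) ((Q 0).map (algebraMap k F)) 1) = _
        rw [hD, hD]
        simp
  rw [h1, one_smul]

theorem lin_rel [IsAlgClosed k] [CharZero k] {c : Dat k} (hc : c.Good) {ζ ν : k} (hζ : IsPrimitiveRoot ζ c.n)
    (hν : ν ^ c.n = ∏ i, (-(kb c i) / ka c i)) (q : CH c 3 1 →+ V) {M : Type} [Field M] [Algebra k M]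
    (hM : FunF k 1 M) (Q : Fin 2 → Option M) (hQ : OnC (c.over M) (Q 0) (Q 1)) (h : M) (h0 : h ≠ 0)
    (S : Finset (Place k M)) (hS : ∀ w, w ∉ S → w.ord h = 0) (Qw : Place k M → Fin 2 → Option k)
    (hQw : ∀ w ∈ S, ∀ i, SpO w (Q i) ((Qw w i).map (algebraMap k (RF w)))) :
    ∑ w ∈ S, w.ord h • Lval c ζ ν q (Qw w) = 0 := by
  have hcM : (c.over M).Good := good_map hc
  by_cases hram : Q 1 = none ∨ Q 1 = some 0
  · refine Finset.sum_eq_zero fun w hw => ?_
    rw [Lval_ram, smul_zero]
    have h1 := hQw w hw 1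
    rcases hram with hr | hr
    · rw [hr] at h1
      left
      exact Option.map_eq_none_iff.1 h1
    · rw [hr] at h1
      right
      rcases hq : Qw w 1 with _ | y
      · rw [hq] at h1
        change w.ord 0 < 0 at h1
        rw [w.ord_zero] at h1
        exact absurd h1 (lt_irrefl _)
      · rw [hq] at h1
        change Red w 0 (algebraMap k (RF w) y) at h1
        have h2 := h1.unique (red_zero w)
        rw [(map_eq_zero _).1 h2]
  rw [not_or] at hram
  obtain ⟨vQ, hvQ⟩ : ∃ v, Q 1 = some v := Option.ne_none_iff_exists'.1 hram.1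
  have hv0 : vQ ≠ 0 := fun h0 => hram.2 (by rw [hvQ, h0])
  have hν0 : ν ≠ 0 := nu_ne hc hν
  have hνM : algebraMap k M ν ≠ 0 := by
    rw [Ne, map_eq_zero]
    exact hν0
  have hQ' : OnC (c.over M) (Q 0) (some vQ) := hvQ ▸ hQ
  obtain ⟨ha, hb, hR, hcr, hun⟩ := lR_props hcM (algebraMap k M ν) (nu_map hν M) (Q 0) vQ hv0 hQ'
  obtain ⟨N, fN, aN, i, μ, hr⟩ := rat1_exists (k := k) M
  have hinj : ∀ r : M, i r = 0 → r = 0 := fun r hr => (map_eq_zero_iff i i.toRingHom.injective).1 hr
  have hN : FunF k 2 N := rat1_funF hr hM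
  have hiD : ∀ j, L1_D (c.over N) ((Q 0).map i) j = i (L1_D (c.over M) (Q 0) j) := by
    intro j
    rw [← L1_over i c]
    exact L1_Dmap (i : M →+* N) (c.over M) (Q 0) j
  have hilR : ∀ j, lR (c.over N) ((Q 0).map i) j = i (lR (c.over M) (Q 0) j) := by
    intro j
    rw [← L1_over i c]
    exact lR_map (i : M →+* N) (c.over M) (Q 0) j
  have hD0 : L1_D (c.over M) (Q 0) 0 ≠ 0 := by
    simp only [L1_D]
    exact div_ne_zero (mul_ne_zero (mul_ne_zero (kb_ne hcM 0) (L1_ab hcM 0 0)) (ha 2))
      (mul_ne_zero (mul_ne_zero (kb_ne hcM 2) (L1_ab hcM 2 2)) (ha 0))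
  -- the Z-point over N
  have hz : IsZ (c.over N) (L1_z (c.over N) ((Q 0).map i) (i (algebraMap k M ν / vQ)) μ) := by
    refine L1_isZ (good_map hc) _ _ _ ?_ ?_ ?_ ?_ ?_ ?_
    · intro j hj
      apply ha j
      apply hinj
      have h2 := L1_ev (i : M →+* N) (Q 0) ((c.over M).a j)
      have h3 : (i : M →+* N) ((c.over M).a j) = (c.over N).a j := i.commutes (c.a j)
      rw [h3] at h2
      exact h2.symm.trans hj
    · intro j hj
      apply hR j
      apply hinj
      rw [← hilR]
      exact hj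
    · intro hj
      exact div_ne_zero hνM hv0 (hinj _ hj)
    · change (i (algebraMap k M ν / vQ)) ^ c.n = _
      rw [← map_pow]
      have h2 : (algebraMap k M ν / vQ) ^ c.n = ∏ j, lR (c.over M) (Q 0) j := hun
      rw [h2, map_prod]
      exact Finset.prod_congr rfl fun j _ => (hilR j).symm
    · have := rat1_ne hr 0
      rwa [map_zero] at this
    · intro hj
      rw [hiD, hiD] at hj
      apply rat1_ne hr (-(L1_D (c.over M) (Q 0) 1) / L1_D (c.over M) (Q 0) 0)
      have h2 : i (L1_D (c.over M) (Q 0) 0) ≠ 0 := fun h => hD0 (hinj _ h)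
      rw [map_div₀, map_neg, eq_div_iff h2]
      linear_combination hj
  -- Gauss places
  have hG : ∀ w : Place k M, ∃ v : Place k N, Ovr i w v 1 ∧ ∃ t : RF v, Red v μ t ∧ Transcendental k t := by
    intro w
    obtain ⟨v, t, h1, h2, h3⟩ := place_gauss hM hr w
    exact ⟨v, h1, t, h2, h3⟩
  choose G hGo hGt using hG
  have hGinj : ∀ w w', G w = G w' → w = w' := by
    intro w w' hw
    apply Place.ext'
    intro f
    have h1 := (hGo w).ord f
    have h2 := (hGo w').ord f
    rw [hw] at h1
    rw [h1, one_mul, one_mul] at h2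
    exact h2
  -- specialisations of `Q`
  have honw : ∀ w ∈ S, OnC c (Qw w 0) (Qw w 1) := by
    intro w hw
    have h1 : On (c.over M) (fun _ : Fin 1 => Q) := fun _ => hQ
    have h2 : SpP w (fun _ : Fin 1 => Q)
        (fun _ : Fin 1 => fun i => (Qw w i).map (algebraMap k (RF w))) := fun _ i => hQw w hw i
    have h3 := on_sp hc h1 h2
    have h4 : On (c.over k) (fun _ : Fin 1 => Qw w) :=
      (on_map (c := c) (M := k) (Algebra.ofId k (RF w))).1 h3
    exact h4 0
  -- non-ramified places
  let T : Finset (Place k M) := S.filter fun w => ¬ (Qw w 1 = none ∨ Qw w 1 = some 0)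
  have hT1 : ∑ w ∈ S, w.ord h • Lval c ζ ν q (Qw w) = ∑ w ∈ T, w.ord h • Lval c ζ ν q (Qw w) := by
    symm
    apply Finset.sum_subset (Finset.filter_subset _ _)
    intro w hw hw'
    have h1 : Qw w 1 = none ∨ Qw w 1 = some 0 := by
      by_contra hcon
      exact hw' (Finset.mem_filter.2 ⟨hw, hcon⟩)
    rw [Lval_ram q (Qw w) h1, smul_zero]
  have hTval : ∀ w ∈ T, ∃ z' : Zp (RF (G w)), FunF k 1 (RF (G w)) ∧ IsZ (c.over (RF (G w))) z' ∧
      SpZ (G w) (L1_z (c.over N) ((Q 0).map i) (i (algebraMap k M ν / vQ)) μ) z' ∧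
      TZ c ζ q z' = Lval c ζ ν q (Qw w) := by
    intro w hw
    obtain ⟨hwS, hwn⟩ := Finset.mem_filter.1 hw
    rw [not_or] at hwn
    obtain ⟨y, hy⟩ : ∃ v, Qw w 1 = some v := Option.ne_none_iff_exists'.1 hwn.1
    have hy0 : y ≠ 0 := fun h0 => hwn.2 (by rw [hy, h0])
    obtain ⟨t, ht, htr⟩ := hGt w
    obtain ⟨hadj, hfun⟩ := gauss_gen hM hr w (hGo w) t ht htr
    have hon := honw w hwS
    obtain ⟨hz', hTZ⟩ := L1_line hc hζ hν q (Qw w) hon y hy hy0 hfun t htr hadj
    refine ⟨_, hfun, hz', ?_, hTZ⟩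
    obtain ⟨m, hm⟩ := L1_m w (Q 0) (Qw w 0) (hQw w hwS 0)
    obtain ⟨ha', -, -, -, -⟩ := lR_props hc ν hν (Qw w 0) y hy0 (hy ▸ hon)
    have hD : ∀ j, Red (G w) (L1_D (c.over N) ((Q 0).map i) j)
        (L1_D (c.over (RF (G w))) ((Qw w 0).map (algebraMap k (RF (G w)))) j) := by
      intro j
      rw [hiD]
      have e : L1_D (c.over (RF (G w))) ((Qw w 0).map (algebraMap k (RF (G w)))) j =
          algebraMap k (RF (G w)) (L1_D c (Qw w 0) j) := L1_Dmap _ c (Qw w 0) j
      rw [e]
      exact (hGo w).res _ _ (L1_spD hc w (Q 0) (Qw w 0) m hm j (ha' j))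
    refine ⟨?_, ?_, ⟨1, ?_⟩⟩
    · intro j
      change Red (G w) (lR (c.over N) ((Q 0).map i) j)
        (lR (c.over (RF (G w))) ((Qw w 0).map (algebraMap k (RF (G w)))) j)
      rw [hilR]
      have e : lR (c.over (RF (G w))) ((Qw w 0).map (algebraMap k (RF (G w)))) j =
          algebraMap k (RF (G w)) (lR c (Qw w 0) j) := lR_map _ c (Qw w 0) j
      rw [e]
      exact (hGo w).res _ _ (L1_spR hc w (Q 0) (Qw w 0) m hm j (ha' j))
    · change Red (G w) (i (algebraMap k M ν / vQ)) (algebraMap k (RF (G w)) (ν / y))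
      apply (hGo w).res
      have h1 := hQw w hwS 1
      rw [hvQ, hy] at h1
      have h2 : Red w vQ (algebraMap k (RF w) y) := h1
      rw [map_div₀]
      refine (red_const w ν).div h2 ?_
      rw [Ne, map_eq_zero]
      exact hy0
    · intro j
      rw [one_mul]
      fin_cases j
      · exact ht
      · exact red_one (G w)
      · exact ((ht.mul (hD 0)).add (hD 1)).neg
  -- the set of places
  have hZ : ∀ v : Place k N, ∃ z' : Zp (RF v), v ∈ T.image G → (FunF k 1 (RF v) ∧ IsZ (c.over (RF v)) z' ∧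
      SpZ v (L1_z (c.over N) ((Q 0).map i) (i (algebraMap k M ν / vQ)) μ) z' ∧
      ∀ w ∈ T, G w = v → TZ c ζ q z' = Lval c ζ ν q (Qw w)) := by
    intro v
    by_cases hv : v ∈ T.image G
    · obtain ⟨w, hw, rfl⟩ := Finset.mem_image.1 hv
      obtain ⟨z', h1, h2, h3, h4⟩ := hTval w hw
      refine ⟨z', fun _ => ⟨h1, h2, h3, fun w' _ hww' => ?_⟩⟩
      rw [hGinj w' w hww']
      exact h4
    · exact ⟨⟨0, 0, 0⟩, fun h => absurd h hv⟩
  choose Z hZ using hZ
  have hmaster := master hc hζ q hN hz (i h) (fun hh => h0 (hinj _ hh)) (T.image G) Z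
    (fun v hv => ⟨(hZ v hv).1, (hZ v hv).2.1, (hZ v hv).2.2.1⟩) ?_
  · rw [Finset.sum_image (fun w _ w' _ hww => hGinj w w' hww)] at hmaster
    rw [hT1, ← hmaster]
    refine Finset.sum_congr rfl fun w hw => ?_
    rw [(hZ (G w) (Finset.mem_image_of_mem G hw)).2.2.2 w hw rfl, (hGo w).ord h, one_mul]
  · intro v hv hvh hfun z' hz' hsp
    rcases place_dich hM i v with htr | ⟨w, e, hov⟩
    · exact absurd (htr h) hvh
    have hwh : w.ord h ≠ 0 := by
      intro hh
      apply hvh
      rw [hov.ord, hh, mul_zero]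
    have hwS : w ∈ S := by
      by_contra hcon
      exact hwh (hS w hcon)
    have he0 : e ≠ 0 := ne_of_gt hov.pos
    -- elements of M which are units at v
    have hunit : ∀ (x : M) (y : RF v), y ≠ 0 → Red v (i x) y →
        w.ord x = 0 ∧ ∃ r : k, r ≠ 0 ∧ Red w x (algebraMap k (RF w) r) ∧ y = algebraMap k (RF v) r := by
      intro x y hy hxy
      have h1 : w.ord x = 0 := by
        have h2 := hxy.ord_eq_zero hy
        rw [hov.ord] at h2
        rcases mul_eq_zero.1 h2 with h2 | h2
        · exact absurd h2 he0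
        · exact h2
      refine ⟨h1, ?_⟩
      have hreg : w.Reg x := Or.inr (le_of_eq h1.symm)
      obtain ⟨s, hs⟩ := exists_red hreg
      obtain ⟨r, rfl⟩ := res_k hM w s
      have h3 := hov.res x r hs
      have h4 := hxy.unique h3
      refine ⟨r, ?_, hs, h4⟩
      rintro rfl
      rw [map_zero] at h4
      exact hy h4
    have hRk : ∀ j, w.ord (lR (c.over M) (Q 0) j) = 0 ∧ ∃ r : k, r ≠ 0 ∧
        Red w (lR (c.over M) (Q 0) j) (algebraMap k (RF w) r) ∧ z'.R j = algebraMap k (RF v) r := by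
      intro j
      apply hunit _ _ (hz'.R0 j)
      have h1 := hsp.R j
      change Red v (lR (c.over N) ((Q 0).map i) j) (z'.R j) at h1
      rw [hilR] at h1
      exact h1
    have hUk := hunit (algebraMap k M ν / vQ) z'.u hz'.u0 hsp.u
    obtain ⟨m, hm⟩ := L1_m w (Q 0) (Qw w 0) (hQw w hwS 0)
    have hane : ∀ j, ev (Qw w 0) (c.a j) ≠ 0 := by
      intro j
      refine L1_ne_a hc w (Q 0) (Qw w 0) m hm j (ha j) (Or.inr ?_)
      exact le_of_eq (hRk j).1.symm
    -- the ratio Y_0 / Y_1
    obtain ⟨l, hl⟩ := hsp.Y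
    have hY0 := hl 0
    have hY1 := hl 1
    have hY2 := hl 2
    have hl1 : l * 1 ≠ 0 := hY1.ne_zero (hz'.Y0 1)
    have hlne : l ≠ 0 := by rwa [mul_one] at hl1
    have hmu : Red v μ (z'.Y 0 / z'.Y 1) := by
      have h1 := hY0.div hY1 (hz'.Y0 1)
      change Red v (l * μ / (l * 1)) _ at h1
      have h2 : l * μ / (l * 1) = μ := by field_simp
      rwa [h2] at h1
    have hY21 : Red v (-(μ * L1_D (c.over N) ((Q 0).map i) 0 + L1_D (c.over N) ((Q 0).map i) 1))
        (z'.Y 2 / z'.Y 1) := by
      have h1 := hY2.div hY1 (hz'.Y0 1)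
      change Red v (l * -(μ * L1_D (c.over N) ((Q 0).map i) 0 + L1_D (c.over N) ((Q 0).map i) 1) / (l * 1)) _ at h1
      have h2 : l * -(μ * L1_D (c.over N) ((Q 0).map i) 0 + L1_D (c.over N) ((Q 0).map i) 1) / (l * 1) =
          -(μ * L1_D (c.over N) ((Q 0).map i) 0 + L1_D (c.over N) ((Q 0).map i) 1) := by field_simp
      rwa [h2] at h1
    by_cases halg : IsAlgebraic k (z'.Y 0 / z'.Y 1)
    · have hDk : ∀ j, Red v (L1_D (c.over N) ((Q 0).map i) j) (algebraMap k (RF v) (L1_D c (Qw w 0) j)) := by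
        intro j
        rw [hiD]
        exact hov.res _ _ (L1_spD hc w (Q 0) (Qw w 0) m hm j (hane j))
      have h21 : z'.Y 2 / z'.Y 1 = -(z'.Y 0 / z'.Y 1 * algebraMap k (RF v) (L1_D c (Qw w 0) 0) +
          algebraMap k (RF v) (L1_D c (Qw w 0) 1)) :=
        hY21.unique (((hmu.mul (hDk 0)).add (hDk 1)).neg)
      have halg2 : IsAlgebraic k (z'.Y 2 / z'.Y 1) := by
        rw [h21]
        exact ((halg.mul (isAlgebraic_algebraMap _)).add (isAlgebraic_algebraMap _)).neg
      have hall : ∀ j, IsAlgebraic k (z'.Y j / z'.Y 1) := by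
        intro j
        fin_cases j
        · exact halg
        · change IsAlgebraic k (z'.Y 1 / z'.Y 1)
          rw [div_self (hz'.Y0 1)]
          exact isAlgebraic_one
        · exact halg2
      refine ⟨?_, ?_, ?_⟩
      · intro j
        obtain ⟨-, r, -, -, hr⟩ := hRk j
        rw [hr]
        exact isAlgebraic_algebraMap _
      · obtain ⟨-, r, -, -, hr⟩ := hUk
        rw [hr]
        exact isAlgebraic_algebraMap _
      · intro a b
        have h1 : z'.Y a / z'.Y b = z'.Y a / z'.Y 1 * (z'.Y b / z'.Y 1)⁻¹ := by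
          have := hz'.Y0 1
          have := hz'.Y0 b
          field_simp
        rw [h1]
        exact (hall a).mul (hall b).inv
    · exfalso
      have htr : Transcendental k (z'.Y 0 / z'.Y 1) := halg
      obtain ⟨t, ht, htr'⟩ := hGt w
      have huniq := (gauss_unique hM hr w hov (hGo w) _ hmu htr t ht htr').2
      apply hv
      rw [huniq]
      refine Finset.mem_image_of_mem G (Finset.mem_filter.2 ⟨hwS, ?_⟩)
      obtain ⟨-, r, hr0, hru, -⟩ := hUk
      have hvr : Red w vQ (algebraMap k (RF w) ν / algebraMap k (RF w) r) := by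
        have hr0' : algebraMap k (RF w) r ≠ 0 := by
          rw [Ne, map_eq_zero]
          exact hr0
        have h1 := (red_const w ν).div hru hr0'
        have h2 : algebraMap k M ν / (algebraMap k M ν / vQ) = vQ := by
          field_simp
        rwa [h2] at h1
      have hne : algebraMap k (RF w) ν / algebraMap k (RF w) r ≠ 0 := by
        apply div_ne_zero
        · rw [Ne, map_eq_zero]
          exact hν0
        · rw [Ne, map_eq_zero]
          exact hr0
      have h1 := hQw w hwS 1
      rw [hvQ] at h1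
      rintro (h2 | h2)
      · rw [h2] at h1
        have h3 : w.ord vQ < 0 := h1
        rw [hvr.ord_eq_zero hne] at h3
        exact lt_irrefl _ h3
      · rw [h2] at h1
        have h3 : Red w vQ (algebraMap k (RF w) 0) := h1
        rw [map_zero] at h3
        exact hne (hvr.unique h3)

end Pool.Agent.LibCW77
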