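import Pool.Agent.LibCW77.Defs6
import Pool.Agent.LibCW77.L1
import Pool.Agent.LibCW77.T0
import Pool.Agent.LibCW77.T4
import Pool.Agent.LibCW77.D1

/-!
[CW77 B11] Degrees. `P` a lift over `M` (dimension 1) of a Z-point `z` on the line `L(Q)` with `Y_0 / Y_1` not constant. `dgo x = [M : k(x)]` (`0` for `x = ∞` and for constants: `Module.finrank` of an infinite extension). Claim: `∑_j dgo (P_j 0) = dg (Y_0 / Y_1)`. Proof.
`LibHL77.Z1.sum_zeros'` (or `sum_zeros`): for `φ` transcendental the sum over the places with `w.ord φ > 0` of `w.ord φ` (residue degrees are `1`: `res_k`) is `[M : k(φ)]`. For `φ = Y_0 / Y_1 = ∏_j ev x_j b_0 / ev x_j b_1` and for `φ = x_j - b_0` (for the `x_j` which are not constant; `k(x_j - b_0) =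
k(x_j)`). For every place `w`: `max 0 (w.ord (Y_0 / Y_1)) = ∑_j max 0 (w.ord (x_j - b_0))`, because `w.ord (Y_0/Y_1) = ∑_j (w.ord (ev x_j b_0) - w.ord (ev x_j b_1))`, every term is `max 0 (w.ord (x_j - b_0)) - max 0 (w.ord (x_j - b_1))`, and `x_j ≡ b_0`, `x_m ≡ b_1` at the same
place is impossible: then the specialisations `q_j` of the `x_j` have `∏ ev q_j b_0 = ∏ ev q_j b_1 = 0`, and by the relation `∑ C_i Y_i = 0` with `C_i ≠ 0` in `k` (row L1: `exists_C` in LN, or directly from `IsZ.r1`, `r2` with the constants `R_i`: `A_i, B_i` in `k` are proportional and not zero)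
also `∏ ev q_j b_2 = 0`, and `∏ ev q_j a_i = 0` (`X_i = R_i Y_i`, `R_i ∈ k`): a nonzero polynomial of degree `≤ 3` with six zeros.
-/

open scoped Classical
open Polynomial

namespace Pool.Agent.LibCW77

open Pool.Agent.LibBH2
open Pool.Agent.LibCHd (VR RF Red FunF)

variable {k : Type} [Field k]

/-- the degree of `M` over `k(x)`, `x` in `ℙ¹` -/
noncomputable def dgo (k : Type) [Field k] {M : Type} [Field M] [Algebra k M] : Option M → ℕ
  | none => 0
  | some x => dg k x

private theorem B11_cst [IsAlgClosed k] {M : Type} [Field M] [Algebra k M] {y : M} (hy : IsAlgebraic k y) :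
    ∃ y₀ : k, algebraMap k M y₀ = y := by
  have hint : IsIntegral k y := hy.isIntegral
  exact minpoly.mem_range_of_degree_eq_one k y (IsAlgClosed.degree_eq_one_of_irreducible k (minpoly.irreducible hint))

theorem dg_alg [IsAlgClosed k] {M : Type} [Field M] [Algebra k M] (hM : FunF k 1 M) (x : M) (hx : IsAlgebraic k x) :
    dg k x = 0 := by
  obtain ⟨x₀, rfl⟩ := B11_cst hx
  have h1 : IntermediateField.adjoin k {algebraMap k M x₀} = ⊥ := by
    rw [IntermediateField.adjoin_simple_eq_bot_iff]
    exact IntermediateField.algebraMap_mem _ _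
  unfold dg
  rw [h1, IntermediateField.finrank_bot']
  apply Module.finrank_of_not_finite
  intro hfin
  obtain ⟨t, ht, _⟩ := hM
  have h2 : Transcendental k (t 0) := ht.transcendental 0
  haveI : Algebra.IsAlgebraic k M := Algebra.IsAlgebraic.of_finite k M
  exact h2 (Algebra.IsAlgebraic.isAlgebraic (t 0))

theorem dg_map {M M' : Type} [Field M] [Algebra k M] [Field M'] [Algebra k M'] (σ : M →ₐ[k] M') (x : M) :
    dg k (σ x) = Module.finrank σ.fieldRange M' * dg k x := by
  unfold dg
  have h1 : IntermediateField.adjoin k {σ x} = (IntermediateField.adjoin k {x}).map σ := by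
    rw [IntermediateField.adjoin_map, Set.image_singleton]
  rw [h1, AlgHom.fieldRange_eq_map,
    ← IntermediateField.relfinrank_mul_finrank_top (IntermediateField.map_mono σ (le_top :
      IntermediateField.adjoin k {x} ≤ ⊤)), IntermediateField.relfinrank_map_map,
    IntermediateField.relfinrank_top_right, mul_comm]

/-- the sum formula with residue degrees one -/
private theorem B11_zeros [IsAlgClosed k] [CharZero k] {M : Type} [Field M] [Algebra k M] (hM : FunF k 1 M) (y : M)
    (hy : Transcendental k y) :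
    ∃ S : Finset (Place k M), (∀ v, v ∈ S ↔ 0 < v.ord y) ∧ ∑ v ∈ S, v.ord y = (dg k y : ℤ) := by
  obtain ⟨S, hS, h⟩ := Pool.Agent.LibHL77.sum_zeros' hM y hy
  refine ⟨S, hS, ?_⟩
  unfold dg
  rw [← h]
  refine Finset.sum_congr rfl fun v _ => ?_
  have h1 : Module.finrank k (RF v) = 1 := by
    have hb : Function.Bijective (Algebra.linearMap k (RF v)) :=
      ⟨(algebraMap k (RF v)).injective, res_k hM v⟩
    rw [← (LinearEquiv.ofBijective _ hb).finrank_eq, Module.finrank_self]
  rw [h1, Nat.cast_one, mul_one]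

private theorem B11_zeros_ev [IsAlgClosed k] [CharZero k] {M : Type} [Field M] [Algebra k M] (hM : FunF k 1 M)
    (x : Option M) (b : k) :
    ∃ S : Finset (Place k M), (∀ v, v ∈ S ↔ 0 < v.ord (ev x (algebraMap k M b))) ∧
      ∑ v ∈ S, v.ord (ev x (algebraMap k M b)) = (dgo k x : ℤ) := by
  cases x with
  | none =>
    refine ⟨∅, fun v => ?_, ?_⟩
    · change v ∈ (∅ : Finset (Place k M)) ↔ 0 < v.ord (1 : M)
      rw [v.ord_one]
      simp
    · simp [dgo]
  | some x =>
    change ∃ S : Finset (Place k M), (∀ v, v ∈ S ↔ 0 < v.ord (algebraMap k M b - x)) ∧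
      ∑ v ∈ S, v.ord (algebraMap k M b - x) = (dg k x : ℤ)
    by_cases hx : IsAlgebraic k x
    · obtain ⟨x₀, rfl⟩ := B11_cst hx
      have h0 : ∀ v : Place k M, v.ord (algebraMap k M b - algebraMap k M x₀) = 0 := by
        intro v
        rw [← map_sub]
        by_cases h : b - x₀ = 0
        · rw [h, map_zero, v.ord_zero]
        · exact v.ord_const _ h
      refine ⟨∅, fun v => ?_, ?_⟩
      · rw [h0]
        simp
      · rw [dg_alg hM _ hx]
        simp
    · have hy : Transcendental k (algebraMap k M b - x) := by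
        intro h
        apply hx
        have h1 := (isAlgebraic_algebraMap (R := k) (A := M) b).sub h
        rwa [sub_sub_cancel] at h1
      obtain ⟨S, hS, h⟩ := B11_zeros hM _ hy
      refine ⟨S, hS, ?_⟩
      rw [h]
      unfold dg
      have h2 : IntermediateField.adjoin k {algebraMap k M b - x} = IntermediateField.adjoin k {x} := by
        apply le_antisymm
        · rw [IntermediateField.adjoin_simple_le_iff]
          exact sub_mem (IntermediateField.algebraMap_mem _ _) (IntermediateField.mem_adjoin_simple_self k x)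
        · rw [IntermediateField.adjoin_simple_le_iff]
          have h3 := sub_mem (IntermediateField.algebraMap_mem (IntermediateField.adjoin k {algebraMap k M b - x}) b)
            (IntermediateField.mem_adjoin_simple_self k (algebraMap k M b - x))
          rwa [sub_sub_cancel] at h3
      rw [h2]

/-- the reduction of the linear factors at a place -/
private theorem B11_red [IsAlgClosed k] {M : Type} [Field M] [Algebra k M] (hM : FunF k 1 M) (w : Place k M)
    (x : Option M) : ∃ (q : Option k) (m : M), m ≠ 0 ∧ 0 ≤ w.ord m ∧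
      (∀ t : k, Red w (m * ev x (algebraMap k M t)) (algebraMap k (RF w) (ev q t))) ∧ (q = none ∨ m = 1) := by
  cases x with
  | none =>
    refine ⟨none, 1, one_ne_zero, by rw [w.ord_one], fun t => ?_, Or.inl rfl⟩
    change Red w (1 * 1) (algebraMap k (RF w) 1)
    rw [mul_one, map_one]
    exact Pool.Agent.LibCHd.red_one w
  | some x =>
    by_cases hx : w.ord x < 0
    · have hx0 : x ≠ 0 := by
        rintro rfl
        rw [w.ord_zero] at hx
        exact lt_irrefl _ hx
      refine ⟨none, -x⁻¹, neg_ne_zero.2 (inv_ne_zero hx0), by rw [w.ord_neg, w.ord_inv]; omega, fun t => ?_,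
        Or.inl rfl⟩
      have h1 : -x⁻¹ * ev (some x) (algebraMap k M t) = 1 - algebraMap k M t * x⁻¹ := by
        change -x⁻¹ * (algebraMap k M t - x) = _
        field_simp
        ring
      rw [h1]
      have h2 : Red w x⁻¹ 0 := Pool.Agent.LibCHd.red_zero_iff.2 (Or.inr (by rw [w.ord_inv]; omega))
      have h3 := (Pool.Agent.LibCHd.red_one w).sub ((Pool.Agent.LibCHd.red_const w t).mul h2)
      rw [mul_zero, sub_zero] at h3
      change Red w _ (algebraMap k (RF w) 1)
      rw [map_one]
      exact h3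
    · obtain ⟨c, hc⟩ := Pool.Agent.LibCHd.exists_red (v := w) (f := x) (Or.inr (not_lt.1 hx))
      obtain ⟨c₀, rfl⟩ := res_k hM w c
      refine ⟨some c₀, 1, one_ne_zero, by rw [w.ord_one], fun t => ?_, Or.inr rfl⟩
      rw [one_mul]
      change Red w (algebraMap k M t - x) (algebraMap k (RF w) (t - c₀))
      rw [map_sub]
      exact (Pool.Agent.LibCHd.red_const w t).sub hc

private theorem B11_inj {K : Type} [Field K] [Algebra k K] {w : Place k K} {c : k}
    (h : Red w (0 : K) (algebraMap k (RF w) c)) : c = 0 := by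
  have h1 := h.unique (Pool.Agent.LibCHd.red_zero w)
  rwa [map_eq_zero] at h1

private theorem B11_zero {M : Type} [Field M] [Algebra k M] {w : Place k M} {m y : M} {c : k} (hm : m ≠ 0)
    (hm' : 0 ≤ w.ord m) (h : Red w (m * y) (algebraMap k (RF w) c)) (hy : 0 < w.ord y) : c = 0 := by
  have hy0 : y ≠ 0 := by
    rintro rfl
    rw [w.ord_zero] at hy
    exact lt_irrefl _ hy
  have h1 : Red w (m * y) 0 := Pool.Agent.LibCHd.red_zero_iff.2 (Or.inr (by rw [w.ord_mul _ _ hm hy0]; omega))
  have h2 := h.unique h1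
  rwa [map_eq_zero] at h2

/-- the difference of the orders -/
private theorem B11_diff [IsAlgClosed k] {M : Type} [Field M] [Algebra k M] (hM : FunF k 1 M) (w : Place k M)
    (x : Option M) (b b' : k) (h : ev x (algebraMap k M b) ≠ 0) (h' : ev x (algebraMap k M b') ≠ 0) :
    w.ord (ev x (algebraMap k M b)) - w.ord (ev x (algebraMap k M b')) =
      max 0 (w.ord (ev x (algebraMap k M b))) - max 0 (w.ord (ev x (algebraMap k M b'))) := by
  obtain ⟨q, m, hm, hm0, hred, hq⟩ := B11_red hM w x
  rcases hq with rfl | rfl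
  · have hone : ∀ t : k, ev x (algebraMap k M t) ≠ 0 → w.ord (ev x (algebraMap k M t)) = - w.ord m := by
      intro t ht
      have h1 := hred t
      have h2 : algebraMap k (RF w) (ev none t) ≠ 0 := by
        change algebraMap k (RF w) 1 ≠ 0
        rw [map_one]
        exact one_ne_zero
      have h3 := h1.ord_eq_zero h2
      rw [w.ord_mul _ _ hm ht] at h3
      omega
    rw [hone b h, hone b' h', max_eq_left (by omega)]
    ring
  · have hone : ∀ t : k, ev x (algebraMap k M t) ≠ 0 → 0 ≤ w.ord (ev x (algebraMap k M t)) := by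
      intro t ht
      have h1 := (hred t).reg
      rw [one_mul] at h1
      exact h1.resolve_left ht
    rw [max_eq_right (hone b h), max_eq_right (hone b' h')]

private theorem B11_cA {c : Dat k} {M : Type} [Field M] [Algebra k M] (r : Fin 3 → k) (R : Fin 3 → M)
    (hR : ∀ i, R i = algebraMap k M (r i)) (i : Fin 3) : cA (c.over M) R i = algebraMap k M (cA c r i) := by
  unfold cA
  rw [hR, map_add, map_mul]
  congr 1
  · congr 1
    exact ka_map (algebraMap k M) c i
  · exact kb_map (algebraMap k M) c i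

private theorem B11_cB {c : Dat k} {M : Type} [Field M] [Algebra k M] (r : Fin 3 → k) (R : Fin 3 → M)
    (hR : ∀ i, R i = algebraMap k M (r i)) (i : Fin 3) : cB (c.over M) R i = algebraMap k M (cB c r i) := by
  unfold cB
  rw [hR, map_add, map_mul, map_mul, map_mul]
  congr 1
  · congr 1
    congr 1
    exact ka_map (algebraMap k M) c i
  · congr 1
    exact kb_map (algebraMap k M) c i

/-- no place with `x_j ≡ b_0` and `x_m ≡ b_1` -/
private theorem B11_excl [IsAlgClosed k] {c : Dat k} (hc : c.Good) {M : Type} [Field M]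
    [Algebra k M] (hM : FunF k 1 M) {z : Zp M} (hz : IsZ (c.over M) z) {P : Pnt 3 M} (hP : IsLift (c.over M) z P)
    (r : Fin 3 → k) (hR : ∀ i, z.R i = algebraMap k M (r i)) (w : Place k M) (j j' : Fin 3)
    (h : 0 < w.ord (ev (P j 0) (algebraMap k M (c.b 0)))) (h' : 0 < w.ord (ev (P j' 0) (algebraMap k M (c.b 1)))) :
    False := by
  choose q m hm hm0 hred _ using fun j => B11_red hM w (P j 0)
  obtain ⟨p, hp0, hp3, hp⟩ := ev_prod q
  have hj : ev (q j) (c.b 0) = 0 := B11_zero (hm j) (hm0 j) (hred j _) h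
  have hj' : ev (q j') (c.b 1) = 0 := B11_zero (hm j') (hm0 j') (hred j' _) h'
  have hb0 : p.eval (c.b 0) = 0 := by
    rw [hp]
    exact Finset.prod_eq_zero (Finset.mem_univ j) hj
  have hb1 : p.eval (c.b 1) = 0 := by
    rw [hp]
    exact Finset.prod_eq_zero (Finset.mem_univ j') hj'
  have hprod : ∀ t : k, Red w ((m 0 * m 1 * m 2) * ∏ j, ev (P j 0) (algebraMap k M t))
      (algebraMap k (RF w) (p.eval t)) := by
    intro t
    have h1 := ((hred 0 t).mul (hred 1 t)).mul (hred 2 t)
    rw [← map_mul, ← map_mul] at h1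
    rw [hp, Fin.prod_univ_three, Fin.prod_univ_three]
    have h2 : m 0 * m 1 * m 2 * (ev (P 0 0) (algebraMap k M t) * ev (P 1 0) (algebraMap k M t) *
        ev (P 2 0) (algebraMap k M t)) = m 0 * ev (P 0 0) (algebraMap k M t) *
        (m 1 * ev (P 1 0) (algebraMap k M t)) * (m 2 * ev (P 2 0) (algebraMap k M t)) := by ring
    rw [h2]
    exact h1
  obtain ⟨l, hl, hval⟩ := hP.val
  have hY : ∀ i, Red w ((m 0 * m 1 * m 2) * (l * z.Y i)) (algebraMap k (RF w) (p.eval (c.b i))) := by
    intro i
    rw [← (hval i).2]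
    exact hprod (c.b i)
  -- the relations
  have hrel : ∀ (a : Fin 3 → k), ∑ i, algebraMap k M (a i) * z.Y i = 0 → a 2 * p.eval (c.b 2) = 0 := by
    intro a ha
    have h1 := (((Pool.Agent.LibCHd.red_const w (a 0)).mul (hY 0)).add
      ((Pool.Agent.LibCHd.red_const w (a 1)).mul (hY 1))).add ((Pool.Agent.LibCHd.red_const w (a 2)).mul (hY 2))
    rw [Fin.sum_univ_three] at ha
    have h2 : algebraMap k M (a 0) * (m 0 * m 1 * m 2 * (l * z.Y 0)) +
        algebraMap k M (a 1) * (m 0 * m 1 * m 2 * (l * z.Y 1)) +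
        algebraMap k M (a 2) * (m 0 * m 1 * m 2 * (l * z.Y 2)) = 0 := by
      linear_combination (m 0 * m 1 * m 2 * l) * ha
    rw [h2, ← map_mul, ← map_mul, ← map_mul, ← map_add, ← map_add] at h1
    have h3 := B11_inj h1
    rw [hb0, hb1] at h3
    linear_combination h3
  have hA := hrel (cA c r) (by
    rw [← hz.r1]
    exact Finset.sum_congr rfl fun i _ => by rw [B11_cA r z.R hR])
  have hB := hrel (cB c r) (by
    rw [← hz.r2]
    exact Finset.sum_congr rfl fun i _ => by rw [B11_cB r z.R hR])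
  have hb2 : p.eval (c.b 2) = 0 := by
    by_contra hne
    have h1 := (mul_eq_zero.1 hA).resolve_right hne
    have h2 := (mul_eq_zero.1 hB).resolve_right hne
    have h3 : kb c 2 * (c.b 2 - c.a 2) = 0 := by
      unfold cA at h1
      unfold cB at h2
      linear_combination h2 - c.a 2 * h1
    have h4 : c.b 2 - c.a 2 ≠ 0 := by
      intro h5
      have h6 : Sum.elim c.a c.b (Sum.inr 2) = Sum.elim c.a c.b (Sum.inl 2) := sub_eq_zero.1 h5
      have h7 := hc.inj h6
      simp at h7
    exact (mul_ne_zero (kb_ne hc 2) h4) h3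
  have hb : ∀ i, p.eval (c.b i) = 0 := by
    intro i
    fin_cases i
    · exact hb0
    · exact hb1
    · exact hb2
  have ha : ∀ i, p.eval (c.a i) = 0 := by
    intro i
    have h1 := hprod (c.a i)
    have h2 : ∏ j, ev (P j 0) (algebraMap k M (c.a i)) = l * (z.R i * z.Y i) := (hval i).1
    rw [h2, hR] at h1
    have h3 := (Pool.Agent.LibCHd.red_const w (r i)).mul (hY i)
    have h4 : algebraMap k M (r i) * (m 0 * m 1 * m 2 * (l * z.Y i)) =
        m 0 * m 1 * m 2 * (l * (algebraMap k M (r i) * z.Y i)) := by ring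
    rw [h4, hb i, map_zero, mul_zero] at h3
    have h5 := h1.unique h3
    rwa [map_eq_zero] at h5
  apply hp0
  refine Polynomial.eq_zero_of_natDegree_lt_card_of_eval_eq_zero p hc.inj ?_ ?_
  · rintro (i | i)
    · exact ha i
    · exact hb i
  · rw [Fintype.card_sum, Fintype.card_fin]
    omega

theorem sum_dg [IsAlgClosed k] [CharZero k] {c : Dat k} (hc : c.Good) {ν : k} (hν : ν ≠ 0) {M : Type} [Field M]
    [Algebra k M] (hM : FunF k 1 M) {z : Zp M} (hz : IsZ (c.over M) z) {P : Pnt 3 M} (hP : IsLift (c.over M) z P)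
    (Q : Fin 2 → Option k) (hQ : OnC c (Q 0) (Q 1)) (hl : OnLine c ν Q z)
    (ht : Transcendental k (z.Y 0 / z.Y 1)) : ∑ j, dgo k (P j 0) = dg k (z.Y 0 / z.Y 1) := by
  have hR := hl.1
  obtain ⟨l, hl0, hval⟩ := hP.val
  have hYv : ∀ i, ∏ j, ev (P j 0) (algebraMap k M (c.b i)) = l * z.Y i := fun i => (hval i).2
  have hne : ∀ i j, ev (P j 0) (algebraMap k M (c.b i)) ≠ 0 := by
    intro i j h
    have h1 := hYv i
    rw [Finset.prod_eq_zero (Finset.mem_univ j) h] at h1
    exact (mul_ne_zero hl0 (hz.Y0 i)) h1.symm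
  have hord : ∀ (w : Place k M) (i : Fin 3), w.ord (l * z.Y i) = ∑ j, w.ord (ev (P j 0) (algebraMap k M (c.b i))) := by
    intro w i
    rw [← hYv i, Fin.prod_univ_three, Fin.sum_univ_three, w.ord_mul _ _ (mul_ne_zero (hne i 0) (hne i 1)) (hne i 2),
      w.ord_mul _ _ (hne i 0) (hne i 1)]
  have hφ : z.Y 0 / z.Y 1 = (l * z.Y 0) / (l * z.Y 1) := by
    rw [mul_div_mul_left _ _ hl0]
  have key : ∀ w : Place k M, max 0 (w.ord (z.Y 0 / z.Y 1)) =
      ∑ j, max 0 (w.ord (ev (P j 0) (algebraMap k M (c.b 0)))) := by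
    intro w
    have h1 : w.ord (z.Y 0 / z.Y 1) = ∑ j, max 0 (w.ord (ev (P j 0) (algebraMap k M (c.b 0)))) -
        ∑ j, max 0 (w.ord (ev (P j 0) (algebraMap k M (c.b 1)))) := by
      rw [hφ, w.ord_div _ _ (mul_ne_zero hl0 (hz.Y0 0)) (mul_ne_zero hl0 (hz.Y0 1)), hord, hord,
        ← Finset.sum_sub_distrib, ← Finset.sum_sub_distrib]
      exact Finset.sum_congr rfl fun j _ => B11_diff hM w _ _ _ (hne 0 j) (hne 1 j)
    by_cases h2 : ∃ j', 0 < w.ord (ev (P j' 0) (algebraMap k M (c.b 1)))
    · obtain ⟨j', hj'⟩ := h2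
      have h3 : ∀ j, max 0 (w.ord (ev (P j 0) (algebraMap k M (c.b 0)))) = 0 := by
        intro j
        apply max_eq_left
        by_contra hlt
        exact B11_excl hc hM hz hP _ hR w j j' (not_le.1 hlt) hj'
      rw [Finset.sum_eq_zero fun j _ => h3 j] at h1 ⊢
      apply max_eq_left
      have h4 : 0 ≤ ∑ j, max 0 (w.ord (ev (P j 0) (algebraMap k M (c.b 1)))) :=
        Finset.sum_nonneg fun j _ => le_max_left _ _
      omega
    · push Not at h2
      have h3 : ∑ j, max 0 (w.ord (ev (P j 0) (algebraMap k M (c.b 1)))) = 0 :=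
        Finset.sum_eq_zero fun j _ => max_eq_left (h2 j)
      rw [h3, sub_zero] at h1
      rw [h1]
      exact max_eq_right (Finset.sum_nonneg fun j _ => le_max_left _ _)
  obtain ⟨S, hS, hSs⟩ := B11_zeros hM _ ht
  choose T hT hTs using fun j => B11_zeros_ev hM (P j 0) (c.b 0)
  have hmain : ∀ (A B : Finset (Place k M)) (f : Place k M → ℤ), (∀ v, v ∈ A ↔ 0 < f v) → A ⊆ B →
      ∑ v ∈ B, max 0 (f v) = ∑ v ∈ A, f v := by
    intro A B f hA hAB
    rw [← Finset.sum_subset hAB (f := fun v => max 0 (f v))]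
    · exact Finset.sum_congr rfl fun v hv => max_eq_right ((hA v).1 hv).le
    · intro v _ hv
      rw [hA] at hv
      exact max_eq_left (not_lt.1 hv)
  have hU : ∀ j, T j ⊆ S ∪ Finset.univ.biUnion T := fun j v hv =>
    Finset.mem_union_right _ (Finset.mem_biUnion.2 ⟨j, Finset.mem_univ j, hv⟩)
  have e1 := hmain S (S ∪ Finset.univ.biUnion T) (fun v => v.ord (z.Y 0 / z.Y 1)) hS Finset.subset_union_left
  have e2 : ∀ j, ∑ v ∈ S ∪ Finset.univ.biUnion T, max 0 (v.ord (ev (P j 0) (algebraMap k M (c.b 0)))) =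
      (dgo k (P j 0) : ℤ) := fun j => by
    rw [hmain (T j) _ (fun v => v.ord (ev (P j 0) (algebraMap k M (c.b 0)))) (hT j) (hU j)]
    exact hTs j
  rw [hSs, Finset.sum_congr rfl fun v _ => key v, Finset.sum_comm] at e1
  rw [Finset.sum_congr rfl fun j _ => e2 j] at e1
  exact_mod_cast e1

end Pool.Agent.LibCW77
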