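import Pool.Agent.LibCW77.Defs6
import Pool.Agent.LibCW77.D1
import Pool.Agent.LibCW77.D3
import Pool.Agent.LibCW77.D4
import Pool.Agent.LibCW77.D6
import Pool.Agent.LibCW77.T1
import Pool.Agent.LibCW77.T2

/-!
[CW77 B5] The general transfer relation. As the proof of `master` (T8; store: CW77_T8.lean) without Z-points. `div_rel` for every `u a` and the function `i g` on `N'` (dimension 2), with one finite
set `S'` of places of `N'` containing all places with `ord (i g) ≠ 0`, residue field of dimension 1 and `cyc ≠ 0` for one of the `u a` (`fin_cyc`), enlarged by all places above the places in `S`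
(`sum_ef`; `funF_finite`). Add up with the signs `ε` and apply `q`. The places of `S'` not above `S`: `h3`. The others: `h2` and `∑ e f = finrank` (`sum_ef`), then divide by the degree.
-/

open scoped Classical
open Polynomial

namespace Pool.Agent.LibCW77

open Pool.Agent.LibBH2
open Pool.Agent.LibCHd (VR RF Red FunF)

variable {k : Type} [Field k]

private theorem B5_restr_unique {N N' : Type} [Field N] [Algebra k N] [Field N'] [Algebra k N']
    (i : N →ₐ[k] N') (w : Place k N') {v v' : Place k N} {e e' : ℤ} (he : 0 < e) (he' : 0 < e')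
    (h : ∀ x, w.ord (i x) = e * v.ord x) (h' : ∀ x, w.ord (i x) = e' * v'.ord x) : v = v' := by
  obtain ⟨t, ht⟩ := v.exists_uniformizer
  obtain ⟨t', ht'⟩ := v'.exists_uniformizer
  have h1 : e = e' * v'.ord t := by rw [← h', h, ht, mul_one]
  have h2 : e' = e * v.ord t' := by rw [← h, h', ht', mul_one]
  have h3 : e = e' := Int.dvd_antisymm he.le he'.le ⟨_, h2⟩ ⟨_, h1⟩
  refine Place.ext' fun x => ?_
  have h4 : e * v.ord x = e * v'.ord x := by
    rw [← h, h', ← h3]
  exact mul_left_cancel₀ he.ne' h4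

variable {V : Type} [AddCommGroup V] [Module ℚ V]

theorem transfer [IsAlgClosed k] [CharZero k] {c : Dat k} (hc : c.Good) (q : CH c 3 1 →+ V) {N N' : Type} [Field N]
    [Algebra k N] [Field N'] [Algebra k N'] (i : N →ₐ[k] N') (hfin : Module.finrank i.fieldRange N' ≠ 0)
    (hN : FunF k 2 N) {ι : Type} [Fintype ι] (ε : ι → ℤ) (u : ι → Pnt 3 N') (hu : ∀ a, On (c.over N') (u a))
    (g : N) (hg : g ≠ 0) (S : Finset (Place k N)) (t : Place k N → V) (h1 : ∀ v ∈ S, FunF k 1 (RF v))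
    (h2 : ∀ v ∈ S, ∀ (w : Place k N') (e : ℤ) (j : RF v →ₐ[k] RF w), 0 < e → (∀ x, w.ord (i x) = e * v.ord x) →
      (∀ x y, Red v x y → Red w (i x) (j y)) → Module.finrank j.fieldRange (RF w) ≠ 0 →
      ∀ qq : ι → Pnt 3 (RF w), (∀ a, SpP w (u a) (qq a)) →
        ∑ a, ε a • q (cls c 1 (qq a)) = Module.finrank j.fieldRange (RF w) • t v)
    (h3 : ∀ w : Place k N', w.ord (i g) ≠ 0 → FunF k 1 (RF w) →
      (∀ v ∈ S, ¬ ∃ e : ℤ, 0 < e ∧ ∀ x, w.ord (i x) = e * v.ord x) →
      ∀ qq : ι → Pnt 3 (RF w), (∀ a, SpP w (u a) (qq a)) → ∑ a, ε a • q (cls c 1 (qq a)) = 0) :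
    ∑ v ∈ S, v.ord g • t v = 0 := by
  have hN' : FunF k 2 N' := funF_finite i hfin hN
  choose qq hqq using fun (a : ι) (w : Place k N') => spP_exists w (u a)
  have hig : i g ≠ 0 := (map_ne_zero i).2 hg
  choose T e f hT hj0 hsum using fun v : Place k N => sum_ef i hfin v
  choose hee j hred0 hf0 hff using hj0
  obtain ⟨S1, hS1⟩ : ∃ S1 : Finset (Place k N'), S1 =
    (Finset.univ.biUnion fun a => (fin_cyc hN' (i g) (u a)).toFinset) ∪ S.biUnion T := ⟨_, rfl⟩
  have hTS : ∀ v ∈ S, ∀ w ∈ T v, FunF k 1 (RF w) := fun v hv w hw =>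
    funF_finite (j v w hw) (hf0 v w hw) (h1 v hv)
  have hFun0 : ∀ w ∈ S1, w ∉ S.biUnion T → w.ord (i g) ≠ 0 ∧ FunF k 1 (RF w) := by
    intro w hw hw'
    rw [hS1, Finset.mem_union, Finset.mem_biUnion] at hw
    obtain ⟨a, -, ha⟩ := hw.resolve_right hw'
    rw [Set.Finite.mem_toFinset] at ha
    exact ⟨ha.1, ha.2.1⟩
  have hFun : ∀ w ∈ S1, FunF k 1 (RF w) := by
    intro w hw
    by_cases hw' : w ∈ S.biUnion T
    · obtain ⟨v, hv, hw2⟩ := Finset.mem_biUnion.1 hw'
      exact hTS v hv w hw2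
    · exact (hFun0 w hw hw').2
  have hout : ∀ a w, w ∉ S1 → w.ord (i g) ≠ 0 → FunF k 1 (RF w) → cyc k (qq a w) = 0 := by
    intro a w hw ho hF
    by_contra hcon
    apply hw
    rw [hS1, Finset.mem_union, Finset.mem_biUnion]
    refine Or.inl ⟨a, Finset.mem_univ a, ?_⟩
    rw [Set.Finite.mem_toFinset]
    exact ⟨ho, hF, qq a w, hqq a w, hcon⟩
  have hr : ∀ a, ∑ w ∈ S1, w.ord (i g) • cls c 1 (qq a w) = 0 := fun a =>
    div_rel c 3 1 hN' (u a) (hu a) (i g) hig S1 (qq a) (hqq a) hFun (hout a)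
  have hr' : ∀ a, ∑ w ∈ S1, w.ord (i g) • q (cls c 1 (qq a w)) = 0 := by
    intro a
    have h3 := congrArg q (hr a)
    rw [map_sum, map_zero] at h3
    rw [← h3]
    exact Finset.sum_congr rfl fun w _ => (map_zsmul q _ _).symm
  have hV : ∑ w ∈ S1, w.ord (i g) • ∑ a, ε a • q (cls c 1 (qq a w)) = 0 := by
    simp only [Finset.smul_sum]
    rw [Finset.sum_comm]
    refine Finset.sum_eq_zero fun a _ => ?_
    have h3 : ∑ w ∈ S1, w.ord (i g) • ε a • q (cls c 1 (qq a w)) =
        ε a • ∑ w ∈ S1, w.ord (i g) • q (cls c 1 (qq a w)) := by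
      rw [Finset.smul_sum]
      exact Finset.sum_congr rfl fun w _ => smul_comm _ _ _
    rw [h3, hr' a, smul_zero]
  have hin : ∀ v ∈ S, ∀ w ∈ T v, ∑ a, ε a • q (cls c 1 (qq a w)) = f v w • t v := by
    intro v hv w hw
    rw [← hff v w hw]
    have he0' : (0 : ℤ) < (e v w : ℤ) := by exact_mod_cast (hee v w hw).1
    exact h2 v hv w (e v w) (j v w hw) he0' (hee v w hw).2 (hred0 v w hw) (hf0 v w hw)
      (fun a => qq a w) (fun a => hqq a w)
  have hnot : ∀ w ∈ S1, w ∉ S.biUnion T →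
      w.ord (i g) • ∑ a, ε a • q (cls c 1 (qq a w)) = 0 := by
    intro w hw hw'
    obtain ⟨ho, hF⟩ := hFun0 w hw hw'
    have h3' := h3 w ho hF (fun v hv hex => hw' (Finset.mem_biUnion.2 ⟨v, hv, (hT v w).2 hex⟩))
      (fun a => qq a w) (fun a => hqq a w)
    rw [h3', smul_zero]
  have hsub : S.biUnion T ⊆ S1 := by
    rw [hS1]
    exact Finset.subset_union_right
  have hdisj : (S : Set (Place k N)).PairwiseDisjoint T := by
    intro v _ v' _ hvv
    rw [Function.onFun, Finset.disjoint_left]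
    intro w hw hw'
    obtain ⟨e1, he1, h4⟩ := (hT v w).1 hw
    obtain ⟨e2, he2, h5⟩ := (hT v' w).1 hw'
    exact hvv (B5_restr_unique i w he1 he2 h4 h5)
  rw [← Finset.sum_subset hsub hnot, Finset.sum_biUnion hdisj] at hV
  have hfinal : ∑ v ∈ S, Module.finrank i.fieldRange N' • (v.ord g • t v) = 0 := by
    rw [← hV]
    refine Finset.sum_congr rfl fun v hv => ?_
    rw [← hsum v, Finset.sum_smul]
    refine Finset.sum_congr rfl fun w hw => ?_
    rw [hin v hv w hw, (hee v w hw).2 g, mul_smul, mul_smul, smul_comm _ (v.ord g),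
      natCast_zsmul, smul_comm (v.ord g)]
  rw [← Finset.smul_sum] at hfinal
  have h4 : ((Module.finrank i.fieldRange N' : ℕ) : ℚ) • ∑ v ∈ S, v.ord g • t v = 0 := by
    rw [Nat.cast_smul_eq_nsmul]
    exact hfinal
  exact (smul_eq_zero.1 h4).resolve_left (by exact_mod_cast hfin)

end Pool.Agent.LibCW77
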