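import Pool.Agent.LibCW77.Defs6
import Pool.Agent.LibCW77.B1
import Pool.Agent.LibCW77.B2
import Pool.Agent.LibCW77.B3
import Pool.Agent.LibCW77.D1
import Pool.Agent.LibCW77.G3

/-!
[CW77 B6] The pairs of the pencil `IsPen`. `pen_not_ram`: `u ≠ 0`. `pen_eq`: `u ^ n = ∏ X_j / Y_j` (`pair_of`) and `pen_prod`: `X_i / Y_i` is `u ^ n` divided by a constant of `k`, the same for all pairs.
`pen_conj`: `pen_eq`, `pen_uniq`, `pr_conj`. `pen_exists`: `pen_poly` with `A / B = u ^ n / const`, `B = 1`; the value at `a_j` or `b_j`, `j ≠ i`, is not zero: otherwise both are, the polynomial is a multiple of `en c j`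
(`node_poly`), which gives `u ^ n ∈ k`, but `u` is transcendental; `exists_pair`. `pen_tw`, `pen_map`: clear. `pen_sp`: `q'` the specialisation of `P'` at `w`; `λ₀` the residue of `u`. There are factors `l_j` with
`Red w (l_j ev (x_j) t) (ev (q'_j) t)` for all constants `t`, so the relations (and `κ X_i = u ^ n Y_i`) hold for the values of `q'`, its polynomial (`pair_poly`) is proportional to the polynomial of `P''` by
`pen_uniq`, so no value at the six points is `0`, `q'` is not ramified (`ram_iff`, `on_sp`), the product of its `v` is `λ₀`: `IsPen`, then `pen_conj`. `pen_alg`: over the algebraic closure `E` of `k(λ)` in `N'`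
(`P'` is defined over `E` : its coordinates are algebraic over `k(λ)`: roots of the polynomial `pen_poly`, `n`-th roots) the place is not trivial, its residue field is `k` (`res_k`).
-/

open scoped Classical
open Polynomial

namespace Pool.Agent.LibCW77

open Pool.Agent.LibBH2
open Pool.Agent.LibCHd (VR RF Red FunF)

variable {k : Type} [Field k]

/-! auxiliary statements -/

private theorem B6_ka {M : Type} [Field M] [Algebra k M] (c : Dat k) (j : Fin 3) :
    ka (c.over M) j = algebraMap k M (ka c j) := ka_map _ _ _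

private theorem B6_kb {M : Type} [Field M] [Algebra k M] (c : Dat k) (j : Fin 3) :
    kb (c.over M) j = algebraMap k M (kb c j) := kb_map _ _ _

private theorem B6_en {M : Type} [Field M] [Algebra k M] (c : Dat k) (i : Fin 3) (t : k) :
    en (c.over M) i (algebraMap k M t) = algebraMap k M (en c i t) := by
  simp only [en, Dat.over, Dat.map, map_mul, map_sub]

/-- the relation number `j` of the pencil number `i` -/
private theorem B6_rel {M : Type} [Field M] [Algebra k M] (c : Dat k) (i j : Fin 3) (X Y : M) :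
    ka (c.over M) j * (en (c.over M) i ((c.over M).a j) * X) +
      kb (c.over M) j * (en (c.over M) i ((c.over M).b j) * Y) =
    algebraMap k M (ka c j * en c i (c.a j)) * X + algebraMap k M (kb c j * en c i (c.b j)) * Y := by
  rw [B6_ka, B6_kb, map_mul, map_mul, ← B6_en, ← B6_en]
  simp only [Dat.over, Dat.map]
  ring

private theorem B6_en_ne {M : Type} [Field M] {c : Dat M} (hc : c.Good) {i j : Fin 3} (hj : j ≠ i) :
    en c i (c.a j) ≠ 0 ∧ en c i (c.b j) ≠ 0 := by
  have h1 : c.a j ≠ c.a i := by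
    intro h
    have h2 : Sum.elim c.a c.b (Sum.inl j) = Sum.elim c.a c.b (Sum.inl i) := h
    exact hj (Sum.inl.inj (hc.inj h2))
  have h2 : c.a j ≠ c.b i := by
    intro h
    have h2 : Sum.elim c.a c.b (Sum.inl j) = Sum.elim c.a c.b (Sum.inr i) := h
    exact absurd (hc.inj h2) (by simp)
  have h3 : c.b j ≠ c.a i := by
    intro h
    have h2 : Sum.elim c.a c.b (Sum.inr j) = Sum.elim c.a c.b (Sum.inl i) := h
    exact absurd (hc.inj h2) (by simp)
  have h4 : c.b j ≠ c.b i := by
    intro h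
    have h2 : Sum.elim c.a c.b (Sum.inr j) = Sum.elim c.a c.b (Sum.inr i) := h
    exact hj (Sum.inr.inj (hc.inj h2))
  exact ⟨mul_ne_zero (sub_ne_zero.2 h1) (sub_ne_zero.2 h2),
    mul_ne_zero (sub_ne_zero.2 h3) (sub_ne_zero.2 h4)⟩

/-- the constant of the pencil -/
private noncomputable def B6_kap {M : Type} [Field M] (c : Dat M) (i : Fin 3) : M :=
  ∏ j ∈ Finset.univ.erase i, (-(kb c j * en c i (c.b j)) / (ka c j * en c i (c.a j)))

private theorem B6_kap_ne {M : Type} [Field M] {c : Dat M} (hc : c.Good) (i : Fin 3) : B6_kap c i ≠ 0 := by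
  unfold B6_kap
  rw [Finset.prod_ne_zero_iff]
  intro j hj
  have h := B6_en_ne hc (Finset.ne_of_mem_erase hj)
  exact div_ne_zero (neg_ne_zero.2 (mul_ne_zero (kb_ne hc j) h.2)) (mul_ne_zero (ka_ne hc j) h.1)

private theorem B6_kap_map {M : Type} [Field M] [Algebra k M] (c : Dat k) (i : Fin 3) :
    B6_kap (c.over M) i = algebraMap k M (B6_kap c i) := by
  unfold B6_kap
  rw [map_prod]
  refine Finset.prod_congr rfl fun j _ => ?_
  rw [map_div₀, map_neg, map_mul, map_mul, B6_ka, B6_kb, ← B6_en, ← B6_en]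
  rfl

private theorem B6_prod_eq {M : Type} {m : ℕ} [Field M] {P : Pnt m M} {u u' : M}
    (h : ∃ v : Fin m → M, (∀ j, P j 1 = some (v j)) ∧ ∏ j, v j = u)
    (h' : ∃ v : Fin m → M, (∀ j, P j 1 = some (v j)) ∧ ∏ j, v j = u') : u' = u := by
  obtain ⟨v, hv, rfl⟩ := h
  obtain ⟨v', hv', rfl⟩ := h'
  refine Finset.prod_congr rfl fun j _ => ?_
  have h1 := hv' j
  rw [hv j] at h1
  exact (Option.some.inj h1).symm

private theorem B6_not_ram {M : Type} [Field M] {c : Dat M} {i : Fin 3} {u : M} {P' : Pnt 2 M} (h : IsPen c i u P') :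
    ¬ Ram P' := by
  rintro ⟨j, hj⟩
  obtain ⟨v, hv, hp⟩ := h.prod
  have hne : v j ≠ 0 := by
    intro h0
    apply h.u0
    rw [← hp]
    exact Finset.prod_eq_zero (Finset.mem_univ j) h0
  rcases hj with hj | hj
  · rw [hv j] at hj
    exact absurd hj (by simp)
  · rw [hv j] at hj
    exact hne (Option.some.inj hj)

private theorem B6_pen_eq {c : Dat k} (hc : c.Good) {i : Fin 3} {M : Type} [Field M] [Algebra k M] {u : M}
    {P' : Pnt 2 M} (h : IsPen (c.over M) i u P') :
    algebraMap k M (B6_kap c i) * Xv (c.over M) P' i = u ^ c.n * Yv (c.over M) P' i := by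
  obtain ⟨p, u', hp0, hp2, hu', hpr, hpa, hpb, hX, hY, hun⟩ := pair_of (good_map hc) h.on (B6_not_ram h)
  have huu : u' = u := B6_prod_eq h.prod hpr.prod
  rw [huu] at hun
  have hb : ∀ j, p.eval ((c.over M).b j) ≠ 0 := fun j => by rw [hpb]; exact hY j
  have h2 := pen_prod (good_map hc) i p hb fun j hj => by rw [hpa, hpb]; exact h.rel j hj
  simp only [hpa, hpb] at h2
  rw [Finset.prod_div_distrib] at h2
  have hYp : ∏ j, Yv (c.over M) P' j ≠ 0 := Finset.prod_ne_zero_iff.2 fun j _ => hY j
  have h3 : u ^ c.n = (∏ j, Xv (c.over M) P' j) / ∏ j, Yv (c.over M) P' j := by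
    rw [eq_div_iff hYp]
    exact hun
  have h4 : u ^ c.n = Xv (c.over M) P' i / Yv (c.over M) P' i * B6_kap (c.over M) i := h3.trans h2
  rw [B6_kap_map] at h4
  rw [h4]
  have := hY i
  field_simp

private theorem B6_Xv_map {m : ℕ} {c : Dat k} {M M' : Type} [Field M] [Algebra k M] [Field M'] [Algebra k M']
    (σ : M →ₐ[k] M') (P : Pnt m M) (t : Fin 3) : Xv (c.over M') (mpP σ P) t = σ (Xv (c.over M) P t) := by
  simp only [Xv, mpP, map_prod]
  refine Finset.prod_congr rfl fun j _ => ?_
  cases P j 0 with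
  | none => simp [ev]
  | some x => simp [ev, Dat.map]

private theorem B6_Yv_map {m : ℕ} {c : Dat k} {M M' : Type} [Field M] [Algebra k M] [Field M'] [Algebra k M']
    (σ : M →ₐ[k] M') (P : Pnt m M) (t : Fin 3) : Yv (c.over M') (mpP σ P) t = σ (Yv (c.over M) P t) := by
  simp only [Yv, mpP, map_prod]
  refine Finset.prod_congr rfl fun j _ => ?_
  cases P j 0 with
  | none => simp [ev]
  | some x => simp [ev, Dat.map]

/-- normalised value of a linear polynomial at a place -/
private theorem B6_ev {N : Type} [Field N] [Algebra k N] {w : Place k N} {o : Option N} {p : Option (RF w)}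
    (h : SpO w o p) : ∃ l : N, l ≠ 0 ∧ ∀ t : k, Red w (l * ev o (algebraMap k N t)) (ev p (algebraMap k (RF w) t)) := by
  rcases o with _ | x
  · have hp : p = none := h
    subst hp
    refine ⟨1, one_ne_zero, fun t => ?_⟩
    show Red w (1 * 1) 1
    rw [mul_one]
    exact Pool.Agent.LibCHd.red_one w
  · rcases p with _ | x₀
    · have h1 : w.ord x < 0 := h
      have hx : x ≠ 0 := by
        rintro rfl
        rw [w.ord_zero] at h1
        exact lt_irrefl _ h1
      refine ⟨-x⁻¹, neg_ne_zero.2 (inv_ne_zero hx), fun t => ?_⟩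
      show Red w (-x⁻¹ * (algebraMap k N t - x)) 1
      rw [Pool.Agent.LibCHd.red_iff_sub (Pool.Agent.LibCHd.red_one w)]
      have h2 : -x⁻¹ * (algebraMap k N t - x) - 1 = -(algebraMap k N t * x⁻¹) := by
        field_simp
        ring
      rw [h2]
      refine Place.Zer.neg ?_
      refine Place.Zer.reg_mul (w.reg_const t) (Or.inr ?_)
      rw [w.ord_inv]
      omega
    · have h1 : Red w x x₀ := h
      refine ⟨1, one_ne_zero, fun t => ?_⟩
      show Red w (1 * (algebraMap k N t - x)) (algebraMap k (RF w) t - x₀)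
      rw [one_mul]
      exact (Pool.Agent.LibCHd.red_const w t).sub h1

private theorem B6_red_prod {N : Type} [Field N] [Algebra k N] {w : Place k N} {m : ℕ} (f : Fin m → N)
    (g : Fin m → RF w) (h : ∀ j, Red w (f j) (g j)) : Red w (∏ j, f j) (∏ j, g j) := by
  induction m with
  | zero => simpa using Pool.Agent.LibCHd.red_one w
  | succ m ih =>
    rw [Fin.prod_univ_succ, Fin.prod_univ_succ]
    exact (h 0).mul (ih _ _ fun j => h j.succ)

/-- normalised values of the polynomial of a pair at a place -/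
private theorem B6_XY {N : Type} [Field N] [Algebra k N] {w : Place k N} {m : ℕ} {P : Pnt m N} {q : Pnt m (RF w)}
    (c : Dat k) (hq : SpP w P q) : ∃ L : N, L ≠ 0 ∧ (∀ t : Fin 3, Red w (L * Xv (c.over N) P t) (Xv (c.over (RF w)) q t)) ∧
      ∀ t : Fin 3, Red w (L * Yv (c.over N) P t) (Yv (c.over (RF w)) q t) := by
  choose l hl hr using fun j => B6_ev (hq j 0)
  refine ⟨∏ j, l j, Finset.prod_ne_zero_iff.2 fun j _ => hl j, fun t => ?_, fun t => ?_⟩
  · simp only [Xv]
    rw [← Finset.prod_mul_distrib]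
    exact B6_red_prod _ _ fun j => hr j (c.a t)
  · simp only [Yv]
    rw [← Finset.prod_mul_distrib]
    exact B6_red_prod _ _ fun j => hr j (c.b t)

private theorem B6_red_aeval {K : Type} [Field K] [Algebra k K] {v : Place k K} {f : K} {y : RF v} (h : Red v f y)
    (p : k[X]) : Red v (aeval f p) (aeval y p) := by
  induction p using Polynomial.induction_on' with
  | add p q hp hq =>
    rw [map_add, map_add]
    exact hp.add hq
  | monomial n a =>
    rw [aeval_monomial, aeval_monomial]
    exact (Pool.Agent.LibCHd.red_const v a).mul (h.pow n)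

theorem pen_not_ram {M : Type} [Field M] {c : Dat M} {i : Fin 3} {u : M} {P' : Pnt 2 M} (h : IsPen c i u P') :
    ¬ Ram P' := by
  exact B6_not_ram h

theorem pen_eq {c : Dat k} (hc : c.Good) (i : Fin 3) : ∃ κ : k, κ ≠ 0 ∧ ∀ (M : Type) [Field M] [Algebra k M] (u : M)
    (P' : Pnt 2 M), IsPen (c.over M) i u P' →
    algebraMap k M κ * Xv (c.over M) P' i = u ^ c.n * Yv (c.over M) P' i := by
  exact ⟨B6_kap c i, B6_kap_ne hc i, fun M _ _ u P' h => B6_pen_eq hc h⟩

theorem pen_conj [IsAlgClosed k] {c : Dat k} (hc : c.Good) (hn : ND c) {M : Type} [Field M] [Algebra k M] {i : Fin 3}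
    {u : M} {P' P'' : Pnt 2 M} (h' : IsPen (c.over M) i u P') (h'' : IsPen (c.over M) i u P'') :
    ∃ (σ : Equiv.Perm (Fin 2)) (w : k), w ^ c.n = 1 ∧ P'' = pr σ (tw ![w, w⁻¹] P') := by
  have e1 := B6_pen_eq hc h'
  have e2 := B6_pen_eq hc h''
  obtain ⟨p, u', hp0, hp2, hu', hpr, hpa, hpb, hX, hY, -⟩ := pair_of (good_map hc) h'.on (B6_not_ram h')
  obtain ⟨q, u'', hq0, hq2, hu'', hqr, hqa, hqb, hX', hY', -⟩ := pair_of (good_map hc) h''.on (B6_not_ram h'')
  have hu1 : u' = u := B6_prod_eq h'.prod hpr.prod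
  have hu2 : u'' = u := B6_prod_eq h''.prod hqr.prod
  have hκ : algebraMap k M (B6_kap c i) ≠ 0 := by
    rw [ne_eq, map_eq_zero]
    exact B6_kap_ne hc i
  obtain ⟨l, hl, hlq⟩ := pen_uniq (good_map hc) (nd_map hn) i p q hp0 hq0 hp2 hq2
    (fun j hj => by rw [hpa, hpb]; exact h'.rel j hj) (fun j hj => by rw [hqa, hqb]; exact h''.rel j hj) (by
      rw [hpa, hqb, hqa, hpb]
      apply mul_left_cancel₀ hκ
      linear_combination Yv (c.over M) P'' i * e1 - Yv (c.over M) P' i * e2)
  rw [hu1] at hpr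
  rw [hu2] at hqr
  exact pr_conj hc (fun j => by rw [hpa]; exact hX j) (fun j => by rw [hpb]; exact hY j) hl hlq hpr hqr

theorem pen_exists [CharZero k] {c : Dat k} (hc : c.Good) (hn : ND c) {M : Type} [Field M] [Algebra k M] (i : Fin 3)
    (u : M) (hu : Transcendental k u) :
    ∃ (M' : Type) (_ : Field M') (_ : Algebra k M') (σ : M →ₐ[k] M') (P' : Pnt 2 M'),
      Module.finrank σ.fieldRange M' ≠ 0 ∧ IsPen (c.over M') i (σ u) P' := by
  have hcM : (c.over M).Good := good_map hc
  have hcn : 0 < c.n := lt_of_lt_of_le (by norm_num) hc.two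
  have hu0 : u ≠ 0 := by
    rintro rfl
    exact hu isAlgebraic_zero
  obtain ⟨p, hp2, hpa, hpb, hrel⟩ := pen_poly hcM (nd_map hn) i (u ^ c.n) (B6_kap (c.over M) i)
  have hκ : B6_kap (c.over M) i ≠ 0 := B6_kap_ne hcM i
  have hp0 : p ≠ 0 := by
    rintro rfl
    rw [eval_zero] at hpb
    exact hκ hpb.symm
  have hnode : ∀ j, j ≠ i → ¬ (p.eval ((c.over M).a j) = 0 ∧ p.eval ((c.over M).b j) = 0) := by
    rintro j hj ⟨h1, h2⟩
    obtain ⟨l, hl, hlp⟩ := node_poly hcM j p hp0 hp2 h1 h2
    have e1 := hlp ((c.over M).a i)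
    have e2 := hlp ((c.over M).b i)
    rw [hpa] at e1
    rw [hpb] at e2
    have hen := B6_en_ne hcM (Ne.symm hj)
    have hen' := B6_en_ne hc (Ne.symm hj)
    have e3 : u ^ c.n = algebraMap k M (B6_kap c i * en c j (c.a i) / en c j (c.b i)) := by
      rw [map_div₀, map_mul, ← B6_kap_map, ← B6_en, ← B6_en, e1, e2]
      have h5 : en (c.over M) j (algebraMap k M (c.b i)) ≠ 0 := hen.2
      rw [eq_div_iff h5]
      show l * en (c.over M) j (algebraMap k M (c.a i)) * en (c.over M) j (algebraMap k M (c.b i)) =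
        l * en (c.over M) j (algebraMap k M (c.b i)) * en (c.over M) j (algebraMap k M (c.a i))
      ring
    have e4 : IsAlgebraic k (u ^ c.n) := by
      rw [e3]
      exact isAlgebraic_algebraMap _
    exact hu (IsAlgebraic.of_pow hcn e4)
  have hane : ∀ j, p.eval ((c.over M).a j) ≠ 0 := by
    intro j h0
    by_cases hj : j = i
    · rw [hj, hpa] at h0
      exact pow_ne_zero _ hu0 h0
    · have h1 := hrel j hj
      rw [h0, mul_zero, mul_zero, zero_add] at h1
      refine hnode j hj ⟨h0, ?_⟩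
      exact ((mul_eq_zero.1 ((mul_eq_zero.1 h1).resolve_left (kb_ne hcM j))).resolve_left
        (B6_en_ne hcM hj).2)
  have hbne : ∀ j, p.eval ((c.over M).b j) ≠ 0 := by
    intro j h0
    by_cases hj : j = i
    · rw [hj, hpb] at h0
      exact hκ h0
    · have h1 := hrel j hj
      rw [h0, mul_zero, mul_zero, add_zero] at h1
      exact hane j ((mul_eq_zero.1 ((mul_eq_zero.1 h1).resolve_left (ka_ne hcM j))).resolve_left
        (B6_en_ne hcM hj).1)
  have hun : u ^ c.n * ∏ j, p.eval ((c.over M).b j) = ∏ j, p.eval ((c.over M).a j) := by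
    have h2 := pen_prod hcM i p hbne hrel
    rw [Finset.prod_div_distrib, hpa, hpb] at h2
    have h3 : u ^ c.n / B6_kap (c.over M) i * B6_kap (c.over M) i = u ^ c.n := div_mul_cancel₀ _ hκ
    have h4 : (∏ j, p.eval ((c.over M).a j)) / ∏ j, p.eval ((c.over M).b j) = u ^ c.n := h2.trans h3
    rw [← h4, div_mul_cancel₀ _ (Finset.prod_ne_zero_iff.2 fun j _ => hbne j)]
  obtain ⟨M', F, A, σ, P, hfin, hPr⟩ := exists_pair hc p hp2 hane hbne u hun
  refine ⟨M', F, A, σ, P, hfin, ⟨hPr.on, ?_, hPr.prod, ?_⟩⟩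
  · intro j hj
    obtain ⟨l, hl, hpol⟩ := hPr.pol
    have hX : Xv (c.over M') P j = l * σ (p.eval ((c.over M).a j)) := by
      have h1 := hpol ((c.over M').a j)
      have h2 : (c.over M').a j = (σ : M →+* M') ((c.over M).a j) := (σ.commutes (c.a j)).symm
      rw [show Xv (c.over M') P j = ∏ j', ev (P j' 0) ((c.over M').a j) from rfl, h1, h2,
        Polynomial.eval_map_apply]
      rfl
    have hY : Yv (c.over M') P j = l * σ (p.eval ((c.over M).b j)) := by
      have h1 := hpol ((c.over M').b j)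
      have h2 : (c.over M').b j = (σ : M →+* M') ((c.over M).b j) := (σ.commutes (c.b j)).symm
      rw [show Yv (c.over M') P j = ∏ j', ev (P j' 0) ((c.over M').b j) from rfl, h1, h2,
        Polynomial.eval_map_apply]
      rfl
    have h3 := hrel j hj
    rw [B6_rel] at h3
    have h4 := congrArg σ h3
    simp only [map_add, map_mul, AlgHom.commutes, map_zero] at h4
    rw [B6_rel, hX, hY]
    simp only [map_mul]
    linear_combination l * h4
  · exact (map_ne_zero_iff σ σ.toRingHom.injective).2 hu0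

theorem pen_tw {c : Dat k} {ζ : k} (hζ : ζ ^ c.n = 1) (hc : c.Good) {M : Type} [Field M] [Algebra k M] {i : Fin 3}
    {u : M} {P' : Pnt 2 M} (h : IsPen (c.over M) i u P') :
    IsPen (c.over M) i (algebraMap k M ζ * u) (tw ![ζ, 1] P') := by
  have hcn : 0 < c.n := lt_of_lt_of_le (by norm_num) hc.two
  have hζ0 : ζ ≠ 0 := by
    rintro rfl
    rw [zero_pow hcn.ne'] at hζ
    exact zero_ne_one hζ
  refine ⟨?_, ?_, ?_, ?_⟩
  · refine on_tw _ (fun j => ?_) h.on
    fin_cases j
    · exact hζ
    · exact one_pow _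
  · intro j hj
    exact h.rel j hj
  · obtain ⟨v, hv, hp⟩ := h.prod
    refine ⟨fun j => algebraMap k M ((![ζ, 1] : Fin 2 → k) j) * v j, fun j => ?_, ?_⟩
    · show (P' j 1).map (fun v => algebraMap k M ((![ζ, 1] : Fin 2 → k) j) * v) = _
      rw [hv j]
      rfl
    · rw [Finset.prod_mul_distrib, hp, Fin.prod_univ_two]
      simp
  · refine mul_ne_zero ?_ h.u0
    rw [ne_eq, map_eq_zero]
    exact hζ0

theorem pen_map {c : Dat k} {M M' : Type} [Field M] [Algebra k M] [Field M'] [Algebra k M'] (σ : M →ₐ[k] M')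
    {i : Fin 3} {u : M} {P' : Pnt 2 M} (h : IsPen (c.over M) i u P') : IsPen (c.over M') i (σ u) (mpP σ P') := by
  refine ⟨(on_map σ).2 h.on, ?_, ?_, ?_⟩
  · intro j hj
    have h3 := h.rel j hj
    rw [B6_rel] at h3
    have h4 := congrArg σ h3
    simp only [map_add, map_mul, AlgHom.commutes, map_zero] at h4
    rw [B6_rel, B6_Xv_map, B6_Yv_map]
    simp only [map_mul]
    exact h4
  · obtain ⟨v, hv, hp⟩ := h.prod
    refine ⟨fun j => σ (v j), fun j => ?_, ?_⟩
    · show (P' j 1).map σ = _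
      rw [hv j]
      rfl
    · rw [← map_prod, hp]
  · exact (map_ne_zero_iff σ σ.toRingHom.injective).2 h.u0

theorem pen_sp [IsAlgClosed k] {c : Dat k} (hc : c.Good) (hn : ND c) {N : Type} [Field N] [Algebra k N]
    {w : Place k N} {i : Fin 3} {u : N} {P' : Pnt 2 N} (h : IsPen (c.over N) i u P') {u₀ : RF w} (hu : Red w u u₀)
    {P'' : Pnt 2 (RF w)} (h'' : IsPen (c.over (RF w)) i u₀ P'') {q' : Pnt 2 (RF w)} (hq : SpP w P' q') :
    ∃ (σ : Equiv.Perm (Fin 2)) (a : k), a ^ c.n = 1 ∧ q' = pr σ (tw ![a, a⁻¹] P'') := by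
  have hqo : On (c.over (RF w)) q' := on_sp hc h.on hq
  obtain ⟨L, hL, hX, hY⟩ := B6_XY c hq
  have hrel : ∀ j, j ≠ i → ka (c.over (RF w)) j * (en (c.over (RF w)) i ((c.over (RF w)).a j) *
      Xv (c.over (RF w)) q' j) + kb (c.over (RF w)) j * (en (c.over (RF w)) i ((c.over (RF w)).b j) *
      Yv (c.over (RF w)) q' j) = 0 := by
    intro j hj
    have h1 := h.rel j hj
    rw [B6_rel] at h1
    rw [B6_rel]
    have h2 := ((Pool.Agent.LibCHd.red_const w (ka c j * en c i (c.a j))).mul (hX j)).add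
      ((Pool.Agent.LibCHd.red_const w (kb c j * en c i (c.b j))).mul (hY j))
    have h3 : algebraMap k N (ka c j * en c i (c.a j)) * (L * Xv (c.over N) P' j) +
        algebraMap k N (kb c j * en c i (c.b j)) * (L * Yv (c.over N) P' j) = 0 := by
      linear_combination L * h1
    rw [h3] at h2
    exact h2.unique (Pool.Agent.LibCHd.red_zero w)
  have heq : algebraMap k (RF w) (B6_kap c i) * Xv (c.over (RF w)) q' i = u₀ ^ c.n * Yv (c.over (RF w)) q' i := by
    have h1 := B6_pen_eq hc h
    have h2 := (Pool.Agent.LibCHd.red_const w (B6_kap c i)).mul (hX i)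
    have h3 := (hu.pow c.n).mul (hY i)
    have h4 : algebraMap k N (B6_kap c i) * (L * Xv (c.over N) P' i) = u ^ c.n * (L * Yv (c.over N) P' i) := by
      linear_combination L * h1
    rw [h4] at h2
    exact h2.unique h3
  have heq2 := B6_pen_eq hc h''
  obtain ⟨p, hp0, hp2, hpt, hpa, hpb⟩ := pair_poly (c := c.over (RF w)) q'
  obtain ⟨q, u'', hq0, hq2, hu'', hqr, hqa, hqb, hX', hY', -⟩ := pair_of (good_map hc) h''.on (B6_not_ram h'')
  have hκ : algebraMap k (RF w) (B6_kap c i) ≠ 0 := by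
    rw [ne_eq, map_eq_zero]
    exact B6_kap_ne hc i
  obtain ⟨l, hl, hlq⟩ := pen_uniq (good_map hc) (nd_map hn) i p q hp0 hq0 hp2 hq2
    (fun j hj => by rw [hpa, hpb]; exact hrel j hj) (fun j hj => by rw [hqa, hqb]; exact h''.rel j hj) (by
      rw [hpa, hqb, hqa, hpb]
      apply mul_left_cancel₀ hκ
      linear_combination Yv (c.over (RF w)) P'' i * heq - Yv (c.over (RF w)) q' i * heq2)
  have hnr : ¬ Ram q' := by
    rw [ram_iff (good_map hc) hqo]
    rintro ⟨j, hj | hj⟩
    · rw [← hpa] at hj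
      apply hX' j
      rw [← hqa, hlq, eval_mul, hj, mul_zero]
    · rw [← hpb] at hj
      apply hY' j
      rw [← hqb, hlq, eval_mul, hj, mul_zero]
  have hpen : IsPen (c.over (RF w)) i u₀ q' := by
    refine ⟨hqo, hrel, ?_, h''.u0⟩
    have hv : ∀ j, ∃ y : RF w, q' j 1 = some y := by
      intro j
      rcases hP : q' j 1 with _ | y
      · exact absurd ⟨j, Or.inl hP⟩ hnr
      · exact ⟨y, rfl⟩
    choose v hv0 using hv
    obtain ⟨v', hv', hp'⟩ := h.prod
    refine ⟨v, hv0, ?_⟩
    have h1 : ∀ j, Red w (v' j) (v j) := by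
      intro j
      have h2 := hq j 1
      rw [hv' j, hv0 j] at h2
      exact h2
    have h2 := B6_red_prod v' v h1
    rw [hp'] at h2
    exact h2.unique hu
  exact pen_conj hc hn h'' hpen

theorem pen_alg [IsAlgClosed k] [CharZero k] {c : Dat k} (hc : c.Good) (hn : ND c) {N : Type} [Field N] [Algebra k N]
    {d : ℕ} (hN : FunF k d N) {w : Place k N} {i : Fin 3} {u : N} (hu : Transcendental k u) {P' : Pnt 2 N}
    (h : IsPen (c.over N) i u P') (h0 : w.ord u ≠ 0 ∨ ∃ u₀ : k, Red w u (algebraMap k (RF w) u₀))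
    {q' : Pnt 2 (RF w)} (hq : SpP w P' q') : ∀ j a x, q' j a = some x → IsAlgebraic k x := by
  have hcn : 0 < c.n := lt_of_lt_of_le (by norm_num) hc.two
  have hcN : (c.over N).Good := good_map hc
  have hqo : On (c.over (RF w)) q' := on_sp hc h.on hq
  -- the coordinates `x`
  have hx : ∀ j x, q' j 0 = some x → IsAlgebraic k x := by
    intro j x₁ hqj
    by_contra hy
    have hsp := hq j 0
    rw [hqj] at hsp
    rcases hPj : P' j 0 with _ | x
    · rw [hPj] at hsp
      exact absurd (show (some x₁ : Option (RF w)) = none from hsp) (by simp)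
    rw [hPj] at hsp
    have hred : Red w x x₁ := hsp
    obtain ⟨pA, hA2, hAa, hAb, hArel⟩ := pen_poly hc hn i 1 0
    obtain ⟨pB, hB2, hBa, hBb, hBrel⟩ := pen_poly hc hn i 0 1
    obtain ⟨p, hp0, hp2, hpt, hpa, hpb⟩ := pair_poly (c := c.over N) P'
    have hev : ∀ (r : k[X]) (t : k), (r.map (algebraMap k N)).eval (algebraMap k N t) =
        algebraMap k N (r.eval t) := fun r t => Polynomial.eval_map_apply _ _
    obtain ⟨p₀, hp₀⟩ : ∃ p₀ : N[X], p₀ = C (u ^ c.n) * pA.map (algebraMap k N) +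
        C (algebraMap k N (B6_kap c i)) * pB.map (algebraMap k N) := ⟨_, rfl⟩
    have hp₀t : ∀ t : k, p₀.eval (algebraMap k N t) = u ^ c.n * algebraMap k N (pA.eval t) +
        algebraMap k N (B6_kap c i) * algebraMap k N (pB.eval t) := by
      intro t
      rw [hp₀, eval_add, eval_mul, eval_mul, eval_C, eval_C, hev, hev]
    have hκ : algebraMap k N (B6_kap c i) ≠ 0 := by
      rw [ne_eq, map_eq_zero]
      exact B6_kap_ne hc i
    have ha₀ : p₀.eval ((c.over N).a i) = u ^ c.n := by
      refine (hp₀t (c.a i)).trans ?_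
      rw [hAa, hBa, map_one, map_zero, mul_one, mul_zero, add_zero]
    have hb₀ : p₀.eval ((c.over N).b i) = algebraMap k N (B6_kap c i) := by
      refine (hp₀t (c.b i)).trans ?_
      rw [hAb, hBb, map_one, map_zero, mul_one, mul_zero, zero_add]
    have hp₀0 : p₀ ≠ 0 := by
      intro h0
      rw [h0, eval_zero] at hb₀
      exact hκ hb₀.symm
    have hp₀2 : p₀.natDegree ≤ 2 := by
      rw [hp₀]
      refine (natDegree_add_le _ _).trans (max_le ?_ ?_)
      · exact (natDegree_C_mul_le _ _).trans ((natDegree_map_le).trans hA2)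
      · exact (natDegree_C_mul_le _ _).trans ((natDegree_map_le).trans hB2)
    have hrel₀ : ∀ j, j ≠ i → ka (c.over N) j * (en (c.over N) i ((c.over N).a j) * p₀.eval ((c.over N).a j)) +
        kb (c.over N) j * (en (c.over N) i ((c.over N).b j) * p₀.eval ((c.over N).b j)) = 0 := by
      intro j hj
      rw [B6_rel]
      have h1 : p₀.eval ((c.over N).a j) = _ := hp₀t (c.a j)
      have h2 : p₀.eval ((c.over N).b j) = _ := hp₀t (c.b j)
      rw [h1, h2]
      have h3 := congrArg (algebraMap k N) (hArel j hj)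
      have h4 := congrArg (algebraMap k N) (hBrel j hj)
      simp only [map_add, map_mul, map_zero] at h3 h4 ⊢
      linear_combination u ^ c.n * h3 + algebraMap k N (B6_kap c i) * h4
    have hpen := B6_pen_eq hc h
    obtain ⟨l, hl, hlq⟩ := pen_uniq hcN (nd_map hn) i p p₀ hp0 hp₀0 hp2 hp₀2
      (fun j hj => by rw [hpa, hpb]; exact h.rel j hj) hrel₀ (by
        rw [ha₀, hb₀, hpa, hpb]
        linear_combination hpen)
    have hroot : p₀.eval x = 0 := by
      rw [hlq, eval_mul, hpt]
      have h1 : ∏ j, ev (P' j 0) x = 0 := by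
        refine Finset.prod_eq_zero (Finset.mem_univ j) ?_
        rw [hPj]
        exact sub_self x
      rw [h1, mul_zero]
    have hroot' : u ^ c.n * aeval x pA + algebraMap k N (B6_kap c i) * aeval x pB = 0 := by
      rw [hp₀, eval_add, eval_mul, eval_mul, eval_C, eval_C, eval_map_algebraMap, eval_map_algebraMap] at hroot
      exact hroot
    have hRA := B6_red_aeval hred pA
    have hRB := B6_red_aeval hred pB
    have hpA0 : pA ≠ 0 := by
      rintro rfl
      rw [eval_zero] at hAa
      exact zero_ne_one hAa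
    have hpB0 : pB ≠ 0 := by
      rintro rfl
      rw [eval_zero] at hBb
      exact zero_ne_one hBb
    have hA0 : aeval x₁ pA ≠ 0 := fun h0 => hy ⟨pA, hpA0, h0⟩
    have hB0 : aeval x₁ pB ≠ 0 := fun h0 => hy ⟨pB, hpB0, h0⟩
    rcases h0 with h0 | ⟨u₀, hu₀⟩
    · have e1 : u ^ c.n * aeval x pA = -algebraMap k N (B6_kap c i) * aeval x pB := by
        linear_combination hroot'
      have e2 := congrArg w.ord e1
      rw [w.ord_mul _ _ (pow_ne_zero _ h.u0) (hRA.ne_zero hA0), w.ord_mul _ _ (neg_ne_zero.2 hκ) (hRB.ne_zero hB0),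
        w.ord_pow, hRA.ord_eq_zero hA0, hRB.ord_eq_zero hB0, ← map_neg,
        w.ord_const _ (neg_ne_zero.2 (B6_kap_ne hc i))] at e2
      have hcn' : (0 : ℤ) < c.n := by exact_mod_cast hcn
      rcases mul_eq_zero.1 (show (c.n : ℤ) * w.ord u = 0 by linarith) with h5 | h5
      · omega
      · exact h0 h5
    · have e1 := ((hu₀.pow c.n).mul hRA).add ((Pool.Agent.LibCHd.red_const w (B6_kap c i)).mul hRB)
      rw [hroot'] at e1
      have e2 := e1.unique (Pool.Agent.LibCHd.red_zero w)
      refine hy ⟨C (u₀ ^ c.n) * pA + C (B6_kap c i) * pB, ?_, ?_⟩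
      · intro h5
        have h6 := congrArg (fun r : k[X] => r.eval (c.b i)) h5
        simp only [eval_add, eval_mul, eval_C, eval_zero, hAb, hBb, mul_zero, mul_one, zero_add] at h6
        exact B6_kap_ne hc i h6
      · rw [map_add, map_mul, map_mul, aeval_C, aeval_C, map_pow]
        exact e2
  intro j a x hqx
  fin_cases a
  · exact hx j x hqx
  · -- the coordinates `v`
    have hqx' : q' j 1 = some x := hqx
    have h1 := hqo j
    rw [hqx'] at h1
    rcases hq0 : q' j 0 with _ | x₁
    · rw [hq0] at h1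
      have h2 : x ^ c.n = 1 := h1
      refine IsAlgebraic.of_pow hcn ?_
      rw [h2]
      exact isAlgebraic_one
    · rw [hq0] at h1
      have h2 : x ^ c.n * ∏ t, (x₁ - algebraMap k (RF w) (c.b t)) = ∏ t, (x₁ - algebraMap k (RF w) (c.a t)) := h1
      have h3 : IsAlgebraic k x₁ := hx j x₁ hq0
      have h4 : ∀ t : k, IsAlgebraic k (x₁ - algebraMap k (RF w) t) := fun t => h3.sub (isAlgebraic_algebraMap t)
      have h5 : ∀ f : Fin 3 → k, IsAlgebraic k (∏ t, (x₁ - algebraMap k (RF w) (f t))) := by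
        intro f
        rw [Fin.prod_univ_three]
        exact ((h4 _).mul (h4 _)).mul (h4 _)
      have h6 : ∏ t, (x₁ - algebraMap k (RF w) (c.b t)) ≠ 0 := by
        intro h7
        rw [h7, mul_zero] at h2
        obtain ⟨t, -, ht⟩ := Finset.prod_eq_zero_iff.1 h7
        obtain ⟨t', -, ht'⟩ := Finset.prod_eq_zero_iff.1 h2.symm
        have h8 : algebraMap k (RF w) (c.a t') = algebraMap k (RF w) (c.b t) := by
          rw [← sub_eq_zero.1 ht, ← sub_eq_zero.1 ht']
        have h9 : Sum.elim c.a c.b (Sum.inl t') = Sum.elim c.a c.b (Sum.inr t) :=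
          (algebraMap k (RF w)).injective h8
        exact absurd (hc.inj h9) (by simp)
      refine IsAlgebraic.of_pow hcn ?_
      rw [eq_div_of_mul_eq h6 h2, div_eq_mul_inv]
      exact (h5 _).mul (h5 _).inv

end Pool.Agent.LibCW77
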