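import Pool.Agent.LibCW77.Defs6
import Pool.Agent.LibCW77.B3
import Pool.Agent.LibCW77.B5
import Pool.Agent.LibCW77.B6
import Pool.Agent.LibCW77.G1
import Pool.Agent.LibCW77.G2
import Pool.Agent.LibCW77.G3

/-!
[CW77 B7] The classes of the pencil vanish. Proof. `rat1_exists` for `M`: `N = M(μ)`, `FunF k 2 N` (`rat1_funF`); `λ = i u * μ` (transcendental over `k`: `rat1_affine`, `Rat1.tr`). `pen_exists`: `P₁` over `N' / N` with `IsPen i λ`. `transfer` (B5)
with the index set `Perm (Fin 2) × roots of unity`, signs `1`, the points `tri (h P₁) R` (`ms0`), the function `g = (μ - 1) / (μ - ζ)`, `S = {v₀, v₁}`, `v₀` the place `μ = 1`, `v₁` the place `ζ⁻¹ μ = 1`, both trivial on `M`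
(`place_triv`, with `rat1_affine` for `ζ⁻¹ μ`), `t v₀ = q (ms0 P' R)`, `t v₁ = q (ms0 (tw ![ζ, 1] P') R)`: `v₀.ord g = 1`, `v₁.ord g = -1` (`ζ ≠ 1`). `h2` at `v₀`: the residue of `λ` is the image of `u`; `pen_sp` with `P'' =` the image of `P'`
under `RF v₀ = M → RF w`, so the sum is `q (ms0 (image of P') (image of R)) = f • q (ms0 P' R)` (`ms0_conj`, `ms0_map`). At `v₁`: the residue of `λ` is the image of `ζ u`, `pen_tw`. `h3`: `w.ord g ≠ 0` and `w` not above `v₀, v₁`: `w` is not trivial on `M`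
(if it is: the restriction of `w` to `N` is trivial on `M` and has `ord (μ - 1) > 0` or `ord (μ - ζ) > 0`, or `μ` has a pole, then `ord g = 0`). So the residues of `M` are in `k` (restrict `w` to `M`: `place_dich`, `res_k`), `R` specialises to a point over `k`. If `w.ord λ ≠ 0`, or
`λ` has a residue in `k`: `pen_alg`, so all coordinates are constant and every `cls` is `0` (`cyc_alg`). If `λ` has a transcendental residue then `w.ord g = 0`: `g = (λ - u) / (λ - ζ u)`, cases `w.ord u > 0`, `= 0` (the residue of `u` is in `k`), `< 0`.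
Result: `q (ms0 P' R) - q (ms0 (tw ![ζ, 1] P') R) = 0`.
-/

open scoped Classical
open Polynomial

namespace Pool.Agent.LibCW77

open Pool.Agent.LibBH2
open Pool.Agent.LibCHd (VR RF Red FunF)

variable {k : Type} [Field k]

variable {V : Type} [AddCommGroup V] [Module ℚ V]

private theorem B7_alg_mem [IsAlgClosed k] {M : Type} [Field M] [Algebra k M] {y : M} (hy : IsAlgebraic k y) :
    ∃ y₀ : k, algebraMap k M y₀ = y := by
  have hint : IsIntegral k y := hy.isIntegral
  exact minpoly.mem_range_of_degree_eq_one k y (IsAlgClosed.degree_eq_one_of_irreducible k (minpoly.irreducible hint))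

private theorem B7_one {M M' : Type} [Field M] [Algebra k M] [Field M'] [Algebra k M'] (ε : M ≃ₐ[k] M') :
    Module.finrank (ε : M →ₐ[k] M').fieldRange M' = 1 := by
  have h1 : (ε : M →ₐ[k] M').fieldRange = ⊤ := AlgHom.fieldRange_eq_top.2 ε.surjective
  rw [h1]
  exact IntermediateField.finrank_top

private theorem B7_spec {c : Dat k} (hc : c.Good) {M : Type} [Field M] [Algebra k M] {N' : Type} [Field N']
    [Algebra k N'] (s : M →ₐ[k] N') {w : Place k N'} {P₁ : Pnt 2 N'} {q₁ : Pnt 2 (RF w)} (h : SpP w P₁ q₁)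
    (R : Fin 2 → Option M) (τ : Equiv.Perm (Fin 2)) (b : nthRootsFinset c.n (1 : k)) {qq : Pnt 3 (RF w)}
    (hqq : SpP w (tri (pr τ (tw ![(b : k), (b : k)⁻¹] P₁) 0) (pr τ (tw ![(b : k), (b : k)⁻¹] P₁) 1)
      (fun a => (R a).map s)) qq) :
    qq = tri (pr τ (tw ![(b : k), (b : k)⁻¹] q₁) 0) (pr τ (tw ![(b : k), (b : k)⁻¹] q₁) 1) (qq 2) ∧
      ∀ a, SpO w ((R a).map s) (qq 2 a) := by
  have hn0 : 0 < c.n := lt_of_lt_of_le two_pos hc.two
  have hb : (b : k) ≠ 0 := by
    have h1 := (mem_nthRootsFinset hn0 (1 : k)).1 b.2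
    intro h0
    rw [h0, zero_pow hn0.ne'] at h1
    exact zero_ne_one h1
  have hne : ∀ j, (![(b : k), (b : k)⁻¹] : Fin 2 → k) j ≠ 0 := by
    intro j
    fin_cases j
    · exact hb
    · exact inv_ne_zero hb
  have h2 := spP_pr τ (spP_tw _ hne h)
  refine ⟨?_, fun a => hqq 2 a⟩
  refine spP_unique hqq ?_
  intro t a
  fin_cases t
  · exact h2 0 a
  · exact h2 1 a
  · exact hqq 2 a

omit [Module ℚ V] in
/-- the sum of the specialisations above a place -/
private theorem B7_sum [IsAlgClosed k] {c : Dat k} (hc : c.Good) (hn : ND c) (q : CH c 3 1 →+ V) {M : Type}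
    [Field M] [Algebra k M] {N' : Type} [Field N'] [Algebra k N'] (s : M →ₐ[k] N') {w : Place k N'}
    (j : M →ₐ[k] RF w) (hj : ∀ x, Red w (s x) (j x)) {i : Fin 3} {l : N'} {P₁ : Pnt 2 N'}
    (h₁ : IsPen (c.over N') i l P₁) {u₂ : M} {P₂ : Pnt 2 M} (h₂ : IsPen (c.over M) i u₂ P₂)
    (hl : Red w l (j u₂)) (R : Fin 2 → Option M)
    (qq : Equiv.Perm (Fin 2) × (nthRootsFinset c.n (1 : k)) → Pnt 3 (RF w))
    (hqq : ∀ a, SpP w (tri (pr a.1 (tw ![(a.2 : k), (a.2 : k)⁻¹] P₁) 0) (pr a.1 (tw ![(a.2 : k), (a.2 : k)⁻¹] P₁) 1)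
      (fun b => (R b).map s)) (qq a)) :
    ∑ a, (1 : ℤ) • q (cls c 1 (qq a)) = Module.finrank j.fieldRange (RF w) • q (ms0 c P₂ R) := by
  obtain ⟨q₁, hq₁⟩ := spP_exists w P₁
  obtain ⟨σ, a, ha, he⟩ := pen_sp hc hn h₁ hl (pen_map j h₂) hq₁
  have hR : ∀ x : Fin 2, SpO w ((R x).map s) ((R x).map j) := by
    intro x
    cases hx : R x with
    | none => rfl
    | some y => exact hj y
  have key : ∀ a : Equiv.Perm (Fin 2) × (nthRootsFinset c.n (1 : k)), (1 : ℤ) • q (cls c 1 (qq a)) =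
      q (cls c 1 (tri (pr a.1 (tw ![(a.2 : k), (a.2 : k)⁻¹] q₁) 0) (pr a.1 (tw ![(a.2 : k), (a.2 : k)⁻¹] q₁) 1)
        (fun b => (R b).map j))) := by
    intro b
    obtain ⟨h3, h4⟩ := B7_spec hc s hq₁ R b.1 b.2 (hqq b)
    have h5 : qq b 2 = fun x => (R x).map j := by
      funext x
      exact spO_unique (h4 x) (hR x)
    rw [h5] at h3
    rw [one_zsmul, h3]
  rw [Finset.sum_congr rfl fun a _ => key a, Fintype.sum_prod_type]
  have h6 : ms0 c q₁ (fun b => (R b).map j) = (Module.finrank j.fieldRange (RF w) : ℤ) • ms0 c P₂ R := by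
    rw [he, ms0_conj hc _ _ σ a ha, ms0_map]
  rw [← natCast_zsmul, ← map_zsmul, ← h6, ms0, map_sum]
  refine Finset.sum_congr rfl fun τ _ => ?_
  rw [map_sum]
  exact Finset.sum_coe_sort (nthRootsFinset c.n (1 : k)) fun x =>
    q (cls c 1 (tri (pr τ (tw ![x, x⁻¹] q₁) 0) (pr τ (tw ![x, x⁻¹] q₁) 1) fun b => (R b).map j))

private theorem B7_res [IsAlgClosed k] {M : Type} [Field M] [Algebra k M] (hM : FunF k 1 M)
    {N' : Type} [Field N'] [Algebra k N'] (s : M →ₐ[k] N') {w : Place k N'} {w₀ : Place k M} {e : ℤ}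
    (hw : Ovr s w₀ w e) (x : M) : w.ord (s x) < 0 ∨ ∃ a : k, Red w (s x) (algebraMap k (RF w) a) := by
  by_cases hx : w₀.Reg x
  · right
    obtain ⟨y, hy⟩ := Pool.Agent.LibCHd.exists_red hx
    obtain ⟨a, rfl⟩ := res_k hM w₀ y
    exact ⟨a, hw.res x a hy⟩
  · left
    rw [hw.ord]
    have h1 : w₀.ord x < 0 := by
      by_contra h
      exact hx (Or.inr (not_lt.1 h))
    exact mul_neg_of_pos_of_neg hw.pos h1

theorem pen_zero [IsAlgClosed k] [CharZero k] {c : Dat k} (hc : c.Good) (hn : ND c) {ζ : k}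
    (hζ : IsPrimitiveRoot ζ c.n) (q : CH c 3 1 →+ V) {M : Type} [Field M] [Algebra k M] (hM : FunF k 1 M)
    {i : Fin 3} {u : M} {P' : Pnt 2 M} (h : IsPen (c.over M) i u P') {R : Fin 2 → Option M}
    (hR : OnC (c.over M) (R 0) (R 1)) : q (msp c ζ P' R) = 0 := by
  obtain ⟨N, _, _, i₀, μ, hμ⟩ := rat1_exists (k := k) M
  have hN : FunF k 2 N := rat1_funF hμ hM
  have hn0 : 0 < c.n := lt_of_lt_of_le two_pos hc.two
  have hζ1 : ζ ^ c.n = 1 := hζ.pow_eq_one
  have hζ0 : ζ ≠ 0 := hζ.ne_zero hn0.ne'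
  have hζn : ζ ≠ 1 := hζ.ne_one (lt_of_lt_of_le one_lt_two hc.two)
  have hu0 : u ≠ 0 := h.u0
  have hiu : i₀ u ≠ 0 := (map_ne_zero i₀).2 hu0
  have hlam : Rat1 i₀ (i₀ u * μ) := by
    have h1 := rat1_affine hμ u 0 hu0
    rwa [map_zero, add_zero] at h1
  have htr : Transcendental k (i₀ u * μ) := by
    rintro ⟨p, hp, hp0⟩
    refine hlam.tr (p.map (algebraMap k M)) ((Polynomial.map_ne_zero_iff (algebraMap k M).injective).2 hp) ?_
    rw [Polynomial.eval₂_map]
    have h1 : (i₀ : M →+* N).comp (algebraMap k M) = algebraMap k N := by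
      ext x
      exact i₀.commutes x
    rw [h1]
    exact hp0
  obtain ⟨N', _, _, s, P₁, hfin, hP₁⟩ := pen_exists hc hn i (i₀ u * μ) htr
  have hN' : FunF k 2 N' := funF_finite s hfin hN
  obtain ⟨v₀, ε₀, hv₀t, hv₀r, hv₀1, hv₀u⟩ := place_triv hμ
  have hμ' : Rat1 i₀ (algebraMap k N ζ⁻¹ * μ) := by
    have h1 := rat1_affine hμ (algebraMap k M ζ⁻¹) 0 ((map_ne_zero (algebraMap k M)).2 (inv_ne_zero hζ0))
    rwa [map_zero, add_zero, AlgHom.commutes] at h1
  obtain ⟨v₁, ε₁, hv₁t, hv₁r, hv₁1, hv₁u⟩ := place_triv hμ'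
  have hzN : algebraMap k N ζ ≠ 0 := (map_ne_zero (algebraMap k N)).2 hζ0
  have hzi : algebraMap k N ζ * algebraMap k N ζ⁻¹ = 1 := by
    rw [← map_mul, mul_inv_cancel₀ hζ0, map_one]
  have hr0 : Red v₀ μ 1 := (Pool.Agent.LibCHd.red_iff_sub (Pool.Agent.LibCHd.red_one v₀)).2
    (Or.inr (by rw [hv₀1]; norm_num))
  have hr1 : Red v₁ μ (algebraMap k (RF v₁) ζ) := by
    have h1 : Red v₁ (algebraMap k N ζ⁻¹ * μ) 1 :=
      (Pool.Agent.LibCHd.red_iff_sub (Pool.Agent.LibCHd.red_one v₁)).2 (Or.inr (by rw [hv₁1]; norm_num))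
    have h2 := (Pool.Agent.LibCHd.red_const v₁ ζ).mul h1
    rwa [mul_one, ← mul_assoc, hzi, one_mul] at h2
  have hg1 : μ - 1 ≠ 0 := by
    have h1 := rat1_ne hμ 1
    rw [map_one] at h1
    exact sub_ne_zero.2 h1
  have hg2 : μ - algebraMap k N ζ ≠ 0 := by
    have h1 := rat1_ne hμ (algebraMap k M ζ)
    rw [AlgHom.commutes] at h1
    exact sub_ne_zero.2 h1
  have hfac : μ - algebraMap k N ζ = algebraMap k N ζ * (algebraMap k N ζ⁻¹ * μ - 1) := by
    rw [mul_sub, ← mul_assoc, hzi, one_mul, mul_one]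
  have hfac1 : algebraMap k N ζ⁻¹ * μ - 1 ≠ 0 := by
    intro h0
    rw [hfac, h0, mul_zero] at hg2
    exact hg2 rfl
  have hordz : ∀ v : Place k N, v.ord (μ - algebraMap k N ζ) = v.ord (algebraMap k N ζ⁻¹ * μ - 1) := by
    intro v
    rw [hfac, v.ord_mul _ _ hzN hfac1, v.ord_const ζ hζ0, zero_add]
  have hz1 : ∀ v : Place k N, (1 : RF v) - algebraMap k (RF v) ζ ≠ 0 := by
    intro v h0
    apply hζn
    have h1 : algebraMap k (RF v) ζ = algebraMap k (RF v) 1 := by
      rw [map_one]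
      exact (sub_eq_zero.1 h0).symm
    exact (algebraMap k (RF v)).injective h1
  obtain ⟨g, hg⟩ : ∃ g : N, g = (μ - 1) / (μ - algebraMap k N ζ) := ⟨_, rfl⟩
  have hg0 : g ≠ 0 := by
    rw [hg]
    exact div_ne_zero hg1 hg2
  have hordg : ∀ v : Place k N, v.ord g = v.ord (μ - 1) - v.ord (μ - algebraMap k N ζ) := by
    intro v
    rw [hg, v.ord_div _ _ hg1 hg2]
  have ho0 : v₀.ord g = 1 := by
    rw [hordg, hv₀1, (hr0.sub (Pool.Agent.LibCHd.red_const v₀ ζ)).ord_eq_zero (hz1 v₀), sub_zero]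
  have ho1 : v₁.ord g = -1 := by
    rw [hordg, hordz, hv₁1, (hr1.sub (Pool.Agent.LibCHd.red_one v₁)).ord_eq_zero ?_]
    · norm_num
    · intro h0
      exact hz1 v₁ (by rw [← neg_sub, h0, neg_zero])
  have hne : v₀ ≠ v₁ := by
    intro h0
    rw [h0, ho1] at ho0
    norm_num at ho0
  obtain ⟨t, ht⟩ : ∃ t : Place k N → V, t = fun v => if v = v₀ then q (ms0 c P' R) else
    q (ms0 c (tw ![ζ, 1] P') R) := ⟨_, rfl⟩
  have ht0 : t v₀ = q (ms0 c P' R) := by rw [ht]; exact if_pos rfl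
  have ht1 : t v₁ = q (ms0 c (tw ![ζ, 1] P') R) := by rw [ht]; exact if_neg hne.symm
  have hmain := transfer hc q s hfin hN
    (ι := Equiv.Perm (Fin 2) × (nthRootsFinset c.n (1 : k))) (fun _ => 1)
    (fun a => tri (pr a.1 (tw ![(a.2 : k), (a.2 : k)⁻¹] P₁) 0) (pr a.1 (tw ![(a.2 : k), (a.2 : k)⁻¹] P₁) 1)
      (fun b => (R b).map (s.comp i₀))) ?_ g hg0 {v₀, v₁} t ?_ ?_ ?_
  · rw [Finset.sum_pair hne, ht0, ht1, ho0, ho1, one_zsmul, neg_one_zsmul, ← sub_eq_add_neg] at hmain
    rw [msp, map_sub]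
    exact hmain
  · -- On
    intro a
    have hb : (a.2 : k) ^ c.n = 1 := (mem_nthRootsFinset hn0 (1 : k)).1 a.2.2
    have h1 : ∀ j, (![(a.2 : k), (a.2 : k)⁻¹] : Fin 2 → k) j ^ c.n = 1 := by
      intro j
      fin_cases j
      · exact hb
      · show ((a.2 : k)⁻¹) ^ c.n = 1
        rw [inv_pow, hb, inv_one]
    have h2 := on_pr a.1 (on_tw _ h1 hP₁.on)
    have h3 : On (c.over N') (mpP (s.comp i₀) (pt1 R)) := (on_map (s.comp i₀)).2 fun _ => hR
    intro j
    fin_cases j
    · exact h2 0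
    · exact h2 1
    · exact h3 0
  · -- h1
    intro v hv
    rcases Finset.mem_insert.1 hv with rfl | hv
    · exact funF_finite (ε₀ : M →ₐ[k] RF v) (by rw [B7_one]; exact one_ne_zero) hM
    · rw [Finset.mem_singleton] at hv
      subst hv
      exact funF_finite (ε₁ : M →ₐ[k] RF v) (by rw [B7_one]; exact one_ne_zero) hM
  · -- h2
    intro v hv w e j he hw hj hf qq hqq
    rcases Finset.mem_insert.1 hv with rfl | hv
    · rw [ht0]
      have h1 := B7_sum hc hn q (s.comp i₀) (j.comp (ε₀ : M →ₐ[k] RF v)) (fun x => hj _ _ (hv₀r x)) hP₁ h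
        (hj _ _ (by simpa using (hv₀r u).mul hr0)) R qq hqq
      rw [finrank_trans, B7_one, one_mul] at h1
      exact h1
    · rw [Finset.mem_singleton] at hv
      subst hv
      rw [ht1]
      have h1 := B7_sum hc hn q (s.comp i₀) (j.comp (ε₁ : M →ₐ[k] RF v)) (fun x => hj _ _ (hv₁r x)) hP₁
        (pen_tw hζ1 hc h)
        (hj _ _ (by
          have h2 := (hv₁r u).mul hr1
          have h3 : ε₁ (algebraMap k M ζ * u) = ε₁ u * algebraMap k (RF v) ζ := by
            rw [map_mul, AlgEquiv.commutes, mul_comm]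
          show Red v (i₀ u * μ) (ε₁ (algebraMap k M ζ * u))
          rw [h3]
          exact h2)) R qq hqq
      rw [finrank_trans, B7_one, one_mul] at h1
      exact h1
  · -- h3
    intro w hwg hF hnot qq hqq
    obtain ⟨v, e, he, hv⟩ := place_restr s hfin w
    have hvg : v.ord g ≠ 0 := by
      intro h0
      rw [hv, h0, mul_zero] at hwg
      exact hwg rfl
    have hnv0 : v ≠ v₀ := by
      intro h0
      exact hnot v₀ (Finset.mem_insert_self _ _) ⟨e, he, by rw [← h0]; exact hv⟩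
    have hnv1 : v ≠ v₁ := by
      intro h0
      exact hnot v₁ (Finset.mem_insert_of_mem (Finset.mem_singleton_self _)) ⟨e, he, by rw [← h0]; exact hv⟩
    have hnt : ¬ ∀ x, w.ord (s (i₀ x)) = 0 := by
      intro h0
      have hvt : ∀ x, v.ord (i₀ x) = 0 := by
        intro x
        have h1 := hv (i₀ x)
        rw [h0 x] at h1
        exact (mul_eq_zero.1 h1.symm).resolve_left he.ne'
      have ha : v.ord (μ - 1) ≤ 0 := by
        by_contra h1
        exact hnv0 (hv₀u v hvt (not_le.1 h1))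
      have hb : v.ord (μ - algebraMap k N ζ) ≤ 0 := by
        by_contra h1
        rw [hordz] at h1
        exact hnv1 (hv₁u v hvt (not_le.1 h1))
      have hc1 : algebraMap k N (1 - ζ) ≠ 0 := (map_ne_zero (algebraMap k N)).2 (sub_ne_zero.2 hζn.symm)
      have hc2 : v.ord (algebraMap k N (1 - ζ)) = 0 := v.ord_const _ (sub_ne_zero.2 hζn.symm)
      have e1 : μ - algebraMap k N ζ = (μ - 1) + algebraMap k N (1 - ζ) := by
        rw [map_sub, map_one]
        ring
      have e2 : μ - 1 = (μ - algebraMap k N ζ) + -algebraMap k N (1 - ζ) := by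
        rw [map_sub, map_one]
        ring
      apply hvg
      rw [hordg]
      rcases lt_or_ge (v.ord (μ - 1)) 0 with h1 | h1
      · have h2 := (Place.ord_add_of_lt (v := v) hg1 hc1 (by rw [hc2]; exact h1)).2
        rw [← e1] at h2
        rw [h2, sub_self]
      · rcases lt_or_ge (v.ord (μ - algebraMap k N ζ)) 0 with h3 | h3
        · have h2 := (Place.ord_add_of_lt (v := v) hg2 (neg_ne_zero.2 hc1) (by rw [v.ord_neg, hc2]; exact h3)).2
          rw [← e2] at h2
          rw [h2, sub_self]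
        · rw [le_antisymm ha h1, le_antisymm hb h3, sub_self]
    rcases place_dich hM (s.comp i₀) w with hd | ⟨w₀, e₀, hw₀⟩
    · exact absurd hd hnt
    have hres : ∀ x : M, w.ord (s (i₀ x)) < 0 ∨ ∃ a : k, Red w (s (i₀ x)) (algebraMap k (RF w) a) :=
      fun x => B7_res hM (s.comp i₀) hw₀ x
    have hlr : w.ord (s (i₀ u * μ)) ≠ 0 ∨ ∃ u₀ : k, Red w (s (i₀ u * μ)) (algebraMap k (RF w) u₀) := by
      by_contra hcon
      push Not at hcon
      obtain ⟨hl0, hl1⟩ := hcon
      obtain ⟨y, hy⟩ := Pool.Agent.LibCHd.exists_red (v := w) (f := s (i₀ u * μ)) (Or.inr hl0.ge)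
      have hyk : ∀ a : k, y ≠ algebraMap k (RF w) a := by
        intro a h0
        exact hl1 a (by rw [← h0]; exact hy)
      apply hwg
      have hsg : s g = s (i₀ u * μ - i₀ u) / s (i₀ u * μ - algebraMap k N ζ * i₀ u) := by
        rw [← map_div₀, hg]
        congr 1
        have e1 : i₀ u * μ - i₀ u = i₀ u * (μ - 1) := by ring
        have e2 : i₀ u * μ - algebraMap k N ζ * i₀ u = i₀ u * (μ - algebraMap k N ζ) := by ring
        rw [e1, e2, mul_div_mul_left _ _ hiu]
      have hA : i₀ u * μ - i₀ u ≠ 0 := by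
        have e1 : i₀ u * μ - i₀ u = i₀ u * (μ - 1) := by ring
        rw [e1]
        exact mul_ne_zero hiu hg1
      have hB : i₀ u * μ - algebraMap k N ζ * i₀ u ≠ 0 := by
        have e2 : i₀ u * μ - algebraMap k N ζ * i₀ u = i₀ u * (μ - algebraMap k N ζ) := by ring
        rw [e2]
        exact mul_ne_zero hiu hg2
      have e3 : s (i₀ u * μ - i₀ u) = s (i₀ u * μ) - s (i₀ u) := map_sub s _ _
      have e4 : s (i₀ u * μ - algebraMap k N ζ * i₀ u) = s (i₀ u * μ) - algebraMap k N' ζ * s (i₀ u) := by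
        rw [map_sub, map_mul s (algebraMap k N ζ), AlgHom.commutes]
      rw [hsg, w.ord_div _ _ ((map_ne_zero s).2 hA) ((map_ne_zero s).2 hB), e3, e4]
      have hlne : s (i₀ u * μ) ≠ 0 := hy.ne_zero (by
        have := hyk 0
        rwa [map_zero] at this)
      have hsu : s (i₀ u) ≠ 0 := (map_ne_zero s).2 hiu
      have hzN' : algebraMap k N' ζ ≠ 0 := (map_ne_zero (algebraMap k N')).2 hζ0
      rcases hres u with h1 | ⟨a, h1⟩
      · have h2 : w.ord (s (i₀ u * μ) - s (i₀ u)) = w.ord (s (i₀ u)) := by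
          have h3 := (Place.ord_add_of_lt (v := w) (neg_ne_zero.2 hsu) hlne (by rw [w.ord_neg, hl0]; exact h1)).2
          rw [w.ord_neg] at h3
          rw [← h3]
          congr 1
          ring
        have h4 : w.ord (s (i₀ u * μ) - algebraMap k N' ζ * s (i₀ u)) = w.ord (s (i₀ u)) := by
          have h5 : w.ord (algebraMap k N' ζ * s (i₀ u)) = w.ord (s (i₀ u)) := by
            rw [w.ord_mul _ _ hzN' hsu, w.ord_const ζ hζ0, zero_add]
          have h3 := (Place.ord_add_of_lt (v := w) (neg_ne_zero.2 (mul_ne_zero hzN' hsu)) hlne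
            (by rw [w.ord_neg, hl0, h5]; exact h1)).2
          rw [w.ord_neg, h5] at h3
          rw [← h3]
          congr 1
          ring
        rw [h2, h4, sub_self]
      · have h2 := (hy.sub h1).ord_eq_zero (sub_ne_zero.2 (hyk a))
        have h3 := hy.sub ((Pool.Agent.LibCHd.red_const w ζ).mul h1)
        rw [← map_mul] at h3
        have h4 := h3.ord_eq_zero (sub_ne_zero.2 (hyk (ζ * a)))
        rw [h2, h4, sub_self]
    obtain ⟨q₁, hq₁⟩ := spP_exists w P₁
    have hslt : Transcendental k (s (i₀ u * μ)) := by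
      rintro ⟨p, hp, hp0⟩
      refine htr ⟨p, hp, ?_⟩
      have h1 : s (aeval (i₀ u * μ) p) = 0 := by
        rw [← aeval_algHom_apply]
        exact hp0
      exact (map_eq_zero s).1 h1
    have hq₁a := pen_alg hc hn hN' hslt hP₁ hlr hq₁
    refine Finset.sum_eq_zero fun a _ => ?_
    obtain ⟨h5, h6⟩ := B7_spec hc (s.comp i₀) hq₁ R a.1 a.2 (hqq a)
    have hcoord : ∀ (m : Fin 2) (b : Fin 2) (x : RF w),
        pr a.1 (tw ![(a.2 : k), (a.2 : k)⁻¹] q₁) m b = some x → IsAlgebraic k x := by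
      intro m b x hx
      have hx' : tw ![(a.2 : k), (a.2 : k)⁻¹] q₁ (a.1 m) b = some x := hx
      fin_cases b
      · exact hq₁a (a.1 m) 0 x hx'
      · have hx2 : (q₁ (a.1 m) 1).map (fun z => algebraMap k (RF w) (![(a.2 : k), (a.2 : k)⁻¹] (a.1 m)) * z) = some x :=
          hx'
        obtain ⟨z, hz, rfl⟩ := Option.map_eq_some_iff.1 hx2
        exact (isAlgebraic_algebraMap _).mul (hq₁a (a.1 m) 1 z hz)
    have hall : ∀ m b x, qq a m b = some x → IsAlgebraic k x := by
      intro m b x hx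
      rw [h5] at hx
      fin_cases m
      · exact hcoord 0 b x hx
      · exact hcoord 1 b x hx
      · have hx' : qq a 2 b = some x := hx
        have h7 := h6 b
        rw [hx'] at h7
        cases hRb : R b with
        | none =>
          rw [hRb] at h7
          exact absurd h7 (by simp [SpO])
        | some y =>
          rw [hRb] at h7
          have h8 : Red w (s (i₀ y)) x := h7
          rcases hres y with h9 | ⟨b', h9⟩
          · exfalso
            rcases h8.reg with h10 | h10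
            · rw [h10, w.ord_zero] at h9
              exact lt_irrefl _ h9
            · omega
          · rw [h8.unique h9]
            exact isAlgebraic_algebraMap _
    have hcyc : cyc k (qq a) = 0 := cyc_alg (d := 0) hF (qq a) hall
    have hcls : cls c 1 (qq a) = 0 := by
      rw [cls, hcyc]
      rfl
    rw [hcls, map_zero, smul_zero]

end Pool.Agent.LibCW77
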