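import Pool.Agent.LibCW77.Defs6
import Pool.Agent.LibCW77.B1
import Pool.Agent.LibCW77.B2
import Pool.Agent.LibCW77.B3
import Pool.Agent.LibCW77.B4
import Pool.Agent.LibCW77.B7
import Pool.Agent.LibCW77.D1
import Pool.Agent.LibCW77.T2

/-!
[CW77 B8] Specialisation of residual pairs. `K ⊂ N'` finite, `u` a triple over `K`, `P'` a residual pair of `fst2 u` over `N'`, `w` a place of `N'` above the place `v` of `K`, `qv` the specialisation of `u` at `v`, `q'` the one of `P'` at `w`. Claim:
`q (msp q' (image of qv 2)) = f • SV qv`. Proof. There are factors with `Red w (l_j ev (x_j) t) (ev (..) t)`, so `ka_i X_i X'_i + kb_i Y_i Y'_i = 0` holds for the specialisations (`X_i, Y_i` the values of `qv`, `X'_i, Y'_i` those of `q'`).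
(1) `fst2 qv` not ramified, `q'` not ramified: the product of the `v` is `ν` (residues of units... all four are finite and nonzero): `IsRes`, `SV_spec`. (2) `fst2 qv` not ramified, `q'` ramified: left side `0` (`msp_ram`); some `X'_i` or `Y'_i` is `0`
(`ram_iff`), then both are (relation `i`), the polynomial of `q'` is proportional to `en c i` (`node_poly`), so `NodeRel i`, `SV_node`. (3) `fst2 qv` ramified: `SV_ram`; if `q'` is ramified: `msp_ram`; if not: `X_i = 0` or `Y_i = 0` for some `i`, so both are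
(`X'_i, Y'_i ≠ 0`), the polynomial of `fst2 qv` is proportional to `en c i` and `q'` is `IsPen i` (the product of its `v` is not `0`): `pen_zero`.
-/

open scoped Classical
open Polynomial

namespace Pool.Agent.LibCW77

open Pool.Agent.LibBH2
open Pool.Agent.LibCHd (VR RF Red FunF)

variable {k : Type} [Field k]

variable {V : Type} [AddCommGroup V] [Module ℚ V]

/-- the specialisation of the linear form with the zero `x`, up to a factor -/
private theorem B8_ev {K : Type} [Field K] [Algebra k K] {v : Place k K} {x : Option K}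
    {x0 : Option (RF v)} (h : SpO v x x0) :
    ∃ l : K, l ≠ 0 ∧ ∀ t : k, Red v (l * ev x (algebraMap k K t)) (ev x0 (algebraMap k (RF v) t)) := by
  rcases x with _ | x
  · have h1 : x0 = none := h
    subst h1
    refine ⟨1, one_ne_zero, fun t => ?_⟩
    rw [one_mul]
    exact Pool.Agent.LibCHd.red_one v
  · rcases x0 with _ | x0
    · have h1 : v.ord x < 0 := h
      have hx : x ≠ 0 := by
        rintro rfl
        rw [v.ord_zero] at h1
        exact lt_irrefl _ h1
      refine ⟨-x⁻¹, neg_ne_zero.2 (inv_ne_zero hx), fun t => ?_⟩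
      change Red v (-x⁻¹ * (algebraMap k K t - x)) 1
      rw [Pool.Agent.LibCHd.red_iff_sub (Pool.Agent.LibCHd.red_one v)]
      have h2 : -x⁻¹ * (algebraMap k K t - x) - 1 = -(algebraMap k K t * x⁻¹) := by
        field_simp
        ring
      rw [h2]
      refine Place.Zer.neg ?_
      refine Place.Zer.reg_mul (v.reg_const t) (Or.inr ?_)
      rw [v.ord_inv]
      omega
    · have h1 : Red v x x0 := h
      refine ⟨1, one_ne_zero, fun t => ?_⟩
      rw [one_mul]
      exact (Pool.Agent.LibCHd.red_const v t).sub h1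

private theorem B8_prod {K : Type} [Field K] [Algebra k K] {v : Place k K} {m : ℕ} {f : Fin m → K}
    {g : Fin m → RF v} (h : ∀ j, Red v (f j) (g j)) : Red v (∏ j, f j) (∏ j, g j) := by
  have h1 : ∀ s : Finset (Fin m), Red v (∏ j ∈ s, f j) (∏ j ∈ s, g j) := by
    intro s
    induction s using Finset.induction_on with
    | empty => exact Pool.Agent.LibCHd.red_one v
    | insert a s ha ih =>
      rw [Finset.prod_insert ha, Finset.prod_insert ha]
      exact (h a).mul ih
  exact h1 _

/-- the specialisation of the polynomial of a point, up to a factor -/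
private theorem B8_XY {K : Type} [Field K] [Algebra k K] {v : Place k K} {m : ℕ} {P : Pnt m K}
    {q : Pnt m (RF v)} (h : SpP v P q) : ∃ l : K, l ≠ 0 ∧
      ∀ t : k, Red v (l * ∏ j, ev (P j 0) (algebraMap k K t)) (∏ j, ev (q j 0) (algebraMap k (RF v) t)) := by
  choose l hl hl' using fun j => B8_ev (h j 0)
  refine ⟨∏ j, l j, Finset.prod_ne_zero_iff.2 fun j _ => hl j, fun t => ?_⟩
  rw [← Finset.prod_mul_distrib]
  exact B8_prod fun j => hl' j t

/-- specialisation of a relation -/
private theorem B8_rel {K : Type} [Field K] [Algebra k K] {v : Place k K} (α β : k)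
    {l l' X X' Y Y' : K} {x x' y y' : RF v} (hX : Red v (l * X) x) (hX' : Red v (l' * X') x')
    (hY : Red v (l * Y) y) (hY' : Red v (l' * Y') y')
    (h : algebraMap k K α * (X * X') + algebraMap k K β * (Y * Y') = 0) :
    algebraMap k (RF v) α * (x * x') + algebraMap k (RF v) β * (y * y') = 0 := by
  have h1 : Red v (algebraMap k K α * (l * X * (l' * X')) + algebraMap k K β * (l * Y * (l' * Y')))
      (algebraMap k (RF v) α * (x * x') + algebraMap k (RF v) β * (y * y')) :=
    ((Pool.Agent.LibCHd.red_const v α).mul (hX.mul hX')).add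
      ((Pool.Agent.LibCHd.red_const v β).mul (hY.mul hY'))
  have h2 : algebraMap k K α * (l * X * (l' * X')) + algebraMap k K β * (l * Y * (l' * Y')) = 0 := by
    linear_combination (l * l') * h
  rw [h2] at h1
  exact h1.unique (Pool.Agent.LibCHd.red_zero v)

private theorem B8_ka (c : Dat k) (M : Type) [Field M] [Algebra k M] (i : Fin 3) :
    ka (c.over M) i = algebraMap k M (ka c i) := ka_map _ _ _

private theorem B8_kb (c : Dat k) (M : Type) [Field M] [Algebra k M] (i : Fin 3) :
    kb (c.over M) i = algebraMap k M (kb c i) := kb_map _ _ _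

private theorem B8_ena (c : Dat k) (M : Type) [Field M] [Algebra k M] (i j : Fin 3) :
    en (c.over M) i ((c.over M).a j) = algebraMap k M (en c i (c.a j)) := by
  unfold en
  rw [map_mul, map_sub, map_sub]
  rfl

private theorem B8_enb (c : Dat k) (M : Type) [Field M] [Algebra k M] (i j : Fin 3) :
    en (c.over M) i ((c.over M).b j) = algebraMap k M (en c i (c.b j)) := by
  unfold en
  rw [map_mul, map_sub, map_sub]
  rfl

private theorem B8_spO {K N' : Type} [Field K] [Algebra k K] [Field N']
    [Algebra k N'] (i : K →ₐ[k] N') {v : Place k K} {w : Place k N'} {e : ℤ} (he : 0 < e)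
    (hw : ∀ x, w.ord (i x) = e * v.ord x) (j : RF v →ₐ[k] RF w)
    (hj : ∀ x y, Red v x y → Red w (i x) (j y)) {x : Option K} {x0 : Option (RF v)}
    (h : SpO v x x0) : SpO w (x.map i) (x0.map j) := by
  rcases x with _ | x
  · have h1 : x0 = none := h
    subst h1
    rfl
  · rcases x0 with _ | x0
    · have h1 : v.ord x < 0 := h
      change w.ord (i x) < 0
      rw [hw]
      exact mul_neg_of_pos_of_neg he h1
    · exact hj x x0 h

private theorem B8_unr {M : Type} [Field M] {m : ℕ} {q : Pnt m M} (h : ¬ Ram q) :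
    ∃ y : Fin m → M, (∀ j, q j 1 = some (y j)) ∧ ∀ j, y j ≠ 0 := by
  have h1 : ∀ j, ∃ y : M, q j 1 = some y ∧ y ≠ 0 := by
    intro j
    rcases hq : q j 1 with _ | y
    · exact absurd ⟨j, Or.inl hq⟩ h
    · refine ⟨y, rfl, ?_⟩
      rintro rfl
      exact h ⟨j, Or.inr hq⟩
  choose y hy hy' using h1
  exact ⟨y, hy, hy'⟩

/-- the relation `NodeRel` specialises -/
theorem node_sp {c : Dat k} (hc : c.Good) {K : Type} [Field K] [Algebra k K] {v : Place k K} {i : Fin 3} {P : Pnt 2 K}
    (h : NodeRel (c.over K) i P) {q' : Pnt 2 (RF v)} (hq : SpP v P q') : NodeRel (c.over (RF v)) i q' := by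
  intro j hj
  obtain ⟨l, -, hl'⟩ := B8_XY hq
  have h1 := h j hj
  rw [B8_ka, B8_kb, B8_ena, B8_enb] at h1 ⊢
  exact B8_rel (l := l) (l' := 1) (ka c j) (kb c j) (hl' (c.a j))
    (by rw [one_mul]; exact Pool.Agent.LibCHd.red_const v _) (hl' (c.b j))
    (by rw [one_mul]; exact Pool.Agent.LibCHd.red_const v _) h1

/-- a ramified pair specialises to a ramified pair -/
theorem ram_sp {c : Dat k} (hc : c.Good) {K : Type} [Field K] [Algebra k K] {v : Place k K} {m : ℕ} {P : Pnt m K}
    (hr : Ram P) {q' : Pnt m (RF v)} (hq : SpP v P q') : Ram q' := by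
  obtain ⟨j, hj⟩ := hr
  have h1 := hq j 1
  refine ⟨j, ?_⟩
  rcases hj with hj | hj
  · rw [hj] at h1
    exact Or.inl h1
  · rw [hj] at h1
    rcases hq1 : q' j 1 with _ | y
    · exact Or.inl rfl
    · rw [hq1] at h1
      have h2 : Red v 0 y := h1
      rw [h2.unique (Pool.Agent.LibCHd.red_zero v)]
      exact Or.inr rfl

theorem res_sp [IsAlgClosed k] [CharZero k] {c : Dat k} (hc : c.Good) (hn : ND c) {ζ ν : k}
    (hζ : IsPrimitiveRoot ζ c.n) (hν : ν ≠ 0) (q : CH c 3 1 →+ V) {K N' : Type} [Field K] [Algebra k K] [Field N']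
    [Algebra k N'] (i : K →ₐ[k] N') (v : Place k K) (w : Place k N') (e : ℤ) (he : 0 < e)
    (hw : ∀ x, w.ord (i x) = e * v.ord x) (j : RF v →ₐ[k] RF w) (hj : ∀ x y, Red v x y → Red w (i x) (j y))
    (hfin : Module.finrank j.fieldRange (RF w) ≠ 0) (hF : FunF k 1 (RF w)) {u : Pnt 3 K} (hu : On (c.over K) u)
    {P' : Pnt 2 N'} (h : IsRes (c.over N') (algebraMap k N' ν) (fst2 (mpP i u)) P') {qv : Pnt 3 (RF v)}
    (hqv : SpP v u qv) {q' : Pnt 2 (RF w)} (hq' : SpP w P' q') :
    q (msp c ζ q' (mpP j qv 2)) = Module.finrank j.fieldRange (RF w) • SV c ζ ν q qv := by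
  have hζ1 : ζ ^ c.n = 1 := hζ.pow_eq_one
  have hcw : (c.over (RF w)).Good := good_map hc
  -- the specialisation of the triple over the larger field
  have hsp3 : SpP w (mpP i u) (mpP j qv) := fun a b => B8_spO i he hw j hj (hqv a b)
  have hu3 : On (c.over N') (mpP i u) := (on_map i).2 hu
  have hq3 : On (c.over (RF w)) (mpP j qv) := on_sp hc hu3 hsp3
  have hqvOn : On (c.over (RF v)) qv := on_sp hc hu hqv
  have hsp2 : SpP w (fst2 (mpP i u)) (fst2 (mpP j qv)) := by
    intro a b
    fin_cases a
    · exact hsp3 0 b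
    · exact hsp3 1 b
  have hq2 : On (c.over (RF w)) (fst2 (mpP j qv)) := by
    intro a
    fin_cases a
    · exact hq3 0
    · exact hq3 1
  have hq'On : On (c.over (RF w)) q' := on_sp hc h.on hq'
  have hfst : fst2 (mpP j qv) = mpP j (fst2 qv) := by
    funext a b
    fin_cases a <;> rfl
  -- the relations
  have hrel : ∀ a, ka (c.over (RF w)) a * (Xv (c.over (RF w)) (fst2 (mpP j qv)) a * Xv (c.over (RF w)) q' a) +
      kb (c.over (RF w)) a * (Yv (c.over (RF w)) (fst2 (mpP j qv)) a * Yv (c.over (RF w)) q' a) = 0 := by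
    intro a
    obtain ⟨l, -, hl⟩ := B8_XY hsp2
    obtain ⟨l', -, hl'⟩ := B8_XY hq'
    have h1 := h.rel a
    rw [B8_ka, B8_kb] at h1 ⊢
    exact B8_rel (ka c a) (kb c a) (hl (c.a a)) (hl' (c.a a)) (hl (c.b a)) (hl' (c.b a)) h1
  by_cases hrq : Ram q'
  · rw [msp_ram hc hζ1 _ _ hrq, map_zero]
    by_cases hr0 : Ram (fst2 qv)
    · rw [SV_ram hc hν q hqvOn hr0, smul_zero]
    · -- a node
      have hr2 : ¬ Ram (fst2 (mpP j qv)) := by
        rw [hfst]
        rintro ⟨a, ha⟩
        refine hr0 ⟨a, ?_⟩
        rcases ha with ha | ha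
        · exact Or.inl (Option.map_eq_none_iff.1 ha)
        · obtain ⟨y, hy, hy'⟩ := Option.map_eq_some_iff.1 ha
          rw [(map_eq_zero _).1 hy'] at hy
          exact Or.inr hy
      have hne : ∀ a, Xv (c.over (RF w)) (fst2 (mpP j qv)) a ≠ 0 ∧
          Yv (c.over (RF w)) (fst2 (mpP j qv)) a ≠ 0 := by
        intro a
        constructor
        · intro h0
          exact hr2 ((ram_iff hcw hq2).2 ⟨a, Or.inl h0⟩)
        · intro h0
          exact hr2 ((ram_iff hcw hq2).2 ⟨a, Or.inr h0⟩)
      obtain ⟨n, hn0⟩ := (ram_iff hcw hq'On).1 hrq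
      have hboth : Xv (c.over (RF w)) q' n = 0 ∧ Yv (c.over (RF w)) q' n = 0 := by
        have h1 := hrel n
        rcases hn0 with h0 | h0
        · refine ⟨h0, ?_⟩
          rw [h0, mul_zero, mul_zero, zero_add] at h1
          exact (mul_eq_zero.1 ((mul_eq_zero.1 h1).resolve_left (kb_ne hcw n))).resolve_left (hne n).2
        · refine ⟨?_, h0⟩
          rw [h0, mul_zero, mul_zero, add_zero] at h1
          exact (mul_eq_zero.1 ((mul_eq_zero.1 h1).resolve_left (ka_ne hcw n))).resolve_left (hne n).1
      obtain ⟨p, hp0, hp2, -, hpa, hpb⟩ := pair_poly (c := c.over (RF w)) q'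
      obtain ⟨l, hl, hl'⟩ := node_poly hcw n p hp0 hp2 (by rw [hpa]; exact hboth.1)
        (by rw [hpb]; exact hboth.2)
      have hnode : NodeRel (c.over (RF w)) n (fst2 (mpP j qv)) := by
        intro m hm
        have h1 := hrel m
        rw [← hpa m, ← hpb m, hl', hl'] at h1
        have h2 : l * (ka (c.over (RF w)) m * (Xv (c.over (RF w)) (fst2 (mpP j qv)) m *
            en (c.over (RF w)) n ((c.over (RF w)).a m)) + kb (c.over (RF w)) m *
            (Yv (c.over (RF w)) (fst2 (mpP j qv)) m * en (c.over (RF w)) n ((c.over (RF w)).b m))) = 0 := by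
          linear_combination h1
        exact (mul_eq_zero.1 h2).resolve_left hl
      rw [hfst] at hnode
      rw [SV_node hc hn hν q hqvOn n ((node_map j n).1 hnode), smul_zero]
  · -- `q'` is not ramified
    obtain ⟨y', hy', hy'0⟩ := B8_unr hrq
    have hne : ∀ a, Xv (c.over (RF w)) q' a ≠ 0 ∧ Yv (c.over (RF w)) q' a ≠ 0 := by
      intro a
      constructor
      · intro h0
        exact hrq ((ram_iff hcw hq'On).2 ⟨a, Or.inl h0⟩)
      · intro h0
        exact hrq ((ram_iff hcw hq'On).2 ⟨a, Or.inr h0⟩)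
    by_cases hr2 : Ram (fst2 (mpP j qv))
    · -- a pair of the pencil
      have hr0 : Ram (fst2 qv) := by
        rw [hfst] at hr2
        obtain ⟨a, ha⟩ := hr2
        refine ⟨a, ?_⟩
        rcases ha with ha | ha
        · exact Or.inl (Option.map_eq_none_iff.1 ha)
        · obtain ⟨y, hy, hy'⟩ := Option.map_eq_some_iff.1 ha
          rw [(map_eq_zero _).1 hy'] at hy
          exact Or.inr hy
      rw [SV_ram hc hν q hqvOn hr0, smul_zero]
      obtain ⟨n, hn0⟩ := (ram_iff hcw hq2).1 hr2
      have hboth : Xv (c.over (RF w)) (fst2 (mpP j qv)) n = 0 ∧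
          Yv (c.over (RF w)) (fst2 (mpP j qv)) n = 0 := by
        have h1 := hrel n
        rcases hn0 with h0 | h0
        · refine ⟨h0, ?_⟩
          rw [h0, zero_mul, mul_zero, zero_add] at h1
          exact (mul_eq_zero.1 ((mul_eq_zero.1 h1).resolve_left (kb_ne hcw n))).resolve_right (hne n).2
        · refine ⟨?_, h0⟩
          rw [h0, zero_mul, mul_zero, add_zero] at h1
          exact (mul_eq_zero.1 ((mul_eq_zero.1 h1).resolve_left (ka_ne hcw n))).resolve_right (hne n).1
      obtain ⟨p, hp0, hp2, -, hpa, hpb⟩ := pair_poly (c := c.over (RF w)) (fst2 (mpP j qv))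
      obtain ⟨l, hl, hl'⟩ := node_poly hcw n p hp0 hp2 (by rw [hpa]; exact hboth.1)
        (by rw [hpb]; exact hboth.2)
      have hpen : IsPen (c.over (RF w)) n (∏ a, y' a) q' := by
        refine ⟨hq'On, ?_, ⟨y', hy', rfl⟩, Finset.prod_ne_zero_iff.2 fun a _ => hy'0 a⟩
        intro m hm
        have h1 := hrel m
        rw [← hpa m, ← hpb m, hl', hl'] at h1
        have h2 : l * (ka (c.over (RF w)) m * (en (c.over (RF w)) n ((c.over (RF w)).a m) *
            Xv (c.over (RF w)) q' m) + kb (c.over (RF w)) m *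
            (en (c.over (RF w)) n ((c.over (RF w)).b m) * Yv (c.over (RF w)) q' m)) = 0 := by
          linear_combination h1
        exact (mul_eq_zero.1 h2).resolve_left hl
      exact pen_zero hc hn hζ q hF hpen (hq3 2)
    · -- a residual pair
      obtain ⟨y, hy, hy0⟩ := B8_unr hr2
      obtain ⟨V1, V2, hV1, hV2, hV⟩ := h.prod
      have hres : IsRes (c.over (RF w)) (algebraMap k (RF w) ν) (fst2 (mpP j qv)) q' := by
        refine ⟨hq'On, hrel, y, y', hy, hy', ?_⟩
        have h1 : ∀ a, Red w (V1 a) (y a) := by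
          intro a
          have h2 := hsp2 a 1
          rw [hV1, hy] at h2
          exact h2
        have h1' : ∀ a, Red w (V2 a) (y' a) := by
          intro a
          have h2 := hq' a 1
          rw [hV2, hy'] at h2
          exact h2
        have h3 := (B8_prod h1).mul (B8_prod h1')
        rw [hV] at h3
        exact h3.unique (Pool.Agent.LibCHd.red_const w ν)
      exact SV_spec hc hn hζ1 hν q hqvOn j q' hfin hres

end Pool.Agent.LibCW77
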