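import Pool.Agent.LibCW77.Defs6
import Pool.Agent.LibCW77.A0
import Pool.Agent.LibCW77.B3
import Pool.Agent.LibCW77.B4
import Pool.Agent.LibCW77.B5
import Pool.Agent.LibCW77.B8
import Pool.Agent.LibCW77.D3

/-!
[CW77 B9] The homomorphism `S`. `exists_hom` (D3) with `Ψ M u = SV c ζ ν q u` (`SV_map`), then `desc` (D3): `K` of dimension `2`, `u` on `C ^ 3`, `g`, `S`, specialisations `qv`; to show `∑_(v ∈ S) v.ord g • SV (q v) = 0`. If `fst2 u` is ramified so are the
`fst2 (q v)` (`ram_sp`): `SV_ram`. Otherwise `exists_res`: if `NodeRel i (fst2 u)`: `node_sp`, `SV_node` (`SV_ram` if it is ramified). Else a residual pair `P'` over `N' / K`: `transfer` (B5) with the index set `Perm (Fin 2) × {w | w ^ n = 1} × Bool` (signs; `msp` is such a sum),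
`t v = SV (q v)`, the set `S`; `h2`: `res_sp` (the specialisation of `mpP i u 2` at `w` is `mpP j (q v) 2`). `h3`: `w` not above `S`, `v` its restriction (`place_restr`, `sum_ef` for `j`), `v ∉ S`, `v.ord g ≠ 0`, `FunF k 1 (RF v)` (`funF_sub`), so `cyc k (q v) = 0`,
`cyc_zero_alg`, `SV_alg`, `res_sp`.
-/

open scoped Classical
open Polynomial

namespace Pool.Agent.LibCW77

open Pool.Agent.LibBH2
open Pool.Agent.LibCHd (VR RF Red FunF)

variable {k : Type} [Field k]

/-- specialisation of a point at a place above -/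
theorem B9_spO {K N' : Type} [Field K] [Algebra k K] [Field N'] [Algebra k N'] (i : K →ₐ[k] N')
    {v : Place k K} {w : Place k N'} {e : ℤ} (he : 0 < e) (hw : ∀ x, w.ord (i x) = e * v.ord x)
    (j : RF v →ₐ[k] RF w) (hj : ∀ x y, Red v x y → Red w (i x) (j y)) {o : Option K} {p : Option (RF v)}
    (h : SpO v o p) : SpO w (o.map i) (p.map j) := by
  rcases o with _ | x
  · have h1 : p = none := h
    subst h1
    rfl
  · rcases p with _ | y
    · have h1 : v.ord x < 0 := h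
      change w.ord (i x) < 0
      rw [hw]
      exact mul_neg_of_pos_of_neg he h1
    · exact hj x y h

theorem B9_spP {m : ℕ} {K N' : Type} [Field K] [Algebra k K] [Field N'] [Algebra k N'] (i : K →ₐ[k] N')
    {v : Place k K} {w : Place k N'} {e : ℤ} (he : 0 < e) (hw : ∀ x, w.ord (i x) = e * v.ord x)
    (j : RF v →ₐ[k] RF w) (hj : ∀ x y, Red v x y → Red w (i x) (j y)) {u : Pnt m K} {p : Pnt m (RF v)}
    (h : SpP v u p) : SpP w (mpP i u) (mpP j p) := fun a b => B9_spO i he hw j hj (h a b)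

/-- the triples in the sum `msp` -/
noncomputable def B9_F (c : Dat k) (ζ : k) {M : Type} [Field M] [Algebra k M] (P' : Pnt 2 M)
    (R : Fin 2 → Option M) (a : (Equiv.Perm (Fin 2) × ↥(nthRootsFinset c.n (1 : k))) × Bool) : Pnt 3 M :=
  tri (pr a.1.1 (tw ![(a.1.2 : k), (a.1.2 : k)⁻¹] (bif a.2 then P' else tw ![ζ, 1] P')) 0)
    (pr a.1.1 (tw ![(a.1.2 : k), (a.1.2 : k)⁻¹] (bif a.2 then P' else tw ![ζ, 1] P')) 1) R

theorem B9_sum {V : Type} [AddCommGroup V] (c : Dat k) (ζ : k) (q : CH c 3 1 →+ V) {M : Type} [Field M] [Algebra k M]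
    (P' : Pnt 2 M) (R : Fin 2 → Option M) :
    ∑ a : (Equiv.Perm (Fin 2) × ↥(nthRootsFinset c.n (1 : k))) × Bool,
      (bif a.2 then (1 : ℤ) else -1) • q (cls c 1 (B9_F c ζ P' R a)) = q (msp c ζ P' R) := by
  have h1 : ∀ P : Pnt 2 M, q (ms0 c P R) = ∑ x : Equiv.Perm (Fin 2) × ↥(nthRootsFinset c.n (1 : k)),
      q (cls c 1 (tri (pr x.1 (tw ![(x.2 : k), (x.2 : k)⁻¹] P) 0) (pr x.1 (tw ![(x.2 : k), (x.2 : k)⁻¹] P) 1) R)) := by
    intro P
    unfold ms0
    rw [map_sum, Fintype.sum_prod_type]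
    refine Finset.sum_congr rfl fun σ _ => ?_
    rw [map_sum]
    exact (Finset.sum_coe_sort (nthRootsFinset c.n (1 : k)) fun w =>
      q (cls c 1 (tri (pr σ (tw ![w, w⁻¹] P) 0) (pr σ (tw ![w, w⁻¹] P) 1) R))).symm
  unfold msp
  rw [map_sub, h1, h1, Fintype.sum_prod_type, ← Finset.sum_sub_distrib]
  refine Finset.sum_congr rfl fun x _ => ?_
  rw [Fintype.sum_bool]
  simp only [cond_true, cond_false, one_smul, neg_smul]
  rw [sub_eq_add_neg]
  rfl

private theorem B9_pow {c : Dat k} (hc : c.Good) (w : ↥(nthRootsFinset c.n (1 : k))) : (w : k) ^ c.n = 1 := by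
  have hn : 0 < c.n := lt_of_lt_of_le two_pos hc.two
  exact (mem_nthRootsFinset hn (1 : k)).1 w.2

private theorem B9_pow2 {c : Dat k} {w : k} (hw : w ^ c.n = 1) : ∀ j : Fin 2, (![w, w⁻¹] : Fin 2 → k) j ^ c.n = 1 := by
  intro j
  fin_cases j
  · exact hw
  · change w⁻¹ ^ c.n = 1
    rw [inv_pow, hw, inv_one]

private theorem B9_pow1 {c : Dat k} {w : k} (hw : w ^ c.n = 1) : ∀ j : Fin 2, (![w, 1] : Fin 2 → k) j ^ c.n = 1 := by
  intro j
  fin_cases j
  · exact hw
  · exact one_pow _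

private theorem B9_ne {c : Dat k} (hc : c.Good) {f : Fin 2 → k} (h : ∀ j, f j ^ c.n = 1) : ∀ j, f j ≠ 0 := by
  have hn : 0 < c.n := lt_of_lt_of_le two_pos hc.two
  intro j h0
  have h1 := h j
  rw [h0, zero_pow hn.ne'] at h1
  exact zero_ne_one h1

theorem B9_F_on {c : Dat k} (hc : c.Good) {ζ : k} (hζ : ζ ^ c.n = 1) {M : Type} [Field M] [Algebra k M]
    {P' : Pnt 2 M} (hP : On (c.over M) P') {R : Fin 2 → Option M} (hR : OnC (c.over M) (R 0) (R 1))
    (a : (Equiv.Perm (Fin 2) × ↥(nthRootsFinset c.n (1 : k))) × Bool) : On (c.over M) (B9_F c ζ P' R a) := by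
  have h1 : On (c.over M) (bif a.2 then P' else tw ![ζ, 1] P') := by
    cases a.2
    · exact on_tw _ (B9_pow1 hζ) hP
    · exact hP
  have h2 := on_pr a.1.1 (on_tw _ (B9_pow2 (B9_pow hc a.1.2)) h1)
  intro j
  fin_cases j
  · exact h2 0
  · exact h2 1
  · exact hR

theorem B9_F_sp {c : Dat k} (hc : c.Good) {ζ : k} (hζ : ζ ^ c.n = 1) {M : Type} [Field M] [Algebra k M]
    {w : Place k M} {P' : Pnt 2 M} {q' : Pnt 2 (RF w)} (hP : SpP w P' q') {R : Fin 2 → Option M}
    {R' : Fin 2 → Option (RF w)} (hR : ∀ i, SpO w (R i) (R' i))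
    (a : (Equiv.Perm (Fin 2) × ↥(nthRootsFinset c.n (1 : k))) × Bool) :
    SpP w (B9_F c ζ P' R a) (B9_F c ζ q' R' a) := by
  have h1 : SpP w (bif a.2 then P' else tw ![ζ, 1] P') (bif a.2 then q' else tw ![ζ, 1] q') := by
    cases a.2
    · exact spP_tw _ (B9_ne hc (B9_pow1 hζ)) hP
    · exact hP
  have h2 := spP_pr a.1.1 (spP_tw _ (B9_ne hc (B9_pow2 (B9_pow hc a.1.2))) h1)
  intro j i
  fin_cases j
  · exact h2 0 i
  · exact h2 1 i
  · exact hR i

variable {V : Type} [AddCommGroup V] [Module ℚ V]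

theorem exists_S [IsAlgClosed k] [CharZero k] {c : Dat k} (hc : c.Good) (hn : ND c) {ζ ν : k}
    (hζ : IsPrimitiveRoot ζ c.n) (hν : ν ^ c.n = ∏ i, (-(kb c i) / ka c i)) (q : CH c 3 1 →+ V) :
    ∃ Sop : CH c 3 1 →+ V, ∀ (M : Type) [Field M] [Algebra k M] (u : Pnt 3 M), FunF k 1 M → On (c.over M) u →
      Sop (cls c 1 u) = SV c ζ ν q u := by
  have hζ1 : ζ ^ c.n = 1 := hζ.pow_eq_one
  have hν0 : ν ≠ 0 := nu_ne hc hν
  obtain ⟨H, hH⟩ := exists_hom (m := 3) c 1 (G := V) (fun M _ _ u => SV c ζ ν q u)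
    (fun M M' _ _ _ _ σ u hM' hu _ => SV_map hc hn hζ1 hν q σ hM' hu)
  have hker : RatEq c 3 1 ≤ H.ker := by
    refine desc c 1 H ?_
    intro K _ _ u g S qv hK hu hg hqv hS hout
    have hon : ∀ v, On (c.over (RF v)) (qv v) := fun v => on_sp hc hu (hqv v)
    have hgoal : ∀ v ∈ S, v.ord g • H (cyc k (qv v)) = v.ord g • SV c ζ ν q (qv v) := by
      intro v hv
      rw [hH (RF v) (qv v) (hS v hv) (hon v)]
    rw [Finset.sum_congr rfl hgoal]
    have hf2 : ∀ v, SpP v (fst2 u) (fst2 (qv v)) := by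
      intro v a b
      fin_cases a
      · exact hqv v 0 b
      · exact hqv v 1 b
    by_cases hr : Ram (fst2 u)
    · refine Finset.sum_eq_zero fun v _ => ?_
      rw [SV_ram hc hν0 q (hon v) (ram_sp hc hr (hf2 v)), smul_zero]
    have hu2 : On (c.over K) (fst2 u) := by
      intro a
      fin_cases a
      · exact hu 0
      · exact hu 1
    rcases exists_res hc hν (fst2 u) hu2 hr with ⟨i, hi⟩ | ⟨N', _, _, i, P', hfin, hP'⟩
    · refine Finset.sum_eq_zero fun v _ => ?_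
      rw [SV_node hc hn hν0 q (hon v) i (node_sp hc hi (hf2 v)), smul_zero]
    have hfm : mpP i (fst2 u) = fst2 (mpP i u) := by
      funext a b
      fin_cases a <;> rfl
    rw [hfm] at hP'
    have hui : On (c.over N') (mpP i u) := (on_map i).2 hu
    refine transfer hc q i hfin hK (ι := (Equiv.Perm (Fin 2) × ↥(nthRootsFinset c.n (1 : k))) × Bool)
      (fun a => bif a.2 then (1 : ℤ) else -1) (B9_F c ζ P' (mpP i u 2))
      (fun a => B9_F_on hc hζ1 hP'.on (hui 2) a) g hg S (fun v => SV c ζ ν q (qv v)) hS ?_ ?_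
    · intro v hv w e j he hw hj hjf qq hqq
      obtain ⟨q', hq'⟩ := spP_exists w P'
      have hsp : SpP w (mpP i u) (mpP j (qv v)) := B9_spP i he hw j hj (hqv v)
      have hqq' : ∀ a, qq a = B9_F c ζ q' (mpP j (qv v) 2) a := fun a =>
        spP_unique (hqq a) (B9_F_sp hc hζ1 hq' (fun b => hsp 2 b) a)
      simp only [hqq']
      rw [B9_sum]
      exact res_sp hc hn hζ hν0 q i v w e he hw j hj hjf (funF_finite j hjf (hS v hv)) hu hP' (hqv v) hq'
    · intro w hwg hFw habove qq hqq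
      obtain ⟨v, e', he', hve⟩ := place_restr i hfin w
      obtain ⟨T, e, f, hT, hj0, -⟩ := sum_ef i hfin v
      obtain ⟨⟨he0, he⟩, j, hj, hjf, -⟩ := hj0 w ((hT w).2 ⟨e', he', hve⟩)
      have hvS : v ∉ S := fun hv => habove v hv ⟨e', he', hve⟩
      have hvg : v.ord g ≠ 0 := by
        intro h0
        rw [hve, h0, mul_zero] at hwg
        exact hwg rfl
      have hFv : FunF k 1 (RF v) := funF_sub j hjf hFw
      have hcyc := hout v hvS hvg hFv
      have hSV : SV c ζ ν q (qv v) = 0 :=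
        SV_alg hc hn hζ1 hν q hFv (hon v) (cyc_zero_alg hFv (qv v) hcyc)
      obtain ⟨q', hq'⟩ := spP_exists w P'
      have hsp : SpP w (mpP i u) (mpP j (qv v)) := B9_spP i he' hve j hj (hqv v)
      have hqq' : ∀ a, qq a = B9_F c ζ q' (mpP j (qv v) 2) a := fun a =>
        spP_unique (hqq a) (B9_F_sp hc hζ1 hq' (fun b => hsp 2 b) a)
      simp only [hqq']
      rw [B9_sum, res_sp hc hn hζ hν0 q i v w e' he' hve j hj hjf hFw hu hP' (hqv v) hq', hSV, smul_zero]
  refine ⟨QuotientAddGroup.lift (RatEq c 3 1) H hker, ?_⟩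
  intro M _ _ u hM hu
  exact hH M u hM hu

end Pool.Agent.LibCW77
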