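import Pool.Agent.LibCW77.Defs3

/-!
Generic points of the curve, the modified diagonal cycle, flexes.
-/

open scoped Classical
open Polynomial

namespace Pool.Agent.LibCW77

open Pool.Agent.LibBH2
open Pool.Agent.LibCHd (VR RF Red FunF)

variable {k : Type} [Field k]

/-- `(x, v)` is a generic point of the curve and `N` is the function field of the curve -/
structure GenC (c : Dat k) {N : Type} [Field N] [Algebra k N] (x v : N) : Prop where
  on : OnC (c.over N) (some x) (some v)
  tr : Transcendental k x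
  gen : IntermediateField.adjoin k {x, v} = ⊤

/-- a point of the curve, as a point of `C ^ 1` -/
def pt1 {M : Type} (Q : Fin 2 → Option M) : Pnt 1 M := fun _ => Q

/-- a triple of points -/
def tri {M : Type} (P Q R : Fin 2 → Option M) : Pnt 3 M := ![P, Q, R]

/-- `(x, v) ↦ (x, ζ v)` on points -/
noncomputable def tau (ζ : k) {M : Type} [Field M] [Algebra k M] (P : Fin 2 → Option M) : Fin 2 → Option M :=
  ![P 0, (P 1).map fun v => algebraMap k M ζ * v]

/-- the ramified point `(a_0, 0)` -/
def e0 (c : Dat k) (M : Type) [Field M] [Algebra k M] : Fin 2 → Option M := ![some (algebraMap k M (c.a 0)), some 0]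

/-- the modified diagonal cycle (Gross-Schoen cycle) of the curve with the base point `(a_0, 0)`; `P` is a generic
point of the curve -/
noncomputable def GS (c : Dat k) {M : Type} [Field M] [Algebra k M] (P : Fin 2 → Option M) : CH c 3 1 :=
  cls c 1 (tri P P P) - cls c 1 (tri P P (e0 c M)) - cls c 1 (tri P (e0 c M) P) - cls c 1 (tri (e0 c M) P P) +
    cls c 1 (tri P (e0 c M) (e0 c M)) + cls c 1 (tri (e0 c M) P (e0 c M)) + cls c 1 (tri (e0 c M) (e0 c M) P)

/-- the form `∑ ka_i (a_i - x) ^ 3 ...`: value at `q = (t - x) ^ 3` -/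
noncomputable def AAp (c : Dat k) (i : Fin 3) : k[X] :=
  C (ka c i) * (C (c.a i) - X) ^ 3 + C (kb c i) * (C (c.b i) - X) ^ 3

/-- value at `t (t - x) ^ 3` -/
noncomputable def BBp (c : Dat k) (i : Fin 3) : k[X] :=
  C (ka c i * c.a i) * (C (c.a i) - X) ^ 3 + C (kb c i * c.b i) * (C (c.b i) - X) ^ 3

/-- the polynomial of degree `≤ 6` whose roots are the flexes -/
noncomputable def Hp (c : Dat k) : k[X] := AAp c 0 * BBp c 1 - AAp c 1 * BBp c 0

/-- the six flexes `x` (in `ℙ¹`), with multiplicities -/
noncomputable def rts (c : Dat k) : Multiset (Option k) :=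
  (Hp c).roots.map some + Multiset.replicate (6 - (Hp c).natDegree) none

/-- `(t - x) ^ 3 (t - z)` is in the net `{q : ka_i q(a_i) + kb_i q(b_i) = 0, i = 0, 1, 2}` of quartic forms -/
def Flex (c : Dat k) (x z : Option k) : Prop :=
  ∀ i, ka c i * (ev x (c.a i) ^ 3 * ev z (c.a i)) + kb c i * (ev x (c.b i) ^ 3 * ev z (c.b i)) = 0

/-- the fourth point of the flex tangent at `x` -/
noncomputable def zk (c : Dat k) (x : Option k) : Option k := if h : ∃ z, Flex c x z then h.choose else none

/-- `ν / φ(x)`, `φ(x) = ∏ (x - a_i) / ∏ (x - b_i)`, in `ℙ¹` -/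
noncomputable def vk (c : Dat k) (ν : k) (x : Option k) : Option k :=
  if ∏ i, ev x (c.a i) = 0 then none else some (ν * (∏ i, ev x (c.b i)) / ∏ i, ev x (c.a i))

/-- the point `(z_k, ν / φ(x_k))` of the flex `x_k` -/
noncomputable def Qk (c : Dat k) (ν : k) (x : Option k) : Fin 2 → Option k := ![zk c x, vk c ν x]

end Pool.Agent.LibCW77
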