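import Pool.Agent.LibCW77.Defs3
import Pool.Agent.LibCW77.Defs4
import Pool.Agent.LibCW77.T1
import Pool.Agent.LibCW77.T2
import Pool.Agent.LibCW77.G2
import Pool.Agent.LibCW77.G3
import Pool.Agent.LibCW77.D1
/-!
[CW77 C1] Places of the function field of the curve over a field `k` with the `n`-th roots of unity. `N / k(x)` has degree `n` (`finrank_x`: degree `≤ n` clear; the
place `x = a_0` of `k(x)` has an extension `w` to `N`, there `n w(v) = w(A(x) / B(x)) = e`, so `n` divides `e ≤ n`, `sum_ef`). For `Q` in `C(k)` look at the place `x = x_Q`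
of `k(x)` (`place_triv` of G2 with `M = k` after `rat1_affine`, and `x ↦ 1/x` at infinity; here `N = k(x)` as `IntermediateField.adjoin k {x}`): by `sum_ef` the places `w` of `N` above it satisfy `∑ e f = n`. Ramified `Q`: `n ∣ e`, so one place, `e = n`,
`f = 1`. Otherwise `v ^ n = φ(x)` is a unit at `x_Q` with value `v_Q ^ n` (`1` at infinity); the automorphisms `v ↦ ζ ^ i v` of `N / k(x)` (they exist because the degree is `n`) permute
the places, and the values of `v` at the images of one place `w` are `ζ ^ i v(w)`, all different (`v(w) ^ n = v_Q ^ n` in `RF w`, so `v(w) = ζ ^ j v_Q`, in `k`), so there are `n` places, all with `e = f = 1`, one for every value.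
`SpO` for `x` and `v` as in the statements.
-/

open scoped Classical
open Polynomial

namespace Pool.Agent.LibCW77

open Pool.Agent.LibBH2
open Pool.Agent.LibCHd (VR RF Red FunF)

variable {k : Type} [Field k]

/-! ### generic points -/

private theorem C1_A {c : Dat k} {N : Type} [Field N] [Algebra k N] {x v : N} (h : GenC c x v) :
    v ^ c.n * ∏ i, (x - algebraMap k N (c.b i)) = ∏ i, (x - algebraMap k N (c.a i)) := h.on

private theorem C1_sub_ne {N : Type} [Field N] [Algebra k N] {x : N} (hx : Transcendental k x) (a : k) :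
    x - algebraMap k N a ≠ 0 := by
  intro h
  exact hx (by rw [sub_eq_zero.1 h]; exact isAlgebraic_algebraMap a)

private theorem C1_ne {N : Type} [Field N] [Algebra k N] {x : N} (hx : Transcendental k x) : x ≠ 0 := by
  have := C1_sub_ne hx 0
  simpa using this

private theorem C1_v_ne {c : Dat k} (hc : c.Good) {N : Type} [Field N] [Algebra k N] {x v : N}
    (h : GenC c x v) : v ≠ 0 := by
  rintro rfl
  have h1 := C1_A h
  rw [zero_pow (by have := hc.two; omega), zero_mul] at h1
  exact Finset.prod_ne_zero_iff.2 (fun i _ => C1_sub_ne h.tr (c.a i)) h1.symm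

private theorem C1_top {N : Type} [Field N] [Algebra k N] {x v : N}
    (h : IntermediateField.adjoin k {x, v} = ⊤) :
    IntermediateField.adjoin (IntermediateField.adjoin k {x}) {v} = ⊤ := by
  apply IntermediateField.restrictScalars_injective k
  rw [IntermediateField.restrictScalars_top]
  exact (IntermediateField.adjoin_simple_adjoin_simple k x v).trans h

/-- `φ(x)` in `k(x)` -/
private noncomputable def C1_phi (c : Dat k) {F : Type} [Field F] [Algebra k F] (x : F) : F :=
  (∏ i, (x - algebraMap k F (c.a i))) / ∏ i, (x - algebraMap k F (c.b i))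

private theorem C1_pow {c : Dat k} {N : Type} [Field N] [Algebra k N] {x v : N} (h : GenC c x v) :
    v ^ c.n = C1_phi c x := by
  rw [C1_phi, eq_div_iff (Finset.prod_ne_zero_iff.2 (fun i _ => C1_sub_ne h.tr (c.b i)))]
  exact C1_A h

private theorem C1_map_phi (c : Dat k) {F N : Type} [Field F] [Algebra k F] [Field N] [Algebra k N]
    (i : F →ₐ[k] N) (x : F) : i (C1_phi c x) = C1_phi c (i x) := by
  simp only [C1_phi, map_div₀, map_prod, map_sub, AlgHom.commutes]

private theorem C1_root {c : Dat k} {N : Type} [Field N] [Algebra k N] {x v : N} (h : GenC c x v) (z : N)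
    (hz : z ^ c.n = v ^ c.n) :
    aeval z (X ^ c.n - C (C1_phi c (IntermediateField.AdjoinSimple.gen k x)) :
      (IntermediateField.adjoin k {x})[X]) = 0 := by
  have h1 : algebraMap (IntermediateField.adjoin k {x}) N
      (C1_phi c (IntermediateField.AdjoinSimple.gen k x)) = C1_phi c x := by
    have := C1_map_phi c (IntermediateField.adjoin k {x}).val (IntermediateField.AdjoinSimple.gen k x)
    exact this
  simp only [map_sub, map_pow, aeval_X, aeval_C]
  rw [h1, hz, C1_pow h, sub_self]

private theorem C1_int {c : Dat k} (hc : c.Good) {N : Type} [Field N] [Algebra k N] {x v : N}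
    (h : GenC c x v) : IsIntegral (IntermediateField.adjoin k {x}) v := by
  refine ⟨X ^ c.n - C (C1_phi c (IntermediateField.AdjoinSimple.gen k x)),
    monic_X_pow_sub_C _ (by have := hc.two; omega), ?_⟩
  exact C1_root h v rfl

private theorem C1_fd {c : Dat k} (hc : c.Good) {N : Type} [Field N] [Algebra k N] {x v : N}
    (h : GenC c x v) : FiniteDimensional (IntermediateField.adjoin k {x}) N := by
  have h1 := IntermediateField.adjoin.finiteDimensional (C1_int hc h)
  rw [C1_top h.gen] at h1
  exact (IntermediateField.topEquiv (F := IntermediateField.adjoin k {x}) (E := N)).toLinearEquiv.finiteDimensional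

private theorem C1_le {c : Dat k} (hc : c.Good) {N : Type} [Field N] [Algebra k N] {x v : N}
    (h : GenC c x v) : Module.finrank (IntermediateField.adjoin k {x}) N ≤ c.n := by
  have h1 := IntermediateField.adjoin.finrank (C1_int hc h)
  rw [C1_top h.gen, IntermediateField.finrank_top'] at h1
  rw [h1]
  have hm := monic_X_pow_sub_C (C1_phi c (IntermediateField.AdjoinSimple.gen k x))
    (show c.n ≠ 0 by have := hc.two; omega)
  have h2 := natDegree_le_natDegree (minpoly.min (IntermediateField.adjoin k {x}) v hm (C1_root h v rfl))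
  rwa [natDegree_X_pow_sub_C] at h2

theorem genC_exists {c : Dat k} (hc : c.Good) :
    ∃ (N : Type) (_ : Field N) (_ : Algebra k N) (x v : N), GenC c x v := by
  let E := AlgebraicClosure (RatFunc k)
  let x : E := algebraMap (RatFunc k) E RatFunc.X
  have hx : Transcendental k x := by
    have h1 : Transcendental k (RatFunc.X : RatFunc k) := RatFunc.transcendental_X
    exact (transcendental_algebraMap_iff (algebraMap (RatFunc k) E).injective).2 h1
  obtain ⟨v, hv⟩ := IsAlgClosed.exists_pow_nat_eq (C1_phi c x) (n := c.n) (by have := hc.two; omega)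
  let N : IntermediateField k E := IntermediateField.adjoin k {x, v}
  have hxm : x ∈ N := IntermediateField.subset_adjoin k _ (by simp)
  have hvm : v ∈ N := IntermediateField.subset_adjoin k _ (by simp)
  refine ⟨N, inferInstance, inferInstance, ⟨x, hxm⟩, ⟨v, hvm⟩, ?_, ?_, ?_⟩
  · show (⟨v, hvm⟩ : N) ^ c.n * ∏ i, ((⟨x, hxm⟩ : N) - algebraMap k N (c.b i)) =
      ∏ i, ((⟨x, hxm⟩ : N) - algebraMap k N (c.a i))
    apply N.val.injective
    rw [map_mul, map_pow, map_prod, map_prod]
    simp only [map_sub]
    show v ^ c.n * ∏ i, (x - algebraMap k E (c.b i)) = ∏ i, (x - algebraMap k E (c.a i))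
    rw [hv, C1_phi, div_mul_cancel₀]
    exact Finset.prod_ne_zero_iff.2 (fun i _ => C1_sub_ne hx (c.b i))
  · intro h
    exact hx ((isAlgebraic_algHom_iff N.val N.val.injective).2 h)
  · have h1 : (IntermediateField.adjoin k {(⟨x, hxm⟩ : N), (⟨v, hvm⟩ : N)}).map N.val =
        (⊤ : IntermediateField k N).map N.val := by
      rw [IntermediateField.adjoin_map]
      have h2 : N.val '' {(⟨x, hxm⟩ : N), (⟨v, hvm⟩ : N)} = {x, v} := by
        rw [Set.image_pair]
        rfl
      rw [h2, ← AlgHom.fieldRange_eq_map, IntermediateField.fieldRange_val]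
    exact IntermediateField.map_injective N.val h1

theorem genC_funF {c : Dat k} (hc : c.Good) {N : Type} [Field N] [Algebra k N] {x v : N} (h : GenC c x v) :
    FunF k 1 N ∧ v ≠ 0 := by
  refine ⟨⟨fun _ => x, ?_, ?_⟩, C1_v_ne hc h⟩
  · exact algebraicIndependent_unique_type_iff.2 h.tr
  · have h1 : Set.range (fun _ : Fin 1 => x) = {x} := by simp
    rw [h1]
    exact C1_fd hc h

/-! ### places of the rational function field -/

private theorem C1_rat1 {F : Type} [Field F] [Algebra k F] {y : F} (hy : Transcendental k y)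
    (hg : IntermediateField.adjoin k {y} = ⊤) : Rat1 (Algebra.ofId k F) y := by
  constructor
  · intro G hG h0
    exact hy ⟨G, hG, h0⟩
  · intro z
    have hz : z ∈ IntermediateField.adjoin k {y} := by rw [hg]; trivial
    obtain ⟨r, s, h⟩ := (IntermediateField.mem_adjoin_simple_iff k z).1 hz
    by_cases hs : s = 0
    · refine ⟨0, 1, one_ne_zero, ?_⟩
      rw [h, hs]
      simp
    · exact ⟨r, s, hs, h⟩

private theorem C1_place {F : Type} [Field F] [Algebra k F] {y : F} (hy : Transcendental k y)
    (hg : IntermediateField.adjoin k {y} = ⊤) :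
    ∃ v : Place k F, Function.Surjective (algebraMap k (RF v)) ∧ v.ord y = 1 ∧
      ∀ v' : Place k F, 0 < v'.ord y → v' = v := by
  have h := rat1_affine (C1_rat1 hy hg) 1 1 one_ne_zero
  rw [map_one, one_mul] at h
  obtain ⟨v, ε, h1, h2, h3, h4⟩ := place_triv h
  rw [add_sub_cancel_right] at h3 h4
  refine ⟨v, ?_, h3, ?_⟩
  · intro z
    obtain ⟨a, ha⟩ := ε.surjective z
    refine ⟨a, ?_⟩
    rw [← ha]
    exact (ε.commutes a).symm
  · intro v' h5
    refine h4 v' ?_ h5
    intro a
    by_cases ha : a = 0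
    · rw [ha, map_zero, v'.ord_zero]
    · exact v'.ord_const a ha

/-- the local parameter at a point of the projective line -/
private noncomputable def C1_lp {N : Type} [Field N] [Algebra k N] (x : N) : Option k → N
  | none => x⁻¹
  | some p => x - algebraMap k N p

private theorem C1_lp_map {F N : Type} [Field F] [Algebra k F] [Field N] [Algebra k N]
    (i : F →ₐ[k] N) (x : F) (P : Option k) : i (C1_lp x P) = C1_lp (i x) P := by
  cases P with
  | none => simp [C1_lp]
  | some p => simp [C1_lp]

private theorem C1_lp_ne {N : Type} [Field N] [Algebra k N] {x : N} (hx : Transcendental k x)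
    (P : Option k) : C1_lp x P ≠ 0 := by
  cases P with
  | none => exact inv_ne_zero (C1_ne hx)
  | some p => exact C1_sub_ne hx p

private theorem C1_sp_iff {N : Type} [Field N] [Algebra k N] {x : N} (hx : Transcendental k x)
    (w : Place k N) (P : Option k) :
    SpO w (some x) (P.map (algebraMap k (RF w))) ↔ 0 < w.ord (C1_lp x P) := by
  cases P with
  | none =>
    show w.ord x < 0 ↔ 0 < w.ord x⁻¹
    rw [w.ord_inv]
    omega
  | some p =>
    show Red w x (algebraMap k (RF w) p) ↔ _
    rw [LibCHd.red_iff_val]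
    show (_ ∨ _) ↔ 0 < w.ord (x - algebraMap k N p)
    have := C1_sub_ne hx p
    tauto

private theorem C1_lp_tr {N : Type} [Field N] [Algebra k N] {x : N} (hx : Transcendental k x)
    (P : Option k) : Transcendental k (C1_lp x P) := by
  cases P with
  | none =>
    show Transcendental k x⁻¹
    intro h
    exact hx (by simpa using h.inv)
  | some p =>
    show Transcendental k (x - algebraMap k N p)
    intro h
    exact hx (by simpa using h.add (isAlgebraic_algebraMap p))

private theorem C1_lp_gen {N : Type} [Field N] [Algebra k N] {x : N} 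
    (hg : IntermediateField.adjoin k {x} = ⊤) (P : Option k) :
    IntermediateField.adjoin k {C1_lp x P} = ⊤ := by
  rw [eq_top_iff, ← hg, IntermediateField.adjoin_simple_le_iff]
  have h1 := IntermediateField.mem_adjoin_simple_self k (C1_lp x P)
  cases P with
  | none =>
    have := inv_mem h1
    simpa [C1_lp] using this
  | some p =>
    have := add_mem h1 ((IntermediateField.adjoin k {C1_lp x (some p)}).algebraMap_mem p)
    simpa [C1_lp] using this

private theorem C1_fib [CharZero k] {N : Type} [Field N] [Algebra k N] {x : N} (hx : Transcendental k x)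
    (hfin : Module.finrank (IntermediateField.adjoin k {x}) N ≠ 0) (P : Option k) :
    ∃ (S : Finset (Place k N)) (f : Place k N → ℕ), (∀ w, w ∈ S ↔ 0 < w.ord (C1_lp x P)) ∧
      (∀ w ∈ S, 0 < f w ∧ (f w = 1 → Function.Surjective (algebraMap k (RF w)))) ∧
      ∑ w ∈ S, (w.ord (C1_lp x P)).toNat * f w = Module.finrank (IntermediateField.adjoin k {x}) N := by
  set F := IntermediateField.adjoin k {x} with hF
  set x' : F := IntermediateField.AdjoinSimple.gen k x with hx'
  have hval : F.val x' = x := rfl
  have htr : Transcendental k x' := by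
    intro h
    exact hx ((isAlgebraic_algHom_iff F.val F.val.injective).2 h)
  have hgen : IntermediateField.adjoin k {x'} = ⊤ := by
    apply IntermediateField.map_injective F.val
    rw [IntermediateField.adjoin_map, Set.image_singleton, ← AlgHom.fieldRange_eq_map,
      IntermediateField.fieldRange_val, hval]
  obtain ⟨v, hv1, hv2, hv3⟩ := C1_place (C1_lp_tr htr P) (C1_lp_gen hgen P)
  have hfr : Module.finrank F.val.fieldRange N = Module.finrank F N := by
    rw [IntermediateField.fieldRange_val]
  have hfin' : Module.finrank F.val.fieldRange N ≠ 0 := by rwa [hfr]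
  obtain ⟨S, e, f, h1, h2, h3⟩ := sum_ef F.val hfin' v
  have hlp : F.val (C1_lp x' P) = C1_lp x P := by rw [C1_lp_map, hval]
  have hord : ∀ w ∈ S, w.ord (C1_lp x P) = e w := by
    intro w hw
    have := (h2 w hw).1.2 (C1_lp x' P)
    rw [hlp, hv2, mul_one] at this
    exact this
  refine ⟨S, f, ?_, ?_, ?_⟩
  · intro w
    constructor
    · intro hw
      rw [hord w hw]
      exact_mod_cast (h2 w hw).1.1
    · intro hw
      obtain ⟨v', e', he', h4⟩ := place_restr F.val hfin' w
      rw [h1]
      have h5 : v' = v := by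
        apply hv3
        have h6 := h4 (C1_lp x' P)
        rw [hlp] at h6
        rw [h6] at hw
        exact (mul_pos_iff_of_pos_left he').1 hw
      subst h5
      exact ⟨e', he', h4⟩
  · intro w hw
    obtain ⟨j, -, hj0, hjf⟩ := (h2 w hw).2
    refine ⟨Nat.pos_of_ne_zero (hjf ▸ hj0), ?_⟩
    intro hf z
    have h6 : j.fieldRange = ⊤ := by
      exact IntermediateField.finrank_eq_one_iff_eq_top.1 (hjf.trans hf)
    have h7 : z ∈ j.fieldRange := by rw [h6]; trivial
    obtain ⟨y, hy⟩ := h7
    obtain ⟨a, ha⟩ := hv1 y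
    refine ⟨a, ?_⟩
    rw [← hy, ← ha]
    exact (j.commutes a).symm
  · rw [← hfr, ← h3]
    apply Finset.sum_congr rfl
    intro w hw
    rw [hord w hw]
    simp

/-! ### orders of the factors -/

private theorem C1_ord_prod {N : Type} [Field N] [Algebra k N] (w : Place k N) (f : Fin 3 → N)
    (hf : ∀ i, f i ≠ 0) : w.ord (∏ i, f i) = ∑ i, w.ord (f i) := by
  rw [Fin.prod_univ_three, Fin.sum_univ_three, w.ord_mul _ _ (mul_ne_zero (hf 0) (hf 1)) (hf 2),
    w.ord_mul _ _ (hf 0) (hf 1)]

private theorem C1_ord_other {N : Type} [Field N] [Algebra k N] {x : N} {w : Place k N} {p q : k}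
    (h : 0 < w.ord (x - algebraMap k N p)) (hpq : p ≠ q) : w.ord (x - algebraMap k N q) = 0 := by
  apply Place.ord_eq_zero_of_val (c := p - q) _ (sub_ne_zero.2 hpq)
  rw [map_sub, sub_sub_sub_cancel_right]
  exact Or.inr h

private theorem C1_ord_eq {c : Dat k} (hc : c.Good) {N : Type} [Field N] [Algebra k N] {x v : N}
    (h : GenC c x v) (w : Place k N) :
    (c.n : ℤ) * w.ord v + ∑ i, w.ord (x - algebraMap k N (c.b i)) =
      ∑ i, w.ord (x - algebraMap k N (c.a i)) := by
  rw [← C1_ord_prod w _ (fun i => C1_sub_ne h.tr (c.b i)), ← C1_ord_prod w _ (fun i => C1_sub_ne h.tr (c.a i)),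
    ← C1_A h, w.ord_mul _ _ (pow_ne_zero _ (C1_v_ne hc h))
      (Finset.prod_ne_zero_iff.2 (fun i _ => C1_sub_ne h.tr (c.b i))), w.ord_pow]

omit [Field k] in
private theorem C1_aa {c : Dat k} (hc : c.Good) {i j : Fin 3} (hij : i ≠ j) : c.a i ≠ c.a j := by
  intro h
  exact hij (Sum.inl_injective (hc.inj (a₁ := Sum.inl i) (a₂ := Sum.inl j) h))

omit [Field k] in
private theorem C1_bb {c : Dat k} (hc : c.Good) {i j : Fin 3} (hij : i ≠ j) : c.b i ≠ c.b j := by
  intro h
  exact hij (Sum.inr_injective (hc.inj (a₁ := Sum.inr i) (a₂ := Sum.inr j) h))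

omit [Field k] in
private theorem C1_ab {c : Dat k} (hc : c.Good) (i j : Fin 3) : c.a i ≠ c.b j := by
  intro h
  have := hc.inj (a₁ := Sum.inl i) (a₂ := Sum.inr j) h
  cases this

private theorem C1_ord_a {c : Dat k} (hc : c.Good) {N : Type} [Field N] [Algebra k N] {x v : N}
    (h : GenC c x v) {w : Place k N} {i : Fin 3} (hw : 0 < w.ord (x - algebraMap k N (c.a i))) :
    (c.n : ℤ) * w.ord v = w.ord (x - algebraMap k N (c.a i)) := by
  have h1 := C1_ord_eq hc h w
  rw [Finset.sum_eq_zero (fun j _ => C1_ord_other hw (C1_ab hc i j)), add_zero,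
    Finset.sum_eq_single i (fun j _ hj => C1_ord_other hw (C1_aa hc (Ne.symm hj)))
      (fun hi => absurd (Finset.mem_univ i) hi)] at h1
  exact h1

private theorem C1_ord_b {c : Dat k} (hc : c.Good) {N : Type} [Field N] [Algebra k N] {x v : N}
    (h : GenC c x v) {w : Place k N} {i : Fin 3} (hw : 0 < w.ord (x - algebraMap k N (c.b i))) :
    (c.n : ℤ) * w.ord v = - w.ord (x - algebraMap k N (c.b i)) := by
  have h1 := C1_ord_eq hc h w
  rw [Finset.sum_eq_zero (s := Finset.univ) (f := fun j => w.ord (x - algebraMap k N (c.a j)))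
      (fun j _ => C1_ord_other hw (Ne.symm (C1_ab hc j i))),
    Finset.sum_eq_single i (fun j _ hj => C1_ord_other hw (C1_bb hc (Ne.symm hj)))
      (fun hi => absurd (Finset.mem_univ i) hi)] at h1
  linarith

private theorem C1_fin_ne {c : Dat k} (hc : c.Good) {N : Type} [Field N] [Algebra k N] {x v : N}
    (h : GenC c x v) : Module.finrank (IntermediateField.adjoin k {x}) N ≠ 0 := by
  haveI := C1_fd hc h
  exact Module.finrank_pos.ne'

theorem finrank_x [CharZero k] {c : Dat k} (hc : c.Good) {N : Type} [Field N] [Algebra k N]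
    {x v : N} (h : GenC c x v) : Module.finrank (IntermediateField.adjoin k {x}) N = c.n := by
  have h0 := C1_fin_ne hc h
  obtain ⟨S, f, h1, h2, h3⟩ := C1_fib h.tr h0 (some (c.a 0))
  apply le_antisymm (C1_le hc h)
  rw [← h3] at h0
  obtain ⟨w, hw, -⟩ := Finset.exists_ne_zero_of_sum_ne_zero h0
  rw [← h3]
  have h4 := Finset.single_le_sum (f := fun w => (w.ord (C1_lp x (some (c.a 0)))).toNat * f w)
    (fun _ _ => Nat.zero_le _) hw
  refine le_trans ?_ h4
  have h5 : 0 < w.ord (x - algebraMap k N (c.a 0)) := (h1 w).1 hw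
  have h6 := C1_ord_a hc h h5
  have hn : (0 : ℤ) < c.n := by have := hc.two; omega
  have h7 : 0 < w.ord v := by
    rw [← h6] at h5
    exact (mul_pos_iff_of_pos_left hn).1 h5
  have h8 : (c.n : ℤ) ≤ w.ord (x - algebraMap k N (c.a 0)) := by
    rw [← h6]
    nlinarith
  have h9 : c.n ≤ (w.ord (C1_lp x (some (c.a 0)))).toNat := by
    have : w.ord (C1_lp x (some (c.a 0))) = w.ord (x - algebraMap k N (c.a 0)) := rfl
    rw [this]
    omega
  exact le_trans h9 (Nat.le_mul_of_pos_right _ (h2 w hw).1)

/-- the fibre is one point with `e = n` -/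
private theorem C1_one [CharZero k] {c : Dat k} (hc : c.Good) {N : Type} [Field N] [Algebra k N]
    {x v : N} (h : GenC c x v) (P : Option k)
    (hP : ∀ w : Place k N, 0 < w.ord (C1_lp x P) → ∃ t : ℤ, w.ord (C1_lp x P) = c.n * t) :
    ∃ w : Place k N, w.ord (C1_lp x P) = c.n ∧ Function.Surjective (algebraMap k (RF w)) ∧
      ∀ w' : Place k N, 0 < w'.ord (C1_lp x P) → w' = w := by
  have h0 := C1_fin_ne hc h
  obtain ⟨S, f, h1, h2, h3⟩ := C1_fib h.tr h0 P
  rw [finrank_x hc h] at h3 h0
  have hn : (0 : ℤ) < c.n := by have := hc.two; omega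
  have hge : ∀ w ∈ S, c.n ≤ (w.ord (C1_lp x P)).toNat := by
    intro w hw
    obtain ⟨t, ht⟩ := hP w ((h1 w).1 hw)
    have h5 := (h1 w).1 hw
    have h7 : 0 < t := by
      rw [ht] at h5
      exact (mul_pos_iff_of_pos_left hn).1 h5
    have h8 : (c.n : ℤ) ≤ w.ord (C1_lp x P) := by
      rw [ht]
      nlinarith
    omega
  rw [← h3] at h0
  obtain ⟨w, hw, -⟩ := Finset.exists_ne_zero_of_sum_ne_zero h0
  have h4 := Finset.sum_erase_add S (fun w => (w.ord (C1_lp x P)).toNat * f w) hw
  rw [h3] at h4
  have h5 := hge w hw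
  have h6 := (h2 w hw).1
  have h7 : c.n * f w ≤ (w.ord (C1_lp x P)).toNat * f w := Nat.mul_le_mul_right _ h5
  have hn' : 0 < c.n := by omega
  have h8 : f w = 1 := by
    by_contra h9
    have : 2 ≤ f w := by omega
    have : c.n * 2 ≤ c.n * f w := Nat.mul_le_mul_left _ this
    omega
  rw [h8, mul_one] at h4 h7
  refine ⟨w, ?_, (h2 w hw).2 h8, ?_⟩
  · have := (h1 w).1 hw
    omega
  · intro w' hw'
    by_contra hne
    have hm : w' ∈ S.erase w := Finset.mem_erase.2 ⟨hne, (h1 w').2 hw'⟩
    have h9 := Finset.single_le_sum (f := fun w => (w.ord (C1_lp x P)).toNat * f w)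
      (fun _ _ => Nat.zero_le _) hm
    have h10 := hge w' ((h1 w').2 hw')
    have h11 := (h2 w' ((h1 w').2 hw')).1
    have h12 : c.n ≤ (w'.ord (C1_lp x P)).toNat * f w' := le_trans h10 (Nat.le_mul_of_pos_right _ h11)
    have h13 : (w'.ord (C1_lp x P)).toNat * f w' ≤ _ := h9
    omega

/-! ### automorphisms -/

/-- the automorphisms of the function field over `k(x)` -/
theorem autC [CharZero k] {c : Dat k} (hc : c.Good) {ζ : k} (hζ : ζ ^ c.n = 1) {N : Type}
    [Field N] [Algebra k N] {x v : N} (h : GenC c x v) :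
    ∃ ε : N ≃ₐ[k] N, ε x = x ∧ ε v = algebraMap k N ζ * v := by
  haveI := C1_fd hc h
  have hint := C1_int hc h
  have hdeg : (minpoly (IntermediateField.adjoin k {x}) v).natDegree = c.n := by
    have h1 := IntermediateField.adjoin.finrank hint
    rw [C1_top h.gen, IntermediateField.finrank_top', finrank_x hc h] at h1
    exact h1.symm
  have hn : c.n ≠ 0 := by have := hc.two; omega
  have hmin : minpoly (IntermediateField.adjoin k {x}) v =
      X ^ c.n - C (C1_phi c (IntermediateField.AdjoinSimple.gen k x)) := by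
    refine (eq_of_monic_of_dvd_of_natDegree_le (minpoly.monic hint) (monic_X_pow_sub_C _ hn)
      (minpoly.dvd _ _ (C1_root h v rfl)) ?_).symm
    rw [hdeg, natDegree_X_pow_sub_C]
  have htop : Algebra.adjoin (IntermediateField.adjoin k {x}) {v} = ⊤ := by
    rw [← IntermediateField.adjoin_simple_toSubalgebra_of_isAlgebraic hint.isAlgebraic, C1_top h.gen,
      IntermediateField.top_toSubalgebra]
  let pb := PowerBasis.ofAdjoinEqTop hint htop
  have hgen : pb.gen = v := PowerBasis.ofAdjoinEqTop_gen hint htop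
  have hroot : aeval (algebraMap k N ζ * v) (minpoly (IntermediateField.adjoin k {x}) pb.gen) = 0 := by
    rw [hgen, hmin]
    apply C1_root h
    rw [mul_pow, ← map_pow, hζ, map_one, one_mul]
  let g : N →ₐ[IntermediateField.adjoin k {x}] N := pb.lift _ hroot
  have hg : g v = algebraMap k N ζ * v := by
    have := pb.lift_gen _ hroot
    rw [hgen] at this
    exact this
  let e : N ≃ₐ[IntermediateField.adjoin k {x}] N :=
    AlgEquiv.ofBijective g (Algebra.IsAlgebraic.algHom_bijective g)
  refine ⟨e.restrictScalars k, ?_, hg⟩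
  exact e.commutes (IntermediateField.AdjoinSimple.gen k x)

/-- the pull-back of a place by an automorphism -/
private def C1_pl {N : Type} [Field N] [Algebra k N] (w : Place k N) (ε : N ≃ₐ[k] N) : Place k N where
  ord f := w.ord (ε f)
  ord_zero := by rw [map_zero, w.ord_zero]
  ord_mul f g hf hg := by
    rw [map_mul]
    exact w.ord_mul _ _ ((_root_.map_ne_zero ε).2 hf) ((_root_.map_ne_zero ε).2 hg)
  ord_add f g hf hg hfg := by
    rw [map_add]
    exact w.ord_add _ _ ((_root_.map_ne_zero ε).2 hf) ((_root_.map_ne_zero ε).2 hg) (by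
      rw [← map_add]; exact (_root_.map_ne_zero ε).2 hfg)
  ord_const a ha := by
    rw [ε.commutes]
    exact w.ord_const a ha
  exists_uniformizer := by
    obtain ⟨t, ht⟩ := w.exists_uniformizer
    exact ⟨ε.symm t, by rw [ε.apply_symm_apply]; exact ht⟩

/-- the unramified fibres -/
private theorem C1_unram [CharZero k] {c : Dat k} (hc : c.Good) {ζ : k} (hζ : IsPrimitiveRoot ζ c.n)
    {N : Type} [Field N] [Algebra k N] {x v : N} (h : GenC c x v) (P : Option k) (v₀ : k) (hv₀ : v₀ ≠ 0)
    (hP : ∀ w : Place k N, 0 < w.ord (C1_lp x P) → Red w (v ^ c.n) (algebraMap k (RF w) (v₀ ^ c.n))) :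
    ∃ w : Place k N, w.ord (C1_lp x P) = 1 ∧ Red w v (algebraMap k (RF w) v₀) ∧
      Function.Surjective (algebraMap k (RF w)) ∧
      ∀ w' : Place k N, 0 < w'.ord (C1_lp x P) → Red w' v (algebraMap k (RF w') v₀) → w' = w := by
  have h0 := C1_fin_ne hc h
  have hn2 := hc.two
  haveI : NeZero c.n := ⟨by omega⟩
  obtain ⟨S, f, h1, h2, h3⟩ := C1_fib h.tr h0 P
  rw [finrank_x hc h] at h3 h0
  -- the value of `v`
  have hval : ∀ w : Place k N, 0 < w.ord (C1_lp x P) →
      ∃ j < c.n, Red w v (algebraMap k (RF w) (ζ ^ j * v₀)) := by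
    intro w hw
    have h4 := hP w hw
    have hne : algebraMap k (RF w) (v₀ ^ c.n) ≠ 0 := (_root_.map_ne_zero _).2 (pow_ne_zero _ hv₀)
    have h5 := h4.ord_eq_zero hne
    rw [w.ord_pow] at h5
    have h6 : w.ord v = 0 := by
      rcases mul_eq_zero.1 h5 with h6 | h6
      · exact absurd h6 (by exact_mod_cast (show c.n ≠ 0 by omega))
      · exact h6
    obtain ⟨r, hr⟩ := LibCHd.exists_red (v := w) (f := v) (Or.inr h6.ge)
    have h7 := (hr.pow c.n).unique h4
    have hv0' : algebraMap k (RF w) v₀ ≠ 0 := (_root_.map_ne_zero _).2 hv₀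
    have h8 : (r / algebraMap k (RF w) v₀) ^ c.n = 1 := by
      rw [div_pow, h7, map_pow, div_self (pow_ne_zero _ hv0')]
    obtain ⟨j, hj, hj'⟩ := (hζ.map_of_injective (algebraMap k (RF w)).injective).eq_pow_of_pow_eq_one h8
    refine ⟨j, hj, ?_⟩
    have h9 : algebraMap k (RF w) (ζ ^ j * v₀) = r := by
      rw [map_mul, map_pow, hj', div_mul_cancel₀ _ hv0']
    rw [h9]
    exact hr
  rw [← h3] at h0
  obtain ⟨w₀, hw₀, -⟩ := Finset.exists_ne_zero_of_sum_ne_zero h0
  obtain ⟨j, hj, hj'⟩ := hval w₀ ((h1 w₀).1 hw₀)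
  have hex : ∀ i : Fin c.n, ∃ w ∈ S, Red w v (algebraMap k (RF w) (ζ ^ (i : ℕ) * v₀)) := by
    intro i
    obtain ⟨ε, hε1, hε2⟩ := autC hc (ζ := ζ ^ ((i : ℕ) + c.n - j))
      (by rw [← pow_mul, mul_comm, pow_mul, hζ.pow_eq_one, one_pow]) h
    refine ⟨C1_pl w₀ ε, ?_, ?_⟩
    · rw [h1]
      show 0 < w₀.ord (ε (C1_lp x P))
      have h5 : ε (C1_lp x P) = C1_lp x P := by
        have := C1_lp_map (ε : N →ₐ[k] N) x P
        rw [show (ε : N →ₐ[k] N) x = x from hε1] at this
        exact this
      rw [h5]
      exact (h1 w₀).1 hw₀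
    · rw [LibCHd.red_iff_val] at hj' ⊢
      have h6 : ζ ^ ((i : ℕ) + c.n - j) * ζ ^ j = ζ ^ (i : ℕ) := by
        rw [← pow_add, show (i : ℕ) + c.n - j + j = i + c.n by omega, pow_add, hζ.pow_eq_one, mul_one]
      have h7 : ε (v - algebraMap k N (ζ ^ (i : ℕ) * v₀)) =
          algebraMap k N (ζ ^ ((i : ℕ) + c.n - j)) * (v - algebraMap k N (ζ ^ j * v₀)) := by
        rw [map_sub, hε2, AlgEquiv.commutes, mul_sub, ← map_mul, ← mul_assoc, h6]
      have h8 : w₀.Zer (ε (v - algebraMap k N (ζ ^ (i : ℕ) * v₀))) := by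
        rw [h7]
        exact Place.Zer.reg_mul (w₀.reg_const _) hj'
      rcases h8 with h8 | h8
      · left
        exact (_root_.map_eq_zero ε).1 h8
      · right
        exact h8
  choose W hW1 hW2 using hex
  have hinj : Function.Injective W := by
    intro i i' hii
    have h5 := hW2 i'
    rw [← hii] at h5
    have h6 := (hW2 i).unique h5
    have h7 := (algebraMap k (RF (W i))).injective h6
    have h8 := mul_right_cancel₀ hv₀ h7
    exact Fin.ext (hζ.pow_inj i.2 i'.2 h8)
  have hterm : ∀ w ∈ S, 1 ≤ (w.ord (C1_lp x P)).toNat * f w := by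
    intro w hw
    have h5 := (h1 w).1 hw
    have h6 : 0 < (w.ord (C1_lp x P)).toNat := by omega
    exact Nat.mul_pos h6 (h2 w hw).1
  have hcard : S.card ≤ c.n := by
    rw [← h3, Finset.card_eq_sum_ones]
    exact Finset.sum_le_sum hterm
  have himg : Finset.univ.image W = S := by
    apply Finset.eq_of_subset_of_card_le
    · intro w hw
      obtain ⟨i, -, rfl⟩ := Finset.mem_image.1 hw
      exact hW1 i
    · rw [Finset.card_image_of_injective _ hinj, Finset.card_univ, Fintype.card_fin]
      exact hcard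
  have hcard' : S.card = c.n := by
    rw [← himg, Finset.card_image_of_injective _ hinj, Finset.card_univ, Fintype.card_fin]
  have hone : ∀ w ∈ S, (w.ord (C1_lp x P)).toNat * f w = 1 := by
    intro w hw
    by_contra hne
    have h5 := hterm w hw
    have h6 : ∑ w ∈ S, 1 < ∑ w ∈ S, (w.ord (C1_lp x P)).toNat * f w :=
      Finset.sum_lt_sum hterm ⟨w, hw, by omega⟩
    rw [h3, ← Finset.card_eq_sum_ones, hcard'] at h6
    exact lt_irrefl _ h6
  have hzero : (0 : ℕ) < c.n := by omega
  have h10 := hone _ (hW1 ⟨0, hzero⟩)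
  have h12 : f (W ⟨0, hzero⟩) = 1 := Nat.eq_one_of_mul_eq_one_left h10
  have h11 : ((W ⟨0, hzero⟩).ord (C1_lp x P)).toNat = 1 := Nat.eq_one_of_mul_eq_one_right h10
  refine ⟨W ⟨0, hzero⟩, ?_, ?_, (h2 _ (hW1 _)).2 h12, ?_⟩
  · have := (h1 _).1 (hW1 ⟨0, hzero⟩)
    omega
  · have := hW2 ⟨0, hzero⟩
    simpa using this
  · intro w' hw' hr
    have hm : w' ∈ S := (h1 w').2 hw'
    rw [← himg] at hm
    obtain ⟨i, -, rfl⟩ := Finset.mem_image.1 hm
    have h5 := (hW2 i).unique hr
    have h7 := (algebraMap k (RF (W i))).injective h5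
    have h8 : ζ ^ (i : ℕ) * v₀ = ζ ^ 0 * v₀ := by rw [h7, pow_zero, one_mul]
    have h9 := mul_right_cancel₀ hv₀ h8
    have h13 := hζ.pow_inj i.2 hzero h9
    congr 1
    exact Fin.ext h13

theorem placeC [CharZero k] {c : Dat k} (hc : c.Good) {ζ : k} (hζ : IsPrimitiveRoot ζ c.n) {N : Type}
    [Field N] [Algebra k N] {x v : N} (h : GenC c x v) (Q : Fin 2 → Option k) (hQ : OnC c (Q 0) (Q 1)) :
    ∃ w : Place k N, (SpO w (some x) ((Q 0).map (algebraMap k (RF w))) ∧
      SpO w (some v) ((Q 1).map (algebraMap k (RF w)))) ∧ Function.Surjective (algebraMap k (RF w)) ∧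
      (∀ x₀ v₀, Q 0 = some x₀ → Q 1 = some v₀ → v₀ ≠ 0 → w.ord (x - algebraMap k N x₀) = 1) ∧
      (Q 0 = none → w.ord x = -1) ∧
      (∀ i, Q 0 = some (c.a i) → w.ord (x - algebraMap k N (c.a i)) = c.n ∧ w.ord v = 1) ∧
      (∀ i, Q 0 = some (c.b i) → w.ord (x - algebraMap k N (c.b i)) = c.n ∧ w.ord v = -1) ∧
      ∀ w' : Place k N, SpO w' (some x) ((Q 0).map (algebraMap k (RF w'))) →
        SpO w' (some v) ((Q 1).map (algebraMap k (RF w'))) → w' = w := by
  have hn2 := hc.two
  have hn : (0 : ℤ) < c.n := by omega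
  have hnz : c.n ≠ 0 := by omega
  generalize hP : Q 0 = P at hQ ⊢
  generalize hR : Q 1 = R at hQ ⊢
  rcases P with _ | x₀
  · -- infinity
    rcases R with _ | v₀
    · exact hQ.elim
    · have hv : v₀ ^ c.n = 1 := hQ
      have hv₀ : v₀ ≠ 0 := by
        rintro rfl
        rw [zero_pow hnz] at hv
        exact zero_ne_one hv
      obtain ⟨w, h1, h2, h3, h4⟩ := C1_unram hc hζ h none v₀ hv₀ (by
        intro w hw
        have hx : Red w x⁻¹ 0 := LibCHd.red_zero_iff.2 (Or.inr hw)
        have hf : ∀ a : k, Red w (1 - algebraMap k N a * x⁻¹) 1 := by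
          intro a
          have := (LibCHd.red_one w).sub ((LibCHd.red_const w a).mul hx)
          rwa [mul_zero, sub_zero] at this
        have hprod : ∀ a : Fin 3 → k, Red w (∏ i, (1 - algebraMap k N (a i) * x⁻¹)) 1 := by
          intro a
          rw [Fin.prod_univ_three]
          have := ((hf (a 0)).mul (hf (a 1))).mul (hf (a 2))
          rwa [mul_one, mul_one] at this
        have h5 : v ^ c.n = (∏ i, (1 - algebraMap k N (c.a i) * x⁻¹)) /
            ∏ i, (1 - algebraMap k N (c.b i) * x⁻¹) := by
          have hx0 := C1_ne h.tr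
          have h6 : ∀ a : Fin 3 → k, ∏ i, (x - algebraMap k N (a i)) =
              x ^ 3 * ∏ i, (1 - algebraMap k N (a i) * x⁻¹) := by
            intro a
            rw [Fin.prod_univ_three, Fin.prod_univ_three]
            field_simp
          rw [C1_pow h, C1_phi, h6, h6, mul_div_mul_left _ _ (pow_ne_zero 3 hx0)]
        rw [h5, hv, map_one]
        have := (hprod c.a).div (hprod c.b) one_ne_zero
        rwa [div_one] at this)
      have h5 : w.ord x = -1 := by
        have : w.ord x⁻¹ = 1 := h1
        rw [w.ord_inv] at this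
        omega
      refine ⟨w, ⟨?_, ?_⟩, h3, ?_, ?_, ?_, ?_, ?_⟩
      · exact (C1_sp_iff h.tr w none).2 (by rw [h1]; exact one_pos)
      · exact h2
      · intro x₀ v₀ h6
        cases h6
      · intro _
        exact h5
      · intro i h6
        cases h6
      · intro i h6
        cases h6
      · intro w' h6 h7
        exact h4 w' ((C1_sp_iff h.tr w' none).1 h6) h7
  · rcases R with _ | v₀
    · -- poles of `v`
      obtain ⟨i, hi⟩ := hQ
      subst hi
      obtain ⟨w, h1, h2, h3⟩ := C1_one hc h (some (c.b i)) (by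
        intro w hw
        refine ⟨- w.ord v, ?_⟩
        have := C1_ord_b hc h (w := w) (i := i) hw
        show w.ord (x - algebraMap k N (c.b i)) = _
        linarith)
      have h1' : w.ord (x - algebraMap k N (c.b i)) = c.n := h1
      have hpos : 0 < w.ord (x - algebraMap k N (c.b i)) := by rw [h1']; exact hn
      have h4 := C1_ord_b hc h hpos
      have h5 : w.ord v = -1 := by
        rw [h1'] at h4
        have : (c.n : ℤ) * (w.ord v + 1) = 0 := by linarith
        rcases mul_eq_zero.1 this with h6 | h6 <;> omega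
      refine ⟨w, ⟨?_, ?_⟩, h2, ?_, ?_, ?_, ?_, ?_⟩
      · exact (C1_sp_iff h.tr w (some (c.b i))).2 hpos
      · show w.ord v < 0
        omega
      · intro x₀ v₀ _ h6
        cases h6
      · intro h6
        cases h6
      · intro j h6
        exact absurd (Option.some.inj h6).symm (C1_ab hc j i)
      · intro j h6
        rw [← Option.some.inj h6]
        exact ⟨h1', h5⟩
      · intro w' h6 _
        exact h3 w' ((C1_sp_iff h.tr w' (some (c.b i))).1 h6)
    · have hv : v₀ ^ c.n * ∏ i, (x₀ - c.b i) = ∏ i, (x₀ - c.a i) := hQ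
      by_cases hv₀ : v₀ = 0
      · -- zeros of `v`
        rw [hv₀, zero_pow hnz, zero_mul] at hv
        obtain ⟨i, -, hi⟩ := Finset.prod_eq_zero_iff.1 hv.symm
        have hi' := sub_eq_zero.1 hi
        subst hi'
        subst hv₀
        obtain ⟨w, h1, h2, h3⟩ := C1_one hc h (some (c.a i)) (by
          intro w hw
          refine ⟨w.ord v, ?_⟩
          exact (C1_ord_a hc h (w := w) (i := i) hw).symm)
        have h1' : w.ord (x - algebraMap k N (c.a i)) = c.n := h1
        have hpos : 0 < w.ord (x - algebraMap k N (c.a i)) := by rw [h1']; exact hn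
        have h4 := C1_ord_a hc h hpos
        have h5 : w.ord v = 1 := by
          rw [h1'] at h4
          have : (c.n : ℤ) * (w.ord v - 1) = 0 := by linarith
          rcases mul_eq_zero.1 this with h6 | h6 <;> omega
        refine ⟨w, ⟨?_, ?_⟩, h2, ?_, ?_, ?_, ?_, ?_⟩
        · exact (C1_sp_iff h.tr w (some (c.a i))).2 hpos
        · show Red w v (algebraMap k (RF w) 0)
          rw [map_zero]
          exact LibCHd.red_zero_iff.2 (Or.inr (by omega))
        · intro x₀ v₀ _ h6 h7
          exact absurd (Option.some.inj h6).symm h7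
        · intro h6
          cases h6
        · intro j h6
          rw [← Option.some.inj h6]
          exact ⟨h1', h5⟩
        · intro j h6
          exact absurd (Option.some.inj h6) (C1_ab hc i j)
        · intro w' h6 _
          exact h3 w' ((C1_sp_iff h.tr w' (some (c.a i))).1 h6)
      · have hb : ∀ i, x₀ ≠ c.b i := by
          intro i hi
          have hz : ∏ j, (c.b i - c.b j) = 0 := Finset.prod_eq_zero (Finset.mem_univ i) (sub_self _)
          rw [hi, hz, mul_zero] at hv
          obtain ⟨j, -, hj⟩ := Finset.prod_eq_zero_iff.1 hv.symm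
          exact C1_ab hc j i (sub_eq_zero.1 hj).symm
        have ha : ∀ i, x₀ ≠ c.a i := by
          intro i hi
          have hz : ∏ j, (c.a i - c.a j) = 0 := Finset.prod_eq_zero (Finset.mem_univ i) (sub_self _)
          rw [hi, hz] at hv
          rcases mul_eq_zero.1 hv with h6 | h6
          · exact hv₀ (pow_eq_zero_iff hnz |>.1 h6)
          · obtain ⟨j, -, hj⟩ := Finset.prod_eq_zero_iff.1 h6
            exact C1_ab hc i j (sub_eq_zero.1 hj)
        obtain ⟨w, h1, h2, h3, h4⟩ := C1_unram hc hζ h (some x₀) v₀ hv₀ (by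
          intro w hw
          have hx : Red w x (algebraMap k (RF w) x₀) := LibCHd.red_iff_val.2 (Or.inr hw)
          have hprod : ∀ a : Fin 3 → k, Red w (∏ i, (x - algebraMap k N (a i)))
              (algebraMap k (RF w) (∏ i, (x₀ - a i))) := by
            intro a
            rw [Fin.prod_univ_three, Fin.prod_univ_three, map_mul, map_mul, map_sub, map_sub, map_sub]
            exact ((hx.sub (LibCHd.red_const w _)).mul (hx.sub (LibCHd.red_const w _))).mul
              (hx.sub (LibCHd.red_const w _))
          have hB : ∏ i, (x₀ - c.b i) ≠ 0 := Finset.prod_ne_zero_iff.2 (fun i _ => sub_ne_zero.2 (hb i))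
          have h5 : v₀ ^ c.n = (∏ i, (x₀ - c.a i)) / ∏ i, (x₀ - c.b i) := by
            rw [eq_div_iff hB]
            exact hv
          rw [C1_pow h, C1_phi, h5, map_div₀]
          exact (hprod c.a).div (hprod c.b) ((_root_.map_ne_zero _).2 hB))
        refine ⟨w, ⟨?_, ?_⟩, h3, ?_, ?_, ?_, ?_, ?_⟩
        · exact (C1_sp_iff h.tr w (some x₀)).2 (by rw [h1]; exact one_pos)
        · exact h2
        · intro x₁ v₁ h6 _ _
          rw [← Option.some.inj h6]
          exact h1
        · intro h6
          cases h6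
        · intro j h6
          exact absurd (Option.some.inj h6) (ha j)
        · intro j h6
          exact absurd (Option.some.inj h6) (hb j)
        · intro w' h6 h7
          exact h4 w' ((C1_sp_iff h.tr w' (some x₀)).1 h6) h7

private theorem C1_onC_map {c : Dat k} {M : Type} [Field M] [Algebra k M] {p q : Option k}
    (h : OnC (c.over M) (p.map (algebraMap k M)) (q.map (algebraMap k M))) : OnC c p q := by
  have hinj := (algebraMap k M).injective
  rcases p with _ | x₀ <;> rcases q with _ | v₀
  · exact h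
  · have h1 : (algebraMap k M v₀) ^ c.n = 1 := h
    apply hinj
    rw [map_pow, map_one]
    exact h1
  · obtain ⟨i, hi⟩ := h
    exact ⟨i, hinj hi⟩
  · have h1 : (algebraMap k M v₀) ^ c.n * ∏ i, (algebraMap k M x₀ - algebraMap k M (c.b i)) =
      ∏ i, (algebraMap k M x₀ - algebraMap k M (c.a i)) := h
    show v₀ ^ c.n * ∏ i, (x₀ - c.b i) = ∏ i, (x₀ - c.a i)
    apply hinj
    simpa only [map_mul, map_pow, map_prod, map_sub] using h1

private theorem C1_opt_surj {A B : Type} {g : A → B} (hg : Function.Surjective g) (p : Option B) :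
    ∃ q : Option A, q.map g = p := by
  rcases p with _ | b
  · exact ⟨none, rfl⟩
  · obtain ⟨a, ha⟩ := hg b
    exact ⟨some a, by rw [Option.map_some, ha]⟩

/-- over an algebraically closed field every place is the place of a point -/
theorem place_pt [IsAlgClosed k] [CharZero k] {c : Dat k} (hc : c.Good) {N : Type} [Field N] [Algebra k N]
    {x v : N} (h : GenC c x v) (w : Place k N) :
    ∃ Q : Fin 2 → Option k, OnC c (Q 0) (Q 1) ∧ SpO w (some x) ((Q 0).map (algebraMap k (RF w))) ∧
      SpO w (some v) ((Q 1).map (algebraMap k (RF w))) := by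
  have hs := res_k (genC_funF hc h).1 w
  obtain ⟨p, hp⟩ := spO_exists w (some x)
  obtain ⟨q, hq⟩ := spO_exists w (some v)
  obtain ⟨p', hp'⟩ := C1_opt_surj hs p
  obtain ⟨q', hq'⟩ := C1_opt_surj hs q
  refine ⟨![p', q'], ?_, ?_, ?_⟩
  · have hon : On (c.over N) (fun _ => ![some x, some v] : Pnt 1 N) := fun _ => h.on
    have hsp : SpP w (fun _ => ![some x, some v] : Pnt 1 N) (fun _ => ![p, q] : Pnt 1 (RF w)) := by
      intro j i
      fin_cases i
      · exact hp
      · exact hq
    have h1 := on_sp hc hon hsp 0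
    have h2 : OnC (c.over (RF w)) p q := h1
    rw [← hp', ← hq'] at h2
    exact C1_onC_map h2
  · show SpO w (some x) (p'.map (algebraMap k (RF w)))
    rw [hp']
    exact hp
  · show SpO w (some v) (q'.map (algebraMap k (RF w)))
    rw [hq']
    exact hq

end Pool.Agent.LibCW77
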