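import Pool.Agent.LibCW77.Defs3
import Pool.Agent.LibCW77.C1
import Pool.Agent.LibHL77.A3
/-!
[CW77 C3] The surface `C × C`. `surf`: `N` = function field of `C` over `M = k(C)` (`genC_exists` over `M`), as an algebra over `k` through `M`. `surf_sym`: `N` is also the function field
of `C` over `M' = k(y, w)`: `IntermediateField.adjoin k {y, w}`, with the generic point `(x, v)` (as elements of `N`): `x` is transcendental over `k(y)` (algebraic independence of `x`, `y` over `k`, `MvPolynomial` / `Transcendental` over `adjoin`), so over
`M'` (algebraic over `k(y)`).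
-/

open scoped Classical
open Polynomial

namespace Pool.Agent.LibCW77

open Pool.Agent.LibBH2
open Pool.Agent.LibCHd (VR RF Red FunF)

variable {k : Type} [Field k]

private theorem C3_good {c : Dat k} (hc : c.Good) (M : Type) [Field M] [Algebra k M] : (c.over M).Good := by
  refine ⟨hc.two, ?_⟩
  have h1 : Sum.elim (c.over M).a (c.over M).b = algebraMap k M ∘ Sum.elim c.a c.b := by
    funext s
    cases s with
    | inl i => rfl
    | inr i => rfl
  rw [h1]
  exact (algebraMap k M).injective.comp hc.inj

private theorem C3_trdeg {M : Type} [Field M] [Algebra k M] {N : Type} [Field N] [Algebra k N]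
    [Algebra M N] [IsScalarTower k M N] (hM : FunF k 1 M) (hN : FunF M 1 N) : Algebra.trdeg k N = (2 : ℕ) := by
  have h1 := Pool.Agent.LibCHd.FunF.trdeg hM
  have h2 := Pool.Agent.LibCHd.FunF.trdeg hN
  have h3 : Algebra.trdeg k M + Algebra.trdeg M N = Algebra.trdeg k N := trdeg_add_eq k M
  rw [h1, h2] at h3
  rw [← h3]
  norm_num

/-- `N` is generated by the two points -/
private theorem C3_top {c : Dat k} {M : Type} [Field M] [Algebra k M] {x v : M} (h : GenC c x v)
    {N : Type} [Field N] [Algebra k N] [Algebra M N] [IsScalarTower k M N] {y w : N}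
    (h' : GenC (c.over M) y w) (L : IntermediateField k N) (hx : algebraMap M N x ∈ L)
    (hv : algebraMap M N v ∈ L) (hy : y ∈ L) (hw : w ∈ L) : L = ⊤ := by
  have h1 : ∀ m : M, algebraMap M N m ∈ L := by
    have h2 : IntermediateField.adjoin k {x, v} ≤ L.comap (IsScalarTower.toAlgHom k M N) := by
      rw [IntermediateField.adjoin_le_iff]
      rintro z (rfl | rfl)
      · exact hx
      · exact hv
    rw [h.gen] at h2
    intro m
    exact h2 (IntermediateField.mem_top (x := m))
  let L' : IntermediateField M N :=
    { L.toSubfield with algebraMap_mem' := h1 }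
  have h3 : IntermediateField.adjoin M {y, w} ≤ L' := by
    rw [IntermediateField.adjoin_le_iff]
    rintro z (rfl | rfl)
    · exact hy
    · exact hw
  rw [h'.gen] at h3
  rw [eq_top_iff]
  intro z _
  exact h3 (IntermediateField.mem_top (x := z))

theorem surf {c : Dat k} (hc : c.Good) {M : Type} [Field M] [Algebra k M] {x v : M} (h : GenC c x v) :
    ∃ (N : Type) (_ : Field N) (_ : Algebra k N) (_ : Algebra M N) (_ : IsScalarTower k M N) (y w : N),
      GenC (c.over M) y w ∧ FunF k 2 N := by
  have hc' := C3_good hc M
  obtain ⟨N, iF, iA, y, w, hG⟩ := genC_exists (k := M) hc'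
  let _ : Algebra k N := ((algebraMap M N).comp (algebraMap k M)).toAlgebra
  have _ : IsScalarTower k M N := IsScalarTower.of_algebraMap_eq fun _ => rfl
  have hM : FunF k 1 M := (genC_funF hc h).1
  have hN : FunF M 1 N := (genC_funF hc' hG).1
  refine ⟨N, iF, inferInstance, iA, inferInstance, y, w, hG, ?_⟩
  refine Pool.Agent.LibHL77.a3_funF {algebraMap M N x, algebraMap M N v, y, w} (fun L hL => ?_)
    (C3_trdeg hM hN)
  exact C3_top h hG L (hL _ (by simp)) (hL _ (by simp)) (hL _ (by simp)) (hL _ (by simp))

theorem surf_sym [CharZero k] {c : Dat k} (hc : c.Good) {M : Type} [Field M] [Algebra k M] {x v : M}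
    (h : GenC c x v) {N : Type} [Field N] [Algebra k N] [Algebra M N] [IsScalarTower k M N] {y w : N}
    (h' : GenC (c.over M) y w) :
    GenC (c.over (IntermediateField.adjoin k {y, w} : IntermediateField k N)) (algebraMap M N x)
      (algebraMap M N v) ∧
    GenC c (⟨y, IntermediateField.subset_adjoin k {y, w} (by simp)⟩ :
        (IntermediateField.adjoin k {y, w} : IntermediateField k N))
      (⟨w, IntermediateField.subset_adjoin k {y, w} (by simp)⟩ :
        (IntermediateField.adjoin k {y, w} : IntermediateField k N)) := by
  set K' : IntermediateField k N := IntermediateField.adjoin k {y, w} with hK'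
  have hyK : y ∈ K' := IntermediateField.subset_adjoin k {y, w} (by simp)
  have hwK : w ∈ K' := IntermediateField.subset_adjoin k {y, w} (by simp)
  have h2 : GenC c (⟨y, hyK⟩ : K') (⟨w, hwK⟩ : K') := by
    refine ⟨?_, ?_, ?_⟩
    · have h3 := h'.on
      simp only [OnC, Dat.map, Dat.over] at h3 ⊢
      apply Subtype.ext
      simp only [IntermediateField.coe_mul, IntermediateField.coe_pow, IntermediateField.coe_prod]
      have h5 : ∀ z : k, (((⟨y, hyK⟩ : K') - algebraMap k K' z : K') : N) =
          y - algebraMap M N (algebraMap k M z) := by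
        intro z
        rw [← IsScalarTower.algebraMap_apply k M N]
        rfl
      simp only [h5]
      exact h3
    · intro h3
      have h4 : IsAlgebraic k y := by
        have := h3.algebraMap (A := N)
        exact this
      exact h'.tr (h4.extendScalars (algebraMap k M).injective)
    · rw [eq_top_iff]
      intro z _
      have h3 : K' ≤ (IntermediateField.adjoin k {(⟨y, hyK⟩ : K'), (⟨w, hwK⟩ : K')}).map K'.val := by
        conv_lhs => rw [hK']
        rw [IntermediateField.adjoin_le_iff]
        rintro u (rfl | rfl)
        · exact ⟨⟨_, hyK⟩, IntermediateField.subset_adjoin _ _ (by simp), rfl⟩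
        · exact ⟨⟨_, hwK⟩, IntermediateField.subset_adjoin _ _ (by simp), rfl⟩
      obtain ⟨z', hz', e⟩ := h3 z.2
      have : z' = z := Subtype.ext e
      rw [← this]
      exact hz'
  refine ⟨⟨?_, ?_, ?_⟩, h2⟩
  · have h3 := h.on
    simp only [OnC, Dat.map, Dat.over] at h3 ⊢
    have h4 := congrArg (algebraMap M N) h3
    simp only [map_mul, map_pow, map_prod, map_sub] at h4
    simpa only [← IsScalarTower.algebraMap_apply] using h4
  · intro hx
    have hM : FunF k 1 M := (genC_funF hc h).1
    have hN : FunF M 1 N := (genC_funF (C3_good hc M) h').1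
    have hK1 : FunF k 1 K' := (genC_funF hc h2).1
    have t1 := C3_trdeg hM hN
    have t2 := Pool.Agent.LibCHd.FunF.trdeg hK1
    have t3 : Algebra.trdeg k K' + Algebra.trdeg K' N = Algebra.trdeg k N := trdeg_add_eq k K'
    have hA : ∀ a : k, IsAlgebraic K' (algebraMap M N x - algebraMap M N (algebraMap k M a)) := by
      intro a
      refine hx.sub ?_
      rw [← IsScalarTower.algebraMap_apply k M N, IsScalarTower.algebraMap_apply k K' N]
      exact isAlgebraic_algebraMap _
    have h4 := congrArg (algebraMap M N) h.on
    simp only [map_mul, map_pow, map_prod, map_sub] at h4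
    have h5 : ∏ i, (algebraMap M N x - algebraMap M N (algebraMap k M (c.b i))) ≠ 0 := by
      rw [Finset.prod_ne_zero_iff]
      intro i _ h6
      rw [← map_sub, map_eq_zero, sub_eq_zero] at h6
      apply h.tr
      rw [h6]
      exact isAlgebraic_algebraMap _
    have hprod : ∀ d : Fin 3 → k,
        IsAlgebraic K' (∏ i, (algebraMap M N x - algebraMap M N (algebraMap k M (d i)))) := by
      intro d
      have : (∏ i, (algebraMap M N x - algebraMap M N (algebraMap k M (d i)))) ∈ algebraicClosure K' N :=
        prod_mem fun i _ => mem_algebraicClosure_iff.2 (hA (d i))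
      exact mem_algebraicClosure_iff.1 this
    have hv : IsAlgebraic K' (algebraMap M N v) := by
      refine IsAlgebraic.of_pow (n := c.n) (by have := hc.two; omega) ?_
      have h6 : algebraMap M N v ^ c.n =
          (∏ i, (algebraMap M N x - algebraMap M N (algebraMap k M (c.a i)))) *
          (∏ i, (algebraMap M N x - algebraMap M N (algebraMap k M (c.b i))))⁻¹ :=
        (eq_mul_inv_iff_mul_eq₀ h5).2 h4
      rw [h6]
      exact (hprod c.a).mul (hprod c.b).inv
    have h6 := C3_top h h' ((algebraicClosure K' N).restrictScalars k)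
      (mem_algebraicClosure_iff.2 hx) (mem_algebraicClosure_iff.2 hv)
      ((algebraicClosure K' N).algebraMap_mem (⟨y, hyK⟩ : K'))
      ((algebraicClosure K' N).algebraMap_mem (⟨w, hwK⟩ : K'))
    have h7 : Algebra.IsAlgebraic K' N := by
      refine ⟨fun z => ?_⟩
      have h8 : z ∈ (algebraicClosure K' N).restrictScalars k := by
        rw [h6]
        exact IntermediateField.mem_top
      exact mem_algebraicClosure_iff.1 h8
    have t4 : Algebra.trdeg K' N = 0 := trdeg_eq_zero_iff.2 h7
    rw [t1, t2, t4] at t3
    norm_num at t3
  · have h3 := C3_top h h' ((IntermediateField.adjoin K' {algebraMap M N x, algebraMap M N v}).restrictScalars k)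
      (IntermediateField.subset_adjoin K' _ (by simp)) (IntermediateField.subset_adjoin K' _ (by simp))
      ((IntermediateField.adjoin K' _).algebraMap_mem (⟨y, hyK⟩ : K'))
      ((IntermediateField.adjoin K' _).algebraMap_mem (⟨w, hwK⟩ : K'))
    rw [eq_top_iff]
    intro z _
    have h4 : z ∈ (IntermediateField.adjoin K' {algebraMap M N x, algebraMap M N v}).restrictScalars k := by
      rw [h3]
      exact IntermediateField.mem_top
    exact h4

/-- a place of `N` over `k` which is trivial on `M` is a place over `M` -/
theorem place_up {M N : Type} [Field M] [Algebra k M] [Field N] [Algebra k N] [Algebra M N]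
    [IsScalarTower k M N] (v : Place k N) (h : ∀ x : M, v.ord (algebraMap M N x) = 0) :
    ∃ v' : Place M N, ∀ z, v'.ord z = v.ord z :=
  ⟨{ ord := v.ord
     ord_zero := v.ord_zero
     ord_mul := v.ord_mul
     ord_add := v.ord_add
     ord_const := fun c _ => h c
     exists_uniformizer := v.exists_uniformizer }, fun _ => rfl⟩

theorem place_down {M N : Type} [Field M] [Algebra k M] [Field N] [Algebra k N] [Algebra M N]
    [IsScalarTower k M N] (v' : Place M N) :
    ∃ v : Place k N, ∀ z, v'.ord z = v.ord z :=
  ⟨{ ord := v'.ord
     ord_zero := v'.ord_zero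
     ord_mul := v'.ord_mul
     ord_add := v'.ord_add
     ord_const := fun c hc => by
       rw [IsScalarTower.algebraMap_apply k M N]
       exact v'.ord_const _ ((map_ne_zero (algebraMap k M)).2 hc)
     exists_uniformizer := v'.exists_uniformizer }, fun _ => rfl⟩

end Pool.Agent.LibCW77
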