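import Pool.Agent.LibCW77.HDefs
import Pool.Agent.LibCW77.D2
import Pool.Agent.LibCW77.D3
import Pool.Agent.LibCW77.D4
import Pool.Agent.LibHL77.A1
import Pool.Agent.LibHL77.A2
import Pool.Agent.LibHL77.A4

/-!
[CW77 H1] Base change of points; ports of LibHL77/E0.lean, E2.lean to the points `Pnt m` (templates in /workdir/pool/Pool/Agent/LibHL77). `on_lft`: `i.comm`. `cyc_lft`: `mpP i'.f (mpP σ u) = mpP σ' (mpP i.f u)`, `cyc_map`. `exists_G`, `exists_B`: as in LibHL77/E2.lean with `exists_hom` (D3), `exists_he`, `he_map`, `he_nc`,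
`exists_be`, `be_map` (LibHL77 A1, A2, A3, A4; these files are about fields only and can be imported). `mor_fld`: `exists_min` (D2) and `nat`.
-/

open scoped Classical
open Polynomial

namespace Pool.Agent.LibCW77

open Pool.Agent.LibBH2
open Pool.Agent.LibCHd (VR RF Red FunF)
open Pool.Agent.LibHL77 (Lf tt EHom NC HE BE mult hypf)

variable {k L : Type} [Field k] [Field L] [Algebra k L] {M M' N N' : Type} [Field M] [Algebra k M] [Field M']
  [Algebra L M'] [Field N] [Algebra k N] [Field N'] [Algebra L N'] {m : ℕ}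

theorem on_lft {c : Dat k} (i : EHom k L M M') {u : Pnt m M} (hu : On (c.over M) u) :
    On ((c.over L).over M') (mpP i.f u) := by
  intro j
  have h := hu j
  have ha : ∀ l, ((c.over L).over M').a l = i.f ((c.over M).a l) := fun l => (i.comm (c.a l)).symm
  have hb : ∀ l, ((c.over L).over M').b l = i.f ((c.over M).b l) := fun l => (i.comm (c.b l)).symm
  have hn : ((c.over L).over M').n = (c.over M).n := rfl
  change OnC ((c.over L).over M') ((u j 0).map i.f) ((u j 1).map i.f)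
  revert h
  rcases u j 0 with _ | x <;> rcases u j 1 with _ | v <;> intro h
  · exact h
  · change v ^ (c.over M).n = 1 at h
    change (i.f v) ^ (c.over M).n = 1
    rw [← map_pow, h, map_one]
  · obtain ⟨l, hl⟩ := h
    exact ⟨l, by rw [hb, hl]⟩
  · change v ^ (c.over M).n * ∏ l, (x - (c.over M).b l) = ∏ l, (x - (c.over M).a l) at h
    change (i.f v) ^ (c.over M).n * ∏ l, (i.f x - ((c.over L).over M').b l) =
      ∏ l, (i.f x - ((c.over L).over M').a l)
    have h1 := congrArg i.f h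
    rw [map_mul, map_pow, map_prod, map_prod] at h1
    simp only [map_sub] at h1
    simp only [ha, hb]
    exact h1

theorem lft_comm (i : EHom k L M M') (i' : EHom k L N N') (σ : M →ₐ[k] N) (σ' : M' →ₐ[L] N')
    (h : ∀ m, σ' (i.f m) = i'.f (σ m)) (u : Pnt m M) : mpP i'.f (mpP σ u) = mpP σ' (mpP i.f u) := by
  funext j l
  change ((u j l).map σ).map i'.f = ((u j l).map i.f).map σ'
  rcases u j l with _ | x
  · rfl
  · exact congrArg some (h x).symm

theorem cyc_lft (i : EHom k L M M') (i' : EHom k L N N') (σ : M →ₐ[k] N) (σ' : M' →ₐ[L] N')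
    (h : ∀ m, σ' (i.f m) = i'.f (σ m))
    (h2 : Module.finrank σ'.fieldRange N' = Module.finrank σ.fieldRange N) (u : Pnt m M) :
    cyc L (mpP i'.f (mpP σ u)) = (Module.finrank σ.fieldRange N : ℤ) • cyc L (mpP i.f u) := by
  rw [lft_comm i i' σ σ' h, cyc_map σ' (mpP i.f u), h2]

theorem co_lft (i : EHom k L M M') (u : Pnt m M) (q : Fin m × Fin 2) : co (mpP i.f u) q = i.f (co u q) := by
  change ((u q.1 q.2).map i.f).getD 0 = i.f ((u q.1 q.2).getD 0)
  rcases u q.1 q.2 with _ | x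
  · exact (map_zero i.f).symm
  · rfl

theorem mor_fld {c : Dat k} (hc : c.Good) (φ : Mor c m) {M : Type} [Field M] [Algebra k M] (u : Pnt m M)
    (i : Fin 3) : φ.φ M u i ∈ fld k u := by
  obtain ⟨u₀, -, h⟩ := exists_min (k := k) u
  have h1 := φ.nat (fld k u) M (fld k u).val u₀ i
  rw [h] at h1
  rw [h1]
  exact (φ.φ (fld k u) u₀ i).2

private theorem H1_nc_map {M N : Type} [Field M] [Algebra k M] [Field N] [Algebra k N] (σ : M →ₐ[k] N)
    (φ : Fin 3 → M) : NC k (fun b => σ (φ b)) ↔ NC k φ := by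
  have h : ∀ a b, Transcendental k (σ (φ a) / σ (φ b)) ↔ Transcendental k (φ a / φ b) := by
    intro a b
    rw [← map_div₀]
    exact not_congr (isAlgebraic_algHom_iff σ σ.toRingHom.injective)
  constructor
  · rintro ⟨a, b, h1, h2⟩
    exact ⟨a, b, fun h3 => h1 (by simp only [h3, map_zero]), (h a b).1 h2⟩
  · rintro ⟨a, b, h1, h2⟩
    exact ⟨a, b, (map_ne_zero σ).2 h1, (h a b).2 h2⟩

private theorem H1_id_finrank (M : Type) [Field M] [Algebra k M] :
    Module.finrank (AlgHom.id k M).fieldRange M = 1 := by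
  have h1 : (AlgHom.id k M).fieldRange = ⊤ := by
    rw [eq_top_iff]
    intro x _
    exact ⟨x, rfl⟩
  rw [h1]
  exact IntermediateField.finrank_top

private theorem H1_mpP_id {M : Type} [Field M] [Algebra k M] (u : Pnt m M) :
    mpP (AlgHom.id k M) u = u := by
  funext j l
  change (u j l).map (AlgHom.id k M) = u j l
  rcases u j l with _ | x <;> rfl

theorem exists_G {c : Dat k} (hc : c.Good) (φ : Mor c m) (d : ℕ) : ∃ Γ : Cyc k m →+ Cyc (Lf k) m, IsG φ d Γ := by
  have key : ∀ (M : Type) [Field M] [Algebra k M] (u : Pnt m M), ∃ e : Cyc (Lf k) m,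
      (On (c.over M) u → ∀ (M' : Type) [Field M'] [Algebra (Lf k) M'] (i : EHom k (Lf k) M M'),
        HE i (φ.φ M u) → e = cyc (Lf k) (mpP i.f u)) ∧ (¬ NC k (φ.φ M u) → e = 0) := by
    intro M _ _ u
    by_cases hon : On (c.over M) u
    · by_cases h : NC k (φ.φ M u)
      · obtain ⟨M₀, _, _, i₀, h₀⟩ := Pool.Agent.LibHL77.exists_he M (φ.φ M u) h
        refine ⟨cyc (Lf k) (mpP i₀.f u), fun _ M' _ _ i hi => ?_, fun h' => absurd h h'⟩
        obtain ⟨σ', h1, h2⟩ :=
          Pool.Agent.LibHL77.he_map (i' := i) (φ.ne M u hon) h₀ (AlgHom.id k M) hi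
        have h3 := cyc_lft i₀ i (AlgHom.id k M) σ' h1 h2 u
        rw [H1_mpP_id, H1_id_finrank, Nat.cast_one, one_smul] at h3
        exact h3.symm
      · exact ⟨0, fun _ M' _ _ i hi =>
          absurd (Pool.Agent.LibHL77.he_nc hi (φ.ne M u hon)) h, fun _ => rfl⟩
    · exact ⟨0, fun h => absurd h hon, fun _ => rfl⟩
  let Ψ : ∀ (M : Type) [Field M] [Algebra k M], Pnt m M → Cyc (Lf k) m :=
    fun M _ _ u => (key M u).choose
  have hΨ : ∀ (M : Type) [Field M] [Algebra k M] (u : Pnt m M),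
      (On (c.over M) u → ∀ (M' : Type) [Field M'] [Algebra (Lf k) M'] (i : EHom k (Lf k) M M'),
        HE i (φ.φ M u) → Ψ M u = cyc (Lf k) (mpP i.f u)) ∧ (¬ NC k (φ.φ M u) → Ψ M u = 0) :=
    fun M _ _ u => (key M u).choose_spec
  obtain ⟨H, hH⟩ := exists_hom (m := m) c (d + 1) Ψ (by
    intro M N _ _ _ _ σ u _ hon _
    have hφ : φ.φ N (mpP σ u) = fun b => σ (φ.φ M u b) :=
      funext fun b => φ.nat M N σ u b
    have hon' : On (c.over N) (mpP σ u) := (on_map σ).2 hon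
    by_cases h : NC k (φ.φ M u)
    · have h' : NC k (φ.φ N (mpP σ u)) := by
        rw [hφ]
        exact (H1_nc_map σ _).2 h
      obtain ⟨M₀, _, _, i, hi⟩ := Pool.Agent.LibHL77.exists_he M (φ.φ M u) h
      obtain ⟨N₀, _, _, i', hi'⟩ := Pool.Agent.LibHL77.exists_he N (φ.φ N (mpP σ u)) h'
      rw [(hΨ M u).1 hon M₀ i hi, (hΨ N (mpP σ u)).1 hon' N₀ i' hi']
      rw [hφ] at hi'
      obtain ⟨σ', h1, h2⟩ := Pool.Agent.LibHL77.he_map (i' := i') (φ.ne M u hon) hi σ hi'
      exact cyc_lft i i' σ σ' h1 h2 u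
    · have h' : ¬ NC k (φ.φ N (mpP σ u)) := by
        rw [hφ]
        exact fun h1 => h ((H1_nc_map σ _).1 h1)
      rw [(hΨ M u).2 h, (hΨ N (mpP σ u)).2 h', smul_zero])
  refine ⟨H, fun M _ _ u hM hon => ⟨fun M' _ _ i hi => ?_, fun h => ?_⟩⟩
  · rw [hH M u hM hon]
    exact (hΨ M u).1 hon M' i hi
  · rw [hH M u hM hon]
    exact (hΨ M u).2 h

theorem exists_B (c : Dat k) (m d : ℕ) : ∃ B : Cyc k m →+ Cyc (Lf k) m, IsB c m d B := by
  have key : ∀ (M : Type) [Field M] [Algebra k M] (u : Pnt m M), ∃ e : Cyc (Lf k) m,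
      ∀ (M' : Type) [Field M'] [Algebra (Lf k) M'] (i : EHom k (Lf k) M M'),
        BE i → e = cyc (Lf k) (mpP i.f u) := by
    intro M _ _ u
    obtain ⟨M₀, _, _, i₀, h₀⟩ := Pool.Agent.LibHL77.exists_be (k := k) M
    refine ⟨cyc (Lf k) (mpP i₀.f u), fun M' _ _ i hi => ?_⟩
    obtain ⟨σ', h1, h2⟩ := Pool.Agent.LibHL77.be_map (i' := i) h₀ (AlgHom.id k M) hi
    have h3 := cyc_lft i₀ i (AlgHom.id k M) σ' h1 h2 u
    rw [H1_mpP_id, H1_id_finrank, Nat.cast_one, one_smul] at h3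
    exact h3.symm
  let Ψ : ∀ (M : Type) [Field M] [Algebra k M], Pnt m M → Cyc (Lf k) m :=
    fun M _ _ u => (key M u).choose
  have hΨ : ∀ (M : Type) [Field M] [Algebra k M] (u : Pnt m M) (M' : Type) [Field M']
      [Algebra (Lf k) M'] (i : EHom k (Lf k) M M'), BE i → Ψ M u = cyc (Lf k) (mpP i.f u) :=
    fun M _ _ u => (key M u).choose_spec
  obtain ⟨H, hH⟩ := exists_hom (m := m) c d Ψ (by
    intro M N _ _ _ _ σ u _ _ _
    obtain ⟨M₀, _, _, i, hi⟩ := Pool.Agent.LibHL77.exists_be (k := k) M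
    obtain ⟨N₀, _, _, i', hi'⟩ := Pool.Agent.LibHL77.exists_be (k := k) N
    rw [hΨ M u M₀ i hi, hΨ N (mpP σ u) N₀ i' hi']
    obtain ⟨σ', h1, h2⟩ := Pool.Agent.LibHL77.be_map (i' := i') hi σ hi'
    exact cyc_lft i i' σ σ' h1 h2 u)
  refine ⟨H, fun M _ _ u hM hon M' _ _ i hi => ?_⟩
  rw [hH M u hM hon]
  exact hΨ M u M' i hi

end Pool.Agent.LibCW77
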