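import Pool.Agent.LibCW77.HDefs
import Pool.Agent.LibCW77.H1
import Pool.Agent.LibCW77.D1
import Pool.Agent.LibHL77.B2

/-!
[CW77 H2] Places and base change; ports of the last statements of LibHL77/B1.lean (`SpR_lft`, `SpR_lft_triv`) and of `gauss_he`, `gauss_he_unique` in LibHL77/B2.lean (with their private lemmas; those without points, `exists_restr`, `exists_resHom`, `exists_trivHom`, `gauss_exists`, `gauss_char`, `he_free`, ... are imported).
-/

open scoped Classical
open Polynomial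

namespace Pool.Agent.LibCW77

open Pool.Agent.LibBH2
open Pool.Agent.LibCHd (VR RF Red FunF)
open Pool.Agent.LibHL77 (Lf tt EHom NC HE BE mult hypf exists_he he_free gauss_exists gauss_char)
open Pool.Agent.LibCHd (red_zero red_const)

section

variable {k L : Type} [Field k] [Field L] [Algebra k L] {K K' : Type} [Field K] [Algebra k K] [Field K']
  [Algebra L K'] {m : ℕ}

theorem spP_lft (i : EHom k L K K') (v : Place k K) (w : Place L K') (e : ℤ) (he : 0 < e)
    (h : ∀ x, w.ord (i.f x) = e * v.ord x) (j : EHom k L (RF v) (RF w))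
    (hj : ∀ x c, Red v x c → Red w (i.f x) (j.f c)) {u : Pnt m K} {q : Pnt m (RF v)} (hq : SpP v u q) :
    SpP w (mpP i.f u) (mpP j.f q) := by
  intro a b
  have h0 : SpO v (u a b) (q a b) := hq a b
  change SpO w ((u a b).map i.f) ((q a b).map j.f)
  rcases hx : u a b with _ | x
  · rw [hx] at h0
    have h1 : q a b = none := h0
    rw [h1]
    rfl
  · rw [hx] at h0
    rcases hy : q a b with _ | x₀
    · rw [hy] at h0
      have h1 : v.ord x < 0 := h0
      change w.ord (i.f x) < 0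
      rw [h]
      exact mul_neg_of_pos_of_neg he h1
    · rw [hy] at h0
      exact hj _ _ h0

theorem spP_lft_triv (i : EHom k L K K') (w : Place L K') (j : EHom k L K (RF w))
    (hj : ∀ x, Red w (i.f x) (j.f x)) (u : Pnt m K) : SpP w (mpP i.f u) (mpP j.f u) := by
  intro a b
  change SpO w ((u a b).map i.f) ((u a b).map j.f)
  rcases hx : u a b with _ | x
  · rfl
  · exact hj x

end

variable {k : Type} [Field k] {m : ℕ} {c : Dat k} {K K' : Type} [Field K] [Algebra k K] [Field K']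
  [Algebra (Lf k) K'] {i : EHom k (Lf k) K K'}

theorem gauss_he (hc : c.Good) (φ : Mor c m) (u : Pnt m K) (hu : On (c.over K) u) (hi : HE i (φ.φ K u)) (v : Place k K)
    (q : Pnt m (RF v)) (hq : SpP v u q) (hnc : NC k (φ.φ (RF v) q)) :
    ∃ (w : Place (Lf k) K') (j : EHom k (Lf k) (RF v) (RF w)), (∀ x, w.ord (i.f x) = v.ord x) ∧
      (∀ x c, Red v x c → Red w (i.f x) (j.f c)) ∧ HE j (φ.φ (RF v) q) := by
  obtain ⟨l, hl⟩ := φ.sp K v u q hu hq
  obtain ⟨b, hb⟩ := φ.ne (RF v) q (on_sp hc hu hq)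
  obtain ⟨Q', _, _, iq, hQ'⟩ := exists_he (RF v) (φ.φ (RF v) q) hnc
  obtain ⟨a, a', haa, hq1, htrq, hrelq, -⟩ := he_free hQ' ⟨b, hb⟩
  have hu1 : φ.φ K u a'.succ ≠ 0 := by
    intro h0
    have h5 := hl a'.succ
    rw [h0, mul_zero] at h5
    exact hq1 (h5.unique (red_zero v))
  have hl0 : l ≠ 0 := by
    rintro rfl
    have h5 := hl a'.succ
    rw [zero_mul] at h5
    exact hq1 (h5.unique (red_zero v))
  obtain ⟨hK1, hK2⟩ := Pool.Agent.LibHL77.B2_free hi haa hu1
  have hrelu := Pool.Agent.LibHL77.B2_solve hi haa hu1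
  let algK' : Algebra k K' := ((algebraMap (Lf k) K').comp (algebraMap k (Lf k))).toAlgebra
  let iK : K →ₐ[k] K' := { i.f with commutes' := fun c => i.comm c }
  let T : Fin 2 → K' := fun c => algebraMap (Lf k) K' (tt k c)
  obtain ⟨w0, j0, t, g1, g2, g3, g4, g5⟩ := gauss_exists iK (T a) hK1 hK2 v
  let J : RF v →+* RF w0 := (j0 : RF v →+* RF w0)
  have hiu : ∀ b : Fin 3, Red w0 (i.f (l * φ.φ K u b)) (J (φ.φ (RF v) q b)) := fun b =>
    g2 _ _ (hl b)
  have hJ1 : J (φ.φ (RF v) q a'.succ) ≠ 0 := by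
    rw [Ne, map_eq_zero]
    exact hq1
  -- the residues of the variables
  let tf : Fin 2 → RF w0 := fun c => if c = a then t else
    -(J (φ.φ (RF v) q 0) + t * J (φ.φ (RF v) q a.succ)) / J (φ.φ (RF v) q a'.succ)
  have htfa : tf a = t := if_pos rfl
  have htfa' : tf a' = -(J (φ.φ (RF v) q 0) + tf a * J (φ.φ (RF v) q a.succ)) /
      J (φ.φ (RF v) q a'.succ) := by
    rw [htfa]
    exact if_neg (Ne.symm haa)
  have hTf : ∀ c, Red w0 (T c) (tf c) := by
    intro c
    by_cases hc : c = a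
    · rw [hc, htfa]
      exact g3
    · have hc' : c = a' := Pool.Agent.LibHL77.B2_fin2'' a a' c haa hc
      rw [hc', htfa', htfa]
      have e1 : T a' = -(i.f (l * φ.φ K u 0) + T a * i.f (l * φ.φ K u a.succ)) /
          i.f (l * φ.φ K u a'.succ) := by
        have h6 : i.f l ≠ 0 := by
          rw [Ne, map_eq_zero]
          exact hl0
        have h7 : i.f (φ.φ K u a'.succ) ≠ 0 := by
          rw [Ne, map_eq_zero]
          exact hu1
        change algebraMap (Lf k) K' (tt k a') = _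
        rw [hrelu, map_mul, map_mul, map_mul]
        change _ = -(i.f l * i.f (φ.φ K u 0) + algebraMap (Lf k) K' (tt k a) *
          (i.f l * i.f (φ.φ K u a.succ))) / (i.f l * i.f (φ.φ K u a'.succ))
        field_simp
      rw [e1]
      exact ((hiu 0).add (g3.mul (hiu a.succ))).neg.div (hiu a'.succ) hJ1
  -- independence
  have hJc : J.comp (algebraMap k (RF v)) = algebraMap k (RF w0) := by
    ext c
    exact j0.commutes c
  have hind : ∀ G : MvPolynomial (Fin 2) k, G ≠ 0 → G.eval₂ (algebraMap k (RF w0)) tf ≠ 0 := by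
    intro G hG
    have hR : MvPolynomial.aeval (R := k) (Pool.Agent.LibHL77.B2_sub (φ.φ (RF v) q) a a') G ≠ 0 := by
      intro h0
      have h6 := Pool.Agent.LibHL77.B2_aeval_sub (k := k) iq.f (φ.φ (RF v) q) haa
        (fun c => algebraMap (Lf k) Q' (tt k c)) hrelq G
      rw [h0, Polynomial.eval₂_zero] at h6
      have h7 := Pool.Agent.LibHL77.B2_alg_eval (k := k) (M' := Q') G
      have h8 : iq.f.comp (algebraMap k (RF v)) =
          (algebraMap (Lf k) Q').comp (algebraMap k (Lf k)) := RingHom.ext iq.comm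
      rw [← h8, ← h6, map_eq_zero] at h7
      exact hG ((IsFractionRing.injective (MvPolynomial (Fin 2) k) (Lf k))
        (by rw [h7, map_zero]))
    have h9 := Pool.Agent.LibHL77.B2_aeval_sub (k := k) J (φ.φ (RF v) q) haa tf htfa' G
    rw [hJc] at h9
    rw [← h9, htfa]
    exact g4 _ hR
  have hord : ∀ G : MvPolynomial (Fin 2) k, G ≠ 0 →
      algebraMap (Lf k) K' (algebraMap (MvPolynomial (Fin 2) k) (Lf k) G) ≠ 0 ∧
      w0.ord (algebraMap (Lf k) K' (algebraMap (MvPolynomial (Fin 2) k) (Lf k) G)) = 0 := by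
    intro G hG
    have h6 := Pool.Agent.LibHL77.B2_red_eval w0 T tf hTf G
    have h7 : G.eval₂ (algebraMap k K') T =
        algebraMap (Lf k) K' (algebraMap (MvPolynomial (Fin 2) k) (Lf k) G) :=
      (Pool.Agent.LibHL77.B2_alg_eval (k := k) (M' := K') G).symm
    rw [h7] at h6
    exact ⟨h6.ne_zero (hind G hG), h6.ord_eq_zero (hind G hG)⟩
  let w : Place (Lf k) K' :=
    { ord := w0.ord
      ord_zero := w0.ord_zero
      ord_mul := w0.ord_mul
      ord_add := w0.ord_add
      ord_const := by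
        intro c hc
        obtain ⟨G, H, hH, rfl⟩ := IsFractionRing.div_surjective (A := MvPolynomial (Fin 2) k) c
        have hH0 : H ≠ 0 := nonZeroDivisors.ne_zero hH
        have hG0 : G ≠ 0 := by
          rintro rfl
          simp at hc
        rw [map_div₀, w0.ord_div _ _ (hord G hG0).1 (hord H hH0).1, (hord G hG0).2,
          (hord H hH0).2, sub_zero]
      exists_uniformizer := w0.exists_uniformizer }
  have hR : ∀ (x : K') (c : RF w0), Red w0 x c → Red w x c := fun x c h => h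
  let jj : EHom k (Lf k) (RF v) (RF w) :=
    { f := J
      comm := by
        intro c
        have h6 : Red w (i.f (algebraMap k K c)) (J (algebraMap k (RF v) c)) :=
          hR _ _ (g2 _ _ (red_const v c))
        rw [i.comm] at h6
        exact h6.unique (red_const w _) }
  have hTT : ∀ c, algebraMap (Lf k) (RF w) (tt k c) = tf c := fun c =>
    (red_const w (tt k c)).unique (hR _ _ (hTf c))
  refine ⟨w, jj, g1, fun x c h => hR _ _ (g2 x c h), ?_, ?_, ?_⟩
  · have h6 := hi.rel
    have h7 : i.f (l * φ.φ K u 0) + T 0 * i.f (l * φ.φ K u 1) + T 1 * i.f (l * φ.φ K u 2) = 0 := by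
      rw [map_mul, map_mul, map_mul]
      change i.f l * i.f (φ.φ K u 0) + algebraMap (Lf k) K' (tt k 0) * (i.f l * i.f (φ.φ K u 1)) +
        algebraMap (Lf k) K' (tt k 1) * (i.f l * i.f (φ.φ K u 2)) = 0
      linear_combination i.f l * h6
    have h8 := ((hiu 0).add ((hTf 0).mul (hiu 1))).add ((hTf 1).mul (hiu 2))
    rw [h7] at h8
    have h9 := h8.unique (red_zero w0)
    rw [hTT, hTT]
    exact h9
  · rw [eq_top_iff]
    rintro z -
    obtain ⟨P, Q, hQ, hz⟩ := g5 z
    have hmem : ∀ P : (RF v)[X], P.eval₂ jj.f (algebraMap (Lf k) (RF w) (tt k a)) ∈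
        IntermediateField.adjoin (Lf k) (Set.range jj.f) := by
      intro P
      rw [Polynomial.eval₂_eq_sum_range]
      refine sum_mem fun m _ => mul_mem ?_ (pow_mem ?_ m)
      · exact IntermediateField.subset_adjoin _ _ ⟨_, rfl⟩
      · exact IntermediateField.algebraMap_mem _ _
    have h7 : z = P.eval₂ jj.f (algebraMap (Lf k) (RF w) (tt k a)) /
        Q.eval₂ jj.f (algebraMap (Lf k) (RF w) (tt k a)) := by
      rw [hTT a, htfa]
      exact hz
    rw [h7]
    exact div_mem (hmem P) (hmem Q)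
  · refine ⟨a, fun G hG => ?_⟩
    rw [hTT a, htfa]
    exact g4 G hG

theorem gauss_he_unique (hc : c.Good) (φ : Mor c m) (u : Pnt m K) (hu : On (c.over K) u) (hi : HE i (φ.φ K u))
    (v : Place k K) (q : Pnt m (RF v)) (hq : SpP v u q) (w w' : Place (Lf k) K')
    (j : EHom k (Lf k) (RF v) (RF w)) (j' : EHom k (Lf k) (RF v) (RF w'))
    (h1 : ∀ x, w.ord (i.f x) = v.ord x) (h2 : ∀ x c, Red v x c → Red w (i.f x) (j.f c))
    (h3 : HE j (φ.φ (RF v) q)) (h1' : ∀ x, w'.ord (i.f x) = v.ord x)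
    (h2' : ∀ x c, Red v x c → Red w' (i.f x) (j'.f c)) (h3' : HE j' (φ.φ (RF v) q)) : w = w' := by
  obtain ⟨b, hb⟩ := φ.ne (RF v) q (on_sp hc hu hq)
  obtain ⟨a, a', haa, hq1, htr, -, -⟩ := he_free h3 ⟨b, hb⟩
  obtain ⟨l, hl⟩ := φ.sp K v u q hu hq
  have hu1 : φ.φ K u a'.succ ≠ 0 := by
    intro h0
    have h5 := hl a'.succ
    rw [h0, mul_zero] at h5
    exact hq1 (h5.unique (red_zero v))
  obtain ⟨hK1, hK2⟩ := Pool.Agent.LibHL77.B2_free hi haa hu1
  obtain ⟨htr', -⟩ := Pool.Agent.LibHL77.B2_free h3' haa hq1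
  obtain ⟨-, ho, -⟩ := gauss_char i _ hK2 v w 1 one_pos (fun x => by rw [h1, one_mul]) j h2 _
    (red_const w (tt k a)) htr
  obtain ⟨-, ho', -⟩ := gauss_char i _ hK2 v w' 1 one_pos (fun x => by rw [h1', one_mul]) j' h2' _
    (red_const w' (tt k a)) htr'
  apply Place.ext'
  intro f
  obtain ⟨P, Q, hQ, rfl⟩ := hK2 f
  by_cases hP : P = 0
  · rw [hP, Polynomial.eval₂_zero, zero_div, w.ord_zero, w'.ord_zero]
  rw [w.ord_div _ _ (ho P hP).1 (ho Q hQ).1, w'.ord_div _ _ (ho P hP).1 (ho Q hQ).1,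
    (ho P hP).2, (ho Q hQ).2, (ho' P hP).2, (ho' Q hQ).2]

end Pool.Agent.LibCW77
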