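import Pool.Agent.LibCW77.HDefs
import Pool.Agent.LibCW77.H1
import Pool.Agent.LibCW77.H2
import Pool.Agent.LibCW77.D1
import Pool.Agent.LibHL77.B5
import Pool.Agent.LibHL77.B6

/-!
[CW77 H5] Ports of `be_places` (LibHL77/B5.lean) and `hyp_places` (LibHL77/B6.lean) with the private lemmas which are needed (`hyp_place`, `hyp_unique`, `gauss_be`, `ord_hyp` are about fields only and can be imported).
-/

open scoped Classical
open Polynomial

namespace Pool.Agent.LibCW77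

open Pool.Agent.LibBH2
open Pool.Agent.LibCHd (VR RF Red FunF)
open Pool.Agent.LibHL77 (Lf tt EHom NC HE BE mult hypf)
open Pool.Agent.LibHL77 (exists_restr exists_resHom exists_trivHom B5_key B5_trdeg B5_char B5_gen B5_funF)
open Pool.Agent.LibCHd (red_const)

section rat

variable {A B : Type} [Field A] [Field B]

/-- the subfield of the quotients `P(T) / Q(T)` -/
private def H5_rat (f : A →+* B) (T : B) : Subfield B where
  carrier := {z | ∃ P Q : A[X], Q.eval₂ f T ≠ 0 ∧ z = P.eval₂ f T / Q.eval₂ f T}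
  mul_mem' := by
    rintro _ _ ⟨P, Q, hQ, rfl⟩ ⟨P', Q', hQ', rfl⟩
    refine ⟨P * P', Q * Q', ?_, ?_⟩
    · rw [eval₂_mul]; exact mul_ne_zero hQ hQ'
    · rw [eval₂_mul, eval₂_mul, div_mul_div_comm]
  one_mem' := ⟨1, 1, by simp, by simp⟩
  add_mem' := by
    rintro _ _ ⟨P, Q, hQ, rfl⟩ ⟨P', Q', hQ', rfl⟩
    refine ⟨P * Q' + Q * P', Q * Q', ?_, ?_⟩
    · rw [eval₂_mul]; exact mul_ne_zero hQ hQ'
    · rw [eval₂_add, eval₂_mul, eval₂_mul, eval₂_mul, div_add_div _ _ hQ hQ']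
  zero_mem' := ⟨0, 1, by simp, by simp⟩
  neg_mem' := by
    rintro _ ⟨P, Q, hQ, rfl⟩
    exact ⟨-P, Q, hQ, by rw [eval₂_neg, neg_div]⟩
  inv_mem' := by
    rintro _ ⟨P, Q, hQ, rfl⟩
    by_cases hP : P.eval₂ f T = 0
    · exact ⟨0, 1, by simp, by simp [hP]⟩
    · exact ⟨Q, P, hP, by rw [inv_div]⟩

private theorem H5_rat_C (f : A →+* B) (T : B) (a : A) : f a ∈ H5_rat f T :=
  ⟨C a, 1, by simp, by simp⟩

private theorem H5_rat_X (f : A →+* B) (T : B) : T ∈ H5_rat f T :=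
  ⟨X, 1, by simp, by simp⟩

end rat

section lf

variable {k : Type} [Field k] {B : Type} [Field B] [Algebra (Lf k) B]

private theorem H5_Lf_mem (S : Subfield B)
    (h1 : ∀ c : k, algebraMap (Lf k) B (algebraMap k (Lf k) c) ∈ S)
    (h2 : ∀ a, algebraMap (Lf k) B (tt k a) ∈ S) (z : Lf k) : algebraMap (Lf k) B z ∈ S := by
  have h3 : ∀ p : MvPolynomial (Fin 2) k,
      algebraMap (Lf k) B (algebraMap (MvPolynomial (Fin 2) k) (Lf k) p) ∈ S := by
    intro p
    induction p using MvPolynomial.induction_on with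
    | C a =>
      have h4 : algebraMap (MvPolynomial (Fin 2) k) (Lf k) (MvPolynomial.C a) =
          algebraMap k (Lf k) a := by
        rw [← MvPolynomial.algebraMap_eq, ← IsScalarTower.algebraMap_apply]
      rw [h4]; exact h1 a
    | add p q hp hq => rw [map_add, map_add]; exact add_mem hp hq
    | mul_X p i hp => rw [map_mul, map_mul]; exact mul_mem hp (h2 i)
  obtain ⟨p, q, hq, rfl⟩ := IsFractionRing.div_surjective (A := MvPolynomial (Fin 2) k) z
  rw [map_div₀]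
  exact div_mem (h3 p) (h3 q)

private theorem H5_adj_mem (S : Subfield B) (h : ∀ z : Lf k, algebraMap (Lf k) B z ∈ S)
    (R : Set B) (hR : ∀ z ∈ R, z ∈ S) (z : B) (hz : z ∈ IntermediateField.adjoin (Lf k) R) :
    z ∈ S := by
  have h1 : IntermediateField.adjoin (Lf k) R ≤ S.toIntermediateField h := by
    rw [IntermediateField.adjoin_le_iff]
    exact hR
  exact h1 hz

private theorem H5_trdeg_Lf : Algebra.trdeg k (Lf k) = 2 := by
  have h0 : Algebra.IsAlgebraic (MvPolynomial (Fin 2) k) (Lf k) :=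
    IsLocalization.isAlgebraic _ (nonZeroDivisors (MvPolynomial (Fin 2) k))
  have h1 := trdeg_add_eq k (MvPolynomial (Fin 2) k) (A := Lf k)
  rw [MvPolynomial.trdeg_of_isDomain, trdeg_eq_zero (R := MvPolynomial (Fin 2) k) (A := Lf k),
    add_zero] at h1
  rw [← h1]
  simp

private theorem H5_trdeg_two [Algebra k B] [IsScalarTower k (Lf k) B] {d : ℕ}
    (h : FunF (Lf k) d B) : Algebra.trdeg k B = (d + 2 : ℕ) := by
  rw [← trdeg_add_eq k (Lf k) (A := B), h.trdeg, H5_trdeg_Lf]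
  push_cast
  rw [add_comm]

end lf

private theorem H5_int {L₁ L₂ B : Type} [Field L₁] [Field L₂] [Field B] [Algebra L₁ B]
    [Algebra L₂ B] (E₁ : IntermediateField L₁ B) (E₂ : IntermediateField L₂ B)
    (h : ∀ z ∈ E₁, z ∈ E₂) (z : B) (hz : IsIntegral E₁ z) : IsIntegral E₂ z := by
  let φ : E₁ →+* E₂ :=
    { toFun := fun x => ⟨x, h x x.2⟩
      map_one' := rfl
      map_mul' := fun _ _ => rfl
      map_zero' := rfl
      map_add' := fun _ _ => rfl }
  exact hz.map_of_comp_eq φ (RingHom.id B) (by ext x; rfl)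

/-- `T_b` from the relation -/
private theorem H5_solve {k : Type} [Field k] {κ κ' : Type} [Field κ] [Algebra k κ]
    [Field κ'] [Algebra (Lf k) κ'] (j : EHom k (Lf k) κ κ') (ψ : Fin 3 → κ)
    (hrel : j.f (ψ 0) + algebraMap (Lf k) κ' (tt k 0) * j.f (ψ 1) +
      algebraMap (Lf k) κ' (tt k 1) * j.f (ψ 2) = 0) {a b : Fin 2} (hab : a ≠ b)
    (hb : ψ b.succ ≠ 0) (S : Subfield κ') (hS : ∀ i, j.f (ψ i) ∈ S)
    (ha : algebraMap (Lf k) κ' (tt k a) ∈ S) : algebraMap (Lf k) κ' (tt k b) ∈ S := by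
  have hb' : j.f (ψ b.succ) ≠ 0 := (map_ne_zero j.f).2 hb
  have h1 : algebraMap (Lf k) κ' (tt k b) = - (j.f (ψ 0) + algebraMap (Lf k) κ' (tt k a) *
      j.f (ψ a.succ)) / j.f (ψ b.succ) := by
    rw [eq_div_iff hb']
    fin_cases a <;> fin_cases b
    · exact absurd rfl hab
    · simp only [Fin.zero_eta, Fin.mk_one, Fin.succ_zero_eq_one, Fin.succ_one_eq_two] at *
      linear_combination hrel
    · simp only [Fin.zero_eta, Fin.mk_one, Fin.succ_zero_eq_one, Fin.succ_one_eq_two] at *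
      linear_combination hrel
    · exact absurd rfl hab
  rw [h1]
  exact div_mem (neg_mem (add_mem (hS 0) (mul_mem ha (hS _)))) (hS _)

private theorem H5_other {k : Type} [Field k] {κ κ' : Type} [Field κ] [Algebra k κ]
    [Field κ'] [Algebra (Lf k) κ'] (j : EHom k (Lf k) κ κ') (ψ : Fin 3 → κ)
    (hψ : ∃ i, ψ i ≠ 0)
    (hrel : j.f (ψ 0) + algebraMap (Lf k) κ' (tt k 0) * j.f (ψ 1) +
      algebraMap (Lf k) κ' (tt k 1) * j.f (ψ 2) = 0) (a : Fin 2)
    (ha : ∀ G : κ[X], G ≠ 0 → G.eval₂ j.f (algebraMap (Lf k) κ' (tt k a)) ≠ 0) :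
    ∃ b, a ≠ b ∧ ψ b.succ ≠ 0 := by
  have key : ∀ x : κ, j.f (ψ 0) + algebraMap (Lf k) κ' (tt k a) * j.f x = 0 →
      ψ 0 = 0 ∧ x = 0 := by
    intro x hx
    have h1 : (C (ψ 0) + X * C x : κ[X]) = 0 := by
      by_contra hne
      apply ha _ hne
      rw [eval₂_add, eval₂_mul, eval₂_X, eval₂_C, eval₂_C]
      exact hx
    have h2 := congrArg (fun G => G.coeff 0) h1
    have h3 := congrArg (fun G => G.coeff 1) h1
    simp at h2 h3
    exact ⟨h2, h3⟩
  fin_cases a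
  · refine ⟨1, by decide, fun h => ?_⟩
    have h' : ψ 2 = 0 := h
    rw [h', map_zero, mul_zero, add_zero] at hrel
    obtain ⟨h1, h2⟩ := key _ hrel
    obtain ⟨i, hi⟩ := hψ
    fin_cases i
    · exact hi h1
    · exact hi h2
    · exact hi h'
  · refine ⟨0, by decide, fun h => ?_⟩
    have h' : ψ 1 = 0 := h
    rw [h', map_zero, mul_zero, add_zero] at hrel
    obtain ⟨h1, h2⟩ := key _ hrel
    obtain ⟨i, hi⟩ := hψ
    fin_cases i
    · exact hi h1
    · exact hi h'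
    · exact hi h2

private theorem H5_third {a b c : Fin 2} (h : a ≠ b) (h' : ¬ c = a) : c = b := by
  fin_cases a <;> fin_cases b <;> fin_cases c <;> first | rfl | exact absurd rfl h | exact absurd rfl h'

section ordc

variable {L A B : Type} [Field L] [Field A] [Field B] [Algebra L B]

private theorem H5_regf (f : A →+* B) (w : Place L B) (h0 : ∀ x, w.ord (f x) = 0) (x : A) :
    w.Reg (f x) := Or.inr (le_of_eq (h0 x).symm)

private theorem H5_regT (f : A →+* B) (T : B) (c : A) (w : Place L B)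
    (h0 : ∀ x, w.ord (f x) = 0) (hc : 0 < w.ord (T - f c)) : w.Reg T := by
  have h1 : w.Reg (T - f c) := Or.inr hc.le
  have h2 := h1.add (H5_regf f w h0 c)
  rwa [sub_add_cancel] at h2

private theorem H5_regP (f : A →+* B) (T : B) (c : A) (w : Place L B)
    (h0 : ∀ x, w.ord (f x) = 0) (hc : 0 < w.ord (T - f c)) (P : A[X]) : w.Reg (P.eval₂ f T) := by
  induction P using Polynomial.induction_on' with
  | add p q hp hq => rw [eval₂_add]; exact hp.add hq
  | monomial n a =>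
    rw [eval₂_monomial]
    exact (H5_regf f w h0 a).mul ((H5_regT f T c w h0 hc).pow n)

/-- the value of a polynomial -/
private theorem H5_valP (f : A →+* B) (T : B) (c : A) (w : Place L B)
    (h0 : ∀ x, w.ord (f x) = 0) (hc : 0 < w.ord (T - f c)) (P : A[X]) :
    w.Zer (P.eval₂ f T - f (P.eval c)) := by
  obtain ⟨R, hR⟩ := X_sub_C_dvd_sub_C_eval (p := P) (a := c)
  have h1 := congrArg (fun G => G.eval₂ f T) hR
  simp only [eval₂_sub, eval₂_mul, eval₂_X, eval₂_C] at h1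
  rw [h1]
  exact Place.Zer.mul_reg (Or.inr hc) (H5_regP f T c w h0 hc R)

private theorem H5_notZer (f : A →+* B) (T : B) (c : A) (w : Place L B)
    (h0 : ∀ x, w.ord (f x) = 0) (hc : 0 < w.ord (T - f c)) (P : A[X]) (hP : P.eval c ≠ 0) :
    ¬ w.Zer (P.eval₂ f T) := by
  intro h
  have h1 := h.sub (H5_valP f T c w h0 hc P)
  rw [sub_sub_cancel] at h1
  rcases h1 with h1 | h1
  · exact hP ((map_eq_zero f).1 h1)
  · rw [h0] at h1; exact lt_irrefl _ h1

private theorem H5_ord (f : A →+* B) (T : B) (c : A) (w : Place L B)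
    (h0 : ∀ x, w.ord (f x) = 0) (hc : 0 < w.ord (T - f c)) (P : A[X]) (hP : P ≠ 0) :
    P.eval₂ f T ≠ 0 ∧ w.ord (P.eval₂ f T) = P.rootMultiplicity c * w.ord (T - f c) := by
  obtain ⟨Q, hPQ, hQ⟩ := exists_eq_pow_rootMultiplicity_mul_and_not_dvd P hP c
  have hne : T - f c ≠ 0 := by
    intro h
    rw [h, w.ord_zero] at hc
    exact lt_irrefl _ hc
  have hQc : Q.eval c ≠ 0 := fun h => hQ (dvd_iff_isRoot.2 h)
  have h1 := H5_notZer f T c w h0 hc Q hQc
  have h2 : Q.eval₂ f T ≠ 0 := fun h => h1 (Or.inl h)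
  have h3 : w.ord (Q.eval₂ f T) = 0 :=
    Place.ord_eq_zero_of_reg (H5_regP f T c w h0 hc Q) h1
  have h4 : P.eval₂ f T = (T - f c) ^ (P.rootMultiplicity c) * Q.eval₂ f T := by
    conv_lhs => rw [hPQ]
    rw [eval₂_mul, eval₂_pow, eval₂_sub, eval₂_X, eval₂_C]
  rw [h4]
  refine ⟨mul_ne_zero (pow_ne_zero _ hne) h2, ?_⟩
  rw [w.ord_mul _ _ (pow_ne_zero _ hne) h2, h3, add_zero, w.ord_pow]

private theorem H5_one (f : A →+* B) (T : B) (c : A) (w : Place L B)
    (h0 : ∀ x, w.ord (f x) = 0) (hc : 0 < w.ord (T - f c))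
    (hgen : ∀ z : B, ∃ P Q : A[X], Q ≠ 0 ∧ z = P.eval₂ f T / Q.eval₂ f T) :
    w.ord (T - f c) = 1 := by
  obtain ⟨t, ht⟩ := w.exists_uniformizer
  obtain ⟨P, Q, hQ, hz⟩ := hgen t
  have hP : P ≠ 0 := by
    rintro rfl
    rw [eval₂_zero, zero_div] at hz
    rw [hz, w.ord_zero] at ht
    exact zero_ne_one ht
  obtain ⟨h1, h2⟩ := H5_ord f T c w h0 hc P hP
  obtain ⟨h3, h4⟩ := H5_ord f T c w h0 hc Q hQ
  rw [hz, w.ord_div _ _ h1 h3, h2, h4, ← sub_mul] at ht
  rcases Int.isUnit_iff.1 (IsUnit.of_mul_eq_one _ (by rw [mul_comm]; exact ht)) with h5 | h5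
  · exact h5
  · omega

/-- regular functions have values in `A` -/
private theorem H5_val (f : A →+* B) (T : B) (c : A) (w : Place L B)
    (h0 : ∀ x, w.ord (f x) = 0) (hc : 0 < w.ord (T - f c))
    (hgen : ∀ z : B, ∃ P Q : A[X], Q ≠ 0 ∧ z = P.eval₂ f T / Q.eval₂ f T) (z : B)
    (hz : w.Reg z) : ∃ x : A, w.Zer (z - f x) := by
  obtain ⟨P, Q, hQ, hPQ⟩ := hgen z
  by_cases hP : P = 0
  · refine ⟨0, Or.inl ?_⟩
    rw [hPQ, hP, eval₂_zero, zero_div, map_zero, sub_zero]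
  have hne : T - f c ≠ 0 := by
    intro h
    rw [h, w.ord_zero] at hc
    exact lt_irrefl _ hc
  obtain ⟨h1, h2⟩ := H5_ord f T c w h0 hc P hP
  obtain ⟨h3, h4⟩ := H5_ord f T c w h0 hc Q hQ
  have hz0 : z ≠ 0 := by rw [hPQ]; exact div_ne_zero h1 h3
  have h5 : 0 ≤ w.ord z := hz.resolve_left hz0
  rw [hPQ, w.ord_div _ _ h1 h3, h2, h4, ← sub_mul] at h5
  have h6 : Q.rootMultiplicity c ≤ P.rootMultiplicity c := by
    by_contra hcon
    push Not at hcon
    have h7 : ((P.rootMultiplicity c : ℤ) - Q.rootMultiplicity c) < 0 := by omega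
    have h8 := mul_neg_of_neg_of_pos h7 hc
    omega
  obtain ⟨P₁, hP₁, _⟩ := exists_eq_pow_rootMultiplicity_mul_and_not_dvd P hP c
  obtain ⟨Q₁, hQ₁, hQn⟩ := exists_eq_pow_rootMultiplicity_mul_and_not_dvd Q hQ c
  have hQc : Q₁.eval c ≠ 0 := fun h => hQn (dvd_iff_isRoot.2 h)
  set P₂ := (X - C c) ^ (P.rootMultiplicity c - Q.rootMultiplicity c) * P₁ with hP₂
  have h7 := H5_notZer f T c w h0 hc Q₁ hQc
  have h8 : Q₁.eval₂ f T ≠ 0 := fun h => h7 (Or.inl h)
  have h9 : w.ord (Q₁.eval₂ f T) = 0 :=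
    Place.ord_eq_zero_of_reg (H5_regP f T c w h0 hc Q₁) h7
  have h10 : z = P₂.eval₂ f T / Q₁.eval₂ f T := by
    rw [hPQ, div_eq_div_iff h3 h8]
    have e1 : P * Q₁ = P₂ * Q := by
      conv_lhs => rw [hP₁]
      conv_rhs => rw [hQ₁]
      rw [hP₂]
      have e2 : (X - C c) ^ (P.rootMultiplicity c) = (X - C c) ^ (P.rootMultiplicity c -
          Q.rootMultiplicity c) * (X - C c) ^ (Q.rootMultiplicity c) := by
        rw [← pow_add, Nat.sub_add_cancel h6]
      rw [e2]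
      ring
    rw [← eval₂_mul, ← eval₂_mul, e1]
  refine ⟨P₂.eval c / Q₁.eval c, ?_⟩
  have hfQ : f (Q₁.eval c) ≠ 0 := (map_ne_zero f).2 hQc
  have h11 : z - f (P₂.eval c / Q₁.eval c) =
      ((P₂.eval₂ f T - f (P₂.eval c)) - f (P₂.eval c / Q₁.eval c) *
        (Q₁.eval₂ f T - f (Q₁.eval c))) * (Q₁.eval₂ f T)⁻¹ := by
    rw [h10, map_div₀]
    field_simp
    ring
  rw [h11]
  refine Place.Zer.mul_reg ?_ (Or.inr (by rw [w.ord_inv, h9]; simp))
  exact (H5_valP f T c w h0 hc P₂).sub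
    (Place.Zer.reg_mul (H5_regf f w h0 _) (H5_valP f T c w h0 hc Q₁))

end ordc

section he

variable {k : Type} [Field k] {M M' : Type} [Field M] [Algebra k M] [Field M']
  [Algebra (Lf k) M'] {i : EHom k (Lf k) M M'}

/-- `M'` is generated by `T_b` over the field `M(T_a)` -/
private theorem H5_gen (hi : BE i) {a b : Fin 2} (hab : a ≠ b) (z : M') :
    ∃ P Q : (H5_rat i.f (algebraMap (Lf k) M' (tt k a)))[X], Q ≠ 0 ∧
      z = P.eval₂ (H5_rat i.f (algebraMap (Lf k) M' (tt k a))).subtype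
          (algebraMap (Lf k) M' (tt k b)) /
        Q.eval₂ (H5_rat i.f (algebraMap (Lf k) M' (tt k a))).subtype
          (algebraMap (Lf k) M' (tt k b)) := by
  have h1 : z ∈ H5_rat (H5_rat i.f (algebraMap (Lf k) M' (tt k a))).subtype
      (algebraMap (Lf k) M' (tt k b)) := by
    have h2 : z ∈ IntermediateField.adjoin (Lf k) (Set.range i.f) := by
      rw [hi.gen]; trivial
    refine H5_adj_mem _ (fun z => ?_) _ (fun z hz => ?_) z h2
    · refine H5_Lf_mem _ (fun c => ?_) (fun a' => ?_) z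
      · rw [← i.comm c]
        exact H5_rat_C (H5_rat i.f (algebraMap (Lf k) M' (tt k a))).subtype _
          ⟨_, H5_rat_C i.f _ _⟩
      · by_cases haa : a' = a
        · rw [haa]
          exact H5_rat_C (H5_rat i.f (algebraMap (Lf k) M' (tt k a))).subtype _
            ⟨_, H5_rat_X i.f _⟩
        · rw [H5_third hab haa]
          exact H5_rat_X _ _
    · obtain ⟨x, rfl⟩ := hz
      exact H5_rat_C (H5_rat i.f (algebraMap (Lf k) M' (tt k a))).subtype _
        ⟨_, H5_rat_C i.f _ _⟩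
  obtain ⟨P, Q, hQ, hz⟩ := h1
  refine ⟨P, Q, ?_, hz⟩
  rintro rfl
  exact hQ (by simp)

private theorem H5_red (w : Place (Lf k) M') (j : EHom k (Lf k) M (RF w))
    (hj : ∀ x, Red w (i.f x) (j.f x)) (a : Fin 2) (P : M[X]) :
    Red w (P.eval₂ i.f (algebraMap (Lf k) M' (tt k a)))
      (P.eval₂ j.f (algebraMap (Lf k) (RF w) (tt k a))) := by
  induction P using Polynomial.induction_on' with
  | add p q hp hq => rw [eval₂_add, eval₂_add]; exact hp.add hq
  | monomial n c =>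
    rw [eval₂_monomial, eval₂_monomial]
    exact (hj c).mul ((LibCHd.red_const w (tt k a)).pow n)

/-- the value of `T_b` at the hyperplane -/
private noncomputable def H5_c (i : EHom k (Lf k) M M') (φ : Fin 3 → M) (a b : Fin 2) :
    H5_rat i.f (algebraMap (Lf k) M' (tt k a)) :=
  ⟨-(i.f (φ 0) + algebraMap (Lf k) M' (tt k a) * i.f (φ a.succ)) / i.f (φ b.succ),
    div_mem (neg_mem (add_mem (H5_rat_C _ _ _) (mul_mem (H5_rat_X _ _) (H5_rat_C _ _ _))))
      (H5_rat_C _ _ _)⟩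

private theorem H5_c_eq (i : EHom k (Lf k) M M') (φ : Fin 3 → M) {a b : Fin 2} (hab : a ≠ b)
    (hb : φ b.succ ≠ 0) :
    algebraMap (Lf k) M' (tt k b) - (H5_c i φ a b : M') = hypf i φ / i.f (φ b.succ) := by
  have hb' : i.f (φ b.succ) ≠ 0 := (map_ne_zero i.f).2 hb
  have h1 : hypf i φ = algebraMap (Lf k) M' (tt k b) * i.f (φ b.succ) +
      (i.f (φ 0) + algebraMap (Lf k) M' (tt k a) * i.f (φ a.succ)) := by
    unfold hypf
    fin_cases a <;> fin_cases b
    · exact absurd rfl hab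
    · simp only [Fin.zero_eta, Fin.mk_one, Fin.succ_zero_eq_one, Fin.succ_one_eq_two] at *
      ring
    · simp only [Fin.zero_eta, Fin.mk_one, Fin.succ_zero_eq_one, Fin.succ_one_eq_two] at *
      ring
    · exact absurd rfl hab
  rw [h1, eq_div_iff hb']
  change (algebraMap (Lf k) M' (tt k b) - (-(i.f (φ 0) + algebraMap (Lf k) M' (tt k a) *
    i.f (φ a.succ)) / i.f (φ b.succ))) * i.f (φ b.succ) = _
  rw [sub_mul, div_mul_cancel₀ _ hb']
  ring

private theorem H5_pol (w : Place (Lf k) M') (j : EHom k (Lf k) M (RF w)) (a : Fin 2) (P : M[X]) :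
    P.eval₂ j.f (algebraMap (Lf k) (RF w) (tt k a)) ∈
      IntermediateField.adjoin (Lf k) (Set.range j.f) := by
  rw [eval₂_eq_sum_range]
  refine sum_mem fun m _ => mul_mem ?_ (pow_mem ?_ m)
  · exact IntermediateField.subset_adjoin _ _ ⟨_, rfl⟩
  · exact (IntermediateField.adjoin (Lf k) (Set.range j.f)).algebraMap_mem _

private theorem H5_triv (w : Place (Lf k) M') (j : EHom k (Lf k) M (RF w))
    (hj : ∀ x, Red w (i.f x) (j.f x)) (a : Fin 2)
    (ha : ∀ G : M[X], G ≠ 0 → G.eval₂ j.f (algebraMap (Lf k) (RF w) (tt k a)) ≠ 0) (z : M')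
    (hz : z ∈ H5_rat i.f (algebraMap (Lf k) M' (tt k a))) :
    w.ord z = 0 ∧ ∃ c ∈ IntermediateField.adjoin (Lf k) (Set.range j.f), Red w z c := by
  obtain ⟨P, Q, hQ, rfl⟩ := hz
  have hQ0 : Q ≠ 0 := by
    rintro rfl
    exact hQ (by simp)
  have h1 := H5_red w j hj a P
  have h2 := H5_red w j hj a Q
  have h3 := ha Q hQ0
  have h4 := h1.div h2 h3
  refine ⟨?_, _, ?_, h4⟩
  · by_cases hP : P = 0
    · rw [hP, eval₂_zero, zero_div, w.ord_zero]
    · exact h4.ord_eq_zero (div_ne_zero (ha P hP) h3)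
  · exact div_mem (H5_pol w j a P) (H5_pol w j a Q)

private theorem H5_pos (φ : Fin 3 → M) (w : Place (Lf k) M')
    (h0 : ∀ x, w.ord (i.f x) = 0) {a b : Fin 2} (hab : a ≠ b) (hb : φ b.succ ≠ 0)
    (hh : w.ord (hypf i φ) ≠ 0) :
    0 < w.ord (hypf i φ) ∧ 0 < w.ord (algebraMap (Lf k) M' (tt k b) -
      (H5_rat i.f (algebraMap (Lf k) M' (tt k a))).subtype (H5_c i φ a b)) := by
  have hb' : i.f (φ b.succ) ≠ 0 := (map_ne_zero i.f).2 hb
  have hne : hypf i φ ≠ 0 := by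
    intro h
    rw [h, w.ord_zero] at hh
    exact hh rfl
  have hreg : w.Reg (hypf i φ) := by
    unfold hypf
    exact ((H5_regf i.f w h0 _).add ((w.reg_const _).mul (H5_regf i.f w h0 _))).add
      ((w.reg_const _).mul (H5_regf i.f w h0 _))
  have h1 : 0 ≤ w.ord (hypf i φ) := hreg.resolve_left hne
  have h2 : 0 < w.ord (hypf i φ) := by omega
  refine ⟨h2, ?_⟩
  rw [Subfield.coe_subtype, H5_c_eq i φ hab hb, w.ord_div _ _ hne hb', h0, sub_zero]
  exact h2

private theorem H5_he (hi : BE i) (φ : Fin 3 → M) (w : Place (Lf k) M')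
    (h0 : ∀ x, w.ord (i.f x) = 0) (j : EHom k (Lf k) M (RF w))
    (hj : ∀ x, Red w (i.f x) (j.f x)) {a b : Fin 2} (hab : a ≠ b) (hb : φ b.succ ≠ 0)
    (ha : ∀ G : M[X], G ≠ 0 → G.eval₂ j.f (algebraMap (Lf k) (RF w) (tt k a)) ≠ 0)
    (hh : w.ord (hypf i φ) ≠ 0) : HE j φ ∧ w.ord (hypf i φ) = 1 := by
  have hb' : i.f (φ b.succ) ≠ 0 := (map_ne_zero i.f).2 hb
  have hne : hypf i φ ≠ 0 := by
    intro h
    rw [h, w.ord_zero] at hh
    exact hh rfl
  obtain ⟨hpos, hcpos⟩ := H5_pos φ w h0 hab hb hh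
  have hE0 : ∀ x, w.ord ((H5_rat i.f (algebraMap (Lf k) M' (tt k a))).subtype x) = 0 :=
    fun x => (H5_triv w j hj a ha x x.2).1
  have hone := H5_one _ _ _ w hE0 hcpos (H5_gen hi hab)
  rw [Subfield.coe_subtype, H5_c_eq i φ hab hb, w.ord_div _ _ hne hb', h0, sub_zero] at hone
  refine ⟨⟨?_, ?_, a, ha⟩, hone⟩
  · have h1 := ((hj (φ 0)).add ((LibCHd.red_const w (tt k 0)).mul (hj (φ 1)))).add
      ((LibCHd.red_const w (tt k 1)).mul (hj (φ 2)))
    exact h1.unique (LibCHd.red_zero_iff.2 (Or.inr hpos))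
  · rw [eq_top_iff]
    intro y _
    obtain ⟨z, hz⟩ := LibCHd.exists_rep y
    obtain ⟨x, hx⟩ := H5_val _ _ _ w hE0 hcpos (H5_gen hi hab) z hz.reg
    obtain ⟨_, c, hc, hc'⟩ := H5_triv w j hj a ha x x.2
    have h1 : Red w z c := (LibCHd.red_iff_sub hc').2 hx
    rw [hz.unique h1]
    exact hc

end he

section aux

variable {k : Type} [Field k]

private theorem H5_free {m : ℕ} {κ κ' : Type} [Field κ]
    [Algebra k κ] [Field κ'] [Algebra (Lf k) κ'] (j : EHom k (Lf k) κ κ')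
    (q : Pnt m κ) {d : ℕ}
    (hw : FunF (Lf k) d κ') (hκ : Algebra.trdeg k κ < (d + 2 : ℕ))
    (hfin : Module.finrank (fld (Lf k) (mpP j.f q)) κ' ≠ 0) :
    ∃ a : Fin 2, ∀ G : κ[X], G ≠ 0 → G.eval₂ j.f (algebraMap (Lf k) κ' (tt k a)) ≠ 0 := by
  let _ : Algebra κ κ' := j.f.toAlgebra
  let _ : Algebra k κ' := ((algebraMap (Lf k) κ').comp (algebraMap k (Lf k))).toAlgebra
  have _i1 : IsScalarTower k (Lf k) κ' := IsScalarTower.of_algebraMap_eq fun _ => rfl
  have _i2 : IsScalarTower k κ κ' := IsScalarTower.of_algebraMap_eq fun c => (j.comm c).symm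
  have hT : Algebra.trdeg k κ' = (d + 2 : ℕ) := H5_trdeg_two hw
  have hadd : Algebra.trdeg k κ + Algebra.trdeg κ κ' = Algebra.trdeg k κ' :=
    trdeg_add_eq k κ (A := κ')
  have hfin' : Module.Finite (fld (Lf k) (mpP j.f q)) κ' :=
    Module.finite_of_finrank_pos (Nat.pos_of_ne_zero hfin)
  have hint : ∀ z : κ', IsIntegral (fld (Lf k) (mpP j.f q)) z := fun z => IsIntegral.of_finite _ z
  by_contra hcon
  push Not at hcon
  have halg : ∀ a, algebraMap (Lf k) κ' (tt k a) ∈ algebraicClosure κ κ' := by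
    intro a
    rw [mem_algebraicClosure_iff]
    obtain ⟨G, hG, h⟩ := hcon a
    exact ⟨G, hG, h⟩
  have hmem : ∀ z ∈ fld (Lf k) (mpP j.f q), z ∈ algebraicClosure κ κ' := by
    intro z hz
    refine H5_adj_mem (algebraicClosure κ κ').toSubfield (fun z => ?_) _ (fun z hz => ?_) z hz
    · refine H5_Lf_mem _ (fun c => ?_) (fun a => halg a) z
      have h1 : algebraMap (Lf k) κ' (algebraMap k (Lf k) c) = algebraMap κ κ' (algebraMap k κ c) :=
        (j.comm c).symm
      rw [h1]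
      exact (algebraicClosure κ κ').algebraMap_mem _
    · obtain ⟨p, rfl⟩ := hz
      rw [co_lft]
      exact (algebraicClosure κ κ').algebraMap_mem _
  have hall : Algebra.IsAlgebraic κ κ' := by
    refine ⟨fun z => ?_⟩
    have h1 : IsIntegral (algebraicClosure κ κ') z := H5_int _ _ hmem z (hint z)
    have h2 : IsIntegral κ z := isIntegral_trans z h1
    exact h2.isAlgebraic
  rw [trdeg_eq_zero (R := κ) (A := κ'), add_zero, hT] at hadd
  exact absurd hκ (by rw [hadd]; exact lt_irrefl _)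

variable {M M' : Type} [Field M] [Algebra k M] [Field M'] [Algebra (Lf k) M']
  {i : EHom k (Lf k) M M'}

private theorem H5_hyp_ne (hi : BE i) (φ : Fin 3 → M) (hφ : ∃ b, φ b ≠ 0) : hypf i φ ≠ 0 := by
  intro h
  refine hi.ind (MvPolynomial.C (φ 0) + MvPolynomial.X 0 * MvPolynomial.C (φ 1) +
    MvPolynomial.X 1 * MvPolynomial.C (φ 2)) (fun h2 => ?_) ?_
  · have e0 := congrArg (MvPolynomial.eval (![0, 0] : Fin 2 → M)) h2
    have e1 := congrArg (MvPolynomial.eval (![1, 0] : Fin 2 → M)) h2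
    have e2 := congrArg (MvPolynomial.eval (![0, 1] : Fin 2 → M)) h2
    simp at e0 e1 e2
    rw [e0, zero_add] at e1 e2
    obtain ⟨b, hb⟩ := hφ
    fin_cases b
    · exact hb e0
    · exact hb e1
    · exact hb e2
  · rw [MvPolynomial.eval₂_add, MvPolynomial.eval₂_add, MvPolynomial.eval₂_mul,
      MvPolynomial.eval₂_mul, MvPolynomial.eval₂_X, MvPolynomial.eval₂_X, MvPolynomial.eval₂_C,
      MvPolynomial.eval₂_C, MvPolynomial.eval₂_C]
    exact h

end aux

variable {k : Type} [Field k] {m : ℕ} {c : Dat k}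

theorem be_places {K K' : Type} [Field K] [Algebra k K] [Field K'] [Algebra (Lf k) K'] {i : EHom k (Lf k) K K'} {d : ℕ}
    (hK : FunF k (d + 1) K) (u : Pnt m K) (hi : BE i) (w : Place (Lf k) K') (hw : FunF (Lf k) d (RF w)) (x₀ : K)
    (h : w.ord (i.f x₀) ≠ 0) (q' : Pnt m (RF w)) (hq' : SpP w (mpP i.f u) q') (hcy : cyc (Lf k) q' ≠ 0) :
    ∃ (v : Place k K) (q : Pnt m (RF v)) (j : EHom k (Lf k) (RF v) (RF w)),
      (∀ x, w.ord (i.f x) = v.ord x) ∧ FunF k d (RF v) ∧ SpP v u q ∧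
      (∀ x c, Red v x c → Red w (i.f x) (j.f c)) ∧ BE j ∧ q' = mpP j.f q := by
  obtain ⟨v, e, he, hv⟩ := exists_restr i w x₀ h
  obtain ⟨j, hj⟩ := exists_resHom i v w e he hv
  obtain ⟨q, hq⟩ := spP_exists v u
  have hqq : q' = mpP j.f q := spP_unique hq' (spP_lft i v w e he hv j hj hq)
  have hfin : Module.finrank (fld (Lf k) q') (RF w) ≠ 0 := fun h0 => hcy ((cyc_zero_iff q').2 h0)
  have hco : Set.range (co q') = j.f '' Set.range (co q) := by
    rw [hqq, ← Set.range_comp]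
    congr 1
    funext a
    exact co_lft j q a
  let algER : Algebra (RF v) (RF w) := j.f.toAlgebra
  let algkR : Algebra k (RF w) := ((algebraMap (Lf k) (RF w)).comp (algebraMap k (Lf k))).toAlgebra
  have : IsScalarTower k (Lf k) (RF w) := IsScalarTower.of_algebraMap_eq fun _ => rfl
  have : IsScalarTower k (RF v) (RF w) := IsScalarTower.of_algebraMap_eq fun c => (j.comm c).symm
  have hord : v.ord x₀ ≠ 0 := by
    intro h0
    apply h
    rw [hv, h0, mul_zero]
  have hfd : FiniteDimensional (IntermediateField.adjoin (Lf k)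
      (algebraMap (RF v) (RF w) '' Set.range (co q))) (RF w) := by
    have h1 : fld (Lf k) q' = IntermediateField.adjoin (Lf k)
        (algebraMap (RF v) (RF w) '' Set.range (co q)) := by
      unfold fld
      rw [hco]
      rfl
    rw [← h1]
    exact FiniteDimensional.of_finrank_pos (Nat.pos_of_ne_zero hfin)
  obtain ⟨h1, h2, h3⟩ := B5_key hw (B5_trdeg hK v x₀ hord) (Set.range (co q))
  have hind : ∀ G : MvPolynomial (Fin 2) (RF v), G ≠ 0 →
      G.eval₂ j.f (fun a => algebraMap (Lf k) (RF w) (tt k a)) ≠ 0 := by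
    intro G hG h0
    exact hG (h1.eq_zero_of_aeval_eq_zero G h0)
  obtain ⟨rfl, h5⟩ := B5_char i _ (B5_gen hi) v w e he hv j hj _
    (fun a => red_const w (tt k a)) hind
  refine ⟨v, q, j, fun x => by rw [hv, one_mul], B5_funF h2 (Set.range (co q)) (Set.finite_range _), hq, hj,
    ⟨?_, hind⟩, hqq⟩
  rw [eq_top_iff]
  rintro z -
  obtain ⟨P, Q, -, rfl⟩ := h5 z
  have h6 : ∀ P : MvPolynomial (Fin 2) (RF v),
      P.eval₂ j.f (fun a => algebraMap (Lf k) (RF w) (tt k a)) ∈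
        IntermediateField.adjoin (Lf k) (Set.range j.f) := by
    intro P
    induction P using MvPolynomial.induction_on with
    | C c =>
      rw [MvPolynomial.eval₂_C]
      exact IntermediateField.subset_adjoin _ _ ⟨c, rfl⟩
    | add p q hp hq =>
      rw [MvPolynomial.eval₂_add]
      exact add_mem hp hq
    | mul_X p i hp =>
      rw [MvPolynomial.eval₂_mul, MvPolynomial.eval₂_X]
      exact mul_mem hp ((IntermediateField.adjoin (Lf k) (Set.range j.f)).algebraMap_mem _)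
  exact div_mem (h6 P) (h6 Q)

theorem hyp_places {M M' : Type} [Field M] [Algebra k M] [Field M'] [Algebra (Lf k) M'] {i : EHom k (Lf k) M M'}
    {d : ℕ} (hM : FunF k (d + 1) M) (u : Pnt m M) (hi : BE i) (φ : Fin 3 → M) (hφ : NC k φ) (w : Place (Lf k) M')
    (hw : FunF (Lf k) d (RF w)) (h0 : ∀ x, w.ord (i.f x) = 0) (h : w.ord (hypf i φ) ≠ 0) (q' : Pnt m (RF w))
    (hq' : SpP w (mpP i.f u) q') (hcy : cyc (Lf k) q' ≠ 0) :
    ∃ j : EHom k (Lf k) M (RF w), (∀ x, Red w (i.f x) (j.f x)) ∧ HE j φ ∧ q' = mpP j.f u := by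
  have hφ' : ∃ b, φ b ≠ 0 := by
    obtain ⟨_, b, hb, _⟩ := hφ
    exact ⟨b, hb⟩
  obtain ⟨j, hj⟩ := exists_trivHom i w h0
  have hqq : q' = mpP j.f u := spP_unique hq' (spP_lft_triv i w j hj u)
  subst hqq
  have hκ : Algebra.trdeg k M < (d + 2 : ℕ) := by
    rw [hM.trdeg]
    exact_mod_cast Nat.lt_succ_self (d + 1)
  obtain ⟨a, ha⟩ := H5_free j u hw hκ (fun h' => hcy ((cyc_zero_iff _).2 h'))
  have hreg : w.Reg (hypf i φ) := by
    unfold hypf
    exact ((H5_regf i.f w h0 _).add ((w.reg_const _).mul (H5_regf i.f w h0 _))).add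
      ((w.reg_const _).mul (H5_regf i.f w h0 _))
  have hne : hypf i φ ≠ 0 := by
    intro h'
    rw [h', w.ord_zero] at h
    exact h rfl
  have hpos : 0 < w.ord (hypf i φ) := lt_of_le_of_ne (hreg.resolve_left hne) (Ne.symm h)
  have hrel : j.f (φ 0) + algebraMap (Lf k) (RF w) (tt k 0) * j.f (φ 1) +
      algebraMap (Lf k) (RF w) (tt k 1) * j.f (φ 2) = 0 := by
    have h1 := ((hj (φ 0)).add ((LibCHd.red_const w (tt k 0)).mul (hj (φ 1)))).add
      ((LibCHd.red_const w (tt k 1)).mul (hj (φ 2)))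
    exact h1.unique (LibCHd.red_zero_iff.2 (Or.inr hpos))
  obtain ⟨b, hab, hb⟩ := H5_other j φ hφ' hrel a ha
  exact ⟨j, hj, (H5_he hi φ w h0 j hj hab hb ha h).1, rfl⟩

end Pool.Agent.LibCW77
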