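import Pool.Agent.LibCW77.HDefs
import Pool.Agent.LibCW77.H1
import Pool.Agent.LibCW77.H2
import Pool.Agent.LibCW77.H5
import Pool.Agent.LibCW77.D1
import Pool.Agent.LibHL77.B6

/-!
[CW77 H6] Port of LibHL77/B8.lean (`LG`): the generic hyperplane section is equivalent to the base change of every hyperplane section.
-/

open scoped Classical
open Polynomial

namespace Pool.Agent.LibCW77

open Pool.Agent.LibBH2
open Pool.Agent.LibCHd (VR RF Red FunF)
open Pool.Agent.LibHL77 (Lf tt EHom NC HE BE mult hypf)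

variable {k : Type} [Field k] {m : ℕ} {c : Dat k}

theorem LG (hc : c.Good) (φ : Mor c m) {d : ℕ} {Γ B : Cyc k m →+ Cyc (Lf k) m} (hΓ : IsG φ d Γ)
    (hB : IsB c m d B) {M : Type} [Field M] [Algebra k M] (hM : FunF k (d + 1) M) (u : Pnt m M)
    (hu : On (c.over M) u) (hnc : NC k (φ.φ M u)) (z : Fin 3) (hz : φ.φ M u z ≠ 0) (e : Cyc k m)
    (he : IsZd (φ.φ M u) z u d e) : Γ (cyc k u) - B e ∈ RatEq (c.over (Lf k)) m d := by
  obtain ⟨S, C, hS, hout, hcc⟩ := he
  obtain ⟨M', _, _, i, hi⟩ := Pool.Agent.LibHL77.exists_be (k := k) M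
  set ph := φ.φ M u with hph
  have hphi : ∃ b, ph b ≠ 0 := ⟨z, hz⟩
  obtain ⟨w0, j0, h01, h02, h03, h04⟩ := Pool.Agent.LibHL77.hyp_place hi ph hnc
  choose W J hW1 hW2 hW3 using fun v : Place k M => Pool.Agent.LibHL77.gauss_be hi v
  have hiz : i.f (ph z) ≠ 0 := (map_ne_zero i.f).2 hz
  have hH0 : hypf i ph ≠ 0 := by
    intro h
    rw [h, w0.ord_zero] at h04
    exact zero_ne_one h04
  have hordg : ∀ w : Place (Lf k) M', w.ord (hypf i ph / i.f (ph z)) =
      w.ord (hypf i ph) - w.ord (i.f (ph z)) := fun w => w.ord_div _ _ hH0 hiz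
  have hmult : ∀ (v : Place k M) (w : Place (Lf k) M') (j : EHom k (Lf k) (RF v) (RF w)),
      (∀ x, w.ord (i.f x) = v.ord x) → (∀ x c, Red v x c → Red w (i.f x) (j.f c)) → BE j →
      w.ord (hypf i ph / i.f (ph z)) = - mult ph z v := by
    intro v w j h1 h2 h3
    rw [hordg, (Pool.Agent.LibHL77.ord_hyp hi v w j h1 h2 h3 ph hphi).2, h1]
    unfold mult
    ring
  have hWinj : Function.Injective W := by
    intro v v' h
    apply Place.ext'
    intro f
    rw [← hW1 v f, h, hW1 v' f]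
  have hW0 : ∀ v, W v ≠ w0 := by
    intro v h
    obtain ⟨t, ht⟩ := v.exists_uniformizer
    have h1 := hW1 v t
    rw [h, h01, ht] at h1
    exact zero_ne_one h1
  let C' : Place (Lf k) M' → Cyc (Lf k) m := fun w =>
    if h : ∃ v ∈ S, W v = w then B (C h.choose) else Γ (cyc k u)
  have hC0 : C' w0 = Γ (cyc k u) := dif_neg (by
    rintro ⟨v, _, h⟩
    exact hW0 v h)
  have hCW : ∀ v ∈ S, C' (W v) = B (C v) := by
    intro v hv
    have h : ∃ v' ∈ S, W v' = W v := ⟨v, hv, rfl⟩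
    have h1 : C' (W v) = B (C h.choose) := dif_pos h
    rw [h1, hWinj h.choose_spec.2]
  apply AddSubgroup.subset_closure
  refine ⟨M', inferInstance, inferInstance, mpP i.f u, hypf i ph / i.f (ph z),
    insert w0 (S.image W), C', Pool.Agent.LibHL77.be_funF hi hM, on_lft i hu,
    div_ne_zero hH0 hiz, ?_, ?_, ?_⟩
  · intro w hw
    rcases Finset.mem_insert.1 hw with h | hw
    · subst h
      refine ⟨Pool.Agent.LibHL77.he_funF h03 hphi hM, mpP j0.f u,
        spP_lft_triv i w j0 h02 u, ?_⟩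
      rw [hC0]
      exact (hΓ M u hM hu).1 _ j0 h03
    · obtain ⟨v, hv, rfl⟩ := Finset.mem_image.1 hw
      obtain ⟨h1, q, h2, h3⟩ := hS v hv
      refine ⟨Pool.Agent.LibHL77.be_funF (hW3 v) h1, mpP (J v).f q,
        spP_lft i v (W v) 1 one_pos (fun x => by rw [one_mul, hW1]) (J v) (hW2 v) h2, ?_⟩
      rw [hCW v hv, h3]
      exact hB (RF v) q h1 (on_sp hc hu h2) _ (J v) (hW3 v)
  · intro w hw hg hF q' hq'
    by_contra hc0
    by_cases hx : ∀ x, w.ord (i.f x) = 0
    · have h1 : w.ord (hypf i ph) ≠ 0 := by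
        rw [hordg, hx, sub_zero] at hg
        exact hg
      obtain ⟨j, h2, h3, -⟩ := hyp_places hM u hi ph hnc w hF hx h1 q' hq' hc0
      have h4 := Pool.Agent.LibHL77.hyp_unique hi ph hnc w w0 j j0 hx h2 h3 h01 h02 h03
      exact hw (h4 ▸ Finset.mem_insert_self _ _)
    · push Not at hx
      obtain ⟨x₀, hx₀⟩ := hx
      obtain ⟨v, q, j, h1, h2, h3, h4, h5, h6⟩ := be_places hM u hi w hF x₀ hx₀ q' hq' hc0
      have h7 : mult ph z v ≠ 0 := by
        intro h
        rw [hmult v w j h1 h4 h5, h, neg_zero] at hg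
        exact hg rfl
      by_cases hv : v ∈ S
      · have h8 := Pool.Agent.LibHL77.gauss_be_unique hi v w (W v) j (J v) h1 h4 h5 (hW1 v)
          (hW2 v) (hW3 v)
        exact hw (Finset.mem_insert_of_mem (h8 ▸ Finset.mem_image_of_mem W hv))
      · have h8 := hout v hv h7 h2 q h3
        have h9 := hB (RF v) q h2 (on_sp hc hu h3) _ j h5
        rw [h8, map_zero] at h9
        exact hc0 (h6 ▸ h9.symm)
  · have hnot : w0 ∉ S.image W := by
      intro h
      obtain ⟨v, _, hv⟩ := Finset.mem_image.1 h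
      exact hW0 v hv
    rw [Finset.sum_insert hnot, Finset.sum_image (fun v _ v' _ h => hWinj h), hC0, hordg, h04,
      h01, sub_zero, one_smul, hcc, map_sum, sub_eq_add_neg, ← Finset.sum_neg_distrib]
    congr 1
    refine Finset.sum_congr rfl fun v hv => ?_
    rw [hCW v hv, hmult v (W v) (J v) (hW1 v) (hW2 v) (hW3 v), map_zsmul, neg_smul]

end Pool.Agent.LibCW77
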