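import Pool.Agent.LibCW77.HDefs
import Pool.Agent.LibCW77.H1
import Pool.Agent.LibCW77.H4
import Pool.Agent.LibCW77.H6
import Pool.Agent.LibCW77.D1
import Pool.Agent.LibCW77.D2
import Pool.Agent.LibCW77.D3
import Pool.Agent.LibCW77.D4
import Pool.Agent.LibCW77.G3
import Pool.Agent.LibCW77.D6
import Pool.Agent.LibHL77.A1
import Pool.Agent.LibHL77.Z1

/-!
[CW77 H7] The operator given by a morphism `φ` of `C ^ 3`: hyperplane section, then the first point. `exists_pf`: `exists_hom` (D3) over `Lf k` with `Ψ M u = cls .. 0 (pt1 (u 0))` (`cls_map`), `desc` with `div_rel` for the point `pt1 (u 0)` (a specialisation of `u` gives one of `pt1 (u 0)`; if `cyc (q v) = 0` (it is not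
finite over its field) nor is the field of the first point; for `d = 0` residue fields are finite over the base). `con_spec`: `exists_G`, `G_ratEq` give `CH c 3 1 →+ CH (c.over (Lf k)) 3 0` (`QuotientAddGroup.map` or `desc`), composed with `exists_pf`. Value on `cls u`: if `NC k (φ u)`: `LG` with `IsZd` for the given set `S` (all residue
fields are `k`: `res_k`, `FunF k 0`), `exists_B`; the specialisation of `u` at `w` is a point over `k` (`q₀ w`; `cls` over `RF w` and over `k` agree: `cls_map`, `finrank = 1`), `B` of it is the base change (`IsB` with `exists_be` for `k`; `cls_map` for `Lf k → M'` if needed: `HE`/`BE` over `k` is `Lf k` itself up to isomorphism: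
show `BE` for the `EHom` `k → Lf k`). If `φ u` is constant (not `NC`): `Γ = 0` and all `mult` are `0` (`φ_a / φ_z` algebraic over `k`, so of order `0`).
-/

open scoped Classical
open Polynomial

namespace Pool.Agent.LibCW77

open Pool.Agent.LibBH2
open Pool.Agent.LibCHd (VR RF Red FunF)
open Pool.Agent.LibHL77 (Lf tt EHom NC HE BE mult hypf)

variable {k : Type} [Field k]

private theorem H7_pt1 {L M M' : Type} [Field L] [Field M] [Field M'] [Algebra L M] [Algebra L M']
    (σ : M →ₐ[L] M') (u : Pnt 3 M) : pt1 (mpP σ u 0) = mpP σ (pt1 (u 0)) := rfl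

/-- a zero-dimensional cycle of a point is not zero -/
private theorem H7_ne {L M : Type} [Field L] [Field M] [Algebra L M] {m : ℕ} (u : Pnt m M)
    (h : FunF L 0 M) : cyc L u ≠ 0 := by
  rw [Ne, cyc_zero_iff]
  have hfin : FiniteDimensional L M := Pool.Agent.LibHL77.funF_zero.1 h
  have h1 : FiniteDimensional (fld L u) M := Module.Finite.of_restrictScalars_finite L (fld L u) M
  exact (Module.finrank_pos (R := fld L u) (M := M)).ne'

theorem exists_pf {L : Type} [Field L] {c : Dat L} (hc : c.Good) :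
    ∃ Pf : CH c 3 0 →+ CH c 1 0, ∀ (M : Type) [Field M] [Algebra L M] (u : Pnt 3 M), FunF L 0 M →
      On (c.over M) u → Pf (cls c 0 u) = cls c 0 (pt1 (u 0)) := by
  obtain ⟨H, hH⟩ := exists_hom (m := 3) c 0 (G := CH c 1 0) (fun M _ _ u => cls c 0 (pt1 (u 0))) (by
    intro M M' _ _ _ _ σ u _ _ _
    exact cls_map c 0 σ (pt1 (u 0)))
  have hker : RatEq c 3 0 ≤ H.ker := by
    refine desc c 0 H ?_
    intro K _ _ u g S q hK hu hg hq hS hn
    have h1 : ∀ v ∈ S, v.ord g • H (cyc L (q v)) = v.ord g • cls c 0 (pt1 (q v 0)) := by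
      intro v hv
      rw [hH (RF v) (q v) (hS v hv) (on_sp hc hu (hq v))]
    rw [Finset.sum_congr rfl h1]
    refine div_rel c 1 0 hK (pt1 (u 0)) (fun _ => hu 0) g hg S (fun v => pt1 (q v 0))
      (fun v _ i => hq v 0 i) hS ?_
    intro v hv hgv hF
    exact absurd (hn v hv hgv hF) (H7_ne (q v) hF)
  refine ⟨QuotientAddGroup.lift (RatEq c 3 0) H hker, ?_⟩
  intro M _ _ u hM hu
  exact hH M u hM hu

private theorem H7_good {L M : Type} [Field L] [Field M] (f : L →+* M) {c : Dat L} (hc : c.Good) :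
    (c.map f).Good := by
  refine ⟨hc.two, ?_⟩
  have h : Sum.elim (c.map f).a (c.map f).b = f ∘ Sum.elim c.a c.b := by
    funext x
    cases x <;> rfl
  rw [h]
  exact f.injective.comp hc.inj

private theorem H7_alg [IsAlgClosed k] {M : Type} [Field M] [Algebra k M] {y : M} (hy : IsAlgebraic k y) :
    ∃ y₀ : k, algebraMap k M y₀ = y := by
  have hint : IsIntegral k y := hy.isIntegral
  exact minpoly.mem_range_of_degree_eq_one k y (IsAlgClosed.degree_eq_one_of_irreducible k (minpoly.irreducible hint))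

/-- a constant section has no zeros -/
private theorem H7_const [IsAlgClosed k] {M : Type} [Field M] [Algebra k M] {φ : Fin 3 → M} {z : Fin 3}
    (hz : φ z ≠ 0) (h : ¬ NC k φ) (w : Place k M) : mult φ z w = 0 := by
  have h1 : ∀ j, φ j ≠ 0 → w.ord (φ j) = w.ord (φ z) := by
    intro j hj
    have h2 : IsAlgebraic k (φ j / φ z) := by
      by_contra h3
      exact h ⟨j, z, hz, h3⟩
    obtain ⟨c, hc⟩ := H7_alg h2
    have hc0 : c ≠ 0 := by
      rintro rfl
      rw [map_zero] at hc
      exact div_ne_zero hj hz hc.symm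
    have h4 := w.ord_const c hc0
    rw [hc, w.ord_div _ _ hj hz] at h4
    omega
  have h2 : {m | ∃ j, φ j ≠ 0 ∧ m = w.ord (φ j)} = {w.ord (φ z)} := by
    ext m
    constructor
    · rintro ⟨j, hj, rfl⟩
      exact h1 j hj
    · intro hm
      exact ⟨z, hz, hm⟩
  unfold mult
  rw [h2, csInf_singleton, sub_self]

/-- the value of the projection of the base change of a point of dimension zero -/
private theorem H7_value {c : Dat k} {B : Cyc k 3 →+ Cyc (Lf k) 3}
    (hB : IsB c 3 0 B) {Pf : CH (c.over (Lf k)) 3 0 →+ CH (c.over (Lf k)) 1 0}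
    (hPf : ∀ (M : Type) [Field M] [Algebra (Lf k) M] (u : Pnt 3 M), FunF (Lf k) 0 M →
      On ((c.over (Lf k)).over M) u → Pf (cls (c.over (Lf k)) 0 u) = cls (c.over (Lf k)) 0 (pt1 (u 0)))
    {R : Type} [Field R] [Algebra k R] (hR : FunF k 0 R) (hs : Function.Surjective (algebraMap k R))
    (q : Pnt 3 R) (hq : On (c.over R) q) (Q : Fin 2 → Option k)
    (hQ : ∀ i, q 0 i = (Q i).map (algebraMap k R)) :
    Pf (QuotientAddGroup.mk (B (cyc k q))) = bpt c Q := by
  obtain ⟨M', _, _, i, hi⟩ := Pool.Agent.LibHL77.exists_be (k := k) R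
  have h1 := hB R q hR hq M' i hi
  have h2 : FunF (Lf k) 0 M' := Pool.Agent.LibHL77.be_funF hi hR
  have h3 : On ((c.over (Lf k)).over M') (mpP i.f q) := on_lft i hq
  rw [h1]
  have h4 := hPf M' (mpP i.f q) h2 h3
  refine Eq.trans h4 ?_
  have h5 : pt1 (mpP i.f q 0) = mpP (Algebra.ofId (Lf k) M') (pt1 (ctp (Lf k) Q)) := by
    funext j e
    change (q 0 e).map i.f = ((Q e).map (algebraMap k (Lf k))).map (Algebra.ofId (Lf k) M')
    rw [hQ e]
    cases Q e with
    | none => rfl
    | some x =>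
      change some (i.f (algebraMap k R x)) = some (algebraMap (Lf k) M' (algebraMap k (Lf k) x))
      rw [i.comm]
  have h6 : (Algebra.ofId (Lf k) M').fieldRange = ⊤ := by
    rw [eq_top_iff, ← hi.gen, IntermediateField.adjoin_le_iff]
    rintro _ ⟨x, rfl⟩
    obtain ⟨a, rfl⟩ := hs x
    rw [i.comm]
    exact ⟨algebraMap k (Lf k) a, rfl⟩
  have h7 := cls_map (c.over (Lf k)) 0 (Algebra.ofId (Lf k) M') (pt1 (ctp (Lf k) Q))
  rw [h5, h7, h6, IntermediateField.finrank_top, Nat.cast_one, one_smul]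
  rfl

theorem con_spec [IsAlgClosed k] [CharZero k] {c : Dat k} (hc : c.Good) (φ : Mor c 3) :
    ∃ Con : CH c 3 1 →+ CH (c.over (Lf k)) 1 0,
      ∀ (M : Type) [Field M] [Algebra k M] (u : Pnt 3 M) (z : Fin 3) (S : Finset (Place k M))
        (q₀ : Place k M → Fin 2 → Option k), FunF k 1 M → On (c.over M) u → φ.φ M u z ≠ 0 →
        (∀ w, w ∉ S → mult (φ.φ M u) z w = 0) →
        (∀ w ∈ S, ∀ i, SpO w (u 0 i) ((q₀ w i).map (algebraMap k (RF w)))) →
        Con (cls c 1 u) = ∑ w ∈ S, mult (φ.φ M u) z w • bpt c (q₀ w) := by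
  obtain ⟨Γ, hΓ⟩ := exists_G hc φ 0
  obtain ⟨B, hB⟩ := exists_B c 3 0
  obtain ⟨Pf, hPf⟩ := exists_pf (H7_good (algebraMap k (Lf k)) hc)
  let Γ' : CH c 3 1 →+ CH (c.over (Lf k)) 3 0 :=
    QuotientAddGroup.map (RatEq c 3 1) (RatEq (c.over (Lf k)) 3 0) Γ
      (fun e he => G_ratEq hc φ hΓ e he)
  refine ⟨Pf.comp Γ', ?_⟩
  intro M _ _ u z S q₀ hM hu hz hS hq₀
  have h0 : (Pf.comp Γ') (cls c 1 u) = Pf (QuotientAddGroup.mk (Γ (cyc k u))) := rfl
  rw [h0]
  by_cases hnc : NC k (φ.φ M u)
  · choose q hq using fun w : Place k M => spP_exists w u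
    have hres : ∀ w : Place k M, FunF k 0 (RF w) := fun w => Pool.Agent.LibHL77.res_finite hM w
    have hZ : IsZd (φ.φ M u) z u 0 (∑ w ∈ S, mult (φ.φ M u) z w • cyc k (q w)) := by
      refine ⟨S, fun w => cyc k (q w), ?_, ?_, rfl⟩
      · intro w _
        exact ⟨hres w, q w, hq w, rfl⟩
      · intro w hw hw'
        exact absurd (hS w hw) hw'
    have h1 := LG hc φ hΓ hB hM u hu hnc z hz _ hZ
    have h2 : (QuotientAddGroup.mk (Γ (cyc k u)) : CH (c.over (Lf k)) 3 0) =
        QuotientAddGroup.mk (B (∑ w ∈ S, mult (φ.φ M u) z w • cyc k (q w))) := by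
      rw [eq_comm, QuotientAddGroup.eq]
      rw [neg_add_eq_sub]
      exact h1
    rw [h2, map_sum]
    have h3 : (QuotientAddGroup.mk (∑ w ∈ S, B (mult (φ.φ M u) z w • cyc k (q w))) :
        CH (c.over (Lf k)) 3 0) = ∑ w ∈ S, mult (φ.φ M u) z w •
          (QuotientAddGroup.mk (B (cyc k (q w))) : CH (c.over (Lf k)) 3 0) := by
      change QuotientAddGroup.mk' (RatEq (c.over (Lf k)) 3 0) _ = _
      rw [map_sum]
      refine Finset.sum_congr rfl fun w _ => ?_
      rw [map_zsmul, map_zsmul]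
      rfl
    rw [h3, map_sum]
    refine Finset.sum_congr rfl fun w hw => ?_
    rw [map_zsmul]
    congr 1
    refine H7_value hB hPf (hres w) (res_k hM w) (q w) (on_sp hc hu (hq w)) (q₀ w) ?_
    intro i
    exact spO_unique (hq w 0 i) (hq₀ w hw i)
  · rw [(hΓ M u hM hu).2 hnc]
    have h1 : Pf (QuotientAddGroup.mk 0) = 0 := map_zero Pf
    rw [h1, eq_comm]
    refine Finset.sum_eq_zero fun w _ => ?_
    rw [H7_const hz hnc w]
    exact zero_zsmul _

end Pool.Agent.LibCW77
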