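import Pool.Agent.LibCW77.HDefs
import Pool.Agent.LibCW77.T0
import Pool.Agent.LibCW77.D2

/-!
[CW77 M1] The secant morphism: coordinates (write it out). Points of `ℙ¹`: `hc none = (0, 1)`, `hc (some x) = (1, x)`. `sec` off the diagonal: `(dX V_0 V'_0, dV X_0 X'_0, α dX V_1 V'_1 + dV X_1 X'_1)`, `dX = X_0 X'_1 - X_1 X'_0`, `dV` the same for `V`. On the diagonal (`P = P'`): `(lV V_0 ^ 2, - lX X_0 ^ 2, α lV V_1 ^ 2 - lX X_1 ^ 2)`.
`sec_ne`: `α ≠ 0`, `α ^ n ≠ b_i ^ n`. Off the diagonal, `dX ≠ 0`: then `V_0 V'_0 = 0`, say `V_0 = 0` (pole, `x = b_i`, `X = (1, b_i)`, `V = (0, 1)`); `φ_1 = 0`: `dV = 0`: then `V' = (0, 1)`, `x' = b_j`, `φ_2 = α dX`; or `X'_0 = 0`: `P' = (∞, v')`, `φ_2 = α dX v' + dV b_i` with `dX = 1`, `dV = -1`: `α v' = b_i` gives `α ^ n = b_i ^ n`.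
The case `V'_0 = 0` by symmetry. `dX = 0`, `dV ≠ 0`: `X_0 = 0`, `φ_2 = dV`. Diagonal: `v, x` finite: `lV = n v ^ (n-1) B(x) = 0` gives `v = 0` (`B(x) = 0` would give `A(x) = 0`), then `A(x) = 0` and `lX = - A'(a_i) ≠ 0`; pole: `lX = B'(b_i) ≠ 0`; `x = ∞`: `lV = n v ^ (n-1) ≠ 0`. `sec_map`: cases (`σ` is injective, so equal or different).
-/

open scoped Classical
open Polynomial

namespace Pool.Agent.LibCW77

open Pool.Agent.LibBH2
open Pool.Agent.LibCHd (VR RF Red FunF)
open Pool.Agent.LibHL77 (Lf tt EHom NC HE BE mult hypf)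

variable {k : Type} [Field k]

/-- homogeneous coordinates of a point of `ℙ¹` -/
def hco {M : Type} [Field M] : Option M → Fin 2 → M
  | none => ![0, 1]
  | some x => ![1, x]

/-- the determinant of two points of `ℙ¹` -/
def dt {M : Type} [Field M] (X X' : Option M) : M := hco X 0 * hco X' 1 - hco X 1 * hco X' 0

/-- the derivative with respect to `v` -/
noncomputable def lV {M : Type} [Field M] (c : Dat M) (P : Fin 2 → Option M) : M :=
  match P 1 with
  | none => 0
  | some v => (c.n : M) * v ^ (c.n - 1) * ∏ i, (hco (P 0) 1 - c.b i * hco (P 0) 0)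

/-- the derivative with respect to `x` -/
noncomputable def lX {M : Type} [Field M] (c : Dat M) (P : Fin 2 → Option M) : M :=
  match P 0 with
  | none => hco (P 1) 1 ^ c.n * ∑ i, c.b i - hco (P 1) 0 ^ c.n * ∑ i, c.a i
  | some x => hco (P 1) 1 ^ c.n * ∑ i, ∏ j ∈ Finset.univ.erase i, (x - c.b j) -
      hco (P 1) 0 ^ c.n * ∑ i, ∏ j ∈ Finset.univ.erase i, (x - c.a j)

/-- the secant morphism of `C ^ 2` to the projective plane -/
noncomputable def sec {M : Type} [Field M] (c : Dat M) (α : M) (P P' : Fin 2 → Option M) : Fin 3 → M :=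
  if P = P' then ![lV c P * hco (P 1) 0 ^ 2, - lX c P * hco (P 0) 0 ^ 2,
    α * lV c P * hco (P 1) 1 ^ 2 - lX c P * hco (P 0) 1 ^ 2]
  else ![dt (P 0) (P' 0) * hco (P 1) 0 * hco (P' 1) 0, dt (P 1) (P' 1) * hco (P 0) 0 * hco (P' 0) 0,
    α * dt (P 0) (P' 0) * hco (P 1) 1 * hco (P' 1) 1 + dt (P 1) (P' 1) * hco (P 0) 1 * hco (P' 0) 1]

/-- the condition for `α` -/
def IsAl (c : Dat k) (α : k) : Prop := α ≠ 0 ∧ ∀ i, α ^ c.n ≠ c.b i ^ c.n

theorem exists_al [IsAlgClosed k] {c : Dat k} (hc : c.Good) : ∃ α, IsAl c α := by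
  have hn : 0 < c.n := by have := hc.two; omega
  have hfin : (({0} : Set k) ∪ ⋃ i, {x : k | x ^ c.n = c.b i ^ c.n}).Finite := by
    refine (Set.finite_singleton _).union (Set.finite_iUnion fun i => ?_)
    have hne : (X ^ c.n - C (c.b i ^ c.n) : k[X]) ≠ 0 := X_pow_sub_C_ne_zero hn _
    refine ((X ^ c.n - C (c.b i ^ c.n) : k[X]).rootSet_finite k).subset ?_
    intro x hx
    rw [mem_rootSet]
    refine ⟨hne, ?_⟩
    have hx' : x ^ c.n = c.b i ^ c.n := hx
    simp [hx']
  have hinf : Infinite k := inferInstance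
  obtain ⟨α, hα⟩ := hfin.infinite_compl.nonempty
  refine ⟨α, ?_, ?_⟩
  · intro h
    exact hα (Or.inl h)
  · intro i h
    exact hα (Or.inr (Set.mem_iUnion.2 ⟨i, h⟩))

private theorem M1_hco_zero {M : Type} [Field M] (X : Option M) : hco X 0 = 0 ↔ X = none := by
  cases X with
  | none => simp [hco]
  | some x => simp [hco]

private theorem M1_dt_zero {M : Type} [Field M] (X X' : Option M) : dt X X' = 0 ↔ X = X' := by
  cases X with
  | none =>
    cases X' with
    | none => simp [hco, dt]
    | some x => simp [hco, dt]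
  | some x =>
    cases X' with
    | none => simp [hco, dt]
    | some y =>
      simp only [hco, dt, Matrix.cons_val_zero, Matrix.cons_val_one, one_mul, mul_one, Option.some.injEq]
      rw [sub_eq_zero, eq_comm]

private theorem M1_sum_erase {M : Type} [Field M] (a : Fin 3 → M) (ha : Function.Injective a) (i : Fin 3) :
    ∑ j, ∏ l ∈ Finset.univ.erase j, (a i - a l) ≠ 0 := by
  rw [Finset.sum_eq_single i]
  · rw [Finset.prod_ne_zero_iff]
    intro l hl
    rw [sub_ne_zero]
    intro h
    exact (Finset.mem_erase.1 hl).1 (ha h).symm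
  · intro j _ hj
    rw [Finset.prod_eq_zero_iff]
    exact ⟨i, Finset.mem_erase.2 ⟨fun h => hj h.symm, Finset.mem_univ _⟩, sub_self _⟩
  · intro h
    exact absurd (Finset.mem_univ _) h

private theorem M1_ne {M : Type} [Field M] [CharZero M] {c : Dat M} (h2 : 2 ≤ c.n) (ha : Function.Injective c.a)
    (hb : Function.Injective c.b) (hab : ∀ i j, c.a i ≠ c.b j) {α : M} (h0 : α ≠ 0)
    (hα : ∀ i, α ^ c.n ≠ c.b i ^ c.n) (P P' : Fin 2 → Option M) (hP : OnC c (P 0) (P 1))
    (hP' : OnC c (P' 0) (P' 1)) : ∃ i, sec c α P P' i ≠ 0 := by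
  have hn : c.n ≠ 0 := by omega
  have hn1 : c.n - 1 ≠ 0 := by omega
  have hnM : (c.n : M) ≠ 0 := Nat.cast_ne_zero.2 hn
  by_contra hcon
  push Not at hcon
  have s0 := hcon 0
  have s1 := hcon 1
  have s2 := hcon 2
  unfold sec at s0 s1 s2
  by_cases hPP : P = P'
  · rw [if_pos hPP] at s0 s1 s2
    simp only [Matrix.cons_val_zero, Matrix.cons_val_one] at s0 s1
    rcases h0' : P 0 with _ | x
    · rcases h1' : P 1 with _ | v
      · rw [h0', h1'] at hP
        exact hP
      · rw [h0', h1'] at hP
        have hv : v ^ c.n = 1 := hP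
        have hv0 : v ≠ 0 := by
          rintro rfl
          rw [zero_pow hn] at hv
          exact zero_ne_one hv
        have hl : lV c P = (c.n : M) * v ^ (c.n - 1) := by
          unfold lV
          rw [h1', h0']
          simp [hco]
        rw [hl, h1'] at s0
        simp only [hco, Matrix.cons_val_zero, one_pow, mul_one] at s0
        exact mul_ne_zero hnM (pow_ne_zero _ hv0) s0
    · rcases h1' : P 1 with _ | v
      · rw [h0', h1'] at hP
        obtain ⟨i, hi⟩ : ∃ i, x = c.b i := hP
        have hl : lX c P = ∑ j, ∏ l ∈ Finset.univ.erase j, (c.b i - c.b l) := by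
          unfold lX
          rw [h0', h1']
          simp [hco, hi, hn]
        rw [hl, h0'] at s1
        simp only [hco, Matrix.cons_val_zero, one_pow, mul_one, neg_eq_zero] at s1
        exact M1_sum_erase c.b hb i s1
      · rw [h0', h1'] at hP
        have hc : v ^ c.n * ∏ i, (x - c.b i) = ∏ i, (x - c.a i) := hP
        have hl : lV c P = (c.n : M) * v ^ (c.n - 1) * ∏ i, (x - c.b i) := by
          unfold lV
          rw [h1', h0']
          simp [hco]
        have hl2 : lX c P = v ^ c.n * ∑ i, ∏ j ∈ Finset.univ.erase i, (x - c.b j) -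
            ∑ i, ∏ j ∈ Finset.univ.erase i, (x - c.a j) := by
          unfold lX
          rw [h0', h1']
          simp [hco]
        rw [hl, h1'] at s0
        rw [hl2, h0'] at s1
        simp only [hco, Matrix.cons_val_zero, one_pow, mul_one, neg_eq_zero] at s0 s1
        rcases mul_eq_zero.1 s0 with h | h
        · have hv : v = 0 := by
            rcases mul_eq_zero.1 h with h | h
            · exact absurd h hnM
            · exact pow_eq_zero_iff hn1 |>.1 h
          rw [hv, zero_pow hn, zero_mul] at hc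
          rw [hv, zero_pow hn, zero_mul, zero_sub, neg_eq_zero] at s1
          obtain ⟨i, -, hi⟩ := Finset.prod_eq_zero_iff.1 hc.symm
          rw [sub_eq_zero] at hi
          rw [hi] at s1
          exact M1_sum_erase c.a ha i s1
        · rw [h, mul_zero] at hc
          obtain ⟨i, -, hi⟩ := Finset.prod_eq_zero_iff.1 hc.symm
          obtain ⟨j, -, hj⟩ := Finset.prod_eq_zero_iff.1 h
          rw [sub_eq_zero] at hi hj
          exact hab i j (hi ▸ hj)
  · rw [if_neg hPP] at s0 s1 s2
    simp only [Matrix.cons_val_zero, Matrix.cons_val_one, Matrix.cons_val] at s0 s1 s2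
    by_cases hX : P 0 = P' 0
    · have hV : dt (P 1) (P' 1) ≠ 0 := by
        intro h
        rw [M1_dt_zero] at h
        apply hPP
        funext a
        fin_cases a
        · exact hX
        · exact h
      have hdX : dt (P 0) (P' 0) = 0 := (M1_dt_zero _ _).2 hX
      rw [← hX] at s1 s2
      have h3 : hco (P 0) 0 = 0 := by
        rcases mul_eq_zero.1 s1 with h | h
        · rcases mul_eq_zero.1 h with h | h
          · exact absurd h hV
          · exact h
        · exact h
      rw [M1_hco_zero] at h3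
      rw [(M1_dt_zero _ _).2 rfl, h3] at s2
      simp [hco] at s2
      exact hV s2
    · have hdX : dt (P 0) (P' 0) ≠ 0 := fun h => hX ((M1_dt_zero _ _).1 h)
      have key : hco (P 1) 0 = 0 ∨ hco (P' 1) 0 = 0 := by
        rcases mul_eq_zero.1 s0 with h | h
        · rcases mul_eq_zero.1 h with h | h
          · exact absurd h hdX
          · exact Or.inl h
        · exact Or.inr h
      have hboth : P 1 = none → P' 1 = none → False := by
        intro h1 h2
        rw [h1, h2, (M1_dt_zero _ _).2 rfl] at s2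
        simp only [hco, Matrix.cons_val_one, Matrix.cons_val_zero, mul_one, zero_mul, add_zero] at s2
        exact mul_ne_zero h0 hdX s2
      rcases key with h | h
      · rw [M1_hco_zero] at h
        rcases h1 : P' 1 with _ | v'
        · exact hboth h h1
        · rcases hx : P 0 with _ | x
          · rw [hx, h] at hP
            exact hP
          · rw [hx, h] at hP
            obtain ⟨i, hi⟩ : ∃ i, x = c.b i := hP
            rcases hx' : P' 0 with _ | x'
            · rw [hx', h1] at hP'
              have hv : v' ^ c.n = 1 := hP'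
              rw [h, h1, hx, hx'] at s2
              simp only [dt, hco, Matrix.cons_val_zero, Matrix.cons_val_one] at s2
              have e : α * v' = x := by linear_combination s2
              apply hα i
              rw [← hi, ← e, mul_pow, hv, mul_one]
            · rw [h, h1, hx, hx'] at s1
              simp [dt, hco] at s1
      · rw [M1_hco_zero] at h
        rcases h1 : P 1 with _ | v
        · exact hboth h1 h
        · rcases hx : P' 0 with _ | x
          · rw [hx, h] at hP'
            exact hP'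
          · rw [hx, h] at hP'
            obtain ⟨i, hi⟩ : ∃ i, x = c.b i := hP'
            rcases hx' : P 0 with _ | x'
            · rw [hx', h1] at hP
              have hv : v ^ c.n = 1 := hP
              rw [h, h1, hx, hx'] at s2
              simp only [dt, hco, Matrix.cons_val_zero, Matrix.cons_val_one] at s2
              have e : α * v = x := by linear_combination - s2
              apply hα i
              rw [← hi, ← e, mul_pow, hv, mul_one]
            · rw [h, h1, hx, hx'] at s1
              simp [dt, hco] at s1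

theorem sec_ne [CharZero k] {c : Dat k} (hc : c.Good) {α : k} (hα : IsAl c α) {M : Type} [Field M] [Algebra k M]
    (P P' : Fin 2 → Option M) (hP : OnC (c.over M) (P 0) (P 1)) (hP' : OnC (c.over M) (P' 0) (P' 1)) :
    ∃ i, sec (c.over M) (algebraMap k M α) P P' i ≠ 0 := by
  have hinj : Function.Injective (algebraMap k M) := (algebraMap k M).injective
  have : CharZero M := charZero_of_injective_algebraMap hinj
  refine M1_ne (c := c.over M) hc.two ?_ ?_ ?_ ?_ ?_ P P' hP hP'
  · intro i j h
    have h1 : c.a i = c.a j := hinj h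
    have h2 := hc.inj (a₁ := Sum.inl i) (a₂ := Sum.inl j) h1
    exact Sum.inl_injective h2
  · intro i j h
    have h1 : c.b i = c.b j := hinj h
    have h2 := hc.inj (a₁ := Sum.inr i) (a₂ := Sum.inr j) h1
    exact Sum.inr_injective h2
  · intro i j h
    have h1 : c.a i = c.b j := hinj h
    have h2 := hc.inj (a₁ := Sum.inl i) (a₂ := Sum.inr j) h1
    exact Sum.inl_ne_inr h2
  · exact (_root_.map_ne_zero _).2 hα.1
  · intro i h
    apply hα.2 i
    apply hinj
    rw [map_pow, map_pow]
    exact h

private theorem M1_hco_map {M M' : Type} [Field M] [Field M'] (σ : M →+* M') (X : Option M) (i : Fin 2) :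
    hco (X.map σ) i = σ (hco X i) := by
  cases X with
  | none => fin_cases i <;> simp [hco]
  | some x => fin_cases i <;> simp [hco]

private theorem M1_dt_map {M M' : Type} [Field M] [Field M'] (σ : M →+* M') (X X' : Option M) :
    dt (X.map σ) (X'.map σ) = σ (dt X X') := by
  unfold dt
  rw [M1_hco_map, M1_hco_map, M1_hco_map, M1_hco_map, map_sub, map_mul, map_mul]

private theorem M1_lV_map {M M' : Type} [Field M] [Field M'] (σ : M →+* M') (c : Dat M) (P : Fin 2 → Option M) :
    lV (c.map σ) (fun a => (P a).map σ) = σ (lV c P) := by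
  unfold lV
  rcases h : P 1 with _ | v
  · simp only [h, Option.map_none, map_zero]
  · simp only [h, Option.map_some, M1_hco_map, map_mul, map_pow, map_natCast, map_prod, map_sub]
    rfl

private theorem M1_lX_map {M M' : Type} [Field M] [Field M'] (σ : M →+* M') (c : Dat M) (P : Fin 2 → Option M) :
    lX (c.map σ) (fun a => (P a).map σ) = σ (lX c P) := by
  unfold lX
  rcases h : P 0 with _ | x
  · simp only [h, Option.map_none, M1_hco_map, map_mul, map_pow, map_sum, map_sub]
    rfl
  · simp only [h, Option.map_some, M1_hco_map, map_mul, map_pow, map_sum, map_prod, map_sub]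
    rfl

private theorem M1_sec_map {M M' : Type} [Field M] [Field M'] (σ : M →+* M') (c : Dat M) (α : M)
    (P P' : Fin 2 → Option M) (i : Fin 3) :
    sec (c.map σ) (σ α) (fun a => (P a).map σ) (fun a => (P' a).map σ) i = σ (sec c α P P' i) := by
  have hiff : ((fun a => (P a).map σ) = fun a => (P' a).map σ) ↔ P = P' := by
    constructor
    · intro h
      funext a
      exact Option.map_injective σ.injective (congrFun h a)
    · rintro rfl
      rfl
  unfold sec
  by_cases h : P = P'
  · rw [if_pos h, if_pos (hiff.2 h)]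
    fin_cases i
    · show lV (c.map σ) (fun a => (P a).map σ) * hco ((P 1).map σ) 0 ^ 2 = σ (lV c P * hco (P 1) 0 ^ 2)
      rw [M1_lV_map, M1_hco_map, map_mul, map_pow]
    · show - lX (c.map σ) (fun a => (P a).map σ) * hco ((P 0).map σ) 0 ^ 2 = σ (- lX c P * hco (P 0) 0 ^ 2)
      rw [M1_lX_map, M1_hco_map, map_mul, map_pow, map_neg]
    · show σ α * lV (c.map σ) (fun a => (P a).map σ) * hco ((P 1).map σ) 1 ^ 2 -
        lX (c.map σ) (fun a => (P a).map σ) * hco ((P 0).map σ) 1 ^ 2 =
          σ (α * lV c P * hco (P 1) 1 ^ 2 - lX c P * hco (P 0) 1 ^ 2)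
      rw [M1_lV_map, M1_lX_map, M1_hco_map, M1_hco_map]
      simp only [map_mul, map_pow, map_sub]
  · rw [if_neg h, if_neg fun h' => h (hiff.1 h')]
    fin_cases i
    · show dt ((P 0).map σ) ((P' 0).map σ) * hco ((P 1).map σ) 0 * hco ((P' 1).map σ) 0 =
        σ (dt (P 0) (P' 0) * hco (P 1) 0 * hco (P' 1) 0)
      rw [M1_dt_map, M1_hco_map, M1_hco_map, map_mul, map_mul]
    · show dt ((P 1).map σ) ((P' 1).map σ) * hco ((P 0).map σ) 0 * hco ((P' 0).map σ) 0 =
        σ (dt (P 1) (P' 1) * hco (P 0) 0 * hco (P' 0) 0)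
      rw [M1_dt_map, M1_hco_map, M1_hco_map, map_mul, map_mul]
    · show σ α * dt ((P 0).map σ) ((P' 0).map σ) * hco ((P 1).map σ) 1 * hco ((P' 1).map σ) 1 +
        dt ((P 1).map σ) ((P' 1).map σ) * hco ((P 0).map σ) 1 * hco ((P' 0).map σ) 1 =
        σ (α * dt (P 0) (P' 0) * hco (P 1) 1 * hco (P' 1) 1 + dt (P 1) (P' 1) * hco (P 0) 1 * hco (P' 0) 1)
      rw [M1_dt_map, M1_dt_map, M1_hco_map, M1_hco_map, M1_hco_map, M1_hco_map]
      simp only [map_mul, map_add]

theorem sec_map {c : Dat k} {α : k} {M M' : Type} [Field M] [Algebra k M] [Field M'] [Algebra k M'] (σ : M →ₐ[k] M')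
    (P P' : Fin 2 → Option M) (i : Fin 3) :
    sec (c.over M') (algebraMap k M' α) (fun a => (P a).map σ) (fun a => (P' a).map σ) i =
      σ (sec (c.over M) (algebraMap k M α) P P' i) := by
  have h1 : c.over M' = (c.over M).map σ.toRingHom := by
    unfold Dat.over Dat.map
    congr 1
    · funext i
      exact (σ.commutes _).symm
    · funext i
      exact (σ.commutes _).symm
  have h2 : algebraMap k M' α = σ.toRingHom (algebraMap k M α) := (σ.commutes _).symm
  rw [h1, h2]
  exact M1_sec_map σ.toRingHom (c.over M) (algebraMap k M α) P P' i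

end Pool.Agent.LibCW77
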