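import Pool.Agent.LibCW77.HDefs
import Pool.Agent.LibCW77.M1
import Pool.Agent.LibCW77.D1

/-!
[CW77 M2] The secant morphism and specialisation. Let `P, P'` be points over `K`, `q, q'` their specialisations. For every `o : Option K` with specialisation `p` there is `l ≠ 0` with `Red v (l * hco o a) (hco p a)` for `a = 0, 1` (`hco_sp`: `l = 1`, or `x⁻¹` if `x` has a pole). (1) `P ≠ P'`, `q ≠ q'`: the coordinates are polynomials in the `hco`, homogeneous in
the right way: multiply with the product of the four factors (`l_X l_X' l_V l_V'`; for the third coordinate the same). (2) `P = P'` (so `q = q'`): `lV`, `lX` specialise up to factors: in homogeneous form `lV · V_0` is `n V_1 ^ (n-1) B(X)` etc.; do the cases (`x` finite or not, `v` finite or not; specialisations finite or not), using the equation of the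
curve: factor `l` with `Red v (l * lV) (lV q)`, ... e.g. both finite: `1`; alternatively reduce (2) to (3)-type identities. (3) `P ≠ P'`, `q = q'`: choose for `x` the chart of `ℙ¹` (`s = x` or `s = x⁻¹`) in which `q 0` is finite, both `x, x'` are regular there, the same for `v` (`t = v` or `t = v⁻¹`). Let `H(s, t)` be the equation of the curve
in this chart (`t ^ n B(s) - A(s)`, `B(s) - t ^ n A(s)`, and with the reversed polynomials `∏ (1 - a_i s)`). `0 = H(s, t) - H(s', t') = (s - s') G₁ + (t - t') G₂` with `G₁, G₂` polynomials in the four (regular) elements (divided differences), whose residues are `H_s, H_t` at the point; one of them is not `0`. So with `l = G₂ / (s' - s)` or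
`l = G₁ / (t - t')` (use the nonvanishing one; the other quotient follows) `l * (s' - s) → H_t`, `l * (t' - t) → - H_s`, and `dt`, `hco` in the chart are `± (s' - s)`, `± (t' - t)` up to the factors of `hco_sp`. Compare with `lV, lX` in each chart (signs). See LibHL77/M2.lean, M3.lean for the hyperelliptic case.
-/

open scoped Classical
open Polynomial

namespace Pool.Agent.LibCW77

open Pool.Agent.LibBH2
open Pool.Agent.LibCHd (VR RF Red FunF)
open Pool.Agent.LibHL77 (Lf tt EHom NC HE BE mult hypf)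

variable {k : Type} [Field k]

section M2_aux

variable {K : Type} [Field K] [Algebra k K] {v : Place k K}

private theorem M2_nat (n : ℕ) : Red v (n : K) (n : RF v) := by
  have h := LibCHd.red_const v (n : k)
  rwa [map_natCast, map_natCast] at h

private theorem M2_sum {ι : Type} (s : Finset ι) (f : ι → K) (g : ι → RF v) (h : ∀ i ∈ s, Red v (f i) (g i)) :
    Red v (∑ i ∈ s, f i) (∑ i ∈ s, g i) := by
  induction s using Finset.induction_on with
  | empty => simpa using LibCHd.red_zero v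
  | insert a s ha ih =>
    rw [Finset.sum_insert ha, Finset.sum_insert ha]
    exact (h a (Finset.mem_insert_self _ _)).add (ih fun i hi => h i (Finset.mem_insert_of_mem hi))

private theorem M2_prod {ι : Type} (s : Finset ι) (f : ι → K) (g : ι → RF v) (h : ∀ i ∈ s, Red v (f i) (g i)) :
    Red v (∏ i ∈ s, f i) (∏ i ∈ s, g i) := by
  induction s using Finset.induction_on with
  | empty => simpa using LibCHd.red_one v
  | insert a s ha ih =>
    rw [Finset.prod_insert ha, Finset.prod_insert ha]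
    exact (h a (Finset.mem_insert_self _ _)).mul (ih fun i hi => h i (Finset.mem_insert_of_mem hi))

private theorem M2_B {c : Dat k} {x : K} {x₀ : RF v} (h : Red v x x₀) :
    Red v (∏ i, (x - (c.over K).b i)) (∏ i, (x₀ - (c.over (RF v)).b i)) :=
  M2_prod _ _ _ fun i _ => h.sub (LibCHd.red_const v (c.b i))

private theorem M2_A {c : Dat k} {x : K} {x₀ : RF v} (h : Red v x x₀) :
    Red v (∏ i, (x - (c.over K).a i)) (∏ i, (x₀ - (c.over (RF v)).a i)) :=
  M2_prod _ _ _ fun i _ => h.sub (LibCHd.red_const v (c.a i))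

private theorem M2_DB {c : Dat k} {x : K} {x₀ : RF v} (h : Red v x x₀) :
    Red v (∑ i, ∏ j ∈ Finset.univ.erase i, (x - (c.over K).b j))
      (∑ i, ∏ j ∈ Finset.univ.erase i, (x₀ - (c.over (RF v)).b j)) :=
  M2_sum _ _ _ fun _ _ => M2_prod _ _ _ fun j _ => h.sub (LibCHd.red_const v (c.b j))

private theorem M2_DA {c : Dat k} {x : K} {x₀ : RF v} (h : Red v x x₀) :
    Red v (∑ i, ∏ j ∈ Finset.univ.erase i, (x - (c.over K).a j))
      (∑ i, ∏ j ∈ Finset.univ.erase i, (x₀ - (c.over (RF v)).a j)) :=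
  M2_sum _ _ _ fun _ _ => M2_prod _ _ _ fun j _ => h.sub (LibCHd.red_const v (c.a j))

end M2_aux

private theorem M2_D3 {M : Type} [Field M] (x : M) (b : Fin 3 → M) :
    ∑ i, ∏ j ∈ Finset.univ.erase i, (x - b j) =
      (x - b 1) * (x - b 2) + (x - b 0) * (x - b 2) + (x - b 0) * (x - b 1) := by
  have e0 : (Finset.univ.erase (0 : Fin 3)) = {1, 2} := by decide
  have e1 : (Finset.univ.erase (1 : Fin 3)) = {0, 2} := by decide
  have e2 : (Finset.univ.erase (2 : Fin 3)) = {0, 1} := by decide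
  rw [Fin.sum_univ_three, e0, e1, e2, Finset.prod_pair (by decide), Finset.prod_pair (by decide),
    Finset.prod_pair (by decide)]

private theorem M2_lV_some {M : Type} [Field M] (c : Dat M) {P : Fin 2 → Option M} {y : M} (h : P 1 = some y) :
    lV c P = (c.n : M) * y ^ (c.n - 1) * ∏ i, (hco (P 0) 1 - c.b i * hco (P 0) 0) := by
  unfold lV
  rw [h]

private theorem M2_lV_none {M : Type} [Field M] (c : Dat M) {P : Fin 2 → Option M} (h : P 1 = none) :
    lV c P = 0 := by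
  unfold lV
  rw [h]

private theorem M2_lX_some {M : Type} [Field M] (c : Dat M) {P : Fin 2 → Option M} {x : M} (h : P 0 = some x) :
    lX c P = hco (P 1) 1 ^ c.n * ∑ i, ∏ j ∈ Finset.univ.erase i, (x - c.b j) -
      hco (P 1) 0 ^ c.n * ∑ i, ∏ j ∈ Finset.univ.erase i, (x - c.a j) := by
  unfold lX
  rw [h]

private theorem M2_lX_none {M : Type} [Field M] (c : Dat M) {P : Fin 2 → Option M} (h : P 0 = none) :
    lX c P = hco (P 1) 1 ^ c.n * ∑ i, c.b i - hco (P 1) 0 ^ c.n * ∑ i, c.a i := by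
  unfold lX
  rw [h]

private theorem M2_sec_self {M : Type} [Field M] (c : Dat M) (α : M) (P : Fin 2 → Option M) :
    sec c α P P = ![lV c P * hco (P 1) 0 ^ 2, - lX c P * hco (P 0) 0 ^ 2,
      α * lV c P * hco (P 1) 1 ^ 2 - lX c P * hco (P 0) 1 ^ 2] := by
  unfold sec
  rw [if_pos rfl]

private theorem M2_h0 {M : Type} [Field M] (x : M) : hco (some x) 0 = 1 := rfl
private theorem M2_h1 {M : Type} [Field M] (x : M) : hco (some x) 1 = x := rfl
private theorem M2_n0 {M : Type} [Field M] : hco (none : Option M) 0 = 0 := rfl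
private theorem M2_n1 {M : Type} [Field M] : hco (none : Option M) 1 = 1 := rfl

private theorem M2_zinv {K : Type} [Field K] [Algebra k K] {v : Place k K} {x : K} (h : v.ord x < 0) :
    x ≠ 0 ∧ Red v x⁻¹ 0 := by
  have h0 : x ≠ 0 := by
    rintro rfl
    rw [v.ord_zero] at h
    exact lt_irrefl _ h
  exact ⟨h0, LibCHd.red_zero_iff.2 (Or.inr (by rw [v.ord_inv]; omega))⟩

theorem hco_sp {K : Type} [Field K] [Algebra k K] {v : Place k K} {o : Option K} {p : Option (RF v)} (h : SpO v o p) :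
    ∃ l : K, l ≠ 0 ∧ ∀ a, Red v (l * hco o a) (hco p a) := by
  rcases o with _ | x
  · have hp : p = none := h
    subst hp
    refine ⟨1, one_ne_zero, fun a => ?_⟩
    rw [one_mul]
    fin_cases a
    · exact LibCHd.red_zero v
    · exact LibCHd.red_one v
  · rcases p with _ | x₀
    · obtain ⟨h0, h1⟩ := M2_zinv (show v.ord x < 0 from h)
      refine ⟨x⁻¹, inv_ne_zero h0, fun a => ?_⟩
      fin_cases a
      · change Red v (x⁻¹ * 1) 0
        rw [mul_one]
        exact h1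
      · change Red v (x⁻¹ * x) 1
        rw [inv_mul_cancel₀ h0]
        exact LibCHd.red_one v
    · refine ⟨1, one_ne_zero, fun a => ?_⟩
      rw [one_mul]
      fin_cases a
      · exact LibCHd.red_one v
      · exact h

/-- off the diagonal -/
theorem sec_sp_off {c : Dat k} (hc : c.Good) {α : k} {K : Type} [Field K] [Algebra k K] {v : Place k K}
    {P P' : Fin 2 → Option K} {q q' : Fin 2 → Option (RF v)} (hq : ∀ i, SpO v (P i) (q i))
    (hq' : ∀ i, SpO v (P' i) (q' i)) (hne : q ≠ q') :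
    ∃ l : K, ∀ i, Red v (l * sec (c.over K) (algebraMap k K α) P P' i)
      (sec (c.over (RF v)) (algebraMap k (RF v) α) q q' i) := by
  have hneP : P ≠ P' := by
    rintro rfl
    exact hne (funext fun i => spO_unique (hq i) (hq' i))
  obtain ⟨a, -, ha⟩ := hco_sp (hq 0)
  obtain ⟨a', -, ha'⟩ := hco_sp (hq' 0)
  obtain ⟨b, -, hb⟩ := hco_sp (hq 1)
  obtain ⟨b', -, hb'⟩ := hco_sp (hq' 1)
  refine ⟨a * a' * (b * b'), fun i => ?_⟩
  unfold sec
  rw [if_neg hneP, if_neg hne]
  have hdX : Red v (a * a' * dt (P 0) (P' 0)) (dt (q 0) (q' 0)) := by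
    have h := ((ha 0).mul (ha' 1)).sub ((ha 1).mul (ha' 0))
    unfold dt
    convert h using 1
    ring
  have hdV : Red v (b * b' * dt (P 1) (P' 1)) (dt (q 1) (q' 1)) := by
    have h := ((hb 0).mul (hb' 1)).sub ((hb 1).mul (hb' 0))
    unfold dt
    convert h using 1
    ring
  fin_cases i
  · have h := (hdX.mul (hb 0)).mul (hb' 0)
    change Red v (a * a' * (b * b') * (dt (P 0) (P' 0) * hco (P 1) 0 * hco (P' 1) 0))
      (dt (q 0) (q' 0) * hco (q 1) 0 * hco (q' 1) 0)
    convert h using 1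
    ring
  · have h := (hdV.mul (ha 0)).mul (ha' 0)
    change Red v (a * a' * (b * b') * (dt (P 1) (P' 1) * hco (P 0) 0 * hco (P' 0) 0))
      (dt (q 1) (q' 1) * hco (q 0) 0 * hco (q' 0) 0)
    convert h using 1
    ring
  · have h := ((((LibCHd.red_const v α).mul hdX).mul (hb 1)).mul (hb' 1)).add
      ((hdV.mul (ha 1)).mul (ha' 1))
    change Red v (a * a' * (b * b') * (algebraMap k K α * dt (P 0) (P' 0) * hco (P 1) 1 * hco (P' 1) 1 +
        dt (P 1) (P' 1) * hco (P 0) 1 * hco (P' 0) 1))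
      (algebraMap k (RF v) α * dt (q 0) (q' 0) * hco (q 1) 1 * hco (q' 1) 1 +
        dt (q 1) (q' 1) * hco (q 0) 1 * hco (q' 0) 1)
    convert h using 1
    ring

/-- three coordinates -/
private theorem M2_three {K : Type} [Field K] [Algebra k K] {v : Place k K} {l : K} {A B C : K}
    {a b c : RF v} (h0 : Red v (l * A) a) (h1 : Red v (l * B) b) (h2 : Red v (l * C) c) :
    ∃ l : K, ∀ i, Red v (l * ![A, B, C] i) (![a, b, c] i) := by
  refine ⟨l, fun i => ?_⟩
  fin_cases i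
  · exact h0
  · exact h1
  · exact h2

/-- the point at infinity, approached by finite points -/
private theorem M2_C2 {K : Type} [Field K] [Algebra k K] {v : Place k K} {x y α : K} {y₀ α₀ : RF v}
    {a b : Fin 3 → K} {a₀ b₀ : Fin 3 → RF v} (m : ℕ) (hx0 : x ≠ 0) (hs : Red v x⁻¹ 0) (hy : Red v y y₀)
    (hy1 : y₀ ^ (m + 2) = 1) (ra : ∀ i, Red v (a i) (a₀ i)) (rb : ∀ i, Red v (b i) (b₀ i)) (hα : Red v α α₀)
    (heq : y ^ (m + 2) * ∏ i, (x - b i) = ∏ i, (x - a i)) :
    Red v (x⁻¹ ^ 3 * ((((m + 2 : ℕ) : K) * y ^ (m + 2 - 1) * ∏ i, (x - b i * 1)) * 1 ^ 2))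
      ((((m + 2 : ℕ) : RF v) * y₀ ^ (m + 2 - 1) * ∏ i, (1 - b₀ i * 0)) * 1 ^ 2) ∧
    Red v (x⁻¹ ^ 3 * (-(y ^ (m + 2) * ∑ i, ∏ j ∈ Finset.univ.erase i, (x - b j) -
        1 ^ (m + 2) * ∑ i, ∏ j ∈ Finset.univ.erase i, (x - a j)) * 1 ^ 2))
      (-(y₀ ^ (m + 2) * ∑ i, b₀ i - 1 ^ (m + 2) * ∑ i, a₀ i) * 0 ^ 2) ∧
    Red v (x⁻¹ ^ 3 * (α * (((m + 2 : ℕ) : K) * y ^ (m + 2 - 1) * ∏ i, (x - b i * 1)) * y ^ 2 -
        (y ^ (m + 2) * ∑ i, ∏ j ∈ Finset.univ.erase i, (x - b j) -
          1 ^ (m + 2) * ∑ i, ∏ j ∈ Finset.univ.erase i, (x - a j)) * x ^ 2))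
      (α₀ * (((m + 2 : ℕ) : RF v) * y₀ ^ (m + 2 - 1) * ∏ i, (1 - b₀ i * 0)) * y₀ ^ 2 -
        (y₀ ^ (m + 2) * ∑ i, b₀ i - 1 ^ (m + 2) * ∑ i, a₀ i) * 1 ^ 2) := by
  obtain ⟨s, hxs⟩ : ∃ s, s = x⁻¹ := ⟨_, rfl⟩
  have hs0 : s ≠ 0 := by
    rw [hxs]
    exact inv_ne_zero hx0
  have hx : x = s⁻¹ := by rw [hxs, inv_inv]
  rw [← hxs] at hs
  subst hx
  rw [inv_inv]
  have hB : Red v ((1 - b 0 * s) * (1 - b 1 * s) * (1 - b 2 * s)) 1 := by
    have h := ((LibCHd.red_one v).sub ((rb 0).mul hs)).mul ((LibCHd.red_one v).sub ((rb 1).mul hs))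
    have h' := h.mul ((LibCHd.red_one v).sub ((rb 2).mul hs))
    simpa using h'
  have hB0 : (1 - b 0 * s) * (1 - b 1 * s) * (1 - b 2 * s) ≠ 0 := hB.ne_zero one_ne_zero
  rw [Fin.prod_univ_three, Fin.prod_univ_three] at heq
  have heq' : y ^ (m + 2) * ((1 - b 0 * s) * (1 - b 1 * s) * (1 - b 2 * s)) =
      (1 - a 0 * s) * (1 - a 1 * s) * (1 - a 2 * s) := by
    have h1 : s ^ 3 * (y ^ (m + 2) * ((s⁻¹ - b 0) * (s⁻¹ - b 1) * (s⁻¹ - b 2))) =
        s ^ 3 * ((s⁻¹ - a 0) * (s⁻¹ - a 1) * (s⁻¹ - a 2)) := by rw [heq]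
    have h2 : s ^ 3 * (y ^ (m + 2) * ((s⁻¹ - b 0) * (s⁻¹ - b 1) * (s⁻¹ - b 2))) =
        y ^ (m + 2) * ((1 - b 0 * s) * (1 - b 1 * s) * (1 - b 2 * s)) := by
      field_simp
    have h3 : s ^ 3 * ((s⁻¹ - a 0) * (s⁻¹ - a 1) * (s⁻¹ - a 2)) =
        (1 - a 0 * s) * (1 - a 1 * s) * (1 - a 2 * s) := by
      field_simp
    rw [← h2, h1, h3]
  have hyn : y ^ (m + 2) = (1 - a 0 * s) * (1 - a 1 * s) * (1 - a 2 * s) /
      ((1 - b 0 * s) * (1 - b 1 * s) * (1 - b 2 * s)) := by
    rw [eq_div_iff hB0]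
    exact heq'
  rw [M2_D3, M2_D3, Fin.prod_univ_three, Fin.sum_univ_three, Fin.sum_univ_three]
  have e1 : m + 2 - 1 = m + 1 := rfl
  have e2 : ∏ i, (1 - b₀ i * 0) = 1 := Finset.prod_eq_one fun i _ => by rw [mul_zero, sub_zero]
  rw [e1, e2]
  have hn := M2_nat (v := v) (m + 2)
  have h1 : Red v (s ^ 3 * (((m + 2 : ℕ) : K) * y ^ (m + 1) *
      ((s⁻¹ - b 0 * 1) * (s⁻¹ - b 1 * 1) * (s⁻¹ - b 2 * 1)) * 1 ^ 2))
      (((m + 2 : ℕ) : RF v) * y₀ ^ (m + 1)) := by
    have h := (hn.mul (hy.pow (m + 1))).mul hB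
    rw [mul_one] at h
    convert h using 1
    field_simp
  refine ⟨?_, ?_, ?_⟩
  · convert h1 using 1
    ring
  · have hD : ∀ c : Fin 3 → K, ∀ c₀ : Fin 3 → RF v, (∀ i, Red v (c i) (c₀ i)) →
        Red v (s ^ 3 * ((s⁻¹ - c 1) * (s⁻¹ - c 2) + (s⁻¹ - c 0) * (s⁻¹ - c 2) + (s⁻¹ - c 0) * (s⁻¹ - c 1))) 0 := by
      intro c c₀ rc
      have g0 := (LibCHd.red_one v).sub ((rc 0).mul hs)
      have g1 := (LibCHd.red_one v).sub ((rc 1).mul hs)
      have g2 := (LibCHd.red_one v).sub ((rc 2).mul hs)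
      have h := hs.mul (((g1.mul g2).add (g0.mul g2)).add (g0.mul g1))
      rw [zero_mul] at h
      convert h using 1
      field_simp
    have h2 := ((hy.pow (m + 2)).mul (hD b b₀ rb)).sub (hD a a₀ ra)
    have h3 := h2.neg
    rw [mul_zero, sub_zero, neg_zero] at h3
    rw [zero_pow two_ne_zero, mul_zero]
    convert h3 using 1
    ring
  · have hG : Red v ((b 0 + b 1 + b 2 - (a 0 + a 1 + a 2)) + s *
        (2 * (a 0 * a 1 + a 0 * a 2 + a 1 * a 2) - 2 * (b 0 * b 1 + b 0 * b 2 + b 1 * b 2) +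
        s * ((a 0 + a 1 + a 2) * (b 0 * b 1 + b 0 * b 2 + b 1 * b 2) -
          (a 0 * a 1 + a 0 * a 2 + a 1 * a 2) * (b 0 + b 1 + b 2) - 3 * (a 0 * a 1 * a 2) + 3 * (b 0 * b 1 * b 2) +
        s * (2 * (a 0 * a 1 * a 2) * (b 0 + b 1 + b 2) - 2 * (b 0 * b 1 * b 2) * (a 0 + a 1 + a 2) +
        s * ((b 0 * b 1 * b 2) * (a 0 * a 1 + a 0 * a 2 + a 1 * a 2) -
          (a 0 * a 1 * a 2) * (b 0 * b 1 + b 0 * b 2 + b 1 * b 2))))))
        (b₀ 0 + b₀ 1 + b₀ 2 - (a₀ 0 + a₀ 1 + a₀ 2)) := by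
      have r2 : Red v (2 : K) 2 := by
        have := M2_nat (v := v) 2
        simpa using this
      have r3 : Red v (3 : K) 3 := by
        have := M2_nat (v := v) 3
        simpa using this
      have a1 := ((ra 0).add (ra 1)).add (ra 2)
      have a2 := (((ra 0).mul (ra 1)).add ((ra 0).mul (ra 2))).add ((ra 1).mul (ra 2))
      have a3 := ((ra 0).mul (ra 1)).mul (ra 2)
      have b1 := ((rb 0).add (rb 1)).add (rb 2)
      have b2 := (((rb 0).mul (rb 1)).add ((rb 0).mul (rb 2))).add ((rb 1).mul (rb 2))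
      have b3 := ((rb 0).mul (rb 1)).mul (rb 2)
      have g4 := hs.mul ((b3.mul a2).sub (a3.mul b2))
      have g3 := hs.mul ((((r2.mul a3).mul b1).sub ((r2.mul b3).mul a1)).add g4)
      have g2 := hs.mul (((((a1.mul b2).sub (a2.mul b1)).sub (r3.mul a3)).add (r3.mul b3)).add g3)
      have g1 := hs.mul (((r2.mul a2).sub (r2.mul b2)).add g2)
      have g0 := (b1.sub a1).add g1
      rw [zero_mul, add_zero] at g0
      exact g0
    have hGB := hG.div hB one_ne_zero
    rw [div_one] at hGB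
    have hkey : s ^ 3 * ((y ^ (m + 2) * ((s⁻¹ - b 1) * (s⁻¹ - b 2) + (s⁻¹ - b 0) * (s⁻¹ - b 2) +
          (s⁻¹ - b 0) * (s⁻¹ - b 1)) - 1 ^ (m + 2) * ((s⁻¹ - a 1) * (s⁻¹ - a 2) +
          (s⁻¹ - a 0) * (s⁻¹ - a 2) + (s⁻¹ - a 0) * (s⁻¹ - a 1))) * s⁻¹ ^ 2) =
        ((b 0 + b 1 + b 2 - (a 0 + a 1 + a 2)) + s *
        (2 * (a 0 * a 1 + a 0 * a 2 + a 1 * a 2) - 2 * (b 0 * b 1 + b 0 * b 2 + b 1 * b 2) +
        s * ((a 0 + a 1 + a 2) * (b 0 * b 1 + b 0 * b 2 + b 1 * b 2) -
          (a 0 * a 1 + a 0 * a 2 + a 1 * a 2) * (b 0 + b 1 + b 2) - 3 * (a 0 * a 1 * a 2) + 3 * (b 0 * b 1 * b 2) +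
        s * (2 * (a 0 * a 1 * a 2) * (b 0 + b 1 + b 2) - 2 * (b 0 * b 1 * b 2) * (a 0 + a 1 + a 2) +
        s * ((b 0 * b 1 * b 2) * (a 0 * a 1 + a 0 * a 2 + a 1 * a 2) -
          (a 0 * a 1 * a 2) * (b 0 * b 1 + b 0 * b 2 + b 1 * b 2)))))) /
        ((1 - b 0 * s) * (1 - b 1 * s) * (1 - b 2 * s)) := by
      rw [eq_div_iff hB0, one_pow, one_mul]
      have e3 : ∀ X Y Z W D : K, s ^ 3 * ((X * Y - Z) * W) * D = s ^ 3 * ((X * D * Y - Z * D) * W) := by
        intro X Y Z W D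
        ring
      rw [e3, heq']
      field_simp
      ring
    rw [← hkey] at hGB
    have h4 := ((hα.mul h1).mul (hy.pow 2)).sub hGB
    convert h4 using 1
    · ring
    · rw [hy1]
      ring

/-- the diagonal -/
theorem sec_sp_diag [CharZero k] {c : Dat k} (hc : c.Good) {α : k} (hα : IsAl c α) {K : Type} [Field K] [Algebra k K]
    {v : Place k K} {P : Fin 2 → Option K} {q : Fin 2 → Option (RF v)} (hP : OnC (c.over K) (P 0) (P 1))
    (hq : ∀ i, SpO v (P i) (q i)) :
    ∃ l : K, ∀ i, Red v (l * sec (c.over K) (algebraMap k K α) P P i)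
      (sec (c.over (RF v)) (algebraMap k (RF v) α) q q i) := by
  have hQ : OnC (c.over (RF v)) (q 0) (q 1) := by
    have h1 : On (c.over K) (pt1 P) := fun _ => hP
    have h2 : SpP v (pt1 P) (pt1 q) := fun _ i => hq i
    exact on_sp hc h1 h2 0
  obtain ⟨m, hm⟩ : ∃ m, c.n = m + 2 := ⟨c.n - 2, by have := hc.two; omega⟩
  have hnK : (c.over K).n = m + 2 := hm
  have hnR : (c.over (RF v)).n = m + 2 := hm
  have hα' := LibCHd.red_const v α
  rw [M2_sec_self, M2_sec_self]
  rcases hq0 : q 0 with _ | x₀ <;> rcases hq1 : q 1 with _ | y₀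
  · rw [hq0, hq1] at hQ
    exact absurd hQ (by simp [OnC])
  · -- `x = ∞`
    have hs1 := hq 1
    rw [hq1] at hs1
    have hs0 := hq 0
    rw [hq0] at hs0
    rcases hP1 : P 1 with _ | y
    · rw [hP1] at hs1
      exact absurd hs1 (by simp [SpO])
    rw [hP1] at hs1
    have hy : Red v y y₀ := hs1
    have hy1 : y₀ ^ (m + 2) = 1 := by
      rw [hq0, hq1] at hQ
      have : y₀ ^ (c.over (RF v)).n = 1 := hQ
      rwa [hnR] at this
    rw [M2_lV_some _ hP1, M2_lV_some _ hq1, M2_lX_none _ hq0, hq0, hq1, M2_h0, M2_h1, M2_n0, M2_n1, hnR]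
    rcases hP0 : P 0 with _ | x
    · rw [M2_lX_none _ hP0, hP1, M2_h0, M2_h1, M2_n0, M2_n1, hnK]
      have hV : Red v (((m + 2 : ℕ) : K) * y ^ (m + 2 - 1) * ∏ i, (1 - (c.over K).b i * 0))
          (((m + 2 : ℕ) : RF v) * y₀ ^ (m + 2 - 1) * ∏ i, (1 - (c.over (RF v)).b i * 0)) :=
        ((M2_nat _).mul (hy.pow _)).mul (M2_prod _ _ _ fun i _ =>
          (LibCHd.red_one v).sub ((LibCHd.red_const v (c.b i)).mul (LibCHd.red_zero v)))
      have hX : Red v (y ^ (m + 2) * ∑ i, (c.over K).b i - 1 ^ (m + 2) * ∑ i, (c.over K).a i)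
          (y₀ ^ (m + 2) * ∑ i, (c.over (RF v)).b i - 1 ^ (m + 2) * ∑ i, (c.over (RF v)).a i) :=
        ((hy.pow _).mul (M2_sum _ _ _ fun i _ => LibCHd.red_const v (c.b i))).sub
          (((LibCHd.red_one v).pow _).mul (M2_sum _ _ _ fun i _ => LibCHd.red_const v (c.a i)))
      refine M2_three (l := 1) ?_ ?_ ?_
      · rw [one_mul]
        exact hV.mul ((LibCHd.red_one v).pow 2)
      · rw [one_mul]
        exact hX.neg.mul ((LibCHd.red_zero v).pow 2)
      · rw [one_mul]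
        exact ((hα'.mul hV).mul (hy.pow 2)).sub (hX.mul ((LibCHd.red_one v).pow 2))
    · rw [hP0] at hs0
      obtain ⟨hx0, hs⟩ := M2_zinv (show v.ord x < 0 from hs0)
      rw [M2_lX_some _ hP0, hP1, M2_h0, M2_h1, M2_h0, M2_h1, hnK]
      rw [hP0, hP1] at hP
      have heq : y ^ (m + 2) * ∏ i, (x - (c.over K).b i) = ∏ i, (x - (c.over K).a i) := by
        have : y ^ (c.over K).n * ∏ i, (x - (c.over K).b i) = ∏ i, (x - (c.over K).a i) := hP
        rwa [hnK] at this
      obtain ⟨g1, g2, g3⟩ := M2_C2 (v := v) m hx0 hs hy hy1 (fun i => LibCHd.red_const v (c.a i))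
        (fun i => LibCHd.red_const v (c.b i)) hα' heq
      exact M2_three g1 g2 g3
  · -- a pole of the second coordinate
    have hs1 := hq 1
    rw [hq1] at hs1
    have hs0 := hq 0
    rw [hq0] at hs0
    rcases hP0 : P 0 with _ | x
    · rw [hP0] at hs0
      exact absurd hs0 (by simp [SpO])
    rw [hP0] at hs0
    have hx : Red v x x₀ := hs0
    rw [M2_lV_none _ hq1, M2_lX_some _ hq0, M2_lX_some _ hP0]
    simp only [hq1, M2_h0, M2_h1, M2_n0, M2_n1, hnR, hnK]
    rcases hP1 : P 1 with _ | y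
    · rw [M2_lV_none _ hP1]
      simp only [M2_n0, M2_n1]
      have hX := (((LibCHd.red_one v).pow (m + 2)).mul (M2_DB (c := c) hx)).sub
        (((LibCHd.red_zero v).pow (m + 2)).mul (M2_DA (c := c) hx))
      refine M2_three (l := 1) ?_ ?_ ?_
      · rw [one_mul]
        exact (LibCHd.red_zero v).mul ((LibCHd.red_zero v).pow 2)
      · rw [one_mul]
        exact hX.neg.mul ((LibCHd.red_one v).pow 2)
      · rw [one_mul]
        exact ((hα'.mul (LibCHd.red_zero v)).mul ((LibCHd.red_one v).pow 2)).sub (hX.mul (hx.pow 2))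
    · rw [hP1] at hs1
      obtain ⟨hy0, ht⟩ := M2_zinv (show v.ord y < 0 from hs1)
      rw [M2_lV_some _ hP1]
      simp only [hP0, M2_h0, M2_h1, hnK]
      rw [hP0, hP1] at hP
      have heq : y ^ (m + 2) * ∏ i, (x - (c.over K).b i) = ∏ i, (x - (c.over K).a i) := by
        have : y ^ (c.over K).n * ∏ i, (x - (c.over K).b i) = ∏ i, (x - (c.over K).a i) := hP
        rwa [hnK] at this
      have hA := M2_A (c := c) hx
      have hB := M2_B (c := c) hx
      have hDA := M2_DA (c := c) hx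
      have hDB := M2_DB (c := c) hx
      have hm := M2_nat (v := v) (m + 2)
      have e0 : ∏ i, (x - (c.over K).b i * 1) = ∏ i, (x - (c.over K).b i) :=
        Finset.prod_congr rfl fun i _ => by rw [mul_one]
      rw [e0]
      revert heq hA hB hDA hDB
      generalize ∏ i, (x - (c.over K).b i) = B
      generalize ∏ i, (x - (c.over K).a i) = A
      generalize ∏ i, (x₀ - (c.over (RF v)).b i) = B₀
      generalize ∏ i, (x₀ - (c.over (RF v)).a i) = A₀
      generalize ∑ i, ∏ j ∈ Finset.univ.erase i, (x - (c.over K).b j) = DB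
      generalize ∑ i, ∏ j ∈ Finset.univ.erase i, (x - (c.over K).a j) = DA
      generalize ∑ i, ∏ j ∈ Finset.univ.erase i, (x₀ - (c.over (RF v)).b j) = DB₀
      generalize ∑ i, ∏ j ∈ Finset.univ.erase i, (x₀ - (c.over (RF v)).a j) = DA₀
      intro heq hA hB hDA hDB
      have e1 : m + 2 - 1 = m + 1 := rfl
      rw [e1]
      obtain ⟨t, htt⟩ : ∃ t, t = y⁻¹ := ⟨_, rfl⟩
      rw [← htt] at ht
      have E0 : t * y = 1 := by rw [htt, inv_mul_cancel₀ hy0]
      have E1 : t ^ (m + 1) * y ^ (m + 1) = 1 := by rw [← mul_pow, E0, one_pow]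
      have E2 : t ^ (m + 2) * y ^ (m + 2) = 1 := by rw [← mul_pow, E0, one_pow]
      have hBA : B = A * t ^ (m + 2) := by
        rw [← heq]
        linear_combination (-B) * E2
      have hlX : Red v (t ^ (m + 2) * (y ^ (m + 2) * DB - 1 ^ (m + 2) * DA))
          (1 ^ (m + 2) * DB₀ - 0 ^ (m + 2) * DA₀) := by
        have h := hDB.sub ((ht.pow (m + 2)).mul hDA)
        rw [one_pow, one_mul, one_pow, one_mul]
        convert h using 1
        linear_combination DB * E2
      refine M2_three (l := t ^ (m + 2)) ?_ ?_ ?_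
      · have h := hm.mul (ht.mul hB)
        rw [zero_mul, mul_zero] at h
        rw [zero_mul]
        convert h using 1
        linear_combination ((m + 2 : ℕ) : K) * t * B * E1
      · have h := hlX.neg.mul ((LibCHd.red_one v).pow 2)
        convert h using 1
        ring
      · have h1 := (hα'.mul hm).mul ((ht.pow (m + 1)).mul hA)
        have h := h1.sub (hlX.mul (hx.pow 2))
        rw [zero_pow (Nat.succ_ne_zero m), zero_mul, mul_zero] at h
        rw [mul_zero, zero_mul]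
        convert h using 1
        rw [hBA]
        linear_combination algebraMap k K α * ((m + 2 : ℕ) : K) * A * t ^ (m + 1) *
          ((t * y) ^ 2 * E1 + (t * y + 1) * E0)
  · -- finite points
    have hs1 := hq 1
    rw [hq1] at hs1
    have hs0 := hq 0
    rw [hq0] at hs0
    rcases hP0 : P 0 with _ | x
    · rw [hP0] at hs0
      exact absurd hs0 (by simp [SpO])
    rcases hP1 : P 1 with _ | y
    · rw [hP1] at hs1
      exact absurd hs1 (by simp [SpO])
    rw [hP0] at hs0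
    rw [hP1] at hs1
    have hx : Red v x x₀ := hs0
    have hy : Red v y y₀ := hs1
    rw [M2_lV_some _ hq1, M2_lV_some _ hP1, M2_lX_some _ hq0, M2_lX_some _ hP0]
    simp only [hq0, hq1, hP0, hP1, M2_h0, M2_h1, hnR, hnK]
    have hV : Red v (((m + 2 : ℕ) : K) * y ^ (m + 2 - 1) * ∏ i, (x - (c.over K).b i * 1))
        (((m + 2 : ℕ) : RF v) * y₀ ^ (m + 2 - 1) * ∏ i, (x₀ - (c.over (RF v)).b i * 1)) :=
      ((M2_nat _).mul (hy.pow _)).mul (M2_prod _ _ _ fun i _ =>
        hx.sub ((LibCHd.red_const v (c.b i)).mul (LibCHd.red_one v)))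
    have hX := ((hy.pow (m + 2)).mul (M2_DB (c := c) hx)).sub
      (((LibCHd.red_one v).pow (m + 2)).mul (M2_DA (c := c) hx))
    refine M2_three (l := 1) ?_ ?_ ?_
    · rw [one_mul]
      exact hV.mul ((LibCHd.red_one v).pow 2)
    · rw [one_mul]
      exact hX.neg.mul ((LibCHd.red_one v).pow 2)
    · rw [one_mul]
      exact ((hα'.mul hV).mul (hy.pow 2)).sub (hX.mul (hx.pow 2))

end Pool.Agent.LibCW77
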