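import Pool.Agent.LibCW77.HDefs
import Pool.Agent.LibCW77.M1
import Pool.Agent.LibCW77.M2
import Pool.Agent.LibCW77.D1

/-!
[CW77 M3] The secant morphism: two different points with the same specialisation. See the plan in M2.lean, part (3): choose for `x` the chart of `ℙ¹` (`s = x` or `s = x⁻¹`) in which `q 0` is finite, both `x, x'` are regular there, the same for `v` (`t = v` or `t = v⁻¹`). Let `H(s, t)` be the equation of the curve
in this chart (`t ^ n B(s) - A(s)`, `B(s) - t ^ n A(s)`, and with the reversed polynomials `∏ (1 - a_i s)`). `0 = H(s, t) - H(s', t') = (s - s') G₁ + (t - t') G₂` with `G₁, G₂` polynomials in the four (regular) elements (divided differences), whose residues are `H_s, H_t` at the point; one of them is not `0`.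
-/

open scoped Classical
open Polynomial

namespace Pool.Agent.LibCW77

open Pool.Agent.LibBH2
open Pool.Agent.LibCHd (VR RF Red FunF)
open Pool.Agent.LibHL77 (Lf tt EHom NC HE BE mult hypf)

variable {k : Type} [Field k]

open Pool.Agent.LibCHd (red_const red_one red_zero red_zero_iff exists_red)

private theorem M3_natc {K : Type} [Field K] [Algebra k K] (v : Place k K) (n : ℕ) :
    Red v (n : K) (n : RF v) := by
  have h := red_const v (n : k)
  simpa using h

private theorem M3_geom {K : Type} [Field K] [Algebra k K] {v : Place k K} {t t' : K} {t0 : RF v}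
    (h : Red v t t0) (h' : Red v t' t0) (n : ℕ) :
    ∃ g : K, t' ^ n - t ^ n = (t' - t) * g ∧ Red v g ((n : RF v) * t0 ^ (n - 1)) := by
  induction n with
  | zero =>
    refine ⟨0, by simp, ?_⟩
    have := red_zero v
    simpa using this
  | succ n ih =>
    obtain ⟨g, hg, hr⟩ := ih
    refine ⟨t' * g + t ^ n, ?_, ?_⟩
    · linear_combination t' * hg
    · have h1 := (h'.mul hr).add (h.pow n)
      have h2 : t0 * ((n : RF v) * t0 ^ (n - 1)) + t0 ^ n = ((n + 1 : ℕ) : RF v) * t0 ^ (n + 1 - 1) := by
        rcases n with _ | n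
        · simp
        · simp only [Nat.add_sub_cancel]
          push_cast
          ring
      rwa [h2] at h1

/-- product of three linear forms -/
private def M3_f {F : Type} [Field F] [Algebra k F] (p m : Fin 3 → k) (s : F) : F :=
  ∏ i, (algebraMap k F (p i) + algebraMap k F (m i) * s)

/-- its derivative -/
private def M3_d {F : Type} [Field F] [Algebra k F] (p m : Fin 3 → k) (s : F) : F :=
  ∑ i, algebraMap k F (m i) * ∏ j ∈ Finset.univ.erase i, (algebraMap k F (p j) + algebraMap k F (m j) * s)

private theorem M3_e0 : (Finset.univ : Finset (Fin 3)).erase 0 = {1, 2} := by decide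

private theorem M3_e1 : (Finset.univ : Finset (Fin 3)).erase 1 = {0, 2} := by decide

private theorem M3_e2 : (Finset.univ : Finset (Fin 3)).erase 2 = {0, 1} := by decide

private theorem M3_lin {K : Type} [Field K] [Algebra k K] {v : Place k K} (p m : Fin 3 → k) {s : K} {s0 : RF v}
    (h : Red v s s0) (i : Fin 3) : Red v (algebraMap k K (p i) + algebraMap k K (m i) * s)
      (algebraMap k (RF v) (p i) + algebraMap k (RF v) (m i) * s0) :=
  (red_const v _).add ((red_const v _).mul h)

private theorem M3_fred {K : Type} [Field K] [Algebra k K] {v : Place k K} (p m : Fin 3 → k) {s : K} {s0 : RF v}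
    (h : Red v s s0) : Red v (M3_f p m s) (M3_f p m s0) := by
  simp only [M3_f, Fin.prod_univ_three]
  exact ((M3_lin p m h 0).mul (M3_lin p m h 1)).mul (M3_lin p m h 2)

private theorem M3_cub {K : Type} [Field K] [Algebra k K] {v : Place k K} (p m : Fin 3 → k) {s s' : K} {s0 : RF v}
    (h : Red v s s0) (h' : Red v s' s0) :
    ∃ b : K, M3_f p m s' - M3_f p m s = (s' - s) * b ∧ Red v b (M3_d p m s0) := by
  refine ⟨algebraMap k K (m 0) * ((algebraMap k K (p 1) + algebraMap k K (m 1) * s') *
        (algebraMap k K (p 2) + algebraMap k K (m 2) * s')) +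
      algebraMap k K (m 1) * ((algebraMap k K (p 0) + algebraMap k K (m 0) * s) *
        (algebraMap k K (p 2) + algebraMap k K (m 2) * s')) +
      algebraMap k K (m 2) * ((algebraMap k K (p 0) + algebraMap k K (m 0) * s) *
        (algebraMap k K (p 1) + algebraMap k K (m 1) * s)), ?_, ?_⟩
  · simp only [M3_f, Fin.prod_univ_three]
    ring
  · have e : M3_d p m s0 = algebraMap k (RF v) (m 0) * ((algebraMap k (RF v) (p 1) + algebraMap k (RF v) (m 1) * s0) *
        (algebraMap k (RF v) (p 2) + algebraMap k (RF v) (m 2) * s0)) +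
      algebraMap k (RF v) (m 1) * ((algebraMap k (RF v) (p 0) + algebraMap k (RF v) (m 0) * s0) *
        (algebraMap k (RF v) (p 2) + algebraMap k (RF v) (m 2) * s0)) +
      algebraMap k (RF v) (m 2) * ((algebraMap k (RF v) (p 0) + algebraMap k (RF v) (m 0) * s0) *
        (algebraMap k (RF v) (p 1) + algebraMap k (RF v) (m 1) * s0)) := by
      simp only [M3_d, Fin.sum_univ_three, M3_e0, M3_e1, M3_e2]
      rw [Finset.prod_pair (by decide), Finset.prod_pair (by decide), Finset.prod_pair (by decide)]
    rw [e]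
    exact (((red_const v _).mul ((M3_lin p m h' 1).mul (M3_lin p m h' 2))).add
      ((red_const v _).mul ((M3_lin p m h 0).mul (M3_lin p m h' 2)))).add
      ((red_const v _).mul ((M3_lin p m h 0).mul (M3_lin p m h 1)))

/-- the linear algebra -/
private theorem M3_two {K : Type} [Field K] [Algebra k K] {v : Place k K} {X Y G H : K} {g h : RF v}
    (he : X * G + Y * H = 0) (hG : Red v G g) (hH : Red v H h) (hne : ¬ (X = 0 ∧ Y = 0)) (hgh : ¬ (g = 0 ∧ h = 0)) :
    ∃ l : K, Red v (l * X) h ∧ Red v (l * Y) (-g) := by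
  by_cases h0 : h = 0
  · have g0 : g ≠ 0 := fun h1 => hgh ⟨h1, h0⟩
    have hG0 : G ≠ 0 := hG.ne_zero g0
    have hY : Y ≠ 0 := by
      rintro rfl
      apply hne
      refine ⟨?_, rfl⟩
      rw [zero_mul, add_zero] at he
      exact (mul_eq_zero.1 he).resolve_right hG0
    refine ⟨-G / Y, ?_, ?_⟩
    · have e : -G / Y * X = H := by
        field_simp
        linear_combination -he
      rw [e]
      exact hH
    · rw [div_mul_cancel₀ _ hY]
      exact hG.neg
  · have hH0 : H ≠ 0 := hH.ne_zero h0
    have hX : X ≠ 0 := by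
      rintro rfl
      apply hne
      refine ⟨rfl, ?_⟩
      rw [zero_mul, zero_add] at he
      exact (mul_eq_zero.1 he).resolve_right hH0
    refine ⟨H / X, ?_, ?_⟩
    · rw [div_mul_cancel₀ _ hX]
      exact hH
    · have e : H / X * Y = -G := by
        field_simp
        linear_combination he
      rw [e]
      exact hG.neg

/-- the core: both points in one chart -/
private theorem M3_core {K : Type} [Field K] [Algebra k K] {v : Place k K} (p m p' m' : Fin 3 → k) (n : ℕ)
    {s s' t t' : K} {s0 t0 : RF v} (hs : Red v s s0) (hs' : Red v s' s0) (ht : Red v t t0) (ht' : Red v t' t0)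
    (he : t ^ n * M3_f p m s = M3_f p' m' s) (he' : t' ^ n * M3_f p m s' = M3_f p' m' s')
    (hne : ¬ (s' - s = 0 ∧ t' - t = 0))
    (hsm : ¬ (t0 ^ n * M3_d p m s0 - M3_d p' m' s0 = 0 ∧ (n : RF v) * t0 ^ (n - 1) * M3_f p m s0 = 0)) :
    ∃ l : K, Red v (l * (s' - s)) ((n : RF v) * t0 ^ (n - 1) * M3_f p m s0) ∧
      Red v (l * (t' - t)) (-(t0 ^ n * M3_d p m s0 - M3_d p' m' s0)) := by
  obtain ⟨g, hg, hgr⟩ := M3_geom ht ht' n
  obtain ⟨b, hb, hbr⟩ := M3_cub p m hs hs'
  obtain ⟨a, ha, har⟩ := M3_cub p' m' hs hs'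
  refine M3_two (G := t' ^ n * b - a) (H := g * M3_f p m s) ?_ ?_ ?_ hne hsm
  · linear_combination he' - he - t' ^ n * hb + ha - M3_f p m s * hg
  · exact ((ht'.pow n).mul hbr).sub har
  · exact hgr.mul (M3_fred p m hs)

/-- the inverse in `ℙ¹` of a point with the specialisation `∞` -/
private def M3_iv {F : Type} [Field F] : Option F → F
  | none => 0
  | some x => x⁻¹

private noncomputable def M3_mu {F : Type} [Field F] : Option F → F
  | none => 1
  | some x => x

private theorem M3_pole_ne {K : Type} [Field K] [Algebra k K] {v : Place k K} {x : K} (h : v.ord x < 0) : x ≠ 0 := by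
  rintro rfl
  rw [v.ord_zero] at h
  exact lt_irrefl _ h

private theorem M3_iv_red {K : Type} [Field K] [Algebra k K] {v : Place k K} {o : Option K}
    (h : SpO v o none) : Red v (M3_iv o) 0 := by
  rcases o with _ | x
  · exact red_zero v
  · have h1 : v.ord x < 0 := h
    exact red_zero_iff.2 (Or.inr (by
      change 0 < v.ord x⁻¹
      rw [v.ord_inv]
      omega))

private theorem M3_mu_ne {K : Type} [Field K] [Algebra k K] {v : Place k K} {o : Option K}
    (h : SpO v o none) : M3_mu o ≠ 0 := by
  rcases o with _ | x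
  · exact one_ne_zero
  · exact M3_pole_ne h

private theorem M3_hco0 {K : Type} [Field K] [Algebra k K] {v : Place k K} {o : Option K}
    (h : SpO v o none) : hco o 0 = M3_mu o * M3_iv o := by
  rcases o with _ | x
  · simp [hco, M3_mu, M3_iv]
  · have h1 : x ≠ 0 := M3_pole_ne h
    simp [hco, M3_mu, M3_iv, h1]

private theorem M3_hco1 {K : Type} [Field K] (o : Option K) : hco o 1 = M3_mu o * 1 := by
  rcases o with _ | x
  · simp [hco, M3_mu]
  · simp [hco, M3_mu]

private theorem M3_iv_inj {K : Type} [Field K] [Algebra k K] {v : Place k K} {o o' : Option K}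
    (h : SpO v o none) (h' : SpO v o' none) (he : M3_iv o = M3_iv o') : o = o' := by
  rcases o with _ | x <;> rcases o' with _ | x'
  · rfl
  · have h1 : x' ≠ 0 := M3_pole_ne h'
    exact absurd he.symm (inv_ne_zero h1)
  · have h1 : x ≠ 0 := M3_pole_ne h
    exact absurd he (inv_ne_zero h1)
  · have h1 : x⁻¹ = x'⁻¹ := he
    rw [inv_inj.1 h1]

private theorem M3_fin {K : Type} [Field K] [Algebra k K] {v : Place k K} {o : Option K} {r : RF v}
    (h : SpO v o (some r)) : ∃ x, o = some x ∧ Red v x r := by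
  rcases o with _ | x
  · have h1 : some r = none := h
    cases h1
  · exact ⟨x, rfl, h⟩

/-- the homogeneous equation -/
private theorem M3_eq {F : Type} [Field F] (c : Dat F) (hn : c.n ≠ 0) {P : Fin 2 → Option F} (h : OnC c (P 0) (P 1)) :
    hco (P 1) 1 ^ c.n * ∏ i, (hco (P 0) 1 - c.b i * hco (P 0) 0) =
      hco (P 1) 0 ^ c.n * ∏ i, (hco (P 0) 1 - c.a i * hco (P 0) 0) := by
  revert h
  generalize P 0 = x
  generalize P 1 = y
  intro h
  rcases x with _ | x <;> rcases y with _ | y
  · exact absurd h (by simp [OnC])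
  · have h1 : y ^ c.n = 1 := h
    simp [hco, h1]
  · obtain ⟨i, hi⟩ : ∃ i, x = c.b i := h
    have h2 : ∏ j, (x - c.b j) = 0 := Finset.prod_eq_zero (Finset.mem_univ i) (sub_eq_zero.2 hi)
    simp [hco, h2, zero_pow hn]
  · have h1 : y ^ c.n * ∏ i, (x - c.b i) = ∏ i, (x - c.a i) := h
    simpa [hco] using h1

/-- the last step -/
private theorem M3_end {c : Dat k} {α : k} {K : Type} [Field K] [Algebra k K]
    {v : Place k K} {P P' : Fin 2 → Option K} {q : Fin 2 → Option (RF v)} (hne : P ≠ P')
    (X X' V V' : Fin 2 → K) (m m' w w' : K) (hm : m ≠ 0) (hm' : m' ≠ 0) (hw : w ≠ 0) (hw' : w' ≠ 0)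
    (eX : ∀ a, hco (P 0) a = m * X a) (eX' : ∀ a, hco (P' 0) a = m' * X' a)
    (eV : ∀ a, hco (P 1) a = w * V a) (eV' : ∀ a, hco (P' 1) a = w' * V' a)
    (rX : ∀ a, Red v (X a) (hco (q 0) a)) (rX' : ∀ a, Red v (X' a) (hco (q 0) a))
    (rV : ∀ a, Red v (V a) (hco (q 1) a)) (rV' : ∀ a, Red v (V' a) (hco (q 1) a)) (l : K)
    (h1 : Red v (l * (X 0 * X' 1 - X 1 * X' 0)) (lV (c.over (RF v)) q))
    (h2 : Red v (l * (V 0 * V' 1 - V 1 * V' 0)) (-lX (c.over (RF v)) q)) :
    ∃ l : K, ∀ i, Red v (l * sec (c.over K) (algebraMap k K α) P P' i)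
      (sec (c.over (RF v)) (algebraMap k (RF v) α) q q i) := by
  refine ⟨l / (m * m' * w * w'), fun i => ?_⟩
  rw [sec, if_neg hne, sec, if_pos rfl]
  fin_cases i
  · change Red v (l / (m * m' * w * w') * (dt (P 0) (P' 0) * hco (P 1) 0 * hco (P' 1) 0))
      (lV (c.over (RF v)) q * hco (q 1) 0 ^ 2)
    have e : l / (m * m' * w * w') * (dt (P 0) (P' 0) * hco (P 1) 0 * hco (P' 1) 0) =
        l * (X 0 * X' 1 - X 1 * X' 0) * (V 0 * V' 0) := by
      rw [dt, eX, eX, eX', eX', eV, eV']
      field_simp
    rw [e, pow_two]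
    exact h1.mul ((rV 0).mul (rV' 0))
  · change Red v (l / (m * m' * w * w') * (dt (P 1) (P' 1) * hco (P 0) 0 * hco (P' 0) 0))
      (-lX (c.over (RF v)) q * hco (q 0) 0 ^ 2)
    have e : l / (m * m' * w * w') * (dt (P 1) (P' 1) * hco (P 0) 0 * hco (P' 0) 0) =
        l * (V 0 * V' 1 - V 1 * V' 0) * (X 0 * X' 0) := by
      rw [dt, eX, eX', eV, eV, eV', eV']
      field_simp
    rw [e, pow_two]
    exact h2.mul ((rX 0).mul (rX' 0))
  · change Red v (l / (m * m' * w * w') * (algebraMap k K α * dt (P 0) (P' 0) * hco (P 1) 1 * hco (P' 1) 1 +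
        dt (P 1) (P' 1) * hco (P 0) 1 * hco (P' 0) 1))
      (algebraMap k (RF v) α * lV (c.over (RF v)) q * hco (q 1) 1 ^ 2 - lX (c.over (RF v)) q * hco (q 0) 1 ^ 2)
    have e : l / (m * m' * w * w') * (algebraMap k K α * dt (P 0) (P' 0) * hco (P 1) 1 * hco (P' 1) 1 +
        dt (P 1) (P' 1) * hco (P 0) 1 * hco (P' 0) 1) =
        algebraMap k K α * (l * (X 0 * X' 1 - X 1 * X' 0)) * (V 1 * V' 1) +
          l * (V 0 * V' 1 - V 1 * V' 0) * (X 1 * X' 1) := by
      rw [dt, dt, eX, eX, eX', eX', eV, eV, eV', eV']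
      field_simp
    have e2 : algebraMap k (RF v) α * lV (c.over (RF v)) q * hco (q 1) 1 ^ 2 -
        lX (c.over (RF v)) q * hco (q 0) 1 ^ 2 =
        algebraMap k (RF v) α * lV (c.over (RF v)) q * (hco (q 1) 1 * hco (q 1) 1) +
          -lX (c.over (RF v)) q * (hco (q 0) 1 * hco (q 0) 1) := by
      ring
    rw [e, e2]
    exact (((red_const v α).mul h1).mul ((rV 1).mul (rV' 1))).add (h2.mul ((rX 1).mul (rX' 1)))

theorem sec_sp_lim [CharZero k] {c : Dat k} (hc : c.Good) {α : k} (hα : IsAl c α) {K : Type} [Field K] [Algebra k K]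
    {v : Place k K} {P P' : Fin 2 → Option K} {q : Fin 2 → Option (RF v)} (hP : OnC (c.over K) (P 0) (P 1))
    (hP' : OnC (c.over K) (P' 0) (P' 1)) (hne : P ≠ P') (hq : ∀ i, SpO v (P i) (q i))
    (hq' : ∀ i, SpO v (P' i) (q i)) :
    ∃ l : K, ∀ i, Red v (l * sec (c.over K) (algebraMap k K α) P P' i)
      (sec (c.over (RF v)) (algebraMap k (RF v) α) q q i) := by
  have hn2 : 2 ≤ c.n := hc.two
  have hn0 : c.n ≠ 0 := by omega
  have hqC : OnC (c.over (RF v)) (q 0) (q 1) := by
    have h1 : On (c.over K) (fun _ : Fin 1 => P) := fun _ => hP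
    have h2 : SpP v (fun _ : Fin 1 => P) (fun _ : Fin 1 => q) := fun _ i => hq i
    exact on_sp hc h1 h2 0
  -- smoothness
  have hsm : ¬ (lX (c.over (RF v)) q = 0 ∧ lV (c.over (RF v)) q = 0) := by
    rintro ⟨h1, h2⟩
    obtain ⟨i, hi⟩ := sec_ne hc hα q q hqC hqC
    apply hi
    rw [sec, if_pos rfl, h1, h2]
    fin_cases i <;> simp
  have hE := M3_eq (c.over K) hn0 hP
  have hE' := M3_eq (c.over K) hn0 hP'
  have hne' : ¬ (P 0 = P' 0 ∧ P 1 = P' 1) := by
    rintro ⟨h1, h2⟩
    apply hne
    funext i
    fin_cases i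
    · exact h1
    · exact h2
  rcases hq0 : q 0 with _ | s0
  · rcases hq1 : q 1 with _ | t0
    · rw [hq0, hq1] at hqC
      exact absurd hqC (by simp [OnC])
    · -- chart `(∞, finite)`
      have a0 := hq 0
      have a0' := hq' 0
      have a1 := hq 1
      have a1' := hq' 1
      rw [hq0] at a0 a0'
      rw [hq1] at a1 a1'
      obtain ⟨t, et, rt⟩ := M3_fin a1
      obtain ⟨t', et', rt'⟩ := M3_fin a1'
      have eqn : ∀ (R : Fin 2 → Option K) (r : K), SpO v (R 0) none → R 1 = some r →
          hco (R 1) 1 ^ c.n * ∏ i, (hco (R 0) 1 - (c.over K).b i * hco (R 0) 0) =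
            hco (R 1) 0 ^ c.n * ∏ i, (hco (R 0) 1 - (c.over K).a i * hco (R 0) 0) →
          r ^ c.n * M3_f (fun _ => 1) (fun i => -c.b i) (M3_iv (R 0)) =
            M3_f (fun _ => 1) (fun i => -c.a i) (M3_iv (R 0)) := by
        intro R r h0 h1 h2
        rw [h1, M3_hco0 h0, M3_hco1 (R 0)] at h2
        have hm := M3_mu_ne h0
        simp only [M3_f, Fin.prod_univ_three, map_one, map_neg] at h2 ⊢
        have e1 : hco (some r) 1 = r := rfl
        have e0 : hco (some r) 0 = 1 := rfl
        rw [e1, e0, one_pow] at h2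
        change r ^ c.n * ((M3_mu (R 0) * 1 - algebraMap k K (c.b 0) * (M3_mu (R 0) * M3_iv (R 0))) *
          (M3_mu (R 0) * 1 - algebraMap k K (c.b 1) * (M3_mu (R 0) * M3_iv (R 0))) *
          (M3_mu (R 0) * 1 - algebraMap k K (c.b 2) * (M3_mu (R 0) * M3_iv (R 0)))) =
          1 * ((M3_mu (R 0) * 1 - algebraMap k K (c.a 0) * (M3_mu (R 0) * M3_iv (R 0))) *
          (M3_mu (R 0) * 1 - algebraMap k K (c.a 1) * (M3_mu (R 0) * M3_iv (R 0))) *
          (M3_mu (R 0) * 1 - algebraMap k K (c.a 2) * (M3_mu (R 0) * M3_iv (R 0)))) at h2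
        apply mul_left_cancel₀ (pow_ne_zero 3 hm)
        linear_combination h2
      have hE1 := eqn P t a0 et hE
      have hE1' := eqn P' t' a0' et' hE'
      have hV : lV (c.over (RF v)) q = ((c.n : ℕ) : RF v) * t0 ^ (c.n - 1) *
          M3_f (fun _ => 1) (fun i => -c.b i) (0 : RF v) := by
        rw [lV, hq1, hq0]
        simp [M3_f, hco, Dat.map]
      have hX : lX (c.over (RF v)) q = -(t0 ^ c.n * M3_d (fun _ => 1) (fun i => -c.b i) (0 : RF v) -
          M3_d (fun _ => 1) (fun i => -c.a i) (0 : RF v)) := by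
        rw [lX, hq1, hq0]
        simp only [M3_d, hco, Dat.map, Fin.sum_univ_three, map_one, map_neg, mul_zero, add_zero,
          Finset.prod_const_one, mul_one, Matrix.cons_val_zero, Matrix.cons_val_one, one_pow]
        ring
      obtain ⟨l, l1, l2⟩ := M3_core (fun _ => 1) (fun i => -c.b i) (fun _ => 1) (fun i => -c.a i) c.n
        (M3_iv_red a0) (M3_iv_red a0') rt rt' hE1 hE1' (by
          rintro ⟨h1, h2⟩
          apply hne'
          refine ⟨M3_iv_inj a0 a0' (sub_eq_zero.1 h1).symm, ?_⟩
          rw [et, et', (sub_eq_zero.1 h2)]) (by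
          rintro ⟨h1, h2⟩
          apply hsm
          rw [hX, hV, h1, neg_zero]
          exact ⟨rfl, h2⟩)
      rw [← hV] at l1
      rw [← hX] at l2
      refine M3_end hne ![M3_iv (P 0), 1] ![M3_iv (P' 0), 1] ![1, t] ![1, t'] (M3_mu (P 0)) (M3_mu (P' 0)) 1 1
        (M3_mu_ne a0) (M3_mu_ne a0') one_ne_zero one_ne_zero ?_ ?_ ?_ ?_ ?_ ?_ ?_ ?_ (-l) ?_ ?_
      · intro a
        fin_cases a
        · exact M3_hco0 a0
        · exact M3_hco1 _
      · intro a
        fin_cases a
        · exact M3_hco0 a0'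
        · exact M3_hco1 _
      · intro a
        rw [et]
        fin_cases a <;> simp [hco]
      · intro a
        rw [et']
        fin_cases a <;> simp [hco]
      · intro a
        rw [hq0]
        fin_cases a
        · exact M3_iv_red a0
        · exact red_one v
      · intro a
        rw [hq0]
        fin_cases a
        · exact M3_iv_red a0'
        · exact red_one v
      · intro a
        rw [hq1]
        fin_cases a
        · exact red_one v
        · exact rt
      · intro a
        rw [hq1]
        fin_cases a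
        · exact red_one v
        · exact rt'
      · have e : -l * (![M3_iv (P 0), 1] 0 * ![M3_iv (P' 0), 1] 1 - ![M3_iv (P 0), 1] 1 * ![M3_iv (P' 0), 1] 0) =
            l * (M3_iv (P' 0) - M3_iv (P 0)) := by
          simp
          ring
        rw [e]
        exact l1
      · have e : -l * (![1, t] 0 * ![1, t'] 1 - ![1, t] 1 * ![1, t'] 0) = -(l * (t' - t)) := by
          simp
        rw [e]
        exact l2.neg
  · rcases hq1 : q 1 with _ | t0
    · -- chart `(finite, ∞)`
      have a0 := hq 0
      have a0' := hq' 0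
      have a1 := hq 1
      have a1' := hq' 1
      rw [hq0] at a0 a0'
      rw [hq1] at a1 a1'
      obtain ⟨s, es, rs⟩ := M3_fin a0
      obtain ⟨s', es', rs'⟩ := M3_fin a0'
      have eqn : ∀ (R : Fin 2 → Option K) (r : K), R 0 = some r → SpO v (R 1) none →
          hco (R 1) 1 ^ c.n * ∏ i, (hco (R 0) 1 - (c.over K).b i * hco (R 0) 0) =
            hco (R 1) 0 ^ c.n * ∏ i, (hco (R 0) 1 - (c.over K).a i * hco (R 0) 0) →
          M3_iv (R 1) ^ c.n * M3_f (fun i => -c.a i) (fun _ => 1) r =
            M3_f (fun i => -c.b i) (fun _ => 1) r := by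
        intro R r h0 h1 h2
        rw [h0, M3_hco0 h1, M3_hco1 (R 1)] at h2
        have hm := M3_mu_ne h1
        simp only [M3_f, Fin.prod_univ_three, map_one, map_neg] at h2 ⊢
        change (M3_mu (R 1) * 1) ^ c.n * ((r - algebraMap k K (c.b 0) * 1) *
          (r - algebraMap k K (c.b 1) * 1) * (r - algebraMap k K (c.b 2) * 1)) =
          (M3_mu (R 1) * M3_iv (R 1)) ^ c.n * ((r - algebraMap k K (c.a 0) * 1) *
          (r - algebraMap k K (c.a 1) * 1) * (r - algebraMap k K (c.a 2) * 1)) at h2
        rw [mul_one, mul_pow] at h2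
        apply mul_left_cancel₀ (pow_ne_zero c.n hm)
        linear_combination -h2
      have hE1 := eqn P s es a1 hE
      have hE1' := eqn P' s' es' a1' hE'
      have hn1 : c.n - 1 ≠ 0 := by omega
      have hV : lV (c.over (RF v)) q = 0 := by
        rw [lV, hq1]
      have hV' : ((c.n : ℕ) : RF v) * (0 : RF v) ^ (c.n - 1) *
          M3_f (fun i => -c.a i) (fun _ => 1) s0 = 0 := by
        rw [zero_pow hn1, mul_zero, zero_mul]
      have hX : lX (c.over (RF v)) q = -((0 : RF v) ^ c.n * M3_d (fun i => -c.a i) (fun _ => 1) s0 -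
          M3_d (fun i => -c.b i) (fun _ => 1) s0) := by
        rw [lX, hq1, hq0]
        rw [zero_pow hn0]
        simp only [M3_d, hco, Dat.map, map_one, map_neg, one_mul, Matrix.cons_val_zero, Matrix.cons_val_one,
          zero_mul, zero_sub, neg_neg, one_pow, zero_pow hn0, sub_zero]
        refine Finset.sum_congr rfl fun i _ => Finset.prod_congr rfl fun j _ => ?_
        ring
      obtain ⟨l, l1, l2⟩ := M3_core (fun i => -c.a i) (fun _ => 1) (fun i => -c.b i) (fun _ => 1) c.n
        rs rs' (M3_iv_red a1) (M3_iv_red a1') hE1 hE1' (by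
          rintro ⟨h1, h2⟩
          apply hne'
          refine ⟨?_, M3_iv_inj a1 a1' (sub_eq_zero.1 h2).symm⟩
          rw [es, es', (sub_eq_zero.1 h1)]) (by
          rintro ⟨h1, h2⟩
          apply hsm
          rw [hX, hV, h1, neg_zero]
          exact ⟨rfl, rfl⟩)
      rw [hV', ← hV] at l1
      rw [← hX] at l2
      refine M3_end hne ![1, s] ![1, s'] ![M3_iv (P 1), 1] ![M3_iv (P' 1), 1] 1 1 (M3_mu (P 1)) (M3_mu (P' 1))
        one_ne_zero one_ne_zero (M3_mu_ne a1) (M3_mu_ne a1') ?_ ?_ ?_ ?_ ?_ ?_ ?_ ?_ l ?_ ?_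
      · intro a
        rw [es]
        fin_cases a <;> simp [hco]
      · intro a
        rw [es']
        fin_cases a <;> simp [hco]
      · intro a
        fin_cases a
        · exact M3_hco0 a1
        · exact M3_hco1 _
      · intro a
        fin_cases a
        · exact M3_hco0 a1'
        · exact M3_hco1 _
      · intro a
        rw [hq0]
        fin_cases a
        · exact red_one v
        · exact rs
      · intro a
        rw [hq0]
        fin_cases a
        · exact red_one v
        · exact rs'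
      · intro a
        rw [hq1]
        fin_cases a
        · exact M3_iv_red a1
        · exact red_one v
      · intro a
        rw [hq1]
        fin_cases a
        · exact M3_iv_red a1'
        · exact red_one v
      · have e : l * (![1, s] 0 * ![1, s'] 1 - ![1, s] 1 * ![1, s'] 0) = l * (s' - s) := by
          simp
        rw [e]
        exact l1
      · have e : l * (![M3_iv (P 1), 1] 0 * ![M3_iv (P' 1), 1] 1 - ![M3_iv (P 1), 1] 1 * ![M3_iv (P' 1), 1] 0) =
            -(l * (M3_iv (P' 1) - M3_iv (P 1))) := by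
          simp
          ring
        rw [e]
        exact l2.neg
    · -- chart `(finite, finite)`
      have a0 := hq 0
      have a0' := hq' 0
      have a1 := hq 1
      have a1' := hq' 1
      rw [hq0] at a0 a0'
      rw [hq1] at a1 a1'
      obtain ⟨s, es, rs⟩ := M3_fin a0
      obtain ⟨s', es', rs'⟩ := M3_fin a0'
      obtain ⟨t, et, rt⟩ := M3_fin a1
      obtain ⟨t', et', rt'⟩ := M3_fin a1'
      have eqn : ∀ (R : Fin 2 → Option K) (r y : K), R 0 = some r → R 1 = some y →
          hco (R 1) 1 ^ c.n * ∏ i, (hco (R 0) 1 - (c.over K).b i * hco (R 0) 0) =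
            hco (R 1) 0 ^ c.n * ∏ i, (hco (R 0) 1 - (c.over K).a i * hco (R 0) 0) →
          y ^ c.n * M3_f (fun i => -c.b i) (fun _ => 1) r =
            M3_f (fun i => -c.a i) (fun _ => 1) r := by
        intro R r y h0 h1 h2
        rw [h0, h1] at h2
        simp only [M3_f, Fin.prod_univ_three, map_one, map_neg] at h2 ⊢
        change y ^ c.n * ((r - algebraMap k K (c.b 0) * 1) *
          (r - algebraMap k K (c.b 1) * 1) * (r - algebraMap k K (c.b 2) * 1)) =
          (1 : K) ^ c.n * ((r - algebraMap k K (c.a 0) * 1) *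
          (r - algebraMap k K (c.a 1) * 1) * (r - algebraMap k K (c.a 2) * 1)) at h2
        rw [one_pow] at h2
        linear_combination h2
      have hE1 := eqn P s t es et hE
      have hE1' := eqn P' s' t' es' et' hE'
      have hV : lV (c.over (RF v)) q = ((c.n : ℕ) : RF v) * t0 ^ (c.n - 1) *
          M3_f (fun i => -c.b i) (fun _ => 1) s0 := by
        rw [lV, hq1, hq0]
        change ((c.n : ℕ) : RF v) * t0 ^ (c.n - 1) * ∏ i, (s0 - algebraMap k (RF v) (c.b i) * 1) = _
        congr 1
        simp only [M3_f, map_one, map_neg]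
        refine Finset.prod_congr rfl fun j _ => ?_
        ring
      have hX : lX (c.over (RF v)) q = (t0 ^ c.n * M3_d (fun i => -c.b i) (fun _ => 1) s0 -
          M3_d (fun i => -c.a i) (fun _ => 1) s0) := by
        rw [lX, hq1, hq0]
        change t0 ^ c.n * ∑ i, ∏ j ∈ Finset.univ.erase i, (s0 - algebraMap k (RF v) (c.b j)) -
          (1 : RF v) ^ c.n * ∑ i, ∏ j ∈ Finset.univ.erase i, (s0 - algebraMap k (RF v) (c.a j)) = _
        rw [one_pow, one_mul]
        simp only [M3_d, map_one, map_neg, one_mul]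
        congr 1
        · congr 1
          refine Finset.sum_congr rfl fun i _ => Finset.prod_congr rfl fun j _ => ?_
          ring
        · refine Finset.sum_congr rfl fun i _ => Finset.prod_congr rfl fun j _ => ?_
          ring
      obtain ⟨l, l1, l2⟩ := M3_core (fun i => -c.b i) (fun _ => 1) (fun i => -c.a i) (fun _ => 1) c.n
        rs rs' rt rt' hE1 hE1' (by
          rintro ⟨h1, h2⟩
          apply hne'
          rw [es, es', et, et', (sub_eq_zero.1 h1), (sub_eq_zero.1 h2)]
          exact ⟨rfl, rfl⟩) (by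
          rintro ⟨h1, h2⟩
          apply hsm
          rw [hX, hV]
          exact ⟨h1, h2⟩)
      rw [← hV] at l1
      rw [← hX] at l2
      refine M3_end hne ![1, s] ![1, s'] ![1, t] ![1, t'] 1 1 1 1
        one_ne_zero one_ne_zero one_ne_zero one_ne_zero ?_ ?_ ?_ ?_ ?_ ?_ ?_ ?_ l ?_ ?_
      · intro a
        rw [es]
        fin_cases a <;> simp [hco]
      · intro a
        rw [es']
        fin_cases a <;> simp [hco]
      · intro a
        rw [et]
        fin_cases a <;> simp [hco]
      · intro a
        rw [et']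
        fin_cases a <;> simp [hco]
      · intro a
        rw [hq0]
        fin_cases a
        · exact red_one v
        · exact rs
      · intro a
        rw [hq0]
        fin_cases a
        · exact red_one v
        · exact rs'
      · intro a
        rw [hq1]
        fin_cases a
        · exact red_one v
        · exact rt
      · intro a
        rw [hq1]
        fin_cases a
        · exact red_one v
        · exact rt'
      · have e : l * (![1, s] 0 * ![1, s'] 1 - ![1, s] 1 * ![1, s'] 0) = l * (s' - s) := by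
          simp
        rw [e]
        exact l1
      · have e : l * (![1, t] 0 * ![1, t'] 1 - ![1, t] 1 * ![1, t'] 0) = l * (t' - t) := by
          simp
        rw [e]
        exact l2

end Pool.Agent.LibCW77
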