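import Pool.Agent.LibCW77.HDefs
import Pool.Agent.LibCW77.M1
import Pool.Agent.LibCW77.M2
import Pool.Agent.LibCW77.M3
import Pool.Agent.LibCW77.H7

/-!
[CW77 M4] The secant morphism and the operator. `secM`: `sec_ne`, `sec_map`, `sec_sp_off`, `sec_sp_diag`, `sec_sp_lim` for the points `u 1`, `u 2`. `exists_op`: `con_spec` (H7).
-/

open scoped Classical
open Polynomial

namespace Pool.Agent.LibCW77

open Pool.Agent.LibBH2
open Pool.Agent.LibCHd (VR RF Red FunF)
open Pool.Agent.LibHL77 (Lf tt EHom NC HE BE mult hypf)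

variable {k : Type} [Field k]

theorem exists_secM [IsAlgClosed k] [CharZero k] {c : Dat k} (hc : c.Good) {α : k} (hα : IsAl c α) :
    ∃ φ : Mor c 3, ∀ (M : Type) [Field M] [Algebra k M] (u : Pnt 3 M),
      φ.φ M u = sec (c.over M) (algebraMap k M α) (u 1) (u 2) := by
  refine ⟨⟨fun M _ _ u => sec (c.over M) (algebraMap k M α) (u 1) (u 2), ?_, ?_, ?_⟩, ?_⟩
  · intro M _ _ u hu
    exact sec_ne hc hα (u 1) (u 2) (hu 1) (hu 2)
  · intro M M' _ _ _ _ σ u i
    exact sec_map σ (u 1) (u 2) i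
  · intro K _ _ v u q hu hq
    by_cases h1 : u 1 = u 2
    · have h2 : q 1 = q 2 := by
        funext i
        have h3 := hq 1 i
        rw [h1] at h3
        exact spO_unique h3 (hq 2 i)
      show ∃ l : K, ∀ i, Red v (l * sec (c.over K) (algebraMap k K α) (u 1) (u 2) i)
        (sec (c.over (RF v)) (algebraMap k (RF v) α) (q 1) (q 2) i)
      rw [h1, h2]
      exact sec_sp_diag hc hα (hu 2) (hq 2)
    · by_cases h2 : q 1 = q 2
      · show ∃ l : K, ∀ i, Red v (l * sec (c.over K) (algebraMap k K α) (u 1) (u 2) i)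
          (sec (c.over (RF v)) (algebraMap k (RF v) α) (q 1) (q 2) i)
        rw [h2]
        refine sec_sp_lim hc hα (hu 1) (hu 2) h1 ?_ (hq 2)
        rw [← h2]
        exact hq 1
      · exact sec_sp_off hc (hq 1) (hq 2) h2
  · intro M _ _ u
    rfl

theorem exists_op [IsAlgClosed k] [CharZero k] {c : Dat k} (hc : c.Good) {α : k} (hα : IsAl c α) :
    ∃ Con : CH c 3 1 →+ CH (c.over (Lf k)) 1 0,
      ∀ (M : Type) [Field M] [Algebra k M] (u : Pnt 3 M) (z : Fin 3) (S : Finset (Place k M))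
        (q₀ : Place k M → Fin 2 → Option k), FunF k 1 M → On (c.over M) u →
        sec (c.over M) (algebraMap k M α) (u 1) (u 2) z ≠ 0 →
        (∀ w, w ∉ S → mult (sec (c.over M) (algebraMap k M α) (u 1) (u 2)) z w = 0) →
        (∀ w ∈ S, ∀ i, SpO w (u 0 i) ((q₀ w i).map (algebraMap k (RF w)))) →
        Con (cls c 1 u) = ∑ w ∈ S, mult (sec (c.over M) (algebraMap k M α) (u 1) (u 2)) z w • bpt c (q₀ w) := by
  obtain ⟨φ, hφ⟩ := exists_secM hc hα
  obtain ⟨Con, hCon⟩ := con_spec hc φ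
  refine ⟨Con, ?_⟩
  intro M _ _ u z S q₀ hM hu hz hS hq
  rw [← hφ M u] at hz hS ⊢
  exact hCon M u z S q₀ hM hu hz hS hq

end Pool.Agent.LibCW77
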