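import Pool.Agent.LibCW77.HDefs
import Pool.Agent.LibCW77.G3
import Pool.Agent.LibCW77.D6
import Pool.Agent.LibCW77.D1

/-!
[CW77 V0] Degrees (`M` of dimension 1, `k` algebraically closed). `deg_zero`: `LibHL77.Z1.sum_zeros'` for `x - c` (the residue degrees are `1`: `res_k`), `k(x - c) = k(x)`; `deg_pole`: for `x⁻¹`. The sums are over any finite set which contains all places where the summand is not `0`. `ord_v`: from the equation
`v ^ n ∏ (x - b_i) = ∏ (x - a_i)`. `placeC`: the specialisation of `R` at a place is a point of the curve over `k` (`res_k`, `on_sp`).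
-/

open scoped Classical
open Polynomial

namespace Pool.Agent.LibCW77

open Pool.Agent.LibBH2
open Pool.Agent.LibCHd (VR RF Red FunF)
open Pool.Agent.LibHL77 (Lf tt EHom NC HE BE mult hypf)

variable {k : Type} [Field k]

private theorem V0_fin_one [IsAlgClosed k] {M : Type} [Field M] [Algebra k M] (hM : FunF k 1 M)
    (w : Place k M) : Module.finrank k (RF w) = 1 := by
  have hb : Function.Bijective (algebraMap k (RF w)) :=
    ⟨(algebraMap k (RF w)).injective, res_k hM w⟩
  have e : k ≃ₗ[k] RF w := LinearEquiv.ofBijective (Algebra.linearMap k (RF w)) hb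
  rw [← e.finrank_eq, Module.finrank_self]

private theorem V0_tr_sub {M : Type} [Field M] [Algebra k M] {x : M} (hx : Transcendental k x) (a : k) :
    Transcendental k (x - algebraMap k M a) := by
  intro h
  apply hx
  have h2 : x = (x - algebraMap k M a) + algebraMap k M a := by ring
  rw [h2]
  exact h.add (isAlgebraic_algebraMap a)

private theorem V0_ne {M : Type} [Field M] [Algebra k M] {x : M} (hx : Transcendental k x) (a : k) :
    x - algebraMap k M a ≠ 0 := by
  intro h
  exact V0_tr_sub hx a (h ▸ isAlgebraic_zero)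

private theorem V0_adj {M : Type} [Field M] [Algebra k M] (x : M) (a : k) :
    IntermediateField.adjoin k {x - algebraMap k M a} = IntermediateField.adjoin k {x} := by
  apply le_antisymm
  · rw [IntermediateField.adjoin_simple_le_iff]
    exact sub_mem (IntermediateField.mem_adjoin_simple_self k x) (algebraMap_mem _ a)
  · rw [IntermediateField.adjoin_simple_le_iff]
    have h := add_mem (IntermediateField.mem_adjoin_simple_self k (x - algebraMap k M a))
      (algebraMap_mem (IntermediateField.adjoin k {x - algebraMap k M a}) a)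
    rwa [sub_add_cancel] at h

private theorem V0_sum [IsAlgClosed k] [CharZero k] {M : Type} [Field M] [Algebra k M] (hM : FunF k 1 M)
    (φ : M) (hφ : Transcendental k φ) (S : Finset (Place k M)) (hS : ∀ w : Place k M, 0 < w.ord φ → w ∈ S) :
    ∑ w ∈ S, max 0 (w.ord φ) = Module.finrank (IntermediateField.adjoin k {φ}) M := by
  obtain ⟨T, hT, h⟩ := Pool.Agent.LibHL77.sum_zeros' hM φ hφ
  rw [← h]
  have hTS : T ⊆ S := fun w hw => hS w ((hT w).1 hw)
  rw [← Finset.sum_subset hTS]
  · refine Finset.sum_congr rfl fun w hw => ?_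
    rw [V0_fin_one hM w, Nat.cast_one, mul_one]
    exact max_eq_right ((hT w).1 hw).le
  · intro w _ hw
    rw [hT, not_lt] at hw
    exact max_eq_left hw

theorem deg_zero [IsAlgClosed k] [CharZero k] {M : Type} [Field M] [Algebra k M] (hM : FunF k 1 M) (x : M)
    (hx : Transcendental k x) (a : k) (S : Finset (Place k M))
    (hS : ∀ w : Place k M, 0 < w.ord (x - algebraMap k M a) → w ∈ S) :
    ∑ w ∈ S, max 0 (w.ord (x - algebraMap k M a)) = dg k x := by
  rw [V0_sum hM _ (V0_tr_sub hx a) S hS, V0_adj x a]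
  rfl

theorem deg_pole [IsAlgClosed k] [CharZero k] {M : Type} [Field M] [Algebra k M] (hM : FunF k 1 M) (x : M)
    (hx : Transcendental k x) (S : Finset (Place k M)) (hS : ∀ w : Place k M, w.ord x < 0 → w ∈ S) :
    ∑ w ∈ S, max 0 (- w.ord x) = dg k x := by
  have h := V0_sum hM x⁻¹ (Pool.Agent.LibEnd77.Val8.transcendental_inv hx) S (fun w hw => hS w (by
    rw [w.ord_inv] at hw
    omega))
  simp only [Place.ord_inv] at h
  rw [h, Pool.Agent.LibEnd77.Val8.adjoin_inv]
  rfl

private theorem V0_onC_map {c : Dat k} {F : Type} [Field F] [Algebra k F] {p q : Option k}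
    (h : OnC (c.over F) (p.map (algebraMap k F)) (q.map (algebraMap k F))) : OnC c p q := by
  have hinj := (algebraMap k F).injective
  rcases p with _ | x <;> rcases q with _ | y
  · exact h
  · have h1 : (algebraMap k F y) ^ c.n = 1 := h
    rw [← map_pow, ← (algebraMap k F).map_one] at h1
    exact hinj h1
  · obtain ⟨i, hi⟩ : ∃ i, algebraMap k F x = algebraMap k F (c.b i) := h
    exact ⟨i, hinj hi⟩
  · have h1 : (algebraMap k F y) ^ c.n * ∏ i, (algebraMap k F x - algebraMap k F (c.b i)) =
      ∏ i, (algebraMap k F x - algebraMap k F (c.a i)) := h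
    simp only [← map_sub, ← map_pow, ← map_prod, ← map_mul] at h1
    exact hinj h1

/-- the specialisations of a point over `M` are points over `k` -/
theorem sp_k [IsAlgClosed k] {M : Type} [Field M] [Algebra k M] (hM : FunF k 1 M) {c : Dat k} (hc : c.Good)
    (R : Fin 2 → Option M) (hR : OnC (c.over M) (R 0) (R 1)) (w : Place k M) :
    ∃ r : Fin 2 → Option k, OnC c (r 0) (r 1) ∧ ∀ i, SpO w (R i) ((r i).map (algebraMap k (RF w))) := by
  have h1 : ∀ i, ∃ p : Option k, SpO w (R i) (p.map (algebraMap k (RF w))) := by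
    intro i
    obtain ⟨p, hp⟩ := spO_exists w (R i)
    rcases p with _ | y
    · exact ⟨none, hp⟩
    · obtain ⟨r, rfl⟩ := res_k hM w y
      exact ⟨some r, hp⟩
  choose r hr using h1
  refine ⟨r, ?_, hr⟩
  have h2 := on_sp (m := 1) (v := w) (u := fun _ => R) (q := fun _ i => (r i).map (algebraMap k (RF w))) hc
    (fun _ => hR) (fun _ i => hr i) 0
  exact V0_onC_map h2

/-- a point of the curve with transcendental `x` has a finite `v ≠ 0` -/
theorem v_fin {M : Type} [Field M] [Algebra k M] {c : Dat k} (hc : c.Good) {x : M} (hx : Transcendental k x)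
    {o : Option M} (h : OnC (c.over M) (some x) o) : ∃ v, o = some v ∧ v ≠ 0 ∧
      v ^ c.n * ∏ i, (x - algebraMap k M (c.b i)) = ∏ i, (x - algebraMap k M (c.a i)) := by
  rcases o with _ | v
  · obtain ⟨i, hi⟩ : ∃ i, x = algebraMap k M (c.b i) := h
    exact absurd (hi ▸ isAlgebraic_algebraMap (c.b i)) hx
  · have h1 : v ^ c.n * ∏ i, (x - algebraMap k M (c.b i)) = ∏ i, (x - algebraMap k M (c.a i)) := h
    refine ⟨v, rfl, ?_, h1⟩
    rintro rfl
    have hn : c.n ≠ 0 := by have := hc.two; omega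
    rw [zero_pow hn, zero_mul] at h1
    have h2 : ∏ i, (x - algebraMap k M (c.a i)) ≠ 0 := by
      rw [Finset.prod_ne_zero_iff]
      intro i _
      exact V0_ne hx _
    exact h2 h1.symm

private theorem V0_ord_pole {M : Type} [Field M] [Algebra k M] {x : M} (w : Place k M) (h : w.ord x < 0)
    (a : k) (hne : x - algebraMap k M a ≠ 0) : w.ord (x - algebraMap k M a) = w.ord x := by
  have hx : x ≠ 0 := by
    rintro rfl
    rw [w.ord_zero] at h
    exact lt_irrefl _ h
  by_cases ha : a = 0
  · rw [ha, map_zero, sub_zero]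
  have ha' : algebraMap k M a ≠ 0 := fun h1 => ha ((map_eq_zero (algebraMap k M)).1 h1)
  have h1 := w.ord_const a ha
  have h2 := w.ord_add x (-algebraMap k M a) hx (neg_ne_zero.2 ha') (by rwa [← sub_eq_add_neg])
  rw [← sub_eq_add_neg, w.ord_neg, h1, min_eq_left h.le] at h2
  have h3 := w.ord_add (x - algebraMap k M a) (algebraMap k M a) hne ha' (by rwa [sub_add_cancel])
  rw [sub_add_cancel, h1] at h3
  rcases min_le_iff.1 h3 with h4 | h4
  · omega
  · omega

private theorem V0_ord_nonneg {M : Type} [Field M] [Algebra k M] {x : M} (w : Place k M) (h : 0 ≤ w.ord x)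
    (a : k) : 0 ≤ w.ord (x - algebraMap k M a) := by
  have h1 : w.Reg (x - algebraMap k M a) := Place.Reg.sub (Or.inr h) (w.reg_const a)
  rcases h1 with h1 | h1
  · rw [h1, w.ord_zero]
  · exact h1

private theorem V0_ord_two {M : Type} [Field M] [Algebra k M] {x : M} (w : Place k M) {a b : k} (hab : a ≠ b)
    (ha : 0 < w.ord (x - algebraMap k M a)) (h0 : 0 ≤ w.ord (x - algebraMap k M b)) :
    w.ord (x - algebraMap k M b) = 0 := by
  by_contra h1
  have h2 : 0 < w.ord (x - algebraMap k M b) := lt_of_le_of_ne h0 (Ne.symm h1)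
  have h3 : w.Zer ((x - algebraMap k M a) - (x - algebraMap k M b)) := Place.Zer.sub (Or.inr ha) (Or.inr h2)
  have h4 : (x - algebraMap k M a) - (x - algebraMap k M b) = algebraMap k M (b - a) := by
    rw [map_sub]
    ring
  rw [h4] at h3
  have h5 : b - a ≠ 0 := sub_ne_zero.2 (Ne.symm hab)
  rcases h3 with h3 | h3
  · exact h5 ((map_eq_zero (algebraMap k M)).1 h3)
  · rw [w.ord_const _ h5] at h3
    exact lt_irrefl _ h3

/-- orders at a place `w` in terms of the specialisation -/
theorem ord_cases {M : Type} [Field M] [Algebra k M] {c : Dat k} (hc : c.Good) {x v : M} (hx : Transcendental k x)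
    (h : OnC (c.over M) (some x) (some v)) (w : Place k M) :
    (w.ord x < 0 ∧ w.ord v = 0) ∨ (∃ i, 0 < w.ord v ∧ w.ord (x - algebraMap k M (c.a i)) = c.n * w.ord v) ∨
    (∃ i, w.ord v < 0 ∧ w.ord (x - algebraMap k M (c.b i)) = - (c.n * w.ord v)) ∨
    (0 ≤ w.ord x ∧ w.ord v = 0 ∧ (∀ i, w.ord (x - algebraMap k M (c.a i)) = 0) ∧
      ∀ i, w.ord (x - algebraMap k M (c.b i)) = 0) := by
  obtain ⟨v', hv', hv0, he⟩ := v_fin hc hx h
  rw [Option.some_inj] at hv'
  subst hv'
  have hn : 0 < (c.n : ℤ) := by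
    have := hc.two
    exact_mod_cast (by omega : 0 < c.n)
  have hne := fun a : k => V0_ne hx a
  have hE : (c.n : ℤ) * w.ord v + (w.ord (x - algebraMap k M (c.b 0)) + w.ord (x - algebraMap k M (c.b 1)) +
      w.ord (x - algebraMap k M (c.b 2))) = w.ord (x - algebraMap k M (c.a 0)) +
      w.ord (x - algebraMap k M (c.a 1)) + w.ord (x - algebraMap k M (c.a 2)) := by
    have h1 := congrArg w.ord he
    rw [Fin.prod_univ_three, Fin.prod_univ_three,
      w.ord_mul _ _ (pow_ne_zero _ hv0) (mul_ne_zero (mul_ne_zero (hne _) (hne _)) (hne _)), w.ord_pow,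
      w.ord_mul _ _ (mul_ne_zero (hne _) (hne _)) (hne _), w.ord_mul _ _ (hne _) (hne _),
      w.ord_mul _ _ (mul_ne_zero (hne _) (hne _)) (hne _), w.ord_mul _ _ (hne _) (hne _)] at h1
    exact h1
  by_cases hxo : w.ord x < 0
  · left
    refine ⟨hxo, ?_⟩
    rw [V0_ord_pole w hxo _ (hne _), V0_ord_pole w hxo _ (hne _), V0_ord_pole w hxo _ (hne _),
      V0_ord_pole w hxo _ (hne _), V0_ord_pole w hxo _ (hne _), V0_ord_pole w hxo _ (hne _)] at hE
    have h2 : (c.n : ℤ) * w.ord v = 0 := by omega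
    rcases mul_eq_zero.1 h2 with h3 | h3
    · omega
    · exact h3
  right
  have hxo' : 0 ≤ w.ord x := not_lt.1 hxo
  have hp := fun a : k => V0_ord_nonneg w hxo' a
  have hinj := hc.inj
  have haa : ∀ i j, i ≠ j → c.a i ≠ c.a j := by
    intro i j hij h1
    have h2 : (Sum.inl i : Fin 3 ⊕ Fin 3) = Sum.inl j := hinj h1
    exact hij (Sum.inl.inj h2)
  have hbb : ∀ i j, i ≠ j → c.b i ≠ c.b j := by
    intro i j hij h1
    have h2 : (Sum.inr i : Fin 3 ⊕ Fin 3) = Sum.inr j := hinj h1
    exact hij (Sum.inr.inj h2)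
  have hab : ∀ i j, c.a i ≠ c.b j := by
    intro i j h1
    have h2 : (Sum.inl i : Fin 3 ⊕ Fin 3) = Sum.inr j := hinj h1
    cases h2
  have hsa : ∑ j, w.ord (x - algebraMap k M (c.a j)) = w.ord (x - algebraMap k M (c.a 0)) +
      w.ord (x - algebraMap k M (c.a 1)) + w.ord (x - algebraMap k M (c.a 2)) := Fin.sum_univ_three _
  have hsb : ∑ j, w.ord (x - algebraMap k M (c.b j)) = w.ord (x - algebraMap k M (c.b 0)) +
      w.ord (x - algebraMap k M (c.b 1)) + w.ord (x - algebraMap k M (c.b 2)) := Fin.sum_univ_three _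
  rw [← hsa, ← hsb] at hE
  by_cases hA : ∃ i, 0 < w.ord (x - algebraMap k M (c.a i))
  · obtain ⟨i, hi⟩ := hA
    left
    refine ⟨i, ?_⟩
    have h1 : ∑ j, w.ord (x - algebraMap k M (c.a j)) = w.ord (x - algebraMap k M (c.a i)) :=
      Finset.sum_eq_single i (fun j _ hj => V0_ord_two w (haa i j (Ne.symm hj)) hi (hp _))
        (fun h => absurd (Finset.mem_univ i) h)
    have h2 : ∑ j, w.ord (x - algebraMap k M (c.b j)) = 0 :=
      Finset.sum_eq_zero fun j _ => V0_ord_two w (hab i j) hi (hp _)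
    rw [h1, h2, add_zero] at hE
    refine ⟨?_, hE.symm⟩
    rw [← hE] at hi
    exact (mul_pos_iff_of_pos_left hn).1 hi
  right
  push Not at hA
  have hA' : ∀ i, w.ord (x - algebraMap k M (c.a i)) = 0 := fun i => le_antisymm (hA i) (hp _)
  have h1 : ∑ j, w.ord (x - algebraMap k M (c.a j)) = 0 := Finset.sum_eq_zero fun j _ => hA' j
  by_cases hB : ∃ i, 0 < w.ord (x - algebraMap k M (c.b i))
  · obtain ⟨i, hi⟩ := hB
    left
    refine ⟨i, ?_⟩
    have h2 : ∑ j, w.ord (x - algebraMap k M (c.b j)) = w.ord (x - algebraMap k M (c.b i)) :=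
      Finset.sum_eq_single i (fun j _ hj => V0_ord_two w (hbb i j (Ne.symm hj)) hi (hp _))
        (fun h => absurd (Finset.mem_univ i) h)
    rw [h1, h2] at hE
    have h3 : w.ord (x - algebraMap k M (c.b i)) = - (c.n * w.ord v) := by omega
    refine ⟨?_, h3⟩
    rw [h3] at hi
    have h4 : (c.n : ℤ) * w.ord v < 0 := by omega
    by_contra h5
    exact absurd h4 (not_lt.2 (mul_nonneg hn.le (not_lt.1 h5)))
  · right
    push Not at hB
    have hB' : ∀ i, w.ord (x - algebraMap k M (c.b i)) = 0 := fun i => le_antisymm (hB i) (hp _)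
    have h2 : ∑ j, w.ord (x - algebraMap k M (c.b j)) = 0 := Finset.sum_eq_zero fun j _ => hB' j
    rw [h1, h2, add_zero] at hE
    refine ⟨hxo', ?_, hA', hB'⟩
    rcases mul_eq_zero.1 hE with h3 | h3
    · omega
    · exact h3

end Pool.Agent.LibCW77
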