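import Pool.Agent.LibCW77.HDefs
import Pool.Agent.LibCW77.M1
import Pool.Agent.LibCW77.M4
import Pool.Agent.LibCW77.V0

/-!
[CW77 V1] Two values of the operator. Let `R = (x, v)`, `x` transcendental. `val_tw` (`ω ≠ 1`): `sec (ωR) R` = `(0, dV, dV x ^ 2)`, `dV = v - ω v ≠ 0`: `z = 1`, `mult = - min 0 (2 ord x) = 2 max 0 (- ord x)`; `deg_pole`. (The first point is constant: its specialisation is `Q`.) `val_diag`: `z = 0`,
`sec = (lV, - lX, α lV v ^ 2 - lX x ^ 2)`, `lV = n v ^ (n - 1) B(x)`, `lX = v ^ n B'(x) - A'(x) = (A B' - A' B)(x) / B(x)`. By `ord_cases`, with `e = |ord v|`: at a zero `a_i`: orders `(n - 1) e`, `0`, `≥ 0`: `mult = (n - 1) e`; at `b_i`: `lV`: `- (n - 1) e + n e = e`; `lX`: `- n e` (`A(b_i) B'(b_i) ≠ 0`), third `≥ - n e`: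
`mult = e + n e`; at a pole of `x` (order `- e`): `lV`: `- 3 e`, `lX`: `A B' - A' B` has degree `≤ 4`: `≥ - e`, third `≥ - 3 e`: `mult = 0`; elsewhere `lV` has order `0` and the others `≥ 0`: `0`. Sum: `∑_i (n - 1) (dg / n) + (n + 1) (dg / n)`, where `∑ e = dg / n` over the places with `x = a_i` (`deg_zero`: `n e = ord (x - a_i)`):
`n · total = 3 (n - 1) dg + 3 (n + 1) dg = 6 n dg`.
-/

open scoped Classical
open Polynomial

namespace Pool.Agent.LibCW77

open Pool.Agent.LibBH2
open Pool.Agent.LibCHd (VR RF Red FunF)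
open Pool.Agent.LibHL77 (Lf tt EHom NC HE BE mult hypf)

variable {k : Type} [Field k]

/-- `Con` has the property of `exists_op` -/
def IsCon (c : Dat k) (α : k) (Con : CH c 3 1 →+ CH (c.over (Lf k)) 1 0) : Prop :=
  ∀ (M : Type) [Field M] [Algebra k M] (u : Pnt 3 M) (z : Fin 3) (S : Finset (Place k M))
    (q₀ : Place k M → Fin 2 → Option k), FunF k 1 M → On (c.over M) u →
    sec (c.over M) (algebraMap k M α) (u 1) (u 2) z ≠ 0 →
    (∀ w, w ∉ S → mult (sec (c.over M) (algebraMap k M α) (u 1) (u 2)) z w = 0) →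
    (∀ w ∈ S, ∀ i, SpO w (u 0 i) ((q₀ w i).map (algebraMap k (RF w)))) →
    Con (cls c 1 u) = ∑ w ∈ S, mult (sec (c.over M) (algebraMap k M α) (u 1) (u 2)) z w • bpt c (q₀ w)

section V1_aux

variable {M : Type} [Field M] [Algebra k M]

private theorem V1_mult {φ : Fin 3 → M} {z : Fin 3} {w : Place k M} (hz : φ z ≠ 0) {s : M} (hs : s ≠ 0)
    (hreg : ∀ j, w.Reg (s * φ j)) (hu : ∃ j, φ j ≠ 0 ∧ w.ord (s * φ j) = 0) :
    mult φ z w = w.ord (s * φ z) := by
  have h1 : IsLeast {m | ∃ j, φ j ≠ 0 ∧ m = w.ord (φ j)} (- w.ord s) := by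
    constructor
    · obtain ⟨j, hj, hj'⟩ := hu
      refine ⟨j, hj, ?_⟩
      rw [w.ord_mul _ _ hs hj] at hj'
      omega
    · rintro m ⟨j, hj, rfl⟩
      have h2 := (hreg j).resolve_left (mul_ne_zero hs hj)
      rw [w.ord_mul _ _ hs hj] at h2
      omega
  unfold mult
  rw [h1.csInf_eq, w.ord_mul _ _ hs hz]
  ring

private theorem V1_reg_aeval {w : Place k M} {y : M} (hy : w.Reg y) (P : k[X]) : w.Reg (aeval y P) := by
  induction P using Polynomial.induction_on' with
  | add p q hp hq =>
    rw [map_add]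
    exact hp.add hq
  | monomial n a =>
    rw [Polynomial.aeval_monomial]
    exact (w.reg_const a).mul (Place.Reg.pow hy n)

/-- the derivative of `∏ (x - p_i)` -/
private def V1_dd {F : Type} [Field F] (p : Fin 3 → F) (x : F) : F :=
  ∑ i, ∏ j ∈ Finset.univ.erase i, (x - p j)

private noncomputable def V1_ddp (p : Fin 3 → k) : k[X] :=
  ∑ i, ∏ j ∈ Finset.univ.erase i, (X - C (p j))

private theorem V1_dd_aeval (p : Fin 3 → k) (x : M) :
    V1_dd (fun i => algebraMap k M (p i)) x = aeval x (V1_ddp p) := by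
  simp [V1_dd, V1_ddp, map_sum, map_prod]

private theorem V1_dd_eval (p : Fin 3 → k) (x : k) : (V1_ddp p).eval x = V1_dd p x := by
  simp [V1_dd, V1_ddp, Polynomial.eval_finsetSum, Polynomial.eval_prod]

private theorem V1_dd_ne {p : Fin 3 → k} (hp : Function.Injective p) (i : Fin 3) : V1_dd p (p i) ≠ 0 := by
  have h : ∀ i j : Fin 3, i ≠ j → p i - p j ≠ 0 := fun i j hij => sub_ne_zero.mpr fun h => hij (hp h)
  have e0 : (Finset.univ.erase 0 : Finset (Fin 3)) = {1, 2} := by decide
  have e1 : (Finset.univ.erase 1 : Finset (Fin 3)) = {0, 2} := by decide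
  have e2 : (Finset.univ.erase 2 : Finset (Fin 3)) = {0, 1} := by decide
  unfold V1_dd
  rw [Fin.sum_univ_three, e0, e1, e2, Finset.prod_pair (by decide), Finset.prod_pair (by decide),
    Finset.prod_pair (by decide)]
  fin_cases i
  · simp only [Fin.zero_eta, sub_self, zero_mul, add_zero]
    exact mul_ne_zero (h 0 1 (by decide)) (h 0 2 (by decide))
  · simp only [Fin.mk_one, sub_self, zero_mul, mul_zero, add_zero, zero_add]
    exact mul_ne_zero (h 1 0 (by decide)) (h 1 2 (by decide))
  · simp only [Fin.reduceFinMk, sub_self, mul_zero, zero_add]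
    exact mul_ne_zero (h 2 0 (by decide)) (h 2 1 (by decide))

private theorem V1_shift {w : Place k M} {x : M} {a b : k} (h : w.Zer (x - algebraMap k M a)) (hab : a ≠ b) :
    w.ord (x - algebraMap k M b) = 0 := by
  refine Place.ord_eq_zero_of_val (c := a - b) ?_ (sub_ne_zero.mpr hab)
  convert h using 1
  rw [map_sub]
  ring

private theorem V1_ord_prod {w : Place k M} {f : Fin 3 → M} (h : ∀ i, f i ≠ 0) :
    w.ord (∏ i, f i) = ∑ i, w.ord (f i) := by
  rw [Fin.prod_univ_three, Fin.sum_univ_three, w.ord_mul _ _ (mul_ne_zero (h 0) (h 1)) (h 2),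
    w.ord_mul _ _ (h 0) (h 1)]

private theorem V1_tr {x : M} (hx : Transcendental k x) (a : k) : x - algebraMap k M a ≠ 0 := by
  intro h
  rw [sub_eq_zero] at h
  rw [h] at hx
  exact hx (isAlgebraic_algebraMap a)

/-- the value of `lV` -/
private noncomputable def V1_lV (c : Dat k) (x v : M) : M :=
  (c.n : M) * v ^ (c.n - 1) * ∏ i, (x - algebraMap k M (c.b i))

/-- the value of `lX` -/
private noncomputable def V1_lX (c : Dat k) (x v : M) : M :=
  v ^ c.n * V1_dd (fun i => algebraMap k M (c.b i)) x - V1_dd (fun i => algebraMap k M (c.a i)) x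

private theorem V1_sec_diag (c : Dat k) (α : M) (x v : M) :
    sec (c.over M) α ![some x, some v] ![some x, some v] =
      ![V1_lV c x v, - V1_lX c x v, α * V1_lV c x v * v ^ 2 - V1_lX c x v * x ^ 2] := by
  unfold sec
  rw [if_pos rfl]
  have h1 : lV (c.over M) ![some x, some v] = V1_lV c x v := by
    simp only [lV, V1_lV, hco, Matrix.cons_val_zero, Matrix.cons_val_one, mul_one]
    rfl
  have h2 : lX (c.over M) ![some x, some v] = V1_lX c x v := by
    simp only [lX, V1_lX, V1_dd, hco, Matrix.cons_val_zero, Matrix.cons_val_one, one_pow, one_mul]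
    rfl
  rw [h1, h2]
  simp only [hco, Matrix.cons_val_zero, Matrix.cons_val_one, one_pow, mul_one]

/-- the multiplicities on the diagonal -/
private theorem V1_mult_diag [CharZero k] {c : Dat k} (hc : c.Good) (α : k) {x v : M}
    (hx : Transcendental k x) (hv : v ≠ 0) (h : OnC (c.over M) (some x) (some v)) (w : Place k M) :
    V1_lV c x v ≠ 0 ∧
    (c.n : ℤ) * mult (sec (c.over M) (algebraMap k M α) ![some x, some v] ![some x, some v]) 0 w =
      ((c.n : ℤ) - 1) * ∑ i, max 0 (w.ord (x - algebraMap k M (c.a i))) +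
        ((c.n : ℤ) + 1) * ∑ i, max 0 (w.ord (x - algebraMap k M (c.b i))) := by
  have hn2 := hc.two
  have hn : c.n ≠ 0 := by omega
  have : CharZero M := charZero_of_injective_algebraMap (algebraMap k M).injective
  have hnM : (c.n : M) ≠ 0 := Nat.cast_ne_zero.mpr hn
  have hordn : w.ord (c.n : M) = 0 := by
    have h1 := w.ord_const (c.n : k) (Nat.cast_ne_zero.mpr hn)
    rwa [map_natCast] at h1
  have hB0 : ∏ i, (x - algebraMap k M (c.b i)) ≠ 0 :=
    Finset.prod_ne_zero_iff.mpr fun i _ => V1_tr hx _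
  have hlV : V1_lV c x v ≠ 0 := mul_ne_zero (mul_ne_zero hnM (pow_ne_zero _ hv)) hB0
  refine ⟨hlV, ?_⟩
  have heq : v ^ c.n * ∏ i, (x - algebraMap k M (c.b i)) = ∏ i, (x - algebraMap k M (c.a i)) := h
  have hna : ∀ i j, i ≠ j → c.a i ≠ c.a j := fun i j hij hh =>
    hij (by simpa using hc.inj (show Sum.elim c.a c.b (Sum.inl i) = Sum.elim c.a c.b (Sum.inl j) from hh))
  have hnb : ∀ i j, i ≠ j → c.b i ≠ c.b j := fun i j hij hh =>
    hij (by simpa using hc.inj (show Sum.elim c.a c.b (Sum.inr i) = Sum.elim c.a c.b (Sum.inr j) from hh))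
  have hnab : ∀ i j, c.a i ≠ c.b j := fun i j hh => by
    simpa using hc.inj (show Sum.elim c.a c.b (Sum.inl i) = Sum.elim c.a c.b (Sum.inr j) from hh)
  have hia : Function.Injective c.a := fun i j hh => by
    by_contra hij
    exact hna i j hij hh
  have hib : Function.Injective c.b := fun i j hh => by
    by_contra hij
    exact hnb i j hij hh
  have hordlV : w.ord (V1_lV c x v) = ((c.n : ℤ) - 1) * w.ord v + ∑ i, w.ord (x - algebraMap k M (c.b i)) := by
    unfold V1_lV
    rw [w.ord_mul _ _ (mul_ne_zero hnM (pow_ne_zero _ hv)) hB0, w.ord_mul _ _ hnM (pow_ne_zero _ hv), hordn,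
      w.ord_pow, V1_ord_prod fun i => V1_tr hx _, Nat.cast_sub (by omega : 1 ≤ c.n)]
    push_cast
    ring
  rw [V1_sec_diag]
  have hz : (![V1_lV c x v, - V1_lX c x v,
      algebraMap k M α * V1_lV c x v * v ^ 2 - V1_lX c x v * x ^ 2] : Fin 3 → M) 0 ≠ 0 := hlV
  rcases ord_cases hc hx h w with ⟨hxw, hvw⟩ | ⟨i, hvw, hxw⟩ | ⟨i, hvw, hxw⟩ | ⟨hxw, hvw, hxa, hxb⟩
  · -- pole of `x`
    have hx0 : x ≠ 0 := by
      rintro rfl
      rw [w.ord_zero] at hxw
      exact lt_irrefl _ hxw
    obtain ⟨y, hy⟩ : ∃ y : M, y = x⁻¹ := ⟨_, rfl⟩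
    have hy0 : y ≠ 0 := by rw [hy]; exact inv_ne_zero hx0
    have hyord : 0 < w.ord y := by rw [hy, w.ord_inv]; omega
    have hyZ : w.Zer (y - algebraMap k M 0) := by
      rw [map_zero, sub_zero]
      exact Or.inr hyord
    have hyx : y * x = 1 := by rw [hy, inv_mul_cancel₀ hx0]
    have hsub : ∀ a : k, w.ord (x - algebraMap k M a) = w.ord x := by
      intro a
      by_cases ha : a = 0
      · rw [ha, map_zero, sub_zero]
      have ha' : -(algebraMap k M a) ≠ 0 := by
        rw [neg_ne_zero]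
        exact (_root_.map_ne_zero _).mpr ha
      have h2 := w.ord_add_of_lt hx0 ha' (by rw [w.ord_neg, w.ord_const _ ha]; exact hxw)
      rw [sub_eq_add_neg]
      exact h2.2
    -- the polynomials in `y`
    obtain ⟨PA, hPA⟩ : ∃ P : k[X], P = ∏ i, (1 - C (c.a i) * X) := ⟨_, rfl⟩
    obtain ⟨PB, hPB⟩ : ∃ P : k[X], P = ∏ i, (1 - C (c.b i) * X) := ⟨_, rfl⟩
    obtain ⟨QA, hQA⟩ : ∃ P : k[X], P = ∑ i, ∏ j ∈ Finset.univ.erase i, (1 - C (c.a j) * X) := ⟨_, rfl⟩
    obtain ⟨QB, hQB⟩ : ∃ P : k[X], P = ∑ i, ∏ j ∈ Finset.univ.erase i, (1 - C (c.b j) * X) := ⟨_, rfl⟩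
    have hfac : ∀ a : k, (x - algebraMap k M a) * y = 1 - algebraMap k M a * y := by
      intro a
      rw [sub_mul, mul_comm x y, hyx]
    have hAy : (∏ i, (x - algebraMap k M (c.a i))) * y ^ 3 = aeval y PA := by
      rw [hPA, map_prod]
      have e1 : (y ^ 3 : M) = ∏ _i : Fin 3, y := by simp
      rw [e1, ← Finset.prod_mul_distrib]
      refine Finset.prod_congr rfl fun i _ => ?_
      rw [hfac]
      simp
    have hBy : (∏ i, (x - algebraMap k M (c.b i))) * y ^ 3 = aeval y PB := by
      rw [hPB, map_prod]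
      have e1 : (y ^ 3 : M) = ∏ _i : Fin 3, y := by simp
      rw [e1, ← Finset.prod_mul_distrib]
      refine Finset.prod_congr rfl fun i _ => ?_
      rw [hfac]
      simp
    have hDy : ∀ p : Fin 3 → k, V1_dd (fun i => algebraMap k M (p i)) x * y ^ 2 =
        aeval y (∑ i, ∏ j ∈ Finset.univ.erase i, (1 - C (p j) * X)) := by
      intro p
      unfold V1_dd
      rw [map_sum, Finset.sum_mul]
      refine Finset.sum_congr rfl fun i _ => ?_
      have e1 : (y ^ 2 : M) = ∏ _j ∈ Finset.univ.erase i, y := by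
        rw [Finset.prod_const, Finset.card_erase_of_mem (Finset.mem_univ i)]
        simp
      rw [map_prod, e1, ← Finset.prod_mul_distrib]
      refine Finset.prod_congr rfl fun j _ => ?_
      rw [hfac]
      simp
    have hdvd : (X : k[X]) ∣ PA * QB - PB * QA := by
      rw [Polynomial.X_dvd_iff, Polynomial.coeff_zero_eq_eval_zero, hPA, hPB, hQA, hQB]
      simp [Polynomial.eval_prod, Polynomial.eval_finsetSum]
    obtain ⟨G, hG⟩ := hdvd
    have hPBv : w.Zer (aeval y PB - algebraMap k M 1) := by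
      have h2 := Place.val_aeval hyZ PB
      have h3 : PB.eval 0 = 1 := by
        rw [hPB]
        simp [Polynomial.eval_prod]
      rwa [h3] at h2
    have hPB0 : aeval y PB ≠ 0 := Place.ne_zero_of_val hPBv one_ne_zero
    have hPBord : w.ord (aeval y PB) = 0 := Place.ord_eq_zero_of_val hPBv one_ne_zero
    have hkey : V1_lX c x v * y * aeval y PB = aeval y G := by
      have e1 : v ^ c.n * aeval y PB = aeval y PA := by
        rw [← hAy, ← hBy, ← mul_assoc, heq]
      have e2 : V1_lX c x v * y ^ 2 = v ^ c.n * aeval y QB - aeval y QA := by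
        rw [hQA, hQB, ← hDy, ← hDy]
        unfold V1_lX
        ring
      have e3 : y * (V1_lX c x v * y * aeval y PB) = y * aeval y G := by
        have e4 : aeval y (PA * QB - PB * QA) = y * aeval y G := by
          rw [hG, map_mul, Polynomial.aeval_X]
        rw [← e4, map_sub, map_mul, map_mul, ← e1]
        linear_combination (aeval y PB) * e2
      exact mul_left_cancel₀ hy0 e3
    have hlXy : w.Reg (V1_lX c x v * y) := by
      have e1 : V1_lX c x v * y = aeval y G * (aeval y PB)⁻¹ := by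
        rw [← hkey, mul_assoc, mul_inv_cancel₀ hPB0, mul_one]
      rw [e1]
      refine (V1_reg_aeval (Or.inr hyord.le) G).mul (Or.inr ?_)
      rw [w.ord_inv, hPBord, neg_zero]
    have hyR : w.Reg y := Or.inr hyord.le
    have hvR : w.Reg v := Or.inr hvw.ge
    have hlVy : w.ord (y ^ 3 * V1_lV c x v) = 0 := by
      have hyo : w.ord y = - w.ord x := by rw [hy, w.ord_inv]
      rw [w.ord_mul _ _ (pow_ne_zero _ hy0) hlV, hordlV, w.ord_pow, hvw, Fin.sum_univ_three, hsub, hsub, hsub,
        hyo]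
      push_cast
      ring
    have hlVR : w.Reg (y ^ 3 * V1_lV c x v) := Or.inr hlVy.ge
    rw [V1_mult hz (s := y ^ 3) (pow_ne_zero _ hy0) ?_ ⟨0, hlV, hlVy⟩]
    · have e1 : w.ord (y ^ 3 * (![V1_lV c x v, - V1_lX c x v,
          algebraMap k M α * V1_lV c x v * v ^ 2 - V1_lX c x v * x ^ 2] : Fin 3 → M) 0) = 0 := hlVy
      rw [e1]
      have e2 : ∀ a : k, max 0 (w.ord (x - algebraMap k M a)) = 0 := fun a => by
        rw [hsub a]
        exact max_eq_left hxw.le
      simp [e2]
    · intro j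
      fin_cases j
      · exact hlVR
      · change w.Reg (y ^ 3 * - V1_lX c x v)
        have e1 : y ^ 3 * - V1_lX c x v = -(V1_lX c x v * y * y ^ 2) := by ring
        rw [e1]
        exact (hlXy.mul (hyR.pow 2)).neg
      · change w.Reg (y ^ 3 * (algebraMap k M α * V1_lV c x v * v ^ 2 - V1_lX c x v * x ^ 2))
        have e1 : y ^ 3 * (algebraMap k M α * V1_lV c x v * v ^ 2 - V1_lX c x v * x ^ 2) =
            algebraMap k M α * (y ^ 3 * V1_lV c x v) * v ^ 2 - V1_lX c x v * y := by
          linear_combination (-(V1_lX c x v * y) * (y * x + 1)) * hyx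
        rw [e1]
        exact (((w.reg_const α).mul hlVR).mul (hvR.pow 2)).sub hlXy
  · -- zero of `v`
    have hxZ : w.Zer (x - algebraMap k M (c.a i)) := Or.inr (by rw [hxw]; positivity)
    have hxR : w.Reg x := Place.reg_of_val hxZ
    have hvZ : w.Zer v := Or.inr hvw
    have hxb : ∀ j, w.ord (x - algebraMap k M (c.b j)) = 0 := fun j => V1_shift hxZ (hnab i j)
    have hxa : ∀ j, j ≠ i → w.ord (x - algebraMap k M (c.a j)) = 0 := fun j hj =>
      V1_shift hxZ (hna i j (Ne.symm hj))
    have hlVo : w.ord (V1_lV c x v) = ((c.n : ℤ) - 1) * w.ord v := by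
      rw [hordlV]
      simp [hxb]
    have hlX1 : w.Zer (V1_lX c x v - algebraMap k M (0 - V1_dd c.a (c.a i))) := by
      unfold V1_lX
      refine Place.val_sub ?_ ?_
      · rw [map_zero, sub_zero, V1_dd_aeval]
        refine Place.Zer.mul_reg ?_ (V1_reg_aeval hxR _)
        exact Or.inr (by rw [w.ord_pow]; positivity)
      · rw [V1_dd_aeval, ← V1_dd_eval]
        exact Place.val_aeval hxZ _
    have hne : (0 : k) - V1_dd c.a (c.a i) ≠ 0 := by
      rw [zero_sub, neg_ne_zero]
      exact V1_dd_ne hia i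
    have hlX0 := Place.ne_zero_of_val hlX1 hne
    have hlXo : w.ord (V1_lX c x v) = 0 := Place.ord_eq_zero_of_val hlX1 hne
    have hlXR : w.Reg (V1_lX c x v) := Or.inr hlXo.ge
    have hlVR : w.Reg (V1_lV c x v) := Or.inr (by
      rw [hlVo]
      have : (0 : ℤ) ≤ (c.n : ℤ) - 1 := by omega
      exact mul_nonneg this hvw.le)
    rw [V1_mult hz (s := 1) one_ne_zero ?_ ⟨1, ?_, ?_⟩]
    · have e1 : w.ord (1 * (![V1_lV c x v, - V1_lX c x v,
          algebraMap k M α * V1_lV c x v * v ^ 2 - V1_lX c x v * x ^ 2] : Fin 3 → M) 0) =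
          ((c.n : ℤ) - 1) * w.ord v := by
        rw [one_mul]
        exact hlVo
      have e2 : ∑ j, max 0 (w.ord (x - algebraMap k M (c.a j))) = c.n * w.ord v := by
        rw [Finset.sum_eq_single i]
        · rw [hxw]
          exact max_eq_right (by positivity)
        · intro j _ hj
          rw [hxa j hj, max_self]
        · intro hh
          exact absurd (Finset.mem_univ i) hh
      have e3 : ∑ j, max 0 (w.ord (x - algebraMap k M (c.b j))) = 0 := by
        refine Finset.sum_eq_zero fun j _ => ?_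
        rw [hxb j, max_self]
      rw [e1, e2, e3]
      ring
    · intro j
      rw [one_mul]
      fin_cases j
      · exact hlVR
      · exact hlXR.neg
      · change w.Reg (algebraMap k M α * V1_lV c x v * v ^ 2 - V1_lX c x v * x ^ 2)
        exact (((w.reg_const α).mul hlVR).mul (hvZ.reg.pow 2)).sub (hlXR.mul (hxR.pow 2))
    · change - V1_lX c x v ≠ 0
      exact neg_ne_zero.mpr hlX0
    · change w.ord (1 * - V1_lX c x v) = 0
      rw [one_mul, w.ord_neg, hlXo]
  · -- pole of `v`
    have hxpos : 0 < w.ord (x - algebraMap k M (c.b i)) := by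
      rw [hxw]
      have h1 : (0 : ℤ) < c.n := by omega
      have h2 := mul_neg_of_pos_of_neg h1 hvw
      omega
    have hxZ : w.Zer (x - algebraMap k M (c.b i)) := Or.inr hxpos
    have hxR : w.Reg x := Place.reg_of_val hxZ
    have hxa : ∀ j, w.ord (x - algebraMap k M (c.a j)) = 0 := fun j => V1_shift hxZ (Ne.symm (hnab j i))
    have hxb : ∀ j, j ≠ i → w.ord (x - algebraMap k M (c.b j)) = 0 := fun j hj =>
      V1_shift hxZ (hnb i j (Ne.symm hj))
    obtain ⟨s, hs⟩ : ∃ s : M, s = (v ^ c.n)⁻¹ := ⟨_, rfl⟩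
    have hs0 : s ≠ 0 := by rw [hs]; exact inv_ne_zero (pow_ne_zero _ hv)
    have hsv : s * v ^ c.n = 1 := by rw [hs, inv_mul_cancel₀ (pow_ne_zero _ hv)]
    have hso : w.ord s = - (c.n * w.ord v) := by rw [hs, w.ord_inv, w.ord_pow]
    have hspos : 0 < w.ord s := by rw [hso, ← hxw]; exact hxpos
    have hsumb : ∑ j, w.ord (x - algebraMap k M (c.b j)) = - (c.n * w.ord v) := by
      rw [Finset.sum_eq_single i]
      · exact hxw
      · intro j _ hj
        exact hxb j hj
      · intro hh
        exact absurd (Finset.mem_univ i) hh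
    have hlVo : w.ord (s * V1_lV c x v) = ((c.n : ℤ) + 1) * (- w.ord v) := by
      rw [w.ord_mul _ _ hs0 hlV, hordlV, hsumb, hso]
      ring
    have hlX1 : w.Zer (s * V1_lX c x v - algebraMap k M (V1_dd c.b (c.b i) - 0)) := by
      have e1 : s * V1_lX c x v = V1_dd (fun i => algebraMap k M (c.b i)) x -
          s * V1_dd (fun i => algebraMap k M (c.a i)) x := by
        unfold V1_lX
        linear_combination (V1_dd (fun i => algebraMap k M (c.b i)) x) * hsv
      rw [e1]
      refine Place.val_sub ?_ ?_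
      · rw [V1_dd_aeval, ← V1_dd_eval]
        exact Place.val_aeval hxZ _
      · rw [map_zero, sub_zero, V1_dd_aeval]
        exact Place.Zer.mul_reg (Or.inr hspos) (V1_reg_aeval hxR _)
    have hne : V1_dd c.b (c.b i) - (0 : k) ≠ 0 := by
      rw [sub_zero]
      exact V1_dd_ne hib i
    have hsX0 := Place.ne_zero_of_val hlX1 hne
    have hlXo : w.ord (s * V1_lX c x v) = 0 := Place.ord_eq_zero_of_val hlX1 hne
    have hlXR : w.Reg (s * V1_lX c x v) := Or.inr hlXo.ge
    have hlVR : w.Reg (s * V1_lV c x v) := Or.inr (by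
      rw [hlVo]
      exact mul_nonneg (by positivity) (by omega))
    have hlVv : w.Reg (s * V1_lV c x v * v ^ 2) := by
      right
      rw [w.ord_mul _ _ (mul_ne_zero hs0 hlV) (pow_ne_zero _ hv), hlVo, w.ord_pow]
      have h1 : ((c.n : ℤ) + 1) * (- w.ord v) + ((2 : ℕ) : ℤ) * w.ord v = ((c.n : ℤ) - 1) * (- w.ord v) := by
        push_cast
        ring
      rw [h1]
      exact mul_nonneg (by omega) (by omega)
    rw [V1_mult hz (s := s) hs0 ?_ ⟨1, ?_, ?_⟩]
    · have e1 : w.ord (s * (![V1_lV c x v, - V1_lX c x v,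
          algebraMap k M α * V1_lV c x v * v ^ 2 - V1_lX c x v * x ^ 2] : Fin 3 → M) 0) =
          ((c.n : ℤ) + 1) * (- w.ord v) := hlVo
      have e2 : ∑ j, max 0 (w.ord (x - algebraMap k M (c.b j))) = - (c.n * w.ord v) := by
        rw [Finset.sum_eq_single i]
        · rw [hxw]
          exact max_eq_right (by rw [← hxw]; exact hxpos.le)
        · intro j _ hj
          rw [hxb j hj, max_self]
        · intro hh
          exact absurd (Finset.mem_univ i) hh
      have e3 : ∑ j, max 0 (w.ord (x - algebraMap k M (c.a j))) = 0 := by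
        refine Finset.sum_eq_zero fun j _ => ?_
        rw [hxa j, max_self]
      rw [e1, e2, e3]
      ring
    · intro j
      fin_cases j
      · exact hlVR
      · change w.Reg (s * - V1_lX c x v)
        rw [mul_neg]
        exact hlXR.neg
      · change w.Reg (s * (algebraMap k M α * V1_lV c x v * v ^ 2 - V1_lX c x v * x ^ 2))
        have e1 : s * (algebraMap k M α * V1_lV c x v * v ^ 2 - V1_lX c x v * x ^ 2) =
            algebraMap k M α * (s * V1_lV c x v * v ^ 2) - s * V1_lX c x v * x ^ 2 := by ring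
        rw [e1]
        exact ((w.reg_const α).mul hlVv).sub (hlXR.mul (hxR.pow 2))
    · change - V1_lX c x v ≠ 0
      rw [neg_ne_zero]
      exact right_ne_zero_of_mul hsX0
    · change w.ord (s * - V1_lX c x v) = 0
      rw [mul_neg, w.ord_neg, hlXo]
  · -- the other places
    have hxR : w.Reg x := Or.inr hxw
    have hvR : w.Reg v := Or.inr hvw.ge
    have hlVo : w.ord (V1_lV c x v) = 0 := by
      rw [hordlV, hvw]
      simp [hxb]
    have hlVR : w.Reg (V1_lV c x v) := Or.inr hlVo.ge
    have hlXR : w.Reg (V1_lX c x v) := by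
      unfold V1_lX
      rw [V1_dd_aeval, V1_dd_aeval]
      exact ((hvR.pow _).mul (V1_reg_aeval hxR _)).sub (V1_reg_aeval hxR _)
    rw [V1_mult hz (s := 1) one_ne_zero ?_ ⟨0, hlV, ?_⟩]
    · have e1 : w.ord (1 * (![V1_lV c x v, - V1_lX c x v,
          algebraMap k M α * V1_lV c x v * v ^ 2 - V1_lX c x v * x ^ 2] : Fin 3 → M) 0) = 0 := by
        rw [one_mul]
        exact hlVo
      rw [e1]
      simp [hxa, hxb]
    · intro j
      rw [one_mul]
      fin_cases j
      · exact hlVR
      · exact hlXR.neg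
      · change w.Reg (algebraMap k M α * V1_lV c x v * v ^ 2 - V1_lX c x v * x ^ 2)
        exact (((w.reg_const α).mul hlVR).mul (hvR.pow 2)).sub (hlXR.mul (hxR.pow 2))
    · change w.ord (1 * V1_lV c x v) = 0
      rw [one_mul, hlVo]

private theorem V1_ctp_on {c : Dat k} {Q : Fin 2 → Option k} (hQ : OnC c (Q 0) (Q 1)) :
    OnC (c.over M) (ctp M Q 0) (ctp M Q 1) := by
  have h1 : On (c.over k) (pt1 Q) := fun _ => hQ
  have h2 := (on_map (m := 1) (c := c) (Algebra.ofId k M) (u := pt1 Q)).mpr h1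
  exact h2 0

private theorem V1_ctp_sp (Q : Fin 2 → Option k) (w : Place k M) (i : Fin 2) :
    SpO w (ctp M Q i) ((Q i).map (algebraMap k (RF w))) := by
  unfold ctp
  cases Q i with
  | none => rfl
  | some a => exact Pool.Agent.LibCHd.red_const w a

end V1_aux

theorem val_tw [IsAlgClosed k] [CharZero k] {c : Dat k} (hc : c.Good) {α : k} (hα : IsAl c α)
    {Con : CH c 3 1 →+ CH (c.over (Lf k)) 1 0} (hCon : IsCon c α Con) {M : Type} [Field M] [Algebra k M]
    (hM : FunF k 1 M) {R : Fin 2 → Option M} (hR : OnC (c.over M) (R 0) (R 1)) {x : M} (hx : R 0 = some x)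
    (hxt : Transcendental k x) (Q : Fin 2 → Option k) (hQ : OnC c (Q 0) (Q 1)) (ω : k) (hω : ω ^ c.n = 1)
    (hω1 : ω ≠ 1) : Con (cls c 1 (tri (ctp M Q) (tau ω R) R)) = (2 * (dg k x : ℤ)) • bpt c Q := by
  obtain ⟨v, hv1, hv0, hveq⟩ := v_fin hc hxt (hx ▸ hR)
  have hRe : R = ![some x, some v] := by
    funext i
    fin_cases i
    · exact hx
    · exact hv1
  subst hRe
  have hon : OnC (c.over M) (some x) (some v) := hR
  have hωM : algebraMap k M ω ≠ 1 := fun h => hω1 ((algebraMap k M).injective (by rw [h, map_one]))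
  have hd0 : v - algebraMap k M ω * v ≠ 0 := by
    have e1 : v - algebraMap k M ω * v = (1 - algebraMap k M ω) * v := by ring
    rw [e1]
    exact mul_ne_zero (sub_ne_zero.mpr (Ne.symm hωM)) hv0
  have htau : tau ω (![some x, some v] : Fin 2 → Option M) = ![some x, some (algebraMap k M ω * v)] := rfl
  have hne : (![some x, some (algebraMap k M ω * v)] : Fin 2 → Option M) ≠ ![some x, some v] := by
    intro h
    have h1 := congrFun h 1
    have h2 : algebraMap k M ω * v = v := Option.some.inj h1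
    exact hd0 (by rw [h2, sub_self])
  have hsec : sec (c.over M) (algebraMap k M α) ![some x, some (algebraMap k M ω * v)] ![some x, some v] =
      ![0, v - algebraMap k M ω * v, (v - algebraMap k M ω * v) * x ^ 2] := by
    unfold sec
    rw [if_neg hne]
    simp only [dt, hco, Matrix.cons_val_zero, Matrix.cons_val_one, one_mul, mul_one, sub_self, zero_mul,
      mul_zero, zero_add]
    congr 3
    ring
  have hu1 : (tri (ctp M Q) (tau ω (![some x, some v] : Fin 2 → Option M)) ![some x, some v]) 1 =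
      ![some x, some (algebraMap k M ω * v)] := rfl
  have hu2 : (tri (ctp M Q) (tau ω (![some x, some v] : Fin 2 → Option M)) ![some x, some v]) 2 =
      ![some x, some v] := rfl
  have hx0 : x ≠ 0 := by
    have := V1_tr hxt 0
    rwa [map_zero, sub_zero] at this
  have hmult : ∀ w : Place k M,
      mult (sec (c.over M) (algebraMap k M α) ![some x, some (algebraMap k M ω * v)] ![some x, some v]) 1 w =
        2 * max 0 (- w.ord x) := by
    intro w
    rw [hsec]
    have hz : (![0, v - algebraMap k M ω * v, (v - algebraMap k M ω * v) * x ^ 2] : Fin 3 → M) 1 ≠ 0 := hd0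
    by_cases hxw : 0 ≤ w.ord x
    · rw [V1_mult hz (s := (v - algebraMap k M ω * v)⁻¹) (inv_ne_zero hd0) ?_ ⟨1, hd0, ?_⟩]
      · change w.ord ((v - algebraMap k M ω * v)⁻¹ * (v - algebraMap k M ω * v)) = _
        rw [inv_mul_cancel₀ hd0, w.ord_one, max_eq_left (by omega), mul_zero]
      · intro j
        fin_cases j
        · exact Or.inl (mul_zero _)
        · change w.Reg ((v - algebraMap k M ω * v)⁻¹ * (v - algebraMap k M ω * v))
          rw [inv_mul_cancel₀ hd0]
          exact Or.inr (by rw [w.ord_one])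
        · change w.Reg ((v - algebraMap k M ω * v)⁻¹ * ((v - algebraMap k M ω * v) * x ^ 2))
          rw [← mul_assoc, inv_mul_cancel₀ hd0, one_mul]
          exact Place.Reg.pow (Or.inr hxw) 2
      · change w.ord ((v - algebraMap k M ω * v)⁻¹ * (v - algebraMap k M ω * v)) = 0
        rw [inv_mul_cancel₀ hd0, w.ord_one]
    · have hs0 : ((v - algebraMap k M ω * v) * x ^ 2)⁻¹ ≠ 0 :=
        inv_ne_zero (mul_ne_zero hd0 (pow_ne_zero _ hx0))
      have e1 : ((v - algebraMap k M ω * v) * x ^ 2)⁻¹ * (v - algebraMap k M ω * v) = (x ^ 2)⁻¹ := by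
        field_simp
      have e2 : ((v - algebraMap k M ω * v) * x ^ 2)⁻¹ * ((v - algebraMap k M ω * v) * x ^ 2) = 1 :=
        inv_mul_cancel₀ (mul_ne_zero hd0 (pow_ne_zero _ hx0))
      rw [V1_mult hz (s := ((v - algebraMap k M ω * v) * x ^ 2)⁻¹) hs0 ?_
        ⟨2, mul_ne_zero hd0 (pow_ne_zero _ hx0), ?_⟩]
      · change w.ord (((v - algebraMap k M ω * v) * x ^ 2)⁻¹ * (v - algebraMap k M ω * v)) = _
        rw [e1, w.ord_inv, w.ord_pow, max_eq_right (by omega)]
        push_cast
        ring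
      · intro j
        fin_cases j
        · exact Or.inl (mul_zero _)
        · change w.Reg (((v - algebraMap k M ω * v) * x ^ 2)⁻¹ * (v - algebraMap k M ω * v))
          rw [e1]
          refine Or.inr ?_
          rw [w.ord_inv, w.ord_pow]
          push_cast
          omega
        · change w.Reg (((v - algebraMap k M ω * v) * x ^ 2)⁻¹ * ((v - algebraMap k M ω * v) * x ^ 2))
          rw [e2]
          exact Or.inr (by rw [w.ord_one])
      · change w.ord (((v - algebraMap k M ω * v) * x ^ 2)⁻¹ * ((v - algebraMap k M ω * v) * x ^ 2)) = 0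
        rw [e2, w.ord_one]
  have hfin := fin_zero hM x
  have honu : On (c.over M) (tri (ctp M Q) (tau ω (![some x, some v] : Fin 2 → Option M)) ![some x, some v]) := by
    intro j
    fin_cases j
    · exact V1_ctp_on hQ
    · change (algebraMap k M ω * v) ^ c.n * ∏ i, (x - algebraMap k M (c.b i)) = ∏ i, (x - algebraMap k M (c.a i))
      rw [mul_pow, ← map_pow, hω, map_one, one_mul, hveq]
    · exact hon
  rw [hCon M _ 1 hfin.toFinset (fun _ => Q) hM honu ?_ ?_ ?_]
  · rw [hu1, hu2, ← Finset.sum_smul]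
    congr 1
    rw [← deg_pole hM x hxt hfin.toFinset (fun w hw => by
      rw [Set.Finite.mem_toFinset]
      exact hw.ne), Finset.mul_sum]
    exact Finset.sum_congr rfl fun w _ => hmult w
  · rw [hu1, hu2, hsec]
    exact hd0
  · intro w hw
    rw [hu1, hu2, hmult w]
    rw [Set.Finite.mem_toFinset] at hw
    have h1 : w.ord x = 0 := by
      by_contra hne'
      exact hw hne'
    rw [h1, neg_zero, max_self, mul_zero]
  · intro w _ i
    exact V1_ctp_sp Q w i

theorem val_diag [IsAlgClosed k] [CharZero k] {c : Dat k} (hc : c.Good) {α : k} (hα : IsAl c α)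
    {Con : CH c 3 1 →+ CH (c.over (Lf k)) 1 0} (hCon : IsCon c α Con) {M : Type} [Field M] [Algebra k M]
    (hM : FunF k 1 M) {R : Fin 2 → Option M} (hR : OnC (c.over M) (R 0) (R 1)) {x : M} (hx : R 0 = some x)
    (hxt : Transcendental k x) (Q : Fin 2 → Option k) (hQ : OnC c (Q 0) (Q 1)) :
    Con (cls c 1 (tri (ctp M Q) R R)) = (6 * (dg k x : ℤ)) • bpt c Q := by
  obtain ⟨v, hv1, hv0, hveq⟩ := v_fin hc hxt (hx ▸ hR)
  have hRe : R = ![some x, some v] := by
    funext i
    fin_cases i
    · exact hx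
    · exact hv1
  subst hRe
  have hon : OnC (c.over M) (some x) (some v) := hR
  have hn : c.n ≠ 0 := by
    have := hc.two
    omega
  have hu1 : (tri (ctp M Q) (![some x, some v] : Fin 2 → Option M) ![some x, some v]) 1 =
      ![some x, some v] := rfl
  have hu2 : (tri (ctp M Q) (![some x, some v] : Fin 2 → Option M) ![some x, some v]) 2 =
      ![some x, some v] := rfl
  have hmult := V1_mult_diag hc α hxt hv0 hon
  have hfa : ∀ i, {w : Place k M | w.ord (x - algebraMap k M (c.a i)) ≠ 0}.Finite := fun i => fin_zero hM _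
  have hfb : ∀ i, {w : Place k M | w.ord (x - algebraMap k M (c.b i)) ≠ 0}.Finite := fun i => fin_zero hM _
  obtain ⟨S, hS⟩ : ∃ S : Finset (Place k M), S = (Finset.univ.biUnion fun i => (hfa i).toFinset) ∪
      (Finset.univ.biUnion fun i => (hfb i).toFinset) := ⟨_, rfl⟩
  have hSa : ∀ i, ∀ w : Place k M, 0 < w.ord (x - algebraMap k M (c.a i)) → w ∈ S := by
    intro i w hw
    rw [hS, Finset.mem_union, Finset.mem_biUnion]
    left
    exact ⟨i, Finset.mem_univ i, by rw [Set.Finite.mem_toFinset]; exact hw.ne'⟩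
  have hSb : ∀ i, ∀ w : Place k M, 0 < w.ord (x - algebraMap k M (c.b i)) → w ∈ S := by
    intro i w hw
    rw [hS, Finset.mem_union, Finset.mem_biUnion, Finset.mem_biUnion]
    right
    exact ⟨i, Finset.mem_univ i, by rw [Set.Finite.mem_toFinset]; exact hw.ne'⟩
  have hz : sec (c.over M) (algebraMap k M α) ![some x, some v] ![some x, some v] 0 ≠ 0 := by
    rw [V1_sec_diag]
    obtain ⟨w, _⟩ | hemp := Classical.em (∃ w : Place k M, True)
    · exact (hmult w).1
    · have : CharZero M := charZero_of_injective_algebraMap (algebraMap k M).injective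
      exact mul_ne_zero (mul_ne_zero (Nat.cast_ne_zero.mpr hn) (pow_ne_zero _ hv0))
        (Finset.prod_ne_zero_iff.mpr fun i _ => V1_tr hxt _)
  have honu : On (c.over M) (tri (ctp M Q) (![some x, some v] : Fin 2 → Option M) ![some x, some v]) := by
    intro j
    fin_cases j
    · exact V1_ctp_on hQ
    · exact hon
    · exact hon
  rw [hCon M _ 0 S (fun _ => Q) hM honu ?_ ?_ ?_]
  · rw [hu1, hu2, ← Finset.sum_smul]
    congr 1
    have h1 : (c.n : ℤ) * ∑ w ∈ S,
        mult (sec (c.over M) (algebraMap k M α) ![some x, some v] ![some x, some v]) 0 w =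
        (c.n : ℤ) * (6 * (dg k x : ℤ)) := by
      rw [Finset.mul_sum, Finset.sum_congr rfl fun w _ => (hmult w).2, Finset.sum_add_distrib,
        ← Finset.mul_sum, ← Finset.mul_sum, Finset.sum_comm, Finset.sum_comm (s := S)]
      rw [Finset.sum_congr rfl fun i _ => deg_zero hM x hxt (c.a i) S (hSa i)]
      rw [Finset.sum_congr rfl fun i _ => deg_zero hM x hxt (c.b i) S (hSb i)]
      simp only [Finset.sum_const, Finset.card_univ, Fintype.card_fin, nsmul_eq_mul]
      push_cast
      ring
    exact mul_left_cancel₀ (Int.natCast_ne_zero.mpr hn) h1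
  · rw [hu1, hu2]
    exact hz
  · intro w hw
    rw [hu1, hu2]
    have h1 := (hmult w).2
    have h2 : ∀ i, max 0 (w.ord (x - algebraMap k M (c.a i))) = 0 := fun i =>
      max_eq_left (not_lt.mp fun h => hw (hSa i w h))
    have h3 : ∀ i, max 0 (w.ord (x - algebraMap k M (c.b i))) = 0 := fun i =>
      max_eq_left (not_lt.mp fun h => hw (hSb i w h))
    simp only [h2, h3, Finset.sum_const_zero, mul_zero, add_zero] at h1
    rcases mul_eq_zero.mp h1 with h4 | h4
    · exact absurd h4 (Int.natCast_ne_zero.mpr hn)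
    · exact h4
  · intro w _ i
    exact V1_ctp_sp Q w i

end Pool.Agent.LibCW77
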