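import Pool.Agent.LibCW77.HDefs
import Pool.Agent.LibCW77.M1
import Pool.Agent.LibCW77.M4
import Pool.Agent.LibCW77.V0
import Pool.Agent.LibCW77.V1

/-!
[CW77 V2] The value on `(ω⁻¹ R, ω Q, R)`, summed over `ω`. `Q` not ramified. Let `Q' = ω Q`. `x_Q` finite: `z = 0`: `sec Q' R = (x - x_Q, v - v', α (x - x_Q) v' v + (v - v') x_Q x)` (`dt (x_Q) x = x - x_Q`). By the specialisation `r` of `R` at `w`: `x(r) = x_Q`, `r ≠ Q'`: orders `e, 0, ≥ 0`: `mult = e = ord (x - x_Q)`;
`r = Q'`: `e, ≥ e, ≥ e` (`v ^ n - v' ^ n = A(x)/B(x) - A(x_Q)/B(x_Q)` is divisible by `x - x_Q` and the other factors `v - ω' v'` are units): `0`; pole of `x` (order `-e`): `- e, ≥ 0, ≥ - e`: `0`; `r = (b_i, ∞)`, `ord v = - e`: `0, - e, ≥ - e`: `mult = e`, `n e = ord (x - b_i)`; elsewhere `0`.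
`x_Q = ∞` (`v_Q ^ n = 1`): `hco none = (0, 1)`: `sec = (- 1, 0, - α v' v + (v - v') x)` (`dt none (some x) = -1`): `mult = - min 0 (ord (third))`: `r = (b_i, ∞)`: the third is `v (b_i - α v') + ..`, order `- e` because `α v' ≠ b_i` (`α ^ n ≠ b_i ^ n`): `e`; `r = (∞, v(r))`, `v(r) ≠ v'`: order `ord x`: `mult = - ord x =: e`; `v(r) = v'`: `(v - v') x`
is regular (`v ^ n - 1 = A/B - 1` has order `≥ - ord x`): `0`. So in both cases: `mult = e_w` at the places with `x(r) = x_Q`, `r ≠ ωQ`, `e_w` the ramification of `x` there, and `|ord v|` at the poles of `v`. Sum over `ω`: the place `w` with `x(r) = x_Q`, `r = ω'' Q`, contributes for the `ω ≠ ω''` the point `ω⁻¹ r = (ω⁻¹ ω'') Q`: together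
`(∑_w e_w) ∑_(ω' ≠ 1) bpt (ω' Q) = dg ∑_(ω' ≠ 1) bpt (ω' Q)`; the poles of `v`: `n ∑_w |ord v| bpt (b_i) = ∑_i dg bpt (b_i)` (`ω⁻¹` fixes `(b_i, ∞)`).
-/

open scoped Classical
open Polynomial

namespace Pool.Agent.LibCW77

open Pool.Agent.LibBH2
open Pool.Agent.LibCHd (VR RF Red FunF)
open Pool.Agent.LibHL77 (Lf tt EHom NC HE BE mult hypf)

variable {k : Type} [Field k]

private theorem V2_mult {K : Type} [Field K] [Algebra k K] (w : Place k K) (φ : Fin 3 → K) (z : Fin 3) (t : K)
    (ht : t ≠ 0) (h1 : ∀ j, w.Reg (φ j * t⁻¹)) (j₀ : Fin 3) (h2 : ¬ w.Zer (φ j₀ * t⁻¹)) :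
    mult φ z w = w.ord (φ z) - w.ord t := by
  unfold mult
  congr 1
  have h0 : φ j₀ ≠ 0 := by
    intro h
    exact h2 (Or.inl (by rw [h, zero_mul]))
  have h3 : w.ord (φ j₀) = w.ord t := by
    have := Place.ord_eq_zero_of_reg (h1 j₀) h2
    rw [w.ord_mul _ _ h0 (inv_ne_zero ht), w.ord_inv] at this
    omega
  apply IsLeast.csInf_eq
  refine ⟨⟨j₀, h0, h3.symm⟩, ?_⟩
  rintro m ⟨j, hj, rfl⟩
  have := (h1 j).resolve_left (mul_ne_zero hj (inv_ne_zero ht))
  rw [w.ord_mul _ _ hj (inv_ne_zero ht), w.ord_inv] at this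
  omega

private theorem V2_reg_inv {K : Type} [Field K] [Algebra k K] {w : Place k K} {f : K} (h : ¬ w.Zer f) :
    w.Reg f⁻¹ := by
  right
  rw [w.ord_inv]
  have : ¬ 0 < w.ord f := fun h' => h (Or.inr h')
  omega

private theorem V2_one {K : Type} [Field K] [Algebra k K] (w : Place k K) : ¬ w.Zer (1 : K) := by
  rintro (h | h)
  · exact one_ne_zero h
  · rw [w.ord_one] at h
    exact lt_irrefl _ h

private theorem V2_reg_one {K : Type} [Field K] [Algebra k K] (w : Place k K) : w.Reg (1 : K) :=
  Or.inr (by rw [w.ord_one])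

private theorem V2_zer_inv {K : Type} [Field K] [Algebra k K] {w : Place k K} {f : K} (h : w.ord f < 0) :
    w.Zer f⁻¹ := by
  right
  rw [w.ord_inv]
  omega

private theorem V2_ne_of_neg {K : Type} [Field K] [Algebra k K] {w : Place k K} {f : K} (h : w.ord f < 0) :
    f ≠ 0 := by
  rintro rfl
  rw [w.ord_zero] at h
  exact lt_irrefl _ h

private theorem V2_not_reg {K : Type} [Field K] [Algebra k K] {w : Place k K} {f : K} (h : ¬ w.Reg f) :
    w.ord f < 0 := by
  by_contra h1
  exact h (Or.inr (by omega))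

private theorem V2_zer_of_mul {K : Type} [Field K] [Algebra k K] {w : Place k K} {f g : K} (h : w.Zer (f * g))
    (hg : ¬ w.Zer g) : w.Zer f := by
  have hg0 : g ≠ 0 := fun h' => hg (Or.inl h')
  have h1 := h.mul_reg (V2_reg_inv hg)
  rwa [mul_assoc, mul_inv_cancel₀ hg0, mul_one] at h1

/-- the factor `G` with `v ^ n - y ^ n = (v - y) G` is a unit -/
private theorem V2_geom {K : Type} [Field K] [Algebra k K] [CharZero k] {w : Place k K} {v : K} {y : k} (hy : y ≠ 0)
    (h : w.Zer (v - algebraMap k K y)) (n : ℕ) (hn : 0 < n) :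
    ∃ G : K, v ^ n - algebraMap k K y ^ n = (v - algebraMap k K y) * G ∧
      ∃ g : k, g ≠ 0 ∧ w.Zer (G - algebraMap k K g) := by
  have hroot : (X ^ n - C (y ^ n) : k[X]).IsRoot y := by
    simp [Polynomial.IsRoot]
  obtain ⟨P, hP⟩ := Polynomial.dvd_iff_isRoot.2 hroot
  refine ⟨aeval v P, ?_, P.eval y, ?_, Place.val_aeval h P⟩
  · have h1 := congrArg (aeval v) hP
    simp only [map_sub, map_mul, map_pow, aeval_X, aeval_C] at h1
    exact h1
  · have h1 := congrArg (fun p : k[X] => (derivative p).eval y) hP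
    simp only [derivative_sub, derivative_X_pow, derivative_C, sub_zero, derivative_mul, derivative_X,
      one_mul, eval_add, eval_mul, eval_sub, eval_X, eval_C, sub_self, zero_mul, add_zero, eval_pow,
      eval_natCast, map_natCast] at h1
    rw [← h1]
    exact mul_ne_zero (by exact_mod_cast hn.ne') (pow_ne_zero _ hy)

/-- the products over the three points -/
private noncomputable def V2_P (a : Fin 3 → k) : k[X] := ∏ i, (X - C (a i))

private theorem V2_P_aeval {K : Type} [Field K] [Algebra k K] (a : Fin 3 → k) (x : K) :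
    aeval x (V2_P a) = ∏ i, (x - algebraMap k K (a i)) := by
  simp [V2_P, map_prod]

private theorem V2_P_eval (a : Fin 3 → k) (x : k) : (V2_P a).eval x = ∏ i, (x - a i) := by
  simp [V2_P, eval_prod]

/-- divisibility of `v - y` by `x - q` -/
private theorem V2_div {K : Type} [Field K] [Algebra k K] [CharZero k] {w : Place k K} {a b : Fin 3 → k} {n : ℕ}
    (hn : 0 < n) {x v : K} {q y : k} (hy : y ≠ 0) (hx0 : x - algebraMap k K q ≠ 0)
    (h : v ^ n * ∏ i, (x - algebraMap k K (b i)) = ∏ i, (x - algebraMap k K (a i)))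
    (hq : y ^ n * ∏ i, (q - b i) = ∏ i, (q - a i)) (hb : ∏ i, (q - b i) ≠ 0)
    (hzx : w.Zer (x - algebraMap k K q)) (hzv : w.Zer (v - algebraMap k K y)) :
    w.Reg ((v - algebraMap k K y) * (x - algebraMap k K q)⁻¹) := by
  obtain ⟨G, hG, g, hg0, hg⟩ := V2_geom hy hzv n hn
  have hroot : (V2_P a * C (∏ i, (q - b i)) - C (∏ i, (q - a i)) * V2_P b : k[X]).IsRoot q := by
    simp only [Polynomial.IsRoot, eval_sub, eval_mul, V2_P_eval, eval_C]
    ring
  obtain ⟨H, hH⟩ := Polynomial.dvd_iff_isRoot.2 hroot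
  have h1 := congrArg (aeval x) hH
  simp only [map_sub, map_mul, aeval_X, aeval_C, V2_P_aeval] at h1
  set Bx := ∏ i, (x - algebraMap k K (b i)) with hBx
  have hBv : w.Zer (Bx - algebraMap k K (∏ i, (q - b i))) := by
    have := Place.val_aeval hzx (V2_P b)
    rwa [V2_P_aeval, V2_P_eval] at this
  have hU : w.Zer (G * Bx - algebraMap k K (g * ∏ i, (q - b i))) := Place.val_mul hg hBv
  have hU0 : g * ∏ i, (q - b i) ≠ 0 := mul_ne_zero hg0 hb
  have hUne := Place.ne_zero_of_val hU hU0
  have hUr : w.Reg (G * Bx)⁻¹ := Place.reg_of_val (Place.val_inv hU hU0)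
  have hHr : w.Reg (aeval x H) := Place.reg_of_val (Place.val_aeval hzx H)
  have hbM : algebraMap k K (∏ i, (q - b i)) ≠ 0 := by
    intro h'
    exact hb ((map_eq_zero _).1 h')
  have key : (v - algebraMap k K y) * (x - algebraMap k K q)⁻¹ =
      aeval x H * (G * Bx)⁻¹ * algebraMap k K (∏ i, (q - b i))⁻¹ := by
    rw [map_inv₀]
    have h2 : (v - algebraMap k K y) * (G * Bx) * algebraMap k K (∏ i, (q - b i)) =
        (x - algebraMap k K q) * aeval x H := by
      rw [← h1, ← h, ← hq, map_mul, map_pow]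
      have : (v - algebraMap k K y) * (G * Bx) = ((v - algebraMap k K y) * G) * Bx := by ring
      rw [this, ← hG]
      ring
    rw [eq_mul_inv_iff_mul_eq₀ hbM, eq_mul_inv_iff_mul_eq₀ hUne]
    have h3 : (v - algebraMap k K y) * (x - algebraMap k K q)⁻¹ * algebraMap k K (∏ i, (q - b i)) * (G * Bx) =
        ((v - algebraMap k K y) * (G * Bx) * algebraMap k K (∏ i, (q - b i))) * (x - algebraMap k K q)⁻¹ := by
      ring
    rw [h3, h2, mul_comm (x - algebraMap k K q), mul_assoc, mul_inv_cancel₀ hx0, mul_one]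
  rw [key]
  exact (hHr.mul hUr).mul (w.reg_const _)

/-- `(v - y) x` is regular at a pole of `x` with the value `y` of `v` -/
private theorem V2_div' {K : Type} [Field K] [Algebra k K] [CharZero k] {w : Place k K} {a b : Fin 3 → k} {n : ℕ}
    (hn : 0 < n) {x v : K} {y : k} (hy : y ^ n = 1) (hx : w.ord x < 0)
    (h : v ^ n * ∏ i, (x - algebraMap k K (b i)) = ∏ i, (x - algebraMap k K (a i)))
    (hzv : w.Zer (v - algebraMap k K y)) : w.Reg ((v - algebraMap k K y) * x) := by
  have hy0 : y ≠ 0 := by
    rintro rfl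
    rw [zero_pow hn.ne'] at hy
    exact zero_ne_one hy
  obtain ⟨G, hG, g, hg0, hg⟩ := V2_geom hy0 hzv n hn
  have hx0 := V2_ne_of_neg hx
  have hs := V2_zer_inv hx
  obtain ⟨s, hs'⟩ : ∃ s, s = x⁻¹ := ⟨_, rfl⟩
  have hs0 : s ≠ 0 := by rw [hs']; exact inv_ne_zero hx0
  have hxs : x = s⁻¹ := by rw [hs', inv_inv]
  rw [← hs'] at hs
  have hsv : w.Zer (s - algebraMap k K 0) := by rw [map_zero, sub_zero]; exact hs
  set QB : k[X] := ∏ i, (1 - C (b i) * X) with hQB
  have hBv : w.Zer (aeval s QB - algebraMap k K 1) := by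
    have := Place.val_aeval hsv QB
    have h1 : QB.eval 0 = 1 := by simp [hQB, eval_prod]
    rwa [h1] at this
  have hU : w.Zer (G * aeval s QB - algebraMap k K (g * 1)) := Place.val_mul hg hBv
  have hU0 : g * 1 ≠ 0 := by rw [mul_one]; exact hg0
  have hUne := Place.ne_zero_of_val hU hU0
  have hUr : w.Reg (G * aeval s QB)⁻¹ := Place.reg_of_val (Place.val_inv hU hU0)
  set H : k[X] := C (b 0 + b 1 + b 2 - (a 0 + a 1 + a 2)) +
    C (a 0 * a 1 + a 0 * a 2 + a 1 * a 2 - (b 0 * b 1 + b 0 * b 2 + b 1 * b 2)) * X +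
    C (b 0 * b 1 * b 2 - a 0 * a 1 * a 2) * X ^ 2 with hH
  have hHr : w.Reg (aeval s H) := Place.reg_of_val (Place.val_aeval hsv H)
  have key : (v - algebraMap k K y) * x = aeval s H * (G * aeval s QB)⁻¹ := by
    rw [eq_mul_inv_iff_mul_eq₀ hUne]
    have h2 : (v - algebraMap k K y) * G = v ^ n - 1 := by
      rw [← hG, ← map_pow, hy, map_one]
    have h3 : v ^ n * aeval s QB = (1 - algebraMap k K (a 0) * s) * (1 - algebraMap k K (a 1) * s) *
        (1 - algebraMap k K (a 2) * s) := by
      have h4 : aeval s QB = (1 - algebraMap k K (b 0) * s) * (1 - algebraMap k K (b 1) * s) *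
          (1 - algebraMap k K (b 2) * s) := by
        simp [hQB, Fin.prod_univ_three]
      rw [h4]
      rw [Fin.prod_univ_three, Fin.prod_univ_three, hxs] at h
      have h5 : v ^ n * ((s⁻¹ - algebraMap k K (b 0)) * (s⁻¹ - algebraMap k K (b 1)) *
          (s⁻¹ - algebraMap k K (b 2))) * s ^ 3 = ((s⁻¹ - algebraMap k K (a 0)) * (s⁻¹ - algebraMap k K (a 1)) *
          (s⁻¹ - algebraMap k K (a 2))) * s ^ 3 := by rw [h]
      have e : ∀ t : K, (1 - t * s) = (s⁻¹ - t) * s := fun t => by field_simp
      rw [e, e, e, e, e, e]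
      linear_combination h5
    have h6 : (v - algebraMap k K y) * x * (G * aeval s QB) = (v ^ n * aeval s QB - aeval s QB) * x := by
      have : (v - algebraMap k K y) * x * (G * aeval s QB) = ((v - algebraMap k K y) * G) * aeval s QB * x := by ring
      rw [this, h2]
      ring
    rw [h6, h3, hxs]
    have h4 : aeval s QB = (1 - algebraMap k K (b 0) * s) * (1 - algebraMap k K (b 1) * s) *
        (1 - algebraMap k K (b 2) * s) := by
      simp [hQB, Fin.prod_univ_three]
    rw [h4]
    have h7 : aeval s H = algebraMap k K (b 0) + algebraMap k K (b 1) + algebraMap k K (b 2) -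
        (algebraMap k K (a 0) + algebraMap k K (a 1) + algebraMap k K (a 2)) +
        (algebraMap k K (a 0) * algebraMap k K (a 1) + algebraMap k K (a 0) * algebraMap k K (a 2) +
          algebraMap k K (a 1) * algebraMap k K (a 2) - (algebraMap k K (b 0) * algebraMap k K (b 1) +
          algebraMap k K (b 0) * algebraMap k K (b 2) + algebraMap k K (b 1) * algebraMap k K (b 2))) * s +
        (algebraMap k K (b 0) * algebraMap k K (b 1) * algebraMap k K (b 2) -
          algebraMap k K (a 0) * algebraMap k K (a 1) * algebraMap k K (a 2)) * s ^ 2 := by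
      simp only [hH, map_add, map_mul, aeval_C, aeval_X, map_pow, map_sub]
    rw [h7]
    field_simp
    ring
  rw [key]
  exact hHr.mul hUr

section sections

variable {K : Type} [Field K] [Algebra k K]

/-- the section for a finite point `q` -/
private noncomputable def V2_f (α q y : k) (x v : K) : Fin 3 → K :=
  ![x - algebraMap k K q, v - algebraMap k K y,
    algebraMap k K α * (x - algebraMap k K q) * algebraMap k K y * v + (v - algebraMap k K y) * algebraMap k K q * x]

/-- the section for a point at infinity -/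
private noncomputable def V2_i (α y : k) (x v : K) : Fin 3 → K :=
  ![-1, 0, - (algebraMap k K α * algebraMap k K y * v) + (v - algebraMap k K y) * x]

private theorem V2_not_zer_sub {w : Place k K} {x : K} {β q : k} (h : w.Zer (x - algebraMap k K β)) (hq : q ≠ β) :
    ¬ w.Zer (x - algebraMap k K q) := fun h' => hq (Place.val_unique h' h)

/-- `1 - y v⁻¹` at a pole of `v` -/
private theorem V2_pole_val {w : Place k K} {v : K} (hv : w.ord v < 0) (y : k) :
    w.Zer ((v - algebraMap k K y) * v⁻¹ - algebraMap k K 1) := by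
  have hv0 := V2_ne_of_neg hv
  have : (v - algebraMap k K y) * v⁻¹ - algebraMap k K 1 = - (algebraMap k K y * v⁻¹) := by
    rw [map_one, sub_mul, mul_inv_cancel₀ hv0]
    ring
  rw [this]
  exact (Place.Zer.reg_mul (w.reg_const y) (V2_zer_inv hv)).neg

private theorem V2_f_pole {w : Place k K} {x v : K} (α q y β : k) (hv : w.ord v < 0)
    (hx : w.Zer (x - algebraMap k K β)) (hq : q ≠ β) : mult (V2_f α q y x v) 0 w = - w.ord v := by
  have hv0 := V2_ne_of_neg hv
  have hvz := V2_zer_inv hv
  have hxr := Place.reg_of_val hx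
  have hxq : w.Reg (x - algebraMap k K q) := hxr.sub (w.reg_const q)
  have h1 := V2_pole_val hv y
  have h1r := Place.reg_of_val h1
  have h0 : w.ord (x - algebraMap k K q) = 0 := Place.ord_eq_zero_of_reg hxq (V2_not_zer_sub hx hq)
  rw [V2_mult w (V2_f α q y x v) 0 v hv0 ?_ 1 ?_]
  · change w.ord (x - algebraMap k K q) - w.ord v = - w.ord v
    rw [h0, zero_sub]
  · intro j
    fin_cases j
    · exact hxq.mul hvz.reg
    · exact h1r
    · change w.Reg ((algebraMap k K α * (x - algebraMap k K q) * algebraMap k K y * v +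
        (v - algebraMap k K y) * algebraMap k K q * x) * v⁻¹)
      have : (algebraMap k K α * (x - algebraMap k K q) * algebraMap k K y * v +
        (v - algebraMap k K y) * algebraMap k K q * x) * v⁻¹ =
          algebraMap k K α * (x - algebraMap k K q) * algebraMap k K y +
            ((v - algebraMap k K y) * v⁻¹) * algebraMap k K q * x := by
        rw [add_mul, mul_assoc _ v, mul_inv_cancel₀ hv0]
        ring
      rw [this]
      exact (((w.reg_const _).mul hxq).mul (w.reg_const _)).add ((h1r.mul (w.reg_const _)).mul hxr)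
  · change ¬ w.Zer ((v - algebraMap k K y) * v⁻¹)
    intro h
    have := (Place.val_unique (c := 0) (by rwa [map_zero, sub_zero]) h1)
    exact zero_ne_one this

private theorem V2_f_hit {w : Place k K} {x v : K} (α q y : k) (hv : w.Reg v)
    (hx : w.Zer (x - algebraMap k K q)) (hy : ¬ w.Zer (v - algebraMap k K y)) :
    mult (V2_f α q y x v) 0 w = w.ord (x - algebraMap k K q) := by
  have hxr := Place.reg_of_val hx
  have hvy : w.Reg (v - algebraMap k K y) := hv.sub (w.reg_const y)
  rw [V2_mult w (V2_f α q y x v) 0 1 one_ne_zero ?_ 1 ?_]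
  · rw [w.ord_one, sub_zero]
    rfl
  · intro j
    rw [inv_one, mul_one]
    fin_cases j
    · exact hx.reg
    · exact hvy
    · exact ((((w.reg_const _).mul hx.reg).mul (w.reg_const _)).mul hv).add ((hvy.mul (w.reg_const _)).mul hxr)
  · rw [inv_one, mul_one]
    exact hy

private theorem V2_f_zero {w : Place k K} {x v : K} (α q y : k) (hv : w.Reg v)
    (hx : x - algebraMap k K q ≠ 0) (h1 : w.Reg ((v - algebraMap k K y) * (x - algebraMap k K q)⁻¹))
    (h2 : w.Reg ((v - algebraMap k K y) * (x - algebraMap k K q)⁻¹ * x)) :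
    mult (V2_f α q y x v) 0 w = 0 := by
  rw [V2_mult w (V2_f α q y x v) 0 (x - algebraMap k K q) hx ?_ 0 ?_]
  · change w.ord (x - algebraMap k K q) - w.ord (x - algebraMap k K q) = 0
    exact sub_self _
  · intro j
    fin_cases j
    · change w.Reg ((x - algebraMap k K q) * (x - algebraMap k K q)⁻¹)
      rw [mul_inv_cancel₀ hx]
      exact V2_reg_one w
    · exact h1
    · change w.Reg ((algebraMap k K α * (x - algebraMap k K q) * algebraMap k K y * v +
        (v - algebraMap k K y) * algebraMap k K q * x) * (x - algebraMap k K q)⁻¹)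
      have : (algebraMap k K α * (x - algebraMap k K q) * algebraMap k K y * v +
        (v - algebraMap k K y) * algebraMap k K q * x) * (x - algebraMap k K q)⁻¹ =
          algebraMap k K α * ((x - algebraMap k K q) * (x - algebraMap k K q)⁻¹) * algebraMap k K y * v +
            algebraMap k K q * ((v - algebraMap k K y) * (x - algebraMap k K q)⁻¹ * x) := by
        ring
      rw [this, mul_inv_cancel₀ hx, mul_one]
      exact (((w.reg_const _).mul (w.reg_const _)).mul hv).add ((w.reg_const _).mul h2)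
  · change ¬ w.Zer ((x - algebraMap k K q) * (x - algebraMap k K q)⁻¹)
    rw [mul_inv_cancel₀ hx]
    exact V2_one w

private theorem V2_f_zero' {w : Place k K} {x v : K} (α q y : k) (hv : w.Reg v)
    (hx : ¬ w.Zer (x - algebraMap k K q)) : mult (V2_f α q y x v) 0 w = 0 := by
  have hx0 : x - algebraMap k K q ≠ 0 := fun h => hx (Or.inl h)
  have hvy : w.Reg (v - algebraMap k K y) := hv.sub (w.reg_const y)
  have hi := V2_reg_inv hx
  refine V2_f_zero α q y hv hx0 (hvy.mul hi) ?_
  have : (v - algebraMap k K y) * (x - algebraMap k K q)⁻¹ * x =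
      (v - algebraMap k K y) * (1 + algebraMap k K q * (x - algebraMap k K q)⁻¹) := by
    have h1 : 1 + algebraMap k K q * (x - algebraMap k K q)⁻¹ = (x - algebraMap k K q)⁻¹ * x := by
      have : (1 : K) = (x - algebraMap k K q) * (x - algebraMap k K q)⁻¹ := (mul_inv_cancel₀ hx0).symm
      rw [this]
      ring
    rw [h1]
    ring
  rw [this]
  exact hvy.mul ((V2_reg_one w).add ((w.reg_const _).mul hi))

private theorem V2_i_pole {w : Place k K} {x v : K} (α y β : k) (hv : w.ord v < 0)
    (hx : w.Zer (x - algebraMap k K β)) (hq : α * y ≠ β) : mult (V2_i α y x v) 0 w = - w.ord v := by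
  have hv0 := V2_ne_of_neg hv
  have hvz := V2_zer_inv hv
  have hxr := Place.reg_of_val hx
  have h1 := V2_pole_val hv y
  have h1r := Place.reg_of_val h1
  have e : (- (algebraMap k K α * algebraMap k K y * v) + (v - algebraMap k K y) * x) * v⁻¹ =
      ((v - algebraMap k K y) * v⁻¹) * x - algebraMap k K (α * y) := by
    rw [add_mul, neg_mul, mul_assoc _ v, mul_inv_cancel₀ hv0, map_mul]
    ring
  have h2 : w.Zer ((((v - algebraMap k K y) * v⁻¹) * x - algebraMap k K (α * y)) - algebraMap k K (1 * β - α * y)) :=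
    Place.val_sub (Place.val_mul h1 hx) (Place.val_const _)
  rw [V2_mult w (V2_i α y x v) 0 v hv0 ?_ 2 ?_]
  · change w.ord (-1) - w.ord v = - w.ord v
    rw [w.ord_neg, w.ord_one, zero_sub]
  · intro j
    fin_cases j
    · exact (V2_reg_one w).neg.mul hvz.reg
    · change w.Reg (0 * v⁻¹)
      rw [zero_mul]
      exact w.reg_zero
    · change w.Reg ((- (algebraMap k K α * algebraMap k K y * v) + (v - algebraMap k K y) * x) * v⁻¹)
      rw [e]
      exact Place.reg_of_val h2
  · change ¬ w.Zer ((- (algebraMap k K α * algebraMap k K y * v) + (v - algebraMap k K y) * x) * v⁻¹)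
    rw [e]
    intro h
    have := (Place.val_unique (c := 0) (by rwa [map_zero, sub_zero]) h2)
    rw [one_mul] at this
    exact hq (sub_eq_zero.1 this.symm).symm

private theorem V2_i_hit {w : Place k K} {x v : K} (α y : k) (hv : w.Reg v)
    (hx : w.ord x < 0) (hy : ¬ w.Zer (v - algebraMap k K y)) :
    mult (V2_i α y x v) 0 w = - w.ord x := by
  have hx0 := V2_ne_of_neg hx
  have hxz := V2_zer_inv hx
  have hvy : w.Reg (v - algebraMap k K y) := hv.sub (w.reg_const y)
  have e : (- (algebraMap k K α * algebraMap k K y * v) + (v - algebraMap k K y) * x) * x⁻¹ =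
      - (algebraMap k K α * algebraMap k K y * v * x⁻¹) + (v - algebraMap k K y) := by
    rw [add_mul, mul_assoc _ x, mul_inv_cancel₀ hx0]
    ring
  have hz : w.Zer (- (algebraMap k K α * algebraMap k K y * v * x⁻¹)) :=
    (Place.Zer.reg_mul (((w.reg_const _).mul (w.reg_const _)).mul hv) hxz).neg
  rw [V2_mult w (V2_i α y x v) 0 x hx0 ?_ 2 ?_]
  · change w.ord (-1) - w.ord x = - w.ord x
    rw [w.ord_neg, w.ord_one, zero_sub]
  · intro j
    fin_cases j
    · exact (V2_reg_one w).neg.mul hxz.reg
    · change w.Reg (0 * x⁻¹)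
      rw [zero_mul]
      exact w.reg_zero
    · change w.Reg ((- (algebraMap k K α * algebraMap k K y * v) + (v - algebraMap k K y) * x) * x⁻¹)
      rw [e]
      exact hz.reg.add hvy
  · change ¬ w.Zer ((- (algebraMap k K α * algebraMap k K y * v) + (v - algebraMap k K y) * x) * x⁻¹)
    rw [e]
    intro h
    have := h.sub hz
    rw [add_sub_cancel_left] at this
    exact hy this

private theorem V2_i_zero {w : Place k K} {x v : K} (α y : k) (hv : w.Reg v)
    (h : w.Reg ((v - algebraMap k K y) * x)) : mult (V2_i α y x v) 0 w = 0 := by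
  rw [V2_mult w (V2_i α y x v) 0 1 one_ne_zero ?_ 0 ?_]
  · change w.ord (-1) - w.ord 1 = 0
    rw [w.ord_neg, sub_self]
  · intro j
    rw [inv_one, mul_one]
    fin_cases j
    · exact (V2_reg_one w).neg
    · exact w.reg_zero
    · exact (((w.reg_const _).mul (w.reg_const _)).mul hv).neg.add h
  · rw [inv_one, mul_one]
    intro h1
    have := h1.neg
    exact V2_one w (by simpa [V2_i] using this)

end sections

section secant

variable {M : Type} [Field M] [Algebra k M]

private theorem V2_sec_some {c : Dat k} (α ω q y : k) {Q : Fin 2 → Option k} {R : Fin 2 → Option M} {x v : M}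
    (hQ0 : Q 0 = some q) (hQ1 : Q 1 = some y) (hR0 : R 0 = some x) (hR1 : R 1 = some v)
    (hx : x - algebraMap k M q ≠ 0) :
    sec (c.over M) (algebraMap k M α) (tau ω (ctp M Q)) R = V2_f α q (ω * y) x v := by
  have h0 : tau ω (ctp M Q) 0 = some (algebraMap k M q) := by
    simp [tau, ctp, hQ0]
  have h1 : tau ω (ctp M Q) 1 = some (algebraMap k M (ω * y)) := by
    simp [tau, ctp, hQ1, map_mul]
  have hne : tau ω (ctp M Q) ≠ R := by
    intro h
    rw [h, hR0] at h0
    exact hx (by rw [Option.some.inj h0, sub_self])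
  unfold sec
  rw [if_neg hne, h0, h1, hR0, hR1]
  funext j
  fin_cases j
  · simp [V2_f, dt, hco]
  · simp [V2_f, dt, hco]
  · simp only [V2_f, dt, hco]
    simp

private theorem V2_sec_none {c : Dat k} (α ω y : k) {Q : Fin 2 → Option k} {R : Fin 2 → Option M} {x v : M}
    (hQ0 : Q 0 = none) (hQ1 : Q 1 = some y) (hR0 : R 0 = some x) (hR1 : R 1 = some v) :
    sec (c.over M) (algebraMap k M α) (tau ω (ctp M Q)) R = V2_i α (ω * y) x v := by
  have h0 : tau ω (ctp M Q) 0 = none := by
    simp [tau, ctp, hQ0]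
  have h1 : tau ω (ctp M Q) 1 = some (algebraMap k M (ω * y)) := by
    simp [tau, ctp, hQ1, map_mul]
  have hne : tau ω (ctp M Q) ≠ R := by
    intro h
    rw [h, hR0] at h0
    cases h0
  unfold sec
  rw [if_neg hne, h0, h1, hR0, hR1]
  funext j
  fin_cases j
  · simp [V2_i, dt, hco]
  · simp [V2_i, dt, hco]
  · simp only [V2_i, dt, hco]
    simp

/-- the multiplicity at `Q` -/
private noncomputable def V2_E (Q : Fin 2 → Option k) (x : M) (w : Place k M) : ℤ :=
  match Q 0 with
  | some q => max 0 (w.ord (x - algebraMap k M q))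
  | none => max 0 (- w.ord x)

private theorem V2_E_some {Q : Fin 2 → Option k} {q : k} (h : Q 0 = some q) (x : M) (w : Place k M) :
    V2_E Q x w = max 0 (w.ord (x - algebraMap k M q)) := by
  unfold V2_E
  rw [h]

private theorem V2_E_none {Q : Fin 2 → Option k} (h : Q 0 = none) (x : M) (w : Place k M) :
    V2_E Q x w = max 0 (- w.ord x) := by
  unfold V2_E
  rw [h]

private theorem V2_sub_ne {x : M} (hx : Transcendental k x) (q : k) : x - algebraMap k M q ≠ 0 := by
  intro h
  apply hx
  rw [sub_eq_zero.1 h]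
  exact isAlgebraic_algebraMap q

/-- a finite point with a finite value of `v` is not over `b_i` -/
private theorem V2_ne_b {c : Dat k} (hc : c.Good) {q y : k} (h : OnC c (some q) (some y)) (i : Fin 3) :
    q ≠ c.b i := by
  intro hq
  have h1 : y ^ c.n * ∏ i, (q - c.b i) = ∏ i, (q - c.a i) := h
  have h2 : ∏ i, (q - c.b i) = 0 := Finset.prod_eq_zero (Finset.mem_univ i) (by rw [hq, sub_self])
  rw [h2, mul_zero] at h1
  obtain ⟨j, -, hj⟩ := Finset.prod_eq_zero_iff.1 h1.symm
  have h3 : c.a j = c.b i := by rw [← hq]; exact (sub_eq_zero.1 hj).symm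
  have := hc.inj (show Sum.elim c.a c.b (Sum.inl j) = Sum.elim c.a c.b (Sum.inr i) from h3)
  cases this

private theorem V2_key [CharZero k] [CharZero M] {c : Dat k} (hc : c.Good) {α : k} (hα : IsAl c α)
    {Q : Fin 2 → Option k} (hQ : OnC c (Q 0) (Q 1)) {y : k} (hQ1 : Q 1 = some y) (hy : y ≠ 0)
    {R : Fin 2 → Option M} {x v : M} (hR0 : R 0 = some x) (hR1 : R 1 = some v)
    (hx : Transcendental k x)
    (h : v ^ c.n * ∏ i, (x - algebraMap k M (c.b i)) = ∏ i, (x - algebraMap k M (c.a i)))
    {w : Place k M} {r : Fin 2 → Option k} (hr : OnC c (r 0) (r 1))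
    (hs : ∀ i, SpO w (R i) ((r i).map (algebraMap k (RF w)))) {ω : k} (hω : ω ^ c.n = 1) :
    mult (sec (c.over M) (algebraMap k M α) (tau ω (ctp M Q)) R) 0 w =
      if r 1 = none then - w.ord v else if r 0 = Q 0 ∧ r 1 ≠ some (ω * y) then V2_E Q x w else 0 := by
  have hn : 0 < c.n := by have := hc.two; omega
  have hω0 : ω ≠ 0 := by
    rintro rfl
    rw [zero_pow hn.ne'] at hω
    exact zero_ne_one hω
  have hωy : ω * y ≠ 0 := mul_ne_zero hω0 hy
  have hs0 := hs 0
  have hs1 := hs 1
  rw [hR0] at hs0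
  rw [hR1] at hs1
  have hx0 : ∀ x₀, r 0 = some x₀ → w.Zer (x - algebraMap k M x₀) := by
    intro x₀ h0
    rw [h0] at hs0
    exact Pool.Agent.LibCHd.red_iff_val.1 hs0
  have hv0 : ∀ v₀, r 1 = some v₀ → w.Zer (v - algebraMap k M v₀) := by
    intro v₀ h0
    rw [h0] at hs1
    exact Pool.Agent.LibCHd.red_iff_val.1 hs1
  have hxn : r 0 = none → w.ord x < 0 := by
    intro h0
    rw [h0] at hs0
    exact hs0
  have hvn : r 1 = none → w.ord v < 0 := by
    intro h0
    rw [h0] at hs1
    exact hs1
  by_cases hr1 : r 1 = none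
  · rw [if_pos hr1]
    have hv := hvn hr1
    obtain ⟨i, hi⟩ : ∃ i, r 0 = some (c.b i) := by
      rw [hr1] at hr
      cases h0 : r 0 with
      | none => rw [h0] at hr; exact hr.elim
      | some x₀ =>
        rw [h0] at hr
        obtain ⟨i, hi⟩ := hr
        exact ⟨i, by rw [hi]⟩
    have hxb := hx0 _ hi
    cases hQ0 : Q 0 with
    | none =>
      rw [V2_sec_none α ω y hQ0 hQ1 hR0 hR1]
      refine V2_i_pole α (ω * y) (c.b i) hv hxb ?_
      intro h1
      have hyn : y ^ c.n = 1 := by
        rw [hQ0, hQ1] at hQ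
        exact hQ
      apply hα.2 i
      rw [← h1, mul_pow, mul_pow, hω, hyn, one_mul, mul_one]
    | some q =>
      rw [V2_sec_some α ω q y hQ0 hQ1 hR0 hR1 (V2_sub_ne hx q)]
      refine V2_f_pole α q (ω * y) (c.b i) hv hxb ?_
      rw [hQ0, hQ1] at hQ
      exact V2_ne_b hc hQ i
  · rw [if_neg hr1]
    obtain ⟨v₀, hv₀⟩ := Option.ne_none_iff_exists'.1 hr1
    have hvz := hv0 v₀ hv₀
    have hvr := Place.reg_of_val hvz
    have hneq : ω * y ≠ v₀ → ¬ w.Zer (v - algebraMap k M (ω * y)) := fun h1 => V2_not_zer_sub hvz h1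
    cases hQ0 : Q 0 with
    | none =>
      rw [V2_sec_none α ω y hQ0 hQ1 hR0 hR1]
      have hyn : y ^ c.n = 1 := by
        rw [hQ0, hQ1] at hQ
        exact hQ
      cases hr0 : r 0 with
      | none =>
        have hxo := hxn hr0
        by_cases he : v₀ = ω * y
        · rw [if_neg (by rw [hv₀, he]; simp)]
          refine V2_i_zero α (ω * y) hvr ?_
          refine V2_div' hn ?_ hxo h (by rw [← he]; exact hvz)
          rw [mul_pow, hω, hyn, one_mul]
        · rw [if_pos ⟨rfl, by rw [hv₀]; simpa using he⟩, V2_E_none hQ0]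
          rw [V2_i_hit α (ω * y) hvr hxo (hneq fun h1 => he h1.symm)]
          rw [max_eq_right (by omega)]
      | some x₀ =>
        rw [if_neg (by simp)]
        have hxz := hx0 x₀ hr0
        exact V2_i_zero α (ω * y) hvr ((hvr.sub (w.reg_const _)).mul (Place.reg_of_val hxz))
    | some q =>
      rw [V2_sec_some α ω q y hQ0 hQ1 hR0 hR1 (V2_sub_ne hx q)]
      rw [hQ0, hQ1] at hQ
      by_cases hr0 : r 0 = some q
      · have hxz := hx0 q hr0
        by_cases he : v₀ = ω * y
        · rw [if_neg (by rw [hv₀, he]; simp)]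
          have hb : ∏ i, (q - c.b i) ≠ 0 :=
            Finset.prod_ne_zero_iff.2 fun i _ => sub_ne_zero.2 (V2_ne_b hc hQ i)
          have hd := V2_div hn hωy (V2_sub_ne hx q) h (y := ω * y)
            (by rw [mul_pow, hω, one_mul]; exact hQ) hb hxz (by rw [← he]; exact hvz)
          exact V2_f_zero α q (ω * y) hvr (V2_sub_ne hx q) hd (hd.mul (Place.reg_of_val hxz))
        · rw [if_pos ⟨hr0, by rw [hv₀]; simpa using he⟩, V2_E_some hQ0]
          rw [V2_f_hit α q (ω * y) hvr hxz (hneq fun h1 => he h1.symm)]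
          rw [max_eq_right]
          exact (hxz.resolve_left (V2_sub_ne hx q)).le
      · rw [if_neg (fun h1 => hr0 h1.1)]
        refine V2_f_zero' α q (ω * y) hvr ?_
        intro hz
        cases hr0' : r 0 with
        | none =>
          have hxo := hxn hr0'
          have hxr := Place.reg_of_val hz
          rcases hxr with h1 | h1
          · rw [h1, w.ord_zero] at hxo
            exact lt_irrefl _ hxo
          · omega
        | some x₀ =>
          have := Place.val_unique (hx0 x₀ hr0') hz
          exact hr0 (by rw [hr0', this])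

end secant

private theorem V2_card [IsAlgClosed k] [CharZero k] {n : ℕ} (hn : 0 < n) :
    (nthRootsFinset n (1 : k)).card = n := by
  have : NeZero (n : k) := ⟨by exact_mod_cast hn.ne'⟩
  obtain ⟨ζ, hζ⟩ := HasEnoughRootsOfUnity.exists_primitiveRoot k n
  exact hζ.card_nthRootsFinset

private theorem V2_mem {n : ℕ} (hn : 0 < n) {ω : k} : ω ∈ nthRootsFinset n (1 : k) ↔ ω ^ n = 1 :=
  Polynomial.mem_nthRootsFinset hn 1

/-- the sum over the twists at one place -/
private theorem V2_T [IsAlgClosed k] [CharZero k] {c : Dat k} (hc : c.Good) {Q : Fin 2 → Option k}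
    (hQ : OnC c (Q 0) (Q 1)) {y : k} (hQ1 : Q 1 = some y) (hy : y ≠ 0) {r : Fin 2 → Option k}
    (hr : OnC c (r 0) (r 1)) (e p : ℤ) (F : Fin 3 → ℤ) {G : Type} [AddCommGroup G]
    (g : (Fin 2 → Option k) → G)
    (h1 : r 1 = none → e = 0 ∧ ∀ i, F i = if r 0 = some (c.b i) then c.n * p else 0)
    (h2 : r 1 ≠ none → ∀ i, F i = 0) (h3 : r 1 ≠ none → r 0 ≠ Q 0 → e = 0) :
    ∑ ω ∈ nthRootsFinset c.n (1 : k), (if r 1 = none then p else if r 0 = Q 0 ∧ r 1 ≠ some (ω * y) then e else 0) •
        g (tau ω⁻¹ r) =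
      e • ∑ ω ∈ (nthRootsFinset c.n (1 : k)).erase 1, g (tau ω Q) + ∑ i, F i • g ![some (c.b i), none] := by
  have hn : 0 < c.n := by have := hc.two; omega
  by_cases hr1 : r 1 = none
  · obtain ⟨he, hF⟩ := h1 hr1
    obtain ⟨i, hi⟩ : ∃ i, r 0 = some (c.b i) := by
      rw [hr1] at hr
      cases h0 : r 0 with
      | none => rw [h0] at hr; exact hr.elim
      | some x₀ =>
        rw [h0] at hr
        obtain ⟨i, hi⟩ := hr
        exact ⟨i, by rw [hi]⟩
    have ht : ∀ ω : k, tau ω⁻¹ r = ![some (c.b i), none] := by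
      intro ω
      funext j
      fin_cases j
      · exact hi
      · simp [tau, hr1]
    have hL : ∑ ω ∈ nthRootsFinset c.n (1 : k), (if r 1 = none then p else
        if r 0 = Q 0 ∧ r 1 ≠ some (ω * y) then e else 0) • g (tau ω⁻¹ r) =
        ∑ ω ∈ nthRootsFinset c.n (1 : k), p • g ![some (c.b i), none] := by
      refine Finset.sum_congr rfl fun ω _ => ?_
      rw [if_pos hr1, ht]
    rw [hL, Finset.sum_const, V2_card hn, he, zero_smul, zero_add]
    rw [Finset.sum_eq_single i]
    · rw [hF, if_pos hi, ← natCast_zsmul, smul_smul]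
    · intro j _ hj
      rw [hF, if_neg, zero_smul]
      rw [hi]
      intro hb
      have hb' : c.b i = c.b j := Option.some.inj hb
      have := hc.inj (show Sum.elim c.a c.b (Sum.inr i) = Sum.elim c.a c.b (Sum.inr j) from hb')
      exact hj (Sum.inr.inj this).symm
    · intro hi'
      exact absurd (Finset.mem_univ i) hi'
  · have hF0 : ∑ i, F i • g ![some (c.b i), none] = 0 :=
      Finset.sum_eq_zero fun i _ => by rw [h2 hr1 i, zero_smul]
    rw [hF0, add_zero]
    simp only [if_neg hr1]
    by_cases hr0 : r 0 = Q 0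
    · obtain ⟨v₀, hv₀⟩ := Option.ne_none_iff_exists'.1 hr1
      have hpow : v₀ ^ c.n = y ^ c.n := by
        rw [hr0, hv₀] at hr
        rw [hQ1] at hQ
        cases hQ0 : Q 0 with
        | none =>
          rw [hQ0] at hr hQ
          have e1 : v₀ ^ c.n = 1 := hr
          have e2 : y ^ c.n = 1 := hQ
          rw [e1, e2]
        | some q =>
          rw [hQ0] at hr hQ
          have e1 : v₀ ^ c.n * ∏ i, (q - c.b i) = ∏ i, (q - c.a i) := hr
          have e2 : y ^ c.n * ∏ i, (q - c.b i) = ∏ i, (q - c.a i) := hQ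
          have hb : ∏ i, (q - c.b i) ≠ 0 :=
            Finset.prod_ne_zero_iff.2 fun i _ => sub_ne_zero.2 (V2_ne_b hc hQ i)
          exact mul_right_cancel₀ hb (e1.trans e2.symm)
      set κ : k := v₀ / y with hκ
      have hκn : κ ^ c.n = 1 := by
        rw [hκ, div_pow, hpow, div_self (pow_ne_zero _ hy)]
      have hκ0 : κ ≠ 0 := by
        intro h0
        rw [h0, zero_pow hn.ne'] at hκn
        exact zero_ne_one hκn
      have hv₀' : v₀ = κ * y := by rw [hκ, div_mul_cancel₀ _ hy]
      have hL : ∑ ω ∈ nthRootsFinset c.n (1 : k), (if r 0 = Q 0 ∧ r 1 ≠ some (ω * y) then e else 0) •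
          g (tau ω⁻¹ r) = ∑ ω ∈ (nthRootsFinset c.n (1 : k)).erase κ, e • g (tau (ω⁻¹ * κ) Q) := by
        rw [← Finset.add_sum_erase _ _ ((V2_mem hn).2 hκn)]
        rw [if_neg (by rw [hv₀, hv₀']; simp), zero_smul, zero_add]
        refine Finset.sum_congr rfl fun ω hω => ?_
        rw [if_pos]
        · congr 2
          funext j
          fin_cases j
          · exact hr0
          · simp [tau, hv₀, hQ1, hv₀', mul_assoc]
        · refine ⟨hr0, ?_⟩
          rw [hv₀, hv₀']
          intro h'
          exact (Finset.mem_erase.1 hω).1 (mul_right_cancel₀ hy (Option.some.inj h')).symm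
      rw [hL, Finset.smul_sum]
      refine Finset.sum_nbij' (fun ω => ω⁻¹ * κ) (fun ω => ω⁻¹ * κ) ?_ ?_ ?_ ?_ ?_
      · intro ω hω
        obtain ⟨ha, hb⟩ := Finset.mem_erase.1 hω
        have hω' := (V2_mem hn).1 hb
        have hω0 : ω ≠ 0 := by
          rintro rfl
          rw [zero_pow hn.ne'] at hω'
          exact zero_ne_one hω'
        refine Finset.mem_erase.2 ⟨?_, (V2_mem hn).2 ?_⟩
        · intro h'
          apply ha
          field_simp at h'
          exact h'.symm
        · rw [mul_pow, inv_pow, hω', hκn, inv_one, one_mul]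
      · intro ω hω
        obtain ⟨ha, hb⟩ := Finset.mem_erase.1 hω
        have hω' := (V2_mem hn).1 hb
        have hω0 : ω ≠ 0 := by
          rintro rfl
          rw [zero_pow hn.ne'] at hω'
          exact zero_ne_one hω'
        refine Finset.mem_erase.2 ⟨?_, (V2_mem hn).2 ?_⟩
        · intro h'
          apply ha
          have h'' : ω⁻¹ = 1 := by
            apply mul_right_cancel₀ hκ0
            rw [h', one_mul]
          rw [← inv_inv ω, h'', inv_one]
        · rw [mul_pow, inv_pow, hω', hκn, inv_one, one_mul]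
      · intro ω _
        rw [mul_inv, inv_inv, mul_assoc, inv_mul_cancel₀ hκ0, mul_one]
      · intro ω _
        rw [mul_inv, inv_inv, mul_assoc, inv_mul_cancel₀ hκ0, mul_one]
      · intro ω _
        rfl
    · rw [h3 hr1 hr0, zero_smul]
      refine Finset.sum_eq_zero fun ω _ => ?_
      rw [if_neg (fun h' => hr0 h'.1), zero_smul]

section final

variable {M : Type} [Field M] [Algebra k M]

private theorem V2_tau_sp {w : Place k M} {R : Fin 2 → Option M} {r : Fin 2 → Option k}
    (h : ∀ i, SpO w (R i) ((r i).map (algebraMap k (RF w)))) {ω : k} (hω : ω ≠ 0) (i : Fin 2) :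
    SpO w (tau ω R i) ((tau ω r i).map (algebraMap k (RF w))) := by
  fin_cases i
  · exact h 0
  · have h1 := h 1
    change SpO w ((R 1).map fun z => algebraMap k M ω * z)
      (((r 1).map fun z => algebraMap k k ω * z).map (algebraMap k (RF w)))
    revert h1
    generalize R 1 = Y
    generalize r 1 = q
    intro h1
    cases Y with
    | none =>
      cases q with
      | none => rfl
      | some q0 => cases (show some _ = none from h1)
    | some v =>
      cases q with
      | none =>
        have h2 : w.ord v < 0 := h1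
        change w.ord (algebraMap k M ω * v) < 0
        have hω' : algebraMap k M ω ≠ 0 := by
          intro h3
          exact hω ((map_eq_zero (algebraMap k M)).1 h3)
        rw [w.ord_mul _ _ hω' (V2_ne_of_neg h2), w.ord_const _ hω, zero_add]
        exact h2
      | some q0 =>
        have h2 : Red w v (algebraMap k (RF w) q0) := h1
        change Red w (algebraMap k M ω * v) (algebraMap k (RF w) (algebraMap k k ω * q0))
        rw [map_mul]
        exact (Pool.Agent.LibCHd.red_const w ω).mul h2

private theorem V2_on_tau {c : Dat k} {P : Fin 2 → Option M} (h : OnC (c.over M) (P 0) (P 1)) {ω : k}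
    (hω : ω ^ c.n = 1) : OnC (c.over M) (tau ω P 0) (tau ω P 1) := by
  have hn : algebraMap k M ω ^ c.n = 1 := by rw [← map_pow, hω, map_one]
  change OnC (c.over M) (P 0) ((P 1).map fun v => algebraMap k M ω * v)
  revert h
  rcases P 0 with _ | x <;> rcases P 1 with _ | v <;> intro h
  · exact h
  · change v ^ c.n = 1 at h
    change (algebraMap k M ω * v) ^ c.n = 1
    rw [mul_pow, hn, h, one_mul]
  · exact h
  · change v ^ c.n * ∏ i, (x - (c.over M).b i) = ∏ i, (x - (c.over M).a i) at h
    change (algebraMap k M ω * v) ^ c.n * ∏ i, (x - (c.over M).b i) = ∏ i, (x - (c.over M).a i)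
    rw [mul_pow, hn, one_mul, h]

private theorem V2_on_ctp {c : Dat k} {Q : Fin 2 → Option k} (h : OnC c (Q 0) (Q 1)) :
    OnC (c.over M) (ctp M Q 0) (ctp M Q 1) := by
  change OnC (c.over M) ((Q 0).map (algebraMap k M)) ((Q 1).map (algebraMap k M))
  revert h
  rcases Q 0 with _ | x <;> rcases Q 1 with _ | v <;> intro h
  · exact h
  · change v ^ c.n = 1 at h
    change (algebraMap k M v) ^ c.n = 1
    rw [← map_pow, h, map_one]
  · obtain ⟨i, hi⟩ := h
    exact ⟨i, by rw [hi]; rfl⟩
  · change v ^ c.n * ∏ i, (x - c.b i) = ∏ i, (x - c.a i) at h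
    change (algebraMap k M v) ^ c.n * ∏ i, (algebraMap k M x - algebraMap k M (c.b i)) =
      ∏ i, (algebraMap k M x - algebraMap k M (c.a i))
    have := congrArg (algebraMap k M) h
    simpa only [map_mul, map_pow, map_prod, map_sub] using this


private theorem V2_zer_r {w : Place k M} {x : M} {o : Option k} (h : SpO w (some x) (o.map (algebraMap k (RF w))))
    {q : k} (hq : w.Zer (x - algebraMap k M q)) : o = some q := by
  cases o with
  | none =>
    have h1 : w.ord x < 0 := h
    have hxr := Place.reg_of_val hq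
    rcases hxr with h2 | h2
    · rw [h2, w.ord_zero] at h1
      exact absurd h1 (lt_irrefl _)
    · omega
  | some x₀ =>
    have h1 : w.Zer (x - algebraMap k M x₀) := Pool.Agent.LibCHd.red_iff_val.1 h
    rw [Place.val_unique h1 hq]

private theorem V2_ord_le {w : Place k M} {x : M} {q : k} (hq : ¬ w.Zer (x - algebraMap k M q)) :
    max 0 (w.ord (x - algebraMap k M q)) = 0 := by
  apply max_eq_left
  by_contra h
  exact hq (Or.inr (by omega))

end final

theorem val_mix [IsAlgClosed k] [CharZero k] {c : Dat k} (hc : c.Good) {α : k} (hα : IsAl c α)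
    {Con : CH c 3 1 →+ CH (c.over (Lf k)) 1 0} (hCon : IsCon c α Con) {M : Type} [Field M] [Algebra k M]
    (hM : FunF k 1 M) {R : Fin 2 → Option M} (hR : OnC (c.over M) (R 0) (R 1)) {x : M} (hx : R 0 = some x)
    (hxt : Transcendental k x) (Q : Fin 2 → Option k) (hQ : OnC c (Q 0) (Q 1)) (hu : UnR Q) :
    ∑ ω ∈ nthRootsFinset c.n (1 : k), Con (cls c 1 (tri (tau ω⁻¹ R) (tau ω (ctp M Q)) R)) =
      (dg k x : ℤ) • (∑ ω ∈ (nthRootsFinset c.n (1 : k)).erase 1, bpt c (tau ω Q) +
        ∑ i, bpt c ![some (c.b i), none]) := by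
  have hn : 0 < c.n := by have := hc.two; omega
  have : CharZero M := charZero_of_injective_algebraMap (algebraMap k M).injective
  obtain ⟨y, hQ1, hy⟩ := hu
  obtain ⟨v, hv, hv0, h⟩ := v_fin hc hxt (o := R 1) (by rw [← hx]; exact hR)
  have hRs : OnC (c.over M) (some x) (some v) := by rw [← hx, ← hv]; exact hR
  choose r hr hs using fun w : Place k M => sp_k hM hc R hR w
  have hs0 : ∀ w, SpO w (some x) ((r w 0).map (algebraMap k (RF w))) := fun w => by
    have := hs w 0
    rwa [hx] at this
  have hs1 : ∀ w, SpO w (some v) ((r w 1).map (algebraMap k (RF w))) := fun w => by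
    have := hs w 1
    rwa [hv] at this
  have hE : {w : Place k M | V2_E Q x w ≠ 0}.Finite := by
    cases hQ0 : Q 0 with
    | none =>
      refine (fin_zero hM x).subset fun w hw => ?_
      intro h0
      apply hw
      rw [V2_E_none hQ0, h0, neg_zero, max_self]
    | some q =>
      refine (fin_zero hM (x - algebraMap k M q)).subset fun w hw => ?_
      intro h0
      apply hw
      rw [V2_E_some hQ0, h0, max_self]
  obtain ⟨S, hSE, hSv, hSb⟩ : ∃ S : Finset (Place k M), (∀ w, V2_E Q x w ≠ 0 → w ∈ S) ∧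
      (∀ w, w.ord v ≠ 0 → w ∈ S) ∧ (∀ w i, w.ord (x - algebraMap k M (c.b i)) ≠ 0 → w ∈ S) := by
    refine ⟨(hE.toFinset ∪ (fin_zero hM v).toFinset) ∪
      Finset.univ.biUnion (fun i => (fin_zero hM (x - algebraMap k M (c.b i))).toFinset), ?_, ?_, ?_⟩
    · intro w hw
      exact Finset.mem_union_left _ (Finset.mem_union_left _ (hE.mem_toFinset.2 hw))
    · intro w hw
      exact Finset.mem_union_left _ (Finset.mem_union_right _ ((fin_zero hM v).mem_toFinset.2 hw))
    · intro w i hw
      exact Finset.mem_union_right _ (Finset.mem_biUnion.2 ⟨i, Finset.mem_univ i,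
        (fin_zero hM (x - algebraMap k M (c.b i))).mem_toFinset.2 hw⟩)
  have hkey : ∀ (w : Place k M) (ω : k), ω ^ c.n = 1 →
      mult (sec (c.over M) (algebraMap k M α) (tau ω (ctp M Q)) R) 0 w =
        if r w 1 = none then - w.ord v else if r w 0 = Q 0 ∧ r w 1 ≠ some (ω * y) then V2_E Q x w else 0 :=
    fun w ω hω => V2_key hc hα hQ hQ1 hy hx hv hxt h (hr w) (hs w) hω
  have hcon : ∀ ω ∈ nthRootsFinset c.n (1 : k), Con (cls c 1 (tri (tau ω⁻¹ R) (tau ω (ctp M Q)) R)) =
      ∑ w ∈ S, (if r w 1 = none then - w.ord v else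
        if r w 0 = Q 0 ∧ r w 1 ≠ some (ω * y) then V2_E Q x w else 0) • bpt c (tau ω⁻¹ (r w)) := by
    intro ω hω
    have hω' := (V2_mem hn).1 hω
    have hω0 : ω ≠ 0 := by
      rintro rfl
      rw [zero_pow hn.ne'] at hω'
      exact zero_ne_one hω'
    have hωi : ω⁻¹ ^ c.n = 1 := by rw [inv_pow, hω', inv_one]
    rw [hCon M (tri (tau ω⁻¹ R) (tau ω (ctp M Q)) R) 0 S (fun w => tau ω⁻¹ (r w)) hM ?_ ?_ ?_ ?_]
    · refine Finset.sum_congr rfl fun w _ => ?_
      rw [← hkey w ω hω']
      rfl
    · intro j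
      fin_cases j
      · exact V2_on_tau hR hωi
      · exact V2_on_tau (V2_on_ctp hQ) hω'
      · exact hR
    · change sec (c.over M) (algebraMap k M α) (tau ω (ctp M Q)) R 0 ≠ 0
      cases hQ0 : Q 0 with
      | none =>
        rw [V2_sec_none α ω y hQ0 hQ1 hx hv]
        simp [V2_i]
      | some q =>
        rw [V2_sec_some α ω q y hQ0 hQ1 hx hv (V2_sub_ne hxt q)]
        exact V2_sub_ne hxt q
    · intro w hw
      change mult (sec (c.over M) (algebraMap k M α) (tau ω (ctp M Q)) R) 0 w = 0
      rw [hkey w ω hω']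
      have h1 : w.ord v = 0 := by
        by_contra h'
        exact hw (hSv w h')
      have h2 : V2_E Q x w = 0 := by
        by_contra h'
        exact hw (hSE w h')
      rw [h1, h2]
      simp
    · intro w _ i
      exact V2_tau_sp (hs w) (inv_ne_zero hω0) i
  rw [Finset.sum_congr rfl hcon, Finset.sum_comm]
  have hT : ∀ w ∈ S, ∑ ω ∈ nthRootsFinset c.n (1 : k), (if r w 1 = none then - w.ord v else
        if r w 0 = Q 0 ∧ r w 1 ≠ some (ω * y) then V2_E Q x w else 0) • bpt c (tau ω⁻¹ (r w)) =
      V2_E Q x w • ∑ ω ∈ (nthRootsFinset c.n (1 : k)).erase 1, bpt c (tau ω Q) +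
        ∑ i, max 0 (w.ord (x - algebraMap k M (c.b i))) • bpt c ![some (c.b i), none] := by
    intro w _
    refine V2_T hc hQ hQ1 hy (hr w) (V2_E Q x w) (- w.ord v)
      (fun i => max 0 (w.ord (x - algebraMap k M (c.b i)))) (bpt c) ?_ ?_ ?_
    · intro hr1
      have hvo : w.ord v < 0 := by
        have := hs1 w
        rw [hr1] at this
        exact this
      rcases ord_cases hc hxt hRs w with hh | hh | hh | hh
      · omega
      · obtain ⟨i, hi, _⟩ := hh
        omega
      · obtain ⟨i, -, hi⟩ := hh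
        have hnZ : (0 : ℤ) < c.n := by exact_mod_cast hn
        have hpos : 0 < w.ord (x - algebraMap k M (c.b i)) := by
          rw [hi]
          have := mul_neg_of_pos_of_neg hnZ hvo
          omega
        have hzi : w.Zer (x - algebraMap k M (c.b i)) := Or.inr hpos
        have hr0 := V2_zer_r (hs0 w) hzi
        refine ⟨?_, ?_⟩
        · cases hQ0 : Q 0 with
          | none =>
            rw [V2_E_none hQ0]
            have hxr := Place.reg_of_val hzi
            apply max_eq_left
            rcases hxr with h1 | h1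
            · rw [h1, w.ord_zero, neg_zero]
            · omega
          | some q =>
            rw [V2_E_some hQ0]
            apply V2_ord_le
            refine V2_not_zer_sub hzi ?_
            rw [hQ0, hQ1] at hQ
            exact V2_ne_b hc hQ i
        · intro j
          by_cases hij : r w 0 = some (c.b j)
          · rw [if_pos hij]
            have hbb : c.b j = c.b i := Option.some.inj (hij.symm.trans hr0)
            rw [hbb, max_eq_right hpos.le, hi]
            ring
          · rw [if_neg hij]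
            apply V2_ord_le
            intro hz
            exact hij (V2_zer_r (hs0 w) hz)
      · omega
    · intro hr1 i
      apply V2_ord_le
      intro hz
      have hr0 := V2_zer_r (hs0 w) hz
      obtain ⟨v₀, hv₀⟩ := Option.ne_none_iff_exists'.1 hr1
      have h1 := hr w
      rw [hr0, hv₀] at h1
      exact V2_ne_b hc h1 i rfl
    · intro hr1 hr0
      cases hQ0 : Q 0 with
      | none =>
        rw [V2_E_none hQ0]
        rw [hQ0] at hr0
        obtain ⟨x₀, hx₀⟩ := Option.ne_none_iff_exists'.1 hr0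
        have h1 := hs0 w
        rw [hx₀] at h1
        have hxr : w.Reg x := Place.reg_of_val (Pool.Agent.LibCHd.red_iff_val.1 h1)
        apply max_eq_left
        rcases hxr with h1 | h1
        · rw [h1, w.ord_zero, neg_zero]
        · omega
      | some q =>
        rw [V2_E_some hQ0]
        apply V2_ord_le
        intro hz
        exact hr0 (by rw [V2_zer_r (hs0 w) hz, hQ0])
  rw [Finset.sum_congr rfl hT, Finset.sum_add_distrib, ← Finset.sum_smul, Finset.sum_comm]
  have hsumE : ∑ w ∈ S, V2_E Q x w = (dg k x : ℤ) := by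
    cases hQ0 : Q 0 with
    | none =>
      rw [← deg_pole hM x hxt S]
      · exact Finset.sum_congr rfl fun w _ => V2_E_none hQ0 x w
      · intro w hw
        apply hSE
        rw [V2_E_none hQ0, max_eq_right (by omega)]
        omega
    | some q =>
      rw [← deg_zero hM x hxt q S]
      · exact Finset.sum_congr rfl fun w _ => V2_E_some hQ0 x w
      · intro w hw
        apply hSE
        rw [V2_E_some hQ0, max_eq_right hw.le]
        exact hw.ne'
  have hsumb : ∀ i, ∑ w ∈ S, max 0 (w.ord (x - algebraMap k M (c.b i))) • bpt c ![some (c.b i), none] =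
      (dg k x : ℤ) • bpt c ![some (c.b i), none] := by
    intro i
    rw [← Finset.sum_smul, deg_zero hM x hxt (c.b i) S fun w hw => hSb w i hw.ne']
  rw [hsumE, Finset.sum_congr rfl fun i _ => hsumb i, ← Finset.smul_sum, ← smul_add]

end Pool.Agent.LibCW77
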