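import Pool.Agent.LibCW77.HDefs
import Pool.Agent.LibCW77.M4
import Pool.Agent.LibCW77.V1
import Pool.Agent.LibCW77.V2

/-!
[CW77 Cn] The operator on the cycles `BR`. `exists_al`, `exists_op`. `Con (BR R Q) = ∑_(ω ≠ 1) 2 dg bpt (ωQ) + 6 dg bpt Q + dg (∑_(ω ≠ 1) bpt (ωQ) + ∑_i bpt (b_i))` (`val_tw` for `tau ω (ctp M Q) = ctp M (tau ω Q)` and `tau ω⁻¹ R`, `val_diag` for `ω = 1`, `val_mix`) `= 3 dg bpt Q + 3 dg ∑_ω bpt (ωQ) + dg ∑_i bpt (b_i)`; the last two terms do not change if `Q` is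
replaced by `tau ζ Q`.
-/

open scoped Classical
open Polynomial

namespace Pool.Agent.LibCW77

open Pool.Agent.LibBH2
open Pool.Agent.LibCHd (VR RF Red FunF)
open Pool.Agent.LibHL77 (Lf tt EHom NC HE BE mult hypf)

variable {k : Type} [Field k]

private theorem Cn_onC {c : Dat k} (hn : c.n ≠ 0) {ω : k} (hω : ω ^ c.n = 1) {Q : Fin 2 → Option k}
    (hQ : OnC c (Q 0) (Q 1)) : OnC c ((tau ω Q) 0) ((tau ω Q) 1) := by
  change OnC c (Q 0) ((Q 1).map fun v => ω * v)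
  revert hQ
  rcases Q 0 with _ | x <;> rcases Q 1 with _ | v <;> intro h
  · exact h
  · change v ^ c.n = 1 at h
    change (ω * v) ^ c.n = 1
    rw [mul_pow, hω, h, one_mul]
  · exact h
  · change v ^ c.n * ∏ i, (x - c.b i) = ∏ i, (x - c.a i) at h
    change (ω * v) ^ c.n * ∏ i, (x - c.b i) = ∏ i, (x - c.a i)
    rw [mul_pow, hω, one_mul, h]

private theorem Cn_ctp (M : Type) [Field M] [Algebra k M] (ω : k) (Q : Fin 2 → Option k) :
    tau ω (ctp M Q) = ctp M (tau ω Q) := by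
  funext i
  fin_cases i
  · rfl
  · change ((Q 1).map (algebraMap k M)).map (fun v => algebraMap k M ω * v) =
      ((Q 1).map fun v => ω * v).map (algebraMap k M)
    rcases Q 1 with _ | v
    · rfl
    · change some (algebraMap k M ω * algebraMap k M v) = some (algebraMap k M (ω * v))
      rw [map_mul]

private theorem Cn_tau_one {M : Type} [Field M] [Algebra k M] (P : Fin 2 → Option M) :
    tau (1 : k) P = P := by
  funext i
  fin_cases i
  · rfl
  · change (P 1).map (fun v => algebraMap k M 1 * v) = P 1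
    rcases P 1 with _ | v
    · rfl
    · change some (algebraMap k M 1 * v) = some v
      rw [map_one, one_mul]

private theorem Cn_tau_tau {M : Type} [Field M] [Algebra k M] (a b : k) (P : Fin 2 → Option M) :
    tau a (tau b P) = tau (a * b) P := by
  funext i
  fin_cases i
  · rfl
  · change ((P 1).map fun v => algebraMap k M b * v).map (fun v => algebraMap k M a * v) =
      (P 1).map fun v => algebraMap k M (a * b) * v
    rcases P 1 with _ | v
    · rfl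
    · change some (algebraMap k M a * (algebraMap k M b * v)) = some (algebraMap k M (a * b) * v)
      rw [map_mul, mul_assoc]

private theorem Cn_arith {A J : Type} [AddCommGroup A] (m : ℤ) (a D : A) (s : Finset J) (B : J → A) :
    (6 * m) • a + ∑ j ∈ s, (2 * m) • B j + m • (∑ j ∈ s, B j + D) =
      (3 * m) • a + (3 * m) • (a + ∑ j ∈ s, B j) + m • D := by
  rw [← Finset.smul_sum]
  simp only [smul_add]
  have h1 : (6 * m) • a = (3 * m) • a + (3 * m) • a := by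
    rw [← add_smul]
    congr 1
    ring
  have h2 : (3 * m) • ∑ j ∈ s, B j = (2 * m) • ∑ j ∈ s, B j + m • ∑ j ∈ s, B j := by
    rw [← add_smul]
    congr 1
    ring
  rw [h1, h2]
  abel

private theorem Cn_arith2 {A : Type} [AddCommGroup A] (m n : ℤ) (a b C D : A) :
    m • a + C + n • D - (m • b + C + n • D) = m • (a - b) := by
  rw [smul_sub]
  abel

private theorem Cn_val [IsAlgClosed k] [CharZero k] {c : Dat k} (hc : c.Good) {α : k} (hα : IsAl c α)
    {Con : CH c 3 1 →+ CH (c.over (Lf k)) 1 0} (hCon : IsCon c α Con) {M : Type} [Field M] [Algebra k M]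
    (hM : FunF k 1 M) {R : Fin 2 → Option M} (hR : OnC (c.over M) (R 0) (R 1)) {x : M} (hx : R 0 = some x)
    (hxt : Transcendental k x) (Q : Fin 2 → Option k) (hQ : OnC c (Q 0) (Q 1)) (hu : UnR Q) :
    Con (BR c R Q) = (3 * (dg k x : ℤ)) • bpt c Q +
      (3 * (dg k x : ℤ)) • ∑ ω ∈ nthRootsFinset c.n (1 : k), bpt c (tau ω Q) +
        (dg k x : ℤ) • ∑ i, bpt c ![some (c.b i), none] := by
  have hn : 0 < c.n := lt_of_lt_of_le two_pos hc.two
  have h1m : (1 : k) ∈ nthRootsFinset c.n (1 : k) := (mem_nthRootsFinset hn (1 : k)).2 (one_pow _)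
  have h1 : Con (cls c 1 (tri (tau (1 : k) (ctp M Q)) (tau (1 : k)⁻¹ R) R)) =
      (6 * (dg k x : ℤ)) • bpt c Q := by
    rw [inv_one, Cn_tau_one, Cn_tau_one]
    exact val_diag hc hα hCon hM hR hx hxt Q hQ
  have h2 : ∀ ω ∈ (nthRootsFinset c.n (1 : k)).erase 1,
      Con (cls c 1 (tri (tau ω (ctp M Q)) (tau ω⁻¹ R) R)) = (2 * (dg k x : ℤ)) • bpt c (tau ω Q) := by
    intro ω hω
    obtain ⟨hne, hmem⟩ := Finset.mem_erase.1 hω
    have hpow : ω ^ c.n = 1 := (mem_nthRootsFinset hn (1 : k)).1 hmem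
    rw [Cn_ctp]
    exact val_tw hc hα hCon hM hR hx hxt (tau ω Q) (Cn_onC hn.ne' hpow hQ) ω⁻¹
      (by rw [inv_pow, hpow, inv_one]) (fun h => hne (inv_eq_one.1 h))
  have h3 : Con (BR c R Q) =
      ∑ ω ∈ nthRootsFinset c.n (1 : k), Con (cls c 1 (tri (tau ω (ctp M Q)) (tau ω⁻¹ R) R)) +
      ∑ ω ∈ nthRootsFinset c.n (1 : k), Con (cls c 1 (tri (tau ω⁻¹ R) (tau ω (ctp M Q)) R)) := by
    unfold BR
    rw [map_sum, ← Finset.sum_add_distrib]
    exact Finset.sum_congr rfl fun ω _ => map_add Con _ _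
  have h4 : ∑ ω ∈ nthRootsFinset c.n (1 : k), Con (cls c 1 (tri (tau ω (ctp M Q)) (tau ω⁻¹ R) R)) =
      (6 * (dg k x : ℤ)) • bpt c Q +
        ∑ ω ∈ (nthRootsFinset c.n (1 : k)).erase 1, (2 * (dg k x : ℤ)) • bpt c (tau ω Q) := by
    rw [← Finset.add_sum_erase _ _ h1m, h1, Finset.sum_congr rfl h2]
  have h5 : ∑ ω ∈ nthRootsFinset c.n (1 : k), bpt c (tau ω Q) =
      bpt c Q + ∑ ω ∈ (nthRootsFinset c.n (1 : k)).erase 1, bpt c (tau ω Q) := by
    rw [← Finset.add_sum_erase _ (fun ω => bpt c (tau ω Q)) h1m, Cn_tau_one]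
  rw [h3, h4, val_mix hc hα hCon hM hR hx hxt Q hQ hu, h5]
  exact Cn_arith _ _ _ _ _

theorem exists_con [IsAlgClosed k] [CharZero k] {c : Dat k} (hc : c.Good) {ζ : k} (hζ : IsPrimitiveRoot ζ c.n) :
    ∃ Con : CH c 3 1 →+ CH (c.over (Lf k)) 1 0,
      ∀ (M : Type) [Field M] [Algebra k M] (R : Fin 2 → Option M) (x : M) (Q : Fin 2 → Option k), FunF k 1 M →
        OnC (c.over M) (R 0) (R 1) → R 0 = some x → Transcendental k x → OnC c (Q 0) (Q 1) → UnR Q →
        Con (BR c R Q - BR c R (tau ζ Q)) = (3 * (dg k x : ℤ)) • (bpt c Q - bpt c (tau ζ Q)) := by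
  obtain ⟨α, hα⟩ := exists_al hc
  obtain ⟨Con, hCon⟩ := exists_op hc hα
  refine ⟨Con, ?_⟩
  intro M _ _ R x Q hM hR hx hxt hQ hu
  have hn : 0 < c.n := lt_of_lt_of_le two_pos hc.two
  have hζ0 : ζ ≠ 0 := hζ.ne_zero hn.ne'
  have hQ' : OnC c ((tau ζ Q) 0) ((tau ζ Q) 1) := Cn_onC hn.ne' hζ.pow_eq_one hQ
  have hu' : UnR (tau ζ Q) := by
    obtain ⟨y, hy, hy0⟩ := hu
    refine ⟨ζ * y, ?_, mul_ne_zero hζ0 hy0⟩
    change (Q 1).map (fun v => ζ * v) = some (ζ * y)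
    rw [hy]
    rfl
  have hsum : ∑ ω ∈ nthRootsFinset c.n (1 : k), bpt c (tau ω (tau ζ Q)) =
      ∑ ω ∈ nthRootsFinset c.n (1 : k), bpt c (tau ω Q) := by
    refine Finset.sum_bij (fun ω _ => ω * ζ) ?_ ?_ ?_ ?_
    · intro ω hω
      rw [mem_nthRootsFinset hn] at hω ⊢
      rw [mul_pow, hω, hζ.pow_eq_one, one_mul]
    · intro ω _ ω' _ h
      exact mul_right_cancel₀ hζ0 h
    · intro ω hω
      rw [mem_nthRootsFinset hn] at hω
      refine ⟨ω * ζ⁻¹, ?_, ?_⟩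
      · rw [mem_nthRootsFinset hn, mul_pow, hω, inv_pow, hζ.pow_eq_one, inv_one, one_mul]
      · rw [mul_assoc, inv_mul_cancel₀ hζ0, mul_one]
    · intro ω _
      rw [Cn_tau_tau]
  rw [map_sub, Cn_val hc hα hCon hM hR hx hxt Q hQ hu, Cn_val hc hα hCon hM hR hx hxt (tau ζ Q) hQ' hu',
    hsum]
  exact Cn_arith2 _ _ _ _ _ _

end Pool.Agent.LibCW77
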