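import Pool.Agent.LibCW77.Defs5
/-!
Definitions for the descent.
-/

open scoped Classical
open Polynomial

namespace Pool.Agent.LibCW77

open Pool.Agent.LibBH2
open Pool.Agent.LibCHd (VR RF Red FunF)
open Pool.Agent.LibHL77 (Lf tt EHom NC HE BE mult)

variable {k : Type} [Field k]

/-- the point `(x, y)`, as a point of `C ^ 1` -/
def gpt {N : Type} (x y : N) : Pnt 1 N := pt1 ![some x, some y]

/-- the value `G(x, y)` of a polynomial in two variables -/
noncomputable def ev2 {M : Type} [Field M] [Algebra k M] (x y : M) : k[X][X] →+* M :=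
  eval₂RingHom (aeval x : k[X] →ₐ[k] M).toRingHom y

/-- the value at the variables `T_1`, `T_2` of a polynomial over `F` -/
noncomputable def evT {F K : Type} [Field F] [Algebra k F] [Field K] [Algebra (Lf k) K]
    (i : EHom k (Lf k) F K) : MvPolynomial (Fin 2) F →+* K :=
  MvPolynomial.eval₂Hom i.f fun e => algebraMap (Lf k) K (tt k e)

end Pool.Agent.LibCW77
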