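import Pool.Agent.LibCW77.DE0
import Pool.Agent.LibCHd.Api
/-!
[CW77 DE1] Values of polynomials in two variables. `ev2_map`: `Polynomial.hom_eval₂`, `aeval_algHom_apply` (or `Polynomial.ringHom_ext`). `red_ev2`: sum over the coefficients, `red_aeval` (LibHL77 or LibHD77; or induction), `Red.add`, `Red.mul`, `Red.pow`.
`genC_quot`: the quotients form a subfield containing `k`, `x`, `y` (see the proof of `LibHL77.B3.B3_quot`), `h.gen`.
-/

open scoped Classical
open Polynomial

namespace Pool.Agent.LibCW77

open Pool.Agent.LibBH2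
open Pool.Agent.LibCHd (VR RF Red FunF)
open Pool.Agent.LibHL77 (Lf tt EHom NC HE BE mult)

variable {k : Type} [Field k]

private theorem DE1_C {M : Type} [Field M] [Algebra k M] (x y : M) (p : k[X]) :
    ev2 x y (C p) = aeval x p := by
  unfold ev2
  rw [coe_eval₂RingHom, eval₂_C]
  rfl

private theorem DE1_X {M : Type} [Field M] [Algebra k M] (x y : M) :
    ev2 x y (X : k[X][X]) = y := by
  unfold ev2
  rw [coe_eval₂RingHom, eval₂_X]

theorem ev2_map {M M' : Type} [Field M] [Algebra k M] [Field M'] [Algebra k M'] (σ : M →ₐ[k] M') (x y : M)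
    (G : k[X][X]) : σ (ev2 x y G) = ev2 (σ x) (σ y) G := by
  have h : (σ : M →+* M').comp (ev2 x y : k[X][X] →+* M) = (ev2 (σ x) (σ y) : k[X][X] →+* M') := by
    apply Polynomial.ringHom_ext
    · intro p
      rw [RingHom.comp_apply, DE1_C, DE1_C]
      exact (aeval_algHom_apply σ x p).symm
    · rw [RingHom.comp_apply, DE1_X, DE1_X]
      rfl
  exact RingHom.congr_fun h G

private theorem DE1_red {N : Type} [Field N] [Algebra k N] {w : Place k N} {x : N} {x₀ : RF w}
    (hx : Red w x x₀) (p : k[X]) : Red w (aeval x p) (aeval x₀ p) := by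
  induction p using Polynomial.induction_on' with
  | add p q hp hq =>
    rw [map_add, map_add]
    exact hp.add hq
  | monomial n a =>
    rw [aeval_monomial, aeval_monomial]
    exact (LibCHd.red_const w a).mul (hx.pow n)

theorem red_ev2 {N : Type} [Field N] [Algebra k N] {w : Place k N} {x y : N} {x₀ y₀ : RF w} (hx : Red w x x₀)
    (hy : Red w y y₀) (G : k[X][X]) : Red w (ev2 x y G) (ev2 x₀ y₀ G) := by
  induction G using Polynomial.induction_on' with
  | add p q hp hq =>
    rw [map_add, map_add]
    exact hp.add hq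
  | monomial n p =>
    rw [← C_mul_X_pow_eq_monomial, map_mul, map_mul, map_pow, map_pow, DE1_C, DE1_C, DE1_X, DE1_X]
    exact (DE1_red hx p).mul (hy.pow n)

theorem genC_quot {c : Dat k} {N : Type} [Field N] [Algebra k N] {x y : N} (h : GenC c x y) (z : N) :
    ∃ G H : k[X][X], ev2 x y H ≠ 0 ∧ z = ev2 x y G / ev2 x y H := by
  let S : Subfield N :=
    { carrier := {z | ∃ G H : k[X][X], ev2 x y H ≠ 0 ∧ z = ev2 x y G / ev2 x y H}
      mul_mem' := by
        rintro _ _ ⟨G, H, hH, rfl⟩ ⟨G', H', hH', rfl⟩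
        refine ⟨G * G', H * H', ?_, ?_⟩
        · rw [map_mul]
          exact mul_ne_zero hH hH'
        · rw [map_mul, map_mul, div_mul_div_comm]
      one_mem' := ⟨1, 1, by rw [map_one]; exact one_ne_zero, by rw [map_one, div_one]⟩
      add_mem' := by
        rintro _ _ ⟨G, H, hH, rfl⟩ ⟨G', H', hH', rfl⟩
        refine ⟨G * H' + H * G', H * H', ?_, ?_⟩
        · rw [map_mul]
          exact mul_ne_zero hH hH'
        · rw [map_add, map_mul, map_mul, map_mul, div_add_div _ _ hH hH']
      zero_mem' := ⟨0, 1, by rw [map_one]; exact one_ne_zero, by rw [map_zero, zero_div]⟩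
      neg_mem' := by
        rintro _ ⟨G, H, hH, rfl⟩
        exact ⟨-G, H, hH, by rw [map_neg, neg_div]⟩
      inv_mem' := by
        rintro _ ⟨G, H, hH, rfl⟩
        by_cases hG : ev2 x y G = 0
        · refine ⟨0, 1, ?_, ?_⟩
          · rw [map_one]
            exact one_ne_zero
          · rw [hG, map_zero, zero_div, inv_zero, zero_div]
        · exact ⟨H, G, hG, by rw [inv_div]⟩ }
  have hone : ev2 x y (1 : k[X][X]) ≠ 0 := by
    rw [map_one]
    exact one_ne_zero
  have hc : ∀ a : k, algebraMap k N a ∈ S := by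
    intro a
    refine ⟨C (C a), 1, hone, ?_⟩
    rw [DE1_C, aeval_C, map_one, div_one]
  have h3 : IntermediateField.adjoin k {x, y} ≤ S.toIntermediateField hc := by
    rw [IntermediateField.adjoin_le_iff]
    rintro u (rfl | rfl)
    · refine ⟨C X, 1, hone, ?_⟩
      rw [DE1_C, aeval_X, map_one, div_one]
    · refine ⟨X, 1, hone, ?_⟩
      rw [DE1_X, map_one, div_one]
  rw [h.gen] at h3
  exact h3 IntermediateField.mem_top

end Pool.Agent.LibCW77
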