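import Pool.Agent.LibCW77.DE9
import Pool.Agent.LibHL77.B3
/-!
[CW77 DE10] A function over `L = k(T_1, T_2)` without zeros and poles at the places trivial on `F` has the divisor of a function in `F`. Plan: `h = evT P / evT Q`, `P`, `Q` relatively prime (`B3_quot`, `UniqueFactorizationMonoid.exists_reduced_factors`). A prime `π ∣ P` divides the image of a nonzero `G ∈ k[T_1, T_2]`: otherwise the place of `prime_place` is trivial on `F` and has
`ord h = ord (evT P) - 0 > 0`. So `P` divides the image of a nonzero `G` (`UniqueFactorizationMonoid.induction_on_prime`), the same for `Q`. Let `lc` be the leading coefficient for a monomial order (`MonomialOrder.lex.leadingCoeff`, multiplicative), it is a coefficient. For `p, w, j` as in the statement: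
`LibHL77.B3_ord`: `w.ord (evT P)` is the minimum of the orders of the coefficients, `≤ p.ord (lc P)`; if `P P' = G` is the image of a polynomial over `k` then `w.ord (evT G) = 0 = p.ord (lc G)`, so `w.ord (evT P) = p.ord (lc P)` (both `≤` are equalities). `f = lc P / lc Q`.
-/

open scoped Classical
open Polynomial

namespace Pool.Agent.LibCW77

open Pool.Agent.LibBH2
open Pool.Agent.LibCHd (VR RF Red FunF)
open Pool.Agent.LibHL77 (Lf tt EHom NC HE BE mult)

variable {k : Type} [Field k]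

private theorem DE10_dvd {F : Type} [Field F] [Algebra k F] (P : MvPolynomial (Fin 2) F) :
    P ≠ 0 → (∀ π, Prime π → π ∣ P → ∃ G : MvPolynomial (Fin 2) k, G ≠ 0 ∧ π ∣ G.map (algebraMap k F)) →
      ∃ G : MvPolynomial (Fin 2) k, G ≠ 0 ∧ P ∣ G.map (algebraMap k F) := by
  refine UniqueFactorizationMonoid.induction_on_prime P ?_ ?_ ?_
  · intro h
    exact absurd rfl h
  · intro x hx _ _
    exact ⟨1, one_ne_zero, hx.dvd⟩
  · intro a p ha hp ih _ h
    obtain ⟨G, hG, hGd⟩ := h p hp (dvd_mul_right p a)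
    obtain ⟨G', hG', hGd'⟩ := ih ha fun π hπ hd => h π hπ (hd.mul_left p)
    exact ⟨G * G', mul_ne_zero hG hG', by rw [map_mul]; exact mul_dvd_mul hGd hGd'⟩

private theorem DE10_ord {F K : Type} [Field F] [Algebra k F] [Field K] [Algebra (Lf k) K]
    {i : EHom k (Lf k) F K} (m : MonomialOrder (Fin 2)) (P : MvPolynomial (Fin 2) F) (hP : P ≠ 0)
    (G : MvPolynomial (Fin 2) k) (hG : G ≠ 0) (hd : P ∣ G.map (algebraMap k F))
    (p : Place k F) (w : Place (Lf k) K) (j : EHom k (Lf k) (RF p) (RF w))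
    (h1 : ∀ z, w.ord (i.f z) = p.ord z) (h2 : ∀ z a, Red p z a → Red w (i.f z) (j.f a))
    (h3 : BE j) : evT i P ≠ 0 ∧ w.ord (evT i P) = p.ord (m.leadingCoeff P) := by
  obtain ⟨P', hP'⟩ := hd
  have hGm : G.map (algebraMap k F) ≠ 0 := by
    intro h0
    exact hG ((MvPolynomial.map_injective (algebraMap k F) (algebraMap k F).injective)
      (by rw [h0, map_zero]))
  have hP'0 : P' ≠ 0 := by
    rintro rfl
    rw [mul_zero] at hP'
    exact hGm hP'
  have key : ∀ R : MvPolynomial (Fin 2) F, R ≠ 0 →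
      evT i R ≠ 0 ∧ w.ord (evT i R) ≤ p.ord (m.leadingCoeff R) := by
    intro R hR
    obtain ⟨h4, n, hn, h5, h6⟩ := LibHL77.B3_ord p w j h1 h2 h3 R hR
    refine ⟨h4, ?_⟩
    have h7 := h5 (m.degree R) (m.degree_mem_support hR)
    exact le_of_eq_of_le h6 h7
  obtain ⟨a1, a2⟩ := key P hP
  obtain ⟨b1, b2⟩ := key P' hP'0
  have h8 : w.ord (evT i P) + w.ord (evT i P') = 0 := by
    rw [← w.ord_mul _ _ a1 b1, ← map_mul, ← hP']
    have h9 : evT i (G.map (algebraMap k F)) =
        algebraMap (Lf k) K (algebraMap (MvPolynomial (Fin 2) k) (Lf k) G) :=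
      (LibHL77.B3_map i G).symm
    rw [h9]
    apply w.ord_const
    intro h0
    exact hG ((IsFractionRing.injective (MvPolynomial (Fin 2) k) (Lf k)) (by rw [h0, map_zero]))
  have h10 : p.ord (m.leadingCoeff P) + p.ord (m.leadingCoeff P') = 0 := by
    rw [← p.ord_mul _ _ (m.leadingCoeff_ne_zero_iff.mpr hP) (m.leadingCoeff_ne_zero_iff.mpr hP'0),
      ← m.leadingCoeff_mul, ← hP']
    have h11 : m.leadingCoeff (G.map (algebraMap k F)) =
        algebraMap k F (G.coeff (m.degree (G.map (algebraMap k F)))) := by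
      unfold MonomialOrder.leadingCoeff
      rw [MvPolynomial.coeff_map]
    rw [h11]
    apply p.ord_const
    intro h0
    have h12 := m.leadingCoeff_ne_zero_iff.mpr hGm
    rw [h11, h0, map_zero] at h12
    exact h12 rfl
  exact ⟨a1, by omega⟩

theorem be_desc {F K : Type} [Field F] [Algebra k F] [Field K] [Algebra (Lf k) K]
    {i : EHom k (Lf k) F K} (hi : BE i) (h : K) (hh : h ≠ 0)
    (H : ∀ w : Place (Lf k) K, (∀ z, w.ord (i.f z) = 0) → w.ord h = 0) :
    ∃ f : F, f ≠ 0 ∧ ∀ (p : Place k F) (w : Place (Lf k) K) (j : EHom k (Lf k) (RF p) (RF w)),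
      (∀ z, w.ord (i.f z) = p.ord z) → (∀ z a, Red p z a → Red w (i.f z) (j.f a)) → BE j →
      w.ord h = p.ord f := by
  obtain ⟨G, Q0, hQ0, hGQ⟩ := LibHL77.B3_quot hi h
  have hG0 : G ≠ 0 := by
    rintro rfl
    apply hh
    rw [hGQ, MvPolynomial.eval₂_zero, zero_div]
  obtain ⟨P, Q, c, hPQ, hcP, hcQ⟩ := UniqueFactorizationMonoid.exists_reduced_factors G hG0 Q0
  have hc : c ≠ 0 := by rintro rfl; rw [zero_mul] at hcP; exact hG0 hcP.symm
  have hP : P ≠ 0 := by rintro rfl; rw [mul_zero] at hcP; exact hG0 hcP.symm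
  have hQ : Q ≠ 0 := by rintro rfl; rw [mul_zero] at hcQ; exact hQ0 hcQ.symm
  have hne : ∀ R : MvPolynomial (Fin 2) F, R ≠ 0 → evT i R ≠ 0 := hi.ind
  have hquot : h = evT i P / evT i Q := by
    have e1 : h = evT i G / evT i Q0 := hGQ
    rw [e1, ← hcP, ← hcQ, map_mul, map_mul, mul_div_mul_left _ _ (hne c hc)]
  have hordh : ∀ w : Place (Lf k) K, w.ord h = w.ord (evT i P) - w.ord (evT i Q) := by
    intro w
    rw [hquot, w.ord_div _ _ (hne P hP) (hne Q hQ)]
  have hpP : ∀ π, Prime π → π ∣ P → ∃ G : MvPolynomial (Fin 2) k, G ≠ 0 ∧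
      π ∣ G.map (algebraMap k F) := by
    intro π hπ hd
    by_contra hcon
    push Not at hcon
    obtain ⟨w, hw, hw2⟩ := prime_place hi π hπ hcon
    have h1 := hw2 P hP
    have h2 := hw2 Q hQ
    have h3 : ¬ π ∣ Q := fun hdQ => hπ.not_isUnit (hPQ hd hdQ)
    have h4 := H w hw
    rw [hordh w, (h2.2.mpr h3)] at h4
    exact h1.2.mp (by omega) hd
  have hpQ : ∀ π, Prime π → π ∣ Q → ∃ G : MvPolynomial (Fin 2) k, G ≠ 0 ∧
      π ∣ G.map (algebraMap k F) := by
    intro π hπ hd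
    by_contra hcon
    push Not at hcon
    obtain ⟨w, hw, hw2⟩ := prime_place hi π hπ hcon
    have h1 := hw2 P hP
    have h2 := hw2 Q hQ
    have h3 : ¬ π ∣ P := fun hdP => hπ.not_isUnit (hPQ hdP hd)
    have h4 := H w hw
    rw [hordh w, (h1.2.mpr h3)] at h4
    exact h2.2.mp (by omega) hd
  obtain ⟨GP, hGP, hdP⟩ := DE10_dvd P hP hpP
  obtain ⟨GQ, hGQ', hdQ⟩ := DE10_dvd Q hQ hpQ
  let m : MonomialOrder (Fin 2) := MonomialOrder.lex
  refine ⟨m.leadingCoeff P / m.leadingCoeff Q, div_ne_zero (m.leadingCoeff_ne_zero_iff.mpr hP)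
    (m.leadingCoeff_ne_zero_iff.mpr hQ), ?_⟩
  intro p w j h1 h2 h3
  obtain ⟨-, hP1⟩ := DE10_ord m P hP GP hGP hdP p w j h1 h2 h3
  obtain ⟨-, hQ1⟩ := DE10_ord m Q hQ GQ hGQ' hdQ p w j h1 h2 h3
  rw [hordh w, hP1, hQ1, p.ord_div _ _ (m.leadingCoeff_ne_zero_iff.mpr hP)
    (m.leadingCoeff_ne_zero_iff.mpr hQ)]

end Pool.Agent.LibCW77
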