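import Pool.Agent.LibCW77.DE0
/-!
[CW77 DE1b] The maximal ideal of the local ring at an affine point `(x₀, y₀)` with `y₀ ≠ 0` is generated by `m(x)`, `m = minpoly k x₀`. Plan: let `D = B Y ^ n - A` in `k[X][Y]`,
`A = ∏ (X - a_i)`, `B = ∏ (X - b_i)`, so `D(x, y) = 0` for every point of the curve. Let `E = k(x₀)` (`IntermediateField.adjoin k {x₀}` or `AdjoinRoot m`), `φ : k[X][Y] → E[Y]` the reduction (`X ↦ x₀`), it is surjective (`E = k[x₀]`, `x₀` algebraic) with kernel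
the multiples of `C m` (coefficientwise, `minpoly.dvd`). Over `E`: `ρ = minpoly E y₀` divides `φ D` and `φ G`; `φ D = ρ μ`, and `y₀` is a simple root of `φ D` (derivative `n B(x₀) y₀ ^ (n-1) ≠ 0`: `B(x₀) ≠ 0`
because otherwise `A(x₀) = 0` too), so `μ(y₀) ≠ 0`. `φ D ∣ μ φ G`, say `μ φ G = q φ D`. Lift `μ`, `q` to `H`, `Q`: `H G - Q D` is in the kernel, `= C m * R`. Evaluate at `(x, y)`; `H(x₀, y₀) = μ(y₀) ≠ 0`.
-/

open scoped Classical
open Polynomial

namespace Pool.Agent.LibCW77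

open Pool.Agent.LibBH2
open Pool.Agent.LibCHd (VR RF Red FunF)
open Pool.Agent.LibHL77 (Lf tt EHom NC HE BE mult)

variable {k : Type} [Field k]

/-- the equation of the curve -/
private noncomputable def DE1b_D (c : Dat k) : k[X][X] :=
  C (∏ i, (X - C (c.b i))) * X ^ c.n - C (∏ i, (X - C (c.a i)))

private theorem DE1b_evC {M : Type} [Field M] [Algebra k M] (x y : M) (p : k[X]) :
    ev2 x y (C p) = aeval x p := by
  unfold ev2
  rw [coe_eval₂RingHom, eval₂_C]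
  rfl

private theorem DE1b_evX {M : Type} [Field M] [Algebra k M] (x y : M) :
    ev2 x y (X : k[X][X]) = y := by
  unfold ev2
  rw [coe_eval₂RingHom, eval₂_X]

private theorem DE1b_aev {M : Type} [Field M] [Algebra k M] (x : M) (a : Fin 3 → k) :
    aeval x (∏ i, (X - C (a i))) = ∏ i, (x - algebraMap k M (a i)) := by
  rw [map_prod]
  refine Finset.prod_congr rfl fun i _ => ?_
  rw [map_sub, aeval_X, aeval_C]

private theorem DE1b_evD {N : Type} [Field N] [Algebra k N] (c : Dat k) (x y : N)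
    (h : OnC (c.over N) (some x) (some y)) : ev2 x y (DE1b_D c) = 0 := by
  unfold DE1b_D
  rw [map_sub, map_mul, map_pow, DE1b_evC, DE1b_evC, DE1b_evX, DE1b_aev, DE1b_aev]
  have h1 : y ^ c.n * ∏ i, (x - algebraMap k N (c.b i)) = ∏ i, (x - algebraMap k N (c.a i)) := h
  rw [← h1]
  ring

private theorem DE1b_B {M : Type} [Field M] [Algebra k M] {c : Dat k} (hc : c.Good) (x y : M)
    (h : OnC (c.over M) (some x) (some y)) : ∏ i, (x - algebraMap k M (c.b i)) ≠ 0 := by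
  intro h0
  have h1 : y ^ c.n * ∏ i, (x - algebraMap k M (c.b i)) = ∏ i, (x - algebraMap k M (c.a i)) := h
  have h2 : ∏ i, (x - algebraMap k M (c.a i)) = 0 := by rw [← h1, h0, mul_zero]
  rw [Finset.prod_eq_zero_iff] at h0 h2
  obtain ⟨i, -, hi⟩ := h0
  obtain ⟨j, -, hj⟩ := h2
  have h3 : algebraMap k M (c.a j) = algebraMap k M (c.b i) := by
    rw [← sub_eq_zero.mp hi, ← sub_eq_zero.mp hj]
  have h4 := (algebraMap k M).injective h3
  have h5 : (Sum.inl j : Fin 3 ⊕ Fin 3) = Sum.inr i := hc.inj h4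
  exact absurd h5 (by simp)

theorem loc_dvd [CharZero k] {c : Dat k} (hc : c.Good) {M : Type} [Field M] [Algebra k M] (x₀ y₀ : M)
    (hx : IsAlgebraic k x₀) (hy : y₀ ≠ 0) (hon : OnC (c.over M) (some x₀) (some y₀)) (G : k[X][X])
    (hG : ev2 x₀ y₀ G = 0) :
    ∃ H R : k[X][X], ev2 x₀ y₀ H ≠ 0 ∧ ∀ (N : Type) [Field N] [Algebra k N] (x y : N),
      OnC (c.over N) (some x) (some y) → ev2 x y H * ev2 x y G = aeval x (minpoly k x₀) * ev2 x y R := by
  have : CharZero M := charZero_of_injective_algebraMap (algebraMap k M).injective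
  have hint : IsIntegral k x₀ := hx.isIntegral
  obtain ⟨m, hm⟩ : ∃ m, m = minpoly k x₀ := ⟨_, rfl⟩
  have hirr : Irreducible m := by
    rw [hm]
    exact minpoly.irreducible hint
  have : Fact (Irreducible m) := ⟨hirr⟩
  obtain ⟨ι, hι⟩ : ∃ ι : AdjoinRoot m →+* M,
      ι.comp (AdjoinRoot.mk m) = (aeval x₀ : k[X] →ₐ[k] M).toRingHom := by
    refine ⟨AdjoinRoot.lift (algebraMap k M) x₀ ?_, ?_⟩
    · rw [← aeval_def, hm]
      exact minpoly.aeval k x₀
    · refine RingHom.ext fun P => ?_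
      rw [RingHom.comp_apply, AdjoinRoot.lift_mk]
      rfl
  have hev : ∀ P : k[X][X], ev2 x₀ y₀ P = eval₂ ι y₀ (P.map (AdjoinRoot.mk m)) := by
    intro P
    rw [eval₂_map, hι]
    rfl
  obtain ⟨φD, hφD⟩ : ∃ φD : (AdjoinRoot m)[X], φD = (DE1b_D c).map (AdjoinRoot.mk m) := ⟨_, rfl⟩
  obtain ⟨φG, hφG⟩ : ∃ φG : (AdjoinRoot m)[X], φG = G.map (AdjoinRoot.mk m) := ⟨_, rfl⟩
  have hD0 : eval₂ ι y₀ φD = 0 := by
    rw [hφD, ← hev]
    exact DE1b_evD c x₀ y₀ hon
  have hG0 : eval₂ ι y₀ φG = 0 := by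
    rw [hφG, ← hev]
    exact hG
  -- the derivative
  have hder : eval₂ ι y₀ (derivative φD) ≠ 0 := by
    have h1 : derivative φD = (derivative (DE1b_D c)).map (AdjoinRoot.mk m) := by
      rw [hφD, derivative_map]
    rw [h1, ← hev]
    have h2 : derivative (DE1b_D c) =
        C (∏ i, (X - C (c.b i))) * (C (c.n : k[X]) * X ^ (c.n - 1)) := by
      unfold DE1b_D
      rw [derivative_sub, derivative_C, sub_zero, derivative_C_mul, derivative_X_pow]
    rw [h2, map_mul, map_mul, map_pow, DE1b_evC, DE1b_evC, DE1b_evX, DE1b_aev]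
    have h3 := DE1b_B hc x₀ y₀ hon
    have h4 : (aeval x₀ (c.n : k[X]) : M) ≠ 0 := by
      rw [map_natCast]
      have := hc.two
      exact Nat.cast_ne_zero.mpr (by omega)
    exact mul_ne_zero h3 (mul_ne_zero h4 (pow_ne_zero _ hy))
  obtain ⟨g, hg⟩ : ∃ g, g = EuclideanDomain.gcd φD φG := ⟨_, rfl⟩
  have hg0 : eval₂ ι y₀ g = 0 := by
    rw [hg, EuclideanDomain.gcd_eq_gcd_ab φD φG, eval₂_add, eval₂_mul, eval₂_mul, hD0, hG0]
    ring
  obtain ⟨μ, hμ⟩ : g ∣ φD := by rw [hg]; exact EuclideanDomain.gcd_dvd_left _ _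
  obtain ⟨q, hq⟩ : g ∣ φG := by rw [hg]; exact EuclideanDomain.gcd_dvd_right _ _
  have hμ0 : eval₂ ι y₀ μ ≠ 0 := by
    intro h0
    apply hder
    rw [hμ, derivative_mul, eval₂_add, eval₂_mul, eval₂_mul, hg0, h0]
    ring
  have hsurj : Function.Surjective (Polynomial.map (AdjoinRoot.mk m)) :=
    Polynomial.map_surjective _ AdjoinRoot.mk_surjective
  obtain ⟨H, hH⟩ := hsurj μ
  obtain ⟨Q, hQ⟩ := hsurj q
  have hker : (H * G - Q * DE1b_D c).map (AdjoinRoot.mk m) = 0 := by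
    rw [Polynomial.map_sub, Polynomial.map_mul, Polynomial.map_mul, hH, hQ, ← hφD, ← hφG, hμ, hq]
    ring
  obtain ⟨R, hR⟩ : C m ∣ H * G - Q * DE1b_D c := by
    rw [C_dvd_iff_dvd_coeff]
    intro i
    rw [← AdjoinRoot.mk_eq_zero]
    have h1 := congrArg (fun P => P.coeff i) hker
    simp only [coeff_map, coeff_zero] at h1
    exact h1
  refine ⟨H, R, ?_, ?_⟩
  · rw [hev, hH]
    exact hμ0
  · intro N _ _ x y hxy
    have h1 := congrArg (ev2 x y) hR
    rw [map_sub, map_mul, map_mul, map_mul, DE1b_evD c x y hxy, DE1b_evC, mul_zero, sub_zero] at h1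
    rw [h1, hm]

end Pool.Agent.LibCW77
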