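import Pool.Agent.LibCW77.DE1
import Pool.Agent.LibCW77.DE1b
import Pool.Agent.LibCW77.C1
import Pool.Agent.LibHL77.Z1
/-!
[CW77 DE2] Functions at an affine point with `y₀ ≠ 0`. `x₀` is algebraic over `k` (`LibHL77.res_finite` with `genC_funF`, `LibHL77.funF_zero`). `(x₀, y₀)` is a point of the curve (reduce the equation, or `on_sp` of D1). It suffices to treat `z = ev2 x y G ≠ 0`
(`genC_quot`): `ev2 x y G = m(x) ^ r ev2 x y G' / ev2 x y H'`, by strong induction on `(w.ord (ev2 x y G)).toNat` (the order is `≥ 0`: `red_ev2`): if `ev2 x₀ y₀ G ≠ 0` take `r = 0`; otherwise `loc_dvd`: `ev2 x y G = m(x) ev2 x y R / ev2 x y H`, and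
`w.ord (ev2 x y R) < w.ord (ev2 x y G)` because `w.ord m(x) > 0` (its residue is `m(x₀) = 0`; `m(x) ≠ 0`, `x` is transcendental) and `w.ord (ev2 x y H) = 0`.
-/

open scoped Classical
open Polynomial

namespace Pool.Agent.LibCW77

open Pool.Agent.LibBH2
open Pool.Agent.LibCHd (VR RF Red FunF)
open Pool.Agent.LibHL77 (Lf tt EHom NC HE BE mult)

variable {k : Type} [Field k]

private theorem DE2_C {M : Type} [Field M] [Algebra k M] (x y : M) (m : k[X]) :
    ev2 x y (C m) = aeval x m := by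
  unfold ev2
  rw [coe_eval₂RingHom, eval₂_C]
  rfl

private theorem DE2_on {c : Dat k} (hc : c.Good) {N : Type} [Field N] [Algebra k N] {x y : N}
    (h : GenC c x y) {w : Place k N} {x₀ y₀ : RF w} (hx : Red w x x₀) (hy : Red w y y₀) :
    OnC (c.over (RF w)) (some x₀) (some y₀) := by
  have hon : On (c.over N) (fun _ => ![some x, some y] : Pnt 1 N) := fun _ => h.on
  have hsp : SpP w (fun _ => ![some x, some y] : Pnt 1 N)
      (fun _ => ![some x₀, some y₀] : Pnt 1 (RF w)) := by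
    intro j i
    fin_cases i
    · exact hx
    · exact hy
  exact on_sp hc hon hsp 0

private theorem DE2_step [CharZero k] {c : Dat k} (hc : c.Good) {N : Type} [Field N] [Algebra k N]
    {x y : N} (h : GenC c x y) (w : Place k N) (x₀ y₀ : RF w) (hx : Red w x x₀) (hy : Red w y y₀)
    (hy0 : y₀ ≠ 0) (hal : IsAlgebraic k x₀) (hm0 : aeval x (minpoly k x₀) ≠ 0)
    (hm : 0 < w.ord (aeval x (minpoly k x₀))) (n : ℕ) :
    ∀ G : k[X][X], ev2 x y G ≠ 0 → w.ord (ev2 x y G) < n → ∃ (r : ℕ) (G' H' : k[X][X]),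
      ev2 x₀ y₀ G' ≠ 0 ∧ ev2 x₀ y₀ H' ≠ 0 ∧
        ev2 x y G = aeval x (minpoly k x₀) ^ r * (ev2 x y G' / ev2 x y H') := by
  induction n with
  | zero =>
    intro G hG hlt
    rcases (red_ev2 hx hy G).reg with h1 | h1
    · exact absurd h1 hG
    · exfalso
      have h2 : w.ord (ev2 x y G) < 0 := by exact_mod_cast hlt
      omega
  | succ n ih =>
    intro G hG hlt
    by_cases hG0 : ev2 x₀ y₀ G = 0
    · obtain ⟨H, R, hH, hHR⟩ := loc_dvd hc x₀ y₀ hal hy0 (DE2_on hc h hx hy) G hG0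
      have h1 := hHR N x y h.on
      have hHn : ev2 x y H ≠ 0 := (red_ev2 hx hy H).ne_zero hH
      have hHo : w.ord (ev2 x y H) = 0 := (red_ev2 hx hy H).ord_eq_zero hH
      have hR0 : ev2 x y R ≠ 0 := by
        intro h2
        rw [h2, mul_zero] at h1
        exact (mul_ne_zero hHn hG) h1
      have h3 : w.ord (ev2 x y G) = w.ord (aeval x (minpoly k x₀)) + w.ord (ev2 x y R) := by
        have h4 := congrArg w.ord h1
        rw [w.ord_mul _ _ hHn hG, w.ord_mul _ _ hm0 hR0, hHo, zero_add] at h4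
        exact h4
      have h5 : w.ord (ev2 x y R) < n := by
        push_cast at hlt
        omega
      obtain ⟨r, G', H', hG', hH', he⟩ := ih R hR0 h5
      refine ⟨r + 1, G', H' * H, hG', ?_, ?_⟩
      · rw [map_mul]
        exact mul_ne_zero hH' hH
      · have hHn' : ev2 x y H' ≠ 0 := (red_ev2 hx hy H').ne_zero hH'
        have h6 : ev2 x y G = aeval x (minpoly k x₀) * ev2 x y R / ev2 x y H := by
          rw [eq_div_iff hHn, mul_comm]
          exact h1
        rw [h6, he, map_mul, pow_succ]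
        field_simp
    · refine ⟨0, G, 1, hG0, ?_, ?_⟩
      · rw [map_one]
        exact one_ne_zero
      · rw [pow_zero, one_mul, map_one, div_one]

theorem loc_form [CharZero k] {c : Dat k} (hc : c.Good) {N : Type} [Field N] [Algebra k N] {x y : N}
    (h : GenC c x y) (w : Place k N) (x₀ y₀ : RF w) (hx : Red w x x₀) (hy : Red w y y₀) (hy0 : y₀ ≠ 0) :
    0 < w.ord (aeval x (minpoly k x₀)) ∧ ∀ z : N, z ≠ 0 → ∃ (r : ℤ) (G H : k[X][X]), ev2 x₀ y₀ G ≠ 0 ∧
      ev2 x₀ y₀ H ≠ 0 ∧ z = aeval x (minpoly k x₀) ^ r * (ev2 x y G / ev2 x y H) := by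
  have hfd : FiniteDimensional k (RF w) :=
    LibHL77.funF_zero.1 (LibHL77.res_finite (genC_funF hc h).1 w)
  have hal : IsAlgebraic k x₀ := Algebra.IsAlgebraic.isAlgebraic x₀
  have hint : IsIntegral k x₀ := hal.isIntegral
  have hm0 : aeval x (minpoly k x₀) ≠ 0 := by
    intro h1
    exact h.tr ⟨minpoly k x₀, minpoly.ne_zero hint, h1⟩
  have hm : 0 < w.ord (aeval x (minpoly k x₀)) := by
    have h1 := red_ev2 hx hy (C (minpoly k x₀))
    rw [DE2_C, DE2_C, minpoly.aeval, LibCHd.red_zero_iff] at h1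
    exact h1.resolve_left hm0
  refine ⟨hm, ?_⟩
  have key : ∀ G : k[X][X], ev2 x y G ≠ 0 → ∃ (r : ℕ) (G' H' : k[X][X]),
      ev2 x₀ y₀ G' ≠ 0 ∧ ev2 x₀ y₀ H' ≠ 0 ∧
        ev2 x y G = aeval x (minpoly k x₀) ^ r * (ev2 x y G' / ev2 x y H') := by
    intro G hG
    exact DE2_step hc h w x₀ y₀ hx hy hy0 hal hm0 hm ((w.ord (ev2 x y G)).toNat + 1) G hG
      (by push_cast; have := Int.self_le_toNat (w.ord (ev2 x y G)); omega)
  intro z hz
  obtain ⟨G, H, hH, hzq⟩ := genC_quot h z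
  have hG : ev2 x y G ≠ 0 := by
    intro h1
    rw [h1, zero_div] at hzq
    exact hz hzq
  obtain ⟨r₁, G₁, H₁, hG₁, hH₁, he₁⟩ := key G hG
  obtain ⟨r₂, G₂, H₂, hG₂, hH₂, he₂⟩ := key H hH
  refine ⟨(r₁ : ℤ) - r₂, G₁ * H₂, H₁ * G₂, ?_, ?_, ?_⟩
  · rw [map_mul]
    exact mul_ne_zero hG₁ hH₂
  · rw [map_mul]
    exact mul_ne_zero hH₁ hG₂
  · have a1 : ev2 x y G₁ ≠ 0 := (red_ev2 hx hy G₁).ne_zero hG₁
    have a2 : ev2 x y H₁ ≠ 0 := (red_ev2 hx hy H₁).ne_zero hH₁
    have a3 : ev2 x y G₂ ≠ 0 := (red_ev2 hx hy G₂).ne_zero hG₂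
    have a4 : ev2 x y H₂ ≠ 0 := (red_ev2 hx hy H₂).ne_zero hH₂
    rw [hzq, he₁, he₂, map_mul, map_mul, zpow_sub₀ hm0, zpow_natCast, zpow_natCast]
    field_simp

end Pool.Agent.LibCW77
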