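import Pool.Agent.LibCW77.DE2
/-!
[CW77 DE2b] Places at affine points with `y₀ ≠ 0`. By `loc_form` all orders are multiples of `w.ord m(x)` (`red_ev2`: `w.ord (ev2 x y G) = 0` if `ev2 x₀ y₀ G ≠ 0`), so it is `1`
(`exists_uniformizer`). For `w'`: `m(x₀') = 0` (apply the hypothesis to `G = C m`) so `w'.ord m(x) > 0`; `G`, `H` do not vanish at `(x₀', y₀')`, so `w'.ord z = r w'.ord m(x)`, again `w'.ord m(x) = 1`, `Place.ext'`. Residue field:
`LibCHd.exists_rep`; for a residue `≠ 0` the representative has order `0`, so `r = 0` and the residue is `ev2 x₀ y₀ G / ev2 x₀ y₀ H`.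
-/

open scoped Classical
open Polynomial

namespace Pool.Agent.LibCW77

open Pool.Agent.LibBH2
open Pool.Agent.LibCHd (VR RF Red FunF)
open Pool.Agent.LibHL77 (Lf tt EHom NC HE BE mult)

variable {k : Type} [Field k]

private theorem DE2b_mem {M : Type} [Field M] [Algebra k M] (x₀ y₀ : M) (G : k[X][X]) :
    ev2 x₀ y₀ G ∈ IntermediateField.adjoin k {x₀, y₀} := by
  have hx : x₀ ∈ IntermediateField.adjoin k {x₀, y₀} :=
    IntermediateField.subset_adjoin k _ (by simp)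
  have hy : y₀ ∈ IntermediateField.adjoin k {x₀, y₀} :=
    IntermediateField.subset_adjoin k _ (by simp)
  have h1 := ev2_map (IntermediateField.adjoin k {x₀, y₀}).val ⟨x₀, hx⟩ ⟨y₀, hy⟩ G
  have h2 : ev2 x₀ y₀ G = (IntermediateField.adjoin k {x₀, y₀}).val (ev2 ⟨x₀, hx⟩ ⟨y₀, hy⟩ G) := h1.symm
  rw [h2]
  exact (ev2 (⟨x₀, hx⟩ : IntermediateField.adjoin k {x₀, y₀}) ⟨y₀, hy⟩ G).2

private theorem DE2b_ord {N : Type} [Field N] [Algebra k N] {x y : N} (w : Place k N) (x₀ y₀ : RF w)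
    (hx : Red w x x₀) (hy : Red w y y₀) (m : N) (hm0 : m ≠ 0) (r : ℤ) (G H : k[X][X])
    (hG : ev2 x₀ y₀ G ≠ 0) (hH : ev2 x₀ y₀ H ≠ 0) :
    w.ord (m ^ r * (ev2 x y G / ev2 x y H)) = r * w.ord m := by
  have h1 := red_ev2 hx hy G
  have h2 := red_ev2 hx hy H
  have hG0 := h1.ne_zero hG
  have hH0 := h2.ne_zero hH
  rw [w.ord_mul _ _ (zpow_ne_zero _ hm0) (div_ne_zero hG0 hH0), Place.ord_zpow,
    Place.ord_div w _ _ hG0 hH0, h1.ord_eq_zero hG, h2.ord_eq_zero hH]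
  ring

private theorem DE2b_one {a r : ℤ} (ha : 0 < a) (h : r * a = 1) : a = 1 := by
  rcases Int.mul_eq_one_iff_eq_one_or_neg_one.1 h with h1 | h1 <;> omega

theorem loc_place [CharZero k] {c : Dat k} (hc : c.Good) {N : Type} [Field N] [Algebra k N] {x y : N}
    (h : GenC c x y) (w : Place k N) (x₀ y₀ : RF w) (hx : Red w x x₀) (hy : Red w y y₀) (hy0 : y₀ ≠ 0) :
    (∀ (w' : Place k N) (x₀' y₀' : RF w'), Red w' x x₀' → Red w' y y₀' →
      (∀ G : k[X][X], ev2 x₀ y₀ G = 0 ↔ ev2 x₀' y₀' G = 0) → w' = w) ∧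
      IntermediateField.adjoin k {x₀, y₀} = ⊤ := by
  obtain ⟨hm, hform⟩ := loc_form hc h w x₀ y₀ hx hy hy0
  set m : N := aeval x (minpoly k x₀) with hmdef
  have hm0 : m ≠ 0 := by
    intro h0
    rw [h0, w.ord_zero] at hm
    exact lt_irrefl _ hm
  have hw1 : w.ord m = 1 := by
    obtain ⟨t, ht⟩ := w.exists_uniformizer
    have ht0 : t ≠ 0 := by
      rintro rfl
      rw [w.ord_zero] at ht
      omega
    obtain ⟨r, G, H, hG, hH, hz⟩ := hform t ht0
    rw [hz, DE2b_ord w x₀ y₀ hx hy m hm0 r G H hG hH] at ht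
    exact DE2b_one hm ht
  constructor
  · intro w' x₀' y₀' hx' hy' hiff
    have hm' : 0 < w'.ord m := by
      have h1 : ev2 x₀ y₀ (C (minpoly k x₀)) = 0 := by
        simp [ev2]
      have h2 := (hiff _).1 h1
      have h3 := red_ev2 hx' hy' (C (minpoly k x₀))
      rw [h2, LibCHd.red_zero_iff] at h3
      have h4 : ev2 x y (C (minpoly k x₀)) = m := by
        simp [ev2, hmdef]
      rw [h4] at h3
      exact h3.resolve_left hm0
    have hw1' : w'.ord m = 1 := by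
      obtain ⟨t, ht⟩ := w'.exists_uniformizer
      have ht0 : t ≠ 0 := by
        rintro rfl
        rw [w'.ord_zero] at ht
        omega
      obtain ⟨r, G, H, hG, hH, hz⟩ := hform t ht0
      rw [hz, DE2b_ord w' x₀' y₀' hx' hy' m hm0 r G H (fun h0 => hG ((hiff G).2 h0))
        (fun h0 => hH ((hiff H).2 h0))] at ht
      exact DE2b_one hm' ht
    apply Place.ext'
    intro z
    by_cases hz0 : z = 0
    · rw [hz0, w.ord_zero, w'.ord_zero]
    obtain ⟨r, G, H, hG, hH, hz⟩ := hform z hz0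
    rw [hz, DE2b_ord w' x₀' y₀' hx' hy' m hm0 r G H (fun h0 => hG ((hiff G).2 h0))
        (fun h0 => hH ((hiff H).2 h0)), DE2b_ord w x₀ y₀ hx hy m hm0 r G H hG hH, hw1, hw1']
  · rw [eq_top_iff]
    intro c _
    by_cases hc0 : c = 0
    · rw [hc0]
      exact zero_mem _
    obtain ⟨f, hf⟩ := LibCHd.exists_rep c
    have hf0 := hf.ne_zero hc0
    obtain ⟨r, G, H, hG, hH, hz⟩ := hform f hf0
    have h1 := hf.ord_eq_zero hc0
    rw [hz, DE2b_ord w x₀ y₀ hx hy m hm0 r G H hG hH, hw1, mul_one] at h1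
    rw [h1, zpow_zero, one_mul] at hz
    have h2 : Red w f (ev2 x₀ y₀ G / ev2 x₀ y₀ H) := by
      rw [hz]
      exact (red_ev2 hx hy G).div (red_ev2 hx hy H) hH
    rw [hf.unique h2]
    exact div_mem (DE2b_mem x₀ y₀ G) (DE2b_mem x₀ y₀ H)

end Pool.Agent.LibCW77
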