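import Pool.Agent.LibCW77.DE0
/-!
[CW77 DE3a] Equations of points. `eqs_rat`: compare the sets of the coordinates at infinity, and the polynomials `X_q - a`. `eqs_ev2`: no coordinate is at infinity; `G ∈ k[X][X]` gives a polynomial in
`MvPolynomial (Fin 1 × Fin 2) k` with the same value (`ev2 (X (0, 0)) (X (0, 1))` with values in a ring: use `eval₂` of `aeval`; the values agree by `Polynomial.hom_eval₂` or `ringHom_ext`), and a polynomial in `MvPolynomial (Fin 1 × Fin 2) k` gives
`MvPolynomial.aeval (fun q => if q.2 = 0 then C X else X)` in `k[X][X]` with the same value (`MvPolynomial.ringHom_ext` / `algHom_ext`; `Fin 1`: `Subsingleton`).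
-/

open scoped Classical
open Polynomial

namespace Pool.Agent.LibCW77

open Pool.Agent.LibBH2
open Pool.Agent.LibCHd (VR RF Red FunF)
open Pool.Agent.LibHL77 (Lf tt EHom NC HE BE mult)

variable {k : Type} [Field k]

theorem eqs_rat {M M' : Type} [Field M] [Algebra k M] [Field M'] [Algebra k M'] (q : Pnt 1 M)
    (Q : Fin 2 → Option k) (h : eqs k q = eqs k (pt1 (ctp M' Q))) : q = pt1 (ctp M Q) := by
  have h1 : {p : Fin 1 × Fin 2 | q p.1 p.2 = none} = {p : Fin 1 × Fin 2 | pt1 (ctp M' Q) p.1 p.2 = none} :=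
    congrArg Prod.fst h
  have h2 : {G : MvPolynomial (Fin 1 × Fin 2) k | MvPolynomial.aeval (co q) G = 0} =
      {G : MvPolynomial (Fin 1 × Fin 2) k | MvPolynomial.aeval (co (pt1 (ctp M' Q))) G = 0} :=
    congrArg Prod.snd h
  funext j i
  have hj1 : (q j i = none) ↔ (pt1 (ctp M' Q) j i = none) := Set.ext_iff.1 h1 (j, i)
  rcases hQ : Q i with _ | a
  · have h3 : pt1 (ctp M' Q) j i = none := by simp [pt1, ctp, hQ]
    have h4 : pt1 (ctp M Q) j i = none := by simp [pt1, ctp, hQ]
    rw [h4]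
    exact hj1.2 h3
  · have h3 : pt1 (ctp M' Q) j i = some (algebraMap k M' a) := by simp [pt1, ctp, hQ]
    have h4 : pt1 (ctp M Q) j i = some (algebraMap k M a) := by simp [pt1, ctp, hQ]
    have h5 : q j i ≠ none := by
      intro h6
      have h7 := hj1.1 h6
      rw [h3] at h7
      exact Option.some_ne_none _ h7
    obtain ⟨x, hx⟩ := Option.ne_none_iff_exists'.1 h5
    have h8 : (MvPolynomial.X (j, i) - MvPolynomial.C a : MvPolynomial (Fin 1 × Fin 2) k) ∈
        {G : MvPolynomial (Fin 1 × Fin 2) k | MvPolynomial.aeval (co q) G = 0} := by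
      rw [h2]
      change MvPolynomial.aeval (co (pt1 (ctp M' Q))) _ = 0
      simp [co, h3]
    have h9 : MvPolynomial.aeval (co q)
        (MvPolynomial.X (j, i) - MvPolynomial.C a : MvPolynomial (Fin 1 × Fin 2) k) = 0 := h8
    simp only [map_sub, MvPolynomial.aeval_X, MvPolynomial.algHom_C, co, hx, Option.getD_some] at h9
    rw [h4, hx, sub_eq_zero.1 h9]

private noncomputable def DE3a_phi (k : Type) [Field k] : MvPolynomial (Fin 1 × Fin 2) k →ₐ[k] k[X][X] :=
  MvPolynomial.aeval (fun q : Fin 1 × Fin 2 => if q.2 = 0 then (C X : k[X][X]) else X)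

private noncomputable def DE3a_psi (k : Type) [Field k] : k[X][X] →+* MvPolynomial (Fin 1 × Fin 2) k :=
  eval₂RingHom (aeval (MvPolynomial.X (0, 0)) : k[X] →ₐ[k] MvPolynomial (Fin 1 × Fin 2) k).toRingHom
    (MvPolynomial.X (0, 1))

private theorem DE3a_phi_val {M : Type} [Field M] [Algebra k M] (x y : M) (G : MvPolynomial (Fin 1 × Fin 2) k) :
    ev2 x y (DE3a_phi k G) = MvPolynomial.aeval (co (gpt x y)) G := by
  have h : (ev2 x y).comp (DE3a_phi k).toRingHom =
      (MvPolynomial.aeval (co (gpt x y)) : MvPolynomial (Fin 1 × Fin 2) k →ₐ[k] M).toRingHom := by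
    apply MvPolynomial.ringHom_ext
    · intro a
      simp [DE3a_phi, ev2, Polynomial.algebraMap_apply]
    · rintro ⟨j, i⟩
      fin_cases i
      · simp [DE3a_phi, ev2, co, gpt, pt1]
      · simp [DE3a_phi, ev2, co, gpt, pt1]
  exact RingHom.congr_fun h G

private theorem DE3a_psi_val {M : Type} [Field M] [Algebra k M] (x y : M) (G : k[X][X]) :
    MvPolynomial.aeval (co (gpt x y)) (DE3a_psi k G) = ev2 x y G := by
  have h : (MvPolynomial.aeval (co (gpt x y)) : MvPolynomial (Fin 1 × Fin 2) k →ₐ[k] M).toRingHom.comp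
      (DE3a_psi k) = ev2 x y := by
    apply Polynomial.ringHom_ext'
    · apply Polynomial.ringHom_ext'
      · ext a
        simp [DE3a_psi, ev2]
      · simp [DE3a_psi, ev2, co, gpt, pt1]
    · simp [DE3a_psi, ev2, co, gpt, pt1]
  exact RingHom.congr_fun h G

theorem eqs_ev2 {M M' : Type} [Field M] [Algebra k M] [Field M'] [Algebra k M'] (x y : M) (x' y' : M') :
    eqs k (gpt x y) = eqs k (gpt x' y') ↔ ∀ G : k[X][X], ev2 x y G = 0 ↔ ev2 x' y' G = 0 := by
  constructor
  · intro h G
    have h2 : {G : MvPolynomial (Fin 1 × Fin 2) k | MvPolynomial.aeval (co (gpt x y)) G = 0} =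
        {G : MvPolynomial (Fin 1 × Fin 2) k | MvPolynomial.aeval (co (gpt x' y')) G = 0} :=
      congrArg Prod.snd h
    have h3 : (MvPolynomial.aeval (co (gpt x y)) (DE3a_psi k G) = 0) ↔
        (MvPolynomial.aeval (co (gpt x' y')) (DE3a_psi k G) = 0) := Set.ext_iff.1 h2 (DE3a_psi k G)
    rwa [DE3a_psi_val, DE3a_psi_val] at h3
  · intro h
    apply Prod.ext
    · change {p : Fin 1 × Fin 2 | gpt x y p.1 p.2 = none} = {p : Fin 1 × Fin 2 | gpt x' y' p.1 p.2 = none}
      ext ⟨j, i⟩
      fin_cases i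
      · simp [gpt, pt1]
      · simp [gpt, pt1]
    · change {G : MvPolynomial (Fin 1 × Fin 2) k | MvPolynomial.aeval (co (gpt x y)) G = 0} =
        {G : MvPolynomial (Fin 1 × Fin 2) k | MvPolynomial.aeval (co (gpt x' y')) G = 0}
      ext G
      change (MvPolynomial.aeval (co (gpt x y)) G = 0) ↔ (MvPolynomial.aeval (co (gpt x' y')) G = 0)
      rw [← DE3a_phi_val, ← DE3a_phi_val]
      exact h _

end Pool.Agent.LibCW77
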