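import Pool.Agent.LibCW77.DE0
import Pool.Agent.LibCW77.D1
import Pool.Agent.LibCW77.C1
/-!
[CW77 DE3b] The centre of a place. `q` is a point of the curve over `RF w` (`on_sp`, `h.on`); if `q 0 0 = none` then `q 0 1 = some y₀` with `y₀ ^ n = 1`, `y₀` is the image of a power of `ζ` (`IsPrimitiveRoot.eq_pow_of_pow_eq_one` for `hζ.map_of_injective`); if `y₀ = 0` then `∏ (x₀ - a_i) = 0`, `x₀ = a_i`,
if `q 0 1 = none` then `x₀ = b_i`. Otherwise both are finite and `y₀ ≠ 0`; `SpO` is `Red`.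
-/

open scoped Classical
open Polynomial

namespace Pool.Agent.LibCW77

open Pool.Agent.LibBH2
open Pool.Agent.LibCHd (VR RF Red FunF)
open Pool.Agent.LibHL77 (Lf tt EHom NC HE BE mult)

variable {k : Type} [Field k]

private theorem DE3b_ext {M : Type} [Field M] [Algebra k M] {q : Pnt 1 M} {P R : Option k}
    (h0 : q 0 0 = P.map (algebraMap k M)) (h1 : q 0 1 = R.map (algebraMap k M)) :
    q = pt1 (ctp M ![P, R]) := by
  funext j i
  have hj : j = 0 := Subsingleton.elim _ _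
  subst hj
  fin_cases i
  · exact h0
  · exact h1

theorem sp_cases {c : Dat k} (hc : c.Good) {ζ : k} (hζ : IsPrimitiveRoot ζ c.n) {N : Type} [Field N]
    [Algebra k N] {x y : N} (h : GenC c x y) (w : Place k N) (q : Pnt 1 (RF w)) (hq : SpP w (gpt x y) q) :
    (∃ Q : Fin 2 → Option k, OnC c (Q 0) (Q 1) ∧ q = pt1 (ctp (RF w) Q)) ∨
      ∃ x₀ y₀ : RF w, Red w x x₀ ∧ Red w y y₀ ∧ y₀ ≠ 0 ∧ q = gpt x₀ y₀ := by
  have hn2 := hc.two
  have hn : c.n ≠ 0 := by omega
  have : NeZero c.n := ⟨hn⟩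
  have hon : On (c.over N) (gpt x y) := fun _ => h.on
  have h1 := on_sp hc hon hq 0
  have h2 : SpO w (some x) (q 0 0) := hq 0 0
  have h3 : SpO w (some y) (q 0 1) := hq 0 1
  generalize hP : q 0 0 = P at h1 h2
  generalize hR : q 0 1 = R at h1 h3
  rcases P with _ | x₀ <;> rcases R with _ | y₀
  · exact h1.elim
  · left
    have h4 : y₀ ^ c.n = 1 := h1
    obtain ⟨j, -, hj⟩ := (hζ.map_of_injective (algebraMap k (RF w)).injective).eq_pow_of_pow_eq_one h4
    refine ⟨![none, some (ζ ^ j)], ?_, DE3b_ext hP ?_⟩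
    · show (ζ ^ j) ^ c.n = 1
      rw [← pow_mul, mul_comm, pow_mul, hζ.pow_eq_one, one_pow]
    · rw [hR, Option.map_some, map_pow, hj]
  · left
    obtain ⟨i, hi⟩ : ∃ i, x₀ = algebraMap k (RF w) (c.b i) := h1
    refine ⟨![some (c.b i), none], ⟨i, rfl⟩, DE3b_ext ?_ hR⟩
    rw [hP, Option.map_some, hi]
  · have h4 : y₀ ^ c.n * ∏ i, (x₀ - algebraMap k (RF w) (c.b i)) =
        ∏ i, (x₀ - algebraMap k (RF w) (c.a i)) := h1
    by_cases hy : y₀ = 0
    · left
      rw [hy, zero_pow hn, zero_mul] at h4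
      obtain ⟨i, -, hi⟩ := Finset.prod_eq_zero_iff.1 h4.symm
      refine ⟨![some (c.a i), some 0], ?_, DE3b_ext ?_ ?_⟩
      · show (0 : k) ^ c.n * ∏ j, (c.a i - c.b j) = ∏ j, (c.a i - c.a j)
        rw [zero_pow hn, zero_mul]
        exact (Finset.prod_eq_zero (Finset.mem_univ i) (sub_self _)).symm
      · rw [hP, Option.map_some, sub_eq_zero.1 hi]
      · rw [hR, Option.map_some, map_zero, hy]
    · right
      refine ⟨x₀, y₀, h2, h3, hy, ?_⟩
      funext j i
      have hj : j = 0 := Subsingleton.elim _ _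
      subst hj
      fin_cases i
      · exact hP
      · exact hR

end Pool.Agent.LibCW77
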