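import Pool.Agent.LibCW77.DE2b
import Pool.Agent.LibCW77.DE3a
import Pool.Agent.LibCW77.DE3b
import Pool.Agent.LibCW77.D2
/-!
[CW77 DE3] The place of a given centre is unique. By `sp_cases`; if `q` is rational then so is `q'` (`eqs_map` or directly, `eqs_rat`), with the same `Q`: `placeC` (uniqueness). If both are `gpt`: `eqs_ev2`, `loc_place`. `res_gen`: rational: `placeC` gives
`Function.Surjective (algebraMap k (RF w))` (for the place with the centre `Q`, which is `w` by uniqueness); otherwise `loc_place` and `fld k (gpt x₀ y₀) = adjoin k {x₀, y₀}`.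
-/

open scoped Classical
open Polynomial

namespace Pool.Agent.LibCW77

open Pool.Agent.LibBH2
open Pool.Agent.LibCHd (VR RF Red FunF)
open Pool.Agent.LibHL77 (Lf tt EHom NC HE BE mult)

variable {k : Type} [Field k]

private theorem DE3_sp {N : Type} [Field N] [Algebra k N] {x y : N} (w : Place k N)
    (Q : Fin 2 → Option k) (hq : SpP w (gpt x y) (pt1 (ctp (RF w) Q))) :
    SpO w (some x) ((Q 0).map (algebraMap k (RF w))) ∧
      SpO w (some y) ((Q 1).map (algebraMap k (RF w))) := by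
  refine ⟨?_, ?_⟩
  · have h := hq 0 0
    simpa [gpt, pt1, ctp] using h
  · have h := hq 0 1
    simpa [gpt, pt1, ctp] using h

private theorem DE3_rat [CharZero k] {c : Dat k} (hc : c.Good) {ζ : k} (hζ : IsPrimitiveRoot ζ c.n)
    {N : Type} [Field N] [Algebra k N] {x y : N} (h : GenC c x y) (w w' : Place k N)
    (Q : Fin 2 → Option k) (hQ : OnC c (Q 0) (Q 1)) (hq : SpP w (gpt x y) (pt1 (ctp (RF w) Q)))
    (hq' : SpP w' (gpt x y) (pt1 (ctp (RF w') Q))) : w = w' := by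
  obtain ⟨w₀, -, -, -, -, -, -, hu⟩ := placeC hc hζ h Q hQ
  obtain ⟨h1, h2⟩ := DE3_sp w Q hq
  obtain ⟨h1', h2'⟩ := DE3_sp w' Q hq'
  rw [hu w h1 h2, hu w' h1' h2']

theorem cen_unique [CharZero k] {c : Dat k} (hc : c.Good) {ζ : k} (hζ : IsPrimitiveRoot ζ c.n) {N : Type}
    [Field N] [Algebra k N] {x y : N} (h : GenC c x y) (w w' : Place k N) {q : Pnt 1 (RF w)}
    {q' : Pnt 1 (RF w')} (hq : SpP w (gpt x y) q) (hq' : SpP w' (gpt x y) q') (he : eqs k q = eqs k q') :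
    w = w' := by
  rcases sp_cases hc hζ h w q hq with ⟨Q, hQ, hqQ⟩ | ⟨x₀, y₀, hx, hy, hy0, hqe⟩
  · have hq2 : q' = pt1 (ctp (RF w') Q) := by
      apply eqs_rat (M' := RF w)
      rw [← he, hqQ]
    rw [hqQ] at hq
    rw [hq2] at hq'
    exact DE3_rat hc hζ h w w' Q hQ hq hq'
  · rcases sp_cases hc hζ h w' q' hq' with ⟨Q, hQ, hqQ⟩ | ⟨x₁, y₁, hx', hy', hy1, hqe'⟩
    · have hq2 : q = pt1 (ctp (RF w) Q) := by
        apply eqs_rat (M' := RF w')
        rw [he, hqQ]
      rw [hqQ] at hq'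
      rw [hq2] at hq
      exact DE3_rat hc hζ h w w' Q hQ hq hq'
    · have h2 := (loc_place hc h w x₀ y₀ hx hy hy0).1 w' x₁ y₁ hx' hy' (by
        rw [hqe, hqe'] at he
        exact (eqs_ev2 x₀ y₀ x₁ y₁).1 he)
      exact h2.symm

theorem res_gen [CharZero k] {c : Dat k} (hc : c.Good) {ζ : k} (hζ : IsPrimitiveRoot ζ c.n) {N : Type}
    [Field N] [Algebra k N] {x y : N} (h : GenC c x y) (w : Place k N) {q : Pnt 1 (RF w)}
    (hq : SpP w (gpt x y) q) : fld k q = ⊤ := by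
  rcases sp_cases hc hζ h w q hq with ⟨Q, hQ, hqQ⟩ | ⟨x₀, y₀, hx, hy, hy0, hqe⟩
  · obtain ⟨w₀, -, hs, -, -, -, -, hu⟩ := placeC hc hζ h Q hQ
    rw [hqQ] at hq
    obtain ⟨h1, h2⟩ := DE3_sp w Q hq
    obtain rfl := hu w h1 h2
    rw [eq_top_iff]
    intro z _
    obtain ⟨a, rfl⟩ := hs z
    exact (fld k q).algebraMap_mem a
  · have h2 := (loc_place hc h w x₀ y₀ hx hy hy0).2
    rw [eq_top_iff, ← h2, hqe, fld]
    apply IntermediateField.adjoin.mono
    intro z hz
    rcases hz with rfl | hz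
    · exact ⟨(0, 0), by simp [co, gpt, pt1]⟩
    · rw [Set.mem_singleton_iff] at hz
      subst hz
      exact ⟨(0, 1), by simp [co, gpt, pt1]⟩

end Pool.Agent.LibCW77
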