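import Pool.Agent.LibCW77.DE0
import Pool.Agent.LibCW77.C1
/-!
[CW77 DE4] The function field of the curve maps to every field with a point `(x', y')`, `x'` transcendental. Plan: `[N : k(x)] = n` (`finrank_x`) and `N = k(x)(y)`, `y ^ n = A(x) / B(x)`, so `minpoly k(x) y = Y ^ n - A(x) / B(x)` (degree); `k(x) → K`, `x ↦ x'` (both are transcendental:
`IntermediateField.adjoin k {x}` is the fraction field of `k[X]`, see `C1_rat1`, `autC` in the proof of C1 (`CW77_C1.lean` in the team store)), extend it to `k(x)(y) = N` by `y ↦ y'` (`IntermediateField.algHomAdjoinIntegralEquiv`, `AdjoinRoot.lift`, or `PowerBasis.lift`).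
See also `LibHD77` `gen1_lift` (hyperelliptic curves).
-/

open scoped Classical
open Polynomial

namespace Pool.Agent.LibCW77

open Pool.Agent.LibBH2
open Pool.Agent.LibCHd (VR RF Red FunF)
open Pool.Agent.LibHL77 (Lf tt EHom NC HE BE mult)

variable {k : Type} [Field k]

private theorem DE4_sub_ne {N : Type} [Field N] [Algebra k N] {x : N} (hx : Transcendental k x) (a : k) :
    x - algebraMap k N a ≠ 0 := by
  intro h
  exact hx (by rw [sub_eq_zero.1 h]; exact isAlgebraic_algebraMap a)

private theorem DE4_top {N : Type} [Field N] [Algebra k N] {x v : N}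
    (h : IntermediateField.adjoin k {x, v} = ⊤) :
    IntermediateField.adjoin (IntermediateField.adjoin k {x}) {v} = ⊤ := by
  apply IntermediateField.restrictScalars_injective k
  rw [IntermediateField.restrictScalars_top]
  exact (IntermediateField.adjoin_simple_adjoin_simple k x v).trans h

/-- `φ(x)` in `k(x)` -/
private noncomputable def DE4_phi (c : Dat k) {F : Type} [Field F] [Algebra k F] (x : F) : F :=
  (∏ i, (x - algebraMap k F (c.a i))) / ∏ i, (x - algebraMap k F (c.b i))

private theorem DE4_pow {c : Dat k} {N : Type} [Field N] [Algebra k N] {x v : N}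
    (hon : OnC (c.over N) (some x) (some v)) (hx : Transcendental k x) :
    v ^ c.n = DE4_phi c x := by
  rw [DE4_phi, eq_div_iff (Finset.prod_ne_zero_iff.2 (fun i _ => DE4_sub_ne hx (c.b i)))]
  exact hon

private theorem DE4_map_phi (c : Dat k) {F N : Type} [Field F] [Algebra k F] [Field N] [Algebra k N]
    (i : F →ₐ[k] N) (x : F) : i (DE4_phi c x) = DE4_phi c (i x) := by
  simp only [DE4_phi, map_div₀, map_prod, map_sub, AlgHom.commutes]

private theorem DE4_root {c : Dat k} {N : Type} [Field N] [Algebra k N] {x v : N} (h : GenC c x v) :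
    aeval v (X ^ c.n - C (DE4_phi c (IntermediateField.AdjoinSimple.gen k x)) :
      (IntermediateField.adjoin k {x})[X]) = 0 := by
  have h1 : algebraMap (IntermediateField.adjoin k {x}) N
      (DE4_phi c (IntermediateField.AdjoinSimple.gen k x)) = DE4_phi c x := by
    have := DE4_map_phi c (IntermediateField.adjoin k {x}).val (IntermediateField.AdjoinSimple.gen k x)
    exact this
  simp only [map_sub, map_pow, aeval_X, aeval_C]
  rw [h1, DE4_pow h.on h.tr, sub_self]

private theorem DE4_int {c : Dat k} (hc : c.Good) {N : Type} [Field N] [Algebra k N] {x v : N}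
    (h : GenC c x v) : IsIntegral (IntermediateField.adjoin k {x}) v := by
  refine ⟨X ^ c.n - C (DE4_phi c (IntermediateField.AdjoinSimple.gen k x)),
    monic_X_pow_sub_C _ (by have := hc.two; omega), ?_⟩
  exact DE4_root h

theorem genC_lift [CharZero k] {c : Dat k} (hc : c.Good) {N : Type} [Field N] [Algebra k N] {x y : N}
    (h : GenC c x y) {K : Type} [Field K] [Algebra k K] (x' y' : K)
    (hon : OnC (c.over K) (some x') (some y')) (hx' : Transcendental k x') :
    ∃ i : N →ₐ[k] K, i x = x' ∧ i y = y' := by
  have hint := DE4_int hc h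
  have hdeg : (minpoly (IntermediateField.adjoin k {x}) y).natDegree = c.n := by
    have h1 := IntermediateField.adjoin.finrank hint
    rw [DE4_top h.gen, IntermediateField.finrank_top', finrank_x hc h] at h1
    exact h1.symm
  have hn : c.n ≠ 0 := by have := hc.two; omega
  have hmin : minpoly (IntermediateField.adjoin k {x}) y =
      X ^ c.n - C (DE4_phi c (IntermediateField.AdjoinSimple.gen k x)) := by
    refine (eq_of_monic_of_dvd_of_natDegree_le (minpoly.monic hint) (monic_X_pow_sub_C _ hn)
      (minpoly.dvd _ _ (DE4_root h)) ?_).symm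
    rw [hdeg, natDegree_X_pow_sub_C]
  have htop : Algebra.adjoin (IntermediateField.adjoin k {x}) {y} = ⊤ := by
    rw [← IntermediateField.adjoin_simple_toSubalgebra_of_isAlgebraic hint.isAlgebraic, DE4_top h.gen,
      IntermediateField.top_toSubalgebra]
  let pb := PowerBasis.ofAdjoinEqTop hint htop
  have hgen : pb.gen = y := PowerBasis.ofAdjoinEqTop_gen hint htop
  let j : IntermediateField.adjoin k {x} →ₐ[k] K :=
    ((IntermediateField.adjoin k {x'}).val.comp
      (RatFunc.algEquivOfTranscendental x' hx').toAlgHom).comp
      (RatFunc.algEquivOfTranscendental x h.tr).symm.toAlgHom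
  have hj : j (IntermediateField.AdjoinSimple.gen k x) = x' := by
    change ((RatFunc.algEquivOfTranscendental x' hx')
      ((RatFunc.algEquivOfTranscendental x h.tr).symm (IntermediateField.AdjoinSimple.gen k x)) : K) = x'
    rw [RatFunc.algEquivOfTranscendental_symm_gen, RatFunc.algEquivOfTranscendental_X]
  letI : Algebra (IntermediateField.adjoin k {x}) K := j.toRingHom.toAlgebra
  haveI : IsScalarTower k (IntermediateField.adjoin k {x}) K :=
    IsScalarTower.of_algebraMap_eq fun a => (j.commutes a).symm
  have hroot : aeval y' (minpoly (IntermediateField.adjoin k {x}) pb.gen) = 0 := by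
    rw [hgen, hmin]
    simp only [map_sub, map_pow, aeval_X, aeval_C]
    have h1 : algebraMap (IntermediateField.adjoin k {x}) K
        (DE4_phi c (IntermediateField.AdjoinSimple.gen k x)) = DE4_phi c x' := by
      have h2 := DE4_map_phi c j (IntermediateField.AdjoinSimple.gen k x)
      rw [hj] at h2
      exact h2
    rw [h1, DE4_pow hon hx', sub_self]
  let g : N →ₐ[IntermediateField.adjoin k {x}] K := pb.lift _ hroot
  have hg : g y = y' := by
    have := pb.lift_gen _ hroot
    rw [hgen] at this
    exact this
  refine ⟨g.restrictScalars k, ?_, hg⟩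
  have h3 := g.commutes (IntermediateField.AdjoinSimple.gen k x)
  exact h3.trans hj

end Pool.Agent.LibCW77
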