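import Pool.Agent.LibCW77.DE0
import Pool.Agent.LibCW77.D1
import Pool.Agent.LibCW77.D2
import Pool.Agent.LibHL77.Z1
/-!
[CW77 DE5] A constant point gives no relation. Plan: let `E = fld k u`, algebraic over `k` (the coordinates are), `u = mpP E.val u₀` (`exists_min`, `fld k u₀ = ⊤`). Every place `v` of `K` is trivial on `E` (algebraic elements have order `0`: `LibHL77.Z1_ord_alg` or `z6_ord_alg`), so there is `ε_v : E →ₐ[k] RF v` with
`Red v z (ε_v z)` for `z ∈ E` (see `z4_triv` in `LibHL77/Z4.lean`) and `q v = mpP ε_v u₀` (`spP_unique`). `cyc k (q v) = finrank (ε_v E) (RF v) • cyc k u₀` (`cyc_map`) and `finrank k E * finrank (ε_v E) (RF v) = finrank k (RF v)`; so `finrank k E • ∑ = (∑ v.ord g * finrank k (RF v)) • cyc k u₀ = 0` by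
`LibHL77.sum_formula'`, and `finrank k E ≠ 0` (`E` embeds in `RF v`, which is finite over `k`, `res_finite`; if there is no place the sum is empty); `Cyc k m` has no torsion.
-/

open scoped Classical
open Polynomial

namespace Pool.Agent.LibCW77

open Pool.Agent.LibBH2
open Pool.Agent.LibCHd (VR RF Red FunF)
open Pool.Agent.LibHL77 (Lf tt EHom NC HE BE mult)

variable {k : Type} [Field k]

/-- a subfield on which the place is trivial embeds in the residue field -/
private theorem DE5_triv {M K : Type} [Field M] [Algebra k M] [Field K] [Algebra k K]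
    (j : M →ₐ[k] K) (w : Place k K) (hM : ∀ m, w.ord (j m) = 0) :
    ∃ ε : M →ₐ[k] RF w, ∀ m, Red w (j m) (ε m) := by
  have hreg : ∀ m, j m ∈ VR w := fun m => Or.inr (by rw [hM])
  let f0 : M →+* VR w :=
    { toFun := fun m => ⟨j m, hreg m⟩
      map_one' := Subtype.ext (map_one j)
      map_mul' := fun a b => Subtype.ext (map_mul j a b)
      map_zero' := Subtype.ext (map_zero j)
      map_add' := fun a b => Subtype.ext (map_add j a b) }
  let f1 : M →+* RF w := (IsLocalRing.residue (VR w)).comp f0
  let f : M →ₐ[k] RF w :=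
    { f1 with
      commutes' := by
        intro c
        change IsLocalRing.residue (VR w) (f0 (algebraMap k M c)) =
          IsLocalRing.residue (VR w) (algebraMap k (VR w) c)
        congr 1
        exact Subtype.ext (j.commutes c) }
  exact ⟨f, fun m => ⟨hreg m, rfl⟩⟩

theorem div_const [CharZero k] {m : ℕ} {K : Type} [Field K] [Algebra k K] (hK : FunF k 1 K) (u : Pnt m K)
    (hu : ∀ j i z, u j i = some z → IsAlgebraic k z) (g : K) (S : Finset (Place k K))
    (q : ∀ v : Place k K, Pnt m (RF v)) (hq : ∀ v, SpP v u (q v)) (hS : ∀ v : Place k K, v.ord g ≠ 0 → v ∈ S) :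
    ∑ v ∈ S, v.ord g • cyc k (q v) = 0 := by
  obtain ⟨u₀, -, hu₀⟩ := exists_min (k := k) u
  have halg : Algebra.IsAlgebraic k (fld k u) := by
    apply IntermediateField.isAlgebraic_adjoin
    rintro _ ⟨p, rfl⟩
    change IsIntegral k ((u p.1 p.2).getD 0)
    cases hx : u p.1 p.2 with
    | none => exact isIntegral_zero
    | some z => exact (hu _ _ _ hx).isIntegral
  have hord : ∀ (v : Place k K) (z : fld k u), v.ord ((fld k u).val z) = 0 := fun v z =>
    Pool.Agent.LibHL77.Z1_ord_alg v ((halg.isAlgebraic z).algHom (fld k u).val)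
  choose ε hε using fun v : Place k K => DE5_triv (fld k u).val v (hord v)
  have hsp : ∀ v : Place k K, q v = mpP (ε v) u₀ := by
    intro v
    refine spP_unique (hq v) ?_
    intro j i
    have h1 : u j i = (u₀ j i).map (fld k u).val := by
      conv_lhs => rw [← hu₀]
      rfl
    rw [h1]
    change SpO v ((u₀ j i).map (fld k u).val) ((u₀ j i).map (ε v))
    cases u₀ j i with
    | none => rfl
    | some z => exact hε v z
  have hcyc : ∀ v : Place k K, cyc k (q v) =
      (Module.finrank (ε v).fieldRange (RF v) : ℤ) • cyc k u₀ := by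
    intro v
    rw [hsp v]
    exact cyc_map (ε v) u₀
  rcases S.eq_empty_or_nonempty with h0 | ⟨v₀, -⟩
  · rw [h0, Finset.sum_empty]
  have hfin : ∀ v : Place k K, (Module.finrank k (RF v) : ℤ) =
      (Module.finrank k (fld k u) : ℤ) * (Module.finrank (ε v).fieldRange (RF v) : ℤ) := by
    intro v
    have h1 : Module.finrank k (fld k u) = Module.finrank k (ε v).fieldRange :=
      (AlgHom.equivFieldRange (ε v)).toLinearEquiv.finrank_eq
    have h2 : Module.finrank k (ε v).fieldRange * Module.finrank (ε v).fieldRange (RF v) =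
      Module.finrank k (RF v) := Module.finrank_mul_finrank k (ε v).fieldRange (RF v)
    rw [h1, ← h2]
    push_cast
    ring
  have hE : (Module.finrank k (fld k u) : ℤ) ≠ 0 := by
    have h1 : FiniteDimensional k (RF v₀) :=
      Pool.Agent.LibHL77.funF_zero.1 (Pool.Agent.LibHL77.res_finite hK v₀)
    have h2 : 0 < Module.finrank k (RF v₀) := Module.finrank_pos
    intro h3
    have h4 := hfin v₀
    rw [h3, zero_mul] at h4
    have h5 : Module.finrank k (RF v₀) = 0 := by exact_mod_cast h4
    omega
  have hsum := Pool.Agent.LibHL77.sum_formula' hK g S hS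
  have hsum2 : ∑ v ∈ S, v.ord g * (Module.finrank (ε v).fieldRange (RF v) : ℤ) = 0 := by
    have h1 : (Module.finrank k (fld k u) : ℤ) *
        ∑ v ∈ S, v.ord g * (Module.finrank (ε v).fieldRange (RF v) : ℤ) = 0 := by
      rw [Finset.mul_sum, ← hsum]
      refine Finset.sum_congr rfl fun v _ => ?_
      rw [hfin v]
      ring
    exact (mul_eq_zero.1 h1).resolve_left hE
  have h1 : ∑ v ∈ S, v.ord g • cyc k (q v) =
      (∑ v ∈ S, v.ord g * (Module.finrank (ε v).fieldRange (RF v) : ℤ)) • cyc k u₀ := by
    rw [Finset.sum_smul]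
    refine Finset.sum_congr rfl fun v _ => ?_
    rw [hcyc v, smul_smul]
  rw [h1, hsum2, zero_smul]

end Pool.Agent.LibCW77
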