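import Pool.Agent.LibCW77.DE3
import Pool.Agent.LibHL77.Z2
import Pool.Agent.LibCW77.T2
/-!
[CW77 DE6] Push-forward to the curve. Template: the second half of `z4_div` in `LibHL77/Z4.lean`. Plan: `f` from `LibHL77.norm_ord (genC_funF hc h).1 hK i g hg`. Every place `v` of `K` lies over a place `w` of `N`: `v.ord (i z) = e w.ord z`, `e > 0` (`z4_nontriv`, `LibCHd.exists_restrict`; or `place_restr` of T2 (`finrank i.fieldRange K ≠ 0`)),
with a homomorphism of the residue fields `j : RF w →ₐ[k] RF v`, `Red w z a → Red v (i z) (j a)` (`z4_res`). Then `q v = mpP j p_w` (`spP_unique`; a pole stays a pole) for the specialisation `p_w` of `gpt x y` at `w`, so `eqs k (q v) = eqs k p_w`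
(`eqs_map`), and `cyc k (q v) = finrank (j (RF w)) (RF v) • cyc k p_w`, `cyc k p_w = single (eqs k p_w) 1` (`res_gen`), `finrank k (RF v) = finrank k (RF w) * finrank (j (RF w)) (RF v)`. The coefficient at `eqs k p_w` of `cyc k (q v)` is `finrank (j (RF w)) (RF v)` if `v` lies over `w`, and `0`
otherwise (`cen_unique`). Divide the formula of `norm_ord` by `finrank k (RF w) ≠ 0` (`res_finite`).
-/

open scoped Classical
open Polynomial

namespace Pool.Agent.LibCW77

open Pool.Agent.LibBH2
open Pool.Agent.LibCHd (VR RF Red FunF)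
open Pool.Agent.LibHL77 (Lf tt EHom NC HE BE mult)

variable {k : Type} [Field k]

/-- the homomorphism of the residue fields for an extension of places -/
private theorem DE6_res {H K : Type} [Field H] [Algebra k H] [Field K] [Algebra k K]
    (i : H →ₐ[k] K) (v : Place k H) (w : Place k K) (e : ℤ) (he : 0 < e)
    (h : ∀ x, w.ord (i x) = e * v.ord x) :
    ∃ j : RF v →ₐ[k] RF w, ∀ x c, Red v x c → Red w (i x) (j c) := by
  have hreg : ∀ x, v.Reg x → w.Reg (i x) := by
    rintro x (hx | hx)
    · exact Or.inl (by rw [hx, map_zero])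
    · exact Or.inr (by rw [h]; exact mul_nonneg he.le hx)
  let ι : VR v →+* VR w :=
    { toFun := fun x => ⟨i (x : H), hreg _ x.2⟩
      map_one' := Subtype.ext (map_one i)
      map_mul' := fun a b => Subtype.ext (map_mul i _ _)
      map_zero' := Subtype.ext (map_zero i)
      map_add' := fun a b => Subtype.ext (map_add i _ _) }
  have : IsLocalHom ι := by
    refine ⟨fun a ha => ?_⟩
    refine Pool.Agent.LibCHd.isUnit_VR v a fun h' => ?_
    have h1 : w.Zer (i (a : H)) := by
      rcases h' with h' | h'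
      · exact Or.inl (by rw [h', map_zero])
      · exact Or.inr (by rw [h]; exact mul_pos he h')
    exact (IsLocalRing.mem_maximalIdeal _).1
      ((Pool.Agent.LibCHd.mem_max_iff (ι a)).2 h1) ha
  let j₀ : RF v →+* RF w := IsLocalRing.ResidueField.map ι
  let j : RF v →ₐ[k] RF w :=
    { j₀ with
      commutes' := fun c => by
        change j₀ (IsLocalRing.residue (VR v) (algebraMap k (VR v) c)) =
          IsLocalRing.residue (VR w) (algebraMap k (VR w) c)
        rw [IsLocalRing.ResidueField.map_residue]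
        congr 1
        exact Subtype.ext (i.commutes c) }
  refine ⟨j, ?_⟩
  rintro x c ⟨h', rfl⟩
  exact ⟨hreg x h', (IsLocalRing.ResidueField.map_residue ι ⟨x, h'⟩).symm⟩

/-- a place is not trivial on a subfield over which the function field is algebraic -/
private theorem DE6_nontriv {H K : Type} [Field H] [Algebra k H] [Field K] [Algebra k K]
    (hK : FunF k 1 K) (i : H →ₐ[k] K) (s : H) (hs : Transcendental k (i s)) (P : Place k K) :
    ∃ φ : H, P.ord (i φ) ≠ 0 := by
  by_contra hcon
  push Not at hcon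
  obtain ⟨t, ht⟩ := P.exists_uniformizer
  have h1 : Algebra.trdeg k K ≤ Cardinal.mk PUnit := by
    rw [Pool.Agent.LibCHd.FunF.trdeg hK]
    simp
  have hind : AlgebraicIndependent k (fun _ : PUnit => i s) :=
    (algebraicIndependent_unique_type_iff (x := fun _ : PUnit => i s)).2 hs
  have h2 := Pool.Agent.LibCHd.ord_triv_of_indep h1 (AlgHom.id k K) P (fun _ => i s)
    (fun F hF => ?_) t
  · rw [AlgHom.id_apply, ht] at h2
    exact one_ne_zero h2
  · refine ⟨?_, ?_⟩
    · have h3 : (AlgHom.id k K) (MvPolynomial.aeval (fun _ : PUnit => i s) F) =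
          i (MvPolynomial.aeval (fun _ : PUnit => s) F) := by
        rw [AlgHom.id_apply, MvPolynomial.comp_aeval_apply]
      rw [h3]
      exact hcon _
    · intro h3
      exact hF (algebraicIndependent_iff.1 hind F h3)

/-- two normalised places with proportional orders are equal -/
private theorem DE6_eq {N : Type} [Field N] [Algebra k N] (w w' : Place k N) (e e' : ℤ) (he : 0 < e)
    (he' : 0 < e') (h : ∀ z, e * w.ord z = e' * w'.ord z) : w = w' := by
  obtain ⟨t, ht⟩ := w.exists_uniformizer
  obtain ⟨t', ht'⟩ := w'.exists_uniformizer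
  have h1 : e' ∣ e := ⟨w'.ord t, by rw [← h t, ht, mul_one]⟩
  have h2 : e ∣ e' := ⟨w.ord t', by rw [h t', ht', mul_one]⟩
  have h3 : e = e' := Int.dvd_antisymm he.le he'.le h2 h1
  apply Place.ext'
  intro z
  have h4 := h z
  rw [← h3] at h4
  exact mul_left_cancel₀ he.ne' h4

/-- specialisations at a place and at its restriction -/
private theorem DE6_sp {H K : Type} [Field H] [Algebra k H] [Field K] [Algebra k K]
    (i : H →ₐ[k] K) (v : Place k H) (w : Place k K) (e : ℤ) (he : 0 < e)
    (h : ∀ x, w.ord (i x) = e * v.ord x) (j : RF v →ₐ[k] RF w)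
    (hj : ∀ x c, Red v x c → Red w (i x) (j c)) (x y : H) (q : Pnt 1 (RF v))
    (hq : SpP v (gpt x y) q) : SpP w (gpt (i x) (i y)) (mpP j q) := by
  have key : ∀ (z : H) (p : Option (RF v)), SpO v (some z) p → SpO w (some (i z)) (p.map j) := by
    intro z p hp
    match p with
    | none =>
      change w.ord (i z) < 0
      rw [h]
      exact mul_neg_of_pos_of_neg he hp
    | some z₀ => exact hj _ _ hp
  intro a b
  have h1 := hq a b
  fin_cases b
  · exact key x _ h1
  · exact key y _ h1

theorem div_map [CharZero k] {c : Dat k} (hc : c.Good) {ζ : k} (hζ : IsPrimitiveRoot ζ c.n) {N : Type}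
    [Field N] [Algebra k N] {x y : N} (h : GenC c x y) {K : Type} [Field K] [Algebra k K] (hK : FunF k 1 K)
    (i : N →ₐ[k] K) (g : K) (hg : g ≠ 0) (S : Finset (Place k K)) (q : ∀ v : Place k K, Pnt 1 (RF v))
    (hq : ∀ v, SpP v (gpt (i x) (i y)) (q v)) (hS : ∀ v : Place k K, v.ord g ≠ 0 → v ∈ S) :
    ∃ f : N, f ≠ 0 ∧ ∀ (w : Place k N) (p : Pnt 1 (RF w)), SpP w (gpt x y) p →
      (∑ v ∈ S, v.ord g • cyc k (q v)) (eqs k p) = w.ord f := by
  have hNF : FunF k 1 N := (genC_funF hc h).1
  obtain ⟨f, hf, hN⟩ := LibHL77.norm_ord hNF hK i g hg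
  refine ⟨f, hf, fun w p hp => ?_⟩
  have hix : Transcendental k (i x) := fun h0 => h.tr ((isAlgebraic_algHom_iff i i.injective).1 h0)
  have hw0 : (Module.finrank k (RF w) : ℤ) ≠ 0 := by
    have h0 : FiniteDimensional k (RF w) := LibHL77.funF_zero.1 (LibHL77.res_finite hNF w)
    exact_mod_cast (Module.finrank_pos (R := k) (M := RF w)).ne'
  have hN1 := hN w (S.filter fun v => ∃ e : ℤ, 0 < e ∧ ∀ z, v.ord (i z) = e * w.ord z)
    (fun v hv => (Finset.mem_filter.1 hv).2)
    (fun v hv hv' => Finset.mem_filter.2 ⟨hS v hv', hv⟩)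
  rw [Finset.sum_filter] at hN1
  apply mul_right_cancel₀ hw0
  rw [hN1, Finsupp.finsetSum_apply, Finset.sum_mul]
  refine Finset.sum_congr rfl fun v _ => ?_
  obtain ⟨φ, hφ⟩ := DE6_nontriv hK i x hix v
  obtain ⟨w', e0, he0, hw'⟩ := Pool.Agent.LibCHd.exists_restrict i v φ hφ
  have he0' : (0 : ℤ) < (e0 : ℤ) := by exact_mod_cast he0
  obtain ⟨j, hj⟩ := DE6_res i w' v e0 he0' hw'
  obtain ⟨p', hp'⟩ := spP_exists w' (gpt x y)
  have hqv : q v = mpP j p' := spP_unique (hq v) (DE6_sp i w' v e0 he0' hw' j hj x y p' hp')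
  have hcyc' : cyc k p' = Finsupp.single (eqs k p') 1 := by
    have h1 := res_gen hc hζ h w' hp'
    unfold cyc
    rw [h1, IntermediateField.finrank_top, Nat.cast_one]
  have hcyc : cyc k (q v) = Finsupp.single (eqs k p') (Module.finrank j.fieldRange (RF v) : ℤ) := by
    rw [hqv, cyc_map, hcyc', Finsupp.smul_single, smul_eq_mul, mul_one]
  rw [Finsupp.smul_apply, hcyc, smul_eq_mul]
  by_cases hww : w' = w
  · subst hww
    have hpp : p' = p := spP_unique hp' hp
    rw [hpp, Finsupp.single_eq_same, if_pos ⟨e0, he0', hw'⟩, mul_assoc]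
    congr 1
    have h1 : Module.finrank k (RF w') = Module.finrank k j.fieldRange :=
      (AlgHom.equivFieldRange j).toLinearEquiv.finrank_eq
    have h2 : Module.finrank k j.fieldRange * Module.finrank j.fieldRange (RF v) =
      Module.finrank k (RF v) := Module.finrank_mul_finrank k j.fieldRange (RF v)
    rw [h1, ← h2]
    push_cast
    ring
  · have hne : eqs k p' ≠ eqs k p := fun h1 => hww (cen_unique hc hζ h w' w hp' hp h1)
    have hno : ¬ ∃ e : ℤ, 0 < e ∧ ∀ z, v.ord (i z) = e * w.ord z := by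
      rintro ⟨e, he, hev⟩
      apply hww
      refine DE6_eq w' w e0 e he0' he fun z => ?_
      rw [← hw' z, hev z]
    rw [if_neg hno, Finsupp.single_eq_of_ne hne.symm, mul_zero, zero_mul]

end Pool.Agent.LibCW77
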