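import Pool.Agent.LibCW77.DE3
import Pool.Agent.LibCW77.DE4
import Pool.Agent.LibCW77.DE5
import Pool.Agent.LibCW77.DE6
/-!
[CW77 DE7] Rational equivalence on the curve is linear equivalence. Plan: `AddSubgroup.closure_induction` (zero: `f = 1`; sum: the product; negative: the inverse). For `IsDiv c 1 0 e`: data `K, u, g, S, E`, `hK : FunF k 1 K`; choose `q v` (`spP_exists`); `E v = cyc k (q v)` for `v ∈ S` (`spP_unique`); for `v.ord g ≠ 0` and `v ∉ S` we would have `cyc k (q v) = 0`
(`FunF k 0 (RF v)`: `res_finite`), but `RF v` is finite over `k`, so `finrank (fld k (q v)) (RF v) ≠ 0`: see `hmem` in `z4_div` of `LibHL77/Z4.lean`; so all `v` with `v.ord g ≠ 0` are in `S`. `u 0 = (X, Y)`: if all coordinates which are not `∞` are algebraic: `div_const`, `f = 1`. Otherwise `X = some x'`, `Y = some y'` with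
`x'` transcendental (`X = ∞`: `y' ^ n = 1`; `Y = ∞`: `x' = b_i`; `x'` algebraic gives `y' ^ n ∏ (x' - b_i) = ∏ (x' - a_i)` with `∏ (x' - b_i) ≠ 0` (else both products vanish), so `y'` is algebraic), `genC_lift` gives `i`, and `div_map`.
-/

open scoped Classical
open Polynomial

namespace Pool.Agent.LibCW77

open Pool.Agent.LibBH2
open Pool.Agent.LibCHd (VR RF Red FunF)
open Pool.Agent.LibHL77 (Lf tt EHom NC HE BE mult)

variable {k : Type} [Field k]

private theorem DE7_coord {c : Dat k} (hc : c.Good) {K : Type} [Field K] [Algebra k K] (X Y : Option K)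
    (hon : OnC (c.over K) X Y) (h : ¬ ((∀ z, X = some z → IsAlgebraic k z) ∧ ∀ z, Y = some z → IsAlgebraic k z)) :
    ∃ x' y' : K, X = some x' ∧ Y = some y' ∧ Transcendental k x' := by
  have hn : 0 < c.n := by
    have := hc.two
    omega
  match X, Y, hon with
  | none, some y, hon =>
    exfalso
    have hy : y ^ c.n = 1 := hon
    refine h ⟨fun z hz => by simp at hz, fun z hz => ?_⟩
    have hzy : y = z := Option.some.inj hz
    rw [← hzy]
    have h1 : IsIntegral k y := IsIntegral.of_pow hn (by rw [hy]; exact isIntegral_one)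
    exact h1.isAlgebraic
  | some x, none, hon =>
    exfalso
    obtain ⟨i, hi⟩ : ∃ i, x = algebraMap k K (c.b i) := hon
    refine h ⟨fun z hz => ?_, fun z hz => by simp at hz⟩
    have hzx : x = z := Option.some.inj hz
    rw [← hzx, hi]
    exact isAlgebraic_algebraMap _
  | some x, some y, hon =>
    have hon' : y ^ c.n * ∏ i, (x - algebraMap k K (c.b i)) = ∏ i, (x - algebraMap k K (c.a i)) := hon
    refine ⟨x, y, rfl, rfl, fun hx => h ⟨fun z hz => ?_, fun z hz => ?_⟩⟩
    · rw [← Option.some.inj hz]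
      exact hx
    · rw [← Option.some.inj hz]
      have hxi : IsIntegral k x := hx.isIntegral
      have hA : IsIntegral k (∏ i, (x - algebraMap k K (c.a i))) :=
        IsIntegral.prod _ fun i _ => hxi.sub isIntegral_algebraMap
      have hB : IsIntegral k (∏ i, (x - algebraMap k K (c.b i))) :=
        IsIntegral.prod _ fun i _ => hxi.sub isIntegral_algebraMap
      have hB0 : ∏ i, (x - algebraMap k K (c.b i)) ≠ 0 := by
        intro h0
        rw [h0, mul_zero] at hon'
        obtain ⟨i, -, hi⟩ := Finset.prod_eq_zero_iff.1 h0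
        obtain ⟨j, -, hj⟩ := Finset.prod_eq_zero_iff.1 hon'.symm
        have h1 : algebraMap k K (c.a j) = algebraMap k K (c.b i) := by
          rw [← sub_eq_zero.1 hj, ← sub_eq_zero.1 hi]
        have h2 : c.a j = c.b i := (algebraMap k K).injective h1
        have h3 : (Sum.inl j : Fin 3 ⊕ Fin 3) = Sum.inr i := hc.inj h2
        cases h3
      have h4 : y ^ c.n = (∏ i, (x - algebraMap k K (c.a i))) * (∏ i, (x - algebraMap k K (c.b i)))⁻¹ := by
        rw [← hon', mul_assoc, mul_inv_cancel₀ hB0, mul_one]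
      have h5 : IsIntegral k (y ^ c.n) := by
        rw [h4]
        exact hA.mul hB.inv
      exact (IsIntegral.of_pow hn h5).isAlgebraic

private theorem DE7_div [CharZero k] {c : Dat k} (hc : c.Good) {ζ : k} (hζ : IsPrimitiveRoot ζ c.n)
    {N : Type} [Field N] [Algebra k N] {x y : N} (h : GenC c x y) (e : Cyc k 1) (he : IsDiv c 1 0 e) :
    ∃ f : N, f ≠ 0 ∧ ∀ (w : Place k N) (p : Pnt 1 (RF w)), SpP w (gpt x y) p → e (eqs k p) = w.ord f := by
  obtain ⟨K, _, _, u, g, S, E, hK', hon, hg, hS, hS', rfl⟩ := he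
  have hK : FunF k 1 K := hK'
  choose q hq using fun v : Place k K => spP_exists v u
  have hmem : ∀ v : Place k K, v.ord g ≠ 0 → v ∈ S := by
    intro v hv
    by_contra hvS
    have h0 := Pool.Agent.LibHL77.res_finite hK v
    have h1 := hS' v hvS hv h0 (q v) (hq v)
    have : FiniteDimensional k (RF v) := Pool.Agent.LibHL77.funF_zero.1 h0
    have : FiniteDimensional (fld k (q v)) (RF v) := FiniteDimensional.right k (fld k (q v)) (RF v)
    have h2 : 0 < Module.finrank (fld k (q v)) (RF v) := Module.finrank_pos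
    have h3 : (Module.finrank (fld k (q v)) (RF v) : ℤ) = 0 := Finsupp.single_eq_zero.1 h1
    have h4 : Module.finrank (fld k (q v)) (RF v) = 0 := by exact_mod_cast h3
    omega
  have hE : ∀ v ∈ S, v.ord g • E v = v.ord g • cyc k (q v) := by
    intro v hv
    obtain ⟨-, q', hq', hE'⟩ := hS v hv
    rw [hE', spP_unique hq' (hq v)]
  rw [Finset.sum_congr rfl hE]
  by_cases halg : (∀ z, u 0 0 = some z → IsAlgebraic k z) ∧ ∀ z, u 0 1 = some z → IsAlgebraic k z
  · have hu : ∀ j i z, u j i = some z → IsAlgebraic k z := by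
      intro j i z hz
      have hj : j = 0 := Subsingleton.elim j 0
      subst hj
      fin_cases i
      · exact halg.1 z hz
      · exact halg.2 z hz
    refine ⟨1, one_ne_zero, fun w p _ => ?_⟩
    rw [div_const hK u hu g S q hq hmem, Finsupp.zero_apply, Place.ord_one]
  · obtain ⟨x', y', hX, hY, hx'⟩ := DE7_coord hc (u 0 0) (u 0 1) (hon 0) halg
    have hon1 : OnC (c.over K) (some x') (some y') := by
      have h1 := hon 0
      rw [hX, hY] at h1
      exact h1
    obtain ⟨i, hix, hiy⟩ := genC_lift hc h x' y' hon1 hx'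
    have hu : u = gpt (i x) (i y) := by
      funext j a
      have hj : j = 0 := Subsingleton.elim j 0
      subst hj
      rw [hix, hiy]
      fin_cases a
      · exact hX
      · exact hY
    refine div_map hc hζ h hK i g hg S q (fun v => ?_) hmem
    rw [← hu]
    exact hq v

theorem ratEq_fun [CharZero k] {c : Dat k} (hc : c.Good) {ζ : k} (hζ : IsPrimitiveRoot ζ c.n) {N : Type}
    [Field N] [Algebra k N] {x y : N} (h : GenC c x y) (e : Cyc k 1) (he : e ∈ RatEq c 1 0) :
    ∃ f : N, f ≠ 0 ∧ ∀ (w : Place k N) (p : Pnt 1 (RF w)), SpP w (gpt x y) p → e (eqs k p) = w.ord f := by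
  induction he using AddSubgroup.closure_induction with
  | mem e he => exact DE7_div hc hζ h e he
  | zero =>
    refine ⟨1, one_ne_zero, fun w p _ => ?_⟩
    rw [Finsupp.zero_apply, Place.ord_one]
  | add e e' _ _ he he' =>
    obtain ⟨f, hf, h1⟩ := he
    obtain ⟨f', hf', h2⟩ := he'
    refine ⟨f * f', mul_ne_zero hf hf', fun w p hp => ?_⟩
    rw [Finsupp.add_apply, h1 w p hp, h2 w p hp, w.ord_mul f f' hf hf']
  | neg e _ he =>
    obtain ⟨f, hf, h1⟩ := he
    refine ⟨f⁻¹, inv_ne_zero hf, fun w p hp => ?_⟩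
    rw [Finsupp.neg_apply, h1 w p hp, Place.ord_inv]

end Pool.Agent.LibCW77
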