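import Pool.Agent.LibCW77.DE0
import Pool.Agent.LibHL77.B3
/-!
[CW77 DE8] The generic point over `L = k(T_1, T_2)`. `on`: apply `i.f` to the equation, `i.comm`. `tr`: let `∑ l_m (i.f x) ^ m = 0` with `l_m ∈ L` not all `0`; we may assume `l_m` in `k[T_1, T_2]` (common denominator: `IsLocalization.exist_integer_multiples`, `IsFractionRing`, or
`IsFractionRing.comap_isAlgebraic_iff` / `isAlgebraic_iff`: `x` is algebraic over the fraction field iff over the ring). The image of `l_m` in `K` is the value at `T` of `l_m` (`LibHL77.B3_map`), so the polynomial `∑ l_m C(x ^ m)` over `F` vanishes at `T`, is zero by `hi.ind`, and its coefficients `∑ (l_m)_α x ^ m` are zero, so all `(l_m)_α = 0` (`h.tr`).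
`gen`: `hi.gen` and: every `z ∈ F = k(x, y)` (`h.gen`) has `i.f z ∈ L(i.f x, i.f y)` (`IntermediateField.adjoin_induction`, or a subfield and `comap`).
-/

open scoped Classical
open Polynomial

namespace Pool.Agent.LibCW77

open Pool.Agent.LibBH2
open Pool.Agent.LibCHd (VR RF Red FunF)
open Pool.Agent.LibHL77 (Lf tt EHom NC HE BE mult)

variable {k : Type} [Field k]

theorem DE8_tr {F K : Type} [Field F] [Algebra k F] [Field K] [Algebra (Lf k) K]
    {i : EHom k (Lf k) F K} (hi : BE i) {x : F} (h : Transcendental k x) :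
    Transcendental (Lf k) (i.f x) := by
  intro halg
  let _ : Algebra (MvPolynomial (Fin 2) k) K :=
    ((algebraMap (Lf k) K).comp (algebraMap (MvPolynomial (Fin 2) k) (Lf k))).toAlgebra
  have hst : IsScalarTower (MvPolynomial (Fin 2) k) (Lf k) K :=
    IsScalarTower.of_algebraMap_eq fun _ => rfl
  have halg2 : IsAlgebraic (MvPolynomial (Fin 2) k) (i.f x) :=
    (IsFractionRing.isAlgebraic_iff (MvPolynomial (Fin 2) k) (Lf k) K).2 halg
  obtain ⟨p, hp0, hp⟩ := halg2
  apply hp0
  set G : MvPolynomial (Fin 2) F :=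
    p.eval₂ (MvPolynomial.map (algebraMap k F)) (MvPolynomial.C x) with hG
  have hG1 : G.eval₂ i.f (LibHL77.B3_T k K) = 0 := by
    rw [← hp, aeval_def, hG, eval₂_eq_sum_range, eval₂_eq_sum_range]
    change (MvPolynomial.eval₂Hom i.f (LibHL77.B3_T k K)) _ = _
    rw [map_sum]
    refine Finset.sum_congr rfl fun m _ => ?_
    rw [map_mul, map_pow]
    simp only [MvPolynomial.coe_eval₂Hom, MvPolynomial.eval₂_C]
    rw [← LibHL77.B3_map i (p.coeff m)]
    rfl
  have hG0 : G = 0 := by
    by_contra h0
    exact hi.ind G h0 hG1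
  ext m α
  have hq : ∀ α : Fin 2 →₀ ℕ, (∑ m ∈ Finset.range (p.natDegree + 1),
      monomial m ((p.coeff m).coeff α) : k[X]) = 0 := by
    intro α
    by_contra hne
    apply h
    refine ⟨_, hne, ?_⟩
    have h1 : G.coeff α = 0 := by rw [hG0, MvPolynomial.coeff_zero]
    rw [hG, eval₂_eq_sum_range, MvPolynomial.coeff_sum] at h1
    rw [map_sum, ← h1]
    refine Finset.sum_congr rfl fun m _ => ?_
    rw [aeval_monomial, ← map_pow, mul_comm (MvPolynomial.map _ _), MvPolynomial.coeff_C_mul,
      MvPolynomial.coeff_map, mul_comm]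
  by_cases hm : m ∈ Finset.range (p.natDegree + 1)
  · have h2 := congrArg (fun q : k[X] => q.coeff m) (hq α)
    simp only [finsetSum_coeff, coeff_monomial, coeff_zero] at h2
    rw [Finset.sum_ite_eq' (Finset.range (p.natDegree + 1)) m
      (fun m => (p.coeff m).coeff α), if_pos hm] at h2
    rw [h2, coeff_zero, MvPolynomial.coeff_zero]
  · have h3 : p.coeff m = 0 := by
      apply coeff_eq_zero_of_natDegree_lt
      rw [Finset.mem_range] at hm
      omega
    rw [h3, coeff_zero]

theorem be_genC {c : Dat k} {F K : Type} [Field F] [Algebra k F] [Field K] [Algebra (Lf k) K]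
    {i : EHom k (Lf k) F K} (hi : BE i) {x y : F} (h : GenC c x y) :
    GenC (c.over (Lf k)) (i.f x) (i.f y) := by
  refine ⟨?_, DE8_tr hi h.tr, ?_⟩
  · have h1 : y ^ c.n * ∏ j, (x - algebraMap k F (c.b j)) =
        ∏ j, (x - algebraMap k F (c.a j)) := h.on
    change (i.f y) ^ c.n * ∏ j, (i.f x - algebraMap (Lf k) K (algebraMap k (Lf k) (c.b j))) =
      ∏ j, (i.f x - algebraMap (Lf k) K (algebraMap k (Lf k) (c.a j)))
    have h2 := congrArg i.f h1
    rw [map_mul, map_pow, map_prod, map_prod] at h2
    simp only [map_sub, i.comm] at h2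
    exact h2
  · set A : IntermediateField (Lf k) K := IntermediateField.adjoin (Lf k) {i.f x, i.f y} with hA
    have hx : i.f x ∈ A := IntermediateField.subset_adjoin _ _ (Set.mem_insert _ _)
    have hy : i.f y ∈ A :=
      IntermediateField.subset_adjoin _ _ (Set.mem_insert_of_mem _ (Set.mem_singleton _))
    let S : Subfield F := A.toSubfield.comap i.f
    have hk : ∀ a : k, algebraMap k F a ∈ S := by
      intro a
      change i.f (algebraMap k F a) ∈ A
      rw [i.comm]
      exact A.algebraMap_mem _
    have h3 : IntermediateField.adjoin k {x, y} ≤ S.toIntermediateField hk := by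
      rw [IntermediateField.adjoin_le_iff]
      rintro z (rfl | rfl)
      · exact hx
      · exact hy
    rw [h.gen] at h3
    have h4 : ∀ z : F, i.f z ∈ A.toSubfield := fun z => h3 IntermediateField.mem_top
    rw [eq_top_iff]
    intro z _
    exact LibHL77.B3_top hi A.toSubfield h4 (fun e => A.algebraMap_mem _) z

end Pool.Agent.LibCW77
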