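import Pool.Agent.LibCW77.DE0
import Pool.Agent.LibHL77.B3
/-!
[CW77 DE9] The place of a prime element of `F[T_1, T_2]`. Plan: `R = MvPolynomial (Fin 2) F` is a unique factorisation domain, `evT i : R → K` is injective (`hi.ind`) and every element of `K` is a quotient (`LibHL77.B3_quot`). `ord (evT P / evT Q) = multiplicity π P - multiplicity π Q` (`FiniteMultiplicity.of_not_isUnit`, `multiplicity_mul`,
`multiplicity.min_le_multiplicity_add` or with divisibility), independent of `P`, `Q`. Constants: a nonzero element of `L` is a quotient of polynomials `G` over `k` (`LibHL77.B3_map`), `¬ π ∣ G.map`. Uniformizer: `evT π`. Elements of `F`: constants of `R`, units.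
-/

open scoped Classical
open Polynomial

namespace Pool.Agent.LibCW77

open Pool.Agent.LibBH2
open Pool.Agent.LibCHd (VR RF Red FunF)
open Pool.Agent.LibHL77 (Lf tt EHom NC HE BE mult)

variable {k : Type} [Field k]

theorem prime_place {F K : Type} [Field F] [Algebra k F] [Field K] [Algebra (Lf k) K]
    {i : EHom k (Lf k) F K} (hi : BE i) (π : MvPolynomial (Fin 2) F) (hπ : Prime π)
    (h : ∀ G : MvPolynomial (Fin 2) k, G ≠ 0 → ¬ π ∣ G.map (algebraMap k F)) :
    ∃ w : Place (Lf k) K, (∀ z, w.ord (i.f z) = 0) ∧ ∀ P : MvPolynomial (Fin 2) F, P ≠ 0 →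
      0 ≤ w.ord (evT i P) ∧ (w.ord (evT i P) = 0 ↔ ¬ π ∣ P) := by
  classical
  set φ : MvPolynomial (Fin 2) F →+* K := evT i with hφ
  have hne : ∀ P : MvPolynomial (Fin 2) F, P ≠ 0 → φ P ≠ 0 := hi.ind
  have hinj : Function.Injective φ := by
    rw [injective_iff_map_eq_zero]
    intro P hP
    by_contra h0
    exact hne P h0 hP
  have hquot : ∀ z : K, ∃ G H : MvPolynomial (Fin 2) F, H ≠ 0 ∧ z = φ G / φ H :=
    LibHL77.B3_quot hi
  have hfin : ∀ P : MvPolynomial (Fin 2) F, P ≠ 0 → FiniteMultiplicity π P := fun P hP =>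
    FiniteMultiplicity.of_not_isUnit hπ.not_isUnit hP
  set m : MvPolynomial (Fin 2) F → ℤ := fun P => (multiplicity π P : ℤ) with hm
  have hmul : ∀ P Q : MvPolynomial (Fin 2) F, P ≠ 0 → Q ≠ 0 → m (P * Q) = m P + m Q := by
    intro P Q hP hQ
    simp only [hm]
    rw [multiplicity_mul hπ (hfin _ (mul_ne_zero hP hQ))]
    push_cast
    rfl
  have hadd : ∀ P Q : MvPolynomial (Fin 2) F, P ≠ 0 → Q ≠ 0 → P + Q ≠ 0 →
      min (m P) (m Q) ≤ m (P + Q) := by
    intro P Q hP hQ hPQ
    simp only [hm]
    have h1 : min (multiplicity π P) (multiplicity π Q) ≤ multiplicity π (P + Q) := by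
      apply (hfin _ hPQ).le_multiplicity_of_pow_dvd
      exact dvd_add (pow_dvd_of_le_multiplicity (min_le_left _ _))
        (pow_dvd_of_le_multiplicity (min_le_right _ _))
    exact_mod_cast h1
  have hm0 : ∀ P : MvPolynomial (Fin 2) F, ¬ π ∣ P → m P = 0 := by
    intro P hP
    simp only [hm]
    rw [multiplicity_eq_zero.2 hP, Nat.cast_zero]
  have hm1 : m 1 = 0 := hm0 1 fun h1 => hπ.not_isUnit (isUnit_of_dvd_one h1)
  have hmπ : m π = 1 := by
    simp only [hm]
    rw [multiplicity_self, Nat.cast_one]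
  choose G H hH hz using hquot
  let o : K → ℤ := fun z => if z = 0 then 0 else m (G z) - m (H z)
  have key : ∀ P Q : MvPolynomial (Fin 2) F, P ≠ 0 → Q ≠ 0 → o (φ P / φ Q) = m P - m Q := by
    intro P Q hP hQ
    have hz0 : φ P / φ Q ≠ 0 := div_ne_zero (hne P hP) (hne Q hQ)
    simp only [o]
    rw [if_neg hz0]
    have h1 := hz (φ P / φ Q)
    set z := φ P / φ Q with hzdef
    have hG0 : G z ≠ 0 := by
      intro h0
      rw [h0, map_zero, zero_div] at h1
      exact hz0 h1
    rw [hzdef, div_eq_div_iff (hne Q hQ) (hne _ (hH _))] at h1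
    rw [← map_mul, ← map_mul] at h1
    have h2 := hinj h1
    have h3 := congrArg m h2
    rw [hmul _ _ hP (hH _), hmul _ _ hG0 hQ] at h3
    linarith
  have key1 : ∀ P : MvPolynomial (Fin 2) F, P ≠ 0 → o (φ P) = m P := by
    intro P hP
    have h1 := key P 1 hP one_ne_zero
    rw [map_one, div_one, hm1, sub_zero] at h1
    exact h1
  have hGz : ∀ z, z ≠ 0 → G z ≠ 0 := by
    intro z hz0 h0
    have h1 := hz z
    rw [h0, map_zero, zero_div] at h1
    exact hz0 h1
  refine ⟨{ ord := o
            ord_zero := if_pos rfl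
            ord_mul := ?_
            ord_add := ?_
            ord_const := ?_
            exists_uniformizer := ⟨φ π, ?_⟩ }, ?_, ?_⟩
  · intro f g hf hg
    have e1 : f * g = φ (G f * G g) / φ (H f * H g) := by
      conv_lhs => rw [hz f, hz g]
      rw [map_mul, map_mul, div_mul_div_comm]
    have h1 : o (f * g) = m (G f * G g) - m (H f * H g) := by
      rw [e1]
      exact key _ _ (mul_ne_zero (hGz f hf) (hGz g hg)) (mul_ne_zero (hH _) (hH _))
    have h2 : o f = m (G f) - m (H f) := if_neg hf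
    have h3 : o g = m (G g) - m (H g) := if_neg hg
    rw [h1, h2, h3, hmul _ _ (hGz f hf) (hGz g hg), hmul _ _ (hH _) (hH _)]
    ring
  · intro f g hf hg hfg
    have e1 : f + g = φ (G f * H g + H f * G g) / φ (H f * H g) := by
      conv_lhs => rw [hz f, hz g]
      rw [map_mul, map_add, map_mul, map_mul, div_add_div _ _ (hne _ (hH _)) (hne _ (hH _))]
    have hN : G f * H g + H f * G g ≠ 0 := by
      intro h0
      rw [e1, h0, map_zero, zero_div] at hfg
      exact hfg rfl
    have h1 : o (f + g) = m (G f * H g + H f * G g) - m (H f * H g) := by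
      rw [e1]
      exact key _ _ hN (mul_ne_zero (hH _) (hH _))
    have h2 : o f = m (G f) - m (H f) := if_neg hf
    have h3 : o g = m (G g) - m (H g) := if_neg hg
    have h4 := hadd _ _ (mul_ne_zero (hGz f hf) (hH g)) (mul_ne_zero (hH f) (hGz g hg)) hN
    rw [hmul _ _ (hGz f hf) (hH g), hmul _ _ (hH f) (hGz g hg)] at h4
    rw [h1, h2, h3, hmul _ _ (hH _) (hH _)]
    rcases min_le_iff.1 h4 with h5 | h5
    · exact min_le_iff.2 (Or.inl (by linarith))
    · exact min_le_iff.2 (Or.inr (by linarith))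
  · intro c hc
    obtain ⟨p, q, hq, rfl⟩ := IsFractionRing.div_surjective (A := MvPolynomial (Fin 2) k) c
    have hq0 : q ≠ 0 := nonZeroDivisors.ne_zero hq
    have hp0 : p ≠ 0 := by
      rintro rfl
      exact hc (by rw [map_zero, zero_div])
    have hmp : ∀ p : MvPolynomial (Fin 2) k, p ≠ 0 →
        MvPolynomial.map (algebraMap k F) p ≠ 0 := by
      intro p hp h0
      exact hp ((MvPolynomial.map_injective _ (algebraMap k F).injective)
        (h0.trans (map_zero _).symm))
    have e1 : algebraMap (Lf k) K (algebraMap (MvPolynomial (Fin 2) k) (Lf k) p /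
        algebraMap (MvPolynomial (Fin 2) k) (Lf k) q) =
        φ (MvPolynomial.map (algebraMap k F) p) / φ (MvPolynomial.map (algebraMap k F) q) := by
      rw [map_div₀, LibHL77.B3_map i p, LibHL77.B3_map i q]
      rfl
    rw [e1, key _ _ (hmp p hp0) (hmp q hq0), hm0 _ (h p hp0), hm0 _ (h q hq0), sub_zero]
  · rw [key1 π hπ.ne_zero, hmπ]
  · intro z
    by_cases hz0 : z = 0
    · change o (i.f z) = 0
      rw [hz0, map_zero i.f]
      exact if_pos rfl
    · have e1 : i.f z = φ (MvPolynomial.C z) := by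
        rw [hφ, evT, MvPolynomial.coe_eval₂Hom, MvPolynomial.eval₂_C]
      change o (i.f z) = 0
      rw [e1, key1 _ (by rw [Ne, MvPolynomial.C_eq_zero]; exact hz0)]
      apply hm0
      intro h1
      exact hπ.not_isUnit (isUnit_of_dvd_unit h1 ((isUnit_iff_ne_zero.2 hz0).map MvPolynomial.C))
  · intro P hP
    change 0 ≤ o (φ P) ∧ (o (φ P) = 0 ↔ ¬ π ∣ P)
    rw [key1 P hP]
    refine ⟨by simp only [hm]; positivity, ?_⟩
    simp only [hm]
    rw [Nat.cast_eq_zero, multiplicity_eq_zero]

end Pool.Agent.LibCW77
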