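import Pool.Agent.LibCHd.Defs

/-!
Cycles on the powers of the curve `C : v ^ n ∏ (x - b_i) = ∏ (x - a_i)` (`i = 0, 1, 2`) in `ℙ¹ × ℙ¹`.

A closed integral subvariety of dimension `d` is given by its generic point, a point with coordinates in a
function field `M` of dimension `d`.
-/

open scoped Classical
open Polynomial

namespace Pool.Agent.LibCW77

open Pool.Agent.LibBH2
open Pool.Agent.LibCHd (VR RF Red FunF)

/-- The data of the curve `v ^ n ∏ (x - b_i) = ∏ (x - a_i)`. -/
structure Dat (k : Type) where
  /-- the degree of the covering `x` -/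
  n : ℕ
  /-- the zeros of `v` -/
  a : Fin 3 → k
  /-- the poles of `v` -/
  b : Fin 3 → k

/-- The same curve over a larger field. -/
def Dat.map {k M : Type} [Field k] [Field M] (f : k →+* M) (c : Dat k) : Dat M :=
  ⟨c.n, fun i => f (c.a i), fun i => f (c.b i)⟩

/-- The curve over the field `M` over `k`. -/
abbrev Dat.over {k : Type} [Field k] (c : Dat k) (M : Type) [Field M] [Algebra k M] : Dat M :=
  c.map (algebraMap k M)

/-- `n ≥ 2` and the six numbers `a_i`, `b_i` are different. -/
structure Dat.Good {k : Type} (c : Dat k) : Prop where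
  two : 2 ≤ c.n
  inj : Function.Injective (Sum.elim c.a c.b)

section points

variable {M : Type} [Field M]

/-- `(x, v)` is a point of the curve (`none` is the point at infinity of `ℙ¹`). -/
def OnC (c : Dat M) : Option M → Option M → Prop
  | some x, some v => v ^ c.n * ∏ i, (x - c.b i) = ∏ i, (x - c.a i)
  | none, some v => v ^ c.n = 1
  | some x, none => ∃ i, x = c.b i
  | none, none => False

/-- The points of `(ℙ¹ × ℙ¹) ^ m` with coordinates in `M`: the point number `j` is `(u j 0, u j 1)`. -/
abbrev Pnt (m : ℕ) (M : Type) : Type := Fin m → Fin 2 → Option M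

/-- `u` is a point of `C ^ m`. -/
def On (c : Dat M) {m : ℕ} (u : Pnt m M) : Prop := ∀ j, OnC c (u j 0) (u j 1)

end points

variable {k : Type} [Field k]

section cycles

variable {m : ℕ} {M : Type} [Field M] [Algebra k M]

/-- All affine coordinates of a point (zero for the coordinates at infinity). -/
def co (u : Pnt m M) (q : Fin m × Fin 2) : M := (u q.1 q.2).getD 0

/-- The closed subvariety with the generic point `u`: the set of the coordinates at infinity and the ideal of the
polynomial relations between the affine coordinates. -/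
noncomputable def eqs (k : Type) [Field k] {M : Type} [Field M] [Algebra k M] (u : Pnt m M) :
    Set (Fin m × Fin 2) × Set (MvPolynomial (Fin m × Fin 2) k) :=
  ({q | u q.1 q.2 = none}, {G | MvPolynomial.aeval (co u) G = 0})

/-- The field generated by the coordinates of `u`: the function field of the subvariety. -/
noncomputable def fld (k : Type) [Field k] {M : Type} [Field M] [Algebra k M] (u : Pnt m M) :
    IntermediateField k M :=
  IntermediateField.adjoin k (Set.range (co u))

/-- Cycles: formal integral combinations of closed subvarieties, each given as in `eqs` (pairs which are not of the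
form `eqs u` play no role). -/
abbrev Cyc (k : Type) [Field k] (m : ℕ) : Type :=
  (Set (Fin m × Fin 2) × Set (MvPolynomial (Fin m × Fin 2) k)) →₀ ℤ

/-- The cycle of the point `u`: the subvariety with the generic point `u`, with the multiplicity `[M : k(u)]` if
this degree is finite, and `0` otherwise (push-forward of the fundamental cycle of a model of `M`). -/
noncomputable def cyc (k : Type) [Field k] {M : Type} [Field M] [Algebra k M] (u : Pnt m M) : Cyc k m :=
  Finsupp.single (eqs k u) (Module.finrank (fld k u) M : ℤ)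

/-- Specialisation of a point of the projective line at a place. -/
def SpO {K : Type} [Field K] [Algebra k K] (v : Place k K) : Option K → Option (RF v) → Prop
  | none, p => p = none
  | some x, none => v.ord x < 0
  | some x, some x₀ => Red v x x₀

/-- `q` is the specialisation of the point `u` at the place `v`. -/
def SpP {K : Type} [Field K] [Algebra k K] (v : Place k K) (u : Pnt m K) (q : Pnt m (RF v)) : Prop :=
  ∀ j i, SpO v (u j i) (q j i)

/-- `e` is the push-forward of the divisor of a function `g`: `K` is a function field of dimension `d + 1`, `u` a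
`K`-point of `C ^ m` (a rational map from a model of `K`), and `e` is the sum over the places `v` of `K` whose
residue field is a function field of dimension `d` of `ord_v g` times the cycle of the specialisation of `u`
at `v`. -/
def IsDiv (c : Dat k) (m d : ℕ) (e : Cyc k m) : Prop :=
  ∃ (K : Type) (_ : Field K) (_ : Algebra k K) (u : Pnt m K) (g : K) (S : Finset (Place k K))
    (E : Place k K → Cyc k m),
    FunF k (d + 1) K ∧ On (c.over K) u ∧ g ≠ 0 ∧
    (∀ v ∈ S, FunF k d (RF v) ∧ ∃ q : Pnt m (RF v), SpP v u q ∧ E v = cyc k q) ∧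
    (∀ v, v ∉ S → v.ord g ≠ 0 → FunF k d (RF v) → ∀ q : Pnt m (RF v), SpP v u q → cyc k q = 0) ∧
    e = ∑ v ∈ S, v.ord g • E v

/-- The cycles of dimension `d` rationally equivalent to zero. -/
noncomputable def RatEq (c : Dat k) (m d : ℕ) : AddSubgroup (Cyc k m) :=
  AddSubgroup.closure {e | IsDiv c m d e}

/-- Cycles on `C ^ m` modulo rational equivalence. -/
abbrev CH (c : Dat k) (m d : ℕ) : Type := Cyc k m ⧸ RatEq c m d

/-- The class of the cycle of the point `u`. -/
noncomputable def cls (c : Dat k) (d : ℕ) (u : Pnt m M) : CH c m d := QuotientAddGroup.mk (cyc k u)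

end cycles

section group

variable {m : ℕ} {M : Type} [Field M] [Algebra k M]

/-- `(x_j, v_j) ↦ (x_j, w_j v_j)` -/
noncomputable def tw (w : Fin m → k) (u : Pnt m M) : Pnt m M :=
  fun j => ![u j 0, (u j 1).map fun v => algebraMap k M (w j) * v]

/-- permutation of the points -/
def pr (σ : Equiv.Perm (Fin m)) (u : Pnt m M) : Pnt m M := fun j => u (σ j)

/-- the triples of `n`-th roots of unity with product `1` -/
noncomputable def W (c : Dat k) : Finset (Fin 3 → k) :=
  (Fintype.piFinset fun _ => nthRootsFinset c.n (1 : k)).filter fun w => ∏ j, w j = 1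

/-- the vector `(ζ, 1, 1)` -/
def t1 (ζ : k) : Fin 3 → k := ![ζ, 1, 1]

/-- `∑ cls (h u) - cls (h τ₁ u)`, the sum over the `h = (w, σ)` with `w ∈ μ_n ^ 3`, `∏ w_j = 1`, `σ ∈ S_3` -/
noncomputable def mns (c : Dat k) (ζ : k) (u : Pnt 3 M) : CH c 3 1 :=
  ∑ σ : Equiv.Perm (Fin 3), ∑ w ∈ W c, (cls c 1 (pr σ (tw w u)) - cls c 1 (pr σ (tw w (tw (t1 ζ) u))))

end group

section forms

variable {M : Type} [Field M]

/-- the value at `c` of the linear polynomial with the root `x` (of the polynomial `1` if `x = ∞`) -/
def ev (x : Option M) (c : M) : M :=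
  match x with
  | none => 1
  | some x => c - x

/-- `1 / F'(a_i)`, `F = ∏ (x - a_i) (x - b_i)` -/
noncomputable def ka (c : Dat M) (i : Fin 3) : M :=
  (((Finset.univ.erase i).prod fun j => c.a i - c.a j) * ∏ j, (c.a i - c.b j))⁻¹

/-- `1 / F'(b_i)` -/
noncomputable def kb (c : Dat M) (i : Fin 3) : M :=
  ((∏ j, (c.b i - c.a j)) * (Finset.univ.erase i).prod fun j => c.b i - c.b j)⁻¹

/-- `p(a_i)`, `p` the polynomial with the roots `x_0, x_1, ...` -/
def Xv (c : Dat M) {m : ℕ} (u : Pnt m M) (i : Fin 3) : M := ∏ j, ev (u j 0) (c.a i)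

/-- `p(b_i)` -/
def Yv (c : Dat M) {m : ℕ} (u : Pnt m M) (i : Fin 3) : M := ∏ j, ev (u j 0) (c.b i)

/-- `(R, Y, u)`: ratios `R_i = p(a_i) / p(b_i)`, values `Y_i = p(b_i)` up to a common factor, product `u` of the
coordinates `v` -/
structure Zp (M : Type) where
  R : Fin 3 → M
  Y : Fin 3 → M
  u : M

/-- the linear form with the coefficients `A_i` -/
noncomputable def cA (c : Dat M) (R : Fin 3 → M) (i : Fin 3) : M := ka c i * R i + kb c i

/-- the linear form with the coefficients `B_i` -/
noncomputable def cB (c : Dat M) (R : Fin 3 → M) (i : Fin 3) : M := ka c i * c.a i * R i + kb c i * c.b i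

/-- the conditions for `(R, Y, u)`: all components are different from `0` -/
structure IsZ (c : Dat M) (z : Zp M) : Prop where
  R0 : ∀ i, z.R i ≠ 0
  Y0 : ∀ i, z.Y i ≠ 0
  u0 : z.u ≠ 0
  un : z.u ^ c.n = ∏ i, z.R i
  r1 : ∑ i, cA c z.R i * z.Y i = 0
  r2 : ∑ i, cB c z.R i * z.Y i = 0

/-- the point `P` of `C ^ 3` lies over `z` -/
structure IsLift (c : Dat M) (z : Zp M) (P : Pnt 3 M) : Prop where
  on : On c P
  val : ∃ l : M, l ≠ 0 ∧ ∀ i, Xv c P i = l * (z.R i * z.Y i) ∧ Yv c P i = l * z.Y i
  prod : ∃ v : Fin 3 → M, (∀ j, P j 1 = some (v j)) ∧ ∏ j, v j = z.u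

end forms

end Pool.Agent.LibCW77
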