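import Pool.Agent.LibCW77.Defs

/-!
Z-points: their classes, specialisations, the lines `L(Q)`.
-/

open scoped Classical
open Polynomial

namespace Pool.Agent.LibCW77

open Pool.Agent.LibBH2
open Pool.Agent.LibCHd (VR RF Red FunF)

/-- the map on the coordinates induced by a homomorphism of fields -/
def mpP {M M' : Type} (f : M → M') {m : ℕ} (u : Pnt m M) : Pnt m M' := fun j i => (u j i).map f

/-- the map on Z-points induced by a homomorphism of fields -/
def Zp.map {M M' : Type} (f : M → M') (z : Zp M) : Zp M' :=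
  ⟨fun i => f (z.R i), fun i => f (z.Y i), f z.u⟩

/-- the Z-point of a triple of points -/
noncomputable def zpt {M : Type} [Field M] (c : Dat M) (P : Pnt 3 M) : Zp M :=
  ⟨fun i => Xv c P i / Yv c P i, Yv c P, ∏ j, (P j 1).getD 0⟩

/-- one of the points `P_j` is ramified -/
def Ram {M : Type} [Field M] {m : ℕ} (P : Pnt m M) : Prop := ∃ j, P j 1 = none ∨ P j 1 = some 0

section

variable {k : Type} [Field k]

/-- specialisation of Z-points -/
structure SpZ {K : Type} [Field K] [Algebra k K] (v : Place k K) (z : Zp K) (z' : Zp (RF v)) : Prop where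
  R : ∀ i, Red v (z.R i) (z'.R i)
  u : Red v z.u z'.u
  Y : ∃ l : K, ∀ i, Red v (l * z.Y i) (z'.Y i)

/-- the Z-point is constant -/
structure CstZ (k : Type) [Field k] {M : Type} [Field M] [Algebra k M] (z : Zp M) : Prop where
  R : ∀ i, IsAlgebraic k (z.R i)
  u : IsAlgebraic k z.u
  Y : ∀ i j, IsAlgebraic k (z.Y i / z.Y j)

/-- the field generated by the ratios `Y_i / Y_j` -/
noncomputable def yf (k : Type) [Field k] {M : Type} [Field M] [Algebra k M] (Y : Fin 3 → M) :
    IntermediateField k M :=
  IntermediateField.adjoin k (Set.range fun p : Fin 3 × Fin 3 => Y p.1 / Y p.2)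

/-- the ratio `R_i` of the lines `L(Q)`, `Q = (z, v)` -/
noncomputable def lR {M : Type} [Field M] (c : Dat M) (z : Option M) (i : Fin 3) : M :=
  -(kb c i * ev z (c.b i)) / (ka c i * ev z (c.a i))

/-- the Z-point `z` lies on the line `L(Q)`, `Q` a point of the curve over `k`, not ramified -/
def OnLine (c : Dat k) (ν : k) (Q : Fin 2 → Option k) {M : Type} [Field M] [Algebra k M] (z : Zp M) : Prop :=
  (∀ i, z.R i = algebraMap k M (lR c (Q 0) i)) ∧
    ∃ q, Q 1 = some q ∧ q ≠ 0 ∧ z.u * algebraMap k M q = algebraMap k M ν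

/-- the cross product of the vectors `A` and `B` -/
noncomputable def crs {M : Type} [Field M] (c : Dat M) (R : Fin 3 → M) (i : Fin 3) : M :=
  cA c R (i + 1) * cB c R (i + 2) - cA c R (i + 2) * cB c R (i + 1)

variable {V : Type} [AddCommGroup V] [Module ℚ V]

/-- the class of a Z-point in a `ℚ`-vector space `V` with a homomorphism `CH_1(C ^ 3) → V`: the class `mns` of a
lift over `M'`, divided by the degree of `M'` -/
noncomputable def TZ (c : Dat k) (ζ : k) (q : CH c 3 1 →+ V) {M : Type} [Field M] [Algebra k M] (z : Zp M) : V :=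
  if h : ∃ t : V, ∀ (M' : Type) (_ : Field M') (_ : Algebra k M') (i : M →ₐ[k] M') (P : Pnt 3 M'),
    Module.finrank i.fieldRange M' ≠ 0 → IsLift (c.over M') (z.map i) P →
    q (mns c ζ P) = Module.finrank i.fieldRange M' • t then h.choose else 0

/-- the class of the line `L(Q)` (`0` if `Q` is ramified) -/
noncomputable def Lval (c : Dat k) (ζ ν : k) (q : CH c 3 1 →+ V) (Q : Fin 2 → Option k) : V :=
  if h : (∃ x, Q 1 = some x ∧ x ≠ 0) ∧ ∃ t : V, ∀ (M : Type) (_ : Field M) (_ : Algebra k M) (z : Zp M),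
    FunF k 1 M → IsZ (c.over M) z → OnLine c ν Q z →
    TZ c ζ q z = Module.finrank (yf k z.Y) M • t then h.2.choose else 0

end

end Pool.Agent.LibCW77
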