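import Pool.Agent.LibCW77.Defs2

/-!
Rational function fields in one variable over a function field `M`.
-/

open scoped Classical
open Polynomial

namespace Pool.Agent.LibCW77

open Pool.Agent.LibBH2
open Pool.Agent.LibCHd (VR RF Red FunF)

variable {k : Type} [Field k]

/-- `N = M(μ)`, `μ` transcendental over `M` -/
structure Rat1 {M N : Type} [Field M] [Algebra k M] [Field N] [Algebra k N] (i : M →ₐ[k] N) (μ : N) :
    Prop where
  tr : ∀ G : M[X], G ≠ 0 → G.eval₂ (i : M →+* N) μ ≠ 0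
  gen : ∀ z : N, ∃ P Q : M[X], Q ≠ 0 ∧ z = P.eval₂ (i : M →+* N) μ / Q.eval₂ (i : M →+* N) μ

/-- the place `v` of `N` lies over the place `w` of `M`, with the ramification index `e`, and constant residues
agree -/
structure Ovr {M N : Type} [Field M] [Algebra k M] [Field N] [Algebra k N] (i : M →ₐ[k] N) (w : Place k M)
    (v : Place k N) (e : ℤ) : Prop where
  pos : 0 < e
  ord : ∀ x, v.ord (i x) = e * w.ord x
  res : ∀ x (c : k), Red w x (algebraMap k (RF w) c) → Red v (i x) (algebraMap k (RF v) c)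

/-- the Z-point moved by `lam`: `R_i ↦ lam ^ (n e_i) R_i`, `u ↦ lam ^ (∑ e_i) u`, `Y` the cross product -/
noncomputable def zl (c : Dat k) {M N : Type} [Field M] [Algebra k M] [Field N] [Algebra k N] (i : M →ₐ[k] N)
    (lam : N) (e : Fin 3 → ℤ) (z : Zp M) : Zp N :=
  ⟨fun j => lam ^ ((c.n : ℤ) * e j) * i (z.R j),
    crs (c.over N) fun j => lam ^ ((c.n : ℤ) * e j) * i (z.R j), lam ^ (∑ j, e j) * i z.u⟩

/-- the derivative at `lam = 1` of the cross product, divided by `n` -/
noncomputable def dcrs {M : Type} [Field M] (c : Dat M) (R : Fin 3 → M) (e : Fin 3 → ℤ) (i : Fin 3) : M :=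
  (ka c (i + 1) * ((e (i + 1) : ℤ) * R (i + 1)) * cB c R (i + 2) +
    cA c R (i + 1) * (ka c (i + 2) * c.a (i + 2) * ((e (i + 2) : ℤ) * R (i + 2)))) -
  (ka c (i + 2) * ((e (i + 2) : ℤ) * R (i + 2)) * cB c R (i + 1) +
    cA c R (i + 2) * (ka c (i + 1) * c.a (i + 1) * ((e (i + 1) : ℤ) * R (i + 1))))

/-- `f` and `g` are linearly independent -/
def Indep {M : Type} [Field M] (f g : Fin 3 → M) : Prop := ∃ i j, f i * g j ≠ f j * g i

end Pool.Agent.LibCW77
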