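import Pool.Agent.LibCW77.Defs4
import Pool.Agent.LibHL77.Defs

/-!
Residual pairs, and the cycles `B(Q)`.
-/

open scoped Classical
open Polynomial

namespace Pool.Agent.LibCW77

open Pool.Agent.LibBH2
open Pool.Agent.LibCHd (VR RF Red FunF)
open Pool.Agent.LibHL77 (Lf tt EHom NC HE BE mult)

variable {k : Type} [Field k]

/-- a point of the curve over `k` as a point over `M` -/
def ctp (M : Type) [Field M] [Algebra k M] (Q : Fin 2 → Option k) : Fin 2 → Option M :=
  fun i => (Q i).map (algebraMap k M)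

/-- the point `Q` of the curve is not ramified -/
def UnR {M : Type} [Field M] (Q : Fin 2 → Option M) : Prop := ∃ y, Q 1 = some y ∧ y ≠ 0

/-- `∑_w (w Q, w⁻¹ R, R) + (w⁻¹ R, w Q, R)`, the sum over the `n`-th roots of unity `w`; `R` is a point over `M` -/
noncomputable def BR (c : Dat k) {M : Type} [Field M] [Algebra k M] (R : Fin 2 → Option M)
    (Q : Fin 2 → Option k) : CH c 3 1 :=
  ∑ w ∈ nthRootsFinset c.n (1 : k), (cls c 1 (tri (tau w (ctp M Q)) (tau w⁻¹ R) R) +
    cls c 1 (tri (tau w⁻¹ R) (tau w (ctp M Q)) R))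

/-- the class over `k(T_1, T_2)` of a point of the curve over `k` -/
noncomputable def bpt (c : Dat k) (Q : Fin 2 → Option k) : CH (c.over (Lf k)) 1 0 :=
  cls (c.over (Lf k)) 0 (pt1 (ctp (Lf k) Q))

/-- the degree of `M` over `k(x)` -/
noncomputable def dg (k : Type) [Field k] {M : Type} [Field M] [Algebra k M] (x : M) : ℕ :=
  Module.finrank (IntermediateField.adjoin k {x}) M

end Pool.Agent.LibCW77
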