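import Pool.Agent.LibCW77.Defs5

/-!
Residual pairs: definitions.
-/

open scoped Classical
open Polynomial

namespace Pool.Agent.LibCW77

open Pool.Agent.LibBH2
open Pool.Agent.LibCHd (VR RF Red FunF)

/-- the pairs `a_i, b_i` are not in involution: the polynomials `(t - a_i) (t - b_i)` are linearly independent -/
def ND {M : Type} [Field M] (c : Dat M) : Prop :=
  (c.a 1 + c.b 1 - (c.a 0 + c.b 0)) * (c.a 2 * c.b 2 - c.a 0 * c.b 0) ≠
    (c.a 2 + c.b 2 - (c.a 0 + c.b 0)) * (c.a 1 * c.b 1 - c.a 0 * c.b 0)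

/-- `(t - a_i) (t - b_i)` -/
def en {M : Type} [Field M] (c : Dat M) (i : Fin 3) (t : M) : M := (t - c.a i) * (t - c.b i)

/-- the first two points of a triple -/
def fst2 {M : Type} (P : Pnt 3 M) : Pnt 2 M := ![P 0, P 1]

/-- `P` is a pair of points, `p` the polynomial with the roots `x_0, x_1`, `u` the product of the coordinates `v` -/
structure IsPr {M : Type} [Field M] (c : Dat M) (p : M[X]) (u : M) (P : Pnt 2 M) : Prop where
  on : On c P
  pol : ∃ l : M, l ≠ 0 ∧ ∀ t, ∏ j, ev (P j 0) t = l * p.eval t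
  prod : ∃ v : Fin 2 → M, (∀ j, P j 1 = some (v j)) ∧ ∏ j, v j = u

/-- `P'` is a residual pair of `P` -/
structure IsRes {M : Type} [Field M] (c : Dat M) (ν : M) (P P' : Pnt 2 M) : Prop where
  on : On c P'
  rel : ∀ i, ka c i * (Xv c P i * Xv c P' i) + kb c i * (Yv c P i * Yv c P' i) = 0
  prod : ∃ v v' : Fin 2 → M, (∀ j, P j 1 = some (v j)) ∧ (∀ j, P' j 1 = some (v' j)) ∧
    (∏ j, v j) * ∏ j, v' j = ν

/-- the pair `P'` is in the pencil residual to the pair `a_i, b_i` -/
structure IsPen {M : Type} [Field M] (c : Dat M) (i : Fin 3) (u : M) (P' : Pnt 2 M) : Prop where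
  on : On c P'
  rel : ∀ j, j ≠ i → ka c j * (en c i (c.a j) * Xv c P' j) + kb c j * (en c i (c.b j) * Yv c P' j) = 0
  prod : ∃ v : Fin 2 → M, (∀ j, P' j 1 = some (v j)) ∧ ∏ j, v j = u
  u0 : u ≠ 0

/-- the line through the pair `P` passes through the node number `i` -/
def NodeRel {M : Type} [Field M] (c : Dat M) (i : Fin 3) (P : Pnt 2 M) : Prop :=
  ∀ j, j ≠ i → ka c j * (Xv c P j * en c i (c.a j)) + kb c j * (Yv c P j * en c i (c.b j)) = 0

section

variable {k : Type} [Field k]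

/-- `∑ cls (h P', R)`, the sum over the `h = (w, w⁻¹) σ` -/
noncomputable def ms0 (c : Dat k) {M : Type} [Field M] [Algebra k M] (P' : Pnt 2 M) (R : Fin 2 → Option M) :
    CH c 3 1 :=
  ∑ σ : Equiv.Perm (Fin 2), ∑ w ∈ nthRootsFinset c.n (1 : k),
    cls c 1 (tri (pr σ (tw ![w, w⁻¹] P') 0) (pr σ (tw ![w, w⁻¹] P') 1) R)

/-- `∑ cls (h P', R) - cls (h τ₁ P', R)` -/
noncomputable def msp (c : Dat k) (ζ : k) {M : Type} [Field M] [Algebra k M] (P' : Pnt 2 M)
    (R : Fin 2 → Option M) : CH c 3 1 :=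
  ms0 c P' R - ms0 c (tw ![ζ, 1] P') R

variable {V : Type} [AddCommGroup V] [Module ℚ V]

/-- the class of the residual pairs of the first two points of the triple `P`, with the third point; `0` if there are
no residual pairs -/
noncomputable def SV (c : Dat k) (ζ ν : k) (q : CH c 3 1 →+ V) {M : Type} [Field M] [Algebra k M]
    (P : Pnt 3 M) : V :=
  if h : (∃ (M' : Type) (_ : Field M') (_ : Algebra k M') (i : M →ₐ[k] M') (P' : Pnt 2 M'),
      Module.finrank i.fieldRange M' ≠ 0 ∧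
        IsRes (c.over M') (algebraMap k M' ν) (fst2 (mpP i P)) P') ∧
    ∃ t : V, ∀ (M' : Type) (_ : Field M') (_ : Algebra k M') (i : M →ₐ[k] M') (P' : Pnt 2 M'),
      Module.finrank i.fieldRange M' ≠ 0 →
        IsRes (c.over M') (algebraMap k M' ν) (fst2 (mpP i P)) P' →
          q (msp c ζ P' (mpP i P 2)) = Module.finrank i.fieldRange M' • t
  then h.2.choose else 0

end

end Pool.Agent.LibCW77
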