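import Pool.Agent.LibCW77.Defs6

/-!
Definitions for the main theorem: the two spaces, triples on the line of a point, semilinear isomorphisms.
-/

open scoped Classical
open Polynomial

namespace Pool.Agent.LibCW77

open Pool.Agent.LibBH2
open Pool.Agent.LibCHd (VR RF Red FunF)

variable {k : Type} [Field k]

/-- the class in `ℚ ⊗ A` -/
noncomputable def qt (A : Type) [AddCommGroup A] : A →+ TensorProduct ℤ ℚ A := (TensorProduct.mk ℤ ℚ A 1).toAddMonoidHom

/-- the divisor class `Q - τ Q` in `ℚ ⊗ CH_0(C)` -/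
noncomputable def dQ (c : Dat k) (ζ : k) (Q : Fin 2 → Option k) : TensorProduct ℤ ℚ (CH c 1 0) :=
  qt _ (cls c 0 (pt1 Q) - cls c 0 (pt1 (tau ζ Q)))

/-- the subspace of `ℚ ⊗ CH_0(C)` spanned by the classes `Q - τ Q`, `Q` a point of the curve -/
noncomputable def V0 (c : Dat k) (ζ : k) : Submodule ℚ (TensorProduct ℤ ℚ (CH c 1 0)) :=
  Submodule.span ℚ {x | ∃ Q : Fin 2 → Option k, OnC c (Q 0) (Q 1) ∧ x = dQ c ζ Q}

/-- the subspace of `ℚ ⊗ CH_1(C ^ 3)` spanned by the classes `mns P`, `P` a curve on `C ^ 3` -/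
noncomputable def V1 (c : Dat k) (ζ : k) : Submodule ℚ (TensorProduct ℤ ℚ (CH c 3 1)) :=
  Submodule.span ℚ {x | ∃ (M : Type) (_ : Field M) (_ : Algebra k M) (P : Pnt 3 M), FunF k 1 M ∧ On (c.over M) P ∧
    x = qt _ (mns c ζ P)}

/-- the triple `P` is on the line of the point `Q` of the curve -/
def Col (c : Dat k) (ν : k) (Q : Fin 2 → Option k) {M : Type} [Field M] [Algebra k M] (P : Pnt 3 M) : Prop :=
  (∀ i, ka (c.over M) i * (Xv (c.over M) P i * ev ((Q 0).map (algebraMap k M)) ((c.over M).a i)) +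
    kb (c.over M) i * (Yv (c.over M) P i * ev ((Q 0).map (algebraMap k M)) ((c.over M).b i)) = 0) ∧
  ∃ (v : Fin 3 → M) (y : k), (∀ j, P j 1 = some (v j)) ∧ Q 1 = some y ∧ (∏ j, v j) * algebraMap k M y = algebraMap k M ν

/-- the field generated by the ratios of the values `p(b_i)` of the polynomial `p` with the roots `x(P_j)` -/
noncomputable def pf (c : Dat k) {M : Type} [Field M] [Algebra k M] (P : Pnt 3 M) : IntermediateField k M :=
  yf k (Yv (c.over M) P)

/-- a semilinear isomorphism of fields over the automorphism `s` of `k` -/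
structure SI (s : k ≃+* k) (M M' : Type) [Field M] [Algebra k M] [Field M'] [Algebra k M'] where
  f : M ≃+* M'
  comm : ∀ a : k, f (algebraMap k M a) = algebraMap k M' (s a)

/-- the automorphism `s` fixes the numbers `a_i`, `b_i` -/
def Fix (c : Dat k) (s : k ≃+* k) : Prop := ∀ i, s (c.a i) = c.a i ∧ s (c.b i) = c.b i

/-- `Γ` is the action of `s` on the classes of cycles -/
def IsAct {c : Dat k} {m d : ℕ} (s : k ≃+* k) (Γ : CH c m d →+ CH c m d) : Prop :=
  ∀ (M M' : Type) [Field M] [Algebra k M] [Field M'] [Algebra k M'] (i : SI s M M') (u : Pnt m M),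
    Γ (cls c d u) = cls c d (mpP i.f u)

end Pool.Agent.LibCW77
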