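import Pool.Agent.LibCW77.Defs7

/-!
Definitions for the main theorem: the data in the formula for the class of an arbitrary curve on `C ^ 3`.
-/

open scoped Classical
open Polynomial

namespace Pool.Agent.LibCW77

open Pool.Agent.LibBH2
open Pool.Agent.LibCHd (VR RF Red FunF)

variable {k : Type} [Field k]

/-- `R_i = p(a_i) / p(b_i)`, `p(t) = ∏ (t - x(P_j))` -/
noncomputable def rat {M : Type} [Field M] (c : Dat M) (P : Pnt 3 M) (i : Fin 3) : M := Xv c P i / Yv c P i

/-- the minors of the matrix with the rows `ka_i R_i + kb_i`, `ka_i a_i R_i + kb_i b_i`, `R_i = rat c P i` -/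
noncomputable def mnr {M : Type} [Field M] (c : Dat M) (P : Pnt 3 M) (i : Fin 3) : M := crs c (rat c P) i

/-- The data of a curve `P` for which not all minors are `0`: `S` is the set of the places `w` of `M` where the `R_i` are
units and all the minors vanish, `m w` is the order of the ideal of the minors, and `Q w` is the point `(z, y)` of
`C` with the values `R_i(w) = - kb_i (b_i - z) / (ka_i (a_i - z))` and `(v_1 v_2 v_3)(w) = ν / y`. -/
structure CurveData (c : Dat k) (ν : k) {M : Type} [Field M] [Algebra k M] (P : Pnt 3 M) (S : Finset (Place k M))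
    (m : Place k M → ℕ) (Q : Place k M → Fin 2 → Option k) : Prop where
  mem : ∀ w, w ∈ S ↔ (∀ j, w.ord (rat (c.over M) P j) = 0) ∧
    ∀ j, mnr (c.over M) P j ≠ 0 → 0 < w.ord (mnr (c.over M) P j)
  pos : ∀ w ∈ S, 0 < m w
  le : ∀ w ∈ S, ∀ j, mnr (c.over M) P j ≠ 0 → (m w : ℤ) ≤ w.ord (mnr (c.over M) P j)
  eq : ∀ w ∈ S, ∃ j, mnr (c.over M) P j ≠ 0 ∧ w.ord (mnr (c.over M) P j) = m w
  on : ∀ w ∈ S, OnC c (Q w 0) (Q w 1)
  R : ∀ w ∈ S, ∀ j, Red w (rat (c.over M) P j) (algebraMap k (RF w) (lR c (Q w 0) j))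
  u : ∀ w ∈ S, ∃ y, Q w 1 = some y ∧ y ≠ 0 ∧ Red w (∏ j, (P j 1).getD 0) (algebraMap k (RF w) (ν / y))

/-- The data of a curve `P` for which all minors are `0`: `P` is on the lines of the points `q = (x, y)` of `C` over `M`,
`S` is the set of the zeros of `p(b_0) / p(b_1)`, and `Q w` is the value of `q` at the place `w`. -/
structure ConeData (c : Dat k) (ν : k) {M : Type} [Field M] [Algebra k M] (P : Pnt 3 M) (x : Option M) (y : M)
    (S : Finset (Place k M)) (Q : Place k M → Fin 2 → Option k) : Prop where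
  y0 : y ≠ 0
  on : OnC (c.over M) x (some y)
  R : ∀ j, rat (c.over M) P j = lR (c.over M) x j
  u : (∏ j, (P j 1).getD 0) * y = algebraMap k M ν
  mem : ∀ w, w ∈ S ↔ 0 < w.ord (Yv (c.over M) P 0 / Yv (c.over M) P 1)
  x : ∀ w, SpO w x ((Q w 0).map (algebraMap k (RF w)))
  y : ∀ w, SpO w (some y) ((Q w 1).map (algebraMap k (RF w)))
  onQ : ∀ w, OnC c (Q w 0) (Q w 1)

end Pool.Agent.LibCW77
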