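import Pool.Agent.LibCW77.Defs6

/-!
[CW77 F4] One of four pairings of the six numbers is not in involution. For a permutation `σ` of the `b_i` let `D_σ` be the determinant of `ND` for the pairs `a_i, b_(σ i)`. Suppose `D_1 = D_(123) = D_(23) = D_(13) = 0` (as polynomials in `b_2`, say; `D_σ = det (1, a_i + b_(σ i), a_i b_(σ i))`). Sketch: the sum over the
three cyclic (or over the three odd) permutations and differences are products of differences: e.g. find by computer algebra an identity showing that the ideal of four of the determinants contains a power of the product of the differences of the six numbers, or: an involution of `ℙ¹`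
(a Möbius map, determined by the images of three points) with `a_i ↔ b_i` and one with `a_i ↔ b_(σ i)`; the composition is a Möbius map which permutes the `b_i` by `σ`, the composition in the other order permutes the `a_i`. Use any four (or all six) pairings that work:
the statement only asks for some permutation.
-/

open scoped Classical
open Polynomial

namespace Pool.Agent.LibCW77

open Pool.Agent.LibBH2
open Pool.Agent.LibCHd (VR RF Red FunF)

variable {k : Type} [Field k]

/-- the same curve with the numbers `b_i` permuted -/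
def Dat.perm (c : Dat k) (σ : Equiv.Perm (Fin 3)) : Dat k := ⟨c.n, c.a, fun i => c.b (σ i)⟩

theorem nd_some [CharZero k] {c : Dat k} (hc : c.Good) : ∃ σ : Equiv.Perm (Fin 3), ND (c.perm σ) := by
  by_contra hcon
  have H : ∀ σ : Equiv.Perm (Fin 3),
      (c.a 1 + c.b (σ 1) - (c.a 0 + c.b (σ 0))) * (c.a 2 * c.b (σ 2) - c.a 0 * c.b (σ 0)) =
      (c.a 2 + c.b (σ 2) - (c.a 0 + c.b (σ 0))) * (c.a 1 * c.b (σ 1) - c.a 0 * c.b (σ 0)) := by
    intro σ
    by_contra h
    exact hcon ⟨σ, h⟩
  have hb : ∀ i j : Fin 3, i ≠ j → c.b i - c.b j ≠ 0 := fun i j hij h =>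
    hij (Sum.inr_injective (hc.inj (a₁ := Sum.inr i) (a₂ := Sum.inr j) (sub_eq_zero.1 h)))
  have ha : c.a 1 - c.a 2 ≠ 0 := fun h =>
    absurd (Sum.inl_injective (hc.inj (a₁ := Sum.inl 1) (a₂ := Sum.inl 2) (sub_eq_zero.1 h)))
      (by decide)
  have e1 := H 1
  have e2 := H (Equiv.swap 1 2)
  have e3 := H (Equiv.swap 0 1)
  have e4 := H (Equiv.swap 0 1 * Equiv.swap 1 2)
  have s20 : (Equiv.swap (1 : Fin 3) 2) 0 = 0 := by decide
  have s21 : (Equiv.swap (1 : Fin 3) 2) 1 = 2 := by decide
  have s22 : (Equiv.swap (1 : Fin 3) 2) 2 = 1 := by decide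
  have s30 : (Equiv.swap (0 : Fin 3) 1) 0 = 1 := by decide
  have s31 : (Equiv.swap (0 : Fin 3) 1) 1 = 0 := by decide
  have s32 : (Equiv.swap (0 : Fin 3) 1) 2 = 2 := by decide
  simp only [Equiv.Perm.coe_one, id_eq] at e1
  rw [s20, s21, s22] at e2
  rw [s30, s31, s32] at e3
  simp only [Equiv.Perm.coe_mul, Function.comp_apply, s20, s21, s22, s30, s31, s32] at e4
  have f1 : (c.b 1 - c.b 2) * (c.a 0 * (c.a 1 + c.a 2) - 2 * (c.a 1 * c.a 2) +
      c.b 0 * (c.a 1 + c.a 2 - 2 * c.a 0)) = 0 := by linear_combination e1 - e2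
  have f2 : (c.b 0 - c.b 2) * (c.a 0 * (c.a 1 + c.a 2) - 2 * (c.a 1 * c.a 2) +
      c.b 1 * (c.a 1 + c.a 2 - 2 * c.a 0)) = 0 := by linear_combination e3 - e4
  have g1 := (mul_eq_zero.1 f1).resolve_left (hb 1 2 (by decide))
  have g2 := (mul_eq_zero.1 f2).resolve_left (hb 0 2 (by decide))
  have g3 : (c.b 0 - c.b 1) * (c.a 1 + c.a 2 - 2 * c.a 0) = 0 := by linear_combination g1 - g2
  have g4 := (mul_eq_zero.1 g3).resolve_left (hb 0 1 (by decide))
  have g5 : (c.a 1 - c.a 2) * (c.a 1 - c.a 2) = 0 := by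
    linear_combination 2 * g1 + (c.a 1 + c.a 2 - 2 * c.b 0) * g4
  rcases mul_eq_zero.1 g5 with h | h <;> exact ha h

theorem perm_good {c : Dat k} (hc : c.Good) (σ : Equiv.Perm (Fin 3)) : (c.perm σ).Good := by
  refine ⟨hc.two, ?_⟩
  have h : Sum.elim (c.perm σ).a (c.perm σ).b = Sum.elim c.a c.b ∘ Sum.map id σ := by
    funext x
    cases x <;> rfl
  rw [h]
  exact hc.inj.comp (Sum.map_injective.2 ⟨Function.injective_id, σ.injective⟩)

theorem perm_on {c : Dat k} (σ : Equiv.Perm (Fin 3)) {M : Type} [Field M] [Algebra k M] (x v : Option M) :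
    OnC ((c.perm σ).over M) x v ↔ OnC (c.over M) x v := by
  cases x with
  | none => cases v <;> exact Iff.rfl
  | some x =>
    cases v with
    | none =>
      constructor
      · rintro ⟨i, hi⟩
        exact ⟨σ i, hi⟩
      · rintro ⟨i, hi⟩
        refine ⟨σ.symm i, ?_⟩
        have h : (((c.perm σ).over M).b (σ.symm i)) = (c.over M).b i := by
          change algebraMap k M (c.b (σ (σ.symm i))) = algebraMap k M (c.b i)
          rw [Equiv.apply_symm_apply]
        rw [h]
        exact hi
    | some v =>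
      have h : ∏ i, (x - ((c.perm σ).over M).b i) = ∏ i, (x - (c.over M).b i) :=
        Equiv.prod_comp σ fun i => x - (c.over M).b i
      change v ^ c.n * ∏ i, (x - ((c.perm σ).over M).b i) = _ ↔ _
      rw [h]
      exact Iff.rfl

end Pool.Agent.LibCW77
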