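import Pool.Agent.LibCW77.Defs8
import Pool.Agent.LibCW77.F4

/-!
Definitions for the statement of the main theorem.
-/

open scoped Classical
open Polynomial

namespace Pool.Agent.LibCW77

open Pool.Agent.LibBH2
open Pool.Agent.LibCHd (VR RF Red FunF)

variable {k : Type} [Field k]

/-- `ℚ ⊗ CH_d(C ^ m)` -/
def CHQ (c : Dat k) (m d : ℕ) : Type := TensorProduct ℤ ℚ (CH c m d)

noncomputable instance instAddCHQ (c : Dat k) (m d : ℕ) : AddCommGroup (CHQ c m d) :=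
  inferInstanceAs (AddCommGroup (TensorProduct ℤ ℚ (CH c m d)))

noncomputable instance instModCHQ (c : Dat k) (m d : ℕ) : Module ℚ (CHQ c m d) :=
  inferInstanceAs (Module ℚ (TensorProduct ℤ ℚ (CH c m d)))

/-- the class `1 ⊗ a` -/
noncomputable def qc {c : Dat k} {m d : ℕ} (a : CH c m d) : CHQ c m d := qt (CH c m d) a

/-- the divisor class `Q - τ Q` -/
noncomputable def dz (c : Dat k) (ζ : k) (Q : Fin 2 → Option k) : CH c 1 0 :=
  cls c 0 (pt1 Q) - cls c 0 (pt1 (tau ζ Q))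

/-- the subspace of `ℚ ⊗ CH_0(C)` spanned by the classes `Q - τ Q`, `Q` a point of the curve -/
noncomputable def U0 (c : Dat k) (ζ : k) : Submodule ℚ (CHQ c 1 0) :=
  Submodule.span ℚ {x | ∃ Q : Fin 2 → Option k, OnC c (Q 0) (Q 1) ∧ x = qc (dz c ζ Q)}

/-- the subspace of `ℚ ⊗ CH_1(C ^ 3)` spanned by the classes `mns P`, `P` a curve on `C ^ 3` -/
noncomputable def U1 (c : Dat k) (ζ : k) : Submodule ℚ (CHQ c 3 1) :=
  Submodule.span ℚ {x | ∃ (M : Type) (_ : Field M) (_ : Algebra k M) (P : Pnt 3 M), FunF k 1 M ∧ On (c.over M) P ∧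
    x = qc (mns c ζ P)}

/-- `Φ` gives the classes of the curves on the lines of the points `Q`; there are such curves for every `Q` which is
not ramified -/
def LineF (c : Dat k) (ζ ν : k) (Φ : CHQ c 1 0 →ₗ[ℚ] CHQ c 3 1) : Prop :=
  ∀ Q : Fin 2 → Option k, OnC c (Q 0) (Q 1) →
    (∀ (M : Type) [Field M] [Algebra k M] (P : Pnt 3 M), FunF k 1 M → On (c.over M) P → Col c ν Q P →
      qc (mns c ζ P) = Module.finrank (pf c P) M • Φ (qc (dz c ζ Q))) ∧
    (UnR Q → ∃ (M : Type) (_ : Field M) (_ : Algebra k M) (P : Pnt 3 M), FunF k 1 M ∧ On (c.over M) P ∧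
      Col c ν Q P ∧ Module.finrank (pf c P) M ≠ 0)

/-- the class of an arbitrary curve `P` which is not ramified, not all minors `0` -/
def CurveF (c : Dat k) (ζ ν : k) (Φ : CHQ c 1 0 →ₗ[ℚ] CHQ c 3 1) : Prop :=
  ∀ (M : Type) [Field M] [Algebra k M] (P : Pnt 3 M), FunF k 1 M → On (c.over M) P → ¬ Ram P →
    (∃ j, mnr (c.over M) P j ≠ 0) →
    ∃ (S : Finset (Place k M)) (m : Place k M → ℕ) (Q : Place k M → Fin 2 → Option k), CurveData c ν P S m Q ∧
      qc (mns c ζ P) = -Φ (qc (∑ w ∈ S, m w • dz c ζ (Q w))) ∧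
      (IsOfFinAddOrder (mns c ζ P) ↔ IsOfFinAddOrder (∑ w ∈ S, m w • dz c ζ (Q w)))

/-- the class of an arbitrary curve `P` which is not ramified, all minors `0` -/
def ConeF (c : Dat k) (ζ ν : k) (Φ : CHQ c 1 0 →ₗ[ℚ] CHQ c 3 1) : Prop :=
  ∀ (M : Type) [Field M] [Algebra k M] (P : Pnt 3 M), FunF k 1 M → On (c.over M) P → ¬ Ram P →
    (∀ j, mnr (c.over M) P j = 0) →
    ∃ (x : Option M) (y : M) (S : Finset (Place k M)) (Q : Place k M → Fin 2 → Option k), ConeData c ν P x y S Q ∧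
      qc (mns c ζ P) = Φ (qc (∑ w ∈ S, w.ord (Yv (c.over M) P 0 / Yv (c.over M) P 1) • dz c ζ (Q w))) ∧
      (IsOfFinAddOrder (mns c ζ P) ↔
        IsOfFinAddOrder (∑ w ∈ S, w.ord (Yv (c.over M) P 0 / Yv (c.over M) P 1) • dz c ζ (Q w)))

/-- the curves with a ramified coordinate -/
def RamF (c : Dat k) (ζ : k) : Prop :=
  ∀ (M : Type) [Field M] [Algebra k M] (P : Pnt 3 M), Ram P → mns c ζ P = 0

/-- `Φ` commutes with the automorphisms of `k` which fix the data -/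
def ActF (c : Dat k) (ζ ν : k) (Φ : CHQ c 1 0 →ₗ[ℚ] CHQ c 3 1) : Prop :=
  ∀ s : k ≃+* k, Fix c s → s ζ = ζ → s ν = ν →
    ∃ (Γ₀ : CH c 1 0 →+ CH c 1 0) (Γ₁ : CH c 3 1 →+ CH c 3 1), IsAct s Γ₀ ∧ IsAct s Γ₁ ∧
      ∀ a b, qc a ∈ U0 c ζ → Φ (qc a) = qc b → Φ (qc (Γ₀ a)) = qc (Γ₁ b)

/-- there are six flexes `x`, with multiplicities, the fourth points are `z = zk c x`, and the points `Qk c ν x` are on the
curve -/
def FlexF (c : Dat k) (ν : k) : Prop :=
  (rts c).card = 6 ∧ (∀ x ∈ rts c, Flex c x (zk c x) ∧ OnC c (Qk c ν x 0) (Qk c ν x 1)) ∧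
    ∀ x z, Flex c x z → x ∈ rts c ∧ z = zk c x

/-- the small diagonal and the cycle of Gross and Schoen -/
def GSF (c : Dat k) (ζ ν : k) (Φ : CHQ c 1 0 →ₗ[ℚ] CHQ c 3 1) : Prop :=
  ∀ (N : Type) [Field N] [Algebra k N] (x v : N), GenC c x v →
    qc (mns c ζ (tri ![some x, some v] ![some x, some v] ![some x, some v])) =
      -3 • Φ (qc ((rts c).map fun o => dz c ζ (Qk c ν o)).sum) ∧
    (IsOfFinAddOrder (GS c ![some x, some v]) ↔ IsOfFinAddOrder ((rts c).map fun o => dz c ζ (Qk c ν o)).sum)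

end Pool.Agent.LibCW77
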