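import Pool.Agent.LibCW77.Defs5
import Pool.Agent.LibCW77.DE7
import Pool.Agent.LibCW77.DE8
import Pool.Agent.LibCW77.DE10
import Pool.Agent.LibCW77.D6
import Pool.Agent.LibHL77.A1
/-!
[CW77 Ds] Descent of torsion from `k(T_1, T_2)` to `k`. Let `F = k(C)` with the generic point `(x, y)` (`genC_exists`), `K ⊇ L` with `BE i` (`LibHL77.exists_be`), `e = N ∑ m_j cyc L (pt1 (ctp L Q_j))` in `RatEq`; `h ∈ K` from `ratEq_fun` (`be_genC`). A place `w` of `K` trivial on `F`: the residue of `i.f x` is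
transcendental over `k` (image of `x`), so the specialisation is not one of the `Q_j` (`eqs_rat` over `L`) and `w.ord h = 0`. `be_desc` gives `f ∈ F`. For a place `p` of `F`: `place_pt` gives `Q_p`, `gauss_be` gives `w`, `j`; `p.ord f = w.ord h = e (eqs L (pt1 (ctp (RF w) (ctp L Q_p)))) = N ∑_{Q_j = Q_p} m_j`. `div_rel` with `f`.
-/

open scoped Classical
open Polynomial

namespace Pool.Agent.LibCW77

open Pool.Agent.LibBH2
open Pool.Agent.LibCHd (VR RF Red FunF)
open Pool.Agent.LibHL77 (Lf tt EHom NC HE BE mult)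

variable {k : Type} [Field k]

private theorem Ds_good {M : Type} [Field M] [Algebra k M] {c : Dat k} (hc : c.Good) : (c.over M).Good := by
  refine ⟨hc.two, ?_⟩
  have h1 : Sum.elim (c.over M).a (c.over M).b = algebraMap k M ∘ Sum.elim c.a c.b := by
    funext i
    rcases i with i | i <;> rfl
  rw [h1]
  exact (algebraMap k M).injective.comp hc.inj

private theorem Ds_id (Q : Fin 2 → Option k) : ctp k Q = Q := by
  funext i
  show (Q i).map (algebraMap k k) = Q i
  rw [Algebra.algebraMap_self, RingHom.coe_id, Option.map_id]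
  rfl

private theorem Ds_map {M M' : Type} [Field M] [Algebra k M] [Field M'] [Algebra k M'] (σ : M →ₐ[k] M')
    (Q : Fin 2 → Option k) : mpP σ (pt1 (ctp M Q)) = pt1 (ctp M' Q) := by
  funext j i
  show ((Q i).map (algebraMap k M)).map σ = (Q i).map (algebraMap k M')
  rw [Option.map_map]
  congr 1
  funext a
  exact σ.commutes a

private theorem Ds_map0 {M : Type} [Field M] [Algebra k M] (Q : Fin 2 → Option k) :
    mpP (Algebra.ofId k M) (pt1 Q) = pt1 (ctp M Q) := rfl

private theorem Ds_eqs {M : Type} [Field M] [Algebra k M] (Q : Fin 2 → Option k) :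
    eqs k (pt1 (ctp M Q)) = eqs k (pt1 Q) := by
  rw [← Ds_map0]
  exact eqs_map (Algebra.ofId k M) (pt1 Q)

private theorem Ds_inj {Q Q' : Fin 2 → Option k} (h : eqs k (pt1 Q) = eqs k (pt1 Q')) : Q = Q' := by
  have h1 := eqs_rat (M := k) (M' := k) (pt1 Q) Q' (by rw [Ds_id]; exact h)
  rw [Ds_id] at h1
  exact congrFun h1 0

private theorem Ds_cyc (Q : Fin 2 → Option k) : cyc k (pt1 Q) = Finsupp.single (eqs k (pt1 Q)) 1 := by
  have h1 : Module.finrank (fld k (pt1 Q)) k = 1 := by
    have h2 := Module.finrank_mul_finrank k (fld k (pt1 Q)) k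
    rw [Module.finrank_self] at h2
    exact Nat.eq_one_of_mul_eq_one_left h2
  unfold cyc
  rw [h1]
  rfl

private theorem Ds_coef {J : Type} [Fintype J] (N : ℕ) (m : J → ℤ) (Q : J → Fin 2 → Option k)
    (P : Fin 2 → Option k) :
    (N • ∑ j, m j • cyc k (pt1 (Q j))) (eqs k (pt1 P)) = N • ∑ j, (if Q j = P then m j else 0) := by
  rw [Finsupp.smul_apply, Finsupp.finset_sum_apply]
  congr 1
  refine Finset.sum_congr rfl fun j _ => ?_
  rw [Finsupp.smul_apply, Ds_cyc, Finsupp.single_apply]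
  by_cases h : Q j = P
  · rw [if_pos h, if_pos (by rw [h]), smul_eq_mul, mul_one]
  · rw [if_neg h, if_neg (fun h1 => h (Ds_inj h1)), smul_zero]

private theorem Ds_coef0 {J : Type} [Fintype J] (N : ℕ) (m : J → ℤ) (Q : J → Fin 2 → Option k)
    {M : Type} [Field M] [Algebra k M] (p : Pnt 1 M) (hp : ∀ j, p ≠ pt1 (ctp M (Q j))) :
    (N • ∑ j, m j • cyc k (pt1 (Q j))) (eqs k p) = 0 := by
  rw [Finsupp.smul_apply, Finsupp.finset_sum_apply, Finset.sum_eq_zero, smul_zero]
  intro j _
  rw [Finsupp.smul_apply, Ds_cyc, Finsupp.single_apply, if_neg, smul_zero]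
  intro h
  exact hp j (eqs_rat (M := M) (M' := k) p (Q j) (by rw [Ds_id]; exact h.symm))

private theorem Ds_sum {ι A : Type} [AddCommGroup A] (s : Finset ι) (g : ι → ℤ) (t : A) :
    (∑ x ∈ s, g x) • t = ∑ x ∈ s, g x • t := by
  have h := map_sum (zmultiplesHom A t) g s
  simpa only [zmultiplesHom_apply] using h

private theorem Ds_ns {A : Type} [AddCommGroup A] (N : ℕ) (a : ℤ) (t : A) : (N • a) • t = N • a • t := by
  rw [nsmul_eq_mul, mul_zsmul, natCast_zsmul]

private theorem Ds_tors {J : Type} [Fintype J] (c : Dat k) (m : J → ℤ) (Q : J → Fin 2 → Option k) (N : ℕ) :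
    N • ∑ j, m j • cls c 0 (pt1 (Q j)) = 0 ↔ N • ∑ j, m j • cyc k (pt1 (Q j)) ∈ RatEq c 1 0 := by
  rw [← QuotientAddGroup.eq_zero_iff]
  have h1 : ((N • ∑ j, m j • cyc k (pt1 (Q j)) : Cyc k 1) : CH c 1 0) =
      N • ∑ j, m j • cls c 0 (pt1 (Q j)) := by
    rw [← QuotientAddGroup.mk'_apply, map_nsmul, map_sum]
    congr 1
  rw [h1]

private theorem Ds_spP {K : Type} [Field K] [Algebra k K] {w : Place k K} {x y : K} {Q : Fin 2 → Option (RF w)}
    (h1 : SpO w (some x) (Q 0)) (h2 : SpO w (some y) (Q 1)) : SpP w (gpt x y) (pt1 Q) := by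
  intro j i
  fin_cases i
  · exact h1
  · exact h2

/-- specialisations at a place and at its extension -/
private theorem Ds_ext {F K : Type} [Field F] [Algebra k F] [Field K] [Algebra (Lf k) K]
    (i : EHom k (Lf k) F K) (p : Place k F) (w : Place (Lf k) K) (j : EHom k (Lf k) (RF p) (RF w))
    (h1 : ∀ z, w.ord (i.f z) = p.ord z) (h2 : ∀ z a, Red p z a → Red w (i.f z) (j.f a)) (x : F) (q : Option k)
    (hq : SpO p (some x) (q.map (algebraMap k (RF p)))) :
    SpO w (some (i.f x)) ((q.map (algebraMap k (Lf k))).map (algebraMap (Lf k) (RF w))) := by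
  rcases q with _ | a
  · show w.ord (i.f x) < 0
    rw [h1]
    exact hq
  · show Red w (i.f x) (algebraMap (Lf k) (RF w) (algebraMap k (Lf k) a))
    rw [← j.comm]
    exact h2 _ _ hq

theorem descent [IsAlgClosed k] [CharZero k] {c : Dat k} (hc : c.Good) {J : Type} [Fintype J] (m : J → ℤ)
    (Q : J → Fin 2 → Option k) (hQ : ∀ j, OnC c (Q j 0) (Q j 1))
    (h : IsOfFinAddOrder (∑ j, m j • bpt c (Q j))) :
    IsOfFinAddOrder (∑ j, m j • cls c 0 (pt1 (Q j))) := by
  have hn : c.n ≠ 0 := by have := hc.two; omega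
  obtain ⟨ζ, hζ⟩ : ∃ ζ : k, IsPrimitiveRoot ζ c.n := by
    have : NeZero c.n := ⟨hn⟩
    have : NeZero (c.n : k) := ⟨Nat.cast_ne_zero.2 hn⟩
    exact HasEnoughRootsOfUnity.exists_primitiveRoot k c.n
  rw [isOfFinAddOrder_iff_nsmul_eq_zero] at h ⊢
  obtain ⟨N, hN, hsum⟩ := h
  refine ⟨N, hN, ?_⟩
  -- the function over `L`
  have he : N • ∑ j, m j • cyc (Lf k) (pt1 (ctp (Lf k) (Q j))) ∈ RatEq (c.over (Lf k)) 1 0 :=
    (Ds_tors (c.over (Lf k)) m (fun j => ctp (Lf k) (Q j)) N).1 hsum
  obtain ⟨F, _, _, x, y, hg⟩ := genC_exists hc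
  obtain ⟨K, _, _, i, hi⟩ := Pool.Agent.LibHL77.exists_be (k := k) F
  have hgK := be_genC hi hg
  have hcL : (c.over (Lf k)).Good := Ds_good hc
  have hζL : IsPrimitiveRoot (algebraMap k (Lf k) ζ) (c.over (Lf k)).n :=
    hζ.map_of_injective (algebraMap k (Lf k)).injective
  obtain ⟨e, hedef⟩ : ∃ e : Cyc (Lf k) 1, e = N • ∑ j, m j • cyc (Lf k) (pt1 (ctp (Lf k) (Q j))) :=
    ⟨_, rfl⟩
  rw [← hedef] at he
  obtain ⟨h, hh, hdiv⟩ := ratEq_fun hcL hζL hgK e he
  -- no zeros at the places trivial on `F`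
  have H : ∀ w : Place (Lf k) K, (∀ z, w.ord (i.f z) = 0) → w.ord h = 0 := by
    intro w hw
    obtain ⟨p, hp⟩ := spP_exists w (gpt (i.f x) (i.f y))
    rw [← hdiv w p hp, hedef]
    apply Ds_coef0 (k := Lf k) N m (fun j => ctp (Lf k) (Q j)) p
    intro j hpj
    have h0 := hp 0 0
    rw [hpj] at h0
    have h1 : SpO w (some (i.f x)) (((Q j 0).map (algebraMap k (Lf k))).map (algebraMap (Lf k) (RF w))) := h0
    rcases hq : Q j 0 with _ | a
    · rw [hq] at h1
      have h2 : w.ord (i.f x) < 0 := h1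
      rw [hw] at h2
      exact lt_irrefl _ h2
    · rw [hq] at h1
      have h2 : Red w (i.f x) (algebraMap (Lf k) (RF w) (algebraMap k (Lf k) a)) := h1
      have h3 := h2.sub (LibCHd.red_const w (algebraMap k (Lf k) a))
      rw [sub_self, ← i.comm, ← map_sub] at h3
      rcases LibCHd.red_zero_iff.1 h3 with h4 | h4
      · rw [map_eq_zero, sub_eq_zero] at h4
        exact hg.tr (by rw [h4]; exact isAlgebraic_algebraMap a)
      · rw [hw] at h4
        exact lt_irrefl _ h4
  obtain ⟨f, hf, hfw⟩ := be_desc hi h hh H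
  -- the points of the places
  have hF := (genC_funF hc hg).1
  choose P hP1 hP2 hP3 using place_pt hc hg
  have hord : ∀ p : Place k F, p.ord f = N • ∑ j, (if Q j = P p then m j else 0) := by
    intro p
    obtain ⟨w, j, hw1, hw2, hw3⟩ := Pool.Agent.LibHL77.gauss_be hi p
    rw [← hfw p w j hw1 hw2 hw3]
    have hsp : SpP w (gpt (i.f x) (i.f y)) (pt1 (ctp (RF w) (ctp (Lf k) (P p)))) :=
      Ds_spP (Ds_ext i p w j hw1 hw2 x (P p 0) (hP2 p)) (Ds_ext i p w j hw1 hw2 y (P p 1) (hP3 p))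
    rw [← hdiv w _ hsp, Ds_eqs, hedef, Ds_coef (k := Lf k)]
    congr 1
    refine Finset.sum_congr rfl fun j' _ => ?_
    have h4 : ctp (Lf k) (Q j') = ctp (Lf k) (P p) ↔ Q j' = P p := by
      constructor
      · intro h5
        funext a
        exact Option.map_injective (algebraMap k (Lf k)).injective (congrFun h5 a)
      · intro h5
        rw [h5]
    by_cases h5 : Q j' = P p
    · rw [if_pos h5, if_pos (h4.2 h5)]
    · rw [if_neg h5, if_neg (fun h6 => h5 (h4.1 h6))]
  -- the places of the points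
  have hpl : ∀ j, ∃ p : Place k F, P p = Q j ∧ ∀ p', P p' = Q j → p' = p := by
    intro j
    obtain ⟨p, ⟨hp1, hp2⟩, -, -, -, -, -, huniq⟩ := placeC hc hζ hg (Q j) (hQ j)
    refine ⟨p, ?_, ?_⟩
    · funext a
      have hinj := Option.map_injective (algebraMap k (RF p)).injective
      fin_cases a
      · exact hinj (spO_unique (hP2 p) hp1)
      · exact hinj (spO_unique (hP3 p) hp2)
    · intro p' hp'
      apply huniq
      · rw [← hp']
        exact hP2 p'
      · rw [← hp']
        exact hP3 p'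
  choose pl hpl1 hpl2 using hpl
  have hclsP : ∀ p : Place k F, cls c 0 (pt1 (ctp (RF p) (P p))) = cls c 0 (pt1 (P p)) := by
    intro p
    rw [← Ds_map0, cls_map]
    have h1 : Function.Surjective (algebraMap k (RF p)) := res_k hF p
    have h2 : (Algebra.ofId k (RF p)).fieldRange = ⊤ := by
      rw [eq_top_iff]
      intro z _
      obtain ⟨a, rfl⟩ := h1 z
      exact ⟨a, rfl⟩
    have h3 : Module.finrank (Algebra.ofId k (RF p)).fieldRange (RF p) = 1 := by
      rw [h2]
      exact IntermediateField.finrank_top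
    rw [h3]
    simp
  obtain ⟨S, hS⟩ : ∃ S : Finset (Place k F), S = (fin_zero hF f).toFinset ∪ Finset.univ.image pl := ⟨_, rfl⟩
  have hrel := div_rel c 1 0 hF (gpt x y) (fun _ => hg.on) f hf S
    (fun p => pt1 (ctp (RF p) (P p))) (fun p => Ds_spP (hP2 p) (hP3 p))
    (fun p _ => Pool.Agent.LibHL77.res_finite hF p) (fun p hp h1 _ => by
      exfalso
      apply hp
      rw [hS, Finset.mem_union, Set.Finite.mem_toFinset]
      exact Or.inl h1)
  rw [← hrel, Finset.smul_sum]
  symm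
  calc ∑ p ∈ S, p.ord f • cls c 0 (pt1 (ctp (RF p) (P p)))
      = ∑ p ∈ S, ∑ j, N • (if p = pl j then m j • cls c 0 (pt1 (Q j)) else 0) := by
        refine Finset.sum_congr rfl fun p _ => ?_
        rw [hclsP, hord, Finset.smul_sum, Ds_sum]
        refine Finset.sum_congr rfl fun j _ => ?_
        by_cases h1 : Q j = P p
        · rw [if_pos h1, if_pos (hpl2 j p h1.symm), h1, Ds_ns]
        · rw [if_neg h1, if_neg, smul_zero, zero_zsmul, smul_zero]
          rintro rfl
          exact h1 (hpl1 j).symm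
    _ = ∑ j, N • m j • cls c 0 (pt1 (Q j)) := by
        rw [Finset.sum_comm]
        refine Finset.sum_congr rfl fun j _ => ?_
        rw [← Finset.smul_sum, Finset.sum_ite_eq', if_pos]
        rw [hS, Finset.mem_union]
        exact Or.inr (Finset.mem_image_of_mem _ (Finset.mem_univ _))

end Pool.Agent.LibCW77
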