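import Pool.Agent.LibCW77.Defs3

/-!
[CW77 K0] The kernel of `A → ℚ ⊗ A` is the torsion. `ℚ ⊗[ℤ] A` is the localisation of `A` at `nonZeroDivisors ℤ` (`isLocalizedModule_iff_isBaseChange`, `TensorProduct.isBaseChange`), `IsLocalizedModule.eq_zero_iff`; `isOfFinAddOrder_iff_nsmul_eq_zero`.
-/

open scoped Classical
open Polynomial

namespace Pool.Agent.LibCW77

open Pool.Agent.LibBH2
open Pool.Agent.LibCHd (VR RF Red FunF)

variable {k : Type} [Field k]

theorem tensor_zero {A : Type} [AddCommGroup A] (x : A) :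
    (TensorProduct.mk ℤ ℚ A 1 x = 0) ↔ IsOfFinAddOrder x := by
  have hloc : IsLocalizedModule (nonZeroDivisors ℤ) (TensorProduct.mk ℤ ℚ A 1) :=
    (isLocalizedModule_iff_isBaseChange (nonZeroDivisors ℤ) ℚ (TensorProduct.mk ℤ ℚ A 1)).mpr
      (TensorProduct.isBaseChange ℤ A ℚ)
  rw [IsLocalizedModule.eq_zero_iff (nonZeroDivisors ℤ) (TensorProduct.mk ℤ ℚ A 1),
    isOfFinAddOrder_iff_nsmul_eq_zero]
  constructor
  · rintro ⟨c, hc⟩
    have hc0 : (c : ℤ) ≠ 0 := nonZeroDivisors.ne_zero c.2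
    have hc' : (c : ℤ) • x = 0 := hc
    refine ⟨(c : ℤ).natAbs, Int.natAbs_pos.mpr hc0, ?_⟩
    rcases Int.natAbs_eq (c : ℤ) with h | h
    · rw [h, natCast_zsmul] at hc'
      exact hc'
    · rw [h, neg_smul, neg_eq_zero, natCast_zsmul] at hc'
      exact hc'
  · rintro ⟨n, hn, hx⟩
    refine ⟨⟨(n : ℤ), mem_nonZeroDivisors_of_ne_zero (by exact_mod_cast hn.ne')⟩, ?_⟩
    change (n : ℤ) • x = 0
    rw [natCast_zsmul, hx]

end Pool.Agent.LibCW77
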