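import Pool.Agent.LibCW77.Defs6
import Pool.Agent.LibCW77.Defs4
import Pool.Agent.LibCW77.K0

/-!
[CW77 F1] Small lemmas. `ext_q`: `TensorProduct.lift` / `TensorProduct.AlgebraTensorModule`, `IsLocalizedModule.lift`, or `LinearMap.toSpanSingleton`: `r ⊗ x ↦ r • f x` (additive in both variables; `AddMonoidHom.toIntLinearMap`). `card_W`: `w ↦ (w 0, w 1)` is a bijection with pairs of
`n`-th roots of unity (`w 2 = (w 0 * w 1)⁻¹`), `IsPrimitiveRoot.card_nthRootsFinset`. `sum_perm2`: write out the six permutations, or `Finset.sum_comp`/fibres of `σ ↦ σ 2` have two elements.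
-/

open scoped Classical
open Polynomial

namespace Pool.Agent.LibCW77

open Pool.Agent.LibBH2
open Pool.Agent.LibCHd (VR RF Red FunF)

variable {k : Type} [Field k]

theorem ext_q {A V : Type} [AddCommGroup A] [AddCommGroup V] [Module ℚ V] (f : A →+ V) :
    ∃ F : TensorProduct ℤ ℚ A →ₗ[ℚ] V, ∀ x, F (TensorProduct.mk ℤ ℚ A 1 x) = f x := by
  refine ⟨LinearMap.liftBaseChange ℚ f.toIntLinearMap, fun x => ?_⟩
  simp

theorem card_W {c : Dat k} (hc : c.Good) {ζ : k} (hζ : IsPrimitiveRoot ζ c.n) : (W c).card = c.n ^ 2 := by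
  have hn : 0 < c.n := by have := hc.two; omega
  have h1 : (nthRootsFinset c.n (1 : k)).card = c.n := hζ.card_nthRootsFinset
  have h2 : (W c).card = (nthRootsFinset c.n (1 : k) ×ˢ nthRootsFinset c.n (1 : k)).card := by
    refine Finset.card_nbij' (fun w => (w 0, w 1)) (fun p => ![p.1, p.2, (p.1 * p.2)⁻¹]) ?_ ?_ ?_ ?_
    · intro w hw
      simp only [W, Finset.coe_filter, Fintype.mem_piFinset, Set.mem_ofPred_eq] at hw
      simp only [Finset.coe_product, Set.mem_prod, Finset.mem_coe]
      exact ⟨hw.1 0, hw.1 1⟩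
    · intro p hp
      simp only [Finset.coe_product, Set.mem_prod, Finset.mem_coe, mem_nthRootsFinset hn] at hp
      have hp0 : p.1 ≠ 0 := by
        intro h
        have h3 := hp.1
        rw [h, zero_pow (by omega)] at h3
        exact zero_ne_one h3
      have hp1 : p.2 ≠ 0 := by
        intro h
        have h3 := hp.2
        rw [h, zero_pow (by omega)] at h3
        exact zero_ne_one h3
      simp only [W, Finset.coe_filter, Fintype.mem_piFinset, Set.mem_ofPred_eq, mem_nthRootsFinset hn]
      refine ⟨fun i => ?_, ?_⟩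
      · fin_cases i
        · exact hp.1
        · exact hp.2
        · simp [inv_pow, mul_pow, hp.1, hp.2]
      · rw [Fin.prod_univ_three]
        simp only [Matrix.cons_val_zero, Matrix.cons_val_one, Matrix.cons_val]
        exact mul_inv_cancel₀ (mul_ne_zero hp0 hp1)
    · intro w hw
      simp only [W, Finset.coe_filter, Fintype.mem_piFinset, Set.mem_ofPred_eq] at hw
      have h3 : w 0 * w 1 * w 2 = 1 := by
        have := hw.2
        rwa [Fin.prod_univ_three] at this
      have h4 : (w 0 * w 1)⁻¹ = w 2 := inv_eq_of_mul_eq_one_right h3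
      funext i
      fin_cases i
      · rfl
      · rfl
      · exact h4
    · intro p _
      rfl
  rw [h2, Finset.card_product, h1, sq]

theorem sum_perm2 {A : Type} [AddCommMonoid A] (f : Fin 3 → A) :
    ∑ σ : Equiv.Perm (Fin 3), f (σ 2) = 2 • ∑ j, f j := by
  rw [← Finset.sum_fiberwise_of_maps_to (s := (Finset.univ : Finset (Equiv.Perm (Fin 3))))
    (t := (Finset.univ : Finset (Fin 3))) (g := fun σ => σ 2) (fun _ _ => Finset.mem_univ _),
    Finset.smul_sum]
  refine Finset.sum_congr rfl fun j _ => ?_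
  have h1 : ∑ σ ∈ Finset.univ.filter (fun σ : Equiv.Perm (Fin 3) => σ 2 = j), f (σ 2)
      = ∑ σ ∈ Finset.univ.filter (fun σ : Equiv.Perm (Fin 3) => σ 2 = j), f j := by
    refine Finset.sum_congr rfl fun σ hσ => ?_
    rw [(Finset.mem_filter.1 hσ).2]
  rw [h1, Finset.sum_const]
  congr 1
  have h2 : ∀ j : Fin 3, @Finset.card (Equiv.Perm (Fin 3)) (@Finset.filter _ (fun σ : Equiv.Perm (Fin 3) => σ 2 = j)
      (fun σ => instDecidableEqFin 3 (σ 2) j) Finset.univ) = 2 := by decide
  have h3 := h2 j
  convert h3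

end Pool.Agent.LibCW77
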