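import Pool.Agent.LibCW77.Defs6
import Pool.Agent.LibCW77.F1
import Pool.Agent.LibCW77.B9
import Pool.Agent.LibCW77.B10
import Pool.Agent.LibCW77.B11
import Pool.Agent.LibCW77.Cn
import Pool.Agent.LibCW77.LN
import Pool.Agent.LibCW77.T3
import Pool.Agent.LibCW77.T7

/-!
[CW77 F2] The image of the class of a line. `q = TensorProduct.mk ℤ ℚ (CH c 3 1) 1` (as additive homomorphism), `Sop` from `exists_S`, `Con` from `exists_con`; `Θ = (ℚ ⊗ Con) ∘ (extension of Sop)` (`ext_q`, two times). For `Q` ramified both sides are `0` (`Lval_ram`; `tau ζ Q = Q`).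
Otherwise `line_pt`: `M`, `z` with `finrank (yf k z.Y) M = 1`, so `M = k(Y_i / Y_j) = k(Y_0 / Y_1)` (the relation of the line expresses `Y_2 / Y_1` by `Y_0 / Y_1`), `dg k (Y_0 / Y_1) = 1`, transcendental (`FunF k 1 M`). A lift `P` over `M'` (`exists_lift`), `d = [M' : M]`: `q (mns P) = d • TZ z = d • Lval Q`
(`TZ_spec`, `Lval_spec`). `S_mns` for `z.map i`, then `exists_con` for every `R = tau w (P_j)`, whose `x` is `P_j 0` (if `P_j 0` is `∞` or algebraic all `BR` are `0`: `cyc_alg` (coordinates of `R` are algebraic: `v ^ n` is), and `dgo = 0`: `dg_alg`), `Q` and `tau ζ⁻¹ Q` for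
`Q` (not ramified). So `Θ (q (mns P)) = ∑_σ ∑_w 3 dgo(x_(σ 2)) (2 bpt Q - bpt (tau ζ Q) - bpt (tau ζ⁻¹ Q)) = 3 n ^ 2 2 (∑_j dgo x_j) (..) = 6 n ^ 2 d (..)` (`card_W`, `sum_perm2`, `sum_dg`, `dg_map`); divide by `d`.
-/

open scoped Classical
open Polynomial

namespace Pool.Agent.LibCW77

open Pool.Agent.LibBH2
open Pool.Agent.LibCHd (VR RF Red FunF)

open Pool.Agent.LibHL77 (Lf)

variable {k : Type} [Field k]

private theorem F2_onC_tau {c : Dat k} {w : k} (hw : w ^ c.n = 1) (Q : Fin 2 → Option k) (h : OnC c (Q 0) (Q 1)) :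
    OnC c (tau w Q 0) (tau w Q 1) := by
  change OnC c (Q 0) ((Q 1).map fun v => algebraMap k k w * v)
  rcases h0 : Q 0 with _ | x
  · rcases h1 : Q 1 with _ | v
    · rw [h0, h1] at h
      exact h
    · rw [h0, h1] at h
      have h' : v ^ c.n = 1 := h
      change (algebraMap k k w * v) ^ c.n = 1
      rw [mul_pow, h', Algebra.algebraMap_self_apply, hw, mul_one]
  · rcases h1 : Q 1 with _ | v
    · rw [h0, h1] at h
      exact h
    · rw [h0, h1] at h
      have h' : v ^ c.n * ∏ i, (x - c.b i) = ∏ i, (x - c.a i) := h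
      change (algebraMap k k w * v) ^ c.n * ∏ i, (x - c.b i) = ∏ i, (x - c.a i)
      rw [mul_pow, Algebra.algebraMap_self_apply, hw, one_mul, h']

private theorem F2_tau_tau {ζ : k} (hζ : ζ ≠ 0) (Q : Fin 2 → Option k) : tau ζ (tau ζ⁻¹ Q) = Q := by
  funext i
  fin_cases i
  · rfl
  · change ((Q 1).map fun v => algebraMap k k ζ⁻¹ * v).map (fun v => algebraMap k k ζ * v) = Q 1
    rcases Q 1 with _ | v
    · rfl
    · simp only [Option.map_some, Algebra.algebraMap_self_apply]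
      rw [← mul_assoc, mul_inv_cancel₀ hζ, one_mul]

private theorem F2_tau_ram {ζ : k} (Q : Fin 2 → Option k) (h : Q 1 = none ∨ Q 1 = some 0) : tau ζ Q = Q := by
  funext i
  fin_cases i
  · rfl
  · change (Q 1).map (fun v => algebraMap k k ζ * v) = Q 1
    rcases h with h | h
    · rw [h]; rfl
    · rw [h]; simp

private theorem F2_unR_tau {ζ : k} (hζ : ζ ≠ 0) (Q : Fin 2 → Option k) (h : UnR Q) : UnR (tau ζ Q) := by
  obtain ⟨y, hy, hy0⟩ := h
  refine ⟨ζ * y, ?_, mul_ne_zero hζ hy0⟩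
  change (Q 1).map (fun v => algebraMap k k ζ * v) = some (ζ * y)
  rw [hy]
  rfl

private theorem F2_ev_zero {M : Type} [Field M] {o : Option M} {a : M} (h : ev o a = 0) : o = some a := by
  cases o with
  | none => exact absurd h (by simp [ev])
  | some x =>
    have : a - x = 0 := h
    rw [sub_eq_zero.1 this]

private theorem F2_alg_ev {M : Type} [Field M] [Algebra k M] (o : Option M) (a : k)
    (h : ∀ x, o = some x → IsAlgebraic k x) : IsAlgebraic k (ev o (algebraMap k M a)) := by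
  cases o with
  | none => exact isAlgebraic_one
  | some x => exact (isAlgebraic_algebraMap a).sub (h x rfl)

private theorem F2_alg_v {c : Dat k} (hc : c.Good) {M : Type} [Field M] [Algebra k M]
    (R : Fin 2 → Option M) (hP : OnC (c.over M) (R 0) (R 1))
    (h : ∀ x, R 0 = some x → IsAlgebraic k x) (y : M) (hy : R 1 = some y) : IsAlgebraic k y := by
  have h1 := onC_prod (good_map hc) hP y hy
  have hn : (c.over M).n = c.n := rfl
  rw [hn] at h1
  by_cases hy0 : y = 0
  · rw [hy0]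
    exact isAlgebraic_zero
  have hA : IsAlgebraic k (∏ i, ev (R 0) ((c.over M).a i)) := by
    refine (IsIntegral.prod (s := Finset.univ) (fun i => ev (R 0) ((c.over M).a i)) ?_).isAlgebraic
    intro i _
    exact (F2_alg_ev _ _ h).isIntegral
  have hB : IsAlgebraic k (∏ i, ev (R 0) ((c.over M).b i)) := by
    refine (IsIntegral.prod (s := Finset.univ) (fun i => ev (R 0) ((c.over M).b i)) ?_).isAlgebraic
    intro i _
    exact (F2_alg_ev _ _ h).isIntegral
  have hB0 : ∏ i, ev (R 0) ((c.over M).b i) ≠ 0 := by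
    intro h0
    rw [h0, mul_zero] at h1
    obtain ⟨i, _, hi⟩ := Finset.prod_eq_zero_iff.1 h0
    obtain ⟨i', _, hi'⟩ := Finset.prod_eq_zero_iff.1 h1.symm
    have e1 := F2_ev_zero hi
    have e2 := F2_ev_zero hi'
    rw [e1] at e2
    have e3 : Sum.elim (c.over M).a (c.over M).b (Sum.inr i) = Sum.elim (c.over M).a (c.over M).b (Sum.inl i') :=
      Option.some.inj e2
    exact absurd ((good_map hc).inj e3) (by simp)
  have h2 : y ^ c.n = (∏ i, ev (R 0) ((c.over M).a i)) / (∏ i, ev (R 0) ((c.over M).b i)) := by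
    rw [eq_div_iff hB0, h1]
  have h3 : IsAlgebraic k (y ^ c.n) := by
    rw [h2, div_eq_mul_inv]
    exact hA.mul hB.inv
  have hn2 := hc.two
  exact IsAlgebraic.of_pow (by omega) h3

/-- `BR` of a constant point -/
private theorem F2_BR_alg (c : Dat k) {M : Type} [Field M] [Algebra k M] (hM : FunF k 1 M)
    (R : Fin 2 → Option M) (h : ∀ i x, R i = some x → IsAlgebraic k x) (Q : Fin 2 → Option k) :
    BR c R Q = 0 := by
  have htau : ∀ (w : k) (T : Fin 2 → Option M), (∀ i x, T i = some x → IsAlgebraic k x) →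
      ∀ i x, tau w T i = some x → IsAlgebraic k x := by
    intro w T hT i x hx
    fin_cases i
    · exact hT 0 x hx
    · change (T 1).map (fun v => algebraMap k M w * v) = some x at hx
      rw [Option.map_eq_some_iff] at hx
      obtain ⟨y, hy, rfl⟩ := hx
      exact (isAlgebraic_algebraMap w).mul (hT 1 y hy)
  have hctp : ∀ i x, ctp M Q i = some x → IsAlgebraic k x := by
    intro i x hx
    simp only [ctp, Option.map_eq_some_iff] at hx
    obtain ⟨y, _, rfl⟩ := hx
    exact isAlgebraic_algebraMap y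
  have hz : ∀ (A B C : Fin 2 → Option M), (∀ i x, A i = some x → IsAlgebraic k x) →
      (∀ i x, B i = some x → IsAlgebraic k x) → (∀ i x, C i = some x → IsAlgebraic k x) →
      cls c 1 (tri A B C) = 0 := by
    intro A B C hA hB hC
    have h1 : cyc k (tri A B C) = 0 := by
      refine cyc_alg (d := 0) hM _ ?_
      intro j i x hx
      fin_cases j
      · exact hA i x hx
      · exact hB i x hx
      · exact hC i x hx
    rw [cls, h1]
    rfl
  unfold BR
  refine Finset.sum_eq_zero fun w _ => ?_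
  rw [hz _ _ _ (htau w _ hctp) (htau w⁻¹ _ h) h, hz _ _ _ (htau w⁻¹ _ h) (htau w _ hctp) h, add_zero]

private theorem F2_con [IsAlgClosed k] [CharZero k] {c : Dat k} (hc : c.Good) {ζ : k}
    (Con : CH c 3 1 →+ CH (c.over (Lf k)) 1 0)
    (hCon : ∀ (M : Type) [Field M] [Algebra k M] (R : Fin 2 → Option M) (x : M) (Q : Fin 2 → Option k), FunF k 1 M →
        OnC (c.over M) (R 0) (R 1) → R 0 = some x → Transcendental k x → OnC c (Q 0) (Q 1) → UnR Q →
        Con (BR c R Q - BR c R (tau ζ Q)) = (3 * (dg k x : ℤ)) • (bpt c Q - bpt c (tau ζ Q)))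
    {M : Type} [Field M] [Algebra k M] (hM : FunF k 1 M) (R : Fin 2 → Option M)
    (hR : OnC (c.over M) (R 0) (R 1)) (Q : Fin 2 → Option k) (hQ : OnC c (Q 0) (Q 1)) (hu : UnR Q) :
    Con (BR c R Q - BR c R (tau ζ Q)) = (3 * (dgo k (R 0) : ℤ)) • (bpt c Q - bpt c (tau ζ Q)) := by
  by_cases h : ∃ x, R 0 = some x ∧ Transcendental k x
  · obtain ⟨x, hx, ht⟩ := h
    rw [hCon M R x Q hM hR hx ht hQ hu, hx]
    rfl
  · have h0 : ∀ x, R 0 = some x → IsAlgebraic k x := by
      intro x hx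
      by_contra hcon
      exact h ⟨x, hx, hcon⟩
    have h1 : ∀ i x, R i = some x → IsAlgebraic k x := by
      intro i x hx
      fin_cases i
      · exact h0 x hx
      · exact F2_alg_v hc R hR h0 x hx
    have h2 : dgo k (R 0) = 0 := by
      rcases hR0 : R 0 with _ | x
      · rfl
      · exact dg_alg hM x (h0 x hR0)
    rw [F2_BR_alg c hM R h1, F2_BR_alg c hM R h1, h2]
    simp

private theorem F2_mem_W {c : Dat k} (hc : c.Good) {w : Fin 3 → k} (hw : w ∈ W c) (j : Fin 3) : w j ^ c.n = 1 := by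
  unfold W at hw
  rw [Finset.mem_filter, Fintype.mem_piFinset] at hw
  have := hw.1 j
  have hn2 := hc.two
  rw [Polynomial.mem_nthRootsFinset (by omega)] at this
  exact this

/-- the ratio `Y_0 / Y_1` generates -/
private theorem F2_gen {c : Dat k} (hc : c.Good) {ν : k} {Q : Fin 2 → Option k} {M : Type} [Field M] [Algebra k M]
    {z : Zp M} (hz : IsZ (c.over M) z) (hl : OnLine c ν Q z) :
    yf k z.Y = IntermediateField.adjoin k {z.Y 0 / z.Y 1} := by
  set F := IntermediateField.adjoin k {z.Y 0 / z.Y 1} with hF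
  have hτ : z.Y 0 / z.Y 1 ∈ F := IntermediateField.mem_adjoin_simple_self k _
  have h1 : z.Y 1 ≠ 0 := hz.Y0 1
  set A : Fin 3 → k := cA c (lR c (Q 0)) with hA
  set B : Fin 3 → k := cB c (lR c (Q 0)) with hB
  have hAm : ∀ i, cA (c.over M) z.R i = algebraMap k M (A i) := by
    intro i
    simp only [hA, cA, hl.1 i, map_add, map_mul]
    rw [← ka_map, ← kb_map]
  have hBm : ∀ i, cB (c.over M) z.R i = algebraMap k M (B i) := by
    intro i
    simp only [hB, cB, hl.1 i, map_add, map_mul]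
    rw [← ka_map, ← kb_map]
    rfl
  have hr1 := hz.r1
  have hr2 := hz.r2
  simp only [hAm] at hr1
  simp only [hBm] at hr2
  rw [Fin.sum_univ_three] at hr1 hr2
  have hAB : A 2 ≠ 0 ∨ B 2 ≠ 0 := by
    by_contra hcon
    push Not at hcon
    have e1 : B 2 - c.a 2 * A 2 = kb c 2 * (c.b 2 - c.a 2) := by
      simp only [hA, hB, cA, cB]
      ring
    rw [hcon.1, hcon.2, mul_zero, sub_zero] at e1
    rcases mul_eq_zero.1 e1.symm with e2 | e2
    · exact kb_ne hc 2 e2
    · have e3 : Sum.elim c.a c.b (Sum.inr 2) = Sum.elim c.a c.b (Sum.inl 2) := sub_eq_zero.1 e2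
      exact absurd (hc.inj e3) (by simp)
  have hlin : ∀ (a : Fin 3 → k), a 2 ≠ 0 → algebraMap k M (a 0) * z.Y 0 + algebraMap k M (a 1) * z.Y 1 +
      algebraMap k M (a 2) * z.Y 2 = 0 → z.Y 2 / z.Y 1 ∈ F := by
    intro a ha he
    have ha' : algebraMap k M (a 2) ≠ 0 := (map_ne_zero (algebraMap k M)).2 ha
    have e1 : z.Y 2 / z.Y 1 = -(algebraMap k M (a 0) * (z.Y 0 / z.Y 1) + algebraMap k M (a 1)) /
        algebraMap k M (a 2) := by
      field_simp
      linear_combination he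
    rw [e1]
    exact F.div_mem (F.neg_mem (F.add_mem (F.mul_mem (F.algebraMap_mem _) hτ) (F.algebraMap_mem _)))
      (F.algebraMap_mem _)
  have h2 : z.Y 2 / z.Y 1 ∈ F := by
    rcases hAB with h | h
    · exact hlin A h hr1
    · exact hlin B h hr2
  have hall : ∀ i, z.Y i / z.Y 1 ∈ F := by
    intro i
    fin_cases i
    · exact hτ
    · change z.Y 1 / z.Y 1 ∈ F
      rw [div_self h1]
      exact F.one_mem
    · exact h2
  apply le_antisymm
  · unfold yf
    rw [IntermediateField.adjoin_le_iff]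
    rintro _ ⟨⟨i, j⟩, rfl⟩
    change z.Y i / z.Y j ∈ F
    have e1 : z.Y i / z.Y j = (z.Y i / z.Y 1) / (z.Y j / z.Y 1) := by
      have := hz.Y0 j
      field_simp
    rw [e1]
    exact F.div_mem (hall i) (hall j)
  · rw [hF, IntermediateField.adjoin_simple_le_iff]
    exact IntermediateField.subset_adjoin k _ ⟨(0, 1), rfl⟩

theorem theta_line [IsAlgClosed k] [CharZero k] {c : Dat k} (hc : c.Good) (hn : ND c) {ζ ν : k}
    (hζ : IsPrimitiveRoot ζ c.n) (hν : ν ^ c.n = ∏ i, (-(kb c i) / ka c i)) :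
    ∃ Θ : TensorProduct ℤ ℚ (CH c 3 1) →ₗ[ℚ] TensorProduct ℤ ℚ (CH (c.over (Lf k)) 1 0),
      ∀ Q : Fin 2 → Option k, OnC c (Q 0) (Q 1) →
        Θ (Lval c ζ ν (TensorProduct.mk ℤ ℚ (CH c 3 1) 1).toAddMonoidHom Q) =
          (6 * (c.n : ℚ) ^ 2) • TensorProduct.mk ℤ ℚ (CH (c.over (Lf k)) 1 0) 1
            (2 • bpt c Q - bpt c (tau ζ Q) - bpt c (tau ζ⁻¹ Q)) := by
  have hn2 := hc.two
  have hν0 : ν ≠ 0 := by
    rintro rfl
    rw [zero_pow (by omega)] at hν
    have := Finset.prod_ne_zero_iff.2 (fun i (_ : i ∈ Finset.univ) =>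
      div_ne_zero (neg_ne_zero.2 (kb_ne hc i)) (ka_ne hc i))
    exact this hν.symm
  have hζ0 : ζ ≠ 0 := hζ.ne_zero (by omega)
  set q : CH c 3 1 →+ TensorProduct ℤ ℚ (CH c 3 1) := (TensorProduct.mk ℤ ℚ (CH c 3 1) 1).toAddMonoidHom with hq
  set q' : CH (c.over (Lf k)) 1 0 →+ TensorProduct ℤ ℚ (CH (c.over (Lf k)) 1 0) :=
    (TensorProduct.mk ℤ ℚ (CH (c.over (Lf k)) 1 0) 1).toAddMonoidHom with hq'
  obtain ⟨Sop, hS⟩ := exists_S hc hn hζ hν q
  obtain ⟨Con, hCon⟩ := exists_con hc hζ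
  obtain ⟨FS, hFS⟩ := ext_q Sop
  obtain ⟨FC, hFC⟩ := ext_q (q'.comp Con)
  have hFS' : ∀ x, FS (q x) = Sop x := hFS
  have hFC' : ∀ x, FC (q x) = q' (Con x) := hFC
  refine ⟨FC.comp FS, ?_⟩
  intro Q hQ
  by_cases hr : Q 1 = none ∨ Q 1 = some 0
  · rw [Lval_ram q Q hr, map_zero, F2_tau_ram Q hr, F2_tau_ram Q hr]
    have : 2 • bpt c Q - bpt c Q - bpt c Q = 0 := by
      rw [two_nsmul]; abel
    rw [this, map_zero, smul_zero]
  · have hu : UnR Q := by
      rcases h1 : Q 1 with _ | y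
      · exact absurd (Or.inl h1) hr
      · refine ⟨y, h1, ?_⟩
        rintro rfl
        exact hr (Or.inr h1)
    obtain ⟨M, _, _, z, hM, hz, hl, h1⟩ := line_pt hc hν Q hQ hr
    obtain ⟨M', _, _, i, P, hfin, hP⟩ := exists_lift hc z hz
    have hM' : FunF k 1 M' := funF_finite i hfin hM
    have hTZ := TZ_spec hc hζ q hz i P hfin hP
    rw [Lval_spec hc hζ hν q Q hQ hM hz hl, h1, one_smul] at hTZ
    have hz' : IsZ (c.over M') (z.map i) := (isZ_map i).2 hz
    have hl' : OnLine c ν Q (z.map i) := by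
      obtain ⟨hR, y, hy, hy0, hyu⟩ := hl
      refine ⟨?_, y, hy, hy0, ?_⟩
      · intro j
        change i (z.R j) = _
        rw [hR j, i.commutes]
      · change i z.u * algebraMap k M' y = algebraMap k M' ν
        rw [← i.commutes, ← i.commutes, ← map_mul, hyu]
    have hSm := S_mns hc hn hζ hν0 q Sop hS hM' hz' hP Q hQ hl'
    set E : TensorProduct ℤ ℚ (CH (c.over (Lf k)) 1 0) :=
      q' (2 • bpt c Q - bpt c (tau ζ Q) - bpt c (tau ζ⁻¹ Q)) with hE
    have hterm : ∀ (w : Fin 3 → k), w ∈ W c → ∀ j : Fin 3,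
        FC (q (BR c (tau (w j) (P j)) Q - BR c (tau (w j) (P j)) (tau ζ Q)) -
          q (BR c (tau (w j * t1 ζ j) (P j)) (tau ζ⁻¹ Q) -
            BR c (tau (w j * t1 ζ j) (P j)) (tau ζ (tau ζ⁻¹ Q)))) =
          (3 * (dgo k (P j 0) : ℤ)) • E := by
      intro w hw j
      have hwn := F2_mem_W hc hw
      have hon1 : OnC (c.over M') (tau (w j) (P j) 0) (tau (w j) (P j) 1) := on_tw w hwn hP.on j
      have ht1 : ∀ j, t1 ζ j ^ c.n = 1 := by
        intro j
        fin_cases j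
        · exact hζ.pow_eq_one
        · exact one_pow _
        · exact one_pow _
      have hon2 : OnC (c.over M') (tau (w j * t1 ζ j) (P j) 0) (tau (w j * t1 ζ j) (P j) 1) :=
        on_tw (fun j => w j * t1 ζ j) (fun j => by rw [mul_pow, hwn j, ht1 j, one_mul]) hP.on j
      have e1 := F2_con hc Con hCon hM' _ hon1 Q hQ hu
      have hζi : ζ⁻¹ ^ c.n = 1 := by rw [inv_pow, hζ.pow_eq_one, inv_one]
      have e2 := F2_con hc Con hCon hM' _ hon2 (tau ζ⁻¹ Q) (F2_onC_tau hζi Q hQ)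
        (F2_unR_tau (inv_ne_zero hζ0) Q hu)
      rw [map_sub, hFC', hFC', e1, e2, F2_tau_tau hζ0]
      change q' ((3 * (dgo k (P j 0) : ℤ)) • (bpt c Q - bpt c (tau ζ Q))) -
        q' ((3 * (dgo k (P j 0) : ℤ)) • (bpt c (tau ζ⁻¹ Q) - bpt c Q)) = _
      rw [map_zsmul, map_zsmul, ← smul_sub, ← map_sub, hE]
      congr 2
      rw [two_nsmul]
      abel
    have hΘ : FC (FS (q (mns c ζ P))) = ((6 * c.n ^ 2 * ∑ j, dgo k (P j 0) : ℕ) : ℤ) • E := by
      rw [hFS', hSm, map_sum]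
      have e1 : ∀ σ : Equiv.Perm (Fin 3), FC (∑ w ∈ W c,
          (q (BR c (tau (w (σ 2)) (P (σ 2))) Q - BR c (tau (w (σ 2)) (P (σ 2))) (tau ζ Q)) -
            q (BR c (tau (w (σ 2) * t1 ζ (σ 2)) (P (σ 2))) (tau ζ⁻¹ Q) -
              BR c (tau (w (σ 2) * t1 ζ (σ 2)) (P (σ 2))) (tau ζ (tau ζ⁻¹ Q))))) =
          (c.n ^ 2) • ((3 * (dgo k (P (σ 2) 0) : ℤ)) • E) := by
        intro σ
        rw [map_sum, Finset.sum_congr rfl fun w hw => hterm w hw (σ 2), Finset.sum_const, card_W hc hζ]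
      rw [Finset.sum_congr rfl fun σ _ => e1 σ,
        sum_perm2 (fun j => (c.n ^ 2) • ((3 * (dgo k (P j 0) : ℤ)) • E))]
      rw [← Finset.smul_sum, ← Finset.sum_smul, ← Finset.mul_sum]
      rw [← natCast_zsmul, ← natCast_zsmul, smul_smul, smul_smul]
      congr 1
      push_cast
      ring
    have hτtr : Transcendental k ((z.map i).Y 0 / (z.map i).Y 1) := by
      have hdg : dg k (z.Y 0 / z.Y 1) = 1 := by
        rw [dg, ← F2_gen hc hz hl]
        exact h1
      intro halg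
      have e1 : (z.map i).Y 0 / (z.map i).Y 1 = i (z.Y 0 / z.Y 1) := (map_div₀ i _ _).symm
      rw [e1] at halg
      have e2 := dg_alg hM' _ halg
      rw [dg_map, hdg, mul_one] at e2
      exact hfin e2
    have hsum := sum_dg hc hν0 hM' hz' hP Q hQ hl' hτtr
    have hdg : dg k ((z.map i).Y 0 / (z.map i).Y 1) = Module.finrank i.fieldRange M' := by
      have e1 : (z.map i).Y 0 / (z.map i).Y 1 = i (z.Y 0 / z.Y 1) := (map_div₀ i _ _).symm
      have e2 : dg k (z.Y 0 / z.Y 1) = 1 := by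
        rw [dg, ← F2_gen hc hz hl]
        exact h1
      rw [e1, dg_map, e2, mul_one]
    rw [hsum, hdg, hTZ] at hΘ
    set d := Module.finrank i.fieldRange M' with hd
    rw [map_nsmul, map_nsmul] at hΘ
    have hd0 : (d : ℚ) ≠ 0 := by exact_mod_cast hfin
    have h3 : (d : ℚ) • FC (FS (Lval c ζ ν q Q)) = (d : ℚ) • ((6 * (c.n : ℚ) ^ 2) • E) := by
      rw [Nat.cast_smul_eq_nsmul, hΘ, ← Int.cast_smul_eq_zsmul ℚ, smul_smul]
      congr 1
      push_cast
      ring
    have h4 := congrArg (fun t => (d : ℚ)⁻¹ • t) h3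
    simp only [smul_smul] at h4
    rw [inv_mul_cancel₀ hd0, one_smul, ← mul_assoc, inv_mul_cancel₀ hd0, one_mul] at h4
    exact h4

end Pool.Agent.LibCW77
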