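import Pool.Agent.LibCW77.Defs6
import Pool.Agent.LibCW77.F2
import Pool.Agent.LibCW77.Ds
import Pool.Agent.LibCW77.K0
import Pool.Agent.LibCW77.D4

/-!
[CW77 F3] The injectivity. Apply `Θ` (`theta_line`): `6 n ^ 2 • (1 ⊗ ∑ m_j (2 bpt Q_j - bpt τQ_j - bpt τ⁻¹Q_j)) = 0`, `tensor_zero` (K0): this sum has finite order; `descent` (Ds) for the family `J × Fin 3`: `x = ∑ m_j (2 [Q_j] - [τ Q_j] - [τ⁻¹ Q_j])` has finite order in `CH c 1 0`. Let `y = ∑ m_j ([Q_j] - [τ Q_j])`,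
`T` the homomorphism of `CH c 1 0` induced by `τ` (`exists_tw` for `d = 0`; `FunF k 0 k`). `T x = T y - y` up to sign (`x = y - T⁻¹ y`), so `T y - y` has finite order (image of an element of finite order), hence all `T ^ i y - y`; `∑_(i < n) T ^ i y = ∑ m_j ([Q_j] - [τ ^ n Q_j]) = 0`, so `n y` has finite
order, so `y` has. (Use the torsion subgroup `AddCommGroup.torsion` or `exists N > 0, N • .. = 0`.)
-/

open scoped Classical
open Polynomial

namespace Pool.Agent.LibCW77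

open Pool.Agent.LibBH2
open Pool.Agent.LibCHd (VR RF Red FunF)

variable {k : Type} [Field k]

private theorem F3_abs {A : Type} [AddCommGroup A] (T : A →+ A) (n : ℕ) (hn : n ≠ 0) (y : A)
    (h1 : IsOfFinAddOrder (T y - y)) (h2 : ∑ i ∈ Finset.range n, (⇑T)^[i] y = 0) :
    IsOfFinAddOrder y := by
  have h3 : ∀ i : ℕ, IsOfFinAddOrder ((⇑T)^[i] y - y) := by
    intro i
    induction i with
    | zero =>
      rw [Function.iterate_zero, id_eq, sub_self]
      exact IsOfFinAddOrder.zero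
    | succ i ih =>
      have h4 : (⇑T)^[i + 1] y - y = T ((⇑T)^[i] y - y) + (T y - y) := by
        rw [Function.iterate_succ_apply', map_sub]
        abel
      rw [h4]
      exact (AddMonoidHom.isOfFinAddOrder T ih).add h1
  have h5 : IsOfFinAddOrder (∑ i ∈ Finset.range n, ((⇑T)^[i] y - y)) := by
    have h6 : ∀ s : Finset ℕ, IsOfFinAddOrder (∑ i ∈ s, ((⇑T)^[i] y - y)) := by
      intro s
      induction s using Finset.induction_on with
      | empty => rw [Finset.sum_empty]; exact IsOfFinAddOrder.zero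
      | insert a s ha ih => rw [Finset.sum_insert ha]; exact (h3 a).add ih
    exact h6 _
  rw [Finset.sum_sub_distrib, h2, Finset.sum_const, Finset.card_range, zero_sub,
    isOfFinAddOrder_neg_iff] at h5
  exact h5.of_nsmul hn

private theorem F3_tau_one (Q : Fin 2 → Option k) : tau (1 : k) Q = Q := by
  funext i
  fin_cases i
  · rfl
  · change (Q 1).map (fun v => algebraMap k k 1 * v) = Q 1
    rw [map_one]
    rcases Q 1 with _ | v
    · rfl
    · change some (1 * v) = some v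
      rw [one_mul]

private theorem F3_tau_tau (z w : k) (Q : Fin 2 → Option k) : tau z (tau w Q) = tau (z * w) Q := by
  funext i
  fin_cases i
  · rfl
  · change ((Q 1).map (fun v => algebraMap k k w * v)).map (fun v => algebraMap k k z * v) =
      (Q 1).map (fun v => algebraMap k k (z * w) * v)
    rcases Q 1 with _ | v
    · rfl
    · change some (algebraMap k k z * (algebraMap k k w * v)) = some (algebraMap k k (z * w) * v)
      rw [map_mul, mul_assoc]

private theorem F3_on {c : Dat k} {z : k} (hz : z ^ c.n = 1) {Q : Fin 2 → Option k} (hQ : OnC c (Q 0) (Q 1)) :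
    OnC c (tau z Q 0) (tau z Q 1) := by
  have h : On (c.over k) (pt1 Q) := fun _ => hQ
  exact on_tw (c := c) (M := k) (fun _ : Fin 1 => z) (fun _ => hz) h 0

theorem line_inj [IsAlgClosed k] [CharZero k] {c : Dat k} (hc : c.Good) (hn : ND c) {ζ ν : k}
    (hζ : IsPrimitiveRoot ζ c.n) (hν : ν ^ c.n = ∏ i, (-(kb c i) / ka c i)) {J : Type} [Fintype J] (m : J → ℤ)
    (Q : J → Fin 2 → Option k) (hQ : ∀ j, OnC c (Q j 0) (Q j 1))
    (h : ∑ j, m j • Lval c ζ ν (TensorProduct.mk ℤ ℚ (CH c 3 1) 1).toAddMonoidHom (Q j) = 0) :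
    IsOfFinAddOrder (∑ j, m j • (cls c 0 (pt1 (Q j)) - cls c 0 (pt1 (tau ζ (Q j))))) := by
  have hn0 : c.n ≠ 0 := by
    have := hc.two
    omega
  have hz1 : ζ ^ c.n = 1 := hζ.pow_eq_one
  have hzi : ζ⁻¹ ^ c.n = 1 := by rw [inv_pow, hz1, inv_one]
  have hz0 : ζ ≠ 0 := hζ.ne_zero hn0
  obtain ⟨Θ, hΘ⟩ := theta_line hc hn hζ hν
  have h1 : IsOfFinAddOrder (∑ j, m j • (2 • bpt c (Q j) - bpt c (tau ζ (Q j)) - bpt c (tau ζ⁻¹ (Q j)))) := by
    rw [← tensor_zero]
    have h2 : Θ (∑ j, m j • Lval c ζ ν (TensorProduct.mk ℤ ℚ (CH c 3 1) 1).toAddMonoidHom (Q j)) =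
        (6 * (c.n : ℚ) ^ 2) • TensorProduct.mk ℤ ℚ (CH (c.over (Pool.Agent.LibHL77.Lf k)) 1 0) 1
          (∑ j, m j • (2 • bpt c (Q j) - bpt c (tau ζ (Q j)) - bpt c (tau ζ⁻¹ (Q j)))) := by
      rw [map_sum, map_sum, Finset.smul_sum]
      refine Finset.sum_congr rfl fun j _ => ?_
      rw [map_zsmul, hΘ (Q j) (hQ j), map_zsmul, smul_comm]
    rw [h, map_zero] at h2
    have h3 : (6 * (c.n : ℚ) ^ 2) ≠ 0 := by
      have : (c.n : ℚ) ≠ 0 := by exact_mod_cast hn0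
      positivity
    exact (smul_eq_zero.1 h2.symm).resolve_left h3
  have h2 : IsOfFinAddOrder (∑ p : J × Fin 3, (![2 * m p.1, - m p.1, - m p.1] p.2) •
      bpt c ((![Q p.1, tau ζ (Q p.1), tau ζ⁻¹ (Q p.1)] : Fin 3 → Fin 2 → Option k) p.2)) := by
    rw [Fintype.sum_prod_type]
    have h3 : ∀ j : J, ∑ i : Fin 3, (![2 * m j, - m j, - m j] i) •
        bpt c ((![Q j, tau ζ (Q j), tau ζ⁻¹ (Q j)] : Fin 3 → Fin 2 → Option k) i) =
        m j • (2 • bpt c (Q j) - bpt c (tau ζ (Q j)) - bpt c (tau ζ⁻¹ (Q j))) := by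
      intro j
      rw [Fin.sum_univ_three]
      change (2 * m j) • bpt c (Q j) + (- m j) • bpt c (tau ζ (Q j)) + (- m j) • bpt c (tau ζ⁻¹ (Q j)) = _
      rw [mul_comm, mul_smul]
      have h4 : ((2 : ℤ) • bpt c (Q j)) = (2 : ℕ) • bpt c (Q j) := by
        exact_mod_cast natCast_zsmul (bpt c (Q j)) 2
      rw [h4, zsmul_sub, zsmul_sub, neg_zsmul, neg_zsmul]
      abel
    change IsOfFinAddOrder (∑ j : J, ∑ i : Fin 3, (![2 * m j, - m j, - m j] i) •
        bpt c ((![Q j, tau ζ (Q j), tau ζ⁻¹ (Q j)] : Fin 3 → Fin 2 → Option k) i))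
    rw [Finset.sum_congr rfl fun j _ => h3 j]
    exact h1
  have h3 := descent hc (J := J × Fin 3) (fun p => ![2 * m p.1, - m p.1, - m p.1] p.2)
    (fun p => (![Q p.1, tau ζ (Q p.1), tau ζ⁻¹ (Q p.1)] : Fin 3 → Fin 2 → Option k) p.2)
    (by
      rintro ⟨j, i⟩
      fin_cases i
      · exact hQ j
      · exact F3_on hz1 (hQ j)
      · exact F3_on hzi (hQ j)) h2
  have h4 : IsOfFinAddOrder (∑ j, m j • (2 • cls c 0 (pt1 (Q j)) - cls c 0 (pt1 (tau ζ (Q j))) -
      cls c 0 (pt1 (tau ζ⁻¹ (Q j))))) := by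
    rw [Fintype.sum_prod_type] at h3
    have h5 : ∀ j : J, ∑ i : Fin 3, (![2 * m j, - m j, - m j] i) •
        cls c 0 (pt1 ((![Q j, tau ζ (Q j), tau ζ⁻¹ (Q j)] : Fin 3 → Fin 2 → Option k) i)) =
        m j • (2 • cls c 0 (pt1 (Q j)) - cls c 0 (pt1 (tau ζ (Q j))) - cls c 0 (pt1 (tau ζ⁻¹ (Q j)))) := by
      intro j
      rw [Fin.sum_univ_three]
      change (2 * m j) • cls c 0 (pt1 (Q j)) + (- m j) • cls c 0 (pt1 (tau ζ (Q j))) +
        (- m j) • cls c 0 (pt1 (tau ζ⁻¹ (Q j))) = _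
      rw [mul_comm, mul_smul]
      have h4 : ((2 : ℤ) • cls c 0 (pt1 (Q j))) = (2 : ℕ) • cls c 0 (pt1 (Q j)) := by
        exact_mod_cast natCast_zsmul (cls c 0 (pt1 (Q j))) 2
      rw [h4, zsmul_sub, zsmul_sub, neg_zsmul, neg_zsmul]
      abel
    change IsOfFinAddOrder (∑ j : J, ∑ i : Fin 3, (![2 * m j, - m j, - m j] i) •
        cls c 0 (pt1 ((![Q j, tau ζ (Q j), tau ζ⁻¹ (Q j)] : Fin 3 → Fin 2 → Option k) i))) at h3
    rw [Finset.sum_congr rfl fun j _ => h5 j] at h3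
    exact h3
  obtain ⟨T, hT⟩ := exists_tw (m := 1) c hc 0 (fun _ => ζ) (fun _ => hz1)
  have hF0 : FunF k 0 k := Pool.Agent.LibHL77.funF_zero.2 inferInstance
  have hTQ : ∀ R : Fin 2 → Option k, OnC c (R 0) (R 1) → T (cls c 0 (pt1 R)) = cls c 0 (pt1 (tau ζ R)) := by
    intro R hR
    exact hT k (pt1 R) hF0 (fun _ => hR)
  have hpow : ∀ i : ℕ, (ζ ^ i) ^ c.n = 1 := by
    intro i
    rw [← pow_mul, mul_comm, pow_mul, hz1, one_pow]
  have hit : ∀ i : ℕ, (⇑T)^[i] (∑ j, m j • (cls c 0 (pt1 (Q j)) - cls c 0 (pt1 (tau ζ (Q j))))) =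
      ∑ j, m j • (cls c 0 (pt1 (tau (ζ ^ i) (Q j))) - cls c 0 (pt1 (tau (ζ ^ (i + 1)) (Q j)))) := by
    intro i
    induction i with
    | zero =>
      rw [Function.iterate_zero, id_eq]
      refine Finset.sum_congr rfl fun j _ => ?_
      rw [pow_zero, zero_add, pow_one, F3_tau_one]
    | succ i ih =>
      rw [Function.iterate_succ_apply', ih, map_sum]
      refine Finset.sum_congr rfl fun j _ => ?_
      rw [map_zsmul, map_sub, hTQ _ (F3_on (hpow i) (hQ j)), hTQ _ (F3_on (hpow (i + 1)) (hQ j)),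
        F3_tau_tau, F3_tau_tau, ← pow_succ', ← pow_succ']
  refine F3_abs T c.n hn0 _ ?_ ?_
  · have h5 : T (∑ j, m j • (cls c 0 (pt1 (Q j)) - cls c 0 (pt1 (tau ζ (Q j))))) -
        (∑ j, m j • (cls c 0 (pt1 (Q j)) - cls c 0 (pt1 (tau ζ (Q j))))) =
        T (∑ j, m j • (2 • cls c 0 (pt1 (Q j)) - cls c 0 (pt1 (tau ζ (Q j))) -
          cls c 0 (pt1 (tau ζ⁻¹ (Q j))))) := by
      rw [map_sum, map_sum, ← Finset.sum_sub_distrib]
      refine Finset.sum_congr rfl fun j _ => ?_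
      rw [map_zsmul, map_zsmul, ← zsmul_sub, map_sub, map_sub, map_sub, map_nsmul, hTQ _ (hQ j),
        hTQ _ (F3_on hz1 (hQ j)), hTQ _ (F3_on hzi (hQ j)), F3_tau_tau ζ ζ⁻¹, mul_inv_cancel₀ hz0,
        F3_tau_one]
      congr 1
      rw [two_nsmul]
      abel
    rw [h5]
    exact AddMonoidHom.isOfFinAddOrder T h4
  · rw [Finset.sum_congr rfl fun i _ => hit i, Finset.sum_comm]
    apply Finset.sum_eq_zero
    intro j _
    rw [← Finset.smul_sum, Finset.sum_range_sub', pow_zero, hz1, sub_self, smul_zero]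

end Pool.Agent.LibCW77
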