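import Pool.Agent.LibCW77.FDefs

/-!
[CW77 FA4] The parameters `α` and `r`.

Plan. `h.inj` for the pairs of indices: `α ≠ 0`: if `α = 0` then `α⁻¹ = 0`, so `a 1 = a 2`.
`α ^ 2 ≠ 1`: `α = 1` gives `a 0 = a 1`, `α = -1` gives `b 0 = -1 = a 1`. `α ^ 2 ≠ -1`: then `α⁻¹ = - α`, so `a 2 = b 1`.
`rr α ≠ 0`: `α ≠ 1`, `α + 1 ≠ 0`. `(rr α) ^ 2 ≠ 1`: `rr α = -1` iff `(α-1)^2 = (α+1)^2` iff `4 α = 0`; `rr α = 1` iff
`(α-1)^2 + (α+1)^2 = 0` iff `2 (α ^ 2 + 1) = 0`.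
-/

open scoped Classical
open Polynomial

namespace Pool.Agent.LibCW77

open Pool.Agent.LibBH2
open Pool.Agent.LibCHd (VR RF Red FunF)

variable {k : Type} [Field k]

theorem fam_facts [CharZero k] {α : k} (h : (fam α).Good) :
    α ≠ 0 ∧ α ^ 2 ≠ 1 ∧ α ^ 2 ≠ -1 ∧ α + 1 ≠ 0 ∧ rr α ≠ 0 ∧ (rr α) ^ 2 ≠ 1 := by
  have hinj := h.inj
  have ha : ∀ i j : Fin 3, i ≠ j → (fam α).a i ≠ (fam α).a j := by
    intro i j hij he
    have h1 : (Sum.inl i : Fin 3 ⊕ Fin 3) = Sum.inl j := hinj he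
    exact hij (Sum.inl_injective h1)
  have hab : ∀ i j : Fin 3, (fam α).a i ≠ (fam α).b j := by
    intro i j he
    have h1 : (Sum.inl i : Fin 3 ⊕ Fin 3) = Sum.inr j := hinj he
    simp at h1
  have h01 : (1 : k) ≠ α := ha 0 1 (by decide)
  have h12 : α ≠ α⁻¹ := ha 1 2 (by decide)
  have hb01 : α ≠ -1 := hab 1 0
  have hb21 : α⁻¹ ≠ -α := hab 2 1
  have h0 : α ≠ 0 := by
    rintro rfl
    exact h12 inv_zero.symm
  have hp : α + 1 ≠ 0 := fun h1 => hb01 (eq_neg_of_add_eq_zero_left h1)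
  have hm : α - 1 ≠ 0 := fun h1 => h01 (sub_eq_zero.1 h1).symm
  have h2 : α ^ 2 ≠ 1 := by
    intro h1
    have h3 : (α - 1) * (α + 1) = 0 := by linear_combination h1
    exact (mul_ne_zero hm hp) h3
  have h3 : α ^ 2 ≠ -1 := by
    intro h1
    apply hb21
    rw [inv_eq_iff_eq_inv, ← one_div, eq_div_iff (neg_ne_zero.2 h0)]
    linear_combination -h1
  have hr0 : rr α ≠ 0 := by
    unfold rr
    exact neg_ne_zero.2 (pow_ne_zero _ (div_ne_zero hm hp))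
  refine ⟨h0, h2, h3, hp, hr0, ?_⟩
  intro h4
  have h5 : (rr α - 1) * (rr α + 1) = 0 := by linear_combination h4
  have h20 : (2 : k) ≠ 0 := two_ne_zero
  rcases mul_eq_zero.1 h5 with h6 | h6
  · have h7 : (α - 1) ^ 2 + (α + 1) ^ 2 = 0 := by
      unfold rr at h6
      rw [div_pow] at h6
      field_simp at h6
      linear_combination -h6
    have h8 : (2 : k) * (α ^ 2 + 1) = 0 := by linear_combination h7
    rcases mul_eq_zero.1 h8 with h9 | h9
    · exact h20 h9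
    · exact h3 (eq_neg_of_add_eq_zero_left h9)
  · have h7 : (α + 1) ^ 2 - (α - 1) ^ 2 = 0 := by
      unfold rr at h6
      rw [div_pow] at h6
      field_simp at h6
      linear_combination h6
    have h8 : (2 : k) * 2 * α = 0 := by linear_combination h7
    exact (mul_ne_zero (mul_ne_zero h20 h20) h0) h8

end Pool.Agent.LibCW77
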