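import Pool.Agent.LibCW77.FDefs
import Pool.Agent.LibCW77.C1
import Pool.Agent.LibCW77.D3
import Pool.Agent.LibCW77.D4

/-!
The map of the curve `fam α` to the elliptic curve `Er (rr α)`: definitions.

On the curve let `y = (x - 1) / (x + 1)`, `t = v / y`, `u = y ^ 2`, `r = rr α`. Then `t ^ 3 u (1 + r u) = u + r`, and
`(eX r t, eY r t u)` is a point of `Er r`; `τ` acts by `t ↦ ζ t`, `u ↦ u`.
-/

open scoped Classical
open Polynomial

namespace Pool.Agent.LibCW77

open Pool.Agent.LibBH2
open Pool.Agent.LibCHd (VR RF Red FunF)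

/-- `t = v / y`, `y = (x - 1) / (x + 1)` -/
noncomputable def tE {N : Type} [Field N] (x v : N) : N := v * (x + 1) / (x - 1)

/-- `u = y ^ 2`, `y = (x - 1) / (x + 1)` -/
noncomputable def uE {N : Type} [Field N] (x : N) : N := ((x - 1) / (x + 1)) ^ 2

/-- the coordinate `X` of the image in `Er r` -/
noncomputable def eX {N : Type} [Field N] (r t : N) : N := -(4 * (1 - r ^ 2)) * t / (1 + t) ^ 2

/-- the coordinate `Y` of the image in `Er r` -/
noncomputable def eY {N : Type} [Field N] (r t u : N) : N :=
  4 * (1 - r ^ 2) * r * (1 + t ^ 3 * u ^ 2) / (u * (1 + t) ^ 3)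

variable {k : Type} [Field k]

/-- the coordinate `X` of the image of the generic point `(x, v)` of the curve `fam α` -/
noncomputable def gX (α : k) {N : Type} [Field N] [Algebra k N] (x v : N) : N :=
  eX (algebraMap k N (rr α)) (tE x v)

/-- the coordinate `Y` of the image of the generic point `(x, v)` of the curve `fam α` -/
noncomputable def gY (α : k) {N : Type} [Field N] [Algebra k N] (x v : N) : N :=
  eY (algebraMap k N (rr α)) (tE x v) (uE x)

/-- the place `w` lies over the point `Q` of the curve (the values of `x`, `v` at `w` are the coordinates of `Q`) -/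
def Ctr {N : Type} [Field N] [Algebra k N] (w : Place k N) (x v : N) (Q : Fin 2 → Option k) : Prop :=
  SpO w (some x) ((Q 0).map (algebraMap k (RF w))) ∧ SpO w (some v) ((Q 1).map (algebraMap k (RF w)))

end Pool.Agent.LibCW77
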