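import Pool.Agent.LibCW77.FB0

/-!
[CW77 FB1] ONLY ALGEBRA in fields. Notation: `r = rr α = - ((α - 1) / (α + 1)) ^ 2`, `y = (x - 1) / (x + 1)`.
`fam_ne`: from the injectivity of `Sum.elim ![1, α, α⁻¹] (- ...)` (`h.inj`): `α ≠ 0`, `α ≠ 1`, `α ≠ -1`, `α ^ 2 ≠ -1` (`α ≠ -α⁻¹`), so `r ≠ 0`, `r ^ 2 ≠ 1`
(`1 - r ^ 2 = 0` iff `(α + 1) ^ 4 = (α - 1) ^ 4` iff `8 α (α ^ 2 + 1) = 0`).
`tu_rel`: the equation of the curve is `v ^ 3 (x + 1) (x + α) (x + α⁻¹) = (x - 1) (x - α) (x - α⁻¹)`;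
`y ^ 2 + r = 4 α (x - α) (x - α⁻¹) / ((x + 1) ^ 2 (α + 1) ^ 2)`, `1 + r y ^ 2 = 4 α (x + α) (x + α⁻¹) / ((x + 1) ^ 2 (α + 1) ^ 2)`, so `v ^ 3 (1 + r y ^ 2) = y (y ^ 2 + r)`,
and `v = t y`.
`eXY_eq`, `eX_A`, `eX_B`: `field_simp`, `ring` (`eXY_eq`: `(eY (1 + t) ^ 3 / c) ^ 2 = (r (1 + t ^ 3 u ^ 2) / u) ^ 2 = (1 - t ^ 3) ^ 2 + 4 r ^ 2 t ^ 3`, because
`r (1 - t ^ 3 u ^ 2) = u (t ^ 3 - 1)`; and `1 + t ^ 3 = (1 + t) (1 - t + t ^ 2)`; `linear_combination (...) * h`).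
-/

open scoped Classical
open Polynomial

namespace Pool.Agent.LibCW77

open Pool.Agent.LibBH2
open Pool.Agent.LibCHd (VR RF Red FunF)

variable {k : Type} [Field k]

private theorem fb1_alpha [CharZero k] {α : k} (h : (fam α).Good) :
    α ≠ 0 ∧ α ≠ 1 ∧ α + 1 ≠ 0 ∧ α ^ 2 + 1 ≠ 0 := by
  have hinj := h.inj
  have h0 : α ≠ 0 := by
    intro h0
    have h1 : Sum.elim (fam α).a (fam α).b (Sum.inl 1) = Sum.elim (fam α).a (fam α).b (Sum.inr 1) := by
      simp [fam, symD, h0]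
    have h2 := hinj h1
    simp at h2
  have h1 : α ≠ 1 := by
    intro h0
    have h1 : Sum.elim (fam α).a (fam α).b (Sum.inl 0) = Sum.elim (fam α).a (fam α).b (Sum.inl 1) := by
      simp [fam, symD, h0]
    have h2 := hinj h1
    simp at h2
  refine ⟨h0, h1, ?_, ?_⟩
  · intro h3
    have h4 : α = -1 := by linear_combination h3
    have h5 : Sum.elim (fam α).a (fam α).b (Sum.inl 1) = Sum.elim (fam α).a (fam α).b (Sum.inr 0) := by
      simp [fam, symD, h4]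
    have h2 := hinj h5
    simp at h2
  · intro h3
    have h4 : α = -α⁻¹ := by
      field_simp
      linear_combination h3
    have h5 : Sum.elim (fam α).a (fam α).b (Sum.inl 1) = Sum.elim (fam α).a (fam α).b (Sum.inr 2) := by
      simp only [fam, symD, Sum.elim_inl, Sum.elim_inr]
      exact h4
    have h2 := hinj h5
    simp at h2

theorem fam_ne [CharZero k] {α : k} (h : (fam α).Good) :
    α ≠ 0 ∧ α + 1 ≠ 0 ∧ rr α ≠ 0 ∧ 1 - rr α ^ 2 ≠ 0 := by
  obtain ⟨h0, h1, h2, h3⟩ := fb1_alpha h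
  have h4 : α - 1 ≠ 0 := sub_ne_zero.mpr h1
  refine ⟨h0, h2, ?_, ?_⟩
  · unfold rr
    exact neg_ne_zero.mpr (pow_ne_zero 2 (div_ne_zero h4 h2))
  · have h5 : (1 - rr α ^ 2) * (α + 1) ^ 4 = 8 * α * (α ^ 2 + 1) := by
      unfold rr
      field_simp
      ring
    intro h6
    rw [h6, zero_mul] at h5
    have h7 : (8 : k) * α * (α ^ 2 + 1) ≠ 0 := mul_ne_zero (mul_ne_zero (by norm_num) h0) h3
    exact h7 h5.symm

theorem tu_rel [CharZero k] {α : k} (h : (fam α).Good) {N : Type} [Field N] [Algebra k N] {x v : N}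
    (hon : OnC ((fam α).over N) (some x) (some v)) (h1 : x ≠ 1) (h2 : x ≠ -1) :
    tE x v ^ 3 * uE x * (1 + algebraMap k N (rr α) * uE x) = uE x + algebraMap k N (rr α) := by
  obtain ⟨ha, _, hb, _⟩ := fb1_alpha h
  have hA : algebraMap k N α ≠ 0 := (map_ne_zero (algebraMap k N)).mpr ha
  have hB : algebraMap k N α + 1 ≠ 0 := by
    have := (map_ne_zero (algebraMap k N)).mpr hb
    rwa [map_add, map_one] at this
  have hr : algebraMap k N (rr α) = -((algebraMap k N α - 1) / (algebraMap k N α + 1)) ^ 2 := by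
    simp [rr]
  have hon' : v ^ 3 * ((x + 1) * (x + algebraMap k N α) * (x + (algebraMap k N α)⁻¹)) =
      (x - 1) * (x - algebraMap k N α) * (x - (algebraMap k N α)⁻¹) := by
    have h3 := hon
    simp only [OnC, Dat.over, Dat.map, fam, symD, Fin.prod_univ_three] at h3
    simpa using h3
  set A := algebraMap k N α with hAdef
  have hx1 : x - 1 ≠ 0 := sub_ne_zero.mpr h1
  have hx2 : x + 1 ≠ 0 := by
    intro h3
    exact h2 (by linear_combination h3)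
  have hon2 : v ^ 3 * ((x + 1) * (x + A) * (A * x + 1)) = (x - 1) * (x - A) * (A * x - 1) := by
    have h3 : A * (v ^ 3 * ((x + 1) * (x + A) * (x + A⁻¹))) = A * ((x - 1) * (x - A) * (x - A⁻¹)) := by
      rw [hon']
    have h4 : A * (x + A⁻¹) = A * x + 1 := by
      rw [mul_add, mul_inv_cancel₀ hA]
    have h5 : A * (x - A⁻¹) = A * x - 1 := by
      rw [mul_sub, mul_inv_cancel₀ hA]
    calc v ^ 3 * ((x + 1) * (x + A) * (A * x + 1))
        = A * (v ^ 3 * ((x + 1) * (x + A) * (x + A⁻¹))) := by rw [← h4]; ring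
      _ = A * ((x - 1) * (x - A) * (x - A⁻¹)) := h3
      _ = (x - 1) * (x - A) * (A * x - 1) := by rw [← h5]; ring
  rw [hr]
  unfold tE uE
  field_simp
  linear_combination (4 * (x + 1) ^ 0) * hon2

theorem eXY_eq {N : Type} [Field N] {r t u : N} (hu : u ≠ 0) (ht : 1 + t ≠ 0)
    (h : t ^ 3 * u * (1 + r * u) = u + r) :
    eY r t u ^ 2 = eX r t ^ 3 + (3 * eX r t + 4 * (1 - r ^ 2)) ^ 2 := by
  have h1 : r * (1 - t ^ 3 * u ^ 2) = u * (t ^ 3 - 1) := by linear_combination -h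
  have h2 : r ^ 2 * (1 + t ^ 3 * u ^ 2) ^ 2 = u ^ 2 * ((1 - t ^ 3) ^ 2 + 4 * r ^ 2 * t ^ 3) := by
    linear_combination (r * (1 - t ^ 3 * u ^ 2) + u * (t ^ 3 - 1)) * h1
  have h3 : eY r t u ^ 2 * (u ^ 2 * (1 + t) ^ 6) =
      (4 * (1 - r ^ 2)) ^ 2 * (r ^ 2 * (1 + t ^ 3 * u ^ 2) ^ 2) := by
    unfold eY
    field_simp
  have h4 : (eX r t ^ 3 + (3 * eX r t + 4 * (1 - r ^ 2)) ^ 2) * (1 + t) ^ 6 =
      (4 * (1 - r ^ 2)) ^ 2 * ((1 - t ^ 3) ^ 2 + 4 * r ^ 2 * t ^ 3) := by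
    unfold eX
    field_simp
    ring
  have h5 : u ^ 2 * (1 + t) ^ 6 ≠ 0 := mul_ne_zero (pow_ne_zero 2 hu) (pow_ne_zero 6 ht)
  apply mul_right_cancel₀ h5
  rw [h3, h2]
  linear_combination (-u ^ 2) * h4

theorem eX_A {N : Type} [Field N] {r t : N} (ht : 1 + t ≠ 0) :
    eX r t - (r ^ 2 - 1) = (1 - r ^ 2) * (t - 1) ^ 2 / (1 + t) ^ 2 := by
  unfold eX
  field_simp
  ring

theorem eX_B {N : Type} [Field N] {r t : N} (ht : 1 + t ≠ 0) :
    eX r t - 4 * (r ^ 2 - 1) = 4 * (1 - r ^ 2) * (t ^ 2 + t + 1) / (1 + t) ^ 2 := by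
  unfold eX
  field_simp
  ring

/-- a transcendental element is not a root of a polynomial of degree four -/
private theorem fb1_quart {N : Type} [Field N] [Algebra k N] {x : N} (hx : Transcendental k x) {r : k}
    (hr : r + 1 ≠ 0) (h2 : (2 : k) ≠ 0) :
    algebraMap k N r * (x - 1) ^ 4 + 2 * ((x - 1) ^ 2 * (x + 1) ^ 2) + algebraMap k N r * (x + 1) ^ 4 ≠ 0 := by
  intro h
  apply hx
  refine ⟨C r * (X - 1) ^ 4 + 2 * ((X - 1) ^ 2 * (X + 1) ^ 2) + C r * (X + 1) ^ 4, ?_, ?_⟩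
  · intro h3
    have h4 : (C r * (X - 1) ^ 4 + 2 * ((X - 1) ^ 2 * (X + 1) ^ 2) + C r * (X + 1) ^ 4 : k[X]) =
        C (2 * (r + 1)) * X ^ 4 + C (12 * r - 4) * X ^ 2 + C (2 * (r + 1)) := by
      simp only [map_mul, map_add, map_sub, map_one, map_ofNat]
      ring
    rw [h4] at h3
    have h5 := congrArg (fun p : k[X] => p.coeff 4) h3
    simp only [coeff_add, coeff_C_mul, coeff_X_pow, coeff_C, coeff_zero] at h5
    norm_num at h5
    rcases h5 with h5 | h5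
    · exact h2 h5
    · exact hr h5
  · simp only [map_add, map_mul, map_pow, map_sub, aeval_X, map_one, map_ofNat, aeval_C]
    exact h

/-- the generic point: everything is defined, and the equation of `Er` -/
theorem gXY [CharZero k] {α : k} (h : (fam α).Good) {N : Type} [Field N] [Algebra k N] {x v : N}
    (hG : GenC (fam α) x v) :
    x ≠ 1 ∧ x ≠ -1 ∧ v ≠ 0 ∧ tE x v ≠ 0 ∧ 1 + tE x v ≠ 0 ∧ uE x ≠ 0 ∧
    gY α x v ^ 2 = gX α x v ^ 3 + 9 * gX α x v ^ 2 +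
      algebraMap k N (24 * (1 - rr α ^ 2)) * gX α x v + algebraMap k N (16 * (1 - rr α ^ 2) ^ 2) := by
  have hcst : ∀ a : k, x ≠ algebraMap k N a := by
    intro a ha
    apply hG.tr
    rw [ha]
    exact isAlgebraic_algebraMap a
  have hx1 : x ≠ 1 := by
    have := hcst 1
    rwa [map_one] at this
  have hx2 : x ≠ -1 := by
    have := hcst (-1)
    rwa [map_neg, map_one] at this
  have hx1' : x - 1 ≠ 0 := sub_ne_zero.mpr hx1
  have hx2' : x + 1 ≠ 0 := by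
    intro h3
    exact hx2 (by linear_combination h3)
  have hv : v ≠ 0 := by
    intro hv
    have h3 := hG.on
    simp only [OnC] at h3
    rw [hv, zero_pow (by simp [Dat.over, Dat.map, fam, symD]), zero_mul] at h3
    have h4 := Finset.prod_ne_zero_iff.mpr (fun i (_ : i ∈ Finset.univ) =>
      sub_ne_zero.mpr (hcst ((fam α).a i)))
    exact h4 h3.symm
  have hu : uE x ≠ 0 := pow_ne_zero 2 (div_ne_zero hx1' hx2')
  have ht : tE x v ≠ 0 := div_ne_zero (mul_ne_zero hv hx2') hx1'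
  have hrel := tu_rel h hG.on hx1 hx2
  obtain ⟨_, _, hr0, hr1⟩ := fam_ne h
  have hr2 : rr α + 1 ≠ 0 := by
    intro h3
    apply hr1
    linear_combination (1 - rr α) * h3
  have h1t : 1 + tE x v ≠ 0 := by
    intro h3
    have h4 : tE x v = -1 := by linear_combination h3
    rw [h4] at hrel
    have h5 : algebraMap k N (rr α) * uE x ^ 2 + 2 * uE x + algebraMap k N (rr α) = 0 := by
      linear_combination -hrel
    apply fb1_quart hG.tr hr2 two_ne_zero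
    have h6 : (algebraMap k N (rr α) * uE x ^ 2 + 2 * uE x + algebraMap k N (rr α)) * (x + 1) ^ 4 =
        algebraMap k N (rr α) * (x - 1) ^ 4 + 2 * ((x - 1) ^ 2 * (x + 1) ^ 2) +
          algebraMap k N (rr α) * (x + 1) ^ 4 := by
      unfold uE
      field_simp
    rw [← h6, h5, zero_mul]
  refine ⟨hx1, hx2, hv, ht, h1t, hu, ?_⟩
  have h7 := eXY_eq hu h1t hrel
  unfold gX gY
  rw [h7]
  simp only [map_mul, map_sub, map_pow, map_one, map_ofNat]
  ring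

end Pool.Agent.LibCW77
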