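import Pool.Agent.LibCW77.FB1

/-!
[CW77 FB2] The places over `A = (r ^ 2 - 1, r (1 - r ^ 2))`. Let `w` be a place of `N`, `t = tE x v`, `u = uE x`.
`fib_A`: `hX` and `eX_A` give: the value of `t` at `w` is `1` (if `t` has a pole, `(t - 1) / (1 + t)` has the value `1`, if `1 + t` vanishes it has a pole). By `tu_rel` `u` has no pole
(divide by `u ^ 2`: the value of `t ^ 3 r` would be `0`) and its value `u₀` satisfies `u₀ (1 + r u₀) = u₀ + r`, `u₀ ^ 2 = 1` (`r ≠ 0`); the value of `gY` is `c r (1 + 1) / (8 u₀)`, `c = 4 (1 - r ^ 2)`, so `hY` gives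
`u₀ = 1`, `y = ± 1` at `w` (`y = (x - 1) / (x + 1)`): `y = 1`: `x` has a pole and `v = t y` has the value `1`; `y = -1`: `x` has the value `0`, `v` the value `-1`.
`at_A`: at `Qinf`: `w.ord x = -1`, at `Q0`: `w.ord x = 1` (from `placeC` and its uniqueness clause). `y` has the value `1` resp. `-1`, `u` the value `1`, `t` the value `1`, `gY` the value `r (1 - r ^ 2)`. Order: `tu_rel` gives
`(t ^ 3 - 1) u (1 + r u) = r (1 - u) (1 + u)`, `1 + r u` has the value `1 + r ≠ 0`, so `w.ord (t - 1) = w.ord (1 - u)`, `1 - u = (1 - y) (1 + y)`, `1 - y = 2 / (x + 1)`, `1 + y = 2 x / (x + 1)`: the order is `1`; `eX_A`.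
Tools: `Place.val_mul`, `Place.val_add`, `Place.ord_eq_zero_of_val`, `Place.val_unique` (LibBH2/Place.lean); `SpO w (some x) (some c)` is `Red w x c`, see `LibCHd` `red_const`, `Red` and `Zer` (`LibCHd.red_iff` or similar; C1.lean has many examples).
-/

open scoped Classical
open Polynomial

namespace Pool.Agent.LibCW77

open Pool.Agent.LibBH2
open Pool.Agent.LibCHd (VR RF Red FunF)

variable {k : Type} [Field k]

private theorem FB2_two {N : Type} [Field N] [Algebra k N] (w : Place k N) : Red w (2 : N) 2 := by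
  have h1 := (LibCHd.red_one w).add (LibCHd.red_one w)
  rwa [one_add_one_eq_two, one_add_one_eq_two] at h1

private theorem FB2_four {N : Type} [Field N] [Algebra k N] (w : Place k N) : Red w (4 : N) 4 := by
  have h1 := (FB2_two w).add (FB2_two w)
  convert h1 using 1 <;> norm_num

private theorem FB2_cz [CharZero k] {N : Type} [Field N] [Algebra k N] (w : Place k N) :
    CharZero (RF w) :=
  charZero_of_injective_algebraMap (algebraMap k (RF w)).injective

private theorem FB2_zer_sq {N : Type} [Field N] [Algebra k N] {w : Place k N} {c : k} (hc : c ≠ 0)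
    {s : N} (h : w.Zer (algebraMap k N c * s ^ 2)) : w.Zer s := by
  by_cases hs : s = 0
  · exact Or.inl hs
  right
  have hc' : algebraMap k N c ≠ 0 := (_root_.map_ne_zero _).2 hc
  rcases h with h | h
  · rcases mul_eq_zero.1 h with h | h
    · exact absurd h hc'
    · exact absurd (pow_eq_zero_iff (two_ne_zero)|>.1 h) hs
  · rw [w.ord_mul _ _ hc' (pow_ne_zero 2 hs), w.ord_const c hc, w.ord_pow] at h
    push_cast at h
    omega

private theorem FB2_gY [CharZero k] {α : k} {N : Type} [Field N] [Algebra k N] {x v : N}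
    {w : Place k N} {u₀ : RF w} (ht : Red w (tE x v) 1) (hu : Red w (uE x) u₀) (hu0 : u₀ ≠ 0) :
    Red w (gY α x v) (4 * (1 - algebraMap k (RF w) (rr α) ^ 2) * algebraMap k (RF w) (rr α) *
      (1 + 1 ^ 3 * u₀ ^ 2) / (u₀ * (1 + 1) ^ 3)) := by
  have := FB2_cz w
  have h1 := LibCHd.red_one w
  have h4 := FB2_four w
  have hr := LibCHd.red_const w (rr α)
  unfold gY eY
  exact (((h4.mul (h1.sub (hr.pow 2))).mul hr).mul (h1.add ((ht.pow 3).mul (hu.pow 2)))).div
    (hu.mul ((h1.add ht).pow 3)) (mul_ne_zero hu0 (by norm_num))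

private theorem FB2_v {N : Type} [Field N] {x v : N} (h1 : x ≠ 1) (h2 : x ≠ -1) :
    v = tE x v * ((x - 1) / (x + 1)) := by
  have h3 : x - 1 ≠ 0 := sub_ne_zero.2 h1
  have h4 : x + 1 ≠ 0 := fun h => h2 (eq_neg_of_add_eq_zero_left h)
  unfold tE
  field_simp

private theorem FB2_prim [IsAlgClosed k] [CharZero k] : ∃ ζ : k, IsPrimitiveRoot ζ 3 := by
  have : NeZero ((3 : ℕ) : k) := ⟨by norm_num⟩
  have hd : (cyclotomic 3 k).degree ≠ 0 := by
    rw [degree_cyclotomic]
    decide
  obtain ⟨ζ, hζ⟩ := IsAlgClosed.exists_root (cyclotomic 3 k) hd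
  exact ⟨ζ, isRoot_cyclotomic_iff.1 hζ⟩

/-- the orders and the values at the places over `Q0` and `Qinf`, from the values of `y` and `v` -/
private theorem FB2_ord [CharZero k] {α : k} (h : (fam α).Good) {N : Type} [Field N] [Algebra k N]
    {x v : N} (hG : GenC (fam α) x v) {w : Place k N} {e : RF w} (he : e ^ 2 = 1)
    (hy : Red w ((x - 1) / (x + 1)) e) (hv : Red w v e)
    (ho : w.ord x - 2 * w.ord (x + 1) = 1) :
    w.ord (gX α x v - algebraMap k N (rr α ^ 2 - 1)) = 2 ∧
      w.Zer (gY α x v - algebraMap k N (rr α * (1 - rr α ^ 2))) := by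
  have := FB2_cz w
  obtain ⟨hα, hα1, hr0, hr1⟩ := fam_ne h
  obtain ⟨hx1, hx2, hv0, ht0, ht1, hu0, -⟩ := gXY h hG
  have hrel := tu_rel h hG.on hx1 hx2
  have hone := LibCHd.red_one w
  have h2 := FB2_two w
  have hr := LibCHd.red_const w (rr α)
  have hx1' : x - 1 ≠ 0 := sub_ne_zero.2 hx1
  have hx2' : x + 1 ≠ 0 := fun h => hx2 (eq_neg_of_add_eq_zero_left h)
  have hx0 : x ≠ 0 := by
    rintro rfl
    exact hG.tr (isAlgebraic_zero)
  have he0 : e ≠ 0 := by
    rintro rfl
    norm_num at he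
  have hρ1 : (1 : RF w) - algebraMap k (RF w) (rr α) ^ 2 ≠ 0 := by
    intro h0
    apply hr1
    apply (algebraMap k (RF w)).injective
    rw [map_sub, map_one, map_pow, map_zero]
    exact h0
  have hr1N : (1 : N) - algebraMap k N (rr α) ^ 2 ≠ 0 := by
    intro h0
    apply hr1
    apply (algebraMap k N).injective
    rw [map_sub, map_one, map_pow, map_zero]
    exact h0
  have hr0N : algebraMap k N (rr α) ≠ 0 := (_root_.map_ne_zero _).2 hr0
  -- `u` and `t`
  have hu : Red w (uE x) 1 := by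
    have := hy.pow 2
    rwa [he] at this
  have ht : Red w (tE x v) 1 := by
    have h3 : tE x v = v / ((x - 1) / (x + 1)) := by
      unfold tE
      field_simp
    rw [h3]
    have := hv.div hy he0
    rwa [div_self he0] at this
  constructor
  · -- the order
    have e1 : (tE x v ^ 3 - 1) * (uE x * (1 + algebraMap k N (rr α) * uE x)) =
        algebraMap k N (rr α) * ((1 - uE x) * (1 + uE x)) := by
      linear_combination hrel
    have e2 : (1 : N) - uE x = 4 * x / (x + 1) ^ 2 := by
      unfold uE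
      field_simp
      ring
    have h4 := FB2_four w
    have h40 : (4 : N) ≠ 0 := h4.ne_zero (by norm_num)
    have n2 : (1 : N) - uE x ≠ 0 := by
      rw [e2]
      exact div_ne_zero (mul_ne_zero h40 hx0) (pow_ne_zero 2 hx2')
    have o2 : w.ord (1 - uE x) = 1 := by
      rw [e2, w.ord_div _ _ (mul_ne_zero h40 hx0) (pow_ne_zero 2 hx2'), w.ord_mul _ _ h40 hx0,
        h4.ord_eq_zero (by norm_num), w.ord_pow]
      push_cast
      linarith
    have r3 := hone.add (hr.mul hu)
    have hρ : (1 : RF w) + algebraMap k (RF w) (rr α) * 1 ≠ 0 := by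
      intro h0
      apply hρ1
      linear_combination (1 - algebraMap k (RF w) (rr α)) * h0
    have r4 := hone.add hu
    have h22 : (1 : RF w) + 1 ≠ 0 := by norm_num
    have n3 := r3.ne_zero hρ
    have n4 := r4.ne_zero h22
    have e5 : tE x v ^ 3 - 1 = (tE x v - 1) * (tE x v ^ 2 + tE x v + 1) := by ring
    have r5 := ((ht.pow 2).add ht).add hone
    have h33 : (1 : RF w) ^ 2 + 1 + 1 ≠ 0 := by norm_num
    have n5 := r5.ne_zero h33
    have nR : algebraMap k N (rr α) * ((1 - uE x) * (1 + uE x)) ≠ 0 :=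
      mul_ne_zero hr0N (mul_ne_zero n2 n4)
    have n6 : tE x v - 1 ≠ 0 := by
      intro h0
      rw [e5, h0, zero_mul, zero_mul] at e1
      exact nR e1.symm
    have o6 : w.ord (tE x v - 1) = 1 := by
      have h7 := congrArg w.ord e1
      rw [e5, w.ord_mul _ _ (mul_ne_zero n6 n5) (mul_ne_zero hu0 n3), w.ord_mul _ _ n6 n5,
        w.ord_mul _ _ hu0 n3, w.ord_mul _ _ hr0N (mul_ne_zero n2 n4), w.ord_mul _ _ n2 n4,
        r5.ord_eq_zero h33, hu.ord_eq_zero one_ne_zero, r3.ord_eq_zero hρ, w.ord_const _ hr0,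
        r4.ord_eq_zero h22, o2] at h7
      linarith
    have r7 := hone.add ht
    have e8 : gX α x v - algebraMap k N (rr α ^ 2 - 1) =
        (1 - algebraMap k N (rr α) ^ 2) * (tE x v - 1) ^ 2 / (1 + tE x v) ^ 2 := by
      rw [map_sub, map_pow, map_one]
      exact eX_A ht1
    have o8 : w.ord ((1 : N) - algebraMap k N (rr α) ^ 2) = 0 :=
      (hone.sub (hr.pow 2)).ord_eq_zero hρ1
    rw [e8, w.ord_div _ _ (mul_ne_zero hr1N (pow_ne_zero 2 n6)) (pow_ne_zero 2 ht1),
      w.ord_mul _ _ hr1N (pow_ne_zero 2 n6), w.ord_pow, w.ord_pow, o6, o8,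
      r7.ord_eq_zero h22]
    norm_num
  · -- the value of `gY`
    rw [← LibCHd.red_iff_val, map_mul, map_sub, map_one, map_pow]
    have h8 := FB2_gY (α := α) ht hu one_ne_zero
    convert h8 using 1
    field_simp
    ring

theorem fib_A [IsAlgClosed k] [CharZero k] {α : k} (h : (fam α).Good) {N : Type} [Field N] [Algebra k N] {x v : N}
    (hG : GenC (fam α) x v) (w : Place k N) (hX : w.Zer (gX α x v - algebraMap k N (rr α ^ 2 - 1)))
    (hY : w.Zer (gY α x v - algebraMap k N (rr α * (1 - rr α ^ 2)))) : Ctr w x v Q0 ∨ Ctr w x v Qinf := by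
  have := FB2_cz w
  obtain ⟨hα, hα1, hr0, hr1⟩ := fam_ne h
  obtain ⟨hx1, hx2, hv0, ht0, ht1, hu0, -⟩ := gXY h hG
  have hrel := tu_rel h hG.on hx1 hx2
  have hone := LibCHd.red_one w
  have hr := LibCHd.red_const w (rr α)
  have hx1' : x - 1 ≠ 0 := sub_ne_zero.2 hx1
  have hx2' : x + 1 ≠ 0 := fun h => hx2 (eq_neg_of_add_eq_zero_left h)
  have hρ0 : algebraMap k (RF w) (rr α) ≠ 0 := (_root_.map_ne_zero _).2 hr0
  have hρ1 : (1 : RF w) - algebraMap k (RF w) (rr α) ^ 2 ≠ 0 := by
    intro h0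
    apply hr1
    apply (algebraMap k (RF w)).injective
    rw [map_sub, map_one, map_pow, map_zero]
    exact h0
  have h20 : (2 : N) ≠ 0 := by
    have h2 := FB2_two w
    exact h2.ne_zero (by norm_num)
  -- the value of `t`
  have ht : Red w (tE x v) 1 := by
    have e1 : gX α x v - algebraMap k N (rr α ^ 2 - 1) =
        algebraMap k N (1 - rr α ^ 2) * ((tE x v - 1) / (1 + tE x v)) ^ 2 := by
      rw [map_sub, map_pow, map_one, map_sub, map_pow, map_one, div_pow, ← mul_div_assoc]
      exact eX_A ht1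
    rw [e1] at hX
    have hs := LibCHd.red_zero_iff.2 (FB2_zer_sq hr1 hX)
    have h3 := (hone.add hs).div (hone.sub hs) (by norm_num)
    rw [add_zero, sub_zero, div_one] at h3
    convert h3 using 1
    have h4 : (1 : N) - (tE x v - 1) / (1 + tE x v) ≠ 0 := by
      rw [show (1 : N) - (tE x v - 1) / (1 + tE x v) = 2 / (1 + tE x v) by field_simp; ring]
      exact div_ne_zero h20 ht1
    rw [eq_div_iff h4]
    field_simp
    ring
  -- `u` has no pole
  have hureg : w.Reg (uE x) := by
    by_contra hn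
    have hlt : w.ord (uE x) < 0 := by
      by_contra h0
      exact hn (Or.inr (not_lt.1 h0))
    have hi : Red w (uE x)⁻¹ 0 := LibCHd.red_zero_iff.2 (Or.inr (by rw [w.ord_inv]; omega))
    have e1 : tE x v ^ 3 * ((uE x)⁻¹ + algebraMap k N (rr α)) =
        (uE x)⁻¹ + algebraMap k N (rr α) * (uE x)⁻¹ ^ 2 := by
      field_simp
      linear_combination hrel
    have h1 := (ht.pow 3).mul (hi.add hr)
    rw [e1] at h1
    have h2 := h1.unique (hi.add (hr.mul (hi.pow 2)))
    apply hρ0
    linear_combination h2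
  obtain ⟨u₀, hu⟩ := LibCHd.exists_red hureg
  have hu2 : u₀ ^ 2 = 1 := by
    have h1 := ((ht.pow 3).mul hu).mul (hone.add (hr.mul hu))
    rw [hrel] at h1
    have h2 := h1.unique (hu.add hr)
    apply mul_left_cancel₀ hρ0
    linear_combination h2
  have hu00 : u₀ ≠ 0 := by
    rintro rfl
    norm_num at hu2
  have hu1 : u₀ = 1 := by
    have h1 := (FB2_gY (α := α) ht hu hu00).unique (LibCHd.red_iff_val.2 hY)
    rw [map_mul, map_sub, map_one, map_pow, div_eq_iff (mul_ne_zero hu00 (by norm_num)), hu2] at h1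
    have h2 : (8 : RF w) * (algebraMap k (RF w) (rr α) *
        (1 - algebraMap k (RF w) (rr α) ^ 2)) ≠ 0 :=
      mul_ne_zero (by norm_num) (mul_ne_zero hρ0 hρ1)
    apply mul_left_cancel₀ h2
    linear_combination -h1
  rw [hu1] at hu
  -- the value of `y`
  have hyreg : w.Reg ((x - 1) / (x + 1)) := by
    have h1 := hu.ord_eq_zero one_ne_zero
    unfold uE at h1
    rw [w.ord_pow] at h1
    right
    push_cast at h1
    omega
  obtain ⟨y₀, hy⟩ := LibCHd.exists_red hyreg
  have hy2 : (y₀ - 1) * (y₀ + 1) = 0 := by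
    have h1 := (hy.pow 2).unique hu
    linear_combination h1
  have hvt := FB2_v (v := v) hx1 hx2
  rcases mul_eq_zero.1 hy2 with hy1 | hy1
  · -- over infinity
    right
    obtain rfl : y₀ = 1 := sub_eq_zero.1 hy1
    refine ⟨?_, ?_⟩
    · show w.ord x < 0
      by_contra hn
      obtain ⟨x₀, hx⟩ := LibCHd.exists_red (v := w) (f := x) (Or.inr (not_lt.1 hn))
      have h1 := hy.mul (hx.add hone)
      rw [div_mul_cancel₀ _ hx2'] at h1
      have h2 := h1.unique (hx.sub hone)
      have h3 : (2 : RF w) = 0 := by linear_combination h2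
      norm_num at h3
    · show Red w v (algebraMap k (RF w) 1)
      rw [map_one, hvt]
      have := ht.mul hy
      rwa [one_mul] at this
  · -- over zero
    left
    obtain rfl : y₀ = -1 := eq_neg_of_add_eq_zero_left hy1
    refine ⟨?_, ?_⟩
    · show Red w x (algebraMap k (RF w) 0)
      rw [map_zero]
      have h1 := (hone.add hy).div (hone.sub hy) (by norm_num)
      rw [show (1 + -1 : RF w) / (1 - -1) = 0 by norm_num] at h1
      convert h1 using 1
      have h4 : (1 : N) - (x - 1) / (x + 1) ≠ 0 := by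
        rw [show (1 : N) - (x - 1) / (x + 1) = 2 / (x + 1) by field_simp; ring]
        exact div_ne_zero h20 hx2'
      rw [eq_div_iff h4]
      field_simp
      ring
    · show Red w v (algebraMap k (RF w) (-1))
      rw [map_neg, map_one, hvt]
      have := ht.mul hy
      rwa [one_mul] at this

theorem at_A [IsAlgClosed k] [CharZero k] {α : k} (h : (fam α).Good) {N : Type} [Field N] [Algebra k N] {x v : N}
    (hG : GenC (fam α) x v) (w : Place k N) (hw : Ctr w x v Q0 ∨ Ctr w x v Qinf) :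
    w.ord (gX α x v - algebraMap k N (rr α ^ 2 - 1)) = 2 ∧
      w.Zer (gY α x v - algebraMap k N (rr α * (1 - rr α ^ 2))) := by
  have := FB2_cz w
  obtain ⟨ζ, hζ⟩ := FB2_prim (k := k)
  obtain ⟨hx1, hx2, hv0, ht0, ht1, hu0, -⟩ := gXY h hG
  have hone := LibCHd.red_one w
  have hx1' : x - 1 ≠ 0 := sub_ne_zero.2 hx1
  have hx2' : x + 1 ≠ 0 := fun h => hx2 (eq_neg_of_add_eq_zero_left h)
  have hx0 : x ≠ 0 := by
    rintro rfl
    exact hG.tr (isAlgebraic_zero)
  rcases hw with hw | hw
  · -- over zero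
    have hon : OnC (fam α) (Q0 0) (Q0 1) := by
      show (-1 : k) ^ 3 * ∏ i, ((0 : k) - -(![1, α, α⁻¹] : Fin 3 → k) i) =
        ∏ i, ((0 : k) - (![1, α, α⁻¹] : Fin 3 → k) i)
      rw [Fin.prod_univ_three, Fin.prod_univ_three]
      ring
    obtain ⟨w₀, -, -, h3, -, -, -, h7⟩ := placeC h (ζ := ζ) hζ hG Q0 hon
    have hww := h7 w hw.1 hw.2
    have ho := h3 0 (-1) rfl rfl (by norm_num)
    rw [← hww, map_zero, sub_zero] at ho
    have hx : Red w x 0 := by
      have h1 : Red w x (algebraMap k (RF w) 0) := hw.1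
      rwa [map_zero] at h1
    have hv : Red w v (-1) := by
      have h1 : Red w v (algebraMap k (RF w) (-1)) := hw.2
      rwa [map_neg, map_one] at h1
    have hy := (hx.sub hone).div (hx.add hone) (by norm_num)
    rw [show ((0 : RF w) - 1) / (0 + 1) = -1 by norm_num] at hy
    refine FB2_ord h hG (by norm_num) hy hv ?_
    rw [ho, (hx.add hone).ord_eq_zero (by norm_num)]
    norm_num
  · -- over infinity
    have hon : OnC (fam α) (Qinf 0) (Qinf 1) := by
      show (1 : k) ^ 3 = 1
      norm_num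
    obtain ⟨w₀, -, -, -, h4, -, -, h7⟩ := placeC h (ζ := ζ) hζ hG Qinf hon
    have hww := h7 w hw.1 hw.2
    have ho := h4 rfl
    rw [← hww] at ho
    have hv : Red w v 1 := by
      have h1 : Red w v (algebraMap k (RF w) 1) := hw.2
      rwa [map_one] at h1
    have hxi : Red w x⁻¹ 0 := LibCHd.red_zero_iff.2 (Or.inr (by rw [w.ord_inv, ho]; norm_num))
    have hy := (hone.sub hxi).div (hone.add hxi) (by norm_num)
    rw [show ((1 : RF w) - 0) / (1 + 0) = 1 by norm_num] at hy
    have hy' : Red w ((x - 1) / (x + 1)) 1 := by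
      convert hy using 1
      field_simp
    refine FB2_ord h hG (by norm_num) hy' hv ?_
    have h1 := (Place.ord_add_of_lt (v := w) hx0 (one_ne_zero) (by rw [ho, w.ord_one]; norm_num)).2
    rw [h1, ho]
    norm_num

end Pool.Agent.LibCW77
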