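import Pool.Agent.LibCW77.FB1

/-!
[CW77 FB3] The places over `B = (4 (r ^ 2 - 1), 8 r (r ^ 2 - 1))`; as FB2 (read its plan). Let `w` be a place of `N`, `t = tE x v`, `u = uE x`.
`fib_B`: `eX_B`: `t ^ 2 + t + 1` vanishes at `w`, so the value of `t` at `w` is `ζ ^ i`, `i = 1` or `2`, `t ^ 3` has the value `1`, `u` has a value `u₀` with `u₀ ^ 2 = 1` (`tu_rel`), `(1 + t) ^ 3` has the value `-1`, so the
value of `gY` is `- 2 c r / u₀`, `c = 4 (1 - r ^ 2)`; `hY` gives `u₀ = 1`, `y = ± 1`, so `w` lies over `(∞, ζ ^ i)` or `(0, - ζ ^ i)`.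
`at_B`: `w.ord (t ^ 3 - 1) = w.ord (1 - u) = 1` as in FB2, `t ^ 3 - 1 = (t - 1) (t ^ 2 + t + 1)`, `t - 1` has a value `≠ 0`; `eX_B`.
-/

open scoped Classical
open Polynomial

namespace Pool.Agent.LibCW77

open Pool.Agent.LibBH2
open Pool.Agent.LibCHd (VR RF Red FunF)

variable {k : Type} [Field k]

private theorem fb3_zer_mul {N : Type} [Field N] [Algebra k N] {w : Place k N} {f g : N}
    (h : w.Zer (f * g)) : w.Zer f ∨ w.Zer g := by
  by_cases hf : f = 0
  · exact Or.inl (Or.inl hf)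
  by_cases hg : g = 0
  · exact Or.inr (Or.inl hg)
  rcases h with h | h
  · exact absurd h (mul_ne_zero hf hg)
  · rw [w.ord_mul f g hf hg] at h
    by_cases h1 : 0 < w.ord f
    · exact Or.inl (Or.inr h1)
    · exact Or.inr (Or.inr (by omega))

/-- `ζ ^ i` is a root of `z ^ 2 + z + 1` -/
private theorem fb3_root {ζ : k} (hζ : IsPrimitiveRoot ζ 3) {i : ℕ} (hi : i = 1 ∨ i = 2) :
    (ζ ^ i) ^ 2 + ζ ^ i + 1 = 0 ∧ (ζ ^ i) ^ 3 = 1 := by
  have h3 : ζ ^ 3 = 1 := hζ.pow_eq_one
  have h1 : ζ ≠ 1 := fun h => by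
    have := hζ.eq_orderOf
    rw [h, orderOf_one] at this
    omega
  have h2 : ζ ^ 2 + ζ + 1 = 0 := by
    have h4 : (ζ - 1) * (ζ ^ 2 + ζ + 1) = 0 := by ring_nf; rw [h3]; ring
    exact (mul_eq_zero.1 h4).resolve_left (sub_ne_zero.2 h1)
  rcases hi with rfl | rfl
  · rw [pow_one]
    exact ⟨h2, h3⟩
  · constructor
    · have h5 : (ζ ^ 2) ^ 2 = ζ := by
        rw [← pow_mul, show 2 * 2 = 3 + 1 from rfl, pow_add, h3]; ring
      rw [h5]
      linear_combination h2
    · rw [← pow_mul, show 2 * 3 = 3 * 2 from rfl, pow_mul, h3, one_pow]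

/-- the values of `t`, `u` determine the value of `gY` -/
private theorem fb3_Y {α a : k} (ha : a ^ 2 + a + 1 = 0) (ha3 : a ^ 3 = 1) {N : Type}
    [Field N] [Algebra k N] {x v : N} (w : Place k N) {u₀ : k} (hu : u₀ ^ 2 = 1)
    (ht : w.Zer (tE x v - algebraMap k N a)) (hu' : w.Zer (uE x - algebraMap k N u₀)) :
    w.Zer (gY α x v - algebraMap k N (-(8 * rr α * (1 - rr α ^ 2)) * u₀)) := by
  have hu0 : u₀ ≠ 0 := by
    rintro rfl
    simp at hu
  have hc3 : (1 + a) ^ 3 = -1 := by linear_combination (3 : k) * ha + ha3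
  have hc : 1 + a ≠ 0 := by
    intro h
    rw [h] at hc3
    norm_num at hc3
  have h1 : w.Zer (1 - algebraMap k N 1) := by
    rw [map_one, sub_self]; exact w.zer_zero
  have h2 := Place.val_div (Place.val_mul (Place.val_const (v := w) (4 * (1 - rr α ^ 2) * rr α))
    (Place.val_add h1 (Place.val_mul (Place.val_pow ht 3) (Place.val_pow hu' 2))))
    (Place.val_mul hu' (Place.val_pow (Place.val_add h1 ht) 3)) (mul_ne_zero hu0 (pow_ne_zero 3 hc))
  have h3 : 4 * (1 - rr α ^ 2) * rr α * (1 + a ^ 3 * u₀ ^ 2) / (u₀ * (1 + a) ^ 3) =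
      -(8 * rr α * (1 - rr α ^ 2)) * u₀ := by
    rw [hc3, ha3, hu, div_eq_iff (by simpa using hu0)]
    linear_combination (-8 * rr α * (1 - rr α ^ 2)) * hu
  rw [h3] at h2
  convert h2 using 2
  unfold gY eY
  simp only [map_mul, map_sub, map_pow, map_one, map_ofNat]

theorem fib_B [IsAlgClosed k] [CharZero k] {α ζ : k} (h : (fam α).Good) (hζ : IsPrimitiveRoot ζ 3) {N : Type}
    [Field N] [Algebra k N] {x v : N} (hG : GenC (fam α) x v) (w : Place k N)
    (hX : w.Zer (gX α x v - algebraMap k N (4 * (rr α ^ 2 - 1))))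
    (hY : w.Zer (gY α x v - algebraMap k N (8 * rr α * (rr α ^ 2 - 1)))) :
    ∃ i : ℕ, (i = 1 ∨ i = 2) ∧ (Ctr w x v (tau (ζ ^ i) Q0) ∨ Ctr w x v (tau (ζ ^ i) Qinf)) := by
  obtain ⟨hα0, hα1, hr0, hr1⟩ := fam_ne h
  obtain ⟨hx1, hx2, hv0, ht0, ht1, hu0, -⟩ := gXY h hG
  have hrel := tu_rel h hG.on hx1 hx2
  have : CharZero N := charZero_of_injective_algebraMap (algebraMap k N).injective
  have hw1 : w.Zer (1 - algebraMap k N 1) := by
    rw [map_one, sub_self]; exact w.zer_zero
  set t := tE x v with htdef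
  set u := uE x with hudef
  obtain ⟨hr2, hr3⟩ := fb3_root hζ (Or.inr rfl : 2 = 1 ∨ 2 = 2)
  obtain ⟨hq2, hq3⟩ := fb3_root hζ (Or.inl rfl : 1 = 1 ∨ 1 = 2)
  rw [pow_one] at hq2 hq3
  -- the value of `t`
  have hval : ∀ a : k, w.Zer ((t - algebraMap k N a) / (1 + t)) → w.Zer (t - algebraMap k N a) := by
    intro a hq
    set q := (t - algebraMap k N a) / (1 + t) with hqd
    have hqe : q * (1 + t) = t - algebraMap k N a := div_mul_cancel₀ _ ht1
    have hq' : w.Zer (q - algebraMap k N 0) := by rw [map_zero, sub_zero]; exact hq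
    have h1 := Place.val_sub hw1 hq'
    have h2 := Place.val_add (Place.val_const (v := w) a) hq'
    have h3 := Place.val_div h2 h1 (by rw [sub_zero]; exact one_ne_zero)
    have h4 : 1 - q ≠ 0 := Place.ne_zero_of_val h1 (by rw [sub_zero]; exact one_ne_zero)
    have h5 : (algebraMap k N a + q) / (1 - q) = t := by
      rw [div_eq_iff h4]
      linear_combination hqe
    rw [h5, add_zero, sub_zero, div_one] at h3
    exact h3
  have ht : ∃ i : ℕ, (i = 1 ∨ i = 2) ∧ w.Zer (t - algebraMap k N (ζ ^ i)) := by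
    have h1 : gX α x v - algebraMap k N (4 * (rr α ^ 2 - 1)) =
        algebraMap k N (4 * (1 - rr α ^ 2)) *
          ((t - algebraMap k N (ζ ^ 1)) / (1 + t) * ((t - algebraMap k N (ζ ^ 2)) / (1 + t))) := by
      have h2 := eX_B (r := algebraMap k N (rr α)) ht1
      have h3 : (t - algebraMap k N (ζ ^ 1)) / (1 + t) * ((t - algebraMap k N (ζ ^ 2)) / (1 + t)) =
          (t ^ 2 + t + 1) / (1 + t) ^ 2 := by
        rw [div_mul_div_comm, ← pow_two]
        congr 1
        have e1 : algebraMap k N ζ ^ 2 + algebraMap k N ζ + 1 = 0 := by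
          rw [← map_pow, ← map_add, ← map_one (algebraMap k N), ← map_add, hq2, map_zero]
        have e2 : algebraMap k N ζ ^ 3 = 1 := by rw [← map_pow, hq3, map_one]
        rw [map_pow, map_pow, pow_one]
        linear_combination (-t) * e1 + e2
      rw [h3]
      have h4 : gX α x v = eX (algebraMap k N (rr α)) t := rfl
      rw [h4]
      simp only [map_mul, map_sub, map_pow, map_one, map_ofNat] at h2 ⊢
      rw [h2, mul_div_assoc]
    rw [h1] at hX
    rcases fb3_zer_mul hX with h2 | h2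
    · exact absurd ((w.zer_const_iff _).1 h2) (mul_ne_zero (by norm_num) hr1)
    · rcases fb3_zer_mul h2 with h3 | h3
      · exact ⟨1, Or.inl rfl, hval _ h3⟩
      · exact ⟨2, Or.inr rfl, hval _ h3⟩
  obtain ⟨i, hi, ht⟩ := ht
  obtain ⟨ha, ha3⟩ := fb3_root hζ hi
  refine ⟨i, hi, ?_⟩
  generalize ζ ^ i = a at ht ha ha3 ⊢
  -- `u` is regular
  have hA : w.Zer (t ^ 3 - 1) := by
    have := Place.val_pow ht 3
    rwa [ha3, map_one] at this
  have hmain : algebraMap k N (rr α) * (u ^ 2 - 1) =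
      -((t ^ 3 - 1) * (u * (1 + algebraMap k N (rr α) * u))) := by
    linear_combination hrel
  have hureg : w.Reg u := by
    by_contra hreg
    have ho : w.ord u < 0 := by
      by_contra h0
      exact hreg (Or.inr (by omega))
    have hui : w.Zer (u⁻¹ - algebraMap k N 0) := by
      rw [map_zero, sub_zero]
      exact Or.inr (by rw [w.ord_inv]; omega)
    have h1 : w.Zer (algebraMap k N (rr α) * (1 - u⁻¹ ^ 2) - algebraMap k N (rr α * (1 - 0 ^ 2))) :=
      Place.val_mul (Place.val_const _) (Place.val_sub hw1 (Place.val_pow hui 2))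
    have h2 : algebraMap k N (rr α) * (1 - u⁻¹ ^ 2) =
        -((t ^ 3 - 1) * (u⁻¹ + algebraMap k N (rr α))) := by
      have h3 : algebraMap k N (rr α) * (1 - u⁻¹ ^ 2) = algebraMap k N (rr α) * (u ^ 2 - 1) * u⁻¹ ^ 2 := by
        field_simp
      rw [h3, hmain]
      field_simp
    have h3 : w.Zer (algebraMap k N (rr α) * (1 - u⁻¹ ^ 2)) := by
      rw [h2]
      apply Place.Zer.neg
      apply Place.Zer.mul_reg hA
      apply Place.Reg.add
      · rw [map_zero, sub_zero] at hui
        exact hui.reg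
      · exact w.reg_const _
    have h4 := Place.val_unique h1 (d := 0) (by rw [map_zero, sub_zero]; exact h3)
    apply hr0
    simpa using h4
  have hone : w.Reg (1 : N) := by
    have := w.reg_const 1
    rwa [map_one] at this
  have hu2 : w.Zer (u ^ 2 - 1) := by
    have h1 : w.Zer (algebraMap k N (rr α) * (u ^ 2 - 1)) := by
      rw [hmain]
      apply Place.Zer.neg
      apply Place.Zer.mul_reg hA
      exact hureg.mul (hone.add ((w.reg_const _).mul hureg))
    rcases fb3_zer_mul h1 with h2 | h2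
    · exact absurd ((w.zer_const_iff _).1 h2) hr0
    · exact h2
  have hu1 : w.Zer (u - algebraMap k N 1) := by
    have h1 : u ^ 2 - 1 = (u - algebraMap k N 1) * (u - algebraMap k N (-1)) := by
      rw [map_neg, map_one]; ring
    rw [h1] at hu2
    rcases fb3_zer_mul hu2 with h2 | h2
    · exact h2
    · exfalso
      have h3 := fb3_Y (α := α) ha ha3 w (u₀ := -1) (by ring) ht h2
      have h4 := Place.val_unique h3 hY
      have h5 : (16 : k) * (rr α * (1 - rr α ^ 2)) = 0 := by linear_combination h4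
      exact (mul_ne_zero (by norm_num) (mul_ne_zero hr0 hr1)) h5
  -- the value of `y`
  have hxp : x + 1 ≠ 0 := fun h0 => hx2 (eq_neg_of_add_eq_zero_left h0)
  have hxm : x - 1 ≠ 0 := sub_ne_zero.2 hx1
  set y := (x - 1) / (x + 1) with hy
  have hu_y : u = y ^ 2 := rfl
  have hv : v = t * y := by
    rw [htdef, hy]
    unfold tE
    field_simp
  have h1 : u - algebraMap k N 1 = (y - algebraMap k N (-1)) * (y - algebraMap k N 1) := by
    rw [map_neg, map_one, hu_y]; ring
  rw [h1] at hu1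
  rcases fb3_zer_mul hu1 with h2 | h2
  · left
    have h3 := Place.val_mul ht h2
    rw [← hv] at h3
    have h4 : x = (1 + y) / (1 - y) := by
      have h5 : 1 - y ≠ 0 := by
        apply Place.ne_zero_of_val (Place.val_sub hw1 h2)
        norm_num
      rw [eq_div_iff h5, hy]
      field_simp
      ring
    have h5 := Place.val_div (Place.val_add hw1 h2) (Place.val_sub hw1 h2) (by norm_num)
    rw [← h4] at h5
    refine ⟨?_, ?_⟩
    · show Red w x (algebraMap k (RF w) 0)
      rw [Pool.Agent.LibCHd.red_iff_val]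
      convert h5 using 3
      ring
    · show Red w v (algebraMap k (RF w) (algebraMap k k a * (-1)))
      rw [Pool.Agent.LibCHd.red_iff_val]
      exact h3
  · right
    have h3 := Place.val_mul ht h2
    rw [← hv] at h3
    refine ⟨?_, ?_⟩
    · show w.ord x < 0
      have h4 : y - algebraMap k N 1 = (-2) * (x + 1)⁻¹ := by
        rw [map_one, hy]
        field_simp
        ring
      have h5 : 0 < w.ord (y - algebraMap k N 1) := by
        rcases h2 with h6 | h6
        · exfalso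
          rw [h4] at h6
          exact mul_ne_zero (by norm_num) (inv_ne_zero hxp) h6
        · exact h6
      have h6 : w.ord (-2 : N) = 0 := by
        have := w.ord_const (-2) (by norm_num)
        rwa [map_neg, map_ofNat] at this
      rw [h4, w.ord_mul _ _ (by norm_num) (inv_ne_zero hxp), h6, w.ord_inv] at h5
      have h7 := (Place.ord_add_of_lt (v := w) (f := x + 1) (g := -1) hxp (by norm_num) (by
        rw [w.ord_neg, w.ord_one]; omega)).2
      rw [add_neg_cancel_right] at h7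
      omega
    · show Red w v (algebraMap k (RF w) (algebraMap k k a * 1))
      rw [Pool.Agent.LibCHd.red_iff_val]
      exact h3

private theorem fb3_ord [CharZero k] {α a : k} (ha : a ^ 2 + a + 1 = 0) (ha3 : a ^ 3 = 1) {N : Type}
    [Field N] [Algebra k N] {x v : N} (w : Place k N) (hr0 : rr α ≠ 0) (hr1 : 1 - rr α ^ 2 ≠ 0)
    (ht1 : 1 + tE x v ≠ 0)
    (hrel : tE x v ^ 3 * uE x * (1 + algebraMap k N (rr α) * uE x) = uE x + algebraMap k N (rr α))
    (ht : w.Zer (tE x v - algebraMap k N a)) (hu : w.Zer (uE x - algebraMap k N 1))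
    (hne : 1 - uE x ≠ 0) (ho : w.ord (1 - uE x) = 1) :
    w.ord (gX α x v - algebraMap k N (4 * (rr α ^ 2 - 1))) = 1 ∧
      w.Zer (gY α x v - algebraMap k N (8 * rr α * (rr α ^ 2 - 1))) := by
  have hY := fb3_Y (α := α) ha ha3 w (u₀ := 1) (by ring) ht hu
  refine ⟨?_, ?_⟩
  swap
  · convert hY using 3
    ring
  have hw1 : w.Zer (1 - algebraMap k N 1) := by
    rw [map_one, sub_self]; exact w.zer_zero
  set t := tE x v with htdef
  set u := uE x with hudef
  have hX := eX_B (r := algebraMap k N (rr α)) ht1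
  have hgX : gX α x v = eX (algebraMap k N (rr α)) t := rfl
  have hXe : gX α x v - algebraMap k N (4 * (rr α ^ 2 - 1)) =
      algebraMap k N (4 * (1 - rr α ^ 2)) * ((t ^ 2 + t + 1) * ((1 + t) ^ 2)⁻¹) := by
    rw [hgX]
    simp only [map_mul, map_sub, map_pow, map_one, map_ofNat] at hX ⊢
    rw [hX, mul_div_assoc, div_eq_mul_inv]
  have ha1 : 1 + a ≠ 0 := by
    intro h
    have h1 : (1 + a) ^ 3 = -1 := by linear_combination (3 : k) * ha + ha3
    rw [h] at h1
    norm_num at h1
  have ha2 : a - 1 ≠ 0 := by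
    intro h
    have h1 : a = 1 := sub_eq_zero.1 h
    rw [h1] at ha
    norm_num at ha
  have hr2 : 1 + rr α ≠ 0 := by
    intro h
    apply hr1
    linear_combination (1 - rr α) * h
  -- `(t ^ 3 - 1) u (1 + r u) = r (1 - u) (1 + u)`
  have hmain : (t ^ 3 - 1) * (u * (1 + algebraMap k N (rr α) * u)) =
      algebraMap k N (rr α) * ((1 - u) * (1 + u)) := by
    linear_combination hrel
  have v1 := Place.val_mul hu (Place.val_add hw1 (Place.val_mul (Place.val_const (v := w) (rr α)) hu))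
  have n1 : (1 : k) * (1 + rr α * 1) ≠ 0 := by rwa [one_mul, mul_one]
  have o1 := Place.ord_eq_zero_of_val v1 n1
  have z1 := Place.ne_zero_of_val v1 n1
  have v2 := Place.val_add hw1 hu
  have n2 : (1 : k) + 1 ≠ 0 := by norm_num
  have o2 := Place.ord_eq_zero_of_val v2 n2
  have z2 := Place.ne_zero_of_val v2 n2
  have z3 : algebraMap k N (rr α) ≠ 0 := by simpa using hr0
  have z4 : t ^ 3 - 1 ≠ 0 := by
    intro h0
    rw [h0, zero_mul] at hmain
    exact mul_ne_zero z3 (mul_ne_zero hne z2) hmain.symm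
  have o4 : w.ord (t ^ 3 - 1) = 1 := by
    have h1 := congrArg w.ord hmain
    rw [w.ord_mul _ _ z4 z1, o1, w.ord_mul _ _ z3 (mul_ne_zero hne z2), w.ord_const _ hr0,
      w.ord_mul _ _ hne z2, o2, ho] at h1
    omega
  have v5 := Place.val_sub ht hw1
  have o5 := Place.ord_eq_zero_of_val v5 ha2
  have z5 := Place.ne_zero_of_val v5 ha2
  have v6 := Place.val_pow (Place.val_add hw1 ht) 2
  have o6 := Place.ord_eq_zero_of_val v6 (pow_ne_zero 2 ha1)
  have z6 := Place.ne_zero_of_val v6 (pow_ne_zero 2 ha1)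
  have h7 : t ^ 3 - 1 = (t - 1) * (t ^ 2 + t + 1) := by ring
  have z7 : t ^ 2 + t + 1 ≠ 0 := by
    intro h0
    rw [h7, h0, mul_zero] at z4
    exact z4 rfl
  have o7 : w.ord (t ^ 2 + t + 1) = 1 := by
    rw [h7, w.ord_mul _ _ z5 z7, o5] at o4
    omega
  have z8 : algebraMap k N (4 * (1 - rr α ^ 2)) ≠ 0 := by
    rw [Ne, map_eq_zero]
    exact mul_ne_zero (by norm_num) hr1
  rw [hXe, w.ord_mul _ _ z8 (mul_ne_zero z7 (inv_ne_zero z6)), w.ord_const _ (mul_ne_zero (by norm_num) hr1),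
    w.ord_mul _ _ z7 (inv_ne_zero z6), w.ord_inv, o6, o7]
  norm_num

theorem at_B [IsAlgClosed k] [CharZero k] {α ζ : k} (h : (fam α).Good) (hζ : IsPrimitiveRoot ζ 3) {N : Type}
    [Field N] [Algebra k N] {x v : N} (hG : GenC (fam α) x v) (w : Place k N) (i : ℕ) (hi : i = 1 ∨ i = 2)
    (hw : Ctr w x v (tau (ζ ^ i) Q0) ∨ Ctr w x v (tau (ζ ^ i) Qinf)) :
    w.ord (gX α x v - algebraMap k N (4 * (rr α ^ 2 - 1))) = 1 ∧
      w.Zer (gY α x v - algebraMap k N (8 * rr α * (rr α ^ 2 - 1))) := by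
  obtain ⟨hα0, hα1, hr0, hr1⟩ := fam_ne h
  obtain ⟨hx1, hx2, hv0, ht0, ht1, hu0, -⟩ := gXY h hG
  have hrel := tu_rel h hG.on hx1 hx2
  have : CharZero N := charZero_of_injective_algebraMap (algebraMap k N).injective
  have hw1 : w.Zer (1 - algebraMap k N 1) := by
    rw [map_one, sub_self]; exact w.zer_zero
  obtain ⟨ha, ha3⟩ := fb3_root hζ hi
  have hx0 : x ≠ 0 := by
    intro h0
    exact hG.tr (by rw [h0]; exact isAlgebraic_zero)
  have hxp : x + 1 ≠ 0 := fun h0 => hx2 (eq_neg_of_add_eq_zero_left h0)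
  have hxm : x - 1 ≠ 0 := sub_ne_zero.2 hx1
  set y := (x - 1) / (x + 1) with hy
  have hu_y : uE x = y ^ 2 := rfl
  have hy0 : y ≠ 0 := div_ne_zero hxm hxp
  have hv : tE x v = v / y := by
    rw [hy]
    unfold tE
    field_simp
  have hp1 : 1 + y = 2 * x * (x + 1)⁻¹ := by
    rw [hy]
    field_simp
    ring
  have hp2 : 1 - y = 2 * (x + 1)⁻¹ := by
    rw [hy]
    field_simp
    ring
  have hp3 : 1 - uE x = (1 - y) * (1 + y) := by
    rw [hu_y]; ring
  have hpn1 : 1 + y ≠ 0 := by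
    rw [hp1]
    exact mul_ne_zero (mul_ne_zero (by norm_num) hx0) (inv_ne_zero hxp)
  have hpn2 : 1 - y ≠ 0 := by
    rw [hp2]
    exact mul_ne_zero (by norm_num) (inv_ne_zero hxp)
  have hne : 1 - uE x ≠ 0 := by
    rw [hp3]
    exact mul_ne_zero hpn2 hpn1
  have o2 : w.ord (2 : N) = 0 := by
    have := w.ord_const 2 (by norm_num)
    rwa [map_ofNat] at this
  have hoz : ∀ f : N, f ≠ 0 → w.Zer f → 0 < w.ord f := fun f hf hz => hz.resolve_left hf
  have hζ' : IsPrimitiveRoot ζ (fam α).n := hζ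
  rcases hw with ⟨hwx, hwv⟩ | ⟨hwx, hwv⟩
  · have hon : OnC (fam α) (tau (ζ ^ i) Q0 0) (tau (ζ ^ i) Q0 1) := by
      show (algebraMap k k (ζ ^ i) * (-1)) ^ 3 * ∏ j, (0 - -(![1, α, α⁻¹] : Fin 3 → k) j) =
        ∏ j, (0 - (![1, α, α⁻¹] : Fin 3 → k) j)
      have e1 : (algebraMap k k (ζ ^ i) * (-1)) ^ 3 = -1 := by
        rw [mul_pow, ← map_pow, ha3, map_one]; ring
      rw [e1, Fin.prod_univ_three, Fin.prod_univ_three]
      ring
    obtain ⟨w₀, hw₀, -, hord, -, -, -, huniq⟩ := placeC h hζ' hG (tau (ζ ^ i) Q0) hon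
    have hww : w = w₀ := huniq w hwx hwv
    have hox : w.ord x = 1 := by
      have h1 := hord 0 (algebraMap k k (ζ ^ i) * (-1)) rfl rfl (by
        apply mul_ne_zero _ (by norm_num)
        intro h0
        rw [Algebra.algebraMap_self, RingHom.id_apply] at h0
        rw [h0] at ha
        norm_num at ha)
      rw [map_zero, sub_zero, ← hww] at h1
      exact h1
    have hx' : w.Zer (x - algebraMap k N 0) := Pool.Agent.LibCHd.red_iff_val.1 hwx
    have hv' : w.Zer (v - algebraMap k N (algebraMap k k (ζ ^ i) * (-1))) := Pool.Agent.LibCHd.red_iff_val.1 hwv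
    have hyv : w.Zer (y - algebraMap k N ((0 - 1) / (0 + 1))) :=
      Place.val_div (Place.val_sub hx' hw1) (Place.val_add hx' hw1) (by norm_num)
    have e1 : ((0 : k) - 1) / (0 + 1) = -1 := by norm_num
    rw [e1] at hyv
    have htv : w.Zer (tE x v - algebraMap k N (ζ ^ i)) := by
      rw [hv]
      convert Place.val_div hv' hyv (by norm_num) using 3
      rw [mul_div_assoc, div_self (by norm_num), mul_one]
      rfl
    have huv : w.Zer (uE x - algebraMap k N 1) := by
      rw [hu_y]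
      convert Place.val_pow hyv 2 using 3
      norm_num
    refine fb3_ord ha ha3 w hr0 hr1 ht1 hrel htv huv hne ?_
    have o3 : w.ord (x + 1) = 0 := by
      apply Place.ord_eq_zero_of_val (Place.val_add hx' hw1)
      norm_num
    rw [hp3, w.ord_mul _ _ hpn2 hpn1, hp1, hp2, w.ord_mul _ _ (by norm_num) (inv_ne_zero hxp),
      w.ord_mul _ _ (mul_ne_zero (by norm_num) hx0) (inv_ne_zero hxp), w.ord_mul _ _ (by norm_num) hx0,
      w.ord_inv, o2, o3, hox]
    norm_num
  · have hon : OnC (fam α) (tau (ζ ^ i) Qinf 0) (tau (ζ ^ i) Qinf 1) := by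
      show (algebraMap k k (ζ ^ i) * 1) ^ 3 = 1
      rw [mul_one, ← map_pow, ha3, map_one]
    obtain ⟨w₀, hw₀, -, -, hord, -, -, huniq⟩ := placeC h hζ' hG (tau (ζ ^ i) Qinf) hon
    have hww : w = w₀ := huniq w hwx hwv
    have hox : w.ord x = -1 := by
      rw [hww]
      exact hord rfl
    have hv' : w.Zer (v - algebraMap k N (algebraMap k k (ζ ^ i) * 1)) := Pool.Agent.LibCHd.red_iff_val.1 hwv
    have o3 : w.ord (x + 1) = -1 := by
      rw [(Place.ord_add_of_lt (v := w) hx0 one_ne_zero (by rw [hox, w.ord_one]; norm_num)).2, hox]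
    have hyv : w.Zer (y - algebraMap k N 1) := by
      have e1 : y - algebraMap k N 1 = -(2 * (x + 1)⁻¹) := by
        rw [← hp2, map_one]; ring
      rw [e1]
      apply Place.Zer.neg
      exact Or.inr (by
        rw [w.ord_mul _ _ (by norm_num) (inv_ne_zero hxp), w.ord_inv, o2, o3]; norm_num)
    have htv : w.Zer (tE x v - algebraMap k N (ζ ^ i)) := by
      rw [hv]
      convert Place.val_div hv' hyv one_ne_zero using 3
      rw [mul_one, div_one]
      rfl
    have huv : w.Zer (uE x - algebraMap k N 1) := by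
      rw [hu_y]
      convert Place.val_pow hyv 2 using 3
      norm_num
    refine fb3_ord ha ha3 w hr0 hr1 ht1 hrel htv huv hne ?_
    rw [hp3, w.ord_mul _ _ hpn2 hpn1, hp1, hp2, w.ord_mul _ _ (by norm_num) (inv_ne_zero hxp),
      w.ord_mul _ _ (mul_ne_zero (by norm_num) hx0) (inv_ne_zero hxp), w.ord_mul _ _ (by norm_num) hx0,
      w.ord_inv, o2, o3, hox]
    norm_num

end Pool.Agent.LibCW77
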