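import Mathlib

/-!
[CW77 FB4] ONLY MATHLIB. A function with the divisor `M (P) - M (O)` for a torsion point `P = (x₀, y₀)`, algebraic form. `W : y ^ 2 = x ^ 3 + a₂ x ^ 2 + a₄ x + a₆`. Plan: `WeierstrassCurve.Affine.Point.toClass` is additive (`Point.toClass : W.Point →+ Additive (ClassGroup W.CoordinateRing)`),
`toClass (some P) = ClassGroup.mk (XYIdeal' h)` (`Point.toClass_some`), so `hM` gives `ClassGroup.mk (XYIdeal' h ^ M) = 1`, the fractional ideal `(XYIdeal W x₀ (C y₀)) ^ M` is principal (`ClassGroup.mk_eq_one_iff`, `CoordinateRing.XYIdeal'_eq`), and, being an integral ideal, it is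
`Ideal.span {a}` with `a` in the coordinate ring (see `ClassGroup.mk_eq_one_of_coe_ideal`, `ClassGroup.mk0_eq_one_iff`, `FractionalIdeal.coeIdeal_inj`). Then `(X - x₀) ^ M`, `(Y - y₀) ^ M` are in `I ^ M = (a)` (`I = span {X - x₀, Y - y₀}`), and `a` is a sum of products of `M` elements of `I`
(third clause: say it as: for every ring homomorphism ... see below, it is `a ∈ I ^ M`). Norm: `CoordinateRing.XYIdeal_neg_mul`: `XYIdeal (-P) * XYIdeal P = XIdeal x₀ = (X - x₀)`; the conjugate of `a` (`Y ↦ -Y`, an automorphism of the coordinate ring; or use the norm over `k[X]`,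
`CoordinateRing.norm_smul_basis`) generates the ideal of `-P` to the power `M`; so `a * conj a = p ^ 2 - q ^ 2 (x ^ 3 + ...)` and `(X - x₀) ^ M` generate the same ideal: `(X - x₀) ^ M = (a * conj a) * b₁`, `a * conj a = (X - x₀) ^ M * b₂`; these can be taken in `k[X]`, because
`a conj a` and `(X - x₀) ^ M` are in `k[X]`, the quotients are in the coordinate ring, and an element `f + g Y` with `(f + g Y) P = Q`, `P ≠ 0`, has `g = 0`; so the polynomials `a conj a` and `(X - x₀) ^ M` are associated: equal up to a constant.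
In the statement `a = p(X) + q(X) Y` in `W.CoordinateRing`, `mk W : k[X][Y] → W.CoordinateRing`.
-/

open scoped Classical
open Polynomial
open scoped Polynomial.Bivariate

namespace Pool.Agent.LibCW77

open WeierstrassCurve.Affine

variable {k : Type} [Field k]

private lemma sigma_aux (W : WeierstrassCurve.Affine k) (h1 : W.a₁ = 0) (h3 : W.a₃ = 0) :
    Polynomial.eval₂ (AdjoinRoot.of W.polynomial) (-(AdjoinRoot.root W.polynomial)) W.polynomial = 0 := by
  have h := AdjoinRoot.eval₂_root W.polynomial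
  have hW : W.polynomial = Y ^ 2 - C (X ^ 3 + C W.a₂ * X ^ 2 + C W.a₄ * X + C W.a₆) := by
    rw [WeierstrassCurve.Affine.polynomial, h1, h3]
    simp
  have e1 : ∀ z : AdjoinRoot W.polynomial,
      Polynomial.eval₂ (AdjoinRoot.of W.polynomial) z
        (Y ^ 2 - C (X ^ 3 + C W.a₂ * X ^ 2 + C W.a₄ * X + C W.a₆) : k[X][Y]) =
      z ^ 2 - AdjoinRoot.of W.polynomial (X ^ 3 + C W.a₂ * X ^ 2 + C W.a₄ * X + C W.a₆) := by
    intro z
    rw [Polynomial.eval₂_sub, Polynomial.eval₂_X_pow, Polynomial.eval₂_C]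
  have h' : Polynomial.eval₂ (AdjoinRoot.of W.polynomial) (AdjoinRoot.root W.polynomial)
      (Y ^ 2 - C (X ^ 3 + C W.a₂ * X ^ 2 + C W.a₄ * X + C W.a₆) : k[X][Y]) = 0 := by
    rw [← hW]; exact h
  have goal' : Polynomial.eval₂ (AdjoinRoot.of W.polynomial) (-(AdjoinRoot.root W.polynomial))
      (Y ^ 2 - C (X ^ 3 + C W.a₂ * X ^ 2 + C W.a₄ * X + C W.a₆) : k[X][Y]) = 0 := by
    rw [e1] at h' ⊢
    rw [neg_sq]
    exact h'
  rw [← hW] at goal'
  exact goal'

private noncomputable def sigma (W : WeierstrassCurve.Affine k) (h1 : W.a₁ = 0) (h3 : W.a₃ = 0) :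
    W.CoordinateRing →+* W.CoordinateRing :=
  AdjoinRoot.lift (AdjoinRoot.of W.polynomial) (-(AdjoinRoot.root W.polynomial)) (sigma_aux W h1 h3)

private lemma sigma_C (W : WeierstrassCurve.Affine k) (h1 : W.a₁ = 0) (h3 : W.a₃ = 0) (p : k[X]) :
    sigma W h1 h3 (CoordinateRing.mk W (C p)) = CoordinateRing.mk W (C p) := by
  rw [sigma, AdjoinRoot.lift_mk, Polynomial.eval₂_C]
  rfl

private lemma sigma_Y (W : WeierstrassCurve.Affine k) (h1 : W.a₁ = 0) (h3 : W.a₃ = 0) :
    sigma W h1 h3 (CoordinateRing.mk W Y) = -CoordinateRing.mk W Y := by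
  rw [sigma, AdjoinRoot.lift_mk, Polynomial.eval₂_X]
  rfl

private lemma sigma_XY (W : WeierstrassCurve.Affine k) (h1 : W.a₁ = 0) (h3 : W.a₃ = 0) (x₀ y₀ : k) :
    Ideal.map (sigma W h1 h3) (CoordinateRing.XYIdeal W x₀ (C y₀)) =
      CoordinateRing.XYIdeal W x₀ (C (W.negY x₀ y₀)) := by
  rw [CoordinateRing.XYIdeal, CoordinateRing.XYIdeal, Ideal.map_span, Set.image_pair]
  have e1 : sigma W h1 h3 (CoordinateRing.XClass W x₀) = CoordinateRing.XClass W x₀ := by
    rw [CoordinateRing.XClass, sigma_C]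
  have e2 : sigma W h1 h3 (CoordinateRing.YClass W (C y₀)) =
      -CoordinateRing.YClass W (C (W.negY x₀ y₀)) := by
    have hn : W.negY x₀ y₀ = -y₀ := by
      rw [WeierstrassCurve.Affine.negY, h1, h3]; ring
    rw [CoordinateRing.YClass, CoordinateRing.YClass, map_sub, map_sub, map_sub, sigma_Y, sigma_C, hn,
      C_neg, C_neg, map_neg]
    ring
  rw [e1, e2, Ideal.span_insert, Ideal.span_insert, Ideal.span_singleton_neg]

private lemma principal_aux (W : WeierstrassCurve.Affine k) {x₀ y₀ : k}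
    (h : W.Nonsingular x₀ y₀) (M : ℕ) (hM : M • (Point.some _ _ h) = 0) :
    ∃ a : W.CoordinateRing, a ≠ 0 ∧ CoordinateRing.XYIdeal W x₀ (C y₀) ^ M = Ideal.span {a} := by
  have h1 : M • Point.toClass (Point.some _ _ h) = 0 := by
    rw [← map_nsmul, hM, map_zero]
  rw [Point.toClass_some] at h1
  have h2 : ClassGroup.mk W.FunctionField (CoordinateRing.XYIdeal' (W := W) h) ^ M = 1 := h1
  rw [← map_pow] at h2
  refine (ClassGroup.mk_eq_one_of_coe_ideal ?_).mp h2
  rw [Units.val_pow_eq_pow_val, CoordinateRing.XYIdeal'_eq, FractionalIdeal.coeIdeal_pow]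

private lemma mk_C_dvd (W : WeierstrassCurve.Affine k) {f g : k[X]}
    (h : CoordinateRing.mk W (C f) ∣ CoordinateRing.mk W (C g)) : f ∣ g := by
  obtain ⟨b, hb⟩ := h
  obtain ⟨r, s, rfl⟩ := CoordinateRing.exists_smul_basis_eq b
  rw [mul_comm, CoordinateRing.smul_basis_mul_C] at hb
  have h2 : (r * f - g) • (1 : W.CoordinateRing) + (s * f) • CoordinateRing.mk W Y = 0 := by
    rw [sub_smul, CoordinateRing.smul g, mul_one, hb]
    ring
  obtain ⟨h3, -⟩ := CoordinateRing.smul_basis_eq_zero h2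
  exact ⟨r, by rw [mul_comm]; exact (sub_eq_zero.mp h3).symm⟩

theorem ell_ideal (W : WeierstrassCurve.Affine k) (h1 : W.a₁ = 0) (h3 : W.a₃ = 0) {x₀ y₀ : k}
    (h : W.Nonsingular x₀ y₀) (M : ℕ) (hM : M • (Point.some _ _ h) = 0) :
    ∃ p q : k[X], (CoordinateRing.mk W (C p + C q * Y) ∈ CoordinateRing.XYIdeal W x₀ (C y₀) ^ M) ∧
      (∃ b, CoordinateRing.mk W ((C (X - C x₀)) ^ M) = CoordinateRing.mk W (C p + C q * Y) * b) ∧
      (∃ b, CoordinateRing.mk W ((Y - C (C y₀)) ^ M) = CoordinateRing.mk W (C p + C q * Y) * b) ∧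
      ∃ e : k, e ≠ 0 ∧ p ^ 2 - q ^ 2 * (X ^ 3 + C W.a₂ * X ^ 2 + C W.a₄ * X + C W.a₆) = C e * (X - C x₀) ^ M := by
  obtain ⟨a, ha0, ha⟩ := principal_aux W h M hM
  obtain ⟨p, q, hpq⟩ := CoordinateRing.exists_smul_basis_eq a
  have hmk : CoordinateRing.mk W (C p + C q * Y) = a := by
    rw [← hpq, CoordinateRing.smul, CoordinateRing.smul, mul_one, map_add, map_mul]
  have hxI : CoordinateRing.XClass W x₀ ∈ CoordinateRing.XYIdeal W x₀ (C y₀) :=
    Ideal.subset_span (Set.mem_insert _ _)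
  have hyI : CoordinateRing.YClass W (C y₀) ∈ CoordinateRing.XYIdeal W x₀ (C y₀) :=
    Ideal.subset_span (Set.mem_insert_of_mem _ (Set.mem_singleton _))
  have key : ∀ z ∈ CoordinateRing.XYIdeal W x₀ (C y₀) ^ M, ∃ b, z = a * b := by
    intro z hz
    rw [ha, Ideal.mem_span_singleton] at hz
    exact hz
  refine ⟨p, q, ?_, ?_, ?_, ?_⟩
  · rw [hmk, ha]
    exact Ideal.mem_span_singleton_self a
  · rw [hmk]
    have := key _ (Ideal.pow_mem_pow hxI M)
    rw [CoordinateRing.XClass, ← map_pow] at this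
    exact this
  · rw [hmk]
    have := key _ (Ideal.pow_mem_pow hyI M)
    rw [CoordinateRing.YClass, ← map_pow] at this
    exact this
  · set F : k[X] := X ^ 3 + C W.a₂ * X ^ 2 + C W.a₄ * X + C W.a₆ with hF
    have hY2 : CoordinateRing.mk W Y ^ 2 = CoordinateRing.mk W (C F) := by
      have h5 := CoordinateRing.smul_basis_mul_Y (W' := W) 0 1
      rw [h1, h3] at h5
      simp only [zero_smul, one_smul, zero_add, one_mul, C_0, zero_mul, sub_zero, add_zero] at h5
      rw [pow_two, h5, CoordinateRing.smul, mul_one]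
    have hsa : sigma W h1 h3 a = CoordinateRing.mk W (C p) - CoordinateRing.mk W (C q) * CoordinateRing.mk W Y := by
      rw [← hmk, map_add, map_mul, map_add, map_mul, sigma_C, sigma_C, sigma_Y]
      ring
    have hN : a * sigma W h1 h3 a = CoordinateRing.mk W (C (p ^ 2 - q ^ 2 * F)) := by
      rw [hsa, ← hmk, map_add, map_mul, C_sub, C_mul, C_pow, C_pow, map_sub, map_mul, map_pow, map_pow, ← hY2]
      ring
    have hid : Ideal.span {a * sigma W h1 h3 a} =
        Ideal.span {CoordinateRing.mk W (C ((X - C x₀) ^ M))} := by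
      rw [← Ideal.span_singleton_mul_span_singleton, ← ha]
      have h6 : Ideal.span {sigma W h1 h3 a} = Ideal.map (sigma W h1 h3) (Ideal.span {a}) := by
        rw [Ideal.map_span, Set.image_singleton]
      rw [h6, ← ha, Ideal.map_pow, sigma_XY, ← mul_pow, mul_comm, CoordinateRing.XYIdeal_neg_mul h,
        CoordinateRing.XIdeal, Ideal.span_singleton_pow, CoordinateRing.XClass, C_pow, map_pow]
    rw [hN] at hid
    have hd1 : p ^ 2 - q ^ 2 * F ∣ (X - C x₀) ^ M := by
      apply mk_C_dvd W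
      rw [← Ideal.span_singleton_le_span_singleton, hid]
    have hd2 : (X - C x₀) ^ M ∣ p ^ 2 - q ^ 2 * F := by
      apply mk_C_dvd W
      rw [← Ideal.span_singleton_le_span_singleton, hid]
    obtain ⟨u, hu⟩ := associated_of_dvd_dvd hd2 hd1
    obtain ⟨e, he, hue⟩ := Polynomial.isUnit_iff.mp u.isUnit
    refine ⟨e, he.ne_zero, ?_⟩
    rw [← hu, ← hue, mul_comm]

end Pool.Agent.LibCW77
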