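import Pool.Agent.LibCW77.FB0
import Pool.Agent.LibCW77.FB4

/-!
[CW77 FB5] The function with the divisor `M (P) - M (O)` on a field `N` with a point `(X', Y')` of the curve `W : y ^ 2 = x ^ 3 + a₂ x ^ 2 + a₄ x + a₆`, `X'` transcendental. `p`, `q` from `ell_ideal` (FB4), `g = p(X') + q(X') Y'`. The point gives a ring homomorphism `φ : W.CoordinateRing → N`
(`AdjoinRoot.lift` / `Polynomial.eval₂`; `φ (mk W (C p + C q * Y)) = g`). `g ≠ 0`: the norm: `g (p(X') - q(X') Y') = e (X' - x₀) ^ M ≠ 0` (`X'` transcendental).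
Let `w` be a place. (1) `X'` regular: then `Y'` is regular (its square is regular), all `φ b` are regular. If `X' - x₀` or `Y' - y₀` does not vanish at `w` its order is `0`, and its `M`-th power is `g φ b`: `0 = w.ord g + w.ord (φ b)`, both `≥ 0`.
(2) Both vanish at `w`, `s := w.ord (X' - x₀) > 0`: `(X' - x₀) ^ M = g φ b` gives `w.ord g ≤ M s`; `(Y' - y₀) (Y' + y₀) = (X' - x₀) (...)` with `Y' + y₀` of value `2 y₀ ≠ 0` gives `Y' = y₀` or `w.ord (Y' - y₀) ≥ s`; so all elements of `I` have order `≥ s` under `φ` (or `φ = 0`), all elements of `I ^ M` order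
`≥ M s` (induction on `M` with the ideals `{b | φ b = 0 ∨ n ≤ w.ord (φ b)}` of the coordinate ring: `Ideal.mul_le`, `pow_succ`), in particular `g`.
(3) `w.ord X' < 0`: `2 w.ord Y' = 3 w.ord X'`, `w.ord (p(X')) = p.natDegree * w.ord X'` (if `p ≠ 0`; LibHL77 / LibHD77 may have it, or induction on the degree), so `p(X')` and `q(X') Y'` have different orders (`2 deg p ≠ 2 deg q + 3`) and `p(X') ± q(X') Y'` have the same order
(the minimum): `2 w.ord g = w.ord (e (X' - x₀) ^ M) = M w.ord X'`.
-/

open scoped Classical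
open Polynomial

namespace Pool.Agent.LibCW77

open Pool.Agent.LibBH2
open Pool.Agent.LibCHd (VR RF Red FunF)

variable {k : Type} [Field k]

/-- the order of a polynomial at a pole -/
private theorem fb5_pole {K : Type} [Field K] [Algebra k K] {v : Place k K} {z : K}
    (hz : v.ord z < 0) : ∀ (m : ℕ) (P : k[X]), P.natDegree ≤ m → P ≠ 0 →
      aeval z P ≠ 0 ∧ v.ord (aeval z P) = P.natDegree * v.ord z := by
  have hz0 : z ≠ 0 := by
    rintro rfl
    rw [v.ord_zero] at hz
    exact lt_irrefl _ hz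
  have hmon : ∀ (i : ℕ) (a : k), a ≠ 0 → aeval z (monomial i a) ≠ 0 ∧
      v.ord (aeval z (monomial i a)) = i * v.ord z := by
    intro i a ha
    have h1 : algebraMap k K a ≠ 0 := (_root_.map_ne_zero _).2 ha
    rw [aeval_monomial]
    refine ⟨mul_ne_zero h1 (pow_ne_zero _ hz0), ?_⟩
    rw [v.ord_mul _ _ h1 (pow_ne_zero _ hz0), v.ord_const a ha, v.ord_pow, zero_add]
  intro m
  induction m with
  | zero =>
    intro P hm hP
    have h1 : P = C (P.coeff 0) := eq_C_of_natDegree_eq_zero (Nat.le_zero.1 hm)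
    have h2 : P.coeff 0 ≠ 0 := by
      intro h
      rw [h, C_0] at h1
      exact hP h1
    have h3 := hmon 0 _ h2
    rw [monomial_zero_left, ← h1] at h3
    rw [Nat.le_zero.1 hm]
    exact h3
  | succ m ih =>
    intro P hm hP
    have h1 := P.eraseLead_add_monomial_natDegree_leadingCoeff
    have h2 := hmon P.natDegree _ (leadingCoeff_ne_zero.2 hP)
    by_cases h3 : P.eraseLead = 0
    · rw [h3, zero_add] at h1
      rw [h1] at h2
      exact h2
    · have h4 : P.eraseLead.natDegree < P.natDegree :=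
        P.eraseLead_natDegree_lt_or_eraseLead_eq_zero.resolve_right h3
      obtain ⟨h5, h6⟩ := ih P.eraseLead (by omega) h3
      have h7 := v.ord_add_of_lt h2.1 h5 (by
        rw [h2.2, h6]
        have h8 : (P.eraseLead.natDegree : ℤ) < (P.natDegree : ℤ) := by exact_mod_cast h4
        nlinarith)
      rw [← map_add, add_comm, h1, h2.2] at h7
      exact h7

private theorem fb5_aeval_reg {K : Type} [Field K] [Algebra k K] {v : Place k K} {z : K}
    (hz : v.Reg z) (P : k[X]) : v.Reg (aeval z P) := by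
  induction P using Polynomial.induction_on' with
  | add p q hp hq => rw [map_add]; exact hp.add hq
  | monomial n a => rw [aeval_monomial]; exact (v.reg_const a).mul (hz.pow n)

private theorem fb5_eval2_reg {K : Type} [Field K] [Algebra k K] {v : Place k K} {z y : K}
    (hz : v.Reg z) (hy : v.Reg y) (P : k[X][X]) :
    v.Reg (P.eval₂ (aeval (R := k) z).toRingHom y) := by
  induction P using Polynomial.induction_on' with
  | add p q hp hq => rw [eval₂_add]; exact hp.add hq
  | monomial n a =>
    rw [eval₂_monomial]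
    exact (fb5_aeval_reg hz a).mul (hy.pow n)

/-- the elements of order at least `n` (all elements being regular) -/
private def fb5_ideal {R K : Type} [CommRing R] [Field K] [Algebra k K] (v : Place k K) (φ : R →+* K)
    (hφ : ∀ b, v.Reg (φ b)) (n : ℤ) : Ideal R where
  carrier := {b | φ b = 0 ∨ n ≤ v.ord (φ b)}
  add_mem' := by
    intro a b ha hb
    simp only [Set.mem_ofPred_eq, map_add] at *
    rcases ha with ha | ha
    · rw [ha, zero_add]; exact hb
    rcases hb with hb | hb
    · rw [hb, add_zero]; exact Or.inr ha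
    by_cases h1 : φ a = 0
    · rw [h1, zero_add]; exact Or.inr hb
    by_cases h2 : φ b = 0
    · rw [h2, add_zero]; exact Or.inr ha
    by_cases h3 : φ a + φ b = 0
    · exact Or.inl h3
    · exact Or.inr ((le_min ha hb).trans (v.ord_add _ _ h1 h2 h3))
  zero_mem' := by left; exact map_zero φ
  smul_mem' := by
    intro c b hb
    simp only [Set.mem_ofPred_eq, smul_eq_mul, map_mul] at *
    rcases hb with hb | hb
    · left; rw [hb, mul_zero]
    by_cases h1 : φ c = 0
    · left; rw [h1, zero_mul]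
    by_cases h2 : φ b = 0
    · left; rw [h2, mul_zero]
    right
    rw [v.ord_mul _ _ h1 h2]
    have h3 : 0 ≤ v.ord (φ c) := (hφ c).resolve_left h1
    linarith

private theorem fb5_pow_le {R K : Type} [CommRing R] [Field K] [Algebra k K] (v : Place k K) (φ : R →+* K)
    (hφ : ∀ b, v.Reg (φ b)) (s : ℤ) (I : Ideal R) (hI : I ≤ fb5_ideal v φ hφ s) (M : ℕ) :
    I ^ M ≤ fb5_ideal v φ hφ (M * s) := by
  induction M with
  | zero =>
    intro b _
    by_cases h : φ b = 0
    · exact Or.inl h
    · right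
      have := (hφ b).resolve_left h
      simpa using this
  | succ M ih =>
    rw [pow_succ]
    refine Ideal.mul_le.2 fun a ha b hb => ?_
    have h1 := ih ha
    have h2 := hI hb
    change φ (a * b) = 0 ∨ _ ≤ v.ord (φ (a * b))
    rw [map_mul]
    by_cases h3 : φ a = 0
    · left; rw [h3, zero_mul]
    by_cases h4 : φ b = 0
    · left; rw [h4, mul_zero]
    have h5 : (M : ℤ) * s ≤ v.ord (φ a) := Or.resolve_left h1 h3
    have h6 : s ≤ v.ord (φ b) := Or.resolve_left h2 h4
    right
    rw [v.ord_mul _ _ h3 h4]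
    push_cast
    linarith

private theorem fb5_split {K : Type} [Field K] [Algebra k K] {v : Place k K} {g b c : K} {M : ℕ}
    (hg : g ≠ 0) (hgr : v.Reg g) (hbr : v.Reg b) (hc0 : c ≠ 0) (hc : v.ord c = 0)
    (h : c ^ M = g * b) : v.ord g = 0 := by
  have hb : b ≠ 0 := by
    rintro rfl
    rw [mul_zero] at h
    exact pow_ne_zero M hc0 h
  have h1 := congrArg v.ord h
  rw [v.ord_pow, hc, mul_zero, v.ord_mul _ _ hg hb] at h1
  have h2 := hgr.resolve_left hg
  have h3 := hbr.resolve_left hb
  omega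

theorem ell_fun [CharZero k] (W : WeierstrassCurve.Affine k) (h1 : W.a₁ = 0) (h3 : W.a₃ = 0) {x₀ y₀ : k}
    (h : W.Nonsingular x₀ y₀) (hy : y₀ ≠ 0) (M : ℕ) (hM : M • (WeierstrassCurve.Affine.Point.some _ _ h) = 0)
    {N : Type} [Field N] [Algebra k N] {X' Y' : N} (hX : Transcendental k X')
    (hE : Y' ^ 2 = X' ^ 3 + algebraMap k N W.a₂ * X' ^ 2 + algebraMap k N W.a₄ * X' + algebraMap k N W.a₆) :
    ∃ g : N, g ≠ 0 ∧ ∀ w : Place k N,
      (w.Reg X' → ¬ (w.Zer (X' - algebraMap k N x₀) ∧ w.Zer (Y' - algebraMap k N y₀)) → w.ord g = 0) ∧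
      (w.Zer (X' - algebraMap k N x₀) → w.Zer (Y' - algebraMap k N y₀) →
        w.ord g = M * w.ord (X' - algebraMap k N x₀)) ∧
      (¬ w.Reg X' → 2 * w.ord g = M * w.ord X') := by
  obtain ⟨p, q, hpq, ⟨b₁, hb₁⟩, ⟨b₂, hb₂⟩, e, he, hnorm⟩ := ell_ideal W h1 h3 h M hM
  -- the homomorphism
  have hroot : W.polynomial.eval₂ (aeval (R := k) X').toRingHom Y' = 0 := by
    rw [WeierstrassCurve.Affine.polynomial, h1, h3]
    simp only [C_0, zero_mul, add_zero, eval₂_add, eval₂_sub, eval₂_pow, eval₂_X, eval₂_C, eval₂_mul]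
    simp only [AlgHom.toRingHom_eq_coe, RingHom.coe_coe, map_add, map_mul, map_pow, aeval_X, aeval_C]
    rw [hE]
    simp
  let φ : W.CoordinateRing →+* N := AdjoinRoot.lift (aeval (R := k) X').toRingHom Y' hroot
  have hφmk : ∀ P : k[X][X], φ (WeierstrassCurve.Affine.CoordinateRing.mk W P) =
      P.eval₂ (aeval (R := k) X').toRingHom Y' := fun P => AdjoinRoot.lift_mk hroot P
  have hφa : φ (WeierstrassCurve.Affine.CoordinateRing.mk W (C p + C q * X)) = aeval X' p + aeval X' q * Y' := by
    rw [hφmk]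
    simp [eval₂_add, eval₂_mul]
  set g : N := aeval X' p + aeval X' q * Y' with hg
  have hxx : ∀ c : k, X' - algebraMap k N c ≠ 0 := by
    intro c hc
    refine hX ⟨X - C c, X_sub_C_ne_zero c, ?_⟩
    simpa using hc
  have hprod : g * (aeval X' p - aeval X' q * Y') = algebraMap k N e * (X' - algebraMap k N x₀) ^ M := by
    have h4 := congrArg (aeval X') hnorm
    simp only [map_sub, map_pow, map_mul, map_add, aeval_X, aeval_C] at h4
    rw [← hE] at h4
    rw [hg]
    linear_combination h4
  have hne : algebraMap k N e * (X' - algebraMap k N x₀) ^ M ≠ 0 :=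
    mul_ne_zero ((_root_.map_ne_zero _).2 he) (pow_ne_zero _ (hxx x₀))
  have hg0 : g ≠ 0 := by
    intro h4
    rw [h4, zero_mul] at hprod
    exact hne hprod.symm
  have hgb1 : (X' - algebraMap k N x₀) ^ M = g * φ b₁ := by
    have h4 := congrArg φ hb₁
    rw [map_mul, hφa, hφmk] at h4
    simpa [eval₂_pow] using h4
  have hgb2 : (Y' - algebraMap k N y₀) ^ M = g * φ b₂ := by
    have h4 := congrArg φ hb₂
    rw [map_mul, hφa, hφmk] at h4
    simpa [eval₂_pow, eval₂_sub] using h4
  -- the point
  have hpt : y₀ ^ 2 = x₀ ^ 3 + W.a₂ * x₀ ^ 2 + W.a₄ * x₀ + W.a₆ := by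
    have h4 := h.1
    rw [WeierstrassCurve.Affine.equation_iff, h1, h3] at h4
    simpa using h4
  have hptN : (algebraMap k N y₀) ^ 2 = (algebraMap k N x₀) ^ 3 + algebraMap k N W.a₂ * (algebraMap k N x₀) ^ 2 +
      algebraMap k N W.a₄ * algebraMap k N x₀ + algebraMap k N W.a₆ := by
    rw [← map_pow, hpt]
    simp only [map_add, map_mul, map_pow]
  refine ⟨g, hg0, fun w => ?_⟩
  -- regular case
  have hYreg : w.Reg X' → w.Reg Y' := by
    intro hr
    have h4 : w.Reg (Y' ^ 2) := by
      rw [hE]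
      exact (((hr.pow 3).add ((w.reg_const _).mul (hr.pow 2))).add ((w.reg_const _).mul hr)).add
        (w.reg_const _)
    rcases h4 with h4 | h4
    · exact Or.inl (pow_eq_zero_iff (two_ne_zero) |>.1 h4)
    · right
      rw [w.ord_pow] at h4
      push_cast at h4
      omega
  have hall : w.Reg X' → ∀ b, w.Reg (φ b) := by
    intro hr b
    obtain ⟨P, rfl⟩ := AdjoinRoot.mk_surjective b
    have h4 := fb5_eval2_reg hr (hYreg hr) P
    rw [← hφmk P] at h4
    exact h4
  refine ⟨?_, ?_, ?_⟩
  · intro hr hnot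
    have hgr : w.Reg g := by
      have := hall hr (WeierstrassCurve.Affine.CoordinateRing.mk W (C p + C q * X))
      rwa [hφa] at this
    by_cases h4 : w.Zer (X' - algebraMap k N x₀)
    · have h5 : ¬ w.Zer (Y' - algebraMap k N y₀) := fun h5 => hnot ⟨h4, h5⟩
      have h6 : w.Reg (Y' - algebraMap k N y₀) := (hYreg hr).sub (w.reg_const _)
      have h7 : Y' - algebraMap k N y₀ ≠ 0 := fun h8 => h5 (Or.inl h8)
      exact fb5_split hg0 hgr (hall hr b₂) h7 (Place.ord_eq_zero_of_reg h6 h5) hgb2
    · have h6 : w.Reg (X' - algebraMap k N x₀) := hr.sub (w.reg_const _)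
      exact fb5_split hg0 hgr (hall hr b₁) (hxx x₀) (Place.ord_eq_zero_of_reg h6 h4) hgb1
  · intro hzx hzy
    have hr : w.Reg X' := Place.reg_of_val hzx
    have hs : 0 < w.ord (X' - algebraMap k N x₀) := hzx.resolve_left (hxx x₀)
    set s := w.ord (X' - algebraMap k N x₀) with hs'
    -- the order of Y' - y₀
    have hYs : Y' - algebraMap k N y₀ = 0 ∨ s ≤ w.ord (Y' - algebraMap k N y₀) := by
      by_cases h4 : Y' - algebraMap k N y₀ = 0
      · exact Or.inl h4
      right
      have h5 : w.Zer ((Y' + algebraMap k N y₀) - algebraMap k N (2 * y₀)) := by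
        have : (Y' + algebraMap k N y₀) - algebraMap k N (2 * y₀) = Y' - algebraMap k N y₀ := by
          rw [map_mul, map_ofNat]; ring
        rw [this]; exact hzy
      have h6 : (2 : k) * y₀ ≠ 0 := mul_ne_zero two_ne_zero hy
      have h7 : w.ord (Y' + algebraMap k N y₀) = 0 := Place.ord_eq_zero_of_val h5 h6
      have h8 : Y' + algebraMap k N y₀ ≠ 0 := Place.ne_zero_of_val h5 h6
      have h9 : (Y' - algebraMap k N y₀) * (Y' + algebraMap k N y₀) = (X' - algebraMap k N x₀) *
          (X' ^ 2 + X' * algebraMap k N x₀ + algebraMap k N x₀ ^ 2 +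
            algebraMap k N W.a₂ * (X' + algebraMap k N x₀) + algebraMap k N W.a₄) := by
        linear_combination hE - hptN
      have h10 : w.Reg (X' ^ 2 + X' * algebraMap k N x₀ + algebraMap k N x₀ ^ 2 +
            algebraMap k N W.a₂ * (X' + algebraMap k N x₀) + algebraMap k N W.a₄) :=
        ((((hr.pow 2).add (hr.mul (w.reg_const _))).add ((w.reg_const _).pow 2)).add
          ((w.reg_const _).mul (hr.add (w.reg_const _)))).add (w.reg_const _)
      have h11 : (X' ^ 2 + X' * algebraMap k N x₀ + algebraMap k N x₀ ^ 2 +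
            algebraMap k N W.a₂ * (X' + algebraMap k N x₀) + algebraMap k N W.a₄) ≠ 0 := by
        intro h12
        rw [h12, mul_zero] at h9
        exact mul_ne_zero h4 h8 h9
      have h12 := congrArg w.ord h9
      rw [w.ord_mul _ _ h4 h8, w.ord_mul _ _ (hxx x₀) h11, h7, add_zero] at h12
      have h13 := h10.resolve_left h11
      rw [h12]
      linarith
    have hI : WeierstrassCurve.Affine.CoordinateRing.XYIdeal W x₀ (C y₀) ≤ fb5_ideal w φ (hall hr) s := by
      rw [WeierstrassCurve.Affine.CoordinateRing.XYIdeal, Ideal.span_le]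
      intro b hb
      rcases hb with rfl | hb
      · right
        have : φ (WeierstrassCurve.Affine.CoordinateRing.XClass W x₀) = X' - algebraMap k N x₀ := by
          rw [WeierstrassCurve.Affine.CoordinateRing.XClass, hφmk]
          simp
        rw [this]
      · rw [Set.mem_singleton_iff] at hb
        subst hb
        have : φ (WeierstrassCurve.Affine.CoordinateRing.YClass W (C y₀)) = Y' - algebraMap k N y₀ := by
          rw [WeierstrassCurve.Affine.CoordinateRing.YClass, hφmk]
          simp [eval₂_sub]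
        change φ (WeierstrassCurve.Affine.CoordinateRing.YClass W (C y₀)) = 0 ∨ _ ≤ w.ord (φ _)
        rw [this]
        exact hYs
    have h4 := fb5_pow_le w φ (hall hr) s _ hI M hpq
    have h5 : (M : ℤ) * s ≤ w.ord g := by
      have h6 : φ (WeierstrassCurve.Affine.CoordinateRing.mk W (C p + C q * X)) = 0 ∨
        (M : ℤ) * s ≤ w.ord (φ (WeierstrassCurve.Affine.CoordinateRing.mk W (C p + C q * X))) := h4
      rw [hφa] at h6
      exact h6.resolve_left hg0
    refine le_antisymm ?_ h5
    have hb0 : φ b₁ ≠ 0 := by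
      intro h6
      rw [h6, mul_zero] at hgb1
      exact pow_ne_zero M (hxx x₀) hgb1
    have h6 := congrArg w.ord hgb1
    rw [w.ord_pow, w.ord_mul _ _ hg0 hb0, ← hs'] at h6
    have h7 := (hall hr b₁).resolve_left hb0
    linarith
  · intro hnr
    have hX0 : X' ≠ 0 := fun h4 => hnr (Or.inl h4)
    have ho : w.ord X' < 0 := by
      by_contra h4
      exact hnr (Or.inr (not_lt.1 h4))
    have hcub : w.ord (Y' ^ 2) = 3 * w.ord X' ∧ Y' ^ 2 ≠ 0 := by
      have hdeg : (X ^ 3 + C W.a₂ * X ^ 2 + C W.a₄ * X + C W.a₆ : k[X]).natDegree = 3 := by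
        have := natDegree_cubic (a := (1 : k)) (b := W.a₂) (c := W.a₄) (d := W.a₆) one_ne_zero
        simpa using this
      have hne0 : (X ^ 3 + C W.a₂ * X ^ 2 + C W.a₄ * X + C W.a₆ : k[X]) ≠ 0 := by
        intro h4
        rw [h4] at hdeg
        simp at hdeg
      obtain ⟨h4, h5⟩ := fb5_pole ho _ _ le_rfl hne0
      have h6 : aeval X' (X ^ 3 + C W.a₂ * X ^ 2 + C W.a₄ * X + C W.a₆ : k[X]) = Y' ^ 2 := by
        rw [hE]
        simp only [map_add, map_mul, map_pow, aeval_X, aeval_C]
      rw [h6] at h4 h5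
      rw [hdeg] at h5
      exact ⟨by simpa using h5, h4⟩
    have hY0 : Y' ≠ 0 := fun h4 => hcub.2 (by rw [h4]; simp)
    have hYo : 2 * w.ord Y' = 3 * w.ord X' := by
      have h4 := hcub.1
      rw [w.ord_pow] at h4
      simpa using h4
    have hxo : w.ord (X' - algebraMap k N x₀) = w.ord X' := by
      obtain ⟨_, h5⟩ := fb5_pole ho _ (X - C x₀) le_rfl (X_sub_C_ne_zero x₀)
      simpa using h5
    have hg' : aeval X' p - aeval X' q * Y' ≠ 0 := by
      intro h4
      rw [h4, mul_zero] at hprod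
      exact hne hprod.symm
    have hsum := congrArg w.ord hprod
    rw [w.ord_mul _ _ hg0 hg', w.ord_mul _ _ ((_root_.map_ne_zero _).2 he) (pow_ne_zero _ (hxx x₀)),
      w.ord_const e he, w.ord_pow, hxo, zero_add] at hsum
    have hsame : w.ord (aeval X' p - aeval X' q * Y') = w.ord g := by
      by_cases hp : p = 0
      · rw [hg, hp, map_zero, zero_add, zero_sub, w.ord_neg]
      by_cases hq : q = 0
      · rw [hg, hq, map_zero, zero_mul, sub_zero, add_zero]
      obtain ⟨hp0, hpo⟩ := fb5_pole ho _ p le_rfl hp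
      obtain ⟨hq0, hqo⟩ := fb5_pole ho _ q le_rfl hq
      have hqY0 : aeval X' q * Y' ≠ 0 := mul_ne_zero hq0 hY0
      have hqYo : w.ord (aeval X' q * Y') = q.natDegree * w.ord X' + w.ord Y' := by
        rw [w.ord_mul _ _ hq0 hY0, hqo]
      have hneg0 : -(aeval X' q * Y') ≠ 0 := neg_ne_zero.2 hqY0
      rcases lt_trichotomy (w.ord (aeval X' p)) (w.ord (aeval X' q * Y')) with hlt | heq | hgt
      · rw [hg, (w.ord_add_of_lt hp0 hqY0 hlt).2, sub_eq_add_neg,
          (w.ord_add_of_lt hp0 hneg0 (by rwa [w.ord_neg])).2]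
      · exfalso
        rw [hqYo, hpo] at heq
        have h4 : (2 * (p.natDegree : ℤ) - 2 * q.natDegree - 3) * w.ord X' = 0 := by linarith
        rcases mul_eq_zero.1 h4 with h5 | h5
        · omega
        · omega
      · rw [hg, add_comm, (w.ord_add_of_lt hqY0 hp0 hgt).2, sub_eq_add_neg, add_comm,
          (w.ord_add_of_lt hneg0 hp0 (by rwa [w.ord_neg])).2, w.ord_neg]
    rw [hsame] at hsum
    linarith

end Pool.Agent.LibCW77
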