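import Pool.Agent.LibCW77.FDefs

/-!
[CW77 FB6] ONLY MATHLIB (and the definition of `Er`). `A = (r ^ 2 - 1, r (1 - r ^ 2)) = - 2 B`, `B = (4 (r ^ 2 - 1), 8 r (r ^ 2 - 1))`: the tangent at `B` has the slope `3 r`. Plan: `WeierstrassCurve.Affine.Point.add_self_of_Y_ne` (or `add_some`), `slope_of_Y_ne`,
`addX`, `addY`: `2 B = (r ^ 2 - 1, - r (1 - r ^ 2))`, `- 2 B = A`. (`y_B ≠ 0` because `r ≠ 0`, `r ^ 2 ≠ 1`.) So `m B = 0` gives `m A = 0`. `m > 0` from `isOfFinAddOrder_iff_nsmul_eq_zero`. See `Pool/Agent/Lib0c97/C2.lean` for the use of the addition formulas in this Mathlib version.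
-/

open scoped Classical
open Polynomial

namespace Pool.Agent.LibCW77

variable {k : Type} [Field k]

theorem torsB_A [CharZero k] {r : k} (h0 : r ≠ 0) (h1 : 1 - r ^ 2 ≠ 0) (h : TorsB r) :
    ∃ (m : ℕ) (hA : (Er r).Nonsingular (r ^ 2 - 1) (r * (1 - r ^ 2)))
      (hB : (Er r).Nonsingular (4 * (r ^ 2 - 1)) (8 * r * (r ^ 2 - 1))), 0 < m ∧
      m • (WeierstrassCurve.Affine.Point.some _ _ hA) = 0 ∧ m • (WeierstrassCurve.Affine.Point.some _ _ hB) = 0 := by
  obtain ⟨hB, hfin⟩ := h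
  obtain ⟨m, hm, hmB⟩ := isOfFinAddOrder_iff_nsmul_eq_zero.1 hfin
  have hs : r ^ 2 - 1 ≠ 0 := fun hh => h1 (by linear_combination -hh)
  have hy : 8 * r * (r ^ 2 - 1) ≠
      (Er r).negY (4 * (r ^ 2 - 1)) (8 * r * (r ^ 2 - 1)) := by
    intro hh
    have h2 : (Er r).negY (4 * (r ^ 2 - 1)) (8 * r * (r ^ 2 - 1)) = -(8 * r * (r ^ 2 - 1)) := by
      simp [WeierstrassCurve.Affine.negY, Er]
    rw [h2] at hh
    have h3 : (16 : k) * (r * (r ^ 2 - 1)) = 0 := by linear_combination hh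
    have h16 : (16 : k) ≠ 0 := by norm_num
    exact (mul_ne_zero h16 (mul_ne_zero h0 hs)) h3
  have hsl : (Er r).slope (4 * (r ^ 2 - 1)) (4 * (r ^ 2 - 1)) (8 * r * (r ^ 2 - 1))
      (8 * r * (r ^ 2 - 1)) = 3 * r := by
    rw [WeierstrassCurve.Affine.slope_of_Y_ne rfl hy]
    have h2 : (Er r).negY (4 * (r ^ 2 - 1)) (8 * r * (r ^ 2 - 1)) = -(8 * r * (r ^ 2 - 1)) := by
      simp [WeierstrassCurve.Affine.negY, Er]
    rw [h2]
    have h16 : (16 : k) * (r * (r ^ 2 - 1)) ≠ 0 :=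
      mul_ne_zero (by norm_num) (mul_ne_zero h0 hs)
    have h17 : 8 * r * (r ^ 2 - 1) - -(8 * r * (r ^ 2 - 1)) ≠ 0 := by
      intro hh
      exact h16 (by linear_combination hh)
    rw [div_eq_iff h17]
    simp only [Er]
    ring
  have key : ∃ hA : (Er r).Nonsingular (r ^ 2 - 1) (r * (1 - r ^ 2)),
      WeierstrassCurve.Affine.Point.some _ _ hB + WeierstrassCurve.Affine.Point.some _ _ hB =
        -WeierstrassCurve.Affine.Point.some _ _ hA := by
    have gen : ∀ X Y : k,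
        X = (Er r).addX (4 * (r ^ 2 - 1)) (4 * (r ^ 2 - 1)) ((Er r).slope (4 * (r ^ 2 - 1))
          (4 * (r ^ 2 - 1)) (8 * r * (r ^ 2 - 1)) (8 * r * (r ^ 2 - 1))) →
        Y = (Er r).negAddY (4 * (r ^ 2 - 1)) (4 * (r ^ 2 - 1)) (8 * r * (r ^ 2 - 1))
          ((Er r).slope (4 * (r ^ 2 - 1)) (4 * (r ^ 2 - 1)) (8 * r * (r ^ 2 - 1))
            (8 * r * (r ^ 2 - 1))) →
        ∃ hA : (Er r).Nonsingular X Y,
          WeierstrassCurve.Affine.Point.some _ _ hB + WeierstrassCurve.Affine.Point.some _ _ hB =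
            -WeierstrassCurve.Affine.Point.some _ _ hA := by
      intro X Y hX hY
      subst hX hY
      exact ⟨_, WeierstrassCurve.Affine.Point.add_self_of_Y_ne' hy⟩
    apply gen
    · rw [hsl]
      simp only [WeierstrassCurve.Affine.addX, Er]
      ring
    · rw [hsl]
      simp only [WeierstrassCurve.Affine.negAddY, WeierstrassCurve.Affine.addX, Er]
      ring
  obtain ⟨hA, hAB⟩ := key
  refine ⟨m, hA, hB, hm, ?_, hmB⟩
  have h4 : WeierstrassCurve.Affine.Point.some _ _ hA =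
      -(WeierstrassCurve.Affine.Point.some _ _ hB + WeierstrassCurve.Affine.Point.some _ _ hB) := by
    rw [hAB, neg_neg]
  rw [h4, smul_neg, smul_add, hmB, add_zero, neg_zero]

end Pool.Agent.LibCW77
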