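import Pool.Agent.LibCW77.FB2
import Pool.Agent.LibCW77.FB3
import Pool.Agent.LibCW77.FB5
import Pool.Agent.LibCW77.FB6

/-!
The converse: if `B` is a torsion point of `Er r` then the divisor class is torsion.
-/

open scoped Classical
open Polynomial

namespace Pool.Agent.LibCW77

open Pool.Agent.LibBH2
open Pool.Agent.LibCHd (VR RF Red FunF)

variable {k : Type} [Field k]

private noncomputable def pB (b : Bool) : Fin 2 → Option k := if b then Q0 else Qinf

private theorem onB {α ζ : k} (hζ : ζ ^ 3 = 1) (i : ℕ) (b : Bool) :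
    OnC (fam α) (tau (ζ ^ i) (pB b) 0) (tau (ζ ^ i) (pB b) 1) := by
  have h1 : (ζ ^ i) ^ 3 = 1 := by rw [← pow_mul, mul_comm, pow_mul, hζ, one_pow]
  cases b with
  | false =>
    change (ζ ^ i * 1) ^ 3 = 1
    rw [mul_one, h1]
  | true =>
    change (ζ ^ i * (-1)) ^ 3 * ∏ j, ((0 : k) - -(![1, α, α⁻¹] j)) = ∏ j, ((0 : k) - ![1, α, α⁻¹] j)
    rw [mul_pow, h1, Fin.prod_univ_three, Fin.prod_univ_three]
    ring

private theorem ctr_unique {N : Type} [Field N] [Algebra k N] {w : Place k N} {x v : N}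
    {P P' : Fin 2 → Option k} (h : Ctr w x v P) (h' : Ctr w x v P') : P = P' := by
  funext j
  fin_cases j
  · exact Option.map_injective (algebraMap k (RF w)).injective (spO_unique h.1 h'.1)
  · exact Option.map_injective (algebraMap k (RF w)).injective (spO_unique h.2 h'.2)

private theorem pB_inj [CharZero k] {ζ : k} (hζ : IsPrimitiveRoot ζ 3) {i j : Fin 3} {b b' : Bool}
    (h : tau (ζ ^ (i : ℕ)) (pB b : Fin 2 → Option k) = tau (ζ ^ (j : ℕ)) (pB b' : Fin 2 → Option k)) :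
    i = j ∧ b = b' := by
  have h0 := congrFun h 0
  have h1 := congrFun h 1
  have hb : b = b' := by
    cases b <;> cases b'
    · rfl
    · exact absurd h0 (by simp [tau, pB, Q0, Qinf])
    · exact absurd h0 (by simp [tau, pB, Q0, Qinf])
    · rfl
  subst hb
  refine ⟨?_, rfl⟩
  have h2 : ζ ^ (i : ℕ) = ζ ^ (j : ℕ) := by
    cases b with
    | false =>
      have h3 : some (ζ ^ (i : ℕ) * (1 : k)) = some (ζ ^ (j : ℕ) * (1 : k)) := h1
      simpa using h3
    | true =>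
      have h3 : some (ζ ^ (i : ℕ) * (-1 : k)) = some (ζ ^ (j : ℕ) * (-1 : k)) := h1
      simpa using h3
  exact Fin.ext (hζ.pow_inj i.2 j.2 h2)

/-- the specialisation at a place over `P` -/
private theorem cls_ctr [IsAlgClosed k] [CharZero k] {c : Dat k} (hc : c.Good) {N : Type} [Field N] [Algebra k N]
    {x v : N} (hG : GenC c x v) (w : Place k N) {P : Fin 2 → Option k} (h : Ctr w x v P) (q : Pnt 1 (RF w))
    (hq : SpP w (pt1 ![some x, some v]) q) : cls c 0 q = cls c 0 (pt1 P) := by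
  have h1 : q = mpP (Algebra.ofId k (RF w)) (pt1 P) := by
    refine spP_unique hq fun j i => ?_
    fin_cases i
    · exact h.1
    · exact h.2
  have h2 : (Algebra.ofId k (RF w)).fieldRange = ⊤ := by
    rw [eq_top_iff]
    intro y _
    obtain ⟨a, rfl⟩ := res_k (genC_funF hc hG).1 w y
    exact ⟨a, rfl⟩
  rw [h1, cls_map, h2, IntermediateField.finrank_top, Nat.cast_one, one_zsmul]

/-- the function and its divisor -/
private theorem fam_fun [IsAlgClosed k] [CharZero k] {α ζ : k} (h : (fam α).Good) (hζ : IsPrimitiveRoot ζ 3)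
    (hB : TorsB (rr α)) : ∃ (m : ℕ) (N : Type) (_ : Field N) (_ : Algebra k N) (x v g : N)
      (W : Fin 3 × Bool → Place k N), 0 < m ∧ GenC (fam α) x v ∧ g ≠ 0 ∧ Function.Injective W ∧
      (∀ p, Ctr (W p) x v (tau (ζ ^ (p.1 : ℕ)) (pB p.2))) ∧ (∀ b, (W (0, b)).ord g = 2 * m) ∧
      (∀ (i : Fin 3) b, i ≠ 0 → (W (i, b)).ord g = -m) ∧ ∀ w : Place k N, (∀ p, w ≠ W p) → w.ord g = 0 := by
  obtain ⟨hα0, hα1, hr0, hr1⟩ := fam_ne h
  obtain ⟨m, hA, hBn, hm, hmA, hmB⟩ := torsB_A hr0 hr1 hB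
  obtain ⟨N, _, _, x, v, hG⟩ := genC_exists h
  have hζ3 : ζ ^ 3 = 1 := hζ.pow_eq_one
  have hF : FunF k 1 N := (genC_funF h hG).1
  set r := rr α with hr
  -- the six places
  have hpl : ∀ p : Fin 3 × Bool, ∃ w : Place k N, Ctr w x v (tau (ζ ^ (p.1 : ℕ)) (pB p.2)) ∧
      ∀ w', Ctr w' x v (tau (ζ ^ (p.1 : ℕ)) (pB p.2)) → w' = w := by
    intro p
    obtain ⟨w, h1, -, -, -, -, -, h2⟩ := placeC h (ζ := ζ) hζ hG (tau (ζ ^ (p.1 : ℕ)) (pB p.2)) (onB hζ3 _ _)
    exact ⟨w, h1, fun w' hw' => h2 w' hw'.1 hw'.2⟩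
  choose W hW hWu using hpl
  have hWinj : Function.Injective W := by
    intro p p' hpp
    have h1 := hW p
    rw [hpp] at h1
    obtain ⟨h2, h3⟩ := pB_inj hζ (ctr_unique h1 (hW p'))
    exact Prod.ext h2 h3
  have htau0 : ∀ Q : Fin 2 → Option k, tau (ζ ^ 0) Q = Q := by
    intro Q
    funext j
    fin_cases j
    · rfl
    · change (Q 1).map (fun v => algebraMap k k (ζ ^ 0) * v) = Q 1
      have h1 : (fun v : k => algebraMap k k (ζ ^ 0) * v) = id := by
        funext v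
        simp
      rw [h1, Option.map_id]
      rfl
  have hW0 : ∀ b, Ctr (W (0, b)) x v Q0 ∨ Ctr (W (0, b)) x v Qinf := by
    intro b
    have h1 := hW (0, b)
    have h2 : tau (ζ ^ ((0 : Fin 3) : ℕ)) (pB b) = (pB b : Fin 2 → Option k) := htau0 _
    rw [h2] at h1
    cases b with
    | false => exact Or.inr h1
    | true => exact Or.inl h1
  have hW1 : ∀ (i : Fin 3) b, i ≠ 0 → ((i : ℕ) = 1 ∨ (i : ℕ) = 2) ∧
      (Ctr (W (i, b)) x v (tau (ζ ^ (i : ℕ)) Q0) ∨ Ctr (W (i, b)) x v (tau (ζ ^ (i : ℕ)) Qinf)) := by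
    intro i b hi
    refine ⟨by revert hi; fin_cases i <;> simp, ?_⟩
    have h1 := hW (i, b)
    cases b with
    | false => exact Or.inr h1
    | true => exact Or.inl h1
  obtain ⟨-, -, -, -, -, -, hE⟩ := gXY h hG
  have hordA : ∀ b, (W (0, b)).ord (gX α x v - algebraMap k N (r ^ 2 - 1)) = 2 :=
    fun b => (at_A h hG _ (hW0 b)).1
  have htr : Transcendental k (gX α x v) := by
    intro halg
    have h1 : IsAlgebraic k (gX α x v - algebraMap k N (r ^ 2 - 1)) := halg.sub (isAlgebraic_algebraMap _)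
    have h2 := LibHL77.Z1_ord_alg (W (0, true)) h1
    rw [hordA] at h2
    norm_num at h2
  have hyA : r * (1 - r ^ 2) ≠ 0 := mul_ne_zero hr0 hr1
  have h8 : (8 : k) ≠ 0 := by norm_num
  have hyB : 8 * r * (r ^ 2 - 1) ≠ 0 := by
    refine mul_ne_zero (mul_ne_zero h8 hr0) fun h0 => hr1 ?_
    linear_combination -h0
  have hE' : gY α x v ^ 2 = gX α x v ^ 3 + algebraMap k N (Er r).a₂ * gX α x v ^ 2 +
      algebraMap k N (Er r).a₄ * gX α x v + algebraMap k N (Er r).a₆ := by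
    change _ = _ + algebraMap k N 9 * _ + algebraMap k N (24 * (1 - r ^ 2)) * _ +
      algebraMap k N (16 * (1 - r ^ 2) ^ 2)
    rw [map_ofNat]
    exact hE
  obtain ⟨gA, hgA, hA'⟩ := ell_fun (Er r) rfl rfl hA hyA m hmA htr hE'
  obtain ⟨gB, hgB, hB'⟩ := ell_fun (Er r) rfl rfl hBn hyB m hmB htr hE'
  -- not both
  have hAB : ∀ w : Place k N, w.Zer (gX α x v - algebraMap k N (r ^ 2 - 1)) →
      ¬ w.Zer (gX α x v - algebraMap k N (4 * (r ^ 2 - 1))) := by
    intro w h1 h2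
    have h3 := Place.val_unique h1 h2
    apply hr1
    have h4 : (3 : k) * (1 - r ^ 2) = 0 := by linear_combination h3
    exact (mul_eq_zero.1 h4).resolve_left (by norm_num)
  have hord : ∀ w : Place k N, w.ord (gA / gB) = w.ord gA - w.ord gB := fun w => w.ord_div _ _ hgA hgB
  have hzer : ∀ {w : Place k N} {f : N} {n : ℤ}, w.ord f = n → 0 < n → w.Zer f := fun h1 h2 => Or.inr (by omega)
  have hval0 : ∀ b, (W (0, b)).ord (gA / gB) = 2 * m := by
    intro b
    have h1 := at_A h hG _ (hW0 b)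
    have h2 : (W (0, b)).Zer (gX α x v - algebraMap k N (r ^ 2 - 1)) := hzer h1.1 (by norm_num)
    have h3 := (hA' (W (0, b))).2.1 h2 h1.2
    have h4 := (hB' (W (0, b))).1 (Place.reg_of_val h2) (fun h5 => hAB _ h2 h5.1)
    rw [hord, h3, h4, h1.1]
    ring
  have hval1 : ∀ (i : Fin 3) b, i ≠ 0 → (W (i, b)).ord (gA / gB) = -m := by
    intro i b hi
    obtain ⟨h0, h00⟩ := hW1 i b hi
    have h1 := at_B h hζ hG _ (i : ℕ) h0 h00
    have h2 : (W (i, b)).Zer (gX α x v - algebraMap k N (4 * (r ^ 2 - 1))) := hzer h1.1 (by norm_num)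
    have h3 := (hB' (W (i, b))).2.1 h2 h1.2
    have h4 := (hA' (W (i, b))).1 (Place.reg_of_val h2) (fun h5 => hAB _ h5.1 h2)
    rw [hord, h3, h4, h1.1]
    ring
  have hout : ∀ w : Place k N, (∀ p, w ≠ W p) → w.ord (gA / gB) = 0 := by
    intro w hw
    have hnot : ∀ p : Fin 3 × Bool, ¬ Ctr w x v (tau (ζ ^ (p.1 : ℕ)) (pB p.2)) := fun p hp => hw p (hWu p w hp)
    rw [hord]
    by_cases hreg : w.Reg (gX α x v)
    · have h1 := (hA' w).1 hreg (by
        rintro ⟨h2, h3⟩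
        rcases fib_A h hG w h2 h3 with h4 | h4
        · exact hnot (0, true) (by
            have h5 : tau (ζ ^ ((0 : Fin 3) : ℕ)) (pB true) = (pB true : Fin 2 → Option k) := htau0 _
            change Ctr w x v (tau (ζ ^ ((0 : Fin 3) : ℕ)) (pB true))
            rw [h5]
            exact h4)
        · exact hnot (0, false) (by
            have h5 : tau (ζ ^ ((0 : Fin 3) : ℕ)) (pB false) = (pB false : Fin 2 → Option k) := htau0 _
            change Ctr w x v (tau (ζ ^ ((0 : Fin 3) : ℕ)) (pB false))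
            rw [h5]
            exact h4))
      have h2 := (hB' w).1 hreg (by
        rintro ⟨h2, h3⟩
        obtain ⟨i, hi, h4⟩ := fib_B h hζ hG w h2 h3
        have hi3 : i < 3 := by omega
        rcases h4 with h4 | h4
        · exact hnot (⟨i, hi3⟩, true) h4
        · exact hnot (⟨i, hi3⟩, false) h4)
      rw [h1, h2, sub_zero]
    · have h1 := (hA' w).2.2 hreg
      have h2 := (hB' w).2.2 hreg
      omega
  exact ⟨m, N, inferInstance, inferInstance, x, v, gA / gB, W, hm, hG, div_ne_zero hgA hgB, hWinj, hW, hval0,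
    hval1, hout⟩

/-- the relation between the classes -/
private theorem fam_rel [IsAlgClosed k] [CharZero k] {α ζ : k} (h : (fam α).Good) (hζ : IsPrimitiveRoot ζ 3)
    (hB : TorsB (rr α)) (Pc : ℕ → CH (fam α) 1 0)
    (hPc : ∀ i : ℕ, Pc i = cls (fam α) 0 (pt1 (tau (ζ ^ i) (pB true : Fin 2 → Option k))) +
      cls (fam α) 0 (pt1 (tau (ζ ^ i) (pB false : Fin 2 → Option k)))) :
    ∃ m : ℕ, 0 < m ∧ (2 * m : ℤ) • Pc 0 + (-m : ℤ) • Pc 1 + (-m : ℤ) • Pc 2 = 0 := by
  obtain ⟨m, N, _, _, x, v, g, W, hm, hG, hg, hWinj, hW, hval0, hval1, hout⟩ := fam_fun h hζ hB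
  have hF : FunF k 1 N := (genC_funF h hG).1
  refine ⟨m, hm, ?_⟩
  choose q hq using fun w : Place k N => spP_exists w (pt1 ![some x, some v])
  have hrel := div_rel (fam α) 1 0 hF (pt1 ![some x, some v]) (fun _ => hG.on) g hg
    (Finset.univ.image W) q hq (fun w _ => LibHL77.res_finite hF w) (fun w hw h0 _ =>
      absurd (hout w fun p hp => hw (Finset.mem_image.2 ⟨p, Finset.mem_univ _, hp.symm⟩)) h0)
  rw [Finset.sum_image (fun p _ p' _ hp => hWinj hp)] at hrel
  have hcls : ∀ p, cls (fam α) 0 (q (W p)) = cls (fam α) 0 (pt1 (tau (ζ ^ (p.1 : ℕ)) (pB p.2))) :=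
    fun p => cls_ctr h hG (W p) (hW p) _ (hq _)
  rw [Fintype.sum_prod_type, Fin.sum_univ_three, Fintype.sum_bool, Fintype.sum_bool, Fintype.sum_bool] at hrel
  rw [hval0, hval0, hval1 1 _ (by decide), hval1 1 _ (by decide), hval1 2 _ (by decide),
    hval1 2 _ (by decide), hcls, hcls, hcls, hcls, hcls, hcls] at hrel
  rw [hPc, hPc, hPc, zsmul_add, zsmul_add, zsmul_add]
  exact hrel

private theorem exf {A : Type} (f : ℕ → A) : ∃ P : ℕ → A, ∀ i, P i = f i := ⟨f, fun _ => rfl⟩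

private theorem fam_alg {A : Type} [AddCommGroup A] (a b c : A) (m : ℤ) (h1 : (2 * m) • a + (-m) • b + (-m) • c = 0)
    (h2 : (2 * m) • b + (-m) • c + (-m) • a = 0) : (3 * m) • (a - b) = 0 := by
  have h3 : (3 * m) • (a - b) = ((2 * m) • a + (-m) • b + (-m) • c) - ((2 * m) • b + (-m) • c + (-m) • a) := by
    module
  rw [h3, h1, h2, sub_zero]

theorem fam_conv [IsAlgClosed k] [CharZero k] {α ζ : k} (h : (fam α).Good) (hζ : IsPrimitiveRoot ζ 3)
    (hB : TorsB (rr α)) : IsOfFinAddOrder (dz (fam α) ζ Q0 + dz (fam α) ζ Qinf) := by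
  have hζ3 : ζ ^ 3 = 1 := hζ.pow_eq_one
  obtain ⟨Pc, hPc⟩ := exf (fun i : ℕ => cls (fam α) 0 (pt1 (tau (ζ ^ i) (pB true : Fin 2 → Option k))) +
      cls (fam α) 0 (pt1 (tau (ζ ^ i) (pB false : Fin 2 → Option k))))
  obtain ⟨m, hm, hrel1⟩ := fam_rel h hζ hB Pc hPc
  -- apply the automorphism
  obtain ⟨Γ, hΓ⟩ := exists_tw (fam α) h 0 (m := 1) (fun _ => ζ) (fun _ => hζ3)
  have hk0 : FunF k 0 k := LibHL77.funF_zero.2 inferInstance
  have htw : ∀ (i : ℕ) (b : Bool), Γ (cls (fam α) 0 (pt1 (tau (ζ ^ i) (pB b : Fin 2 → Option k)))) =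
      cls (fam α) 0 (pt1 (tau (ζ ^ (i + 1)) (pB b : Fin 2 → Option k))) := by
    intro i b
    have hon : On ((fam α).over k) (pt1 (tau (ζ ^ i) (pB b) : Fin 2 → Option k)) := fun _ => onB hζ3 i b
    rw [hΓ k (pt1 (tau (ζ ^ i) (pB b))) hk0 hon]
    congr 1
    funext j e
    fin_cases e
    · rfl
    · change (((pB b : Fin 2 → Option k) 1).map fun v => algebraMap k k (ζ ^ i) * v).map
        (fun v => algebraMap k k ζ * v) = ((pB b : Fin 2 → Option k) 1).map
          fun v => algebraMap k k (ζ ^ (i + 1)) * v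
      rw [Option.map_map]
      congr 1
      funext v
      simp only [Function.comp_apply, Algebra.algebraMap_self, RingHom.id_apply]
      ring
  have hΓ0 : Γ (Pc 0) = Pc 1 := by
    rw [hPc, hPc, map_add, htw, htw]
  have hΓ1 : Γ (Pc 1) = Pc 2 := by
    rw [hPc, hPc, map_add, htw, htw]
  have hΓ2 : Γ (Pc 2) = Pc 0 := by
    have h1 : ζ ^ (2 + 1) = ζ ^ 0 := by rw [hζ3, pow_zero]
    rw [hPc, hPc, map_add, htw, htw, h1]
  have hrel2 : (2 * m : ℤ) • Pc 1 + (-m : ℤ) • Pc 2 + (-m : ℤ) • Pc 0 = 0 := by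
    have h1 := congrArg Γ hrel1
    rw [map_add, map_add, map_zsmul, map_zsmul, map_zsmul, hΓ0, hΓ1, hΓ2, map_zero] at h1
    exact h1
  have htau0 : ∀ Q : Fin 2 → Option k, tau (ζ ^ 0) Q = Q := by
    intro Q
    funext j
    fin_cases j
    · rfl
    · change (Q 1).map (fun v => algebraMap k k (ζ ^ 0) * v) = Q 1
      have h1 : (fun v : k => algebraMap k k (ζ ^ 0) * v) = id := by
        funext v
        simp
      rw [h1, Option.map_id]
      rfl
  have h3 := fam_alg _ _ _ _ hrel1 hrel2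
  have hP0 : Pc 0 = cls (fam α) 0 (pt1 (Q0 : Fin 2 → Option k)) + cls (fam α) 0 (pt1 (Qinf : Fin 2 → Option k)) := by
    rw [hPc, htau0, htau0]
    rfl
  have hP1 : Pc 1 = cls (fam α) 0 (pt1 (tau ζ (Q0 : Fin 2 → Option k))) +
      cls (fam α) 0 (pt1 (tau ζ (Qinf : Fin 2 → Option k))) := by
    rw [hPc, pow_one]
    rfl
  have hdz : dz (fam α) ζ Q0 + dz (fam α) ζ Qinf = Pc 0 - Pc 1 := by
    rw [hP0, hP1]
    exact sub_add_sub_comm _ _ _ _
  rw [isOfFinAddOrder_iff_nsmul_eq_zero]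
  refine ⟨3 * m, by omega, ?_⟩
  rw [hdz, ← natCast_zsmul]
  push_cast
  exact h3

end Pool.Agent.LibCW77
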