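import Pool.Agent.LibCW77.Defs9

/-!
The symmetric curves `v ^ 3 ∏ (x + a_i) = ∏ (x - a_i)` and the family `a = (1, α, 1 / α)`.
-/

open scoped Classical
open Polynomial

namespace Pool.Agent.LibCW77

open Pool.Agent.LibBH2
open Pool.Agent.LibCHd (VR RF Red FunF)

variable {k : Type} [Field k]

/-- the curve `v ^ 3 ∏ (x + a_i) = ∏ (x - a_i)` -/
def symD (a : Fin 3 → k) : Dat k := ⟨3, a, fun i => -a i⟩

/-- the curve `v ^ 3 (x + 1) (x + α) (x + 1 / α) = (x - 1) (x - α) (x - 1 / α)` -/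
def fam (α : k) : Dat k := symD ![1, α, α⁻¹]

/-- the parameter `r = - ((α - 1) / (α + 1)) ^ 2` -/
def rr (α : k) : k := -((α - 1) / (α + 1)) ^ 2

/-- the elliptic curve `y ^ 2 = x ^ 3 + (3 x + c) ^ 2`, `c = 4 (1 - r ^ 2)` -/
def Er (r : k) : WeierstrassCurve.Affine k := ⟨0, 9, 0, 24 * (1 - r ^ 2), 16 * (1 - r ^ 2) ^ 2⟩

/-- `B = (4 (r ^ 2 - 1), 8 r (r ^ 2 - 1))` is a torsion point of the elliptic curve -/
def TorsB (r : k) : Prop :=
  ∃ h : (Er r).Nonsingular (4 * (r ^ 2 - 1)) (8 * r * (r ^ 2 - 1)),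
    IsOfFinAddOrder (WeierstrassCurve.Affine.Point.some _ _ h)

/-- the points `(0, -1)` and `(∞, 1)` -/
def Q0 : Fin 2 → Option k := ![some 0, some (-1)]

def Qinf : Fin 2 → Option k := ![none, some 1]

end Pool.Agent.LibCW77
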