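import Pool.Agent.LibCW77.FEDefs

/-!
[CW77 FE1] The group law of `Er r : y ^ 2 = x ^ 3 + (3 x + c) ^ 2`, `c = cE r = 4 (1 - r ^ 2)`.

Plan. `WeierstrassCurve.Affine.equation_iff`, `nonsingular_iff'` or `nonsingular_iff`, `unfold Er cE`.
`fe_ns`: partial derivatives: if `2 y = 0` and `3 x ^ 2 + 18 x + 6 c = 0` and `x ^ 3 + (3 x + c) ^ 2 = 0` then
`c = 0` or `c = 4`: `y = 0`; from `x ^ 2 + 6 x + 2 c = 0`: `x ^ 3 + 9 x ^ 2 + 6 c x + c ^ 2 = 0` reduces to
(divide: `x ^ 3 = - 6 x ^ 2 - 2 c x`) `3 x ^ 2 + 4 c x + c ^ 2 = 0 = (3 x + c)(x + c)`, so `x = - c / 3` or `x = - c`;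
`x = - c`: `c ^ 2 - 4 c = 0`; `x = - c / 3`: `c ^ 2 / 9 = 0`. And `c ≠ 0` iff `r ^ 2 ≠ 1`, `c ≠ 4` iff `r ≠ 0`.
`fe_dbl`: `two_nsmul`, `WeierstrassCurve.Affine.Point.add_self_of_Y_ne` (or `add_some`, `add_self...`; `negY = - y`,
`y ≠ - y` as `2 y ≠ 0`), slope `= (3 x ^ 2 + 18 x + 6 c) / (2 y)` (`slope_of_Y_ne`), `addX = slope ^ 2 - 9 - 2 x`, and
`(3 x ^ 2 + 18 x + 6 c) ^ 2 - 4 (9 + 2 x) (x ^ 3 + (3 x + c) ^ 2) = x (x ^ 3 - 12 c x - 8 c ^ 2)` (`ring`). Existential
statements avoid dependent rewriting: prove equality of the `x` coordinates first, then `subst` / `congr`.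
`fe_three`: the point `(0, y)`, `y ^ 2 = c ^ 2`, `y ≠ 0`: slope `6 c / (2 y) = 3 c / y`, `x(2P) = 9 - 9 - 0 = 0`,
`y(2P) = - (y + (3 c / y)(0 - 0)) = - y`, so `2 P = - P`.
-/

open scoped Classical
open Polynomial

namespace Pool.Agent.LibCW77

open Pool.Agent.LibBH2
open Pool.Agent.LibCHd (VR RF Red FunF)

variable {k : Type} [Field k]

private theorem FE1_eqn {r x y : k} : (Er r).Equation x y ↔ y ^ 2 = x ^ 3 + (3 * x + cE r) ^ 2 := by
  rw [WeierstrassCurve.Affine.equation_iff]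
  unfold Er cE
  constructor
  · intro h
    linear_combination h
  · intro h
    linear_combination h

private theorem FE1_negY {r x y : k} : (Er r).negY x y = -y := by
  unfold WeierstrassCurve.Affine.negY Er
  ring

private theorem FE1_ne [CharZero k] {r x y : k} (hy : y ≠ 0) : y ≠ (Er r).negY x y := by
  rw [FE1_negY]
  intro h
  have h2 : (2 : k) * y = 0 := by linear_combination h
  rcases mul_eq_zero.1 h2 with h3 | h3
  · exact two_ne_zero h3
  · exact hy h3

private theorem FE1_tr {W : WeierstrassCurve.Affine k} {a b a' b' : k} (h : W.Nonsingular a b) (ha : a = a')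
    (hb : b = b') : ∃ h' : W.Nonsingular a' b',
      WeierstrassCurve.Affine.Point.some _ _ h = WeierstrassCurve.Affine.Point.some _ _ h' := by
  subst ha
  subst hb
  exact ⟨h, rfl⟩

theorem fe_eq {r x y : k} (h : (Er r).Nonsingular x y) : y ^ 2 = x ^ 3 + (3 * x + cE r) ^ 2 :=
  FE1_eqn.1 h.1

theorem fe_ns [CharZero k] {r x y : k} (h0 : r ≠ 0) (h1 : r ^ 2 ≠ 1) (h : y ^ 2 = x ^ 3 + (3 * x + cE r) ^ 2) :
    (Er r).Nonsingular x y := by
  rw [WeierstrassCurve.Affine.nonsingular_iff']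
  refine ⟨FE1_eqn.2 h, ?_⟩
  by_contra hcon
  push Not at hcon
  obtain ⟨ha, hb⟩ := hcon
  have hc0 : cE r ≠ 0 := by
    unfold cE
    exact mul_ne_zero (by norm_num) (sub_ne_zero.2 (Ne.symm h1))
  have hc4 : cE r - 4 ≠ 0 := by
    intro h4
    unfold cE at h4
    have h5 : (4 : k) * r ^ 2 = 0 := by linear_combination -h4
    rcases mul_eq_zero.1 h5 with h6 | h6
    · exact absurd h6 (by norm_num)
    · exact h0 (pow_eq_zero_iff (two_ne_zero) |>.1 h6)
  have hy : y = 0 := by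
    have h2 : (2 : k) * y = 0 := by
      unfold Er at hb
      linear_combination hb
    rcases mul_eq_zero.1 h2 with h3 | h3
    · exact absurd h3 two_ne_zero
    · exact h3
  have hx : x ^ 2 + 6 * x + 2 * cE r = 0 := by
    have h2 : (3 : k) * (x ^ 2 + 6 * x + 2 * cE r) = 0 := by
      unfold Er at ha
      unfold cE
      linear_combination -ha
    rcases mul_eq_zero.1 h2 with h3 | h3
    · exact absurd h3 (by norm_num)
    · exact h3
  subst hy
  have h2 : (3 * x + cE r) * (x + cE r) = 0 := by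
    linear_combination -h - x * hx
  rcases mul_eq_zero.1 h2 with h3 | h3
  · have h4 : (cE r) ^ 2 = 0 := by
      linear_combination 9 * hx - (3 * x + 18 - cE r) * h3
    exact hc0 (pow_eq_zero_iff (two_ne_zero) |>.1 h4)
  · have h4 : cE r * (cE r - 4) = 0 := by
      linear_combination hx - (x + 6 - cE r) * h3
    rcases mul_eq_zero.1 h4 with h5 | h5
    · exact hc0 h5
    · exact hc4 h5

theorem fe_neg {r x y : k} (h : (Er r).Nonsingular x y) :
    ∃ h' : (Er r).Nonsingular x (-y),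
      -WeierstrassCurve.Affine.Point.some _ _ h = WeierstrassCurve.Affine.Point.some _ _ h' := by
  rw [WeierstrassCurve.Affine.Point.neg_some]
  exact FE1_tr _ rfl FE1_negY

theorem fe_dbl [CharZero k] {r x y : k} (h : (Er r).Nonsingular x y) (hy : y ≠ 0) :
    ∃ h' : (Er r).Nonsingular
        (x * (x ^ 3 - 12 * cE r * x - 8 * cE r ^ 2) / (4 * (x ^ 3 + (3 * x + cE r) ^ 2)))
        (-(y + (3 * x ^ 2 + 18 * x + 6 * cE r) / (2 * y) *
          (x * (x ^ 3 - 12 * cE r * x - 8 * cE r ^ 2) / (4 * (x ^ 3 + (3 * x + cE r) ^ 2)) - x))),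
      2 • WeierstrassCurve.Affine.Point.some _ _ h = WeierstrassCurve.Affine.Point.some _ _ h' := by
  have hne := FE1_ne (r := r) (x := x) hy
  have he := fe_eq h
  have h2 : (2 : k) ≠ 0 := two_ne_zero
  have hsl : (Er r).slope x x y y = (3 * x ^ 2 + 18 * x + 6 * cE r) / (2 * y) := by
    rw [WeierstrassCurve.Affine.slope_of_Y_ne rfl hne, FE1_negY]
    unfold Er cE
    congr 1
    · ring
    · ring
  have hX : (Er r).addX x x ((Er r).slope x x y y) =
      x * (x ^ 3 - 12 * cE r * x - 8 * cE r ^ 2) / (4 * (x ^ 3 + (3 * x + cE r) ^ 2)) := by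
    rw [hsl, ← he]
    unfold WeierstrassCurve.Affine.addX
    have e1 : (Er r).a₁ = 0 := rfl
    have e2 : (Er r).a₂ = 9 := rfl
    rw [e1, e2]
    field_simp
    linear_combination (-16 * (9 + 2 * x)) * he
  rw [two_nsmul, WeierstrassCurve.Affine.Point.add_self_of_Y_ne hne]
  refine FE1_tr _ hX ?_
  unfold WeierstrassCurve.Affine.addY WeierstrassCurve.Affine.negAddY
  rw [FE1_negY, hX, hsl]
  ring

theorem fe_dbl0 [CharZero k] {r x y : k} (h : (Er r).Nonsingular x y) (hy : y = 0) :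
    2 • WeierstrassCurve.Affine.Point.some _ _ h = 0 := by
  rw [two_nsmul]
  refine WeierstrassCurve.Affine.Point.add_self_of_Y_eq ?_
  rw [FE1_negY, hy, neg_zero]

theorem fe_three [CharZero k] {r y : k} (h : (Er r).Nonsingular 0 y) (hc : cE r ≠ 0) :
    3 • WeierstrassCurve.Affine.Point.some _ _ h = 0 := by
  have he := fe_eq h
  have hy : y ≠ 0 := by
    rintro rfl
    have h1 : (cE r) ^ 2 = 0 := by linear_combination -he
    exact hc (pow_eq_zero_iff (two_ne_zero) |>.1 h1)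
  obtain ⟨h', e⟩ := fe_dbl h hy
  obtain ⟨h'', e'⟩ := FE1_tr h' (a' := 0) (b' := -y) (by ring) (by
    have h0 : (0 : k) * (0 ^ 3 - 12 * cE r * 0 - 8 * cE r ^ 2) / (4 * (0 ^ 3 + (3 * 0 + cE r) ^ 2)) = 0 := by
      rw [zero_mul, zero_div]
    rw [h0]
    ring)
  obtain ⟨h3, e3⟩ := fe_neg h
  rw [succ_nsmul, e, e', ← e3]
  exact neg_add_cancel _

end Pool.Agent.LibCW77
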