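import Pool.Agent.LibCW77.FE1

/-!
[CW77 FE2] The points `B`, `2 B`, `4 B`.

Plan. Cite FE1. `B = (4 (r ^ 2 - 1), 8 r (r ^ 2 - 1)) = (- c, - 2 r c)`: equation by `ring` (`unfold cE`).
`x (x ^ 3 - 12 c x - 8 c ^ 2) / (4 y ^ 2)` at `x = - c`, `y ^ 2 = 4 r ^ 2 c ^ 2`:
`- c (- c ^ 3 + 12 c ^ 2 - 8 c ^ 2) / (16 r ^ 2 c ^ 2) = c ^ 2 (c - 4) / (16 r ^ 2) = - c / 4 = r ^ 2 - 1` (`c - 4 = - 4 r ^ 2`). The `y` coordinate
from `fe_dbl` is `r (r ^ 2 - 1)` (slope `3 r`). `4 B`: `x = (r ^ 2 - 1)(r ^ 2 - 81) / (4 r ^ 2)` (slope at `2 B`: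
`3 (r ^ 2 - 3) / (2 r)`). `field_simp; ring`.
-/

open scoped Classical
open Polynomial

namespace Pool.Agent.LibCW77

open Pool.Agent.LibBH2
open Pool.Agent.LibCHd (VR RF Red FunF)

variable {k : Type} [Field k]

private theorem FE2_tr {W : WeierstrassCurve.Affine k} {a b a' b' : k} (h : W.Nonsingular a b) (ha : a = a')
    (hb : b = b') : ∃ h' : W.Nonsingular a' b',
      WeierstrassCurve.Affine.Point.some _ _ h = WeierstrassCurve.Affine.Point.some _ _ h' := by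
  subst ha
  subst hb
  exact ⟨h, rfl⟩

theorem fe_B [CharZero k] {r : k} (h0 : r ≠ 0) (h1 : r ^ 2 ≠ 1) :
    (Er r).Nonsingular (4 * (r ^ 2 - 1)) (8 * r * (r ^ 2 - 1)) := by
  refine fe_ns h0 h1 ?_
  unfold cE
  ring

theorem fe_2B [CharZero k] {r : k} (h0 : r ≠ 0) (h1 : r ^ 2 ≠ 1)
    (h : (Er r).Nonsingular (4 * (r ^ 2 - 1)) (8 * r * (r ^ 2 - 1))) :
    ∃ h' : (Er r).Nonsingular (r ^ 2 - 1) (r * (r ^ 2 - 1)),
      2 • WeierstrassCurve.Affine.Point.some _ _ h = WeierstrassCurve.Affine.Point.some _ _ h' := by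
  have h1' : r ^ 2 - 1 ≠ 0 := sub_ne_zero.2 h1
  have hy : 8 * r * (r ^ 2 - 1) ≠ 0 := mul_ne_zero (mul_ne_zero (by norm_num) h0) h1'
  obtain ⟨h', e⟩ := fe_dbl h hy
  have hden : (4 * (r ^ 2 - 1)) ^ 3 + (3 * (4 * (r ^ 2 - 1)) + cE r) ^ 2 = 64 * r ^ 2 * (r ^ 2 - 1) ^ 2 := by
    unfold cE
    ring
  have hX : 4 * (r ^ 2 - 1) * ((4 * (r ^ 2 - 1)) ^ 3 - 12 * cE r * (4 * (r ^ 2 - 1)) - 8 * cE r ^ 2) /
      (4 * ((4 * (r ^ 2 - 1)) ^ 3 + (3 * (4 * (r ^ 2 - 1)) + cE r) ^ 2)) = r ^ 2 - 1 := by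
    rw [hden, div_eq_iff (mul_ne_zero (by norm_num) (mul_ne_zero (mul_ne_zero (by norm_num) (pow_ne_zero 2 h0))
      (pow_ne_zero 2 h1')))]
    unfold cE
    ring
  obtain ⟨h'', e'⟩ := FE2_tr h' hX (b' := r * (r ^ 2 - 1)) (by
    rw [hX]
    have h8 : (3 * (4 * (r ^ 2 - 1)) ^ 2 + 18 * (4 * (r ^ 2 - 1)) + 6 * cE r) / (2 * (8 * r * (r ^ 2 - 1))) =
        3 * r := by
      rw [div_eq_iff (mul_ne_zero (by norm_num) hy)]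
      unfold cE
      ring
    rw [h8]
    ring)
  exact ⟨h'', e.trans e'⟩

theorem fe_4B [CharZero k] {r : k} (h0 : r ≠ 0) (h1 : r ^ 2 ≠ 1)
    (h : (Er r).Nonsingular (4 * (r ^ 2 - 1)) (8 * r * (r ^ 2 - 1))) :
    ∃ (y : k) (h' : (Er r).Nonsingular ((r ^ 2 - 1) * (r ^ 2 - 81) / (4 * r ^ 2)) y),
      4 • WeierstrassCurve.Affine.Point.some _ _ h = WeierstrassCurve.Affine.Point.some _ _ h' := by
  have h1' : r ^ 2 - 1 ≠ 0 := sub_ne_zero.2 h1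
  obtain ⟨h2, e2⟩ := fe_2B h0 h1 h
  have hy : r * (r ^ 2 - 1) ≠ 0 := mul_ne_zero h0 h1'
  obtain ⟨h4, e4⟩ := fe_dbl h2 hy
  have hden : (r ^ 2 - 1) ^ 3 + (3 * (r ^ 2 - 1) + cE r) ^ 2 = r ^ 2 * (r ^ 2 - 1) ^ 2 := by
    unfold cE
    ring
  have hX : (r ^ 2 - 1) * ((r ^ 2 - 1) ^ 3 - 12 * cE r * (r ^ 2 - 1) - 8 * cE r ^ 2) /
      (4 * ((r ^ 2 - 1) ^ 3 + (3 * (r ^ 2 - 1) + cE r) ^ 2)) = (r ^ 2 - 1) * (r ^ 2 - 81) / (4 * r ^ 2) := by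
    have h5 : (4 : k) ≠ 0 := by norm_num
    rw [hden, div_eq_div_iff (mul_ne_zero h5 (mul_ne_zero (pow_ne_zero 2 h0) (pow_ne_zero 2 h1')))
      (mul_ne_zero h5 (pow_ne_zero 2 h0))]
    unfold cE
    ring
  obtain ⟨h6, e6⟩ := FE2_tr h4 hX rfl
  refine ⟨_, h6, ?_⟩
  have h7 : 4 • WeierstrassCurve.Affine.Point.some _ _ h = 2 • (2 • WeierstrassCurve.Affine.Point.some _ _ h) := by
    rw [← mul_nsmul]
  rw [h7, e2, e4, e6]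

/-- for `r ^ 2 = 1` the point `(0, 0)` is singular -/
theorem torsB_r {r : k} [CharZero k] (h : TorsB r) : r ^ 2 ≠ 1 := by
  intro hr
  obtain ⟨h1, -⟩ := h
  rw [WeierstrassCurve.Affine.nonsingular_iff'] at h1
  have h2 := h1.2
  simp only [Er, hr, sub_self, mul_zero, add_zero, ne_eq, not_true_eq_false, or_self, zero_pow two_ne_zero] at h2

end Pool.Agent.LibCW77
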