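import Pool.Agent.LibCW77.FE2

/-!
[CW77 FE3] Infinite order when `v_2(r) ≠ 0`.

Plan. Cite FE1, FE2 (`r ≠ 0`, `r ^ 2 ≠ 1` because `padicValRat 2 r ≠ 0`). Let `s = padicValRat 2 r`, `m = |s|`. Claim
by induction on `j`: there are `x : ℚ`, `y : k` and `h` with `2 ^ (j + 2) • B = some (x : k) y h` and
`padicValRat 2 x = - 2 - 2 m - 2 j`. `j = 0`: `fe_4B`, `x = (r ^ 2 - 1)(r ^ 2 - 81) / (4 r ^ 2)`; if `s > 0` the two factors
are odd (`padicValRat` of `r ^ 2 - 1` is `0`), if `s < 0` they both have valuation `2 s`; result `- 2 - 2 m` in both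
cases (`padicValRat.mul`, `.div`, `.pow`, and for sums: `padicValRat.add_eq_of_lt` or
`padicValRat.add_eq_min`). Step: with `v = padicValRat 2 x ≤ - 2 - 2 m` and `γ = padicValRat 2 c ≥ 2 - 2 m`
(`c = 4 (1 - r ^ 2)`, over `ℚ`): `v(x ^ 3 - 12 c x - 8 c ^ 2) = 3 v` since `2 + γ + v > 3 v`, `3 + 2 γ > 3 v`;
`v(x ^ 3 + (3 x + c) ^ 2) = 3 v` since `v(3 x + c) = v` and `2 v > 3 v`; so the doubling formula gives
`4 v - 2 - 3 v = v - 2`; `y ≠ 0` because `y ^ 2 = x ^ 3 + (3 x + c) ^ 2 ≠ 0`. Put the purely rational part in a private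
lemma (`FE3_val`) about `x r : ℚ`; casts: `(x : k)` and `cE (r : k) = ((cE r : ℚ) : k)`, `push_cast`, `simp [cE]`.
End: the points `2 ^ (j + 2) • B` are different (their `x` are different, `Rat.cast_injective`), so `B` has infinite
order (`IsOfFinAddOrder` gives finitely many multiples: `isOfFinAddOrder_iff_nsmul_eq_zero`, and the map
`j ↦ 2 ^ (j + 2) • B` takes values in the finite set `{i • B | i < n}`, or
`Set.infinite_range_of_injective`).
-/

open scoped Classical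
open Polynomial

namespace Pool.Agent.LibCW77

open Pool.Agent.LibBH2
open Pool.Agent.LibCHd (VR RF Red FunF)

variable {k : Type} [Field k]

private theorem FE3_add {q t : ℚ} (hq : q ≠ 0) (ht : padicValRat 2 q < padicValRat 2 t) :
    q + t ≠ 0 ∧ padicValRat 2 (q + t) = padicValRat 2 q := by
  by_cases h0 : t = 0
  · subst h0
    rw [add_zero]
    exact ⟨hq, rfl⟩
  · have h1 : q + t ≠ 0 := by
      intro h
      have h2 : t = -q := by linarith
      rw [h2, padicValRat.neg] at ht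
      exact lt_irrefl _ ht
    exact ⟨h1, padicValRat.add_eq_of_lt h1 hq h0 ht⟩

private theorem FE3_ne {q : ℚ} (h : padicValRat 2 q ≠ 0) : q ≠ 0 := by
  rintro rfl
  simp at h

private theorem FE3_2 : padicValRat 2 (2 : ℚ) = 1 := by
  have := padicValRat.self (p := 2) (by norm_num)
  exact_mod_cast this

private theorem FE3_odd {n : ℕ} (h : n % 2 = 1) : padicValRat 2 (n : ℚ) = 0 := by
  rw [padicValRat.of_nat, padicValNat.eq_zero_of_not_dvd (by omega)]
  rfl

private theorem FE3_3 : padicValRat 2 (3 : ℚ) = 0 := by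
  exact_mod_cast FE3_odd (n := 3) (by norm_num)

private theorem FE3_4 : padicValRat 2 (4 : ℚ) = 2 := by
  rw [show (4 : ℚ) = 2 ^ 2 by norm_num, padicValRat.pow, FE3_2]
  norm_num

private theorem FE3_8 : padicValRat 2 (8 : ℚ) = 3 := by
  rw [show (8 : ℚ) = 2 ^ 3 by norm_num, padicValRat.pow, FE3_2]
  norm_num

private theorem FE3_12 : padicValRat 2 (12 : ℚ) = 2 := by
  rw [show (12 : ℚ) = 4 * 3 by norm_num, padicValRat.mul (by norm_num) (by norm_num), FE3_4,
    FE3_3]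
  norm_num

private theorem FE3_one {n : ℕ} (hn : n % 2 = 1) {r : ℚ} (h : padicValRat 2 r ≠ 0) :
    r ^ 2 - (n : ℚ) ≠ 0 ∧
      padicValRat 2 (r ^ 2 - (n : ℚ)) = if 0 < padicValRat 2 r then 0 else 2 * padicValRat 2 r := by
  have hr : r ≠ 0 := FE3_ne h
  have hr2 : padicValRat 2 (r ^ 2) = 2 * padicValRat 2 r := by
    rw [padicValRat.pow]
    norm_num
  have hn0 : (n : ℚ) ≠ 0 := by
    have : n ≠ 0 := by rintro rfl; simp at hn
    exact_mod_cast this
  split_ifs with hs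
  · have h1 := FE3_add (q := -(n : ℚ)) (t := r ^ 2) (neg_ne_zero.2 hn0) (by
      rw [padicValRat.neg, FE3_odd hn, hr2]
      linarith)
    rw [padicValRat.neg, FE3_odd hn] at h1
    rw [show r ^ 2 - (n : ℚ) = -(n : ℚ) + r ^ 2 by ring]
    exact h1
  · have hs' : padicValRat 2 r < 0 := lt_of_le_of_ne (not_lt.1 hs) h
    have h1 := FE3_add (q := r ^ 2) (t := -(n : ℚ)) (pow_ne_zero 2 hr) (by
      rw [padicValRat.neg, FE3_odd hn, hr2]
      linarith)
    rw [hr2] at h1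
    rw [sub_eq_add_neg]
    exact h1

/-- the start -/
private theorem FE3_base {r : ℚ} (h : padicValRat 2 r ≠ 0) :
    padicValRat 2 ((r ^ 2 - 1) * (r ^ 2 - 81) / (4 * r ^ 2)) = -2 - 2 * |padicValRat 2 r| := by
  have hr : r ≠ 0 := FE3_ne h
  obtain ⟨a1, b1⟩ := FE3_one (n := 1) (by norm_num) h
  obtain ⟨a2, b2⟩ := FE3_one (n := 81) (by norm_num) h
  push_cast at a1 b1 a2 b2
  rw [padicValRat.div (mul_ne_zero a1 a2) (by positivity), padicValRat.mul a1 a2,
    padicValRat.mul (by norm_num) (pow_ne_zero 2 hr), padicValRat.pow, FE3_4, b1, b2]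
  push_cast
  split_ifs with hs
  · rw [abs_of_pos hs]
    ring
  · rw [abs_of_neg (lt_of_le_of_ne (not_lt.1 hs) h)]
    ring

private theorem FE3_c {r : ℚ} (h : padicValRat 2 r ≠ 0) :
    4 * (1 - r ^ 2) ≠ 0 ∧ 2 - 2 * |padicValRat 2 r| ≤ padicValRat 2 (4 * (1 - r ^ 2)) := by
  obtain ⟨a1, b1⟩ := FE3_one (n := 1) (by norm_num) h
  push_cast at a1 b1
  have e : 1 - r ^ 2 = -(r ^ 2 - 1) := by ring
  have a2 : 1 - r ^ 2 ≠ 0 := by
    rw [e]
    exact neg_ne_zero.2 a1
  refine ⟨mul_ne_zero (by norm_num) a2, ?_⟩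
  rw [padicValRat.mul (by norm_num) a2, FE3_4, e, padicValRat.neg, b1]
  split_ifs with hs
  · rw [abs_of_pos hs]
    linarith
  · rw [abs_of_neg (lt_of_le_of_ne (not_lt.1 hs) h)]
    linarith

/-- one doubling -/
private theorem FE3_step {c x : ℚ} {m : ℤ} (hm : 0 ≤ m) (hc : c ≠ 0)
    (hcv : 2 - 2 * m ≤ padicValRat 2 c) (hx : padicValRat 2 x ≤ -2 - 2 * m) :
    x ^ 3 + (3 * x + c) ^ 2 ≠ 0 ∧
    padicValRat 2 (x * (x ^ 3 - 12 * c * x - 8 * c ^ 2) / (4 * (x ^ 3 + (3 * x + c) ^ 2))) =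
      padicValRat 2 x - 2 := by
  have hx0 : x ≠ 0 := FE3_ne (by linarith [hx, hm] : padicValRat 2 x < 0).ne
  have v3 : padicValRat 2 (x ^ 3) = 3 * padicValRat 2 x := by
    rw [padicValRat.pow]
    norm_num
  have hx3 : x ^ 3 ≠ 0 := pow_ne_zero 3 hx0
  obtain ⟨a1, b1⟩ := FE3_add (q := x ^ 3) (t := -(12 * c * x)) hx3 (by
    rw [padicValRat.neg, padicValRat.mul (mul_ne_zero (by norm_num) hc) hx0,
      padicValRat.mul (by norm_num) hc, FE3_12, v3]
    linarith)
  obtain ⟨a2, b2⟩ := FE3_add (q := x ^ 3 + -(12 * c * x)) (t := -(8 * c ^ 2)) a1 (by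
    rw [b1, padicValRat.neg, padicValRat.mul (by norm_num) (pow_ne_zero 2 hc),
      padicValRat.pow c, FE3_8, v3]
    push_cast
    linarith)
  have h3x : (3 : ℚ) * x ≠ 0 := mul_ne_zero (by norm_num) hx0
  have v3x : padicValRat 2 (3 * x) = padicValRat 2 x := by
    rw [padicValRat.mul (by norm_num) hx0, FE3_3, zero_add]
  obtain ⟨a3, b3⟩ := FE3_add (q := 3 * x) (t := c) h3x (by
    rw [v3x]
    linarith)
  obtain ⟨a4, b4⟩ := FE3_add (q := x ^ 3) (t := (3 * x + c) ^ 2) hx3 (by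
    rw [padicValRat.pow (3 * x + c), b3, v3x, v3]
    push_cast
    linarith)
  have e : x ^ 3 - 12 * c * x - 8 * c ^ 2 = x ^ 3 + -(12 * c * x) + -(8 * c ^ 2) := by ring
  refine ⟨a4, ?_⟩
  rw [e, padicValRat.div (mul_ne_zero hx0 a2) (mul_ne_zero (by norm_num) a4),
    padicValRat.mul hx0 a2, padicValRat.mul (by norm_num) a4, b2, b1, b4, v3, FE3_4]
  ring

private theorem FE3_tr {r X X2 Y : k} (hX : X = X2) (h : (Er r).Nonsingular X Y) :
    ∃ h2 : (Er r).Nonsingular X2 Y,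
      WeierstrassCurve.Affine.Point.some _ _ h = WeierstrassCurve.Affine.Point.some _ _ h2 := by
  subst hX
  exact ⟨h, rfl⟩

theorem torsB_inf [CharZero k] {r : ℚ} (h : padicValRat 2 r ≠ 0) : ¬ TorsB (r : k) := by
  rintro ⟨hB, hfin⟩
  have hr : r ≠ 0 := FE3_ne h
  have h1q : r ^ 2 ≠ 1 := by
    have := (FE3_one (n := 1) (by norm_num) h).1
    push_cast at this
    exact sub_ne_zero.1 this
  have h0 : (r : k) ≠ 0 := by exact_mod_cast hr
  have h1 : (r : k) ^ 2 ≠ 1 := by exact_mod_cast h1q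
  obtain ⟨hc, hcv⟩ := FE3_c h
  have hcE : cE (r : k) = ((4 * (1 - r ^ 2) : ℚ) : k) := by
    unfold cE
    push_cast
    rfl
  have key : ∀ j : ℕ, ∃ (x : ℚ) (y : k) (h' : (Er (r : k)).Nonsingular (x : k) y),
      (2 ^ (j + 2)) • WeierstrassCurve.Affine.Point.some _ _ hB =
        WeierstrassCurve.Affine.Point.some _ _ h' ∧
      padicValRat 2 x = -2 - 2 * |padicValRat 2 r| - 2 * (j : ℤ) := by
    intro j
    induction j with
    | zero =>
      obtain ⟨y, h', e⟩ := fe_4B h0 h1 hB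
      obtain ⟨h2, e2⟩ := FE3_tr (X2 := (((r ^ 2 - 1) * (r ^ 2 - 81) / (4 * r ^ 2) : ℚ) : k))
        (by push_cast; rfl) h'
      refine ⟨_, y, h2, ?_, ?_⟩
      · rw [← e2, ← e]
        norm_num
      · rw [FE3_base h]
        norm_num
    | succ j ih =>
      obtain ⟨x, y, h', e, hv⟩ := ih
      have habs : 0 ≤ |padicValRat 2 r| := abs_nonneg _
      obtain ⟨n1, n2⟩ := FE3_step habs hc hcv (x := x) (by
        rw [hv]
        have : (0 : ℤ) ≤ (j : ℤ) := Int.natCast_nonneg j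
        linarith)
      have hy2 := fe_eq h'
      have hy : y ≠ 0 := by
        rintro rfl
        rw [hcE] at hy2
        apply n1
        have h3 : ((x ^ 3 + (3 * x + 4 * (1 - r ^ 2)) ^ 2 : ℚ) : k) = 0 := by
          push_cast
          push_cast at hy2
          rw [← hy2]
          ring
        exact_mod_cast h3
      obtain ⟨h2, e2⟩ := fe_dbl h' hy
      obtain ⟨h3, e3⟩ := FE3_tr (X2 := ((x * (x ^ 3 - 12 * (4 * (1 - r ^ 2)) * x -
        8 * (4 * (1 - r ^ 2)) ^ 2) / (4 * (x ^ 3 + (3 * x + 4 * (1 - r ^ 2)) ^ 2)) : ℚ) : k))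
        (by rw [hcE]; push_cast; rfl) h2
      refine ⟨_, _, h3, ?_, ?_⟩
      · rw [← e3, ← e2, ← e, ← mul_nsmul, ← pow_succ]
      · rw [n2, hv]
        push_cast
        ring
  have hfm : ((AddSubmonoid.multiples (WeierstrassCurve.Affine.Point.some _ _ hB) :
      AddSubmonoid (Er (r : k)).Point) : Set (Er (r : k)).Point).Finite := finite_multiples.2 hfin
  have hinj : Function.Injective (fun j : ℕ =>
      (2 ^ (j + 2)) • WeierstrassCurve.Affine.Point.some _ _ hB) := by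
    intro i j hij
    obtain ⟨x, y, h', e, hv⟩ := key i
    obtain ⟨x', y', h'', e', hv'⟩ := key j
    beta_reduce at hij
    rw [e, e'] at hij
    have h5 := (WeierstrassCurve.Affine.Point.some.inj hij).1
    have h6 : x = x' := by exact_mod_cast h5
    rw [h6, hv'] at hv
    have : (i : ℤ) = (j : ℤ) := by linarith
    exact_mod_cast this
  refine Set.infinite_range_of_injective hinj (hfm.subset ?_)
  rintro _ ⟨j, rfl⟩
  exact AddSubmonoid.nsmul_mem _ (AddSubmonoid.mem_multiples _) _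

end Pool.Agent.LibCW77
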