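import Pool.Agent.LibCW77.FE2

/-!
[CW77 FE4] Two torsion points.

Plan. Cite FE1, FE2. `torsB_9`: `r = 9`, `c = cE 9 = -320`, `B = (320, 5760)`, `4 B = (0, y)` (`fe_4B`: `r ^ 2 - 81 = 0`), and
`3 • (0, y) = 0` (`fe_three`), so `12 • B = 0`.
`torsB_27`: `r ^ 2 = -27`, `c = 112`, `B = (-112, -224 r)`, `2 B = (-28, -28 r)` (`fe_2B`), `3 • (2 B) = 0`: double once more
with `fe_dbl`: `x = -28` again and `y = 28 r` (slope at `2 B`: `(3 * 784 - 504 + 672) / (-56 r) = 2520 / (-56 r) = -45 / r`,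
`(-45 / r) ^ 2 - 9 + 56 = -75 + 47 = -28`), so `4 B = - 2 B` (`fe_neg`) and `6 • B = 0`. Use `r ≠ 0`, and for equalities of points
`WeierstrassCurve.Affine.Point.some.injEq` or `congr`.
-/

open scoped Classical
open Polynomial

namespace Pool.Agent.LibCW77

open Pool.Agent.LibBH2
open Pool.Agent.LibCHd (VR RF Red FunF)

variable {k : Type} [Field k]

theorem torsB_9 [CharZero k] : TorsB (9 : k) := by
  have h0 : (9 : k) ≠ 0 := by norm_num
  have h1 : (9 : k) ^ 2 ≠ 1 := by norm_num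
  have hc : cE (9 : k) ≠ 0 := by
    unfold cE
    norm_num
  have hB := fe_B h0 h1
  obtain ⟨y, h', e⟩ := fe_4B h0 h1 hB
  have key : ∀ (x : k) (h'' : (Er (9 : k)).Nonsingular x y), x = 0 →
      3 • WeierstrassCurve.Affine.Point.some _ _ h'' = 0 := by
    rintro x h'' rfl
    exact fe_three h'' hc
  have h3 : 3 • (4 • WeierstrassCurve.Affine.Point.some _ _ hB) = 0 := by
    rw [e]
    exact key _ h' (by norm_num)
  refine ⟨hB, isOfFinAddOrder_iff_nsmul_eq_zero.mpr ⟨12, by norm_num, ?_⟩⟩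
  rw [← h3, smul_smul]
  norm_num

theorem torsB_27 [CharZero k] {r : k} (h : r ^ 2 = -27) : TorsB r := by
  have h0 : r ≠ 0 := by
    rintro rfl
    norm_num at h
  have h1 : r ^ 2 ≠ 1 := by
    rw [h]
    norm_num
  have hc : cE r = 112 := by
    unfold cE
    rw [h]
    norm_num
  have hx : r ^ 2 - 1 = -28 := by
    rw [h]
    norm_num
  have hB := fe_B h0 h1
  obtain ⟨h', e⟩ := fe_2B h0 h1 hB
  have hy : r * (r ^ 2 - 1) ≠ 0 := by
    rw [hx]
    exact mul_ne_zero h0 (by norm_num)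
  obtain ⟨h2, e2⟩ := fe_dbl h' hy
  obtain ⟨h3, e3⟩ := fe_neg h'
  have key : ∀ (x x' y y' : k) (g : (Er r).Nonsingular x y) (g' : (Er r).Nonsingular x' y'), x = x' → y = y' →
      WeierstrassCurve.Affine.Point.some _ _ g = WeierstrassCurve.Affine.Point.some _ _ g' := by
    rintro x x' y y' g g' rfl rfl
    rfl
  have hxx : (r ^ 2 - 1) * ((r ^ 2 - 1) ^ 3 - 12 * cE r * (r ^ 2 - 1) - 8 * cE r ^ 2) /
      (4 * ((r ^ 2 - 1) ^ 3 + (3 * (r ^ 2 - 1) + cE r) ^ 2)) = r ^ 2 - 1 := by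
    rw [hx, hc]
    norm_num
  have h23 : 2 • WeierstrassCurve.Affine.Point.some _ _ h' = -WeierstrassCurve.Affine.Point.some _ _ h' := by
    rw [e2, e3]
    refine key _ _ _ _ _ _ hxx ?_
    rw [hxx, sub_self, mul_zero, add_zero]
  refine ⟨hB, isOfFinAddOrder_iff_nsmul_eq_zero.mpr ⟨6, by norm_num, ?_⟩⟩
  have h6 : (6 : ℕ) • WeierstrassCurve.Affine.Point.some _ _ hB =
      2 • (2 • WeierstrassCurve.Affine.Point.some _ _ hB) + 2 • WeierstrassCurve.Affine.Point.some _ _ hB := by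
    rw [smul_smul, ← add_smul]
    norm_num
  rw [h6, e, h23, neg_add_cancel]

end Pool.Agent.LibCW77
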