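import Pool.Agent.LibCW77.FDefs

/-!
Family part, elliptic curves: definitions.
-/

open scoped Classical
open Polynomial

namespace Pool.Agent.LibCW77

open Pool.Agent.LibBH2
open Pool.Agent.LibCHd (VR RF Red FunF)

variable {k : Type} [Field k]

/-- `c = 4 (1 - r ^ 2)`; the curve `Er r` is `y ^ 2 = x ^ 3 + (3 x + c) ^ 2` -/
def cE (r : k) : k := 4 * (1 - r ^ 2)

/-- numerator and denominator of `x(2 ^ (j + 2) B) / c` as polynomials in `s = r ^ 2` -/
noncomputable def nd (k : Type) [Field k] : ℕ → k[X] × k[X]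
  | 0 => (C 81 - X, C 16 * X)
  | j + 1 =>
    ((nd k j).1 * ((C 4 - C 4 * X) * (nd k j).1 ^ 3 - C 12 * (nd k j).1 * (nd k j).2 ^ 2 - C 8 * (nd k j).2 ^ 3),
      C 4 * (nd k j).2 * ((C 4 - C 4 * X) * (nd k j).1 ^ 3 + (nd k j).2 * (C 3 * (nd k j).1 + (nd k j).2) ^ 2))

/-- the polynomial whose zeros `s` are the parameters for which `2 ^ (j + 2) B` has order `6` -/
noncomputable def gd (k : Type) [Field k] (j : ℕ) : k[X] :=
  (C 4 - C 4 * X) * (nd k j).1 ^ 3 - C 12 * (nd k j).1 * (nd k j).2 ^ 2 - C 8 * (nd k j).2 ^ 3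

end Pool.Agent.LibCW77
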