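import Pool.Agent.LibCW77.FEDefs

/-!
[CW77 FM1a] Degrees of the polynomials `nd k j = (n_j, d_j)` and `gd k j`.

`n_0 = 81 - X`, `d_0 = 16 X`, `n_(j+1) = n_j g_j`, `d_(j+1) = 4 d_j ((4 - 4 X) n_j ^ 3 + d_j (3 n_j + d_j) ^ 2)`,
`g_j = (4 - 4 X) n_j ^ 3 - 12 n_j d_j ^ 2 - 8 d_j ^ 3`.

Plan. `nd_deg`: induction: `natDegree n_j = natDegree d_j = m_j`, both not zero: the term
`(4 - 4 X) n ^ 3` has degree `3 m + 1` and the other terms have degree `≤ 3 m`, so `m_(j+1) = 4 m_j + 1` for both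
(`natDegree_add_eq_left_of_natDegree_lt`, `natDegree_sub_eq_left_of_natDegree_lt`, `natDegree_mul`, `natDegree_pow`); `4 ≠ 0` by char 0.
`gd_deg`: `natDegree g_j = 3 m_j + 1 > 0`. (A private lemma: if `natDegree n = natDegree d = m`, `n ≠ 0`, then
`natDegree ((C 4 - C 4 * X) * n ^ 3) = 3 m + 1`, and for `P` with `natDegree P ≤ 3 m` the sum and the difference have the degree `3 m + 1` too.)
-/

open scoped Classical
open Polynomial

namespace Pool.Agent.LibCW77

open Pool.Agent.LibBH2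
open Pool.Agent.LibCHd (VR RF Red FunF)

variable {k : Type} [Field k]

private theorem FM1a_L [CharZero k] : (C 4 - C 4 * X : k[X]).natDegree = 1 := by
  have h : (C 4 - C 4 * X : k[X]) = C (-4) * X + C 4 := by
    rw [C_neg]; ring
  rw [h]
  exact natDegree_linear (neg_ne_zero.2 (by norm_num))

private theorem FM1a_top [CharZero k] (n : k[X]) (hn : n ≠ 0) :
    ((C 4 - C 4 * X) * n ^ 3 : k[X]).natDegree = 3 * n.natDegree + 1 := by
  have hL := FM1a_L (k := k)
  have hL0 : (C 4 - C 4 * X : k[X]) ≠ 0 := by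
    intro h
    rw [h, natDegree_zero] at hL
    exact zero_ne_one hL
  rw [natDegree_mul hL0 (pow_ne_zero 3 hn), natDegree_pow, hL]
  ring

private theorem FM1a_add [CharZero k] (n P : k[X]) (hn : n ≠ 0)
    (hP : P.natDegree ≤ 3 * n.natDegree) :
    ((C 4 - C 4 * X) * n ^ 3 + P : k[X]).natDegree = 3 * n.natDegree + 1 := by
  rw [natDegree_add_eq_left_of_natDegree_lt, FM1a_top n hn]
  rw [FM1a_top n hn]
  omega

private theorem FM1a_g [CharZero k] (n d : k[X]) (hn : n ≠ 0) (h : n.natDegree = d.natDegree) :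
    ((C 4 - C 4 * X) * n ^ 3 - C 12 * n * d ^ 2 - C 8 * d ^ 3 : k[X]).natDegree =
      3 * n.natDegree + 1 := by
  have h1 : (-(C 12 * n * d ^ 2) - C 8 * d ^ 3 : k[X]).natDegree ≤ 3 * n.natDegree := by
    refine (natDegree_sub_le _ _).trans (max_le ?_ ?_)
    · rw [natDegree_neg]
      refine natDegree_mul_le.trans ?_
      have h2 : (C 12 * n : k[X]).natDegree ≤ n.natDegree := natDegree_C_mul_le _ _
      have h3 : (d ^ 2 : k[X]).natDegree ≤ 2 * d.natDegree := natDegree_pow_le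
      omega
    · refine (natDegree_C_mul_le _ _).trans ?_
      have h3 : (d ^ 3 : k[X]).natDegree ≤ 3 * d.natDegree := natDegree_pow_le
      omega
  have h2 := FM1a_add n _ hn h1
  have h3 : (C 4 - C 4 * X) * n ^ 3 - C 12 * n * d ^ 2 - C 8 * d ^ 3 =
      ((C 4 - C 4 * X) * n ^ 3 + (-(C 12 * n * d ^ 2) - C 8 * d ^ 3) : k[X]) := by ring
  rw [h3]
  exact h2

private theorem FM1a_e [CharZero k] (n d : k[X]) (hn : n ≠ 0) (h : n.natDegree = d.natDegree) :
    ((C 4 - C 4 * X) * n ^ 3 + d * (C 3 * n + d) ^ 2 : k[X]).natDegree =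
      3 * n.natDegree + 1 := by
  refine FM1a_add n _ hn ?_
  refine natDegree_mul_le.trans ?_
  have h1 : (C 3 * n + d : k[X]).natDegree ≤ n.natDegree := by
    refine (natDegree_add_le _ _).trans (max_le (natDegree_C_mul_le _ _) h.symm.le)
  have h3 : ((C 3 * n + d) ^ 2 : k[X]).natDegree ≤ 2 * (C 3 * n + d : k[X]).natDegree :=
    natDegree_pow_le
  omega

private theorem FM1a_ne {f : k[X]} {m : ℕ} (h : f.natDegree = m + 1) : f ≠ 0 := by
  intro h0
  rw [h0, natDegree_zero] at h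
  omega

theorem nd_deg [CharZero k] (j : ℕ) : (nd k j).1 ≠ 0 ∧ (nd k j).2 ≠ 0 ∧ (nd k j).1.natDegree = (nd k j).2.natDegree := by
  induction j with
  | zero =>
    have h1 : ((nd k 0).1).natDegree = 1 := by
      change (C 81 - X : k[X]).natDegree = 1
      have h : (C 81 - X : k[X]) = C (-1) * X + C 81 := by
        rw [C_neg, C_1]; ring
      rw [h]
      exact natDegree_linear (neg_ne_zero.2 one_ne_zero)
    have h2 : ((nd k 0).2).natDegree = 1 := by
      change (C 16 * X : k[X]).natDegree = 1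
      exact natDegree_C_mul_X _ (by norm_num)
    exact ⟨FM1a_ne (m := 0) h1, FM1a_ne (m := 0) h2, h1.trans h2.symm⟩
  | succ j ih =>
    obtain ⟨hn, hd, h⟩ := ih
    set n : k[X] := (nd k j).1 with hndef
    set d : k[X] := (nd k j).2 with hddef
    have hg := FM1a_g n d hn h
    have he := FM1a_e n d hn h
    have hg0 := FM1a_ne hg
    have he0 := FM1a_ne he
    have e1 : (nd k (j + 1)).1 =
        n * ((C 4 - C 4 * X) * n ^ 3 - C 12 * n * d ^ 2 - C 8 * d ^ 3) := rfl
    have e2 : (nd k (j + 1)).2 =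
        C 4 * d * ((C 4 - C 4 * X) * n ^ 3 + d * (C 3 * n + d) ^ 2) := rfl
    have h40 : (4 : k) ≠ 0 := by norm_num
    have h4d : (C 4 * d : k[X]) ≠ 0 := mul_ne_zero (C_ne_zero.2 h40) hd
    rw [e1, e2]
    refine ⟨mul_ne_zero hn hg0, mul_ne_zero h4d he0, ?_⟩
    rw [natDegree_mul hn hg0, natDegree_mul h4d he0, hg, he, natDegree_C_mul h40, ← h]

theorem gd_deg [CharZero k] (j : ℕ) : 0 < (gd k j).natDegree := by
  obtain ⟨hn, _, h⟩ := nd_deg (k := k) j
  have hg := FM1a_g _ _ hn h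
  unfold gd
  rw [hg]
  exact Nat.succ_pos _

end Pool.Agent.LibCW77
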