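import Pool.Agent.LibCW77.FEDefs

/-!
[CW77 FM1b] The values of `gd k j` at `0` and `1`.

`n_0 = 81 - X`, `d_0 = 16 X`, `n_(j+1) = n_j g_j`, `d_(j+1) = 4 d_j ((4 - 4 X) n_j ^ 3 + d_j (3 n_j + d_j) ^ 2)`,
`g_j = (4 - 4 X) n_j ^ 3 - 12 n_j d_j ^ 2 - 8 d_j ^ 3`.

Plan. `gd_zero`: at `0`: `d_j(0) = 0`, `n_j(0) ≠ 0` by induction (`n_(j+1)(0) = 4 n_j(0) ^ 4`), `g_j(0) = 4 n_j(0) ^ 3`.
`gd_one`: claim by induction: there is a rational `w > 0` with `d_j(1) ≠ 0` and `3 n_j(1) + d_j(1) = w d_j(1)`: `w = 16` for `j = 0`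
(`n_0(1) = 80`, `d_0(1) = 16`), and `w' = 1 / w ^ 2` for `j + 1`, from `n' = - 4 n d ^ 2 (3 n + 2 d)`, `d' = 4 d ^ 2 (3 n + d) ^ 2` at `1`. Then
`g_j(1) = - 4 d ^ 2 (3 n + 2 d) = - 4 d ^ 3 (w + 1) ≠ 0`. (`w : ℚ`, cast to `k`; `w + 1 ≠ 0` in `k` by `Rat.cast_ne_zero`.)
-/

open scoped Classical
open Polynomial

namespace Pool.Agent.LibCW77

open Pool.Agent.LibBH2
open Pool.Agent.LibCHd (VR RF Red FunF)

variable {k : Type} [Field k]

private theorem FM1b_zero [CharZero k] (j : ℕ) :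
    (nd k j).2.eval 0 = 0 ∧ (nd k j).1.eval 0 ≠ 0 := by
  induction j with
  | zero =>
    constructor
    · simp [nd]
    · simp [nd]
  | succ j ih =>
    obtain ⟨h1, h2⟩ := ih
    constructor
    · simp [nd, h1]
    · simp [nd, h1, h2]

theorem gd_zero [CharZero k] (j : ℕ) : (gd k j).eval 0 ≠ 0 := by
  obtain ⟨h1, h2⟩ := FM1b_zero (k := k) j
  simp [gd, h1, h2]

private theorem FM1b_one [CharZero k] (j : ℕ) :
    ∃ w : ℚ, 0 < w ∧ (nd k j).2.eval 1 ≠ 0 ∧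
      3 * (nd k j).1.eval 1 + (nd k j).2.eval 1 = (w : k) * (nd k j).2.eval 1 := by
  induction j with
  | zero =>
    refine ⟨16, by norm_num, ?_, ?_⟩
    · simp [nd]
    · simp [nd]
      norm_num
  | succ j ih =>
    obtain ⟨w, hw, hd, h⟩ := ih
    have hw' : (w : k) ≠ 0 := Rat.cast_ne_zero.2 hw.ne'
    have e1 : (nd k (j + 1)).1.eval 1 = (nd k j).1.eval 1 * (-12 * (nd k j).1.eval 1 *
        (nd k j).2.eval 1 ^ 2 - 8 * (nd k j).2.eval 1 ^ 3) := by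
      simp [nd]
    have e2 : (nd k (j + 1)).2.eval 1 = 4 * (nd k j).2.eval 1 * ((nd k j).2.eval 1 *
        (3 * (nd k j).1.eval 1 + (nd k j).2.eval 1) ^ 2) := by
      simp [nd]
    generalize (nd k j).1.eval 1 = n at *
    generalize (nd k j).2.eval 1 = d at *
    rw [h] at e2
    refine ⟨1 / w ^ 2, by positivity, ?_, ?_⟩
    · rw [e2]
      have h4 : (4 : k) ≠ 0 := by norm_num
      exact mul_ne_zero (mul_ne_zero h4 hd) (mul_ne_zero hd (pow_ne_zero 2 (mul_ne_zero hw' hd)))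
    · rw [e1, e2]
      have hn : 3 * n = ((w : k) - 1) * d := by linear_combination h
      push_cast
      field_simp
      have h5 : (3 * n) * (3 * n) = (((w : k) - 1) * d) * (((w : k) - 1) * d) := by rw [hn]
      linear_combination (-4) * h5 + (-8 * d) * hn

private theorem FM1b_one_aux [CharZero k] (j : ℕ) : (gd k j).eval 1 ≠ 0 := by
  obtain ⟨w, hw, hd, h⟩ := FM1b_one (k := k) j
  have e : (gd k j).eval 1 = -4 * (nd k j).2.eval 1 ^ 2 *
      ((3 * (nd k j).1.eval 1 + (nd k j).2.eval 1) + (nd k j).2.eval 1) := by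
    simp [gd]
    ring
  have hw1 : ((w + 1 : ℚ) : k) ≠ 0 := Rat.cast_ne_zero.2 (by positivity)
  rw [e, h]
  have e3 : (w : k) * (nd k j).2.eval 1 + (nd k j).2.eval 1 = ((w + 1 : ℚ) : k) * (nd k j).2.eval 1 := by
    push_cast
    ring
  rw [e3]
  have h4 : (-4 : k) ≠ 0 := by norm_num
  exact mul_ne_zero (mul_ne_zero h4 (pow_ne_zero 2 hd)) (mul_ne_zero hw1 hd)

theorem gd_one [CharZero k] (j : ℕ) : (gd k j).eval 1 ≠ 0 :=
  FM1b_one_aux j

end Pool.Agent.LibCW77
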