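import Pool.Agent.LibCW77.FEDefs

/-!
[CW77 FM1c] Common zeros.

`n_0 = 81 - X`, `d_0 = 16 X`, `n_(j+1) = n_j g_j`, `d_(j+1) = 4 d_j ((4 - 4 X) n_j ^ 3 + d_j (3 n_j + d_j) ^ 2)`,
`g_j = (4 - 4 X) n_j ^ 3 - 12 n_j d_j ^ 2 - 8 d_j ^ 3`.

Plan. `nd_ne`: for `s ≠ 0`, `s ≠ 1`, not both `n_j(s)`, `d_j(s)` vanish: for `j = 0`: `d_0(s) = 16 s ≠ 0`. Step: with
`c = 4 - 4 s`, `c ≠ 0`, `c ≠ 4`, and `n' = d' = 0`: if `n = 0` then `d' = 4 d ^ 4`, so `d = 0`; if `d = 0` then `n' = c n ^ 4`, so
`n = 0`; else `c n ^ 3 - 12 n d ^ 2 - 8 d ^ 3 = 0` and `c n ^ 3 + d (3 n + d) ^ 2 = 0`: subtract: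
`9 n ^ 2 d + 18 n d ^ 2 + 9 d ^ 3 = 9 d (n + d) ^ 2 = 0`, so `n = - d`, and then `c n ^ 3 = 12 n d ^ 2 + 8 d ^ 3` gives `- c = - 12 + 8 = - 4`,
`c = 4`, a contradiction.
`gd_next`: `n_(j+1)(s) = n_j(s) g_j(s) = 0`, and if `n_i(s) = 0` then `n_(i+1)(s) = 0`: induction on `i`.
-/

open scoped Classical
open Polynomial

namespace Pool.Agent.LibCW77

open Pool.Agent.LibBH2
open Pool.Agent.LibCHd (VR RF Red FunF)

variable {k : Type} [Field k]

theorem nd_ne [CharZero k] {s : k} (h0 : s ≠ 0) (h1 : s ≠ 1) (j : ℕ) :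
    (nd k j).1.eval s ≠ 0 ∨ (nd k j).2.eval s ≠ 0 := by
  induction j with
  | zero =>
    right
    have h16 : (16 : k) ≠ 0 := by norm_num
    simp only [nd, eval_mul, eval_C, eval_X]
    exact mul_ne_zero h16 h0
  | succ j ih =>
    by_contra hcon
    rw [not_or, not_not, not_not] at hcon
    obtain ⟨hn, hd⟩ := hcon
    simp only [nd, eval_mul, eval_sub, eval_add, eval_pow, eval_C, eval_X] at hn hd
    generalize (nd k j).1.eval s = n at ih hn hd
    generalize (nd k j).2.eval s = d at ih hn hd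
    have hc : (4 - 4 * s : k) ≠ 0 := by
      intro h
      apply h1
      have h4 : (4 : k) * (1 - s) = 0 := by linear_combination h
      have h4' : (4 : k) ≠ 0 := by norm_num
      have := (mul_eq_zero.mp h4).resolve_left h4'
      linear_combination -this
    have h4' : (4 : k) ≠ 0 := by norm_num
    have h9' : (9 : k) ≠ 0 := by norm_num
    by_cases hn0 : n = 0
    · subst hn0
      have hd0 : d ≠ 0 := by
        rcases ih with h | h
        · exact absurd rfl h
        · exact h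
      apply hd0
      have h5 : 4 * d ^ 4 = 0 := by linear_combination hd
      have h6 := (mul_eq_zero.mp h5).resolve_left h4'
      exact (pow_eq_zero_iff (by norm_num)).mp h6
    · have e1 : (4 - 4 * s) * n ^ 3 - 12 * n * d ^ 2 - 8 * d ^ 3 = 0 :=
        (mul_eq_zero.mp hn).resolve_left hn0
      by_cases hd0 : d = 0
      · subst hd0
        have h5 : (4 - 4 * s) * n ^ 3 = 0 := by linear_combination e1
        have h6 := (mul_eq_zero.mp h5).resolve_left hc
        exact hn0 ((pow_eq_zero_iff (by norm_num)).mp h6)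
      · have e2 : (4 - 4 * s) * n ^ 3 + d * (3 * n + d) ^ 2 = 0 :=
          (mul_eq_zero.mp hd).resolve_left (mul_ne_zero h4' hd0)
        have e3 : 9 * (d * (n + d) ^ 2) = 0 := by linear_combination e2 - e1
        have e4 : d * (n + d) ^ 2 = 0 := (mul_eq_zero.mp e3).resolve_left h9'
        have e5 : (n + d) ^ 2 = 0 := (mul_eq_zero.mp e4).resolve_left hd0
        have e6 : n + d = 0 := (pow_eq_zero_iff (by norm_num)).mp e5
        have e7 : n = -d := by linear_combination e6
        subst e7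
        have e8 : (4 * s) * d ^ 3 = 0 := by linear_combination e1
        have e9 : d ^ 3 ≠ 0 := pow_ne_zero 3 hd0
        have e10 : 4 * s = 0 := (mul_eq_zero.mp e8).resolve_right e9
        exact h0 ((mul_eq_zero.mp e10).resolve_left h4')

theorem gd_next {s : k} {j i : ℕ} (hij : j < i) (h : (gd k j).eval s = 0) : (nd k i).1.eval s = 0 := by
  induction i with
  | zero => exact absurd hij (Nat.not_lt_zero j)
  | succ i ih =>
    have hstep : (nd k (i + 1)).1 = (nd k i).1 * gd k i := rfl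
    rw [hstep, eval_mul]
    rcases Nat.lt_succ_iff_lt_or_eq.mp hij with hlt | heq
    · rw [ih hlt, zero_mul]
    · subst heq
      rw [h, mul_zero]

end Pool.Agent.LibCW77
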