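import Pool.Agent.LibCW77.FM2
import Pool.Agent.LibCW77.FM1a
import Pool.Agent.LibCW77.FM1b
import Pool.Agent.LibCW77.FM1c

/-!
[CW77 FM3] Infinitely many torsion parameters.

Plan. Cite FE1, FE2, FM1a, FM1b, FM1c, FM2. For every `j` choose a root `s_j` of `gd k j` (`gd_deg`, `IsAlgClosed.exists_root`);
`s_j ≠ 0`, `s_j ≠ 1` (`gd_zero`, `gd_one`). The `s_j` are different: for `j < i` and `s = s_j = s_i`: `n_i(s) = 0` (`gd_next`), so
`0 = g_i(s) = - 8 d_i(s) ^ 3`, `d_i(s) = 0`, against `nd_ne`. Choose `r_j` with `r_j ^ 2 = s_j`: `j ↦ r_j` is injective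
(`Set.infinite_of_injective_forall_mem`). `TorsB r_j`: nonsingular by `fe_B`. `d_j(s) ≠ 0`: otherwise `g_j(s) = c n_j(s) ^ 3 = 0`
(`c = 4 - 4 s ≠ 0`) and `n_j(s) = 0`, against `nd_ne`. `n_(j+1)(s) = n_j(s) g_j(s) = 0`. By `fm_chain` for `j + 1`: either
`2 ^ (j + 3) • B = 0`, or `2 ^ (j + 3) • B = some 0 y _` (`x = c * 0 / d = 0`), and then `3 • (2 ^ (j + 3) • B) = 0` by `fe_three`
(`cE r ≠ 0`).
-/

open scoped Classical
open Polynomial

namespace Pool.Agent.LibCW77

open Pool.Agent.LibBH2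
open Pool.Agent.LibCHd (VR RF Red FunF)

variable {k : Type} [Field k]

private lemma FM3_ne [CharZero k] {s : k} (h0 : s ≠ 0) (h1 : s ≠ 1) {j i : ℕ} (hij : j < i)
    (hj : (gd k j).eval s = 0) : (gd k i).eval s ≠ 0 := by
  intro hi
  have hn := gd_next hij hj
  unfold gd at hi
  simp only [eval_sub, eval_mul, eval_pow, eval_C, eval_X, hn] at hi
  have hd : (nd k i).2.eval s = 0 := by
    have h8 : (8 : k) * (nd k i).2.eval s ^ 3 = 0 := by
      linear_combination -hi
    have h80 : (8 : k) ≠ 0 := by norm_num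
    exact pow_eq_zero_iff (three_ne_zero) |>.mp ((mul_eq_zero.mp h8).resolve_left h80)
  rcases nd_ne h0 h1 i with h | h
  · exact h hn
  · exact h hd

private lemma FM3_three [CharZero k] {r y : k} (hc : cE r ≠ 0) (x : k) (hx : x = 0)
    (h : (Er r).Nonsingular x y) : 3 • WeierstrassCurve.Affine.Point.some _ _ h = 0 := by
  subst hx
  exact fe_three h hc

private lemma FM3_tors [CharZero k] {r : k} (h0 : r ≠ 0) (h1 : r ^ 2 ≠ 1) {j : ℕ}
    (hj : (gd k j).eval (r ^ 2) = 0) : TorsB r := by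
  have h := fe_B h0 h1
  refine ⟨h, ?_⟩
  rw [isOfFinAddOrder_iff_nsmul_eq_zero]
  rcases fm_chain h0 h1 h (j + 1) with ⟨_, h2⟩ | ⟨_, y, h', e⟩
  · exact ⟨2 ^ (j + 1 + 2), by positivity, h2⟩
  · have hn : (nd k (j + 1)).1.eval (r ^ 2) = 0 := gd_next (Nat.lt_succ_self j) hj
    have hx : cE r * (nd k (j + 1)).1.eval (r ^ 2) / (nd k (j + 1)).2.eval (r ^ 2) = 0 := by
      rw [hn, mul_zero, zero_div]
    have hc : cE r ≠ 0 := by
      unfold cE
      exact mul_ne_zero (by norm_num) (sub_ne_zero.mpr (Ne.symm h1))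
    refine ⟨3 * 2 ^ (j + 1 + 2), by positivity, ?_⟩
    rw [mul_smul, e]
    exact FM3_three hc _ hx h'

theorem torsB_many [IsAlgClosed k] [CharZero k] : {r : k | TorsB r}.Infinite := by
  have hroot : ∀ j : ℕ, ∃ r : k, (gd k j).eval (r ^ 2) = 0 := by
    intro j
    obtain ⟨s, hs⟩ := IsAlgClosed.exists_root (gd k j)
      (natDegree_pos_iff_degree_pos.mp (gd_deg j)).ne'
    obtain ⟨r, hr⟩ := IsAlgClosed.exists_pow_nat_eq s (n := 2) (by norm_num)
    exact ⟨r, by rw [hr]; exact hs⟩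
  choose r hr using hroot
  have hr0 : ∀ j, r j ≠ 0 := by
    intro j h
    have := hr j
    rw [h, zero_pow two_ne_zero] at this
    exact gd_zero j this
  have hr1 : ∀ j, r j ^ 2 ≠ 1 := by
    intro j h
    have := hr j
    rw [h] at this
    exact gd_one j this
  have hlt : ∀ j i, j < i → r j ≠ r i := by
    intro j i hij h
    have h2 := hr i
    rw [← h] at h2
    exact FM3_ne (pow_ne_zero 2 (hr0 j)) (hr1 j) hij (hr j) h2
  have hinj : Function.Injective r := by
    intro j i h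
    rcases lt_trichotomy j i with hl | hl | hl
    · exact absurd h (hlt j i hl)
    · exact hl
    · exact absurd h.symm (hlt i j hl)
  exact Set.infinite_of_injective_forall_mem hinj fun j => FM3_tors (hr0 j) (hr1 j) (hr j)

end Pool.Agent.LibCW77
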