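import Pool.Agent.LibCW77.FM1a

/-!
[CW77 FM1d] The leading coefficients of `nd k j = (n_j, d_j)`, and different `j` give different quotients.

Plan. Cite `nd_deg` (FM1a). `nd_lead` by induction: `j = 0`: `n_0 = 81 - X`, `d_0 = 16 X`. Step: with `m = natDegree n_j = natDegree d_j` the term
`(4 - 4 X) n ^ 3` has degree `3 m + 1` and the others degree `≤ 3 m`, so the leading coefficient of `n_(j+1)` is `- 4 lc(n) ^ 4`, and
that of `d_(j+1)` is `4 lc(d) (- 4 lc(n) ^ 3)` (`leadingCoeff_add_of_degree_lt`, `leadingCoeff_mul`, or compare the coefficients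
of degree `4 m + 1`). `nd_cross`: equality gives the equality of the leading coefficients (`leadingCoeff_mul`), so `4 ^ (i + 2) = 4 ^ (j + 2)` in `k` (char 0), `i = j`.
-/

open scoped Classical
open Polynomial

namespace Pool.Agent.LibCW77

open Pool.Agent.LibBH2
open Pool.Agent.LibCHd (VR RF Red FunF)

variable {k : Type} [Field k]

private lemma FM1d_aux [CharZero k] {n P : k[X]} (hn : n ≠ 0) (hP : P.natDegree ≤ 3 * n.natDegree) :
    ((C 4 - C 4 * X) * n ^ 3 + P).leadingCoeff = -4 * n.leadingCoeff ^ 3 := by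
  have h4 : (C 4 - C 4 * X : k[X]) = C (-4) * X + C 4 := by rw [C_neg]; ring
  have h4' : (-4 : k) ≠ 0 := by norm_num
  have hl : (C 4 - C 4 * X : k[X]).leadingCoeff = -4 := by rw [h4]; exact leadingCoeff_linear h4'
  have hd : (C 4 - C 4 * X : k[X]).natDegree = 1 := by rw [h4]; exact natDegree_linear h4'
  have hne : (C 4 - C 4 * X : k[X]) ≠ 0 := by
    intro h
    rw [h] at hd
    simp at hd
  have hD : ((C 4 - C 4 * X) * n ^ 3).natDegree = 1 + 3 * n.natDegree := by
    rw [natDegree_mul hne (pow_ne_zero 3 hn), hd, natDegree_pow]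
  have hlt : P.degree < ((C 4 - C 4 * X) * n ^ 3).degree := degree_lt_degree (by omega)
  rw [leadingCoeff_add_of_degree_lt' hlt, leadingCoeff_mul, hl, leadingCoeff_pow]

private lemma FM1d_deg1 {n d : k[X]} (h : n.natDegree = d.natDegree) :
    (-(C 12 * n * d ^ 2) - C 8 * d ^ 3).natDegree ≤ 3 * n.natDegree := by
  refine (natDegree_sub_le _ _).trans (max_le ?_ ?_)
  · rw [natDegree_neg]
    refine natDegree_mul_le.trans ?_
    have h1 := natDegree_C_mul_le 12 n
    have h2 : (d ^ 2).natDegree ≤ 2 * d.natDegree := natDegree_pow_le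
    omega
  · refine (natDegree_C_mul_le _ _).trans ?_
    have h2 : (d ^ 3).natDegree ≤ 3 * d.natDegree := natDegree_pow_le
    omega

private lemma FM1d_deg2 {n d : k[X]} (h : n.natDegree = d.natDegree) :
    (d * (C 3 * n + d) ^ 2).natDegree ≤ 3 * n.natDegree := by
  refine natDegree_mul_le.trans ?_
  have h1 : ((C 3 * n + d) ^ 2).natDegree ≤ 2 * (C 3 * n + d).natDegree := natDegree_pow_le
  have h2 : (C 3 * n + d).natDegree ≤ n.natDegree := by
    refine (natDegree_add_le _ _).trans (max_le (natDegree_C_mul_le _ _) h.ge)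
  omega

theorem nd_lead [CharZero k] (j : ℕ) :
    (nd k j).1.leadingCoeff * 4 ^ (j + 2) = -(nd k j).2.leadingCoeff := by
  induction j with
  | zero =>
    have h1 : (nd k 0).1 = C (-1) * X + C 81 := by
      change (C 81 - X : k[X]) = _
      rw [C_neg, C_1]
      ring
    have h2 : (nd k 0).2 = C 16 * X + C 0 := by
      change (C 16 * X : k[X]) = _
      rw [C_0, add_zero]
    rw [h1, h2, leadingCoeff_linear (by norm_num), leadingCoeff_linear (by norm_num)]
    norm_num
  | succ j ih =>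
    obtain ⟨hn, hd, hnd⟩ := nd_deg (k := k) j
    have h1 : (nd k (j + 1)).1 = (nd k j).1 * ((C 4 - C 4 * X) * (nd k j).1 ^ 3 +
        (-(C 12 * (nd k j).1 * (nd k j).2 ^ 2) - C 8 * (nd k j).2 ^ 3)) := by
      change (nd k j).1 * ((C 4 - C 4 * X) * (nd k j).1 ^ 3 - C 12 * (nd k j).1 * (nd k j).2 ^ 2 -
        C 8 * (nd k j).2 ^ 3) = _
      ring
    have h2 : (nd k (j + 1)).2 = C 4 * (nd k j).2 * ((C 4 - C 4 * X) * (nd k j).1 ^ 3 +
        (nd k j).2 * (C 3 * (nd k j).1 + (nd k j).2) ^ 2) := rfl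
    rw [h1, h2, leadingCoeff_mul, leadingCoeff_mul, leadingCoeff_mul,
      FM1d_aux hn (FM1d_deg1 hnd), FM1d_aux hn (FM1d_deg2 hnd), leadingCoeff_C]
    linear_combination (-16 * (nd k j).1.leadingCoeff ^ 3) * ih

theorem nd_cross [CharZero k] {i j : ℕ} (h : (nd k i).1 * (nd k j).2 = (nd k j).1 * (nd k i).2) : i = j := by
  obtain ⟨hn, hd, hnd⟩ := nd_deg (k := k) i
  obtain ⟨hn', hd', hnd'⟩ := nd_deg (k := k) j
  have h1 := nd_lead (k := k) i
  have h2 := nd_lead (k := k) j
  have h3 := congrArg leadingCoeff h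
  rw [leadingCoeff_mul, leadingCoeff_mul] at h3
  have hn1 : (nd k i).1.leadingCoeff ≠ 0 := leadingCoeff_ne_zero.2 hn
  have hn2 : (nd k j).1.leadingCoeff ≠ 0 := leadingCoeff_ne_zero.2 hn'
  have h4 : (nd k i).1.leadingCoeff * (nd k j).1.leadingCoeff * (4 : k) ^ (i + 2) =
      (nd k i).1.leadingCoeff * (nd k j).1.leadingCoeff * (4 : k) ^ (j + 2) := by
    linear_combination (nd k j).1.leadingCoeff * h1 - (nd k i).1.leadingCoeff * h2 + h3
  have h5 : (4 : k) ^ (i + 2) = 4 ^ (j + 2) := mul_left_cancel₀ (mul_ne_zero hn1 hn2) h4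
  have h6 : 4 ^ (i + 2) = 4 ^ (j + 2) := by exact_mod_cast h5
  have h7 := Nat.pow_right_injective (le_refl 2 |>.trans (by norm_num : 2 ≤ 4)) h6
  omega

end Pool.Agent.LibCW77
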