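import Pool.Agent.LibCW77.FM2
import Pool.Agent.LibCW77.FM1a
import Pool.Agent.LibCW77.FM1d

/-!
[CW77 FM4] A torsion parameter is algebraic over `ℚ`.

Plan. Cite FE1, FE2, FM1a, FM1d, FM2. Suppose that `r` is transcendental over `ℚ`; then so is `s = r ^ 2`, and `r ≠ 0`, `r ^ 2 ≠ 1`. `nd k j` is the image of `nd ℚ j`
under `Polynomial.map (algebraMap ℚ k)` (`FM4_map`, induction), so `(nd k j).2.eval s = aeval s (nd ℚ j).2 ≠ 0` (`nd_deg`, transcendence) for all `j`. By `fm_chain`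
`2 ^ (j + 2) • B = some (cE r * n_j(s) / d_j(s)) y _`. `B` has finite order, so two of these points are equal for some `i < j` (the multiples of `B` are a finite set:
pigeonhole, `Finite.exists_ne_map_eq_of_infinite` for `j ↦ 2 ^ (j + 2) • B` into the finite set `{m • B | m < n}`), hence `n_i(s) / d_i(s) = n_j(s) / d_j(s)`
(`cE r ≠ 0`), `n_i d_j - n_j d_i` vanishes at `s`, so it is `0` in `ℚ[X]`, against `nd_cross` over `ℚ`.
-/

open scoped Classical
open Polynomial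

namespace Pool.Agent.LibCW77

open Pool.Agent.LibBH2
open Pool.Agent.LibCHd (VR RF Red FunF)

variable {k : Type} [Field k]

private lemma FM4_map [CharZero k] (j : ℕ) :
    (nd k j).1 = (nd ℚ j).1.map (algebraMap ℚ k) ∧ (nd k j).2 = (nd ℚ j).2.map (algebraMap ℚ k) := by
  induction j with
  | zero =>
    constructor
    · change (C 81 - X : k[X]) = (C 81 - X : ℚ[X]).map (algebraMap ℚ k)
      simp
    · change (C 16 * X : k[X]) = (C 16 * X : ℚ[X]).map (algebraMap ℚ k)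
      simp
  | succ j ih =>
    obtain ⟨h1, h2⟩ := ih
    constructor
    · change (nd k j).1 * ((C 4 - C 4 * X) * (nd k j).1 ^ 3 - C 12 * (nd k j).1 * (nd k j).2 ^ 2 -
        C 8 * (nd k j).2 ^ 3) = ((nd ℚ j).1 * ((C 4 - C 4 * X) * (nd ℚ j).1 ^ 3 -
        C 12 * (nd ℚ j).1 * (nd ℚ j).2 ^ 2 - C 8 * (nd ℚ j).2 ^ 3)).map (algebraMap ℚ k)
      rw [h1, h2]
      simp
    · change C 4 * (nd k j).2 * ((C 4 - C 4 * X) * (nd k j).1 ^ 3 + (nd k j).2 *
        (C 3 * (nd k j).1 + (nd k j).2) ^ 2) = (C 4 * (nd ℚ j).2 * ((C 4 - C 4 * X) *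
        (nd ℚ j).1 ^ 3 + (nd ℚ j).2 * (C 3 * (nd ℚ j).1 + (nd ℚ j).2) ^ 2)).map (algebraMap ℚ k)
      rw [h1, h2]
      simp

theorem torsB_alg [CharZero k] {r : k} (h : TorsB r) : IsAlgebraic ℚ r := by
  by_contra hr
  have h1 := torsB_r h
  have h0 : r ≠ 0 := by
    rintro rfl
    exact hr isAlgebraic_zero
  have hs : ∀ P : ℚ[X], aeval (r ^ 2) P = 0 → P = 0 := by
    intro P hP
    by_contra hne
    exact hr (IsAlgebraic.of_pow (by norm_num : 0 < 2) ⟨P, hne, hP⟩)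
  have hev : ∀ P : ℚ[X], (P.map (algebraMap ℚ k)).eval (r ^ 2) = aeval (r ^ 2) P := by
    intro P
    rw [eval_map, aeval_def]
  have hd : ∀ j, (nd k j).2.eval (r ^ 2) ≠ 0 := by
    intro j hj
    rw [(FM4_map j).2, hev] at hj
    exact (nd_deg (k := ℚ) j).2.1 (hs _ hj)
  have hc : cE r ≠ 0 := by
    unfold cE
    intro h2
    apply h1
    have h3 : (1 - r ^ 2 : k) = 0 := by
      rcases mul_eq_zero.1 h2 with h4 | h4
      · exact absurd h4 (by norm_num)
      · exact h4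
    exact (sub_eq_zero.1 h3).symm
  obtain ⟨hB, hfin⟩ := h
  have hfm : Finite (AddSubmonoid.multiples (WeierstrassCurve.Affine.Point.some _ _ hB)) :=
    hfin.finite_multiples
  obtain ⟨i, j, hij, he⟩ := Finite.exists_ne_map_eq_of_infinite
    (fun j : ℕ => (⟨2 ^ (j + 2) • WeierstrassCurve.Affine.Point.some _ _ hB, ⟨2 ^ (j + 2), rfl⟩⟩ :
      AddSubmonoid.multiples (WeierstrassCurve.Affine.Point.some _ _ hB)))
  have he' : 2 ^ (i + 2) • WeierstrassCurve.Affine.Point.some _ _ hB =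
      2 ^ (j + 2) • WeierstrassCurve.Affine.Point.some _ _ hB := congrArg Subtype.val he
  apply hij
  rcases fm_chain h0 h1 hB i with ⟨h2, -⟩ | ⟨hdi, yi, hi, hi'⟩
  · exact absurd h2 (hd i)
  rcases fm_chain h0 h1 hB j with ⟨h2, -⟩ | ⟨hdj, yj, hj, hj'⟩
  · exact absurd h2 (hd j)
  rw [hi', hj'] at he'
  have hx : cE r * (nd k i).1.eval (r ^ 2) / (nd k i).2.eval (r ^ 2) =
      cE r * (nd k j).1.eval (r ^ 2) / (nd k j).2.eval (r ^ 2) :=
    (WeierstrassCurve.Affine.Point.some.inj he').1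
  rw [div_eq_div_iff hdi hdj, mul_assoc, mul_assoc] at hx
  have hx' := mul_left_cancel₀ hc hx
  rw [(FM4_map i).1, (FM4_map i).2, (FM4_map j).1, (FM4_map j).2, hev, hev, hev, hev, ← map_mul,
    ← map_mul] at hx'
  have h5 : (nd ℚ i).1 * (nd ℚ j).2 - (nd ℚ j).1 * (nd ℚ i).2 = 0 := by
    apply hs
    rw [map_sub, hx', sub_self]
  exact nd_cross (sub_eq_zero.1 h5)

end Pool.Agent.LibCW77
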