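import Pool.Agent.LibCW77.TQ2
import Pool.Agent.LibCW77.FE3
import Pool.Agent.LibCW77.FE4

/-!
[CW77 TQ3] All integers `r` for which `B` is a torsion point.

Plan. (⇒) `r` is odd by `torsB_inf` (`padicValRat 2 r ≠ 0` for even `r ≠ 0`). Suppose `r` is not `± 3`, `± 9` (nor `± 1`). Then there is an odd prime `q` with
`padicValRat q x ≤ -2` for `x = (r ^ 2 - 1) (r ^ 2 - 81) / (4 r ^ 2)`: if a prime `q ≠ 3` divides `r` then `q` does not divide `r ^ 2 - 1`, `r ^ 2 - 81`, `4`, and the valuation is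
`- 2 v_q(r)`; otherwise `r = ± 3 ^ e` with `e ≥ 3`, `q = 3`, `v_3(r ^ 2 - 81) = 4`, `v_3(r ^ 2 - 1) = 0`, valuation `4 - 2 e ≤ -2`. By `fe_4B`, `4 • B = some (x : k) y _`; by
`tq_prime`, `q ^ j • (4 • B) = some (x_j : k) _ _` with `padicValRat q x_j = padicValRat q x - 2 j` for all `j`, so these points are all different and `B` has infinite order
(see the end of the plan of FE3 / its proof in CW77_FE3.lean).
(⇐) `r = 9`: `torsB_9`. `r = 3`: `c = -32`, `B = (32, 192)`, `2 B = (8, 24)`, `4 B = (-16, 48)`, `8 B = (32, -192) = - B` (`fe_dbl` three times, slopes `9`, `3`, `3`), so `9 • B = 0`.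
Negative `r`: `Er (-r) = Er r` (`neg_sq`) and the point for `- r` is `- B` (`fe_neg`): private lemma `TorsB r → TorsB (-r)`.
-/

open scoped Classical
open Polynomial

namespace Pool.Agent.LibCW77

open Pool.Agent.LibBH2
open Pool.Agent.LibCHd (VR RF Red FunF)

variable {k : Type} [Field k]

private theorem TQ3_fin {W W' : WeierstrassCurve.Affine k} {a b a' b' : k} (hW : W = W') (ha : a = a')
    (hb : b = b') (h : W.Nonsingular a b) (hf : IsOfFinAddOrder (WeierstrassCurve.Affine.Point.some _ _ h)) :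
    ∃ h' : W'.Nonsingular a' b', IsOfFinAddOrder (WeierstrassCurve.Affine.Point.some _ _ h') := by
  subst hW
  subst ha
  subst hb
  exact ⟨h, hf⟩

private theorem TQ3_pt {W : WeierstrassCurve.Affine k} {a b : k} (h : W.Nonsingular a b) (a' b' : k) (ha : a = a')
    (hb : b = b') : ∃ h' : W.Nonsingular a' b',
      WeierstrassCurve.Affine.Point.some _ _ h = WeierstrassCurve.Affine.Point.some _ _ h' := by
  subst ha
  subst hb
  exact ⟨h, rfl⟩

theorem torsB_neg [CharZero k] {r : k} (h : TorsB r) : TorsB (-r) := by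
  obtain ⟨hB, hf⟩ := h
  obtain ⟨h', e⟩ := fe_neg hB
  have hE : Er r = Er (-r) := by
    unfold Er
    rw [neg_sq]
  have hf' : IsOfFinAddOrder (WeierstrassCurve.Affine.Point.some _ _ h') := by
    rw [← e]
    exact isOfFinAddOrder_neg_iff.2 hf
  exact TQ3_fin hE (by ring) (by ring) h' hf'

theorem torsB_3 [CharZero k] : TorsB (3 : k) := by
  have h0 : (3 : k) ≠ 0 := by norm_num
  have h1 : (3 : k) ^ 2 ≠ 1 := by norm_num
  have hc : cE (3 : k) = -32 := by
    unfold cE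
    norm_num
  have hB := fe_B h0 h1
  obtain ⟨h2, e2⟩ := fe_2B h0 h1 hB
  obtain ⟨h2', e2'⟩ := TQ3_pt h2 8 24 (by norm_num) (by norm_num)
  obtain ⟨h4, e4⟩ := fe_dbl h2' (by norm_num)
  obtain ⟨h4', e4'⟩ := TQ3_pt h4 (-16) 48 (by rw [hc]; norm_num) (by rw [hc]; norm_num)
  obtain ⟨h8, e8⟩ := fe_dbl h4' (by norm_num)
  obtain ⟨h8', e8'⟩ := TQ3_pt h8 32 (-192) (by rw [hc]; norm_num) (by rw [hc]; norm_num)
  obtain ⟨hn, en⟩ := fe_neg hB
  obtain ⟨hn', en'⟩ := TQ3_pt hn 32 (-192) (by norm_num) (by norm_num)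
  refine ⟨hB, isOfFinAddOrder_iff_nsmul_eq_zero.mpr ⟨9, by norm_num, ?_⟩⟩
  have h9 : (9 : ℕ) • WeierstrassCurve.Affine.Point.some _ _ hB =
      2 • (2 • (2 • WeierstrassCurve.Affine.Point.some _ _ hB)) + WeierstrassCurve.Affine.Point.some _ _ hB := by
    rw [smul_smul, smul_smul, ← succ_nsmul]
    norm_num
  rw [h9, e2, e2', e4, e4', e8, e8', ← en', ← en]
  exact neg_add_cancel _

/-- multiples by powers of an odd prime -/
private theorem TQ3_inf [CharZero k] {r : ℤ} {q : ℕ} (hqp : q.Prime) (hq : q ≠ 2) (h0 : (r : k) ≠ 0)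
    (h1 : (r : k) ^ 2 ≠ 1)
    (hv : padicValRat q (((r : ℚ) ^ 2 - 1) * ((r : ℚ) ^ 2 - 81) / (4 * (r : ℚ) ^ 2)) ≤ -2) :
    ¬ TorsB (r : k) := by
  haveI : Fact q.Prime := ⟨hqp⟩
  rintro ⟨hB, hfin⟩
  set X : ℚ := ((r : ℚ) ^ 2 - 1) * ((r : ℚ) ^ 2 - 81) / (4 * (r : ℚ) ^ 2) with hX
  have hX0 : X ≠ 0 := by
    intro h
    rw [h, padicValRat.zero] at hv
    norm_num at hv
  obtain ⟨y, h', e⟩ := fe_4B h0 h1 hB
  obtain ⟨h2, e2⟩ := TQ3_pt h' (X : k) y (by rw [hX]; push_cast; rfl) rfl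
  have key : ∀ j : ℕ, ∃ (x : ℚ) (y : k) (h' : (Er (r : k)).Nonsingular (x : k) y),
      (q ^ j * 4) • WeierstrassCurve.Affine.Point.some _ _ hB =
        WeierstrassCurve.Affine.Point.some _ _ h' ∧ x ≠ 0 ∧
      padicValRat q x = padicValRat q X - 2 * (j : ℤ) := by
    intro j
    induction j with
    | zero =>
      refine ⟨X, y, h2, ?_, hX0, by simp⟩
      rw [pow_zero, one_mul, e, e2]
    | succ j ih =>
      obtain ⟨x, y, h', e, hx0, hvx⟩ := ih
      obtain ⟨x', y', h'', e'', hx0', hvx'⟩ := tq_prime hq h' hx0 (by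
        rw [hvx]
        have : (0 : ℤ) ≤ (j : ℤ) := Int.natCast_nonneg j
        linarith)
      refine ⟨x', y', h'', ?_, hx0', ?_⟩
      · rw [← e'', ← e, smul_smul]
        congr 1
        ring
      · rw [hvx', hvx]
        push_cast
        ring
  have hfm : ((AddSubmonoid.multiples (WeierstrassCurve.Affine.Point.some _ _ hB) :
      AddSubmonoid (Er (r : k)).Point) : Set (Er (r : k)).Point).Finite := finite_multiples.2 hfin
  have hinj : Function.Injective (fun j : ℕ =>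
      (q ^ j * 4) • WeierstrassCurve.Affine.Point.some _ _ hB) := by
    intro i j hij
    obtain ⟨x, y, h', e, -, hv⟩ := key i
    obtain ⟨x', y', h'', e', -, hv'⟩ := key j
    beta_reduce at hij
    rw [e, e'] at hij
    have h5 := (WeierstrassCurve.Affine.Point.some.inj hij).1
    have h6 : x = x' := by exact_mod_cast h5
    rw [h6, hv'] at hv
    have : (i : ℤ) = (j : ℤ) := by linarith
    exact_mod_cast this
  refine Set.infinite_range_of_injective hinj (hfm.subset ?_)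
  rintro _ ⟨j, rfl⟩
  exact AddSubmonoid.nsmul_mem _ (AddSubmonoid.mem_multiples _) _

private theorem TQ3_zero {q : ℕ} (hq : q.Prime) {z : ℤ} (h : ¬ (q : ℤ) ∣ z) : padicValRat q (z : ℚ) = 0 := by
  rw [padicValRat.of_int, padicValInt.eq_zero_of_not_dvd h]
  rfl

private theorem TQ3_odd {q : ℕ} (hq : q.Prime) (h2 : q ≠ 2) : ¬ (q : ℤ) ∣ 4 := by
  intro h
  have h3 : q ∣ 4 := by exact_mod_cast h
  have h4 : q ∣ 2 ^ 2 := by simpa using h3
  exact h2 ((Nat.prime_dvd_prime_iff_eq hq Nat.prime_two).1 (hq.dvd_of_dvd_pow h4))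

private theorem TQ3_ne {r : ℤ} (h0 : r ≠ 0) (h1 : r ≠ 1) (h2 : r ≠ -1) (h9 : r ≠ 9) (h10 : r ≠ -9) :
    r ^ 2 - 1 ≠ 0 ∧ r ^ 2 - 81 ≠ 0 := by
  constructor
  · intro h
    have h3 : (r - 1) * (r + 1) = 0 := by linear_combination h
    rcases mul_eq_zero.1 h3 with h4 | h4
    · exact h1 (by linarith)
    · exact h2 (by linarith)
  · intro h
    have h3 : (r - 9) * (r + 9) = 0 := by linear_combination h
    rcases mul_eq_zero.1 h3 with h4 | h4
    · exact h9 (by linarith)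
    · exact h10 (by linarith)

/-- an odd prime where the abscissa of `4 B` is not integral -/
private theorem TQ3_exists {r : ℤ} (h0 : r ≠ 0) (h1 : r ≠ 1) (h2 : r ≠ -1) (hodd : ¬ (2 : ℤ) ∣ r)
    (h3 : r ≠ 3) (h4 : r ≠ -3) (h9 : r ≠ 9) (h10 : r ≠ -9) :
    ∃ q : ℕ, q.Prime ∧ q ≠ 2 ∧
      padicValRat q (((r : ℚ) ^ 2 - 1) * ((r : ℚ) ^ 2 - 81) / (4 * (r : ℚ) ^ 2)) ≤ -2 := by
  obtain ⟨n1, n81⟩ := TQ3_ne h0 h1 h2 h9 h10
  have hr0 : (r : ℚ) ≠ 0 := by exact_mod_cast h0
  have n1' : ((r ^ 2 - 1 : ℤ) : ℚ) ≠ 0 := by exact_mod_cast n1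
  have n81' : ((r ^ 2 - 81 : ℤ) : ℚ) ≠ 0 := by exact_mod_cast n81
  have hval : ∀ q : ℕ, q.Prime → q ≠ 2 → (q : ℤ) ∣ r →
      padicValRat q (((r : ℚ) ^ 2 - 1) * ((r : ℚ) ^ 2 - 81) / (4 * (r : ℚ) ^ 2)) =
        padicValRat q ((r ^ 2 - 81 : ℤ) : ℚ) - 2 * padicValRat q (r : ℚ) := by
    intro q hq hq2 hqr
    haveI : Fact q.Prime := ⟨hq⟩
    have e1 : ((r : ℚ) ^ 2 - 1) = ((r ^ 2 - 1 : ℤ) : ℚ) := by push_cast; rfl
    have e2 : ((r : ℚ) ^ 2 - 81) = ((r ^ 2 - 81 : ℤ) : ℚ) := by push_cast; rfl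
    have e3 : (4 : ℚ) = ((4 : ℤ) : ℚ) := by norm_num
    have hd : ¬ (q : ℤ) ∣ r ^ 2 - 1 := by
      intro h
      have h5 : (q : ℤ) ∣ r ^ 2 := dvd_pow hqr two_ne_zero
      have h6 : (q : ℤ) ∣ 1 := by
        have := dvd_sub h5 h
        rwa [show r ^ 2 - (r ^ 2 - 1) = 1 by ring] at this
      have h7 : q ∣ 1 := by exact_mod_cast h6
      exact hq.one_lt.ne' (Nat.dvd_one.1 h7)
    have h4' : ((4 : ℤ) : ℚ) ≠ 0 := by norm_num
    rw [e1, e2, e3, padicValRat.div (mul_ne_zero n1' n81') (mul_ne_zero h4' (pow_ne_zero 2 hr0)),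
      padicValRat.mul n1' n81', padicValRat.mul h4' (pow_ne_zero 2 hr0), padicValRat.pow (r : ℚ),
      TQ3_zero hq hd, TQ3_zero hq (TQ3_odd hq hq2)]
    push_cast
    ring
  by_cases hall : ∀ q : ℕ, q.Prime → q ∣ r.natAbs → q = 3
  · -- `r = ± 3 ^ e`
    refine ⟨3, Nat.prime_three, by norm_num, ?_⟩
    haveI : Fact (Nat.Prime 3) := ⟨Nat.prime_three⟩
    obtain ⟨e, he⟩ : ∃ e, r.natAbs = 3 ^ e :=
      ⟨_, Nat.eq_prime_pow_of_unique_prime_dvd (Int.natAbs_ne_zero.2 h0) fun {d} hd hdr => hall d hd hdr⟩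
    have he3 : 3 ≤ e := by
      by_contra hcon
      have hlt : e < 3 := not_le.1 hcon
      interval_cases e
      · rcases Int.natAbs_eq r with h | h
        · rw [he] at h
          exact h1 (by rw [h]; norm_num)
        · rw [he] at h
          exact h2 (by rw [h]; norm_num)
      · rcases Int.natAbs_eq r with h | h
        · rw [he] at h
          exact h3 (by rw [h]; norm_num)
        · rw [he] at h
          exact h4 (by rw [h]; norm_num)
      · rcases Int.natAbs_eq r with h | h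
        · rw [he] at h
          exact h9 (by rw [h]; norm_num)
        · rw [he] at h
          exact h10 (by rw [h]; norm_num)
    obtain ⟨f, rfl⟩ : ∃ f, e = f + 3 := ⟨e - 3, by omega⟩
    have hrr : r ^ 2 = (3 : ℤ) ^ (2 * f + 6) := by
      have h5 : (r.natAbs : ℤ) ^ 2 = r ^ 2 := Int.natAbs_sq r
      rw [← h5, he]
      push_cast
      rw [← pow_mul]
      congr 1
      ring
    have hdvd : (3 : ℤ) ∣ r := by
      have h5 : (3 : ℕ) ∣ r.natAbs := by
        rw [he]
        exact dvd_pow_self 3 (by omega)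
      exact Int.natCast_dvd.2 h5
    have hrq : padicValRat 3 (r : ℚ) = (f : ℤ) + 3 := by
      have h5 : 2 * padicValRat 3 (r : ℚ) = 2 * ((f : ℤ) + 3) := by
        have h6 : padicValRat 3 ((r : ℚ) ^ 2) = 2 * padicValRat 3 (r : ℚ) := by
          rw [padicValRat.pow]
          norm_num
        have h7 : (r : ℚ) ^ 2 = (3 : ℚ) ^ (2 * f + 6) := by exact_mod_cast hrr
        have h8 : padicValRat 3 (3 : ℚ) = 1 := by
          have := padicValRat.self (p := 3) (by norm_num)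
          exact_mod_cast this
        rw [← h6, h7, padicValRat.pow, h8]
        push_cast
        ring
      linarith
    have h81 : padicValRat 3 ((r ^ 2 - 81 : ℤ) : ℚ) = 4 := by
      have h5 : ((r ^ 2 - 81 : ℤ) : ℚ) = (3 : ℚ) ^ 4 * ((9 * 3 ^ (2 * f) - 1 : ℤ) : ℚ) := by
        rw [hrr]
        push_cast
        ring
      have h6 : ¬ ((3 : ℕ) : ℤ) ∣ (9 * 3 ^ (2 * f) - 1 : ℤ) := by
        intro h
        have h7 : ((3 : ℕ) : ℤ) ∣ 9 * 3 ^ (2 * f) := Dvd.dvd.mul_right (by norm_num) _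
        have h8 := dvd_sub h7 h
        rw [show (9 * 3 ^ (2 * f) - (9 * 3 ^ (2 * f) - 1) : ℤ) = 1 by ring] at h8
        have h9' : (3 : ℕ) ∣ 1 := by exact_mod_cast h8
        omega
      have h7 : ((9 * 3 ^ (2 * f) - 1 : ℤ) : ℚ) ≠ 0 := by
        intro h
        have h8 : (9 * 3 ^ (2 * f) - 1 : ℤ) = 0 := by exact_mod_cast h
        exact h6 (by rw [h8]; exact dvd_zero _)
      have h8 : padicValRat 3 (3 : ℚ) = 1 := by
        have := padicValRat.self (p := 3) (by norm_num)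
        exact_mod_cast this
      rw [h5, padicValRat.mul (by norm_num) h7, padicValRat.pow, h8, TQ3_zero Nat.prime_three h6]
      norm_num
    rw [hval 3 Nat.prime_three (by norm_num) (by exact_mod_cast hdvd), h81, hrq]
    have : (0 : ℤ) ≤ (f : ℤ) := Int.natCast_nonneg f
    linarith
  · push Not at hall
    obtain ⟨q, hq, hqr, hq3⟩ := hall
    haveI : Fact q.Prime := ⟨hq⟩
    have hqr' : (q : ℤ) ∣ r := Int.natCast_dvd.2 hqr
    have hq2 : q ≠ 2 := by
      rintro rfl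
      exact hodd (by exact_mod_cast hqr')
    refine ⟨q, hq, hq2, ?_⟩
    have h81 : ¬ (q : ℤ) ∣ r ^ 2 - 81 := by
      intro h
      have h5 : (q : ℤ) ∣ r ^ 2 := dvd_pow hqr' two_ne_zero
      have h6 : (q : ℤ) ∣ 81 := by
        have := dvd_sub h5 h
        rwa [show r ^ 2 - (r ^ 2 - 81) = 81 by ring] at this
      have h7 : q ∣ 3 ^ 4 := by
        have : q ∣ 81 := by exact_mod_cast h6
        simpa using this
      exact hq3 ((Nat.prime_dvd_prime_iff_eq hq Nat.prime_three).1 (hq.dvd_of_dvd_pow h7))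
    rw [hval q hq hq2 hqr', TQ3_zero hq h81]
    obtain ⟨s, hs⟩ := hqr'
    have hs0 : s ≠ 0 := by
      rintro rfl
      exact h0 (by rw [hs, mul_zero])
    have h5 : padicValRat q (r : ℚ) = 1 + padicValRat q (s : ℚ) := by
      have h6 : (r : ℚ) = (q : ℚ) * (s : ℚ) := by rw [hs]; push_cast; rfl
      rw [h6, padicValRat.mul (by exact_mod_cast hq.ne_zero) (by exact_mod_cast hs0),
        padicValRat.self hq.one_lt]
    have h6 : 0 ≤ padicValRat q (s : ℚ) := by
      rw [padicValRat.of_int]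
      exact Int.natCast_nonneg _
    rw [h5]
    linarith

theorem torsB_int [CharZero k] {r : ℤ} (h0 : r ≠ 0) (h1 : r ≠ 1) (h2 : r ≠ -1) :
    TorsB (r : k) ↔ r = 3 ∨ r = -3 ∨ r = 9 ∨ r = -9 := by
  constructor
  · intro hT
    by_contra hcon
    push Not at hcon
    obtain ⟨h3, h4, h9, h10⟩ := hcon
    have h0k : (r : k) ≠ 0 := by exact_mod_cast h0
    have h1k : (r : k) ^ 2 ≠ 1 := torsB_r hT
    have hodd : ¬ (2 : ℤ) ∣ r := by
      rintro ⟨s, hs⟩
      have hs0 : s ≠ 0 := by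
        rintro rfl
        exact h0 (by rw [hs, mul_zero])
      have h5 : padicValRat 2 (r : ℚ) ≠ 0 := by
        have h6 : (r : ℚ) = (2 : ℚ) * (s : ℚ) := by rw [hs]; push_cast; rfl
        have h7 : padicValRat 2 (2 : ℚ) = 1 := by
          have := padicValRat.self (p := 2) (by norm_num)
          exact_mod_cast this
        have h8 : 0 ≤ padicValRat 2 (s : ℚ) := by
          rw [padicValRat.of_int]
          exact Int.natCast_nonneg _
        rw [h6, padicValRat.mul (by norm_num) (by exact_mod_cast hs0), h7]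
        intro h
        linarith
      have h6 := torsB_inf (k := k) h5
      rw [Rat.cast_intCast] at h6
      exact h6 hT
    obtain ⟨q, hq, hq2, hv⟩ := TQ3_exists h0 h1 h2 hodd h3 h4 h9 h10
    exact TQ3_inf hq hq2 h0k h1k hv hT
  · rintro (rfl | rfl | rfl | rfl)
    · have := torsB_3 (k := k)
      exact_mod_cast this
    · have := torsB_neg (torsB_3 (k := k))
      exact_mod_cast this
    · have := torsB_9 (k := k)
      exact_mod_cast this
    · have := torsB_neg (torsB_9 (k := k))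
      exact_mod_cast this

end Pool.Agent.LibCW77
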