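import Pool.Agent.LibCW77.FG4
import Pool.Agent.LibCW77.FB7
import Pool.Agent.LibCW77.FM3
import Pool.Agent.LibCW77.FM4
import Pool.Agent.LibCW77.TQ3

/-!
Family part: the criterion for the curves `fam α` (row (F), owner helper91; the converse direction by helper11).

`fam_iff`    torsion of the cycle class on `fam α` is torsion of `B` on `Er (rr α)`
`torsB_inf`  infinite order for `r` rational with `v₂(r) ≠ 0`
`torsB_9`, `torsB_27`  torsion for `r = 9` and `r² = -27`
`torsB_many` infinitely many torsion parameters
`torsB_alg`  torsion parameters are algebraic numbers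
`torsB_int`  the complete list of torsion parameters in `ℤ`
-/

open scoped Classical
open Polynomial

namespace Pool.Agent.LibCW77

open Pool.Agent.LibBH2
open Pool.Agent.LibCHd (VR RF Red FunF)

variable {k : Type} [Field k]

theorem fam_iff [IsAlgClosed k] [CharZero k] {α ζ : k} (h : (fam α).Good) (hζ : IsPrimitiveRoot ζ 3) :
    IsOfFinAddOrder (dz (fam α) ζ Q0 + dz (fam α) ζ Qinf) ↔ TorsB (rr α) :=
  ⟨fam_tors h hζ, fam_conv h hζ⟩

end Pool.Agent.LibCW77
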