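import Pool.Agent.LibCW77.FGDefs
import Pool.Agent.LibCW77.FE1

/-!
[CW77 FG0] The curve `Er r` is elliptic, and points over `k` and over `k / k`.

Plan. `er_ell`: `Δ = 432 c ^ 3 (4 - c)` with `c = cE r = 4 (1 - r ^ 2)` (`unfold WeierstrassCurve.Δ b₂ b₄ b₆ b₈`, `simp [Er, cE]`, `ring`),
`c ≠ 0`, `4 - c = 4 r ^ 2 ≠ 0`; `WeierstrassCurve.IsElliptic` is `IsUnit Δ`.
`const_tors`: `constPt k : E(k) → (E / k)(k)` is injective and additive (search `constPt` in LibBH2, LibIG50, LibCHd, LibCV66: lemmas like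
`constPt_add`, `mp`, or prove: it is `WeierstrassCurve.Affine.Point.map` / `baseChange`), so `n • constPt k P = constPt k (n • P)` and the
orders agree.
-/

open scoped Classical
open Polynomial WeierstrassCurve

namespace Pool.Agent.LibCW77

open Pool.Agent.LibBH2
open Pool.Agent.LibCHd (VR RF Red FunF)
open Pool.Agent.LibCV66 (Geo Vl tot rd)

variable {k : Type} [Field k]

theorem er_ell [CharZero k] {r : k} (h0 : r ≠ 0) (h1 : r ^ 2 ≠ 1) : WeierstrassCurve.IsElliptic (Er r) := by
  refine ⟨?_⟩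
  rw [isUnit_iff_ne_zero]
  have h : (Er r).Δ = 432 * (4 * (1 - r ^ 2)) ^ 3 * (4 * r ^ 2) := by
    simp only [WeierstrassCurve.Δ, WeierstrassCurve.b₂, WeierstrassCurve.b₄, WeierstrassCurve.b₆,
      WeierstrassCurve.b₈, Er]
    ring
  have h2 : (1 : k) - r ^ 2 ≠ 0 := sub_ne_zero.2 (Ne.symm h1)
  have h4 : (4 : k) ≠ 0 := by norm_num
  have h432 : (432 : k) ≠ 0 := by norm_num
  rw [h]
  exact mul_ne_zero (mul_ne_zero h432 (pow_ne_zero 3 (mul_ne_zero h4 h2)))
    (mul_ne_zero h4 (pow_ne_zero 2 h0))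

private theorem FG0_nons (L : Type) [Field L] {K : Type} [Field K] [Algebra K L]
    (W : WeierstrassCurve K) {x y : K} (h : W.toAffine.Nonsingular x y) :
    (W⁄L).toAffine.Nonsingular (algebraMap K L x) (algebraMap K L y) :=
  (WeierstrassCurve.Affine.map_nonsingular W (algebraMap K L).injective x y).2 h

private theorem FG0_some (L : Type) [Field L] {K : Type} [Field K] [Algebra K L]
    (W : WeierstrassCurve K) {x y : K} (h : W.toAffine.Nonsingular x y) :
    (constPt L (Affine.Point.some x y h) : (W⁄L).toAffine.Point) =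
      Affine.Point.some (algebraMap K L x) (algebraMap K L y) (FG0_nons L W h) := rfl

private theorem FG0_add (L : Type) [Field L] {K : Type} [Field K] [Algebra K L]
    (W : WeierstrassCurve K) (P Q : W.toAffine.Point) :
    (constPt L (P + Q) : (W⁄L).toAffine.Point) = constPt L P + constPt L Q := by
  rcases P with _ | ⟨x₁, y₁, h₁⟩ <;> rcases Q with _ | ⟨x₂, y₂, h₂⟩
  any_goals rfl
  by_cases hxy : x₁ = x₂ ∧ y₁ = W.toAffine.negY x₂ y₂
  · rw [Affine.Point.add_of_Y_eq hxy.left hxy.right]
    have hy : algebraMap K L y₁ =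
        (W⁄L).toAffine.negY (algebraMap K L x₂) (algebraMap K L y₂) := by
      rw [hxy.right]; exact (Affine.map_negY (W' := W) (algebraMap K L) x₂ y₂).symm
    exact (Affine.Point.add_of_Y_eq (W := (W⁄L).toAffine) (h₁ := FG0_nons L W h₁)
      (h₂ := FG0_nons L W h₂) (congr_arg _ hxy.left) hy).symm
  · have hxy' : ¬(algebraMap K L x₁ = algebraMap K L x₂ ∧
        algebraMap K L y₁ = (W⁄L).toAffine.negY (algebraMap K L x₂) (algebraMap K L y₂)) := by
      rintro ⟨h1, h2⟩
      apply hxy
      refine ⟨(algebraMap K L).injective h1, (algebraMap K L).injective ?_⟩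
      rw [h2]
      exact Affine.map_negY (W' := W) (algebraMap K L) x₂ y₂
    rw [Affine.Point.add_some hxy]
    refine Eq.trans ?_ (Affine.Point.add_some (W := (W⁄L).toAffine) (h₁ := FG0_nons L W h₁)
      (h₂ := FG0_nons L W h₂) hxy').symm
    have hs : (W⁄L).toAffine.slope (algebraMap K L x₁) (algebraMap K L x₂) (algebraMap K L y₁)
        (algebraMap K L y₂) = algebraMap K L (W.toAffine.slope x₁ x₂ y₁ y₂) :=
      Affine.map_slope (W := W) (algebraMap K L) x₁ x₂ y₁ y₂
    rw [FG0_some]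
    simp only [hs, Affine.Point.some.injEq]
    exact ⟨(Affine.map_addX (W' := W) (algebraMap K L) x₁ x₂ _).symm,
      (Affine.map_addY (W' := W) (algebraMap K L) x₁ y₁ x₂ _).symm⟩

theorem const_add {E : WeierstrassCurve k} (P Q : E.toAffine.Point) :
    constPt k (P + Q) = constPt k P + constPt k Q := FG0_add k E P Q

theorem const_tors {E : WeierstrassCurve k} (P : E.toAffine.Point) (h : IsOfFinAddOrder (constPt k P)) :
    IsOfFinAddOrder P := by
  rw [isOfFinAddOrder_iff_nsmul_eq_zero] at h ⊢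
  obtain ⟨n, hn, h⟩ := h
  refine ⟨n, hn, ?_⟩
  have h1 : ∀ m : ℕ, constPt k (m • P) = m • constPt k P := by
    intro m
    induction m with
    | zero => rw [zero_nsmul, zero_nsmul]; rfl
    | succ m ih => rw [succ_nsmul, succ_nsmul, const_add, ih]
  have h2 : constPt k (n • P) = 0 := by rw [h1, h]
  generalize n • P = Q at h2
  match Q, h2 with
  | .zero, _ => rfl
  | .some x y hq, h3 =>
    rw [FG0_some] at h3
    exact absurd h3 (by intro h4; cases h4)

end Pool.Agent.LibCW77
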