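import Pool.Agent.LibCW77.FGDefs
import Pool.Agent.LibCW77.FA4
import Pool.Agent.LibCW77.FE1

/-!
[CW77 FG1] The point of the elliptic curve over the function field of `fam α`.

Plan. Write `r = rr α` (in `k`, then in `N`), `y = fy x`. `x + 1 ≠ 0`, `y ≠ 0`: `x` is transcendental. From `hx.on`
(`v ^ 3 (x + 1)(x + α)(x + α⁻¹) = (x - 1)(x - α)(x - α⁻¹)`, `Fin.prod_univ_three`) and `x = (1 + y) / (1 - y)`:
`(x - α)(x - α⁻¹) / ((x + α)(x + α⁻¹)) = (y ^ 2 + r) / (1 + r y ^ 2)` (with `t = α + α⁻¹`, `r = (2 - t) / (2 + t)`; clear denominators: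
`(x ^ 2 - t x + 1)(1 + r y ^ 2) = (x ^ 2 + t x + 1)(y ^ 2 + r)` after `y = (x - 1) / (x + 1)`, `r = - ((α - 1) / (α + 1)) ^ 2`, `field_simp; ring`),
so `fg_rel: v ^ 3 (1 + r y ^ 2) = y (y ^ 2 + r)`. `fg_ne: v + y ≠ 0`: otherwise `v = - y` and
`- y ^ 3 (1 + r y ^ 2) = y (y ^ 2 + r)`, a nonzero polynomial relation for `y` (`r ≠ 0`), but `y` is transcendental (or for `x`).
`fg_pt`: the equation `Y ^ 2 = X' ^ 3 + (3 X' + c) ^ 2` for `X' = - c X`, `Y = c W` is `W ^ 2 = (1 - 3 X) ^ 2 - c X ^ 3`; multiplied by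
`(v + y) ^ 6`: `r ^ 2 y ^ 2 (1 + v ^ 3 y) ^ 2 = (v ^ 3 + y ^ 3) ^ 2 - 4 (1 - r ^ 2) v ^ 3 y ^ 3`, and the difference of the two sides is a
multiple of the relation: `(v ^ 3 + y ^ 3) ^ 2 - 4 v ^ 3 y ^ 3 = (v ^ 3 - y ^ 3) ^ 2` and `v ^ 3 - y ^ 3 = r y (1 - v ^ 3 y)`
by `fg_rel`, and `r ^ 2 y ^ 2 ((1 - v ^ 3 y) ^ 2 + 4 v ^ 3 y) = r ^ 2 y ^ 2 (1 + v ^ 3 y) ^ 2`. Nonsingular: over `N` the base
change of `Er r` is `Er (algebraMap r)` (`FG1_bc`, by `WeierstrassCurve.map`, `simp [Er]`), and `fe_ns` (FE1) over `N`, or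
`equation_iff_nonsingular` for elliptic curves.
-/

open scoped Classical
open Polynomial WeierstrassCurve

namespace Pool.Agent.LibCW77

open Pool.Agent.LibBH2
open Pool.Agent.LibCHd (VR RF Red FunF)
open Pool.Agent.LibCV66 (Geo Vl tot rd)

variable {k : Type} [Field k]

private theorem fg1_eq {α : k} (h0 : α ≠ 0) {N : Type} [Field N] [Algebra k N] {x v : N}
    (hon : OnC ((fam α).over N) (some x) (some v)) :
    v ^ 3 * ((x + 1) * (x + algebraMap k N α) * (algebraMap k N α * x + 1)) =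
      (x - 1) * (x - algebraMap k N α) * (algebraMap k N α * x - 1) := by
  have hA : algebraMap k N α ≠ 0 := (map_ne_zero (algebraMap k N)).mpr h0
  have hon' : v ^ 3 * ((x + 1) * (x + algebraMap k N α) * (x + (algebraMap k N α)⁻¹)) =
      (x - 1) * (x - algebraMap k N α) * (x - (algebraMap k N α)⁻¹) := by
    have h3 := hon
    simp only [OnC, Dat.over, Dat.map, fam, symD, Fin.prod_univ_three] at h3
    simpa using h3
  set A := algebraMap k N α with hAdef
  have h3 : A * (v ^ 3 * ((x + 1) * (x + A) * (x + A⁻¹))) = A * ((x - 1) * (x - A) * (x - A⁻¹)) := by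
    rw [hon']
  have h4 : A * (x + A⁻¹) = A * x + 1 := by
    rw [mul_add, mul_inv_cancel₀ hA]
  have h5 : A * (x - A⁻¹) = A * x - 1 := by
    rw [mul_sub, mul_inv_cancel₀ hA]
  calc v ^ 3 * ((x + 1) * (x + A) * (A * x + 1))
      = A * (v ^ 3 * ((x + 1) * (x + A) * (x + A⁻¹))) := by rw [← h4]; ring
    _ = A * ((x - 1) * (x - A) * (x - A⁻¹)) := h3
    _ = (x - 1) * (x - A) * (A * x - 1) := by rw [← h5]; ring

private theorem fg1_cst {c : Dat k} {N : Type} [Field N] [Algebra k N] {x v : N} (hx : GenC c x v) (a : k) :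
    x ≠ algebraMap k N a := by
  intro ha
  apply hx.tr
  rw [ha]
  exact isAlgebraic_algebraMap a

private theorem fg1_x {c : Dat k} {N : Type} [Field N] [Algebra k N] {x v : N} (hx : GenC c x v) :
    x + 1 ≠ 0 ∧ x - 1 ≠ 0 := by
  constructor
  · intro h3
    apply fg1_cst hx (-1)
    rw [map_neg, map_one]
    linear_combination h3
  · intro h3
    apply fg1_cst hx 1
    rw [map_one]
    linear_combination h3

theorem fg_rel [CharZero k] {α : k} (h : (fam α).Good) {N : Type} [Field N] [Algebra k N] {x v : N}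
    (hx : GenC (fam α) x v) :
    v ^ 3 * (1 + algebraMap k N (rr α) * fy x ^ 2) = fy x * (fy x ^ 2 + algebraMap k N (rr α)) := by
  obtain ⟨h0, _, _, hb, _, _⟩ := fam_facts h
  have hB : algebraMap k N α + 1 ≠ 0 := by
    have := (map_ne_zero (algebraMap k N)).mpr hb
    rwa [map_add, map_one] at this
  have hr : algebraMap k N (rr α) = -((algebraMap k N α - 1) / (algebraMap k N α + 1)) ^ 2 := by
    simp [rr]
  have hon2 := fg1_eq h0 hx.on
  obtain ⟨hx2, hx1⟩ := fg1_x hx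
  set A := algebraMap k N α with hAdef
  rw [hr]
  unfold fy
  field_simp
  linear_combination 4 * hon2

/-- a transcendental element is not a root of a polynomial of degree four -/
private theorem fg1_quart {N : Type} [Field N] [Algebra k N] {x : N} (hx : Transcendental k x) {r : k}
    (hr : r + 1 ≠ 0) (h2 : (2 : k) ≠ 0) :
    algebraMap k N r * (x - 1) ^ 4 + 2 * ((x - 1) ^ 2 * (x + 1) ^ 2) + algebraMap k N r * (x + 1) ^ 4 ≠ 0 := by
  intro h
  apply hx
  refine ⟨C r * (X - 1) ^ 4 + 2 * ((X - 1) ^ 2 * (X + 1) ^ 2) + C r * (X + 1) ^ 4, ?_, ?_⟩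
  · intro h3
    have h4 : (C r * (X - 1) ^ 4 + 2 * ((X - 1) ^ 2 * (X + 1) ^ 2) + C r * (X + 1) ^ 4 : k[X]) =
        C (2 * (r + 1)) * X ^ 4 + C (12 * r - 4) * X ^ 2 + C (2 * (r + 1)) := by
      simp only [map_mul, map_add, map_sub, map_one, map_ofNat]
      ring
    rw [h4] at h3
    have h5 := congrArg (fun p : k[X] => p.coeff 4) h3
    simp only [coeff_add, coeff_C_mul, coeff_X_pow, coeff_C, coeff_zero] at h5
    norm_num at h5
    rcases h5 with h5 | h5
    · exact h2 h5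
    · exact hr h5
  · simp only [map_add, map_mul, map_pow, map_sub, aeval_X, map_one, map_ofNat, aeval_C]
    exact h

theorem fg_ne [CharZero k] {α : k} (h : (fam α).Good) {N : Type} [Field N] [Algebra k N] {x v : N}
    (hx : GenC (fam α) x v) : x + 1 ≠ 0 ∧ x - 1 ≠ 0 ∧ fy x ≠ 0 ∧ v ≠ 0 ∧ v + fy x ≠ 0 := by
  obtain ⟨h0, _, _, hb, hr0, hr1⟩ := fam_facts h
  obtain ⟨hx2, hx1⟩ := fg1_x hx
  have hy : fy x ≠ 0 := div_ne_zero hx1 hx2
  have hv : v ≠ 0 := by
    intro hv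
    have h3 := hx.on
    simp only [OnC] at h3
    rw [hv, zero_pow (by simp [Dat.over, Dat.map, fam, symD]), zero_mul] at h3
    have h4 := Finset.prod_ne_zero_iff.mpr (fun i (_ : i ∈ Finset.univ) =>
      sub_ne_zero.mpr (fg1_cst hx ((fam α).a i)))
    exact h4 h3.symm
  refine ⟨hx2, hx1, hy, hv, ?_⟩
  have hr2 : rr α + 1 ≠ 0 := by
    intro h3
    apply hr1
    have h4 : rr α = -1 := by linear_combination h3
    rw [h4]
    norm_num
  intro h3
  have hrel := fg_rel h hx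
  have hv2 : v = -fy x := by linear_combination h3
  rw [hv2] at hrel
  have h5 : fy x * (algebraMap k N (rr α) * fy x ^ 4 + 2 * fy x ^ 2 + algebraMap k N (rr α)) = 0 := by
    linear_combination -hrel
  have h6 : algebraMap k N (rr α) * fy x ^ 4 + 2 * fy x ^ 2 + algebraMap k N (rr α) = 0 :=
    (mul_eq_zero.mp h5).resolve_left hy
  apply fg1_quart hx.tr hr2 two_ne_zero
  have h7 : (algebraMap k N (rr α) * fy x ^ 4 + 2 * fy x ^ 2 + algebraMap k N (rr α)) * (x + 1) ^ 4 =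
      algebraMap k N (rr α) * (x - 1) ^ 4 + 2 * ((x - 1) ^ 2 * (x + 1) ^ 2) +
        algebraMap k N (rr α) * (x + 1) ^ 4 := by
    unfold fy
    field_simp
  rw [← h7, h6, zero_mul]

private theorem fg1_bc (r : k) (N : Type) [Field N] [Algebra k N] :
    ((Er r)⁄N) = Er (algebraMap k N r) := by
  ext <;> simp [Er, map_ofNat]

theorem fg_pt [CharZero k] {α : k} (h : (fam α).Good) {N : Type} [Field N] [Algebra k N] {x v : N}
    (hx : GenC (fam α) x v) : ((Er (rr α))⁄N).toAffine.Nonsingular (cX α x v) (cY α x v) := by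
  obtain ⟨h0, _, _, hb, hr0, hr1⟩ := fam_facts h
  obtain ⟨hx2, hx1, hy, hv, hvy⟩ := fg_ne h hx
  have hrel := fg_rel h hx
  haveI : CharZero N := charZero_of_injective_algebraMap (algebraMap k N).injective
  have hR0 : algebraMap k N (rr α) ≠ 0 := (map_ne_zero (algebraMap k N)).mpr hr0
  have hR1 : (algebraMap k N (rr α)) ^ 2 ≠ 1 := by
    intro h3
    apply hr1
    apply (algebraMap k N).injective
    rw [map_pow, map_one]
    exact h3
  rw [fg1_bc]
  apply fe_ns hR0 hR1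
  have hc : algebraMap k N (cE (rr α)) = cE (algebraMap k N (rr α)) := by
    simp [cE, map_ofNat]
  unfold cX cY
  rw [hc]
  set R := algebraMap k N (rr α) with hRdef
  set y := fy x with hydef
  have hX : fX x v = v * y / (v + y) ^ 2 := rfl
  have hW : fW R x v = R * y * (1 + v ^ 3 * y) / (v + y) ^ 3 := rfl
  have h1 : v ^ 3 - y ^ 3 = R * y * (1 - v ^ 3 * y) := by linear_combination hrel
  have h2 : R ^ 2 * y ^ 2 * (1 + v ^ 3 * y) ^ 2 = (v ^ 3 + y ^ 3) ^ 2 - 4 * (1 - R ^ 2) * v ^ 3 * y ^ 3 := by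
    linear_combination (-(v ^ 3 - y ^ 3 + R * y * (1 - v ^ 3 * y))) * h1
  have h3 : fW R x v ^ 2 = (1 - 3 * fX x v) ^ 2 - cE R * fX x v ^ 3 := by
    have h4 : fW R x v ^ 2 * (v + y) ^ 6 = R ^ 2 * y ^ 2 * (1 + v ^ 3 * y) ^ 2 := by
      rw [hW]
      field_simp
    have h5 : ((1 - 3 * fX x v) ^ 2 - cE R * fX x v ^ 3) * (v + y) ^ 6 =
        (v ^ 3 + y ^ 3) ^ 2 - 4 * (1 - R ^ 2) * v ^ 3 * y ^ 3 := by
      rw [hX]
      unfold cE
      field_simp
      ring
    apply mul_right_cancel₀ (pow_ne_zero 6 hvy)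
    rw [h4, h5, h2]
  linear_combination (cE R) ^ 2 * h3

end Pool.Agent.LibCW77
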