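import Pool.Agent.LibCW77.FG0
import Pool.Agent.LibCW77.FG1
import Pool.Agent.LibCW77.FE2

/-!
[CW77 FG2] The values of the point at the four places.

Plan. Cite FE1, FE2 (for the nonsingular points), FG1. `SpP p.1 (gpt x v) (pt1 (ctp _ Q))` gives (`gpt`, `pt1`, `ctp`, see `DE3_sp` in DE3.lean)
`SpO w (some x) (Q 0)`, `SpO w (some v) (Q 1)`. For `Q0 = (0, -1)`: `Red w x 0`, `Red w v (-1)`, so `Red w (fy x) (-1)`. For `Qinf = (∞, 1)`:
`w.ord x < 0`, `Red w v 1`, `fy x = (1 - x⁻¹) / (1 + x⁻¹)`, `Red w (fy x) 1`. `tau ζ Q0 = (0, -ζ)`, `tau ζ Qinf = (∞, ζ)`. Then `v + fy x` has the value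
`-2`, `2`, `-(1 + ζ) = ζ ^ 2`, `1 + ζ = - ζ ^ 2`, never `0` (`1 + ζ + ζ ^ 2 = 0`, `ζ ^ 3 = 1`), and `Red` is compatible with products, quotients by units,
constants (`Red`-lemmas in LibCHd / LibCW77: `red_mul`, `red_add`, `red_const`, ...): values of `fX`: `1/4` at `Q0`, `Qinf`; `1` at the other two;
values of `fW`: `r / 4`, resp. `- 2 r`. So the coordinates `cX`, `cY` have the values `(r ^ 2 - 1, r (1 - r ^ 2))`, resp. `(4 (r ^ 2 - 1), 8 r (r ^ 2 - 1))`.
The `RF w` valued point: `SpR` of `some` with `some`, `rd_eq`, then `LibCV66.ev_apply`, `mp_some`, and `constPt` of a point is `some` of the images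
(`algebraMap k k = id`; the homomorphism `p.2` is the identity on constants).
-/

open scoped Classical
open Polynomial WeierstrassCurve

namespace Pool.Agent.LibCW77

open Pool.Agent.LibBH2
open Pool.Agent.LibCHd (VR RF Red FunF)
open Pool.Agent.LibCV66 (Geo Vl tot rd)

variable {k : Type} [Field k]

private theorem FG2_y0 {N : Type} [Field N] [Algebra k N] {w : Place k N} {x : N}
    (h : Red w x (algebraMap k (RF w) 0)) : Red w (fy x) (algebraMap k (RF w) (-1)) := by
  have h1 := h.sub (Pool.Agent.LibCHd.red_one w)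
  have h2 := h.add (Pool.Agent.LibCHd.red_one w)
  have h3 := h1.div h2 (by simp)
  have e : ((algebraMap k (RF w)) 0 - 1) / ((algebraMap k (RF w)) 0 + 1) =
      algebraMap k (RF w) (-1) := by simp
  rw [e] at h3
  exact h3

private theorem FG2_yinf {N : Type} [Field N] [Algebra k N] {w : Place k N} {x : N}
    (h : w.ord x < 0) : Red w (fy x) (algebraMap k (RF w) 1) := by
  have hx : x ≠ 0 := by
    rintro rfl
    rw [w.ord_zero] at h
    exact lt_irrefl _ h
  have h1 : Red w x⁻¹ 0 := Pool.Agent.LibCHd.red_zero_iff.2 (Or.inr (by rw [w.ord_inv]; omega))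
  have h2 := ((Pool.Agent.LibCHd.red_one w).sub h1).div ((Pool.Agent.LibCHd.red_one w).add h1)
    (by simp)
  have e1 : (1 : N) - x⁻¹ = (x - 1) / x := by field_simp
  have e2 : (1 : N) + x⁻¹ = (x + 1) / x := by field_simp
  rw [e1, e2, div_div_div_cancel_right₀ hx] at h2
  have e3 : ((1 : RF w) - 0) / (1 + 0) = algebraMap k (RF w) 1 := by simp
  rw [e3] at h2
  exact h2

private theorem FG2_key {α : k} {N : Type} [Field N] [Algebra k N] {x v : N}
    [(Er (rr α)).IsElliptic] (hP : ((Er (rr α))⁄N).toAffine.Nonsingular (cX α x v) (cY α x v))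
    (p : Geo k N k) {y0 v0 a b : k} (hy : Red p.1 (fy x) (algebraMap k (RF p.1) y0))
    (hv : Red p.1 v (algebraMap k (RF p.1) v0)) (hs : v0 + y0 ≠ 0)
    (ha : a = -(cE (rr α) * (v0 * y0 / (v0 + y0) ^ 2)))
    (hb : b = cE (rr α) * (rr α * y0 * (1 + v0 ^ 3 * y0) / (v0 + y0) ^ 3))
    (hA : (Er (rr α)).Nonsingular a b) :
    LibCV66.ev p (.some _ _ hP : ((Er (rr α))⁄N).toAffine.Point) =
      constPt k (.some _ _ hA : (Er (rr α)).toAffine.Point) := by
  have hsum := hv.add hy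
  have hs' : algebraMap k (RF p.1) v0 + algebraMap k (RF p.1) y0 ≠ 0 := by
    rw [← map_add]
    exact (map_ne_zero_iff _ (algebraMap k (RF p.1)).injective).2 hs
  have h1 : Red p.1 (cX α x v) (algebraMap k (RF p.1) a) := by
    have h2 := ((Pool.Agent.LibCHd.red_const p.1 (cE (rr α))).mul
      ((hv.mul hy).div (hsum.pow 2) (pow_ne_zero _ hs'))).neg
    have e : algebraMap k (RF p.1) a = -(algebraMap k (RF p.1) (cE (rr α)) *
        (algebraMap k (RF p.1) v0 * algebraMap k (RF p.1) y0 /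
          (algebraMap k (RF p.1) v0 + algebraMap k (RF p.1) y0) ^ 2)) := by
      rw [ha]
      simp only [map_neg, map_mul, map_div₀, map_pow, map_add]
    rw [e]
    exact h2
  have h3 : Red p.1 (cY α x v) (algebraMap k (RF p.1) b) := by
    have h2 := (Pool.Agent.LibCHd.red_const p.1 (cE (rr α))).mul
      ((((Pool.Agent.LibCHd.red_const p.1 (rr α)).mul hy).mul
        ((Pool.Agent.LibCHd.red_one p.1).add ((hv.pow 3).mul hy))).div (hsum.pow 3)
          (pow_ne_zero _ hs'))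
    have e : algebraMap k (RF p.1) b = algebraMap k (RF p.1) (cE (rr α)) *
        (algebraMap k (RF p.1) (rr α) * algebraMap k (RF p.1) y0 *
          (1 + algebraMap k (RF p.1) v0 ^ 3 * algebraMap k (RF p.1) y0) /
          (algebraMap k (RF p.1) v0 + algebraMap k (RF p.1) y0) ^ 3) := by
      rw [hb]
      simp only [map_mul, map_div₀, map_pow, map_add, map_one]
    rw [e]
    exact h2
  have h4 : Pool.Agent.LibCHd.SpR p.1 (.some _ _ hP : ((Er (rr α))⁄N).toAffine.Point)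
      (constPt (RF p.1) (.some _ _ hA : (Er (rr α)).toAffine.Point)) := ⟨h1, h3⟩
  rw [LibCV66.ev_apply, LibCV66.rd_eq h4]
  obtain ⟨h5, h6⟩ := Pool.Agent.LibCHd.mp_some (W := Er (rr α)) p.2
    (algebraMap k (RF p.1) a) (algebraMap k (RF p.1) b)
    ((WeierstrassCurve.Affine.map_nonsingular (Er (rr α)) (algebraMap k (RF p.1)).injective a b).2 hA)
  refine h6.trans ?_
  simp only [constPt, WeierstrassCurve.Affine.Point.some.injEq]
  exact ⟨p.2.commutes a, p.2.commutes b⟩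

private theorem FG2_sp {N : Type} [Field N] [Algebra k N] {x v : N} {w : Place k N}
    {Q : Fin 2 → Option k} (hp : SpP w (gpt x v) (pt1 (ctp (RF w) Q))) :
    SpO w (some x) ((Q 0).map (algebraMap k (RF w))) ∧
      SpO w (some v) ((Q 1).map (algebraMap k (RF w))) :=
  ⟨hp 0 0, hp 0 1⟩

theorem fg_ev0 [CharZero k] {α ζ : k} (h : (fam α).Good) (hζ : IsPrimitiveRoot ζ 3) {N : Type} [Field N] [Algebra k N]
    {x v : N} (hx : GenC (fam α) x v) [(Er (rr α)).IsElliptic] (p : Geo k N k) (Q : Fin 2 → Option k)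
    (hQ : Q = Q0 ∨ Q = Qinf) (hp : SpP p.1 (gpt x v) (pt1 (ctp (RF p.1) Q))) :
    ∃ hA : (Er (rr α)).Nonsingular ((rr α) ^ 2 - 1) (rr α * (1 - (rr α) ^ 2)),
      LibCV66.ev p (.some _ _ (fg_pt h hx) : ((Er (rr α))⁄N).toAffine.Point) =
        constPt k (.some _ _ hA : (Er (rr α)).toAffine.Point) := by
  obtain ⟨-, -, -, -, hr0, hr1⟩ := fam_facts h
  have hBns := fe_B hr0 hr1
  obtain ⟨h2B, -⟩ := fe_2B hr0 hr1 hBns
  obtain ⟨hneg, -⟩ := fe_neg h2B
  have e0 : -(rr α * ((rr α) ^ 2 - 1)) = rr α * (1 - (rr α) ^ 2) := by ring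
  rw [e0] at hneg
  refine ⟨hneg, ?_⟩
  obtain ⟨s0, s1⟩ := FG2_sp hp
  have h2 : (2 : k) ≠ 0 := two_ne_zero
  rcases hQ with rfl | rfl
  · have hy : Red p.1 (fy x) (algebraMap k (RF p.1) (-1)) := FG2_y0 s0
    have hv : Red p.1 v (algebraMap k (RF p.1) (-1)) := s1
    refine FG2_key _ p hy hv ?_ ?_ ?_ hneg
    · norm_num
    · unfold cE
      norm_num
      ring
    · unfold cE
      norm_num
      ring
  · have hy : Red p.1 (fy x) (algebraMap k (RF p.1) 1) := FG2_yinf s0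
    have hv : Red p.1 v (algebraMap k (RF p.1) 1) := s1
    refine FG2_key _ p hy hv ?_ ?_ ?_ hneg
    · norm_num
    · unfold cE
      norm_num
      ring
    · unfold cE
      norm_num
      ring

theorem fg_ev1 [CharZero k] {α ζ : k} (h : (fam α).Good) (hζ : IsPrimitiveRoot ζ 3) {N : Type} [Field N] [Algebra k N]
    {x v : N} (hx : GenC (fam α) x v) [(Er (rr α)).IsElliptic] (p : Geo k N k) (Q : Fin 2 → Option k)
    (hQ : Q = tau ζ Q0 ∨ Q = tau ζ Qinf) (hp : SpP p.1 (gpt x v) (pt1 (ctp (RF p.1) Q))) :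
    ∃ hB : (Er (rr α)).Nonsingular (4 * ((rr α) ^ 2 - 1)) (8 * rr α * ((rr α) ^ 2 - 1)),
      LibCV66.ev p (.some _ _ (fg_pt h hx) : ((Er (rr α))⁄N).toAffine.Point) =
        constPt k (.some _ _ hB : (Er (rr α)).toAffine.Point) := by
  obtain ⟨-, -, -, -, hr0, hr1⟩ := fam_facts h
  have hBns := fe_B hr0 hr1
  refine ⟨hBns, ?_⟩
  obtain ⟨s0, s1⟩ := FG2_sp hp
  have hz3 : ζ ^ 3 = 1 := hζ.pow_eq_one
  have hz1 : ζ ≠ 1 := hζ.ne_one (by norm_num)
  have hz0 : ζ ≠ 0 := hζ.ne_zero (by norm_num)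
  have hz2 : ζ ^ 2 + ζ + 1 = 0 := by
    have h1 : (ζ - 1) * (ζ ^ 2 + ζ + 1) = 0 := by linear_combination hz3
    exact (mul_eq_zero.1 h1).resolve_left (sub_ne_zero.2 hz1)
  rcases hQ with rfl | rfl
  · have hy : Red p.1 (fy x) (algebraMap k (RF p.1) (-1)) := FG2_y0 s0
    have hv : Red p.1 v (algebraMap k (RF p.1) (ζ * -1)) := s1
    have hs : ζ * -1 + -1 = ζ ^ 2 := by linear_combination -hz2
    have hs2 : (ζ * -1 + -1) ^ 2 = ζ := by
      rw [hs]
      linear_combination ζ * hz3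
    have hs3 : (ζ * -1 + -1) ^ 3 = 1 := by
      rw [hs]
      linear_combination (ζ ^ 3 + 1) * hz3
    refine FG2_key _ p hy hv ?_ ?_ ?_ hBns
    · rw [hs]
      exact pow_ne_zero _ hz0
    · rw [hs2]
      unfold cE
      field_simp
      ring
    · rw [hs3]
      unfold cE
      linear_combination (4 * (1 - rr α ^ 2) * rr α) * hz3
  · have hy : Red p.1 (fy x) (algebraMap k (RF p.1) 1) := FG2_yinf s0
    have hv : Red p.1 v (algebraMap k (RF p.1) (ζ * 1)) := s1
    have hs : ζ * 1 + 1 = -ζ ^ 2 := by linear_combination hz2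
    have hs2 : (ζ * 1 + 1) ^ 2 = ζ := by
      rw [hs]
      linear_combination ζ * hz3
    have hs3 : (ζ * 1 + 1) ^ 3 = -1 := by
      rw [hs]
      linear_combination -(ζ ^ 3 + 1) * hz3
    refine FG2_key _ p hy hv ?_ ?_ ?_ hBns
    · rw [hs]
      exact neg_ne_zero.2 (pow_ne_zero _ hz0)
    · rw [hs2]
      unfold cE
      field_simp
      ring
    · rw [hs3]
      unfold cE
      linear_combination (4 * (1 - rr α ^ 2) * rr α) * hz3

end Pool.Agent.LibCW77
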