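import Pool.Agent.LibCW77.FGDefs

/-!
[CW77 FG3] Sums over the geometric places.

Plan. `exists_geo`: `placeC` gives a place `w` with the two `SpO` conditions (they say `SpP w (gpt x v) (pt1 (ctp (RF w) Q))`: `gpt`, `pt1`, `ctp`,
`Fin.forall_fin_two`, see `DE3_sp`) and `algebraMap k (RF w)` surjective, hence bijective; the inverse is the homomorphism `RF w →ₐ[k] k`
(`AlgEquiv.ofBijective (Algebra.ofId k (RF w)) _`, `.symm`).
`fg_sum`: for `p : Geo k N k` with `w = p.1`: `spP_exists` gives the specialisation `q` at `w`; `algebraMap k (RF w)` is surjective because `p.2` is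
injective and `p.2 (algebraMap a) = a` (so `z = algebraMap (p.2 z)`), so `q = pt1 (ctp _ Q')` with `Q'` over `k`. `cyc k (pt1 Q) = single (eqs k (pt1 Q)) 1`
(`fld k (pt1 Q) = ⊤` over `k`, `finrank = 1`), `eqs k (pt1 (ctp (RF w) Q')) = eqs k (pt1 Q')` (`eqs_map` for `Algebra.ofId k (RF w)`) and
`eqs k (pt1 Q) = eqs k (pt1 Q')` iff `Q = Q'` (`eqs_rat` with `M = k`). So by `hf`: `w.ord f = n Q'` if `Q' ∈ S`, and `0` otherwise. If `Q' ∈ S` then
`p = P Q'`: the places agree by `cen_unique`, and two homomorphisms `RF w →ₐ[k] k` agree (surjectivity of `algebraMap`). The map `Q ↦ P Q` is injective on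
`S` (`spP_unique`, injectivity of `algebraMap k (RF w)`). So the finite sum over `p` is the sum over the image of `S`
(`finsum_eq_sum_of_support_subset`, `Finset.sum_image`).
-/

open scoped Classical
open Polynomial WeierstrassCurve

namespace Pool.Agent.LibCW77

open Pool.Agent.LibBH2
open Pool.Agent.LibCHd (VR RF Red FunF)
open Pool.Agent.LibCV66 (Geo Vl tot rd)

variable {k : Type} [Field k]

private theorem FG3_surj {N : Type} [Field N] [Algebra k N] (p : Geo k N k) (z : RF p.1) :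
    algebraMap k (RF p.1) (p.2 z) = z := by
  apply p.2.toRingHom.injective
  change p.2 (algebraMap k (RF p.1) (p.2 z)) = p.2 z
  rw [p.2.commutes]
  rfl

private theorem FG3_rat {N : Type} [Field N] [Algebra k N] (p : Geo k N k) (q : Pnt 1 (RF p.1)) :
    ∃ Q : Fin 2 → Option k, q = pt1 (ctp (RF p.1) Q) := by
  refine ⟨fun i => (q 0 i).map p.2, ?_⟩
  funext j i
  have hj : j = 0 := Subsingleton.elim _ _
  subst hj
  change q 0 i = ((q 0 i).map p.2).map (algebraMap k (RF p.1))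
  cases q 0 i with
  | none => rfl
  | some z =>
    change some z = some (algebraMap k (RF p.1) (p.2 z))
    rw [FG3_surj p z]

private theorem FG3_eqs {M : Type} [Field M] [Algebra k M] (Q : Fin 2 → Option k) :
    eqs k (pt1 (ctp M Q)) = eqs k (pt1 Q) := by
  have h := eqs_map (Algebra.ofId k M) (pt1 Q)
  exact h

private theorem FG3_inj (Q Q' : Fin 2 → Option k) (h : eqs k (pt1 Q) = eqs k (pt1 Q')) :
    Q = Q' := by
  have h1 : eqs k (pt1 Q) = eqs k (pt1 (ctp k Q')) := by rw [h, FG3_eqs]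
  have h2 := eqs_rat (M := k) (M' := k) (pt1 Q) Q' h1
  have h3 : ctp k Q' = Q' := by
    funext i
    change (Q' i).map (algebraMap k k) = Q' i
    cases Q' i <;> rfl
  rw [h3] at h2
  exact congrFun h2 0

private theorem FG3_cyc (Q : Fin 2 → Option k) :
    cyc k (pt1 Q) = Finsupp.single (eqs k (pt1 Q)) 1 := by
  unfold cyc
  have h : fld k (pt1 Q) = ⊤ := by
    rw [eq_top_iff]
    intro z _
    exact (fld k (pt1 Q)).algebraMap_mem z
  rw [h, IntermediateField.finrank_top]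
  rfl

private theorem FG3_uniq [CharZero k] {c : Dat k} (hc : c.Good) {ζ : k} (hζ : IsPrimitiveRoot ζ c.n)
    {N : Type} [Field N] [Algebra k N] {x v : N} (h : GenC c x v) (p p' : Geo k N k)
    (Q : Fin 2 → Option k) (hp : SpP p.1 (gpt x v) (pt1 (ctp (RF p.1) Q)))
    (hp' : SpP p'.1 (gpt x v) (pt1 (ctp (RF p'.1) Q))) : p = p' := by
  have hw := cen_unique hc hζ h p.1 p'.1 hp hp' (by rw [FG3_eqs, FG3_eqs])
  obtain ⟨w, i⟩ := p
  obtain ⟨w', i'⟩ := p'
  have hw' : w = w' := hw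
  subst hw'
  congr 1
  apply AlgHom.ext
  intro z
  have h1 := FG3_surj (⟨w, i⟩ : Geo k N k) z
  have h2 : i (algebraMap k (RF w) (i z)) = i' (algebraMap k (RF w) (i z)) := by
    rw [i.commutes, i'.commutes]
  have h3 : algebraMap k (RF w) (i z) = z := h1
  rwa [h3] at h2

private theorem FG3_coef (S : Finset (Fin 2 → Option k)) (n : (Fin 2 → Option k) → ℤ)
    (Q : Fin 2 → Option k) :
    (∑ Q' ∈ S, n Q' • cyc k (pt1 Q')) (eqs k (pt1 Q)) = if Q ∈ S then n Q else 0 := by
  rw [Finsupp.finsetSum_apply]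
  have h1 : ∀ Q' ∈ S, (n Q' • cyc k (pt1 Q')) (eqs k (pt1 Q)) = if Q' = Q then n Q' else 0 := by
    intro Q' _
    rw [FG3_cyc, Finsupp.smul_apply, Finsupp.single_apply]
    by_cases h : Q' = Q
    · subst h
      simp
    · rw [if_neg h, if_neg fun h' => h (FG3_inj _ _ h'), smul_zero]
  rw [Finset.sum_congr rfl h1]
  simp

theorem exists_geo [CharZero k] {c : Dat k} (hc : c.Good) {ζ : k} (hζ : IsPrimitiveRoot ζ c.n) {N : Type}
    [Field N] [Algebra k N] {x v : N} (h : GenC c x v) (Q : Fin 2 → Option k) (hQ : OnC c (Q 0) (Q 1)) :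
    ∃ p : Geo k N k, SpP p.1 (gpt x v) (pt1 (ctp (RF p.1) Q)) := by
  obtain ⟨w, ⟨h1, h2⟩, hs, -⟩ := placeC hc hζ h Q hQ
  have hb : Function.Bijective (Algebra.ofId k (RF w)) := ⟨(algebraMap k (RF w)).injective, hs⟩
  refine ⟨⟨w, (AlgEquiv.ofBijective (Algebra.ofId k (RF w)) hb).symm.toAlgHom⟩, ?_⟩
  intro j i
  fin_cases i
  · exact h1
  · exact h2

theorem fg_sum [CharZero k] {c : Dat k} (hc : c.Good) {ζ : k} (hζ : IsPrimitiveRoot ζ c.n) {N : Type}
    [Field N] [Algebra k N] {x v : N} (h : GenC c x v) (S : Finset (Fin 2 → Option k))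
    (hS : ∀ Q ∈ S, OnC c (Q 0) (Q 1)) (n : (Fin 2 → Option k) → ℤ) (f : N)
    (hf : ∀ (w : Place k N) (q : Pnt 1 (RF w)), SpP w (gpt x v) q →
      (∑ Q ∈ S, n Q • cyc k (pt1 Q)) (eqs k q) = w.ord f)
    (P : (Fin 2 → Option k) → Geo k N k) (hP : ∀ Q ∈ S, SpP (P Q).1 (gpt x v) (pt1 (ctp (RF (P Q).1) Q)))
    {G : Type} [AddCommGroup G] (F : Geo k N k → G) :
    ∑ᶠ p : Geo k N k, p.1.ord f • F p = ∑ Q ∈ S, n Q • F (P Q) := by
  have hord : ∀ (p : Geo k N k) (Q : Fin 2 → Option k),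
      SpP p.1 (gpt x v) (pt1 (ctp (RF p.1) Q)) → p.1.ord f = if Q ∈ S then n Q else 0 := by
    intro p Q hp
    rw [← hf p.1 _ hp, FG3_eqs, FG3_coef]
  have hsup : (Function.support fun p : Geo k N k => p.1.ord f • F p) ⊆ ((S.image P : Finset (Geo k N k)) :
      Set (Geo k N k)) := by
    intro p hp
    obtain ⟨q, hq⟩ := spP_exists p.1 (gpt x v)
    obtain ⟨Q, hQ⟩ := FG3_rat p q
    rw [hQ] at hq
    have h1 := hord p Q hq
    by_cases hQS : Q ∈ S
    · rw [FG3_uniq hc hζ h p (P Q) Q hq (hP Q hQS)]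
      exact Finset.mem_coe.2 (Finset.mem_image_of_mem P hQS)
    · exfalso
      apply hp
      change p.1.ord f • F p = 0
      rw [h1, if_neg hQS, zero_smul]
  rw [finsum_eq_sum_of_support_subset _ hsup, Finset.sum_image]
  · refine Finset.sum_congr rfl fun Q hQ => ?_
    rw [hord (P Q) Q (hP Q hQ), if_pos hQ]
  · intro Q hQ Q' hQ' he
    have h1 := hP Q hQ
    have h2 := hP Q' hQ'
    rw [← he] at h2
    have h3 := spP_unique h1 h2
    have h4 := congrArg (eqs k) h3
    rw [FG3_eqs, FG3_eqs] at h4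
    exact FG3_inj _ _ h4

end Pool.Agent.LibCW77
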