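import Pool.Agent.LibCW77.FG2
import Pool.Agent.LibCW77.FG3

/-!
[CW77 FG4] Torsion of the divisor class implies torsion of `B`.

Plan. `c = fam α`, `c.n = 3` (`rfl`). `h`: there is `m > 0` with `m • (dz Q0 + dz Qinf) = 0` in `CH c 1 0`; this is the class of
`m • (cyc k (pt1 Q0) - cyc k (pt1 (tau ζ Q0)) + cyc k (pt1 Qinf) - cyc k (pt1 (tau ζ Qinf)))` (`QuotientAddGroup.eq_zero_iff`), so this cycle is in `RatEq c 1 0`.
Take the function field: `GenC c x v` (the theorem at line 101 of C1.lean), and `f` from `ratEq_fun` (DE7). Let `S = {Q0, tau ζ Q0, Qinf, tau ζ Qinf}`,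
four different points of the curve, `n Q = m` for `Q0`, `Qinf` and `- m` for the other two. `exists_geo` chooses `P Q` for `Q` on the curve. `abel` (LibCV66.J10,
`Ω = k`, `F = N`, `g = f`, `E = Er (rr α)`, `z = .some _ _ (fg_pt h hx)`, instance `er_ell` with `fam_facts`) says that
`tot univ f z = ∑ᶠ p ∈ univ, p.1.ord f • (1, LibCV66.ev p z)` has finite order; by `fg_sum` (with `G = ℤ × Point`, `F p = (1, LibCV66.ev p z)`; `finsum_mem_univ`) and `fg_ev0`,
`fg_ev1` its second component is `(2 m) • constPt k A - (2 m) • constPt k B`. `A = - (2 • B)` by `fe_2B` and `fe_neg`. So `(- 6 m) • constPt k B` has finite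
order, so `constPt k B` and `B` (`const_tors`, `const_add`) have finite order.
-/

open scoped Classical
open Polynomial WeierstrassCurve

namespace Pool.Agent.LibCW77

open Pool.Agent.LibBH2
open Pool.Agent.LibCHd (VR RF Red FunF)
open Pool.Agent.LibCV66 (Geo Vl tot rd)

variable {k : Type} [Field k]

private theorem FG4_Q0_tau {ζ : k} (hζ : IsPrimitiveRoot ζ 3) : (Q0 : Fin 2 → Option k) ≠ tau ζ Q0 := by
  intro h0
  have h1 := congrFun h0 1
  have h2 : (some (-1) : Option k) = some (algebraMap k k ζ * (-1)) := h1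
  have h3 : (-1 : k) = ζ * (-1) := Option.some.inj h2
  have h4 : ζ = 1 := by linear_combination h3
  exact hζ.ne_one (by norm_num) h4

private theorem FG4_Qinf_tau {ζ : k} (hζ : IsPrimitiveRoot ζ 3) : (Qinf : Fin 2 → Option k) ≠ tau ζ Qinf := by
  intro h0
  have h1 := congrFun h0 1
  have h2 : (some 1 : Option k) = some (algebraMap k k ζ * 1) := h1
  have h3 : (1 : k) = ζ * 1 := Option.some.inj h2
  have h4 : ζ = 1 := by linear_combination -h3
  exact hζ.ne_one (by norm_num) h4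

omit [Field k] in
private theorem FG4_sep {P Q : Fin 2 → Option k} {a : k} (hP : P 0 = some a) (hQ : Q 0 = none) : P ≠ Q := by
  intro h0
  rw [h0, hQ] at hP
  cases hP

private theorem FG4_on {α ζ : k} (hζ : IsPrimitiveRoot ζ 3) (Q : Fin 2 → Option k)
    (hQ : Q ∈ ({Q0, tau ζ Q0, Qinf, tau ζ Qinf} : Finset (Fin 2 → Option k))) :
    OnC (fam α) (Q 0) (Q 1) := by
  have hζ3 : ζ ^ 3 = 1 := hζ.pow_eq_one
  simp only [Finset.mem_insert, Finset.mem_singleton] at hQ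
  rcases hQ with rfl | rfl | rfl | rfl
  · show (-1 : k) ^ 3 * ∏ i, ((0 : k) - (fam α).b i) = ∏ i, ((0 : k) - (fam α).a i)
    simp only [fam, symD, Fin.prod_univ_three]
    ring
  · show (algebraMap k k ζ * (-1 : k)) ^ 3 * ∏ i, ((0 : k) - (fam α).b i) = ∏ i, ((0 : k) - (fam α).a i)
    simp only [fam, symD, Fin.prod_univ_three, Algebra.algebraMap_self, RingHom.id_apply]
    rw [mul_pow, hζ3]
    ring
  · show (1 : k) ^ 3 = 1
    ring
  · show (algebraMap k k ζ * (1 : k)) ^ 3 = 1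
    simp only [Algebra.algebraMap_self, RingHom.id_apply]
    rw [mul_one, hζ3]

theorem fam_tors [IsAlgClosed k] [CharZero k] {α ζ : k} (h : (fam α).Good) (hζ : IsPrimitiveRoot ζ 3)
    (ht : IsOfFinAddOrder (dz (fam α) ζ Q0 + dz (fam α) ζ Qinf)) : TorsB (rr α) := by
  obtain ⟨-, -, -, -, hr0, hr1⟩ := fam_facts h
  have hζ' : IsPrimitiveRoot ζ (fam α).n := hζ
  obtain ⟨N, _, _, x, v, hx⟩ := genC_exists h
  obtain ⟨m, hm, hm0⟩ := isOfFinAddOrder_iff_nsmul_eq_zero.1 ht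
  have hE : (Er (rr α)).IsElliptic := er_ell hr0 hr1
  set S : Finset (Fin 2 → Option k) := {Q0, tau ζ Q0, Qinf, tau ζ Qinf} with hS
  let n : (Fin 2 → Option k) → ℤ := fun Q => if Q = Q0 ∨ Q = Qinf then (m : ℤ) else -(m : ℤ)
  have hq0 : (Q0 : Fin 2 → Option k) 0 = some 0 := rfl
  have hq1 : (tau ζ Q0 : Fin 2 → Option k) 0 = some 0 := rfl
  have hq2 : (Qinf : Fin 2 → Option k) 0 = none := rfl
  have hq3 : (tau ζ Qinf : Fin 2 → Option k) 0 = none := rfl
  have d01 : (Q0 : Fin 2 → Option k) ≠ tau ζ Q0 := FG4_Q0_tau hζ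
  have d02 : (Q0 : Fin 2 → Option k) ≠ Qinf := FG4_sep hq0 hq2
  have d03 : (Q0 : Fin 2 → Option k) ≠ tau ζ Qinf := FG4_sep hq0 hq3
  have d12 : (tau ζ Q0 : Fin 2 → Option k) ≠ Qinf := FG4_sep hq1 hq2
  have d13 : (tau ζ Q0 : Fin 2 → Option k) ≠ tau ζ Qinf := FG4_sep hq1 hq3
  have d23 : (Qinf : Fin 2 → Option k) ≠ tau ζ Qinf := FG4_Qinf_tau hζ
  have n0 : n Q0 = m := if_pos (Or.inl rfl)
  have n2 : n Qinf = m := if_pos (Or.inr rfl)
  have n1 : n (tau ζ Q0) = -(m : ℤ) := if_neg (by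
    rintro (h0 | h0)
    · exact d01 h0.symm
    · exact d12 h0)
  have n3 : n (tau ζ Qinf) = -(m : ℤ) := if_neg (by
    rintro (h0 | h0)
    · exact d03 h0.symm
    · exact d23 h0.symm)
  have hsum : ∀ {A : Type} [AddCommGroup A] (g : (Fin 2 → Option k) → A),
      ∑ Q ∈ S, n Q • g Q = (m : ℤ) • g Q0 + (-(m : ℤ) • g (tau ζ Q0) +
        ((m : ℤ) • g Qinf + -(m : ℤ) • g (tau ζ Qinf))) := by
    intro A _ g
    rw [hS, Finset.sum_insert, Finset.sum_insert, Finset.sum_insert, Finset.sum_singleton, n0, n1, n2, n3]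
    · simpa using d23
    · simp only [Finset.mem_insert, Finset.mem_singleton, not_or]
      exact ⟨d12, d13⟩
    · simp only [Finset.mem_insert, Finset.mem_singleton, not_or]
      exact ⟨d01, d02, d03⟩
  have he : (∑ Q ∈ S, n Q • cyc k (pt1 Q)) ∈ RatEq (fam α) 1 0 := by
    rw [← QuotientAddGroup.eq_zero_iff, hsum]
    rw [← hm0]
    simp only [dz, cls, ← QuotientAddGroup.mk_sub, ← QuotientAddGroup.mk_add, ← QuotientAddGroup.mk_nsmul]
    congr 1
    rw [← natCast_zsmul]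
    module
  obtain ⟨f, hf0, hf⟩ := ratEq_fun h hζ' hx _ he
  have hon : ∀ Q ∈ S, OnC (fam α) (Q 0) (Q 1) := FG4_on hζ
  have hP' : ∀ Q : Fin 2 → Option k, ∃ p : Geo k N k, Q ∈ S → SpP p.1 (gpt x v) (pt1 (ctp (RF p.1) Q)) := by
    intro Q
    by_cases hQ : Q ∈ S
    · obtain ⟨p, hp⟩ := exists_geo h hζ' hx Q (hon Q hQ)
      exact ⟨p, fun _ => hp⟩
    · have hQ0 : (Q0 : Fin 2 → Option k) ∈ S := Finset.mem_insert_self _ _
      obtain ⟨p, hp⟩ := exists_geo h hζ' hx Q0 (hon Q0 hQ0)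
      exact ⟨p, fun h0 => absurd h0 hQ⟩
  choose P hP using hP'
  set z : ((Er (rr α))⁄N).toAffine.Point := .some _ _ (fg_pt h hx) with hz
  have hab := (LibCV66.abel (Ω := k) (genC_funF h hx).1 f hf0 z).2
  have hfg := fg_sum h hζ' hx S hon n f hf P hP
    (fun p : Geo k N k => ((1 : ℤ), LibCV66.ev p z))
  have htot : tot (Set.univ : Set (Geo k N k)) f z =
      ∑ Q ∈ S, n Q • ((1 : ℤ), LibCV66.ev (P Q) z) := by
    rw [← hfg]
    unfold tot
    rw [finsum_mem_univ]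
  rw [htot, hsum] at hab
  have hmem0 : (Q0 : Fin 2 → Option k) ∈ S := by simp [hS]
  have hmem1 : (tau ζ Q0 : Fin 2 → Option k) ∈ S := by simp [hS]
  have hmem2 : (Qinf : Fin 2 → Option k) ∈ S := by simp [hS]
  have hmem3 : (tau ζ Qinf : Fin 2 → Option k) ∈ S := by simp [hS]
  obtain ⟨hA, e0⟩ := fg_ev0 h hζ hx (P Q0) Q0 (Or.inl rfl) (hP Q0 hmem0)
  obtain ⟨hA', e2⟩ := fg_ev0 h hζ hx (P Qinf) Qinf (Or.inr rfl) (hP Qinf hmem2)
  obtain ⟨hB, e1⟩ := fg_ev1 h hζ hx (P (tau ζ Q0)) (tau ζ Q0) (Or.inl rfl) (hP _ hmem1)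
  obtain ⟨hB', e3⟩ := fg_ev1 h hζ hx (P (tau ζ Qinf)) (tau ζ Qinf) (Or.inr rfl) (hP _ hmem3)
  refine ⟨hB, ?_⟩
  set A : (Er (rr α)).toAffine.Point := .some _ _ hA with hAdef
  set B : (Er (rr α)).toAffine.Point := .some _ _ hB with hBdef
  -- `A = - 2 B`
  have hAB : A = -(2 • B) := by
    obtain ⟨h2, e2B⟩ := fe_2B hr0 hr1 hB
    obtain ⟨h3, e3B⟩ := fe_neg h2
    have : (2 • B) = WeierstrassCurve.Affine.Point.some _ _ h2 := e2B
    rw [this, e3B, hAdef]
    congr 1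
    ring
  let φ : (Er (rr α)).toAffine.Point →+ ((Er (rr α))⁄k).toAffine.Point :=
    AddMonoidHom.mk' (constPt k) (fun P Q => const_add P Q)
  have hfin : IsOfFinAddOrder ((m : ℤ) • φ A + (-(m : ℤ) • φ B + ((m : ℤ) • φ A + -(m : ℤ) • φ B))) := by
    have h1 := (AddMonoidHom.snd ℤ ((Er (rr α))⁄k).toAffine.Point).isOfFinAddOrder hab
    simp only [map_add, map_zsmul, AddMonoidHom.coe_snd] at h1
    rw [e0, e1, e2, e3] at h1
    exact h1
  have hfin2 : IsOfFinAddOrder ((-(6 * (m : ℤ))) • φ B) := by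
    have : (m : ℤ) • φ A + (-(m : ℤ) • φ B + ((m : ℤ) • φ A + -(m : ℤ) • φ B)) = (-(6 * (m : ℤ))) • φ B := by
      rw [hAB, map_neg, map_nsmul]
      module
    rwa [this] at hfin
  have hfin3 : IsOfFinAddOrder (φ B) := by
    obtain ⟨j, hj, hj0⟩ := isOfFinAddOrder_iff_nsmul_eq_zero.1 hfin2
    refine isOfFinAddOrder_iff_nsmul_eq_zero.2 ⟨j * (6 * m), by positivity, ?_⟩
    have h1 : (j * (6 * m)) • φ B = -(j • ((-(6 * (m : ℤ))) • φ B)) := by
      rw [← natCast_zsmul, ← natCast_zsmul]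
      push_cast
      module
    rw [h1, hj0, neg_zero]
  exact const_tors B hfin3

end Pool.Agent.LibCW77
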