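import Pool.Agent.LibCW77.FEDefs
import Pool.Agent.LibCW77.DE7
import Pool.Agent.LibCV66.J10

/-!
Family part: the map from the curve `fam α` to the elliptic curve, definitions.
-/

open scoped Classical
open Polynomial WeierstrassCurve

namespace Pool.Agent.LibCW77

open Pool.Agent.LibBH2
open Pool.Agent.LibCHd (VR RF Red FunF)
open Pool.Agent.LibCV66 (Geo Vl tot rd)

variable {k : Type} [Field k]

/-- `y = (x - 1) / (x + 1)`; the curve `fam α` is `v ^ 3 (1 + r y ^ 2) = y (y ^ 2 + r)`, `r = rr α` -/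
def fy {N : Type} [Field N] (x : N) : N := (x - 1) / (x + 1)

/-- `X = v y / (v + y) ^ 2` -/
def fX {N : Type} [Field N] (x v : N) : N := v * fy x / (v + fy x) ^ 2

/-- `W = r y (1 + v ^ 3 y) / (v + y) ^ 3`; `W ^ 2 = (1 - 3 X) ^ 2 - c X ^ 3`, `c = 4 (1 - r ^ 2)` -/
def fW {N : Type} [Field N] (r x v : N) : N := r * fy x * (1 + v ^ 3 * fy x) / (v + fy x) ^ 3

/-- the coordinates of the point `(- c X, c W)` of the elliptic curve over the function field -/
def cX (α : k) {N : Type} [Field N] [Algebra k N] (x v : N) : N := -(algebraMap k N (cE (rr α)) * fX x v)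

def cY (α : k) {N : Type} [Field N] [Algebra k N] (x v : N) : N :=
  algebraMap k N (cE (rr α)) * fW (algebraMap k N (rr α)) x v

end Pool.Agent.LibCW77
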