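import Pool.Agent.LibCW77.FE2

/-!
[CW77 FM2] The multiples `2 ^ (j + 2) B` and the polynomials `nd`.

Plan. Cite FE1, FE2. Induction on `j`. `j = 0`: `fe_4B`: `x = (s - 1)(s - 81) / (4 s)`, `s = r ^ 2`, and
`c n_0(s) / d_0(s) = 4 (1 - s)(81 - s) / (16 s)`, the same. Step: if `d_j(s) = 0` then `2 ^ (j + 2) • B = 0`, so
`2 ^ (j + 3) • B = 0`, and `d_(j+1)(s) = 0`. If `d_j(s) ≠ 0`: `2 ^ (j + 2) • B = some (c n / d) y h`. If `y = 0`:
`fe_dbl0`, and `0 = y ^ 2 = x ^ 3 + (3 x + c) ^ 2 = (c ^ 2 / d ^ 3) (c n ^ 3 + d (3 n + d) ^ 2)` (`x = c n / d`), so `d_(j+1)(s) = 0`.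
If `y ≠ 0`: the same formula gives `d_(j+1)(s) ≠ 0`, and `fe_dbl` gives
`x' = x (x ^ 3 - 12 c x - 8 c ^ 2) / (4 (x ^ 3 + (3 x + c) ^ 2)) = c n (c n ^ 3 - 12 n d ^ 2 - 8 d ^ 3) / (4 d (c n ^ 3 + d (3 n + d) ^ 2))`.
-/

open scoped Classical
open Polynomial

namespace Pool.Agent.LibCW77

open Pool.Agent.LibBH2
open Pool.Agent.LibCHd (VR RF Red FunF)

variable {k : Type} [Field k]

private theorem FM2_cast {W : WeierstrassCurve.Affine k} {x x' y : k} (hx : x = x')
    (h : W.Nonsingular x y) (P : W.Point) (e : P = WeierstrassCurve.Affine.Point.some _ _ h) :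
    ∃ h' : W.Nonsingular x' y, P = WeierstrassCurve.Affine.Point.some _ _ h' := by
  subst hx
  exact ⟨h, e⟩

theorem fm_chain [CharZero k] {r : k} (h0 : r ≠ 0) (h1 : r ^ 2 ≠ 1)
    (h : (Er r).Nonsingular (4 * (r ^ 2 - 1)) (8 * r * (r ^ 2 - 1))) (j : ℕ) :
    ((nd k j).2.eval (r ^ 2) = 0 ∧ 2 ^ (j + 2) • WeierstrassCurve.Affine.Point.some _ _ h = 0) ∨
      ((nd k j).2.eval (r ^ 2) ≠ 0 ∧ ∃ (y : k)
        (h' : (Er r).Nonsingular (cE r * (nd k j).1.eval (r ^ 2) / (nd k j).2.eval (r ^ 2)) y),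
        2 ^ (j + 2) • WeierstrassCurve.Affine.Point.some _ _ h = WeierstrassCurve.Affine.Point.some _ _ h') := by
  have h4 : (4 : k) ≠ 0 := by norm_num
  have h16 : (16 : k) ≠ 0 := by norm_num
  have hr2 : r ^ 2 ≠ 0 := pow_ne_zero 2 h0
  have hc : cE r ≠ 0 := by
    unfold cE
    refine mul_ne_zero h4 ?_
    intro hh
    exact h1 (sub_eq_zero.mp hh).symm
  induction j with
  | zero =>
    right
    have e1 : (nd k 0).1.eval (r ^ 2) = 81 - r ^ 2 := by simp [nd]
    have e2 : (nd k 0).2.eval (r ^ 2) = 16 * r ^ 2 := by simp [nd]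
    obtain ⟨y, h', e⟩ := fe_4B h0 h1 h
    refine ⟨?_, y, ?_⟩
    · rw [e2]
      exact mul_ne_zero h16 hr2
    · have hx : (r ^ 2 - 1) * (r ^ 2 - 81) / (4 * r ^ 2) =
          cE r * (nd k 0).1.eval (r ^ 2) / (nd k 0).2.eval (r ^ 2) := by
        rw [e1, e2]
        unfold cE
        field_simp
        ring
      have e' : (2 : ℕ) ^ (0 + 2) • WeierstrassCurve.Affine.Point.some _ _ h =
          WeierstrassCurve.Affine.Point.some _ _ h' := by
        have : (2 : ℕ) ^ (0 + 2) = 4 := by norm_num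
        rw [this]
        exact e
      exact FM2_cast hx h' _ e'
  | succ j ih =>
    have hp : (2 : ℕ) ^ (j + 1 + 2) • WeierstrassCurve.Affine.Point.some _ _ h =
        2 • (2 ^ (j + 2) • WeierstrassCurve.Affine.Point.some _ _ h) := by
      rw [← mul_nsmul]
      congr 1
    have e1 : (nd k (j + 1)).1.eval (r ^ 2) = (nd k j).1.eval (r ^ 2) *
        (cE r * (nd k j).1.eval (r ^ 2) ^ 3 - 12 * (nd k j).1.eval (r ^ 2) *
          (nd k j).2.eval (r ^ 2) ^ 2 - 8 * (nd k j).2.eval (r ^ 2) ^ 3) := by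
      simp only [nd, cE, eval_mul, eval_sub, eval_pow, eval_C, eval_X]
      ring
    have e2 : (nd k (j + 1)).2.eval (r ^ 2) = 4 * (nd k j).2.eval (r ^ 2) *
        (cE r * (nd k j).1.eval (r ^ 2) ^ 3 + (nd k j).2.eval (r ^ 2) *
          (3 * (nd k j).1.eval (r ^ 2) + (nd k j).2.eval (r ^ 2)) ^ 2) := by
      simp only [nd, cE, eval_mul, eval_sub, eval_add, eval_pow, eval_C, eval_X]
      ring
    rcases ih with ⟨hd, hP⟩ | ⟨hd, y, h', hP⟩
    · left
      refine ⟨?_, ?_⟩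
      · rw [e2, hd]
        ring
      · rw [hp, hP, smul_zero]
    · rw [hp, hP, e1, e2]
      generalize (nd k j).1.eval (r ^ 2) = n at *
      generalize (nd k j).2.eval (r ^ 2) = d at *
      have hy2 := fe_eq h'
      have hy3 : y ^ 2 = cE r ^ 2 / d ^ 3 * (cE r * n ^ 3 + d * (3 * n + d) ^ 2) := by
        rw [hy2]
        field_simp
      have hc2 : cE r ^ 2 / d ^ 3 ≠ 0 := div_ne_zero (pow_ne_zero 2 hc) (pow_ne_zero 3 hd)
      by_cases hy : y = 0
      · left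
        refine ⟨?_, fe_dbl0 h' hy⟩
        have : cE r * n ^ 3 + d * (3 * n + d) ^ 2 = 0 := by
          rw [hy] at hy3
          have h00 : (0 : k) ^ 2 = 0 := by ring
          rw [h00] at hy3
          rcases mul_eq_zero.mp hy3.symm with h5 | h5
          · exact absurd h5 hc2
          · exact h5
        rw [this, mul_zero]
      · right
        have hD : cE r * n ^ 3 + d * (3 * n + d) ^ 2 ≠ 0 := by
          intro h5
          rw [h5, mul_zero] at hy3
          exact hy (pow_eq_zero_iff (two_ne_zero) |>.mp hy3)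
        obtain ⟨h'', e''⟩ := fe_dbl h' hy
        refine ⟨mul_ne_zero (mul_ne_zero h4 hd) hD, _, FM2_cast ?_ h'' _ e''⟩
        rw [← hy2, hy3]
        field_simp

end Pool.Agent.LibCW77
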