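import Pool.Agent.LibCW77.Defs3
import Pool.Agent.LibCW77.A0
import Pool.Agent.LibCW77.Defs4
/-!
[CW77 GS0] The sextic is not zero. `sum AAp = sum BBp = 0`: `lagrange` for `(t - x) ^ 3`, `t (t - x) ^ 3` at every `x` (or `ring` after unfolding). `Hp_ne`: modulo `(X - a_1) ^ 3`:
`Hp = kb_1 (b_1 - X) ^ 3 (b_1 AAp_0 - BBp_0) + ka_1 (a_1 - X) ^ 3 (a_1 AAp_0 - BBp_0)`, and `g = b_1 AAp_0 - BBp_0 = ka_0 (b_1 - a_0) (a_0 - X) ^ 3 + kb_0 (b_1 - b_0) (b_0 - X) ^ 3`.
If `Hp = 0` then `(X - a_1) ^ 3` divides `g` (coprime to `(b_1 - X) ^ 3`), so `g(a_1) = 0` and `g'(a_1) = 0`: `α (a_0 - a_1) ^ 3 = - β (b_0 - a_1) ^ 3` and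
`α (a_0 - a_1) ^ 2 = - β (b_0 - a_1) ^ 2` with `α, β ≠ 0`, so `a_0 = b_0`. `Hp_deg`: `natDegree ≤ 6`. `flex`: at a root `x` of `Hp` the vectors `(AAp_i(x))`, `(BBp_i(x))` are proportional
(the cross product is `Hp(x) (1, 1, 1)`), and `(AAp_i(x), BBp_i(x)) ≠ (0, 0)` for every `i` (`BBp_i - a_i AAp_i = kb_i (b_i - a_i) (b_i - x) ^ 3`, and the same with `b_i`), so `z` = their ratio works (`z = ∞` if all
`AAp_i(x) = 0`), and is unique. At infinity (`natDegree < 6`): `ka_i + kb_i`, `ka_i a_i + kb_i b_i` instead, the coefficient of `X ^ 6` of `Hp`.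
-/

open scoped Classical
open Polynomial

namespace Pool.Agent.LibCW77

open Pool.Agent.LibBH2
open Pool.Agent.LibCHd (VR RF Red FunF)

variable {k : Type} [Field k]

private theorem GS0_evn (t : k) : ev (none : Option k) t = 1 := rfl

private theorem GS0_evs (s t : k) : ev (some s) t = t - s := rfl

private theorem GS0_sum {c : Dat k} (hc : c.Good) (j : ℕ) (hj : j ≤ 4) :
    ∑ i, (ka c i * c.a i ^ j + kb c i * c.b i ^ j) = 0 := by
  have h := lagrange hc (X ^ j : k[X]) ((natDegree_X_pow_le j).trans hj)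
  simpa using h

private theorem GS0_ab {c : Dat k} (hc : c.Good) (i j : Fin 3) : c.a i ≠ c.b j := by
  intro h
  have h1 : Sum.elim c.a c.b (Sum.inl i) = Sum.elim c.a c.b (Sum.inr j) := h
  exact absurd (hc.inj h1) (by simp)

private theorem GS0_aa {c : Dat k} (hc : c.Good) {i j : Fin 3} (hij : i ≠ j) : c.a i ≠ c.a j := by
  intro h
  have h1 : Sum.elim c.a c.b (Sum.inl i) = Sum.elim c.a c.b (Sum.inl j) := h
  exact hij (Sum.inl_injective (hc.inj h1))

private theorem GS0_bb {c : Dat k} (hc : c.Good) {i j : Fin 3} (hij : i ≠ j) : c.b i ≠ c.b j := by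
  intro h
  have h1 : Sum.elim c.a c.b (Sum.inr i) = Sum.elim c.a c.b (Sum.inr j) := h
  exact hij (Sum.inr_injective (hc.inj h1))

theorem sum_AAp {c : Dat k} (hc : c.Good) : ∑ i, AAp c i = 0 ∧ ∑ i, BBp c i = 0 := by
  have h0 := congrArg (C : k → k[X]) (GS0_sum hc 0 (by norm_num))
  have h1 := congrArg (C : k → k[X]) (GS0_sum hc 1 (by norm_num))
  have h2 := congrArg (C : k → k[X]) (GS0_sum hc 2 (by norm_num))
  have h3 := congrArg (C : k → k[X]) (GS0_sum hc 3 (by norm_num))
  have h4 := congrArg (C : k → k[X]) (GS0_sum hc 4 (by norm_num))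
  simp only [Fin.sum_univ_three, map_add, map_mul, map_pow, map_zero] at h0 h1 h2 h3 h4
  constructor
  · simp only [Fin.sum_univ_three, AAp]
    linear_combination h3 - 3 * X * h2 + 3 * X ^ 2 * h1 - X ^ 3 * h0
  · simp only [Fin.sum_univ_three, BBp, map_mul]
    linear_combination h4 - 3 * X * h3 + 3 * X ^ 2 * h2 - X ^ 3 * h1

theorem Hp_ne [CharZero k] {c : Dat k} (hc : c.Good) : Hp c ≠ 0 := by
  intro hH
  have hka := ka_ne hc
  have hkb := kb_ne hc
  have e1 : (Hp c).eval (c.a 1) = 0 := by rw [hH, eval_zero]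
  have e2 : (derivative (Hp c)).eval (c.a 1) = 0 := by rw [hH, derivative_zero, eval_zero]
  have f1 : kb c 1 * (c.b 1 - c.a 1) ^ 3 * (ka c 0 * (c.b 1 - c.a 0) * (c.a 0 - c.a 1) ^ 3 +
      kb c 0 * (c.b 1 - c.b 0) * (c.b 0 - c.a 1) ^ 3) = 0 := by
    rw [← e1]
    simp only [Hp, AAp, BBp, eval_sub, eval_mul, eval_add, eval_pow, eval_C, eval_X]
    ring
  have f2 : kb c 1 * (c.b 1 - c.a 1) ^ 3 * (-3 * (ka c 0 * (c.b 1 - c.a 0) * (c.a 0 - c.a 1) ^ 2 +
      kb c 0 * (c.b 1 - c.b 0) * (c.b 0 - c.a 1) ^ 2)) + (-3 * (c.b 1 - c.a 1) ^ 2 * kb c 1) *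
      (ka c 0 * (c.b 1 - c.a 0) * (c.a 0 - c.a 1) ^ 3 +
      kb c 0 * (c.b 1 - c.b 0) * (c.b 0 - c.a 1) ^ 3) = 0 := by
    rw [← e2]
    simp only [Hp, AAp, BBp, derivative_sub, derivative_mul, derivative_add, derivative_pow, derivative_C,
      derivative_X, eval_sub, eval_mul, eval_add, eval_pow, eval_C, eval_X, eval_zero, eval_one,
      Nat.add_one_sub_one, Nat.cast_ofNat, eval_ofNat, eval_natCast]
    ring
  have hb1 : c.b 1 - c.a 1 ≠ 0 := sub_ne_zero.2 (GS0_ab hc 1 1).symm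
  have g1 : ka c 0 * (c.b 1 - c.a 0) * (c.a 0 - c.a 1) ^ 3 +
      kb c 0 * (c.b 1 - c.b 0) * (c.b 0 - c.a 1) ^ 3 = 0 := by
    rcases mul_eq_zero.1 f1 with h | h
    · exact absurd h (mul_ne_zero (hkb 1) (pow_ne_zero 3 hb1))
    · exact h
  rw [g1, mul_zero, add_zero] at f2
  have g2 : ka c 0 * (c.b 1 - c.a 0) * (c.a 0 - c.a 1) ^ 2 +
      kb c 0 * (c.b 1 - c.b 0) * (c.b 0 - c.a 1) ^ 2 = 0 := by
    rcases mul_eq_zero.1 f2 with h | h
    · exact absurd h (mul_ne_zero (hkb 1) (pow_ne_zero 3 hb1))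
    · rcases mul_eq_zero.1 h with h | h
      · exact absurd h (by norm_num)
      · exact h
  have g3 : kb c 0 * (c.b 1 - c.b 0) * (c.b 0 - c.a 1) ^ 2 * (c.b 0 - c.a 0) = 0 := by
    linear_combination g1 - (c.a 0 - c.a 1) * g2
  refine absurd g3 (mul_ne_zero (mul_ne_zero (mul_ne_zero (hkb 0) ?_) (pow_ne_zero 2 ?_)) ?_)
  · exact sub_ne_zero.2 (GS0_bb hc (by decide))
  · exact sub_ne_zero.2 (GS0_ab hc 1 0).symm
  · exact sub_ne_zero.2 (GS0_ab hc 0 0).symm

theorem Hp_deg (c : Dat k) : (Hp c).natDegree ≤ 6 := by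
  unfold Hp AAp BBp
  compute_degree

private theorem GS0_flex {c : Dat k} {x : Option k} (A B : Fin 3 → k) (hA : ∑ i, A i = 0)
    (hB : ∑ i, B i = 0) (h1 : ∀ i, ka c i * (ev x (c.a i) ^ 3 * ev none (c.a i)) +
      kb c i * (ev x (c.b i) ^ 3 * ev none (c.b i)) = A i)
    (h2 : ∀ i s, ka c i * (ev x (c.a i) ^ 3 * ev (some s) (c.a i)) +
      kb c i * (ev x (c.b i) ^ 3 * ev (some s) (c.b i)) = B i - s * A i) :
    (∃ z, Flex c x z) ↔ A 0 * B 1 - A 1 * B 0 = 0 := by
  rw [Fin.sum_univ_three] at hA hB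
  constructor
  · rintro ⟨z, hz⟩
    rcases z with _ | s
    · have e0 := hz 0
      have e1 := hz 1
      rw [h1] at e0 e1
      rw [e0, e1]
      ring
    · have e0 := hz 0
      have e1 := hz 1
      rw [h2] at e0 e1
      linear_combination A 0 * e1 - A 1 * e0
  · intro h
    have hij : ∀ i j, A i * B j = A j * B i := by
      intro i j
      fin_cases i <;> fin_cases j
      · rfl
      · show A 0 * B 1 = A 1 * B 0
        linear_combination h
      · show A 0 * B 2 = A 2 * B 0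
        linear_combination A 0 * hB - B 0 * hA - h
      · show A 1 * B 0 = A 0 * B 1
        linear_combination -h
      · rfl
      · show A 1 * B 2 = A 2 * B 1
        linear_combination A 1 * hB - B 1 * hA + h
      · show A 2 * B 0 = A 0 * B 2
        linear_combination -(A 0 * hB - B 0 * hA - h)
      · show A 2 * B 1 = A 1 * B 2
        linear_combination -(A 1 * hB - B 1 * hA + h)
      · rfl
    by_cases h0 : ∀ i, A i = 0
    · exact ⟨none, fun i => by rw [h1, h0]⟩
    · push Not at h0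
      obtain ⟨i, hi⟩ := h0
      refine ⟨some (B i / A i), fun j => ?_⟩
      rw [h2]
      field_simp
      linear_combination hij i j

private theorem GS0_coeff (c : Dat k) : (Hp c).coeff 6 =
    (ka c 0 + kb c 0) * (ka c 1 * c.a 1 + kb c 1 * c.b 1) -
      (ka c 1 + kb c 1) * (ka c 0 * c.a 0 + kb c 0 * c.b 0) := by
  have hd : ∀ (r s u v : k), (C r * (C u - X) ^ 3 + C s * (C v - X) ^ 3 : k[X]).natDegree ≤ 3 := by
    intro r s u v
    compute_degree
  have hc3 : ∀ (r s u v : k), (C r * (C u - X) ^ 3 + C s * (C v - X) ^ 3 : k[X]).coeff 3 = -(r + s) := by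
    intro r s u v
    have e : ∀ w : k, ((C w - X) ^ 3 : k[X]).coeff 3 = -1 := by
      intro w
      have : ((C w - X) ^ 3 : k[X]) = C (w ^ 3) - C (3 * w ^ 2) * X + C (3 * w) * X ^ 2 - X ^ 3 := by
        simp only [map_mul, map_pow, map_ofNat]
        ring
      rw [this, coeff_sub, coeff_add, coeff_sub, coeff_C, coeff_C_mul, coeff_C_mul, coeff_X, coeff_X_pow,
        coeff_X_pow]
      norm_num
    rw [coeff_add, coeff_C_mul, coeff_C_mul, e, e]
    ring
  unfold Hp AAp BBp
  rw [coeff_sub, show (6 : ℕ) = 3 + 3 from rfl,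
    coeff_mul_add_eq_of_natDegree_le (hd _ _ _ _) (hd _ _ _ _),
    coeff_mul_add_eq_of_natDegree_le (hd _ _ _ _) (hd _ _ _ _), hc3, hc3, hc3, hc3]
  ring

theorem flex_iff [CharZero k] {c : Dat k} (hc : c.Good) (x : Option k) : (∃ z, Flex c x z) ↔ x ∈ rts c := by
  have hH := Hp_ne hc
  have hd := Hp_deg c
  have hsum := sum_AAp hc
  have hs0 := GS0_sum hc 0 (by norm_num)
  have hs1 := GS0_sum hc 1 (by norm_num)
  rcases x with _ | t
  · rw [GS0_flex (fun i => ka c i + kb c i) (fun i => ka c i * c.a i + kb c i * c.b i)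
      (by simpa [Finset.sum_add_distrib] using hs0) (by simpa using hs1)
      (by intro i; simp only [GS0_evn]; ring) (by intro i s; simp only [GS0_evn, GS0_evs]; ring)]
    have h6 : (Hp c).coeff 6 = (ka c 0 + kb c 0) * (ka c 1 * c.a 1 + kb c 1 * c.b 1) -
        (ka c 1 + kb c 1) * (ka c 0 * c.a 0 + kb c 0 * c.b 0) := GS0_coeff c
    rw [← h6]
    unfold rts
    simp only [Multiset.mem_add, Multiset.mem_map, reduceCtorEq, and_false, exists_false, false_or,
      Multiset.mem_replicate, and_true]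
    constructor
    · intro h h'
      have h7 : (Hp c).natDegree = 6 := by omega
      have h8 : (Hp c).leadingCoeff = 0 := by
        rw [leadingCoeff, h7]
        exact h
      exact hH (leadingCoeff_eq_zero.1 h8)
    · intro h
      exact coeff_eq_zero_of_natDegree_lt (by omega)
  · have g1 : ∀ i, ka c i * (ev (some t) (c.a i) ^ 3 * ev none (c.a i)) +
        kb c i * (ev (some t) (c.b i) ^ 3 * ev none (c.b i)) = (AAp c i).eval t := by
      intro i
      simp only [GS0_evn, GS0_evs, AAp, eval_add, eval_mul, eval_pow, eval_sub, eval_C, eval_X]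
      ring
    have g2 : ∀ i s, ka c i * (ev (some t) (c.a i) ^ 3 * ev (some s) (c.a i)) +
        kb c i * (ev (some t) (c.b i) ^ 3 * ev (some s) (c.b i)) =
        (BBp c i).eval t - s * (AAp c i).eval t := by
      intro i s
      simp only [GS0_evs, AAp, BBp, eval_add, eval_mul, eval_pow, eval_sub, eval_C, eval_X]
      ring
    rw [GS0_flex (fun i => (AAp c i).eval t) (fun i => (BBp c i).eval t)
      (by rw [← eval_finsetSum, hsum.1, eval_zero]) (by rw [← eval_finsetSum, hsum.2, eval_zero]) g1 g2]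
    unfold rts
    simp only [Multiset.mem_add, Multiset.mem_map, Option.some.injEq, exists_eq_right,
      Multiset.mem_replicate, reduceCtorEq, and_false, or_false, mem_roots hH, IsRoot.def]
    simp only [Hp, eval_sub, eval_mul]

private theorem GS0_aux {c : Dat k} (hc : c.Good) {x : Option k}
    (hA : ka c 0 * ev x (c.a 0) ^ 3 + kb c 0 * ev x (c.b 0) ^ 3 = 0)
    (hB : ka c 0 * c.a 0 * ev x (c.a 0) ^ 3 + kb c 0 * c.b 0 * ev x (c.b 0) ^ 3 = 0) : False := by
  have hab : c.b 0 - c.a 0 ≠ 0 := sub_ne_zero.2 (GS0_ab hc 0 0).symm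
  have h1 : kb c 0 * (c.b 0 - c.a 0) * ev x (c.b 0) ^ 3 = 0 := by
    linear_combination hB - c.a 0 * hA
  have h2 : ka c 0 * (c.b 0 - c.a 0) * ev x (c.a 0) ^ 3 = 0 := by
    linear_combination c.b 0 * hA - hB
  have h3 : ev x (c.b 0) = 0 := by
    rcases mul_eq_zero.1 h1 with h | h
    · exact absurd h (mul_ne_zero (kb_ne hc 0) hab)
    · exact pow_eq_zero_iff (by norm_num) |>.1 h
  have h4 : ev x (c.a 0) = 0 := by
    rcases mul_eq_zero.1 h2 with h | h
    · exact absurd h (mul_ne_zero (ka_ne hc 0) hab)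
    · exact pow_eq_zero_iff (by norm_num) |>.1 h
  rcases x with _ | t
  · exact one_ne_zero h3
  · simp only [GS0_evs] at h3 h4
    exact hab (by linear_combination h3 - h4)

theorem flex_unique [CharZero k] {c : Dat k} (hc : c.Good) {x z z' : Option k} (h : Flex c x z)
    (h' : Flex c x z') : z = z' := by
  have e := h 0
  have e' := h' 0
  rcases z with _ | s <;> rcases z' with _ | s'
  · rfl
  · exfalso
    simp only [GS0_evn, GS0_evs, mul_one] at e e'
    refine GS0_aux hc (x := x) (by linear_combination e) ?_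
    linear_combination e' + s' * e
  · exfalso
    simp only [GS0_evn, GS0_evs, mul_one] at e e'
    refine GS0_aux hc (x := x) (by linear_combination e') ?_
    linear_combination e + s * e'
  · by_contra hne
    have hs : s ≠ s' := fun h => hne (by rw [h])
    simp only [GS0_evs] at e e'
    have h1 : (s' - s) * (ka c 0 * ev x (c.a 0) ^ 3 + kb c 0 * ev x (c.b 0) ^ 3) = 0 := by
      linear_combination e - e'
    have h2 : ka c 0 * ev x (c.a 0) ^ 3 + kb c 0 * ev x (c.b 0) ^ 3 = 0 := by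
      rcases mul_eq_zero.1 h1 with h | h
      · exact absurd (sub_eq_zero.1 h).symm hs
      · exact h
    refine GS0_aux hc (x := x) h2 ?_
    linear_combination e + s * h2

theorem Qk_on [CharZero k] {c : Dat k} (hc : c.Good) {ν : k} (hν : ν ^ c.n = ∏ i, (-(kb c i) / ka c i))
    (h3 : c.n = 3) {x : Option k} (hx : x ∈ rts c) : OnC c (Qk c ν x 0) (Qk c ν x 1) := by
  have hex : ∃ z, Flex c x z := (flex_iff hc x).2 hx
  have hz : Flex c x (zk c x) := by
    unfold zk
    rw [dif_pos hex]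
    exact hex.choose_spec
  show OnC c (zk c x) (vk c ν x)
  generalize zk c x = z at hz
  by_cases h0 : ∏ i, ev x (c.a i) = 0
  · have hv : vk c ν x = none := by
      unfold vk
      rw [if_pos h0]
    rw [hv]
    obtain ⟨i, -, hi⟩ := Finset.prod_eq_zero_iff.1 h0
    have hb : ev x (c.b i) ≠ 0 := by
      rcases x with _ | t
      · exact one_ne_zero
      · simp only [GS0_evs] at hi ⊢
        intro h
        exact GS0_ab hc i i (by linear_combination hi - h)
    have h1 := hz i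
    rw [hi] at h1
    have h2 : kb c i * ev x (c.b i) ^ 3 * ev z (c.b i) = 0 := by linear_combination h1
    have h3 : ev z (c.b i) = 0 := by
      rcases mul_eq_zero.1 h2 with h | h
      · exact absurd h (mul_ne_zero (kb_ne hc i) (pow_ne_zero 3 hb))
      · exact h
    rcases z with _ | s
    · exact absurd h3 one_ne_zero
    · simp only [GS0_evs] at h3
      exact ⟨i, by linear_combination -h3⟩
  · have hv : vk c ν x = some (ν * (∏ i, ev x (c.b i)) / ∏ i, ev x (c.a i)) := by
      unfold vk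
      rw [if_neg h0]
    rw [hv]
    refine onC_of_prod _ _ ?_
    have h1 : (∏ i, ka c i) * (∏ i, ev x (c.a i)) ^ 3 * ∏ i, ev z (c.a i) =
        (∏ i, -(kb c i)) * (∏ i, ev x (c.b i)) ^ 3 * ∏ i, ev z (c.b i) := by
      rw [← Finset.prod_pow, ← Finset.prod_pow, ← Finset.prod_mul_distrib, ← Finset.prod_mul_distrib,
        ← Finset.prod_mul_distrib, ← Finset.prod_mul_distrib]
      exact Finset.prod_congr rfl fun i _ => by linear_combination hz i
    have hka : ∏ i, ka c i ≠ 0 := Finset.prod_ne_zero_iff.2 fun i _ => ka_ne hc i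
    have hν' : ν ^ 3 * ∏ i, ka c i = ∏ i, -(kb c i) := by
      rw [h3, Finset.prod_div_distrib] at hν
      rw [hν]
      field_simp
    rw [h3, div_pow, mul_pow, div_mul_eq_mul_div, div_eq_iff (pow_ne_zero 3 h0)]
    refine mul_left_cancel₀ hka ?_
    linear_combination ((∏ i, ev x (c.b i)) ^ 3 * ∏ i, ev z (c.b i)) * hν' - h1

end Pool.Agent.LibCW77
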