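import Pool.Agent.LibCW77.FDefs
import Pool.Agent.LibCW77.T0
import Pool.Agent.LibCW77.GS0

/-!
The symmetric curves: the flexes, the points, the constant; the parameter of the family.
-/

open scoped Classical
open Polynomial

namespace Pool.Agent.LibCW77

open Pool.Agent.LibBH2
open Pool.Agent.LibCHd (VR RF Red FunF)

variable {k : Type} [Field k]

theorem kb_sym (a : Fin 3 → k) (i : Fin 3) : kb (symD a) i = -ka (symD a) i := by
  unfold ka kb
  have h1 : ∏ j, ((symD a).b i - (symD a).a j) = -∏ j, ((symD a).a i - (symD a).b j) := by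
    simp only [symD, Fin.prod_univ_three]
    ring
  have h2 : (Finset.univ.erase i).prod (fun j => (symD a).b i - (symD a).b j) =
      (Finset.univ.erase i).prod fun j => (symD a).a i - (symD a).a j := by
    have hcard : (Finset.univ.erase i).card = 2 := by
      rw [Finset.card_erase_of_mem (Finset.mem_univ i)]
      rfl
    have h3 : ∀ j, (symD a).b i - (symD a).b j = (-1) * ((symD a).a i - (symD a).a j) := by
      intro j
      simp only [symD]
      ring
    rw [Finset.prod_congr rfl fun j _ => h3 j, Finset.prod_mul_distrib, Finset.prod_const, hcard]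
    norm_num
  rw [h1, h2, neg_mul, mul_comm, inv_neg]

theorem nu_sym {a : Fin 3 → k} (h : (symD a).Good) :
    (1 : k) ^ (symD a).n = ∏ i, (-(kb (symD a) i) / ka (symD a) i) := by
  rw [one_pow]
  symm
  refine Finset.prod_eq_one fun i _ => ?_
  rw [kb_sym, neg_neg, div_self (ka_ne h i)]

theorem sym_a_ne {a : Fin 3 → k} (h : (symD a).Good) (i : Fin 3) : a i ≠ 0 := by
  intro h0
  have h1 : Sum.elim (symD a).a (symD a).b (Sum.inl i) = Sum.elim (symD a).a (symD a).b (Sum.inr i) := by
    simp [symD, h0]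
  exact absurd (h.inj h1) (by simp)

theorem sym_sq_ne {a : Fin 3 → k} (h : (symD a).Good) : a 0 ^ 2 - a 1 ^ 2 ≠ 0 := by
  intro h0
  have h1 : (a 0 - a 1) * (a 0 + a 1) = 0 := by linear_combination h0
  rcases mul_eq_zero.1 h1 with h2 | h2
  · have h3 : Sum.elim (symD a).a (symD a).b (Sum.inl 0) = Sum.elim (symD a).a (symD a).b (Sum.inl 1) := by
      simp [symD, sub_eq_zero.1 h2]
    exact absurd (h.inj h3) (by simp)
  · have h3 : Sum.elim (symD a).a (symD a).b (Sum.inl 0) = Sum.elim (symD a).a (symD a).b (Sum.inr 1) := by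
      simp only [symD, Sum.elim_inl, Sum.elim_inr]
      linear_combination h2
    exact absurd (h.inj h3) (by simp)

theorem Hp_sym (a : Fin 3 → k) : Hp (symD a) =
    C (32 * (ka (symD a) 0 * ka (symD a) 1 * a 0 * a 1 * (a 0 ^ 2 - a 1 ^ 2))) * X ^ 3 := by
  unfold Hp AAp BBp
  rw [kb_sym, kb_sym]
  simp only [symD, map_mul, map_neg, map_sub, map_pow, map_ofNat]
  ring

theorem rts_sym [IsAlgClosed k] [CharZero k] {a : Fin 3 → k} (h : (symD a).Good) :
    rts (symD a) = Multiset.replicate 3 (some 0) + Multiset.replicate 3 none := by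
  have h0 : (32 * (ka (symD a) 0 * ka (symD a) 1 * a 0 * a 1 * (a 0 ^ 2 - a 1 ^ 2))) ≠ 0 :=
    mul_ne_zero (by norm_num) (mul_ne_zero (mul_ne_zero (mul_ne_zero (mul_ne_zero (ka_ne h 0) (ka_ne h 1))
      (sym_a_ne h 0)) (sym_a_ne h 1)) (sym_sq_ne h))
  unfold rts
  rw [Hp_sym, natDegree_C_mul_X_pow 3 _ h0, roots_C_mul_X_pow h0, Multiset.map_nsmul, Multiset.map_singleton,
    Multiset.nsmul_singleton]

theorem Qk_sym0 [IsAlgClosed k] [CharZero k] {a : Fin 3 → k} (h : (symD a).Good) : Qk (symD a) 1 (some 0) = Q0 := by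
  have h1 : Flex (symD a) (some 0) (some 0) := by
    intro i
    rw [kb_sym]
    simp only [symD, ev]
    ring
  have h2 : zk (symD a) (some 0) = some 0 := by
    have h4 : ∃ z, Flex (symD a) (some 0) z := ⟨_, h1⟩
    unfold zk
    rw [dif_pos h4]
    exact flex_unique h h4.choose_spec h1
  have h3 : vk (symD a) 1 (some 0) = some (-1) := by
    unfold vk
    have h5 : ∏ i, ev (some 0) ((symD a).a i) = a 0 * a 1 * a 2 := by
      rw [Fin.prod_univ_three]
      simp only [symD, ev, sub_zero]
    have h6 : ∏ i, ev (some 0) ((symD a).b i) = -(a 0 * a 1 * a 2) := by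
      rw [Fin.prod_univ_three]
      simp only [symD, ev, sub_zero]
      ring
    have h7 : a 0 * a 1 * a 2 ≠ 0 := mul_ne_zero (mul_ne_zero (sym_a_ne h 0) (sym_a_ne h 1)) (sym_a_ne h 2)
    rw [h5, h6, if_neg h7, one_mul, neg_div, div_self h7]
  unfold Qk Q0
  rw [h2, h3]

theorem Qk_sym1 [IsAlgClosed k] [CharZero k] {a : Fin 3 → k} (h : (symD a).Good) : Qk (symD a) 1 none = Qinf := by
  have h1 : Flex (symD a) none none := by
    intro i
    rw [kb_sym]
    simp only [ev]
    ring
  have h2 : zk (symD a) none = none := by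
    have h4 : ∃ z, Flex (symD a) none z := ⟨_, h1⟩
    unfold zk
    rw [dif_pos h4]
    exact flex_unique h h4.choose_spec h1
  have h3 : vk (symD a) 1 none = some 1 := by
    unfold vk
    simp [ev]
  unfold Qk Qinf
  rw [h2, h3]

theorem exists_alpha [IsAlgClosed k] [CharZero k] (r : k) (h0 : r ≠ 0) (h1 : r ^ 2 ≠ 1) :
    ∃ α : k, (fam α).Good ∧ rr α = r := by
  obtain ⟨β, hβ⟩ := IsAlgClosed.exists_pow_nat_eq (-r) (n := 2) (by norm_num)
  have hb0 : β ≠ 0 := by
    rintro rfl
    apply h0
    linear_combination hβ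
  have hb1 : 1 - β ≠ 0 := by
    intro h
    apply h1
    have h2 : β = 1 := by linear_combination -h
    rw [h2] at hβ
    have h3 : r = -1 := by linear_combination hβ
    rw [h3]
    norm_num
  have hb2 : 1 + β ≠ 0 := by
    intro h
    apply h1
    have h2 : β = -1 := by linear_combination h
    rw [h2] at hβ
    have h3 : r = -1 := by linear_combination hβ
    rw [h3]
    norm_num
  have hb3 : β ^ 2 + 1 ≠ 0 := by
    intro h
    apply h1
    have h3 : r = 1 := by linear_combination hβ - h
    rw [h3]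
    norm_num
  set α := (1 + β) / (1 - β) with hα
  have ha0 : α ≠ 0 := div_ne_zero hb2 hb1
  have ha1 : α - 1 ≠ 0 := by
    have h2 : α - 1 = 2 * β / (1 - β) := by
      rw [hα]
      field_simp
      ring
    rw [h2]
    exact div_ne_zero (mul_ne_zero two_ne_zero hb0) hb1
  have ha2 : α + 1 ≠ 0 := by
    have h2 : α + 1 = 2 / (1 - β) := by
      rw [hα]
      field_simp
      ring
    rw [h2]
    exact div_ne_zero two_ne_zero hb1
  have ha3 : α ^ 2 + 1 ≠ 0 := by
    have h2 : α ^ 2 + 1 = 2 * (β ^ 2 + 1) / (1 - β) ^ 2 := by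
      rw [hα]
      field_simp
      ring
    rw [h2]
    exact div_ne_zero (mul_ne_zero two_ne_zero hb3) (pow_ne_zero 2 hb1)
  have hi : α⁻¹ ≠ 0 := inv_ne_zero ha0
  have hai : α * α⁻¹ = 1 := mul_inv_cancel₀ ha0
  have e1 : α ≠ 1 := fun h => ha1 (by rw [h]; ring)
  have e2 : α⁻¹ ≠ 1 := fun h => e1 (by rw [← inv_inv α, h, inv_one])
  have e3 : α ≠ α⁻¹ := by
    intro h
    have h2 : (α - 1) * (α + 1) = 0 := by
      have : α * α = 1 := by nth_rewrite 2 [h]; exact hai
      linear_combination this
    rcases mul_eq_zero.1 h2 with h3 | h3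
    · exact ha1 h3
    · exact ha2 h3
  have f1 : α ≠ -1 := fun h => ha2 (by rw [h]; ring)
  have f2 : α⁻¹ ≠ -1 := by
    intro h
    apply f1
    rw [← inv_inv α, h]
    norm_num
  have f3 : α ≠ -α⁻¹ := by
    intro h
    apply ha3
    have : α * α = -1 := by
      nth_rewrite 2 [h]
      rw [mul_neg, hai]
    linear_combination this
  have g1 : (1 : k) ≠ -1 := by
    intro h
    have : (2 : k) = 0 := by linear_combination h
    exact two_ne_zero this
  have g2 : ∀ x : k, x ≠ 0 → x ≠ -x := by
    intro x hx h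
    have : 2 * x = 0 := by linear_combination h
    rcases mul_eq_zero.1 this with h' | h'
    · exact two_ne_zero h'
    · exact hx h'
  refine ⟨α, ⟨by show 2 ≤ 3; norm_num, ?_⟩, ?_⟩
  · have hinj : Function.Injective ![1, α, α⁻¹] := by
      intro i j hij
      fin_cases i <;> fin_cases j <;> simp at hij ⊢
      · exact e1 hij.symm
      · exact e1 (by rw [← hij])
      · exact e1 hij
      · exact e3 hij
      · exact e1 hij
      · exact e3 hij.symm
    have hsum : ∀ i j : Fin 3, (![1, α, α⁻¹] : Fin 3 → k) i ≠ -(![1, α, α⁻¹] : Fin 3 → k) j := by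
      intro i j hij
      fin_cases i <;> fin_cases j <;> simp at hij
      · exact g1 hij
      · exact f1 (by linear_combination hij)
      · exact f2 (by linear_combination hij)
      · exact f1 hij
      · exact g2 α ha0 hij
      · exact f3 hij
      · exact f2 hij
      · exact f3 (by linear_combination hij)
      · exact g2 _ hi hij
    refine Function.Injective.sumElim ?_ ?_ ?_
    · exact hinj
    · intro i j hij
      exact hinj (neg_injective hij)
    · intro i j
      exact hsum i j
  · unfold rr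
    have h2 : (α - 1) / (α + 1) = β := by
      rw [div_eq_iff ha2, hα]
      field_simp
      ring
    rw [h2]
    linear_combination -hβ

end Pool.Agent.LibCW77
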