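import Pool.Agent.LibCW77.Defs7
import Pool.Agent.LibCW77.D1
import Pool.Agent.LibCW77.D2

/-!
[CW77 GA1] Semilinear isomorphisms (`SI s M M'`: a ring isomorphism `f : M ≃+* M'` with `f (c) = s(c)` on `k`). `si_exists`: `M' = M` with the structure map `algebraMap ∘ s⁻¹` (use a type synonym or give the instances explicitly: `⟨M, inferInstance, ((algebraMap k M).comp s.symm).toAlgebra, ..⟩`). `si_ext`: the same for `M₁`. `si_place`: the place
`v'` with `v'.ord y = v.ord (f⁻¹ y)` (all fields of the structure `Place`); the residue fields: `RF v` is the residue ring of `VR v` (LibCHd), the isomorphism is induced by `f` (`Ideal.Quotient` / `IsLocalRing.ResidueField.map`), or define it through `Red`: `red_iff`, `exists_rep`. `si_funF`: the definition of `FunF` (transcendence basis, finite dimension) is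
transported (`IsTranscendenceBasis`/`AlgebraicIndependent` under a semilinear isomorphism: polynomials over `k` are moved by `MvPolynomial.map s`). `si_finrank`: `Algebra.finrank_eq_of_equiv_equiv`. `si_fld`: the field generated by the coordinates.
-/

open scoped Classical
open Polynomial

namespace Pool.Agent.LibCW77

open Pool.Agent.LibBH2
open Pool.Agent.LibCHd (VR RF Red FunF)

variable {k : Type} [Field k] {s : k ≃+* k}

theorem si_exists (s : k ≃+* k) (M : Type) [Field M] [Algebra k M] :
    ∃ (M' : Type) (_ : Field M') (_ : Algebra k M'), Nonempty (SI s M M') := by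
  refine ⟨M, inferInstance, ((algebraMap k M).comp (s.symm : k →+* k)).toAlgebra, ⟨@SI.mk k _ s M M _ _ _ (_) (RingEquiv.refl M) ?_⟩⟩
  intro a
  change algebraMap k M a = algebraMap k M (s.symm (s a))
  rw [s.symm_apply_apply]

theorem si_ext {M M' M₁ : Type} [Field M] [Algebra k M] [Field M'] [Algebra k M'] [Field M₁] [Algebra k M₁]
    (i : SI s M M') (σ : M →ₐ[k] M₁) : ∃ (M₁' : Type) (_ : Field M₁') (_ : Algebra k M₁') (i₁ : SI s M₁ M₁')
      (σ' : M' →ₐ[k] M₁'), ∀ x, σ' (i.f x) = i₁.f (σ x) := by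
  refine ⟨M₁, inferInstance, ((algebraMap k M₁).comp (s.symm : k →+* k)).toAlgebra,
    @SI.mk k _ s M₁ M₁ _ _ _ (_) (RingEquiv.refl M₁) ?_, 
    @AlgHom.mk k M' M₁ _ _ _ _ (_) ((σ : M →+* M₁).comp (i.f.symm : M' →+* M)) ?_, ?_⟩
  · intro a
    change algebraMap k M₁ a = algebraMap k M₁ (s.symm (s a))
    rw [s.symm_apply_apply]
  · intro a
    change σ (i.f.symm (algebraMap k M' a)) = algebraMap k M₁ (s.symm a)
    have h1 : i.f (algebraMap k M (s.symm a)) = algebraMap k M' a := by
      rw [i.comm, s.apply_symm_apply]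
    rw [← h1, i.f.symm_apply_apply, σ.commutes]
  · intro x
    change σ (i.f.symm (i.f x)) = σ x
    rw [i.f.symm_apply_apply]

/-- the inverse isomorphism -/
private def GA1_inv {M M' : Type} [Field M] [Algebra k M] [Field M'] [Algebra k M'] (i : SI s M M') :
    SI s.symm M' M where
  f := i.f.symm
  comm a := by
    have h1 : i.f (algebraMap k M (s.symm a)) = algebraMap k M' a := by
      rw [i.comm, s.apply_symm_apply]
    rw [← h1, i.f.symm_apply_apply]

/-- the isomorphism of subfields -/
private noncomputable def GA1_sub {N N' : Type} [Field N] [Algebra k N] [Field N'] [Algebra k N'] (g : N ≃+* N')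
    (E : IntermediateField k N) (E' : IntermediateField k N') (h : ∀ x, x ∈ E ↔ g x ∈ E') : E ≃+* E' where
  toFun x := ⟨g x, (h x).1 x.2⟩
  invFun y := ⟨g.symm y, (h _).2 (by rw [g.apply_symm_apply]; exact y.2)⟩
  left_inv x := Subtype.ext (g.symm_apply_apply _)
  right_inv y := Subtype.ext (g.apply_symm_apply _)
  map_mul' x y := Subtype.ext (map_mul g _ _)
  map_add' x y := Subtype.ext (map_add g _ _)

private theorem GA1_rank {N N' : Type} [Field N] [Algebra k N] [Field N'] [Algebra k N'] (g : N ≃+* N')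
    (E : IntermediateField k N) (E' : IntermediateField k N') (h : ∀ x, x ∈ E ↔ g x ∈ E') :
    Module.finrank E' N' = Module.finrank E N := by
  refine (Algebra.finrank_eq_of_equiv_equiv (GA1_sub g E E' h) g ?_).symm
  ext x
  rfl

private theorem GA1_fin {N N' : Type} [Field N] [Algebra k N] [Field N'] [Algebra k N'] (g : N ≃+* N')
    (E : IntermediateField k N) (E' : IntermediateField k N') (h : ∀ x, x ∈ E ↔ g x ∈ E')
    (hf : FiniteDimensional E N) : FiniteDimensional E' N' := by
  refine Module.Finite.of_equiv_equiv (GA1_sub g E E' h) g ?_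
  ext x
  rfl

private theorem GA1_adj1 {M M' : Type} [Field M] [Algebra k M] [Field M'] [Algebra k M'] (i : SI s M M')
    (S : Set M) (x : M) (hx : x ∈ IntermediateField.adjoin k S) : i.f x ∈ IntermediateField.adjoin k (i.f '' S) := by
  induction hx using IntermediateField.adjoin_induction with
  | mem x hx => exact IntermediateField.subset_adjoin k _ ⟨x, hx, rfl⟩
  | algebraMap a => 
    rw [i.comm]
    exact (IntermediateField.adjoin k (i.f '' S)).algebraMap_mem _
  | add x y _ _ hx hy => rw [map_add]; exact add_mem hx hy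
  | inv x _ hx => rw [map_inv₀]; exact inv_mem hx
  | mul x y _ _ hx hy => rw [map_mul]; exact mul_mem hx hy

private theorem GA1_adj {M M' : Type} [Field M] [Algebra k M] [Field M'] [Algebra k M'] (i : SI s M M')
    (S : Set M) (x : M) : x ∈ IntermediateField.adjoin k S ↔ i.f x ∈ IntermediateField.adjoin k (i.f '' S) := by
  constructor
  · exact GA1_adj1 i S x
  · intro h
    have h1 := GA1_adj1 (GA1_inv i) _ _ h
    have h2 : (GA1_inv i).f (i.f x) = x := i.f.symm_apply_apply x
    have h3 : (GA1_inv i).f '' (i.f '' S) = S := by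
      ext y
      constructor
      · rintro ⟨_, ⟨z, hz, rfl⟩, rfl⟩
        have : (GA1_inv i).f (i.f z) = z := i.f.symm_apply_apply z
        rw [this]
        exact hz
      · intro hy
        exact ⟨i.f y, ⟨y, hy, rfl⟩, i.f.symm_apply_apply y⟩
    rw [h2, h3] at h1
    exact h1

theorem si_finrank {M M' M₁ M₁' : Type} [Field M] [Algebra k M] [Field M'] [Algebra k M'] [Field M₁] [Algebra k M₁]
    [Field M₁'] [Algebra k M₁'] (i : SI s M M') (i₁ : SI s M₁ M₁') (σ : M →ₐ[k] M₁) (σ' : M' →ₐ[k] M₁')
    (h : ∀ x, σ' (i.f x) = i₁.f (σ x)) :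
    Module.finrank σ'.fieldRange M₁' = Module.finrank σ.fieldRange M₁ := by
  refine GA1_rank i₁.f σ.fieldRange σ'.fieldRange ?_
  intro x
  rw [AlgHom.mem_fieldRange, AlgHom.mem_fieldRange]
  constructor
  · rintro ⟨y, rfl⟩
    exact ⟨i.f y, h y⟩
  · rintro ⟨y, hy⟩
    refine ⟨i.f.symm y, i₁.f.injective ?_⟩
    rw [← h, i.f.apply_symm_apply, hy]

private theorem GA1_aeval {ι : Type} {M M' : Type} [Field M] [Algebra k M] [Field M'] [Algebra k M'] (i : SI s M M')
    (g : ι → M) (P : MvPolynomial ι k) :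
    MvPolynomial.aeval (fun q => i.f (g q)) (MvPolynomial.map (s : k →+* k) P) = i.f (MvPolynomial.aeval g P) := by
  induction P using MvPolynomial.induction_on with
  | C a =>
    rw [MvPolynomial.map_C, MvPolynomial.aeval_C, MvPolynomial.aeval_C, i.comm]
    rfl
  | add p q hp hq => rw [map_add, map_add, map_add, map_add, hp, hq]
  | mul_X p n hp => 
    rw [map_mul, map_mul, map_mul, map_mul, hp, MvPolynomial.map_X, MvPolynomial.aeval_X, MvPolynomial.aeval_X]

theorem si_funF {d : ℕ} {M M' : Type} [Field M] [Algebra k M] [Field M'] [Algebra k M'] (i : SI s M M')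
    (h : FunF k d M) : FunF k d M' := by
  obtain ⟨t, ht, hf⟩ := h
  refine ⟨fun a => i.f (t a), ?_, ?_⟩
  · rw [algebraicIndependent_iff] at ht ⊢
    intro p hp
    obtain ⟨q, hq⟩ : ∃ q, MvPolynomial.map (s : k →+* k) q = p :=
      MvPolynomial.map_surjective _ s.surjective p
    rw [← hq] at hp ⊢
    rw [GA1_aeval, map_eq_zero_iff i.f i.f.injective] at hp
    rw [ht q hp, map_zero]
  · refine GA1_fin i.f _ _ ?_ hf
    intro x
    rw [GA1_adj i, ← Set.range_comp]
    rfl

private def GA1_pl {K K' : Type} [Field K] [Algebra k K] [Field K'] [Algebra k K'] (i : SI s K K') (v : Place k K) :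
    Place k K' where
  ord y := v.ord (i.f.symm y)
  ord_zero := by rw [map_zero, v.ord_zero]
  ord_mul f g hf hg := by
    rw [map_mul]
    exact v.ord_mul _ _ ((map_ne_zero_iff _ i.f.symm.injective).2 hf) ((map_ne_zero_iff _ i.f.symm.injective).2 hg)
  ord_add f g hf hg hfg := by
    rw [map_add]
    refine v.ord_add _ _ ((map_ne_zero_iff _ i.f.symm.injective).2 hf) ((map_ne_zero_iff _ i.f.symm.injective).2 hg) ?_
    rw [← map_add]
    exact (map_ne_zero_iff _ i.f.symm.injective).2 hfg
  ord_const c hc := by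
    have h1 : i.f.symm (algebraMap k K' c) = algebraMap k K (s.symm c) := (GA1_inv i).comm c
    rw [h1]
    exact v.ord_const _ ((map_ne_zero_iff _ s.symm.injective).2 hc)
  exists_uniformizer := by
    obtain ⟨t, ht⟩ := v.exists_uniformizer
    exact ⟨i.f t, by rw [i.f.symm_apply_apply, ht]⟩

private theorem GA1_reg {K K' : Type} [Field K] [Algebra k K] [Field K'] [Algebra k K'] (i : SI s K K')
    (v : Place k K) (x : K) : x ∈ VR v ↔ i.f x ∈ VR (GA1_pl i v) := by
  change (x = 0 ∨ 0 ≤ v.ord x) ↔ (i.f x = 0 ∨ 0 ≤ v.ord (i.f.symm (i.f x)))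
  rw [i.f.symm_apply_apply, map_eq_zero_iff i.f i.f.injective]

private noncomputable def GA1_vr {K K' : Type} [Field K] [Algebra k K] [Field K'] [Algebra k K'] (i : SI s K K')
    (v : Place k K) : VR v ≃+* VR (GA1_pl i v) where
  toFun x := ⟨i.f x, (GA1_reg i v x).1 x.2⟩
  invFun y := ⟨i.f.symm y, (GA1_reg i v _).2 (by rw [i.f.apply_symm_apply]; exact y.2)⟩
  left_inv x := Subtype.ext (i.f.symm_apply_apply _)
  right_inv y := Subtype.ext (i.f.apply_symm_apply _)
  map_mul' x y := Subtype.ext (map_mul i.f _ _)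
  map_add' x y := Subtype.ext (map_add i.f _ _)

theorem si_place {K K' : Type} [Field K] [Algebra k K] [Field K'] [Algebra k K'] (i : SI s K K') (v : Place k K) :
    ∃ (v' : Place k K') (j : SI s (RF v) (RF v')), (∀ x, v'.ord (i.f x) = v.ord x) ∧
      ∀ x y, Red v x y → Red v' (i.f x) (j.f y) := by
  refine ⟨GA1_pl i v, ⟨IsLocalRing.ResidueField.mapEquiv (GA1_vr i v), ?_⟩, ?_, ?_⟩
  · intro a
    change IsLocalRing.ResidueField.mapEquiv (GA1_vr i v) (IsLocalRing.residue (VR v) (algebraMap k (VR v) a)) =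
      IsLocalRing.residue (VR (GA1_pl i v)) (algebraMap k (VR (GA1_pl i v)) (s a))
    rw [IsLocalRing.ResidueField.mapEquiv_apply, IsLocalRing.ResidueField.map_residue]
    congr 1
    exact Subtype.ext (i.comm a)
  · intro x
    change v.ord (i.f.symm (i.f x)) = v.ord x
    rw [i.f.symm_apply_apply]
  · rintro x y ⟨h, rfl⟩
    refine ⟨(GA1_reg i v x).1 h, ?_⟩
    change _ = IsLocalRing.ResidueField.mapEquiv (GA1_vr i v) _
    rw [IsLocalRing.ResidueField.mapEquiv_apply, IsLocalRing.ResidueField.map_residue]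
    rfl

/-- every place of `K'` comes from a place of `K` -/
theorem si_place' {K K' : Type} [Field K] [Algebra k K] [Field K'] [Algebra k K'] (i : SI s K K') (v' : Place k K') :
    ∃ (v : Place k K) (j : SI s (RF v) (RF v')), (∀ x, v'.ord (i.f x) = v.ord x) ∧
      ∀ x y, Red v x y → Red v' (i.f x) (j.f y) := by
  obtain ⟨v, j, h1, h2⟩ := si_place (GA1_inv i) v'
  have e : ∀ x, (GA1_inv i).f (i.f x) = x := fun x => i.f.symm_apply_apply x
  refine ⟨v, ⟨j.f.symm, ?_⟩, ?_, ?_⟩
  · intro a
    have h3 := j.comm (s a)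
    rw [s.symm_apply_apply] at h3
    rw [← h3, j.f.symm_apply_apply]
  · intro x
    rw [← h1, e]
  · intro x y hxy
    have hr : i.f x ∈ VR v' := by
      have h4 : x ∈ VR v := hxy.1
      have h5 : x = 0 ∨ 0 ≤ v.ord x := h4
      change i.f x = 0 ∨ 0 ≤ v'.ord (i.f x)
      rw [map_eq_zero_iff i.f i.f.injective]
      rcases h5 with h5 | h5
      · exact Or.inl h5
      · right
        rw [← h1, e]
        exact h5
    have h6 : Red v' (i.f x) (IsLocalRing.residue (VR v') ⟨i.f x, hr⟩) := ⟨hr, rfl⟩
    have h7 := h2 _ _ h6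
    rw [e] at h7
    have h8 : y = j.f (IsLocalRing.residue (VR v') ⟨i.f x, hr⟩) := by
      obtain ⟨a1, a2⟩ := hxy
      obtain ⟨b1, b2⟩ := h7
      rw [← a2, ← b2]
    change Red v' (i.f x) (j.f.symm y)
    rw [h8, j.f.symm_apply_apply]
    exact h6

theorem si_spP {m : ℕ} {K K' : Type} [Field K] [Algebra k K] [Field K'] [Algebra k K'] (i : SI s K K') (v : Place k K)
    (v' : Place k K') (j : SI s (RF v) (RF v')) (h : ∀ x, v'.ord (i.f x) = v.ord x)
    (hj : ∀ x y, Red v x y → Red v' (i.f x) (j.f y)) {u : Pnt m K} {q : Pnt m (RF v)} (hq : SpP v u q) :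
    SpP v' (mpP i.f u) (mpP j.f q) := by
  intro a b
  have h1 := hq a b
  change SpO v' ((u a b).map i.f) ((q a b).map j.f)
  revert h1
  generalize u a b = x
  generalize q a b = y
  intro h1
  cases x with
  | none =>
    change y = none at h1
    subst h1
    rfl
  | some x =>
    cases y with
    | none =>
      change v.ord x < 0 at h1
      change v'.ord (i.f x) < 0
      rw [h]
      exact h1
    | some y =>
      exact hj x y h1

private theorem GA1_co {m : ℕ} {M M' : Type} [Field M] [Field M'] (f : M ≃+* M')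
    (u : Pnt m M) (q : Fin m × Fin 2) : co (mpP f u) q = f (co u q) := by
  change ((u q.1 q.2).map f).getD 0 = f ((u q.1 q.2).getD 0)
  cases u q.1 q.2 with
  | none => exact (map_zero f).symm
  | some x => rfl

/-- the subvariety of the moved point -/
theorem si_eqs {m : ℕ} {M M' : Type} [Field M] [Algebra k M] [Field M'] [Algebra k M'] (i : SI s M M')
    (u : Pnt m M) : eqs k (mpP i.f u) = ((eqs k u).1, MvPolynomial.map (s : k →+* k) '' (eqs k u).2) := by
  have hco : co (mpP i.f u) = fun q => i.f (co u q) := funext fun q => GA1_co i.f u q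
  refine Prod.ext ?_ ?_
  · ext q
    change (u q.1 q.2).map i.f = none ↔ u q.1 q.2 = none
    cases u q.1 q.2 <;> simp
  · ext G
    change MvPolynomial.aeval (co (mpP i.f u)) G = 0 ↔
      G ∈ MvPolynomial.map (s : k →+* k) '' {G | MvPolynomial.aeval (co u) G = 0}
    obtain ⟨q, rfl⟩ : ∃ q, MvPolynomial.map (s : k →+* k) q = G :=
      MvPolynomial.map_surjective _ s.surjective G
    rw [hco, GA1_aeval, map_eq_zero_iff i.f i.f.injective]
    constructor
    · intro h
      exact ⟨q, h, rfl⟩
    · rintro ⟨q', h, hq'⟩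
      rw [← MvPolynomial.map_injective (s : k →+* k) s.injective hq']
      exact h

theorem si_fld {m : ℕ} {M M' : Type} [Field M] [Algebra k M] [Field M'] [Algebra k M'] (i : SI s M M')
    (u : Pnt m M) : Module.finrank (fld k (mpP i.f u)) M' = Module.finrank (fld k u) M := by
  have hco : co (mpP i.f u) = fun q => i.f (co u q) := funext fun q => GA1_co i.f u q
  refine GA1_rank i.f _ _ ?_
  intro x
  unfold fld
  rw [GA1_adj i, ← Set.range_comp, hco]
  rfl

theorem si_yf {M M' : Type} [Field M] [Algebra k M] [Field M'] [Algebra k M'] (i : SI s M M')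
    (Y : Fin 3 → M) : Module.finrank (yf k fun a => i.f (Y a)) M' = Module.finrank (yf k Y) M := by
  refine GA1_rank i.f _ _ ?_
  intro x
  unfold yf
  rw [GA1_adj i, ← Set.range_comp]
  have h : (fun p : Fin 3 × Fin 3 => i.f (Y p.1) / i.f (Y p.2)) = i.f ∘ fun p : Fin 3 × Fin 3 => Y p.1 / Y p.2 := by
    funext p
    exact (map_div₀ i.f _ _).symm
  rw [h]

end Pool.Agent.LibCW77
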