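import Pool.Agent.LibCW77.Defs7
import Pool.Agent.LibCW77.GA1
import Pool.Agent.LibCW77.D1
import Pool.Agent.LibCW77.D3

/-!
[CW77 GA2] The action on the classes of cycles. On `Cyc k m`: `Finsupp.mapDomain` of `(A, I) ↦ (A, MvPolynomial.map s '' I)`; it maps `cyc k u` to `cyc k (mpP i.f u)` (`si_eqs`, `si_fld`). It maps `RatEq c m d` into itself (`AddSubgroup.closure_le`): the data of `IsDiv` are moved by a semilinear isomorphism `i : SI s K K'` (`si_exists`, `si_funF`, `si_place`, `si_place'`,
`si_spP`, `si_on`; the function `i.f g`; the places `v'` of the `v ∈ S`, `E' v' = cyc k (mpP j.f q)`). `QuotientAddGroup.map`.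
-/

open scoped Classical
open Polynomial

namespace Pool.Agent.LibCW77

open Pool.Agent.LibBH2
open Pool.Agent.LibCHd (VR RF Red FunF)

variable {k : Type} [Field k] {s : k ≃+* k}

private theorem GA2_onC {c : Dat k} (hs : Fix c s) {M M' : Type} [Field M] [Algebra k M] [Field M']
    [Algebra k M'] (i : SI s M M') (X Y : Option M) :
    OnC (c.over M') (X.map i.f) (Y.map i.f) ↔ OnC (c.over M) X Y := by
  have ha : ∀ l, i.f (algebraMap k M (c.a l)) = algebraMap k M' (c.a l) := fun l => by
    rw [i.comm, (hs l).1]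
  have hb : ∀ l, i.f (algebraMap k M (c.b l)) = algebraMap k M' (c.b l) := fun l => by
    rw [i.comm, (hs l).2]
  rcases X with _ | x <;> rcases Y with _ | y
  · exact Iff.rfl
  · change (i.f y) ^ c.n = 1 ↔ y ^ c.n = 1
    rw [← map_pow, ← map_one i.f]
    exact i.f.injective.eq_iff
  · change (∃ l, i.f x = algebraMap k M' (c.b l)) ↔ ∃ l, x = algebraMap k M (c.b l)
    refine exists_congr fun l => ?_
    rw [← hb l]
    exact i.f.injective.eq_iff
  · change (i.f y) ^ c.n * ∏ l, (i.f x - algebraMap k M' (c.b l)) =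
      ∏ l, (i.f x - algebraMap k M' (c.a l)) ↔
      y ^ c.n * ∏ l, (x - algebraMap k M (c.b l)) = ∏ l, (x - algebraMap k M (c.a l))
    have h1 : (i.f y) ^ c.n * ∏ l, (i.f x - algebraMap k M' (c.b l)) =
        i.f (y ^ c.n * ∏ l, (x - algebraMap k M (c.b l))) := by
      rw [map_mul, map_pow, map_prod]
      congr 1
      refine Finset.prod_congr rfl fun l _ => ?_
      rw [map_sub, hb]
    have h2 : ∏ l, (i.f x - algebraMap k M' (c.a l)) =
        i.f (∏ l, (x - algebraMap k M (c.a l))) := by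
      rw [map_prod]
      refine Finset.prod_congr rfl fun l _ => ?_
      rw [map_sub, ha]
    rw [h1, h2]
    exact i.f.injective.eq_iff

/-- the inverse semilinear isomorphism -/
private def GA2_symm {M M' : Type} [Field M] [Algebra k M] [Field M'] [Algebra k M']
    (i : SI s M M') : SI s.symm M' M where
  f := i.f.symm
  comm := by
    intro a
    rw [RingEquiv.symm_apply_eq, i.comm, RingEquiv.apply_symm_apply]

/-- the action on the basis elements -/
private def GA2_T (s : k ≃+* k) (m : ℕ) (z : Set (Fin m × Fin 2) × Set (MvPolynomial (Fin m × Fin 2) k)) :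
    Set (Fin m × Fin 2) × Set (MvPolynomial (Fin m × Fin 2) k) :=
  (z.1, MvPolynomial.map (s : k →+* k) '' z.2)

private noncomputable def GA2_G (s : k ≃+* k) (m : ℕ) : Cyc k m →+ Cyc k m :=
  Finsupp.mapDomain.addMonoidHom (GA2_T s m)

private theorem GA2_cyc {m : ℕ} {M M' : Type} [Field M] [Algebra k M] [Field M'] [Algebra k M']
    (i : SI s M M') (u : Pnt m M) : GA2_G s m (cyc k u) = cyc k (mpP i.f u) := by
  unfold cyc
  rw [si_eqs i u, si_fld i u]
  exact Finsupp.mapDomain_single

private theorem GA2_ext {K : Type} [Field K] [Algebra k K] {v w : Place k K}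
    (h : ∀ x, v.ord x = w.ord x) : v = w := by
  cases v
  cases w
  congr
  funext x
  exact h x

theorem si_on {c : Dat k} (hs : Fix c s) {m : ℕ} {M M' : Type} [Field M] [Algebra k M] [Field M'] [Algebra k M']
    (i : SI s M M') (u : Pnt m M) : On (c.over M') (mpP i.f u) ↔ On (c.over M) u := by
  refine forall_congr' fun j => ?_
  exact GA2_onC hs i (u j 0) (u j 1)

theorem exists_act {c : Dat k} (hs : Fix c s) (m d : ℕ) : ∃ Γ : CH c m d →+ CH c m d, IsAct s Γ := by
  have hle : RatEq c m d ≤ (RatEq c m d).comap (GA2_G s m) := by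
    unfold RatEq
    rw [AddSubgroup.closure_le]
    rintro e ⟨K, _, _, u, g, S, E, hK, hu, hg, h1, h2, rfl⟩
    refine AddSubgroup.subset_closure ?_
    obtain ⟨K', _, _, ⟨i⟩⟩ := si_exists s K
    choose φ jφ hφ hφ' using si_place i
    choose ψ jψ hψ hψ' using si_place' i
    have hψφ : ∀ v, ψ (φ v) = v := by
      intro v
      refine GA2_ext fun x => ?_
      rw [← hψ, hφ]
    have hinj : Function.Injective φ := by
      intro v w h
      rw [← hψφ v, ← hψφ w, h]
    have hφψ : ∀ w, φ (ψ w) = w := by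
      intro w
      refine GA2_ext fun x => ?_
      obtain ⟨y, rfl⟩ := i.f.surjective x
      rw [hφ, hψ]
    have hmem : ∀ w, w ∈ S.image φ ↔ ψ w ∈ S := by
      intro w
      rw [Finset.mem_image]
      constructor
      · rintro ⟨v, hv, rfl⟩
        rw [hψφ]
        exact hv
      · intro h
        exact ⟨ψ w, h, hφψ w⟩
    refine ⟨K', inferInstance, inferInstance, mpP i.f u, i.f g, S.image φ,
      fun w => GA2_G s m (E (ψ w)), si_funF i hK, (si_on hs i u).2 hu, ?_, ?_, ?_, ?_⟩
    · exact (map_ne_zero i.f).2 hg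
    · intro w hw
      obtain ⟨h3, q, h4, h5⟩ := h1 (ψ w) ((hmem w).1 hw)
      refine ⟨si_funF (jψ w) h3, mpP (jψ w).f q,
        si_spP i (ψ w) w (jψ w) (hψ w) (hψ' w) h4, ?_⟩
      change GA2_G s m (E (ψ w)) = _
      rw [h5]
      exact GA2_cyc (jψ w) q
    · intro w hw hg' hF q' hq'
      obtain ⟨q, hq⟩ := spP_exists (ψ w) u
      have h3 := h2 (ψ w) (fun h => hw ((hmem w).2 h)) (by rw [← hψ]; exact hg')
        (si_funF (GA2_symm (jψ w)) hF) q hq
      have h4 := si_spP i (ψ w) w (jψ w) (hψ w) (hψ' w) hq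
      rw [spP_unique hq' h4, ← GA2_cyc (jψ w) q, h3, map_zero]
    · rw [map_sum, Finset.sum_image fun v _ w _ h => hinj h]
      refine Finset.sum_congr rfl fun v _ => ?_
      change _ = (φ v).ord (i.f g) • GA2_G s m (E (ψ (φ v)))
      rw [map_zsmul, hψφ, hφ]
  refine ⟨QuotientAddGroup.map (RatEq c m d) (RatEq c m d) (GA2_G s m) hle, ?_⟩
  intro M M' _ _ _ _ i u
  have h1 := GA2_cyc i u
  unfold cls
  rw [← h1]
  rfl

end Pool.Agent.LibCW77
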