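import Pool.Agent.LibCW77.Defs7
import Pool.Agent.LibCW77.GA1
import Pool.Agent.LibCW77.GA2
import Pool.Agent.LibCW77.LN
import Pool.Agent.LibCW77.T3
import Pool.Agent.LibCW77.T4
import Pool.Agent.LibCW77.T7
import Pool.Agent.LibCW77.A0

/-!
[CW77 GA3] The classes of the lines are equivariant. `act_mns`: `mpP i.f (tw w u) = tw (s ∘ w) (mpP i.f u)`, `s` permutes `W c` (`s ζ = ζ` for the vector `t1 ζ`), reindex the sum. `act_Lval`: if `Q` is ramified both sides are `0` (`Lval_ram`). Otherwise `line_pt`: `M`, `z` with `finrank (yf k z.Y) M = 1`; a lift `P` over `M₁ / M` (`exists_lift`);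
`q (mns P) = [M₁ : M] • Lval Q` (`TZ_spec`, `Lval_spec`). Move everything by `i : SI s M M'`, `si_ext`: `z' = z.map i.f` is a Z-point on the line of `s Q` (`R_i = lR c (Q 0) i` in `k`: `s` fixes `a_i, b_i`, so `ka, kb` (`ka_map`), `lR_map`; `s ν = ν`), `mpP i₁.f P` is a lift of it, `si_finrank`, `si_yf`, `si_funF`, so
`q (mns (mpP i₁.f P)) = [M₁ : M] • Lval (s Q)`; `act_mns`; divide by the degree.
-/

open scoped Classical
open Polynomial

namespace Pool.Agent.LibCW77

open Pool.Agent.LibBH2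
open Pool.Agent.LibCHd (VR RF Red FunF)

variable {k : Type} [Field k] {s : k ≃+* k}

private theorem GA3_tw {M M' : Type} [Field M] [Algebra k M] [Field M'] [Algebra k M'] (i : SI s M M')
    (w : Fin 3 → k) (u : Pnt 3 M) : mpP i.f (tw w u) = tw (fun j => s (w j)) (mpP i.f u) := by
  funext j a
  fin_cases a
  · rfl
  · change ((u j 1).map fun v => algebraMap k M (w j) * v).map i.f =
      ((u j 1).map i.f).map fun v => algebraMap k M' (s (w j)) * v
    rw [Option.map_map, Option.map_map]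
    congr 1
    funext v
    change i.f (algebraMap k M (w j) * v) = algebraMap k M' (s (w j)) * i.f v
    rw [map_mul, i.comm]

private theorem GA3_pr {M M' : Type} (f : M → M') (σ : Equiv.Perm (Fin 3)) (u : Pnt 3 M) :
    mpP f (pr σ u) = pr σ (mpP f u) := rfl

private theorem GA3_W {c : Dat k} (hc : c.Good) (s : k ≃+* k) {w : Fin 3 → k} (hw : w ∈ W c) :
    (fun j => s (w j)) ∈ W c := by
  have hn : 0 < c.n := by
    have := hc.two
    omega
  unfold W at hw ⊢
  rw [Finset.mem_filter, Fintype.mem_piFinset] at hw ⊢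
  refine ⟨fun j => ?_, ?_⟩
  · have h1 := hw.1 j
    rw [mem_nthRootsFinset hn] at h1 ⊢
    rw [← map_pow, h1, map_one]
  · rw [← map_prod, hw.2, map_one]

theorem act_mns {c : Dat k} (hs : Fix c s) (hc : c.Good) {ζ : k} (hζ : s ζ = ζ) {Γ : CH c 3 1 →+ CH c 3 1}
    (hΓ : IsAct s Γ) {M M' : Type} [Field M] [Algebra k M] [Field M'] [Algebra k M'] (i : SI s M M') (P : Pnt 3 M) :
    Γ (mns c ζ P) = mns c ζ (mpP i.f P) := by
  have ht : (fun j => s (t1 ζ j)) = t1 ζ := by
    funext j
    fin_cases j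
    · exact hζ
    · exact map_one s
    · exact map_one s
  unfold mns
  rw [map_sum]
  refine Finset.sum_congr rfl fun σ _ => ?_
  rw [map_sum]
  refine Finset.sum_nbij' (fun w j => s (w j)) (fun w j => s.symm (w j)) ?_ ?_ ?_ ?_ ?_
  · intro w hw
    exact GA3_W hc s hw
  · intro w hw
    exact GA3_W hc s.symm hw
  · intro w _
    funext j
    exact s.symm_apply_apply (w j)
  · intro w _
    funext j
    exact s.apply_symm_apply (w j)
  · intro w _
    rw [map_sub, hΓ M M' i, hΓ M M' i, GA3_pr, GA3_pr, GA3_tw, GA3_tw, GA3_tw, ht]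

private theorem GA3_over {c : Dat k} (hs : Fix c s) {M M' : Type} [Field M] [Algebra k M] [Field M'] [Algebra k M']
    (i : SI s M M') : (c.over M).map (i.f : M →+* M') = c.over M' := by
  have ha : (fun j => i.f (algebraMap k M (c.a j))) = fun j => algebraMap k M' (c.a j) := by
    funext j
    rw [i.comm, (hs j).1]
  have hb : (fun j => i.f (algebraMap k M (c.b j))) = fun j => algebraMap k M' (c.b j) := by
    funext j
    rw [i.comm, (hs j).2]
  change (⟨c.n, fun j => i.f (algebraMap k M (c.a j)), fun j => i.f (algebraMap k M (c.b j))⟩ : Dat M') =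
    ⟨c.n, fun j => algebraMap k M' (c.a j), fun j => algebraMap k M' (c.b j)⟩
  rw [ha, hb]

private theorem GA3_fix {c : Dat k} (hs : Fix c s) : c.map (s : k →+* k) = c := by
  have ha : (fun j => s (c.a j)) = c.a := by
    funext j
    exact (hs j).1
  have hb : (fun j => s (c.b j)) = c.b := by
    funext j
    exact (hs j).2
  change (⟨c.n, fun j => s (c.a j), fun j => s (c.b j)⟩ : Dat k) = c
  rw [ha, hb]

private theorem GA3_ev {M M' : Type} [Field M] [Field M'] (f : M →+* M') (x : Option M) (t : M) :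
    ev (x.map f) (f t) = f (ev x t) := by
  cases x with
  | none => exact (map_one f).symm
  | some x => exact (map_sub f t x).symm

private theorem GA3_X {M M' : Type} [Field M] [Field M'] (f : M →+* M') (c : Dat M) (P : Pnt 3 M) (t : Fin 3) :
    Xv (c.map f) (mpP f P) t = f (Xv c P t) := by
  simp only [Xv, mpP, Dat.map, map_prod]
  exact Finset.prod_congr rfl fun j _ => GA3_ev f _ _

private theorem GA3_Y {M M' : Type} [Field M] [Field M'] (f : M →+* M') (c : Dat M) (P : Pnt 3 M) (t : Fin 3) :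
    Yv (c.map f) (mpP f P) t = f (Yv c P t) := by
  simp only [Yv, mpP, Dat.map, map_prod]
  exact Finset.prod_congr rfl fun j _ => GA3_ev f _ _

private theorem GA3_cA {M M' : Type} [Field M] [Field M'] (f : M →+* M') (c : Dat M) (R : Fin 3 → M)
    (i : Fin 3) : cA (c.map f) (fun j => f (R j)) i = f (cA c R i) := by
  unfold cA
  rw [kb_map, ka_map, map_add, map_mul]

private theorem GA3_cB {M M' : Type} [Field M] [Field M'] (f : M →+* M') (c : Dat M) (R : Fin 3 → M)
    (i : Fin 3) : cB (c.map f) (fun j => f (R j)) i = f (cB c R i) := by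
  unfold cB
  rw [kb_map, ka_map, map_add, map_mul, map_mul, map_mul]
  rfl

private theorem GA3_lift {M M' : Type} [Field M] [Field M'] (f : M →+* M') (c : Dat M) {z : Zp M} {P : Pnt 3 M}
    (h : IsLift c z P) (hon : On (c.map f) (mpP f P)) : IsLift (c.map f) (z.map f) (mpP f P) := by
  obtain ⟨l, hl, hv⟩ := h.val
  obtain ⟨v, hvP, hvu⟩ := h.prod
  refine ⟨hon, ⟨f l, ?_, ?_⟩, ⟨fun j => f (v j), ?_, ?_⟩⟩
  · exact (map_ne_zero_iff f f.injective).2 hl
  · intro t
    change Xv (c.map f) (mpP f P) t = f l * (f (z.R t) * f (z.Y t)) ∧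
      Yv (c.map f) (mpP f P) t = f l * f (z.Y t)
    rw [GA3_X, GA3_Y, (hv t).1, (hv t).2]
    simp only [map_mul, and_self]
  · intro j
    change (P j 1).map f = some (f (v j))
    rw [hvP j, Option.map_some]
  · change ∏ j, f (v j) = f z.u
    rw [← hvu, map_prod]

private theorem GA3_isZ {M M' : Type} [Field M] [Field M'] (f : M →+* M') (c : Dat M) {z : Zp M}
    (h : IsZ c z) : IsZ (c.map f) (z.map f) := by
  have hi : Function.Injective f := f.injective
  refine ⟨?_, ?_, ?_, ?_, ?_, ?_⟩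
  · intro i
    exact (map_ne_zero_iff f hi).2 (h.R0 i)
  · intro i
    exact (map_ne_zero_iff f hi).2 (h.Y0 i)
  · exact (map_ne_zero_iff f hi).2 h.u0
  · change (f z.u) ^ c.n = ∏ i, f (z.R i)
    rw [← map_pow, h.un, map_prod]
  · change ∑ i, cA (c.map f) (fun j => f (z.R j)) i * f (z.Y i) = 0
    rw [← map_zero f, ← h.r1, map_sum]
    refine Finset.sum_congr rfl fun i _ => ?_
    rw [GA3_cA, map_mul]
  · change ∑ i, cB (c.map f) (fun j => f (z.R j)) i * f (z.Y i) = 0
    rw [← map_zero f, ← h.r2, map_sum]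
    refine Finset.sum_congr rfl fun i _ => ?_
    rw [GA3_cB, map_mul]

private theorem GA3_onC {M M' : Type} [Field M] [Field M'] (f : M →+* M') (c : Dat M) {x v : Option M}
    (h : OnC c x v) : OnC (c.map f) (x.map f) (v.map f) := by
  rcases x with _ | x
  · rcases v with _ | v
    · exact h.elim
    · change v ^ c.n = 1 at h
      change (f v) ^ c.n = 1
      rw [← map_pow, h, map_one]
  · rcases v with _ | v
    · obtain ⟨i, hi⟩ := h
      exact ⟨i, by rw [hi]; rfl⟩
    · change v ^ c.n * ∏ i, (x - c.b i) = ∏ i, (x - c.a i) at h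
      change (f v) ^ c.n * ∏ i, (f x - f (c.b i)) = ∏ i, (f x - f (c.a i))
      have h1 := congrArg f h
      rw [map_mul, map_pow, map_prod, map_prod] at h1
      simpa only [map_sub] using h1

variable {V : Type} [AddCommGroup V] [Module ℚ V]

private theorem GA3_cancel {n : ℕ} (hn : n ≠ 0) {x y : V} (h : n • x = n • y) : x = y := by
  have h1 : (n : ℚ) • x = (n : ℚ) • y := by
    rw [Nat.cast_smul_eq_nsmul, Nat.cast_smul_eq_nsmul]
    exact h
  have h2 : (n : ℚ) ≠ 0 := by exact_mod_cast hn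
  have h3 := congrArg (fun t => (n : ℚ)⁻¹ • t) h1
  simpa [smul_smul, inv_mul_cancel₀ h2] using h3

theorem act_Lval [IsAlgClosed k] [CharZero k] {c : Dat k} (hs : Fix c s) (hc : c.Good) {ζ ν : k}
    (hζ : IsPrimitiveRoot ζ c.n) (hν : ν ^ c.n = ∏ i, (-(kb c i) / ka c i)) (hsζ : s ζ = ζ) (hsν : s ν = ν)
    {Γ : CH c 3 1 →+ CH c 3 1} (hΓ : IsAct s Γ) (q : CH c 3 1 →+ V) (Γ' : V →ₗ[ℚ] V) (h : ∀ x, Γ' (q x) = q (Γ x))
    (Q : Fin 2 → Option k) (hQ : OnC c (Q 0) (Q 1)) :
    Γ' (Lval c ζ ν q Q) = Lval c ζ ν q (fun a => (Q a).map s) := by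
  have hQ' : OnC c ((Q 0).map s) ((Q 1).map s) := by
    have h1 := GA3_onC (s : k →+* k) c hQ
    rw [GA3_fix hs] at h1
    exact h1
  by_cases hr : Q 1 = none ∨ Q 1 = some 0
  · rw [Lval_ram q Q hr, Lval_ram q, map_zero]
    rcases hr with hr | hr
    · left
      change (Q 1).map s = none
      rw [hr]
      rfl
    · right
      change (Q 1).map s = some 0
      rw [hr, Option.map_some, map_zero]
  · obtain ⟨M, _, _, z, hM, hz, hl, hfr⟩ := line_pt hc hν Q hQ hr
    obtain ⟨M₁, _, _, σ, P, hfin, hP⟩ := exists_lift hc z hz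
    have e1 := TZ_spec hc hζ q hz σ P hfin hP
    rw [Lval_spec hc hζ hν q Q hQ hM hz hl, hfr, one_smul] at e1
    -- move everything
    obtain ⟨M', _, _, ⟨i⟩⟩ := si_exists s M
    obtain ⟨M₁', _, _, i₁, σ', hcomm⟩ := si_ext i σ
    have hz' : IsZ (c.over M') (z.map i.f) := by
      have h1 := GA3_isZ (i.f : M →+* M') (c.over M) hz
      rw [GA3_over hs i] at h1
      exact h1
    have hl' : OnLine c ν (fun a => (Q a).map s) (z.map i.f) := by
      obtain ⟨hR, y, hy, hy0, hu⟩ := hl
      refine ⟨fun j => ?_, s y, ?_, ?_, ?_⟩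
      · change i.f (z.R j) = algebraMap k M' (lR c ((Q 0).map s) j)
        rw [hR, i.comm]
        have h1 := lR_map (s : k →+* k) c (Q 0) j
        rw [GA3_fix hs] at h1
        exact congrArg _ h1.symm
      · change (Q 1).map s = some (s y)
        rw [hy, Option.map_some]
      · exact (map_ne_zero_iff s s.injective).2 hy0
      · change i.f z.u * algebraMap k M' (s y) = algebraMap k M' ν
        rw [← i.comm, ← map_mul, hu, i.comm, hsν]
    have hM' : FunF k 1 M' := si_funF i hM
    have hP' : IsLift (c.over M₁') ((z.map i.f).map σ') (mpP i₁.f P) := by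
      have hon : On ((c.over M₁).map (i₁.f : M₁ →+* M₁')) (mpP (i₁.f : M₁ →+* M₁') P) := by
        rw [GA3_over hs i₁]
        exact (si_on hs i₁ P).2 hP.on
      have h1 := GA3_lift (i₁.f : M₁ →+* M₁') (c.over M₁) hP hon
      rw [GA3_over hs i₁] at h1
      have h2 : (z.map σ).map (i₁.f : M₁ →+* M₁') = (z.map i.f).map σ' := by
        have hR : (fun a => i₁.f (σ (z.R a))) = fun a => σ' (i.f (z.R a)) :=
          funext fun a => (hcomm _).symm
        have hY : (fun a => i₁.f (σ (z.Y a))) = fun a => σ' (i.f (z.Y a)) :=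
          funext fun a => (hcomm _).symm
        change (⟨fun a => i₁.f (σ (z.R a)), fun a => i₁.f (σ (z.Y a)), i₁.f (σ z.u)⟩ : Zp M₁') =
          ⟨fun a => σ' (i.f (z.R a)), fun a => σ' (i.f (z.Y a)), σ' (i.f z.u)⟩
        rw [hR, hY, hcomm z.u]
      rw [h2] at h1
      exact h1
    have hfin' := si_finrank i i₁ σ σ' hcomm
    have e2 := TZ_spec hc hζ q hz' σ' (mpP i₁.f P) (by rw [hfin']; exact hfin) hP'
    have hfr' : Module.finrank (yf k (z.map i.f).Y) M' = 1 := (si_yf i z.Y).trans hfr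
    rw [Lval_spec hc hζ hν q (fun a => (Q a).map s) hQ' hM' hz' hl', hfr', one_smul, hfin'] at e2
    refine GA3_cancel hfin ?_
    rw [← e2, ← act_mns hs hc hsζ hΓ i₁ P, ← h, e1, map_nsmul]

end Pool.Agent.LibCW77
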