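import Pool.Agent.LibCW77.FDefs

/-!
Definitions for the criterion for the cycle of Gross and Schoen.
-/

open scoped Classical
open Polynomial

namespace Pool.Agent.LibCW77

open Pool.Agent.LibBH2
open Pool.Agent.LibCHd (VR RF Red FunF)

variable {k : Type} [Field k]

/-- there are generic points of the curve, and the cycle of Gross and Schoen is torsion if and only if `p` -/
def GSIff (c : Dat k) (p : Prop) : Prop :=
  (∃ (N : Type) (_ : Field N) (_ : Algebra k N) (x v : N), GenC c x v) ∧
  ∀ (N : Type) [Field N] [Algebra k N] (x v : N), GenC c x v → (IsOfFinAddOrder (GS c ![some x, some v]) ↔ p)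

/-- the sum of the divisors `Q - τ Q`, `Q` the points of the six flexes -/
noncomputable def theta (c : Dat k) (ζ ν : k) : CH c 1 0 := ((rts c).map fun o => dz c ζ (Qk c ν o)).sum

end Pool.Agent.LibCW77
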