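import Pool.Agent.LibCW77.Defs3
import Pool.Agent.LibCW77.G2
import Pool.Agent.LibCW77.G3
import Pool.Agent.LibCHd.Api
/-!
[CW77 GS1] Places of `k(x)`. For `M = RatFunc k`-like fields (`Rat1 (Algebra.ofId k M) x`, `k` algebraically closed): places correspond to the points of `ℙ¹(k)`. Use `place_triv`
(with `M` there `= k`) for `x - x₀ + 1` and for `x⁻¹ + 1` (`rat1_affine`; for the inverse show `Rat1 (Algebra.ofId k M) (x⁻¹)`), `res_k`. `ord_aeval`: `p = (X - x₀) ^ r p₁`; at infinity
`x ^ deg`.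
-/

open scoped Classical
open Polynomial

namespace Pool.Agent.LibCW77

open Pool.Agent.LibBH2
open Pool.Agent.LibCHd (VR RF Red FunF)

variable {k : Type} [Field k]

/-- values of polynomials specialise -/
theorem GS1_red_aeval {M : Type} [Field M] [Algebra k M] {w : Place k M} {y : M} {y₀ : k}
    (h : Red w y (algebraMap k (RF w) y₀)) (p : k[X]) :
    Red w (aeval y p) (algebraMap k (RF w) (p.eval y₀)) := by
  induction p using Polynomial.induction_on' with
  | add p q hp hq =>
    rw [map_add, eval_add, map_add]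
    exact hp.add hq
  | monomial n a =>
    rw [aeval_monomial, eval_monomial, map_mul, map_pow]
    exact (Pool.Agent.LibCHd.red_const w a).mul (h.pow n)

theorem GS1_ord_aeval {M : Type} [Field M] [Algebra k M] {w : Place k M} {y : M} {y₀ : k}
    (h : Red w y (algebraMap k (RF w) y₀)) (p : k[X]) (hp : p.eval y₀ ≠ 0) :
    aeval y p ≠ 0 ∧ w.ord (aeval y p) = 0 := by
  have h1 := GS1_red_aeval h p
  have h2 : algebraMap k (RF w) (p.eval y₀) ≠ 0 := by
    rw [Ne, map_eq_zero]
    exact hp
  exact ⟨h1.ne_zero h2, h1.ord_eq_zero h2⟩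

theorem GS1_x_ne {M : Type} [Field M] [Algebra k M] {x : M}
    (h : Rat1 (Algebra.ofId k M) x) : x ≠ 0 := by
  have h1 := h.tr X X_ne_zero
  rwa [eval₂_X] at h1

/-- the inverse of the generator is a generator -/
theorem GS1_inv {M : Type} [Field M] [Algebra k M] {x : M}
    (h : Rat1 (Algebra.ofId k M) x) : Rat1 (Algebra.ofId k M) x⁻¹ := by
  have hx := GS1_x_ne h
  have key : ∀ (G : k[X]) (y : M), y ≠ 0 → G.eval₂ ((Algebra.ofId k M : k →ₐ[k] M) : k →+* M) y⁻¹ =
      (G.reverse).eval₂ ((Algebra.ofId k M : k →ₐ[k] M) : k →+* M) y * (y⁻¹) ^ G.natDegree := by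
    intro G y hy
    let _ : Invertible (y⁻¹) := invertibleOfNonzero (inv_ne_zero hy)
    have h1 := Polynomial.eval₂_reverse_mul_pow ((Algebra.ofId k M : k →ₐ[k] M) : k →+* M) (y⁻¹) G
    rw [← h1]
    simp
  refine ⟨fun G hG => ?_, fun z => ?_⟩
  · rw [key G x hx]
    refine mul_ne_zero (h.tr _ ?_) (pow_ne_zero _ (inv_ne_zero hx))
    simpa using hG
  · obtain ⟨P, Q, hQ, hz⟩ := h.gen z
    have key2 : ∀ (G : k[X]), G.eval₂ ((Algebra.ofId k M : k →ₐ[k] M) : k →+* M) x =
        (G.reverse).eval₂ ((Algebra.ofId k M : k →ₐ[k] M) : k →+* M) x⁻¹ * x ^ G.natDegree := by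
      intro G
      have := key G x⁻¹ (inv_ne_zero hx)
      rwa [inv_inv] at this
    refine ⟨P.reverse * X ^ Q.natDegree, Q.reverse * X ^ P.natDegree, ?_, ?_⟩
    · refine mul_ne_zero ?_ (pow_ne_zero _ X_ne_zero)
      simpa using hQ
    · rw [hz, key2 P, key2 Q]
      simp only [eval₂_mul, eval₂_pow, eval₂_X]
      have hQ' : (Q.reverse).eval₂ ((Algebra.ofId k M : k →ₐ[k] M) : k →+* M) x⁻¹ ≠ 0 := by
        intro h0
        have h1 := key2 Q
        rw [h0, zero_mul] at h1
        exact h.tr Q hQ h1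
      have gen : ∀ (A B : M) (p q : ℕ), B ≠ 0 →
          (A * x ^ p) / (B * x ^ q) = (A * x⁻¹ ^ q) / (B * x⁻¹ ^ p) := by
        intro A B p q hB
        rw [inv_pow, inv_pow]
        field_simp
      exact gen _ _ _ _ hQ'

theorem place_line [IsAlgClosed k] {M : Type} [Field M] [Algebra k M] {x : M}
    (h : Rat1 (Algebra.ofId k M) x) (o : Option k) :
    ∃ w : Place k M, SpO w (some x) (o.map (algebraMap k (RF w))) ∧
      (∀ x₀, o = some x₀ → ∀ p : k[X], p ≠ 0 → w.ord (aeval x p) = p.rootMultiplicity x₀) ∧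
      (o = none → ∀ p : k[X], p ≠ 0 → w.ord (aeval x p) = -(p.natDegree : ℤ)) ∧
      ∀ w' : Place k M, SpO w' (some x) (o.map (algebraMap k (RF w'))) → w' = w := by
  have hx := GS1_x_ne h
  have htriv : ∀ (w : Place k M) (y : k), w.ord (Algebra.ofId k M y) = 0 := by
    intro w y
    by_cases hy : y = 0
    · rw [hy, map_zero, w.ord_zero]
    · exact w.ord_const y hy
  cases o with
  | some x₀ =>
    obtain ⟨w, -, -, -, hw1, hw2⟩ := place_triv (rat1_affine h 1 (1 - x₀) one_ne_zero)
    have e1 : (Algebra.ofId k M) 1 * x + (Algebra.ofId k M) (1 - x₀) - 1 = x - algebraMap k M x₀ := by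
      rw [map_one, map_sub, map_one, Algebra.ofId_apply]
      ring
    rw [e1] at hw1 hw2
    have hr : Red w x (algebraMap k (RF w) x₀) := by
      rw [Pool.Agent.LibCHd.red_iff_val]
      refine Or.inr ?_
      rw [hw1]
      exact one_pos
    refine ⟨w, hr, ?_, ?_, ?_⟩
    · intro x₁ hx₁ p hp
      obtain rfl : x₀ = x₁ := by simpa using hx₁
      obtain ⟨q, hq, hq2⟩ := Polynomial.exists_eq_pow_rootMultiplicity_mul_and_not_dvd p hp x₀
      have hq3 : q.eval x₀ ≠ 0 := by
        intro h0
        exact hq2 (dvd_iff_isRoot.2 h0)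
      obtain ⟨h1, h2⟩ := GS1_ord_aeval hr q hq3
      have h3 : aeval x p = (x - algebraMap k M x₀) ^ (p.rootMultiplicity x₀) * aeval x q := by
        conv_lhs => rw [hq]
        simp
      have h4 : x - algebraMap k M x₀ ≠ 0 := by
        intro h0
        rw [h0, w.ord_zero] at hw1
        exact zero_ne_one hw1
      rw [h3, w.ord_mul _ _ (pow_ne_zero _ h4) h1, w.ord_pow, hw1, h2]
      ring
    · intro h0
      cases h0
    · intro w' hw'
      have h5 : Red w' x (algebraMap k (RF w') x₀) := hw'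
      rw [Pool.Agent.LibCHd.red_iff_val] at h5
      refine hw2 w' (htriv w') ?_
      rcases h5 with h5 | h5
      · exfalso
        exact rat1_ne h x₀ (sub_eq_zero.1 h5)
      · exact h5
  | none =>
    obtain ⟨w, -, -, -, hw1, hw2⟩ := place_triv (rat1_affine (GS1_inv h) 1 1 one_ne_zero)
    have e1 : (Algebra.ofId k M) 1 * x⁻¹ + (Algebra.ofId k M) 1 - 1 = x⁻¹ := by
      rw [map_one]
      ring
    rw [e1] at hw1 hw2
    have hox : w.ord x = -1 := by
      have := w.ord_inv x
      rw [hw1] at this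
      omega
    refine ⟨w, ?_, ?_, ?_, ?_⟩
    · show w.ord x < 0
      rw [hox]
      norm_num
    · intro x₁ hx₁
      cases hx₁
    · intro _ p hp
      have hr : Red w x⁻¹ (algebraMap k (RF w) 0) := by
        rw [map_zero, Pool.Agent.LibCHd.red_zero_iff]
        refine Or.inr ?_
        rw [hw1]
        exact one_pos
      have hq3 : p.reverse.eval 0 ≠ 0 := by
        rw [← coeff_zero_eq_eval_zero, coeff_zero_reverse]
        exact leadingCoeff_ne_zero.2 hp
      obtain ⟨h1, h2⟩ := GS1_ord_aeval hr p.reverse hq3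
      have h3 : aeval x p = aeval x⁻¹ p.reverse * x ^ p.natDegree := by
        let _ : Invertible x := invertibleOfNonzero hx
        have h4 := Polynomial.eval₂_reverse_mul_pow (algebraMap k M) x p
        rw [aeval_def, aeval_def, ← h4]
        simp
      rw [h3, w.ord_mul _ _ h1 (pow_ne_zero _ hx), w.ord_pow, hox, h2]
      ring
    · intro w' hw'
      have h5 : w'.ord x < 0 := hw'
      refine hw2 w' (htriv w') ?_
      rw [w'.ord_inv]
      omega

theorem line_place [IsAlgClosed k] {M : Type} [Field M] [Algebra k M] {x : M}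
    (h : Rat1 (Algebra.ofId k M) x) (w : Place k M) :
    ∃ o : Option k, SpO w (some x) (o.map (algebraMap k (RF w))) := by
  by_cases hx : w.ord x < 0
  · exact ⟨none, hx⟩
  · have hF : FunF k 0 k :=
      ⟨fun i => i.elim0, algebraicIndependent_empty_type, FiniteDimensional.right k _ k⟩
    have hF1 : FunF k 1 M := rat1_funF h hF
    obtain ⟨c, hc⟩ := Pool.Agent.LibCHd.exists_red (v := w) (f := x) (Or.inr (not_lt.1 hx))
    obtain ⟨x₀, rfl⟩ := res_k hF1 w c
    exact ⟨some x₀, hc⟩

end Pool.Agent.LibCW77
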