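import Pool.Agent.LibCW77.Defs3
import Pool.Agent.LibCW77.G1
import Pool.Agent.LibCW77.A0
import Pool.Agent.LibCHd.Api
/-!
[CW77 P1] The moved Z-point. `r1`, `r2` = `crs_orth`; `un`: `lam ^ (n ∑ e)`; `Y0`: expand the cross product of `A_j = ka_j lam ^ (n e_j) R_j + kb_j`: four terms with
exponents `n (e_(i+1) + e_(i+2))`, `n e_(i+1)`, `n e_(i+2)`, `0`, constant term `kb_(i+1) kb_(i+2) (b_(i+2) - b_(i+1)) ≠ 0`: `rat1_laurent`
(`e i + e (i + 1) ≠ 0` for all `i` covers all pairs). `zl_triv`: at a place trivial on `M` with `lam ≡ 1` the Z-point specialises to `z`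
(`R`: `Red` of powers; `Y`: `crs` of the residues is `ε (crs z.R)`, and `z.Y = l crs` by `Y_of_crs`).
-/

open scoped Classical
open Polynomial

namespace Pool.Agent.LibCW77

open Pool.Agent.LibBH2
open Pool.Agent.LibCHd (VR RF Red FunF)

variable {k : Type} [Field k]

theorem P1_lam_ne {M N : Type} [Field M] [Algebra k M] [Field N] [Algebra k N]
    {i : M →ₐ[k] N} {lam : N} (h : Rat1 i lam) : lam ≠ 0 := by
  have h1 := h.tr X X_ne_zero
  rwa [eval₂_X] at h1

/-- the cross product written out -/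
theorem P1_crs {M : Type} [Field M] (c : Dat M) (R : Fin 3 → M) (j : Fin 3) :
    crs c R j = ka c (j + 1) * ka c (j + 2) * (c.a (j + 2) - c.a (j + 1)) * R (j + 1) * R (j + 2) +
      ka c (j + 1) * kb c (j + 2) * (c.b (j + 2) - c.a (j + 1)) * R (j + 1) +
      kb c (j + 1) * ka c (j + 2) * (c.a (j + 2) - c.b (j + 1)) * R (j + 2) +
      kb c (j + 1) * kb c (j + 2) * (c.b (j + 2) - c.b (j + 1)) := by
  unfold crs cA cB
  ring

theorem P1_idx (j : Fin 3) : j + 1 + 1 = j + 2 := by
  revert j; decide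

theorem P1_idx_ne (j : Fin 3) : j + 2 ≠ j + 1 := by
  revert j; decide

theorem isZ_zl {c : Dat k} (hc : c.Good) {M N : Type} [Field M] [Algebra k M] [Field N] [Algebra k N]
    {i : M →ₐ[k] N} {lam : N} (h : Rat1 i lam) {z : Zp M} (hz : IsZ (c.over M) z) (e : Fin 3 → ℤ)
    (he : ∀ j, e j ≠ 0) (he2 : ∀ j, e j + e (j + 1) ≠ 0) : IsZ (c.over N) (zl c i lam e z) := by
  have hl := P1_lam_ne h
  have hi : Function.Injective i := i.toRingHom.injective
  have hn : (c.n : ℤ) ≠ 0 := by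
    have := hc.two
    omega
  have hka : ∀ j, ka (c.over N) j = i (ka (c.over M) j) := by
    intro j
    rw [ka_map, ka_map]
    exact (i.commutes _).symm
  have hkb : ∀ j, kb (c.over N) j = i (kb (c.over M) j) := by
    intro j
    rw [kb_map, kb_map]
    exact (i.commutes _).symm
  have ha : ∀ j, (c.over N).a j = i ((c.over M).a j) := fun j => (i.commutes _).symm
  have hb : ∀ j, (c.over N).b j = i ((c.over M).b j) := fun j => (i.commutes _).symm
  refine ⟨fun j => ?_, fun j => ?_, ?_, ?_, ?_, ?_⟩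
  · exact mul_ne_zero (zpow_ne_zero _ hl) (by simpa using hz.R0 j)
  · show crs (c.over N) (fun j => lam ^ ((c.n : ℤ) * e j) * i (z.R j)) j ≠ 0
    rw [P1_crs, hka, hka, hkb, hkb, ha, ha, hb, hb]
    have h1 := rat1_laurent h
      (ka (c.over M) (j + 1) * ka (c.over M) (j + 2) * ((c.over M).a (j + 2) - (c.over M).a (j + 1)) *
        z.R (j + 1) * z.R (j + 2))
      (ka (c.over M) (j + 1) * kb (c.over M) (j + 2) * ((c.over M).b (j + 2) - (c.over M).a (j + 1)) *
        z.R (j + 1))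
      (kb (c.over M) (j + 1) * ka (c.over M) (j + 2) * ((c.over M).a (j + 2) - (c.over M).b (j + 1)) *
        z.R (j + 2))
      (kb (c.over M) (j + 1) * kb (c.over M) (j + 2) * ((c.over M).b (j + 2) - (c.over M).b (j + 1)))
      ((c.n : ℤ) * e (j + 1) + (c.n : ℤ) * e (j + 2)) ((c.n : ℤ) * e (j + 1)) ((c.n : ℤ) * e (j + 2))
      (by
        rw [← mul_add]
        refine mul_ne_zero hn ?_
        have := he2 (j + 1)
        rwa [P1_idx] at this)
      (mul_ne_zero hn (he _)) (mul_ne_zero hn (he _))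
      (by
        have hg : (c.over M).Good := good_map hc
        refine mul_ne_zero (mul_ne_zero (kb_ne hg _) (kb_ne hg _)) ?_
        rw [sub_ne_zero]
        intro h2
        have h3 := @hg.inj (Sum.inr (j + 2)) (Sum.inr (j + 1)) h2
        exact P1_idx_ne j (Sum.inr_injective h3))
    rw [zpow_add₀ hl] at h1
    intro h0
    apply h1
    rw [← h0]
    simp only [map_mul, map_sub]
    ring
  · exact mul_ne_zero (zpow_ne_zero _ hl) (by simpa using hz.u0)
  · show (lam ^ (∑ j, e j) * i z.u) ^ c.n = ∏ j, (lam ^ ((c.n : ℤ) * e j) * i (z.R j))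
    rw [mul_pow, ← map_pow, show z.u ^ c.n = ∏ j, z.R j from hz.un, map_prod,
      Finset.prod_mul_distrib]
    congr 1
    rw [← zpow_natCast, ← zpow_mul, Fin.sum_univ_three, Fin.prod_univ_three, ← zpow_add₀ hl,
      ← zpow_add₀ hl]
    congr 1
    ring
  · exact (crs_orth (c.over N) _).1
  · exact (crs_orth (c.over N) _).2

theorem P1_red_zpow {N : Type} [Field N] [Algebra k N] {v : Place k N} {f : N} {x : RF v}
    (h : Red v f x) (hx : x ≠ 0) (m : ℤ) : Red v (f ^ m) (x ^ m) := by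
  cases m with
  | ofNat m => simpa using h.pow m
  | negSucc m =>
    rw [zpow_negSucc, zpow_negSucc]
    exact (h.pow _).inv (pow_ne_zero _ hx)

theorem P1_red_one {N : Type} [Field N] [Algebra k N] {v : Place k N} {lam : N}
    (h1 : 0 < v.ord (lam - 1)) : Red v lam 1 :=
  (Pool.Agent.LibCHd.red_iff_sub (Pool.Agent.LibCHd.red_one v)).2 (Or.inr h1)

/-- the cross product specialises -/
theorem P1_red_crs (c : Dat k) {N : Type} [Field N] [Algebra k N] {v : Place k N} {R : Fin 3 → N}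
    {r : Fin 3 → RF v} (h : ∀ j, Red v (R j) (r j)) (j : Fin 3) :
    Red v (crs (c.over N) R j) (crs (c.over (RF v)) r j) := by
  have hA : ∀ j, Red v (cA (c.over N) R j) (cA (c.over (RF v)) r j) := by
    intro j
    unfold cA
    rw [ka_map, ka_map, kb_map, kb_map]
    exact ((Pool.Agent.LibCHd.red_const v _).mul (h j)).add (Pool.Agent.LibCHd.red_const v _)
  have hB : ∀ j, Red v (cB (c.over N) R j) (cB (c.over (RF v)) r j) := by
    intro j
    unfold cB
    rw [ka_map, ka_map, kb_map, kb_map]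
    exact (((Pool.Agent.LibCHd.red_const v _).mul (Pool.Agent.LibCHd.red_const v _)).mul (h j)).add
      ((Pool.Agent.LibCHd.red_const v _).mul (Pool.Agent.LibCHd.red_const v _))
  unfold crs
  exact ((hA _).mul (hB _)).sub ((hA _).mul (hB _))

theorem zl_triv {c : Dat k} (hc : c.Good) {M N : Type} [Field M] [Algebra k M] [Field N] [Algebra k N]
    {i : M →ₐ[k] N} {lam : N} (h : Rat1 i lam) {z : Zp M} (hz : IsZ (c.over M) z) (e : Fin 3 → ℤ)
    (h0 : ∃ j, crs (c.over M) z.R j ≠ 0) (v : Place k N) (ε : M →ₐ[k] RF v)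
    (hε : ∀ x, Red v (i x) (ε x)) (h1 : 0 < v.ord (lam - 1)) : SpZ v (zl c i lam e z) (z.map ε) := by
  have hl : Red v lam 1 := P1_red_one h1
  have hz1 : ∀ m : ℤ, Red v (lam ^ m) 1 := by
    intro m
    have := P1_red_zpow hl one_ne_zero m
    rwa [one_zpow] at this
  have hR : ∀ j, Red v (lam ^ ((c.n : ℤ) * e j) * i (z.R j)) (ε (z.R j)) := by
    intro j
    have := (hz1 ((c.n : ℤ) * e j)).mul (hε (z.R j))
    rwa [one_mul] at this
  refine ⟨hR, ?_, ?_⟩
  · have := (hz1 (∑ j, e j)).mul (hε z.u)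
    rwa [one_mul] at this
  · obtain ⟨l, hl0, hY⟩ := Y_of_crs hz h0
    refine ⟨i l, fun j => ?_⟩
    show Red v (i l * crs (c.over N) (fun j => lam ^ ((c.n : ℤ) * e j) * i (z.R j)) j) (ε (z.Y j))
    rw [hY j, map_mul]
    refine (hε l).mul ?_
    have h2 := P1_red_crs c hR j
    have h3 : (c.over (RF v)) = (c.over M).map (ε : M →+* RF v) := by
      unfold Dat.over Dat.map
      simp
    have h4 := crs_map (ε : M →+* RF v) (c.over M) z.R j
    rw [← h3] at h4
    have h5 : crs (c.over (RF v)) (fun j => ε (z.R j)) j = ε (crs (c.over M) z.R j) := h4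
    rwa [h5] at h2

/-- no specialisation at the poles of `lam` -/
theorem zl_pole {c : Dat k} (hc : c.Good) {M N : Type} [Field M] [Algebra k M] [Field N] [Algebra k N]
    {i : M →ₐ[k] N} {lam : N} {z : Zp M} (hz : IsZ (c.over M) z) (e : Fin 3 → ℤ)
    (he : ∀ j, e j ≠ 0) (v : Place k N) (hv : v.ord lam < 0)
    (hw : (∀ x, v.ord (i x) = 0) ∨ ∃ (w : Place k M) (e' : ℤ), Ovr i w v e' ∧
      (w.ord (z.R 0) = 0 ∨ w.ord (z.R 0) * e 1 ≠ w.ord (z.R 1) * e 0)) (z' : Zp (RF v))
    (hz' : IsZ (c.over (RF v)) z') : ¬ SpZ v (zl c i lam e z) z' := by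
  intro hs
  have hl : lam ≠ 0 := by
    rintro rfl
    rw [v.ord_zero] at hv
    exact lt_irrefl _ hv
  have hn : (c.n : ℤ) ≠ 0 := by
    have := hc.two
    omega
  have hR : ∀ j, (c.n : ℤ) * e j * v.ord lam + v.ord (i (z.R j)) = 0 := by
    intro j
    have h1 : v.ord (lam ^ ((c.n : ℤ) * e j) * i (z.R j)) = 0 :=
      (hs.R j).ord_eq_zero (hz'.R0 j)
    rwa [v.ord_mul _ _ (zpow_ne_zero _ hl) (by simpa using hz.R0 j), v.ord_zpow] at h1
  rcases hw with hw | ⟨w, e', ho, hw⟩
  · have h1 := hR 0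
    rw [hw, add_zero] at h1
    exact mul_ne_zero (mul_ne_zero hn (he 0)) hv.ne h1
  · rcases hw with hw | hw
    · have h1 := hR 0
      rw [ho.ord, hw, mul_zero, add_zero] at h1
      exact mul_ne_zero (mul_ne_zero hn (he 0)) hv.ne h1
    · apply hw
      have h0 := hR 0
      have h1 := hR 1
      rw [ho.ord] at h0 h1
      have h2 : e' * (w.ord (z.R 0) * e 1) = e' * (w.ord (z.R 1) * e 0) := by
        linear_combination e 1 * h0 - e 0 * h1
      exact mul_left_cancel₀ ho.pos.ne' h2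

end Pool.Agent.LibCW77
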