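import Pool.Agent.LibCW77.Defs3
import Pool.Agent.LibCW77.A0
/-!
[CW77 P6] Transversality. Let `C` be as in `exists_C` (with scalars `α`, `β`, `A = α C`, `B = β C`, not both zero; make them explicit from the proof of
`exists_C`: `C = A` or `C = B`). With `c_i = ka_i (β - α a_i) ...`: the derivative vector is `± C × (c_i e_i)` up to a nonzero factor, where
`c_i = ka_i R_i (a_i α - β)`, and `c_i ≠ 0` (since `ka_i R_i (a_i α - β) C_i = ka_i R_i (a_i A_i - B_i)` `= - ka_i R_i kb_i (b_i - a_i)`). And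
`f × (C × g) = C (f·g) - g (f·C)` with `f·C = 0`, so `f × (C × g) ≠ 0` iff `f·g = ∑ f_i c_i e_i ≠ 0`: take `l_i = f_i c_i`, not all zero. In
coordinates: `dcrs_i = (A_(i+1) B'_(i+2) + A'_(i+1) B_(i+2)) - (...)`, `A'_i = ka_i e_i R_i`, `B'_i = ka_i a_i e_i R_i`.
-/

open scoped Classical
open Polynomial

namespace Pool.Agent.LibCW77

open Pool.Agent.LibBH2
open Pool.Agent.LibCHd (VR RF Red FunF)

variable {k : Type} [Field k]

private theorem P6_aa {M : Type} [Field M] {c : Dat M} (hc : c.Good) {i j : Fin 3} (h : j ≠ i) :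
    c.a i - c.a j ≠ 0 := by
  intro h0
  have h1 : Sum.elim c.a c.b (Sum.inl i) = Sum.elim c.a c.b (Sum.inl j) := sub_eq_zero.mp h0
  have h2 := hc.inj h1
  exact h (Sum.inl.inj h2).symm

private theorem P6_ab {M : Type} [Field M] {c : Dat M} (hc : c.Good) (i j : Fin 3) :
    c.a i - c.b j ≠ 0 := by
  intro h0
  have h1 : Sum.elim c.a c.b (Sum.inl i) = Sum.elim c.a c.b (Sum.inr j) := sub_eq_zero.mp h0
  have h2 := hc.inj h1
  cases h2

private theorem P6_bb {M : Type} [Field M] {c : Dat M} (hc : c.Good) {i j : Fin 3} (h : j ≠ i) :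
    c.b i - c.b j ≠ 0 := by
  intro h0
  have h1 : Sum.elim c.a c.b (Sum.inr i) = Sum.elim c.a c.b (Sum.inr j) := sub_eq_zero.mp h0
  have h2 := hc.inj h1
  exact h (Sum.inr.inj h2).symm

private theorem P6_ka {M : Type} [Field M] {c : Dat M} (hc : c.Good) (i : Fin 3) : ka c i ≠ 0 := by
  unfold ka
  refine inv_ne_zero (mul_ne_zero ?_ ?_)
  · rw [Finset.prod_ne_zero_iff]
    intro j hj
    exact P6_aa hc (Finset.ne_of_mem_erase hj)
  · rw [Finset.prod_ne_zero_iff]
    intro j _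
    exact P6_ab hc i j

private theorem P6_kb {M : Type} [Field M] {c : Dat M} (hc : c.Good) (i : Fin 3) : kb c i ≠ 0 := by
  unfold kb
  refine inv_ne_zero (mul_ne_zero ?_ ?_)
  · rw [Finset.prod_ne_zero_iff]
    intro j _ h0
    apply P6_ab hc j i
    rw [← neg_sub, h0, neg_zero]
  · rw [Finset.prod_ne_zero_iff]
    intro j hj
    exact P6_bb hc (Finset.ne_of_mem_erase hj)

private theorem P6_diff {M : Type} [Field M] (c : Dat M) (R : Fin 3 → M) (i : Fin 3) :
    cB c R i - c.a i * cA c R i = kb c i * (c.b i - c.a i) := by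
  unfold cA cB
  ring

private theorem P6_C {M : Type} [Field M] {c : Dat M} (hc : c.Good) (R : Fin 3 → M)
    (h : ∀ i, crs c R i = 0) :
    ∃ (C : Fin 3 → M) (α β : M), (∀ i, C i ≠ 0) ∧ (α ≠ 0 ∨ β ≠ 0) ∧
      (∀ i, cA c R i = α * C i) ∧ ∀ i, cB c R i = β * C i := by
  have hpar : ∀ i j, cA c R i * cB c R j = cA c R j * cB c R i := by
    have h0 := h 0
    have h1 := h 1
    have h2 := h 2
    unfold crs at h0 h1 h2
    have e0 : (0 : Fin 3) + 1 = 1 := rfl
    have e1 : (0 : Fin 3) + 2 = 2 := rfl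
    have e2 : (1 : Fin 3) + 1 = 2 := rfl
    have e3 : (1 : Fin 3) + 2 = 0 := rfl
    have e4 : (2 : Fin 3) + 1 = 0 := rfl
    have e5 : (2 : Fin 3) + 2 = 1 := rfl
    rw [e0, e1] at h0
    rw [e2, e3] at h1
    rw [e4, e5] at h2
    have h0' := sub_eq_zero.mp h0
    have h1' := sub_eq_zero.mp h1
    have h2' := sub_eq_zero.mp h2
    intro i j
    fin_cases i <;> fin_cases j <;> first | rfl | assumption | (symm; assumption)
  by_cases hA : ∃ j, cA c R j ≠ 0
  · obtain ⟨j, hj⟩ := hA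
    refine ⟨cA c R, 1, cB c R j / cA c R j, ?_, Or.inl one_ne_zero, fun i => (one_mul _).symm, ?_⟩
    · intro i hi
      have h1 := hpar i j
      rw [hi, zero_mul] at h1
      have h2 : cB c R i = 0 := by
        rcases mul_eq_zero.mp h1.symm with h3 | h3
        · exact absurd h3 hj
        · exact h3
      rcases cAB_ne hc R i with h3 | h3
      · exact h3 hi
      · exact h3 h2
    · intro i
      rw [div_mul_eq_mul_div, eq_div_iff hj]
      have h1 := hpar i j
      linear_combination -h1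
  · have hA' : ∀ j, cA c R j = 0 := by
      intro j
      by_contra h0
      exact hA ⟨j, h0⟩
    refine ⟨cB c R, 0, 1, ?_, Or.inr one_ne_zero, ?_, fun i => (one_mul _).symm⟩
    · intro i
      rcases cAB_ne hc R i with h3 | h3
      · exact absurd (hA' i) h3
      · exact h3
    · intro i
      rw [hA', zero_mul]

/-- the derivative vector -/
private theorem P6_d {M : Type} [Field M] {c : Dat M} (R C : Fin 3 → M) (α β : M)
    (hA : ∀ i, cA c R i = α * C i) (hB : ∀ i, cB c R i = β * C i) (e : Fin 3 → ℤ) (i : Fin 3) :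
    dcrs c R e i =
      (ka c (i + 1) * R (i + 1) * (β - α * c.a (i + 1)) * (e (i + 1) : M)) * C (i + 2) -
      (ka c (i + 2) * R (i + 2) * (β - α * c.a (i + 2)) * (e (i + 2) : M)) * C (i + 1) := by
  unfold dcrs
  rw [hA, hA, hB, hB]
  ring

theorem indep_of_ne {M : Type} [Field M] {c : Dat M} (hc : c.Good) (R : Fin 3 → M) (hR : ∀ i, R i ≠ 0)
    (h : ∀ i, crs c R i = 0) (f : Fin 3 → M) (hf : f ≠ 0) (h1 : ∑ i, cA c R i * f i = 0)
    (h2 : ∑ i, cB c R i * f i = 0) :
    ∃ l : Fin 3 → M, l ≠ 0 ∧ ∀ e : Fin 3 → ℤ, ∑ i, l i * (e i : M) ≠ 0 → Indep f (dcrs c R e) := by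
  obtain ⟨C, α, β, hC, hαβ, hA, hB⟩ := P6_C hc R h
  have hfC : C 0 * f 0 + C 1 * f 1 + C 2 * f 2 = 0 := by
    rw [Fin.sum_univ_three, hA, hA, hA] at h1
    rw [Fin.sum_univ_three, hB, hB, hB] at h2
    rcases hαβ with h3 | h3
    · have h4 : α * (C 0 * f 0 + C 1 * f 1 + C 2 * f 2) = 0 := by linear_combination h1
      exact (mul_eq_zero.mp h4).resolve_left h3
    · have h4 : β * (C 0 * f 0 + C 1 * f 1 + C 2 * f 2) = 0 := by linear_combination h2
      exact (mul_eq_zero.mp h4).resolve_left h3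
  have hba : ∀ i, β - α * c.a i ≠ 0 := by
    intro i h0
    have h3 := P6_diff c R i
    rw [hA, hB] at h3
    have h4 : kb c i * (c.b i - c.a i) = 0 := by
      rw [← h3]
      linear_combination C i * h0
    rcases mul_eq_zero.mp h4 with h5 | h5
    · exact P6_kb hc i h5
    · apply P6_ab hc i i
      rw [← neg_sub, h5, neg_zero]
  let q : Fin 3 → M := fun i => ka c i * R i * (β - α * c.a i)
  have hq : ∀ i, q i ≠ 0 := fun i => mul_ne_zero (mul_ne_zero (P6_ka hc i) (hR i)) (hba i)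
  refine ⟨fun i => f i * q i, ?_, ?_⟩
  · intro h0
    apply hf
    funext i
    have h3 : f i * q i = 0 := congrFun h0 i
    exact (mul_eq_zero.mp h3).resolve_right (hq i)
  · intro e he
    by_contra hI
    have hI' : ∀ i j, f i * dcrs c R e j = f j * dcrs c R e i := by
      intro i j
      by_contra h0
      exact hI ⟨i, j, h0⟩
    rw [Fin.sum_univ_three] at he
    have hd : ∀ i, dcrs c R e i = (q (i + 1) * (e (i + 1) : M)) * C (i + 2) -
        (q (i + 2) * (e (i + 2) : M)) * C (i + 1) := fun i => P6_d R C α β hA hB e i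
    have hd0 := hd 0
    have hd1 := hd 1
    have hd2 := hd 2
    have e0 : (0 : Fin 3) + 1 = 1 := rfl
    have e1 : (0 : Fin 3) + 2 = 2 := rfl
    have e2 : (1 : Fin 3) + 1 = 2 := rfl
    have e3 : (1 : Fin 3) + 2 = 0 := rfl
    have e4 : (2 : Fin 3) + 1 = 0 := rfl
    have e5 : (2 : Fin 3) + 2 = 1 := rfl
    rw [e0, e1] at hd0
    rw [e2, e3] at hd1
    rw [e4, e5] at hd2
    have h3 := hI' 1 2
    rw [hd1, hd2] at h3
    have h4 : C 0 * (f 0 * q 0 * (e 0 : M) + f 1 * q 1 * (e 1 : M) + f 2 * q 2 * (e 2 : M)) = 0 := by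
      linear_combination q 0 * (e 0 : M) * hfC - h3
    rcases mul_eq_zero.mp h4 with h5 | h5
    · exact hC 0 h5
    · exact he h5

/-- the derivative vector is in the plane of the line -/
theorem dcrs_orth {M : Type} [Field M] {c : Dat M} (hc : c.Good) (R : Fin 3 → M)
    (h : ∀ i, crs c R i = 0) (e : Fin 3 → ℤ) :
    ∑ i, cA c R i * dcrs c R e i = 0 ∧ ∑ i, cB c R i * dcrs c R e i = 0 := by
  obtain ⟨C, α, β, hC, hαβ, hA, hB⟩ := P6_C hc R h
  let q : Fin 3 → M := fun i => ka c i * R i * (β - α * c.a i)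
  have hd : ∀ i, dcrs c R e i = (q (i + 1) * (e (i + 1) : M)) * C (i + 2) -
      (q (i + 2) * (e (i + 2) : M)) * C (i + 1) := fun i => P6_d R C α β hA hB e i
  have hd0 := hd 0
  have hd1 := hd 1
  have hd2 := hd 2
  have e0 : (0 : Fin 3) + 1 = 1 := rfl
  have e1 : (0 : Fin 3) + 2 = 2 := rfl
  have e2 : (1 : Fin 3) + 1 = 2 := rfl
  have e3 : (1 : Fin 3) + 2 = 0 := rfl
  have e4 : (2 : Fin 3) + 1 = 0 := rfl
  have e5 : (2 : Fin 3) + 2 = 1 := rfl
  rw [e0, e1] at hd0
  rw [e2, e3] at hd1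
  rw [e4, e5] at hd2
  constructor
  · rw [Fin.sum_univ_three, hA, hA, hA, hd0, hd1, hd2]
    ring
  · rw [Fin.sum_univ_three, hB, hB, hB, hd0, hd1, hd2]
    ring

end Pool.Agent.LibCW77
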