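import Pool.Agent.LibCW77.Defs3
import Pool.Agent.LibCW77.A0
import Pool.Agent.LibCW77.P6
import Pool.Agent.LibCHd.Api
/-!
[CW77 P3] Local analysis at a place `v` over `w` with `lam ≡ 1`. Expansion: `crs (R^lam) j = i (crs R j) + (lam - 1) i (n dcrs R e j) + (lam - 1) ^ 2 H_j`
with `H_j` regular at `v` (`lam ^ a = 1 + a (lam - 1) + (lam - 1) ^ 2 ·(regular)` for `a : ℤ`, `lam` a unit at `v`). Put `d = v.ord (lam - 1) > 0`, `v.ord (i π ^ m) = e' m`.
`d < e' m`: dividing by `lam - 1` the vector tends to `n dcrs r e` (constant, not 0 by `Indep`). `d > e' m`: dividing by `π ^ m` it tends to `f0`.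
`d = e' m`: `(lam - 1) / i π ^ m` is a unit, with residue `t`; dividing by `π ^ m` the vector tends to `f0 + t n dcrs r e ≠ 0`. `z'.Y` is proportional to
the limit (`SpZ.Y`; both are limits of multiples of the same vector: compare the ratios). If the limit is constant up to a factor, or `t` algebraic,
`CstZ` (`R`, `u` of `z'` are constants: `u ^ n = ∏ R_i`). Otherwise the third case with `t` transcendental. You may use `z'.R j = algebraMap (r j)`
(`Red.unique`).
-/

open scoped Classical
open Polynomial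

namespace Pool.Agent.LibCW77

open Pool.Agent.LibBH2
open Pool.Agent.LibCHd (VR RF Red FunF)

variable {k : Type} [Field k]

theorem P3_red_zpow {N : Type} [Field N] [Algebra k N] {v : Place k N} {f : N} {x : RF v}
    (h : Red v f x) (hx : x ≠ 0) (m : ℤ) : Red v (f ^ m) (x ^ m) := by
  cases m with
  | ofNat m => simpa using h.pow m
  | negSucc m =>
    rw [zpow_negSucc, zpow_negSucc]
    exact (h.pow _).inv (pow_ne_zero _ hx)

theorem P3_red_one {N : Type} [Field N] [Algebra k N] {v : Place k N} {lam : N}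
    (h1 : 0 < v.ord (lam - 1)) : Red v lam 1 :=
  (Pool.Agent.LibCHd.red_iff_sub (Pool.Agent.LibCHd.red_one v)).2 (Or.inr h1)

theorem P3_red_lam {N : Type} [Field N] [Algebra k N] {v : Place k N} {lam : N}
    (h1 : 0 < v.ord (lam - 1)) (m : ℤ) : Red v (lam ^ m) 1 := by
  have := P3_red_zpow (P3_red_one h1) one_ne_zero m
  rwa [one_zpow] at this

/-- product of two expansions at `1` -/
theorem P3_exp_mul {N : Type} [Field N] [Algebra k N] {v : Place k N} {d x y a b g g' : N}
    (hd : v.Reg d) (ha : v.Reg a) (hb : v.Reg b) (hg : v.Reg g) (hg' : v.Reg g')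
    (hx : x = 1 + a * d + d ^ 2 * g) (hy : y = 1 + b * d + d ^ 2 * g') :
    ∃ g'', v.Reg g'' ∧ x * y = 1 + (a + b) * d + d ^ 2 * g'' := by
  refine ⟨a * b + g' + a * (d * g') + g + g * (b * d) + g * (d ^ 2 * g'), ?_, ?_⟩
  · exact ((((((ha.mul hb).add hg').add (ha.mul (hd.mul hg'))).add hg).add (hg.mul (hb.mul hd))).add
      (hg.mul ((hd.pow 2).mul hg')))
  · rw [hx, hy]
    ring

theorem P3_reg_int {N : Type} [Field N] [Algebra k N] (v : Place k N) (a : ℤ) : v.Reg (a : N) := by
  have := v.reg_const (a : k)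
  simpa using this

/-- `lam ^ a = 1 + a (lam - 1) + (lam - 1) ^ 2 g` -/
theorem P3_exp {N : Type} [Field N] [Algebra k N] {v : Place k N} {lam : N}
    (h1 : 0 < v.ord (lam - 1)) (a : ℤ) :
    ∃ g, v.Reg g ∧ lam ^ a = 1 + (a : N) * (lam - 1) + (lam - 1) ^ 2 * g := by
  have hl : lam ≠ 0 := (P3_red_one h1).ne_zero one_ne_zero
  have hd : v.Reg (lam - 1) := Or.inr h1.le
  have hinv : v.Reg lam⁻¹ := ((P3_red_one h1).inv one_ne_zero).reg
  induction a using Int.induction_on with
  | zero => exact ⟨0, v.reg_zero, by simp⟩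
  | succ n ih =>
    obtain ⟨g, hg, h⟩ := ih
    obtain ⟨g', hg', h'⟩ := P3_exp_mul (x := lam ^ (n : ℤ)) (y := lam) (b := ((1 : ℤ) : N)) hd
      (P3_reg_int v n) (P3_reg_int v 1) hg v.reg_zero h (by push_cast; ring)
    refine ⟨g', hg', ?_⟩
    rw [zpow_add_one₀ hl, h']
    push_cast
    ring
  | pred n ih =>
    obtain ⟨g, hg, h⟩ := ih
    obtain ⟨g', hg', h'⟩ := P3_exp_mul (x := lam ^ (-(n : ℤ))) (y := lam⁻¹) (b := ((-1 : ℤ) : N)) hd
      (P3_reg_int v (-n)) (P3_reg_int v (-1)) hg hinv h (by push_cast; field_simp; ring)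
    refine ⟨g', hg', ?_⟩
    rw [zpow_sub_one₀ hl, h']
    push_cast
    ring

/-- the cross product written out -/
theorem P3_crs {M : Type} [Field M] (c : Dat M) (R : Fin 3 → M) (j : Fin 3) :
    crs c R j = ka c (j + 1) * ka c (j + 2) * (c.a (j + 2) - c.a (j + 1)) * (R (j + 1) * R (j + 2)) +
      ka c (j + 1) * kb c (j + 2) * (c.b (j + 2) - c.a (j + 1)) * R (j + 1) +
      kb c (j + 1) * ka c (j + 2) * (c.a (j + 2) - c.b (j + 1)) * R (j + 2) +
      kb c (j + 1) * kb c (j + 2) * (c.b (j + 2) - c.b (j + 1)) := by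
  unfold crs cA cB
  ring

/-- the derivative of the cross product written out -/
theorem P3_dcrs {M : Type} [Field M] (c : Dat M) (R : Fin 3 → M) (e : Fin 3 → ℤ) (j : Fin 3) :
    dcrs c R e j = ka c (j + 1) * ka c (j + 2) * (c.a (j + 2) - c.a (j + 1)) *
        (((e (j + 1) : ℤ) + (e (j + 2) : ℤ)) * (R (j + 1) * R (j + 2))) +
      ka c (j + 1) * kb c (j + 2) * (c.b (j + 2) - c.a (j + 1)) * ((e (j + 1) : ℤ) * R (j + 1)) +
      kb c (j + 1) * ka c (j + 2) * (c.a (j + 2) - c.b (j + 1)) * ((e (j + 2) : ℤ) * R (j + 2)) := by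
  unfold dcrs cA cB
  ring

theorem P3_dcrs_map {M M' : Type} [Field M] [Field M'] (f : M →+* M') (c : Dat M) (R : Fin 3 → M)
    (e : Fin 3 → ℤ) (j : Fin 3) :
    dcrs (c.map f) (fun j => f (R j)) e j = f (dcrs c R e j) := by
  rw [P3_dcrs, P3_dcrs]
  simp only [ka_map, kb_map, map_add, map_mul, map_sub, map_intCast]
  rfl

/-- the derivative of the cross product specialises -/
theorem P3_red_dcrs (c : Dat k) {N : Type} [Field N] [Algebra k N] {v : Place k N} {R : Fin 3 → N}
    {r : Fin 3 → k} (h : ∀ j, Red v (R j) (algebraMap k (RF v) (r j))) (e : Fin 3 → ℤ) (j : Fin 3) :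
    Red v (dcrs (c.over N) R e j) (algebraMap k (RF v) (dcrs c r e j)) := by
  have hc : ∀ x : k, Red v (algebraMap k N x) (algebraMap k (RF v) x) :=
    fun x => Pool.Agent.LibCHd.red_const v x
  have hint : ∀ a : ℤ, Red v ((a : ℤ) : N) ((a : ℤ) : RF v) := by
    intro a
    have := hc (a : k)
    simpa using this
  rw [← P3_dcrs_map, P3_dcrs, P3_dcrs]
  simp only [ka_map, kb_map]
  exact ((((((hc _).mul (hc _)).mul ((hc _).sub (hc _))).mul
    (((hint _).add (hint _)).mul ((h _).mul (h _)))).add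
    ((((hc _).mul (hc _)).mul ((hc _).sub (hc _))).mul ((hint _).mul (h _)))).add
    ((((hc _).mul (hc _)).mul ((hc _).sub (hc _))).mul ((hint _).mul (h _))))

/-- the linear forms specialise -/
theorem P3_red_A (c : Dat k) {N : Type} [Field N] [Algebra k N] {v : Place k N} {R : Fin 3 → N}
    {r : Fin 3 → k} (h : ∀ j, Red v (R j) (algebraMap k (RF v) (r j))) (j : Fin 3) :
    Red v (cA (c.over N) R j) (algebraMap k (RF v) (cA c r j)) ∧
      Red v (cB (c.over N) R j) (algebraMap k (RF v) (cB c r j)) := by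
  have hc : ∀ x : k, Red v (algebraMap k N x) (algebraMap k (RF v) x) :=
    fun x => Pool.Agent.LibCHd.red_const v x
  constructor
  · unfold cA
    rw [ka_map, kb_map, map_add, map_mul]
    exact ((hc _).mul (h j)).add (hc _)
  · unfold cB
    rw [ka_map, kb_map, map_add, map_mul, map_mul, map_mul]
    exact (((hc _).mul (hc _)).mul (h j)).add ((hc _).mul (hc _))

/-- expansion of the cross product at `lam = 1` -/
theorem P3_expand (c : Dat k) {M N : Type} [Field M] [Algebra k M] [Field N] [Algebra k N]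
    {i : M →ₐ[k] N} {lam : N} (z : Zp M) (e : Fin 3 → ℤ) {v : Place k N}
    (h1 : 0 < v.ord (lam - 1)) (hr : ∀ j, v.Reg (i (z.R j))) (j : Fin 3) :
    ∃ H, v.Reg H ∧ (zl c i lam e z).Y j = i (crs (c.over M) z.R j) +
      (lam - 1) * i ((c.n : M) * dcrs (c.over M) z.R e j) + (lam - 1) ^ 2 * H := by
  have hl : lam ≠ 0 := (P3_red_one h1).ne_zero one_ne_zero
  have hka : ∀ j, ka (c.over N) j = i (ka (c.over M) j) := by
    intro j
    rw [ka_map, ka_map]
    exact (i.commutes _).symm
  have hkb : ∀ j, kb (c.over N) j = i (kb (c.over M) j) := by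
    intro j
    rw [kb_map, kb_map]
    exact (i.commutes _).symm
  have ha : ∀ j, (c.over N).a j = i ((c.over M).a j) := fun j => (i.commutes _).symm
  have hb : ∀ j, (c.over N).b j = i ((c.over M).b j) := fun j => (i.commutes _).symm
  have hka' : ∀ j, v.Reg (i (ka (c.over M) j)) := by
    intro j
    rw [← hka, ka_map]
    exact v.reg_const _
  have hkb' : ∀ j, v.Reg (i (kb (c.over M) j)) := by
    intro j
    rw [← hkb, kb_map]
    exact v.reg_const _
  have ha' : ∀ j, v.Reg (i ((c.over M).a j)) := by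
    intro j
    rw [← ha]
    exact v.reg_const _
  have hb' : ∀ j, v.Reg (i ((c.over M).b j)) := by
    intro j
    rw [← hb]
    exact v.reg_const _
  obtain ⟨g1, hg1, h1'⟩ := P3_exp h1 ((c.n : ℤ) * e (j + 1) + (c.n : ℤ) * e (j + 2))
  obtain ⟨g2, hg2, h2'⟩ := P3_exp h1 ((c.n : ℤ) * e (j + 1))
  obtain ⟨g3, hg3, h3'⟩ := P3_exp h1 ((c.n : ℤ) * e (j + 2))
  refine ⟨i (ka (c.over M) (j + 1)) * i (ka (c.over M) (j + 2)) *
      (i ((c.over M).a (j + 2)) - i ((c.over M).a (j + 1))) * (g1 * (i (z.R (j + 1)) * i (z.R (j + 2)))) +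
    i (ka (c.over M) (j + 1)) * i (kb (c.over M) (j + 2)) *
      (i ((c.over M).b (j + 2)) - i ((c.over M).a (j + 1))) * (g2 * i (z.R (j + 1))) +
    i (kb (c.over M) (j + 1)) * i (ka (c.over M) (j + 2)) *
      (i ((c.over M).a (j + 2)) - i ((c.over M).b (j + 1))) * (g3 * i (z.R (j + 2))), ?_, ?_⟩
  · exact ((((((hka' _).mul (hka' _)).mul ((ha' _).sub (ha' _))).mul
      (hg1.mul ((hr _).mul (hr _))))).add
      ((((hka' _).mul (hkb' _)).mul ((hb' _).sub (ha' _))).mul (hg2.mul (hr _)))).add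
      ((((hkb' _).mul (hka' _)).mul ((ha' _).sub (hb' _))).mul (hg3.mul (hr _)))
  · show crs (c.over N) (fun j => lam ^ ((c.n : ℤ) * e j) * i (z.R j)) j = _
    rw [P3_crs, P3_crs, P3_dcrs, hka, hka, hkb, hkb, ha, ha, hb, hb]
    have h4 : lam ^ ((c.n : ℤ) * e (j + 1)) * i (z.R (j + 1)) *
        (lam ^ ((c.n : ℤ) * e (j + 2)) * i (z.R (j + 2))) =
        lam ^ ((c.n : ℤ) * e (j + 1) + (c.n : ℤ) * e (j + 2)) * (i (z.R (j + 1)) * i (z.R (j + 2))) := by
      rw [zpow_add₀ hl]
      ring
    rw [h4, h1', h2', h3']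
    simp only [map_mul, map_sub, map_add, map_intCast, map_natCast]
    push_cast
    ring

/-- two limits of multiples of one vector are proportional -/
theorem P3_prop {N : Type} [Field N] [Algebra k N] {v : Place k N} {F : Fin 3 → N} {l l' : N}
    {y y' : Fin 3 → RF v} (h : ∀ j, Red v (l * F j) (y j)) (h' : ∀ j, Red v (l' * F j) (y' j))
    (hy : ∀ j, y j ≠ 0) (hy' : ∃ j, y' j ≠ 0) : ∃ s, s ≠ 0 ∧ ∀ j, y j = s * y' j := by
  obtain ⟨j0, hj0⟩ := hy'
  have h1 : l * F j0 ≠ 0 := (h j0).ne_zero (hy j0)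
  have h1' : l' * F j0 ≠ 0 := (h' j0).ne_zero hj0
  have hl' : l' ≠ 0 := left_ne_zero_of_mul h1'
  have hF : F j0 ≠ 0 := right_ne_zero_of_mul h1'
  have hq : Red v (l / l') (y j0 / y' j0) := by
    have := (h j0).div (h' j0) hj0
    rwa [mul_div_mul_right _ _ hF] at this
  refine ⟨y j0 / y' j0, div_ne_zero (hy j0) hj0, fun j => ?_⟩
  have h2 := hq.mul (h' j)
  have h3 : l / l' * (l' * F j) = l * F j := by
    field_simp
  rw [h3] at h2
  exact (h j).unique h2

/-- limit of the vector at a place over `w`, divided by a function `g` -/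
theorem P3_limit [CharZero k] {c : Dat k} {M N : Type} [Field M] [Algebra k M] [Field N]
    [Algebra k N] {i : M →ₐ[k] N} {lam : N} {z : Zp M} (e : Fin 3 → ℤ)
    {w : Place k M} (r : Fin 3 → k)
    (hr : ∀ j, Red w (z.R j) (algebraMap k (RF w) (r j))) (π : M) (m : ℕ)
    (f0 : Fin 3 → k)
    (hf : ∀ j, Red w (crs (c.over M) z.R j / π ^ m) (algebraMap k (RF w) (f0 j)))
    (hπ : π ≠ 0) {v : Place k N} {e' : ℤ} (hv : Ovr i w v e') (hl : 0 < v.ord (lam - 1))
    (g : N) (s t : RF v) (hs : Red v (i π ^ m / g) s) (ht : Red v ((lam - 1) / g) t) (j : Fin 3) :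
    Red v (g⁻¹ * (zl c i lam e z).Y j) (s * algebraMap k (RF v) (f0 j) +
        t * algebraMap k (RF v) ((c.n : k) * dcrs c r e j)) := by
  have hiπ : i π ≠ 0 := by simpa using hπ
  have hrv : ∀ j, v.Reg (i (z.R j)) := fun j => (hv.res _ _ (hr j)).reg
  obtain ⟨H, hH, hY⟩ := P3_expand c z e hl hrv j
  have h1 : Red v (i (crs (c.over M) z.R j / π ^ m)) (algebraMap k (RF v) (f0 j)) :=
    hv.res _ _ (hf j)
  have hn : Red w ((c.n : M) * dcrs (c.over M) z.R e j)
      (algebraMap k (RF w) ((c.n : k) * dcrs c r e j)) := by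
    rw [map_mul, map_natCast]
    refine Red.mul ?_ (P3_red_dcrs c hr e j)
    have := Pool.Agent.LibCHd.red_const w (c.n : k)
    simpa using this
  have h2 : Red v (i ((c.n : M) * dcrs (c.over M) z.R e j))
      (algebraMap k (RF v) ((c.n : k) * dcrs c r e j)) := hv.res _ _ hn
  have h3 : Red v ((lam - 1) / g * ((lam - 1) * H)) 0 := by
    rw [Pool.Agent.LibCHd.red_zero_iff]
    exact Place.Zer.reg_mul ht.reg (Place.Zer.mul_reg (Or.inr hl) hH)
  have h4 := ((hs.mul h1).add (ht.mul h2)).add h3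
  rw [add_zero] at h4
  have h5 : g⁻¹ * (zl c i lam e z).Y j = i π ^ m / g * i (crs (c.over M) z.R j / π ^ m) +
      (lam - 1) / g * i ((c.n : M) * dcrs (c.over M) z.R e j) + (lam - 1) / g * ((lam - 1) * H) := by
    rw [hY, map_div₀, map_pow]
    field_simp
  rw [h5]
  exact h4

/-- the residues of the `R` and of `u` of the moved point -/
theorem P3_R {c : Dat k} {M N : Type} [Field M] [Algebra k M] [Field N]
    [Algebra k N] {i : M →ₐ[k] N} {lam : N} {z : Zp M} (e : Fin 3 → ℤ)
    {w : Place k M} (r : Fin 3 → k)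
    (hr : ∀ j, Red w (z.R j) (algebraMap k (RF w) (r j)))
    {v : Place k N} {e' : ℤ} (hv : Ovr i w v e') (hl : 0 < v.ord (lam - 1)) (j : Fin 3) :
    Red v ((zl c i lam e z).R j) (algebraMap k (RF v) (r j)) := by
  show Red v (lam ^ ((c.n : ℤ) * e j) * i (z.R j)) _
  have := (P3_red_lam hl ((c.n : ℤ) * e j)).mul (hv.res _ _ (hr j))
  rwa [one_mul] at this

theorem P3_alg_of_pow {K : Type} [Field K] [Algebra k K] {x : K} {n : ℕ} (hn : 0 < n)
    (h : IsAlgebraic k (x ^ n)) : IsAlgebraic k x := h.of_pow hn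

theorem zl_local [CharZero k] {c : Dat k} (hc : c.Good) {M N : Type} [Field M] [Algebra k M] [Field N]
    [Algebra k N] {i : M →ₐ[k] N} {lam : N} {z : Zp M} (hz : IsZ (c.over M) z) (e : Fin 3 → ℤ)
    (w : Place k M) (hR : ∀ j, w.ord (z.R j) = 0) (r : Fin 3 → k)
    (hr : ∀ j, Red w (z.R j) (algebraMap k (RF w) (r j))) (π : M) (hπ : w.ord π = 1) (m : ℕ) (hm : 0 < m)
    (f0 : Fin 3 → k)
    (hf : ∀ j, Red w (crs (c.over M) z.R j / π ^ m) (algebraMap k (RF w) (f0 j)))
    (hi : Indep f0 (dcrs c r e)) {v : Place k N} {e' : ℤ} (hv : Ovr i w v e') (hl : 0 < v.ord (lam - 1))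
    {z' : Zp (RF v)} (hz' : IsZ (c.over (RF v)) z') (hs : SpZ v (zl c i lam e z) z') :
    CstZ k z' ∨ (v.ord (lam - 1) = e' * m ∧ ∃ (t : RF v) (l : RF v), Red v ((lam - 1) / i π ^ m) t ∧
      Transcendental k t ∧ l ≠ 0 ∧ ∀ j, z'.Y j = l * (algebraMap k (RF v) (f0 j) +
        t * algebraMap k (RF v) ((c.n : k) * dcrs c r e j))) := by
  have hn0 : (c.n : k) ≠ 0 := by
    have := hc.two
    exact_mod_cast (by omega : c.n ≠ 0)
  have hπ0 : π ≠ 0 := by
    rintro rfl
    rw [w.ord_zero] at hπ
    exact zero_ne_one hπ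
  have hiπ : i π ≠ 0 := by simpa using hπ0
  have hd0 : lam - 1 ≠ 0 := by
    intro h
    rw [h, v.ord_zero] at hl
    exact lt_irrefl _ hl
  have hoπ : v.ord (i π ^ m) = e' * m := by
    rw [v.ord_pow, hv.ord, hπ]
    ring
  have hR' : ∀ j, z'.R j = algebraMap k (RF v) (r j) := fun j =>
    (hs.R j).unique (P3_R e r hr hv hl j)
  have hcst : (∀ a b, IsAlgebraic k (z'.Y a / z'.Y b)) → CstZ k z' := by
    intro hY
    refine ⟨fun j => ?_, ?_, hY⟩
    · rw [hR' j]
      exact isAlgebraic_algebraMap _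
    · have h1 : z'.u ^ (c.over (RF v)).n = ∏ j, z'.R j := hz'.un
      refine P3_alg_of_pow (n := (c.over (RF v)).n) (lt_of_lt_of_le (by norm_num) hc.two) ?_
      rw [h1]
      simp_rw [hR']
      rw [← map_prod]
      exact isAlgebraic_algebraMap _
  obtain ⟨l, hlY⟩ := hs.Y
  obtain ⟨ja, jb, hab⟩ := hi
  have hg : Indep f0 (fun j => (c.n : k) * dcrs c r e j) := by
    refine ⟨ja, jb, fun h => hab ?_⟩
    have h2 : (c.n : k) * (f0 ja * dcrs c r e jb) = (c.n : k) * (f0 jb * dcrs c r e ja) := by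
      linear_combination h
    exact mul_left_cancel₀ hn0 h2
  obtain ⟨j1, j2, h12⟩ := hg
  rcases lt_trichotomy (v.ord (lam - 1)) (e' * m) with h | h | h
  · -- the derivative dominates
    left
    have ht : Red v ((lam - 1) / (lam - 1)) 1 := by
      rw [div_self hd0]
      exact Pool.Agent.LibCHd.red_one v
    have hs0 : Red v (i π ^ m / (lam - 1)) 0 := by
      rw [Pool.Agent.LibCHd.red_zero_iff]
      refine Or.inr ?_
      rw [v.ord_div _ _ (pow_ne_zero _ hiπ) hd0, hoπ]
      omega
    have hlim := P3_limit e r hr π m f0 hf hπ0 hv hl (lam - 1) 0 1 hs0 ht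
    have hne : ∃ j, (0 : RF v) * algebraMap k (RF v) (f0 j) +
        1 * algebraMap k (RF v) ((c.n : k) * dcrs c r e j) ≠ 0 := by
      by_contra hcon
      push Not at hcon
      have h1 : ∀ j, (c.n : k) * dcrs c r e j = 0 := by
        intro j
        have := hcon j
        rw [zero_mul, zero_add, one_mul] at this
        exact (map_eq_zero _).1 this
      apply h12
      simp only [h1, mul_zero]
    obtain ⟨s, hs1, hs2⟩ := P3_prop hlY hlim hz'.Y0 hne
    refine hcst fun a b => ?_
    rw [hs2 a, hs2 b, mul_div_mul_left _ _ hs1, zero_mul, zero_add, one_mul, zero_mul, zero_add, one_mul,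
      ← map_div₀]
    exact isAlgebraic_algebraMap _
  · -- both have the same order
    have hs1 : Red v (i π ^ m / i π ^ m) 1 := by
      rw [div_self (pow_ne_zero _ hiπ)]
      exact Pool.Agent.LibCHd.red_one v
    have ht0 : v.Reg ((lam - 1) / i π ^ m) := by
      refine Or.inr ?_
      rw [v.ord_div _ _ hd0 (pow_ne_zero _ hiπ), hoπ, h, sub_self]
    obtain ⟨t, ht⟩ := Pool.Agent.LibCHd.exists_red ht0
    have hlim := P3_limit e r hr π m f0 hf hπ0 hv hl (i π ^ m) 1 t hs1 ht
    have hne : ∃ j, (1 : RF v) * algebraMap k (RF v) (f0 j) +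
        t * algebraMap k (RF v) ((c.n : k) * dcrs c r e j) ≠ 0 := by
      by_contra hcon
      push Not at hcon
      have ha := hcon j1
      have hb := hcon j2
      rw [one_mul] at ha hb
      apply h12
      show f0 j1 * ((c.n : k) * dcrs c r e j2) = f0 j2 * ((c.n : k) * dcrs c r e j1)
      apply (algebraMap k (RF v)).injective
      rw [map_mul (algebraMap k (RF v)) (f0 j1), map_mul (algebraMap k (RF v)) (f0 j2)]
      linear_combination (algebraMap k (RF v) ((c.n : k) * dcrs c r e j2)) * ha -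
        (algebraMap k (RF v) ((c.n : k) * dcrs c r e j1)) * hb
    obtain ⟨s, hs2, hs3⟩ := P3_prop hlY hlim hz'.Y0 hne
    by_cases htr : Transcendental k t
    · right
      refine ⟨h, t, s, ht, htr, hs2, fun j => ?_⟩
      rw [hs3 j, one_mul]
    · left
      have hta : IsAlgebraic k t := by
        by_contra h'
        exact htr h'
      refine hcst fun a b => ?_
      rw [hs3 a, hs3 b, mul_div_mul_left _ _ hs2, one_mul, one_mul]
      exact ((isAlgebraic_algebraMap _).add (hta.mul (isAlgebraic_algebraMap _))).mul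
        ((isAlgebraic_algebraMap _).add (hta.mul (isAlgebraic_algebraMap _))).inv
  · -- the value dominates
    left
    have hs1 : Red v (i π ^ m / i π ^ m) 1 := by
      rw [div_self (pow_ne_zero _ hiπ)]
      exact Pool.Agent.LibCHd.red_one v
    have ht : Red v ((lam - 1) / i π ^ m) 0 := by
      rw [Pool.Agent.LibCHd.red_zero_iff]
      refine Or.inr ?_
      rw [v.ord_div _ _ hd0 (pow_ne_zero _ hiπ), hoπ]
      omega
    have hlim := P3_limit e r hr π m f0 hf hπ0 hv hl (i π ^ m) 1 0 hs1 ht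
    have hne : ∃ j, (1 : RF v) * algebraMap k (RF v) (f0 j) +
        0 * algebraMap k (RF v) ((c.n : k) * dcrs c r e j) ≠ 0 := by
      by_contra hcon
      push Not at hcon
      have h1 : ∀ j, f0 j = 0 := by
        intro j
        have := hcon j
        rw [zero_mul, add_zero, one_mul] at this
        exact (map_eq_zero _).1 this
      apply h12
      simp only [h1, zero_mul]
    obtain ⟨s, hs2, hs3⟩ := P3_prop hlY hlim hz'.Y0 hne
    refine hcst fun a b => ?_
    rw [hs3 a, hs3 b, mul_div_mul_left _ _ hs2, zero_mul, add_zero, one_mul, zero_mul, add_zero, one_mul,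
      ← map_div₀]
    exact isAlgebraic_algebraMap _


/-- conversely at the Gauss place of `(lam - 1) / π ^ m` there is such a specialisation -/
theorem zl_gauss [CharZero k] {c : Dat k} (hc : c.Good) {M N : Type} [Field M] [Algebra k M] [Field N]
    [Algebra k N] {i : M →ₐ[k] N} {lam : N} {z : Zp M} (hz : IsZ (c.over M) z) (e : Fin 3 → ℤ)
    (w : Place k M) (hR : ∀ j, w.ord (z.R j) = 0) (r : Fin 3 → k)
    (hr : ∀ j, Red w (z.R j) (algebraMap k (RF w) (r j))) (hcr : ∀ j, crs c r j = 0) (u0 : k)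
    (hu : Red w z.u (algebraMap k (RF w) u0)) (π : M) (hπ : w.ord π = 1) (m : ℕ) (hm : 0 < m)
    (f0 : Fin 3 → k)
    (hf : ∀ j, Red w (crs (c.over M) z.R j / π ^ m) (algebraMap k (RF w) (f0 j)))
    (hi : Indep f0 (dcrs c r e)) {v : Place k N} (hv : Ovr i w v 1) (t : RF v)
    (ht : Red v ((lam - 1) / i π ^ m) t) (htr : Transcendental k t) :
    v.ord (lam - 1) = m ∧ ∃ z' : Zp (RF v), IsZ (c.over (RF v)) z' ∧ SpZ v (zl c i lam e z) z' ∧
      (∀ j, z'.R j = algebraMap k (RF v) (r j)) ∧ z'.u = algebraMap k (RF v) u0 ∧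
      ∀ j, z'.Y j = algebraMap k (RF v) (f0 j) + t * algebraMap k (RF v) ((c.n : k) * dcrs c r e j) := by
  have hn0 : (c.n : k) ≠ 0 := by
    have := hc.two
    exact_mod_cast (by omega : c.n ≠ 0)
  have hπ0 : π ≠ 0 := by
    rintro rfl
    rw [w.ord_zero] at hπ
    exact zero_ne_one hπ
  have hiπ : i π ≠ 0 := by simpa using hπ0
  have hoπ : v.ord (i π ^ m) = m := by
    rw [v.ord_pow, hv.ord, hπ]
    ring
  have ht0 : t ≠ 0 := by
    rintro rfl
    exact htr isAlgebraic_zero
  have hd0 : lam - 1 ≠ 0 := by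
    intro h
    rw [h, zero_div] at ht
    exact ht0 (ht.unique (Pool.Agent.LibCHd.red_zero v))
  have hlo : v.ord (lam - 1) = m := by
    have h1 := ht.ord_eq_zero ht0
    rw [v.ord_div _ _ hd0 (pow_ne_zero _ hiπ), hoπ] at h1
    omega
  have hl : 0 < v.ord (lam - 1) := by
    rw [hlo]
    exact_mod_cast hm
  have hs1 : Red v (i π ^ m / i π ^ m) 1 := by
    rw [div_self (pow_ne_zero _ hiπ)]
    exact Pool.Agent.LibCHd.red_one v
  have hlim := P3_limit e r hr π m f0 hf hπ0 hv hl (i π ^ m) 1 t hs1 ht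
  have hinj : Function.Injective (algebraMap k (RF v)) := (algebraMap k (RF v)).injective
  have hinjw : Function.Injective (algebraMap k (RF w)) := (algebraMap k (RF w)).injective
  have hr0 : ∀ j, r j ≠ 0 := by
    intro j h0
    have h1 := hr j
    rw [h0, map_zero, Pool.Agent.LibCHd.red_zero_iff] at h1
    rcases h1 with h1 | h1
    · exact hz.R0 j h1
    · rw [hR j] at h1
      exact lt_irrefl _ h1
  have hun : u0 ^ c.n = ∏ j, r j := by
    apply hinjw
    rw [map_pow, map_prod]
    refine (hu.pow c.n).unique ?_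
    rw [show z.u ^ c.n = ∏ j, z.R j from hz.un, Fin.prod_univ_three, Fin.prod_univ_three]
    exact ((hr 0).mul (hr 1)).mul (hr 2)
  have hu0 : u0 ≠ 0 := by
    intro h0
    rw [h0, zero_pow (by have := hc.two; omega)] at hun
    exact (Finset.prod_ne_zero_iff.2 fun j _ => hr0 j) hun.symm
  have horth := crs_orth (c.over M) z.R
  have hAf : ∑ j, cA c r j * f0 j = 0 := by
    apply hinjw
    rw [map_zero, map_sum, Fin.sum_univ_three]
    simp only [map_mul]
    have h1 : Red w (∑ j, cA (c.over M) z.R j * (crs (c.over M) z.R j / π ^ m))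
        (algebraMap k (RF w) (cA c r 0) * algebraMap k (RF w) (f0 0) +
          algebraMap k (RF w) (cA c r 1) * algebraMap k (RF w) (f0 1) +
          algebraMap k (RF w) (cA c r 2) * algebraMap k (RF w) (f0 2)) := by
      rw [Fin.sum_univ_three]
      exact ((((P3_red_A c hr 0).1.mul (hf 0)).add ((P3_red_A c hr 1).1.mul (hf 1))).add
        ((P3_red_A c hr 2).1.mul (hf 2)))
    have h2 : ∑ j, cA (c.over M) z.R j * (crs (c.over M) z.R j / π ^ m) = 0 := by
      simp_rw [← mul_div_assoc]
      rw [← Finset.sum_div, horth.1, zero_div]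
    rw [h2] at h1
    exact h1.unique (Pool.Agent.LibCHd.red_zero w)
  have hBf : ∑ j, cB c r j * f0 j = 0 := by
    apply hinjw
    rw [map_zero, map_sum, Fin.sum_univ_three]
    simp only [map_mul]
    have h1 : Red w (∑ j, cB (c.over M) z.R j * (crs (c.over M) z.R j / π ^ m))
        (algebraMap k (RF w) (cB c r 0) * algebraMap k (RF w) (f0 0) +
          algebraMap k (RF w) (cB c r 1) * algebraMap k (RF w) (f0 1) +
          algebraMap k (RF w) (cB c r 2) * algebraMap k (RF w) (f0 2)) := by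
      rw [Fin.sum_univ_three]
      exact ((((P3_red_A c hr 0).2.mul (hf 0)).add ((P3_red_A c hr 1).2.mul (hf 1))).add
        ((P3_red_A c hr 2).2.mul (hf 2)))
    have h2 : ∑ j, cB (c.over M) z.R j * (crs (c.over M) z.R j / π ^ m) = 0 := by
      simp_rw [← mul_div_assoc]
      rw [← Finset.sum_div, horth.2, zero_div]
    rw [h2] at h1
    exact h1.unique (Pool.Agent.LibCHd.red_zero w)
  have hg := dcrs_orth hc r hcr e
  have hg1 : ∑ j, cA c r j * ((c.n : k) * dcrs c r e j) = 0 := by
    have h1 : ∑ j, cA c r j * ((c.n : k) * dcrs c r e j) =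
        (c.n : k) * ∑ j, cA c r j * dcrs c r e j := by
      rw [Finset.mul_sum]
      exact Finset.sum_congr rfl fun j _ => by ring
    rw [h1, hg.1, mul_zero]
  have hg2 : ∑ j, cB c r j * ((c.n : k) * dcrs c r e j) = 0 := by
    have h1 : ∑ j, cB c r j * ((c.n : k) * dcrs c r e j) =
        (c.n : k) * ∑ j, cB c r j * dcrs c r e j := by
      rw [Finset.mul_sum]
      exact Finset.sum_congr rfl fun j _ => by ring
    rw [h1, hg.2, mul_zero]
  -- the coordinates are not zero
  have hY0 : ∀ j, algebraMap k (RF v) (f0 j) + t * algebraMap k (RF v) ((c.n : k) * dcrs c r e j) ≠ 0 := by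
    intro j h0
    have hj : f0 j = 0 ∧ dcrs c r e j = 0 := by
      by_cases hd : dcrs c r e j = 0
      · rw [hd, mul_zero, map_zero, mul_zero, add_zero] at h0
        exact ⟨(map_eq_zero _).1 h0, hd⟩
      · exfalso
        apply htr
        have h1 : t = algebraMap k (RF v) (-(f0 j) / ((c.n : k) * dcrs c r e j)) := by
          have h2 : algebraMap k (RF v) ((c.n : k) * dcrs c r e j) ≠ 0 := by
            rw [Ne, map_eq_zero]
            exact mul_ne_zero hn0 hd
          rw [map_div₀, map_neg, eq_div_iff h2]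
          linear_combination h0
        rw [h1]
        exact isAlgebraic_algebraMap _
    obtain ⟨C, hC, hCe⟩ := exists_C hc r hcr
    have hf' := (hCe f0).1 ⟨hAf, hBf⟩
    have hg' := (hCe (dcrs c r e)).1 hg
    rw [Fin.sum_univ_three] at hf' hg'
    obtain ⟨a, b, hab⟩ := hi
    have hfj := hj.1
    have hgj := hj.2
    have key : ∀ a b : Fin 3, f0 a * dcrs c r e b = f0 b * dcrs c r e a := by
      have h01 : f0 0 * dcrs c r e 1 = f0 1 * dcrs c r e 0 := by
        apply mul_left_cancel₀ (hC 2)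
        fin_cases j
        · simp at hfj hgj
          rw [hfj, hgj]
          ring
        · simp at hfj hgj
          rw [hfj, hgj]
          ring
        · simp at hfj hgj
          rw [hfj] at hf'
          rw [hgj] at hg'
          apply mul_left_cancel₀ (hC 0)
          linear_combination C 2 * dcrs c r e 1 * hf' - C 2 * f0 1 * hg'
      have h02 : f0 0 * dcrs c r e 2 = f0 2 * dcrs c r e 0 := by
        apply mul_left_cancel₀ (hC 0)
        fin_cases j
        · simp at hfj hgj
          rw [hfj, hgj]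
          ring
        · simp at hfj hgj
          rw [hfj] at hf'
          rw [hgj] at hg'
          linear_combination dcrs c r e 2 * hf' - f0 2 * hg'
        · simp at hfj hgj
          rw [hfj, hgj]
          ring
      have h12 : f0 1 * dcrs c r e 2 = f0 2 * dcrs c r e 1 := by
        apply mul_left_cancel₀ (hC 1)
        fin_cases j
        · simp at hfj hgj
          rw [hfj] at hf'
          rw [hgj] at hg'
          linear_combination dcrs c r e 2 * hf' - f0 2 * hg'
        · simp at hfj hgj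
          rw [hfj, hgj]
          ring
        · simp at hfj hgj
          rw [hfj, hgj]
          ring
      intro a b
      fin_cases a <;> fin_cases b
      · rfl
      · exact h01
      · exact h02
      · exact h01.symm
      · rfl
      · exact h12
      · exact h02.symm
      · exact h12.symm
      · rfl
    exact hab (key a b)
  have hAmap : ∀ j, cA (c.over (RF v)) (fun j => algebraMap k (RF v) (r j)) j =
      algebraMap k (RF v) (cA c r j) := by
    intro j
    unfold cA
    rw [ka_map, kb_map, map_add, map_mul]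
  have hBmap : ∀ j, cB (c.over (RF v)) (fun j => algebraMap k (RF v) (r j)) j =
      algebraMap k (RF v) (cB c r j) := by
    intro j
    unfold cB
    rw [ka_map, kb_map, map_add, map_mul, map_mul, map_mul]
    rfl
  refine ⟨hlo, ⟨fun j => algebraMap k (RF v) (r j), fun j => algebraMap k (RF v) (f0 j) +
    t * algebraMap k (RF v) ((c.n : k) * dcrs c r e j), algebraMap k (RF v) u0⟩, ?_, ?_,
    fun j => rfl, rfl, fun j => rfl⟩
  · refine ⟨fun j => ?_, hY0, ?_, ?_, ?_, ?_⟩
    · rw [Ne, map_eq_zero]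
      exact hr0 j
    · rw [Ne, map_eq_zero]
      exact hu0
    · show algebraMap k (RF v) u0 ^ c.n = ∏ j, algebraMap k (RF v) (r j)
      rw [← map_pow, hun, map_prod]
    · show ∑ j, cA (c.over (RF v)) (fun j => algebraMap k (RF v) (r j)) j *
        (algebraMap k (RF v) (f0 j) + t * algebraMap k (RF v) ((c.n : k) * dcrs c r e j)) = 0
      have h1 := congrArg (algebraMap k (RF v)) hAf
      have h2 := congrArg (algebraMap k (RF v)) hg1
      rw [map_zero, map_sum, Fin.sum_univ_three] at h1 h2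
      rw [Fin.sum_univ_three, hAmap, hAmap, hAmap]
      simp only [map_mul] at h1 h2 ⊢
      linear_combination h1 + t * h2
    · show ∑ j, cB (c.over (RF v)) (fun j => algebraMap k (RF v) (r j)) j *
        (algebraMap k (RF v) (f0 j) + t * algebraMap k (RF v) ((c.n : k) * dcrs c r e j)) = 0
      have h1 := congrArg (algebraMap k (RF v)) hBf
      have h2 := congrArg (algebraMap k (RF v)) hg2
      rw [map_zero, map_sum, Fin.sum_univ_three] at h1 h2
      rw [Fin.sum_univ_three, hBmap, hBmap, hBmap]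
      simp only [map_mul] at h1 h2 ⊢
      linear_combination h1 + t * h2
  · refine ⟨P3_R e r hr hv hl, ?_, (i π ^ m)⁻¹, fun j => ?_⟩
    · show Red v (lam ^ (∑ j, e j) * i z.u) (algebraMap k (RF v) u0)
      have := (P3_red_lam hl (∑ j, e j)).mul (hv.res _ _ hu)
      rwa [one_mul] at this
    · have := hlim j
      rwa [one_mul] at this

end Pool.Agent.LibCW77
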