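import Pool.Agent.LibCW77.Defs3

/-!
[CW77 P5] Choice of the exponents: `e = (1, s, s ^ 2)` with a large natural number `s`: every condition is that a nonzero polynomial in `s` with
coefficients in `k` or `ℤ` does not vanish (`l_0 + l_1 X + l_2 X ^ 2 ≠ 0`; `p X - q`), so all but finitely many `s` work (characteristic 0, `Nat.cast`
injective).
-/

open scoped Classical
open Polynomial

namespace Pool.Agent.LibCW77

open Pool.Agent.LibBH2
open Pool.Agent.LibCHd (VR RF Red FunF)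

variable {k : Type} [Field k]

private theorem P5_finite_roots [CharZero k] (l : Fin 3 → k) (hl : l ≠ 0) :
    {s : ℕ | l 0 + l 1 * (s : k) + l 2 * (s : k) ^ 2 = 0}.Finite := by
  let P : k[X] := C (l 0) + C (l 1) * X + C (l 2) * X ^ 2
  have hP : P ≠ 0 := by
    intro h
    apply hl
    have c0 : P.coeff 0 = 0 := by rw [h]; simp
    have c1 : P.coeff 1 = 0 := by rw [h]; simp
    have c2 : P.coeff 2 = 0 := by rw [h]; simp
    have d0 : P.coeff 0 = l 0 := by
      simp [P, coeff_X_pow, coeff_X, coeff_C]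
    have d1 : P.coeff 1 = l 1 := by
      simp [P, coeff_X_pow, coeff_X, coeff_C]
    have d2 : P.coeff 2 = l 2 := by
      simp [P, coeff_X_pow, coeff_X, coeff_C]
    funext i
    fin_cases i
    · show l 0 = 0
      rw [← d0, c0]
    · show l 1 = 0
      rw [← d1, c1]
    · show l 2 = 0
      rw [← d2, c2]
  have hfin : {x : k | P.IsRoot x}.Finite := by
    have : {x : k | P.IsRoot x} = ↑(P.roots.toFinset) := by
      ext x
      simp [hP]
    rw [this]
    exact Finset.finite_toSet _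
  have hinj : Function.Injective (fun s : ℕ => (s : k)) := Nat.cast_injective
  refine (hfin.preimage (hinj.injOn)).subset ?_
  intro s hs
  simp only [Set.mem_preimage, Set.mem_setOf_eq, IsRoot.def] at hs ⊢
  simpa [P] using hs

private theorem P5_finite_lin (p : ℤ × ℤ) (hp : p.1 ≠ 0) :
    {s : ℕ | p.1 * (s : ℤ) = p.2}.Finite := by
  refine Set.Subsingleton.finite ?_
  intro a ha b hb
  simp only [Set.mem_setOf_eq] at ha hb
  have h : p.1 * (a : ℤ) = p.1 * (b : ℤ) := by rw [ha, hb]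
  exact_mod_cast mul_left_cancel₀ hp h

theorem exists_e [CharZero k] (T : Finset (Fin 3 → k)) (hT : ∀ l ∈ T, l ≠ 0) (T' : Finset (ℤ × ℤ))
    (hT' : ∀ p ∈ T', p.1 ≠ 0) :
    ∃ e : Fin 3 → ℤ, (∀ i, e i ≠ 0) ∧ (∀ i, e i + e (i + 1) ≠ 0) ∧
      (∀ l ∈ T, ∑ i, l i * (e i : k) ≠ 0) ∧ ∀ p ∈ T', p.1 * e 1 ≠ p.2 * e 0 := by
  have hfin : (({0} : Set ℕ) ∪ ((⋃ l ∈ T, {s : ℕ | l 0 + l 1 * (s : k) + l 2 * (s : k) ^ 2 = 0}) ∪
      (⋃ p ∈ T', {s : ℕ | p.1 * (s : ℤ) = p.2}))).Finite := by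
    refine (Set.finite_singleton 0).union (Set.Finite.union ?_ ?_)
    · exact Set.Finite.biUnion (Finset.finite_toSet T) fun l hl => P5_finite_roots l (hT l hl)
    · exact Set.Finite.biUnion (Finset.finite_toSet T') fun p hp => P5_finite_lin p (hT' p hp)
  obtain ⟨s, hs⟩ := hfin.infinite_compl.nonempty
  simp only [Set.mem_compl_iff, Set.mem_union, Set.mem_singleton_iff, Set.mem_iUnion,
    Set.mem_setOf_eq, not_or, not_exists] at hs
  obtain ⟨hs0, hs1, hs2⟩ := hs
  have hspos : (0 : ℤ) < (s : ℤ) := by exact_mod_cast Nat.pos_of_ne_zero hs0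
  have hpos : ∀ i : Fin 3, (0 : ℤ) < (![1, (s : ℤ), (s : ℤ) ^ 2] : Fin 3 → ℤ) i := by
    intro i
    fin_cases i
    · show (0 : ℤ) < 1
      norm_num
    · show (0 : ℤ) < (s : ℤ)
      exact hspos
    · show (0 : ℤ) < (s : ℤ) ^ 2
      positivity
  refine ⟨![1, (s : ℤ), (s : ℤ) ^ 2], fun i => (hpos i).ne', fun i => ?_, ?_, ?_⟩
  · exact (add_pos (hpos i) (hpos (i + 1))).ne'
  · intro l hl h
    apply hs1 l hl
    rw [Fin.sum_univ_three] at h
    have h' : l 0 * ((1 : ℤ) : k) + l 1 * (((s : ℤ)) : k) + l 2 * (((s : ℤ) ^ 2 : ℤ) : k) = 0 := h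
    push_cast at h'
    simpa using h'
  · intro p hp h
    apply hs2 p hp
    have h' : p.1 * (s : ℤ) = p.2 * 1 := h
    simpa using h'

end Pool.Agent.LibCW77
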