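import Pool.Agent.LibCW77.Defs3
import Pool.Agent.LibCW77.T8
import Pool.Agent.LibCW77.G2
import Pool.Agent.LibCW77.G3
import Pool.Agent.LibCW77.P1
import Pool.Agent.LibCW77.P3
import Pool.Agent.LibCW77.P5
import Pool.Agent.LibCW77.P6
import Pool.Agent.LibCW77.LN
import Pool.Agent.LibCW77.D6
/-!
[CW77 P7] The relation of a general curve. Plan: a field `N = M(lam)` (`rat1_exists`, `FunF k 2 N`). For `w` in `S`: uniformizer `π_w`, `r_w = lR c (Qw w 0)` (`crs = 0` by `lR_props`),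
residues `f0` of `crs / π ^ m` (`res_k`; not all zero; orthogonal to `cA c r`, `cB c r`: reduce `crs_orth`), the linear form `l_w` of `indep_of_ne`. Exponents
`e` by `exists_e` for the `l_w` and the pairs `(w.ord (z.R 0), w.ord (z.R 1))` for the finitely many `w` with `w.ord (z.R 0) ≠ 0`
(`fin_zero`). `zl` is a Z-point (`isZ_zl`). Function `g = lam - 1`. Places: `v0` (`place_triv`, value `z.map ε`, `zl_triv`; `TZ (z.map ε) = TZ z` by `TZ_map`, `finrank = 1`), and for `w ∈ S` the Gauss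
place `v_w` of `(lam - 1) / π ^ m` (`rat1_affine`, `place_gauss`, `zl_gauss`), with `v_w.ord g = m w` and `TZ = Lval (Qw w)` (`Lval_spec`, `gauss_gen`, `line_gen`; different for different `w`). All other places with
`ord g ≠ 0`: `v.ord lam < 0` (`zl_pole`, `place_dich`); `v.ord (lam - 1) > 0` and trivial on `M`: `v0`; over a place `w`: if `w.ord (z.R j) ≠ 0` for some `j` no Z-point (`R_j` of
`zl` is not a unit); if `w ∉ S`: `crs` of the residues is not zero (`hS2`), `cst_of_crs`; if `w ∈ S`: `zl_local`: constant or `t` transcendental, then it is `v_w`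
(`gauss_unique`). `master`.
-/

open scoped Classical
open Polynomial

namespace Pool.Agent.LibCW77

open Pool.Agent.LibBH2
open Pool.Agent.LibCHd (VR RF Red FunF)

variable {k : Type} [Field k]

variable {V : Type} [AddCommGroup V] [Module ℚ V]

private theorem P7_fr {M M' : Type} [Field M] [Algebra k M] [Field M'] [Algebra k M'] (ε : M ≃ₐ[k] M') :
    Module.finrank (ε : M →ₐ[k] M').fieldRange M' = 1 := by
  have h : (ε : M →ₐ[k] M').fieldRange = ⊤ := by
    rw [AlgHom.fieldRange_eq_top]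
    exact ε.surjective
  rw [h]
  exact IntermediateField.finrank_top

private theorem P7_res [IsAlgClosed k] {M : Type} [Field M] [Algebra k M] (hM : FunF k 1 M)
    (w : Place k M) {x : M} (hx : w.Reg x) : ∃ r : k, Red w x (algebraMap k (RF w) r) := by
  obtain ⟨y, hy⟩ := LibCHd.exists_red hx
  obtain ⟨r, rfl⟩ := res_k hM w y
  exact ⟨r, hy⟩

private theorem P7_cA {c : Dat k} {M : Type} [Field M] [Algebra k M] (w : Place k M) (R : Fin 3 → M)
    (r : Fin 3 → k) (h : ∀ j, Red w (R j) (algebraMap k (RF w) (r j))) (j : Fin 3) :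
    Red w (cA (c.over M) R j) (algebraMap k (RF w) (cA c r j)) := by
  have h1 : cA (c.over M) R j = algebraMap k M (ka c j) * R j + algebraMap k M (kb c j) := by
    unfold cA
    rw [← ka_map (algebraMap k M) c j, ← kb_map (algebraMap k M) c j]
  have h2 : algebraMap k (RF w) (cA c r j) =
      algebraMap k (RF w) (ka c j) * algebraMap k (RF w) (r j) + algebraMap k (RF w) (kb c j) := by
    unfold cA
    rw [map_add, map_mul]
  rw [h1, h2]
  exact ((LibCHd.red_const w _).mul (h j)).add (LibCHd.red_const w _)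

private theorem P7_cB {c : Dat k} {M : Type} [Field M] [Algebra k M] (w : Place k M) (R : Fin 3 → M)
    (r : Fin 3 → k) (h : ∀ j, Red w (R j) (algebraMap k (RF w) (r j))) (j : Fin 3) :
    Red w (cB (c.over M) R j) (algebraMap k (RF w) (cB c r j)) := by
  have h1 : cB (c.over M) R j = algebraMap k M (ka c j * c.a j) * R j +
      algebraMap k M (kb c j * c.b j) := by
    unfold cB
    rw [map_mul, map_mul, ← ka_map (algebraMap k M) c j, ← kb_map (algebraMap k M) c j]
    rfl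
  have h2 : algebraMap k (RF w) (cB c r j) =
      algebraMap k (RF w) (ka c j * c.a j) * algebraMap k (RF w) (r j) +
        algebraMap k (RF w) (kb c j * c.b j) := by
    unfold cB
    rw [map_add, map_mul]
  rw [h1, h2]
  exact ((LibCHd.red_const w _).mul (h j)).add (LibCHd.red_const w _)

private theorem P7_crs {c : Dat k} {M : Type} [Field M] [Algebra k M] (w : Place k M) (R : Fin 3 → M)
    (r : Fin 3 → k) (h : ∀ j, Red w (R j) (algebraMap k (RF w) (r j))) (j : Fin 3) :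
    Red w (crs (c.over M) R j) (algebraMap k (RF w) (crs c r j)) := by
  unfold crs
  rw [map_sub, map_mul, map_mul]
  exact ((P7_cA w R r h _).mul (P7_cB w R r h _)).sub ((P7_cA w R r h _).mul (P7_cB w R r h _))

private theorem P7_zpow {M : Type} [Field M] [Algebra k M] {v : Place k M} {f : M} (h : Red v f 1)
    (a : ℤ) : Red v (f ^ a) 1 := by
  obtain ⟨n, rfl | rfl⟩ := a.eq_nat_or_neg
  · rw [zpow_natCast]
    simpa using h.pow n
  · rw [zpow_neg, zpow_natCast]
    have h1 := (h.pow n).inv (by rw [one_pow]; exact one_ne_zero)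
    simpa using h1

private theorem P7_inj {M : Type} [Field M] [Algebra k M] {w : Place k M} {a b : k}
    (h : algebraMap k (RF w) a = algebraMap k (RF w) b) : a = b :=
  (algebraMap k (RF w)).injective h

private theorem P7_reg {M : Type} [Field M] [Algebra k M] {w : Place k M} {x : M}
    (h : w.ord x = 0) : w.Reg x := Or.inr h.ge

/-- the data at a place of `S` -/
private theorem P7_data [IsAlgClosed k] [CharZero k] {c : Dat k} (hc : c.Good) {ν : k}
    (hν : ν ^ c.n = ∏ i, (-(kb c i) / ka c i)) {M : Type} [Field M] [Algebra k M]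
    (hM : FunF k 1 M) (R : Fin 3 → M) (w : Place k M) (m : ℕ) (Q : Fin 2 → Option k)
    (h1 : ∀ j, crs (c.over M) R j ≠ 0 → (m : ℤ) ≤ w.ord (crs (c.over M) R j))
    (h2 : ∃ j, crs (c.over M) R j ≠ 0 ∧ w.ord (crs (c.over M) R j) = m)
    (hQ : OnC c (Q 0) (Q 1)) (hR : ∀ j, Red w (R j) (algebraMap k (RF w) (lR c (Q 0) j)))
    (hx : ∃ x, Q 1 = some x ∧ x ≠ 0) :
    ∃ (π : M) (f0 l : Fin 3 → k), w.ord π = 1 ∧
      (∀ j, Red w (crs (c.over M) R j / π ^ m) (algebraMap k (RF w) (f0 j))) ∧ l ≠ 0 ∧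
      (∀ e : Fin 3 → ℤ, ∑ i, l i * (e i : k) ≠ 0 → Indep f0 (dcrs c (lR c (Q 0)) e)) ∧
      (∀ j, crs c (lR c (Q 0)) j = 0) := by
  obtain ⟨x, hx1, hx0⟩ := hx
  rw [hx1] at hQ
  obtain ⟨-, -, hr0, hcr, -⟩ := lR_props hc ν hν (Q 0) x hx0 hQ
  obtain ⟨π, hπ⟩ := w.exists_uniformizer
  have hπ0 : π ≠ 0 := by
    rintro rfl
    rw [w.ord_zero] at hπ
    exact zero_ne_one hπ
  have hπm : π ^ m ≠ 0 := pow_ne_zero _ hπ0
  have hreg : ∀ j, w.Reg (crs (c.over M) R j / π ^ m) := by
    intro j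
    by_cases hj : crs (c.over M) R j = 0
    · rw [hj, zero_div]
      exact Place.reg_zero w
    · refine Or.inr ?_
      rw [Place.ord_div w _ _ hj hπm, Place.ord_pow, hπ]
      have := h1 j hj
      linarith
  choose f0 hf0 using fun j => P7_res hM w (hreg j)
  have hf0ne : f0 ≠ 0 := by
    intro hf
    obtain ⟨j, hj0, hj⟩ := h2
    have h3 := hf0 j
    rw [hf, Pi.zero_apply, map_zero, LibCHd.red_zero_iff] at h3
    rcases h3 with h3 | h3
    · exact div_ne_zero hj0 hπm h3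
    · rw [Place.ord_div w _ _ hj0 hπm, Place.ord_pow, hπ, hj] at h3
      linarith
  have ho := crs_orth (c.over M) R
  have hA : ∑ i, cA c (lR c (Q 0)) i * f0 i = 0 := by
    have e1 : ∑ i, cA (c.over M) R i * (crs (c.over M) R i / π ^ m) = 0 := by
      have : ∑ i, cA (c.over M) R i * (crs (c.over M) R i / π ^ m) =
          (∑ i, cA (c.over M) R i * crs (c.over M) R i) / π ^ m := by
        rw [Finset.sum_div]
        exact Finset.sum_congr rfl fun i _ => by rw [mul_div_assoc]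
      rw [this, ho.1, zero_div]
    have e2 : Red w (∑ i, cA (c.over M) R i * (crs (c.over M) R i / π ^ m))
        (algebraMap k (RF w) (∑ i, cA c (lR c (Q 0)) i * f0 i)) := by
      rw [Fin.sum_univ_three, Fin.sum_univ_three]
      simp only [map_add, map_mul]
      exact (((P7_cA w R _ hR 0).mul (hf0 0)).add ((P7_cA w R _ hR 1).mul (hf0 1))).add
        ((P7_cA w R _ hR 2).mul (hf0 2))
    rw [e1] at e2
    exact P7_inj (w := w) (by rw [map_zero]; exact e2.unique (LibCHd.red_zero w))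
  have hB : ∑ i, cB c (lR c (Q 0)) i * f0 i = 0 := by
    have e1 : ∑ i, cB (c.over M) R i * (crs (c.over M) R i / π ^ m) = 0 := by
      have : ∑ i, cB (c.over M) R i * (crs (c.over M) R i / π ^ m) =
          (∑ i, cB (c.over M) R i * crs (c.over M) R i) / π ^ m := by
        rw [Finset.sum_div]
        exact Finset.sum_congr rfl fun i _ => by rw [mul_div_assoc]
      rw [this, ho.2, zero_div]
    have e2 : Red w (∑ i, cB (c.over M) R i * (crs (c.over M) R i / π ^ m))
        (algebraMap k (RF w) (∑ i, cB c (lR c (Q 0)) i * f0 i)) := by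
      rw [Fin.sum_univ_three, Fin.sum_univ_three]
      simp only [map_add, map_mul]
      exact (((P7_cB w R _ hR 0).mul (hf0 0)).add ((P7_cB w R _ hR 1).mul (hf0 1))).add
        ((P7_cB w R _ hR 2).mul (hf0 2))
    rw [e1] at e2
    exact P7_inj (w := w) (by rw [map_zero]; exact e2.unique (LibCHd.red_zero w))
  obtain ⟨l, hl0, hl⟩ := indep_of_ne hc (lR c (Q 0)) hr0 hcr f0 hf0ne hA hB
  exact ⟨π, f0, l, hπ, hf0, hl0, hl, hcr⟩

/-- the rational function field with the parameter `(lam - 1) / π ^ m` -/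
private theorem P7_aff {M N : Type} [Field M] [Algebra k M] [Field N] [Algebra k N]
    {i : M →ₐ[k] N} {lam : N} (h : Rat1 i lam) (π : M) (hπ : π ≠ 0) (m : ℕ) :
    Rat1 i ((lam - 1) / i π ^ m) := by
  have h1 := rat1_affine h ((π ^ m)⁻¹) (-(π ^ m)⁻¹) (inv_ne_zero (pow_ne_zero _ hπ))
  have h2 : i ((π ^ m)⁻¹) * lam + i (-(π ^ m)⁻¹) = (lam - 1) / i π ^ m := by
    rw [map_neg, map_inv₀, map_pow]
    ring
  rwa [h2] at h1

/-- the Gauss place over a place of `S` -/
private theorem P7_gauss [IsAlgClosed k] [CharZero k] {c : Dat k} (hc : c.Good) {ζ ν : k}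
    (hζ : IsPrimitiveRoot ζ c.n) (hν : ν ^ c.n = ∏ i, (-(kb c i) / ka c i)) (q : CH c 3 1 →+ V)
    {M N : Type} [Field M] [Algebra k M] [Field N] [Algebra k N] (hM : FunF k 1 M)
    {i : M →ₐ[k] N} {lam : N} (h : Rat1 i lam) {z : Zp M} (hz : IsZ (c.over M) z)
    (e : Fin 3 → ℤ) (w : Place k M) (m : ℕ) (hm : 0 < m) (Q : Fin 2 → Option k)
    (hR0 : ∀ j, w.ord (z.R j) = 0) (hQ : OnC c (Q 0) (Q 1))
    (hR : ∀ j, Red w (z.R j) (algebraMap k (RF w) (lR c (Q 0) j)))
    (hx : ∃ x, Q 1 = some x ∧ x ≠ 0 ∧ Red w z.u (algebraMap k (RF w) (ν / x)))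
    (π : M) (hπ : w.ord π = 1) (f0 : Fin 3 → k)
    (hf0 : ∀ j, Red w (crs (c.over M) z.R j / π ^ m) (algebraMap k (RF w) (f0 j)))
    (hcr : ∀ j, crs c (lR c (Q 0)) j = 0) (hi : Indep f0 (dcrs c (lR c (Q 0)) e)) :
    ∃ (v : Place k N) (t : RF v), Ovr i w v 1 ∧ Red v ((lam - 1) / i π ^ m) t ∧
      Transcendental k t ∧ v.ord (lam - 1) = m ∧ FunF k 1 (RF v) ∧
      ∃ z' : Zp (RF v), IsZ (c.over (RF v)) z' ∧ SpZ v (zl c i lam e z) z' ∧
        TZ c ζ q z' = Lval c ζ ν q Q := by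
  have hπ0 : π ≠ 0 := by
    rintro rfl
    rw [w.ord_zero] at hπ
    exact zero_ne_one hπ
  have haff := P7_aff h π hπ0 m
  obtain ⟨v, t, hv, ht, htr⟩ := place_gauss hM haff w
  obtain ⟨x, hx1, hx0, hu⟩ := hx
  obtain ⟨hord, z', hz', hs, hzR, hzu, hzY⟩ := zl_gauss hc hz e w hR0 (lR c (Q 0)) hR hcr (ν / x) hu
    π hπ m hm f0 hf0 hi hv t ht htr
  obtain ⟨hgen, hF⟩ := gauss_gen hM haff w hv t ht htr
  refine ⟨v, t, hv, ht, htr, hord, hF, z', hz', hs, ?_⟩
  have hline : OnLine c ν Q z' := by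
    refine ⟨hzR, x, hx1, hx0, ?_⟩
    rw [hzu, ← map_mul, div_mul_cancel₀ _ hx0]
  rw [Lval_spec hc hζ hν q Q hQ hF hz' hline]
  have hn : (c.n : k) ≠ 0 := by
    have h2 := hc.two
    have h3 : c.n ≠ 0 := by omega
    exact_mod_cast h3
  have hi' : Indep f0 (fun j => (c.n : k) * dcrs c (lR c (Q 0)) e j) := by
    obtain ⟨a, b, hab⟩ := hi
    refine ⟨a, b, fun h' => hab (mul_left_cancel₀ hn ?_)⟩
    simp only at h'
    linear_combination h'
  have h1 := line_gen t htr hgen f0 (fun j => (c.n : k) * dcrs c (lR c (Q 0)) e j) hi' z'.Y hz'.Y0 1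
    one_ne_zero (fun j => by rw [one_mul]; exact hzY j)
  rw [h1, one_smul]

theorem path1 [IsAlgClosed k] [CharZero k] {c : Dat k} (hc : c.Good) {ζ ν : k} (hζ : IsPrimitiveRoot ζ c.n)
    (hν : ν ^ c.n = ∏ i, (-(kb c i) / ka c i)) (q : CH c 3 1 →+ V) {M : Type} [Field M] [Algebra k M]
    (hM : FunF k 1 M) {z : Zp M} (hz : IsZ (c.over M) z) (h0 : ∃ j, crs (c.over M) z.R j ≠ 0)
    (S : Finset (Place k M)) (m : Place k M → ℕ) (Qw : Place k M → Fin 2 → Option k)
    (hS1 : ∀ w ∈ S, (∀ j, w.ord (z.R j) = 0) ∧ 0 < m w ∧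
      (∀ j, crs (c.over M) z.R j ≠ 0 → (m w : ℤ) ≤ w.ord (crs (c.over M) z.R j)) ∧
      (∃ j, crs (c.over M) z.R j ≠ 0 ∧ w.ord (crs (c.over M) z.R j) = m w) ∧
      OnC c (Qw w 0) (Qw w 1) ∧ (∀ j, Red w (z.R j) (algebraMap k (RF w) (lR c (Qw w 0) j))) ∧
      ∃ x, Qw w 1 = some x ∧ x ≠ 0 ∧ Red w z.u (algebraMap k (RF w) (ν / x)))
    (hS2 : ∀ w, w ∉ S → (∀ j, w.ord (z.R j) = 0) →
      ∃ j, crs (c.over M) z.R j ≠ 0 ∧ w.ord (crs (c.over M) z.R j) ≤ 0) :
    TZ c ζ q z = - ∑ w ∈ S, m w • Lval c ζ ν q (Qw w) := by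
  obtain ⟨N, _, _, i, lam, h⟩ := rat1_exists (k := k) M
  have hN : FunF k 2 N := rat1_funF h hM
  obtain ⟨v0, ε, hv0, hε, hv01, hv0u⟩ := place_triv h
  have data : ∀ w : Place k M, ∃ (π : M) (f0 l : Fin 3 → k), w ∈ S → (w.ord π = 1 ∧
      (∀ j, Red w (crs (c.over M) z.R j / π ^ m w) (algebraMap k (RF w) (f0 j))) ∧ l ≠ 0 ∧
      (∀ e : Fin 3 → ℤ, ∑ i, l i * (e i : k) ≠ 0 → Indep f0 (dcrs c (lR c (Qw w 0)) e)) ∧
      (∀ j, crs c (lR c (Qw w 0)) j = 0)) := by
    intro w
    by_cases hw : w ∈ S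
    · obtain ⟨-, -, h3, h4, h5, h6, x, h7, h8, -⟩ := hS1 w hw
      obtain ⟨π, f0, l, h9⟩ := P7_data hc hν hM z.R w (m w) (Qw w) h3 h4 h5 h6 ⟨x, h7, h8⟩
      exact ⟨π, f0, l, fun _ => h9⟩
    · exact ⟨0, 0, 0, fun h' => absurd h' hw⟩
  choose π f0 l hd using data
  obtain ⟨e, he, he2, heT, heT'⟩ := exists_e (k := k) (S.image l)
    (fun l' hl' => by
      obtain ⟨w, hw, rfl⟩ := Finset.mem_image.1 hl'
      exact (hd w hw).2.2.1)
    ((fin_zero hM (z.R 0)).toFinset.image fun w => (w.ord (z.R 0), w.ord (z.R 1)))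
    (fun p hp => by
      obtain ⟨w, hw, rfl⟩ := Finset.mem_image.1 hp
      exact (Set.Finite.mem_toFinset _).1 hw)
  have hzN : IsZ (c.over N) (zl c i lam e z) := isZ_zl hc h hz e he he2
  have hlam0 : lam ≠ 0 := by
    have := rat1_ne h 0
    rwa [map_zero] at this
  have hg : lam - 1 ≠ 0 := by
    have := rat1_ne h 1
    rw [map_one] at this
    exact sub_ne_zero.2 this
  have gp : ∀ w : Place k M, ∃ v : Place k N, w ∈ S → ∃ t : RF v, Ovr i w v 1 ∧
      Red v ((lam - 1) / i (π w) ^ m w) t ∧ Transcendental k t ∧ v.ord (lam - 1) = m w ∧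
      FunF k 1 (RF v) ∧ ∃ z' : Zp (RF v), IsZ (c.over (RF v)) z' ∧ SpZ v (zl c i lam e z) z' ∧
        TZ c ζ q z' = Lval c ζ ν q (Qw w) := by
    intro w
    by_cases hw : w ∈ S
    · obtain ⟨h1, h2, -, -, h5, h6, h7⟩ := hS1 w hw
      obtain ⟨d1, d2, -, d4, d5⟩ := hd w hw
      obtain ⟨v, t, h9⟩ := P7_gauss hc hζ hν q hM h hz e w (m w) h2 (Qw w) h1 h5 h6 h7 (π w) d1
        (f0 w) d2 d5 (d4 e (heT _ (Finset.mem_image_of_mem _ hw)))
      exact ⟨v, fun _ => ⟨t, h9⟩⟩
    · exact ⟨v0, fun h' => absurd h' hw⟩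
  choose vw hvw using gp
  have hne : ∀ w ∈ S, vw w ≠ v0 := by
    intro w hw heq
    obtain ⟨t, h1, -⟩ := hvw w hw
    have h2 := h1.ord (π w)
    rw [heq, hv0, (hd w hw).1] at h2
    norm_num at h2
  have hinj : ∀ w ∈ S, ∀ w' ∈ S, vw w = vw w' → w = w' := by
    intro w hw w' hw' heq
    obtain ⟨t, h1, -⟩ := hvw w hw
    obtain ⟨t', h1', -⟩ := hvw w' hw'
    refine Place.ext' fun f => ?_
    have h2 := h1.ord f
    rw [heq, h1'.ord f] at h2
    linarith
  have hfr : Module.finrank (ε : M →ₐ[k] RF v0).fieldRange (RF v0) = 1 := P7_fr ε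
  have hZ : ∀ v : Place k N, ∃ Z : Zp (RF v), v ∈ insert v0 (S.image vw) →
      (FunF k 1 (RF v) ∧ IsZ (c.over (RF v)) Z ∧ SpZ v (zl c i lam e z) Z) ∧
      (v = v0 → TZ c ζ q Z = TZ c ζ q z) ∧
      ∀ w ∈ S, v = vw w → TZ c ζ q Z = Lval c ζ ν q (Qw w) := by
    intro v
    by_cases hv : v ∈ insert v0 (S.image vw)
    · rcases Finset.mem_insert.1 hv with hv' | hv'
      · subst hv'
        refine ⟨z.map (ε : M →ₐ[k] RF v), fun _ => ⟨⟨?_, ?_, ?_⟩, fun _ => ?_, ?_⟩⟩
        · exact funF_finite (ε : M →ₐ[k] RF v) (by rw [hfr]; exact one_ne_zero) hM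
        · exact (isZ_map _).2 hz
        · exact zl_triv hc h hz e h0 v (ε : M →ₐ[k] RF v) hε (by rw [hv01]; exact one_pos)
        · rw [TZ_map hc hζ q hz (ε : M →ₐ[k] RF v) (by rw [hfr]; exact one_ne_zero), hfr, one_smul]
        · intro w hw heq
          exact absurd heq.symm (hne w hw)
      · obtain ⟨w, hw, rfl⟩ := Finset.mem_image.1 hv'
        obtain ⟨t, -, -, -, -, hF, Z, hZ1, hZ2, hZ3⟩ := hvw w hw
        refine ⟨Z, fun _ => ⟨⟨hF, hZ1, hZ2⟩, fun h' => absurd h' (hne w hw), ?_⟩⟩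
        intro w' hw' heq
        rw [← hinj w hw w' hw' heq]
        exact hZ3
    · exact ⟨⟨0, 0, 0⟩, fun h' => absurd h' hv⟩
  choose Z hZ using hZ
  have hm := master hc hζ q hN hzN (lam - 1) hg (insert v0 (S.image vw)) Z (fun v hv => (hZ v hv).1)
    (by
      intro v hv hgv hF z' hz' hs
      rcases lt_or_gt_of_ne hgv with hneg | hpos
      · -- a pole of `lam`
        exfalso
        have hl : v.ord lam < 0 := by
          have h1 := (Place.ord_add_of_lt (v := v) hg one_ne_zero (by rw [Place.ord_one]; exact hneg)).2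
          rw [sub_add_cancel] at h1
          rw [h1]
          exact hneg
        refine zl_pole hc hz e he v hl ?_ z' hz' hs
        rcases place_dich hM i v with h1 | ⟨w, e', h1⟩
        · exact Or.inl h1
        · refine Or.inr ⟨w, e', h1, ?_⟩
          by_cases h2 : w.ord (z.R 0) = 0
          · exact Or.inl h2
          · exact Or.inr (heT' (w.ord (z.R 0), w.ord (z.R 1))
              (Finset.mem_image_of_mem _ ((Set.Finite.mem_toFinset _).2 h2)))
      · rcases place_dich hM i v with h1 | ⟨w, e', h1⟩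
        · exact absurd (Finset.mem_insert.2 (Or.inl (hv0u v h1 hpos))) hv
        · have hl1 : Red v lam 1 := (LibCHd.red_iff_sub (LibCHd.red_one v)).2 (Or.inr hpos)
          have hRj : ∀ j, w.ord (z.R j) = 0 := by
            intro j
            have h2 := (hs.R j).ord_eq_zero (hz'.R0 j)
            have h3 : v.ord (lam ^ ((c.n : ℤ) * e j) * i (z.R j)) = 0 := h2
            rw [v.ord_mul _ _ (zpow_ne_zero _ hlam0)
              (fun h' => hz.R0 j ((map_eq_zero i).1 h')),
              (P7_zpow hl1 _).ord_eq_zero one_ne_zero, h1.ord, zero_add] at h3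
            rcases mul_eq_zero.1 h3 with h4 | h4
            · exact absurd h4 h1.pos.ne'
            · exact h4
          by_cases hw : w ∈ S
          · obtain ⟨-, g2, -, -, -, g6, -⟩ := hS1 w hw
            obtain ⟨d1, d2, -, d4, d5⟩ := hd w hw
            have hi := d4 e (heT _ (Finset.mem_image_of_mem _ hw))
            rcases zl_local hc hz e w hRj (lR c (Qw w 0)) g6 (π w) d1 (m w) g2 (f0 w) d2 hi h1 hpos
              hz' hs with h2 | ⟨-, t, l', ht, htr, -⟩
            · exact h2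
            · exfalso
              obtain ⟨t', k1, k2, k3, -⟩ := hvw w hw
              have hπ0 : π w ≠ 0 := by
                intro h'
                rw [h', w.ord_zero] at d1
                exact zero_ne_one d1
              have h3 := (gauss_unique hM (P7_aff h (π w) hπ0 (m w)) w h1 k1 t ht htr t' k2 k3).2
              exact hv (Finset.mem_insert.2 (Or.inr (Finset.mem_image.2 ⟨w, hw, h3.symm⟩)))
          · choose r hr using fun j => P7_res hM w (P7_reg (hRj j))
            obtain ⟨j, hj0, hj⟩ := hS2 w hw hRj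
            have h2 : ∀ j, z'.R j = algebraMap k (RF v) (r j) := by
              intro j
              have h3 : Red v (lam ^ ((c.n : ℤ) * e j) * i (z.R j))
                  (1 * algebraMap k (RF v) (r j)) :=
                (P7_zpow hl1 _).mul (h1.res _ _ (hr j))
              rw [one_mul] at h3
              exact (hs.R j).unique h3
            refine cst_of_crs hz' hc.two r h2 ⟨j, fun h' => ?_⟩
            have h3 := P7_crs (c := c) w z.R r hr j
            rw [h', map_zero, LibCHd.red_zero_iff] at h3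
            rcases h3 with h3 | h3
            · exact hj0 h3
            · linarith)
  have hnot : v0 ∉ S.image vw := by
    intro h'
    obtain ⟨w, hw, h''⟩ := Finset.mem_image.1 h'
    exact hne w hw h''
  rw [Finset.sum_insert hnot, Finset.sum_image (fun w hw w' hw' heq => hinj w hw w' hw' heq), hv01,
    one_smul, (hZ v0 (Finset.mem_insert_self _ _)).2.1 rfl] at hm
  rw [eq_neg_of_add_eq_zero_left hm]
  congr 1
  refine Finset.sum_congr rfl fun w hw => ?_
  obtain ⟨t, -, -, -, hord, -⟩ := hvw w hw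
  rw [hord, (hZ (vw w) (Finset.mem_insert.2 (Or.inr (Finset.mem_image_of_mem _ hw)))).2.2 w hw rfl,
    natCast_zsmul]

/-- every general Z-point is of this form -/
theorem path1_full [IsAlgClosed k] [CharZero k] {c : Dat k} (hc : c.Good) {ζ ν : k} (hζ : IsPrimitiveRoot ζ c.n)
    (hν : ν ^ c.n = ∏ i, (-(kb c i) / ka c i)) (q : CH c 3 1 →+ V) {M : Type} [Field M] [Algebra k M]
    (hM : FunF k 1 M) {z : Zp M} (hz : IsZ (c.over M) z) (h0 : ∃ j, crs (c.over M) z.R j ≠ 0) :
    ∃ (S : Finset (Place k M)) (m : Place k M → ℕ) (Qw : Place k M → Fin 2 → Option k),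
      (∀ w, w ∈ S ↔ (∀ j, w.ord (z.R j) = 0) ∧
        ∀ j, crs (c.over M) z.R j ≠ 0 → 0 < w.ord (crs (c.over M) z.R j)) ∧
      (∀ w ∈ S, 0 < m w ∧ (∀ j, crs (c.over M) z.R j ≠ 0 → (m w : ℤ) ≤ w.ord (crs (c.over M) z.R j)) ∧
        (∃ j, crs (c.over M) z.R j ≠ 0 ∧ w.ord (crs (c.over M) z.R j) = m w) ∧
        OnC c (Qw w 0) (Qw w 1) ∧ (∀ j, Red w (z.R j) (algebraMap k (RF w) (lR c (Qw w 0) j))) ∧
        ∃ x, Qw w 1 = some x ∧ x ≠ 0 ∧ Red w z.u (algebraMap k (RF w) (ν / x))) ∧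
      TZ c ζ q z = - ∑ w ∈ S, m w • Lval c ζ ν q (Qw w) := by
  obtain ⟨j0, hj0⟩ := h0
  have hn : 0 < c.n := lt_of_lt_of_le (by norm_num) hc.two
  let S : Finset (Place k M) := (fin_zero hM (crs (c.over M) z.R j0)).toFinset.filter fun w =>
    (∀ j, w.ord (z.R j) = 0) ∧ ∀ j, crs (c.over M) z.R j ≠ 0 → 0 < w.ord (crs (c.over M) z.R j)
  have hSmem : ∀ w, w ∈ S ↔ (∀ j, w.ord (z.R j) = 0) ∧
      ∀ j, crs (c.over M) z.R j ≠ 0 → 0 < w.ord (crs (c.over M) z.R j) := by
    intro w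
    constructor
    · intro h
      exact (Finset.mem_filter.1 h).2
    · intro h
      refine Finset.mem_filter.2 ⟨(Set.Finite.mem_toFinset _).2 ?_, h⟩
      exact (h.2 j0 hj0).ne'
  have hdat : ∀ w : Place k M, ∃ (m : ℕ) (Q : Fin 2 → Option k), w ∈ S →
      ((∀ j, w.ord (z.R j) = 0) ∧ 0 < m ∧
      (∀ j, crs (c.over M) z.R j ≠ 0 → (m : ℤ) ≤ w.ord (crs (c.over M) z.R j)) ∧
      (∃ j, crs (c.over M) z.R j ≠ 0 ∧ w.ord (crs (c.over M) z.R j) = m) ∧
      OnC c (Q 0) (Q 1) ∧ (∀ j, Red w (z.R j) (algebraMap k (RF w) (lR c (Q 0) j))) ∧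
      ∃ x, Q 1 = some x ∧ x ≠ 0 ∧ Red w z.u (algebraMap k (RF w) (ν / x))) := by
    intro w
    by_cases hw : w ∈ S
    · obtain ⟨hR, hcr⟩ := (hSmem w).1 hw
      obtain ⟨j1, hj1, hmin⟩ := Finset.exists_min_image
        (Finset.univ.filter fun j => crs (c.over M) z.R j ≠ 0)
        (fun j => w.ord (crs (c.over M) z.R j)) ⟨j0, by simp [hj0]⟩
      rw [Finset.mem_filter] at hj1
      have hpos := hcr j1 hj1.2
      have htn : (((w.ord (crs (c.over M) z.R j1)).toNat : ℕ) : ℤ) =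
          w.ord (crs (c.over M) z.R j1) := Int.toNat_of_nonneg hpos.le
      choose r hr using fun j => P7_res hM w (P7_reg (hR j))
      have hu0 : w.ord z.u = 0 := by
        have h1 := congrArg w.ord hz.un
        rw [Fin.prod_univ_three, w.ord_mul _ _ (mul_ne_zero (hz.R0 0) (hz.R0 1)) (hz.R0 2),
          w.ord_mul _ _ (hz.R0 0) (hz.R0 1), hR, hR, hR, Place.ord_pow] at h1
        have h2 : (c.n : ℤ) * w.ord z.u = 0 := h1
        rcases mul_eq_zero.1 h2 with h3 | h3
        · exact absurd h3 (by exact_mod_cast hn.ne')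
        · exact h3
      obtain ⟨u0, hu⟩ := P7_res hM w (P7_reg hu0)
      have hr0 : ∀ j, r j ≠ 0 := by
        intro j h'
        have h1 := hr j
        rw [h', map_zero, LibCHd.red_zero_iff] at h1
        rcases h1 with h1 | h1
        · exact hz.R0 j h1
        · rw [hR j] at h1
          exact lt_irrefl _ h1
      have hu00 : u0 ≠ 0 := by
        intro h'
        rw [h', map_zero, LibCHd.red_zero_iff] at hu
        rcases hu with h1 | h1
        · exact hz.u0 h1
        · rw [hu0] at h1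
          exact lt_irrefl _ h1
      have hun : u0 ^ c.n = ∏ j, r j := by
        have h1 := hu.pow c.n
        have h2 : Red w (∏ j, z.R j) (algebraMap k (RF w) (∏ j, r j)) := by
          rw [Fin.prod_univ_three, Fin.prod_univ_three, map_mul, map_mul]
          exact ((hr 0).mul (hr 1)).mul (hr 2)
        have h3 : z.u ^ c.n = ∏ j, z.R j := hz.un
        rw [h3] at h1
        exact P7_inj (w := w) (by rw [map_pow]; exact h1.unique h2)
      have hcr0 : ∀ j, crs c r j = 0 := by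
        intro j
        have h1 := P7_crs (c := c) w z.R r hr j
        refine P7_inj (w := w) (by
          rw [map_zero]
          refine h1.unique (LibCHd.red_zero_iff.2 ?_)
          by_cases h2 : crs (c.over M) z.R j = 0
          · exact Or.inl h2
          · exact Or.inr (hcr j h2))
      obtain ⟨x, v, hv0, hon, hRx, huv⟩ := crs_point hc ν (nu_ne hc hν) hν r u0 hr0 hu00 hun hcr0
      refine ⟨(w.ord (crs (c.over M) z.R j1)).toNat, ![x, some v], fun _ => ⟨hR, ?_, ?_, ?_, hon, ?_,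
        v, rfl, hv0, ?_⟩⟩
      · have : (0 : ℤ) < ((w.ord (crs (c.over M) z.R j1)).toNat : ℕ) := by
          rw [htn]; exact hpos
        exact_mod_cast this
      · intro j hj
        rw [htn]
        exact hmin j (by simp [hj])
      · exact ⟨j1, hj1.2, htn.symm⟩
      · intro j
        show Red w (z.R j) (algebraMap k (RF w) (lR c x j))
        rw [← hRx j]
        exact hr j
      · rw [← huv, mul_div_cancel_right₀ _ hv0]
        exact hu
    · exact ⟨0, fun _ => none, fun h' => absurd h' hw⟩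
  choose m Qw hmQ using hdat
  refine ⟨S, m, Qw, hSmem, fun w hw => (hmQ w hw).2, ?_⟩
  refine path1 hc hζ hν q hM hz ⟨j0, hj0⟩ S m Qw hmQ ?_
  intro w hw hR
  by_contra hcon
  push Not at hcon
  exact hw ((hSmem w).2 ⟨hR, hcon⟩)

/-- every general Z-point is of this form -/
theorem path1' [IsAlgClosed k] [CharZero k] {c : Dat k} (hc : c.Good) {ζ ν : k} (hζ : IsPrimitiveRoot ζ c.n)
    (hν : ν ^ c.n = ∏ i, (-(kb c i) / ka c i)) (q : CH c 3 1 →+ V) {M : Type} [Field M] [Algebra k M]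
    (hM : FunF k 1 M) {z : Zp M} (hz : IsZ (c.over M) z) (h0 : ∃ j, crs (c.over M) z.R j ≠ 0) :
    ∃ (S : Finset (Place k M)) (m : Place k M → ℤ) (Qw : Place k M → Fin 2 → Option k),
      (∀ w ∈ S, OnC c (Qw w 0) (Qw w 1)) ∧ TZ c ζ q z = ∑ w ∈ S, m w • Lval c ζ ν q (Qw w) := by
  obtain ⟨S, m, Qw, -, h2, h3⟩ := path1_full hc hζ hν q hM hz h0
  refine ⟨S, fun w => -(m w : ℤ), Qw, fun w hw => (h2 w hw).2.2.2.1, ?_⟩
  rw [h3, ← Finset.sum_neg_distrib]
  refine Finset.sum_congr rfl fun w _ => ?_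
  rw [neg_smul, natCast_zsmul]

end Pool.Agent.LibCW77
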