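import Pool.Agent.LibCW77.Defs3
import Pool.Agent.LibCW77.P7
import Pool.Agent.LibCW77.GS0
import Pool.Agent.LibCW77.GS1
import Pool.Agent.LibCW77.C1
import Pool.Agent.LibCW77.Defs4
import Pool.Agent.LibCHd.Api
/-!
[CW77 GS2] The class of the small diagonal. Let `M = k(x)` (`rat1_exists` for `k`), `z = ⟨(a_i - x)^3 / (b_i - x)^3, (b_i - x)^3, φ(x)⟩`: a Z-point (`lagrange` for `(t - x)^3`, or `zpt_lift`). `path1`: `crs` of `z.R` at `j` is `Hp(x) (b_j - x) ^ 3 / ∏ (b_i - x) ^ 3`
(the cross product of `(AAp_i)`, `(BBp_i)` is `Hp (1, 1, 1)`), not zero. `S` = the places (`place_line`) of the distinct `x₀` in `rts c` which are not among the `a_i`, `b_i`; `m w` = the multiplicity of `x₀` in `rts c` (order of `crs`: root multiplicity; at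
infinity `6 - natDegree`), `Qw = Qk c ν x₀`. So `TZ z = - ∑_(x ∈ rts) Lval (Qk x)` (for `x₀ = a_i` or `b_i` the point `Qk` is ramified: `z_k = b_i` resp. `a_i`, `Lval = 0`; unique `flex_unique`). For the generic point `P = (x, v)` of the curve, `N = k(C)`:
`zpt (P, P, P)` is the image of `z` under `M ≅ k(x) ⊂ N`, `finrank = c.n = 3` (`finrank_x`): `TZ_map`, `TZ_zpt`.
-/

open scoped Classical
open Polynomial

namespace Pool.Agent.LibCW77

open Pool.Agent.LibBH2
open Pool.Agent.LibCHd (VR RF Red FunF)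

variable {k : Type} [Field k]

theorem GS2_lin_ne {M : Type} [Field M] [Algebra k M] {x : M} (h : Rat1 (Algebra.ofId k M) x) (a : k) :
    algebraMap k M a - x ≠ 0 := by
  rw [sub_ne_zero]
  exact (rat1_ne h a).symm

theorem GS2_aeval_ne {M : Type} [Field M] [Algebra k M] {x : M} (h : Rat1 (Algebra.ofId k M) x) (p : k[X])
    (hp : p ≠ 0) : aeval x p ≠ 0 := h.tr p hp

/-- the Z-point of the diagonal -/
noncomputable def GS2_z (c : Dat k) {M : Type} [Field M] [Algebra k M] (x : M) : Zp M :=
  ⟨fun i => (algebraMap k M (c.a i) - x) ^ 3 / (algebraMap k M (c.b i) - x) ^ 3,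
    fun i => (algebraMap k M (c.b i) - x) ^ 3,
    (∏ i, (algebraMap k M (c.a i) - x)) / ∏ i, (algebraMap k M (c.b i) - x)⟩

theorem GS2_cA (c : Dat k) {M : Type} [Field M] [Algebra k M] (x : M) (i : Fin 3)
    (hb : algebraMap k M (c.b i) - x ≠ 0) :
    cA (c.over M) (GS2_z c x).R i = aeval x (AAp c i) / (algebraMap k M (c.b i) - x) ^ 3 := by
  have h1 : aeval x (AAp c i) = algebraMap k M (ka c i) * (algebraMap k M (c.a i) - x) ^ 3 +
      algebraMap k M (kb c i) * (algebraMap k M (c.b i) - x) ^ 3 := by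
    simp [AAp]
  unfold cA
  rw [ka_map, kb_map, h1]
  show algebraMap k M (ka c i) * ((algebraMap k M (c.a i) - x) ^ 3 / (algebraMap k M (c.b i) - x) ^ 3) + _ = _
  field_simp

theorem GS2_cB (c : Dat k) {M : Type} [Field M] [Algebra k M] (x : M) (i : Fin 3)
    (hb : algebraMap k M (c.b i) - x ≠ 0) :
    cB (c.over M) (GS2_z c x).R i = aeval x (BBp c i) / (algebraMap k M (c.b i) - x) ^ 3 := by
  have h1 : aeval x (BBp c i) =
      algebraMap k M (ka c i) * algebraMap k M (c.a i) * (algebraMap k M (c.a i) - x) ^ 3 +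
      algebraMap k M (kb c i) * algebraMap k M (c.b i) * (algebraMap k M (c.b i) - x) ^ 3 := by
    simp [BBp]
  unfold cB
  rw [ka_map, kb_map, h1]
  show algebraMap k M (ka c i) * algebraMap k M (c.a i) *
    ((algebraMap k M (c.a i) - x) ^ 3 / (algebraMap k M (c.b i) - x) ^ 3) +
    algebraMap k M (kb c i) * algebraMap k M (c.b i) = _
  field_simp

theorem GS2_cross {c : Dat k} (hc : c.Good) (j : Fin 3) :
    AAp c (j + 1) * BBp c (j + 2) - AAp c (j + 2) * BBp c (j + 1) = Hp c := by
  obtain ⟨h1, h2⟩ := sum_AAp hc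
  rw [Fin.sum_univ_three] at h1 h2
  unfold Hp
  fin_cases j
  · show AAp c 1 * BBp c 2 - AAp c 2 * BBp c 1 = _
    linear_combination AAp c 1 * h2 - BBp c 1 * h1
  · show AAp c 2 * BBp c 0 - AAp c 0 * BBp c 2 = _
    linear_combination BBp c 0 * h1 - AAp c 0 * h2
  · rfl

theorem GS2_crs {c : Dat k} (hc : c.Good) {M : Type} [Field M] [Algebra k M] (x : M)
    (hb : ∀ i, algebraMap k M (c.b i) - x ≠ 0) (j : Fin 3) :
    crs (c.over M) (GS2_z c x).R j = aeval x (Hp c) /
      ((algebraMap k M (c.b (j + 1)) - x) ^ 3 * (algebraMap k M (c.b (j + 2)) - x) ^ 3) := by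
  unfold crs
  rw [GS2_cA c x _ (hb _), GS2_cA c x _ (hb _), GS2_cB c x _ (hb _), GS2_cB c x _ (hb _),
    ← GS2_cross hc j, map_sub, map_mul, map_mul]
  have h1 := hb (j + 1)
  have h2 := hb (j + 2)
  field_simp

theorem GS2_isZ {c : Dat k} (hc : c.Good) (h3 : c.n = 3) {M : Type} [Field M] [Algebra k M] (x : M)
    (ha : ∀ i, algebraMap k M (c.a i) - x ≠ 0)
    (hb : ∀ i, algebraMap k M (c.b i) - x ≠ 0) : IsZ (c.over M) (GS2_z c x) := by
  obtain ⟨h1, h2⟩ := sum_AAp hc
  refine ⟨fun i => ?_, fun i => ?_, ?_, ?_, ?_, ?_⟩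
  · exact div_ne_zero (pow_ne_zero _ (ha i)) (pow_ne_zero _ (hb i))
  · exact pow_ne_zero _ (hb i)
  · exact div_ne_zero (Finset.prod_ne_zero_iff.2 fun i _ => ha i)
      (Finset.prod_ne_zero_iff.2 fun i _ => hb i)
  · show ((∏ i, (algebraMap k M (c.a i) - x)) / ∏ i, (algebraMap k M (c.b i) - x)) ^ c.n =
      ∏ i, ((algebraMap k M (c.a i) - x) ^ 3 / (algebraMap k M (c.b i) - x) ^ 3)
    rw [h3, div_pow, Finset.prod_div_distrib, Finset.prod_pow, Finset.prod_pow]
  · have h4 : ∀ i, cA (c.over M) (GS2_z c x).R i * (GS2_z c x).Y i = aeval x (AAp c i) := by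
      intro i
      rw [GS2_cA c x i (hb i)]
      exact div_mul_cancel₀ _ (pow_ne_zero _ (hb i))
    rw [Finset.sum_congr rfl fun i _ => h4 i, ← map_sum, h1, map_zero]
  · have h4 : ∀ i, cB (c.over M) (GS2_z c x).R i * (GS2_z c x).Y i = aeval x (BBp c i) := by
      intro i
      rw [GS2_cB c x i (hb i)]
      exact div_mul_cancel₀ _ (pow_ne_zero _ (hb i))
    rw [Finset.sum_congr rfl fun i _ => h4 i, ← map_sum, h2, map_zero]

theorem GS2_spo_unique {M : Type} [Field M] [Algebra k M] {w : Place k M} {x : M} {o o' : Option k}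
    (h : SpO w (some x) (o.map (algebraMap k (RF w)))) (h' : SpO w (some x) (o'.map (algebraMap k (RF w)))) :
    o = o' := by
  have key : ∀ y : k, w.ord x < 0 → Red w x (algebraMap k (RF w) y) → False := by
    intro y h1 h2
    rcases h2.reg with h3 | h3
    · rw [h3, w.ord_zero] at h1
      exact lt_irrefl _ h1
    · omega
  cases o with
  | none =>
    cases o' with
    | none => rfl
    | some y => exact (key y h h').elim
  | some y =>
    cases o' with
    | none => exact (key y h' h).elim
    | some y' =>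
      have h1 : Red w x (algebraMap k (RF w) y) := h
      have h2 : Red w x (algebraMap k (RF w) y') := h'
      rw [(algebraMap k (RF w)).injective (h1.unique h2)]

/-- the value of `(a - x) / (b - x)` -/
theorem GS2_ratio {M : Type} [Field M] [Algebra k M] {x : M} (h : Rat1 (Algebra.ofId k M) x)
    {w : Place k M} {o : Option k} (hsp : SpO w (some x) (o.map (algebraMap k (RF w)))) (a b : k)
    (hb : ev o b ≠ 0) :
    Red w ((algebraMap k M a - x) / (algebraMap k M b - x)) (algebraMap k (RF w) (ev o a / ev o b)) := by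
  cases o with
  | some x₀ =>
    have h1 : Red w x (algebraMap k (RF w) x₀) := hsp
    have h2 : ∀ y : k, Red w (algebraMap k M y - x) (algebraMap k (RF w) (ev (some x₀) y)) := by
      intro y
      show Red w (algebraMap k M y - x) (algebraMap k (RF w) (y - x₀))
      rw [map_sub]
      exact (Pool.Agent.LibCHd.red_const w y).sub h1
    rw [map_div₀]
    refine (h2 a).div (h2 b) ?_
    rw [Ne, map_eq_zero]
    exact hb
  | none =>
    have h1 : w.ord x < 0 := hsp
    have h2 := GS2_lin_ne h b
    have h3 : Red w (1 + (algebraMap k M a - algebraMap k M b) * (algebraMap k M b - x)⁻¹)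
        (1 + (algebraMap k (RF w) a - algebraMap k (RF w) b) * 0) := by
      refine (Pool.Agent.LibCHd.red_one w).add
        (((Pool.Agent.LibCHd.red_const w a).sub (Pool.Agent.LibCHd.red_const w b)).mul ?_)
      rw [Pool.Agent.LibCHd.red_zero_iff]
      refine Or.inr ?_
      rw [w.ord_inv]
      by_contra hcon
      push Not at hcon
      have h4 : w.Reg (algebraMap k M b - x) := Or.inr (by omega)
      have h5 : w.Reg x := by
        have := (w.reg_const b).sub h4
        rwa [sub_sub_cancel] at this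
      rcases h5 with h5 | h5
      · rw [h5, w.ord_zero] at h1
        exact lt_irrefl _ h1
      · omega
    have h4 : (algebraMap k M a - x) / (algebraMap k M b - x) =
        1 + (algebraMap k M a - algebraMap k M b) * (algebraMap k M b - x)⁻¹ := by
      field_simp
      ring
    rw [h4]
    have h5 : algebraMap k (RF w) (ev (none : Option k) a / ev (none : Option k) b) =
        1 + (algebraMap k (RF w) a - algebraMap k (RF w) b) * 0 := by
      simp [ev]
    rw [h5]
    exact h3

theorem GS2_count_some (c : Dat k) (x₀ : k) : (rts c).count (some x₀) = (Hp c).rootMultiplicity x₀ := by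
  unfold rts
  rw [Multiset.count_add, Multiset.count_map_eq_count' _ _ (Option.some_injective k), count_roots]
  simp [Multiset.count_replicate]

theorem GS2_count_none (c : Dat k) : (rts c).count none = 6 - (Hp c).natDegree := by
  unfold rts
  rw [Multiset.count_add]
  simp

/-- the order of the cross product -/
theorem GS2_ord_crs [CharZero k] {c : Dat k} (hc : c.Good) {M : Type} [Field M] [Algebra k M] {x : M}
    (h : Rat1 (Algebra.ofId k M) x) {w : Place k M} {o : Option k}
    (hsp : SpO w (some x) (o.map (algebraMap k (RF w))))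
    (ho1 : ∀ x₀, o = some x₀ → ∀ p : k[X], p ≠ 0 → w.ord (aeval x p) = p.rootMultiplicity x₀)
    (ho2 : o = none → ∀ p : k[X], p ≠ 0 → w.ord (aeval x p) = -(p.natDegree : ℤ))
    (hu : ∀ i, o ≠ some (c.b i)) (j : Fin 3) :
    crs (c.over M) (GS2_z c x).R j ≠ 0 ∧ w.ord (crs (c.over M) (GS2_z c x).R j) = (rts c).count o := by
  have hH := Hp_ne hc
  have hH' := GS2_aeval_ne h _ hH
  have hb : ∀ i, algebraMap k M (c.b i) - x ≠ 0 := fun i => GS2_lin_ne h _
  rw [GS2_crs hc x hb j]
  refine ⟨div_ne_zero hH' (mul_ne_zero (pow_ne_zero _ (hb _)) (pow_ne_zero _ (hb _))), ?_⟩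
  rw [w.ord_div _ _ hH' (mul_ne_zero (pow_ne_zero _ (hb _)) (pow_ne_zero _ (hb _))),
    w.ord_mul _ _ (pow_ne_zero _ (hb _)) (pow_ne_zero _ (hb _)), w.ord_pow, w.ord_pow]
  have hlin : ∀ y : k, aeval x (C y - X) = algebraMap k M y - x := by
    intro y
    simp
  have hlin0 : ∀ y : k, (C y - X : k[X]) ≠ 0 := by
    intro y h0
    have := congrArg (fun p : k[X] => p.coeff 1) h0
    simp at this
  have hlin1 : ∀ y : k, (C y - X : k[X]).natDegree = 1 := by
    intro y
    rw [← natDegree_neg, neg_sub]
    exact natDegree_X_sub_C y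
  cases o with
  | some x₀ =>
    have h1 : ∀ i, w.ord (algebraMap k M (c.b i) - x) = 0 := by
      intro i
      have h2 : Red w (algebraMap k M (c.b i) - x) (algebraMap k (RF w) (c.b i - x₀)) := by
        rw [map_sub]
        exact (Pool.Agent.LibCHd.red_const w _).sub hsp
      refine h2.ord_eq_zero ?_
      rw [Ne, map_eq_zero, sub_eq_zero]
      intro h3
      exact hu i (by rw [h3])
    rw [h1, h1, ho1 x₀ rfl _ hH, GS2_count_some]
    simp
  | none =>
    have h1 : ∀ i, w.ord (algebraMap k M (c.b i) - x) = -1 := by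
      intro i
      rw [← hlin, ho2 rfl _ (hlin0 _), hlin1]
      rfl
    rw [h1, h1, ho2 rfl _ hH, GS2_count_none]
    have := Hp_deg c
    push_cast [Nat.cast_sub this]
    ring

variable {V : Type} [AddCommGroup V] [Module ℚ V]

theorem GS2_Lval_ram {c : Dat k} {ζ ν : k} (q : CH c 3 1 →+ V) (o : Option k)
    (h : ¬ ∀ i, o ≠ some (c.a i) ∧ o ≠ some (c.b i)) : Lval c ζ ν q (Qk c ν o) = 0 := by
  apply Lval_ram
  show vk c ν o = none ∨ vk c ν o = some 0
  unfold vk
  push Not at h
  obtain ⟨i, hi⟩ := h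
  by_cases ha : ∏ i, ev o (c.a i) = 0
  · left
    rw [if_pos ha]
  · right
    rw [if_neg ha]
    have h1 : o ≠ some (c.a i) := by
      rintro rfl
      apply ha
      refine Finset.prod_eq_zero (Finset.mem_univ i) ?_
      show c.a i - c.a i = 0
      exact sub_self _
    have h2 := hi h1
    have h3 : ∏ i, ev o (c.b i) = 0 := by
      refine Finset.prod_eq_zero (Finset.mem_univ i) ?_
      rw [h2]
      exact sub_self _
    rw [h3, mul_zero, zero_div]

theorem TZ_diag [IsAlgClosed k] [CharZero k] {c : Dat k} (hc : c.Good) (h3 : c.n = 3) {ζ ν : k}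
    (hζ : IsPrimitiveRoot ζ c.n) (hν : ν ^ c.n = ∏ i, (-(kb c i) / ka c i)) (q : CH c 3 1 →+ V) {M : Type}
    [Field M] [Algebra k M] {x : M} (h : Rat1 (Algebra.ofId k M) x) :
    TZ c ζ q (⟨fun i => (algebraMap k M (c.a i) - x) ^ 3 / (algebraMap k M (c.b i) - x) ^ 3,
      fun i => (algebraMap k M (c.b i) - x) ^ 3,
      (∏ i, (algebraMap k M (c.a i) - x)) / ∏ i, (algebraMap k M (c.b i) - x)⟩ : Zp M) =
      - ((rts c).map fun o => Lval c ζ ν q (Qk c ν o)).sum := by
  change TZ c ζ q (GS2_z c x) = _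
  have hF0 : FunF k 0 k :=
    ⟨fun i => i.elim0, algebraicIndependent_empty_type, FiniteDimensional.right k _ k⟩
  have hF1 : FunF k 1 M := rat1_funF h hF0
  have ha : ∀ i, algebraMap k M (c.a i) - x ≠ 0 := fun i => GS2_lin_ne h _
  have hb : ∀ i, algebraMap k M (c.b i) - x ≠ 0 := fun i => GS2_lin_ne h _
  have hz := GS2_isZ hc h3 x ha hb
  have hν0 := nu_ne hc hν
  choose wp hw1 hw2 hw3 hw4 using place_line h
  choose pt hpt using line_place h
  have pt_wp : ∀ o, pt (wp o) = o := fun o => GS2_spo_unique (hpt (wp o)) (hw1 o)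
  have wp_pt : ∀ w, wp (pt w) = w := fun w => (hw4 (pt w) w (hpt w)).symm
  have hev : ∀ (o : Option k) (y : k), o ≠ some y → ev o y ≠ 0 := by
    intro o y hy
    cases o with
    | none => exact one_ne_zero
    | some x₀ =>
      show y - x₀ ≠ 0
      rw [sub_ne_zero]
      rintro rfl
      exact hy rfl
  set T : Finset (Option k) := (rts c).toFinset.filter fun o => ∀ i, o ≠ some (c.a i) ∧ o ≠ some (c.b i)
    with hT
  have h0 := path1 hc hζ hν q hF1 hz
    ⟨0, by
      rw [GS2_crs hc x hb 0]
      exact div_ne_zero (GS2_aeval_ne h _ (Hp_ne hc))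
        (mul_ne_zero (pow_ne_zero _ (hb _)) (pow_ne_zero _ (hb _)))⟩
    (T.image wp) (fun w => (rts c).count (pt w)) (fun w => Qk c ν (pt w)) ?_ ?_
  · rw [h0, Finset.sum_image (fun a _ b _ hab => by
      have := congrArg pt hab
      rwa [pt_wp, pt_wp] at this)]
    congr 1
    rw [Finset.sum_multiset_map_count]
    have h5 : ∑ o ∈ T, (rts c).count (pt (wp o)) • Lval c ζ ν q (Qk c ν (pt (wp o))) =
        ∑ o ∈ T, (rts c).count o • Lval c ζ ν q (Qk c ν o) :=
      Finset.sum_congr rfl fun o _ => by rw [pt_wp]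
    rw [h5]
    refine Finset.sum_subset (Finset.filter_subset _ _) fun o ho hoT => ?_
    rw [GS2_Lval_ram q o, smul_zero]
    intro h6
    exact hoT (Finset.mem_filter.2 ⟨ho, h6⟩)
  · intro w hw
    obtain ⟨o, hoT, rfl⟩ := Finset.mem_image.1 hw
    obtain ⟨ho1, ho2⟩ := Finset.mem_filter.1 hoT
    have ho3 : o ∈ rts c := Multiset.mem_toFinset.1 ho1
    simp only [pt_wp]
    have hua : ∀ i, ev o (c.a i) ≠ 0 := fun i => hev o _ (ho2 i).1
    have hub : ∀ i, ev o (c.b i) ≠ 0 := fun i => hev o _ (ho2 i).2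
    have hpa : ∏ i, ev o (c.a i) ≠ 0 := Finset.prod_ne_zero_iff.2 fun i _ => hua i
    have hpb : ∏ i, ev o (c.b i) ≠ 0 := Finset.prod_ne_zero_iff.2 fun i _ => hub i
    have hR : ∀ j, Red (wp o) ((GS2_z c x).R j)
        (algebraMap k (RF (wp o)) ((ev o (c.a j) / ev o (c.b j)) ^ 3)) := by
      intro j
      have h5 := (GS2_ratio h (hw1 o) (c.a j) (c.b j) (hub j)).pow 3
      rw [← map_pow, div_pow] at h5
      exact h5
    have hR0 : ∀ j, algebraMap k (RF (wp o)) ((ev o (c.a j) / ev o (c.b j)) ^ 3) ≠ 0 := by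
      intro j
      rw [Ne, map_eq_zero]
      exact pow_ne_zero _ (div_ne_zero (hua j) (hub j))
    have hcr := fun j => GS2_ord_crs hc h (hw1 o) (hw2 o) (hw3 o) (fun i => (ho2 i).2) j
    refine ⟨fun j => (hR j).ord_eq_zero (hR0 j), Multiset.count_pos.2 ho3,
      fun j _ => (hcr j).2.ge, ⟨0, (hcr 0).1, (hcr 0).2⟩, Qk_on hc hν h3 ho3, ?_, ?_⟩
    · intro j
      have hfl : Flex c o (zk c o) := by
        unfold zk
        have h6 := (flex_iff hc o).2 ho3
        rw [dif_pos h6]
        exact h6.choose_spec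
      have h6 := hfl j
      have hka := ka_ne hc j
      have hkb := kb_ne hc j
      have h7 : ev (zk c o) (c.a j) ≠ 0 := by
        intro h8
        rw [h8, mul_zero, mul_zero, zero_add] at h6
        have h9 : ev (zk c o) (c.b j) = 0 := by
          rcases mul_eq_zero.1 h6 with h9 | h9
          · exact (hkb h9).elim
          · exact (mul_eq_zero.1 h9).resolve_left (pow_ne_zero _ (hub j))
        cases hzk : zk c o with
        | none =>
          rw [hzk] at h8
          exact one_ne_zero h8
        | some y =>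
          rw [hzk] at h8 h9
          have h10 : c.a j - y = 0 := h8
          have h11 : c.b j - y = 0 := h9
          have h12 : c.a j = c.b j := by
            rw [sub_eq_zero.1 h10, sub_eq_zero.1 h11]
          have h13 : (Sum.inl j : Fin 3 ⊕ Fin 3) = Sum.inr j := hc.inj h12
          cases h13
      have h8 : (ev o (c.a j) / ev o (c.b j)) ^ 3 = lR c (Qk c ν o 0) j := by
        show _ = -(kb c j * ev (zk c o) (c.b j)) / (ka c j * ev (zk c o) (c.a j))
        rw [div_pow, div_eq_div_iff (pow_ne_zero _ (hub j)) (mul_ne_zero hka h7)]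
        linear_combination h6
      rw [← h8]
      exact hR j
    · refine ⟨ν * (∏ i, ev o (c.b i)) / ∏ i, ev o (c.a i), ?_, ?_, ?_⟩
      · show vk c ν o = _
        unfold vk
        rw [if_neg hpa]
      · exact div_ne_zero (mul_ne_zero hν0 hpb) hpa
      · have h6 : ν / (ν * (∏ i, ev o (c.b i)) / ∏ i, ev o (c.a i)) =
            ∏ i, (ev o (c.a i) / ev o (c.b i)) := by
          rw [Finset.prod_div_distrib]
          field_simp
        have h7 : (GS2_z c x).u = ∏ i, ((algebraMap k M (c.a i) - x) / (algebraMap k M (c.b i) - x)) := by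
          rw [Finset.prod_div_distrib]
          rfl
        rw [h6, h7, map_prod, Fin.prod_univ_three, Fin.prod_univ_three]
        exact ((GS2_ratio h (hw1 o) _ _ (hub 0)).mul (GS2_ratio h (hw1 o) _ _ (hub 1))).mul
          (GS2_ratio h (hw1 o) _ _ (hub 2))
  · intro w hw hRw
    have h5 : ∀ i, pt w ≠ some (c.a i) ∧ pt w ≠ some (c.b i) := by
      intro i
      have hRi := hRw i
      have hab : c.a i ≠ c.b i := by
        intro h12
        have h13 : (Sum.inl i : Fin 3 ⊕ Fin 3) = Sum.inr i := hc.inj h12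
        cases h13
      constructor
      · intro h6
        have h7 := (GS2_ratio h (hpt w) (c.a i) (c.b i) (by
          rw [h6]
          exact sub_ne_zero.2 hab.symm)).pow 3
        rw [← map_pow, h6] at h7
        have h8 : (ev (some (c.a i)) (c.a i) / ev (some (c.a i)) (c.b i)) ^ 3 = 0 := by
          have : ev (some (c.a i)) (c.a i) = 0 := sub_self _
          rw [this, zero_div]
          norm_num
        rw [h8, map_zero, Pool.Agent.LibCHd.red_zero_iff, div_pow] at h7
        rcases h7 with h7 | h7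
        · exact hz.R0 i h7
        · have h9 : w.ord ((GS2_z c x).R i) > 0 := h7
          omega
      · intro h6
        have h7 := (GS2_ratio h (hpt w) (c.b i) (c.a i) (by
          rw [h6]
          exact sub_ne_zero.2 hab)).pow 3
        rw [← map_pow, h6] at h7
        have h8 : (ev (some (c.b i)) (c.b i) / ev (some (c.b i)) (c.a i)) ^ 3 = 0 := by
          have : ev (some (c.b i)) (c.b i) = 0 := sub_self _
          rw [this, zero_div]
          norm_num
        have h10 : ((algebraMap k M (c.b i) - x) / (algebraMap k M (c.a i) - x)) ^ 3 =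
            ((GS2_z c x).R i)⁻¹ := by
          show _ = ((algebraMap k M (c.a i) - x) ^ 3 / (algebraMap k M (c.b i) - x) ^ 3)⁻¹
          rw [inv_div, div_pow]
        rw [h8, map_zero, Pool.Agent.LibCHd.red_zero_iff, h10] at h7
        rcases h7 with h7 | h7
        · exact inv_ne_zero (hz.R0 i) h7
        · rw [w.ord_inv] at h7
          omega
    have h6 : pt w ∉ rts c := by
      intro h7
      apply hw
      rw [← wp_pt w]
      exact Finset.mem_image_of_mem _ (Finset.mem_filter.2 ⟨Multiset.mem_toFinset.2 h7, h5⟩)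
    have h7 := GS2_ord_crs hc h (hw1 (pt w)) (hw2 (pt w)) (hw3 (pt w)) (fun i => (h5 i).2) 0
    rw [wp_pt] at h7
    refine ⟨0, h7.1, ?_⟩
    rw [h7.2, Multiset.count_eq_zero_of_notMem h6]
    simp

theorem mns_diag [IsAlgClosed k] [CharZero k] {c : Dat k} (hc : c.Good) (h3 : c.n = 3) {ζ ν : k}
    (hζ : IsPrimitiveRoot ζ c.n) (hν : ν ^ c.n = ∏ i, (-(kb c i) / ka c i)) (q : CH c 3 1 →+ V) {N : Type}
    [Field N] [Algebra k N] {x v : N} (h : GenC c x v) :
    q (mns c ζ (tri ![some x, some v] ![some x, some v] ![some x, some v])) =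
      -3 • ((rts c).map fun o => Lval c ζ ν q (Qk c ν o)).sum := by
  have hv0 := (genC_funF hc h).2
  set E : IntermediateField k N := IntermediateField.adjoin k {x} with hE
  set y : E := ⟨x, IntermediateField.mem_adjoin_simple_self k x⟩ with hy
  have hr : Rat1 (Algebra.ofId k E) y := by
    have htr : ∀ G : k[X], G ≠ 0 → aeval y G ≠ 0 := by
      intro G hG h0
      apply h.tr
      refine ⟨G, hG, ?_⟩
      have h1 := congrArg (E.val) h0
      rw [← aeval_algHom_apply, map_zero] at h1
      exact h1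
    refine ⟨htr, fun z => ?_⟩
    obtain ⟨P, Q, hPQ⟩ := (IntermediateField.mem_adjoin_simple_iff k (z : N)).1 z.2
    by_cases hQ : Q = 0
    · refine ⟨0, 1, one_ne_zero, ?_⟩
      rw [hQ, map_zero, div_zero] at hPQ
      apply Subtype.ext
      rw [hPQ]
      simp
    · refine ⟨P, Q, hQ, ?_⟩
      apply Subtype.ext
      rw [hPQ]
      have h1 : ∀ G : k[X], ((G.eval₂ ((Algebra.ofId k E : k →ₐ[k] E) : k →+* E) y : E) : N) = aeval x G := by
        intro G
        have h2 : G.eval₂ ((Algebra.ofId k E : k →ₐ[k] E) : k →+* E) y = aeval y G := rfl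
        rw [h2]
        exact (aeval_algHom_apply E.val y G).symm
      have h2 := h1 P
      have h4 := h1 Q
      push_cast
      rw [h2, h4]
  have hT := TZ_diag hc h3 hζ hν q hr
  have ha : ∀ i, algebraMap k E (c.a i) - y ≠ 0 := fun i => GS2_lin_ne hr _
  have hb : ∀ i, algebraMap k E (c.b i) - y ≠ 0 := fun i => GS2_lin_ne hr _
  have hz := GS2_isZ hc h3 y ha hb
  have hfr : E.val.fieldRange = E := by
    rw [IntermediateField.fieldRange_val]
  have hfin : Module.finrank E.val.fieldRange N = 3 := by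
    rw [hfr, hE, finrank_x hc h, h3]
  have h4 := TZ_map hc hζ q hz E.val (by rw [hfin]; norm_num)
  have hP : On (c.over N) (tri ![some x, some v] ![some x, some v] ![some x, some v]) := by
    intro j
    fin_cases j <;> exact h.on
  have hram : ¬ Ram (tri ![some x, some v] ![some x, some v] ![some x, some v]) := by
    rintro ⟨j, hj⟩
    have h5 : (tri ![some x, some v] ![some x, some v] ![some x, some v] : Pnt 3 N) j 1 = some v := by
      fin_cases j <;> rfl
    rw [h5] at hj
    rcases hj with hj | hj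
    · cases hj
    · exact hv0 (by simpa using hj)
  have h5 := TZ_zpt hc hζ q hP hram
  have ha' : ∀ i, algebraMap k N (c.a i) - x ≠ 0 := by
    intro i h6
    apply ha i
    apply Subtype.ext
    exact h6
  have hb' : ∀ i, algebraMap k N (c.b i) - x ≠ 0 := by
    intro i h6
    apply hb i
    apply Subtype.ext
    exact h6
  have hX : ∀ i, Xv (c.over N) (tri ![some x, some v] ![some x, some v] ![some x, some v]) i =
      (algebraMap k N (c.a i) - x) ^ 3 := by
    intro i
    unfold Xv
    rw [Fin.prod_univ_three]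
    show (algebraMap k N (c.a i) - x) * (algebraMap k N (c.a i) - x) * (algebraMap k N (c.a i) - x) = _
    ring
  have hY : ∀ i, Yv (c.over N) (tri ![some x, some v] ![some x, some v] ![some x, some v]) i =
      (algebraMap k N (c.b i) - x) ^ 3 := by
    intro i
    unfold Yv
    rw [Fin.prod_univ_three]
    show (algebraMap k N (c.b i) - x) * (algebraMap k N (c.b i) - x) * (algebraMap k N (c.b i) - x) = _
    ring
  have hu : v ^ 3 = (∏ i, (algebraMap k N (c.a i) - x)) / ∏ i, (algebraMap k N (c.b i) - x) := by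
    have h6 : v ^ c.n * ∏ i, (x - algebraMap k N (c.b i)) = ∏ i, (x - algebraMap k N (c.a i)) := h.on
    rw [h3, Fin.prod_univ_three, Fin.prod_univ_three] at h6
    rw [Fin.prod_univ_three, Fin.prod_univ_three, eq_div_iff (mul_ne_zero (mul_ne_zero (hb' 0) (hb' 1)) (hb' 2))]
    linear_combination -h6
  have h6 : zpt (c.over N) (tri ![some x, some v] ![some x, some v] ![some x, some v]) =
      (GS2_z c y).map E.val := by
    have e1 : ∀ z z' : Zp N, z.R = z'.R → z.Y = z'.Y → z.u = z'.u → z = z' := by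
      rintro ⟨_, _, _⟩ ⟨_, _, _⟩ h1 h2 h3
      simp only at h1 h2 h3
      rw [h1, h2, h3]
    apply e1
    · funext i
      show Xv _ _ i / Yv _ _ i = E.val ((algebraMap k E (c.a i) - y) ^ 3 / (algebraMap k E (c.b i) - y) ^ 3)
      rw [hX, hY, map_div₀, map_pow, map_pow]
      rfl
    · funext i
      show Yv _ _ i = E.val ((algebraMap k E (c.b i) - y) ^ 3)
      rw [hY, map_pow]
      rfl
    · show ∏ j, (tri ![some x, some v] ![some x, some v] ![some x, some v] j 1).getD 0 =
        E.val ((∏ i, (algebraMap k E (c.a i) - y)) / ∏ i, (algebraMap k E (c.b i) - y))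
      rw [Fin.prod_univ_three, map_div₀, map_prod, map_prod]
      have e2 : (tri ![some x, some v] ![some x, some v] ![some x, some v] 0 1).getD 0 *
        (tri ![some x, some v] ![some x, some v] ![some x, some v] 1 1).getD 0 *
        (tri ![some x, some v] ![some x, some v] ![some x, some v] 2 1).getD 0 = v * v * v := rfl
      rw [e2, show v * v * v = v ^ 3 by ring, hu]
      rfl
  rw [← h5, h6, h4, hfin]
  change TZ c ζ q (GS2_z c y) = _ at hT
  rw [hT, smul_neg, neg_smul]
  congr 1
  exact (natCast_zsmul _ 3).symm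

end Pool.Agent.LibCW77
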