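import Pool.Agent.LibCW77.Defs3
import Pool.Agent.LibCW77.C3
import Pool.Agent.LibCW77.D4
import Pool.Agent.LibCW77.D6
import Pool.Agent.LibCW77.Defs4
import Pool.Agent.LibCHd.A1
import Pool.Agent.LibCHd.Api
import Pool.Agent.LibCHd.B5
/-!
[CW77 GS3] The relations of the diagonals. Let `M = k(C)` with generic point `(x, v)`, `N` = function field of the surface (`surf`), with the second generic point `(y, w)`. Function
`g = (y - a_0)⁻¹ - (x - a_0)⁻¹` (`x` = image of `x` in `N`), point `u = pat α (y, w) (x, v)` of `C ^ m` over `N`. Places `p` of `N` with `p.ord g ≠ 0` at which the specialisation of `u` is not constant: then `(y, w)` or `(x, v)` is not constant at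
`p` (coordinates of `u`), so `p` is trivial on `k(x, v)` or on `k(y, w)` (a nonconstant specialisation of `x` is transcendental, so `p` is trivial on `k(x)` and on its algebraic extension). Trivial on `M = k(x, v)`: a place of
`N / M` (`place_up`, `place_down`): `g` vanishes: `y` specialises to `x`, `(y, w)` to `(x, ζ ^ i v)`: the `n` places `p_i` of `placeC` (over `M`), of order 1, residue field `M`: value `pat α (τ^i P) P`; `g` has a pole: `y` specialises to `a_0`: one place, order `- n`,
value `pat α e P`. (At `y = ∞`: `g = -(x - a_0)⁻¹ ≠ 0` has order 0.) Trivial on `k(y, w)`, not on `M`: `surf_sym`: `x` specialises to `a_0`: one place, order `- n`, value `pat α P e` up to the isomorphism `k(y, w) ≅ k(x, v)` (`cls_map`). `div_rel`.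
-/

open scoped Classical
open Polynomial

namespace Pool.Agent.LibCW77

open Pool.Agent.LibBH2
open Pool.Agent.LibCHd (VR RF Red FunF)

variable {k : Type} [Field k]

/-- the point of `C ^ m` with the components `A`, `B` and `e0` according to the pattern `α` -/
def pat (c : Dat k) {M : Type} [Field M] [Algebra k M] {m : ℕ} (α : Fin m → Fin 3) (A B : Fin 2 → Option M) :
    Pnt m M := fun j => (![A, B, e0 c M] : Fin 3 → Fin 2 → Option M) (α j)

section aux

open Pool.Agent.LibCHd

/-- the residue embedding of a field on which the place is trivial -/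
private theorem GS3_eps {M N : Type} [Field M] [Algebra k M] [Field N] [Algebra k N] (i : M →ₐ[k] N)
    (v : Place k N) (h : ∀ z, v.ord (i z) = 0) : ∃ ε : M →ₐ[k] RF v, ∀ z, Red v (i z) (ε z) := by
  have hr : ∀ z, v.Reg (i z) := fun z => Or.inr (by rw [h])
  choose f hf using fun z => exists_red (hr z)
  refine ⟨{ toFun := f
            map_one' := ?_
            map_mul' := ?_
            map_zero' := ?_
            map_add' := ?_
            commutes' := ?_ }, hf⟩
  · exact (hf 1).unique (by rw [map_one]; exact red_one v)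
  · intro a b
    exact (hf (a * b)).unique (by rw [map_mul]; exact (hf a).mul (hf b))
  · exact (hf 0).unique (by rw [map_zero]; exact red_zero v)
  · intro a b
    exact (hf (a + b)).unique (by rw [map_add]; exact (hf a).add (hf b))
  · intro c
    exact (hf _).unique (by rw [AlgHom.commutes]; exact red_const v c)

private theorem GS3_red_aeval {N : Type} [Field N] [Algebra k N] {v : Place k N} {t : N} {t₀ : RF v}
    (h : Red v t t₀) (p : k[X]) : Red v (aeval t p) (aeval t₀ p) := by
  induction p using Polynomial.induction_on' with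
  | add p q hp hq => rw [map_add, map_add]; exact hp.add hq
  | monomial n a =>
    rw [aeval_monomial, aeval_monomial]
    exact (red_const v a).mul (h.pow n)

/-- a place at which some element of `M` has a transcendental residue is trivial on `M` -/
private theorem GS3_triv {M N : Type} [Field M] [Algebra k M] [Field N] [Algebra k N] (hM : FunF k 1 M)
    (i : M →ₐ[k] N) (v : Place k N) (t : M) {t₀ : RF v} (ht : Red v (i t) t₀) (htr : Transcendental k t₀) :
    ∀ z, v.ord (i z) = 0 := by
  intro z
  refine ord_triv_of_indep (ι := PUnit) (by rw [hM.trdeg]; simp) i v (fun _ => t) (fun F hF => ?_) z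
  have e : MvPolynomial.aeval (fun _ : PUnit => t) F =
      Polynomial.aeval t (MvPolynomial.uniqueAlgEquiv k PUnit F) := by
    have : (MvPolynomial.aeval (fun _ : PUnit => t) : MvPolynomial PUnit k →ₐ[k] M) =
        (Polynomial.aeval t).comp (MvPolynomial.uniqueAlgEquiv k PUnit).toAlgHom := by
      apply MvPolynomial.algHom_ext
      intro i
      simp
    rw [this]; rfl
  have hG : MvPolynomial.uniqueAlgEquiv k PUnit F ≠ 0 :=
    (map_ne_zero_iff _ (MvPolynomial.uniqueAlgEquiv k PUnit).injective).2 hF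
  rw [e, ← Polynomial.aeval_algHom_apply]
  have h1 := GS3_red_aeval ht (MvPolynomial.uniqueAlgEquiv k PUnit F)
  have h2 : aeval t₀ (MvPolynomial.uniqueAlgEquiv k PUnit F) ≠ 0 := fun h0 =>
    htr ⟨_, hG, h0⟩
  exact ⟨h1.ord_eq_zero h2, h1.ne_zero h2⟩

private theorem GS3_good {c : Dat k} (hc : c.Good) (M : Type) [Field M] [Algebra k M] : (c.over M).Good := by
  refine ⟨hc.two, ?_⟩
  have h : (Sum.elim (c.over M).a (c.over M).b) = fun s => algebraMap k M (Sum.elim c.a c.b s) := by
    funext s
    cases s <;> rfl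
  rw [h]
  exact (algebraMap k M).injective.comp hc.inj

private theorem GS3_over {c : Dat k} {M N : Type} [Field M] [Algebra k M] [Field N] [Algebra k N] [Algebra M N]
    [IsScalarTower k M N] : (c.over M).over N = c.over N := by
  simp only [Dat.over, Dat.map, ← IsScalarTower.algebraMap_apply]

/-- places of `N` over `M` and over `k`: specialisations to the points over `M` -/
private theorem GS3_sp {M N : Type} [Field M] [Algebra k M] [Field N] [Algebra k N] [Algebra M N]
    [IsScalarTower k M N] (v' : Place M N) (v : Place k N) (h : ∀ z, v'.ord z = v.ord z) (ε : M →ₐ[k] RF v)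
    (hε : ∀ z, Red v (algebraMap M N z) (ε z)) (f : N) (o : Option M) :
    SpO v' (some f) (o.map (algebraMap M (RF v'))) ↔ SpO v (some f) (o.map ε) := by
  have hz : ∀ f, v'.Zer f ↔ v.Zer f := fun f => by simp only [Place.Zer, h]
  cases o with
  | none =>
    show v'.ord f < 0 ↔ v.ord f < 0
    rw [h]
  | some z =>
    show Red v' f (algebraMap M (RF v') z) ↔ Red v f (ε z)
    rw [red_iff_val, hz, red_iff_sub (hε z)]

/-- the place of a point of the curve over `M` -/
private theorem GS3_place [CharZero k] {c : Dat k} (hc : c.Good) {ζ : k} (hζ : IsPrimitiveRoot ζ c.n)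
    {M : Type} [Field M] [Algebra k M] {N : Type} [Field N] [Algebra k N] [Algebra M N]
    [IsScalarTower k M N] {y w : N} (h : GenC (c.over M) y w) (Q : Fin 2 → Option M)
    (hQ : OnC (c.over M) (Q 0) (Q 1)) :
    ∃ (p : Place k N) (ε : M →ₐ[k] RF p), Function.Surjective ε ∧
      (∀ z, Red p (algebraMap M N z) (ε z)) ∧ (∀ z, p.ord (algebraMap M N z) = 0) ∧
      SpO p (some y) ((Q 0).map ε) ∧ SpO p (some w) ((Q 1).map ε) ∧
      (∀ x₀ v₀, Q 0 = some x₀ → Q 1 = some v₀ → v₀ ≠ 0 → p.ord (y - algebraMap M N x₀) = 1) ∧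
      (∀ i, Q 0 = some (algebraMap k M (c.a i)) → p.ord (y - algebraMap k N (c.a i)) = c.n) ∧
      ∀ (p' : Place k N) (ε' : M →ₐ[k] RF p'), (∀ z, p'.ord (algebraMap M N z) = 0) →
        (∀ z, Red p' (algebraMap M N z) (ε' z)) → SpO p' (some y) ((Q 0).map ε') →
        SpO p' (some w) ((Q 1).map ε') → p' = p := by
  have : CharZero M := charZero_of_injective_algebraMap (algebraMap k M).injective
  have hζM : IsPrimitiveRoot (algebraMap k M ζ) (c.over M).n :=
    hζ.map_of_injective (algebraMap k M).injective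
  obtain ⟨w₀, ⟨h1, h2⟩, hs, ho, -, ha, -, hu⟩ := placeC (GS3_good hc M) hζM h Q hQ
  obtain ⟨p, hp⟩ := place_down (k := k) w₀
  have htr : ∀ z, p.ord (algebraMap M N z) = 0 := by
    intro z
    rw [← hp]
    by_cases hz : z = 0
    · rw [hz, map_zero, w₀.ord_zero]
    · exact w₀.ord_const z hz
  obtain ⟨ε, hε⟩ := GS3_eps (IsScalarTower.toAlgHom k M N) p htr
  have hε' : ∀ z, Red p (algebraMap M N z) (ε z) := hε
  have hp' : ∀ z, w₀.ord z = p.ord z := hp
  refine ⟨p, ε, ?_, hε', htr, (GS3_sp w₀ p hp' ε hε' _ _).1 h1, (GS3_sp w₀ p hp' ε hε' _ _).1 h2, ?_, ?_, ?_⟩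
  · intro d
    obtain ⟨f, hf⟩ := exists_rep d
    have hr : w₀.Reg f := by
      rcases hf.reg with h0 | h0
      · exact Or.inl h0
      · exact Or.inr (by rw [hp']; exact h0)
    obtain ⟨d', hd'⟩ := exists_red hr
    obtain ⟨z, hz⟩ := hs d'
    refine ⟨z, ?_⟩
    rw [← hz] at hd'
    have h3 := (GS3_sp w₀ p hp' ε hε' f (some z)).1 hd'
    exact Red.unique h3 hf
  · intro x₀ v₀ h3 h4 h5
    rw [← hp]
    exact ho x₀ v₀ h3 h4 h5
  · intro i h3
    rw [← hp, IsScalarTower.algebraMap_apply k M N]
    exact (ha i h3).1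
  · intro p' ε' h3 h4 h5 h6
    obtain ⟨v', hv'⟩ := place_up (M := M) p' h3
    have h7 := hu v' ((GS3_sp v' p' hv' ε' h4 _ _).2 h5) ((GS3_sp v' p' hv' ε' h4 _ _).2 h6)
    apply Place.ext'
    intro z
    rw [← hv', h7, hp]

/-- the places trivial on `M` at which the function has a zero or a pole -/
private theorem GS3_cases [CharZero k] {c : Dat k} (hc : c.Good) {ζ : k} (hζ : IsPrimitiveRoot ζ c.n)
    {M : Type} [Field M] [Algebra k M] {x v : M} (hM : GenC c x v) {N : Type} [Field N] [Algebra k N]
    [Algebra M N] [IsScalarTower k M N] {y w : N} (h : GenC (c.over M) y w) (p : Place k N)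
    (ht : ∀ z, p.ord (algebraMap M N z) = 0)
    (hg : p.ord ((y - algebraMap k N (c.a 0))⁻¹ - (algebraMap M N x - algebraMap k N (c.a 0))⁻¹) ≠ 0) :
    ∃ ε : M →ₐ[k] RF p, (∀ z, Red p (algebraMap M N z) (ε z)) ∧
    ((∃ i < c.n, SpO p (some y) (some (ε x)) ∧ SpO p (some w) (some (ε (algebraMap k M (ζ ^ i) * v)))) ∨
      (SpO p (some y) (some (ε (algebraMap k M (c.a 0)))) ∧ SpO p (some w) (some (ε 0)))) := by
  obtain ⟨ε, hε⟩ := GS3_eps (IsScalarTower.toAlgHom k M N) p ht
  replace hε : ∀ z, Red p (algebraMap M N z) (ε z) := hε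
  refine ⟨ε, hε, ?_⟩
  have hv0 : v ≠ 0 := (genC_funF hc hM).2
  -- the specialisation of the point
  have hon : On (c.over N) (fun _ : Fin 1 => (![some y, some w] : Fin 2 → Option N)) := by
    intro j
    have h1 := h.on
    rw [GS3_over] at h1
    exact h1
  obtain ⟨q, hq⟩ := spP_exists p (fun _ : Fin 1 => (![some y, some w] : Fin 2 → Option N))
  have hq0 : SpO p (some y) (q 0 0) := hq 0 0
  have hq1 : SpO p (some w) (q 0 1) := hq 0 1
  have hqon : OnC (c.over (RF p)) (q 0 0) (q 0 1) := on_sp hc hon hq 0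
  have hne : ∀ a : k, x ≠ algebraMap k M a := by
    intro a ha
    apply hM.tr
    rw [ha]
    exact isAlgebraic_algebraMap a
  have hεa : ∀ a : k, ε (algebraMap k M a) = algebraMap k (RF p) a := fun a => ε.commutes a
  have hyM : ∀ a : M, y ≠ algebraMap M N a := by
    intro a ha
    apply h.tr
    rw [ha]
    exact isAlgebraic_algebraMap a
  have hxa : algebraMap M N x - algebraMap k N (c.a 0) = algebraMap M N (x - algebraMap k M (c.a 0)) := by
    rw [map_sub, ← IsScalarTower.algebraMap_apply]
  have hxa0 : algebraMap M N x - algebraMap k N (c.a 0) ≠ 0 := by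
    rw [hxa]
    intro h0
    have h1 : x - algebraMap k M (c.a 0) = 0 := (map_eq_zero_iff _ (algebraMap M N).injective).1 h0
    exact hne _ (sub_eq_zero.1 h1)
  have hxo : p.ord (algebraMap M N x - algebraMap k N (c.a 0)) = 0 := by
    rw [hxa]; exact ht _
  have hya0 : y - algebraMap k N (c.a 0) ≠ 0 := by
    rw [IsScalarTower.algebraMap_apply k M N]
    exact sub_ne_zero.2 (hyM _)
  rcases lt_trichotomy (p.ord (y - algebraMap k N (c.a 0))) 0 with hlt | heq | hgt
  · exfalso
    apply hg
    have h1 := (Place.ord_add_of_lt (v := p) (f := -(algebraMap M N x - algebraMap k N (c.a 0))⁻¹)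
      (g := (y - algebraMap k N (c.a 0))⁻¹) (neg_ne_zero.2 (inv_ne_zero hxa0)) (inv_ne_zero hya0)
      (by rw [Place.ord_neg, Place.ord_inv, Place.ord_inv, hxo]; omega)).2
    rw [Place.ord_neg, Place.ord_inv, hxo] at h1
    rw [sub_eq_add_neg, add_comm, h1]
    rfl
  · left
    have hyx : algebraMap M N x - y ≠ 0 := sub_ne_zero.2 fun h0 => hyM _ h0.symm
    have hge : (y - algebraMap k N (c.a 0))⁻¹ - (algebraMap M N x - algebraMap k N (c.a 0))⁻¹ =
        (algebraMap M N x - y) / ((y - algebraMap k N (c.a 0)) * (algebraMap M N x - algebraMap k N (c.a 0))) := by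
      field_simp
      ring
    rw [hge, Place.ord_div _ _ _ hyx (mul_ne_zero hya0 hxa0), Place.ord_mul _ _ _ hya0 hxa0, heq, hxo] at hg
    have hreg : p.Reg (algebraMap M N x - y) := by
      have h1 : p.Reg (algebraMap M N x - algebraMap k N (c.a 0)) := Or.inr hxo.ge
      have h2 : p.Reg (y - algebraMap k N (c.a 0)) := Or.inr heq.ge
      have h3 := h1.sub h2
      rwa [sub_sub_sub_cancel_right] at h3
    have hz : p.Zer (y - algebraMap M N x) := by
      have h1 : p.Zer (algebraMap M N x - y) := by
        rcases hreg with h1 | h1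
        · exact Or.inl h1
        · exact Or.inr (by omega)
      have h2 := h1.neg
      rwa [neg_sub] at h2
    have hyx' : SpO p (some y) (some (ε x)) := (red_iff_sub (hε x)).2 hz
    have h00 : q 0 0 = some (ε x) := spO_unique hq0 hyx'
    rw [h00] at hqon
    have hpb : ∏ i, (ε x - (c.over (RF p)).b i) ≠ 0 := by
      rw [Finset.prod_ne_zero_iff]
      intro i _ h0
      have h1 : ε x = ε (algebraMap k M (c.b i)) := by
        rw [hεa]; exact sub_eq_zero.1 h0
      exact hne _ (ε.toRingHom.injective h1)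
    rcases h01 : q 0 1 with _ | w₀
    · rw [h01] at hqon
      exfalso
      obtain ⟨i, hi⟩ := hqon
      apply hpb
      exact Finset.prod_eq_zero (Finset.mem_univ i) (sub_eq_zero.2 hi)
    · rw [h01] at hqon hq1
      have h1 : w₀ ^ c.n * ∏ i, (ε x - (c.over (RF p)).b i) = ∏ i, (ε x - (c.over (RF p)).a i) := hqon
      have h2 : v ^ c.n * ∏ i, (x - (c.over M).b i) = ∏ i, (x - (c.over M).a i) := hM.on
      have h3 := congrArg ε h2
      rw [map_mul, map_pow, map_prod, map_prod] at h3
      have h4 : (ε v) ^ c.n * ∏ i, (ε x - (c.over (RF p)).b i) = ∏ i, (ε x - (c.over (RF p)).a i) := by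
        have e1 : ∀ i, ε (x - (c.over M).b i) = ε x - (c.over (RF p)).b i := by
          intro i
          rw [map_sub]
          congr 1
          exact hεa _
        have e2 : ∀ i, ε (x - (c.over M).a i) = ε x - (c.over (RF p)).a i := by
          intro i
          rw [map_sub]
          congr 1
          exact hεa _
        simp only [e1, e2] at h3
        exact h3
      have h5 : w₀ ^ c.n = (ε v) ^ c.n := mul_right_cancel₀ hpb (h1.trans h4.symm)
      have hεv : ε v ≠ 0 := (map_ne_zero_iff _ ε.toRingHom.injective).2 hv0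
      have h6 : (w₀ / ε v) ^ c.n = 1 := by
        rw [div_pow, h5, div_self (pow_ne_zero _ hεv)]
      have : NeZero c.n := ⟨by have := hc.two; omega⟩
      obtain ⟨i, hi, hi'⟩ := (hζ.map_of_injective (algebraMap k (RF p)).injective).eq_pow_of_pow_eq_one h6
      refine ⟨i, hi, hyx', ?_⟩
      have h7 : ε (algebraMap k M (ζ ^ i) * v) = w₀ := by
        rw [map_mul, hεa, map_pow, hi', div_mul_cancel₀ _ hεv]
      rw [h7]
      exact hq1
  · right
    have hz : p.Zer (y - algebraMap M N (algebraMap k M (c.a 0))) := by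
      rw [← IsScalarTower.algebraMap_apply]
      exact Or.inr hgt
    have hya : SpO p (some y) (some (ε (algebraMap k M (c.a 0)))) := (red_iff_sub (hε _)).2 hz
    refine ⟨hya, ?_⟩
    have h00 : q 0 0 = some (ε (algebraMap k M (c.a 0))) := spO_unique hq0 hya
    rw [h00, hεa] at hqon
    have hab : ∀ i, algebraMap k (RF p) (c.a 0) ≠ algebraMap k (RF p) (c.b i) := by
      intro i h0
      have h1 := (algebraMap k (RF p)).injective h0
      have h2 : Sum.elim c.a c.b (Sum.inl 0) = Sum.elim c.a c.b (Sum.inr i) := h1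
      exact Sum.inl_ne_inr (hc.inj h2)
    rcases h01 : q 0 1 with _ | w₀
    · rw [h01] at hqon
      exfalso
      obtain ⟨i, hi⟩ := hqon
      exact hab i hi
    · rw [h01] at hqon hq1
      have h1 : w₀ ^ c.n * ∏ i, (algebraMap k (RF p) (c.a 0) - (c.over (RF p)).b i) =
        ∏ i, (algebraMap k (RF p) (c.a 0) - (c.over (RF p)).a i) := hqon
      have h2 : ∏ i, (algebraMap k (RF p) (c.a 0) - (c.over (RF p)).a i) = 0 :=
        Finset.prod_eq_zero (Finset.mem_univ 0) (sub_self _)
      have h3 : ∏ i, (algebraMap k (RF p) (c.a 0) - (c.over (RF p)).b i) ≠ 0 := by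
        rw [Finset.prod_ne_zero_iff]
        intro i _ h0
        exact hab i (sub_eq_zero.1 h0)
      rw [h2] at h1
      have h4 : w₀ = 0 := eq_zero_of_pow_eq_zero ((mul_eq_zero.1 h1).resolve_right h3)
      rw [map_zero, ← h4]
      exact hq1

private theorem GS3_mpP (c : Dat k) {M M' : Type} [Field M] [Algebra k M] [Field M'] [Algebra k M']
    (σ : M →ₐ[k] M') {m : ℕ} (α : Fin m → Fin 3) (A B : Fin 2 → Option M) :
    mpP σ (pat c α A B) = pat c α (fun i => (A i).map σ) (fun i => (B i).map σ) := by
  funext j i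
  unfold mpP pat
  generalize α j = a
  fin_cases a
  · rfl
  · rfl
  · fin_cases i
    · show (some (algebraMap k M (c.a 0))).map σ = some (algebraMap k M' (c.a 0))
      rw [Option.map_some, AlgHom.commutes]
    · show (some (0 : M)).map σ = some 0
      rw [Option.map_some, map_zero]

private theorem GS3_spP (c : Dat k) {N : Type} [Field N] [Algebra k N] (p : Place k N)
    {m : ℕ} (α : Fin m → Fin 3) {A B : Fin 2 → Option N} {A' B' : Fin 2 → Option (RF p)}
    (hA : ∀ i, SpO p (A i) (A' i)) (hB : ∀ i, SpO p (B i) (B' i)) :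
    SpP p (pat c α A B) (pat c α A' B') := by
  intro j i
  unfold pat
  generalize α j = a
  fin_cases a
  · exact hA i
  · exact hB i
  · fin_cases i
    · exact red_const p (c.a 0)
    · exact red_zero p

private theorem GS3_cls (c : Dat k) {M M' : Type} [Field M] [Algebra k M] [Field M'] [Algebra k M']
    (σ : M →ₐ[k] M') (hσ : Function.Surjective σ) {m : ℕ} (u : Pnt m M) :
    cls c 1 (mpP σ u) = cls c 1 u := by
  rw [cls_map]
  have h1 : σ.fieldRange = ⊤ := AlgHom.fieldRange_eq_top.2 hσ
  rw [h1, IntermediateField.finrank_top, Nat.cast_one, one_smul]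

private theorem GS3_sym [CharZero k] {c : Dat k} (hc : c.Good) {M : Type} [Field M] [Algebra k M] {x v : M}
    (h : GenC c x v) {N : Type} [Field N] [Algebra k N] [Algebra M N] [IsScalarTower k M N] {y w : N}
    (h' : GenC (c.over M) y w) :
    ∃ (M' : Type) (_ : Field M') (_ : Algebra k M') (_ : Algebra M' N) (_ : IsScalarTower k M' N) (Y W : M'),
      GenC (c.over M') (algebraMap M N x) (algebraMap M N v) ∧ GenC c Y W ∧ algebraMap M' N Y = y ∧
      algebraMap M' N W = w := by
  obtain ⟨h1, h2⟩ := surf_sym hc h h'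
  exact ⟨(IntermediateField.adjoin k {y, w} : IntermediateField k N), inferInstance, inferInstance,
    inferInstance, inferInstance, _, _, h1, h2, rfl, rfl⟩

private theorem GS3_congr {M N : Type} [Field M] [Algebra k M] [Field N] [Algebra k N] (hM : FunF k 1 M)
    (ε : M →ₐ[k] N) (hε : Function.Surjective ε) : FunF k 1 N :=
  FunF.congr (AlgEquiv.ofBijective ε ⟨ε.toRingHom.injective, hε⟩) hM

/-- order of the function at its poles -/
private theorem GS3_pole {N : Type} [Field N] [Algebra k N] (p : Place k N) {f g : N} {n : ℕ} (hn : 0 < n)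
    (hf : p.ord f = n) (hg0 : g ≠ 0) (hg : p.ord g = 0) : p.ord (f⁻¹ - g⁻¹) = -n := by
  have hf0 : f ≠ 0 := by
    rintro rfl
    rw [p.ord_zero] at hf
    omega
  have h1 := (Place.ord_add_of_lt (v := p) (f := f⁻¹) (g := -g⁻¹) (inv_ne_zero hf0)
    (neg_ne_zero.2 (inv_ne_zero hg0)) (by rw [Place.ord_neg, Place.ord_inv, Place.ord_inv, hf, hg]; omega)).2
  rw [sub_eq_add_neg, h1, Place.ord_inv, hf]

end aux

theorem diag_rel [IsAlgClosed k] [CharZero k] {c : Dat k} (hc : c.Good) {ζ : k} (hζ : IsPrimitiveRoot ζ c.n)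
    {M : Type} [Field M] [Algebra k M] {x v : M} (h : GenC c x v) {m : ℕ} (α : Fin m → Fin 3) :
    ∑ i ∈ Finset.range c.n, cls c 1 (pat c α (tau (ζ ^ i) ![some x, some v]) ![some x, some v]) =
      c.n • cls c 1 (pat c α (e0 c M) ![some x, some v]) + c.n • cls c 1 (pat c α ![some x, some v] (e0 c M)) := by
  have hn : 0 < c.n := by have := hc.two; omega
  obtain ⟨N, iN1, iN2, iN3, iN4, y, w, h', hN⟩ := surf hc h
  obtain ⟨M', iM1, iM2, iM3, iM4, Y, W, h1', h2', hY, hW⟩ := GS3_sym hc h h'
  obtain ⟨hFM, hv0⟩ := genC_funF hc h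
  have hFM' := (genC_funF hc h2').1
  have he0 : ∀ (M : Type) [Field M] [Algebra k M], OnC (c.over M) (e0 c M 0) (e0 c M 1) := by
    intro M _ _
    show (0 : M) ^ c.n * ∏ i, (algebraMap k M (c.a 0) - (c.over M).b i) =
      ∏ i, (algebraMap k M (c.a 0) - (c.over M).a i)
    rw [zero_pow hn.ne', zero_mul]
    exact (Finset.prod_eq_zero (Finset.mem_univ 0) (sub_self _)).symm
  have hQi : ∀ i : ℕ, OnC (c.over M) (tau (ζ ^ i) ![some x, some v] 0) (tau (ζ ^ i) ![some x, some v] 1) := by
    intro i
    have h1 : v ^ c.n * ∏ i, (x - (c.over M).b i) = ∏ i, (x - (c.over M).a i) := h.on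
    show (algebraMap k M (ζ ^ i) * v) ^ c.n * ∏ i, (x - (c.over M).b i) = ∏ i, (x - (c.over M).a i)
    rw [mul_pow, ← map_pow, ← pow_mul, mul_comm i, pow_mul, hζ.pow_eq_one, one_pow, map_one, one_mul]
    exact h1
  choose p ε hsur hred htr hy hw hord hordr huniq using
    fun i : ℕ => GS3_place hc hζ h' (tau (ζ ^ i) ![some x, some v]) (hQi i)
  obtain ⟨P1, ε1, hs1, hr1, ht1, hy1, hw1, -, ho1, hu1⟩ := GS3_place hc hζ h' (e0 c M) (he0 M)
  obtain ⟨P2, ε2, hs2, hr2, ht2, hx2, hv2, -, ho2, hu2⟩ := GS3_place hc hζ h1' (e0 c M') (he0 M')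
  -- basic facts
  have hxk : ∀ a : k, x ≠ algebraMap k M a := by
    intro a ha
    apply h.tr
    rw [ha]
    exact isAlgebraic_algebraMap a
  have hYk : ∀ a : k, Y ≠ algebraMap k M' a := by
    intro a ha
    apply h2'.tr
    rw [ha]
    exact isAlgebraic_algebraMap a
  have hyM : ∀ a : M, y ≠ algebraMap M N a := by
    intro a ha
    apply h'.tr
    rw [ha]
    exact isAlgebraic_algebraMap a
  have hxa : algebraMap M N x - algebraMap k N (c.a 0) = algebraMap M N (x - algebraMap k M (c.a 0)) := by
    rw [map_sub, ← IsScalarTower.algebraMap_apply]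
  have hya : y - algebraMap k N (c.a 0) = algebraMap M' N (Y - algebraMap k M' (c.a 0)) := by
    rw [map_sub, ← IsScalarTower.algebraMap_apply, hY]
  have hxa0 : algebraMap M N x - algebraMap k N (c.a 0) ≠ 0 := by
    rw [hxa]
    intro h0
    exact hxk _ (sub_eq_zero.1 ((map_eq_zero_iff _ (algebraMap M N).injective).1 h0))
  have hya0 : y - algebraMap k N (c.a 0) ≠ 0 := by
    rw [hya]
    intro h0
    exact hYk _ (sub_eq_zero.1 ((map_eq_zero_iff _ (algebraMap M' N).injective).1 h0))
  have hg : (y - algebraMap k N (c.a 0))⁻¹ - (algebraMap M N x - algebraMap k N (c.a 0))⁻¹ ≠ 0 := by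
    intro h0
    have h1 := inv_injective (sub_eq_zero.1 h0)
    exact hyM x (sub_left_injective h1)
  set g := (y - algebraMap k N (c.a 0))⁻¹ - (algebraMap M N x - algebraMap k N (c.a 0))⁻¹ with hgdef
  -- the point
  obtain ⟨u, hu⟩ : ∃ u : Pnt m N, u = pat c α ![some y, some w]
      ![some (algebraMap M N x), some (algebraMap M N v)] := ⟨_, rfl⟩
  have hon : On (c.over N) u := by
    have hA : OnC (c.over N) (some y) (some w) := by
      have h1 := h'.on
      rwa [GS3_over] at h1
    have hB : OnC (c.over N) (some (algebraMap M N x)) (some (algebraMap M N v)) :=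
      (on_map (c := c) (IsScalarTower.toAlgHom k M N) (u := fun _ : Fin 1 => ![some x, some v])).2
        (fun _ => h.on) 0
    intro j
    rw [hu]
    unfold pat
    generalize α j = a
    fin_cases a
    · exact hA
    · exact hB
    · exact he0 N
  choose q hq using fun v : Place k N => spP_exists v u
  -- orders
  have o1 : P1.ord g = -(c.n : ℤ) := by
    refine GS3_pole P1 hn (ho1 0 rfl) hxa0 ?_
    rw [hxa]; exact ht1 _
  have o2 : P2.ord g = -(c.n : ℤ) := by
    rw [hgdef, ← neg_sub, Place.ord_neg]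
    refine GS3_pole P2 hn (ho2 0 rfl) hya0 ?_
    rw [hya]; exact ht2 _
  have oi : ∀ i, (p i).ord g = 1 := by
    intro i
    have h1 : (p i).ord (y - algebraMap M N x) = 1 :=
      hord i x (algebraMap k M (ζ ^ i) * v) rfl rfl (mul_ne_zero
        ((map_ne_zero_iff _ (algebraMap k M).injective).2 (pow_ne_zero _ (hζ.ne_zero hn.ne'))) hv0)
    have h2 : (p i).ord (algebraMap M N x - algebraMap k N (c.a 0)) = 0 := by
      rw [hxa]; exact htr i _
    have hyx : y - algebraMap M N x ≠ 0 := sub_ne_zero.2 (hyM x)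
    have h3 := (Place.ord_add_of_lt (v := p i) hxa0 hyx (by rw [h1, h2]; exact one_pos)).2
    rw [h2, show algebraMap M N x - algebraMap k N (c.a 0) + (y - algebraMap M N x) =
      y - algebraMap k N (c.a 0) by ring] at h3
    have hge : g = -((y - algebraMap M N x) /
        ((y - algebraMap k N (c.a 0)) * (algebraMap M N x - algebraMap k N (c.a 0)))) := by
      rw [hgdef]
      field_simp
      ring
    rw [hge, Place.ord_neg, Place.ord_div _ _ _ hyx (mul_ne_zero hya0 hxa0),
      Place.ord_mul _ _ _ hya0 hxa0, h1, h2, h3]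
    rfl
  -- transcendental elements
  have trx : ∀ (P : Place k N) (ε : M →ₐ[k] RF P), Transcendental k (ε x) := fun P ε h0 =>
    h.tr ((isAlgebraic_algHom_iff ε ε.toRingHom.injective).1 h0)
  have trY : ∀ (P : Place k N) (ε : M' →ₐ[k] RF P), Transcendental k (ε Y) := fun P ε h0 =>
    h2'.tr ((isAlgebraic_algHom_iff ε ε.toRingHom.injective).1 h0)
  -- the set of places
  obtain ⟨S, hS⟩ : ∃ S : Finset (Place k N), S = insert P1 (insert P2 (Finset.image p (Finset.range c.n))) :=
    ⟨_, rfl⟩
  have mem1 : P1 ∈ S := by rw [hS]; exact Finset.mem_insert_self _ _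
  have mem2 : P2 ∈ S := by rw [hS]; exact Finset.mem_insert_of_mem (Finset.mem_insert_self _ _)
  have memi : ∀ i < c.n, p i ∈ S := by
    intro i hi
    rw [hS]
    exact Finset.mem_insert_of_mem (Finset.mem_insert_of_mem
      (Finset.mem_image_of_mem p (Finset.mem_range.2 hi)))
  -- places trivial on `M`
  have cM : ∀ P : Place k N, P.ord g ≠ 0 → (∀ z, P.ord (algebraMap M N z) = 0) → P ∈ S := by
    intro P hP ht
    obtain ⟨ε', hε', h3 | h3⟩ := GS3_cases hc hζ h h' P ht hP
    · obtain ⟨i, hi, h4, h5⟩ := h3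
      rw [huniq i P ε' ht hε' h4 h5]
      exact memi i hi
    · have h4 : SpO P (some y) ((e0 c M 0).map ε') := h3.1
      have h5 : SpO P (some w) ((e0 c M 1).map ε') := h3.2
      rw [hu1 P ε' ht hε' h4 h5]
      exact mem1
  -- places trivial on `M'`
  have cM' : ∀ P : Place k N, P.ord g ≠ 0 → (∀ z, P.ord (algebraMap M' N z) = 0) → P ∈ S := by
    intro P hP ht
    have hP' : P.ord ((algebraMap M N x - algebraMap k N (c.a 0))⁻¹ -
        (algebraMap M' N Y - algebraMap k N (c.a 0))⁻¹) ≠ 0 := by
      rw [hY, ← neg_sub, Place.ord_neg]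
      exact hP
    obtain ⟨ε', hε', h3 | h3⟩ := GS3_cases hc hζ h2' h1' P ht hP'
    · obtain ⟨i, hi, h4, h5⟩ := h3
      exact cM P hP (GS3_triv hFM (IsScalarTower.toAlgHom k M N) P x h4 (trY P ε'))
    · have h4 : SpO P (some (algebraMap M N x)) ((e0 c M' 0).map ε') := h3.1
      have h5 : SpO P (some (algebraMap M N v)) ((e0 c M' 1).map ε') := h3.2
      rw [hu2 P ε' ht hε' h4 h5]
      exact mem2
  -- the other places
  have hother : ∀ P, P ∉ S → P.ord g ≠ 0 → FunF k 1 (RF P) → cyc k (q P) = 0 := by
    intro P hPS hPg hPF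
    refine cyc_alg (d := 0) hPF _ ?_
    intro j i x₀ hx₀
    by_contra hna
    apply hPS
    have h3 : SpO P (u j i) (some x₀) := by
      rw [← hx₀]; exact hq P j i
    rw [hu] at h3
    unfold pat at h3
    generalize α j = a at h3
    fin_cases a
    · apply cM' P hPg
      fin_cases i
      · exact GS3_triv hFM' (IsScalarTower.toAlgHom k M' N) P Y (by
          rw [IsScalarTower.coe_toAlgHom', hY]; exact h3) hna
      · exact GS3_triv hFM' (IsScalarTower.toAlgHom k M' N) P W (by
          rw [IsScalarTower.coe_toAlgHom', hW]; exact h3) hna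
    · apply cM P hPg
      fin_cases i
      · exact GS3_triv hFM (IsScalarTower.toAlgHom k M N) P x h3 hna
      · exact GS3_triv hFM (IsScalarTower.toAlgHom k M N) P v h3 hna
    · exfalso
      apply hna
      fin_cases i
      · have h4 : x₀ = algebraMap k (RF P) (c.a 0) := Red.unique h3 (Pool.Agent.LibCHd.red_const P (c.a 0))
        rw [h4]
        exact isAlgebraic_algebraMap _
      · have h4 : x₀ = 0 := Red.unique h3 (Pool.Agent.LibCHd.red_zero P)
        rw [h4]
        exact isAlgebraic_zero
  have hFS : ∀ P ∈ S, FunF k 1 (RF P) := by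
    intro P hP
    rw [hS, Finset.mem_insert, Finset.mem_insert, Finset.mem_image] at hP
    rcases hP with rfl | rfl | ⟨i, -, rfl⟩
    · exact GS3_congr hFM ε1 hs1
    · exact GS3_congr hFM' ε2 hs2
    · exact GS3_congr hFM (ε i) (hsur i)
  have hrel := div_rel c m 1 hN u hon g hg S q hq hFS hother
  -- the places are different
  have hzi : ∀ i, (p i).Zer (y - algebraMap M N x) := fun i => (Pool.Agent.LibCHd.red_iff_sub (hred i x)).1 (hy i)
  have hz1 : P1.Zer (y - algebraMap k N (c.a 0)) := by
    rw [IsScalarTower.algebraMap_apply k M N]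
    exact (Pool.Agent.LibCHd.red_iff_sub (hr1 _)).1 hy1
  have hz2 : P2.Zer (algebraMap M N x - algebraMap k N (c.a 0)) := by
    rw [IsScalarTower.algebraMap_apply k M' N]
    exact (Pool.Agent.LibCHd.red_iff_sub (hr2 _)).1 hx2
  have nz : ∀ P : Place k N, (∀ z, P.ord (algebraMap M N z) = 0) →
      ¬ P.Zer (algebraMap M N x - algebraMap k N (c.a 0)) := by
    intro P hP h0
    rcases h0 with h0 | h0
    · exact hxa0 h0
    · rw [hxa, hP] at h0
      exact lt_irrefl _ h0
  have d12 : P1 ≠ P2 := by
    intro h0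
    exact nz P1 ht1 (by rw [h0]; exact hz2)
  have d2i : ∀ i, P2 ≠ p i := by
    intro i h0
    exact nz (p i) (htr i) (by rw [← h0]; exact hz2)
  have d1i : ∀ i, P1 ≠ p i := by
    intro i h0
    apply nz (p i) (htr i)
    have h3 : (p i).Zer (y - algebraMap k N (c.a 0)) := by rw [← h0]; exact hz1
    have h4 := h3.sub (hzi i)
    rwa [sub_sub_sub_cancel_left] at h4
  have dij : ∀ i < c.n, ∀ j < c.n, p i = p j → i = j := by
    intro i hi j hj hij
    have hw' : ∀ i, (p i).Zer (w - algebraMap M N (algebraMap k M (ζ ^ i) * v)) := fun i =>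
      (Pool.Agent.LibCHd.red_iff_sub (hred i _)).1 (hw i)
    have h3 := hw' i
    rw [hij] at h3
    have h4 := (hw' j).sub h3
    rw [sub_sub_sub_cancel_left, ← map_sub] at h4
    have h5 : algebraMap k M (ζ ^ i) * v - algebraMap k M (ζ ^ j) * v = 0 := by
      rcases h4 with h4 | h4
      · exact (map_eq_zero_iff _ (algebraMap M N).injective).1 h4
      · rw [htr j] at h4
        exact absurd h4 (lt_irrefl _)
    have h6 : algebraMap k M (ζ ^ i) = algebraMap k M (ζ ^ j) := by
      rw [← sub_mul] at h5
      exact sub_eq_zero.1 ((mul_eq_zero.1 h5).resolve_right hv0)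
    exact hζ.pow_inj hi hj ((algebraMap k M).injective h6)
  -- the values
  have vi : ∀ i, cls c 1 (q (p i)) = cls c 1 (pat c α (tau (ζ ^ i) ![some x, some v]) ![some x, some v]) := by
    intro i
    have h3 : SpP (p i) u (mpP (ε i) (pat c α (tau (ζ ^ i) ![some x, some v]) ![some x, some v])) := by
      rw [hu, GS3_mpP]
      apply GS3_spP
      · intro l
        fin_cases l
        · exact hy i
        · exact hw i
      · intro l
        fin_cases l
        · exact hred i x
        · exact hred i v
    rw [spP_unique (hq (p i)) h3]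
    exact GS3_cls c (ε i) (hsur i) _
  have v1 : cls c 1 (q P1) = cls c 1 (pat c α (e0 c M) ![some x, some v]) := by
    have h3 : SpP P1 u (mpP ε1 (pat c α (e0 c M) ![some x, some v])) := by
      rw [hu, GS3_mpP]
      apply GS3_spP
      · intro l
        fin_cases l
        · exact hy1
        · exact hw1
      · intro l
        fin_cases l
        · exact hr1 x
        · exact hr1 v
    rw [spP_unique (hq P1) h3]
    exact GS3_cls c ε1 hs1 _
  have v2 : cls c 1 (q P2) = cls c 1 (pat c α ![some Y, some W] (e0 c M')) := by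
    have h3 : SpP P2 u (mpP ε2 (pat c α ![some Y, some W] (e0 c M'))) := by
      rw [hu, GS3_mpP]
      apply GS3_spP
      · intro l
        fin_cases l
        · have h4 := hr2 Y
          rw [hY] at h4
          exact h4
        · have h4 := hr2 W
          rw [hW] at h4
          exact h4
      · intro l
        fin_cases l
        · exact hx2
        · exact hv2
    rw [spP_unique (hq P2) h3]
    exact GS3_cls c ε2 hs2 _
  -- the isomorphism of `M` and `M'`
  have v2' : cls c 1 (pat c α ![some Y, some W] (e0 c M')) = cls c 1 (pat c α ![some x, some v] (e0 c M)) := by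
    have h3 : Red (p 0) y (ε 0 x) := hy 0
    have h4 : Red (p 0) w (ε 0 v) := by
      have h5 : Red (p 0) w (ε 0 (algebraMap k M (ζ ^ 0) * v)) := hw 0
      rwa [pow_zero, map_one, one_mul] at h5
    have h5 : ∀ z, (p 0).ord (algebraMap M' N z) = 0 :=
      GS3_triv hFM' (IsScalarTower.toAlgHom k M' N) (p 0) Y (by
          rw [IsScalarTower.coe_toAlgHom', hY]; exact h3) (trx _ _)
    obtain ⟨ε', hε'⟩ := GS3_eps (IsScalarTower.toAlgHom k M' N) (p 0) h5
    have e1 : ε' Y = ε 0 x := by
      have h6 : Red (p 0) (algebraMap M' N Y) (ε' Y) := hε' Y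
      rw [hY] at h6
      exact h6.unique h3
    have e2 : ε' W = ε 0 v := by
      have h6 : Red (p 0) (algebraMap M' N W) (ε' W) := hε' W
      rw [hW] at h6
      exact h6.unique h4
    have hs' : Function.Surjective ε' := by
      have h6 : (ε 0).fieldRange ≤ ε'.fieldRange := by
        rw [AlgHom.fieldRange_eq_map, ← h.gen, IntermediateField.adjoin_map, IntermediateField.adjoin_le_iff]
        rintro _ ⟨z, hz, rfl⟩
        rcases hz with rfl | hz
        · exact ⟨Y, e1⟩
        · rw [Set.mem_singleton_iff] at hz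
          rw [hz]
          exact ⟨W, e2⟩
      intro d
      exact h6 (hsur 0 d)
    rw [← GS3_cls c ε' hs', ← GS3_cls c (ε 0) (hsur 0), GS3_mpP, GS3_mpP]
    congr 2
    · funext l
      fin_cases l
      · exact congrArg some e1
      · exact congrArg some e2
    · funext l
      fin_cases l
      · show some (ε' (algebraMap k M' (c.a 0))) = some (ε 0 (algebraMap k M (c.a 0)))
        rw [AlgHom.commutes, AlgHom.commutes]
      · show some (ε' 0) = some (ε 0 0)
        rw [map_zero, map_zero]
  have n2 : P2 ∉ Finset.image p (Finset.range c.n) := by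
    intro h0
    obtain ⟨i, -, hi⟩ := Finset.mem_image.1 h0
    exact d2i i hi.symm
  have n1 : P1 ∉ insert P2 (Finset.image p (Finset.range c.n)) := by
    intro h0
    rcases Finset.mem_insert.1 h0 with h0 | h0
    · exact d12 h0
    · obtain ⟨i, -, hi⟩ := Finset.mem_image.1 h0
      exact d1i i hi.symm
  rw [hS, Finset.sum_insert n1, Finset.sum_insert n2, Finset.sum_image (fun i hi j hj hij =>
    dij i (Finset.mem_range.1 hi) j (Finset.mem_range.1 hj) hij), o1, o2, v1, v2, v2'] at hrel
  simp only [oi, vi, one_smul, neg_smul, natCast_zsmul] at hrel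
  have h3 : ∀ a b s : CH c m 1, -a + (-b + s) = 0 → s = a + b := by
    intro a b s h0
    have : s = a + b + (-a + (-b + s)) := by abel
    rw [h0, add_zero] at this
    exact this
  exact h3 _ _ _ hrel

end Pool.Agent.LibCW77
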