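import Pool.Agent.LibCW77.Defs3
import Pool.Agent.LibCW77.GS3
import Pool.Agent.LibCW77.T5
/-!
[CW77 GS4] The modified diagonal cycle is torsion iff its `mns` is. `Γ_j` = the endomorphisms of `CH c 3 1` given by `exists_tw` for the vectors with `ζ` at the place `j`. `1 + Γ_j + Γ_j ^ 2` kills `GS`: seven terms: `diag_rel` (m = 3) for the first coordinate (`α = (0,1,1)`, `(0,1,2)`,
`(0,2,1)`, with `e` for index 2) and `cls (τ^i P, e, e) = cls (P, e, e)` (`autC`, `cls_map` with `finrank = 1`), the sum is `0`; the same for `j = 1, 2`. `Γ_0 Γ_1 Γ_2 GS = GS` (`autC`). Then in the commutative ring generated by the `Γ_j`, applied to `y = GS`: from `1 + Γ_j + Γ_j^2 = 0` and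
`Γ_0Γ_1Γ_2 = 1` one gets `2 + Γ_0 + Γ_1 + 2Γ_0Γ_1 = 0`, times `Γ_0`: `Γ_0 - 1 - 2Γ_1 - Γ_0Γ_1 = 0`, so `3 (Γ_0 - Γ_1) y = 0`, similarly all pairs. `mns` is the operator
`∑_σ ∑_w Γ_σ Γ_w (1 - Γ_0)`; `mns` of the terms with `e` is `0` (`mns_ram`), so `q`-image of `mns (P,P,P)` = the operator applied to `GS`. `GS` is invariant under permutations; `Γ_w y = y` up to 3-torsion for `w ∈ W c`; so the operator applied to `y` is `54 (1 - Γ_0) y` up to torsion; and `(1 - Γ_0)(1 - Γ_0^2) y = 3 y`.
-/

open scoped Classical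
open Polynomial

namespace Pool.Agent.LibCW77

open Pool.Agent.LibBH2
open Pool.Agent.LibCHd (VR RF Red FunF)

section grid

variable {G : Type*} [AddCommGroup G]

private theorem gs4_grid (f : Fin 3 → Fin 3 → G) (h1 : ∀ j, ∑ i, f i j = 0) (h2 : ∀ i, ∑ j, f i j = 0)
    (h3 : ∀ i j, ∑ t, f (i + t) (j + t) = 0) :
    ∀ i j, (3 : ℤ) • f i j = ∑ t, f t (i + j - t) := by
  have u1 : (-1 : Fin 3) = 2 := by decide
  have u2 : (-2 : Fin 3) = 1 := by decide
  have key : ∀ i j, (3 : ℤ) • f i j - ∑ t, f t (i + j - t) =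
      ∑ t, f t j + ∑ t, f i t + ∑ t, f (i + t) (j + t) - ∑ s, ∑ t, f s t := by
    intro i j
    fin_cases i <;> fin_cases j <;>
      simp [Fin.sum_univ_three, u1, u2] <;> abel
  intro i j
  rw [← sub_eq_zero, key, h1, h2, h3]
  simp [h2]

private theorem gs4_grid3 (E : (Fin 3 → Fin 3) → G) (h1 : ∀ a, E (a + 1) = E a)
    (h2 : ∀ a j, ∑ t, E (Function.update a j t) = 0) :
    ∃ g : Fin 3 → G, (∀ a, (3 : ℤ) • E a = g (∑ j, a j)) ∧ g 0 + g 1 + g 2 = 0 := by
  have r : ∀ (i j l t : Fin 3), E ![i + t, j + t, l + t] = E ![i, j, l] := by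
    intro i j l t
    have e1 : ∀ i j l, E ![i + 1, j + 1, l + 1] = E ![i, j, l] := by
      intro i j l
      rw [← h1 ![i, j, l]]
      congr 1
      funext s
      fin_cases s <;> rfl
    have ht : t = 0 ∨ t = 1 ∨ t = 2 := by revert t; decide
    rcases ht with rfl | rfl | rfl
    · simp
    · exact e1 i j l
    · rw [← e1 i j l, ← e1 (i + 1) (j + 1) (l + 1)]
      congr 1
      funext s
      fin_cases s <;> simp [add_assoc]
  set f : Fin 3 → Fin 3 → G := fun i j => E ![i, j, 0] with hf
  have key : ∀ i j l, E ![i, j, l] = f (i - l) (j - l) := by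
    intro i j l
    have := r (i - l) (j - l) 0 l
    simpa [hf] using this
  have c1 : ∀ j, ∑ i, f i j = 0 := by
    intro j
    rw [← h2 ![0, j, 0] 0]
    refine Finset.sum_congr rfl fun t _ => ?_
    simp only [hf]
    congr 1
    funext s
    fin_cases s <;> rfl
  have c2 : ∀ i, ∑ j, f i j = 0 := by
    intro i
    rw [← h2 ![i, 0, 0] 1]
    refine Finset.sum_congr rfl fun t _ => ?_
    simp only [hf]
    congr 1
    funext s
    fin_cases s <;> rfl
  have c3 : ∀ i j, ∑ t, f (i + t) (j + t) = 0 := by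
    intro i j
    have h := h2 ![i, j, 0] 2
    have e : ∀ t, E (Function.update ![i, j, 0] 2 t) = f (i - t) (j - t) := by
      intro t
      rw [← key]
      congr 1
      funext s
      fin_cases s <;> rfl
    simp only [e] at h
    rw [← h, Fin.sum_univ_three, Fin.sum_univ_three]
    have e1 : ∀ i : Fin 3, i + 0 = i - 0 := by decide
    have e2 : ∀ i : Fin 3, i + 1 = i - 2 := by decide
    have e3 : ∀ i : Fin 3, i + 2 = i - 1 := by decide
    rw [e1, e1, e2, e2, e3, e3]
    abel
  have hg := gs4_grid f c1 c2 c3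
  refine ⟨fun s => ∑ t, f t (s - t), ?_, ?_⟩
  · intro a
    have ha : E a = E ![a 0, a 1, a 2] := by
      congr 1
      funext s
      fin_cases s <;> rfl
    have : ∀ x y z : Fin 3, x - z + (y - z) = x + y + z := by decide
    rw [ha, key, hg, this, Fin.sum_univ_three a]
  · have : ∑ t, f t (0 - t) + ∑ t, f t (1 - t) + ∑ t, f t (2 - t) = ∑ i, ∑ j, f i j := by
      simp [Fin.sum_univ_three]
      have u1 : (-1 : Fin 3) = 2 := by decide
      have u2 : (-2 : Fin 3) = 1 := by decide
      rw [u1, u2]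
      abel
    rw [this]
    simp [c2]

end grid

variable {k : Type} [Field k]

section masks

variable {N : Type} [Field N] [Algebra k N]

private noncomputable def pmk (c : Dat k) (s : Fin 3 → Bool) (A : Fin 3 → Fin 2 → Option N) : Pnt 3 N :=
  fun j => if s j then A j else e0 c N

private def gs4_sg (s : Fin 3 → Bool) : ℤ := ∏ j, if s j then 1 else -1

private noncomputable def YM (c : Dat k) (A : Fin 3 → Fin 2 → Option N) : CH c 3 1 :=
  ∑ s : Fin 3 → Bool, gs4_sg s • cls c 1 (pmk c s A)

private theorem gs4_tau_e0 (c : Dat k) (w : k) : tau w (e0 c N) = e0 c N := by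
  funext i
  fin_cases i <;> simp [tau, e0]

private theorem gs4_tw (c : Dat k) (w : Fin 3 → k) (s : Fin 3 → Bool) (A : Fin 3 → Fin 2 → Option N) :
    tw w (pmk c s A) = pmk c s (fun j => tau (w j) (A j)) := by
  funext j
  show tau (w j) (pmk c s A j) = _
  simp only [pmk]
  split_ifs
  · rfl
  · exact gs4_tau_e0 c (w j)

private theorem gs4_pr (c : Dat k) (σ : Equiv.Perm (Fin 3)) (s : Fin 3 → Bool) (A : Fin 3 → Fin 2 → Option N) :
    pr σ (pmk c s A) = pmk c (fun j => s (σ j)) (fun j => A (σ j)) := by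
  funext j
  simp only [pr, pmk]

private theorem gs4_sg_pr (σ : Equiv.Perm (Fin 3)) (s : Fin 3 → Bool) : gs4_sg (fun j => s (σ j)) = gs4_sg s := by
  unfold gs4_sg
  exact Equiv.prod_comp σ (fun j => if s j then (1 : ℤ) else -1)

private theorem gs4_YM_pr (c : Dat k) (σ : Equiv.Perm (Fin 3)) (A : Fin 3 → Fin 2 → Option N) :
    ∑ s : Fin 3 → Bool, gs4_sg s • cls c 1 (pr σ (pmk c s A)) = YM c (fun j => A (σ j)) := by
  unfold YM
  rw [← Equiv.sum_comp (Equiv.arrowCongr σ.symm (Equiv.refl Bool))
    (fun s => gs4_sg s • cls c 1 (pmk c s (fun j => A (σ j))))]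
  refine Finset.sum_congr rfl fun s _ => ?_
  rw [gs4_pr]
  have : (Equiv.arrowCongr σ.symm (Equiv.refl Bool)) s = fun j => s (σ j) := by
    funext j
    simp [Equiv.arrowCongr]
  rw [this, gs4_sg_pr]

private theorem gs4_tau_tau (a b : k) (A : Fin 2 → Option N) : tau a (tau b A) = tau (a * b) A := by
  funext i
  fin_cases i
  · simp [tau]
  · simp only [tau, Fin.mk_one, Matrix.cons_val_one, Matrix.cons_val_fin_one, Option.map_map]
    congr 1
    funext v
    simp [mul_assoc]

private theorem gs4_tau_one (A : Fin 2 → Option N) : tau (1 : k) A = A := by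
  funext i
  fin_cases i
  · simp [tau]
  · simp [tau]

private theorem gs4_on_tau {c : Dat k} {w : k} (hw : w ^ c.n = 1) {P : Fin 2 → Option N}
    (h : OnC (c.over N) (P 0) (P 1)) : OnC (c.over N) (tau w P 0) (tau w P 1) := by
  have := on_tw (m := 1) (c := c) (fun _ => w) (fun _ => hw) (u := fun _ => P) (fun _ => h) 0
  exact this

private theorem gs4_on_e0 {c : Dat k} (h3 : c.n = 3) : OnC (c.over N) (e0 c N 0) (e0 c N 1) := by
  simp only [e0, Matrix.cons_val_zero, Matrix.cons_val_one, OnC, Dat.over, Dat.map, h3, Fin.prod_univ_three]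
  simp

private theorem gs4_on_pmk {c : Dat k} (h3 : c.n = 3) (s : Fin 3 → Bool) {A : Fin 3 → Fin 2 → Option N}
    (hA : ∀ j, OnC (c.over N) (A j 0) (A j 1)) : On (c.over N) (pmk c s A) := by
  intro j
  by_cases h : s j
  · simp only [pmk, h, if_true]
    exact hA j
  · simp only [pmk, h]
    exact gs4_on_e0 h3

private theorem gs4_Gam {c : Dat k} (h3 : c.n = 3) (w : Fin 3 → k) {Γ : CH c 3 1 →+ CH c 3 1}
    (hΓ : ∀ (M : Type) [Field M] [Algebra k M] (u : Pnt 3 M), FunF k 1 M →
      On (c.over M) u → Γ (cls c 1 u) = cls c 1 (tw w u)) (hN : FunF k 1 N) {A : Fin 3 → Fin 2 → Option N}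
    (hA : ∀ j, OnC (c.over N) (A j 0) (A j 1)) : Γ (YM c A) = YM c (fun j => tau (w j) (A j)) := by
  unfold YM
  rw [map_sum]
  refine Finset.sum_congr rfl fun s _ => ?_
  rw [map_zsmul, hΓ N _ hN (gs4_on_pmk h3 s hA), gs4_tw]

/-- the cubic characters -/
private def ch (ζ : k) (i : Fin 3) : k := ζ ^ (i : ℕ)

private theorem gs4_ch_add {ζ : k} (h : ζ ^ 3 = 1) (i j : Fin 3) : ch ζ (i + j) = ch ζ i * ch ζ j := by
  unfold ch
  rw [← pow_add, Fin.val_add, ← pow_mod_orderOf, ← pow_mod_orderOf ζ (_ + _)]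
  congr 1
  have := orderOf_dvd_of_pow_eq_one h
  exact Nat.mod_mod_of_dvd _ this

private theorem gs4_ch_zero (ζ : k) : ch ζ 0 = 1 := by simp [ch]

private theorem gs4_ch_one (ζ : k) : ch ζ 1 = ζ := by simp [ch]

private theorem gs4_ch_pow {ζ : k} (h : ζ ^ 3 = 1) (i : Fin 3) : ch ζ i ^ 3 = 1 := by
  unfold ch
  rw [← pow_mul, mul_comm, pow_mul, h, one_pow]

private theorem gs4_ch_sum {ζ : k} (h : ζ ^ 3 = 1) (a : Fin 3 → Fin 3) : ch ζ (∑ j, a j) = ∏ j, ch ζ (a j) := by
  rw [Fin.sum_univ_three, Fin.prod_univ_three, gs4_ch_add h, gs4_ch_add h]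

private theorem gs4_ch_inj {ζ : k} (h : IsPrimitiveRoot ζ 3) {i : Fin 3} (hi : ch ζ i = 1) : i = 0 := by
  have := h.dvd_of_pow_eq_one _ hi
  have h2 := i.2
  ext
  simp only [Fin.val_zero]
  omega

private noncomputable def EE (c : Dat k) (ζ : k) (P : Fin 2 → Option N) (a : Fin 3 → Fin 3) : CH c 3 1 :=
  YM c (fun j => tau (ch ζ (a j)) P)

private theorem gs4_S3 {c : Dat k} (h3 : c.n = 3) {ζ : k} (hζ : ζ ^ 3 = 1) (b : Fin 3 → Fin 3)
    {Γ : CH c 3 1 →+ CH c 3 1}
    (hΓ : ∀ (M : Type) [Field M] [Algebra k M] (u : Pnt 3 M), FunF k 1 M →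
      On (c.over M) u → Γ (cls c 1 u) = cls c 1 (tw (fun j => ch ζ (b j)) u)) (hN : FunF k 1 N) {P : Fin 2 → Option N}
    (hP : OnC (c.over N) (P 0) (P 1)) (a : Fin 3 → Fin 3) : Γ (EE c ζ P a) = EE c ζ P (a + b) := by
  unfold EE
  rw [gs4_Gam h3 _ hΓ hN (fun j => gs4_on_tau (by rw [h3]; exact gs4_ch_pow hζ _) hP)]
  congr 1
  funext j
  rw [gs4_tau_tau, Pi.add_apply, add_comm, gs4_ch_add hζ]

private theorem gs4_S1 [CharZero k] {c : Dat k} (hc : c.Good) (h3 : c.n = 3) {ζ : k} (hζ : ζ ^ 3 = 1)
    {x v : N} (h : GenC c x v) (a : Fin 3 → Fin 3) : EE c ζ ![some x, some v] (a + 1) = EE c ζ ![some x, some v] a := by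
  obtain ⟨ε, hx, hv⟩ := autC hc (ζ := ζ) (by rw [h3]; exact hζ) h
  have hcls : ∀ u : Pnt 3 N, cls c 1 (mpP (ε : N →ₐ[k] N) u) = cls c 1 u := by
    intro u
    rw [cls_map]
    have : (ε : N →ₐ[k] N).fieldRange = ⊤ := by
      rw [AlgHom.fieldRange_eq_top]
      exact ε.surjective
    rw [this, IntermediateField.finrank_top]
    simp
  unfold EE YM
  refine Finset.sum_congr rfl fun s _ => ?_
  rw [← hcls (pmk c s (fun j => tau (ch ζ (a j)) ![some x, some v]))]
  congr 2
  funext j i
  simp only [pmk, mpP]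
  split_ifs
  · fin_cases i
    · simp [tau, hx]
    · simp only [tau, Pi.add_apply, Pi.one_apply]
      simp [hv, gs4_ch_add hζ, gs4_ch_one, mul_assoc]
  · fin_cases i <;> simp [e0]

private theorem gs4_GS {c : Dat k} {ζ : k} (hN : FunF k 1 N) (P : Fin 2 → Option N) :
    GS c P = EE c ζ P 0 := by
  have hall : cls c 1 (pmk c ![false, false, false] (fun _ => P)) = 0 := by
    have : cyc k (pmk c ![false, false, false] (fun _ => P)) = 0 := by
      refine cyc_alg (d := 0) hN _ ?_
      intro j i y hy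
      have : pmk c ![false, false, false] (fun _ => P) j = e0 c N := by
        fin_cases j <;> simp [pmk]
      rw [this] at hy
      fin_cases i
      · simp [e0] at hy
        rw [← hy]
        exact isAlgebraic_algebraMap _
      · simp [e0] at hy
        rw [← hy]
        exact isAlgebraic_zero
    unfold cls
    rw [this]
    rfl
  have hE : EE c ζ P 0 = YM c (fun _ => P) := by
    unfold EE
    congr 1
    funext j
    simp [gs4_ch_zero, gs4_tau_one]
  have hu : (Finset.univ : Finset (Fin 3 → Bool)) = {![true, true, true], ![true, true, false],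
      ![true, false, true], ![false, true, true], ![true, false, false], ![false, true, false],
      ![false, false, true], ![false, false, false]} := by decide
  rw [hE]
  unfold YM
  rw [hu]
  rw [Finset.sum_insert (by decide), Finset.sum_insert (by decide), Finset.sum_insert (by decide),
    Finset.sum_insert (by decide), Finset.sum_insert (by decide), Finset.sum_insert (by decide),
    Finset.sum_insert (by decide), Finset.sum_singleton, hall]
  have m1 : pmk c ![true, true, true] (fun _ => P) = tri P P P := by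
    funext j; fin_cases j <;> simp [pmk, tri]
  have m2 : pmk c ![true, true, false] (fun _ => P) = tri P P (e0 c N) := by
    funext j; fin_cases j <;> simp [pmk, tri]
  have m3 : pmk c ![true, false, true] (fun _ => P) = tri P (e0 c N) P := by
    funext j; fin_cases j <;> simp [pmk, tri]
  have m4 : pmk c ![false, true, true] (fun _ => P) = tri (e0 c N) P P := by
    funext j; fin_cases j <;> simp [pmk, tri]
  have m5 : pmk c ![true, false, false] (fun _ => P) = tri P (e0 c N) (e0 c N) := by
    funext j; fin_cases j <;> simp [pmk, tri]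
  have m6 : pmk c ![false, true, false] (fun _ => P) = tri (e0 c N) P (e0 c N) := by
    funext j; fin_cases j <;> simp [pmk, tri]
  have m7 : pmk c ![false, false, true] (fun _ => P) = tri (e0 c N) (e0 c N) P := by
    funext j; fin_cases j <;> simp [pmk, tri]
  have s1 : gs4_sg ![true, true, true] = 1 := by decide
  have s2 : gs4_sg ![true, true, false] = -1 := by decide
  have s3 : gs4_sg ![true, false, true] = -1 := by decide
  have s4 : gs4_sg ![false, true, true] = -1 := by decide
  have s5 : gs4_sg ![true, false, false] = 1 := by decide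
  have s6 : gs4_sg ![false, true, false] = 1 := by decide
  have s7 : gs4_sg ![false, false, true] = 1 := by decide
  rw [m1, m2, m3, m4, m5, m6, m7, s1, s2, s3, s4, s5, s6, s7]
  unfold GS
  simp only [one_smul, neg_smul, smul_zero]
  abel

private theorem gs4_L4 [IsAlgClosed k] [CharZero k] {c : Dat k} (hc : c.Good) (h3 : c.n = 3) {ζ : k}
    (hζ : IsPrimitiveRoot ζ c.n) {x v : N} (h : GenC c x v) (j : Fin 3) :
    ∑ t : Fin 3, EE c ζ ![some x, some v] (Function.update 0 j t) = 0 := by
  have hζ3 : ζ ^ 3 = 1 := by rw [← h3]; exact hζ.pow_eq_one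
  set P : Fin 2 → Option N := ![some x, some v] with hP
  -- the sum over t of the term of the mask s
  set T : (Fin 3 → Bool) → CH c 3 1 := fun s =>
    ∑ t : Fin 3, cls c 1 (pmk c s (fun l => tau (ch ζ ((Function.update (0 : Fin 3 → Fin 3) j t) l)) P)) with hT
  have h1 : ∑ t : Fin 3, EE c ζ P (Function.update 0 j t) = ∑ s : Fin 3 → Bool, gs4_sg s • T s := by
    unfold EE YM
    rw [Finset.sum_comm]
    refine Finset.sum_congr rfl fun s _ => ?_
    rw [hT, Finset.smul_sum]
  rw [h1]
  have h2 : ∀ s : Fin 3 → Bool, s j = false → T s = (3 : ℕ) • cls c 1 (pmk c s (fun _ => P)) := by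
    intro s hs
    rw [hT]
    have : ∀ t : Fin 3, pmk c s (fun l => tau (ch ζ ((Function.update (0 : Fin 3 → Fin 3) j t) l)) P) =
        pmk c s (fun _ => P) := by
      intro t
      funext l
      by_cases hl : l = j
      · subst hl
        simp [pmk, hs]
      · simp [pmk, hl, gs4_ch_zero, gs4_tau_one]
    simp only [this]
    simp
  have h4 : ∀ s : Fin 3 → Bool, s j = true → T s =
      (3 : ℕ) • cls c 1 (pmk c (Function.update s j false) (fun _ => P)) +
      (3 : ℕ) • cls c 1 (pmk c (fun l => decide (l = j)) (fun _ => P)) := by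
    intro s hs
    have := diag_rel hc hζ h (m := 3) (fun l => if l = j then 0 else if s l then 1 else 2)
    rw [← hP, h3] at this
    have e1 : ∀ i : ℕ, pat c (fun l => if l = j then 0 else if s l then 1 else 2) (tau (ζ ^ i) P) P =
        pmk c s (fun l => if l = j then tau (ζ ^ i) P else P) := by
      intro i
      funext l
      by_cases hl : l = j
      · subst hl
        simp [pmk, pat, hs]
      · by_cases hsl : s l = true
        · simp [pmk, pat, hl, hsl]
        · simp [pmk, pat, hl, hsl]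
    have e2 : pat c (fun l => if l = j then 0 else if s l then 1 else 2) (e0 c N) P =
        pmk c (Function.update s j false) (fun _ => P) := by
      funext l
      by_cases hl : l = j
      · subst hl
        simp [pmk, pat]
      · by_cases hsl : s l = true
        · simp [pmk, pat, hl, hsl]
        · simp [pmk, pat, hl, hsl]
    have e3 : pat c (fun l => if l = j then 0 else if s l then 1 else 2) P (e0 c N) =
        pmk c (fun l => decide (l = j)) (fun _ => P) := by
      funext l
      by_cases hl : l = j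
      · subst hl
        simp [pmk, pat]
      · by_cases hsl : s l = true
        · simp [pmk, pat, hl, hsl]
        · simp [pmk, pat, hl, hsl]
    rw [e2, e3] at this
    rw [← this, Finset.sum_range, hT]
    refine Finset.sum_congr rfl fun t _ => ?_
    rw [e1]
    congr 1
    funext l
    by_cases hl : l = j
    · subst hl
      simp [pmk, ch]
    · simp [pmk, hl, gs4_ch_zero, gs4_tau_one]
  rw [← Finset.sum_filter_add_sum_filter_not Finset.univ (fun s : Fin 3 → Bool => s j = true)]
  have h5 : ∑ s ∈ Finset.univ.filter (fun s : Fin 3 → Bool => ¬ s j = true), gs4_sg s • T s =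
      ∑ s ∈ Finset.univ.filter (fun s : Fin 3 → Bool => s j = true),
        -(gs4_sg s • (3 : ℕ) • cls c 1 (pmk c (Function.update s j false) (fun _ => P))) := by
    refine Finset.sum_nbij' (fun s => Function.update s j true) (fun s => Function.update s j false) ?_ ?_ ?_ ?_ ?_
    · intro s _
      simp
    · intro s _
      simp
    · intro s hs
      have : s j = false := by simpa using hs
      rw [Function.update_idem, ← this, Function.update_eq_self]
    · intro s hs
      have : s j = true := by simpa using hs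
      rw [Function.update_idem, ← this, Function.update_eq_self]
    · intro s hs
      have hsj : s j = false := by simpa using hs
      have : Function.update (Function.update s j true) j false = s := by
        rw [Function.update_idem, ← hsj, Function.update_eq_self]
      rw [this, h2 s hsj]
      have hsg : ∀ (j : Fin 3) (s : Fin 3 → Bool), s j = false →
          gs4_sg s = - gs4_sg (Function.update s j true) := by decide
      rw [hsg j s hsj, neg_smul]
  have h6 : ∑ s ∈ Finset.univ.filter (fun s : Fin 3 → Bool => s j = true), gs4_sg s • T s =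
      ∑ s ∈ Finset.univ.filter (fun s : Fin 3 → Bool => s j = true),
        (gs4_sg s • (3 : ℕ) • cls c 1 (pmk c (Function.update s j false) (fun _ => P)) +
          gs4_sg s • (3 : ℕ) • cls c 1 (pmk c (fun l => decide (l = j)) (fun _ => P))) := by
    refine Finset.sum_congr rfl fun s hs => ?_
    have hsj : s j = true := by simpa using hs
    rw [h4 s hsj, zsmul_add]
  have h7 : ∀ j : Fin 3, ∑ s ∈ Finset.univ.filter (fun s : Fin 3 → Bool => s j = true), gs4_sg s = 0 := by
    decide
  rw [h5, h6, ← Finset.sum_add_distrib]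
  have h8 : ∀ s : Fin 3 → Bool, (gs4_sg s • (3 : ℕ) • cls c 1 (pmk c (Function.update s j false) (fun _ => P)) +
          gs4_sg s • (3 : ℕ) • cls c 1 (pmk c (fun l => decide (l = j)) (fun _ => P))) +
      -(gs4_sg s • (3 : ℕ) • cls c 1 (pmk c (Function.update s j false) (fun _ => P))) =
      gs4_sg s • (3 : ℕ) • cls c 1 (pmk c (fun l => decide (l = j)) (fun _ => P)) := by
    intro s
    abel
  rw [Finset.sum_congr rfl fun s _ => h8 s, ← Finset.sum_smul, h7, zero_smul]

private theorem gs4_S2 [IsAlgClosed k] [CharZero k] {c : Dat k} (hc : c.Good) (h3 : c.n = 3) {ζ : k}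
    (hζ : IsPrimitiveRoot ζ c.n) {x v : N} (h : GenC c x v) (a : Fin 3 → Fin 3) (j : Fin 3) :
    ∑ t : Fin 3, EE c ζ ![some x, some v] (Function.update a j t) = 0 := by
  have hζ3 : ζ ^ 3 = 1 := by rw [← h3]; exact hζ.pow_eq_one
  obtain ⟨Γ, hΓ⟩ := exists_tw (m := 3) c hc 1 (fun l => ch ζ (Function.update a j 0 l))
    (fun l => by rw [h3]; exact gs4_ch_pow hζ3 _)
  have hN := (genC_funF hc h).1
  have h1 : ∀ t, EE c ζ ![some x, some v] (Function.update a j t) =
      Γ (EE c ζ ![some x, some v] (Function.update 0 j t)) := by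
    intro t
    rw [gs4_S3 h3 hζ3 _ hΓ hN h.on]
    congr 1
    funext l
    by_cases hl : l = j
    · subst hl
      simp
    · simp [hl]
  simp only [h1]
  rw [← map_sum, gs4_L4 hc h3 hζ h, map_zero]

private theorem gs4_W [CharZero k] {c : Dat k} (h3 : c.n = 3) {ζ : k} (hζ : IsPrimitiveRoot ζ c.n) {w : Fin 3 → k}
    (hw : w ∈ W c) : ∃ a : Fin 3 → Fin 3, (∀ j, w j = ch ζ (a j)) ∧ ∑ j, a j = 0 := by
  unfold W at hw
  rw [Finset.mem_filter, Fintype.mem_piFinset] at hw
  obtain ⟨hw1, hw2⟩ := hw
  rw [h3] at hζ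
  have h1 : ∀ j, ∃ a : Fin 3, w j = ch ζ a := by
    intro j
    have := hw1 j
    rw [h3, Polynomial.mem_nthRootsFinset (by norm_num)] at this
    obtain ⟨i, hi, hi2⟩ := hζ.eq_pow_of_pow_eq_one this
    exact ⟨⟨i, hi⟩, hi2.symm⟩
  choose a ha using h1
  refine ⟨a, ha, ?_⟩
  apply gs4_ch_inj hζ
  rw [gs4_ch_sum hζ.pow_eq_one, ← hw2]
  exact Finset.prod_congr rfl fun j _ => (ha j).symm

private theorem gs4_mns [CharZero k] {c : Dat k} (hc : c.Good) {ζ : k} (hζ : IsPrimitiveRoot ζ c.n)
    (P : Fin 2 → Option N) :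
    mns c ζ (tri P P P) = ∑ σ : Equiv.Perm (Fin 3), ∑ w ∈ W c,
      (YM c (fun j => tau (w (σ j)) P) - YM c (fun j => tau (w (σ j)) (tau (t1 ζ (σ j)) P))) := by
  have h1 : mns c ζ (tri P P P) = ∑ s : Fin 3 → Bool, gs4_sg s • mns c ζ (pmk c s (fun _ => P)) := by
    rw [Finset.sum_eq_single (fun _ => true)]
    · have : gs4_sg (fun _ => true) = 1 := by decide
      rw [this, one_smul]
      congr 1
      funext j
      fin_cases j <;> simp [tri, pmk]
    · intro s _ hs
      have : ∃ j, s j = false := by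
        by_contra hcon
        push Not at hcon
        apply hs
        funext j
        simpa using hcon j
      obtain ⟨j, hj⟩ := this
      rw [mns_ram hc hζ _ ⟨j, Or.inr (by simp [pmk, hj, e0])⟩, smul_zero]
    · intro h
      exact absurd (Finset.mem_univ _) h
  rw [h1]
  unfold mns
  simp only [Finset.smul_sum]
  rw [Finset.sum_comm]
  refine Finset.sum_congr rfl fun σ _ => ?_
  rw [Finset.sum_comm]
  refine Finset.sum_congr rfl fun w _ => ?_
  simp only [zsmul_sub, Finset.sum_sub_distrib, gs4_tw]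
  rw [gs4_YM_pr, gs4_YM_pr]

end masks

theorem GS_iff [IsAlgClosed k] [CharZero k] {c : Dat k} (hc : c.Good) (h3 : c.n = 3) {ζ : k}
    (hζ : IsPrimitiveRoot ζ c.n) {N : Type} [Field N] [Algebra k N] {x v : N} (h : GenC c x v) :
    IsOfFinAddOrder (GS c ![some x, some v]) ↔
      IsOfFinAddOrder (mns c ζ (tri ![some x, some v] ![some x, some v] ![some x, some v])) := by
  have hζ' : IsPrimitiveRoot ζ 3 := by rw [← h3]; exact hζ
  have hζ3 : ζ ^ 3 = 1 := hζ'.pow_eq_one
  have hN := (genC_funF hc h).1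
  set P : Fin 2 → Option N := ![some x, some v] with hP
  obtain ⟨g, hg, hg0⟩ := gs4_grid3 (EE c ζ P) (gs4_S1 hc h3 hζ3 h) (gs4_S2 hc h3 hζ h)
  -- the class mns
  have hm : (3 : ℤ) • mns c ζ (tri P P P) = ((6 * (W c).card : ℕ) : ℤ) • (g 0 - g 1) := by
    rw [gs4_mns hc hζ, Finset.smul_sum]
    have : ∀ σ : Equiv.Perm (Fin 3), (3 : ℤ) • ∑ w ∈ W c,
        (YM c (fun j => tau (w (σ j)) P) - YM c (fun j => tau (w (σ j)) (tau (t1 ζ (σ j)) P))) =
        ((W c).card : ℤ) • (g 0 - g 1) := by
      intro σ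
      rw [Finset.smul_sum]
      have h1 : ∀ w ∈ W c, (3 : ℤ) • (YM c (fun j => tau (w (σ j)) P) -
          YM c (fun j => tau (w (σ j)) (tau (t1 ζ (σ j)) P))) = g 0 - g 1 := by
        intro w hw
        obtain ⟨a, ha, ha0⟩ := gs4_W h3 hζ hw
        rw [zsmul_sub]
        have e1 : YM c (fun j => tau (w (σ j)) P) = EE c ζ P (fun j => a (σ j)) := by
          unfold EE
          simp only [ha]
        have e2 : YM c (fun j => tau (w (σ j)) (tau (t1 ζ (σ j)) P)) =
            EE c ζ P (fun j => (a + ![1, 0, 0] : Fin 3 → Fin 3) (σ j)) := by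
          unfold EE
          congr 1
          funext j
          show _ = tau (ch ζ (a (σ j) + (![1, 0, 0] : Fin 3 → Fin 3) (σ j))) P
          rw [gs4_tau_tau, ha, gs4_ch_add hζ3]
          congr 2
          generalize σ j = l
          fin_cases l <;> simp [t1, gs4_ch_zero, gs4_ch_one]
        rw [e1, e2, hg, hg, Equiv.sum_comp σ a, Equiv.sum_comp σ (a + ![1, 0, 0]), ha0]
        congr 2
        simp only [Pi.add_apply, Finset.sum_add_distrib, ha0]
        rw [Fin.sum_univ_three]
        rfl
      rw [Finset.sum_congr rfl h1, Finset.sum_const]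
      simp
    rw [Finset.sum_congr rfl fun σ _ => this σ, Finset.sum_const, Finset.card_univ, Fintype.card_perm]
    rw [← natCast_zsmul, smul_smul]
    congr 1
  have hW : (W c).Nonempty := by
    refine ⟨fun _ => 1, ?_⟩
    unfold W
    rw [Finset.mem_filter, Fintype.mem_piFinset]
    refine ⟨fun _ => ?_, by simp⟩
    rw [h3, Polynomial.mem_nthRootsFinset (by norm_num)]
    simp
  have hWc : (6 * (W c).card : ℕ) ≠ 0 := by
    have := Finset.card_pos.mpr hW
    omega
  -- the operators
  obtain ⟨Γ, hΓ⟩ := exists_tw (m := 3) c hc 1 (fun l => ch ζ ((![1, 0, 0] : Fin 3 → Fin 3) l))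
    (fun l => by rw [h3]; exact gs4_ch_pow hζ3 _)
  have hS := gs4_S3 h3 hζ3 _ hΓ hN (P := P) h.on
  have hG : ∀ t : Fin 3, Γ (g t) = g (t + 1) := by
    intro t
    have h1 := hg ![t, 0, 0]
    have h2 := hg (![t, 0, 0] + ![1, 0, 0])
    rw [← hS, ← map_zsmul, h1] at h2
    have e1 : ∑ j, (![t, 0, 0] : Fin 3 → Fin 3) j = t := by
      rw [Fin.sum_univ_three]
      simp
    have e2 : ∑ j, (![t, 0, 0] + ![1, 0, 0] : Fin 3 → Fin 3) j = t + 1 := by
      rw [Fin.sum_univ_three]
      simp
    rw [e1, e2] at h2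
    exact h2
  have fin_zs : ∀ {y : CH c 3 1} (n : ℕ), n ≠ 0 → IsOfFinAddOrder ((n : ℤ) • y) → IsOfFinAddOrder y := by
    intro y n hn hy
    rw [isOfFinAddOrder_iff_nsmul_eq_zero] at hy ⊢
    obtain ⟨r, hr, h0⟩ := hy
    refine ⟨r * n, by positivity, ?_⟩
    rw [mul_smul, ← natCast_zsmul y n]
    exact h0
  have hE0 : (3 : ℤ) • EE c ζ P 0 = g 0 := by
    rw [hg]
    simp
  rw [gs4_GS (ζ := ζ) hN P]
  constructor
  · intro h0
    have t0 : IsOfFinAddOrder (g 0) := by
      rw [← hE0]
      exact h0.zsmul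
    have t1 : IsOfFinAddOrder (g 1) := by
      have := hG 0
      rw [zero_add] at this
      rw [← this]
      exact AddMonoidHom.isOfFinAddOrder Γ t0
    apply fin_zs 3 (by norm_num)
    show IsOfFinAddOrder ((3 : ℤ) • mns c ζ (tri P P P))
    rw [hm]
    apply IsOfFinAddOrder.zsmul
    rw [sub_eq_add_neg]
    exact t0.add t1.neg
  · intro h0
    have d01 : IsOfFinAddOrder (g 0 - g 1) := by
      apply fin_zs _ hWc
      rw [← hm]
      exact h0.zsmul
    have d12 : IsOfFinAddOrder (g 1 - g 2) := by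
      have e1 : Γ (g 0 - g 1) = g 1 - g 2 := by
        rw [map_sub, hG, hG]
        rfl
      rw [← e1]
      exact AddMonoidHom.isOfFinAddOrder Γ d01
    apply fin_zs 3 (by norm_num)
    show IsOfFinAddOrder ((3 : ℤ) • EE c ζ P 0)
    rw [hE0]
    apply fin_zs 3 (by norm_num)
    have : ((3 : ℕ) : ℤ) • g 0 = (2 : ℤ) • (g 0 - g 1) + (g 1 - g 2) + (g 0 + g 1 + g 2) := by
      simp only [Nat.cast_ofNat]
      abel
    rw [this, hg0, add_zero]
    exact (IsOfFinAddOrder.zsmul d01).add d12

end Pool.Agent.LibCW77
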