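import Pool.Agent.LibCW77.Defs5
import Pool.Agent.LibHL77.B3

/-!
Generic hyperplane sections: definitions (as LibHL77/Defs.lean). The base field is `k`, the sections are cycles over the field `Lf k = k(T_1, T_2)`. The base change of a point `u` along `i : EHom k L M M'` is `mpP i.f u`.
-/

open scoped Classical
open Polynomial

namespace Pool.Agent.LibCW77

open Pool.Agent.LibBH2
open Pool.Agent.LibCHd (VR RF Red FunF)
open Pool.Agent.LibHL77 (Lf tt EHom NC HE BE mult hypf)

variable {k : Type} [Field k]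

/-- a morphism of `C ^ m` to the projective plane, given by homogeneous coordinates -/
structure Mor (c : Dat k) (m : ℕ) where
  φ : ∀ (M : Type) [Field M] [Algebra k M], Pnt m M → Fin 3 → M
  ne : ∀ (M : Type) [Field M] [Algebra k M] (u : Pnt m M), On (c.over M) u → ∃ i, φ M u i ≠ 0
  nat : ∀ (M M' : Type) [Field M] [Algebra k M] [Field M'] [Algebra k M'] (σ : M →ₐ[k] M') (u : Pnt m M)
    (i : Fin 3), φ M' (mpP σ u) i = σ (φ M u i)
  sp : ∀ (K : Type) [Field K] [Algebra k K] (v : Place k K) (u : Pnt m K) (q : Pnt m (RF v)),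
    On (c.over K) u → SpP v u q → ∃ l : K, ∀ i, Red v (l * φ K u i) (φ (RF v) q i)

variable {m : ℕ}

/-- the properties of the hyperplane section of cycles of dimension `d + 1` -/
def IsG {c : Dat k} (φ : Mor c m) (d : ℕ) (Γ : Cyc k m →+ Cyc (Lf k) m) : Prop :=
  ∀ (M : Type) [Field M] [Algebra k M] (u : Pnt m M), FunF k (d + 1) M → On (c.over M) u →
    (∀ (M' : Type) [Field M'] [Algebra (Lf k) M'] (i : EHom k (Lf k) M M'),
      HE i (φ.φ M u) → Γ (cyc k u) = cyc (Lf k) (mpP i.f u)) ∧ (¬ NC k (φ.φ M u) → Γ (cyc k u) = 0)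

/-- the properties of the base change of cycles of dimension `d` -/
def IsB (c : Dat k) (m d : ℕ) (B : Cyc k m →+ Cyc (Lf k) m) : Prop :=
  ∀ (M : Type) [Field M] [Algebra k M] (u : Pnt m M), FunF k d M → On (c.over M) u →
    ∀ (M' : Type) [Field M'] [Algebra (Lf k) M'] (i : EHom k (Lf k) M M'),
      BE i → B (cyc k u) = cyc (Lf k) (mpP i.f u)

/-- `e` is the cycle of zeros of the section `φ_z` on the variety with the generic point `u` -/
def IsZd {M : Type} [Field M] [Algebra k M] (φ : Fin 3 → M) (z : Fin 3) (u : Pnt m M) (d : ℕ) (e : Cyc k m) : Prop :=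
  ∃ (S : Finset (Place k M)) (E : Place k M → Cyc k m),
    (∀ v ∈ S, FunF k d (RF v) ∧ ∃ q : Pnt m (RF v), SpP v u q ∧ E v = cyc k q) ∧
    (∀ v, v ∉ S → mult φ z v ≠ 0 → FunF k d (RF v) → ∀ q : Pnt m (RF v), SpP v u q → cyc k q = 0) ∧
    e = ∑ v ∈ S, mult φ z v • E v

end Pool.Agent.LibCW77
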