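import Pool.Agent.LibCW77.Defs3
import Pool.Agent.LibCW77.D3
import Pool.Agent.LibCW77.L1
import Pool.Agent.LibHL77.Z1
import Pool.Agent.LibCW77.Defs4
/-!
[CW77 L2] The homomorphism `L`. `exists_L`: `exists_hom` (m = 1, d = 0) with `Ψ M u = finrank k M • Lval (the point of C(k) which is u)` for `FunF k 0 M` (`M` finite over `k`, so `M = k`: the
coordinates come from `k`; define `Ψ` by cases: if there is `Q` over `k` with `u = fun _ i => (Q i).map (algebraMap k M)`), `desc` with `lin_rel` (residue fields are `k`: `res_k`;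
`cyc k (q v) ≠ 0` always; `S` contains all places with `ord g ≠ 0`). `CH_gen`: every class in `CH c 1 0` is an integral combination of classes of points of `C(k)`
modulo classes of generators of `Cyc` which are not of the form `eqs`: so state it for the subgroup: see the statement of `Lrange`.
`Lval_mem`: the values `Lval Q` are in the range of `L`.
-/

open scoped Classical
open Polynomial

namespace Pool.Agent.LibCW77

open Pool.Agent.LibBH2
open Pool.Agent.LibCHd (VR RF Red FunF)

variable {k : Type} [Field k]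

variable {V : Type} [AddCommGroup V] [Module ℚ V]

private theorem L2_bij [IsAlgClosed k] {M : Type} [Field M] [Algebra k M] (h : FunF k 0 M) :
    Function.Bijective (algebraMap k M) := by
  have := (Pool.Agent.LibHL77.funF_zero).1 h
  exact IsAlgClosed.algebraMap_bijective_of_isIntegral

private theorem L2_Q {M : Type} [Field M] [Algebra k M] (hb : Function.Surjective (algebraMap k M))
    (u : Pnt 1 M) : ∃ Q : Fin 2 → Option k, u = fun _ i => (Q i).map (algebraMap k M) := by
  have h : ∀ i, ∃ o : Option k, u 0 i = o.map (algebraMap k M) := by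
    intro i
    cases h : u 0 i with
    | none => exact ⟨none, rfl⟩
    | some x =>
      obtain ⟨y, rfl⟩ := hb x
      exact ⟨some y, rfl⟩
  choose Q hQ using h
  refine ⟨Q, ?_⟩
  funext j i
  rw [Subsingleton.elim j 0]
  exact hQ i

private theorem L2_uniq {M : Type} [Field M] [Algebra k M] {Q Q' : Fin 2 → Option k}
    (h : (fun (_ : Fin 1) i => (Q i).map (algebraMap k M)) = fun _ i => (Q' i).map (algebraMap k M)) :
    Q = Q' := by
  funext i
  exact Option.map_injective (algebraMap k M).injective (congrFun (congrFun h 0) i)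

private theorem L2_fin {M : Type} [Field M] [Algebra k M] (hb : Function.Bijective (algebraMap k M)) :
    Module.finrank k M = 1 :=
  (LinearEquiv.ofBijective (Algebra.linearMap k M) hb).finrank_eq.symm.trans (Module.finrank_self k)

private theorem L2_top {M : Type} [Field M] [Algebra k M] (hb : Function.Surjective (algebraMap k M))
    (E : IntermediateField k M) : Module.finrank E M = 1 := by
  have h : E = ⊤ := by
    refine eq_top_iff.2 fun x _ => ?_
    obtain ⟨y, rfl⟩ := hb x
    exact E.algebraMap_mem y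
  rw [h, IntermediateField.finrank_top]

private noncomputable def L2_psi {V : Type} [AddCommGroup V] (F : (Fin 2 → Option k) → V) (M : Type)
    [Field M] [Algebra k M] (u : Pnt 1 M) : V :=
  if h : ∃ Q : Fin 2 → Option k, u = fun _ i => (Q i).map (algebraMap k M) then
    (Module.finrank k M : ℤ) • F h.choose else 0

private theorem L2_psi_eq {V : Type} [AddCommGroup V] (F : (Fin 2 → Option k) → V) {M : Type}
    [Field M] [Algebra k M] (u : Pnt 1 M) (Q : Fin 2 → Option k)
    (hu : u = fun _ i => (Q i).map (algebraMap k M)) :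
    L2_psi F M u = (Module.finrank k M : ℤ) • F Q := by
  have h : ∃ Q : Fin 2 → Option k, u = fun _ i => (Q i).map (algebraMap k M) := ⟨Q, hu⟩
  have h1 : h.choose = Q := L2_uniq (M := M) (h.choose_spec.symm.trans hu)
  unfold L2_psi
  rw [dif_pos h, h1]

theorem exists_L [IsAlgClosed k] [CharZero k] {c : Dat k} (hc : c.Good) {ζ ν : k} (hζ : IsPrimitiveRoot ζ c.n)
    (hν : ν ^ c.n = ∏ i, (-(kb c i) / ka c i)) (q : CH c 3 1 →+ V) :
    ∃ L : CH c 1 0 →+ V, ∀ Q : Fin 2 → Option k, OnC c (Q 0) (Q 1) →
      L (cls c 0 (pt1 Q)) = Lval c ζ ν q Q := by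
  have hΨ : ∀ (M M' : Type) [Field M] [Algebra k M] [Field M'] [Algebra k M'] (σ : M →ₐ[k] M')
      (u : Pnt 1 M), FunF k 0 M' → On (c.over M) u → fld k u = ⊤ →
      L2_psi (Lval c ζ ν q) M' (mpP σ u) =
        (Module.finrank σ.fieldRange M' : ℤ) • L2_psi (Lval c ζ ν q) M u := by
    intro M M' _ _ _ _ σ u hM' _ _
    have hb' := L2_bij hM'
    have hs : Function.Surjective (algebraMap k M) := by
      intro x
      obtain ⟨y, hy⟩ := hb'.2 (σ x)
      refine ⟨y, σ.toRingHom.injective ?_⟩
      show σ (algebraMap k M y) = σ x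
      rw [σ.commutes, hy]
    have hb : Function.Bijective (algebraMap k M) := ⟨(algebraMap k M).injective, hs⟩
    obtain ⟨Q, hQ⟩ := L2_Q hs u
    have hQ' : mpP σ u = fun _ i => (Q i).map (algebraMap k M') := by
      funext j i
      rw [hQ]
      show ((Q i).map (algebraMap k M)).map σ = _
      rw [Option.map_map]
      congr 1
      funext x
      exact σ.commutes x
    rw [L2_psi_eq _ _ Q hQ, L2_psi_eq _ _ Q hQ', L2_fin hb, L2_fin hb', L2_top hb'.2]
    simp
  obtain ⟨H, hH⟩ := exists_hom c 0 (L2_psi (Lval c ζ ν q)) hΨ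
  have hle : RatEq c 1 0 ≤ H.ker := by
    refine desc c 0 H ?_
    intro K _ _ u g S qv hK hu hg hq hS hS'
    have hK1 : FunF k 1 K := hK
    have hF : ∀ v : Place k K, FunF k 0 (RF v) := fun v => Pool.Agent.LibHL77.res_finite hK1 v
    have hex : ∀ v : Place k K, ∃ Q : Fin 2 → Option k,
        qv v = fun _ i => (Q i).map (algebraMap k (RF v)) := fun v => L2_Q (L2_bij (hF v)).2 (qv v)
    choose Qw hQw using hex
    have hval : ∀ v : Place k K, H (cyc k (qv v)) = Lval c ζ ν q (Qw v) := by
      intro v
      rw [hH (RF v) (qv v) (hF v) (on_sp hc hu (hq v)), L2_psi_eq _ _ (Qw v) (hQw v),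
        L2_fin (L2_bij (hF v))]
      simp
    have hne : ∀ v : Place k K, cyc k (qv v) ≠ 0 := by
      intro v
      unfold cyc
      rw [L2_top (L2_bij (hF v)).2]
      simp
    have h0 : ∀ w, w ∉ S → w.ord g = 0 := by
      intro w hw
      by_contra h
      exact hne w (hS' w hw h (hF w))
    have hrel := lin_rel hc hζ hν q hK1 (u 0) (hu 0) g hg S h0 Qw (by
      intro w _ i
      have h1 := hq w 0 i
      rw [hQw w] at h1
      exact h1)
    rw [← hrel]
    exact Finset.sum_congr rfl fun v _ => by rw [hval v]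
  refine ⟨QuotientAddGroup.lift (RatEq c 1 0) H hle, ?_⟩
  intro Q hQ
  have h0 : FunF k 0 k := Pool.Agent.LibHL77.funF_zero.2 inferInstance
  have h1 : On (c.over k) (pt1 Q) := fun _ => hQ
  show H (cyc k (pt1 Q)) = _
  rw [hH k (pt1 Q) h0 h1, L2_psi_eq _ _ Q (by
    funext j i
    show Q i = (Q i).map (algebraMap k k)
    cases Q i <;> rfl), Module.finrank_self]
  simp

end Pool.Agent.LibCW77
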