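import Pool.Agent.LibCW77.Defs3
import Pool.Agent.LibCW77.P7
import Pool.Agent.LibCW77.E1
import Pool.Agent.LibCW77.T3
import Pool.Agent.LibCW77.T7
/-!
[CW77 L3] Every class `mns P` is in the group generated by the classes of the lines. Plan: `P` ramified: `mns_ram`. Else `TZ_zpt` and `path1'` or `path2` for `zpt (c.over M) P` (`zpt_lift`).
`Lval_tau`: `Lval (τ⁻¹ Q) = q-image under τ₁`; in the form: `∑_(i < n) Lval (z, ζ ^ i v) = 0`: take a Z-point on `L(Q)` (`line_pt`) and a lift `P` over `M'` (`exists_lift`); `tw (t1 (ζ ^ i)) P` is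
a lift of the Z-point with `u` multiplied by `ζ ^ i`, which is on the line of `(z, ζ ^ (-i) v)`; `TZ_spec`, `Lval_spec`, `mns_norm`; reindex `i ↦ -i`.
-/

open scoped Classical
open Polynomial

namespace Pool.Agent.LibCW77

open Pool.Agent.LibBH2
open Pool.Agent.LibCHd (VR RF Red FunF)

variable {k : Type} [Field k]

variable {V : Type} [AddCommGroup V] [Module ℚ V]

private theorem L3_fin {ι : Type} {A : Type} [AddCommGroup A] {X : Type} (S : Finset ι) (m : ι → ℤ) (Qw : ι → X)
    (F : X → A) :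
    ∃ (e : Fin S.card → ι), (∀ j, e j ∈ S) ∧ ∑ w ∈ S, m w • F (Qw w) = ∑ j, m (e j) • F (Qw (e j)) := by
  refine ⟨fun j => (S.equivFin.symm j : ι), fun j => (S.equivFin.symm j).2, ?_⟩
  rw [← Finset.sum_coe_sort S (fun w => m w • F (Qw w))]
  exact (Equiv.sum_comp S.equivFin.symm (fun w : S => m w • F (Qw w))).symm

theorem mns_mem [IsAlgClosed k] [CharZero k] {c : Dat k} (hc : c.Good) {ζ ν : k} (hζ : IsPrimitiveRoot ζ c.n)
    (hν : ν ^ c.n = ∏ i, (-(kb c i) / ka c i)) (q : CH c 3 1 →+ V) {M : Type} [Field M] [Algebra k M]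
    (hM : FunF k 1 M) (P : Pnt 3 M) (hP : On (c.over M) P) :
    ∃ (n : ℕ) (m : Fin n → ℤ) (Q : Fin n → Fin 2 → Option k), (∀ j, OnC c (Q j 0) (Q j 1)) ∧
      q (mns c ζ P) = ∑ j, m j • Lval c ζ ν q (Q j) := by
  by_cases hr : Ram P
  · refine ⟨0, fun j => 0, fun j => j.elim0, fun j => j.elim0, ?_⟩
    rw [mns_ram hc hζ P hr]
    simp
  · have hz := (zpt_lift (good_map (M := M) hc) hP hr).1
    have key : ∃ (S : Finset (Place k M)) (m : Place k M → ℤ) (Qw : Place k M → Fin 2 → Option k),
        (∀ w ∈ S, OnC c (Qw w 0) (Qw w 1)) ∧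
          TZ c ζ q (zpt (c.over M) P) = ∑ w ∈ S, m w • Lval c ζ ν q (Qw w) := by
      by_cases h0 : ∃ j, crs (c.over M) (zpt (c.over M) P).R j ≠ 0
      · exact path1' hc hζ hν q hM hz h0
      · push Not at h0
        exact path2 hc hζ hν q hM hz h0
    obtain ⟨S, m, Qw, h1, h2⟩ := key
    obtain ⟨e, he, hs⟩ := L3_fin S m Qw (Lval c ζ ν q)
    refine ⟨S.card, fun j => m (e j), fun j => Qw (e j), fun j => h1 _ (he j), ?_⟩
    rw [← TZ_zpt hc hζ q hP hr, h2, hs]

/-- `tw (t1 w) P` is a lift of the Z-point with `u` multiplied by `w` -/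
private theorem L3_lift {c : Dat k} {M : Type} [Field M] [Algebra k M] {z : Zp M} {P : Pnt 3 M}
    (h : IsLift (c.over M) z P) (w : k) (hw : w ^ c.n = 1) :
    IsLift (c.over M) ⟨z.R, z.Y, algebraMap k M w * z.u⟩ (tw (t1 w) P) := by
  refine ⟨?_, ?_, ?_⟩
  · intro j
    have hj := h.on j
    have hw' : ∀ j, (algebraMap k M (t1 w j)) ^ c.n = 1 := by
      intro j
      rw [← map_pow]
      fin_cases j <;> simp [t1, hw]
    have hwj := hw' j
    simp only [tw, Matrix.cons_val_zero, Matrix.cons_val_one]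
    rcases hx : P j 0 with _ | x <;> rcases hy : P j 1 with _ | y
    · rw [hx, hy] at hj; exact hj
    · rw [hx, hy] at hj
      simp only [OnC, Option.map_some] at hj ⊢
      change y ^ c.n = 1 at hj
      change (algebraMap k M (t1 w j) * y) ^ c.n = 1
      rw [mul_pow, hwj, hj, one_mul]
    · rw [hx, hy] at hj; exact hj
    · rw [hx, hy] at hj
      simp only [OnC, Option.map_some] at hj ⊢
      change y ^ c.n * _ = _ at hj
      change (algebraMap k M (t1 w j) * y) ^ c.n * _ = _
      rw [mul_pow, hwj, one_mul]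
      exact hj
  · obtain ⟨l, hl, hh⟩ := h.val
    refine ⟨l, hl, fun i => ?_⟩
    have h1 := hh i
    have e1 : Xv (c.over M) (tw (t1 w) P) i = Xv (c.over M) P i := by
      simp [Xv, tw]
    have e2 : Yv (c.over M) (tw (t1 w) P) i = Yv (c.over M) P i := by
      simp [Yv, tw]
    rw [e1, e2]
    exact h1
  · obtain ⟨v, hv, hp⟩ := h.prod
    refine ⟨fun j => algebraMap k M (t1 w j) * v j, fun j => ?_, ?_⟩
    · simp [tw, hv j]
    · rw [Finset.prod_mul_distrib, hp]
      have : ∏ j, algebraMap k M (t1 w j) = algebraMap k M w := by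
        simp [Fin.prod_univ_three, t1]
      rw [this]

theorem Lval_norm [IsAlgClosed k] [CharZero k] {c : Dat k} (hc : c.Good) {ζ ν : k} (hζ : IsPrimitiveRoot ζ c.n)
    (hν : ν ^ c.n = ∏ i, (-(kb c i) / ka c i)) (q : CH c 3 1 →+ V) (Q : Fin 2 → Option k)
    (hQ : OnC c (Q 0) (Q 1)) :
    ∑ i ∈ Finset.range c.n, Lval c ζ ν q (![Q 0, (Q 1).map fun v => ζ ^ i * v]) = 0 := by
  have hζ0 : ζ ≠ 0 := hζ.ne_zero (by have := hc.two; omega)
  have hζn : ζ ^ c.n = 1 := hζ.pow_eq_one
  by_cases hr : Q 1 = none ∨ Q 1 = some 0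
  · apply Finset.sum_eq_zero
    intro i _
    apply Lval_ram
    rcases hr with hr | hr
    · left; simp [hr]
    · right; simp [hr]
  · obtain ⟨M, _, _, z, hM, hz, hl, hfy⟩ := line_pt hc hν Q hQ hr
    obtain ⟨M', _, _, i, P, hfin, hP⟩ := exists_lift hc z hz
    obtain ⟨hR, y, hy, hy0, hu⟩ := hl
    -- the Z-points
    have hstep : ∀ j ∈ Finset.range c.n,
        q (mns c ζ (tw (t1 (ζ ^ (c.n - j))) P)) =
          Module.finrank i.fieldRange M' • Lval c ζ ν q (![Q 0, (Q 1).map fun v => ζ ^ j * v]) := by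
      intro j hj
      have hjn : j ≤ c.n := (Finset.mem_range.1 hj).le
      have hw : (ζ ^ (c.n - j)) ^ c.n = 1 := by
        rw [← pow_mul, mul_comm, pow_mul, hζn, one_pow]
      have hww : ζ ^ (c.n - j) * ζ ^ j = 1 := by
        rw [← pow_add, Nat.sub_add_cancel hjn, hζn]
      set w := ζ ^ (c.n - j) with hwdef
      let z' : Zp M := ⟨z.R, z.Y, algebraMap k M w * z.u⟩
      have hw0 : w ≠ 0 := pow_ne_zero _ hζ0
      have hz' : IsZ (c.over M) z' := by
        refine ⟨hz.R0, hz.Y0, ?_, ?_, hz.r1, hz.r2⟩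
        · exact mul_ne_zero (by simpa using hw0) hz.u0
        · have := hz.un
          change z.u ^ c.n = _ at this
          change (algebraMap k M w * z.u) ^ c.n = _
          rw [mul_pow, ← map_pow, hw, map_one, one_mul, this]
      have hlift : IsLift (c.over M') (z'.map i) (tw (t1 w) P) := by
        have h1 := L3_lift hP w hw
        have h2 : (z'.map i) = ⟨(z.map i).R, (z.map i).Y, algebraMap k M' w * (z.map i).u⟩ := by
          simp only [Zp.map, z', Zp.mk.injEq, true_and]
          rw [map_mul, AlgHom.commutes]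
        rw [h2]
        exact h1
      rw [TZ_spec hc hζ q hz' i _ hfin hlift]
      have hQj : OnC c ((![Q 0, (Q 1).map fun v => ζ ^ j * v] : Fin 2 → Option k) 0)
          ((![Q 0, (Q 1).map fun v => ζ ^ j * v] : Fin 2 → Option k) 1) := by
        have hzj : (ζ ^ j) ^ c.n = 1 := by
          rw [← pow_mul, mul_comm, pow_mul, hζn, one_pow]
        rw [hy] at hQ
        simp only [Matrix.cons_val_zero, Matrix.cons_val_one, hy, Option.map_some]
        rcases hx : Q 0 with _ | x
        · rw [hx] at hQ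
          change y ^ c.n = 1 at hQ
          change (ζ ^ j * y) ^ c.n = 1
          rw [mul_pow, hzj, hQ, one_mul]
        · rw [hx] at hQ
          change y ^ c.n * _ = _ at hQ
          change (ζ ^ j * y) ^ c.n * _ = _
          rw [mul_pow, hzj, one_mul]
          exact hQ
      have hl' : OnLine c ν (![Q 0, (Q 1).map fun v => ζ ^ j * v]) z' := by
        refine ⟨?_, ζ ^ j * y, ?_, ?_, ?_⟩
        · intro i'
          simpa using hR i'
        · simp [hy]
        · exact mul_ne_zero (pow_ne_zero _ hζ0) hy0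
        · change algebraMap k M w * z.u * algebraMap k M (ζ ^ j * y) = algebraMap k M ν
          rw [map_mul, ← hu]
          have : algebraMap k M w * algebraMap k M (ζ ^ j) = 1 := by
            rw [← map_mul, hww, map_one]
          linear_combination (z.u * algebraMap k M y) * this
      rw [Lval_spec hc hζ hν q _ hQj hM hz' hl']
      have : Module.finrank (yf k z'.Y) M = 1 := hfy
      rw [this, one_smul]
    have hsum : ∑ j ∈ Finset.range c.n, q (mns c ζ (tw (t1 (ζ ^ (c.n - j))) P)) = 0 := by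
      have h0 : ∑ j ∈ Finset.range c.n, q (mns c ζ (tw (t1 (ζ ^ j)) P)) = 0 := by
        rw [← map_sum, mns_norm hc hζ P, map_zero]
      rw [← h0]
      have h2 := hc.two
      refine Finset.sum_bij' (fun j _ => (c.n - j) % c.n) (fun j _ => (c.n - j) % c.n) ?_ ?_ ?_ ?_ ?_
      · intro j _
        exact Finset.mem_range.2 (Nat.mod_lt _ (by omega))
      · intro j _
        exact Finset.mem_range.2 (Nat.mod_lt _ (by omega))
      · intro j hj
        have hj' := Finset.mem_range.1 hj
        rcases Nat.eq_zero_or_pos j with rfl | hp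
        · simp
        · rw [Nat.mod_eq_of_lt (show c.n - j < c.n by omega)]
          rw [Nat.mod_eq_of_lt (show c.n - (c.n - j) < c.n by omega)]
          omega
      · intro j hj
        have hj' := Finset.mem_range.1 hj
        rcases Nat.eq_zero_or_pos j with rfl | hp
        · simp
        · rw [Nat.mod_eq_of_lt (show c.n - j < c.n by omega)]
          rw [Nat.mod_eq_of_lt (show c.n - (c.n - j) < c.n by omega)]
          omega
      · intro j hj
        have : ζ ^ ((c.n - j) % c.n) = ζ ^ (c.n - j) := by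
          conv_rhs => rw [← Nat.mod_add_div (c.n - j) c.n, pow_add, pow_mul, hζn, one_pow, mul_one]
        rw [this]
    rw [Finset.sum_congr rfl hstep, ← Finset.smul_sum] at hsum
    rw [← Nat.cast_smul_eq_nsmul ℚ] at hsum
    exact (smul_eq_zero.1 hsum).resolve_left (by exact_mod_cast hfin)

end Pool.Agent.LibCW77
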