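import Pool.Agent.LibCW77.Defs3
import Pool.Agent.LibCW77.L2
import Pool.Agent.LibCW77.L3
import Pool.Agent.LibCW77.D4
import Pool.Agent.LibCW77.Defs4
/-!
[CW77 L4] Torsion implies zero. `D = ∑ m_j Q_j`, `D - τ D` torsion in `CH_0(C)`. `L` of `exists_L`: `∑ m_j (Lval Q_j - Lval (τ Q_j)) = 0` (a torsion element maps to `0` in the `ℚ`-vector space `V`). Let
`τ_* : CH c 1 0 → CH c 1 0` (`exists_tw`, m = 1); it preserves torsion, so also `∑ m_j Lval (τ^i Q_j)` is independent of `i`; the sum over `i < n` is `0` (`Lval_norm`), so `n ∑ m_j Lval Q_j = 0`.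
-/

open scoped Classical
open Polynomial

namespace Pool.Agent.LibCW77

open Pool.Agent.LibBH2
open Pool.Agent.LibCHd (VR RF Red FunF)

variable {k : Type} [Field k]

variable {V : Type} [AddCommGroup V] [Module ℚ V]

private theorem L4_funF0 : FunF k 0 k := by
  refine ⟨fun i => i.elim0, algebraicIndependent_empty_type_iff.mpr (algebraMap k k).injective, ?_⟩
  have : FiniteDimensional k k := inferInstance
  exact FiniteDimensional.right k _ k

private theorem L4_over (c : Dat k) : c.over k = c := by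
  cases c
  simp [Dat.over, Dat.map]

private theorem L4_onC_mul {c : Dat k} {ζ : k} (hζ : ζ ^ c.n = 1) {x v : Option k} (h : OnC c x v) :
    OnC c x (v.map fun y => ζ * y) := by
  rcases x with _ | x <;> rcases v with _ | v
  · exact h
  · simp only [OnC, Option.map_some, mul_pow, hζ, one_mul] at h ⊢
    exact h
  · exact h
  · simp only [OnC, Option.map_some, mul_pow, hζ, one_mul] at h ⊢
    exact h

private theorem L4_tau_iter (ζ : k) (Q : Fin 2 → Option k) (i : ℕ) :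
    (tau ζ)^[i] Q = ![Q 0, (Q 1).map fun v => ζ ^ i * v] := by
  induction i with
  | zero =>
    funext j
    fin_cases j <;> simp
  | succ i ih =>
    rw [Function.iterate_succ_apply', ih]
    funext j
    fin_cases j
    · simp [tau]
    · simp only [tau, Fin.mk_one, Matrix.cons_val_one, Matrix.cons_val_fin_one, Option.map_map,
        Function.comp_def, Algebra.algebraMap_self, RingHom.id_apply]
      congr 1
      funext v
      ring

private theorem L4_onC_iter {c : Dat k} {ζ : k} (hζ : ζ ^ c.n = 1) {Q : Fin 2 → Option k}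
    (h : OnC c (Q 0) (Q 1)) (i : ℕ) : OnC c (((tau ζ)^[i] Q) 0) (((tau ζ)^[i] Q) 1) := by
  rw [L4_tau_iter]
  have := L4_onC_mul (c := c) (ζ := ζ ^ i) (by rw [← pow_mul, mul_comm, pow_mul, hζ, one_pow]) h
  simpa using this

private theorem L4_tw (ζ : k) (Q : Fin 2 → Option k) :
    tw (fun _ : Fin 1 => ζ) (pt1 Q) = pt1 (tau ζ Q) := rfl

private theorem L4_torsion_zero {A : Type*} [AddCommGroup A] (f : A →+ V) {x : A} (h : IsOfFinAddOrder x) :
    f x = 0 := by
  obtain ⟨n, hn, hx⟩ := isOfFinAddOrder_iff_nsmul_eq_zero.mp h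
  have h1 : n • f x = 0 := by rw [← map_nsmul, hx, map_zero]
  have h2 : (n : ℚ) • f x = 0 := by rw [← h1]; exact Nat.cast_smul_eq_nsmul ℚ n (f x)
  rcases smul_eq_zero.mp h2 with h3 | h3
  · exact absurd (Nat.cast_eq_zero.mp h3) (by omega)
  · exact h3

theorem Lval_zero [IsAlgClosed k] [CharZero k] {c : Dat k} (hc : c.Good) {ζ ν : k} (hζ : IsPrimitiveRoot ζ c.n)
    (hν : ν ^ c.n = ∏ i, (-(kb c i) / ka c i)) (q : CH c 3 1 →+ V) {n : ℕ} (m : Fin n → ℤ)
    (Q : Fin n → Fin 2 → Option k) (hQ : ∀ j, OnC c (Q j 0) (Q j 1))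
    (h : IsOfFinAddOrder (∑ j, m j • (cls c 0 (pt1 (Q j)) - cls c 0 (pt1 (tau ζ (Q j)))))) :
    ∑ j, m j • Lval c ζ ν q (Q j) = 0 := by
  have hζ1 : ζ ^ c.n = 1 := hζ.pow_eq_one
  obtain ⟨L, hL⟩ := exists_L hc hζ hν q
  obtain ⟨Γ, hΓ⟩ := exists_tw (m := 1) c hc 0 (fun _ => ζ) (fun _ => hζ1)
  have hΓk : ∀ Q' : Fin 2 → Option k, OnC c (Q' 0) (Q' 1) →
      Γ (cls c 0 (pt1 Q')) = cls c 0 (pt1 (tau ζ Q')) := by
    intro Q' hQ'
    have h1 := hΓ k (pt1 Q') L4_funF0 (by rw [L4_over]; intro j; exact hQ')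
    rw [h1, L4_tw]
  -- the iterates
  have hD : ∀ i : ℕ, IsOfFinAddOrder (∑ j, m j • (cls c 0 (pt1 ((tau ζ)^[i] (Q j))) -
      cls c 0 (pt1 ((tau ζ)^[i + 1] (Q j))))) := by
    intro i
    induction i with
    | zero => simpa using h
    | succ i ih =>
      have h2 := AddMonoidHom.isOfFinAddOrder Γ ih
      rw [map_sum] at h2
      have h3 : ∀ j, Γ (m j • (cls c 0 (pt1 ((tau ζ)^[i] (Q j))) - cls c 0 (pt1 ((tau ζ)^[i + 1] (Q j))))) =
          m j • (cls c 0 (pt1 ((tau ζ)^[i + 1] (Q j))) - cls c 0 (pt1 ((tau ζ)^[i + 1 + 1] (Q j)))) := by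
        intro j
        rw [map_zsmul, map_sub, hΓk _ (L4_onC_iter hζ1 (hQ j) i), hΓk _ (L4_onC_iter hζ1 (hQ j) (i + 1)),
          ← Function.iterate_succ_apply' (tau ζ) i (Q j), ← Function.iterate_succ_apply' (tau ζ) (i + 1) (Q j)]
      rw [Finset.sum_congr rfl fun j _ => h3 j] at h2
      exact h2
  have hS : ∀ i : ℕ, ∑ j, m j • Lval c ζ ν q ((tau ζ)^[i] (Q j)) =
      ∑ j, m j • Lval c ζ ν q ((tau ζ)^[i + 1] (Q j)) := by
    intro i
    have h4 := L4_torsion_zero L (hD i)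
    rw [map_sum] at h4
    have h5 : ∀ j, L (m j • (cls c 0 (pt1 ((tau ζ)^[i] (Q j))) - cls c 0 (pt1 ((tau ζ)^[i + 1] (Q j))))) =
        m j • Lval c ζ ν q ((tau ζ)^[i] (Q j)) - m j • Lval c ζ ν q ((tau ζ)^[i + 1] (Q j)) := by
      intro j
      rw [map_zsmul, map_sub, hL _ (L4_onC_iter hζ1 (hQ j) i), hL _ (L4_onC_iter hζ1 (hQ j) (i + 1)), smul_sub]
    rw [Finset.sum_congr rfl fun j _ => h5 j, Finset.sum_sub_distrib] at h4
    exact sub_eq_zero.mp h4
  have hS0 : ∀ i : ℕ, ∑ j, m j • Lval c ζ ν q ((tau ζ)^[i] (Q j)) = ∑ j, m j • Lval c ζ ν q (Q j) := by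
    intro i
    induction i with
    | zero => simp
    | succ i ih => rw [← hS i, ih]
  have hsum : ∑ i ∈ Finset.range c.n, ∑ j, m j • Lval c ζ ν q ((tau ζ)^[i] (Q j)) = 0 := by
    rw [Finset.sum_comm]
    refine Finset.sum_eq_zero fun j _ => ?_
    rw [← Finset.smul_sum]
    have h6 := Lval_norm hc hζ hν q (Q j) (hQ j)
    rw [Finset.sum_congr rfl fun i _ => by rw [L4_tau_iter]]
    rw [h6, smul_zero]
  rw [Finset.sum_congr rfl fun i _ => hS0 i, Finset.sum_const, Finset.card_range] at hsum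
  have h7 : ((c.n : ℕ) : ℚ) • ∑ j, m j • Lval c ζ ν q (Q j) = 0 := by
    rw [← hsum]; exact Nat.cast_smul_eq_nsmul ℚ c.n _
  rcases smul_eq_zero.mp h7 with h8 | h8
  · exact absurd (Nat.cast_eq_zero.mp h8) (by have := hc.two; omega)
  · exact h8

end Pool.Agent.LibCW77
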