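import Pool.Agent.LibCW77.NG1

/-!
[CW77 NC] MEDIUM: comparison of leading terms

Expand: `(a0 v + a1 v ^ 2)(s0 v + s1 v ^ 2) = f (a0 s1 + a1 s0) + f a1 s1 v + a0 s0 v ^ 2` (`v ^ 3 = j f`). So the right side is
`w0 ((1 + β ^ 2 f (a0 s1 + a1 s0)) + β (a0 + s0 + β f a1 s1) v + β (a1 + s1 + β a0 s0) v ^ 2)`. By `hu` (applied to the difference):
`g0 = w0 (1 + β ^ 2 f (a0 s1 + a1 s0))`, `g0 β γ0 = w0 β (a0 + s0 + β f a1 s1)`, `g0 β γ1 = w0 β (a1 + s1 + β a0 s0)`. Cancel `β ≠ 0` and `w0 ≠ 0`: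
`γ0 (1 + β ^ 2 f (...)) = a0 + s0 + β f a1 s1`; take reductions of both sides (`rd_*`, `rd_unique`, `rs O β = 0`).
-/

open scoped Classical
open Polynomial

namespace Pool.Agent.LibCW77

open Pool.Agent.LibBH2
open Pool.Agent.LibCHd (VR RF Red FunF)

variable {k : Type} [Field k]

theorem cmp {O : ValuationSubring k} {L : Type} [Field L] (j : RatFunc k →+* L) {v : L} {f : RatFunc k}
    {f' : RatFunc (KK O)} (hv : v ^ 3 = j f) (hf : Rd O f f')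
    (hu : ∀ r0 r1 r2 : RatFunc k, j r0 + j r1 * v + j r2 * v ^ 2 = 0 → r0 = 0 ∧ r1 = 0 ∧ r2 = 0)
    {β : O} (hβ : rs O β = 0) (hβ0 : β ≠ 0) {g0 w0 : RatFunc k} (hw : w0 ≠ 0)
    {γ a s : Fin 2 → RatFunc k} {γ' a' s' : Fin 2 → RatFunc (KK O)} (hγ : ∀ l, Rd O (γ l) (γ' l))
    (ha : ∀ l, Rd O (a l) (a' l)) (hs : ∀ l, Rd O (s l) (s' l))
    (h : j g0 * (1 + j (RatFunc.C (β : k)) * (j (γ 0) * v + j (γ 1) * v ^ 2)) =
      j w0 * ((1 + j (RatFunc.C (β : k)) * (j (a 0) * v + j (a 1) * v ^ 2)) *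
        (1 + j (RatFunc.C (β : k)) * (j (s 0) * v + j (s 1) * v ^ 2)))) (l : Fin 2) :
    γ' l = a' l + s' l := by
  obtain ⟨b, hb⟩ : ∃ b : RatFunc k, b = RatFunc.C (β : k) := ⟨_, rfl⟩
  rw [← hb] at h
  have hb0 : b ≠ 0 := by
    rw [hb, ne_eq, map_eq_zero]
    exact fun h0 => hβ0 (Subtype.ext h0)
  have hbr : Rd O b 0 := by
    have h1 := rd_C β
    rw [hβ, map_zero, ← hb] at h1
    exact h1
  obtain ⟨r0, r1, r2⟩ := hu (g0 - w0 * (1 + b ^ 2 * (f * (a 0 * s 1 + a 1 * s 0))))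
    (g0 * b * γ 0 - w0 * (b * (a 0 + s 0 + b * (f * (a 1 * s 1)))))
    (g0 * b * γ 1 - w0 * (b * (a 1 + s 1 + b * (a 0 * s 0)))) (by
      simp only [map_sub, map_mul, map_add, map_one, map_pow]
      linear_combination h + (-(j w0) * j b ^ 2 * ((j (a 0) * j (s 1) + j (a 1) * j (s 0)) +
        j (a 1) * j (s 1) * v)) * hv * (-1))
  have hD : Rd O (1 + b ^ 2 * (f * (a 0 * s 1 + a 1 * s 0)))
      (1 + 0 ^ 2 * (f' * (a' 0 * s' 1 + a' 1 * s' 0))) :=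
    rd_add rd_one (rd_mul (rd_pow hbr 2) (rd_mul hf (rd_add (rd_mul (ha 0) (hs 1)) (rd_mul (ha 1) (hs 0)))))
  have hg : g0 = w0 * (1 + b ^ 2 * (f * (a 0 * s 1 + a 1 * s 0))) := by linear_combination r0
  rw [hg] at r1 r2
  have q0 : γ 0 * (1 + b ^ 2 * (f * (a 0 * s 1 + a 1 * s 0))) = a 0 + s 0 + b * (f * (a 1 * s 1)) := by
    refine mul_left_cancel₀ (mul_ne_zero hw hb0) ?_
    linear_combination r1
  have q1 : γ 1 * (1 + b ^ 2 * (f * (a 0 * s 1 + a 1 * s 0))) = a 1 + s 1 + b * (a 0 * s 0) := by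
    refine mul_left_cancel₀ (mul_ne_zero hw hb0) ?_
    linear_combination r2
  have k0 := rd_mul (hγ 0) hD
  have k1 := rd_mul (hγ 1) hD
  rw [q0] at k0
  rw [q1] at k1
  have m0 := rd_unique k0 (rd_add (rd_add (ha 0) (hs 0)) (rd_mul hbr (rd_mul hf (rd_mul (ha 1) (hs 1)))))
  have m1 := rd_unique k1 (rd_add (rd_add (ha 1) (hs 1)) (rd_mul hbr (rd_mul (ha 0) (hs 0))))
  have n0 : γ' 0 = a' 0 + s' 0 := by linear_combination m0
  have n1 : γ' 1 = a' 1 + s' 1 := by linear_combination m1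
  match l with
  | 0 => exact n0
  | 1 => exact n1

end Pool.Agent.LibCW77
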