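import Pool.Agent.LibCW77.GDefs

/-!
Definitions for the 3-adic theorem: reduction of rational functions.
-/

open scoped Classical
open Polynomial

namespace Pool.Agent.LibCW77

open Pool.Agent.LibBH2
open Pool.Agent.LibCHd (VR RF Red FunF)

variable {k : Type} [Field k]

/-- `∏ (x - a_i)` -/
noncomputable def Ap (c : Dat k) : k[X] := ∏ i, (X - C (c.a i))

/-- `∏ (x - b_i)` -/
noncomputable def Bp (c : Dat k) : k[X] := ∏ i, (X - C (c.b i))

/-- `A B (A' B - A B')`, `A = ∏ (x - a_i)`, `B = ∏ (x - b_i)` -/
noncomputable def Wp (c : Dat k) : k[X] :=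
  Ap c * Bp c * (derivative (Ap c) * Bp c - Ap c * derivative (Bp c))

/-- `O` is a valuation ring with `3` in its maximal ideal, the six numbers `a_i`, `b_i` are in `O` and different modulo
the maximal ideal, the polynomial of the flexes has the degree `6` modulo the maximal ideal, and for every flex
`(x, y)` the point `y` is in `O` and is not a zero of `A B (A' B - A B')` modulo the maximal ideal -/
structure Sep (O : ValuationSubring k) (c : Dat k) : Prop where
  three : (3 : k)⁻¹ ∉ O
  mem : ∀ s, Sum.elim c.a c.b s ∈ O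
  sep : ∀ s t, s ≠ t → (Sum.elim c.a c.b s - Sum.elim c.a c.b t)⁻¹ ∈ O
  lead0 : (Hp c).coeff 6 ≠ 0
  lead : ((Hp c).coeff 6)⁻¹ ∈ O
  flex : ∀ x z, Flex c x z → ∃ y ∈ O, z = some y ∧ (Wp c).eval y ≠ 0 ∧ ((Wp c).eval y)⁻¹ ∈ O

section

variable (O : ValuationSubring k)

/-- the residue field of `O` -/
abbrev KK : Type := IsLocalRing.ResidueField O

/-- the reduction map -/
noncomputable abbrev rs : O →+* KK O := IsLocalRing.residue O

/-- `r` is the quotient of polynomials `p`, `q` over `O`, `q` not zero modulo the maximal ideal, and `r'` is the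
quotient of their reductions -/
def Rd (r : RatFunc k) (r' : RatFunc (KK O)) : Prop :=
  ∃ p q : O[X], q.map (rs O) ≠ 0 ∧
    r = algebraMap k[X] (RatFunc k) (p.map (algebraMap O k)) / algebraMap k[X] (RatFunc k) (q.map (algebraMap O k)) ∧
    r' = algebraMap (KK O)[X] (RatFunc (KK O)) (p.map (rs O)) /
      algebraMap (KK O)[X] (RatFunc (KK O)) (q.map (rs O))

variable {O}

/-- the pairs `(y, b)` of `S` with `y` in the residue class `t` -/
noncomputable def cl (S : Multiset (O × O)) (t : KK O) : Multiset (O × O) := S.filter fun p => rs O p.1 = t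

/-- the polynomial with the roots `b`, `(y, b)` in `S`, `y` in the residue class `t` -/
noncomputable def PJ (S : Multiset (O × O)) (t : KK O) : O[X] := ((cl S t).map fun p => X - C p.2).prod

end

end Pool.Agent.LibCW77
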