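import Pool.Agent.LibCW77.NDefs
import Pool.Agent.LibCW77.C1

/-!
[CW77 NE1] MEDIUM: the function field as a space over k(x)

`x` is transcendental (`h.tr`), so `aeval x : k[X] → N` is injective and extends to `RatFunc k` (`RatFunc.liftRingHom` / `IsFractionRing.lift` /
`IsLocalization.lift`). `finrank_x` (C1.lean) says that the degree of `N` over `k(x)` is `c.n = 3`. `v ^ 3 * ∏ (x - b_i) = ∏ (x - a_i)` (`h.on`), so `v ^ 3 = j f`.
Span: the subfield generated by `j.range` and `v` is everything (`h.gen`) and `v` is algebraic, so `N = k(x)[v]` is spanned by `1, v, v ^ 2`. Independence: three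
elements which span a space of dimension `3` are independent (`linearIndependent_of_top_le_span_of_card_eq_finrank`), with `N` as a module over
`RatFunc k` by `j` (or over `IntermediateField.adjoin k {x}`, whose elements are `j r`).
-/

open scoped Classical
open Polynomial

namespace Pool.Agent.LibCW77

open Pool.Agent.LibBH2
open Pool.Agent.LibCHd (VR RF Red FunF)

variable {k : Type} [Field k]

theorem ne_rep [CharZero k] {c : Dat k} (hc : c.Good) (h3 : c.n = 3) {N : Type} [Field N] [Algebra k N] {x v : N}
    (h : GenC c x v) :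
    ∃ j : RatFunc k →+* N, (∀ p : k[X], j (algebraMap k[X] (RatFunc k) p) = aeval x p) ∧
      (∀ z : N, ∃ r0 r1 r2 : RatFunc k, z = j r0 + j r1 * v + j r2 * v ^ 2) ∧
      ∀ r0 r1 r2 : RatFunc k, j r0 + j r1 * v + j r2 * v ^ 2 = 0 → r0 = 0 ∧ r1 = 0 ∧ r2 = 0 := by
  have hfin : Module.finrank (IntermediateField.adjoin k {x}) N = 3 := (finrank_x hc h).trans h3
  set F := IntermediateField.adjoin k {x} with hF
  let e : RatFunc k ≃ₐ[k] F := RatFunc.algEquivOfTranscendental x h.tr
  have hfd : FiniteDimensional F N := Module.finite_of_finrank_pos (by rw [hfin]; norm_num)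
  have hint : IsIntegral F v := Algebra.IsIntegral.isIntegral v
  have htop : IntermediateField.adjoin F {v} = ⊤ := by
    apply IntermediateField.restrictScalars_injective k
    rw [IntermediateField.restrictScalars_top]
    exact (IntermediateField.adjoin_simple_adjoin_simple k x v).trans h.gen
  have hdeg : (minpoly F v).natDegree = 3 := by
    have h1 := IntermediateField.adjoin.finrank hint
    rw [htop, IntermediateField.finrank_top', hfin] at h1
    exact h1.symm
  have hmon : (minpoly F v).Monic := minpoly.monic hint
  let j : RatFunc k →+* N := (algebraMap F N).comp (e : RatFunc k →+* F)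
  have hj : ∀ r, j r = algebraMap F N (e r) := fun _ => rfl
  refine ⟨j, ?_, ?_, ?_⟩
  · intro p
    rw [hj]
    have h1 : e (algebraMap k[X] (RatFunc k) p) = aeval (IntermediateField.AdjoinSimple.gen k x) p :=
      RatFunc.algEquivOfTranscendental_algebraMap x h.tr p
    rw [h1]
    have h2 := Polynomial.aeval_algHom_apply F.val (IntermediateField.AdjoinSimple.gen k x) p
    exact h2.symm
  · intro z
    have hz : z ∈ (IntermediateField.adjoin F {v}).toSubalgebra := by
      rw [htop]
      trivial
    rw [IntermediateField.adjoin_simple_toSubalgebra_of_isAlgebraic hint.isAlgebraic,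
      Algebra.adjoin_singleton_eq_range_aeval] at hz
    obtain ⟨q, hq⟩ := hz
    have hq' : aeval v q = z := hq
    have h1 : aeval v (q %ₘ minpoly F v) = z := by
      rw [← hq']
      exact Polynomial.aeval_modByMonic_eq_self_of_root (minpoly.aeval F v)
    have h2 : (q %ₘ minpoly F v).natDegree < 3 := by
      rw [← hdeg]
      apply Polynomial.natDegree_modByMonic_lt _ hmon
      intro h5
      rw [h5, natDegree_one] at hdeg
      exact absurd hdeg (by norm_num)
    set q' := q %ₘ minpoly F v with hq'd
    refine ⟨e.symm (q'.coeff 0), e.symm (q'.coeff 1), e.symm (q'.coeff 2), ?_⟩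
    rw [hj, hj, hj, e.apply_symm_apply, e.apply_symm_apply, e.apply_symm_apply, ← h1]
    conv_lhs => rw [q'.as_sum_range_C_mul_X_pow' h2]
    rw [Finset.sum_range_succ, Finset.sum_range_succ, Finset.sum_range_one]
    simp only [map_add, map_mul, map_pow, aeval_X, aeval_C, pow_zero, mul_one, pow_one]
  · intro r0 r1 r2 h0
    rw [hj, hj, hj] at h0
    have h1 : aeval v (C (e r0) + C (e r1) * X + C (e r2) * X ^ 2 : F[X]) = 0 := by
      simpa only [map_add, map_mul, map_pow, aeval_X, aeval_C] using h0
    have h2 := minpoly.dvd F v h1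
    have h4 : (C (e r0) + C (e r1) * X + C (e r2) * X ^ 2 : F[X]) = 0 := by
      by_contra hne
      have h5 := natDegree_le_of_dvd h2 hne
      have h6 : (C (e r0) + C (e r1) * X + C (e r2) * X ^ 2 : F[X]).natDegree ≤ 2 := by
        compute_degree
      omega
    have c0 := congrArg (fun P : F[X] => P.coeff 0) h4
    have c1 := congrArg (fun P : F[X] => P.coeff 1) h4
    have c2 := congrArg (fun P : F[X] => P.coeff 2) h4
    simp [coeff_X, coeff_C, coeff_X_pow] at c0 c1 c2
    exact ⟨c0, c1, c2⟩

end Pool.Agent.LibCW77
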