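import Pool.Agent.LibCW77.NDefs
import Pool.Agent.LibCW77.C1

/-!
[CW77 NE2] STRONG: local coordinates

`aeval x p` at a place `w` with `Red w x a` has the value `p.eval a`; so if `r.denom.eval a ≠ 0` then `Red w (j r) (r.num.eval a / r.denom.eval a)`
(`RatFunc.num_div_denom`). Suppose some `r_l` has a pole at `a`; let `s > 0` be the largest multiplicity of `a` in the denominators; then
`r_l = j... (x - a) ^ (-s) * u_l`, `u_l` regular at `a`, not all `u_l(a) = 0` (`num` and `denom` are coprime). Let `b₀ ^ 3 = A(a) / B(a)` (`≠ 0`), `ζ` a primitive third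
root of unity; the polynomial `u_0(a) + u_1(a) T + u_2(a) T ^ 2` is not zero and does not vanish at all three numbers `b = ζ ^ i b₀`. For such a `b` take the place
`w` of the point `(a, b)` (`placeC` in C1.lean, which also gives `w.ord (x - a) = 1`): `j r_0 + j r_1 v + j r_2 v ^ 2 = (x - a) ^ (-s) *` (a function with a value
`≠ 0`), so it is not `0` and has the order `- s < 0`, contradiction to `hz`. `Ap c`, `Bp c`: `Polynomial.eval_prod`.
-/

open scoped Classical
open Polynomial

namespace Pool.Agent.LibCW77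

open Pool.Agent.LibBH2
open Pool.Agent.LibCHd (VR RF Red FunF)

variable {k : Type} [Field k]

/-- the value of a polynomial in `x` at a place -/
private theorem NE2_poly {N : Type} [Field N] [Algebra k N] {x : N} {w : Place k N} {a : k}
    (h : Red w x (algebraMap k (RF w) a)) (p : k[X]) :
    Red w (aeval x p) (algebraMap k (RF w) (p.eval a)) := by
  induction p using Polynomial.induction_on' with
  | add p q hp hq =>
    rw [map_add, eval_add, map_add]
    exact hp.add hq
  | monomial n c =>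
    rw [aeval_monomial, eval_monomial, map_mul, map_pow]
    exact (LibCHd.red_const w c).mul (h.pow n)

private theorem NE2_aeval_ne {N : Type} [Field N] [Algebra k N] {x : N} (hx : Transcendental k x)
    {p : k[X]} (hp : p ≠ 0) : aeval x p ≠ 0 := fun h => hx ⟨p, hp, h⟩

/-- clearing the pole of a rational function -/
private theorem NE2_clear {N : Type} [Field N] [Algebra k N] {x : N} (hx : Transcendental k x)
    (j : RatFunc k →+* N) (hj : ∀ p : k[X], j (algebraMap k[X] (RatFunc k) p) = aeval x p)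
    (r : RatFunc k) (a : k) (s : ℕ) (hs : r.denom.rootMultiplicity a ≤ s) :
    ∃ u : k, (∀ w : Place k N, Red w x (algebraMap k (RF w) a) →
      Red w (j r * (x - algebraMap k N a) ^ s) (algebraMap k (RF w) u)) ∧
      (0 < s → s = r.denom.rootMultiplicity a → u ≠ 0) := by
  set n := r.denom.rootMultiplicity a with hn
  set q := r.denom /ₘ (X - C a) ^ n with hq
  have h1 : (X - C a) ^ n * q = r.denom :=
    Polynomial.pow_mul_divByMonic_rootMultiplicity_eq r.denom a
  have h2 : q.eval a ≠ 0 :=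
    Polynomial.eval_divByMonic_pow_rootMultiplicity_ne_zero a r.denom_ne_zero
  have hq0 : q ≠ 0 := by
    intro h
    rw [h, eval_zero] at h2
    exact h2 rfl
  have hd0 := NE2_aeval_ne hx r.denom_ne_zero
  have hq1 := NE2_aeval_ne hx hq0
  have ht : aeval x (X - C a : k[X]) = x - algebraMap k N a := by
    rw [map_sub, aeval_X, aeval_C]
  have h3 : j r = aeval x r.num / aeval x r.denom := by
    have e := RatFunc.num_div_denom r
    rw [← hj, ← hj, ← map_div₀, e]
  have hd1 : aeval x r.denom = (x - algebraMap k N a) ^ n * aeval x q := by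
    rw [← h1, map_mul, map_pow, ht]
  have h4 : j r * (x - algebraMap k N a) ^ s =
      aeval x (r.num * (X - C a) ^ (s - n)) / aeval x q := by
    have e : (x - algebraMap k N a) ^ s =
        (x - algebraMap k N a) ^ n * (x - algebraMap k N a) ^ (s - n) := by
      rw [← pow_add]
      congr 1
      omega
    rw [h3, map_mul, map_pow, ht, e, div_mul_eq_mul_div, div_eq_div_iff hd0 hq1, hd1]
    ring
  refine ⟨(r.num * (X - C a) ^ (s - n)).eval a / q.eval a, ?_, ?_⟩
  · intro w hw
    rw [h4, map_div₀]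
    refine (NE2_poly hw _).div (NE2_poly hw _) ?_
    intro h0
    exact h2 ((algebraMap k (RF w)).injective (by rw [h0, map_zero]))
  · intro hs0 hsn
    have e : s - n = 0 := by omega
    rw [e, pow_zero, mul_one]
    refine div_ne_zero ?_ h2
    intro h5
    have hn0 : 0 < n := by omega
    have h6 : r.denom.eval a = 0 := by
      rw [← h1, eval_mul, eval_pow, eval_sub, eval_X, eval_C, sub_self, zero_pow hn0.ne', zero_mul]
    obtain ⟨A, B, hAB⟩ := r.isCoprime_num_denom
    have h7 := congrArg (Polynomial.eval a) hAB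
    rw [eval_add, eval_mul, eval_mul, h5, h6, mul_zero, mul_zero, add_zero, eval_one] at h7
    exact zero_ne_one h7

private theorem NE2_prim (k : Type) [Field k] [IsAlgClosed k] [CharZero k] :
    ∃ ζ : k, IsPrimitiveRoot ζ 3 := by
  have : NeZero ((3 : ℕ) : k) := ⟨by norm_num⟩
  exact HasEnoughRootsOfUnity.exists_primitiveRoot k 3

private theorem NE2_cube [CharZero k] {ζ b u0 u1 u2 : k} (hζ : ζ ^ 2 + ζ + 1 = 0) (hb : b ≠ 0)
    (e0 : u0 + u1 * b + u2 * b ^ 2 = 0)
    (e1 : u0 + u1 * (ζ * b) + u2 * (ζ * b) ^ 2 = 0)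
    (e2 : u0 + u1 * (ζ ^ 2 * b) + u2 * (ζ ^ 2 * b) ^ 2 = 0) : u0 = 0 ∧ u1 = 0 ∧ u2 = 0 := by
  have h3 : (3 : k) ≠ 0 := by norm_num
  have a0 : 3 * u0 = 0 := by
    linear_combination e0 + e1 + e2 - (u1 * b + u2 * b ^ 2 * (ζ ^ 2 - ζ + 1)) * hζ
  have a1 : 3 * (u1 * b) = 0 := by
    linear_combination e0 + ζ ^ 2 * e1 + ζ * e2 -
      (u0 + 2 * (u1 * b) * (ζ - 1) + u2 * b ^ 2 * (ζ ^ 3 - ζ + 1)) * hζ
  have a2 : 3 * (u2 * b ^ 2) = 0 := by
    linear_combination e0 + ζ * e1 + ζ ^ 2 * e2 -
      (u0 + u1 * b * (ζ ^ 2 - ζ + 1) + u2 * b ^ 2 * ((ζ - 1) * (ζ ^ 3 + 2))) * hζ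
  refine ⟨(mul_eq_zero.1 a0).resolve_left h3, ?_, ?_⟩
  · exact (mul_eq_zero.1 ((mul_eq_zero.1 a1).resolve_left h3)).resolve_right hb
  · exact (mul_eq_zero.1 ((mul_eq_zero.1 a2).resolve_left h3)).resolve_right (pow_ne_zero 2 hb)

theorem ne_loc [IsAlgClosed k] [CharZero k] {c : Dat k} (hc : c.Good) (h3 : c.n = 3) {N : Type} [Field N]
    [Algebra k N] {x v : N} (h : GenC c x v) (j : RatFunc k →+* N)
    (hj : ∀ p : k[X], j (algebraMap k[X] (RatFunc k) p) = aeval x p) {r0 r1 r2 : RatFunc k} {a : k}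
    (hA : (Ap c).eval a ≠ 0) (hB : (Bp c).eval a ≠ 0)
    (hz : ∀ (w : Place k N) (b : k), b ^ 3 * (Bp c).eval a = (Ap c).eval a → Red w x (algebraMap k (RF w) a) →
      Red w v (algebraMap k (RF w) b) → w.Reg (j r0 + j r1 * v + j r2 * v ^ 2)) :
    r0.denom.eval a ≠ 0 ∧ r1.denom.eval a ≠ 0 ∧ r2.denom.eval a ≠ 0 := by
  by_contra hcon
  obtain ⟨ζ, hζ⟩ := NE2_prim k
  have hζ2 : ζ ^ 2 + ζ + 1 = 0 := by
    have h1 := hζ.geom_sum_eq_zero (by norm_num)
    rw [Finset.sum_range_succ, Finset.sum_range_succ, Finset.sum_range_one, pow_zero, pow_one] at h1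
    linear_combination h1
  have hζ3 : ζ ^ 3 = 1 := hζ.pow_eq_one
  have hAe : (Ap c).eval a = ∏ i, (a - c.a i) := by
    rw [Ap, eval_prod]
    simp only [eval_sub, eval_X, eval_C]
  have hBe : (Bp c).eval a = ∏ i, (a - c.b i) := by
    rw [Bp, eval_prod]
    simp only [eval_sub, eval_X, eval_C]
  have hroot : ∀ r : RatFunc k, r.denom.eval a = 0 → 0 < r.denom.rootMultiplicity a := fun r hr =>
    (Polynomial.rootMultiplicity_pos r.denom_ne_zero).2 hr
  set s := max (max (r0.denom.rootMultiplicity a) (r1.denom.rootMultiplicity a))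
    (r2.denom.rootMultiplicity a) with hs
  have hs0 : 0 < s := by
    by_contra h0
    apply hcon
    refine ⟨fun h1 => ?_, fun h1 => ?_, fun h1 => ?_⟩
    · have := hroot r0 h1
      omega
    · have := hroot r1 h1
      omega
    · have := hroot r2 h1
      omega
  obtain ⟨u0, hu0, hv0⟩ := NE2_clear h.tr j hj r0 a s (by omega)
  obtain ⟨u1, hu1, hv1⟩ := NE2_clear h.tr j hj r1 a s (by omega)
  obtain ⟨u2, hu2, hv2⟩ := NE2_clear h.tr j hj r2 a s (by omega)
  have hne : ¬ (u0 = 0 ∧ u1 = 0 ∧ u2 = 0) := by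
    rintro ⟨z0, z1, z2⟩
    have h4 : s = r0.denom.rootMultiplicity a ∨ s = r1.denom.rootMultiplicity a ∨
        s = r2.denom.rootMultiplicity a := by omega
    rcases h4 with h4 | h4 | h4
    · exact hv0 hs0 h4 z0
    · exact hv1 hs0 h4 z1
    · exact hv2 hs0 h4 z2
  -- a cube root
  obtain ⟨b0, hb0⟩ := IsAlgClosed.exists_pow_nat_eq ((Ap c).eval a / (Bp c).eval a)
    (n := 3) (by norm_num)
  have hb0' : b0 ^ 3 * (Bp c).eval a = (Ap c).eval a := by
    rw [hb0, div_mul_cancel₀ _ hB]
  have hb0ne : b0 ≠ 0 := by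
    rintro rfl
    rw [zero_pow (by norm_num), zero_mul] at hb0'
    exact hA hb0'.symm
  -- the contradiction at a point where the polynomial does not vanish
  have key : ∀ b : k, b ^ 3 * (Bp c).eval a = (Ap c).eval a → u0 + u1 * b + u2 * b ^ 2 = 0 := by
    intro b hb
    by_contra hne'
    have hb1 : b ≠ 0 := by
      rintro rfl
      rw [zero_pow (by norm_num), zero_mul] at hb
      exact hA hb.symm
    have hQ : OnC c ((![some a, some b] : Fin 2 → Option k) 0)
        ((![some a, some b] : Fin 2 → Option k) 1) := by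
      show b ^ c.n * ∏ i, (a - c.b i) = ∏ i, (a - c.a i)
      rw [h3, ← hAe, ← hBe]
      exact hb
    obtain ⟨w, ⟨hw1, hw2⟩, -, hw3, -⟩ := placeC hc (ζ := ζ) (by rw [h3]; exact hζ) h
      ![some a, some b] hQ
    have hx : Red w x (algebraMap k (RF w) a) := hw1
    have hv : Red w v (algebraMap k (RF w) b) := hw2
    have ht : w.ord (x - algebraMap k N a) = 1 := hw3 a b rfl rfl hb1
    have hreg := hz w b hb hx hv
    have hR : Red w ((j r0 + j r1 * v + j r2 * v ^ 2) * (x - algebraMap k N a) ^ s)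
        (algebraMap k (RF w) (u0 + u1 * b + u2 * b ^ 2)) := by
      have e : (j r0 + j r1 * v + j r2 * v ^ 2) * (x - algebraMap k N a) ^ s =
          j r0 * (x - algebraMap k N a) ^ s + j r1 * (x - algebraMap k N a) ^ s * v +
            j r2 * (x - algebraMap k N a) ^ s * v ^ 2 := by ring
      rw [e, map_add, map_add, map_mul, map_mul, map_pow]
      exact ((hu0 w hx).add ((hu1 w hx).mul hv)).add ((hu2 w hx).mul (hv.pow 2))
    have hne2 : algebraMap k (RF w) (u0 + u1 * b + u2 * b ^ 2) ≠ 0 := by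
      intro h0
      exact hne' ((algebraMap k (RF w)).injective (by rw [h0, map_zero]))
    have ho := hR.ord_eq_zero hne2
    have hn0 := hR.ne_zero hne2
    have hz0 : (j r0 + j r1 * v + j r2 * v ^ 2) ≠ 0 := left_ne_zero_of_mul hn0
    have ht0 : (x - algebraMap k N a) ^ s ≠ 0 := right_ne_zero_of_mul hn0
    rw [w.ord_mul _ _ hz0 ht0, w.ord_pow, ht] at ho
    have h5 := hreg.resolve_left hz0
    have h6 : (0 : ℤ) < s := by exact_mod_cast hs0
    linarith
  refine hne (NE2_cube hζ2 hb0ne (key b0 hb0') (key (ζ * b0) ?_) (key (ζ ^ 2 * b0) ?_))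
  · rw [mul_pow, hζ3, one_mul]
    exact hb0'
  · rw [mul_pow, ← pow_mul, mul_comm 2 3, pow_mul, hζ3, one_pow, one_mul]
    exact hb0'

end Pool.Agent.LibCW77
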