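import Pool.Agent.LibCW77.NE1
import Pool.Agent.LibCW77.NE2

/-!
[CW77 NE3] STRONG: global coordinates

`z = j r0 + j r1 v + j r2 v ^ 2` (`ne_rep`). (1) `a` with `A(a) B(a) ≠ 0`: `ne_loc`: all `r_l` are regular at `a`. (2) `a = a_i`: the place `w` of `(a_i, 0)` has
`w.ord (x - a_i) = 3`, `w.ord v = 1` (`placeC`), so for `r ≠ 0` `w.ord (j r) = 3 ord_a r` and the orders of the three summands are `3 o0`, `3 o1 + 1`, `3 o2 + 2`,
different modulo `3`, so the order of `z` is the smallest one (`Place.ord_add_of_lt`) and all are `≥ 0`: `o_l ≥ 0`. (3) `a = b_i`: `w.ord v = -1`: `3 o0`, `3 o1 - 1`,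
`3 o2 - 2`: `o0 ≥ 0`, `o1, o2 ≥ 1`. So `r0` and `r1 / Bp c`, `r2 / Bp c` have no poles on `k`, and are polynomials (`IsAlgClosed`: a denominator without roots is
constant). (4) Infinity: places of `(∞, b)`, `b ^ 3 = 1`: `w.ord x = -1`, `w v = b`. Let `s` be the largest `RatFunc.intDegree` of the `r_l` which are not `0`; the
leading coefficients give a polynomial in `b` of degree `≤ 2`, not zero at one of the three `b`, so `w.ord z = - s`, so `s ≤ D`.
-/

open scoped Classical
open Polynomial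

namespace Pool.Agent.LibCW77

open Pool.Agent.LibBH2
open Pool.Agent.LibCHd (VR RF Red FunF)

variable {k : Type} [Field k]

section aux

variable {N : Type} [Field N] [Algebra k N]

private def NE3_ge (w : Place k N) (m : ℤ) (f : N) : Prop := f = 0 ∨ m ≤ w.ord f

private theorem NE3_ge_add {w : Place k N} {m : ℤ} {f g : N} (hf : NE3_ge w m f)
    (hg : NE3_ge w m g) : NE3_ge w m (f + g) := by
  by_cases h0 : f + g = 0
  · exact Or.inl h0
  rcases hf with rfl | hf
  · simpa [NE3_ge] using hg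
  rcases hg with rfl | hg
  · right
    simpa using hf
  by_cases hf0 : f = 0
  · subst hf0
    right
    simpa using hg
  by_cases hg0 : g = 0
  · subst hg0
    right
    simpa using hf
  exact Or.inr ((le_min hf hg).trans (w.ord_add f g hf0 hg0 h0))

private theorem NE3_ge_neg {w : Place k N} {m : ℤ} {f : N} (hf : NE3_ge w m f) :
    NE3_ge w m (-f) := by
  rcases hf with rfl | hf
  · left; simp
  · right; rwa [w.ord_neg]

private theorem NE3_ge_mono {w : Place k N} {m m' : ℤ} (h : m' ≤ m) {f : N} (hf : NE3_ge w m f) :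
    NE3_ge w m' f := hf.imp id (h.trans)

private theorem NE3_ge_sum {w : Place k N} {m : ℤ} {ι : Type} (S : Finset ι) (t : ι → N)
    (h : ∀ i ∈ S, NE3_ge w m (t i)) : NE3_ge w m (∑ i ∈ S, t i) := by
  induction S using Finset.induction_on with
  | empty => left; simp
  | insert a S ha ih =>
    rw [Finset.sum_insert ha]
    exact NE3_ge_add (h a (Finset.mem_insert_self _ _))
      (ih fun i hi => h i (Finset.mem_insert_of_mem hi))

/-- terms with different orders do not cancel -/
private theorem NE3_sep {w : Place k N} (t : Fin 3 → N) (m : ℤ) (h : NE3_ge w m (∑ i, t i))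
    (hd : ∀ i j, i ≠ j → t i ≠ 0 → t j ≠ 0 → w.ord (t i) ≠ w.ord (t j)) (l : Fin 3)
    (hl : t l ≠ 0) : m ≤ w.ord (t l) := by
  by_contra hcon
  push Not at hcon
  obtain ⟨i₀, hi₀, hmin⟩ := Finset.exists_min_image (Finset.univ.filter fun i => t i ≠ 0)
    (fun i => w.ord (t i)) ⟨l, by simp [hl]⟩
  have hti₀ : t i₀ ≠ 0 := by simpa using hi₀
  have hlt : w.ord (t i₀) < m := (hmin l (by simp [hl])).trans_lt hcon
  have h1 : NE3_ge w (w.ord (t i₀) + 1) (∑ i ∈ Finset.univ.erase i₀, t i) := by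
    refine NE3_ge_sum _ _ fun i hi => ?_
    by_cases h0 : t i = 0
    · exact Or.inl h0
    · right
      have h2 := hmin i (by simp [h0])
      have h3 := hd i₀ i (Finset.ne_of_mem_erase hi).symm hti₀ h0
      omega
  have h2 : NE3_ge w (w.ord (t i₀) + 1) (t i₀) := by
    have h3 : t i₀ = ∑ i, t i + -(∑ i ∈ Finset.univ.erase i₀, t i) := by
      rw [← Finset.add_sum_erase Finset.univ t (Finset.mem_univ i₀)]
      ring
    have h4 := NE3_ge_add (NE3_ge_mono (show w.ord (t i₀) + 1 ≤ m by omega) h) (NE3_ge_neg h1)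
    rwa [← h3] at h4
  rcases h2 with h2 | h2
  · exact hti₀ h2
  · omega

private theorem NE3_poly {w : Place k N} {x : N} {a : k} (he : 0 < w.ord (x - algebraMap k N a))
    {p : k[X]} (hp : p ≠ 0) : aeval x p ≠ 0 ∧
      w.ord (aeval x p) = w.ord (x - algebraMap k N a) * (rootMultiplicity a p : ℤ) := by
  obtain ⟨q, hq, hq'⟩ := exists_eq_pow_rootMultiplicity_mul_and_not_dvd p hp a
  have hqa : q.eval a ≠ 0 := fun h0 => hq' (dvd_iff_isRoot.2 h0)
  have hxa : x - algebraMap k N a ≠ 0 := by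
    intro h0
    rw [h0, w.ord_zero] at he
    exact lt_irrefl _ he
  have hval := Place.val_aeval (v := w) (Or.inr he : w.Zer (x - algebraMap k N a)) q
  have hq0 := Place.ne_zero_of_val hval hqa
  have hqo := Place.ord_eq_zero_of_val hval hqa
  have h1 : aeval x p = (x - algebraMap k N a) ^ rootMultiplicity a p * aeval x q := by
    conv_lhs => rw [hq]
    simp
  rw [h1]
  refine ⟨mul_ne_zero (pow_ne_zero _ hxa) hq0, ?_⟩
  rw [w.ord_mul _ _ (pow_ne_zero _ hxa) hq0, w.ord_pow, hqo]
  ring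

private theorem NE3_rat {w : Place k N} {x : N} {a : k} (he : 0 < w.ord (x - algebraMap k N a))
    (j : RatFunc k →+* N) (hj : ∀ p : k[X], j (algebraMap k[X] (RatFunc k) p) = aeval x p)
    {r : RatFunc k} (hr : r ≠ 0) : j r ≠ 0 ∧
      w.ord (j r) = w.ord (x - algebraMap k N a) *
        ((rootMultiplicity a r.num : ℤ) - rootMultiplicity a r.denom) := by
  have hn : r.num ≠ 0 := RatFunc.num_ne_zero hr
  have hd : r.denom ≠ 0 := RatFunc.denom_ne_zero r
  obtain ⟨h1, h2⟩ := NE3_poly he hn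
  obtain ⟨h3, h4⟩ := NE3_poly he hd
  have h5 : j r = aeval x r.num / aeval x r.denom := by
    conv_lhs => rw [← RatFunc.num_div_denom r]
    rw [map_div₀, hj, hj]
  rw [h5]
  refine ⟨div_ne_zero h1 h3, ?_⟩
  rw [w.ord_div _ _ h1 h3, h2, h4]
  ring

private theorem NE3_den {r : RatFunc k} {a : k}
    (h : 0 ≤ (rootMultiplicity a r.num : ℤ) - rootMultiplicity a r.denom) : r.denom.eval a ≠ 0 := by
  intro h0
  have hd : r.denom ≠ 0 := RatFunc.denom_ne_zero r
  have h1 : 0 < rootMultiplicity a r.denom := (rootMultiplicity_pos hd).2 h0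
  have h2 : r.num.eval a ≠ 0 := by
    intro h2
    obtain ⟨u, v, huv⟩ := RatFunc.isCoprime_num_denom r
    have h3 := congrArg (Polynomial.eval a) huv
    rw [eval_add, eval_mul, eval_mul, h0, h2, mul_zero, mul_zero, add_zero, eval_one] at h3
    exact zero_ne_one h3
  have h3 : rootMultiplicity a r.num = 0 := rootMultiplicity_eq_zero h2
  omega

private theorem NE3_cop {r : RatFunc k} {a : k}
    (h : 1 ≤ (rootMultiplicity a r.num : ℤ) - rootMultiplicity a r.denom) : r.num.eval a = 0 := by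
  by_contra h2
  have h3 : rootMultiplicity a r.num = 0 := rootMultiplicity_eq_zero h2
  omega

/-- a ramified point -/
private theorem NE3_ram {w : Place k N} {x v : N} {a : k} (j : RatFunc k →+* N)
    (hj : ∀ p : k[X], j (algebraMap k[X] (RatFunc k) p) = aeval x p) (r : Fin 3 → RatFunc k)
    (he : w.ord (x - algebraMap k N a) = 3) {ε : ℤ} (hε : ε = 1 ∨ ε = -1) (hv : w.ord v = ε)
    (hz : NE3_ge w 0 (∑ l : Fin 3, j (r l) * v ^ (l : ℕ))) (l : Fin 3) (hl : r l ≠ 0) :
    0 ≤ 3 * ((rootMultiplicity a (r l).num : ℤ) - rootMultiplicity a (r l).denom) + (l : ℕ) * ε := by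
  have hv0 : v ≠ 0 := by
    rintro rfl
    rw [w.ord_zero] at hv
    rcases hε with h | h <;> omega
  have hord : ∀ i : Fin 3, r i ≠ 0 → j (r i) * v ^ (i : ℕ) ≠ 0 ∧ w.ord (j (r i) * v ^ (i : ℕ)) =
      3 * ((rootMultiplicity a (r i).num : ℤ) - rootMultiplicity a (r i).denom) + (i : ℕ) * ε := by
    intro i hi
    obtain ⟨h1, h2⟩ := NE3_rat (w := w) (x := x) (a := a) (by rw [he]; norm_num) j hj hi
    refine ⟨mul_ne_zero h1 (pow_ne_zero _ hv0), ?_⟩
    rw [w.ord_mul _ _ h1 (pow_ne_zero _ hv0), w.ord_pow, h2, he, hv]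
  have hne : ∀ i : Fin 3, j (r i) * v ^ (i : ℕ) ≠ 0 → r i ≠ 0 := by
    intro i hi h0
    rw [h0, map_zero, zero_mul] at hi
    exact hi rfl
  have h3 := NE3_sep (w := w) (fun l : Fin 3 => j (r l) * v ^ (l : ℕ)) 0 hz (by
    intro i i' hii hi hi'
    rw [(hord i (hne i hi)).2, (hord i' (hne i' hi')).2]
    have h5 : (i : ℕ) ≠ (i' : ℕ) := fun h => hii (Fin.ext h)
    have h6 := i.2
    have h7 := i'.2
    rcases hε with rfl | rfl <;> omega) l (hord l hl).1
  rwa [(hord l hl).2] at h3

/-- points at infinity -/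
private theorem NE3_inf {w : Place k N} {x v : N} {b : k} (hx : w.ord x = -1)
    (hv : w.Zer (v - algebraMap k N b)) (P : Fin 3 → k[X]) (s : ℕ)
    (hP : ∀ l, (P l).natDegree ≤ s) (hb : ∑ l : Fin 3, (P l).coeff s * b ^ (l : ℕ) ≠ 0) :
    w.ord (∑ l : Fin 3, aeval x (P l) * v ^ (l : ℕ)) = - (s : ℤ) := by
  have hx0 : x ≠ 0 := by
    rintro rfl
    rw [w.ord_zero] at hx
    omega
  have hy : w.Zer (x⁻¹ - algebraMap k N 0) := by
    right
    rw [map_zero, sub_zero, w.ord_inv, hx]
    norm_num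
  have hval : ∀ l : Fin 3, w.Zer (aeval x⁻¹ (reflect s (P l)) * v ^ (l : ℕ) -
      algebraMap k N ((P l).coeff s * b ^ (l : ℕ))) := by
    intro l
    have h1 := Place.val_aeval hy (reflect s (P l))
    have h2 : (reflect s (P l)).eval 0 = (P l).coeff s := by
      rw [← coeff_zero_eq_eval_zero, coeff_reflect, revAt_le (Nat.zero_le s), Nat.sub_zero]
    rw [h2] at h1
    exact Place.val_mul h1 (Place.val_pow hv l)
  have hrefl : ∀ l : Fin 3, aeval x (P l) = x ^ s * aeval x⁻¹ (reflect s (P l)) := by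
    intro l
    let _ : Invertible x := invertibleOfNonzero hx0
    have h1 := eval₂_reflect_mul_pow (algebraMap k N) x s (P l) (hP l)
    rw [aeval_def, aeval_def, ← h1, mul_comm, invOf_eq_inv]
  have hsum : ∑ l : Fin 3, aeval x (P l) * v ^ (l : ℕ) =
      x ^ s * ∑ l : Fin 3, aeval x⁻¹ (reflect s (P l)) * v ^ (l : ℕ) := by
    rw [Finset.mul_sum]
    refine Finset.sum_congr rfl fun l _ => ?_
    rw [hrefl l, mul_assoc]
  have hZ : w.Zer (∑ l : Fin 3, aeval x⁻¹ (reflect s (P l)) * v ^ (l : ℕ) -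
      algebraMap k N (∑ l : Fin 3, (P l).coeff s * b ^ (l : ℕ))) := by
    rw [Fin.sum_univ_three, Fin.sum_univ_three]
    exact Place.val_add (Place.val_add (hval 0) (hval 1)) (hval 2)
  have hne := Place.ne_zero_of_val hZ hb
  have ho := Place.ord_eq_zero_of_val hZ hb
  rw [hsum, w.ord_mul _ _ (pow_ne_zero _ hx0) hne, w.ord_pow, hx, ho]
  ring

private theorem NE3_const [IsAlgClosed k] {r : RatFunc k} (h : ∀ a : k, r.denom.eval a ≠ 0) :
    r = algebraMap k[X] (RatFunc k) r.num := by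
  have h1 : r.denom.degree = 0 := by
    by_contra hne
    obtain ⟨a, ha⟩ := IsAlgClosed.exists_root r.denom hne
    exact h a ha
  have h2 : r.denom = 1 := by
    have h3 := (RatFunc.monic_denom r)
    exact (Monic.degree_le_zero_iff_eq_one h3).1 h1.le
  conv_lhs => rw [← RatFunc.num_div_denom r, h2, map_one, div_one]

end aux

theorem ne_glob [IsAlgClosed k] [CharZero k] {c : Dat k} (hc : c.Good) (h3 : c.n = 3) {N : Type} [Field N]
    [Algebra k N] {x v : N} (h : GenC c x v) {z : N} (D : ℕ)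
    (hz : ∀ (w : Place k N) (Q : Fin 2 → Option k), OnC c (Q 0) (Q 1) →
      SpO w (some x) ((Q 0).map (algebraMap k (RF w))) → SpO w (some v) ((Q 1).map (algebraMap k (RF w))) →
      (if Q 0 = none then -(D : ℤ) else 0) ≤ w.ord z) :
    ∃ g0 g1 g2 : k[X], g0.natDegree ≤ D ∧ (g1 = 0 ∨ g1.natDegree + 3 ≤ D) ∧ (g2 = 0 ∨ g2.natDegree + 3 ≤ D) ∧
      z = aeval x g0 + aeval x (Bp c * g1) * v + aeval x (Bp c * g2) * v ^ 2 := by
  have hc0 := hc
  obtain ⟨j, hj, hrep, -⟩ := ne_rep hc h3 h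
  obtain ⟨r0, r1, r2, hzr⟩ := hrep z
  obtain ⟨ζ, hζ⟩ : ∃ ζ : k, IsPrimitiveRoot ζ c.n := by
    have : NeZero c.n := ⟨by rw [h3]; norm_num⟩
    exact HasEnoughRootsOfUnity.exists_primitiveRoot k c.n
  let r : Fin 3 → RatFunc k := ![r0, r1, r2]
  have hsum : z = ∑ l : Fin 3, j (r l) * v ^ (l : ℕ) := by
    rw [Fin.sum_univ_three, hzr]
    simp [r]
  have evA : ∀ a : k, (Ap c).eval a = ∏ i, (a - c.a i) := fun a => by
    simp [Ap, eval_prod]
  have evB : ∀ a : k, (Bp c).eval a = ∏ i, (a - c.b i) := fun a => by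
    simp [Bp, eval_prod]
  -- the zeros `a_i`
  have hai : ∀ (i : Fin 3) (l : Fin 3), r l ≠ 0 →
      0 ≤ 3 * ((rootMultiplicity (c.a i) (r l).num : ℤ) - rootMultiplicity (c.a i) (r l).denom) +
        (l : ℕ) * 1 := by
    intro i l hl
    have hQ : OnC c ((![some (c.a i), some 0] : Fin 2 → Option k) 0)
        ((![some (c.a i), some 0] : Fin 2 → Option k) 1) := by
      show (0 : k) ^ c.n * ∏ i', (c.a i - c.b i') = ∏ i', (c.a i - c.a i')
      rw [zero_pow (by rw [h3]; norm_num), zero_mul, eq_comm]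
      exact Finset.prod_eq_zero (Finset.mem_univ i) (sub_self _)
    obtain ⟨w, ⟨hw1, hw2⟩, -, -, -, hw3, -, -⟩ := placeC hc hζ h _ hQ
    obtain ⟨hw4, hw5⟩ := hw3 i rfl
    have hzw := hz w _ hQ hw1 hw2
    rw [if_neg (by simp)] at hzw
    refine NE3_ram (w := w) (x := x) (v := v) j hj r (by rw [hw4, h3]; norm_num) (Or.inl rfl) hw5 ?_ l hl
    rw [← hsum]
    exact Or.inr hzw
  have hbi : ∀ (i : Fin 3) (l : Fin 3), r l ≠ 0 →
      0 ≤ 3 * ((rootMultiplicity (c.b i) (r l).num : ℤ) - rootMultiplicity (c.b i) (r l).denom) +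
        (l : ℕ) * (-1) := by
    intro i l hl
    have hQ : OnC c ((![some (c.b i), none] : Fin 2 → Option k) 0)
        ((![some (c.b i), none] : Fin 2 → Option k) 1) := ⟨i, rfl⟩
    obtain ⟨w, ⟨hw1, hw2⟩, -, -, -, -, hw3, -⟩ := placeC hc hζ h _ hQ
    obtain ⟨hw4, hw5⟩ := hw3 i rfl
    have hzw := hz w _ hQ hw1 hw2
    rw [if_neg (by simp)] at hzw
    refine NE3_ram (w := w) (x := x) (v := v) j hj r (by rw [hw4, h3]; norm_num) (Or.inr rfl) hw5 ?_ l hl
    rw [← hsum]
    exact Or.inr hzw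
  -- all other points
  have hloc : ∀ (a : k) (l : Fin 3), (Ap c).eval a ≠ 0 → (Bp c).eval a ≠ 0 →
      (r l).denom.eval a ≠ 0 := by
    intro a l hA hB
    have h4 := ne_loc hc h3 h j hj (r0 := r0) (r1 := r1) (r2 := r2) hA hB (by
      intro w b hb hw1 hw2
      have hQ : OnC c ((![some a, some b] : Fin 2 → Option k) 0)
          ((![some a, some b] : Fin 2 → Option k) 1) := by
        show b ^ c.n * ∏ i', (a - c.b i') = ∏ i', (a - c.a i')
        rw [h3, ← evA, ← evB]
        exact hb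
      have hzw := hz w _ hQ hw1 hw2
      rw [if_neg (by simp)] at hzw
      rw [← hzr]
      exact Or.inr hzw)
    fin_cases l
    · exact h4.1
    · exact h4.2.1
    · exact h4.2.2
  have hden : ∀ (l : Fin 3) (a : k), (r l).denom.eval a ≠ 0 := by
    intro l a
    by_cases hl : r l = 0
    · rw [hl, RatFunc.denom_zero, eval_one]
      exact one_ne_zero
    by_cases hA : (Ap c).eval a = 0
    · rw [evA, Finset.prod_eq_zero_iff] at hA
      obtain ⟨i, _, hi⟩ := hA
      rw [sub_eq_zero] at hi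
      subst hi
      have h5 := hai i l hl
      have h6 := l.2
      exact NE3_den (by omega)
    by_cases hB : (Bp c).eval a = 0
    · rw [evB, Finset.prod_eq_zero_iff] at hB
      obtain ⟨i, _, hi⟩ := hB
      rw [sub_eq_zero] at hi
      subst hi
      have h5 := hbi i l hl
      exact NE3_den (by omega)
    exact hloc a l hA hB
  let P : Fin 3 → k[X] := fun l => (r l).num
  have hP : ∀ l, r l = algebraMap k[X] (RatFunc k) (P l) := fun l => NE3_const (hden l)
  have hjP : ∀ l, j (r l) = aeval x (P l) := fun l => by rw [hP l, hj]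
  have hsumP : z = ∑ l : Fin 3, aeval x (P l) * v ^ (l : ℕ) := by
    rw [hsum]
    exact Finset.sum_congr rfl fun l _ => by rw [hjP l]
  -- the degrees
  have hdeg : ∀ l, (P l).natDegree ≤ D := by
    by_contra hcon
    push Not at hcon
    obtain ⟨l₁, hl₁⟩ := hcon
    obtain ⟨l₀, hl₀⟩ := Finite.exists_max fun l => (P l).natDegree
    have hDlt : D < (P l₀).natDegree := hl₁.trans_le (hl₀ l₁)
    obtain ⟨b, hb3, hb⟩ : ∃ b : k, b ^ c.n = 1 ∧
        ∑ l : Fin 3, (P l).coeff (P l₀).natDegree * b ^ (l : ℕ) ≠ 0 := by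
      by_contra hno
      push Not at hno
      let q : k[X] := ∑ l : Fin 3, C ((P l).coeff (P l₀).natDegree) * X ^ (l : ℕ)
      have hq0 : q = 0 := by
        refine eq_zero_of_natDegree_lt_card_of_eval_eq_zero q
          (f := fun i : Fin 3 => ζ ^ (i : ℕ)) ?_ ?_ ?_
        · intro i i' hii
          have h6 := hζ.pow_inj (by rw [h3]; exact i.2) (by rw [h3]; exact i'.2) hii
          exact Fin.ext h6
        · intro i
          have h6 := hno (ζ ^ (i : ℕ)) (by
            rw [← pow_mul, mul_comm, pow_mul, hζ.pow_eq_one, one_pow])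
          simpa [q, eval_finsetSum] using h6
        · rw [Fintype.card_fin]
          refine Nat.lt_succ_of_le (natDegree_sum_le_of_forall_le _ _ fun l _ => ?_)
          refine (natDegree_C_mul_X_pow_le _ _).trans ?_
          have := l.2
          omega
      have h6 : q.coeff (l₀ : ℕ) = (P l₀).coeff (P l₀).natDegree := by
        simp only [q, finsetSum_coeff, coeff_C_mul_X_pow]
        rw [Finset.sum_eq_single l₀]
        · simp
        · intro l _ hl
          rw [if_neg]
          intro h7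
          exact hl (Fin.ext h7.symm)
        · simp
      rw [hq0, coeff_zero, coeff_natDegree, eq_comm, leadingCoeff_eq_zero] at h6
      rw [h6, natDegree_zero] at hDlt
      exact absurd hDlt (Nat.not_lt_zero _)
    have hQ : OnC c ((![none, some b] : Fin 2 → Option k) 0)
        ((![none, some b] : Fin 2 → Option k) 1) := hb3
    obtain ⟨w, ⟨hw1, hw2⟩, -, -, hw3, -, -, -⟩ := placeC hc hζ h _ hQ
    have hzw := hz w _ hQ hw1 hw2
    rw [if_pos (by simp)] at hzw
    have hvb : w.Zer (v - algebraMap k N b) := LibCHd.red_iff_val.1 hw2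
    have h6 := NE3_inf (hw3 rfl) hvb P (P l₀).natDegree hl₀ hb
    rw [← hsumP] at h6
    omega
  -- divisibility
  have hBm : (Bp c).Monic := monic_prod_of_monic _ _ fun i _ => monic_X_sub_C _
  have hBd : (Bp c).natDegree = 3 := by
    unfold Bp
    rw [natDegree_prod_of_monic _ _ fun i _ => monic_X_sub_C _]
    simp
  have hdvd : ∀ l : Fin 3, 0 < (l : ℕ) → ∃ g : k[X], P l = Bp c * g := by
    intro l hl
    by_cases hr : r l = 0
    · refine ⟨0, ?_⟩
      show (r l).num = _
      rw [hr, RatFunc.num_zero, mul_zero]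
    have h6 : Bp c ∣ P l := by
      unfold Bp
      refine Finset.prod_dvd_of_coprime ?_ ?_
      · have hinj : Function.Injective c.b := by
          intro i i' hii
          have h7 := hc.inj (a₁ := Sum.inr i) (a₂ := Sum.inr i') hii
          exact Sum.inr.inj h7
        exact (pairwise_coprime_X_sub_C hinj).set_pairwise _
      · intro i _
        rw [dvd_iff_isRoot]
        have h7 := hbi i l hr
        exact NE3_cop (by omega)
    exact h6
  obtain ⟨g1, hg1⟩ := hdvd 1 (by simp)
  obtain ⟨g2, hg2⟩ := hdvd 2 (by simp)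
  have hgd : ∀ (l : Fin 3) (g : k[X]), P l = Bp c * g → g = 0 ∨ g.natDegree + 3 ≤ D := by
    intro l g hg
    by_cases hg0 : g = 0
    · exact Or.inl hg0
    · right
      have h6 := hdeg l
      rw [hg, natDegree_mul hBm.ne_zero hg0, hBd] at h6
      omega
  refine ⟨P 0, g1, g2, hdeg 0, hgd 1 g1 hg1, hgd 2 g2 hg2, ?_⟩
  rw [hsumP, Fin.sum_univ_three, hg1, hg2]
  simp

end Pool.Agent.LibCW77
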