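import Pool.Agent.LibCW77.TQ1

/-!
[CW77 TR2] As TQ2, for `r` in `ℚ`: multiplication by an odd prime `q` of a point with abscissa `x`, `v_q(x) ≤ -2` and `v_q(x) ≤ v_q(c)`,
`c = 4 (1 - r ^ 2)`.
-/

open scoped Classical
open Polynomial

namespace Pool.Agent.LibCW77

open Pool.Agent.LibBH2
open Pool.Agent.LibCHd (VR RF Red FunF)

variable {k : Type} [Field k]

/-- `t` is divisible by `q ^ n` -/
private def TR2_D (q n : ℕ) (t : ℚ) : Prop := padicNorm q t ≤ ((q : ℚ) ^ n)⁻¹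

private theorem TR2_add {q n : ℕ} [Fact q.Prime] {a b : ℚ} (ha : TR2_D q n a) (hb : TR2_D q n b) :
    TR2_D q n (a + b) :=
  padicNorm.nonarchimedean.trans (max_le ha hb)

private theorem TR2_neg {q n : ℕ} [Fact q.Prime] {a : ℚ} (ha : TR2_D q n a) : TR2_D q n (-a) := by
  unfold TR2_D
  rw [padicNorm.neg]
  exact ha

private theorem TR2_sub {q n : ℕ} [Fact q.Prime] {a b : ℚ} (ha : TR2_D q n a) (hb : TR2_D q n b) :
    TR2_D q n (a - b) := by
  rw [sub_eq_add_neg]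
  exact TR2_add ha (TR2_neg hb)

private theorem TR2_pos (q : ℕ) [hq : Fact q.Prime] : (0 : ℚ) < (q : ℚ) := by
  exact_mod_cast hq.1.pos

private theorem TR2_mul {q n m : ℕ} [Fact q.Prime] {a b : ℚ} (ha : TR2_D q n a) (hb : TR2_D q m b) :
    TR2_D q (n + m) (a * b) := by
  have hq := TR2_pos q
  unfold TR2_D
  rw [padicNorm.mul, pow_add, mul_inv]
  exact mul_le_mul ha hb (padicNorm.nonneg _) (by positivity)

private theorem TR2_mono {q n m : ℕ} [hq : Fact q.Prime] {a : ℚ} (ha : TR2_D q n a) (h : m ≤ n) :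
    TR2_D q m a := by
  have hq0 := TR2_pos q
  have hq1 : (1 : ℚ) ≤ (q : ℚ) := by exact_mod_cast hq.1.one_lt.le
  refine le_trans ha ?_
  exact inv_anti₀ (by positivity) (pow_le_pow_right₀ hq1 h)

private theorem TR2_int (q : ℕ) [Fact q.Prime] (z : ℤ) : TR2_D q 0 (z : ℚ) := by
  unfold TR2_D
  rw [pow_zero, inv_one]
  exact padicNorm.of_int z

private theorem TR2_zmul {q n : ℕ} [Fact q.Prime] {a : ℚ} (z : ℤ) (ha : TR2_D q n a) :
    TR2_D q n ((z : ℚ) * a) := by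
  have h := TR2_mul (TR2_int q z) ha
  rwa [zero_add] at h

private theorem TR2_div {q n : ℕ} [Fact q.Prime] {a u : ℚ} (hu : padicNorm q u = 1) (ha : TR2_D q n a) :
    TR2_D q n (a / u) := by
  unfold TR2_D
  rw [padicNorm.div, hu, div_one]
  exact ha

private theorem TR2_unit {q : ℕ} [hq : Fact q.Prime] {u a : ℚ} (hu : padicNorm q u = 1) (ha : TR2_D q 1 a) :
    padicNorm q (u + a) = 1 := by
  have hq1 : (1 : ℚ) < (q : ℚ) := by exact_mod_cast hq.1.one_lt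
  have h1 : padicNorm q a < 1 := by
    refine lt_of_le_of_lt ha ?_
    rw [pow_one]
    exact inv_lt_one_of_one_lt₀ hq1
  rw [padicNorm.add_eq_max_of_ne (by rw [hu]; exact h1.ne'), hu]
  exact max_eq_left h1.le

private theorem TR2_ne {q : ℕ} [Fact q.Prime] {u : ℚ} (hu : padicNorm q u = 1) : u ≠ 0 := by
  rintro rfl
  rw [padicNorm.zero] at hu
  exact zero_ne_one hu

private theorem TR2_int1 {q : ℕ} [Fact q.Prime] {m : ℕ} (h : ¬ q ∣ m) : padicNorm q (m : ℚ) = 1 :=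
  (padicNorm.nat_eq_one_iff m).2 h

private theorem TR2_cE [CharZero k] {r : ℚ} : cE (r : k) = ((4 * (1 - r ^ 2) : ℚ) : k) := by
  unfold cE
  push_cast
  ring

private theorem TR2_tr {r X X2 Y : k} (hX : X = X2) (h : (Er r).Nonsingular X Y) :
    ∃ h2 : (Er r).Nonsingular X2 Y,
      WeierstrassCurve.Affine.Point.some _ _ h = WeierstrassCurve.Affine.Point.some _ _ h2 := by
  subst hX
  exact ⟨h, rfl⟩

/-- one addition -/
private theorem TR2_step [CharZero k] {r : ℚ} {q : ℕ} [Fact q.Prime] {x u s : ℚ} {y yu ys : k}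
    (h : (Er (r : k)).Nonsingular (x : k) y) (hu : (Er (r : k)).Nonsingular (u : k) yu)
    (hs : (Er (r : k)).Nonsingular (s : k) ys)
    (hsub : WeierstrassCurve.Affine.Point.some _ _ hu - WeierstrassCurve.Affine.Point.some _ _ h =
      WeierstrassCurve.Affine.Point.some _ _ hs)
    (hx : x ≠ 0) (hu0 : u ≠ 0) (hs0 : s ≠ 0) (hw : TR2_D q 2 x⁻¹) (hcw : TR2_D q 0 (4 * (1 - r ^ 2) * x⁻¹))
    (hρ : TR2_D q 0 (x / u))
    (hne : x / u - 1 ≠ 0) :
    ∃ (t : ℚ) (yt : k) (ht : (Er (r : k)).Nonsingular (t : k) yt) (δ : ℚ),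
      WeierstrassCurve.Affine.Point.some _ _ hu + WeierstrassCurve.Affine.Point.some _ _ h =
        WeierstrassCurve.Affine.Point.some _ _ ht ∧ t ≠ 0 ∧ TR2_D q 2 δ ∧
      x / t = (x / u - 1) ^ 2 / (x / s * (1 + δ)) := by
  have hux : u - x ≠ 0 := by
    intro h1
    apply hne
    have h2 : u = x := by linarith
    rw [h2, div_self hx, sub_self]
  have hux' : (u : k) ≠ (x : k) := by
    intro h1
    apply hux
    have h2 : u = x := by exact_mod_cast h1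
    rw [h2, sub_self]
  obtain ⟨x₃, y₃, x₄, y₄, h₃, h₄, e3, e4, hid⟩ := tq_addsub hu h hux'
  have h4 : x₄ = (s : k) := by
    rw [hsub] at e4
    exact (WeierstrassCurve.Affine.Point.some.inj e4).1.symm
  set c : ℚ := 4 * (1 - r ^ 2) with hc
  set δ : ℚ := -(((12 : ℤ) : ℚ) * (x / u * (c * x⁻¹ * x⁻¹))) -
    ((4 : ℤ) : ℚ) * ((x / u * (1 + x / u)) * (c * x⁻¹ * (c * x⁻¹ * x⁻¹))) with hδ
  have hww : TR2_D q 2 (c * x⁻¹ * x⁻¹) := TR2_mul hcw hw
  have hδD : TR2_D q 2 δ := by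
    refine TR2_sub (TR2_neg (TR2_zmul _ ?_)) (TR2_zmul _ ?_)
    · exact TR2_mono (TR2_mul hρ hww) (by norm_num)
    · have h1 : TR2_D q 0 (1 + x / u) := by
        have := TR2_add (TR2_int q 1) hρ
        rwa [Int.cast_one] at this
      exact TR2_mono (TR2_mul (TR2_mul hρ h1) (TR2_mul hcw hww)) (by norm_num)
  have h1δ : padicNorm q (1 + δ) = 1 := TR2_unit padicNorm.one (TR2_mono hδD (by norm_num))
  have h1δ0 : 1 + δ ≠ 0 := TR2_ne h1δ
  have hnum : u ^ 2 * x ^ 2 * (1 + δ) = u ^ 2 * x ^ 2 - 12 * c * u * x - 4 * c ^ 2 * (u + x) := by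
    rw [hδ]
    push_cast
    field_simp
    ring
  set t : ℚ := u ^ 2 * x ^ 2 * (1 + δ) / (s * (u - x) ^ 2) with ht
  have hsk : (s : k) ≠ 0 := by exact_mod_cast hs0
  have huxk : (u : k) - (x : k) ≠ 0 := sub_ne_zero.2 hux'
  have ht3 : x₃ = (t : k) := by
    have h5 : ((u ^ 2 * x ^ 2 * (1 + δ) : ℚ) : k) =
        (u : k) ^ 2 * (x : k) ^ 2 - 12 * cE (r : k) * (u : k) * (x : k) -
          4 * cE (r : k) ^ 2 * ((u : k) + (x : k)) := by
      have hcE : cE (r : k) = (c : k) := TR2_cE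
      rw [hnum, hcE]
      push_cast
      ring
    have h6 : (t : k) = ((u ^ 2 * x ^ 2 * (1 + δ) : ℚ) : k) / ((s : k) * ((u : k) - (x : k)) ^ 2) := by
      rw [ht, Rat.cast_div, Rat.cast_mul s, Rat.cast_pow, Rat.cast_sub]
    rw [h6, h5, eq_div_iff (mul_ne_zero hsk (pow_ne_zero 2 huxk)), ← hid, h4]
    ring
  obtain ⟨h3', e3'⟩ := TR2_tr ht3 h₃
  refine ⟨t, y₃, h3', δ, e3.trans e3', ?_, hδD, ?_⟩
  · exact div_ne_zero (mul_ne_zero (mul_ne_zero (pow_ne_zero 2 hu0) (pow_ne_zero 2 hx)) h1δ0)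
      (mul_ne_zero hs0 (pow_ne_zero 2 hux))
  · rw [ht]
    field_simp
    ring

/-- the rational part of one step -/
private theorem TR2_rat {q : ℕ} [Fact q.Prime] {m : ℕ} (hm : ¬ q ∣ m) {ρ ρ' δ : ℚ}
    (h1 : TR2_D q 2 (ρ - ((m : ℚ) + 1) ^ 2)) (h2 : TR2_D q 2 (ρ' - (m : ℚ) ^ 2)) (h3 : TR2_D q 2 δ) :
    padicNorm q (ρ' * (1 + δ)) = 1 ∧
      TR2_D q 2 ((ρ - 1) ^ 2 / (ρ' * (1 + δ)) - ((m : ℚ) + 2) ^ 2) := by
  have h4 : padicNorm q ρ' = 1 := by
    have h5 : padicNorm q ((m : ℚ) ^ 2) = 1 := by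
      rw [pow_two, padicNorm.mul, TR2_int1 hm, one_mul]
    have h6 := TR2_unit h5 (TR2_mono h2 (by norm_num : 1 ≤ 2))
    rwa [show (m : ℚ) ^ 2 + (ρ' - (m : ℚ) ^ 2) = ρ' by ring] at h6
  have h5 : padicNorm q (1 + δ) = 1 := TR2_unit padicNorm.one (TR2_mono h3 (by norm_num))
  have h6 : padicNorm q (ρ' * (1 + δ)) = 1 := by
    rw [padicNorm.mul, h4, h5, one_mul]
  refine ⟨h6, ?_⟩
  have h7 : ρ' * (1 + δ) ≠ 0 := TR2_ne h6
  set a := ρ - ((m : ℚ) + 1) ^ 2 with ha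
  set b := ρ' - (m : ℚ) ^ 2 with hb
  have h8 : (ρ - 1) ^ 2 / (ρ' * (1 + δ)) - ((m : ℚ) + 2) ^ 2 =
      (((2 * m * (m + 2) : ℤ) : ℚ) * a + a * a - (((m + 2) ^ 2 : ℤ) : ℚ) * b -
        (((m + 2) ^ 2 : ℤ) : ℚ) * (ρ' * δ)) / (ρ' * (1 + δ)) := by
    rw [eq_div_iff h7, sub_mul, div_mul_cancel₀ _ h7]
    have e1 : ρ = a + ((m : ℚ) + 1) ^ 2 := by rw [ha]; ring
    have e2 : b = ρ' - (m : ℚ) ^ 2 := hb
    rw [e1, e2]
    push_cast
    ring
  rw [h8]
  refine TR2_div h6 ?_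
  have h9 : TR2_D q 0 ρ' := by
    unfold TR2_D
    rw [h4, pow_zero, inv_one]
  have h10 : TR2_D q 2 (ρ' * δ) := by
    have := TR2_mul h9 h3
    rwa [zero_add] at this
  exact TR2_sub (TR2_sub (TR2_add (TR2_zmul _ h1) (TR2_mono (TR2_mul h1 h1) (by norm_num)))
    (TR2_zmul _ h2)) (TR2_zmul _ h10)

/-- the claim `A(m)` -/
private def TR2_A (q m : ℕ) {r : ℚ} {x : ℚ} {y : k} (h : (Er (r : k)).Nonsingular (x : k) y) : Prop :=
  ∃ (u : ℚ) (yu : k) (hu : (Er (r : k)).Nonsingular (u : k) yu),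
    m • WeierstrassCurve.Affine.Point.some _ _ h = WeierstrassCurve.Affine.Point.some _ _ hu ∧ u ≠ 0 ∧
      TR2_D q 2 (x / u - (m : ℚ) ^ 2)

private theorem TR2_one {q : ℕ} [Fact q.Prime] {r : ℚ} {x : ℚ} {y : k} (hx : x ≠ 0)
    (h : (Er (r : k)).Nonsingular (x : k) y) : TR2_A q 1 h := by
  refine ⟨x, y, h, one_nsmul _, hx, ?_⟩
  rw [div_self hx, Nat.cast_one, one_pow, sub_self]
  unfold TR2_D
  rw [padicNorm.zero]
  have := TR2_pos q
  positivity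

private theorem TR2_two [CharZero k] {q : ℕ} [Fact q.Prime] {r : ℚ} {x : ℚ} {y : k} (hx : x ≠ 0)
    (hw : TR2_D q 2 x⁻¹) (hcw : TR2_D q 0 (4 * (1 - r ^ 2) * x⁻¹))
    (h : (Er (r : k)).Nonsingular (x : k) y) : TR2_A q 2 h := by
  set c : ℚ := 4 * (1 - r ^ 2) with hc
  -- `1 + w (3 + c w) ^ 2`
  set α : ℚ := x⁻¹ * ((3 + c * x⁻¹) * (3 + c * x⁻¹)) with hα
  set β : ℚ := -(((12 : ℤ) : ℚ) * (c * x⁻¹ * x⁻¹)) - ((8 : ℤ) : ℚ) * (c * x⁻¹ * (c * x⁻¹ * x⁻¹)) with hβ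
  have hαD : TR2_D q 2 α := by
    have h1 : TR2_D q 0 (3 + c * x⁻¹) := by
      have h2 := TR2_add (TR2_int q 3) hcw
      exact_mod_cast h2
    have h3 := TR2_mul hw (TR2_mul h1 h1)
    exact h3
  have hββ : TR2_D q 2 β := by
    have hww : TR2_D q 2 (c * x⁻¹ * x⁻¹) := TR2_mul hcw hw
    exact TR2_sub (TR2_neg (TR2_zmul _ (TR2_mono hww (by norm_num))))
      (TR2_zmul _ (TR2_mono (TR2_mul hcw hww) (by norm_num)))
  have h1α : 1 + α ≠ 0 := TR2_ne (TR2_unit padicNorm.one (TR2_mono hαD (by norm_num)))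
  have h1β' : padicNorm q (1 + β) = 1 := TR2_unit padicNorm.one (TR2_mono hββ (by norm_num))
  have h1β : 1 + β ≠ 0 := TR2_ne h1β'
  have e1 : x ^ 3 + (3 * x + c) ^ 2 = x ^ 3 * (1 + α) := by
    rw [hα]
    field_simp
  have e2 : x ^ 3 - 12 * c * x - 8 * c ^ 2 = x ^ 3 * (1 + β) := by
    rw [hβ]
    push_cast
    field_simp
    ring
  have hy : y ≠ 0 := by
    rintro rfl
    have h2 := fe_eq h
    rw [TR2_cE] at h2
    have h3 : ((x ^ 3 + (3 * x + c) ^ 2 : ℚ) : k) = 0 := by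
      push_cast
      rw [hc]
      push_cast at h2 ⊢
      rw [← h2]
      ring
    have h4 : x ^ 3 + (3 * x + c) ^ 2 = 0 := by exact_mod_cast h3
    rw [e1] at h4
    exact mul_ne_zero (pow_ne_zero 3 hx) h1α h4
  obtain ⟨h', e'⟩ := fe_dbl h hy
  set t : ℚ := x * (x ^ 3 - 12 * c * x - 8 * c ^ 2) / (4 * (x ^ 3 + (3 * x + c) ^ 2)) with ht
  have hcE : cE (r : k) = (c : k) := TR2_cE
  obtain ⟨h'', e''⟩ := TR2_tr (X2 := (t : k)) (by
    rw [ht, hcE]
    push_cast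
    rfl) h'
  have hx3 : x ^ 3 ≠ 0 := pow_ne_zero 3 hx
  have ht2 : t = x * (1 + β) / (4 * (1 + α)) := by
    rw [ht, e1, e2]
    field_simp
  have ht0 : t ≠ 0 := by
    rw [ht2]
    exact div_ne_zero (mul_ne_zero hx h1β) (mul_ne_zero (by norm_num) h1α)
  refine ⟨t, _, h'', e'.trans e'', ht0, ?_⟩
  have e3 : x / t - ((2 : ℕ) : ℚ) ^ 2 = (((4 : ℤ) : ℚ) * (α - β)) / (1 + β) := by
    rw [ht2]
    push_cast
    field_simp
    ring
  rw [e3]
  exact TR2_div h1β' (TR2_zmul 4 (TR2_sub hαD hββ))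

theorem tr_prime [CharZero k] {r : ℚ} {q : ℕ} [Fact q.Prime] (hq : q ≠ 2) {x : ℚ} {y : k}
    (h : (Er (r : k)).Nonsingular (x : k) y) (hx : x ≠ 0) (hv : padicValRat q x ≤ -2)
    (hc : padicNorm q (4 * (1 - r ^ 2)) ≤ padicNorm q x) :
    ∃ (x' : ℚ) (y' : k) (h' : (Er (r : k)).Nonsingular (x' : k) y'),
      q • WeierstrassCurve.Affine.Point.some _ _ h = WeierstrassCurve.Affine.Point.some _ _ h' ∧ x' ≠ 0 ∧
        padicValRat q x' = padicValRat q x - 2 := by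
  have hp : q.Prime := Fact.out
  have hq3 : 3 ≤ q := by
    have h2 := hp.two_le
    omega
  have hqpos := TR2_pos q
  have hq1 : (1 : ℚ) < (q : ℚ) := by exact_mod_cast hp.one_lt
  have hw : TR2_D q 2 x⁻¹ := by
    unfold TR2_D
    rw [padicNorm.eq_zpow_of_nonzero (inv_ne_zero hx), padicValRat.inv, neg_neg, ← zpow_natCast, ← zpow_neg]
    exact zpow_le_zpow_right₀ hq1.le (by push_cast; exact hv)
  have hcw : TR2_D q 0 (4 * (1 - r ^ 2) * x⁻¹) := by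
    have hxn : 0 < padicNorm q x := lt_of_le_of_ne (padicNorm.nonneg _) (Ne.symm (padicNorm.nonzero hx))
    unfold TR2_D
    rw [← div_eq_mul_inv, padicNorm.div, pow_zero, inv_one]
    exact (div_le_one hxn).2 hc
  -- a step: from `m` and `m + 1` to `m + 2`
  have key : ∀ m, 1 ≤ m → m + 1 < q → TR2_A q m h ∧ TR2_A q (m + 1) h := by
    intro m hm
    induction m, hm using Nat.le_induction with
    | base => intro _; exact ⟨TR2_one hx h, TR2_two hx hw hcw h⟩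
    | succ m hm ih =>
      intro hlt
      obtain ⟨⟨s, ys, hs, es, hs0, hsD⟩, ⟨u, yu, hu, eu, hu0, huD⟩⟩ := ih (by omega)
      refine ⟨⟨u, yu, hu, eu, hu0, huD⟩, ?_⟩
      have hm' : ¬ q ∣ m := fun hd => by
        have := Nat.le_of_dvd (by omega) hd
        omega
      have hm2 : ¬ q ∣ m * (m + 2) := fun hd => by
        rcases (Nat.Prime.dvd_mul hp).1 hd with h1 | h1
        · exact hm' h1
        · have := Nat.le_of_dvd (by omega) h1
          omega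
      have huD' : TR2_D q 2 (x / u - ((m : ℚ) + 1) ^ 2) := by
        push_cast at huD
        exact huD
      have hρ : TR2_D q 0 (x / u) := by
        have h1 := TR2_add (TR2_int q (((m : ℤ) + 1) ^ 2)) (TR2_mono huD' (by norm_num : 0 ≤ 2))
        push_cast at h1
        rwa [show ((m : ℚ) + 1) ^ 2 + (x / u - ((m : ℚ) + 1) ^ 2) = x / u by ring] at h1
      have hne : x / u - 1 ≠ 0 := by
        have h1 := TR2_unit (TR2_int1 hm2) (TR2_mono huD' (by norm_num : 1 ≤ 2))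
        have h2 : ((m * (m + 2) : ℕ) : ℚ) + (x / u - ((m : ℚ) + 1) ^ 2) = x / u - 1 := by
          push_cast
          ring
        rw [h2] at h1
        exact TR2_ne h1
      obtain ⟨t, yt, ht, δ, et, ht0, hδ, hr⟩ := TR2_step h hu hs (by
        rw [← eu, ← es, succ_nsmul, add_sub_cancel_right]) hx hu0 hs0 hw hcw hρ hne
      refine ⟨t, yt, ht, ?_, ht0, ?_⟩
      · rw [succ_nsmul, eu, et]
      · rw [hr]
        have h1 := (TR2_rat hm' huD' hsD hδ).2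
        push_cast
        rw [show (m : ℚ) + 1 + 1 = (m : ℚ) + 2 by ring]
        exact h1
  obtain ⟨m, rfl⟩ : ∃ m, q = m + 2 := ⟨q - 2, by omega⟩
  obtain ⟨⟨s, ys, hs, es, hs0, hsD⟩, ⟨u, yu, hu, eu, hu0, huD⟩⟩ := key m (by omega) (by omega)
  have hm' : ¬ (m + 2) ∣ m := fun hd => by
    have := Nat.le_of_dvd (by omega) hd
    omega
  have huD' : TR2_D (m + 2) 2 (x / u - ((m : ℚ) + 1) ^ 2) := by
    push_cast at huD
    exact huD
  have hρ : TR2_D (m + 2) 0 (x / u) := by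
    have h1 := TR2_add (TR2_int (m + 2) (((m : ℤ) + 1) ^ 2)) (TR2_mono huD' (by norm_num : 0 ≤ 2))
    push_cast at h1
    rwa [show ((m : ℚ) + 1) ^ 2 + (x / u - ((m : ℚ) + 1) ^ 2) = x / u by ring] at h1
  have hnorm : padicNorm (m + 2) (x / u - 1) = (((m + 2 : ℕ) : ℚ))⁻¹ := by
    have h1 : padicNorm (m + 2) ((m : ℚ) * ((m + 2 : ℕ) : ℚ)) = (((m + 2 : ℕ) : ℚ))⁻¹ := by
      rw [padicNorm.mul, TR2_int1 hm', one_mul, padicNorm.padicNorm_p_of_prime]
    have h2 : padicNorm (m + 2) (x / u - ((m : ℚ) + 1) ^ 2) < (((m + 2 : ℕ) : ℚ))⁻¹ := by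
      refine lt_of_le_of_lt huD' ?_
      refine inv_strictAnti₀ hqpos ?_
      rw [pow_two]
      exact lt_mul_of_one_lt_left hqpos hq1
    have h3 : x / u - 1 = (m : ℚ) * ((m + 2 : ℕ) : ℚ) + (x / u - ((m : ℚ) + 1) ^ 2) := by
      push_cast
      ring
    rw [h3, padicNorm.add_eq_max_of_ne (by rw [h1]; exact h2.ne'), h1]
    exact max_eq_left h2.le
  have hne : x / u - 1 ≠ 0 := by
    intro h0
    rw [h0, padicNorm.zero] at hnorm
    exact (inv_pos.2 hqpos).ne hnorm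
  obtain ⟨t, yt, ht, δ, et, ht0, hδ, hr⟩ := TR2_step h hu hs (by
    rw [← eu, ← es, succ_nsmul, add_sub_cancel_right]) hx hu0 hs0 hw hcw hρ hne
  refine ⟨t, yt, ht, ?_, ht0, ?_⟩
  · rw [succ_nsmul, eu, et]
  · have h1 := (TR2_rat hm' huD' hsD hδ).1
    have h2 : padicNorm (m + 2) (x / t) = (((m + 2 : ℕ) : ℚ)) ^ (-(2 : ℤ)) := by
      rw [hr, padicNorm.div, h1, div_one, pow_two, padicNorm.mul, hnorm, zpow_neg, ← mul_inv]
      congr 1
      norm_cast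
      ring
    have hxt : x / t ≠ 0 := div_ne_zero hx ht0
    rw [padicNorm.eq_zpow_of_nonzero hxt] at h2
    have h3 := zpow_right_injective₀ hqpos hq1.ne' h2
    beta_reduce at h3
    rw [padicValRat.div hx ht0] at h3
    linarith

end Pool.Agent.LibCW77
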