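import Pool.Agent.LibCW77.TR1
import Pool.Agent.LibCW77.TR2
import Pool.Agent.LibCW77.TQ3

/-!
[CW77 TR3] All rational numbers `r` for which `B` is a torsion point: `r = ± 3`, `± 9`.
-/

open scoped Classical
open Polynomial

namespace Pool.Agent.LibCW77

open Pool.Agent.LibBH2
open Pool.Agent.LibCHd (VR RF Red FunF)

variable {k : Type} [Field k]

private theorem TR3_pt {W : WeierstrassCurve.Affine k} {a b : k} (h : W.Nonsingular a b) (a' b' : k) (ha : a = a')
    (hb : b = b') : ∃ h' : W.Nonsingular a' b',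
      WeierstrassCurve.Affine.Point.some _ _ h = WeierstrassCurve.Affine.Point.some _ _ h' := by
  subst ha
  subst hb
  exact ⟨h, rfl⟩

private theorem TR3_val {q : ℕ} [hq : Fact q.Prime] {x y : ℚ} (hx : x ≠ 0) (hy : y ≠ 0)
    (h : padicValRat q x ≤ padicValRat q y) : padicNorm q y ≤ padicNorm q x := by
  have hq1 : (1 : ℚ) ≤ (q : ℚ) := by exact_mod_cast hq.1.one_lt.le
  rw [padicNorm.eq_zpow_of_nonzero hx, padicNorm.eq_zpow_of_nonzero hy]
  exact zpow_le_zpow_right₀ hq1 (by linarith)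

/-- a multiple `n • B` whose abscissa is not integral at an odd prime `q`, in the strong sense, gives infinite order -/
theorem tr_inf [CharZero k] {r : ℚ} {q n : ℕ} (hqp : q.Prime) (hq : q ≠ 2) (h1 : r ^ 2 ≠ 1) {X : ℚ} (hX0 : X ≠ 0)
    (hv : padicValRat q X ≤ -2) (hc : padicValRat q X ≤ padicValRat q (4 * (1 - r ^ 2)))
    (hm : ∀ hB : (Er (r : k)).Nonsingular (4 * ((r : k) ^ 2 - 1)) (8 * (r : k) * ((r : k) ^ 2 - 1)),
      ∃ (y : k) (h' : (Er (r : k)).Nonsingular (X : k) y),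
        n • WeierstrassCurve.Affine.Point.some _ _ hB = WeierstrassCurve.Affine.Point.some _ _ h') :
    ¬ TorsB (r : k) := by
  haveI : Fact q.Prime := ⟨hqp⟩
  rintro ⟨hB, hfin⟩
  have hc0 : (4 * (1 - r ^ 2) : ℚ) ≠ 0 := mul_ne_zero (by norm_num) (sub_ne_zero.2 (Ne.symm h1))
  obtain ⟨y, h2, e2⟩ := hm hB
  have key : ∀ j : ℕ, ∃ (x : ℚ) (y : k) (h' : (Er (r : k)).Nonsingular (x : k) y),
      (q ^ j * n) • WeierstrassCurve.Affine.Point.some _ _ hB =
        WeierstrassCurve.Affine.Point.some _ _ h' ∧ x ≠ 0 ∧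
      padicValRat q x = padicValRat q X - 2 * (j : ℤ) := by
    intro j
    induction j with
    | zero =>
      refine ⟨X, y, h2, ?_, hX0, by simp⟩
      rw [pow_zero, one_mul, e2]
    | succ j ih =>
      obtain ⟨x, y, h', e, hx0, hvx⟩ := ih
      have hj : (0 : ℤ) ≤ (j : ℤ) := Int.natCast_nonneg j
      obtain ⟨x', y', h'', e'', hx0', hvx'⟩ := tr_prime hq h' hx0 (by
        rw [hvx]
        linarith) (TR3_val hx0 hc0 (by rw [hvx]; linarith))
      refine ⟨x', y', h'', ?_, hx0', ?_⟩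
      · rw [← e'', ← e, smul_smul]
        congr 1
        ring
      · rw [hvx', hvx]
        push_cast
        ring
  have hfm : ((AddSubmonoid.multiples (WeierstrassCurve.Affine.Point.some _ _ hB) :
      AddSubmonoid (Er (r : k)).Point) : Set (Er (r : k)).Point).Finite := finite_multiples.2 hfin
  have hinj : Function.Injective (fun j : ℕ =>
      (q ^ j * n) • WeierstrassCurve.Affine.Point.some _ _ hB) := by
    intro i j hij
    obtain ⟨x, y, h', e, -, hv⟩ := key i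
    obtain ⟨x', y', h'', e', -, hv'⟩ := key j
    beta_reduce at hij
    rw [e, e'] at hij
    have h5 := (WeierstrassCurve.Affine.Point.some.inj hij).1
    have h6 : x = x' := by exact_mod_cast h5
    rw [h6, hv'] at hv
    have : (i : ℤ) = (j : ℤ) := by linarith
    exact_mod_cast this
  refine Set.infinite_range_of_injective hinj (hfm.subset ?_)
  rintro _ ⟨j, rfl⟩
  exact AddSubmonoid.nsmul_mem _ (AddSubmonoid.mem_multiples _) _

theorem tr_infN [CharZero k] {r : ℚ} {q n : ℕ} (hqp : q.Prime) (hq : q ≠ 2) (h1 : r ^ 2 ≠ 1) {X : ℚ}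
    (hv : (q : ℚ) ^ 2 ≤ padicNorm q X) (hc : padicNorm q (4 * (1 - r ^ 2)) ≤ padicNorm q X)
    (hm : ∀ hB : (Er (r : k)).Nonsingular (4 * ((r : k) ^ 2 - 1)) (8 * (r : k) * ((r : k) ^ 2 - 1)),
      ∃ (y : k) (h' : (Er (r : k)).Nonsingular (X : k) y),
        n • WeierstrassCurve.Affine.Point.some _ _ hB = WeierstrassCurve.Affine.Point.some _ _ h') :
    ¬ TorsB (r : k) := by
  haveI : Fact q.Prime := ⟨hqp⟩
  have hq1 : (1 : ℚ) < (q : ℚ) := by exact_mod_cast hqp.one_lt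
  have hX0 : X ≠ 0 := by
    rintro rfl
    rw [padicNorm.zero] at hv
    have : (0 : ℚ) < (q : ℚ) ^ 2 := by positivity
    linarith
  have hc0 : (4 * (1 - r ^ 2) : ℚ) ≠ 0 := mul_ne_zero (by norm_num) (sub_ne_zero.2 (Ne.symm h1))
  refine tr_inf hqp hq h1 hX0 ?_ ?_ hm
  · rw [padicNorm.eq_zpow_of_nonzero hX0, ← zpow_natCast, zpow_le_zpow_iff_right₀ hq1] at hv
    push_cast at hv
    linarith
  · rw [padicNorm.eq_zpow_of_nonzero hX0, padicNorm.eq_zpow_of_nonzero hc0, zpow_le_zpow_iff_right₀ hq1] at hc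
    linarith

private theorem TR3_sublt {q : ℕ} [hq : Fact q.Prime] {a b : ℚ} (h : padicNorm q b < padicNorm q a) :
    padicNorm q (a - b) = padicNorm q a := by
  rw [sub_eq_add_neg, padicNorm.add_eq_max_of_ne (by rw [padicNorm.neg]; exact h.ne'), padicNorm.neg,
    max_eq_left h.le]

private theorem TR3_sublt' {q : ℕ} [hq : Fact q.Prime] {a b : ℚ} (h : padicNorm q a < padicNorm q b) :
    padicNorm q (a - b) = padicNorm q b := by
  rw [← padicNorm.neg, neg_sub]
  exact TR3_sublt h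

private theorem TR3_lt {q : ℕ} [hq : Fact q.Prime] {x : ℚ} (h : padicNorm q x < 1) :
    padicNorm q x ≤ (q : ℚ)⁻¹ := by
  have hq1 : (1 : ℚ) < (q : ℚ) := by exact_mod_cast hq.1.one_lt
  by_cases hx : x = 0
  · rw [hx, padicNorm.zero]
    positivity
  · rw [padicNorm.eq_zpow_of_nonzero hx] at h ⊢
    have h1 := (zpow_lt_one_iff_right₀ hq1).1 h
    rw [← zpow_neg_one]
    exact zpow_le_zpow_right₀ hq1.le (by omega)

private theorem TR3_sq {q : ℕ} [hq : Fact q.Prime] (x : ℚ) : padicNorm q (x ^ 2) = padicNorm q x ^ 2 := by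
  rw [pow_two, padicNorm.mul, pow_two]

private theorem TR3_23 {q : ℕ} (hq : q.Prime) (h5 : 5 ≤ q) (a b : ℕ) {c : ℚ} (hc : c = ((2 ^ a * 3 ^ b : ℕ) : ℚ)) :
    padicNorm q c = 1 := by
  haveI : Fact q.Prime := ⟨hq⟩
  rw [hc]
  refine (padicNorm.nat_eq_one_iff _).2 fun h => ?_
  rcases (Nat.Prime.dvd_mul hq).1 h with h | h
  · have := Nat.le_of_dvd (by norm_num) (hq.dvd_of_dvd_pow h)
    omega
  · have := Nat.le_of_dvd (by norm_num) (hq.dvd_of_dvd_pow h)
    omega

private theorem TR3_n3 : padicNorm 3 (3 : ℚ) = 3⁻¹ := by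
  haveI : Fact (Nat.Prime 3) := ⟨Nat.prime_three⟩
  have := padicNorm.padicNorm_p_of_prime (p := 3)
  exact_mod_cast this

private theorem TR3_n9 : padicNorm 3 (9 : ℚ) = 9⁻¹ := by
  haveI : Fact (Nat.Prime 3) := ⟨Nat.prime_three⟩
  rw [show (9 : ℚ) = 3 * 3 by norm_num, padicNorm.mul, TR3_n3]
  norm_num

private theorem TR3_n4 {q : ℕ} (hq : q.Prime) (h2 : q ≠ 2) : padicNorm q (4 : ℚ) = 1 := by
  haveI : Fact q.Prime := ⟨hq⟩
  have h := (padicNorm.nat_eq_one_iff (p := q) 4).2 (fun h => by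
    have h4 : q ∣ 2 ^ 2 := by simpa using h
    exact h2 ((Nat.prime_dvd_prime_iff_eq hq Nat.prime_two).1 (hq.dvd_of_dvd_pow h4)))
  exact_mod_cast h

/-- `3 B` at the prime `3` -/
private theorem TR3_A [CharZero k] {r : ℚ} (h0 : r ≠ 0) (h1 : r ^ 2 ≠ 1) (hN : 1 ≤ padicNorm 3 r) :
    ¬ TorsB (r : k) := by
  haveI : Fact (Nat.Prime 3) := ⟨Nat.prime_three⟩
  have h4 := TR3_n4 Nat.prime_three (by norm_num)
  have hr1 : (1 : ℚ) ≤ padicNorm 3 r ^ 2 := one_le_pow₀ hN
  have e1 : padicNorm 3 (r ^ 2 - 9) = padicNorm 3 r ^ 2 := by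
    rw [TR3_sublt (by rw [TR3_sq, TR3_n9]; linarith), TR3_sq]
  have hX : padicNorm 3 (4 * (r ^ 2 - 9) / 9) = 9 * padicNorm 3 r ^ 2 := by
    rw [padicNorm.div, padicNorm.mul, h4, e1, TR3_n9]
    ring
  refine tr_infN (n := 3) Nat.prime_three (by norm_num) h1 (X := 4 * (r ^ 2 - 9) / 9) ?_ ?_ ?_
  · rw [hX]
    push_cast
    linarith
  · rw [hX, padicNorm.mul, h4, one_mul]
    refine (padicNorm.sub).trans ?_
    rw [padicNorm.one, TR3_sq]
    exact max_le (by linarith) (by linarith)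
  · intro hB
    obtain ⟨h', e⟩ := fe_3B (by exact_mod_cast h0) (by exact_mod_cast h1) hB
    obtain ⟨h'', e'⟩ := TR3_pt h' (((4 * (r ^ 2 - 9) / 9 : ℚ)) : k) _ (by push_cast; ring) rfl
    exact ⟨_, h'', e.trans e'⟩

private theorem TR3_4 [CharZero k] {r : ℚ} (h0 : r ≠ 0) (h1 : r ^ 2 ≠ 1)
    (hB : (Er (r : k)).Nonsingular (4 * ((r : k) ^ 2 - 1)) (8 * (r : k) * ((r : k) ^ 2 - 1))) :
      ∃ (y : k) (h' : (Er (r : k)).Nonsingular (((r ^ 2 - 1) * (r ^ 2 - 81) / (4 * r ^ 2) : ℚ) : k) y),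
        4 • WeierstrassCurve.Affine.Point.some _ _ hB = WeierstrassCurve.Affine.Point.some _ _ h' := by
  obtain ⟨y, h', e⟩ := fe_4B (by exact_mod_cast h0) (by exact_mod_cast h1) hB
  obtain ⟨h'', e'⟩ := TR3_pt h' ((((r ^ 2 - 1) * (r ^ 2 - 81) / (4 * r ^ 2) : ℚ)) : k) _ (by push_cast; ring) rfl
  exact ⟨_, h'', e.trans e'⟩

/-- `4 B` at a prime `q ≥ 5` -/
private theorem TR3_B [CharZero k] {r : ℚ} {q : ℕ} (hqp : q.Prime) (h5 : 5 ≤ q) (h0 : r ≠ 0) (h1 : r ^ 2 ≠ 1)
    (hN : padicNorm q r < 1) : ¬ TorsB (r : k) := by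
  haveI : Fact q.Prime := ⟨hqp⟩
  have h4 := TR3_n4 hqp (by omega)
  have h81 : padicNorm q (81 : ℚ) = 1 := TR3_23 hqp h5 0 4 (by norm_num)
  have hpos : 0 < padicNorm q r := lt_of_le_of_ne (padicNorm.nonneg _) (Ne.symm (padicNorm.nonzero h0))
  have hlt : padicNorm q (r ^ 2) < 1 := by
    rw [TR3_sq]
    exact pow_lt_one₀ hpos.le hN two_ne_zero
  have e1 : padicNorm q (r ^ 2 - 1) = 1 := by
    rw [TR3_sublt' (by rw [padicNorm.one]; exact hlt), padicNorm.one]
  have e2 : padicNorm q (r ^ 2 - 81) = 1 := by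
    rw [TR3_sublt' (by rw [h81]; exact hlt), h81]
  have e3 : padicNorm q (1 - r ^ 2) = 1 := by
    rw [TR3_sublt (by rw [padicNorm.one]; exact hlt), padicNorm.one]
  have hX : padicNorm q ((r ^ 2 - 1) * (r ^ 2 - 81) / (4 * r ^ 2)) = (padicNorm q r ^ 2)⁻¹ := by
    rw [padicNorm.div, padicNorm.mul, padicNorm.mul, h4, e1, e2, TR3_sq]
    ring
  have hq0 : (0 : ℚ) < (q : ℚ) := by exact_mod_cast hqp.pos
  have hge : (q : ℚ) ^ 2 ≤ (padicNorm q r ^ 2)⁻¹ := by
    rw [← inv_pow]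
    refine pow_le_pow_left₀ hq0.le ?_ 2
    rw [le_inv_comm₀ hq0 hpos]
    exact TR3_lt hN
  refine tr_infN (n := 4) hqp (by omega) h1 (X := (r ^ 2 - 1) * (r ^ 2 - 81) / (4 * r ^ 2)) ?_ ?_ (TR3_4 h0 h1)
  · rw [hX]
    exact hge
  · rw [hX, padicNorm.mul, h4, e3]
    have : (1 : ℚ) ≤ (q : ℚ) ^ 2 := one_le_pow₀ (by exact_mod_cast hqp.one_lt.le)
    linarith

/-- `4 B` at the prime `3` -/
private theorem TR3_C [CharZero k] {r : ℚ} (h0 : r ≠ 0) (h1 : r ^ 2 ≠ 1)
    (hN : padicNorm 3 r ≤ 27⁻¹) : ¬ TorsB (r : k) := by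
  haveI : Fact (Nat.Prime 3) := ⟨Nat.prime_three⟩
  have h4 := TR3_n4 Nat.prime_three (by norm_num)
  have h81 : padicNorm 3 (81 : ℚ) = 81⁻¹ := by
    rw [show (81 : ℚ) = 9 * 9 by norm_num, padicNorm.mul, TR3_n9]
    norm_num
  have hpos : 0 < padicNorm 3 r := lt_of_le_of_ne (padicNorm.nonneg _) (Ne.symm (padicNorm.nonzero h0))
  have hle : padicNorm 3 (r ^ 2) ≤ 729⁻¹ := by
    rw [TR3_sq]
    calc padicNorm 3 r ^ 2 ≤ (27⁻¹) ^ 2 := pow_le_pow_left₀ hpos.le hN 2
      _ = 729⁻¹ := by norm_num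
  have e1 : padicNorm 3 (r ^ 2 - 1) = 1 := by
    rw [TR3_sublt' (by rw [padicNorm.one]; refine lt_of_le_of_lt hle (by norm_num)), padicNorm.one]
  have e2 : padicNorm 3 (r ^ 2 - 81) = 81⁻¹ := by
    rw [TR3_sublt' (by rw [h81]; refine lt_of_le_of_lt hle (by norm_num)), h81]
  have e3 : padicNorm 3 (1 - r ^ 2) = 1 := by
    rw [TR3_sublt (by rw [padicNorm.one]; refine lt_of_le_of_lt hle (by norm_num)), padicNorm.one]
  have hX : padicNorm 3 ((r ^ 2 - 1) * (r ^ 2 - 81) / (4 * r ^ 2)) = 81⁻¹ * (padicNorm 3 (r ^ 2))⁻¹ := by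
    rw [padicNorm.div, padicNorm.mul, padicNorm.mul, h4, e1, e2]
    ring
  have hpos2 : 0 < padicNorm 3 (r ^ 2) := by
    rw [TR3_sq]
    positivity
  have hge : (9 : ℚ) ≤ 81⁻¹ * (padicNorm 3 (r ^ 2))⁻¹ := by
    have h7 : (729 : ℚ) ≤ (padicNorm 3 (r ^ 2))⁻¹ := by
      rw [le_inv_comm₀ (by norm_num) hpos2]
      exact hle
    linarith
  refine tr_infN (n := 4) Nat.prime_three (by norm_num) h1 (X := (r ^ 2 - 1) * (r ^ 2 - 81) / (4 * r ^ 2)) ?_ ?_
    (TR3_4 h0 h1)
  · rw [hX]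
    push_cast
    linarith
  · rw [hX, padicNorm.mul, h4, e3]
    linarith

/-- `6 B` at a prime `q ≥ 5` -/
private theorem TR3_D [CharZero k] {r : ℚ} {q : ℕ} (hqp : q.Prime) (h5 : 5 ≤ q) (h0 : r ≠ 0) (h1 : r ^ 2 ≠ 1)
    (hN : padicNorm q (r ^ 2 + 27) < 1) : ¬ TorsB (r : k) := by
  haveI : Fact q.Prime := ⟨hqp⟩
  have h4 := TR3_n4 hqp (by omega)
  have h9 : padicNorm q (9 : ℚ) = 1 := TR3_23 hqp h5 0 2 (by norm_num)
  have h36 : padicNorm q (36 : ℚ) = 1 := TR3_23 hqp h5 2 2 (by norm_num)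
  have hK : padicNorm q (34992 : ℚ) = 1 := TR3_23 hqp h5 4 7 (by norm_num)
  have h270 : r ^ 2 + 27 ≠ 0 := by
    have := sq_nonneg r
    linarith
  have hpos : 0 < padicNorm q (r ^ 2 + 27) :=
    lt_of_le_of_ne (padicNorm.nonneg _) (Ne.symm (padicNorm.nonzero h270))
  have hint : ∀ z : ℤ, padicNorm q (z : ℚ) ≤ 1 := fun z => padicNorm.of_int z
  have hr2 : padicNorm q (r ^ 2) ≤ 1 := by
    have h := padicNorm.sub (p := q) (q := r ^ 2 + 27) (r := 27)
    rw [show r ^ 2 + 27 - 27 = r ^ 2 by ring] at h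
    refine h.trans (max_le hN.le ?_)
    have := hint 27
    exact_mod_cast this
  have e1 : padicNorm q (r ^ 2 - 9) = 1 := by
    have h := TR3_sublt' (q := q) (a := r ^ 2 + 27) (b := 36) (by rw [h36]; exact hN)
    rw [h36] at h
    rw [← h]
    congr 1
    ring
  have e2 : padicNorm q (r ^ 4 - 1242 * r ^ 2 + 729) = 1 := by
    have h6 : padicNorm q (-((r ^ 2 + 27) * (r ^ 2 - 1269))) < 1 := by
      rw [padicNorm.neg, padicNorm.mul]
      have h7 : padicNorm q (r ^ 2 - 1269) ≤ 1 := by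
        refine (padicNorm.sub).trans (max_le hr2 ?_)
        have := hint 1269
        exact_mod_cast this
      calc padicNorm q (r ^ 2 + 27) * padicNorm q (r ^ 2 - 1269) ≤ padicNorm q (r ^ 2 + 27) * 1 :=
            mul_le_mul_of_nonneg_left h7 hpos.le
        _ < 1 := by rw [mul_one]; exact hN
    have h := TR3_sublt (q := q) (a := 34992) (b := -((r ^ 2 + 27) * (r ^ 2 - 1269))) (by rw [hK]; exact h6)
    rw [hK] at h
    rw [← h]
    congr 1
    ring
  have hX : padicNorm q ((r ^ 2 - 9) * (r ^ 4 - 1242 * r ^ 2 + 729) / (9 * (r ^ 2 + 27) ^ 2)) =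
      (padicNorm q (r ^ 2 + 27) ^ 2)⁻¹ := by
    rw [padicNorm.div, padicNorm.mul, padicNorm.mul, h9, e1, e2, TR3_sq]
    ring
  have hq0 : (0 : ℚ) < (q : ℚ) := by exact_mod_cast hqp.pos
  have hge : (q : ℚ) ^ 2 ≤ (padicNorm q (r ^ 2 + 27) ^ 2)⁻¹ := by
    rw [← inv_pow]
    refine pow_le_pow_left₀ hq0.le ?_ 2
    rw [le_inv_comm₀ hq0 hpos]
    exact TR3_lt hN
  have hk0 : (r : k) ≠ 0 := by exact_mod_cast h0
  have hk1 : (r : k) ^ 2 ≠ 1 := by exact_mod_cast h1
  have hk27 : (r : k) ^ 2 ≠ -27 := by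
    intro h
    apply h270
    have h8 : (((r ^ 2 + 27 : ℚ)) : k) = 0 := by
      push_cast
      rw [h]
      ring
    exact_mod_cast h8
  refine tr_infN (n := 6) hqp (by omega) h1
    (X := (r ^ 2 - 9) * (r ^ 4 - 1242 * r ^ 2 + 729) / (9 * (r ^ 2 + 27) ^ 2)) ?_ ?_ ?_
  · rw [hX]
    exact hge
  · rw [hX, padicNorm.mul, h4, one_mul]
    have h6 : padicNorm q (1 - r ^ 2) ≤ 1 := by
      refine (padicNorm.sub).trans (max_le ?_ hr2)
      rw [padicNorm.one]
    have : (1 : ℚ) ≤ (q : ℚ) ^ 2 := one_le_pow₀ (by exact_mod_cast hqp.one_lt.le)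
    linarith
  · intro hB
    obtain ⟨y, h', e⟩ := fe_6B hk0 hk1 hk27 hB
    obtain ⟨h'', e'⟩ := TR3_pt h'
      ((((r ^ 2 - 9) * (r ^ 4 - 1242 * r ^ 2 + 729) / (9 * (r ^ 2 + 27) ^ 2) : ℚ)) : k) _ (by push_cast; ring) rfl
    exact ⟨_, h'', e.trans e'⟩

theorem torsB_0 {r : k} [CharZero k] (h : TorsB r) : r ≠ 0 := by
  rintro rfl
  obtain ⟨h1, -⟩ := h
  rw [WeierstrassCurve.Affine.nonsingular_iff'] at h1
  have h2 := h1.2
  simp only [Er] at h2
  norm_num at h2

private theorem TR3_fact {F : ℕ} (hodd : ¬ 2 ∣ F) (h3 : ¬ 3 ∣ F) (h : ∀ q : ℕ, q.Prime → 5 ≤ q → ¬ q ∣ F) : F = 1 := by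
  by_contra hF
  obtain ⟨q, hq, hqF⟩ := Nat.exists_prime_and_dvd hF
  have h2 := hq.two_le
  rcases Nat.lt_or_ge q 5 with h5 | h5
  · interval_cases q
    · exact hodd hqF
    · exact h3 hqF
    · exact absurd hq (by norm_num)
  · exact h q hq h5 hqF

/-- elementary part: `d = 1` -/
private theorem TR3_end {a d : ℕ} (hcop : a.Coprime d) (ha : a = 3 ∨ a = 9) (hd : ¬ 2 ∣ d)
    (h : ∀ q : ℕ, q.Prime → 5 ≤ q → ¬ q ∣ a ^ 2 + 27 * d ^ 2) : d = 1 := by
  obtain ⟨t, rfl⟩ : ∃ t, d = 2 * t + 1 := ⟨d / 2, by omega⟩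
  have h3d : ¬ 3 ∣ 2 * t + 1 := by
    intro h3
    have h3a : 3 ∣ a := by
      rcases ha with rfl | rfl <;> norm_num
    have := Nat.dvd_gcd h3a h3
    rw [hcop] at this
    omega
  obtain ⟨m, hm⟩ : ∃ m, t * (t + 1) = 2 * m := by
    obtain ⟨m, hm⟩ := Nat.even_mul_succ_self t
    exact ⟨m, by rw [two_mul]; exact hm⟩
  have ht : t = 0 := by
    rcases ha with rfl | rfl
    · have hF : 1 + 3 * (2 * m) = 1 := by
        refine TR3_fact (by omega) (by omega) fun q hq h5 hqF => h q hq h5 ?_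
        have e : 3 ^ 2 + 27 * (2 * t + 1) ^ 2 = 36 * (1 + 3 * (2 * m)) := by
          rw [← hm]
          ring
        rw [e]
        exact Dvd.dvd.mul_left hqF _
      have hm0 : m = 0 := by omega
      rw [hm0, mul_zero] at hm
      rcases Nat.mul_eq_zero.1 hm with h0 | h0
      · exact h0
      · omega
    · have hF : 1 + 2 * m = 1 := by
        refine TR3_fact (by omega) ?_ fun q hq h5 hqF => h q hq h5 ?_
        · intro h3
          have e : (2 * t + 1) ^ 2 + 3 = 4 * (1 + 2 * m) := by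
            rw [← hm]
            ring
          have h4 : 3 ∣ (2 * t + 1) ^ 2 + 3 := by
            rw [e]
            exact Dvd.dvd.mul_left h3 _
          have h5 : 3 ∣ (2 * t + 1) ^ 2 := (Nat.dvd_add_left (dvd_refl 3)).1 h4
          exact h3d (Nat.prime_three.dvd_of_dvd_pow h5)
        · have e : 9 ^ 2 + 27 * (2 * t + 1) ^ 2 = 108 * (1 + 2 * m) := by
            rw [← hm]
            ring
          rw [e]
          exact Dvd.dvd.mul_left hqF _
      have hm0 : m = 0 := by omega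
      rw [hm0, mul_zero] at hm
      rcases Nat.mul_eq_zero.1 hm with h0 | h0
      · exact h0
      · omega
  rw [ht]

/-- the complete list of rational torsion parameters -/
theorem torsB_rat [CharZero k] (r : ℚ) : TorsB (r : k) ↔ r = 3 ∨ r = -3 ∨ r = 9 ∨ r = -9 := by
  constructor
  · intro hT
    have h1 : r ^ 2 ≠ 1 := by
      have := torsB_r hT
      exact_mod_cast this
    have h0 : r ≠ 0 := by
      have := torsB_0 hT
      exact_mod_cast this
    have h2 : padicValRat 2 r = 0 := by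
      by_contra h
      exact torsB_inf h hT
    obtain ⟨a, ha⟩ : ∃ a, a = r.num.natAbs := ⟨_, rfl⟩
    obtain ⟨d, hd⟩ : ∃ d, d = r.den := ⟨_, rfl⟩
    have hcop : a.Coprime d := by
      rw [ha, hd]
      exact r.reduced
    have ha0 : a ≠ 0 := by
      rw [ha]
      exact Int.natAbs_ne_zero.2 (Rat.num_ne_zero.2 h0)
    have hd0 : (d : ℚ) ≠ 0 := by
      rw [hd]
      exact_mod_cast r.den_nz
    have hr : (r.num : ℚ) / (d : ℚ) = r := by
      rw [hd]
      exact Rat.num_div_den r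
    have hnum : (r.num : ℚ) = (a : ℚ) ∨ (r.num : ℚ) = -(a : ℚ) := by
      rcases Int.natAbs_eq r.num with h | h
      · left
        have h' := congrArg (fun z : ℤ => (z : ℚ)) h
        beta_reduce at h'
        rw [h', Int.cast_natCast, ha]
      · right
        have h' := congrArg (fun z : ℤ => (z : ℚ)) h
        beta_reduce at h'
        rw [h', Int.cast_neg, Int.cast_natCast, ha]
    have hN : ∀ q : ℕ, q.Prime → padicNorm q r = padicNorm q (a : ℚ) / padicNorm q (d : ℚ) := by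
      intro q hq
      haveI : Fact q.Prime := ⟨hq⟩
      rw [← hr, padicNorm.div]
      rcases hnum with h | h
      · rw [h]
      · rw [h, padicNorm.neg]
    have hdn : ∀ q : ℕ, q.Prime → q ∣ a → padicNorm q (d : ℚ) = 1 := by
      intro q hq hqa
      haveI : Fact q.Prime := ⟨hq⟩
      refine (padicNorm.nat_eq_one_iff _).2 fun hqd => ?_
      have := Nat.dvd_gcd hqa hqd
      rw [hcop] at this
      exact hq.one_lt.ne' (Nat.dvd_one.1 this)
    have hlt : ∀ q : ℕ, q.Prime → q ∣ a → padicNorm q r < 1 := by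
      intro q hq hqa
      haveI : Fact q.Prime := ⟨hq⟩
      rw [hN q hq, hdn q hq hqa, div_one]
      exact (padicNorm.nat_lt_one_iff _).2 hqa
    have hN2 : padicNorm 2 r = 1 := by
      rw [padicNorm.eq_zpow_of_nonzero h0, h2]
      norm_num
    have h2a : ¬ 2 ∣ a := fun h => (hlt 2 Nat.prime_two h).ne hN2
    have h2d : ¬ 2 ∣ d := by
      intro h
      haveI : Fact (Nat.Prime 2) := ⟨Nat.prime_two⟩
      have e1 : padicNorm 2 (a : ℚ) = 1 := (padicNorm.nat_eq_one_iff _).2 h2a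
      have e2 : padicNorm 2 (d : ℚ) < 1 := (padicNorm.nat_lt_one_iff _).2 h
      have e3 := hN 2 Nat.prime_two
      have e4 : padicNorm 2 (d : ℚ) ≠ 0 := padicNorm.nonzero hd0
      rw [hN2, e1, eq_div_iff e4, one_mul] at e3
      exact e2.ne e3
    have h5a : ∀ q : ℕ, q.Prime → 5 ≤ q → ¬ q ∣ a := fun q hq h5 hqa =>
      TR3_B (k := k) hq h5 h0 h1 (hlt q hq hqa) hT
    haveI : Fact (Nat.Prime 3) := ⟨Nat.prime_three⟩
    have h3a : 3 ∣ a := by
      by_contra h
      refine TR3_A (k := k) h0 h1 ?_ hT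
      have e1 : padicNorm 3 (a : ℚ) = 1 := (padicNorm.nat_eq_one_iff _).2 h
      have e4 : 0 < padicNorm 3 (d : ℚ) := lt_of_le_of_ne (padicNorm.nonneg _) (Ne.symm (padicNorm.nonzero hd0))
      rw [hN 3 Nat.prime_three, e1, one_div]
      exact (one_le_inv₀ e4).2 (padicNorm.of_nat _)
    have h27a : ¬ 27 ∣ a := by
      intro h
      refine TR3_C (k := k) h0 h1 ?_ hT
      rw [hN 3 Nat.prime_three, hdn 3 Nat.prime_three h3a, div_one]
      have e1 := (padicNorm.dvd_iff_norm_le (p := 3) (n := 3) (z := (a : ℤ))).1 (by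
        norm_num
        exact_mod_cast h)
      refine le_of_le_of_eq (by exact_mod_cast e1) (by norm_num)
    obtain ⟨e, he⟩ : ∃ e, a = 3 ^ e := by
      refine ⟨_, Nat.eq_prime_pow_of_unique_prime_dvd ha0 fun {q} hq hqa => ?_⟩
      have h2q := hq.two_le
      rcases Nat.lt_or_ge q 5 with h5 | h5
      · interval_cases q
        · exact absurd hqa h2a
        · rfl
        · exact absurd hq (by norm_num)
      · exact absurd hqa (h5a q hq h5)
    have he2 : e ≤ 2 := by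
      by_contra hcon
      obtain ⟨f, rfl⟩ : ∃ f, e = f + 3 := ⟨e - 3, by omega⟩
      apply h27a
      rw [he, pow_add]
      norm_num
    have ha' : a = 3 ∨ a = 9 := by
      interval_cases e
      · rw [he] at h3a
        norm_num at h3a
      · left
        rw [he, pow_one]
      · right
        rw [he]
        norm_num
    have hd1 : d = 1 := by
      refine TR3_end hcop ha' h2d fun q hq h5 hqD => ?_
      haveI : Fact q.Prime := ⟨hq⟩
      have hqd : ¬ q ∣ d := by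
        intro h
        have h6 : q ∣ a ^ 2 := (Nat.dvd_add_left (Dvd.dvd.mul_left (dvd_pow h two_ne_zero) 27)).1 hqD
        exact h5a q hq h5 (hq.dvd_of_dvd_pow h6)
      refine TR3_D (k := k) hq h5 h0 h1 ?_ hT
      have e1 : r ^ 2 + 27 = ((a ^ 2 + 27 * d ^ 2 : ℕ) : ℚ) / (d : ℚ) ^ 2 := by
        rw [eq_div_iff (pow_ne_zero 2 hd0), add_mul, ← mul_pow]
        have e2 : r * (d : ℚ) = (r.num : ℚ) := by
          rw [← hr]
          field_simp
          rw [hr]
        rw [e2]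
        push_cast
        rcases hnum with h | h
        · rw [h]
        · rw [h]
          ring
      have e3 : padicNorm q (d : ℚ) = 1 := (padicNorm.nat_eq_one_iff _).2 hqd
      rw [e1, padicNorm.div, TR3_sq, e3, one_pow, div_one]
      exact (padicNorm.nat_lt_one_iff _).2 hqD
    have hr' : r = (r.num : ℚ) := by
      rw [← hr, hd1, Nat.cast_one, div_one]
      norm_cast
    rcases ha' with h | h
    · rcases hnum with h' | h'
      · left
        rw [hr', h', h]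
        norm_num
      · right
        left
        rw [hr', h', h]
        norm_num
    · rcases hnum with h' | h'
      · right
        right
        left
        rw [hr', h', h]
        norm_num
      · right
        right
        right
        rw [hr', h', h]
        norm_num
  · rintro (rfl | rfl | rfl | rfl)
    · have := torsB_3 (k := k)
      exact_mod_cast this
    · have := torsB_neg (torsB_3 (k := k))
      exact_mod_cast this
    · have := torsB_9 (k := k)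
      exact_mod_cast this
    · have := torsB_neg (torsB_9 (k := k))
      exact_mod_cast this

end Pool.Agent.LibCW77
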