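import Pool.Agent.LibCW77.Z5
import Pool.Agent.LibCW77.GS0

/-!
The main theorem.
-/

open scoped Classical
open Polynomial

namespace Pool.Agent.LibCW77

open Pool.Agent.LibBH2
open Pool.Agent.LibCHd (VR RF Red FunF)

variable {k : Type} [Field k]

/-- The properties of the isomorphism `Φ` of `V0` (the span of the `Q - τ Q`) with `V1` (the span of the classes `mns P` of
the curves `P` on `C ^ 3`). -/
structure Main (c : Dat k) (ζ ν : k) (Φ : V0 c ζ ≃ₗ[ℚ] V1 c ζ) : Prop where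
  /-- the class of a curve on the line of `Q` -/
  line : ∀ (Q : Fin 2 → Option k) (hQ : OnC c (Q 0) (Q 1)) (M : Type) [Field M] [Algebra k M] (P : Pnt 3 M),
    FunF k 1 M → On (c.over M) P → Col c ν Q P →
    qt _ (mns c ζ P) = Module.finrank (pf c P) M • (Φ ⟨dQ c ζ Q, mem_V0 hQ⟩ : TensorProduct ℤ ℚ (CH c 3 1))
  /-- there are such curves for every `Q` which is not ramified -/
  ex : ∀ Q : Fin 2 → Option k, OnC c (Q 0) (Q 1) → UnR Q →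
    ∃ (M : Type) (_ : Field M) (_ : Algebra k M) (P : Pnt 3 M), FunF k 1 M ∧ On (c.over M) P ∧ Col c ν Q P ∧
      Module.finrank (pf c P) M ≠ 0
  /-- the class of a curve with a ramified coordinate -/
  ram : ∀ (M : Type) [Field M] [Algebra k M] (P : Pnt 3 M), Ram P → mns c ζ P = 0
  /-- the class of an arbitrary curve, not all minors `0` -/
  curve : ∀ (M : Type) [Field M] [Algebra k M] (P : Pnt 3 M), FunF k 1 M → On (c.over M) P → ¬ Ram P →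
    (∃ j, mnr (c.over M) P j ≠ 0) →
    ∃ (S : Finset (Place k M)) (m : Place k M → ℕ) (Q : Place k M → Fin 2 → Option k), CurveData c ν P S m Q ∧
      (∃ y : V0 c ζ, (y : TensorProduct ℤ ℚ (CH c 1 0)) = ∑ w ∈ S, (m w : ℤ) • dQ c ζ (Q w) ∧
        qt _ (mns c ζ P) = -(Φ y : TensorProduct ℤ ℚ (CH c 3 1))) ∧
      (IsOfFinAddOrder (mns c ζ P) ↔
        IsOfFinAddOrder (∑ w ∈ S, (m w : ℤ) • (cls c 0 (pt1 (Q w)) - cls c 0 (pt1 (tau ζ (Q w))))))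
  /-- the class of an arbitrary curve, all minors `0` -/
  cone : ∀ (M : Type) [Field M] [Algebra k M] (P : Pnt 3 M), FunF k 1 M → On (c.over M) P → ¬ Ram P →
    (∀ j, mnr (c.over M) P j = 0) →
    ∃ (x : Option M) (y : M) (S : Finset (Place k M)) (Q : Place k M → Fin 2 → Option k), ConeData c ν P x y S Q ∧
      (∃ y : V0 c ζ, (y : TensorProduct ℤ ℚ (CH c 1 0)) =
          ∑ w ∈ S, w.ord (Yv (c.over M) P 0 / Yv (c.over M) P 1) • dQ c ζ (Q w) ∧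
        qt _ (mns c ζ P) = (Φ y : TensorProduct ℤ ℚ (CH c 3 1))) ∧
      (IsOfFinAddOrder (mns c ζ P) ↔ IsOfFinAddOrder (∑ w ∈ S, w.ord (Yv (c.over M) P 0 / Yv (c.over M) P 1) •
        (cls c 0 (pt1 (Q w)) - cls c 0 (pt1 (tau ζ (Q w))))))
  /-- `Φ` commutes with the automorphisms of `k` which fix the data -/
  act : ∀ s : k ≃+* k, Fix c s → s ζ = ζ → s ν = ν →
    ∃ (Γ₀ : CH c 1 0 →+ CH c 1 0) (Γ₁ : CH c 3 1 →+ CH c 3 1)
      (G₀ : TensorProduct ℤ ℚ (CH c 1 0) →ₗ[ℚ] TensorProduct ℤ ℚ (CH c 1 0))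
      (G₁ : TensorProduct ℤ ℚ (CH c 3 1) →ₗ[ℚ] TensorProduct ℤ ℚ (CH c 3 1)),
      IsAct s Γ₀ ∧ IsAct s Γ₁ ∧ (∀ x, G₀ (qt _ x) = qt _ (Γ₀ x)) ∧ (∀ x, G₁ (qt _ x) = qt _ (Γ₁ x)) ∧
      ∀ y : V0 c ζ, ∃ y' : V0 c ζ, (y' : TensorProduct ℤ ℚ (CH c 1 0)) = G₀ y ∧
        (Φ y' : TensorProduct ℤ ℚ (CH c 3 1)) = G₁ (Φ y)
  /-- the cycle of Gross and Schoen of `v ^ 3 ∏ (x - b_i) = ∏ (x - a_i)` -/
  gs : c.n = 3 → ((rts c).card = 6 ∧ (∀ x ∈ rts c, Flex c x (zk c x) ∧ OnC c (Qk c ν x 0) (Qk c ν x 1)) ∧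
      ∀ x z, Flex c x z → x ∈ rts c ∧ z = zk c x) ∧
    ∀ (N : Type) [Field N] [Algebra k N] (x v : N), GenC c x v →
      (∃ y : V0 c ζ, (y : TensorProduct ℤ ℚ (CH c 1 0)) = ((rts c).map fun o => dQ c ζ (Qk c ν o)).sum ∧
        qt _ (mns c ζ (tri ![some x, some v] ![some x, some v] ![some x, some v])) =
          -3 • (Φ y : TensorProduct ℤ ℚ (CH c 3 1))) ∧
      (IsOfFinAddOrder (GS c ![some x, some v]) ↔
        IsOfFinAddOrder ((rts c).map fun o => cls c 0 (pt1 (Qk c ν o)) - cls c 0 (pt1 (tau ζ (Qk c ν o)))).sum)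

theorem main_all [IsAlgClosed k] [CharZero k] {c : Dat k} (hc : c.Good) {ζ ν : k}
    (hζ : IsPrimitiveRoot ζ c.n) (hν : ν ^ c.n = ∏ i, (-(kb c i) / ka c i)) :
    ∃ Φ : V0 c ζ ≃ₗ[ℚ] V1 c ζ, Main c ζ ν Φ := by
  obtain ⟨Φ, hΦ⟩ := exists_phi hc hζ hν
  refine ⟨Φ, ?_, ?_, fun M _ _ P hP => mns_ram hc hζ P hP,
    fun M _ _ P h1 h2 h3 h4 => curve_main hc hζ hν Φ hΦ P h1 h2 h3 h4,
    fun M _ _ P h1 h2 h3 h4 => cone_main hc hζ hν Φ hΦ P h1 h2 h3 h4, ?_, ?_⟩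
  · intro Q hQ M _ _ P hM hP h
    rw [hΦ Q hQ _ rfl]
    exact mns_col hc hζ hν (qt _) hQ hM hP h
  · intro Q hQ hu
    exact exists_col hc hν hQ hu
  · intro s hs hsζ hsν
    obtain ⟨Γ₀, h0⟩ := exists_act hs 1 0
    obtain ⟨Γ₁, h1⟩ := exists_act hs 3 1
    obtain ⟨G₀, hG₀⟩ := qt_ext Γ₀
    obtain ⟨G₁, hG₁⟩ := qt_ext Γ₁
    exact ⟨Γ₀, Γ₁, G₀, G₁, h0, h1, hG₀, hG₁, fun y =>
      phi_act hc hζ hν hs hsζ hsν Φ hΦ h0 h1 G₀ hG₀ G₁ hG₁ y⟩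
  · intro h3
    refine ⟨⟨?_, ?_, ?_⟩, ?_⟩
    · unfold rts
      rw [Multiset.card_add, Multiset.card_map, Multiset.card_replicate]
      have h4 : Multiset.card (Hp c).roots = (Hp c).natDegree :=
        (splits_iff_card_roots.1 (IsAlgClosed.splits (Hp c)))
      rw [h4]
      have h5 := Hp_deg c
      omega
    · intro x hx
      refine ⟨?_, Qk_on hc hν h3 hx⟩
      have h4 : ∃ z, Flex c x z := (flex_iff hc x).2 hx
      unfold zk
      rw [dif_pos h4]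
      exact h4.choose_spec
    · intro x z hz
      refine ⟨(flex_iff hc x).1 ⟨z, hz⟩, ?_⟩
      have h4 : ∃ z, Flex c x z := ⟨z, hz⟩
      unfold zk
      rw [dif_pos h4]
      exact flex_unique hc hz h4.choose_spec
    · intro N _ _ x v h
      exact gs_main hc h3 hζ hν Φ hΦ h

end Pool.Agent.LibCW77
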