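import Pool.Agent.LibCW77.Defs9
import Pool.Agent.LibCW77.Z4

/-!
The main theorem in its final form.
-/

open scoped Classical
open Polynomial

namespace Pool.Agent.LibCW77

open Pool.Agent.LibBH2
open Pool.Agent.LibCHd (VR RF Red FunF)

variable {k : Type} [Field k]

theorem final_all [IsAlgClosed k] [CharZero k] {c : Dat k} (hc : c.Good) {ζ ν : k}
    (hζ : IsPrimitiveRoot ζ c.n) (hν : ν ^ c.n = ∏ i, (-(kb c i) / ka c i)) :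
    ∃ Φ : CHQ c 1 0 →ₗ[ℚ] CHQ c 3 1, Set.BijOn Φ (U0 c ζ) (U1 c ζ) ∧ LineF c ζ ν Φ ∧ RamF c ζ ∧ CurveF c ζ ν Φ ∧
      ConeF c ζ ν Φ ∧ ActF c ζ ν Φ ∧ (c.n = 3 → FlexF c ν ∧ GSF c ζ ν Φ) := by
  obtain ⟨Ψ, h⟩ := main_all hc hζ hν
  obtain ⟨Φ, hΦ⟩ := LinearMap.exists_extend ((V1 c ζ).subtype ∘ₗ (Ψ : V0 c ζ →ₗ[ℚ] V1 c ζ))
  have hval : ∀ y : V0 c ζ, Φ (y : TensorProduct ℤ ℚ (CH c 1 0)) = (Ψ y : TensorProduct ℤ ℚ (CH c 3 1)) := by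
    intro y
    have h1 := LinearMap.congr_fun hΦ y
    exact h1
  have hD : ∀ Q : Fin 2 → Option k, qt (CH c 1 0) (dz c ζ Q) = dQ c ζ Q := fun Q => rfl
  refine ⟨Φ, ⟨?_, ?_, ?_⟩, ?_, ?_, ?_, ?_, ?_, ?_⟩
  · intro y hy
    have h1 : Φ y = (Ψ ⟨y, hy⟩ : TensorProduct ℤ ℚ (CH c 3 1)) := hval ⟨y, hy⟩
    exact (congrArg (fun z => z ∈ (V1 c ζ : Set (TensorProduct ℤ ℚ (CH c 3 1)))) h1).mpr (Ψ ⟨y, hy⟩).2
  · intro y hy y' hy' he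
    have h1 : Φ y = (Ψ ⟨y, hy⟩ : TensorProduct ℤ ℚ (CH c 3 1)) := hval ⟨y, hy⟩
    have h2 : Φ y' = (Ψ ⟨y', hy'⟩ : TensorProduct ℤ ℚ (CH c 3 1)) := hval ⟨y', hy'⟩
    have h3 : (Ψ ⟨y, hy⟩ : TensorProduct ℤ ℚ (CH c 3 1)) = (Ψ ⟨y', hy'⟩ : TensorProduct ℤ ℚ (CH c 3 1)) :=
      h1.symm.trans (Eq.trans he h2)
    exact congrArg Subtype.val (Ψ.injective (Subtype.ext h3))
  · intro z hz
    obtain ⟨y, hy⟩ := Ψ.surjective ⟨z, hz⟩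
    refine ⟨(y : TensorProduct ℤ ℚ (CH c 1 0)), y.2, ?_⟩
    change Φ (y : TensorProduct ℤ ℚ (CH c 1 0)) = z
    rw [hval y, hy]
  · intro Q hQ
    refine ⟨fun M _ _ P h1 h2 h3 => ?_, fun hu => h.ex Q hQ hu⟩
    have h4 := h.line Q hQ M P h1 h2 h3
    rw [← hval ⟨dQ c ζ Q, mem_V0 hQ⟩] at h4
    exact h4
  · intro M _ _ P hP
    exact h.ram M P hP
  · intro M _ _ P h1 h2 h3 h4
    obtain ⟨S, m, Q, h5, ⟨y, h6, h7⟩, h8⟩ := h.curve M P h1 h2 h3 h4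
    have hs : ∑ w ∈ S, m w • dz c ζ (Q w) = ∑ w ∈ S, (m w : ℤ) • dz c ζ (Q w) :=
      Finset.sum_congr rfl fun w _ => (natCast_zsmul _ _).symm
    refine ⟨S, m, Q, h5, ?_, ?_⟩
    · have h9 : qt (CH c 1 0) (∑ w ∈ S, m w • dz c ζ (Q w)) = (y : TensorProduct ℤ ℚ (CH c 1 0)) := by
        rw [hs, h6]
        exact qt_sumD c ζ S (fun w => (m w : ℤ)) Q
      change qt (CH c 3 1) (mns c ζ P) = -Φ (qt (CH c 1 0) (∑ w ∈ S, m w • dz c ζ (Q w)))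
      rw [h9, hval y]
      exact h7
    · rw [hs]
      exact h8
  · intro M _ _ P h1 h2 h3 h4
    obtain ⟨x, y, S, Q, h5, ⟨t, h6, h7⟩, h8⟩ := h.cone M P h1 h2 h3 h4
    refine ⟨x, y, S, Q, h5, ?_, h8⟩
    have h9 : qt (CH c 1 0) (∑ w ∈ S, w.ord (Yv (c.over M) P 0 / Yv (c.over M) P 1) • dz c ζ (Q w)) =
        (t : TensorProduct ℤ ℚ (CH c 1 0)) := by
      rw [h6]
      exact qt_sumD c ζ S (fun w => w.ord (Yv (c.over M) P 0 / Yv (c.over M) P 1)) Q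
    change qt (CH c 3 1) (mns c ζ P) = Φ (qt (CH c 1 0) _)
    rw [h9, hval t]
    exact h7
  · intro s hs hsζ hsν
    obtain ⟨Γ₀, Γ₁, G₀, G₁, h0, h1, h2, h3, h4⟩ := h.act s hs hsζ hsν
    refine ⟨Γ₀, Γ₁, h0, h1, fun a b ha hab => ?_⟩
    obtain ⟨y', h5, h6⟩ := h4 ⟨qt (CH c 1 0) a, ha⟩
    have h7 : (y' : TensorProduct ℤ ℚ (CH c 1 0)) = qt (CH c 1 0) (Γ₀ a) := by
      rw [h5]
      exact h2 a
    have h8 : (Ψ ⟨qt (CH c 1 0) a, ha⟩ : TensorProduct ℤ ℚ (CH c 3 1)) = qt (CH c 3 1) b := by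
      rw [← hval ⟨qt (CH c 1 0) a, ha⟩]
      exact hab
    change Φ (qt (CH c 1 0) (Γ₀ a)) = qt (CH c 3 1) (Γ₁ b)
    rw [← h7, hval y', h6, h8, h3]
  · intro hn3
    obtain ⟨h1, h2⟩ := h.gs hn3
    refine ⟨h1, ?_⟩
    intro N _ _ x v hg
    obtain ⟨⟨y, h3, h4⟩, h5⟩ := h2 N x v hg
    refine ⟨?_, h5⟩
    have h6 : qt (CH c 1 0) ((rts c).map fun o => dz c ζ (Qk c ν o)).sum = (y : TensorProduct ℤ ℚ (CH c 1 0)) := by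
      rw [h3, map_multiset_sum, Multiset.map_map]
      rfl
    change qt (CH c 3 1) _ = -3 • Φ (qt (CH c 1 0) _)
    rw [h6, hval y]
    exact h4

end Pool.Agent.LibCW77
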