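import Pool.Agent.LibCW77.GDefs
import Pool.Agent.LibCW77.Z6
import Pool.Agent.LibCW77.C1
import Pool.Agent.LibCW77.FS1
import Pool.Agent.LibCW77.FF
import Pool.Agent.LibCW77.TR3

/-!
The criterion for the cycle of Gross and Schoen.
-/

open scoped Classical
open Polynomial

namespace Pool.Agent.LibCW77

open Pool.Agent.LibBH2
open Pool.Agent.LibCHd (VR RF Red FunF)

variable {k : Type} [Field k]

theorem gs_crit [IsAlgClosed k] [CharZero k] {c : Dat k} (hc : c.Good) (h3 : c.n = 3) {ζ ν : k}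
    (hζ : IsPrimitiveRoot ζ 3) (hν : ν ^ 3 = ∏ i, (-(kb c i) / ka c i)) :
    FlexF c ν ∧ GSIff c (IsOfFinAddOrder (theta c ζ ν)) := by
  have hζ' : IsPrimitiveRoot ζ c.n := by rw [h3]; exact hζ
  have hν' : ν ^ c.n = ∏ i, (-(kb c i) / ka c i) := by rw [h3]; exact hν
  obtain ⟨Φ, -, -, -, -, -, -, h⟩ := final_all hc hζ' hν'
  obtain ⟨h1, h2⟩ := h h3
  exact ⟨h1, genC_exists hc, fun N _ _ x v hg => (h2 N x v hg).2⟩

theorem gs_sym [IsAlgClosed k] [CharZero k] {a : Fin 3 → k} (hc : (symD a).Good) {ζ : k}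
    (hζ : IsPrimitiveRoot ζ 3) :
    GSIff (symD a) (IsOfFinAddOrder (dz (symD a) ζ Q0 + dz (symD a) ζ Qinf)) := by
  obtain ⟨-, h1, h2⟩ := gs_crit hc rfl hζ (nu_sym hc)
  refine ⟨h1, fun N _ _ x v hg => (h2 N x v hg).trans ?_⟩
  have h3 : theta (symD a) ζ 1 = 3 • (dz (symD a) ζ Q0 + dz (symD a) ζ Qinf) := by
    unfold theta
    rw [rts_sym hc, Multiset.map_add, Multiset.map_replicate, Multiset.map_replicate, Multiset.sum_add,
      Multiset.sum_replicate, Multiset.sum_replicate, Qk_sym0 hc, Qk_sym1 hc, nsmul_add]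
  rw [h3]
  rw [isOfFinAddOrder_nsmul]
  simp

theorem gs_fam [IsAlgClosed k] [CharZero k] {α : k} (hc : (fam α).Good) : GSIff (fam α) (TorsB (rr α)) := by
  have hnz : NeZero ((3 : ℕ) : k) := ⟨by norm_num⟩
  obtain ⟨ζ, hζ⟩ : ∃ ζ : k, IsPrimitiveRoot ζ 3 := HasEnoughRootsOfUnity.exists_primitiveRoot k 3
  obtain ⟨h1, h2⟩ := gs_sym hc hζ
  exact ⟨h1, fun N _ _ x v hg => (h2 N x v hg).trans (fam_iff hc hζ)⟩

theorem gsIff_congr {c : Dat k} {p p' : Prop} (h : GSIff c p) (hp : p ↔ p') : GSIff c p' :=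
  ⟨h.1, fun N _ _ x v hg => (h.2 N x v hg).trans hp⟩

theorem fam_good [CharZero k] {α : k} (ha0 : α ≠ 0) (e1 : α ≠ 1) (f1 : α ≠ -1) (ha3 : α ^ 2 ≠ -1) :
    (fam α).Good := by
  have hi : α⁻¹ ≠ 0 := inv_ne_zero ha0
  have hai : α * α⁻¹ = 1 := mul_inv_cancel₀ ha0
  have e2 : α⁻¹ ≠ 1 := fun h => e1 (by rw [← inv_inv α, h, inv_one])
  have e3 : α ≠ α⁻¹ := by
    intro h
    have h2 : (α - 1) * (α + 1) = 0 := by
      have : α * α = 1 := by nth_rewrite 2 [h]; exact hai
      linear_combination this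
    rcases mul_eq_zero.1 h2 with h3 | h3
    · exact e1 (by linear_combination h3)
    · exact f1 (by linear_combination h3)
  have f2 : α⁻¹ ≠ -1 := by
    intro h
    apply f1
    rw [← inv_inv α, h]
    norm_num
  have f3 : α ≠ -α⁻¹ := by
    intro h
    apply ha3
    have : α * α = -1 := by
      nth_rewrite 2 [h]
      rw [mul_neg, hai]
    linear_combination this
  have g1 : (1 : k) ≠ -1 := by
    intro h
    have : (2 : k) = 0 := by linear_combination h
    exact two_ne_zero this
  have g2 : ∀ x : k, x ≠ 0 → x ≠ -x := by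
    intro x hx h
    have : 2 * x = 0 := by linear_combination h
    rcases mul_eq_zero.1 this with h' | h'
    · exact two_ne_zero h'
    · exact hx h'
  refine ⟨by show 2 ≤ 3; norm_num, ?_⟩
  have hinj : Function.Injective ![1, α, α⁻¹] := by
    intro i j hij
    fin_cases i <;> fin_cases j <;> simp at hij ⊢
    · exact e1 hij.symm
    · exact e1 (by rw [← hij])
    · exact e1 hij
    · exact e3 hij
    · exact e1 hij
    · exact e3 hij.symm
  have hsum : ∀ i j : Fin 3, (![1, α, α⁻¹] : Fin 3 → k) i ≠ -(![1, α, α⁻¹] : Fin 3 → k) j := by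
    intro i j hij
    fin_cases i <;> fin_cases j <;> simp at hij
    · exact g1 hij
    · exact f1 (by linear_combination hij)
    · exact f2 (by linear_combination hij)
    · exact f1 hij
    · exact g2 α ha0 hij
    · exact f3 hij
    · exact f2 hij
    · exact f3 (by linear_combination hij)
    · exact g2 _ hi hij
  refine Function.Injective.sumElim ?_ ?_ ?_
  · exact hinj
  · intro i j hij
    exact hinj (neg_injective hij)
  · intro i j
    exact hsum i j

private theorem Z7_sq3 (s : ℚ) : s ^ 2 ≠ 3 := by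
  haveI : Fact (Nat.Prime 3) := ⟨Nat.prime_three⟩
  intro h
  have h1 := congrArg (padicValRat 3) h
  have h2 : padicValRat 3 (3 : ℚ) = 1 := by
    have := padicValRat.self (p := 3) (by norm_num)
    exact_mod_cast this
  rw [h2, padicValRat.pow] at h1
  omega

theorem gs_famQ [IsAlgClosed k] [CharZero k] {c : ℚ} (h0 : c ≠ 0) (h1 : c ≠ 1) (h2 : c ≠ -1) :
    (fam (c : k)).Good ∧ GSIff (fam (c : k)) (c = -2 ∨ c = -1 / 2) := by
  have hg : (fam (c : k)).Good := by
    refine fam_good (by exact_mod_cast h0) (by exact_mod_cast h1) ?_ ?_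
    · intro h
      apply h2
      have : (c : k) = ((-1 : ℚ) : k) := by rw [h]; norm_num
      exact_mod_cast this
    · intro h
      have h3 : ((c ^ 2 + 1 : ℚ) : k) = 0 := by
        push_cast
        rw [h]
        ring
      have h4 : c ^ 2 + 1 = 0 := by exact_mod_cast h3
      have := sq_nonneg c
      linarith
  refine ⟨hg, gsIff_congr (gs_fam hg) ?_⟩
  have hr : rr (c : k) = ((-((c - 1) / (c + 1)) ^ 2 : ℚ) : k) := by
    unfold rr
    push_cast
    ring
  have hc1 : c + 1 ≠ 0 := by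
    intro h
    exact h2 (by linarith)
  rw [hr, torsB_rat]
  have hs := sq_nonneg ((c - 1) / (c + 1))
  constructor
  · rintro (h | h | h | h)
    · linarith
    · exact absurd (by linarith : ((c - 1) / (c + 1)) ^ 2 = 3) (Z7_sq3 _)
    · linarith
    · have h3 : ((c - 1) / (c + 1) - 3) * ((c - 1) / (c + 1) + 3) = 0 := by linear_combination -h
      rcases mul_eq_zero.1 h3 with h4 | h4
      · left
        have h5 : (c - 1) / (c + 1) = 3 := by linarith
        rw [div_eq_iff hc1] at h5
        linarith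
      · right
        have h5 : (c - 1) / (c + 1) = -3 := by linarith
        rw [div_eq_iff hc1] at h5
        linarith
  · rintro (rfl | rfl)
    · right; right; right
      norm_num
    · right; right; right
      norm_num

end Pool.Agent.LibCW77
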