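import Pool.Agent.LibCW77.NDefs
import Pool.Agent.LibCW77.DE7
import Pool.Agent.LibCW77.FG3
import Pool.Agent.LibCW77.Z7

/-!
[CW77 NE4] STRONG: the function of a torsion class

See FG4.lean (`fam_tors`) for the style. Let `Z` be the multiset of the points `Q_o = Qk c ν o`, `n Q` its count. `m • theta = 0` in `CH c 1 0` says that
`e = m • ∑ (cyc k (pt1 Q_o) - cyc k (pt1 (tau ζ Q_o)))` is in `RatEq c 1 0` (`theta`, `dz`, `cls`). `cyc k (pt1 Q) = single (eqs k (pt1 Q)) 1` for `Q` over `k`, and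
`eqs k (pt1 Q) = eqs k (pt1 Q')` iff `Q = Q'` (see FG3.lean: `eqs_rat`), so `e (eqs k (pt1 Q)) = m (n Q - n (τ⁻¹ Q))`. Apply `ratEq_fun` (DE7) to the generic point
`(x, v)`: function `f`; and to the generic point `(x, ζ v)` (`GenC c x (ζ v)`: same field): function `f₁`. A place `w` with the point `Q` for `(x, v)` has the
point `τ Q` for `(x, ζ v)`. So `w.ord f = m (n Q - n (τ⁻¹ Q))`, `w.ord f₁ = m (n (τ Q) - n Q)`. Put `g = f / f₁ * ∏_o (x - y_o) ^ m`. For `Q = (a, b)`, `a`, `b` finite, `b ≠ 0`: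
`w.ord (x - y_o) = 1` if `y_o = a` (`placeC`), else `0`, and `Q_o = (a, b_o)` with `b_o ^ 3 = b ^ 3`, so `#{o : y_o = a} = n Q + n (τ Q) + n (τ⁻¹ Q)`. For a
ramified `Q` (`b = 0` or `none`) no `y_o` is `a` (as `b_o ≠ 0` is finite) and `n Q = 0`. At infinity `w.ord (x - y_o) = -1`, `n = 0`, and there are six `o`
(`hF.1`). `place` and point: `SpO` of `w` determines `Q` (`spO_unique` / injectivity of `algebraMap k (RF w)`).
-/

open scoped Classical
open Polynomial

namespace Pool.Agent.LibCW77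

open Pool.Agent.LibBH2
open Pool.Agent.LibCHd (VR RF Red FunF)

variable {k : Type} [Field k]

private theorem NE4_eqs {M : Type} [Field M] [Algebra k M] (Q : Fin 2 → Option k) :
    eqs k (pt1 (ctp M Q)) = eqs k (pt1 Q) := by
  have h := eqs_map (Algebra.ofId k M) (pt1 Q)
  exact h

private theorem NE4_inj (Q Q' : Fin 2 → Option k) (h : eqs k (pt1 Q) = eqs k (pt1 Q')) :
    Q = Q' := by
  have h1 : eqs k (pt1 Q) = eqs k (pt1 (ctp k Q')) := by rw [h, NE4_eqs]
  have h2 := eqs_rat (M := k) (M' := k) (pt1 Q) Q' h1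
  have h3 : ctp k Q' = Q' := by
    funext i
    change (Q' i).map (algebraMap k k) = Q' i
    cases Q' i <;> rfl
  rw [h3] at h2
  exact congrFun h2 0

private theorem NE4_cyc (Q : Fin 2 → Option k) :
    cyc k (pt1 Q) = Finsupp.single (eqs k (pt1 Q)) 1 := by
  unfold cyc
  have h : fld k (pt1 Q) = ⊤ := by
    rw [eq_top_iff]
    intro z _
    exact (fld k (pt1 Q)).algebraMap_mem z
  rw [h, IntermediateField.finrank_top]
  rfl

private theorem NE4_val (Q R : Fin 2 → Option k) :
    (cyc k (pt1 Q)) (eqs k (pt1 R)) = if Q = R then (1 : ℤ) else 0 := by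
  rw [NE4_cyc, Finsupp.single_apply]
  by_cases h : Q = R
  · subst h
    rw [if_pos rfl, if_pos rfl]
  · rw [if_neg h, if_neg fun h' => h (NE4_inj _ _ h')]

private theorem NE4_coef (Z : Multiset (Fin 2 → Option k)) (ζ : k) (m : ℕ) (R : Fin 2 → Option k) :
    (m • (Z.map fun Q => cyc k (pt1 Q) - cyc k (pt1 (tau ζ Q))).sum) (eqs k (pt1 R)) =
      (m : ℤ) * (Z.map fun Q => ((if Q = R then (1 : ℤ) else 0) - if tau ζ Q = R then (1 : ℤ) else 0)).sum := by
  have h : (Z.map fun Q => cyc k (pt1 Q) - cyc k (pt1 (tau ζ Q))).sum (eqs k (pt1 R)) =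
      (Z.map fun Q => ((if Q = R then (1 : ℤ) else 0) - if tau ζ Q = R then (1 : ℤ) else 0)).sum := by
    induction Z using Multiset.induction with
    | empty => simp
    | cons a Z ih =>
      rw [Multiset.map_cons, Multiset.sum_cons, Multiset.map_cons, Multiset.sum_cons, Finsupp.add_apply, ih,
        Finsupp.sub_apply, NE4_val, NE4_val]
  rw [Finsupp.smul_apply, h, nsmul_eq_mul]

private theorem NE4_ordprod {N : Type} [Field N] [Algebra k N] (w : Place k N) {α : Type} (Z : Multiset α)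
    (F : α → N) (hF : ∀ a ∈ Z, F a ≠ 0) :
    (Z.map F).prod ≠ 0 ∧ w.ord (Z.map F).prod = (Z.map fun a => w.ord (F a)).sum := by
  induction Z using Multiset.induction with
  | empty => simp
  | cons a Z ih =>
    obtain ⟨h1, h2⟩ := ih fun b hb => hF b (Multiset.mem_cons_of_mem hb)
    have h3 := hF a (Multiset.mem_cons_self a Z)
    rw [Multiset.map_cons, Multiset.prod_cons, Multiset.map_cons, Multiset.sum_cons]
    exact ⟨mul_ne_zero h3 h1, by rw [w.ord_mul _ _ h3 h1, h2]⟩

private theorem NE4_count (Z : Multiset (Fin 2 → Option k)) (Q : Fin 2 → Option k) :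
    (Z.map fun Q' => if Q' = Q then (1 : ℤ) else 0).sum = (Z.count Q : ℤ) := by
  induction Z using Multiset.induction with
  | empty => simp
  | cons a Z ih =>
    rw [Multiset.map_cons, Multiset.sum_cons, ih, Multiset.count_cons]
    by_cases h : a = Q
    · rw [if_pos h, if_pos h.symm]
      push_cast
      ring
    · rw [if_neg h, if_neg fun h' => h h'.symm]
      push_cast
      ring

private theorem NE4_sp {N : Type} [Field N] [Algebra k N] {x v : N} {w : Place k N} {Q : Fin 2 → Option k}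
    (h0 : SpO w (some x) ((Q 0).map (algebraMap k (RF w))))
    (h1 : SpO w (some v) ((Q 1).map (algebraMap k (RF w)))) : SpP w (gpt x v) (pt1 (ctp (RF w) Q)) := by
  intro j i
  fin_cases i
  · exact h0
  · exact h1

private theorem NE4_tau {N : Type} [Field N] [Algebra k N] {v : N} {w : Place k N} {Q : Fin 2 → Option k}
    {ζ : k} (hζ0 : ζ ≠ 0) (h1 : SpO w (some v) ((Q 1).map (algebraMap k (RF w)))) :
    SpO w (some (algebraMap k N ζ * v)) ((tau ζ Q 1).map (algebraMap k (RF w))) := by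
  change SpO w (some (algebraMap k N ζ * v)) (((Q 1).map fun v => algebraMap k k ζ * v).map (algebraMap k (RF w)))
  cases hQ : Q 1 with
  | none =>
    rw [hQ] at h1
    have h2 : w.ord v < 0 := h1
    change w.ord (algebraMap k N ζ * v) < 0
    have hv : v ≠ 0 := by
      rintro rfl
      rw [w.ord_zero] at h2
      exact lt_irrefl _ h2
    rw [w.ord_mul _ _ (by simpa using hζ0) hv, w.ord_const ζ hζ0]
    omega
  | some b =>
    rw [hQ] at h1
    have h2 : Red w v (algebraMap k (RF w) b) := h1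
    change Red w (algebraMap k N ζ * v) (algebraMap k (RF w) (algebraMap k k ζ * b))
    rw [map_mul]
    exact (LibCHd.red_const w ζ).mul h2

private theorem NE4_gen {c : Dat k} (h3 : c.n = 3) {ζ : k} (hζ : IsPrimitiveRoot ζ 3) {N : Type} [Field N]
    [Algebra k N] {x v : N} (h : GenC c x v) : GenC c x (algebraMap k N ζ * v) := by
  refine ⟨?_, h.tr, ?_⟩
  · have h1 : v ^ c.n * ∏ i, (x - (c.over N).b i) = ∏ i, (x - (c.over N).a i) := h.on
    change (algebraMap k N ζ * v) ^ c.n * ∏ i, (x - (c.over N).b i) = ∏ i, (x - (c.over N).a i)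
    rw [← h1, mul_pow, ← map_pow, h3, hζ.pow_eq_one, map_one, one_mul]
  · rw [eq_top_iff, ← h.gen, IntermediateField.adjoin_le_iff]
    rintro z (rfl | rfl)
    · exact IntermediateField.subset_adjoin k _ (Set.mem_insert _ _)
    · have h2 : algebraMap k N ζ * z ∈ IntermediateField.adjoin k {x, algebraMap k N ζ * z} :=
        IntermediateField.subset_adjoin k _ (Set.mem_insert_of_mem _ rfl)
      have hz0 : ζ ≠ 0 := hζ.ne_zero (by norm_num)
      have h4 : z = algebraMap k N ζ⁻¹ * (algebraMap k N ζ * z) := by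
        rw [← mul_assoc, ← map_mul, inv_mul_cancel₀ hz0, map_one, one_mul]
      have h5 := (IntermediateField.adjoin k {x, algebraMap k N ζ * z}).mul_mem
        ((IntermediateField.adjoin k {x, algebraMap k N ζ * z}).algebraMap_mem ζ⁻¹) h2
      rw [← h4] at h5
      exact h5

private theorem NE4_ab {c : Dat k} (hc : c.Good) {a : k} (h1 : ∏ i, (a - c.a i) = 0) (h2 : ∏ i, (a - c.b i) = 0) :
    False := by
  obtain ⟨i, -, hi⟩ := Finset.prod_eq_zero_iff.1 h1
  obtain ⟨j, -, hj⟩ := Finset.prod_eq_zero_iff.1 h2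
  have h3 : Sum.elim c.a c.b (Sum.inl i) = Sum.elim c.a c.b (Sum.inr j) := by
    change c.a i = c.b j
    rw [← sub_eq_zero.1 hi, ← sub_eq_zero.1 hj]
  exact Sum.inl_ne_inr (hc.inj h3)

private theorem NE4_taumk (ζ a b : k) : tau ζ (![some a, some b] : Fin 2 → Option k) = ![some a, some (ζ * b)] := rfl

private theorem NE4_mk {a b a' b' : k} : (![some a, some b] : Fin 2 → Option k) = ![some a', some b'] ↔
    a = a' ∧ b = b' := by
  constructor
  · intro h
    have h0 := congrFun h 0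
    have h1 := congrFun h 1
    exact ⟨Option.some.inj h0, Option.some.inj h1⟩
  · rintro ⟨rfl, rfl⟩
    rfl

private theorem NE4_inf {K : Type} [Field K] [Algebra k K] (v : Place k K) {s : K}
    (h : v.ord s < 0) (c : k) : v.ord (s - algebraMap k K c) = v.ord s := by
  have hs : s ≠ 0 := by rintro rfl; rw [v.ord_zero] at h; omega
  by_cases hc : c = 0
  · rw [hc, map_zero, sub_zero]
  · have h1 : v.ord (-algebraMap k K c) = 0 := by rw [Place.ord_neg, v.ord_const c hc]
    have h2 : -algebraMap k K c ≠ 0 := by simpa using hc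
    rw [sub_eq_add_neg]
    exact (Place.ord_add_of_lt hs h2 (by rw [h1]; exact h)).2

private theorem NE4_ne {Q Q' : Fin 2 → Option k} (h : Q 0 ≠ Q' 0) : Q ≠ Q' := fun h' => h (by rw [h'])

private theorem NE4_pt [CharZero k] {c : Dat k} (hc : c.Good) (h3 : c.n = 3) {ζ : k} (hζ : IsPrimitiveRoot ζ 3)
    {N : Type} [Field N] [Algebra k N] {x v : N} (h : GenC c x v) (w : Place k N) (Q : Fin 2 → Option k)
    (hQ : OnC c (Q 0) (Q 1)) (h0 : SpO w (some x) ((Q 0).map (algebraMap k (RF w))))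
    (h1 : SpO w (some v) ((Q 1).map (algebraMap k (RF w)))) (y b' : k) (hb' : b' ≠ 0)
    (hQ' : OnC c (some y) (some b')) :
    ((if (![some y, some b'] : Fin 2 → Option k) = Q then (1 : ℤ) else 0) -
        (if tau ζ (![some y, some b'] : Fin 2 → Option k) = Q then (1 : ℤ) else 0)) -
      ((if (![some y, some b'] : Fin 2 → Option k) = tau ζ Q then (1 : ℤ) else 0) -
        (if tau ζ (![some y, some b'] : Fin 2 → Option k) = tau ζ Q then (1 : ℤ) else 0)) +
      w.ord (x - algebraMap k N y) =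
      if Q 0 = none then -1 else 3 * (if (![some y, some b'] : Fin 2 → Option k) = Q then (1 : ℤ) else 0) := by
  have hζ' : IsPrimitiveRoot ζ c.n := by rw [h3]; exact hζ
  have hz0 : ζ ≠ 0 := hζ.ne_zero (by norm_num)
  obtain ⟨w₀, -, -, hun, hinf, -, -, huniq⟩ := placeC hc hζ' h Q hQ
  have hw : w = w₀ := huniq w h0 h1
  subst hw
  have hQ'' : b' ^ c.n * ∏ i, (y - c.b i) = ∏ i, (y - c.a i) := hQ'
  by_cases hne : (Q 0) = some y
  · -- the same first coordinate
    have hQn : Q 0 ≠ none := by rw [hne]; exact Option.some_ne_none y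
    have hord : ∀ b, Q 1 = some b → b ≠ 0 → w.ord (x - algebraMap k N y) = 1 := fun b hb hb0 =>
      hun y b hne hb hb0
    rw [hne] at hQ
    match hQ1 : Q 1 with
    | none =>
      exfalso
      rw [hQ1] at hQ
      obtain ⟨i, hi⟩ : ∃ i, y = c.b i := hQ
      have hB : ∏ i, (y - c.b i) = 0 := Finset.prod_eq_zero (Finset.mem_univ i) (by rw [hi, sub_self])
      rw [hB, mul_zero] at hQ''
      exact NE4_ab hc hQ''.symm hB
    | some b =>
      rw [hQ1] at hQ
      have hQb : b ^ c.n * ∏ i, (y - c.b i) = ∏ i, (y - c.a i) := hQ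
      have hB : ∏ i, (y - c.b i) ≠ 0 := by
        intro hB
        rw [hB, mul_zero] at hQ''
        exact NE4_ab hc hQ''.symm hB
      have hbb : b' ^ c.n = b ^ c.n := by
        apply mul_right_cancel₀ hB
        rw [hQ'', hQb]
      have hb0 : b ≠ 0 := by
        rintro rfl
        rw [h3, zero_pow (by norm_num)] at hbb
        exact hb' (pow_eq_zero_iff (by norm_num) |>.1 hbb)
      rw [hord b hQ1 hb0, if_neg hQn]
      have hQe : Q = ![some y, some b] := by
        funext i
        fin_cases i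
        · exact hne
        · exact hQ1
      subst hQe
      rw [NE4_taumk, NE4_taumk]
      simp only [NE4_mk, true_and]
      have hζ3 : ζ ^ 3 = 1 := hζ.pow_eq_one
      have hζ1 : ζ ≠ 1 := hζ.ne_one (by norm_num)
      have hζ2 : ζ ^ 2 ≠ 1 := hζ.pow_ne_one_of_pos_of_lt (by norm_num) (by norm_num)
      have hr : (b' / b) ^ 3 = 1 := by
        rw [div_pow, ← h3, hbb, div_self (pow_ne_zero _ hb0)]
      obtain ⟨i, hi, hi2⟩ := hζ.eq_pow_of_pow_eq_one hr
      have hb'e : b' = ζ ^ i * b := by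
        rw [hi2, div_mul_cancel₀ _ hb0]
      have c1 : ζ * b ≠ b := fun h => hζ1 (mul_right_cancel₀ hb0 (by rw [h, one_mul]))
      have c2 : ζ ^ 2 * b ≠ b := fun h => hζ2 (mul_right_cancel₀ hb0 (by rw [h, one_mul]))
      have hi' : i = 0 ∨ i = 1 ∨ i = 2 := by omega
      rcases hi' with rfl | rfl | rfl
      · rw [pow_zero, one_mul] at hb'e
        have d1 : ¬ (b' = ζ * b) := fun h => c1 (by rw [← h, hb'e])
        have d2 : ¬ (ζ * b' = b) := fun h => c1 (by rw [← hb'e]; rw [hb'e] at h; rw [hb'e]; exact h)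
        rw [hb'e] at d1 d2 ⊢
        rw [if_pos (rfl : b = b), if_neg d2, if_neg d1, if_pos (rfl : ζ * b = ζ * b)]
        norm_num
      · rw [pow_one] at hb'e
        have d2 : ¬ (ζ * (ζ * b) = b) := fun h => c2 (by rw [pow_two, mul_assoc]; exact h)
        have d3 : ¬ (ζ * (ζ * b) = ζ * b) := fun h => c1 (mul_left_cancel₀ hz0 h)
        rw [hb'e]
        rw [if_neg c1, if_neg d2, if_pos (rfl : ζ * b = ζ * b), if_neg d3]
        norm_num
      · have e1 : ζ * (ζ ^ 2 * b) = b := by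
          rw [← mul_assoc, ← pow_succ', hζ3, one_mul]
        have d2 : ¬ (ζ ^ 2 * b = ζ * b) := fun h => c1 (mul_left_cancel₀ hz0 (by rw [← mul_assoc, ← pow_two]; exact h))
        have d3 : ¬ (b = ζ * b) := fun h => c1 h.symm
        rw [hb'e, e1]
        rw [if_neg c2, if_pos (rfl : b = b), if_neg d2, if_neg d3]
        norm_num
  · have e1 : (![some y, some b'] : Fin 2 → Option k) ≠ Q := NE4_ne fun h => hne h.symm
    have e2 : tau ζ (![some y, some b'] : Fin 2 → Option k) ≠ Q := NE4_ne fun h => hne h.symm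
    have e3 : (![some y, some b'] : Fin 2 → Option k) ≠ tau ζ Q := NE4_ne fun h => hne h.symm
    have e4 : tau ζ (![some y, some b'] : Fin 2 → Option k) ≠ tau ζ Q := NE4_ne fun h => hne h.symm
    rw [if_neg e1, if_neg e2, if_neg e3, if_neg e4]
    cases hQ0 : Q 0 with
    | none =>
      rw [if_pos rfl]
      have h5 := hinf hQ0
      have h6 := NE4_inf w (s := x) (by omega) y
      rw [h6, h5]
      norm_num
    | some a =>
      rw [if_neg (Option.some_ne_none a)]
      rw [hQ0] at h0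
      have h5 : Red w x (algebraMap k (RF w) a) := h0
      have h6 := h5.sub (LibCHd.red_const w y)
      rw [← map_sub] at h6
      have hay : a - y ≠ 0 := by
        intro h
        apply hne
        rw [hQ0, sub_eq_zero.1 h]
      rw [h6.ord_eq_zero (fun h => hay ((map_eq_zero _).1 h))]
      norm_num

theorem ne_fun [IsAlgClosed k] [CharZero k] {c : Dat k} (hc : c.Good) (h3 : c.n = 3) {ζ ν : k}
    (hζ : IsPrimitiveRoot ζ 3) (hF : FlexF c ν)
    (hY : ∀ o ∈ rts c, ∃ y b : k, Qk c ν o = ![some y, some b] ∧ b ≠ 0)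
    (ht : IsOfFinAddOrder (theta c ζ ν)) {N : Type} [Field N] [Algebra k N] {x v : N} (h : GenC c x v) :
    ∃ (m : ℕ) (g : N), 0 < m ∧ g ≠ 0 ∧ ∀ (w : Place k N) (Q : Fin 2 → Option k), OnC c (Q 0) (Q 1) →
      SpO w (some x) ((Q 0).map (algebraMap k (RF w))) → SpO w (some v) ((Q 1).map (algebraMap k (RF w))) →
      w.ord g = if Q 0 = none then -(6 * (m : ℤ)) else 3 * (m : ℤ) * (((rts c).map (Qk c ν)).count Q : ℤ) := by
  have hζ' : IsPrimitiveRoot ζ c.n := by rw [h3]; exact hζ
  have hz0 : ζ ≠ 0 := hζ.ne_zero (by norm_num)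
  obtain ⟨m, hm, hm0⟩ := isOfFinAddOrder_iff_nsmul_eq_zero.1 ht
  set Z : Multiset (Fin 2 → Option k) := (rts c).map (Qk c ν) with hZ
  have hZcard : Z.card = 6 := by rw [hZ, Multiset.card_map]; exact hF.1
  have hZQ : ∀ Q ∈ Z, ∃ y b : k, Q = ![some y, some b] ∧ b ≠ 0 ∧ OnC c (some y) (some b) := by
    intro Q hQ
    obtain ⟨o, ho, rfl⟩ := Multiset.mem_map.1 hQ
    obtain ⟨y, b, hyb, hb⟩ := hY o ho
    refine ⟨y, b, hyb, hb, ?_⟩
    have h1 := (hF.2.1 o ho).2
    rw [hyb] at h1
    exact h1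
  -- the cycle
  have hmk : theta c ζ ν = QuotientAddGroup.mk (Z.map fun Q => cyc k (pt1 Q) - cyc k (pt1 (tau ζ Q))).sum := by
    unfold theta
    have h1 : ∀ s : Multiset (Option k), (s.map fun o => dz c ζ (Qk c ν o)).sum =
        QuotientAddGroup.mk (((s.map (Qk c ν)).map fun Q => cyc k (pt1 Q) - cyc k (pt1 (tau ζ Q))).sum) := by
      intro s
      induction s using Multiset.induction with
      | empty => rfl
      | cons a s ih =>
        rw [Multiset.map_cons, Multiset.sum_cons, ih, Multiset.map_cons, Multiset.map_cons, Multiset.sum_cons,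
          QuotientAddGroup.mk_add]
        rfl
    exact h1 (rts c)
  have he : (m • (Z.map fun Q => cyc k (pt1 Q) - cyc k (pt1 (tau ζ Q))).sum) ∈ RatEq c 1 0 := by
    rw [← QuotientAddGroup.eq_zero_iff, QuotientAddGroup.mk_nsmul, ← hmk, hm0]
  obtain ⟨f, hf0, hf⟩ := ratEq_fun hc hζ' h _ he
  obtain ⟨f₁, hf₁0, hf₁⟩ := ratEq_fun hc hζ' (NE4_gen h3 hζ h) _ he
  have hx : ∀ y : k, x - algebraMap k N y ≠ 0 := by
    intro y h0
    apply h.tr
    rw [sub_eq_zero.1 h0]
    exact isAlgebraic_algebraMap y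
  set p : N := (Z.map fun Q => x - algebraMap k N ((Q 0).getD 0)).prod with hp
  have hp0 : ∀ w : Place k N, p ≠ 0 ∧ w.ord p = (Z.map fun Q => w.ord (x - algebraMap k N ((Q 0).getD 0))).sum :=
    fun w => NE4_ordprod w Z _ fun Q _ => hx _
  have hpne : p ≠ 0 := by
    rw [hp, Ne, Multiset.prod_eq_zero_iff, Multiset.mem_map]
    rintro ⟨Q, -, hQ⟩
    exact hx _ hQ
  refine ⟨m, f / f₁ * p ^ m, hm, mul_ne_zero (div_ne_zero hf0 hf₁0) (pow_ne_zero m hpne), ?_⟩
  intro w Q hQ h0 h1
  have e1 : w.ord f = (m : ℤ) * (Z.map fun Q' => ((if Q' = Q then (1 : ℤ) else 0) -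
      if tau ζ Q' = Q then (1 : ℤ) else 0)).sum := by
    rw [← hf w _ (NE4_sp h0 h1), NE4_eqs, NE4_coef]
  have e2 : w.ord f₁ = (m : ℤ) * (Z.map fun Q' => ((if Q' = tau ζ Q then (1 : ℤ) else 0) -
      if tau ζ Q' = tau ζ Q then (1 : ℤ) else 0)).sum := by
    rw [← hf₁ w _ (NE4_sp (Q := tau ζ Q) h0 (NE4_tau hz0 h1)), NE4_eqs, NE4_coef]
  rw [w.ord_mul _ _ (div_ne_zero hf0 hf₁0) (pow_ne_zero m hpne), Place.ord_div w _ _ hf0 hf₁0, Place.ord_pow,
    (hp0 w).2, e1, e2]
  have e3 : (Z.map fun Q' => ((if Q' = Q then (1 : ℤ) else 0) - if tau ζ Q' = Q then (1 : ℤ) else 0)).sum -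
      (Z.map fun Q' => ((if Q' = tau ζ Q then (1 : ℤ) else 0) - if tau ζ Q' = tau ζ Q then (1 : ℤ) else 0)).sum +
      (Z.map fun Q' => w.ord (x - algebraMap k N ((Q' 0).getD 0))).sum =
      (Z.map fun Q' => if Q 0 = none then (-1 : ℤ) else 3 * (if Q' = Q then (1 : ℤ) else 0)).sum := by
    rw [← Multiset.sum_map_sub, ← Multiset.sum_map_add]
    refine congrArg Multiset.sum (Multiset.map_congr rfl fun Q' hQ' => ?_)
    obtain ⟨y, b, rfl, hb, hon⟩ := hZQ Q' hQ'
    exact NE4_pt hc h3 hζ h w Q hQ h0 h1 y b hb hon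
  have e4 : (m : ℤ) * (Z.map fun Q' => ((if Q' = Q then (1 : ℤ) else 0) - if tau ζ Q' = Q then (1 : ℤ) else 0)).sum -
      (m : ℤ) * (Z.map fun Q' => ((if Q' = tau ζ Q then (1 : ℤ) else 0) - if tau ζ Q' = tau ζ Q then (1 : ℤ) else 0)).sum +
      (m : ℤ) * (Z.map fun Q' => w.ord (x - algebraMap k N ((Q' 0).getD 0))).sum =
      (m : ℤ) * (Z.map fun Q' => if Q 0 = none then (-1 : ℤ) else 3 * (if Q' = Q then (1 : ℤ) else 0)).sum := by
    rw [← e3]
    ring
  rw [e4]
  by_cases hQ0 : Q 0 = none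
  · simp only [if_pos hQ0]
    rw [Multiset.map_const', Multiset.sum_replicate, hZcard]
    ring
  · simp only [if_neg hQ0]
    rw [Multiset.sum_map_mul_left, NE4_count]
    ring

end Pool.Agent.LibCW77
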