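import Pool.Agent.LibCW77.NDefs
import Pool.Agent.LibCW77.C1

/-!
[CW77 NE5] MEDIUM: the order of products of v - b

For one pair `p`: if `p.2 ≠ b` then `v - p.2` has the value `b - p.2 ≠ 0` at `w`, order `0`. If `p.2 = b` then `p.1 = a` (`hinj`) and
`(v - b)(v ^ 2 + v b + b ^ 2) = v ^ 3 - b ^ 3`, and `(v ^ 3 - b ^ 3) B(x) B(a) = A(x) B(a) - A(a) B(x) = (x - a) U(x)` with `U(a) = A'(a) B(a) - A(a) B'(a) ≠ 0`
(factor of `Wp c`, `hJ`); `w.ord (x - a) = 1` (`placeC` for the point `![some a, some b]`: its last clause says that `w` is its place; `b ≠ 0` because `A(a) ≠ 0`),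
`v ^ 2 + v b + b ^ 2` has the value `3 b ^ 2 ≠ 0`; so `w.ord (v - b) = 1`. Then `Multiset.induction_on J` (`Place.ord_mul`, `Multiset.count_cons`: the pair `p`
is `(a, b)` iff `p.2 = b`).
-/

open scoped Classical
open Polynomial

namespace Pool.Agent.LibCW77

open Pool.Agent.LibBH2
open Pool.Agent.LibCHd (VR RF Red FunF)

variable {k : Type} [Field k]

private theorem NE5_prim [IsAlgClosed k] [CharZero k] : ∃ ζ : k, IsPrimitiveRoot ζ 3 := by
  have : NeZero ((3 : ℕ) : k) := ⟨by norm_num⟩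
  have : NeZero (3 : ℕ) := ⟨by norm_num⟩
  exact HasEnoughRootsOfUnity.exists_primitiveRoot k 3

private theorem NE5_evA (c : Dat k) (a : k) : (Ap c).eval a = ∏ i, (a - c.a i) := by
  unfold Ap
  rw [eval_prod]
  simp

private theorem NE5_evB (c : Dat k) (a : k) : (Bp c).eval a = ∏ i, (a - c.b i) := by
  unfold Bp
  rw [eval_prod]
  simp

private theorem NE5_aeA (c : Dat k) {N : Type} [Field N] [Algebra k N] (x : N) :
    aeval x (Ap c) = ∏ i, (x - algebraMap k N (c.a i)) := by
  unfold Ap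
  rw [map_prod]
  simp

private theorem NE5_aeB (c : Dat k) {N : Type} [Field N] [Algebra k N] (x : N) :
    aeval x (Bp c) = ∏ i, (x - algebraMap k N (c.b i)) := by
  unfold Bp
  rw [map_prod]
  simp

/-- the order of `v - b` -/
private theorem NE5_one [IsAlgClosed k] [CharZero k] {c : Dat k} (hc : c.Good) (h3 : c.n = 3)
    {N : Type} [Field N] [Algebra k N] {x v : N} (h : GenC c x v) {a b : k}
    (hW : (Wp c).eval a ≠ 0)
    (hA : (Ap c).eval a ≠ 0) (hB : (Bp c).eval a ≠ 0) (hb : b ^ 3 * (Bp c).eval a = (Ap c).eval a)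
    (w : Place k N) (hx : Red w x (algebraMap k (RF w) a))
    (hv : Red w v (algebraMap k (RF w) b)) :
    v - algebraMap k N b ≠ 0 ∧ w.ord (v - algebraMap k N b) = 1 := by
  have hb0 : b ≠ 0 := by
    rintro rfl
    rw [zero_pow (by norm_num), zero_mul] at hb
    exact hA hb.symm
  obtain ⟨ζ, hζ⟩ := NE5_prim (k := k)
  rw [← h3] at hζ
  have hQ : OnC c (some a) (some b) := by
    show b ^ c.n * ∏ i, (a - c.b i) = ∏ i, (a - c.a i)
    rw [h3, ← NE5_evA, ← NE5_evB]
    exact hb
  obtain ⟨w', -, -, h4, -, -, -, h5⟩ := placeC hc hζ h ![some a, some b] hQ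
  have hww : w = w' := h5 w hx hv
  have hxa : w.ord (x - algebraMap k N a) = 1 := by
    rw [hww]
    exact h4 a b rfl rfl hb0
  have hx' := LibCHd.red_iff_val.1 hx
  have hv' := LibCHd.red_iff_val.1 hv
  have hxa0 : x - algebraMap k N a ≠ 0 := by
    intro h0
    rw [h0, w.ord_zero] at hxa
    exact zero_ne_one hxa
  -- the factor
  have hroot : (Ap c * C ((Bp c).eval a) - C ((Ap c).eval a) * Bp c).IsRoot a := by
    rw [IsRoot.def]
    simp
  obtain ⟨U, hU⟩ := dvd_iff_isRoot.2 hroot
  have hU0 : U.eval a ≠ 0 := by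
    intro h0
    apply hW
    have h6 := congrArg (fun P => eval a (derivative P)) hU
    simp only [derivative_sub, derivative_mul, derivative_C, mul_zero, add_zero, zero_mul, zero_add,
      derivative_X, sub_zero, one_mul, eval_sub, eval_mul, eval_C, eval_add, eval_X, sub_self, h0] at h6
    unfold Wp
    simp only [eval_mul, eval_sub]
    have h7 : eval a (derivative (Ap c)) * eval a (Bp c) - eval a (Ap c) * eval a (derivative (Bp c)) = 0 := h6
    rw [h7, mul_zero]
  have hUx := Place.val_aeval hx' U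
  have hBx := Place.val_aeval hx' (Bp c)
  have hUo := Place.ord_eq_zero_of_val hUx hU0
  have hUn := Place.ne_zero_of_val hUx hU0
  have hBo := Place.ord_eq_zero_of_val hBx hB
  have hBn := Place.ne_zero_of_val hBx hB
  have hBa : algebraMap k N ((Bp c).eval a) ≠ 0 := by
    simpa using hB
  have hq : w.Zer ((v ^ 2 + v * algebraMap k N b + algebraMap k N b ^ 2) -
      algebraMap k N (b ^ 2 + b * b + b ^ 2)) := by
    have e1 := Place.val_pow hv' 2
    have e2 := Place.val_mul hv' (Place.val_const (v := w) b)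
    have e3 := Place.val_const (v := w) (b ^ 2)
    have e4 := Place.val_add (Place.val_add e1 e2) e3
    rw [map_pow] at e4
    exact e4
  have hq0 : b ^ 2 + b * b + b ^ 2 ≠ 0 := by
    have : b ^ 2 + b * b + b ^ 2 = 3 * b ^ 2 := by ring
    rw [this]
    exact mul_ne_zero (by norm_num) (pow_ne_zero 2 hb0)
  have hqo := Place.ord_eq_zero_of_val hq hq0
  have hqn := Place.ne_zero_of_val hq hq0
  have hon : v ^ 3 * aeval x (Bp c) = aeval x (Ap c) := by
    have h6 : v ^ c.n * ∏ i, (x - algebraMap k N (c.b i)) = ∏ i, (x - algebraMap k N (c.a i)) := h.on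
    rw [h3] at h6
    rw [NE5_aeA, NE5_aeB]
    exact h6
  have hUe := congrArg (fun P => aeval x P) hU
  simp only [map_sub, map_mul, aeval_C, aeval_X] at hUe
  have hbN : algebraMap k N b ^ 3 * algebraMap k N ((Bp c).eval a) = algebraMap k N ((Ap c).eval a) := by
    rw [← hb, map_mul, map_pow]
  have key : (v - algebraMap k N b) * ((v ^ 2 + v * algebraMap k N b + algebraMap k N b ^ 2) *
      (aeval x (Bp c) * algebraMap k N ((Bp c).eval a))) =
      (x - algebraMap k N a) * aeval x U := by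
    rw [← hUe, ← hon, ← hbN]
    ring
  have hrn : (x - algebraMap k N a) * aeval x U ≠ 0 := mul_ne_zero hxa0 hUn
  have hvn : v - algebraMap k N b ≠ 0 := by
    intro h0
    rw [h0, zero_mul] at key
    exact hrn key.symm
  refine ⟨hvn, ?_⟩
  have h6 := congrArg w.ord key
  rw [w.ord_mul _ _ hvn (mul_ne_zero hqn (mul_ne_zero hBn hBa)), w.ord_mul _ _ hqn (mul_ne_zero hBn hBa),
    w.ord_mul _ _ hBn hBa, w.ord_mul _ _ hxa0 hUn, hqo, hBo, w.ord_const _ hB, hUo, hxa] at h6
  simpa using h6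


theorem ne_ordv [IsAlgClosed k] [CharZero k] {c : Dat k} (hc : c.Good) (h3 : c.n = 3) {N : Type} [Field N]
    [Algebra k N] {x v : N} (h : GenC c x v) (J : Multiset (k × k))
    (hJ : ∀ p ∈ J, p.2 ^ 3 * (Bp c).eval p.1 = (Ap c).eval p.1 ∧ (Wp c).eval p.1 ≠ 0) {a b : k}
    (hA : (Ap c).eval a ≠ 0) (hB : (Bp c).eval a ≠ 0) (hb : b ^ 3 * (Bp c).eval a = (Ap c).eval a)
    (hinj : ∀ p ∈ J, p.2 = b → p.1 = a) (w : Place k N) (hx : Red w x (algebraMap k (RF w) a))
    (hv : Red w v (algebraMap k (RF w) b)) :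
    (J.map fun p => v - algebraMap k N p.2).prod ≠ 0 ∧
      w.ord (J.map fun p => v - algebraMap k N p.2).prod = (J.count (a, b) : ℤ) := by
  have hp : ∀ p ∈ J, v - algebraMap k N p.2 ≠ 0 ∧
      w.ord (v - algebraMap k N p.2) = if (a, b) = p then 1 else 0 := by
    intro p hpJ
    by_cases h1 : p.2 = b
    · have h2 := hinj p hpJ h1
      have h4 := (hJ p hpJ).2
      rw [h2] at h4
      have h5 : (a, b) = p := Prod.ext h2.symm h1.symm
      rw [if_pos h5, h1]
      exact NE5_one hc h3 h h4 hA hB hb w hx hv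
    · have h5 : ¬ (a, b) = p := by
        intro h6
        apply h1
        rw [← h6]
      rw [if_neg h5]
      have hv' := LibCHd.red_iff_val.1 hv
      have h6 := Place.val_sub hv' (Place.val_const (v := w) p.2)
      have h7 : b - p.2 ≠ 0 := sub_ne_zero.2 fun h8 => h1 h8.symm
      exact ⟨Place.ne_zero_of_val h6 h7, Place.ord_eq_zero_of_val h6 h7⟩
  clear hJ hinj
  induction J using Multiset.induction_on with
  | empty =>
    refine ⟨?_, ?_⟩
    · rw [Multiset.map_zero, Multiset.prod_zero]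
      exact one_ne_zero
    · rw [Multiset.map_zero, Multiset.prod_zero, w.ord_one, Multiset.count_zero]
      rfl
  | cons p J ih =>
    obtain ⟨h1, h2⟩ := ih fun q hq => hp q (Multiset.mem_cons_of_mem hq)
    obtain ⟨h4, h5⟩ := hp p (Multiset.mem_cons_self p J)
    rw [Multiset.map_cons, Multiset.prod_cons]
    refine ⟨mul_ne_zero h4 h1, ?_⟩
    rw [w.ord_mul _ _ h4 h1, h2, h5, Multiset.count_cons]
    push_cast
    ring

end Pool.Agent.LibCW77
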