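import Pool.Agent.LibCW77.NDefs

/-!
[CW77 NF] STRONG: final argument over the residue field (Mathlib only)

Here `κ` is any field. `f = A / B`. `f - f(y) = N / (B(y) B)` with `N = C (B.eval y) * A - C (A.eval y) * B = (X - C y) * u`, `u.eval y = W(y) ≠ 0`
(derivative of `N` at `y`). Regular at `y` means `denom.eval y ≠ 0`; such functions are closed under `+`, `*` (use: `r` is regular at `y` iff `r = p / q` with
`q.eval y ≠ 0`). Step 1: `γ * (f - f(y)) ^ m` is regular at `y` (hE), so `(X - C y) ^ (M m)` divides `B h ((X - C y) u) ^ m`, hence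
`(X - C y) ^ ((M - 1) m) ∣ h`; for all `y ∈ I` (coprime): `(∏ (X - C y) ^ m y) ^ (M - 1) ∣ h`, of degree `2 (M - 1)`; so `h = 0` by `hdeg`, `γ = 0`. Step 2: then
`a y = - aeval f P / (f - f(y)) ^ m` is regular at `y`; if `P ≠ 0`, write `P = (X - C (f y)) ^ s * P₁`, `P₁.eval (f y) ≠ 0`, `s ≤ natDegree P < m`
(`rootMultiplicity`); `aeval f P = (f - f(y)) ^ s * aeval f P₁`, and `aeval f P₁` has at `y` the value `P₁(f y) ≠ 0`, so the quotient has the pole
`(X - C y) ^ (m - s)`: contradiction. `div_arg`: the same computation as step 1.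
-/

open scoped Classical
open Polynomial

namespace Pool.Agent.LibCW77

open Pool.Agent.LibBH2
open Pool.Agent.LibCHd (VR RF Red FunF)

variable {k : Type} [Field k]

/-- the rational function `r` is regular at `y`, with the value `c` -/
private def NF_val {κ : Type} [Field κ] (y : κ) (r : RatFunc κ) (c : κ) : Prop :=
  ∃ p q : κ[X], q.eval y ≠ 0 ∧ r * algebraMap κ[X] (RatFunc κ) q = algebraMap κ[X] (RatFunc κ) p ∧
    p.eval y = c * q.eval y

private theorem NF_inj {κ : Type} [Field κ] : Function.Injective (algebraMap κ[X] (RatFunc κ)) :=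
  IsFractionRing.injective _ _

private theorem NF_poly {κ : Type} [Field κ] (y : κ) (p : κ[X]) :
    NF_val y (algebraMap κ[X] (RatFunc κ) p) (p.eval y) :=
  ⟨p, 1, by simp, by simp, by simp⟩

private theorem NF_add {κ : Type} [Field κ] {y : κ} {r s : RatFunc κ} {c d : κ} (hr : NF_val y r c)
    (hs : NF_val y s d) : NF_val y (r + s) (c + d) := by
  obtain ⟨p, q, hq, h1, h2⟩ := hr
  obtain ⟨p', q', hq', h1', h2'⟩ := hs
  refine ⟨p * q' + p' * q, q * q', ?_, ?_, ?_⟩
  · rw [eval_mul]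
    exact mul_ne_zero hq hq'
  · rw [map_mul, map_add, map_mul, map_mul, ← h1, ← h1']
    ring
  · rw [eval_mul, eval_add, eval_mul, eval_mul, h2, h2']
    ring

private theorem NF_mul {κ : Type} [Field κ] {y : κ} {r s : RatFunc κ} {c d : κ} (hr : NF_val y r c)
    (hs : NF_val y s d) : NF_val y (r * s) (c * d) := by
  obtain ⟨p, q, hq, h1, h2⟩ := hr
  obtain ⟨p', q', hq', h1', h2'⟩ := hs
  refine ⟨p * p', q * q', ?_, ?_, ?_⟩
  · rw [eval_mul]
    exact mul_ne_zero hq hq'
  · rw [map_mul, map_mul, ← h1, ← h1']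
    ring
  · rw [eval_mul, eval_mul, h2, h2']
    ring

private theorem NF_pow {κ : Type} [Field κ] {y : κ} {r : RatFunc κ} {c : κ} (hr : NF_val y r c) (n : ℕ) :
    NF_val y (r ^ n) (c ^ n) := by
  induction n with
  | zero =>
    rw [pow_zero, pow_zero]
    have h := NF_poly y (1 : κ[X])
    rwa [map_one, eval_one] at h
  | succ n ih =>
    rw [pow_succ, pow_succ]
    exact NF_mul ih hr

private theorem NF_uniq {κ : Type} [Field κ] {y : κ} {r : RatFunc κ} {c d : κ} (hr : NF_val y r c)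
    (hs : NF_val y r d) : c = d := by
  obtain ⟨p, q, hq, h1, h2⟩ := hr
  obtain ⟨p', q', hq', h1', h2'⟩ := hs
  have h3 : p * q' = p' * q := by
    apply NF_inj
    rw [map_mul, map_mul, ← h1, ← h1']
    ring
  have h4 := congrArg (eval y) h3
  rw [eval_mul, eval_mul, h2, h2'] at h4
  have h5 : (c - d) * (q.eval y * q'.eval y) = 0 := by linear_combination h4
  rcases mul_eq_zero.1 h5 with h6 | h6
  · exact sub_eq_zero.1 h6
  · exact absurd h6 (mul_ne_zero hq hq')

private theorem NF_C {κ : Type} [Field κ] (y c : κ) : NF_val y (RatFunc.C c) c := by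
  have h := NF_poly y (C c)
  rwa [eval_C, RatFunc.algebraMap_C] at h

private theorem NF_denom {κ : Type} [Field κ] {y : κ} {r : RatFunc κ} (h : r.denom.eval y ≠ 0) :
    ∃ c, NF_val y r c := by
  refine ⟨r.num.eval y / r.denom.eval y, r.num, r.denom, h, ?_, ?_⟩
  · have h1 : algebraMap κ[X] (RatFunc κ) r.denom ≠ 0 := by
      rw [Ne, map_eq_zero_iff _ NF_inj]
      exact r.denom_ne_zero
    have h2 := RatFunc.num_div_denom r
    rw [div_eq_iff h1] at h2
    exact h2.symm
  · rw [div_mul_cancel₀ _ h]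

private theorem NF_aeval {κ : Type} [Field κ] {y : κ} {r : RatFunc κ} {c : κ} (hr : NF_val y r c) (P : κ[X]) :
    NF_val y (aeval r P) (P.eval c) := by
  induction P using Polynomial.induction_on' with
  | add p q hp hq =>
    rw [map_add, eval_add]
    exact NF_add hp hq
  | monomial n a =>
    rw [aeval_monomial, eval_monomial]
    exact NF_mul (NF_C y a) (NF_pow hr n)

private theorem NF_f {κ : Type} [Field κ] {A B : κ[X]} {y : κ} (hB : B.eval y ≠ 0) :
    NF_val y (algebraMap κ[X] (RatFunc κ) A / algebraMap κ[X] (RatFunc κ) B) (A.eval y / B.eval y) := by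
  have hB0 : algebraMap κ[X] (RatFunc κ) B ≠ 0 := by
    rw [Ne, map_eq_zero_iff _ NF_inj]
    rintro rfl
    exact hB eval_zero
  exact ⟨A, B, hB, div_mul_cancel₀ _ hB0, (div_mul_cancel₀ _ hB).symm⟩

private theorem NF_delta {κ : Type} [Field κ] {A B : κ[X]} {y : κ} (hB : B.eval y ≠ 0) :
    NF_val y (algebraMap κ[X] (RatFunc κ) A / algebraMap κ[X] (RatFunc κ) B -
      RatFunc.C (A.eval y / B.eval y)) 0 := by
  have h := NF_add (NF_f (A := A) hB) (NF_C y (-(A.eval y / B.eval y)))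
  rwa [map_neg, ← sub_eq_add_neg, ← sub_eq_add_neg, sub_self] at h

private theorem NF_N {κ : Type} [Field κ] {A B : κ[X]} {y : κ} (hB : B.eval y ≠ 0)
    (hW : (derivative A * B - A * derivative B).eval y ≠ 0) :
    ∃ u : κ[X], u.eval y ≠ 0 ∧ (algebraMap κ[X] (RatFunc κ) A / algebraMap κ[X] (RatFunc κ) B -
      RatFunc.C (A.eval y / B.eval y)) * algebraMap κ[X] (RatFunc κ) (C (B.eval y) * B) =
        algebraMap κ[X] (RatFunc κ) ((X - C y) * u) := by
  obtain ⟨N, hN⟩ : ∃ N : κ[X], N = C (B.eval y) * A - C (A.eval y) * B := ⟨_, rfl⟩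
  have h0 : N.IsRoot y := by
    rw [IsRoot, hN, eval_sub, eval_mul, eval_mul, eval_C, eval_C]
    ring
  obtain ⟨u, hu⟩ := dvd_iff_isRoot.2 h0
  have hB0 : algebraMap κ[X] (RatFunc κ) B ≠ 0 := by
    rw [Ne, map_eq_zero_iff _ NF_inj]
    rintro rfl
    exact hB eval_zero
  refine ⟨u, ?_, ?_⟩
  · have h1 : (derivative N).eval y = u.eval y := by
      rw [hu, derivative_mul, eval_add, eval_mul, eval_mul, derivative_sub, derivative_X, derivative_C, sub_zero,
        eval_one, eval_sub, eval_X, eval_C, sub_self, zero_mul, add_zero, one_mul]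
    have h2 : (derivative N).eval y = (derivative A * B - A * derivative B).eval y := by
      rw [hN, derivative_sub, derivative_C_mul, derivative_C_mul, eval_sub, eval_sub, eval_mul, eval_mul, eval_mul,
        eval_mul, eval_C, eval_C]
      ring
    rw [← h1, h2]
    exact hW
  · rw [← hu, hN, map_sub, map_mul, map_mul, map_mul, ← RatFunc.algebraMap_C, sub_mul]
    congr 1
    · field_simp
    · rw [← mul_assoc, ← map_mul (algebraMap κ[X] (RatFunc κ)), ← C_mul, div_mul_cancel₀ _ hB]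

private theorem NF_cop {κ : Type} [Field κ] {y : κ} {q : κ[X]} (hq : q.eval y ≠ 0) (n : ℕ) :
    IsCoprime ((X - C y) ^ n) q := by
  refine IsCoprime.pow_left ?_
  rw [(irreducible_X_sub_C y).coprime_iff_not_dvd]
  intro h
  exact hq (dvd_iff_isRoot.1 h)

theorem fin_arg {κ : Type} [Field κ] {A B : κ[X]} {I : Finset κ} {m : κ → ℕ} (hm : ∀ y ∈ I, 0 < m y)
    (hs : ∑ y ∈ I, m y = 2) (hB : ∀ y ∈ I, B.eval y ≠ 0)
    (hW : ∀ y ∈ I, (derivative A * B - A * derivative B).eval y ≠ 0) {M : ℕ} (hM : 0 < M)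
    {γ : RatFunc κ} {h : κ[X]} (hdeg : h = 0 ∨ h.natDegree + 3 ≤ 2 * M) {e : κ} (he : e ≠ 0)
    (hγ : γ = algebraMap κ[X] (RatFunc κ) (B * h) /
      algebraMap κ[X] (RatFunc κ) (C e * (∏ y ∈ I, (X - C y) ^ m y) ^ M))
    (a : κ → RatFunc κ) (P : κ → κ[X]) (ha : ∀ y ∈ I, (a y).denom.eval y ≠ 0)
    (hP : ∀ y ∈ I, P y = 0 ∨ (P y).natDegree < m y)
    (hE : ∀ y ∈ I, γ = a y + aeval (algebraMap κ[X] (RatFunc κ) A / algebraMap κ[X] (RatFunc κ) B) (P y) /
      (algebraMap κ[X] (RatFunc κ) A / algebraMap κ[X] (RatFunc κ) B - RatFunc.C (A.eval y / B.eval y)) ^ m y) :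
    γ = 0 ∧ ∀ y ∈ I, P y = 0 ∧ a y = 0 := by
  have hb : ∀ y ∈ I, ((X - C y) ^ (m y * (M - 1))) ∣ h := by
    intro y hy
    obtain ⟨u, hu, hN⟩ := NF_N (hB y hy) (hW y hy)
    obtain ⟨δ, hδ⟩ : ∃ δ : RatFunc κ, δ = algebraMap κ[X] (RatFunc κ) A / algebraMap κ[X] (RatFunc κ) B -
      RatFunc.C (A.eval y / B.eval y) := ⟨_, rfl⟩
    have hδ0 : δ ≠ 0 := by
      intro h0
      rw [← hδ, h0, zero_mul] at hN
      have h1 : (X - C y) * u = 0 := by
        apply NF_inj
        rw [map_zero]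
        exact hN.symm
      rcases mul_eq_zero.1 h1 with h2 | h2
      · exact X_sub_C_ne_zero y h2
      · rw [h2, eval_zero] at hu
        exact hu rfl
    obtain ⟨c, hc⟩ := NF_denom (ha y hy)
    have hE' := hE y hy
    rw [← hδ] at hE' hN
    have hr : γ * δ ^ m y = a y * δ ^ m y +
        aeval (algebraMap κ[X] (RatFunc κ) A / algebraMap κ[X] (RatFunc κ) B) (P y) := by
      rw [hE', add_mul, div_mul_cancel₀ _ (pow_ne_zero _ hδ0)]
    have hval : ∃ d, NF_val y (γ * δ ^ m y) d := by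
      have hδv : NF_val y δ 0 := by
        rw [hδ]
        exact NF_delta (hB y hy)
      rw [hr]
      exact ⟨_, NF_add (NF_mul hc (NF_pow hδv _)) (NF_aeval (NF_f (hB y hy)) _)⟩
    obtain ⟨d, p, q, hq, hpq, -⟩ := hval
    obtain ⟨QQ, hQQ⟩ : ∃ QQ : κ[X], QQ = ∏ y ∈ I, (X - C y) ^ m y := ⟨_, rfl⟩
    have hQQ0 : QQ ≠ 0 := by
      rw [hQQ]
      exact Finset.prod_ne_zero_iff.2 fun z _ => pow_ne_zero _ (X_sub_C_ne_zero z)
    have hD0 : algebraMap κ[X] (RatFunc κ) (C e * QQ ^ M) ≠ 0 := by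
      rw [Ne, map_eq_zero_iff _ NF_inj]
      exact mul_ne_zero (C_ne_zero.2 he) (pow_ne_zero _ hQQ0)
    rw [← hQQ, eq_div_iff hD0] at hγ
    have hpoly : p * (C e * QQ ^ M) * (C (B.eval y) * B) ^ m y = q * (B * h) * ((X - C y) * u) ^ m y := by
      apply NF_inj
      rw [map_mul, map_mul _ p, map_pow, map_mul _ (q * (B * h)), map_mul _ q, map_pow, ← hN, ← hpq, ← hγ]
      ring
    have hdv : (X - C y) ^ (m y * M) ∣ QQ ^ M := by
      rw [pow_mul]
      apply pow_dvd_pow_of_dvd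
      rw [hQQ]
      exact Finset.dvd_prod_of_mem (fun z => (X - C z) ^ m z) hy
    have hdv2 : (X - C y) ^ (m y * M) ∣ q * (B * h) * ((X - C y) * u) ^ m y := by
      rw [← hpoly]
      exact (hdv.mul_left (C e)).mul_left p |>.mul_right _
    have hMe : m y * M = m y + m y * (M - 1) := by
      obtain ⟨M', rfl⟩ : ∃ M', M = M' + 1 := ⟨M - 1, by omega⟩
      rw [Nat.add_sub_cancel]
      ring
    have hfac : q * (B * h) * ((X - C y) * u) ^ m y = (X - C y) ^ m y * (h * (q * B * u ^ m y)) := by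
      rw [mul_pow]
      ring
    rw [hMe, pow_add, hfac] at hdv2
    have hdv3 := (mul_dvd_mul_iff_left (pow_ne_zero _ (X_sub_C_ne_zero y))).1 hdv2
    refine (NF_cop ?_ _).dvd_of_dvd_mul_right hdv3
    rw [eval_mul, eval_mul, eval_pow]
    exact mul_ne_zero (mul_ne_zero hq (hB y hy)) (pow_ne_zero _ hu)
  have hh : h = 0 := by
    rcases hdeg with h0 | hdeg
    · exact h0
    by_contra hne
    have h1 : ∏ y ∈ I, (X - C y) ^ (m y * (M - 1)) ∣ h := by
      refine Finset.prod_dvd_of_coprime (fun y _ z _ hyz => ?_) hb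
      exact (isCoprime_X_sub_C_of_isUnit_sub (sub_ne_zero.2 hyz).isUnit).pow
    have h2 := natDegree_le_of_dvd h1 hne
    rw [natDegree_prod_of_monic _ _ fun y _ => (monic_X_sub_C y).pow _] at h2
    have h3 : ∑ y ∈ I, ((X - C y) ^ (m y * (M - 1))).natDegree = 2 * (M - 1) := by
      rw [← hs, Finset.sum_mul]
      refine Finset.sum_congr rfl fun y _ => ?_
      rw [natDegree_pow, natDegree_X_sub_C, mul_one]
    omega
  have hγ0 : γ = 0 := by
    rw [hγ, hh, mul_zero, map_zero, zero_div]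
  refine ⟨hγ0, fun y hy => ?_⟩
  have hE' := hE y hy
  rw [hγ0] at hE'
  have hP0 : P y = 0 := by
    by_contra hne
    have hdegP := (hP y hy).resolve_left hne
    obtain ⟨u, hu, hN⟩ := NF_N (hB y hy) (hW y hy)
    obtain ⟨δ, hδ⟩ : ∃ δ : RatFunc κ, δ = algebraMap κ[X] (RatFunc κ) A / algebraMap κ[X] (RatFunc κ) B -
      RatFunc.C (A.eval y / B.eval y) := ⟨_, rfl⟩
    have hδ0 : δ ≠ 0 := by
      intro h0
      rw [← hδ, h0, zero_mul] at hN
      have h1 : (X - C y) * u = 0 := by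
        apply NF_inj
        rw [map_zero]
        exact hN.symm
      rcases mul_eq_zero.1 h1 with h2 | h2
      · exact X_sub_C_ne_zero y h2
      · rw [h2, eval_zero] at hu
        exact hu rfl
    obtain ⟨c, hc⟩ := NF_denom (ha y hy)
    have hδv : NF_val y δ 0 := by
      rw [hδ]
      exact NF_delta (hB y hy)
    obtain ⟨s, hs'⟩ : ∃ s : ℕ, s = (P y).rootMultiplicity (A.eval y / B.eval y) := ⟨_, rfl⟩
    obtain ⟨P₁, hP₁, hP₁'⟩ := exists_eq_pow_rootMultiplicity_mul_and_not_dvd (P y) hne (A.eval y / B.eval y)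
    rw [← hs'] at hP₁
    have hsd : s < m y := by
      have h1 : s ≤ (P y).natDegree := by
        have h2 : (X - C (A.eval y / B.eval y)) ^ s ∣ P y := ⟨P₁, hP₁⟩
        have h3 := natDegree_le_of_dvd h2 hne
        rwa [natDegree_pow, natDegree_X_sub_C, mul_one] at h3
      omega
    have hae : aeval (algebraMap κ[X] (RatFunc κ) A / algebraMap κ[X] (RatFunc κ) B) (P y) =
        δ ^ s * aeval (algebraMap κ[X] (RatFunc κ) A / algebraMap κ[X] (RatFunc κ) B) P₁ := by
      rw [hP₁, map_mul, map_pow, map_sub, aeval_X, aeval_C, hδ]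
      rfl
    rw [← hδ, hae] at hE'
    have h5 : a y * δ ^ (m y - s) = -aeval (algebraMap κ[X] (RatFunc κ) A / algebraMap κ[X] (RatFunc κ) B) P₁ := by
      have h6 : δ ^ m y = δ ^ s * δ ^ (m y - s) := by
        rw [← pow_add]
        congr 1
        omega
      rw [h6, mul_div_mul_left _ _ (pow_ne_zero _ hδ0)] at hE'
      have h7 : a y = -(aeval (algebraMap κ[X] (RatFunc κ) A / algebraMap κ[X] (RatFunc κ) B) P₁ / δ ^ (m y - s)) := by
        linear_combination -hE'
      rw [h7, neg_mul, div_mul_cancel₀ _ (pow_ne_zero _ hδ0)]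
    have h8 : NF_val y (a y * δ ^ (m y - s)) 0 := by
      have h9 := NF_mul hc (NF_pow hδv (m y - s))
      rwa [zero_pow (by omega), mul_zero] at h9
    have h10 : NF_val y (-aeval (algebraMap κ[X] (RatFunc κ) A / algebraMap κ[X] (RatFunc κ) B) P₁)
        (-1 * P₁.eval (A.eval y / B.eval y)) := by
      have h11 := NF_mul (NF_C y (-1)) (NF_aeval (NF_f (A := A) (hB y hy)) P₁)
      rwa [map_neg, map_one, neg_one_mul] at h11
    rw [h5] at h8
    have h12 := NF_uniq h8 h10
    apply hP₁'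
    rw [dvd_iff_isRoot, IsRoot]
    linear_combination h12
  refine ⟨hP0, ?_⟩
  rw [hP0, map_zero, zero_div, add_zero] at hE'
  exact hE'.symm

theorem div_arg {κ : Type} [Field κ] {A B P : κ[X]} {t : κ} (hB : B.eval t ≠ 0)
    (hW : (derivative A * B - A * derivative B).eval t ≠ 0) {m : ℕ} {α : RatFunc κ} (hα : α.denom.eval t ≠ 0)
    (h : algebraMap κ[X] (RatFunc κ) P = α *
      (algebraMap κ[X] (RatFunc κ) A / algebraMap κ[X] (RatFunc κ) B - RatFunc.C (A.eval t / B.eval t)) ^ m) :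
    (X - C t) ^ m ∣ P := by
  obtain ⟨u, hu, hN⟩ := NF_N hB hW
  obtain ⟨c, p, q, hq, hpq, -⟩ := NF_denom hα
  obtain ⟨δ, hδ⟩ : ∃ δ : RatFunc κ, δ = algebraMap κ[X] (RatFunc κ) A / algebraMap κ[X] (RatFunc κ) B -
    RatFunc.C (A.eval t / B.eval t) := ⟨_, rfl⟩
  rw [← hδ] at hN h
  have hpoly : P * q * (C (B.eval t) * B) ^ m = p * ((X - C t) * u) ^ m := by
    apply NF_inj
    rw [map_mul, map_mul, map_pow, map_mul _ p, map_pow, ← hN, ← hpq, h]
    ring
  have h1 : (X - C t) ^ m ∣ P * (q * (C (B.eval t) * B) ^ m) := by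
    rw [← mul_assoc, hpoly, mul_pow]
    exact (dvd_mul_right _ _).mul_left p
  refine (NF_cop ?_ _).dvd_of_dvd_mul_right h1
  rw [eval_mul, eval_pow, eval_mul, eval_C]
  exact mul_ne_zero hq (pow_ne_zero _ (mul_ne_zero hB hB))

end Pool.Agent.LibCW77
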