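import Pool.Agent.LibCW77.NDefs

/-!
[CW77 NG1] SHORT/MEDIUM: reduction of rational functions, algebra

`Rd O r r'`: `r = p / q`, `r' = p' / q'` (reductions), `p q : O[X]`, `q.map (rs O) ≠ 0`. Then `q ≠ 0` and `q.map (algebraMap O k) ≠ 0` (the map
`O → k` is injective: `Polynomial.map_injective`, `Subtype.val_injective` / `IsFractionRing.injective`). Sum: `(p q₁ + p₁ q) / (q q₁)`, product
`p p₁ / (q q₁)`; `(q q₁).map ≠ 0` because `(KK O)[X]` is a domain; `Polynomial.map_mul`, `map_add`, `div_add_div`, `field_simp`. `rd_unique`: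
`p / q = p₁ / q₁` in `RatFunc k` gives `p q₁ = p₁ q` in `k[X]` (`div_eq_div_iff`, `RatFunc.algebraMap_injective`), then in `O[X]`, then in `(KK O)[X]`.
`rd_inv`: `r' ≠ 0` gives `p.map (rs O) ≠ 0`. `rd_C`: `RatFunc.algebraMap_C`, `rd_pol (C a)`.
-/

open scoped Classical
open Polynomial

namespace Pool.Agent.LibCW77

open Pool.Agent.LibBH2
open Pool.Agent.LibCHd (VR RF Red FunF)

variable {k : Type} [Field k]

variable {O : ValuationSubring k} {r s : RatFunc k} {r' s' r'' : RatFunc (KK O)}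

/-- `O[X] → k(X)` -/
private noncomputable def NG1_i (O : ValuationSubring k) : O[X] →+* RatFunc k :=
  (algebraMap k[X] (RatFunc k)).comp (Polynomial.mapRingHom (algebraMap O k))

/-- `O[X] → (KK O)(X)` -/
private noncomputable def NG1_j (O : ValuationSubring k) : O[X] →+* RatFunc (KK O) :=
  (algebraMap (KK O)[X] (RatFunc (KK O))).comp (Polynomial.mapRingHom (rs O))

private theorem NG1_i_apply (p : O[X]) :
    algebraMap k[X] (RatFunc k) (p.map (algebraMap O k)) = NG1_i O p := rfl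

private theorem NG1_j_apply (p : O[X]) :
    algebraMap (KK O)[X] (RatFunc (KK O)) (p.map (rs O)) = NG1_j O p := rfl

private theorem NG1_i_inj : Function.Injective (NG1_i O) :=
  (RatFunc.algebraMap_injective k).comp
    (Polynomial.map_injective (algebraMap O k) Subtype.val_injective)

private theorem NG1_j_zero (q : O[X]) : q.map (rs O) ≠ 0 ↔ NG1_j O q ≠ 0 := by
  rw [← NG1_j_apply]
  exact ((map_ne_zero_iff _ (RatFunc.algebraMap_injective (KK O)))).symm

private theorem NG1_i_ne {q : O[X]} (h : NG1_j O q ≠ 0) : NG1_i O q ≠ 0 := by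
  intro h0
  apply h
  have h1 : q = 0 := NG1_i_inj (by rw [h0, map_zero])
  rw [h1, map_zero]

private theorem NG1_iff : Rd O r r' ↔ ∃ p q : O[X], NG1_j O q ≠ 0 ∧ r = NG1_i O p / NG1_i O q ∧
    r' = NG1_j O p / NG1_j O q := by
  constructor
  · rintro ⟨p, q, h1, h2, h3⟩
    exact ⟨p, q, (NG1_j_zero q).mp h1, h2, h3⟩
  · rintro ⟨p, q, h1, h2, h3⟩
    exact ⟨p, q, (NG1_j_zero q).mpr h1, h2, h3⟩

theorem rd_add (h : Rd O r r') (h' : Rd O s s') : Rd O (r + s) (r' + s') := by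
  rw [NG1_iff] at h h' ⊢
  obtain ⟨p, q, h1, h2, h3⟩ := h
  obtain ⟨p₁, q₁, h1', h2', h3'⟩ := h'
  refine ⟨p * q₁ + q * p₁, q * q₁, ?_, ?_, ?_⟩
  · rw [map_mul]
    exact mul_ne_zero h1 h1'
  · rw [h2, h2', div_add_div _ _ (NG1_i_ne h1) (NG1_i_ne h1'), map_add, map_mul, map_mul, map_mul]
  · rw [h3, h3', div_add_div _ _ h1 h1', map_add, map_mul, map_mul, map_mul]

theorem rd_mul (h : Rd O r r') (h' : Rd O s s') : Rd O (r * s) (r' * s') := by
  rw [NG1_iff] at h h' ⊢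
  obtain ⟨p, q, h1, h2, h3⟩ := h
  obtain ⟨p₁, q₁, h1', h2', h3'⟩ := h'
  refine ⟨p * p₁, q * q₁, ?_, ?_, ?_⟩
  · rw [map_mul]
    exact mul_ne_zero h1 h1'
  · rw [h2, h2', div_mul_div_comm, map_mul, map_mul]
  · rw [h3, h3', div_mul_div_comm, map_mul, map_mul]

theorem rd_neg (h : Rd O r r') : Rd O (-r) (-r') := by
  rw [NG1_iff] at h ⊢
  obtain ⟨p, q, h1, h2, h3⟩ := h
  refine ⟨-p, q, h1, ?_, ?_⟩
  · rw [h2, map_neg, neg_div]
  · rw [h3, map_neg]
    exact (neg_div _ _).symm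

theorem rd_sub (h : Rd O r r') (h' : Rd O s s') : Rd O (r - s) (r' - s') := by
  rw [sub_eq_add_neg, sub_eq_add_neg]
  exact rd_add h (rd_neg h')

theorem rd_pol (p : O[X]) : Rd O (algebraMap k[X] (RatFunc k) (p.map (algebraMap O k)))
    (algebraMap (KK O)[X] (RatFunc (KK O)) (p.map (rs O))) := by
  rw [NG1_iff]
  refine ⟨p, 1, ?_, ?_, ?_⟩
  · rw [map_one]
    exact one_ne_zero
  · rw [map_one, div_one]
    rfl
  · rw [map_one, div_one]
    rfl

theorem rd_C (a : O) : Rd O (RatFunc.C (a : k)) (RatFunc.C (rs O a)) := by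
  have h := rd_pol (C a)
  rw [Polynomial.map_C, Polynomial.map_C, RatFunc.algebraMap_C, RatFunc.algebraMap_C] at h
  exact h

theorem rd_zero : Rd O 0 0 := by
  have h := rd_pol (0 : O[X])
  rw [Polynomial.map_zero, Polynomial.map_zero, map_zero, map_zero] at h
  exact h

theorem rd_one : Rd O 1 1 := by
  have h := rd_pol (1 : O[X])
  rw [Polynomial.map_one, Polynomial.map_one, map_one, map_one] at h
  exact h

theorem rd_pow (h : Rd O r r') (n : ℕ) : Rd O (r ^ n) (r' ^ n) := by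
  induction n with
  | zero =>
    rw [pow_zero, pow_zero]
    exact rd_one
  | succ n ih =>
    rw [pow_succ, pow_succ]
    exact rd_mul ih h

theorem rd_unique (h : Rd O r r') (h' : Rd O r r'') : r' = r'' := by
  rw [NG1_iff] at h h'
  obtain ⟨p, q, h1, h2, h3⟩ := h
  obtain ⟨p₁, q₁, h1', h2', h3'⟩ := h'
  have h4 : p * q₁ = p₁ * q := by
    apply NG1_i_inj
    rw [map_mul, map_mul, ← div_eq_div_iff (NG1_i_ne h1) (NG1_i_ne h1'), ← h2, ← h2']
  rw [h3, h3', div_eq_div_iff h1 h1', ← map_mul, ← map_mul, h4]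

theorem rd_inv (h : Rd O r r') (h0 : r' ≠ 0) : Rd O r⁻¹ r'⁻¹ := by
  rw [NG1_iff] at h ⊢
  obtain ⟨p, q, h1, h2, h3⟩ := h
  refine ⟨q, p, ?_, ?_, ?_⟩
  · intro h4
    rw [h4, zero_div] at h3
    exact h0 h3
  · rw [h2, inv_div]
  · rw [h3, inv_div]

theorem rd_div (h : Rd O r r') (h' : Rd O s s') (h0 : s' ≠ 0) : Rd O (r / s) (r' / s') := by
  rw [div_eq_mul_inv, div_eq_mul_inv]
  exact rd_mul h (rd_inv h' h0)

theorem rd_ne (h : Rd O r r') (h0 : r' ≠ 0) : r ≠ 0 := by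
  intro h1
  rw [h1] at h
  exact h0 (rd_unique h rd_zero)

end Pool.Agent.LibCW77
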