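import Pool.Agent.LibCW77.NG1

/-!
[CW77 NG2] MEDIUM: scaling of finite families

`pol_scale`: the finitely many coefficients of the `p i` are not all `0`; take `β` among them with the largest `O.valuation`; every coefficient divided by
`β` is in `O` (`ValuationSubring.valuation_le_one_iff`, `map_div₀`), so `p i = C β * (P i).map` (`Polynomial.toSubring` or a sum of monomials), and the
coefficient `1` of some `P i` has the reduction `1 ≠ 0`. `rd_scale`: common denominator `Q = ∏ (t i).denom` (`Fintype.ofFinite`, or induction free: take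
`Q : k[X]`, `Q ≠ 0`, with `t i * Q` polynomials `p i`); `pol_scale` for `p` and for the single polynomial `Q` (`Q = C β' * Q°`): then
`C (β / β')⁻¹ * t i = P i / Q°`. `rd_mem`: if `c ∉ O` then `c⁻¹` is in the maximal ideal, so `r = C c⁻¹ * (C c * r)` has the reduction
`0 * s' = 0` (`rd_mul`, `rd_C`, `rd_unique`), a contradiction (`O.mem_or_inv_mem`; `rs O z = 0` iff `z` is not a unit: `IsLocalRing.residue_eq_zero_iff`).
-/

open scoped Classical
open Polynomial

namespace Pool.Agent.LibCW77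

open Pool.Agent.LibBH2
open Pool.Agent.LibCHd (VR RF Red FunF)

variable {k : Type} [Field k]

variable {O : ValuationSubring k} {r s : RatFunc k} {r' s' r'' : RatFunc (KK O)}

theorem pol_scale {ι : Type} [Finite ι] (p : ι → k[X]) (h : ∃ i, p i ≠ 0) :
    ∃ (β : k) (P : ι → O[X]), β ≠ 0 ∧ (∀ i, p i = C β * (P i).map (algebraMap O k)) ∧ ∃ i, (P i).map (rs O) ≠ 0 := by
  have : Fintype ι := Fintype.ofFinite ι
  obtain ⟨i0, hi0⟩ := h
  obtain ⟨S, hS⟩ : ∃ S : Finset k, S = (Finset.univ : Finset ι).biUnion fun i => (p i).support.image (p i).coeff :=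
    ⟨_, rfl⟩
  have hmem : ∀ i n, (p i).coeff n ≠ 0 → (p i).coeff n ∈ S := by
    intro i n hn
    rw [hS, Finset.mem_biUnion]
    exact ⟨i, Finset.mem_univ _, Finset.mem_image.2 ⟨n, mem_support_iff.2 hn, rfl⟩⟩
  have hne : S.Nonempty := by
    obtain ⟨n, hn⟩ : ∃ n, (p i0).coeff n ≠ 0 := by
      by_contra hcon
      push Not at hcon
      exact hi0 (Polynomial.ext fun n => by rw [hcon n, coeff_zero])
    exact ⟨_, hmem i0 n hn⟩
  obtain ⟨β, hβS, hmax⟩ := Finset.exists_max_image S (fun x => O.valuation x) hne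
  obtain ⟨i1, n1, hc1, hβ0⟩ : ∃ i n, (p i).coeff n = β ∧ β ≠ 0 := by
    rw [hS, Finset.mem_biUnion] at hβS
    obtain ⟨i, -, hi⟩ := hβS
    obtain ⟨n, hn, hnβ⟩ := Finset.mem_image.1 hi
    refine ⟨i, n, hnβ, ?_⟩
    rw [← hnβ]
    exact mem_support_iff.1 hn
  have hO : ∀ i n, (p i).coeff n * β⁻¹ ∈ O := by
    intro i n
    rw [← O.valuation_le_one_iff]
    by_cases h0 : (p i).coeff n = 0
    · rw [h0, zero_mul, map_zero]
      exact zero_le
    · have h1 := hmax _ (hmem i n h0)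
      have h2 : O.valuation β ≠ 0 := by
        rw [ne_eq, map_eq_zero]
        exact hβ0
      rw [map_mul, map_inv₀]
      calc O.valuation ((p i).coeff n) * (O.valuation β)⁻¹ ≤ O.valuation β * (O.valuation β)⁻¹ :=
            mul_le_mul_left h1 _
        _ = 1 := mul_inv_cancel₀ h2
  have hlift : ∀ i, ∃ q : O[X], q.map (algebraMap O k) = C β⁻¹ * p i := by
    intro i
    have h1 : C β⁻¹ * p i ∈ Polynomial.lifts (algebraMap O k) := by
      rw [Polynomial.lifts_iff_coeff_lifts]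
      intro n
      rw [coeff_C_mul, mul_comm]
      exact ⟨⟨_, hO i n⟩, rfl⟩
    exact (Polynomial.mem_lifts _).1 h1
  choose P hP using hlift
  refine ⟨β, P, hβ0, fun i => ?_, i1, fun h0 => ?_⟩
  · rw [hP, ← mul_assoc, ← C_mul, mul_inv_cancel₀ hβ0, C_1, one_mul]
  · have h1 : (algebraMap O k) ((P i1).coeff n1) = 1 := by
      rw [← coeff_map, hP, coeff_C_mul, hc1, inv_mul_cancel₀ hβ0]
    have h2 : (P i1).coeff n1 = 1 := Subtype.ext h1
    have h3 := congrArg (fun q => q.coeff n1) h0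
    simp only [coeff_map, coeff_zero] at h3
    rw [h2, map_one] at h3
    exact one_ne_zero h3

theorem rd_scale {ι : Type} [Finite ι] (t : ι → RatFunc k) (h : ∃ i, t i ≠ 0) :
    ∃ β : k, β ≠ 0 ∧ ∃ t' : ι → RatFunc (KK O), (∀ i, Rd O (RatFunc.C β⁻¹ * t i) (t' i)) ∧ ∃ i, t' i ≠ 0 := by
  obtain ⟨b, hb⟩ := IsLocalization.exist_integer_multiples_of_finite (nonZeroDivisors k[X]) t
  choose p hp using hb
  have hb0 : (b : k[X]) ≠ 0 := nonZeroDivisors.coe_ne_zero b
  have hb1 : algebraMap k[X] (RatFunc k) (b : k[X]) ≠ 0 := by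
    rw [ne_eq, FaithfulSMul.algebraMap_eq_zero_iff]
    exact hb0
  have hp' : ∀ i, algebraMap k[X] (RatFunc k) (p i) = algebraMap k[X] (RatFunc k) (b : k[X]) * t i := by
    intro i
    rw [hp i, Algebra.smul_def]
  obtain ⟨i0, hi0⟩ := h
  have hpne : ∃ i, p i ≠ 0 := by
    refine ⟨i0, fun h0 => ?_⟩
    have h1 := hp' i0
    rw [h0, map_zero] at h1
    exact (mul_ne_zero hb1 hi0) h1.symm
  obtain ⟨β1, P, hβ1, hP, i1, hi1⟩ := pol_scale (O := O) p hpne
  obtain ⟨β2, Q, hβ2, hQ, u, hu⟩ := pol_scale (O := O) (fun _ : Unit => (b : k[X])) ⟨(), hb0⟩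
  have hQ' := hQ u
  have hq0 : algebraMap (KK O)[X] (RatFunc (KK O)) ((Q u).map (rs O)) ≠ 0 := by
    rw [ne_eq, FaithfulSMul.algebraMap_eq_zero_iff]
    exact hu
  refine ⟨β1 / β2, div_ne_zero hβ1 hβ2, fun i => algebraMap (KK O)[X] (RatFunc (KK O)) ((P i).map (rs O)) /
      algebraMap (KK O)[X] (RatFunc (KK O)) ((Q u).map (rs O)), fun i => ⟨P i, Q u, hu, ?_, rfl⟩, i1, ?_⟩
  · have h1 := hp' i
    rw [hP i, hQ', map_mul, map_mul] at h1
    rw [hQ', map_mul] at hb1
    have h2 : algebraMap k[X] (RatFunc k) ((Q u).map (algebraMap O k)) ≠ 0 := right_ne_zero_of_mul hb1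
    rw [eq_div_iff h2, inv_div, map_div₀]
    have c1 : algebraMap k[X] (RatFunc k) (C β1) = RatFunc.C β1 := RatFunc.algebraMap_C β1
    have c2 : algebraMap k[X] (RatFunc k) (C β2) = RatFunc.C β2 := RatFunc.algebraMap_C β2
    rw [c1, c2] at h1
    have c3 : RatFunc.C β1 ≠ 0 := by
      rw [ne_eq, map_eq_zero]
      exact hβ1
    rw [div_mul_eq_mul_div, div_mul_eq_mul_div, div_eq_iff c3]
    linear_combination -h1
  · refine div_ne_zero ?_ hq0
    rw [ne_eq, FaithfulSMul.algebraMap_eq_zero_iff]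
    exact hi1

theorem rd_mem {c : k} (h : Rd O r r') (h0 : r' ≠ 0) (h' : Rd O (RatFunc.C c * r) s') : c ∈ O := by
  by_contra hc
  have hc0 : c ≠ 0 := by
    rintro rfl
    exact hc (zero_mem O)
  have hi : c⁻¹ ∈ O := (O.mem_or_inv_mem c).resolve_left hc
  have hz : rs O ⟨c⁻¹, hi⟩ = 0 := by
    rw [IsLocalRing.residue_eq_zero_iff, IsLocalRing.mem_maximalIdeal, mem_nonunits_iff]
    intro hu
    obtain ⟨w, hw⟩ := hu.exists_right_inv
    have h1 : c⁻¹ * (w : k) = 1 := congrArg (Subtype.val) hw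
    have h2 : (w : k) = c := by
      field_simp at h1
      exact h1
    exact hc (h2 ▸ w.2)
  have h1 := rd_mul (rd_C (⟨c⁻¹, hi⟩ : O)) h'
  rw [hz, map_zero, zero_mul] at h1
  have h2 : RatFunc.C ((⟨c⁻¹, hi⟩ : O) : k) * (RatFunc.C c * r) = r := by
    rw [← mul_assoc, ← map_mul]
    change RatFunc.C (c⁻¹ * c) * r = r
    rw [inv_mul_cancel₀ hc0, map_one, one_mul]
  rw [h2] at h1
  exact h0 (rd_unique h h1)

end Pool.Agent.LibCW77
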