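import Pool.Agent.LibCW77.NG2

/-!
[CW77 NG3] STRONG: poles of the reduction

Write `d = r.denom`, `n = r.num`. By `pol_scale` `d = C β * D`, `D : O[X]`, `D.map (rs O) ≠ 0`. First: a root `t` of `D.map (rs O)` is the residue of a root
of `d` in `O`: `d` splits over `k` (`IsAlgClosed.splits`, `Polynomial.Splits...`, `eq_prod_roots_of_...`), a factor `X - C ρ` with `ρ ∈ O` stays, a factor
with `ρ ∉ O` is `C (-ρ) * (1 - C ρ⁻¹ X)` with `ρ⁻¹` in the maximal ideal and reduces to `1`; so `D = C u * ∏ (X - C ρ) * ∏ (1 - C ρ⁻¹ X)` with `u ∈ O` a unit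
(both sides have non zero reduction). So by `hr` the reduction of `D` does not vanish at `t`. Now `r = P / Q` (from `h`), `n Q = P d`; `n = C γ * N` (if `n ≠ 0`),
so `C (γ / β) N Q = P D`, hence `γ / β ∈ O` (`rd_mem` or coefficients) and `r' = P' / Q' = (γ / β)' N' / D'`, so `r'.denom ∣ D'`
(`RatFunc.denom_dvd`, `RatFunc.denom_div_dvd`) and `r'.denom.eval t ≠ 0`.
-/

open scoped Classical
open Polynomial

namespace Pool.Agent.LibCW77

open Pool.Agent.LibBH2
open Pool.Agent.LibCHd (VR RF Red FunF)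

variable {k : Type} [Field k]

variable {O : ValuationSubring k} {r s : RatFunc k} {r' s' r'' : RatFunc (KK O)}

private theorem NG3_res {b : O} (hb : (b : k)⁻¹ ∉ O) : rs O b = 0 := by
  rw [IsLocalRing.residue_eq_zero_iff, IsLocalRing.mem_maximalIdeal, mem_nonunits_iff]
  intro hu
  obtain ⟨v, hv⟩ := hu.exists_right_inv
  apply hb
  have h1 : (b : k) * (v : k) = 1 := by
    have := congrArg (fun x : O => (x : k)) hv
    simpa using this
  rw [inv_eq_of_mul_eq_one_right h1]
  exact v.2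

private theorem NG3_split (m : Multiset k) : ∃ (D : O[X]) (c : k), c ≠ 0 ∧
    (m.map (fun a => X - C a)).prod = C c * D.map (algebraMap O k) ∧ D.map (rs O) ≠ 0 ∧
    ∀ t : KK O, (∀ a : O, rs O a = t → (a : k) ∉ m) → (D.map (rs O)).eval t ≠ 0 := by
  induction m using Multiset.induction_on with
  | empty =>
    refine ⟨1, 1, one_ne_zero, by simp, by simp, ?_⟩
    intro t _
    simp
  | cons ρ m ih =>
    obtain ⟨D, c, hc, h1, h2, h3⟩ := ih
    by_cases hρ : ρ ∈ O
    · refine ⟨(X - C (⟨ρ, hρ⟩ : O)) * D, c, hc, ?_, ?_, ?_⟩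
      · rw [Multiset.map_cons, Multiset.prod_cons, h1, Polynomial.map_mul, Polynomial.map_sub,
          Polynomial.map_X, Polynomial.map_C]
        have : algebraMap O k ⟨ρ, hρ⟩ = ρ := rfl
        rw [this]
        ring
      · rw [Polynomial.map_mul, Polynomial.map_sub, Polynomial.map_X, Polynomial.map_C]
        exact mul_ne_zero (X_sub_C_ne_zero _) h2
      · intro t ht
        rw [Polynomial.map_mul, Polynomial.map_sub, Polynomial.map_X, Polynomial.map_C,
          Polynomial.eval_mul, Polynomial.eval_sub, Polynomial.eval_X, Polynomial.eval_C]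
        refine mul_ne_zero ?_ (h3 t fun a ha hm => ht a ha (Multiset.mem_cons_of_mem hm))
        intro h0
        have h4 : rs O ⟨ρ, hρ⟩ = t := (sub_eq_zero.1 h0).symm
        exact ht ⟨ρ, hρ⟩ h4 (Multiset.mem_cons_self ρ m)
    · have hρ0 : ρ ≠ 0 := fun h => hρ (h ▸ O.zero_mem)
      have hinv : ρ⁻¹ ∈ O := (O.mem_or_inv_mem ρ).resolve_left hρ
      have hres : rs O ⟨ρ⁻¹, hinv⟩ = 0 := by
        apply NG3_res
        show (ρ⁻¹)⁻¹ ∉ O
        rwa [inv_inv]
      have hred : ((1 : O[X]) - C (⟨ρ⁻¹, hinv⟩ : O) * X).map (rs O) = 1 := by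
        rw [Polynomial.map_sub, Polynomial.map_mul, Polynomial.map_one, Polynomial.map_C,
          Polynomial.map_X, hres, C_0, zero_mul, sub_zero]
      refine ⟨(1 - C (⟨ρ⁻¹, hinv⟩ : O) * X) * D, -ρ * c, mul_ne_zero (neg_ne_zero.2 hρ0) hc, ?_, ?_, ?_⟩
      · rw [Multiset.map_cons, Multiset.prod_cons, h1, Polynomial.map_mul, Polynomial.map_sub,
          Polynomial.map_mul, Polynomial.map_one, Polynomial.map_X, Polynomial.map_C]
        have h5 : algebraMap O k ⟨ρ⁻¹, hinv⟩ = ρ⁻¹ := rfl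
        rw [h5]
        have h6 : (C ρ : k[X]) * C ρ⁻¹ = 1 := by
          rw [← C_mul, mul_inv_cancel₀ hρ0, C_1]
        rw [C_mul, C_neg]
        linear_combination (-(C c * D.map (algebraMap O k) * X)) * h6
      · rw [Polynomial.map_mul, hred, one_mul]
        exact h2
      · intro t ht
        rw [Polynomial.map_mul, hred, one_mul]
        exact h3 t fun a ha hm => ht a ha (Multiset.mem_cons_of_mem hm)

private theorem NG3_inj {p q : O[X]} (h : p.map (algebraMap O k) = q.map (algebraMap O k)) :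
    p = q :=
  Polynomial.map_injective _ Subtype.val_injective h

private theorem NG3_scale {p : k[X]} (hp : p ≠ 0) : ∃ (β : k) (F : O[X]), β ≠ 0 ∧
    p = C β * F.map (algebraMap O k) ∧ F.map (rs O) ≠ 0 := by
  obtain ⟨β, P, hβ, h1, i, h2⟩ := pol_scale (O := O) (fun _ : Unit => p) ⟨(), hp⟩
  exact ⟨β, P (), hβ, h1 (), h2⟩

/-- comparison of contents -/
private theorem NG3_mem {β : k} {Q G : O[X]} (hG : G.map (rs O) ≠ 0)
    (h : Q.map (algebraMap O k) = C β * G.map (algebraMap O k)) : β ∈ O := by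
  by_contra hβ
  have hβ0 : β ≠ 0 := fun h => hβ (h ▸ O.zero_mem)
  have hinv : β⁻¹ ∈ O := (O.mem_or_inv_mem β).resolve_left hβ
  have hres : rs O ⟨β⁻¹, hinv⟩ = 0 := by
    apply NG3_res
    show (β⁻¹)⁻¹ ∉ O
    rwa [inv_inv]
  have h1 : C (⟨β⁻¹, hinv⟩ : O) * Q = G := by
    apply NG3_inj
    rw [Polynomial.map_mul, Polynomial.map_C, h]
    have h5 : algebraMap O k ⟨β⁻¹, hinv⟩ = β⁻¹ := rfl
    rw [h5, ← mul_assoc, ← C_mul, inv_mul_cancel₀ hβ0, C_1, one_mul]
  apply hG
  rw [← h1, Polynomial.map_mul, Polynomial.map_C, hres, C_0, zero_mul]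

theorem rd_reg [IsAlgClosed k] (h : Rd O r r') (t : KK O)
    (hr : ∀ a : O, rs O a = t → r.denom.eval (a : k) ≠ 0) : r'.denom.eval t ≠ 0 := by
  obtain ⟨P, Q, hQ, hrPQ, hr'⟩ := h
  have hd : r.denom.Monic := RatFunc.monic_denom r
  have hd0 : r.denom ≠ 0 := hd.ne_zero
  have hsplit : (r.denom.roots.map (fun a => X - C a)).prod = r.denom := by
    exact (IsAlgClosed.splits r.denom).eq_prod_roots_of_monic hd |>.symm
  obtain ⟨D, c, hc, h1, h2, h3⟩ := NG3_split (O := O) r.denom.roots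
  rw [hsplit] at h1
  have hDt : (D.map (rs O)).eval t ≠ 0 := by
    apply h3 t
    intro a ha hm
    rw [mem_roots hd0] at hm
    exact hr a ha hm
  -- P = 0
  by_cases hP0 : P = 0
  · rw [hP0, Polynomial.map_zero, map_zero, zero_div] at hr'
    rw [hr', RatFunc.denom_zero]
    simp
  have hQk : Q.map (algebraMap O k) ≠ 0 := by
    intro h0
    apply hQ
    have : Q = 0 := NG3_inj (by rw [h0, Polynomial.map_zero])
    rw [this, Polynomial.map_zero]
  have hPk : P.map (algebraMap O k) ≠ 0 := by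
    intro h0
    exact hP0 (NG3_inj (by rw [h0, Polynomial.map_zero]))
  have hr0 : r ≠ 0 := by
    rw [hrPQ]
    exact div_ne_zero ((RatFunc.algebraMap_ne_zero) hPk) ((RatFunc.algebraMap_ne_zero) hQk)
  have hn0 : r.num ≠ 0 := RatFunc.num_ne_zero hr0
  -- n Q = P d
  have hcross : r.num * Q.map (algebraMap O k) = P.map (algebraMap O k) * r.denom := by
    have h4 : algebraMap k[X] (RatFunc k) r.num / algebraMap k[X] (RatFunc k) r.denom =
        algebraMap k[X] (RatFunc k) (P.map (algebraMap O k)) /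
          algebraMap k[X] (RatFunc k) (Q.map (algebraMap O k)) := by
      rw [RatFunc.num_div_denom, ← hrPQ]
    rw [div_eq_div_iff (RatFunc.algebraMap_ne_zero hd0) (RatFunc.algebraMap_ne_zero hQk),
      ← map_mul, ← map_mul] at h4
    exact RatFunc.algebraMap_injective k h4
  have hcop : IsCoprime r.denom r.num := (RatFunc.isCoprime_num_denom r).symm
  have hdvd : r.denom ∣ Q.map (algebraMap O k) :=
    hcop.dvd_of_dvd_mul_left (Dvd.intro_left _ hcross.symm)
  obtain ⟨q2, hq2⟩ := hdvd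
  have hPn : P.map (algebraMap O k) = r.num * q2 := by
    apply mul_right_cancel₀ hd0
    rw [← hcross, hq2]
    ring
  have hq20 : q2 ≠ 0 := by
    rintro rfl
    rw [mul_zero] at hq2
    exact hQk hq2
  obtain ⟨β, F, hβ, hF, hF0⟩ := NG3_scale (O := O) hq20
  obtain ⟨γ, N, hγ, hN, hN0⟩ := NG3_scale (O := O) hn0
  -- Q = c β D F
  have hQ1 : Q.map (algebraMap O k) = C (c * β) * (D * F).map (algebraMap O k) := by
    rw [hq2, h1, hF, Polynomial.map_mul, C_mul]
    ring
  have hP1 : P.map (algebraMap O k) = C (γ * β) * (N * F).map (algebraMap O k) := by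
    rw [hPn, hN, hF, Polynomial.map_mul, C_mul]
    ring
  have m1 : c * β ∈ O := by
    refine NG3_mem (G := D * F) ?_ hQ1
    rw [Polynomial.map_mul]
    exact mul_ne_zero h2 hF0
  have m2 : γ * β ∈ O := by
    refine NG3_mem (G := N * F) ?_ hP1
    rw [Polynomial.map_mul]
    exact mul_ne_zero hN0 hF0
  have hQ2 : Q = C (⟨c * β, m1⟩ : O) * (D * F) := by
    apply NG3_inj
    rw [hQ1]
    simp only [Polynomial.map_mul, Polynomial.map_C]
    rfl
  have hP2 : P = C (⟨γ * β, m2⟩ : O) * (N * F) := by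
    apply NG3_inj
    rw [hP1]
    simp only [Polynomial.map_mul, Polynomial.map_C]
    rfl
  set u : KK O := rs O ⟨c * β, m1⟩ with hu
  set w : KK O := rs O ⟨γ * β, m2⟩ with hw
  have hQ3 : Q.map (rs O) = C u * (D.map (rs O) * F.map (rs O)) := by
    conv_lhs => rw [hQ2]
    rw [Polynomial.map_mul, Polynomial.map_mul, Polynomial.map_C]
  have hP3 : P.map (rs O) = C w * (N.map (rs O) * F.map (rs O)) := by
    conv_lhs => rw [hP2]
    rw [Polynomial.map_mul, Polynomial.map_mul, Polynomial.map_C]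
  have hu0 : u ≠ 0 := by
    intro h0
    apply hQ
    rw [hQ3, h0, C_0, zero_mul]
  have hfin : r' = algebraMap (KK O)[X] (RatFunc (KK O)) (C (w / u) * N.map (rs O)) /
      algebraMap (KK O)[X] (RatFunc (KK O)) (D.map (rs O)) := by
    rw [hr', div_eq_div_iff (RatFunc.algebraMap_ne_zero hQ) (RatFunc.algebraMap_ne_zero h2),
      ← map_mul, ← map_mul]
    congr 1
    rw [hQ3, hP3]
    have h6 : (C (w / u) : (KK O)[X]) * C u = C w := by
      rw [← C_mul, div_mul_cancel₀ _ hu0]
    rw [← h6]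
    ring
  have hdv : r'.denom ∣ D.map (rs O) := by
    rw [hfin]
    exact RatFunc.denom_div_dvd _ _
  intro h0
  obtain ⟨x, hx⟩ := hdv
  apply hDt
  rw [hx, Polynomial.eval_mul, h0, zero_mul]

end Pool.Agent.LibCW77
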