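import Pool.Agent.LibCW77.NDefs

/-!
[CW77 NI1] MEDIUM: a valuation ring over a homomorphism to characteristic 3 (Mathlib only)

`u` algebraically independent over `ℚ`, so `MvPolynomial.aeval u : MvPolynomial ι ℤ → k` is injective (`hu.restrictScalars`, or clear denominators; `ℤ → ℚ` injective).
Let `R` be its range, `𝔭 ⊂ R` the prime ideal of the `aeval u P` with `aeval w P = 0`. The local ring `R_𝔭 ⊂ k` (`LocalSubring.ofPrime`, or
`Localization.subalgebra`) is dominated by a valuation ring `O` of `k` (`LocalSubring.exists_le_valuationSubring`, `LocalSubring.isMax_iff`; search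
`exists_le_valuationSubring`). Then `aeval u P ∈ O`, and it is in the maximal ideal iff `aeval w P = 0` (elements of `R` outside `𝔭` are units of `R_𝔭`, elements
of `𝔭` are in the maximal ideal of `R_𝔭`, and domination). `P = 3`: `(3 : k)⁻¹ ∉ O`.
-/

open scoped Classical
open Polynomial

namespace Pool.Agent.LibCW77

open Pool.Agent.LibBH2
open Pool.Agent.LibCHd (VR RF Red FunF)

variable {k : Type} [Field k]

theorem exists_val {ι : Type} [Finite ι] (u : ι → k) [CharZero k] (hu : AlgebraicIndependent ℚ u) {F : Type} [Field F]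
    [CharP F 3] (w : ι → F) :
    ∃ O : ValuationSubring k, (3 : k)⁻¹ ∉ O ∧ ∀ P : MvPolynomial ι ℤ, ∃ z : O, (z : k) = MvPolynomial.aeval u P ∧
      (rs O z = 0 ↔ MvPolynomial.aeval w P = 0) := by
  classical
  have huZ : AlgebraicIndependent ℤ u :=
    AlgebraicIndependent.restrictScalars (R := ℤ) (K := ℚ) (RingHom.injective_int (algebraMap ℤ ℚ)) hu
  let φ : MvPolynomial ι ℤ →+* k := (MvPolynomial.aeval u : MvPolynomial ι ℤ →ₐ[ℤ] k).toRingHom
  have hφinj : Function.Injective φ := huZ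
  have hφ : ∀ P : MvPolynomial ι ℤ, φ P = MvPolynomial.aeval u P := fun P => rfl
  let e : MvPolynomial ι ℤ ≃+* φ.range :=
    RingEquiv.ofBijective φ.rangeRestrict
      ⟨fun a b hab => hφinj (congrArg Subtype.val hab), φ.rangeRestrict_surjective⟩
  have he : ∀ P : MvPolynomial ι ℤ, ((e P : φ.range) : k) = φ P := fun P => rfl
  let ψ : φ.range →+* F :=
    ((MvPolynomial.aeval w : MvPolynomial ι ℤ →ₐ[ℤ] F).toRingHom).comp (e.symm : φ.range ≃+* MvPolynomial ι ℤ).toRingHom
  have hψ : ∀ P : MvPolynomial ι ℤ, ψ (e P) = MvPolynomial.aeval w P := by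
    intro P
    change MvPolynomial.aeval w (e.symm (e P)) = MvPolynomial.aeval w P
    rw [RingEquiv.symm_apply_apply]
  haveI hprime : (RingHom.ker ψ).IsPrime := RingHom.ker_isPrime ψ
  let L : LocalSubring k := LocalSubring.ofPrime φ.range (RingHom.ker ψ)
  obtain ⟨O, hO⟩ := L.exists_le_valuationSubring
  obtain ⟨hle, hloc⟩ := LocalSubring.le_def.mp hO
  have hAL : φ.range ≤ L.toSubring := LocalSubring.le_ofPrime φ.range (RingHom.ker ψ)
  have key : ∀ P : MvPolynomial ι ℤ, ∃ z : O, (z : k) = MvPolynomial.aeval u P ∧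
      (rs O z = 0 ↔ MvPolynomial.aeval w P = 0) := by
    intro P
    let y : L.toSubring := Subring.inclusion hAL (e P)
    let z : O := ⟨(y : k), hle y.2⟩
    have hyz : ((Subring.inclusion hle y : O.toLocalSubring.toSubring) : k) = (z : k) := rfl
    have h1 : IsUnit y ↔ e P ∈ (RingHom.ker ψ).primeCompl := by
      have := IsLocalization.AtPrime.isUnit_to_map_iff (LocalSubring.ofPrime φ.range (RingHom.ker ψ)).toSubring
        (RingHom.ker ψ) (e P)
      exact this
    have h2 : IsUnit (Subring.inclusion hle y) ↔ IsUnit y :=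
      ⟨fun h => hloc.map_nonunit y h, fun h => h.map _⟩
    have h3 : IsUnit z ↔ IsUnit (Subring.inclusion hle y) := Iff.rfl
    refine ⟨z, rfl, ?_⟩
    have h4 : rs O z = 0 ↔ ¬ IsUnit z := by
      rw [IsLocalRing.residue_eq_zero_iff, IsLocalRing.mem_maximalIdeal, mem_nonunits_iff]
    rw [h4, h3, h2, h1]
    have h5 : e P ∈ (RingHom.ker ψ).primeCompl ↔ ¬ (ψ (e P) = 0) := by
      rw [Ideal.mem_primeCompl_iff, RingHom.mem_ker]
    rw [h5, not_not, hψ]
  refine ⟨O, ?_, key⟩
  intro h3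
  obtain ⟨z, hz, hz2⟩ := key 3
  have hw3 : (MvPolynomial.aeval w (3 : MvPolynomial ι ℤ) : F) = 0 := by
    rw [map_ofNat]
    exact_mod_cast CharP.cast_eq_zero F 3
  have hu3 : (MvPolynomial.aeval u (3 : MvPolynomial ι ℤ) : k) = 3 := by
    rw [map_ofNat]
  have h0 := hz2.mpr hw3
  rw [IsLocalRing.residue_eq_zero_iff, IsLocalRing.mem_maximalIdeal, mem_nonunits_iff] at h0
  apply h0
  have h30 : (3 : k) ≠ 0 := by exact_mod_cast (by norm_num : (3 : ℕ) ≠ 0)
  refine IsUnit.of_mul_eq_one (⟨(3 : k)⁻¹, h3⟩ : O) ?_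
  apply Subtype.ext
  change (z : k) * (3 : k)⁻¹ = 1
  rw [hz, hu3]
  exact mul_inv_cancel₀ h30

end Pool.Agent.LibCW77
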