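import Pool.Agent.LibCW77.NI1

/-!
[CW77 NI2] STRONG: algebraically independent branch points

`exists_val` with `F` a field of characteristic `3` with `i ^ 2 = -1` (`AlgebraicClosure (ZMod 3)` or `GaloisField 3 2`) and
`w = Sum.elim ![i, 1 + i, 1 - i] ![-i, -1 + i, -1 - i]` (so `b_l = 1 / a_l`). All relations between the residues follow from those in `F`: in `κ = KK O`, with
`I = rs O a_0`: `I ^ 2 = -1`, the residues of `a_1, a_2, b_0, b_1, b_2` are `1 + I, 1 - I, -I, -1 + I, -1 - I`. All differences are units. The residues of `ka` are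
`(-I, -I, I)` and of `kb` `(I, -I, I)`. `Hp` has the reduction `I (X ^ 6 - 1)`, so its coefficient `6` is a unit. A flex with `x = none` would make the coefficient `6`
zero. For a flex `(some x, z)`: `Hp(x) = 0` so `x ∈ O` and its residue is `1` or `-1` (`X ^ 6 - 1 = (X ^ 2 - 1) ^ 3`); with
`S_0 = ka_0 (a_0 - x)^3 + kb_0 (b_0 - x)^3`, `T_0 = ka_0 a_0 (a_0 - x)^3 + kb_0 b_0 (b_0 - x)^3` the residues of `S_0` and `T_0` are `1`, `1` for `x = 1` and
`1`, `-1` for `x = -1`; `z = none` would give `S_0(x) = 0`; `z = some y`, `y = T_0 / S_0 ∈ O` with the residue `1`, resp. `-1`. The residue of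
`A' B - A B'` at `1` and `-1` is `1 + I`, of `A` is `1 - I`, `1 + I`, of `B` is `-1 - I`, `-1 + I`; never `0` (`I ^ 2 = -1`). (Computed by program over `F_9`.)
-/

open scoped Classical
open Polynomial

namespace Pool.Agent.LibCW77

open Pool.Agent.LibBH2
open Pool.Agent.LibCHd (VR RF Red FunF)

variable {k : Type} [Field k]

/-- elements `x + y I` of a field of characteristic 3 with `I ^ 2 = -1` -/
private theorem NI2_nz {F : Type} [Field F] {I : F} (hI : I ^ 2 + 1 = 0) (h3 : (3 : F) = 0) (x y : ℤ)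
    (h : ¬ (3 : ℤ) ∣ x ^ 2 + y ^ 2) : (x : F) + y * I ≠ 0 := by
  intro h0
  have h1 : ((x ^ 2 + y ^ 2 : ℤ) : F) = 0 := by
    have h2 : ((x : F) + y * I) * ((x : F) - y * I) = 0 := by rw [h0, zero_mul]
    push_cast
    linear_combination h2 + (y : F) ^ 2 * hI
  obtain ⟨q, hq⟩ : ∃ q : ℤ, x ^ 2 + y ^ 2 = 3 * q + 1 ∨ x ^ 2 + y ^ 2 = 3 * q + 2 := by
    refine ⟨(x ^ 2 + y ^ 2) / 3, ?_⟩
    omega
  rcases hq with hq | hq
  · rw [hq] at h1
    push_cast at h1
    have h4 : (1 : F) = 0 := by linear_combination h1 - (q : F) * h3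
    exact one_ne_zero h4
  · rw [hq] at h1
    push_cast at h1
    have h4 : (1 : F) = 0 := by linear_combination (-1) * h1 + ((q : F) + 1) * h3
    exact one_ne_zero h4

/-- an element of `O` with an invertible residue -/
private theorem NI2_unit (O : ValuationSubring k) (d : O) (ε : KK O) (h : rs O d * ε = 1) :
    ∃ p : O, (p : k) = (d : k)⁻¹ ∧ rs O p = ε ∧ (d : k) ≠ 0 := by
  have h0 : rs O d ≠ 0 := by
    intro h0
    rw [h0, zero_mul] at h
    exact zero_ne_one h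
  have hu : IsUnit d := (IsLocalRing.residue_ne_zero_iff_isUnit d).1 h0
  obtain ⟨p, hp⟩ := hu.exists_right_inv
  have hp' : (d : k) * (p : k) = 1 := by
    have := congrArg (fun z : O => (z : k)) hp
    simpa using this
  refine ⟨p, eq_inv_of_mul_eq_one_right hp', ?_, left_ne_zero_of_mul_eq_one hp'⟩
  have h1 : rs O d * rs O p = 1 := by
    rw [← map_mul, hp, map_one]
  calc rs O p = (rs O d * ε) * rs O p := by rw [h, one_mul]
    _ = ε * (rs O d * rs O p) := by ring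
    _ = ε := by rw [h1, mul_one]

private theorem NI2_inv_mem (O : ValuationSubring k) (d : O) (ε : KK O) (h : rs O d * ε = 1) :
    (d : k) ≠ 0 ∧ (d : k)⁻¹ ∈ O := by
  obtain ⟨p, hp, -, h0⟩ := NI2_unit O d ε h
  refine ⟨h0, ?_⟩
  rw [← hp]
  exact p.2

private theorem NI2_inv_mem' (O : ValuationSubring k) (d : O) (h : rs O d ≠ 0) :
    (d : k) ≠ 0 ∧ (d : k)⁻¹ ∈ O := NI2_inv_mem O d (rs O d)⁻¹ (mul_inv_cancel₀ h)

/-- the reduction of the six numbers -/
private theorem NI2_red [CharZero k] {c : Dat k} (h : AlgebraicIndependent ℚ (Sum.elim c.a c.b)) :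
    ∃ (O : ValuationSubring k) (I : KK O) (a0 a1 a2 b0 b1 b2 : O), (3 : k)⁻¹ ∉ O ∧ I ^ 2 + 1 = 0 ∧
      (3 : KK O) = 0 ∧ (a0 : k) = c.a 0 ∧ (a1 : k) = c.a 1 ∧ (a2 : k) = c.a 2 ∧
      (b0 : k) = c.b 0 ∧ (b1 : k) = c.b 1 ∧ (b2 : k) = c.b 2 ∧
      rs O a0 = I ∧ rs O a1 = 1 + I ∧ rs O a2 = 1 - I ∧ rs O b0 = -I ∧ rs O b1 = -1 + I ∧ rs O b2 = -1 - I := by
  obtain ⟨i, hi⟩ : ∃ i : AlgebraicClosure (ZMod 3), i ^ 2 = -1 := IsAlgClosed.exists_pow_nat_eq (-1) two_pos
  obtain ⟨O, h3, hO⟩ := exists_val (Sum.elim c.a c.b) h (Sum.elim ![i, 1 + i, 1 - i] ![-i, -1 + i, -1 - i])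
  have hX : ∀ s : Fin 3 ⊕ Fin 3, ∃ z : O, (z : k) = Sum.elim c.a c.b s := by
    intro s
    obtain ⟨z, hz, -⟩ := hO (MvPolynomial.X s)
    rw [MvPolynomial.aeval_X] at hz
    exact ⟨z, hz⟩
  choose α hα using hX
  have key : ∀ P : MvPolynomial (Fin 3 ⊕ Fin 3) ℤ,
      MvPolynomial.aeval (Sum.elim ![i, 1 + i, 1 - i] ![-i, -1 + i, -1 - i]) P = 0 →
      MvPolynomial.aeval (fun s => rs O (α s)) P = 0 := by
    intro P hP
    obtain ⟨z, hz, hz'⟩ := hO P
    have h1 : (algebraMap O k) (MvPolynomial.aeval α P) = (z : k) := by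
      rw [← MvPolynomial.aeval_algebraMap_apply, hz]
      congr 2
      funext s
      exact hα s
    have h2 : MvPolynomial.aeval α P = z := Subtype.ext h1
    have h3 : (algebraMap O (KK O)) (MvPolynomial.aeval α P) = 0 := by
      rw [h2]
      exact hz'.2 hP
    rw [← MvPolynomial.aeval_algebraMap_apply] at h3
    exact h3
  have hthree : (3 : KK O) = 0 := by
    have h1 := key (MvPolynomial.C 3) (by
      rw [MvPolynomial.aeval_C]
      have h2 : ((3 : ℕ) : AlgebraicClosure (ZMod 3)) = 0 := CharP.cast_eq_zero _ 3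
      simpa using h2)
    rw [MvPolynomial.aeval_C] at h1
    simpa using h1
  have e0 : (rs O (α (Sum.inl 0))) ^ 2 + 1 = 0 := by
    have h1 := key (MvPolynomial.X (Sum.inl 0) ^ 2 + 1) (by
      simp [hi])
    simpa using h1
  have e1 : rs O (α (Sum.inl 1)) = 1 + rs O (α (Sum.inl 0)) := by
    have h1 := key (MvPolynomial.X (Sum.inl 1) - (1 + MvPolynomial.X (Sum.inl 0))) (by
      simp)
    simp only [map_sub, map_add, map_one, MvPolynomial.aeval_X] at h1
    exact sub_eq_zero.1 h1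
  have e2 : rs O (α (Sum.inl 2)) = 1 - rs O (α (Sum.inl 0)) := by
    have h1 := key (MvPolynomial.X (Sum.inl 2) - (1 - MvPolynomial.X (Sum.inl 0))) (by
      simp)
    simp only [map_sub, map_add, map_one, MvPolynomial.aeval_X] at h1
    exact sub_eq_zero.1 h1
  have e3 : rs O (α (Sum.inr 0)) = - rs O (α (Sum.inl 0)) := by
    have h1 := key (MvPolynomial.X (Sum.inr 0) - (- MvPolynomial.X (Sum.inl 0))) (by
      simp)
    simp only [map_sub, map_neg, MvPolynomial.aeval_X] at h1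
    exact sub_eq_zero.1 h1
  have e4 : rs O (α (Sum.inr 1)) = -1 + rs O (α (Sum.inl 0)) := by
    have h1 := key (MvPolynomial.X (Sum.inr 1) - (-1 + MvPolynomial.X (Sum.inl 0))) (by
      simp)
    simp only [map_sub, map_add, map_neg, map_one, MvPolynomial.aeval_X] at h1
    exact sub_eq_zero.1 h1
  have e5 : rs O (α (Sum.inr 2)) = -1 - rs O (α (Sum.inl 0)) := by
    have h1 := key (MvPolynomial.X (Sum.inr 2) - (-1 - MvPolynomial.X (Sum.inl 0))) (by
      simp)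
    simp only [map_sub, map_neg, map_one, MvPolynomial.aeval_X] at h1
    exact sub_eq_zero.1 h1
  exact ⟨O, rs O (α (Sum.inl 0)), α (Sum.inl 0), α (Sum.inl 1), α (Sum.inl 2), α (Sum.inr 0), α (Sum.inr 1),
    α (Sum.inr 2), h3, e0, hthree, hα _, hα _, hα _, hα _, hα _, hα _, rfl, e1, e2, e3, e4, e5⟩

private theorem NI2_ka0 (c : Dat k) : ka c 0 = ((c.a 0 - c.a 1) * (c.a 0 - c.a 2) *
    ((c.a 0 - c.b 0) * (c.a 0 - c.b 1) * (c.a 0 - c.b 2)))⁻¹ := by
  have h : (Finset.univ : Finset (Fin 3)).erase 0 = {1, 2} := by decide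
  rw [ka, h, Finset.prod_pair (by decide), Fin.prod_univ_three]

private theorem NI2_ka1 (c : Dat k) : ka c 1 = ((c.a 1 - c.a 0) * (c.a 1 - c.a 2) *
    ((c.a 1 - c.b 0) * (c.a 1 - c.b 1) * (c.a 1 - c.b 2)))⁻¹ := by
  have h : (Finset.univ : Finset (Fin 3)).erase 1 = {0, 2} := by decide
  rw [ka, h, Finset.prod_pair (by decide), Fin.prod_univ_three]

private theorem NI2_kb0 (c : Dat k) : kb c 0 = ((c.b 0 - c.a 0) * (c.b 0 - c.a 1) * (c.b 0 - c.a 2) *
    ((c.b 0 - c.b 1) * (c.b 0 - c.b 2)))⁻¹ := by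
  have h : (Finset.univ : Finset (Fin 3)).erase 0 = {1, 2} := by decide
  rw [kb, h, Finset.prod_pair (by decide), Fin.prod_univ_three]

private theorem NI2_kb1 (c : Dat k) : kb c 1 = ((c.b 1 - c.a 0) * (c.b 1 - c.a 1) * (c.b 1 - c.a 2) *
    ((c.b 1 - c.b 0) * (c.b 1 - c.b 2)))⁻¹ := by
  have h : (Finset.univ : Finset (Fin 3)).erase 1 = {0, 2} := by decide
  rw [kb, h, Finset.prod_pair (by decide), Fin.prod_univ_three]

/-- the polynomial of the flexes for arbitrary coefficients -/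
private noncomputable def NI2_H {R : Type} [CommRing R] (a0 a1 b0 b1 p0 p1 q0 q1 : R) : R[X] :=
  (C p0 * (C a0 - X) ^ 3 + C q0 * (C b0 - X) ^ 3) * (C (p1 * a1) * (C a1 - X) ^ 3 + C (q1 * b1) * (C b1 - X) ^ 3) -
    (C p1 * (C a1 - X) ^ 3 + C q1 * (C b1 - X) ^ 3) * (C (p0 * a0) * (C a0 - X) ^ 3 + C (q0 * b0) * (C b0 - X) ^ 3)

private theorem NI2_H_map {R S : Type} [CommRing R] [CommRing S] (f : R →+* S) (a0 a1 b0 b1 p0 p1 q0 q1 : R) :
    (NI2_H a0 a1 b0 b1 p0 p1 q0 q1).map f = NI2_H (f a0) (f a1) (f b0) (f b1) (f p0) (f p1) (f q0) (f q1) := by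
  simp only [NI2_H, Polynomial.map_sub, Polynomial.map_mul, Polynomial.map_add, Polynomial.map_pow, Polynomial.map_C,
    Polynomial.map_X, map_mul]

private theorem NI2_H_eq (c : Dat k) : Hp c =
    NI2_H (c.a 0) (c.a 1) (c.b 0) (c.b 1) (ka c 0) (ka c 1) (kb c 0) (kb c 1) := rfl

private theorem NI2_H_deg {R : Type} [CommRing R] (a0 a1 b0 b1 p0 p1 q0 q1 : R) :
    (NI2_H a0 a1 b0 b1 p0 p1 q0 q1).natDegree ≤ 6 := by
  unfold NI2_H
  compute_degree

private theorem NI2_H_eval {R : Type} [CommRing R] (a0 a1 b0 b1 p0 p1 q0 q1 x : R) :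
    (NI2_H a0 a1 b0 b1 p0 p1 q0 q1).eval x =
      (p0 * (a0 - x) ^ 3 + q0 * (b0 - x) ^ 3) * (p1 * a1 * (a1 - x) ^ 3 + q1 * b1 * (b1 - x) ^ 3) -
    (p1 * (a1 - x) ^ 3 + q1 * (b1 - x) ^ 3) * (p0 * a0 * (a0 - x) ^ 3 + q0 * b0 * (b0 - x) ^ 3) := by
  simp only [NI2_H, eval_sub, eval_mul, eval_add, eval_pow, eval_C, eval_X]

private theorem NI2_c3 {R : Type} [CommRing R] (a : R) : ((C a - X : R[X]) ^ 3).coeff 3 = -1 := by
  have h := coeff_pow_of_natDegree_le (p := (C a - X : R[X])) (n := 1) (m := 3) (by compute_degree)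
  have h1 : (C a - X : R[X]).coeff 1 = -1 := by
    rw [coeff_sub, coeff_C, coeff_X_one, if_neg one_ne_zero, zero_sub]
  rw [h1] at h
  rw [show (3 : ℕ) = 3 * 1 from rfl] at *
  rw [h]
  ring

private theorem NI2_P3 {R : Type} [CommRing R] (a b p q : R) :
    (C p * (C a - X) ^ 3 + C q * (C b - X) ^ 3).coeff 3 = -(p + q) := by
  rw [coeff_add, coeff_C_mul, coeff_C_mul, NI2_c3, NI2_c3]
  ring

private theorem NI2_coef {R : Type} [CommRing R] (a0 a1 b0 b1 p0 p1 q0 q1 : R) :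
    (NI2_H a0 a1 b0 b1 p0 p1 q0 q1).coeff 6 = (p0 + q0) * (p1 * a1 + q1 * b1) - (p1 + q1) * (p0 * a0 + q0 * b0) := by
  unfold NI2_H
  rw [coeff_sub, show (6 : ℕ) = 3 + 3 from rfl, coeff_mul_add_eq_of_natDegree_le (by compute_degree) (by compute_degree),
    coeff_mul_add_eq_of_natDegree_le (by compute_degree) (by compute_degree), NI2_P3, NI2_P3, NI2_P3, NI2_P3]
  ring

private theorem NI2_H_red {F : Type} [Field F] {I : F} (hI : I ^ 2 + 1 = 0) (h3 : (3 : F) = 0) :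
    NI2_H I (1 + I) (-I) (-1 + I) (-I) (-I) I (-I) = C I * (X ^ 6 - 1) := by
  have hI' : (C I : F[X]) ^ 2 + 1 = 0 := by
    rw [← C_pow, ← C_1, ← C_add, hI, C_0]
  have h3' : (3 : F[X]) = 0 := by
    rw [← map_ofNat (C : F →+* F[X]) 3, h3, C_0]
  simp only [NI2_H, C_add, C_neg, C_mul, C_1]
  generalize (C I : F[X]) = J at hI' ⊢
  linear_combination (96*X^3 + 16*J + (-48)*J*X^2 + 12*J*X^4 + (-4)*J*X^6 + (-96)*J^2*X^3 + (-16)*J^3 + 60*J^3*X^2 + 12*J^3*X^4 + 20*J^5 + (-12)*J^5*X^2 + 4*J^7) * hI' + ((-32)*X^3 + (-5)*J + 16*J*X^2 + (-4)*J*X^4 + J*X^6) * h3'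

private theorem NI2_W_eval (c : Dat k) (y : k) : (Wp c).eval y =
    ((y - c.a 0) * (y - c.a 1) * (y - c.a 2)) * ((y - c.b 0) * (y - c.b 1) * (y - c.b 2)) *
      (((y - c.a 1) * (y - c.a 2) + (y - c.a 0) * (y - c.a 2) + (y - c.a 0) * (y - c.a 1)) *
        ((y - c.b 0) * (y - c.b 1) * (y - c.b 2)) -
      ((y - c.a 0) * (y - c.a 1) * (y - c.a 2)) *
        ((y - c.b 1) * (y - c.b 2) + (y - c.b 0) * (y - c.b 2) + (y - c.b 0) * (y - c.b 1))) := by
  simp only [Wp, Ap, Bp, Fin.prod_univ_three, derivative_mul, derivative_sub, derivative_X, derivative_C, sub_zero,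
    one_mul, mul_one, eval_mul, eval_sub, eval_add, eval_X, eval_C]
  ring

theorem indep_sep [IsAlgClosed k] [CharZero k] {c : Dat k} (hc : c.Good)
    (h : AlgebraicIndependent ℚ (Sum.elim c.a c.b)) : ∃ O : ValuationSubring k, Sep O c := by
  obtain ⟨O, I, a0, a1, a2, b0, b1, b2, hthree, hI, h3, ha0, ha1, ha2, hb0, hb1, hb2, ra0, ra1, ra2, rb0, rb1, rb2⟩ :=
    NI2_red h
  refine ⟨O, ?_⟩
  -- the coefficients
  obtain ⟨p0, hp0, rp0, -⟩ := NI2_unit O ((a0 - a1) * (a0 - a2) * ((a0 - b0) * (a0 - b1) * (a0 - b2))) (-I) (by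
    simp only [map_mul, map_sub, ra0, ra1, ra2, rb0, rb1, rb2]
    linear_combination ((-10) + 8*I^2) * hI + (3) * h3)
  obtain ⟨q0, hq0, rq0, -⟩ := NI2_unit O ((b0 - a0) * (b0 - a1) * (b0 - a2) * ((b0 - b1) * (b0 - b2))) I (by
    simp only [map_mul, map_sub, ra0, ra1, ra2, rb0, rb1, rb2]
    linear_combination ((-10) + 8*I^2) * hI + (3) * h3)
  obtain ⟨p1, hp1, rp1, -⟩ := NI2_unit O ((a1 - a0) * (a1 - a2) * ((a1 - b0) * (a1 - b1) * (a1 - b2))) (-I) (by
    simp only [map_mul, map_sub, ra0, ra1, ra2, rb0, rb1, rb2]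
    linear_combination (8 + (-24)*I + (-16)*I^2) * hI + ((-3) + 8*I) * h3)
  obtain ⟨q1, hq1, rq1, -⟩ := NI2_unit O ((b1 - a0) * (b1 - a1) * (b1 - a2) * ((b1 - b0) * (b1 - b2))) (-I) (by
    simp only [map_mul, map_sub, ra0, ra1, ra2, rb0, rb1, rb2]
    linear_combination (8 + 24*I + (-16)*I^2) * hI + ((-3) + (-8)*I) * h3)
  have kp0 : (p0 : k) = ka c 0 := by
    rw [hp0, NI2_ka0, ← ha0, ← ha1, ← ha2, ← hb0, ← hb1, ← hb2]
    push_cast
    rfl
  have kq0 : (q0 : k) = kb c 0 := by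
    rw [hq0, NI2_kb0, ← ha0, ← ha1, ← ha2, ← hb0, ← hb1, ← hb2]
    push_cast
    rfl
  have kp1 : (p1 : k) = ka c 1 := by
    rw [hp1, NI2_ka1, ← ha0, ← ha1, ← ha2, ← hb0, ← hb1, ← hb2]
    push_cast
    rfl
  have kq1 : (q1 : k) = kb c 1 := by
    rw [hq1, NI2_kb1, ← ha0, ← ha1, ← ha2, ← hb0, ← hb1, ← hb2]
    push_cast
    rfl
  -- the polynomial of the flexes
  have hHk : (NI2_H a0 a1 b0 b1 p0 p1 q0 q1).map (algebraMap O k) = Hp c := by
    rw [NI2_H_map, NI2_H_eq, ← kp0, ← kq0, ← kp1, ← kq1, ← ha0, ← ha1, ← hb0, ← hb1]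
    rfl
  have hHr : (NI2_H a0 a1 b0 b1 p0 p1 q0 q1).map (rs O) = C I * (X ^ 6 - 1) := by
    rw [NI2_H_map, rp0, rq0, rp1, rq1, ra0, ra1, rb0, rb1, NI2_H_red hI h3]
  have hc6 : rs O ((NI2_H a0 a1 b0 b1 p0 p1 q0 q1).coeff 6) = I := by
    rw [← coeff_map, hHr, coeff_C_mul, coeff_sub, coeff_X_pow, coeff_one]
    simp
  have hc6k : (((NI2_H a0 a1 b0 b1 p0 p1 q0 q1).coeff 6 : O) : k) = (Hp c).coeff 6 := by
    rw [← hHk, coeff_map]
    rfl
  obtain ⟨u, hu, -, hc60⟩ := NI2_unit O ((NI2_H a0 a1 b0 b1 p0 p1 q0 q1).coeff 6) (-I) (by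
    rw [hc6]
    linear_combination (-1) * hI)
  have hinvI := NI2_nz hI h3
  -- the six numbers
  have hval : ∀ s : Fin 3 ⊕ Fin 3, ∃ (z : O) (x y : ℤ), (z : k) = Sum.elim c.a c.b s ∧ rs O z = (x : KK O) + y * I ∧
      (x, y) = Sum.elim ![((0 : ℤ), (1 : ℤ)), (1, 1), (1, -1)] ![((0 : ℤ), (-1 : ℤ)), (-1, 1), (-1, -1)] s := by
    rintro (s | s) <;> fin_cases s
    · exact ⟨a0, 0, 1, ha0, by rw [ra0]; push_cast; ring, rfl⟩
    · exact ⟨a1, 1, 1, ha1, by rw [ra1]; push_cast; ring, rfl⟩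
    · exact ⟨a2, 1, -1, ha2, by rw [ra2]; push_cast; ring, rfl⟩
    · exact ⟨b0, 0, -1, hb0, by rw [rb0]; push_cast; ring, rfl⟩
    · exact ⟨b1, -1, 1, hb1, by rw [rb1]; push_cast; ring, rfl⟩
    · exact ⟨b2, -1, -1, hb2, by rw [rb2]; push_cast; ring, rfl⟩
  refine ⟨hthree, ?_, ?_, ?_, ?_, ?_⟩
  · intro s
    obtain ⟨z, -, -, hz, -⟩ := hval s
    rw [← hz]
    exact z.2
  · intro s t hst
    obtain ⟨z, x, y, hz, hr, hxy⟩ := hval s
    obtain ⟨z', x', y', hz', hr', hxy'⟩ := hval t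
    have h1 : rs O (z - z') ≠ 0 := by
      rw [map_sub, hr, hr']
      have h2 : ((x : KK O) + y * I) - ((x' : KK O) + y' * I) = ((x - x' : ℤ) : KK O) + ((y - y' : ℤ) : KK O) * I := by
        push_cast
        ring
      rw [h2]
      apply NI2_nz hI h3
      have h4 : ∀ s t : Fin 3 ⊕ Fin 3, s ≠ t → ¬ (3 : ℤ) ∣
          ((Sum.elim ![((0 : ℤ), (1 : ℤ)), (1, 1), (1, -1)] ![((0 : ℤ), (-1 : ℤ)), (-1, 1), (-1, -1)] s).1 -
          (Sum.elim ![((0 : ℤ), (1 : ℤ)), (1, 1), (1, -1)] ![((0 : ℤ), (-1 : ℤ)), (-1, 1), (-1, -1)] t).1) ^ 2 +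
          ((Sum.elim ![((0 : ℤ), (1 : ℤ)), (1, 1), (1, -1)] ![((0 : ℤ), (-1 : ℤ)), (-1, 1), (-1, -1)] s).2 -
          (Sum.elim ![((0 : ℤ), (1 : ℤ)), (1, 1), (1, -1)] ![((0 : ℤ), (-1 : ℤ)), (-1, 1), (-1, -1)] t).2) ^ 2 := by
        decide
      have h5 := h4 s t hst
      rw [← hxy, ← hxy'] at h5
      exact h5
    have h2 := (NI2_inv_mem' O (z - z') h1).2
    rw [← hz, ← hz']
    exact h2
  · rw [← hc6k]
    exact hc60
  · rw [← hc6k, ← hu]
    exact u.2
  · intro x z hf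
    have f0 := hf 0
    have f1 := hf 1
    rw [← kp0, ← kq0, ← ha0, ← hb0] at f0
    rw [← kp1, ← kq1, ← ha1, ← hb1] at f1
    have hcoef : (((NI2_H a0 a1 b0 b1 p0 p1 q0 q1).coeff 6 : O) : k) =
        ((p0 : k) + q0) * ((p1 : k) * a1 + q1 * b1) - ((p1 : k) + q1) * ((p0 : k) * a0 + q0 * b0) := by
      rw [NI2_coef]
      push_cast
      rfl
    cases x with
    | none =>
      exfalso
      apply hc60
      rw [hcoef]
      cases z with
      | none =>
        simp only [ev, one_pow, mul_one] at f0 f1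
        rw [f0, f1]
        ring
      | some y =>
        simp only [ev, one_pow, one_mul] at f0 f1
        linear_combination ((p1 : k) + q1) * (-1) * f0 + ((p0 : k) + q0) * f1
    | some x =>
      have hx0 : (Hp c).eval x = 0 := by
        rw [NI2_H_eq, NI2_H_eval, ← kp0, ← kq0, ← kp1, ← kq1, ← ha0, ← ha1, ← hb0, ← hb1]
        cases z with
        | none =>
          simp only [ev, mul_one] at f0 f1
          rw [f0, f1]
          ring
        | some y =>
          simp only [ev] at f0 f1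
          linear_combination ((p1 : k) * ((a1 : k) - x) ^ 3 + q1 * ((b1 : k) - x) ^ 3) * (-1) * f0 +
            ((p0 : k) * ((a0 : k) - x) ^ 3 + q0 * ((b0 : k) - x) ^ 3) * f1
      -- x is in O
      have hxO : IsIntegral O x := by
        refine ⟨C u * NI2_H a0 a1 b0 b1 p0 p1 q0 q1, ?_, ?_⟩
        · refine monic_of_natDegree_le_of_coeff_eq_one 6
            ((natDegree_C_mul_le _ _).trans (NI2_H_deg _ _ _ _ _ _ _ _)) ?_
          rw [coeff_C_mul]
          apply Subtype.ext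
          show (u : k) * (((NI2_H a0 a1 b0 b1 p0 p1 q0 q1).coeff 6 : O) : k) = 1
          rw [hu, inv_mul_cancel₀ hc60]
        · rw [← eval_map, Polynomial.map_mul, hHk, eval_mul, hx0, mul_zero]
      obtain ⟨ξ, hξ⟩ := IsIntegrallyClosed.isIntegral_iff.1 hxO
      have hξ' : (ξ : k) = x := hξ
      have hξ0 : (NI2_H a0 a1 b0 b1 p0 p1 q0 q1).eval ξ = 0 := by
        apply Subtype.ext
        show algebraMap O k _ = 0
        rw [← eval_map_apply, hHk, hξ, hx0]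
      have hξr : rs O ξ = 1 ∨ rs O ξ = -1 := by
        have h1 : ((NI2_H a0 a1 b0 b1 p0 p1 q0 q1).map (rs O)).eval (rs O ξ) = 0 := by
          rw [eval_map_apply, hξ0, map_zero]
        rw [hHr, eval_mul, eval_C, eval_sub, eval_pow, eval_X, eval_one] at h1
        have h2 : rs O ξ ^ 6 - 1 = 0 := by
          linear_combination (-I) * h1 + (rs O ξ ^ 6 - 1) * hI
        have h4 : (rs O ξ ^ 2 - 1) ^ 3 = 0 := by
          linear_combination h2 - (rs O ξ ^ 4 - rs O ξ ^ 2) * h3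
        have h5 := pow_eq_zero_iff (three_ne_zero) |>.1 h4
        have h6 : (rs O ξ - 1) * (rs O ξ + 1) = 0 := by linear_combination h5
        rcases mul_eq_zero.1 h6 with h7 | h7
        · exact Or.inl (sub_eq_zero.1 h7)
        · exact Or.inr (eq_neg_of_add_eq_zero_left h7)
      -- the numbers S and T
      have hS : rs O (p0 * (a0 - ξ) ^ 3 + q0 * (b0 - ξ) ^ 3) * 1 = 1 := by
        simp only [map_mul, map_add, map_sub, map_pow, rp0, rq0, ra0, rb0]
        generalize rs O ξ = x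
        linear_combination (2 + (-6)*x^2 + (-2)*I^2) * hI + ((-1) + 2*x^2) * h3
      obtain ⟨s', hs', rs', hs0⟩ := NI2_unit O _ 1 hS
      have hT : rs O (p0 * a0 * (a0 - ξ) ^ 3 + q0 * b0 * (b0 - ξ) ^ 3) = rs O ξ ^ 3 := by
        simp only [map_mul, map_add, map_sub, map_pow, rp0, rq0, ra0, rb0]
        generalize rs O ξ = x
        linear_combination ((-6)*x + 2*x^3 + 6*I^2*x) * hI + (2*x + (-1)*x^3) * h3
      have hSk : ((p0 * (a0 - ξ) ^ 3 + q0 * (b0 - ξ) ^ 3 : O) : k) =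
          (p0 : k) * ((a0 : k) - x) ^ 3 + q0 * ((b0 : k) - x) ^ 3 := by
        rw [← hξ']
        push_cast
        rfl
      cases z with
      | none =>
        exfalso
        simp only [ev, mul_one] at f0
        rw [hSk] at hs0
        exact hs0 f0
      | some y =>
        simp only [ev] at f0
        have hy : y = (((p0 * a0 * (a0 - ξ) ^ 3 + q0 * b0 * (b0 - ξ) ^ 3) * s' : O) : k) := by
          have h1 : ((p0 : k) * a0 * ((a0 : k) - x) ^ 3 + q0 * b0 * ((b0 : k) - x) ^ 3) =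
              y * ((p0 : k) * ((a0 : k) - x) ^ 3 + q0 * ((b0 : k) - x) ^ 3) := by
            linear_combination f0
          have h2 : (((p0 * a0 * (a0 - ξ) ^ 3 + q0 * b0 * (b0 - ξ) ^ 3) * s' : O) : k) =
              ((p0 : k) * a0 * ((a0 : k) - x) ^ 3 + q0 * b0 * ((b0 : k) - x) ^ 3) * (s' : k) := by
            rw [← hξ']
            push_cast
            rfl
          rw [hSk] at hs' hs0
          rw [h2, h1, hs', mul_assoc, mul_inv_cancel₀ hs0, mul_one]
        have hyr : rs O ((p0 * a0 * (a0 - ξ) ^ 3 + q0 * b0 * (b0 - ξ) ^ 3) * s') = rs O ξ ^ 3 := by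
          rw [map_mul, hT, rs', mul_one]
        obtain ⟨η, hη⟩ : ∃ η : O, η = (p0 * a0 * (a0 - ξ) ^ 3 + q0 * b0 * (b0 - ξ) ^ 3) * s' := ⟨_, rfl⟩
        rw [← hη] at hy hyr
        have hηr : rs O η = 1 ∨ rs O η = -1 := by
          rcases hξr with h1 | h1
          · left
            rw [hyr, h1]
            ring
          · right
            rw [hyr, h1]
            ring
        have hW : ((((η - a0) * (η - a1) * (η - a2)) * ((η - b0) * (η - b1) * (η - b2)) *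
            (((η - a1) * (η - a2) + (η - a0) * (η - a2) + (η - a0) * (η - a1)) *
              ((η - b0) * (η - b1) * (η - b2)) -
            ((η - a0) * (η - a1) * (η - a2)) *
              ((η - b1) * (η - b2) + (η - b0) * (η - b2) + (η - b0) * (η - b1))) : O) : k) = (Wp c).eval y := by
          rw [NI2_W_eval, hy, ← ha0, ← ha1, ← ha2, ← hb0, ← hb1, ← hb2]
          push_cast
          rfl
        have hWr : rs O (((η - a0) * (η - a1) * (η - a2)) * ((η - b0) * (η - b1) * (η - b2)) *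
            (((η - a1) * (η - a2) + (η - a0) * (η - a2) + (η - a0) * (η - a1)) *
              ((η - b0) * (η - b1) * (η - b2)) -
            ((η - a0) * (η - a1) * (η - a2)) *
              ((η - b1) * (η - b2) + (η - b0) * (η - b2) + (η - b0) * (η - b1)))) * (I - 1) = 1 := by
          simp only [map_mul, map_add, map_sub, ra0, ra1, ra2, rb0, rb1, rb2]
          rcases hηr with h1 | h1
          · rw [h1]
            linear_combination (20 + 180*I + (-20)*I^2 + (-180)*I^3 + 36*I^4 + 132*I^5 + (-40)*I^6 + (-48)*I^7 + 16*I^8 + 6*I^9 + (-2)*I^10) * hI + ((-7) + (-60)*I) * h3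
          · rw [h1]
            linear_combination (20 + 180*I + (-20)*I^2 + (-180)*I^3 + 36*I^4 + 132*I^5 + (-40)*I^6 + (-48)*I^7 + 16*I^8 + 6*I^9 + (-2)*I^10) * hI + ((-7) + (-60)*I) * h3
        obtain ⟨w1, w2⟩ := NI2_inv_mem O _ _ hWr
        rw [hW] at w1 w2
        refine ⟨y, ?_, rfl, w1, w2⟩
        rw [hy]
        exact η.2

end Pool.Agent.LibCW77
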