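import Pool.Agent.LibCW77.NG1

/-!
[CW77 NP] STRONG: powers

Write `ρ = j r1 * v + j r2 * v ^ 2` and `β` for its image. (1) `M` with `rs O M ≠ 0` (`3 ∤ M`: `(M : O)` is a unit, because `rs O 3 = 0` and `M`, `3` are coprime):
by induction on `M` (no condition) `(1 + β ρ) ^ M = 1 + M β ρ + β ^ 2 (j u0 + j u1 * v + j u2 * v ^ 2)` where `u0 u1 u2` have reductions (expand products with
`v ^ 3 = j f`); with `Z = 1 + β ^ 2 u0` (reduction `1`) and `s_l = (r_l + β M⁻¹ u_l) / Z`. (2) Cube: with `f`,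
`(1 + β ρ) ^ 3 = Z + 3 β (t1 * v + t2 * v ^ 2)`, `Z = 1 + 6 β ^ 2 f r1 r2 + β ^ 3 (f r1 ^ 3 + f ^ 2 r2 ^ 3)`, `t1 = r1 + β f r2 ^ 2 + β ^ 2 f r1 ^ 2 r2`,
`t2 = r2 + β r1 ^ 2 + β ^ 2 f r1 r2 ^ 2`, `s_l = t_l / Z`. (3) Strong induction: `M = 3 M'`: the case `M'` gives `Z' (1 + M' β (s1 v + s2 v ^ 2))`, then cube with
`M' β` in place of `β` (`rs O (M' β) = 0`). `rd_*` from NG1.
-/

open scoped Classical
open Polynomial

namespace Pool.Agent.LibCW77

open Pool.Agent.LibBH2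
open Pool.Agent.LibCHd (VR RF Red FunF)

variable {k : Type} [Field k]

/-- `r` has a reduction -/
private def NP_I (O : ValuationSubring k) (r : RatFunc k) : Prop := ∃ r', Rd O r r'

private theorem NP_add {O : ValuationSubring k} {r s : RatFunc k} (h : NP_I O r) (h' : NP_I O s) :
    NP_I O (r + s) := by
  obtain ⟨r', hr⟩ := h
  obtain ⟨s', hs⟩ := h'
  exact ⟨_, rd_add hr hs⟩

private theorem NP_mul {O : ValuationSubring k} {r s : RatFunc k} (h : NP_I O r) (h' : NP_I O s) :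
    NP_I O (r * s) := by
  obtain ⟨r', hr⟩ := h
  obtain ⟨s', hs⟩ := h'
  exact ⟨_, rd_mul hr hs⟩

private theorem NP_pow {O : ValuationSubring k} {r : RatFunc k} (h : NP_I O r) (n : ℕ) :
    NP_I O (r ^ n) := by
  obtain ⟨r', hr⟩ := h
  exact ⟨_, rd_pow hr n⟩

private theorem NP_C {O : ValuationSubring k} (a : O) : NP_I O (RatFunc.C (a : k)) := ⟨_, rd_C a⟩

private theorem NP_nat {O : ValuationSubring k} (n : ℕ) : NP_I O (n : RatFunc k) := by
  induction n with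
  | zero => rw [Nat.cast_zero]; exact ⟨_, rd_zero⟩
  | succ n ih => rw [Nat.cast_succ]; exact NP_add ih ⟨_, rd_one⟩

private theorem NP_b {O : ValuationSubring k} {β : O} (hβ : rs O β = 0) {r X : RatFunc k}
    {r' : RatFunc (KK O)} (h : Rd O r r') (hX : NP_I O X) : Rd O (r + RatFunc.C (β : k) * X) r' := by
  obtain ⟨X', hX'⟩ := hX
  have h1 := rd_add h (rd_mul (rd_C β) hX')
  rwa [hβ, map_zero, zero_mul, add_zero] at h1

private theorem NP_div {O : ValuationSubring k} {r Z : RatFunc k} {r' : RatFunc (KK O)}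
    (h : Rd O r r') (hZ : Rd O Z 1) : Rd O (r / Z) r' := by
  have h1 := rd_div h hZ one_ne_zero
  rwa [div_one] at h1

private theorem NP_cube {O : ValuationSubring k} {L : Type} [Field L] (j : RatFunc k →+* L) {v : L}
    {f : RatFunc k} (hv : v ^ 3 = j f) (hf : NP_I O f) {β : O} (hβ : rs O β = 0)
    {r1 r2 : RatFunc k} {r1' r2' : RatFunc (KK O)} (h1 : Rd O r1 r1') (h2 : Rd O r2 r2') :
    ∃ Z s1 s2 : RatFunc k, Rd O Z 1 ∧ Rd O s1 r1' ∧ Rd O s2 r2' ∧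
      (1 + j (RatFunc.C (β : k)) * (j r1 * v + j r2 * v ^ 2)) ^ 3 =
        j Z * (1 + 3 * j (RatFunc.C (β : k)) * (j s1 * v + j s2 * v ^ 2)) := by
  have i1 : NP_I O r1 := ⟨_, h1⟩
  have i2 : NP_I O r2 := ⟨_, h2⟩
  have iβ : NP_I O (RatFunc.C (β : k)) := NP_C β
  have hZ : Rd O (1 + RatFunc.C (β : k) * (RatFunc.C (β : k) * (((6 : ℕ) : RatFunc k) * f * r1 * r2 +
      RatFunc.C (β : k) * (f * r1 ^ 3 + f ^ 2 * r2 ^ 3)))) 1 :=
    NP_b hβ rd_one (NP_mul iβ (NP_add (NP_mul (NP_mul (NP_mul (NP_nat 6) hf) i1) i2)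
      (NP_mul iβ (NP_add (NP_mul hf (NP_pow i1 3)) (NP_mul (NP_pow hf 2) (NP_pow i2 3))))))
  have ht1 : Rd O (r1 + RatFunc.C (β : k) * (f * r2 ^ 2 + RatFunc.C (β : k) * (f * r1 ^ 2 * r2))) r1' :=
    NP_b hβ h1 (NP_add (NP_mul hf (NP_pow i2 2)) (NP_mul iβ (NP_mul (NP_mul hf (NP_pow i1 2)) i2)))
  have ht2 : Rd O (r2 + RatFunc.C (β : k) * (r1 ^ 2 + RatFunc.C (β : k) * (f * r1 * r2 ^ 2))) r2' :=
    NP_b hβ h2 (NP_add (NP_pow i1 2) (NP_mul iβ (NP_mul (NP_mul hf i1) (NP_pow i2 2))))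
  refine ⟨_, _, _, hZ, NP_div ht1 hZ, NP_div ht2 hZ, ?_⟩
  have hZ0 := rd_ne hZ one_ne_zero
  have hjZ : j (1 + RatFunc.C (β : k) * (RatFunc.C (β : k) * (((6 : ℕ) : RatFunc k) * f * r1 * r2 +
      RatFunc.C (β : k) * (f * r1 ^ 3 + f ^ 2 * r2 ^ 3)))) ≠ 0 := (map_ne_zero j).2 hZ0
  have hexp : j (1 + RatFunc.C (β : k) * (RatFunc.C (β : k) * (((6 : ℕ) : RatFunc k) * f * r1 * r2 +
      RatFunc.C (β : k) * (f * r1 ^ 3 + f ^ 2 * r2 ^ 3)))) = 1 + j (RatFunc.C (β : k)) *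
      (j (RatFunc.C (β : k)) * (6 * v ^ 3 * j r1 * j r2 + j (RatFunc.C (β : k)) *
        (v ^ 3 * j r1 ^ 3 + (v ^ 3) ^ 2 * j r2 ^ 3))) := by
    simp only [map_add, map_mul, map_pow, map_one, map_natCast, hv]
    norm_num
  rw [map_div₀, map_div₀]
  generalize j (1 + RatFunc.C (β : k) * (RatFunc.C (β : k) * (((6 : ℕ) : RatFunc k) * f * r1 * r2 +
      RatFunc.C (β : k) * (f * r1 ^ 3 + f ^ 2 * r2 ^ 3)))) = z at hjZ hexp
  simp only [map_add, map_mul, map_pow]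
  rw [← hv]
  generalize j (RatFunc.C (β : k)) = b at hexp
  have h3 : z * (1 + 3 * b * ((j r1 + b * (v ^ 3 * j r2 ^ 2 + b * (v ^ 3 * j r1 ^ 2 * j r2))) / z * v +
      (j r2 + b * (j r1 ^ 2 + b * (v ^ 3 * j r1 * j r2 ^ 2))) / z * v ^ 2)) =
      z + 3 * b * ((j r1 + b * (v ^ 3 * j r2 ^ 2 + b * (v ^ 3 * j r1 ^ 2 * j r2))) * v +
      (j r2 + b * (j r1 ^ 2 + b * (v ^ 3 * j r1 * j r2 ^ 2))) * v ^ 2) := by
    field_simp
  rw [h3, hexp]
  ring

private theorem NP_exp {O : ValuationSubring k} {L : Type} [Field L] (j : RatFunc k →+* L) {v : L}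
    {f : RatFunc k} (hv : v ^ 3 = j f) (hf : NP_I O f) (β : O)
    {r1 r2 : RatFunc k} (h1 : NP_I O r1) (h2 : NP_I O r2) (M : ℕ) :
    ∃ u0 u1 u2 : RatFunc k, NP_I O u0 ∧ NP_I O u1 ∧ NP_I O u2 ∧
      (1 + j (RatFunc.C (β : k)) * (j r1 * v + j r2 * v ^ 2)) ^ M =
        1 + M * j (RatFunc.C (β : k)) * (j r1 * v + j r2 * v ^ 2) +
          j (RatFunc.C (β : k)) ^ 2 * (j u0 + j u1 * v + j u2 * v ^ 2) := by
  induction M with
  | zero => exact ⟨0, 0, 0, ⟨_, rd_zero⟩, ⟨_, rd_zero⟩, ⟨_, rd_zero⟩, by simp⟩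
  | succ M ih =>
    obtain ⟨u0, u1, u2, i0, i1, i2, h⟩ := ih
    have iβ : NP_I O (RatFunc.C (β : k)) := NP_C β
    have iM : NP_I O (M : RatFunc k) := NP_nat M
    refine ⟨u0 + (M : RatFunc k) * (((2 : ℕ) : RatFunc k) * r1 * r2 * f) +
        RatFunc.C (β : k) * ((u1 * r2 + u2 * r1) * f),
      u1 + (M : RatFunc k) * (r2 ^ 2 * f) + RatFunc.C (β : k) * (u0 * r1 + u2 * r2 * f),
      u2 + (M : RatFunc k) * r1 ^ 2 + RatFunc.C (β : k) * (u0 * r2 + u1 * r1),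
      NP_add (NP_add i0 (NP_mul iM (NP_mul (NP_mul (NP_mul (NP_nat 2) h1) h2) hf)))
        (NP_mul iβ (NP_mul (NP_add (NP_mul i1 h2) (NP_mul i2 h1)) hf)),
      NP_add (NP_add i1 (NP_mul iM (NP_mul (NP_pow h2 2) hf)))
        (NP_mul iβ (NP_add (NP_mul i0 h1) (NP_mul (NP_mul i2 h2) hf))),
      NP_add (NP_add i2 (NP_mul iM (NP_pow h1 2))) (NP_mul iβ (NP_add (NP_mul i0 h2) (NP_mul i1 h1))), ?_⟩
    rw [pow_succ, h]
    simp only [map_add, map_mul, map_pow, map_natCast, ← hv]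
    push_cast
    ring

private theorem NP_unit {O : ValuationSubring k} (h3 : rs O 3 = 0) {M : ℕ} (hM : ¬ 3 ∣ M) :
    ∃ w : O, (M : k) * (w : k) = 1 := by
  have h1 : rs O (M : O) ≠ 0 := by
    intro h
    have hc : Nat.Coprime M 3 := ((Nat.Prime.coprime_iff_not_dvd Nat.prime_three).2 hM).symm
    have h2 := congrArg (fun t : ℤ => rs O (t : O)) (Nat.gcd_eq_gcd_ab M 3)
    simp only [hc.gcd_eq_one, Nat.cast_one, Int.cast_one, map_one, Int.cast_add, Int.cast_mul,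
      Int.cast_natCast, map_add, map_mul, h, Nat.cast_ofNat, Int.cast_ofNat, h3, zero_mul, add_zero] at h2
    exact one_ne_zero h2
  have h2 : IsUnit (M : O) := by
    by_contra hc
    exact h1 ((IsLocalRing.residue_eq_zero_iff _).2 hc)
  obtain ⟨w, hw⟩ := h2.exists_right_inv
  refine ⟨w, ?_⟩
  have h4 := congrArg (fun t : O => (t : k)) hw
  simpa using h4

theorem pw {O : ValuationSubring k} {L : Type} [Field L] (j : RatFunc k →+* L) {v : L} {f : RatFunc k}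
    {f' : RatFunc (KK O)} (hv : v ^ 3 = j f) (hf : Rd O f f') (h3 : rs O 3 = 0) {β : O} (hβ : rs O β = 0)
    {r1 r2 : RatFunc k} {r1' r2' : RatFunc (KK O)} (h1 : Rd O r1 r1') (h2 : Rd O r2 r2') (M : ℕ) (hM : 0 < M) :
    ∃ Z s1 s2 : RatFunc k, Rd O Z 1 ∧ Rd O s1 r1' ∧ Rd O s2 r2' ∧
      (1 + j (RatFunc.C (β : k)) * (j r1 * v + j r2 * v ^ 2)) ^ M =
        j Z * (1 + j (RatFunc.C ((M : k) * (β : k))) * (j s1 * v + j s2 * v ^ 2)) := by
  induction M using Nat.strong_induction_on with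
  | _ M ih =>
    have hf' : NP_I O f := ⟨_, hf⟩
    have iβ : NP_I O (RatFunc.C (β : k)) := NP_C β
    by_cases hM3 : 3 ∣ M
    · obtain ⟨m, rfl⟩ := hM3
      obtain ⟨Z, s1, s2, hZ, hs1, hs2, h⟩ := ih m (by omega) (by omega)
      have hmβ : rs O ((m : O) * β) = 0 := by rw [map_mul, hβ, mul_zero]
      obtain ⟨Z1, t1, t2, hZ1, ht1, ht2, h'⟩ := NP_cube j hv hf' hmβ hs1 hs2
      refine ⟨Z ^ 3 * Z1, t1, t2, ?_, ht1, ht2, ?_⟩
      · have h5 := rd_mul (rd_pow hZ 3) hZ1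
        rwa [one_pow, one_mul] at h5
      · have h6 : (((m : O) * β : O) : k) = (m : k) * (β : k) := by push_cast; rfl
        rw [h6] at h'
        rw [mul_comm 3 m, pow_mul, h, mul_pow, h', map_mul j (Z ^ 3) Z1, map_pow]
        have h7 : j (RatFunc.C (((m * 3 : ℕ) : k) * (β : k))) = 3 * j (RatFunc.C ((m : k) * (β : k))) := by
          rw [Nat.cast_mul, mul_comm (m : k), mul_assoc, map_mul, map_mul, Nat.cast_ofNat, map_ofNat, map_ofNat]
        rw [h7]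
        ring
    · obtain ⟨w, hw⟩ := NP_unit h3 hM3
      obtain ⟨u0, u1, u2, i0, i1, i2, h⟩ := NP_exp j hv hf' β ⟨_, h1⟩ ⟨_, h2⟩ M
      have hZ : Rd O (1 + RatFunc.C (β : k) * (RatFunc.C (β : k) * u0)) 1 := NP_b hβ rd_one (NP_mul iβ i0)
      have ht1 : Rd O (r1 + RatFunc.C (β : k) * (RatFunc.C (w : k) * u1)) r1' :=
        NP_b hβ h1 (NP_mul (NP_C w) i1)
      have ht2 : Rd O (r2 + RatFunc.C (β : k) * (RatFunc.C (w : k) * u2)) r2' :=
        NP_b hβ h2 (NP_mul (NP_C w) i2)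
      refine ⟨_, _, _, hZ, NP_div ht1 hZ, NP_div ht2 hZ, ?_⟩
      have hjZ : j (1 + RatFunc.C (β : k) * (RatFunc.C (β : k) * u0)) ≠ 0 :=
        (map_ne_zero j).2 (rd_ne hZ one_ne_zero)
      have hexp : j (1 + RatFunc.C (β : k) * (RatFunc.C (β : k) * u0)) =
          1 + j (RatFunc.C (β : k)) * (j (RatFunc.C (β : k)) * j u0) := by
        simp only [map_add, map_mul, map_one]
      have hw' : (M : L) * j (RatFunc.C (w : k)) = 1 := by
        rw [← map_natCast j, ← map_natCast (RatFunc.C (K := k)), ← map_mul, ← map_mul, hw, map_one, map_one]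
      rw [h, map_div₀, map_div₀]
      generalize j (1 + RatFunc.C (β : k) * (RatFunc.C (β : k) * u0)) = z at hjZ hexp
      simp only [map_add, map_mul, map_natCast]
      generalize j (RatFunc.C (β : k)) = b at hexp
      generalize j (RatFunc.C (w : k)) = c at hw'
      have h5 : z * (1 + M * b * ((j r1 + b * (c * j u1)) / z * v + (j r2 + b * (c * j u2)) / z * v ^ 2)) =
          z + M * b * ((j r1 + b * (c * j u1)) * v + (j r2 + b * (c * j u2)) * v ^ 2) := by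
        field_simp
      rw [h5, hexp]
      linear_combination (-(b ^ 2 * (j u1 * v + j u2 * v ^ 2))) * hw'

end Pool.Agent.LibCW77
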