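import Pool.Agent.LibCW77.NDefs
import Pool.Agent.LibCW77.Z7

/-!
[CW77 NR1] STRONG: the flexes modulo 3

`ka c i`, `kb c i` are in `O` and units (products of differences, `hS.sep`). So `Hp c = H.map (algebraMap O k)` with `H : O[X]` (`AAp`, `BBp`), of degree `6` with a unit
as leading coefficient; so the six flexes are `some x`, `x` a root of `Hp c` (`rts`; `natDegree = 6`), `x ∈ O` (integral over `O`: divide by the leading coefficient;
`ValuationSubring` is integrally closed). (i) Modulo the maximal ideal, `3 = 0`, so `(C a - X) ^ 3 = C (a ^ 3) - X ^ 3` and `H.map (rs O) = expand _ 3 (quadratic)`;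
`Polynomial.rootMultiplicity_expand` (`ExpChar 3`): the number of `x` with the residue `s` is divisible by `3`, for every `s` (`H.map (rs O)` is the constant times the
product of the `X - C (residue of x)`). (ii) `y` is determined by the residue of `x`: for a flex `(x, y)`, `S_i(x) y = T_i(x)` with `S_i = ka_i (a_i - x)^3 + kb_i (b_i - x)^3`,
`T_i = ka_i a_i (a_i - x)^3 + kb_i b_i (b_i - x)^3`; modulo the maximal ideal `S_i(x) ≠ 0`, since `S_i = T_i = 0` would give `a_i = x = b_i`. So equal residues of `x`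
give equal residues of `y`, and every class of `y` is a union of classes of `x`. (iii) `Qk c ν (some x) = ![some y, some b]` with `b ^ 3 B(y) = A(y)` (`hF`: `OnC`;
`b` is not `none`, because `y` is not a `b_i`), `b ∈ O` because `b ^ 3` is a unit of `O` (`hS.flex`: `A(y)`, `B(y)` are units, being factors of the unit `Wp(y)`).
-/

open scoped Classical
open Polynomial

namespace Pool.Agent.LibCW77

open Pool.Agent.LibBH2
open Pool.Agent.LibCHd (VR RF Red FunF)

variable {k : Type} [Field k]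

/-- the cubic `p (a - X) ^ 3 + q (b - X) ^ 3` -/
private noncomputable def NR1_A {R : Type} [CommRing R] (p q a b : R) : R[X] :=
  C p * (C a - X) ^ 3 + C q * (C b - X) ^ 3

private theorem NR1_A_map {R R' : Type} [CommRing R] [CommRing R'] (f : R →+* R') (p q a b : R) :
    (NR1_A p q a b).map f = NR1_A (f p) (f q) (f a) (f b) := by
  unfold NR1_A
  simp only [Polynomial.map_add, Polynomial.map_mul, Polynomial.map_pow, Polynomial.map_sub, map_C, map_X]

private theorem NR1_A_char {R : Type} [CommRing R] [ExpChar R 3] (p q a b : R) :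
    NR1_A p q a b = expand R 3 (C p * (C (a ^ 3) - X) + C q * (C (b ^ 3) - X)) := by
  unfold NR1_A
  rw [map_add, map_mul, map_mul, map_sub, map_sub, expand_C, expand_C, expand_C, expand_C, expand_X,
    sub_pow_expChar, sub_pow_expChar, C_pow, C_pow]

private noncomputable def NR1_H {R : Type} [CommRing R] (p q a b p' q' a' b' : R) : R[X] :=
  NR1_A p q a b * NR1_A (p' * a') (q' * b') a' b' - NR1_A p' q' a' b' * NR1_A (p * a) (q * b) a b

private theorem NR1_H_map {R R' : Type} [CommRing R] [CommRing R'] (f : R →+* R') (p q a b p' q' a' b' : R) :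
    (NR1_H p q a b p' q' a' b').map f = NR1_H (f p) (f q) (f a) (f b) (f p') (f q') (f a') (f b') := by
  unfold NR1_H
  simp only [Polynomial.map_sub, Polynomial.map_mul, NR1_A_map, map_mul]

private theorem NR1_H_char {R : Type} [CommRing R] [ExpChar R 3] (p q a b p' q' a' b' : R) :
    ∃ Q : R[X], NR1_H p q a b p' q' a' b' = expand R 3 Q := by
  unfold NR1_H
  rw [NR1_A_char, NR1_A_char, NR1_A_char, NR1_A_char, ← map_mul, ← map_mul, ← map_sub]
  exact ⟨_, rfl⟩

private theorem NR1_unit {O : ValuationSubring k} {x : k} (hx : x ∈ O) (h0 : x ≠ 0) (hi : x⁻¹ ∈ O) :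
    rs O ⟨x, hx⟩ ≠ 0 := by
  apply (IsLocalRing.residue_ne_zero_iff_isUnit _).2
  exact isUnit_iff_exists_inv.2 ⟨⟨x⁻¹, hi⟩, Subtype.ext (mul_inv_cancel₀ h0)⟩

private theorem NR1_char {c : Dat k} {O : ValuationSubring k} (hS : Sep O c) : CharP (KK O) 3 := by
  have h1 : ((3 : ℕ) : KK O) = 0 := by
    have h2 : rs O (3 : O) = 0 := by
      by_contra h
      have h3 := (IsLocalRing.residue_ne_zero_iff_isUnit _).1 h
      obtain ⟨y, hy⟩ := isUnit_iff_exists_inv.1 h3
      apply hS.three
      have h4 : (3 : k) * (y : k) = 1 := by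
        have := congrArg (fun z : O => (z : k)) hy
        push_cast at this
        exact this
      have h5 : (3 : k)⁻¹ = (y : k) := by
        have h6 : (3 : k) ≠ 0 := fun h0 => by rw [h0, zero_mul] at h4; exact zero_ne_one h4
        field_simp
        exact h4.symm
      rw [h5]
      exact y.2
    have h7 : (3 : KK O) = 0 := by
      rw [← map_ofNat (rs O) 3]
      exact h2
    rw [Nat.cast_ofNat]
    exact h7
  obtain ⟨p, hp⟩ := CharP.exists (KK O)
  have h3 : p ∣ 3 := (CharP.cast_eq_zero_iff (KK O) p 3).1 h1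
  rcases (Nat.dvd_prime Nat.prime_three).1 h3 with rfl | rfl
  · exfalso
    exact one_ne_zero ((CharP.cast_eq_zero_iff (KK O) 1 1).2 dvd_rfl ▸ (Nat.cast_one (R := KK O)).symm)
  · exact hp

private theorem NR1_diff {c : Dat k} {O : ValuationSubring k} (hS : Sep O c) (s t : Fin 3 ⊕ Fin 3) :
    Sum.elim c.a c.b s - Sum.elim c.a c.b t ∈ O := sub_mem (hS.mem s) (hS.mem t)

private theorem NR1_ka {c : Dat k} (hc : c.Good) {O : ValuationSubring k} (hS : Sep O c) (i : Fin 3) :
    ka c i ∈ O ∧ ka c i ≠ 0 ∧ (ka c i)⁻¹ ∈ O := by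
  have hne : ∀ s t, s ≠ t → Sum.elim c.a c.b s - Sum.elim c.a c.b t ≠ 0 := fun s t hst h =>
    hst (hc.inj (sub_eq_zero.1 h))
  have h1 : ka c i = ((Finset.univ.erase i).prod fun j => (c.a i - c.a j)⁻¹) * ∏ j, (c.a i - c.b j)⁻¹ := by
    unfold ka
    rw [mul_inv, Finset.prod_inv_distrib, Finset.prod_inv_distrib]
  refine ⟨?_, ?_, ?_⟩
  · rw [h1]
    apply O.mul_mem
    · apply prod_mem
      intro j hj
      exact hS.sep (Sum.inl i) (Sum.inl j) (fun h => (Finset.mem_erase.1 hj).1 (Sum.inl_injective h).symm)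
    · apply prod_mem
      intro j _
      exact hS.sep (Sum.inl i) (Sum.inr j) (by simp)
  · unfold ka
    apply inv_ne_zero
    apply mul_ne_zero
    · rw [Finset.prod_ne_zero_iff]
      intro j hj
      exact hne (Sum.inl i) (Sum.inl j) (fun h => (Finset.mem_erase.1 hj).1 (Sum.inl_injective h).symm)
    · rw [Finset.prod_ne_zero_iff]
      intro j _
      exact hne (Sum.inl i) (Sum.inr j) (by simp)
  · unfold ka
    rw [inv_inv]
    apply O.mul_mem
    · apply prod_mem
      intro j _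
      exact NR1_diff hS (Sum.inl i) (Sum.inl j)
    · apply prod_mem
      intro j _
      exact NR1_diff hS (Sum.inl i) (Sum.inr j)

private theorem NR1_kb {c : Dat k} (hc : c.Good) {O : ValuationSubring k} (hS : Sep O c) (i : Fin 3) :
    kb c i ∈ O ∧ kb c i ≠ 0 ∧ (kb c i)⁻¹ ∈ O := by
  have hne : ∀ s t, s ≠ t → Sum.elim c.a c.b s - Sum.elim c.a c.b t ≠ 0 := fun s t hst h =>
    hst (hc.inj (sub_eq_zero.1 h))
  have h1 : kb c i = (∏ j, (c.b i - c.a j)⁻¹) * (Finset.univ.erase i).prod fun j => (c.b i - c.b j)⁻¹ := by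
    unfold kb
    rw [mul_inv, Finset.prod_inv_distrib, Finset.prod_inv_distrib]
  refine ⟨?_, ?_, ?_⟩
  · rw [h1]
    apply O.mul_mem
    · apply prod_mem
      intro j _
      exact hS.sep (Sum.inr i) (Sum.inl j) (by simp)
    · apply prod_mem
      intro j hj
      exact hS.sep (Sum.inr i) (Sum.inr j) (fun h => (Finset.mem_erase.1 hj).1 (Sum.inr_injective h).symm)
  · unfold kb
    apply inv_ne_zero
    apply mul_ne_zero
    · rw [Finset.prod_ne_zero_iff]
      intro j _
      exact hne (Sum.inr i) (Sum.inl j) (by simp)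
    · rw [Finset.prod_ne_zero_iff]
      intro j hj
      exact hne (Sum.inr i) (Sum.inr j) (fun h => (Finset.mem_erase.1 hj).1 (Sum.inr_injective h).symm)
  · unfold kb
    rw [inv_inv]
    apply O.mul_mem
    · apply prod_mem
      intro j _
      exact NR1_diff hS (Sum.inr i) (Sum.inl j)
    · apply prod_mem
      intro j _
      exact NR1_diff hS (Sum.inr i) (Sum.inr j)

/-- counts in a multiset with counts divisible by 3 -/
private theorem NR1_dvd {T : Type} (R : Multiset T) (h : ∀ s, 3 ∣ R.count s) (P : T → Prop) :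
    3 ∣ (R.filter P).card := by
  rw [← Multiset.toFinset_sum_count_eq]
  apply Finset.dvd_sum
  intro s _
  rw [Multiset.count_filter]
  split_ifs
  · exact h s
  · exact dvd_zero 3

private theorem NR1_lift {c : Dat k} {O : ValuationSubring k} (hS : Sep O c) (HO : O[X])
    (hHO : HO.map (algebraMap O k) = Hp c) {x : k} (hx : (Hp c).eval x = 0) : x ∈ O := by
  have hdeg : (Hp c).natDegree = 6 := by
    have h1 := Hp_deg c
    have h2 := le_natDegree_of_ne_zero hS.lead0
    omega
  have h1 : IsIntegral O x := by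
    refine ⟨C (⟨((Hp c).coeff 6)⁻¹, hS.lead⟩ : O) * HO, ?_, ?_⟩
    · unfold Monic leadingCoeff
      have hinj : Function.Injective (algebraMap O k) := fun a b h => Subtype.ext h
      have h2 : (C (⟨((Hp c).coeff 6)⁻¹, hS.lead⟩ : O) * HO).natDegree = 6 := by
        rw [← natDegree_map_eq_of_injective hinj, Polynomial.map_mul, hHO, map_C]
        rw [natDegree_C_mul, hdeg]
        exact inv_ne_zero hS.lead0
      rw [h2, coeff_C_mul]
      apply hinj
      rw [map_mul, ← coeff_map, hHO, map_one]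
      exact inv_mul_cancel₀ hS.lead0
    · rw [← eval_map, Polynomial.map_mul, hHO, eval_mul, hx, mul_zero]
  obtain ⟨y, hy⟩ := IsIntegrallyClosed.isIntegral_iff.1 h1
  rw [← hy]
  exact y.2

private theorem NR1_count [IsAlgClosed k] {c : Dat k} (hc : c.Good) {O : ValuationSubring k} (hS : Sep O c)
    (R : Multiset O) (hR : R.map (fun x : O => (x : k)) = (Hp c).roots) (s : KK O) : 3 ∣ (R.map (rs O)).count s := by
  have hchar := NR1_char hS
  have hexp : ExpChar (KK O) 3 := ExpChar.prime Nat.prime_three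
  have hinj : Function.Injective (algebraMap O k) := fun a b h => Subtype.ext h
  have hdeg : (Hp c).natDegree = 6 := by
    have h1 := Hp_deg c
    have h2 := le_natDegree_of_ne_zero hS.lead0
    omega
  set HO : O[X] := NR1_H (⟨ka c 0, (NR1_ka hc hS 0).1⟩ : O) ⟨kb c 0, (NR1_kb hc hS 0).1⟩
    ⟨c.a 0, hS.mem (Sum.inl 0)⟩ ⟨c.b 0, hS.mem (Sum.inr 0)⟩ ⟨ka c 1, (NR1_ka hc hS 1).1⟩ ⟨kb c 1, (NR1_kb hc hS 1).1⟩
    ⟨c.a 1, hS.mem (Sum.inl 1)⟩ ⟨c.b 1, hS.mem (Sum.inr 1)⟩ with hHOd
  have hHO : HO.map (algebraMap O k) = Hp c := by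
    rw [hHOd, NR1_H_map]
    rfl
  obtain ⟨Q, hQ⟩ : ∃ Q : (KK O)[X], HO.map (rs O) = expand (KK O) 3 Q := by
    rw [hHOd, NR1_H_map]
    exact NR1_H_char _ _ _ _ _ _ _ _
  have hlc : (HO.coeff 6 : k) = (Hp c).coeff 6 := by
    rw [← hHO, coeff_map]
    rfl
  have hu : rs O (HO.coeff 6) ≠ 0 := by
    apply (IsLocalRing.residue_ne_zero_iff_isUnit _).2
    refine isUnit_iff_exists_inv.2 ⟨⟨((Hp c).coeff 6)⁻¹, hS.lead⟩, Subtype.ext ?_⟩
    push_cast
    rw [hlc]
    exact mul_inv_cancel₀ hS.lead0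
  have h1 : HO = C (HO.coeff 6) * (R.map fun x => X - C x).prod := by
    apply map_injective _ hinj
    rw [hHO, Polynomial.map_mul, map_C, Polynomial.map_multiset_prod, Multiset.map_map]
    have h2 := (IsAlgClosed.splits (Hp c)).eq_prod_roots
    rw [h2, leadingCoeff, hdeg, ← hR, Multiset.map_map]
    congr 1
    · congr 1
      exact hlc.symm
    · congr 1
      apply Multiset.map_congr rfl
      intro x _
      simp only [Function.comp_apply, Polynomial.map_sub, map_X, map_C]
      rfl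
  have h2 : HO.map (rs O) = C (rs O (HO.coeff 6)) * ((R.map (rs O)).map fun x => X - C x).prod := by
    conv_lhs => rw [h1]
    rw [Polynomial.map_mul, map_C, Polynomial.map_multiset_prod, Multiset.map_map, Multiset.map_map]
    congr 2
    apply Multiset.map_congr rfl
    intro x _
    simp only [Function.comp_apply, Polynomial.map_sub, map_X, map_C]
  have h3 : (HO.map (rs O)).roots = R.map (rs O) := by
    rw [h2, roots_C_mul _ hu, roots_multiset_prod_X_sub_C]
  rw [← h3, count_roots, hQ, rootMultiplicity_expand]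
  exact dvd_mul_right 3 _

/-- the residue of the fourth point is a function of the residue of the flex -/
private noncomputable def NR1_Y {K : Type} [Field K] (p q a b s : K) : K :=
  (p * a * (a - s) ^ 3 + q * b * (b - s) ^ 3) / (p * (a - s) ^ 3 + q * (b - s) ^ 3)

private theorem NR1_Y_eq {K : Type} [Field K] {p q a b s y : K} (hp : p ≠ 0) (hq : q ≠ 0) (hab : a ≠ b)
    (h : p * ((a - s) ^ 3 * (a - y)) + q * ((b - s) ^ 3 * (b - y)) = 0) : y = NR1_Y p q a b s := by
  unfold NR1_Y
  by_cases h0 : p * (a - s) ^ 3 + q * (b - s) ^ 3 = 0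
  · exfalso
    have h1 : p * a * (a - s) ^ 3 + q * b * (b - s) ^ 3 = 0 := by linear_combination h + y * h0
    have h2 : q * ((b - a) * (b - s) ^ 3) = 0 := by linear_combination h1 - a * h0
    have h3 : p * ((a - b) * (a - s) ^ 3) = 0 := by linear_combination h1 - b * h0
    have h4 : b - s = 0 := by
      rcases mul_eq_zero.1 h2 with h5 | h5
      · exact absurd h5 hq
      · rcases mul_eq_zero.1 h5 with h6 | h6
        · exact absurd (sub_eq_zero.1 h6).symm hab
        · exact pow_eq_zero_iff (by norm_num) |>.1 h6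
    have h7 : a - s = 0 := by
      rcases mul_eq_zero.1 h3 with h5 | h5
      · exact absurd h5 hp
      · rcases mul_eq_zero.1 h5 with h6 | h6
        · exact absurd (sub_eq_zero.1 h6) hab
        · exact pow_eq_zero_iff (by norm_num) |>.1 h6
    apply hab
    rw [sub_eq_zero.1 h4, sub_eq_zero.1 h7]
  · rw [eq_div_iff h0]
    linear_combination -h

private theorem NR1_pt [CharZero k] {c : Dat k} (h3 : c.n = 3) {O : ValuationSubring k}
    (hS : Sep O c) {ν : k} (hF : FlexF c ν) {x : k} (hx : some x ∈ rts c) :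
    ∃ y b : O, Qk c ν (some x) = ![some (y : k), some (b : k)] ∧ Flex c (some x) (some (y : k)) ∧
      (b : k) ^ 3 * (Bp c).eval (y : k) = (Ap c).eval (y : k) ∧ (Wp c).eval (y : k) ≠ 0 ∧
        ((Wp c).eval (y : k))⁻¹ ∈ O := by
  obtain ⟨hfl, hon⟩ := hF.2.1 _ hx
  obtain ⟨y, hyO, hzy, hW0, hWi⟩ := hS.flex _ _ hfl
  have hQ0 : Qk c ν (some x) 0 = some y := hzy
  have hAe : ∀ z : k, (Ap c).eval z = ∏ i, (z - c.a i) := fun z => by
    unfold Ap
    rw [eval_prod]
    apply Finset.prod_congr rfl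
    intro i _
    rw [eval_sub, eval_X, eval_C]
  have hBe : ∀ z : k, (Bp c).eval z = ∏ i, (z - c.b i) := fun z => by
    unfold Bp
    rw [eval_prod]
    apply Finset.prod_congr rfl
    intro i _
    rw [eval_sub, eval_X, eval_C]
  have hW : (Wp c).eval y = (Ap c).eval y * (Bp c).eval y *
      ((derivative (Ap c)).eval y * (Bp c).eval y - (Ap c).eval y * (derivative (Bp c)).eval y) := by
    unfold Wp
    rw [eval_mul, eval_mul, eval_sub, eval_mul, eval_mul]
  have hB0 : (Bp c).eval y ≠ 0 := by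
    intro h
    apply hW0
    rw [hW, h]
    ring
  rw [hQ0] at hon
  cases hv : Qk c ν (some x) 1 with
  | none =>
    exfalso
    rw [hv] at hon
    obtain ⟨i, hi⟩ := hon
    apply hB0
    rw [hBe]
    exact Finset.prod_eq_zero (Finset.mem_univ i) (sub_eq_zero.2 hi)
  | some b =>
    rw [hv] at hon
    have hon' : b ^ 3 * (Bp c).eval y = (Ap c).eval y := by
      change b ^ c.n * ∏ i, (y - c.b i) = ∏ i, (y - c.a i) at hon
      rw [hAe, hBe]
      rw [h3] at hon
      exact hon
    -- `b` is in `O`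
    set aO : Fin 3 → O := fun i => ⟨c.a i, hS.mem (Sum.inl i)⟩ with haO
    set bO : Fin 3 → O := fun i => ⟨c.b i, hS.mem (Sum.inr i)⟩ with hbO
    have hmemA : (Ap c).eval y ∈ O := by
      rw [hAe]
      exact prod_mem fun i _ => sub_mem hyO (hS.mem (Sum.inl i))
    have hmap : ∀ e : Fin 3 → O, (∏ i, (X - C (e i)) : O[X]).map (algebraMap O k) = ∏ i, (X - C (e i : k)) := by
      intro e
      rw [Polynomial.map_prod]
      apply Finset.prod_congr rfl
      intro i _
      rw [Polynomial.map_sub, map_X, map_C]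
      rfl
    have hd : ∀ (P : O[X]), (P.map (algebraMap O k)).eval y ∈ O := by
      intro P
      have h4 : (P.map (algebraMap O k)).eval y = ((P.eval (⟨y, hyO⟩ : O) : O) : k) := by
        rw [eval_map]
        exact eval₂_at_apply (algebraMap O k) (⟨y, hyO⟩ : O)
      rw [h4]
      exact (P.eval (⟨y, hyO⟩ : O)).2
    have hA1 : (∏ i, (X - C (aO i)) : O[X]).map (algebraMap O k) = Ap c := hmap aO
    have hB1 : (∏ i, (X - C (bO i)) : O[X]).map (algebraMap O k) = Bp c := hmap bO
    have hmB : (Bp c).eval y ∈ O := by rw [← hB1]; exact hd _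
    have hmA' : (derivative (Ap c)).eval y ∈ O := by rw [← hA1, derivative_map]; exact hd _
    have hmB' : (derivative (Bp c)).eval y ∈ O := by rw [← hB1, derivative_map]; exact hd _
    have hBi : ((Bp c).eval y)⁻¹ ∈ O := by
      have h5 : ((Bp c).eval y)⁻¹ = (Ap c).eval y *
          ((derivative (Ap c)).eval y * (Bp c).eval y - (Ap c).eval y * (derivative (Bp c)).eval y) *
          ((Wp c).eval y)⁻¹ := by
        rw [eq_mul_inv_iff_mul_eq₀ hW0, hW]
        field_simp
      rw [h5]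
      exact O.mul_mem _ _ (O.mul_mem _ _ hmemA (sub_mem (O.mul_mem _ _ hmA' hmB) (O.mul_mem _ _ hmemA hmB'))) hWi
    have hb3 : b ^ 3 ∈ O := by
      have h6 : b ^ 3 = (Ap c).eval y * ((Bp c).eval y)⁻¹ := by
        rw [eq_mul_inv_iff_mul_eq₀ hB0]
        exact hon'
      rw [h6]
      exact O.mul_mem _ _ hmemA hBi
    have hbO : b ∈ O := by
      rcases O.mem_or_inv_mem b with h7 | h7
      · exact h7
      · by_cases hb0 : b = 0
        · rw [hb0]; exact O.zero_mem
        · have h8 : b = b ^ 3 * (b⁻¹ * b⁻¹) := by field_simp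
          rw [h8]
          exact O.mul_mem _ _ hb3 (O.mul_mem _ _ h7 h7)
    refine ⟨⟨y, hyO⟩, ⟨b, hbO⟩, ?_, ?_, hon', hW0, hWi⟩
    · funext i
      fin_cases i
      · exact hQ0
      · exact hv
    · rw [← hzy]
      exact hfl

theorem flx_mod [IsAlgClosed k] [CharZero k] {c : Dat k} (hc : c.Good) (h3 : c.n = 3) {O : ValuationSubring k}
    (hS : Sep O c) {ν : k} (hν : ν ^ 3 = ∏ i, (-(kb c i) / ka c i)) (hF : FlexF c ν) :
    ∃ S : Multiset (O × O), S.card = 6 ∧
      (rts c).map (Qk c ν) = S.map (fun p => ![some (p.1 : k), some (p.2 : k)]) ∧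
      (∀ p ∈ S, (p.2 : k) ^ 3 * (Bp c).eval (p.1 : k) = (Ap c).eval (p.1 : k) ∧ (Wp c).eval (p.1 : k) ≠ 0 ∧
        ((Wp c).eval (p.1 : k))⁻¹ ∈ O) ∧
      ∀ t, 3 ∣ (cl S t).card := by
  have hdeg : (Hp c).natDegree = 6 := by
    have h1 := Hp_deg c
    have h2 := le_natDegree_of_ne_zero hS.lead0
    omega
  have hrts : rts c = (Hp c).roots.map some := by
    unfold rts
    rw [hdeg, Nat.sub_self, Multiset.replicate_zero, add_zero]
  have hp0 : Hp c ≠ 0 := by
    intro h
    apply hS.lead0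
    rw [h, coeff_zero]
  -- the integral model
  have hHO : (NR1_H (⟨ka c 0, (NR1_ka hc hS 0).1⟩ : O) ⟨kb c 0, (NR1_kb hc hS 0).1⟩
    ⟨c.a 0, hS.mem (Sum.inl 0)⟩ ⟨c.b 0, hS.mem (Sum.inr 0)⟩ ⟨ka c 1, (NR1_ka hc hS 1).1⟩ ⟨kb c 1, (NR1_kb hc hS 1).1⟩
    ⟨c.a 1, hS.mem (Sum.inl 1)⟩ ⟨c.b 1, hS.mem (Sum.inr 1)⟩).map (algebraMap O k) = Hp c := by
    rw [NR1_H_map]
    rfl
  have hex : ∀ x : k, ∃ g : O × (O × O), x ∈ (Hp c).roots → (g.1 : k) = x ∧
      Qk c ν (some x) = ![some (g.2.1 : k), some (g.2.2 : k)] ∧ Flex c (some x) (some (g.2.1 : k)) ∧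
      (g.2.2 : k) ^ 3 * (Bp c).eval (g.2.1 : k) = (Ap c).eval (g.2.1 : k) ∧ (Wp c).eval (g.2.1 : k) ≠ 0 ∧
        ((Wp c).eval (g.2.1 : k))⁻¹ ∈ O := by
    intro x
    by_cases hx : x ∈ (Hp c).roots
    · obtain ⟨y, b, h1, h2, h4, h5, h6⟩ := NR1_pt h3 hS hF (x := x)
        (by rw [hrts]; exact Multiset.mem_map.2 ⟨x, hx, rfl⟩)
      exact ⟨⟨⟨x, NR1_lift hS _ hHO ((mem_roots hp0).1 hx)⟩, ⟨y, b⟩⟩, fun _ => ⟨rfl, h1, h2, h4, h5, h6⟩⟩
    · exact ⟨⟨0, ⟨0, 0⟩⟩, fun h => absurd h hx⟩
  choose g hg using hex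
  refine ⟨(Hp c).roots.map fun x => (g x).2, ?_, ?_, ?_, ?_⟩
  · rw [Multiset.card_map, splits_iff_card_roots.1 (IsAlgClosed.splits (Hp c)), hdeg]
  · rw [hrts, Multiset.map_map, Multiset.map_map]
    apply Multiset.map_congr rfl
    intro x hx
    exact (hg x hx).2.1
  · intro p hp
    obtain ⟨x, hx, rfl⟩ := Multiset.mem_map.1 hp
    exact (hg x hx).2.2.2
  · intro t
    have hR : ((Hp c).roots.map fun x => (g x).1).map (fun x : O => (x : k)) = (Hp c).roots := by
      rw [Multiset.map_map]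
      conv_rhs => rw [← Multiset.map_id (Hp c).roots]
      apply Multiset.map_congr rfl
      intro x hx
      exact (hg x hx).1
    have hcount := NR1_count hc hS _ hR
    set Yf : KK O → KK O := NR1_Y (rs O ⟨ka c 0, (NR1_ka hc hS 0).1⟩) (rs O ⟨kb c 0, (NR1_kb hc hS 0).1⟩)
      (rs O ⟨c.a 0, hS.mem (Sum.inl 0)⟩) (rs O ⟨c.b 0, hS.mem (Sum.inr 0)⟩) with hYf
    have hY : ∀ x ∈ (Hp c).roots, rs O (g x).2.1 = Yf (rs O (g x).1) := by
      intro x hx
      obtain ⟨h1, -, h2, -⟩ := hg x hx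
      apply NR1_Y_eq (NR1_unit _ (NR1_ka hc hS 0).2.1 (NR1_ka hc hS 0).2.2)
        (NR1_unit _ (NR1_kb hc hS 0).2.1 (NR1_kb hc hS 0).2.2)
      · intro h
        have h4 : rs O (⟨c.a 0 - c.b 0, NR1_diff hS (Sum.inl 0) (Sum.inr 0)⟩ : O) = 0 := by
          have h5 : (⟨c.a 0 - c.b 0, NR1_diff hS (Sum.inl 0) (Sum.inr 0)⟩ : O) =
            ⟨c.a 0, hS.mem (Sum.inl 0)⟩ - ⟨c.b 0, hS.mem (Sum.inr 0)⟩ := rfl
          rw [h5, map_sub, h, sub_self]
        refine NR1_unit (O := O) (x := c.a 0 - c.b 0) (NR1_diff hS (Sum.inl 0) (Sum.inr 0)) ?_ ?_ h4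
        · intro h6
          exact absurd (hc.inj (show Sum.elim c.a c.b (Sum.inl 0) = Sum.elim c.a c.b (Sum.inr 0) from
            sub_eq_zero.1 h6)) (by simp)
        · exact hS.sep (Sum.inl 0) (Sum.inr 0) (by simp)
      · have h4 := h2 0
        have h5 : (⟨ka c 0, (NR1_ka hc hS 0).1⟩ : O) * (((⟨c.a 0, hS.mem (Sum.inl 0)⟩ : O) - (g x).1) ^ 3 *
            ((⟨c.a 0, hS.mem (Sum.inl 0)⟩ : O) - (g x).2.1)) +
            (⟨kb c 0, (NR1_kb hc hS 0).1⟩ : O) * (((⟨c.b 0, hS.mem (Sum.inr 0)⟩ : O) - (g x).1) ^ 3 *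
            ((⟨c.b 0, hS.mem (Sum.inr 0)⟩ : O) - (g x).2.1)) = 0 := by
          apply Subtype.ext
          push_cast
          rw [h1]
          exact h4
        have h6 := congrArg (rs O) h5
        rw [map_add, map_mul, map_mul, map_mul, map_mul, map_pow, map_pow, map_sub, map_sub, map_sub, map_sub,
          map_zero] at h6
        exact h6
    have h7 : (cl ((Hp c).roots.map fun x => (g x).2) t).card =
        ((((Hp c).roots.map fun x => (g x).1).map (rs O)).filter fun s => Yf s = t).card := by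
      unfold cl
      rw [Multiset.filter_map, Multiset.card_map, Multiset.map_map, Multiset.filter_map, Multiset.card_map]
      congr 1
      apply Multiset.filter_congr
      intro x hx
      show rs O (g x).2.1 = t ↔ Yf (rs O (g x).1) = t
      rw [hY x hx]
    rw [h7]
    exact NR1_dvd _ hcount _

end Pool.Agent.LibCW77
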