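import Pool.Agent.LibCW77.NDefs

/-!
[CW77 NR2] MEDIUM: three flexes with the same y

For `i = 0, 1`: `p_i = ka_i (a_i - y) ≠ 0`, `q_i = kb_i (b_i - y) ≠ 0` (`hy`: `y` is not a root of `A B`). The polynomial
`P_i(T) = p_i (a_i - T) ^ 3 + q_i (b_i - T) ^ 3` of degree `≤ 3` has the three different roots `x`, `x'`, `x''`, so `P_i = λ_i s`,
`s = (T - x)(T - x')(T - x'')`, `λ_i = - (p_i + q_i)`. So `λ_0 P_1 - λ_1 P_0 = 0`: a linear relation between the cubes of the four different linear forms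
`a_0 - T`, `b_0 - T`, `a_1 - T`, `b_1 - T`; these are independent in characteristic `0` (compare coefficients: Vandermonde of four different numbers), so
`λ_0 p_1 = 0 = λ_1 p_0`, `λ_i = 0`, `P_i = 0`, and again by independence `p_i = 0`: contradiction.
-/

open scoped Classical
open Polynomial

namespace Pool.Agent.LibCW77

open Pool.Agent.LibBH2
open Pool.Agent.LibCHd (VR RF Red FunF)

variable {k : Type} [Field k]

/-- a combination of two cubes with three different zeros -/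
private theorem NR2_rel {p q a b x y z : k} (h1 : x ≠ y) (h2 : x ≠ z) (h3 : y ≠ z)
    (hx : p * (a - x) ^ 3 + q * (b - x) ^ 3 = 0) (hy : p * (a - y) ^ 3 + q * (b - y) ^ 3 = 0)
    (hz : p * (a - z) ^ 3 + q * (b - z) ^ 3 = 0) :
    3 * (p * a + q * b) = (p + q) * (x + y + z) ∧
    3 * (p * a ^ 2 + q * b ^ 2) = (p + q) * (x * y + x * z + y * z) ∧
    p * a ^ 3 + q * b ^ 3 = (p + q) * (x * y * z) := by
  have d1 : x - y ≠ 0 := sub_ne_zero.2 h1
  have d2 : x - z ≠ 0 := sub_ne_zero.2 h2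
  have d3 : y - z ≠ 0 := sub_ne_zero.2 h3
  have e1 : -(p + q) * (x ^ 2 + x * y + y ^ 2) + 3 * (p * a + q * b) * (x + y) - 3 * (p * a ^ 2 + q * b ^ 2) = 0 := by
    apply mul_left_cancel₀ d1
    linear_combination hx - hy
  have e2 : -(p + q) * (x ^ 2 + x * z + z ^ 2) + 3 * (p * a + q * b) * (x + z) - 3 * (p * a ^ 2 + q * b ^ 2) = 0 := by
    apply mul_left_cancel₀ d2
    linear_combination hx - hz
  have e3 : 3 * (p * a + q * b) = (p + q) * (x + y + z) := by
    apply mul_left_cancel₀ d3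
    linear_combination e1 - e2
  have e4 : 3 * (p * a ^ 2 + q * b ^ 2) = (p + q) * (x * y + x * z + y * z) := by
    linear_combination -e1 + (x + y) * e3
  refine ⟨e3, e4, ?_⟩
  linear_combination hx - x ^ 2 * e3 + x * e4

/-- four nodes -/
private theorem NR2_vand {w1 w2 w3 w4 n1 n2 n3 n4 : k} (h12 : n1 ≠ n2) (h13 : n1 ≠ n3) (h14 : n1 ≠ n4)
    (m0 : w1 + w2 + w3 + w4 = 0) (m1 : w1 * n1 + w2 * n2 + w3 * n3 + w4 * n4 = 0)
    (m2 : w1 * n1 ^ 2 + w2 * n2 ^ 2 + w3 * n3 ^ 2 + w4 * n4 ^ 2 = 0)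
    (m3 : w1 * n1 ^ 3 + w2 * n2 ^ 3 + w3 * n3 ^ 3 + w4 * n4 ^ 3 = 0) : w1 = 0 := by
  have h : w1 * ((n1 - n2) * (n1 - n3) * (n1 - n4)) = 0 := by
    linear_combination m3 - (n2 + n3 + n4) * m2 + (n2 * n3 + n2 * n4 + n3 * n4) * m1 - n2 * n3 * n4 * m0
  rcases mul_eq_zero.1 h with h | h
  · exact h
  · exact absurd h (mul_ne_zero (mul_ne_zero (sub_ne_zero.2 h12) (sub_ne_zero.2 h13)) (sub_ne_zero.2 h14))

private theorem NR2_ka {c : Dat k} (hc : c.Good) (i : Fin 3) : ka c i ≠ 0 := by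
  have h : ∀ s t, s ≠ t → Sum.elim c.a c.b s - Sum.elim c.a c.b t ≠ 0 := fun s t h => sub_ne_zero.2 fun h' => h (hc.inj h')
  unfold ka
  refine inv_ne_zero (mul_ne_zero (Finset.prod_ne_zero_iff.2 fun j hj => ?_) (Finset.prod_ne_zero_iff.2 fun j _ => ?_))
  · exact h (Sum.inl i) (Sum.inl j) fun h' => (Finset.mem_erase.1 hj).1 (Sum.inl.inj h').symm
  · exact h (Sum.inl i) (Sum.inr j) (by simp)

private theorem NR2_kb {c : Dat k} (hc : c.Good) (i : Fin 3) : kb c i ≠ 0 := by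
  have h : ∀ s t, s ≠ t → Sum.elim c.a c.b s - Sum.elim c.a c.b t ≠ 0 := fun s t h => sub_ne_zero.2 fun h' => h (hc.inj h')
  unfold kb
  refine inv_ne_zero (mul_ne_zero (Finset.prod_ne_zero_iff.2 fun j _ => ?_) (Finset.prod_ne_zero_iff.2 fun j hj => ?_))
  · exact h (Sum.inr i) (Sum.inl j) (by simp)
  · exact h (Sum.inr i) (Sum.inr j) fun h' => (Finset.mem_erase.1 hj).1 (Sum.inr.inj h').symm

theorem flx_three [CharZero k] {c : Dat k} (hc : c.Good) {x x' x'' y : k} (hy : (Wp c).eval y ≠ 0) (h1 : x ≠ x')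
    (h2 : x ≠ x'') (h3 : x' ≠ x'') (h : Flex c (some x) (some y)) (h' : Flex c (some x') (some y))
    (h'' : Flex c (some x'') (some y)) : False := by
  have ha : ∀ i, c.a i - y ≠ 0 := by
    intro i h0
    apply hy
    have h2 : (Ap c).eval y = 0 := by
      unfold Ap
      rw [eval_prod]
      refine Finset.prod_eq_zero (Finset.mem_univ i) ?_
      simp only [eval_sub, eval_X, eval_C]
      linear_combination -h0
    unfold Wp
    rw [eval_mul, eval_mul, h2, zero_mul, zero_mul]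
  have hn : ∀ s t, s ≠ t → Sum.elim c.a c.b s ≠ Sum.elim c.a c.b t := fun s t h h' => h (hc.inj h')
  obtain ⟨p, hp⟩ : ∃ p : Fin 3 → k, p = fun i => ka c i * (c.a i - y) := ⟨_, rfl⟩
  obtain ⟨q, hq⟩ : ∃ q : Fin 3 → k, q = fun i => kb c i * (c.b i - y) := ⟨_, rfl⟩
  have hp0 : ∀ i, p i ≠ 0 := fun i => by
    rw [hp]
    exact mul_ne_zero (NR2_ka hc i) (ha i)
  have hr : ∀ i, 3 * (p i * c.a i + q i * c.b i) = (p i + q i) * (x + x' + x'') ∧
      3 * (p i * c.a i ^ 2 + q i * c.b i ^ 2) = (p i + q i) * (x * x' + x * x'' + x' * x'') ∧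
      p i * c.a i ^ 3 + q i * c.b i ^ 3 = (p i + q i) * (x * x' * x'') := by
    intro i
    refine NR2_rel h1 h2 h3 ?_ ?_ ?_
    · have := h i
      simp only [ev] at this
      rw [hp, hq]
      linear_combination this
    · have := h' i
      simp only [ev] at this
      rw [hp, hq]
      linear_combination this
    · have := h'' i
      simp only [ev] at this
      rw [hp, hq]
      linear_combination this
  obtain ⟨r01, r02, r03⟩ := hr 0
  obtain ⟨r11, r12, r13⟩ := hr 1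
  have h30 : (3 : k) ≠ 0 := by norm_num
  -- the relation between four cubes
  have hl : (p 0 + q 0) * p 1 = 0 := by
    refine NR2_vand (n1 := c.a 1) (n2 := c.b 1) (n3 := c.a 0) (n4 := c.b 0) (w2 := (p 0 + q 0) * q 1)
      (w3 := -((p 1 + q 1) * p 0)) (w4 := -((p 1 + q 1) * q 0)) (hn (Sum.inl 1) (Sum.inr 1) (by simp))
      (hn (Sum.inl 1) (Sum.inl 0) (by simp)) (hn (Sum.inl 1) (Sum.inr 0) (by simp)) (by ring) ?_ ?_ ?_
    · apply mul_left_cancel₀ h30
      linear_combination (p 0 + q 0) * r11 - (p 1 + q 1) * r01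
    · apply mul_left_cancel₀ h30
      linear_combination (p 0 + q 0) * r12 - (p 1 + q 1) * r02
    · linear_combination (p 0 + q 0) * r13 - (p 1 + q 1) * r03
  have hl0 : p 0 + q 0 = 0 := (mul_eq_zero.1 hl).resolve_right (hp0 1)
  have hab : c.a 0 - c.b 0 ≠ 0 := sub_ne_zero.2 (hn (Sum.inl 0) (Sum.inr 0) (by simp))
  have hfin : 3 * (p 0 * (c.a 0 - c.b 0)) = 0 := by
    linear_combination r01 + (x + x' + x'' - 3 * c.b 0) * hl0
  exact (mul_ne_zero h30 (mul_ne_zero (hp0 0) hab)) hfin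

end Pool.Agent.LibCW77
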