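import Pool.Agent.LibCW77.NR2
import Pool.Agent.LibCW77.Z7

/-!
[CW77 NR3] STRONG: not all flexes are conjugate

Take `p ∈ S` (`hcard`), `t = rs O p.1`. `PJ S t` has the root `p.2`, and only exponents divisible by `3`, so its values at `p.2`, `ζ p.2`, `ζ ^ 2 p.2` agree
(`Polynomial.eval_eq_sum`, in `k[X]`; `ζ ^ 3 = 1`), so there are `p', p'' ∈ cl S t` with `p'.2 = ζ p.2`, `p''.2 = ζ ^ 2 p.2` (root of a product). `p.2 ≠ 0` (`A(y) ≠ 0`). `p'.1 = p.1`:
`A(y) B(y') - A(y') B(y) = 0` (as `b ^ 3` agree), and it is `(y - y') U(y, y')`, `U` a polynomial over `O`, with `U(y, y') ≡ U(y, y) = A'(y) B(y) - A(y) B'(y)` modulo the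
maximal ideal (as `y' ≡ y`), a unit, so `y = y'`. By `hmap` there are `o, o', o''` in `rts c` with `Qk c ν o = ![some p.1, some p.2]` etc.; they are `some x`, `some x'`,
`some x''` (`natDegree (Hp c) = 6` because of `hS.lead0` and `natDegree ≤ 6`), different because the second coordinates of `Qk` are different, and `Flex c o (some p.1)`
(`hF.2.1`: `Flex c o (zk c o)`, and `zk c o = Qk c ν o 0`). `flx_three`.
-/

open scoped Classical
open Polynomial

namespace Pool.Agent.LibCW77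

open Pool.Agent.LibBH2
open Pool.Agent.LibCHd (VR RF Red FunF)

variable {k : Type} [Field k]

private theorem NR3_zeta {f : k[X]} (hf : ∀ n, ¬ 3 ∣ n → f.coeff n = 0) {w : k}
    (hw : w ^ 3 = 1) (x : k) : f.eval (w * x) = f.eval x := by
  rw [eval_eq_sum_range, eval_eq_sum_range]
  apply Finset.sum_congr rfl
  intro i _
  by_cases h : 3 ∣ i
  · obtain ⟨j, rfl⟩ := h
    rw [mul_pow, pow_mul w, hw, one_pow, one_mul]
  · rw [hf i h, zero_mul, zero_mul]

private theorem NR3_loc {R : Type} [CommRing R] [IsLocalRing R] [IsDomain R] (A B : R[X]) (y y' : R)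
    (hres : IsLocalRing.residue R y' = IsLocalRing.residue R y)
    (h : A.eval y * B.eval y' = A.eval y' * B.eval y)
    (hu : IsUnit ((derivative A).eval y * B.eval y - A.eval y * (derivative B).eval y)) : y' = y := by
  obtain ⟨ka, hA⟩ := A.binomExpansion y (y' - y)
  obtain ⟨kb, hB⟩ := B.binomExpansion y (y' - y)
  rw [add_sub_cancel] at hA hB
  set e := y' - y with he
  have he0 : IsLocalRing.residue R e = 0 := by rw [he, map_sub, hres, sub_self]
  have h1 : e * (-((derivative A).eval y * B.eval y - A.eval y * (derivative B).eval y) +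
      e * (A.eval y * kb - ka * B.eval y)) = 0 := by
    rw [hA, hB] at h
    linear_combination h
  rcases mul_eq_zero.1 h1 with h2 | h2
  · rw [he] at h2
    exact sub_eq_zero.1 h2
  · exfalso
    have h3 := congrArg (IsLocalRing.residue R) h2
    rw [map_add, map_mul, he0, zero_mul, add_zero, map_neg, map_zero, neg_eq_zero] at h3
    exact (IsLocalRing.residue_ne_zero_iff_isUnit _).2 hu h3

private theorem NR3_unit {O : ValuationSubring k} (x : O) (h0 : (x : k) ≠ 0) (hi : (x : k)⁻¹ ∈ O) : IsUnit x :=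
  isUnit_iff_exists_inv.2 ⟨⟨(x : k)⁻¹, hi⟩, Subtype.ext (mul_inv_cancel₀ h0)⟩

private theorem NR3_eval {O : ValuationSubring k} (P : O[X]) (y : O) :
    (P.map (algebraMap O k)).eval (y : k) = ((P.eval y : O) : k) := by
  rw [eval_map]
  exact eval₂_at_apply (algebraMap O k) y

private theorem NR3_map {O : ValuationSubring k} (a : Fin 3 → O) :
    (∏ i, (X - C (a i)) : O[X]).map (algebraMap O k) = ∏ i, (X - C (a i : k)) := by
  rw [Polynomial.map_prod]
  apply Finset.prod_congr rfl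
  intro i _
  rw [Polynomial.map_sub, map_X, map_C]
  rfl

/-- the key step: `y` is determined by its residue and `b ^ 3` -/
private theorem NR3_eq {c : Dat k} {O : ValuationSubring k} (hS : Sep O c) {y y' : O} {r : k}
    (hres : rs O y' = rs O y) (h : r * (Bp c).eval (y : k) = (Ap c).eval (y : k))
    (h' : r * (Bp c).eval (y' : k) = (Ap c).eval (y' : k)) (hw : (Wp c).eval (y : k) ≠ 0)
    (hw' : ((Wp c).eval (y : k))⁻¹ ∈ O) : y' = y := by
  set aO : Fin 3 → O := fun i => ⟨c.a i, hS.mem (Sum.inl i)⟩ with haO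
  set bO : Fin 3 → O := fun i => ⟨c.b i, hS.mem (Sum.inr i)⟩ with hbO
  set A : O[X] := ∏ i, (X - C (aO i)) with hA
  set B : O[X] := ∏ i, (X - C (bO i)) with hB
  have hA1 : A.map (algebraMap O k) = Ap c := NR3_map aO
  have hB1 : B.map (algebraMap O k) = Bp c := NR3_map bO
  have hAe : ∀ z : O, ((A.eval z : O) : k) = (Ap c).eval (z : k) := fun z => by rw [← NR3_eval, hA1]
  have hBe : ∀ z : O, ((B.eval z : O) : k) = (Bp c).eval (z : k) := fun z => by rw [← NR3_eval, hB1]
  have hA2 : ∀ z : O, (((derivative A).eval z : O) : k) = (derivative (Ap c)).eval (z : k) := fun z => by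
    rw [← NR3_eval, ← derivative_map, hA1]
  have hB2 : ∀ z : O, (((derivative B).eval z : O) : k) = (derivative (Bp c)).eval (z : k) := fun z => by
    rw [← NR3_eval, ← derivative_map, hB1]
  have hW : (((A.eval y * B.eval y) * ((derivative A).eval y * B.eval y - A.eval y * (derivative B).eval y) : O) : k) =
      (Wp c).eval (y : k) := by
    unfold Wp
    rw [eval_mul, eval_mul, eval_sub, eval_mul, eval_mul]
    push_cast
    rw [hAe, hBe, hA2, hB2]
  have hU := NR3_unit ((A.eval y * B.eval y) *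
    ((derivative A).eval y * B.eval y - A.eval y * (derivative B).eval y)) (by rw [hW]; exact hw)
    (by rw [hW]; exact hw')
  apply NR3_loc A B y y' hres _ (isUnit_of_mul_isUnit_right hU)
  apply Subtype.ext
  push_cast
  rw [hAe, hBe, hAe, hBe, ← h, ← h']
  ring

theorem flx_no [IsAlgClosed k] [CharZero k] {c : Dat k} (hc : c.Good) (h3 : c.n = 3) {O : ValuationSubring k}
    (hS : Sep O c) {ζ ν : k} (hζ : IsPrimitiveRoot ζ 3) (hF : FlexF c ν) {S : Multiset (O × O)} (hcard : S.card = 6)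
    (hmap : (rts c).map (Qk c ν) = S.map (fun p => ![some (p.1 : k), some (p.2 : k)]))
    (hp : ∀ p ∈ S, (p.2 : k) ^ 3 * (Bp c).eval (p.1 : k) = (Ap c).eval (p.1 : k) ∧ (Wp c).eval (p.1 : k) ≠ 0 ∧
      ((Wp c).eval (p.1 : k))⁻¹ ∈ O)
    (hPJ : ∀ t n, ¬ 3 ∣ n → (PJ S t).coeff n = 0) : False := by
  obtain ⟨p, hpS⟩ := Multiset.card_pos_iff_exists_mem.1 (show 0 < S.card by rw [hcard]; norm_num)
  obtain ⟨hp1, hp2, hp3⟩ := hp p hpS
  -- `p.2 ≠ 0`
  have hb0 : (p.2 : k) ≠ 0 := by
    intro h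
    rw [h, zero_pow (by norm_num), zero_mul] at hp1
    apply hp2
    unfold Wp
    rw [eval_mul, eval_mul, ← hp1, zero_mul, zero_mul]
  set t := rs O p.1 with ht
  set f : k[X] := (PJ S t).map (algebraMap O k) with hf
  have hfc : ∀ n, ¬ 3 ∣ n → f.coeff n = 0 := fun n hn => by rw [hf, coeff_map, hPJ t n hn, map_zero]
  have hfe : ∀ b : k, f.eval b = 0 ↔ ∃ q ∈ cl S t, (q.2 : k) = b := by
    intro b
    rw [hf]
    unfold PJ
    rw [Polynomial.map_multiset_prod, Multiset.map_map, eval_multiset_prod, Multiset.map_map,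
      Multiset.prod_eq_zero_iff, Multiset.mem_map]
    constructor
    · rintro ⟨q, hq, h⟩
      refine ⟨q, hq, ?_⟩
      simp only [Function.comp_apply, Polynomial.map_sub, map_X, map_C, eval_sub, eval_X, eval_C] at h
      exact (sub_eq_zero.1 h).symm
    · rintro ⟨q, hq, h⟩
      refine ⟨q, hq, ?_⟩
      simp only [Function.comp_apply, Polynomial.map_sub, map_X, map_C, eval_sub, eval_X, eval_C]
      exact sub_eq_zero.2 h.symm
  have hpt : p ∈ cl S t := Multiset.mem_filter.2 ⟨hpS, rfl⟩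
  have hroot : f.eval (p.2 : k) = 0 := (hfe _).2 ⟨p, hpt, rfl⟩
  -- the other points
  have hex : ∀ w : k, w ^ 3 = 1 → ∃ q ∈ S, q.1 = p.1 ∧ (q.2 : k) = w * p.2 := by
    intro w hw
    obtain ⟨q, hq, hq2⟩ := (hfe (w * p.2)).1 (by rw [NR3_zeta hfc hw]; exact hroot)
    obtain ⟨hqS, hqt⟩ := Multiset.mem_filter.1 hq
    refine ⟨q, hqS, ?_, hq2⟩
    have h1 := (hp q hqS).1
    rw [hq2, mul_pow, hw, one_mul] at h1
    exact NR3_eq hS hqt hp1 h1 hp2 hp3
  have hζ3 : ζ ^ 3 = 1 := hζ.pow_eq_one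
  have hζ1 : ζ ≠ 1 := hζ.ne_one (by norm_num)
  obtain ⟨q, hqS, hq1, hq2⟩ := hex ζ hζ3
  obtain ⟨r, hrS, hr1, hr2⟩ := hex (ζ ^ 2) (by rw [← pow_mul, mul_comm, pow_mul, hζ3, one_pow])
  have hdeg : (Hp c).natDegree = 6 := by
    have h1 := Hp_deg c
    have h2 := le_natDegree_of_ne_zero hS.lead0
    omega
  have hlift : ∀ s ∈ S, s.1 = p.1 → ∃ x : k, Flex c (some x) (some (p.1 : k)) ∧ Qk c ν (some x) 1 = some (s.2 : k) := by
    intro s hs hs1
    have h1 : ![some (s.1 : k), some (s.2 : k)] ∈ (rts c).map (Qk c ν) := by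
      rw [hmap]
      exact Multiset.mem_map.2 ⟨s, hs, rfl⟩
    obtain ⟨o, ho, ho2⟩ := Multiset.mem_map.1 h1
    have h2 : o ∈ (Hp c).roots.map some := by
      unfold rts at ho
      rw [hdeg, Nat.sub_self, Multiset.replicate_zero, add_zero] at ho
      exact ho
    obtain ⟨x, _, rfl⟩ := Multiset.mem_map.1 h2
    refine ⟨x, ?_, ?_⟩
    · have h3 := (hF.2.1 _ ho).1
      have h4 : zk c (some x) = some (s.1 : k) := congrFun ho2 0
      rw [h4, hs1] at h3
      exact h3
    · rw [ho2]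
      rfl
  obtain ⟨x, hx, hx2⟩ := hlift p hpS rfl
  obtain ⟨x', hx', hx2'⟩ := hlift q hqS hq1
  obtain ⟨x'', hx'', hx2''⟩ := hlift r hrS hr1
  refine flx_three hc hp2 (x := x) (x' := x') (x'' := x'') ?_ ?_ ?_ hx hx' hx''
  · rintro rfl
    rw [hx2] at hx2'
    have h1 := Option.some_injective _ hx2'
    rw [hq2] at h1
    apply hζ1
    apply mul_right_cancel₀ hb0
    rw [one_mul]
    exact h1.symm
  · rintro rfl
    rw [hx2] at hx2''
    have h1 := Option.some_injective _ hx2''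
    rw [hr2] at h1
    have h2 : ζ ^ 2 = 1 := by
      apply mul_right_cancel₀ hb0
      rw [one_mul]
      exact h1.symm
    apply hζ1
    calc ζ = ζ ^ 2 * ζ := by rw [h2, one_mul]
      _ = ζ ^ 3 := by ring
      _ = 1 := hζ3
  · rintro rfl
    rw [hx2'] at hx2''
    have h1 := Option.some_injective _ hx2''
    rw [hr2, hq2] at h1
    have h2 : ζ = ζ ^ 2 := mul_right_cancel₀ hb0 h1
    apply hζ1
    have h4 : ζ ≠ 0 := hζ.ne_zero (by norm_num)
    apply mul_left_cancel₀ h4
    rw [mul_one, ← sq]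
    exact h2.symm

end Pool.Agent.LibCW77
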