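import Pool.Agent.LibCW77.NDefs

/-!
[CW77 NS] SHORT: a polynomial split by exponents modulo 3 (Mathlib only)

`Polynomial.induction_on'` (sums and monomials: `monomial (3 q + i) a` goes to the part number `i` as `monomial q a`) for the existence; the coefficients then
follow from the equation: `Polynomial.coeff_expand`, `coeff_X_mul`, `coeff_X_pow_mul'` at `3 n`, `3 n + 1`, `3 n + 2`. Or define
`P_i = ∑ n in range (natDegree P + 1), C (P.coeff (3 n + i)) * X ^ n` and compare coefficients.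
-/

open scoped Classical
open Polynomial

namespace Pool.Agent.LibCW77

open Pool.Agent.LibBH2
open Pool.Agent.LibCHd (VR RF Red FunF)

variable {k : Type} [Field k]

private theorem NS_part {R : Type} [CommRing R] (P : R[X]) (i : ℕ) :
    ∃ Q : R[X], ∀ n, Q.coeff n = P.coeff (3 * n + i) := by
  refine ⟨∑ m ∈ Finset.range (P.natDegree + 1), C (P.coeff (3 * m + i)) * X ^ m, fun n => ?_⟩
  rw [finset_sum_coeff]
  simp only [coeff_C_mul_X_pow]
  rw [Finset.sum_ite_eq]
  split_ifs with h
  · rfl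
  · rw [Finset.mem_range, not_lt] at h
    exact (coeff_eq_zero_of_natDegree_lt (by omega)).symm

theorem split3 {R : Type} [CommRing R] (P : R[X]) :
    ∃ P0 P1 P2 : R[X], P = expand R 3 P0 + X * expand R 3 P1 + X ^ 2 * expand R 3 P2 ∧
      ∀ n, P0.coeff n = P.coeff (3 * n) ∧ P1.coeff n = P.coeff (3 * n + 1) ∧ P2.coeff n = P.coeff (3 * n + 2) := by
  obtain ⟨P0, h0⟩ := NS_part P 0
  obtain ⟨P1, h1⟩ := NS_part P 1
  obtain ⟨P2, h2⟩ := NS_part P 2
  refine ⟨P0, P1, P2, ?_, fun n => ⟨h0 n, h1 n, h2 n⟩⟩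
  ext m
  rw [coeff_add, coeff_add, coeff_X_pow_mul', coeff_expand (by norm_num : 0 < 3)]
  obtain ⟨q, hq⟩ : ∃ q, m = 3 * q ∨ m = 3 * q + 1 ∨ m = 3 * q + 2 := ⟨m / 3, by omega⟩
  rcases hq with rfl | rfl | rfl
  · have e1 : (X * expand R 3 P1).coeff (3 * q) = 0 := by
      rcases Nat.eq_zero_or_pos q with rfl | hq0
      · simp
      · obtain ⟨r, rfl⟩ : ∃ r, q = r + 1 := ⟨q - 1, by omega⟩
        have e2 : 3 * (r + 1) = (3 * r + 2) + 1 := by ring
        rw [e2, coeff_X_mul, coeff_expand (by norm_num : 0 < 3), if_neg (by omega)]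
    have e3 : (if 2 ≤ 3 * q then (expand R 3 P2).coeff (3 * q - 2) else 0) = 0 := by
      split_ifs with h
      · rw [coeff_expand (by norm_num : 0 < 3), if_neg (by omega)]
      · rfl
    rw [e1, e3, if_pos (Dvd.intro q rfl), Nat.mul_div_cancel_left _ (by norm_num), h0]
    simp
  · have e1 : (X * expand R 3 P1).coeff (3 * q + 1) = P.coeff (3 * q + 1) := by
      rw [coeff_X_mul, coeff_expand (by norm_num : 0 < 3), if_pos (Dvd.intro q rfl),
        Nat.mul_div_cancel_left _ (by norm_num), h1]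
    have e3 : (if 2 ≤ 3 * q + 1 then (expand R 3 P2).coeff (3 * q + 1 - 2) else 0) = 0 := by
      split_ifs with h
      · rw [coeff_expand (by norm_num : 0 < 3), if_neg (by omega)]
      · rfl
    rw [e1, e3, if_neg (by omega)]
    simp
  · have e1 : (X * expand R 3 P1).coeff (3 * q + 2) = 0 := by
      rw [show 3 * q + 2 = (3 * q + 1) + 1 from rfl, coeff_X_mul, coeff_expand (by norm_num : 0 < 3), if_neg (by omega)]
    rw [e1, if_neg (by omega), if_pos (by omega), show 3 * q + 2 - 2 = 3 * q by omega,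
      coeff_expand (by norm_num : 0 < 3), if_pos (Dvd.intro q rfl), Nat.mul_div_cancel_left _ (by norm_num), h2]
    simp

end Pool.Agent.LibCW77
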