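import Pool.Agent.LibCW77.NT6

/-!
[CW77 NT] the algebraic part of the 3-adic theorem.
-/

open scoped Classical
open Polynomial

namespace Pool.Agent.LibCW77

variable {k : Type} [Field k]

theorem nt_alg [IsAlgClosed k] [CharZero k] {O : ValuationSubring k} (h3 : rs O 3 = 0) {A B : O[X]} (hA : A.Monic)
    (hB : B.Monic) {S : Multiset (O × O)} (hcard : S.card = 6) (hdiv : ∀ t, 3 ∣ (cl S t).card)
    (hSB : ∀ p ∈ S, rs O (B.eval p.1) ≠ 0) (hSA : ∀ p ∈ S, rs O (A.eval p.1) ≠ 0)
    (hSW : ∀ p ∈ S, rs O ((derivative A * B - A * derivative B).eval p.1) ≠ 0)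
    (hSb : ∀ p ∈ S, p.2 ^ 3 * B.eval p.1 = A.eval p.1)
    {L : Type} [Field L] (j : RatFunc k →+* L) {v : L}
    (hv : v ^ 3 * j (algebraMap k[X] (RatFunc k) (B.map (algebraMap O k))) =
      j (algebraMap k[X] (RatFunc k) (A.map (algebraMap O k))))
    (hu : ∀ r0 r1 r2 : RatFunc k, j r0 + j r1 * v + j r2 * v ^ 2 = 0 → r0 = 0 ∧ r1 = 0 ∧ r2 = 0)
    {M : ℕ} (hM : 0 < M) {g0 g1 g2 : k[X]} (hg0 : g0.natDegree ≤ 2 * M) (hg1 : g1 = 0 ∨ g1.natDegree + 3 ≤ 2 * M)
    (hg2 : g2 = 0 ∨ g2.natDegree + 3 ≤ 2 * M) {g : L} (hg : g ≠ 0)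
    (hgg : g = j (algebraMap k[X] (RatFunc k) g0) +
      j (algebraMap k[X] (RatFunc k) (B.map (algebraMap O k) * g1)) * v +
      j (algebraMap k[X] (RatFunc k) (B.map (algebraMap O k) * g2)) * v ^ 2)
    (hα : ∀ t, cl S t ≠ 0 → ∃ α0 α1 α2 : RatFunc k,
      g = (j α0 + j α1 * v + j α2 * v ^ 2) * (((cl S t).map fun p => v - j (RatFunc.C (p.2 : k))).prod) ^ M ∧
      ∀ a : O, rs O a = t → α0.denom.eval (a : k) ≠ 0 ∧ α1.denom.eval (a : k) ≠ 0 ∧ α2.denom.eval (a : k) ≠ 0) :
    ∀ t n, ¬ 3 ∣ n → (PJ S t).coeff n = 0 := by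
  have hinj := RatFunc.algebraMap_injective k
  have hinj' := RatFunc.algebraMap_injective (KK O)
  -- reductions
  set f : RatFunc k := algebraMap k[X] (RatFunc k) (A.map (algebraMap O k)) /
    algebraMap k[X] (RatFunc k) (B.map (algebraMap O k)) with hfdef
  set f' : RatFunc (KK O) := algebraMap (KK O)[X] (RatFunc (KK O)) (A.map (rs O)) /
    algebraMap (KK O)[X] (RatFunc (KK O)) (B.map (rs O)) with hf'def
  have hBk : algebraMap k[X] (RatFunc k) (B.map (algebraMap O k)) ≠ 0 := by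
    rw [map_ne_zero_iff _ hinj]
    exact (hB.map (algebraMap O k)).ne_zero
  have hBK : algebraMap (KK O)[X] (RatFunc (KK O)) (B.map (rs O)) ≠ 0 := by
    rw [map_ne_zero_iff _ hinj']
    exact (hB.map (rs O)).ne_zero
  have hf : Rd O f f' := rd_div (rd_pol A) (rd_pol B) hBK
  have hv' : v ^ 3 = j f := by
    rw [hfdef, map_div₀, eq_div_iff (by rwa [_root_.map_ne_zero]), hv]
  -- the classes
  set I : Finset (KK O) := (S.map fun p => rs O p.1).toFinset with hI
  set m : KK O → ℕ := fun t => (cl S t).card / 3 with hmdef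
  have hm : ∀ t, (cl S t).card = 3 * m t := fun t => (Nat.mul_div_cancel' (hdiv t)).symm
  have hs : ∑ y ∈ I, m y = 2 := NT_card hcard hdiv
  have hmem : ∀ t, t ∈ I ↔ cl S t ≠ 0 := by
    intro t
    rw [hI, Multiset.mem_toFinset, Multiset.mem_map]
    constructor
    · rintro ⟨p, hp, hpt⟩ h0
      have h1 : p ∈ cl S t := NT_cl.mpr ⟨hp, hpt⟩
      rw [h0] at h1
      exact Multiset.notMem_zero p h1
    · intro h0
      obtain ⟨p, hp⟩ := Multiset.exists_mem_of_ne_zero h0
      exact ⟨p, NT_cl.mp hp⟩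
  have hm0 : ∀ y ∈ I, 0 < m y := by
    intro y hy
    have h1 := Multiset.card_pos.mpr ((hmem y).mp hy)
    rw [hm y] at h1
    omega
  have hev : ∀ (P : O[X]) (a : O), (P.map (rs O)).eval (rs O a) = rs O (P.eval a) := by
    intro P a
    rw [eval_map, eval₂_hom]
  have hBI : ∀ y ∈ I, (B.map (rs O)).eval y ≠ 0 := by
    intro y hy
    obtain ⟨p, hp⟩ := Multiset.exists_mem_of_ne_zero ((hmem y).mp hy)
    obtain ⟨hp1, hp2⟩ := NT_cl.mp hp
    rw [← hp2, hev]
    exact hSB p hp1
  have hWI : ∀ y ∈ I, (derivative (A.map (rs O)) * (B.map (rs O)) - (A.map (rs O)) * derivative (B.map (rs O))).eval y ≠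
      0 := by
    intro y hy
    obtain ⟨p, hp⟩ := Multiset.exists_mem_of_ne_zero ((hmem y).mp hy)
    obtain ⟨hp1, hp2⟩ := NT_cl.mp hp
    rw [derivative_map, derivative_map, ← Polynomial.map_mul, ← Polynomial.map_mul, ← Polynomial.map_sub, ← hp2, hev]
    exact hSW p hp1
  obtain ⟨y0, hy0⟩ : I.Nonempty := by
    rw [Finset.nonempty_iff_ne_empty]
    intro h0
    rw [h0, Finset.sum_empty] at hs
    omega
  have htr' : Transcendental (KK O) f' := NT_tr (hWI y0 hy0)
  -- scaling of `g`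
  have hg3 : ∃ i, (![g0, g1, g2] : Fin 3 → k[X]) i ≠ 0 := by
    by_contra hc
    push Not at hc
    have c0 : g0 = 0 := hc 0
    have c1 : g1 = 0 := hc 1
    have c2 : g2 = 0 := hc 2
    apply hg
    rw [hgg, c0, c1, c2]
    simp
  obtain ⟨β, P, hβ, hP, hPne⟩ := pol_scale (O := O) ![g0, g1, g2] hg3
  have hP0 : g0 = C β * (P 0).map (algebraMap O k) := hP 0
  have hP1 : g1 = C β * (P 1).map (algebraMap O k) := hP 1
  have hP2 : g2 = C β * (P 2).map (algebraMap O k) := hP 2
  have hCβ : C β⁻¹ * C β = (1 : k[X]) := by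
    rw [← C_mul, inv_mul_cancel₀ hβ, C_1]
  set G : Fin 3 → RatFunc k := ![algebraMap k[X] (RatFunc k) g0,
    algebraMap k[X] (RatFunc k) (B.map (algebraMap O k) * g1),
    algebraMap k[X] (RatFunc k) (B.map (algebraMap O k) * g2)] with hGdef
  set G' : Fin 3 → RatFunc (KK O) := ![algebraMap (KK O)[X] (RatFunc (KK O)) ((P 0).map (rs O)),
    algebraMap (KK O)[X] (RatFunc (KK O)) (B.map (rs O) * (P 1).map (rs O)),
    algebraMap (KK O)[X] (RatFunc (KK O)) (B.map (rs O) * (P 2).map (rs O))] with hG'def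
  have hG : ∀ l, Rd O (RatFunc.C β⁻¹ * G l) (G' l) := by
    intro l
    fin_cases l
    · show Rd O (RatFunc.C β⁻¹ * algebraMap k[X] (RatFunc k) g0) (algebraMap (KK O)[X] (RatFunc (KK O)) ((P 0).map (rs O)))
      rw [hP0, ← RatFunc.algebraMap_C, ← map_mul, ← mul_assoc, hCβ, one_mul]
      exact rd_pol _
    · show Rd O (RatFunc.C β⁻¹ * algebraMap k[X] (RatFunc k) (B.map (algebraMap O k) * g1))
        (algebraMap (KK O)[X] (RatFunc (KK O)) (B.map (rs O) * (P 1).map (rs O)))
      have h1 := rd_pol (B * P 1)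
      rw [Polynomial.map_mul, Polynomial.map_mul] at h1
      rw [hP1, ← RatFunc.algebraMap_C, ← map_mul]
      rw [show C β⁻¹ * (B.map (algebraMap O k) * (C β * (P 1).map (algebraMap O k))) =
        B.map (algebraMap O k) * (P 1).map (algebraMap O k) by
          linear_combination (B.map (algebraMap O k) * (P 1).map (algebraMap O k)) * hCβ]
      exact h1
    · show Rd O (RatFunc.C β⁻¹ * algebraMap k[X] (RatFunc k) (B.map (algebraMap O k) * g2))
        (algebraMap (KK O)[X] (RatFunc (KK O)) (B.map (rs O) * (P 2).map (rs O)))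
      have h1 := rd_pol (B * P 2)
      rw [Polynomial.map_mul, Polynomial.map_mul] at h1
      rw [hP2, ← RatFunc.algebraMap_C, ← map_mul]
      rw [show C β⁻¹ * (B.map (algebraMap O k) * (C β * (P 2).map (algebraMap O k))) =
        B.map (algebraMap O k) * (P 2).map (algebraMap O k) by
          linear_combination (B.map (algebraMap O k) * (P 2).map (algebraMap O k)) * hCβ]
      exact h1
  have hG0 : ∃ l, G' l ≠ 0 := by
    obtain ⟨l, hl⟩ := hPne
    refine ⟨l, ?_⟩
    fin_cases l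
    · show algebraMap (KK O)[X] (RatFunc (KK O)) ((P 0).map (rs O)) ≠ 0
      rw [map_ne_zero_iff _ hinj']
      exact hl
    · show algebraMap (KK O)[X] (RatFunc (KK O)) (B.map (rs O) * (P 1).map (rs O)) ≠ 0
      rw [map_ne_zero_iff _ hinj']
      exact mul_ne_zero (hB.map (rs O)).ne_zero hl
    · show algebraMap (KK O)[X] (RatFunc (KK O)) (B.map (rs O) * (P 2).map (rs O)) ≠ 0
      rw [map_ne_zero_iff _ hinj']
      exact mul_ne_zero (hB.map (rs O)).ne_zero hl
  have hgG : g = j (G 0) + j (G 1) * v + j (G 2) * v ^ 2 := hgg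
  -- data of the classes
  have hdata : ∀ t ∈ I, ∃ (P : Fin 3 → O[X]) (α : Fin 3 → RatFunc k) (βt : k) (α' : Fin 3 → RatFunc (KK O)) (c : KK O),
      NTData j v f g f' G' S M t (m t) ((A.map (rs O)).eval t / (B.map (rs O)).eval t) P α βt α' c := fun t ht =>
    NT_data h3 hSB hSb j hv' hf htr' hu hgG hβ hG hG0 (hm t) (hα t ((hmem t).mp ht))
  choose! Pt α βt α' c hD using hdata
  have hregα : ∀ y ∈ I, ∀ l, (α' y l).denom.eval y ≠ 0 := by
    intro y hy l
    refine rd_reg ((hD y hy).rd l) y ?_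
    intro a ha
    refine NT_reg_mul ?_ ((hD y hy).reg l a ha)
    refine NT_reg_of (p := C (βt y)⁻¹) (q := 1) (by simp) ?_
    rw [RatFunc.algebraMap_C, map_one, div_one]
  have hdeg : ∀ (l : Fin 3) (q : k[X]), q = C β * (P l).map (algebraMap O k) → ((P l).map (rs O)).natDegree ≤ q.natDegree := by
    intro l q hq
    rw [hq, natDegree_C_mul hβ, natDegree_map_eq_of_injective NT_inj]
    exact natDegree_map_le
  have hdeg' : ∀ (l : Fin 3) (q : k[X]), q = C β * (P l).map (algebraMap O k) → (q = 0 ∨ q.natDegree + 3 ≤ 2 * M) →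
      ((P l).map (rs O) = 0 ∨ ((P l).map (rs O)).natDegree + 3 ≤ 2 * M) := by
    intro l q hq h
    rcases h with h | h
    · left
      rw [h] at hq
      have h1 : (P l).map (algebraMap O k) = 0 := by
        rcases mul_eq_zero.mp hq.symm with h2 | h2
        · exact absurd (C_eq_zero.mp h2) hβ
        · exact h2
      rw [(Polynomial.map_eq_zero_iff NT_inj).mp h1, Polynomial.map_zero]
    · right
      have := hdeg l q hq
      omega
  obtain ⟨hz1, hz2, e, he, hPe⟩ := NT_first (P := fun l => (P l).map (rs O)) hs hBI hWI hPne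
    (le_trans (hdeg 0 g0 hP0) hg0) (hdeg' 1 g1 hP1 hg1) (hdeg' 2 g2 hP2 hg2) (fun y hy => (hD y hy).hc) hregα
    (fun y hy l => by
      have h1 := (hD y hy).gl l
      rw [← h1, hG'def])
  have hG1' : ∀ l : Fin 2, G' l.succ = 0 := by
    intro l
    fin_cases l
    · show algebraMap (KK O)[X] (RatFunc (KK O)) (B.map (rs O) * (P 1).map (rs O)) = 0
      have : (P 1).map (rs O) = 0 := hz1
      rw [this, mul_zero, map_zero]
    · show algebraMap (KK O)[X] (RatFunc (KK O)) (B.map (rs O) * (P 2).map (rs O)) = 0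
      have : (P 2).map (rs O) = 0 := hz2
      rw [this, mul_zero, map_zero]
  have hG0' : G' 0 = algebraMap (KK O)[X] (RatFunc (KK O)) (C e * (∏ y ∈ I, (X - C y) ^ m y) ^ M) := by
    show algebraMap (KK O)[X] (RatFunc (KK O)) ((P 0).map (rs O)) = _
    have : (P 0).map (rs O) = _ := hPe
    rw [this]
  have hQ0 : C e * (∏ y ∈ I, (X - C y) ^ m y) ^ M ≠ 0 := by
    apply mul_ne_zero (C_ne_zero.mpr he)
    apply pow_ne_zero
    apply Finset.prod_ne_zero_iff.mpr
    intro y _
    exact pow_ne_zero _ (X_sub_C_ne_zero y)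
  have hG0ne : G' 0 ≠ 0 := by
    rw [hG0', map_ne_zero_iff _ hinj']
    exact hQ0
  have hinvα : ∀ y ∈ I, ((α' y 0)⁻¹).denom.eval y ≠ 0 ∧ α' y 0 ≠ 0 := by
    intro y hy
    refine NT_inv (I := I) (m := m) (M := M) (e := e) (c := c y) hy (hBI y hy) (hWI y hy) he ?_
    rw [← hG0']
    exact (hD y hy).gl 0
  have hwne : ∀ y, (f' - RatFunc.C ((A.map (rs O)).eval y / (B.map (rs O)).eval y)) ^ m y ≠ 0 := by
    intro y
    apply pow_ne_zero
    intro h0
    have h1 := (transcendental_iff.mp htr') (X - C ((A.map (rs O)).eval y / (B.map (rs O)).eval y)) (by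
      rw [map_sub, aeval_X, aeval_C]
      exact h0)
    exact X_sub_C_ne_zero _ h1
  have hα1' : ∀ y ∈ I, ∀ l : Fin 2, α' y l.succ = 0 := by
    intro y hy l
    have h1 := (hD y hy).gl l.succ
    rw [hG1' l] at h1
    rcases mul_eq_zero.mp h1.symm with h2 | h2
    · rcases mul_eq_zero.mp h2 with h4 | h4
      · exact absurd ((map_eq_zero _).mp h4) (hD y hy).hc
      · exact h4
    · exact absurd h2 (pow_ne_zero _ (hwne y))
  have hGne : G 0 ≠ 0 := by
    intro h0
    have h1 := hG 0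
    rw [h0, mul_zero] at h1
    exact hG0ne (rd_unique h1 rd_zero)
  have hαne : ∀ y ∈ I, α y 0 ≠ 0 := by
    intro y hy h0
    have h1 := (hD y hy).rd 0
    rw [h0, mul_zero] at h1
    exact (hinvα y hy).2 (rd_unique h1 rd_zero)
  set F : KK O → Fin 3 → RatFunc k := fun y l => aeval f ((Pt y l).map (algebraMap O k)) with hFdef
  have hF0 : ∀ y ∈ I, F y 0 ≠ 0 := fun y hy => rd_ne (hD y hy).p0 (hwne y)
  have hF1 : ∀ y ∈ I, ∀ l : Fin 2, Rd O (F y l.succ) 0 := by
    intro y hy l
    fin_cases l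
    · exact (hD y hy).p1
    · exact (hD y hy).p2
  have hMk : (M : k) ≠ 0 := Nat.cast_ne_zero.mpr hM.ne'
  -- the family
  set T : Fin 2 ⊕ ((I × Fin 2) ⊕ (I × Fin 2)) → RatFunc k := Sum.elim (fun l => G l.succ / G 0)
    (Sum.elim (fun q => α q.1 q.2.succ / α q.1 0) (fun q => RatFunc.C (M : k) * (F q.1 q.2.succ / F q.1 0))) with hT
  have hr0 : ∀ y ∈ I, ∀ l : Fin 2, Rd O (F y l.succ / F y 0) 0 := by
    intro y hy l
    have h1 := rd_div (hF1 y hy l) (hD y hy).p0 (hwne y)
    rw [zero_div] at h1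
    exact h1
  have hT0 : ∀ i, Rd O (T i) 0 := by
    rintro (l | ⟨⟨y, hy⟩, l⟩ | ⟨⟨y, hy⟩, l⟩)
    · have h1 := rd_div (hG l.succ) (hG 0) hG0ne
      rw [hG1' l, zero_div, mul_div_mul_left _ _ (by
        rw [_root_.map_ne_zero]
        exact inv_ne_zero hβ)] at h1
      exact h1
    · have h1 := rd_div ((hD y hy).rd l.succ) ((hD y hy).rd 0) (hinvα y hy).2
      rw [hα1' y hy l, zero_div, mul_div_mul_left _ _ (by
        rw [_root_.map_ne_zero]
        exact inv_ne_zero (hD y hy).hβ)] at h1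
      exact h1
    · have h1 := rd_mul (rd_C (M : O)) (hr0 y hy l)
      rw [mul_zero] at h1
      have h2 : ((M : O) : k) = (M : k) := by push_cast; rfl
      rw [h2] at h1
      exact h1
  -- everything is zero
  have hall : ∀ i, T i = 0 := by
    by_contra hc0
    push Not at hc0
    obtain ⟨β0, hβ0, T', hT', ⟨i0, hi0⟩⟩ := rd_scale (O := O) T hc0
    obtain ⟨b, hb, hb'⟩ := NT_small (hT0 i0) hβ0 (hT' i0) hi0
    subst hb
    have hb0 : b ≠ 0 := by
      intro h0
      apply hβ0
      rw [h0]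
      rfl
    have hCb : RatFunc.C (b : k) * RatFunc.C (b : k)⁻¹ = (1 : RatFunc k) := by
      rw [← map_mul, mul_inv_cancel₀ hβ0, map_one]
    -- comparison
    have hcmp : ∀ y (hy : y ∈ I) (l : Fin 2), T' (Sum.inl l) = T' (Sum.inr (Sum.inl (⟨y, hy⟩, l))) +
        T' (Sum.inr (Sum.inr (⟨y, hy⟩, l))) := by
      intro y hy
      obtain ⟨Z, s, hZ, hs1, hs2⟩ := NT_pw j hv' hf h3 hM hβ0 (r := fun l : Fin 2 => F y l.succ / F y 0) (hr0 y hy)
        (τ := fun l => T' (Sum.inr (Sum.inr (⟨y, hy⟩, l)))) (fun l => hT' (Sum.inr (Sum.inr (⟨y, hy⟩, l))))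
      have hw0 : α y 0 * (F y 0) ^ M * Z ≠ 0 :=
        mul_ne_zero (mul_ne_zero (hαne y hy) (pow_ne_zero _ (hF0 y hy))) (rd_ne hZ one_ne_zero)
      refine cmp j hv' hf hu hb' hb0 hw0 (g0 := G 0) (γ := fun l => RatFunc.C (b : k)⁻¹ * T (Sum.inl l))
        (a := fun l => RatFunc.C (b : k)⁻¹ * T (Sum.inr (Sum.inl (⟨y, hy⟩, l)))) (s := s)
        (fun l => hT' (Sum.inl l)) (fun l => hT' (Sum.inr (Sum.inl (⟨y, hy⟩, l)))) hs1 ?_
      have e1 : j (G 0) * (1 + j (RatFunc.C (b : k)) * (j (RatFunc.C (b : k)⁻¹ * T (Sum.inl 0)) * v +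
          j (RatFunc.C (b : k)⁻¹ * T (Sum.inl 1)) * v ^ 2)) = g := by
        have t0 : G 0 * (RatFunc.C (b : k) * (RatFunc.C (b : k)⁻¹ * T (Sum.inl 0))) = G 1 := by
          rw [← mul_assoc, ← mul_assoc, mul_assoc (G 0), hCb, mul_one]
          show G 0 * (G 1 / G 0) = G 1
          rw [mul_div_cancel₀ _ hGne]
        have t1 : G 0 * (RatFunc.C (b : k) * (RatFunc.C (b : k)⁻¹ * T (Sum.inl 1))) = G 2 := by
          rw [← mul_assoc, ← mul_assoc, mul_assoc (G 0), hCb, mul_one]
          show G 0 * (G 2 / G 0) = G 2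
          rw [mul_div_cancel₀ _ hGne]
        have t0' := congrArg j t0
        have t1' := congrArg j t1
        simp only [map_mul] at t0' t1' ⊢
        rw [hgG]
        linear_combination v * t0' + v ^ 2 * t1'
      have e2 : j (α y 0) * (1 + j (RatFunc.C (b : k)) * (j (RatFunc.C (b : k)⁻¹ * T (Sum.inr (Sum.inl (⟨y, hy⟩, 0)))) * v +
          j (RatFunc.C (b : k)⁻¹ * T (Sum.inr (Sum.inl (⟨y, hy⟩, 1)))) * v ^ 2)) =
          j (α y 0) + j (α y 1) * v + j (α y 2) * v ^ 2 := by
        have t0 : α y 0 * (RatFunc.C (b : k) * (RatFunc.C (b : k)⁻¹ * T (Sum.inr (Sum.inl (⟨y, hy⟩, 0))))) = α y 1 := by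
          rw [← mul_assoc, ← mul_assoc, mul_assoc (α y 0), hCb, mul_one]
          show α y 0 * (α y 1 / α y 0) = α y 1
          rw [mul_div_cancel₀ _ (hαne y hy)]
        have t1 : α y 0 * (RatFunc.C (b : k) * (RatFunc.C (b : k)⁻¹ * T (Sum.inr (Sum.inl (⟨y, hy⟩, 1))))) = α y 2 := by
          rw [← mul_assoc, ← mul_assoc, mul_assoc (α y 0), hCb, mul_one]
          show α y 0 * (α y 2 / α y 0) = α y 2
          rw [mul_div_cancel₀ _ (hαne y hy)]
        have t0' := congrArg j t0
        have t1' := congrArg j t1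
        simp only [map_mul] at t0' t1' ⊢
        linear_combination v * t0' + v ^ 2 * t1'
      have e3 : (j (F y 0) + j (F y 1) * v + j (F y 2) * v ^ 2) ^ M =
          j (F y 0) ^ M * (j Z * (1 + j (RatFunc.C (b : k)) * (j (s 0) * v + j (s 1) * v ^ 2))) := by
        rw [← hs2, ← mul_pow]
        congr 1
        have t0 : F y 0 * (F y 1 / F y 0) = F y 1 := mul_div_cancel₀ _ (hF0 y hy)
        have t1 : F y 0 * (F y 2 / F y 0) = F y 2 := mul_div_cancel₀ _ (hF0 y hy)
        have t0' := congrArg j t0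
        have t1' := congrArg j t1
        show _ = j (F y 0) * (1 + (j (F y 1 / F y 0) * v + j (F y 2 / F y 0) * v ^ 2))
        rw [map_mul] at t0' t1'
        linear_combination (-v) * t0' - v ^ 2 * t1'
      have e4 := (hD y hy).eq
      change g = (j (α y 0) + j (α y 1) * v + j (α y 2) * v ^ 2) *
        (j (F y 0) + j (F y 1) * v + j (F y 2) * v ^ 2) ^ M at e4
      rw [e1, e4, e3, ← e2]
      simp only [map_mul, map_pow]
      ring
    -- the final argument
    set a' : KK O → Fin 2 → RatFunc (KK O) := fun y l =>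
      if hy : y ∈ I then T' (Sum.inr (Sum.inl (⟨y, hy⟩, l))) else 0 with ha'
    set s' : KK O → Fin 2 → RatFunc (KK O) := fun y l =>
      if hy : y ∈ I then T' (Sum.inr (Sum.inr (⟨y, hy⟩, l))) else 0 with hs'
    have haT : ∀ y (hy : y ∈ I) l, a' y l = T' (Sum.inr (Sum.inl (⟨y, hy⟩, l))) := by
      intro y hy l
      simp only [ha', dif_pos hy]
    have hsT : ∀ y (hy : y ∈ I) l, s' y l = T' (Sum.inr (Sum.inr (⟨y, hy⟩, l))) := by
      intro y hy l
      simp only [hs', dif_pos hy]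
    have hfin : ∀ l : Fin 2, T' (Sum.inl l) = 0 ∧ ∀ y ∈ I, a' y l = 0 ∧ s' y l = 0 := by
      intro l
      have hPo : ∀ y ∈ I, ∃ Po : (KK O)[X], (Po = 0 ∨ Po.natDegree < m y) ∧
          s' y l * (f' - RatFunc.C ((A.map (rs O)).eval y / (B.map (rs O)).eval y)) ^ m y = aeval f' Po := by
        intro y hy
        have h1 := rd_mul (hT' (Sum.inr (Sum.inr (⟨y, hy⟩, l)))) (hD y hy).p0
        have h2 : RatFunc.C (b : k)⁻¹ * T (Sum.inr (Sum.inr (⟨y, hy⟩, l))) *
            aeval f ((Pt y 0).map (algebraMap O k)) =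
            aeval f (C ((b : k)⁻¹ * (M : k)) * (Pt y l.succ).map (algebraMap O k)) := by
          show RatFunc.C (b : k)⁻¹ * (RatFunc.C (M : k) * (F y l.succ / F y 0)) * F y 0 = _
          rw [mul_assoc, mul_assoc, div_mul_cancel₀ _ (hF0 y hy), map_mul, aeval_C]
          show _ = RatFunc.C ((b : k)⁻¹ * (M : k)) * F y l.succ
          rw [map_mul]
          ring
        rw [h2] at h1
        obtain ⟨Po, hPo1, hPo2⟩ := NT_polf hf htr' h1
        refine ⟨Po.map (rs O), ?_, ?_⟩
        · have hco : ∀ n, m y ≤ n → Po.coeff n = 0 := by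
            intro n hn
            have h5 : (Pt y l.succ).coeff n = 0 := by
              fin_cases l
              · exact (hD y hy).d1 n hn
              · exact (hD y hy).d2 n hn
            have h6 := congrArg (fun q : k[X] => q.coeff n) hPo1
            simp only [coeff_C_mul, coeff_map] at h6
            rw [h5, map_zero, mul_zero] at h6
            exact (NT_inj (h6.symm.trans (map_zero _).symm))
          by_cases h0 : Po.map (rs O) = 0
          · left
            exact h0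
          · right
            by_contra hlt
            push Not at hlt
            have h5 : (Po.map (rs O)).leadingCoeff = 0 := by
              rw [leadingCoeff, coeff_map, hco _ hlt, map_zero]
            exact h0 (leadingCoeff_eq_zero.mp h5)
        · rw [hsT y hy l]
          exact hPo2
      choose! Po hPo1 hPo2 using hPo
      -- the numerator
      have hgl : ∃ gl : k[X], G l.succ = algebraMap k[X] (RatFunc k) (B.map (algebraMap O k) * gl) ∧
          (gl = 0 ∨ gl.natDegree + 3 ≤ 2 * M) := by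
        fin_cases l
        · exact ⟨g1, rfl, hg1⟩
        · exact ⟨g2, rfl, hg2⟩
      obtain ⟨gl, hgl1, hgl2⟩ := hgl
      have h1 := rd_div (rd_mul (hT' (Sum.inl l)) (hG 0)) (rd_pol B) hBK
      have h2 : RatFunc.C (b : k)⁻¹ * T (Sum.inl l) * (RatFunc.C β⁻¹ * G 0) /
          algebraMap k[X] (RatFunc k) (B.map (algebraMap O k)) =
          algebraMap k[X] (RatFunc k) (C ((b : k)⁻¹ * β⁻¹) * gl) := by
        rw [div_eq_iff hBk]
        show RatFunc.C (b : k)⁻¹ * (G l.succ / G 0) * (RatFunc.C β⁻¹ * G 0) = _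
        have h4 : G l.succ / G 0 * G 0 = G l.succ := div_mul_cancel₀ _ hGne
        rw [map_mul, RatFunc.algebraMap_C, map_mul]
        rw [hgl1, map_mul] at h4
        rw [hgl1, map_mul]
        linear_combination RatFunc.C (b : k)⁻¹ * RatFunc.C β⁻¹ * h4
      rw [h2] at h1
      obtain ⟨Q1, hQ1, hQ2⟩ := NT_poly h1
      have hh : Q1.map (rs O) = 0 ∨ (Q1.map (rs O)).natDegree + 3 ≤ 2 * M := by
        rcases hgl2 with h5 | h5
        · left
          rw [h5, mul_zero] at hQ1
          rw [(Polynomial.map_eq_zero_iff NT_inj).mp hQ1.symm, Polynomial.map_zero]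
        · right
          have h6 : (Q1.map (rs O)).natDegree ≤ Q1.natDegree := natDegree_map_le
          have h7 : Q1.natDegree = (Q1.map (algebraMap O k)).natDegree :=
            (natDegree_map_eq_of_injective NT_inj _).symm
          have h8 : (C ((b : k)⁻¹ * β⁻¹) * gl).natDegree ≤ gl.natDegree := natDegree_C_mul_le _ _
          rw [← hQ1] at h7
          omega
      have hγ : T' (Sum.inl l) = algebraMap (KK O)[X] (RatFunc (KK O)) (B.map (rs O) * Q1.map (rs O)) /
          algebraMap (KK O)[X] (RatFunc (KK O)) (C e * (∏ y ∈ I, (X - C y) ^ m y) ^ M) := by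
        rw [← hG0', eq_div_iff hG0ne, map_mul, ← hQ2, mul_div_cancel₀ _ hBK]
      have hreg' : ∀ y ∈ I, (a' y l).denom.eval y ≠ 0 := by
        intro y hy
        rw [haT y hy l]
        have h5 := rd_mul (hT' (Sum.inr (Sum.inl (⟨y, hy⟩, l)))) ((hD y hy).rd 0)
        have h6 : RatFunc.C (b : k)⁻¹ * T (Sum.inr (Sum.inl (⟨y, hy⟩, l))) * (RatFunc.C (βt y)⁻¹ * α y 0) =
            RatFunc.C ((b : k)⁻¹ * (βt y)⁻¹) * α y l.succ := by
          show RatFunc.C (b : k)⁻¹ * (α y l.succ / α y 0) * (RatFunc.C (βt y)⁻¹ * α y 0) = _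
          have h4 : α y l.succ / α y 0 * α y 0 = α y l.succ := div_mul_cancel₀ _ (hαne y hy)
          rw [map_mul]
          linear_combination RatFunc.C (b : k)⁻¹ * RatFunc.C (βt y)⁻¹ * h4
        rw [h6] at h5
        have h7 := rd_reg h5 y (fun x hx => by
          refine NT_reg_mul ?_ ((hD y hy).reg l.succ x hx)
          refine NT_reg_of (p := C ((b : k)⁻¹ * (βt y)⁻¹)) (q := 1) (by simp) ?_
          rw [RatFunc.algebraMap_C, map_one, div_one])
        have h8 := NT_reg_mul h7 (hinvα y hy).1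
        rw [mul_assoc, mul_inv_cancel₀ (hinvα y hy).2, mul_one] at h8
        exact h8
      have hE : ∀ y ∈ I, T' (Sum.inl l) = a' y l + aeval f' (Po y) /
          (f' - RatFunc.C ((A.map (rs O)).eval y / (B.map (rs O)).eval y)) ^ m y := by
        intro y hy
        rw [← hPo2 y hy, mul_div_cancel_right₀ _ (hwne y), haT y hy, hsT y hy]
        exact hcmp y hy l
      obtain ⟨hr1, hr2⟩ := fin_arg hm0 hs hBI hWI hM hh he hγ (fun y => a' y l) Po hreg' hPo1 hE
      refine ⟨hr1, ?_⟩
      intro y hy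
      refine ⟨(hr2 y hy).2, ?_⟩
      have h5 := hPo2 y hy
      rw [(hr2 y hy).1, map_zero] at h5
      rcases mul_eq_zero.mp h5 with h6 | h6
      · exact h6
      · exact absurd h6 (hwne y)
    apply hi0
    rcases i0 with l | ⟨⟨y, hy⟩, l⟩ | ⟨⟨y, hy⟩, l⟩
    · exact (hfin l).1
    · rw [← haT y hy l]
      exact ((hfin l).2 y hy).1
    · rw [← hsT y hy l]
      exact ((hfin l).2 y hy).2
  -- conclusion
  intro t n hn
  by_cases ht : t ∈ I
  · have hz : ∀ l : Fin 2, Pt t l.succ = 0 := by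
      intro l
      have h1 : RatFunc.C (M : k) * (F t l.succ / F t 0) = 0 := hall (Sum.inr (Sum.inr (⟨t, ht⟩, l)))
      have h2 : F t l.succ = 0 := by
        rcases mul_eq_zero.mp h1 with h4 | h4
        · exact absurd ((map_eq_zero _).mp h4) hMk
        · rcases div_eq_zero_iff.mp h4 with h5 | h5
          · exact h5
          · exact absurd h5 (hF0 t ht)
      obtain ⟨p, hp⟩ := Multiset.exists_mem_of_ne_zero ((hmem t).mp ht)
      have h4 : Transcendental k f := by
        refine NT_tr (y := (p.1 : k)) ?_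
        rw [derivative_map, derivative_map, ← Polynomial.map_mul, ← Polynomial.map_mul, ← Polynomial.map_sub]
        have h5 : ((derivative A * B - A * derivative B).map (algebraMap O k)).eval (p.1 : k) =
            (((derivative A * B - A * derivative B).eval p.1 : O) : k) := by
          rw [show (p.1 : k) = algebraMap O k p.1 from rfl, eval_map, eval₂_hom]
          rfl
        rw [h5]
        intro h6
        apply hSW p (NT_cl.mp hp).1
        have h7 : (derivative A * B - A * derivative B).eval p.1 = 0 := Subtype.ext h6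
        rw [h7, map_zero]
      exact (Polynomial.map_eq_zero_iff NT_inj).mp ((transcendental_iff.mp h4) _ h2)
    have hz1' : Pt t 1 = 0 := hz 0
    have hz2' : Pt t 2 = 0 := hz 1
    have h5 : n % 3 = 1 ∨ n % 3 = 2 := by omega
    rcases h5 with h5 | h5
    · have h6 := ((hD t ht).pj (n / 3)).2.1
      rw [hz1', coeff_zero] at h6
      rw [show n = 3 * (n / 3) + 1 by omega]
      exact h6.symm
    · have h6 := ((hD t ht).pj (n / 3)).2.2
      rw [hz2', coeff_zero] at h6
      rw [show n = 3 * (n / 3) + 2 by omega]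
      exact h6.symm
  · have h1 : cl S t = 0 := by
      by_contra h0
      exact ht ((hmem t).mpr h0)
    have h2 : n ≠ 0 := by
      rintro rfl
      exact hn (dvd_zero 3)
    rw [PJ, h1, Multiset.map_zero, Multiset.prod_zero, coeff_one, if_neg h2]

end Pool.Agent.LibCW77
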