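import Pool.Agent.LibCW77.NG1
import Pool.Agent.LibCW77.NG2
import Pool.Agent.LibCW77.NG3
import Pool.Agent.LibCW77.NP
import Pool.Agent.LibCW77.NC
import Pool.Agent.LibCW77.NF
import Pool.Agent.LibCW77.NS

/-!
[CW77 NT1] lemmas for the comparison of leading terms.
-/

open scoped Classical
open Polynomial

namespace Pool.Agent.LibCW77

/-! ### regularity at a point -/

section Reg

variable {κ : Type} [Field κ]

theorem NT_reg_of {t : κ} {r : RatFunc κ} {p q : κ[X]} (hq : q.eval t ≠ 0)
    (h : r = algebraMap κ[X] (RatFunc κ) p / algebraMap κ[X] (RatFunc κ) q) : r.denom.eval t ≠ 0 := by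
  have hq0 : q ≠ 0 := by
    rintro rfl
    simp at hq
  intro hd
  apply hq
  obtain ⟨s, hs⟩ : r.denom ∣ q := by
    rw [h]
    exact RatFunc.denom_div_dvd p q
  rw [hs, eval_mul, hd, zero_mul]

theorem NT_reg_to {t : κ} {r : RatFunc κ} (h : r.denom.eval t ≠ 0) : ∃ p q : κ[X], q.eval t ≠ 0 ∧
    r = algebraMap κ[X] (RatFunc κ) p / algebraMap κ[X] (RatFunc κ) q :=
  ⟨r.num, r.denom, h, (RatFunc.num_div_denom r).symm⟩

theorem NT_reg_mul {t : κ} {r s : RatFunc κ} (hr : r.denom.eval t ≠ 0) (hs : s.denom.eval t ≠ 0) :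
    (r * s).denom.eval t ≠ 0 := by
  obtain ⟨p, q, hq, h⟩ := NT_reg_to hr
  obtain ⟨p1, q1, hq1, h1⟩ := NT_reg_to hs
  refine NT_reg_of (p := p * p1) (q := q * q1) ?_ ?_
  · rw [eval_mul]
    exact mul_ne_zero hq hq1
  · rw [h, h1, map_mul, map_mul, div_mul_div_comm]

/-- the inverse of a function with a value `≠ 0` -/
theorem NT_reg_inv {t : κ} {r : RatFunc κ} {p q : κ[X]} (hp : p.eval t ≠ 0)
    (h : r = algebraMap κ[X] (RatFunc κ) p / algebraMap κ[X] (RatFunc κ) q) : (r⁻¹).denom.eval t ≠ 0 := by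
  refine NT_reg_of (p := q) (q := p) hp ?_
  rw [h, inv_div]

/-! ### `f = A / B` -/

theorem NT_tr {A B : κ[X]} {y : κ} (hW : (derivative A * B - A * derivative B).eval y ≠ 0) :
    Transcendental κ (algebraMap κ[X] (RatFunc κ) A / algebraMap κ[X] (RatFunc κ) B) := by
  apply RatFunc.transcendental_of_ne_C
  rintro ⟨c, hc⟩
  have hB : B ≠ 0 := by
    rintro rfl
    simp at hW
  have hB' : algebraMap κ[X] (RatFunc κ) B ≠ 0 := by
    simpa using hB
  rw [div_eq_iff hB', ← RatFunc.algebraMap_C, ← map_mul] at hc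
  have h := RatFunc.algebraMap_injective κ hc
  apply hW
  rw [h]
  simp only [derivative_mul, derivative_C, zero_mul, zero_add]
  rw [mul_right_comm, sub_self, eval_zero]

/-- `f - f(y) = (x - y) u / (B(y) B)` -/
theorem NT_sub {A B : κ[X]} {y : κ} (hB : B.eval y ≠ 0)
    (hW : (derivative A * B - A * derivative B).eval y ≠ 0) :
    ∃ u : κ[X], u.eval y ≠ 0 ∧
      algebraMap κ[X] (RatFunc κ) A / algebraMap κ[X] (RatFunc κ) B - RatFunc.C (A.eval y / B.eval y) =
        algebraMap κ[X] (RatFunc κ) ((X - C y) * u) / algebraMap κ[X] (RatFunc κ) (C (B.eval y) * B) := by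
  have hB0 : B ≠ 0 := by
    rintro rfl
    simp at hB
  have hB' : algebraMap κ[X] (RatFunc κ) B ≠ 0 := by
    simpa using hB0
  have hr : (C (B.eval y) * A - C (A.eval y) * B).IsRoot y := by
    rw [IsRoot.def, eval_sub, eval_mul, eval_mul, eval_C, eval_C]
    ring
  obtain ⟨u, hu⟩ := dvd_iff_isRoot.mpr hr
  refine ⟨u, ?_, ?_⟩
  · have h1 := congrArg (fun p => (derivative p).eval y) hu
    simp only [derivative_sub, derivative_mul, derivative_C, derivative_X, eval_sub, eval_add, eval_mul, eval_C,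
      eval_X, sub_self, zero_mul, zero_add, sub_zero, one_mul, add_zero, eval_one] at h1
    rw [← h1]
    intro h2
    apply hW
    rw [eval_sub, eval_mul, eval_mul]
    linear_combination h2
  · rw [← hu]
    have hC : RatFunc.C (A.eval y / B.eval y) = algebraMap κ[X] (RatFunc κ) (C (A.eval y)) /
        algebraMap κ[X] (RatFunc κ) (C (B.eval y)) := by
      rw [RatFunc.algebraMap_C, RatFunc.algebraMap_C, ← map_div₀]
    have hBy : algebraMap κ[X] (RatFunc κ) (C (B.eval y)) ≠ 0 := by
      simpa using hB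
    rw [hC, map_mul, map_sub, map_mul, map_mul, div_sub_div _ _ hB' hBy, mul_comm (algebraMap κ[X] (RatFunc κ) B)]
    congr 1
    · ring
    · ring

end Reg

/-! ### reduction -/

section Rdc

variable {k : Type} [Field k] {O : ValuationSubring k}

theorem NT_inj : Function.Injective (algebraMap O k) := Subtype.val_injective

/-- values of polynomials at rational functions -/
theorem NT_eval {f : RatFunc k} {f' : RatFunc (KK O)} (hf : Rd O f f') (P : O[X]) :
    Rd O (aeval f (P.map (algebraMap O k))) (aeval f' (P.map (rs O))) := by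
  induction P using Polynomial.induction_on' with
  | add p q hp hq =>
    rw [Polynomial.map_add, Polynomial.map_add, map_add, map_add]
    exact rd_add hp hq
  | monomial n a =>
    rw [Polynomial.map_monomial, Polynomial.map_monomial, aeval_monomial, aeval_monomial]
    exact rd_mul (rd_C a) (rd_pow hf n)

/-- a polynomial with a reduction -/
theorem NT_poly {p : k[X]} {r' : RatFunc (KK O)} (h : Rd O (algebraMap k[X] (RatFunc k) p) r') :
    ∃ P : O[X], p = P.map (algebraMap O k) ∧ r' = algebraMap (KK O)[X] (RatFunc (KK O)) (P.map (rs O)) := by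
  by_cases hp : p = 0
  · refine ⟨0, by simp [hp], ?_⟩
    rw [hp, map_zero] at h
    rw [rd_unique h rd_zero, Polynomial.map_zero, map_zero]
  · obtain ⟨β, P, hβ, h1, ⟨_, h2⟩⟩ := pol_scale (O := O) (fun _ : Unit => p) ⟨(), hp⟩
    have h1' := h1 ()
    have h3 : algebraMap (KK O)[X] (RatFunc (KK O)) ((P ()).map (rs O)) ≠ 0 := by
      simpa using h2
    have h4 : Rd O (RatFunc.C β * algebraMap k[X] (RatFunc k) ((P ()).map (algebraMap O k))) r' := by
      rw [← RatFunc.algebraMap_C, ← map_mul, ← h1']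
      exact h
    have h5 : β ∈ O := rd_mem (rd_pol (P ())) h3 h4
    refine ⟨C ⟨β, h5⟩ * P (), ?_, ?_⟩
    · rw [Polynomial.map_mul, Polynomial.map_C]
      exact h1'
    · refine rd_unique h ?_
      rw [h1']
      have h6 := rd_pol (C (⟨β, h5⟩ : O) * P ())
      rw [Polynomial.map_mul, Polynomial.map_C] at h6
      exact h6

/-- a polynomial whose value at `f` has a reduction -/
theorem NT_polf {f : RatFunc k} {f' : RatFunc (KK O)} (hf : Rd O f f') (ht : Transcendental (KK O) f') {p : k[X]}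
    {r' : RatFunc (KK O)} (h : Rd O (aeval f p) r') :
    ∃ P : O[X], p = P.map (algebraMap O k) ∧ r' = aeval f' (P.map (rs O)) := by
  by_cases hp : p = 0
  · refine ⟨0, by simp [hp], ?_⟩
    rw [hp, map_zero] at h
    rw [rd_unique h rd_zero, Polynomial.map_zero, map_zero]
  · obtain ⟨β, P, hβ, h1, ⟨_, h2⟩⟩ := pol_scale (O := O) (fun _ : Unit => p) ⟨(), hp⟩
    have h1' := h1 ()
    have h3 : aeval f' ((P ()).map (rs O)) ≠ 0 := by
      intro h0
      exact h2 ((transcendental_iff.mp ht) _ h0)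
    have h4 : Rd O (RatFunc.C β * aeval f ((P ()).map (algebraMap O k))) r' := by
      have : RatFunc.C β * aeval f ((P ()).map (algebraMap O k)) = aeval f p := by
        rw [h1', map_mul, aeval_C]
        rfl
      rw [this]
      exact h
    have h5 : β ∈ O := rd_mem (NT_eval hf (P ())) h3 h4
    refine ⟨C ⟨β, h5⟩ * P (), ?_, ?_⟩
    · rw [Polynomial.map_mul, Polynomial.map_C]
      exact h1'
    · refine rd_unique h ?_
      rw [h1']
      have h6 := NT_eval hf (C (⟨β, h5⟩ : O) * P ())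
      rw [Polynomial.map_mul, Polynomial.map_C] at h6
      exact h6

/-- a number which makes a function with reduction `0` have a reduction `≠ 0` -/
theorem NT_small {r : RatFunc k} (h : Rd O r 0) {β : k} (hβ : β ≠ 0) {s' : RatFunc (KK O)}
    (hs : Rd O (RatFunc.C β⁻¹ * r) s') (hs' : s' ≠ 0) : ∃ b : O, (b : k) = β ∧ rs O b = 0 := by
  have h1 : β⁻¹ ∉ O := by
    intro h2
    have h3 := rd_mul (rd_C (⟨β⁻¹, h2⟩ : O)) h
    rw [mul_zero] at h3
    exact hs' (rd_unique hs h3)
  have h2 : β ∈ O := by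
    rcases O.mem_or_inv_mem β with h3 | h3
    · exact h3
    · exact absurd h3 h1
  refine ⟨⟨β, h2⟩, rfl, ?_⟩
  rw [IsLocalRing.residue_eq_zero_iff, IsLocalRing.mem_maximalIdeal, mem_nonunits_iff]
  intro h3
  apply h1
  obtain ⟨u, hu⟩ := h3
  have h4 : ((u⁻¹ : Oˣ) : O) * (⟨β, h2⟩ : O) = 1 := by
    rw [← hu, Units.inv_mul]
  have h5 := congrArg (fun z : O => (z : k)) h4
  simp only [MulMemClass.coe_mul, OneMemClass.coe_one] at h5
  rw [← eq_inv_of_mul_eq_one_left h5]
  exact ((u⁻¹ : Oˣ) : O).2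

end Rdc

end Pool.Agent.LibCW77
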