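import Pool.Agent.LibCW77.NT1

/-!
[CW77 NT2] the polynomials of the residue classes.
-/

open scoped Classical
open Polynomial

namespace Pool.Agent.LibCW77

variable {k : Type} [Field k] {O : ValuationSubring k}

theorem NT_char (h3 : rs O 3 = 0) : CharP (KK O) 3 := by
  rw [CharP.charP_iff_prime_eq_zero Nat.prime_three]
  rw [← map_natCast (rs O) 3]
  exact h3

theorem NT_cl {S : Multiset (O × O)} {t : KK O} {p : O × O} : p ∈ cl S t ↔ p ∈ S ∧ rs O p.1 = t := by
  rw [cl, Multiset.mem_filter]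

/-- the reduction of `PJ` -/
theorem NT_PJmap (h3 : rs O 3 = 0) {A B : O[X]} {S : Multiset (O × O)} (hSB : ∀ p ∈ S, rs O (B.eval p.1) ≠ 0)
    (hSb : ∀ p ∈ S, p.2 ^ 3 * B.eval p.1 = A.eval p.1) (t : KK O) {m : ℕ} (hm : (cl S t).card = 3 * m) :
    (PJ S t).map (rs O) = expand (KK O) 3 ((X - C ((A.map (rs O)).eval t / (B.map (rs O)).eval t)) ^ m) := by
  haveI := NT_char h3
  haveI : Fact (Nat.Prime 3) := ⟨Nat.prime_three⟩
  have hb : ∀ p ∈ cl S t, (rs O p.2) ^ 3 = (A.map (rs O)).eval t / (B.map (rs O)).eval t := by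
    intro p hp
    obtain ⟨hpS, hpt⟩ := NT_cl.mp hp
    have h1 : (B.map (rs O)).eval t = rs O (B.eval p.1) := by
      rw [← hpt, eval_map, eval₂_hom]
    have h2 : (A.map (rs O)).eval t = rs O (A.eval p.1) := by
      rw [← hpt, eval_map, eval₂_hom]
    have h4 : (B.map (rs O)).eval t ≠ 0 := by
      rw [h1]
      exact hSB p hpS
    rw [eq_div_iff h4, h1, h2, ← hSb p hpS, map_mul, map_pow]
  by_cases h0 : cl S t = 0
  · have hm0 : m = 0 := by
      rw [h0, Multiset.card_zero] at hm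
      omega
    rw [PJ, h0, Multiset.map_zero, Multiset.prod_zero, Polynomial.map_one, hm0, pow_zero, map_one]
  · obtain ⟨p0, hp0⟩ := Multiset.exists_mem_of_ne_zero h0
    have hall : ∀ p ∈ cl S t, rs O p.2 = rs O p0.2 := by
      intro p hp
      have h5 : (rs O p.2) ^ 3 = (rs O p0.2) ^ 3 := by rw [hb p hp, hb p0 hp0]
      exact frobenius_inj (KK O) 3 (by simpa [frobenius_def] using h5)
    have h6 : (PJ S t).map (rs O) = (X - C (rs O p0.2)) ^ (cl S t).card := by
      rw [PJ, ← Polynomial.coe_mapRingHom, map_multiset_prod, Multiset.map_map]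
      rw [← Multiset.prod_replicate, ← Multiset.map_const']
      congr 1
      apply Multiset.map_congr rfl
      intro p hp
      simp only [Function.comp_apply, coe_mapRingHom, Polynomial.map_sub, Polynomial.map_X, Polynomial.map_C]
      rw [hall p hp]
    rw [h6, hm, pow_mul, map_pow]
    congr 1
    rw [sub_pow_char, map_sub, expand_X, expand_C, ← C_pow, hb p0 hp0]

/-- the three parts of `PJ` -/
theorem NT_split (h3 : rs O 3 = 0) {A B : O[X]} {S : Multiset (O × O)} (hSB : ∀ p ∈ S, rs O (B.eval p.1) ≠ 0)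
    (hSb : ∀ p ∈ S, p.2 ^ 3 * B.eval p.1 = A.eval p.1) (t : KK O) {m : ℕ} (hm : (cl S t).card = 3 * m) :
    ∃ P0 P1 P2 : O[X], PJ S t = expand O 3 P0 + X * expand O 3 P1 + X ^ 2 * expand O 3 P2 ∧
      (∀ n, P0.coeff n = (PJ S t).coeff (3 * n) ∧ P1.coeff n = (PJ S t).coeff (3 * n + 1) ∧
        P2.coeff n = (PJ S t).coeff (3 * n + 2)) ∧
      P0.map (rs O) = (X - C ((A.map (rs O)).eval t / (B.map (rs O)).eval t)) ^ m ∧
      P1.map (rs O) = 0 ∧ P2.map (rs O) = 0 ∧ (∀ n, m ≤ n → P1.coeff n = 0) ∧ ∀ n, m ≤ n → P2.coeff n = 0 := by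
  obtain ⟨P0, P1, P2, h1, h2⟩ := split3 (PJ S t)
  have hmap := NT_PJmap h3 hSB hSb t hm
  have hco : ∀ n, (rs O ((PJ S t).coeff n)) =
      (expand (KK O) 3 ((X - C ((A.map (rs O)).eval t / (B.map (rs O)).eval t)) ^ m)).coeff n := by
    intro n
    rw [← hmap, coeff_map]
  have hdeg : ∀ n, 3 * m < n → (PJ S t).coeff n = 0 := by
    intro n hn
    apply coeff_eq_zero_of_natDegree_lt
    refine lt_of_le_of_lt ?_ hn
    rw [← hm, PJ]
    refine le_trans (natDegree_multiset_prod_le _) ?_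
    rw [Multiset.map_map]
    refine le_trans (Multiset.sum_le_card_nsmul _ 1 ?_) ?_
    · intro x hx
      obtain ⟨p, _, rfl⟩ := Multiset.mem_map.mp hx
      simp only [Function.comp_apply]
      exact natDegree_X_sub_C_le _
    · simp
  refine ⟨P0, P1, P2, h1, h2, ?_, ?_, ?_, ?_, ?_⟩
  · ext n
    rw [coeff_map, (h2 n).1, hco, mul_comm 3 n, coeff_expand_mul (by norm_num : 0 < 3)]
  · ext n
    rw [coeff_map, (h2 n).2.1, hco, coeff_expand (by norm_num : 0 < 3), if_neg (by omega), coeff_zero]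
  · ext n
    rw [coeff_map, (h2 n).2.2, hco, coeff_expand (by norm_num : 0 < 3), if_neg (by omega), coeff_zero]
  · intro n hn
    rw [(h2 n).2.1]
    exact hdeg _ (by omega)
  · intro n hn
    rw [(h2 n).2.2]
    exact hdeg _ (by omega)

/-- `∏ (v - b)` in coordinates -/
theorem NT_prod {L : Type} [Field L] (j : RatFunc k →+* L) {v : L} {f : RatFunc k} (hv : v ^ 3 = j f)
    {S : Multiset (O × O)} {t : KK O} {P0 P1 P2 : O[X]}
    (h : PJ S t = expand O 3 P0 + X * expand O 3 P1 + X ^ 2 * expand O 3 P2) :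
    ((cl S t).map fun p => v - j (RatFunc.C (p.2 : k))).prod =
      j (aeval f (P0.map (algebraMap O k))) + j (aeval f (P1.map (algebraMap O k))) * v +
        j (aeval f (P2.map (algebraMap O k))) * v ^ 2 := by
  have h1 : ((cl S t).map fun p => v - j (RatFunc.C (p.2 : k))).prod =
      (PJ S t).eval₂ ((j.comp RatFunc.C).comp (algebraMap O k)) v := by
    rw [PJ, ← Polynomial.coe_eval₂RingHom, map_multiset_prod, Multiset.map_map]
    congr 1
    apply Multiset.map_congr rfl
    intro p _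
    simp only [Function.comp_apply, coe_eval₂RingHom, eval₂_sub, eval₂_X, eval₂_C, RingHom.comp_apply]
    rfl
  have h2 : ∀ P : O[X], (expand O 3 P).eval₂ ((j.comp RatFunc.C).comp (algebraMap O k)) v =
      j (aeval f (P.map (algebraMap O k))) := by
    intro P
    rw [expand_eq_comp_X_pow, eval₂_comp, eval₂_pow, eval₂_X, hv]
    induction P using Polynomial.induction_on' with
    | add p q hp hq => rw [eval₂_add, Polynomial.map_add, map_add, map_add, hp, hq]
    | monomial n a =>
      rw [eval₂_monomial, Polynomial.map_monomial, aeval_monomial, map_mul, map_pow]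
      rfl
  rw [h1, h, eval₂_add, eval₂_add, eval₂_mul, eval₂_mul, h2, h2, h2, eval₂_X, eval₂_pow, eval₂_X]
  ring

end Pool.Agent.LibCW77
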