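import Pool.Agent.LibCW77.NT2

/-!
[CW77 NT3] the leading parts.
-/

open scoped Classical
open Polynomial

namespace Pool.Agent.LibCW77

variable {k : Type} [Field k] {O : ValuationSubring k}

/-- powers of an element with a leading part without `v`, `v ^ 2` -/
theorem NT_pow {L : Type} [Field L] (j : RatFunc k →+* L) {v : L} {f : RatFunc k} {f' : RatFunc (KK O)}
    (hv : v ^ 3 = j f) (hf : Rd O f f') {a0 a1 a2 : RatFunc k} {a' : RatFunc (KK O)} (h0 : Rd O a0 a')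
    (h1 : Rd O a1 0) (h2 : Rd O a2 0) (M : ℕ) :
    ∃ b0 b1 b2 : RatFunc k, Rd O b0 (a' ^ M) ∧ Rd O b1 0 ∧ Rd O b2 0 ∧
      (j a0 + j a1 * v + j a2 * v ^ 2) ^ M = j b0 + j b1 * v + j b2 * v ^ 2 := by
  induction M with
  | zero =>
    refine ⟨1, 0, 0, ?_, rd_zero, rd_zero, ?_⟩
    · rw [pow_zero]
      exact rd_one
    · rw [pow_zero, map_one, map_zero]
      ring
  | succ M ih =>
    obtain ⟨b0, b1, b2, k0, k1, k2, h⟩ := ih
    refine ⟨b0 * a0 + f * (b1 * a2 + b2 * a1), b0 * a1 + b1 * a0 + f * (b2 * a2), b0 * a2 + b1 * a1 + b2 * a0,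
      ?_, ?_, ?_, ?_⟩
    · have := rd_add (rd_mul k0 h0) (rd_mul hf (rd_add (rd_mul k1 h2) (rd_mul k2 h1)))
      simpa [pow_succ] using this
    · have := rd_add (rd_add (rd_mul k0 h1) (rd_mul k1 h0)) (rd_mul hf (rd_mul k2 h2))
      simpa using this
    · have := rd_add (rd_add (rd_mul k0 h2) (rd_mul k1 h1)) (rd_mul k2 h0)
      simpa using this
    · rw [pow_succ, h]
      simp only [map_add, map_mul]
      rw [← hv]
      ring

/-- comparison of leading parts -/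
theorem NT_lead {L : Type} [Field L] (j : RatFunc k →+* L) {v : L} {f : RatFunc k} {f' : RatFunc (KK O)}
    (hv : v ^ 3 = j f) (hf : Rd O f f')
    (hu : ∀ r0 r1 r2 : RatFunc k, j r0 + j r1 * v + j r2 * v ^ 2 = 0 → r0 = 0 ∧ r1 = 0 ∧ r2 = 0)
    {G α W : Fin 3 → RatFunc k} {β : k} (hβ : β ≠ 0) {G' : Fin 3 → RatFunc (KK O)}
    (hG : ∀ l, Rd O (RatFunc.C β⁻¹ * G l) (G' l)) (hG0 : ∃ l, G' l ≠ 0) {w' : RatFunc (KK O)} (hw' : w' ≠ 0)
    (hW0 : Rd O (W 0) w') (hW1 : Rd O (W 1) 0) (hW2 : Rd O (W 2) 0)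
    (h : j (G 0) + j (G 1) * v + j (G 2) * v ^ 2 =
      (j (α 0) + j (α 1) * v + j (α 2) * v ^ 2) * (j (W 0) + j (W 1) * v + j (W 2) * v ^ 2)) :
    ∃ (βt : k) (α' : Fin 3 → RatFunc (KK O)) (c : KK O), βt ≠ 0 ∧ c ≠ 0 ∧
      (∀ l, Rd O (RatFunc.C βt⁻¹ * α l) (α' l)) ∧ ∀ l, G' l = RatFunc.C c * α' l * w' := by
  have hG00 : ∃ l, G l ≠ 0 := by
    obtain ⟨l, hl⟩ := hG0
    refine ⟨l, ?_⟩
    intro h0
    have h1 := hG l
    rw [h0, mul_zero] at h1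
    exact hl (rd_unique h1 rd_zero)
  have hα0 : ∃ l, α l ≠ 0 := by
    by_contra hc
    push Not at hc
    rw [hc 0, hc 1, hc 2, map_zero, zero_mul, zero_mul, add_zero, add_zero, zero_mul] at h
    obtain ⟨e0, e1, e2⟩ := hu _ _ _ h
    obtain ⟨l, hl⟩ := hG00
    fin_cases l
    · exact hl e0
    · exact hl e1
    · exact hl e2
  obtain ⟨βt, hβt, α', hα', hne⟩ := rd_scale (O := O) α hα0
  -- coordinates of the product
  set N : Fin 3 → RatFunc k := ![RatFunc.C βt⁻¹ * α 0 * W 0 + f * (RatFunc.C βt⁻¹ * α 1 * W 2 + RatFunc.C βt⁻¹ * α 2 * W 1),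
    RatFunc.C βt⁻¹ * α 0 * W 1 + RatFunc.C βt⁻¹ * α 1 * W 0 + f * (RatFunc.C βt⁻¹ * α 2 * W 2),
    RatFunc.C βt⁻¹ * α 0 * W 2 + RatFunc.C βt⁻¹ * α 1 * W 1 + RatFunc.C βt⁻¹ * α 2 * W 0] with hN
  have hNr : ∀ l, Rd O (N l) (α' l * w') := by
    intro l
    fin_cases l
    · have := rd_add (rd_mul (hα' 0) hW0) (rd_mul hf (rd_add (rd_mul (hα' 1) hW2) (rd_mul (hα' 2) hW1)))
      simpa [hN] using this
    · have := rd_add (rd_add (rd_mul (hα' 0) hW1) (rd_mul (hα' 1) hW0)) (rd_mul hf (rd_mul (hα' 2) hW2))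
      simpa [hN] using this
    · have := rd_add (rd_add (rd_mul (hα' 0) hW2) (rd_mul (hα' 1) hW1)) (rd_mul (hα' 2) hW0)
      simpa [hN] using this
  have hCβ : RatFunc.C βt * RatFunc.C βt⁻¹ = (1 : RatFunc k) := by
    rw [← map_mul, mul_inv_cancel₀ hβt, map_one]
  have hGN : ∀ l, G l = RatFunc.C βt * N l := by
    have h1 : j (G 0 - RatFunc.C βt * N 0) + j (G 1 - RatFunc.C βt * N 1) * v +
        j (G 2 - RatFunc.C βt * N 2) * v ^ 2 = 0 := by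
      have e0 : RatFunc.C βt * N 0 = α 0 * W 0 + f * (α 1 * W 2 + α 2 * W 1) := by
        simp only [hN, Matrix.cons_val_zero]
        linear_combination (α 0 * W 0 + f * (α 1 * W 2 + α 2 * W 1)) * hCβ
      have e1 : RatFunc.C βt * N 1 = α 0 * W 1 + α 1 * W 0 + f * (α 2 * W 2) := by
        simp only [hN, Matrix.cons_val_one, Matrix.cons_val_zero]
        linear_combination (α 0 * W 1 + α 1 * W 0 + f * (α 2 * W 2)) * hCβ
      have e2 : RatFunc.C βt * N 2 = α 0 * W 2 + α 1 * W 1 + α 2 * W 0 := by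
        have : N 2 = RatFunc.C βt⁻¹ * α 0 * W 2 + RatFunc.C βt⁻¹ * α 1 * W 1 + RatFunc.C βt⁻¹ * α 2 * W 0 := rfl
        rw [this]
        linear_combination (α 0 * W 2 + α 1 * W 1 + α 2 * W 0) * hCβ
      rw [e0, e1, e2]
      simp only [map_sub, map_add, map_mul]
      rw [← hv]
      linear_combination h
    obtain ⟨e0, e1, e2⟩ := hu _ _ _ h1
    intro l
    fin_cases l
    · exact sub_eq_zero.mp e0
    · exact sub_eq_zero.mp e1
    · exact sub_eq_zero.mp e2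
  have hc1 : ∀ l, RatFunc.C (β⁻¹ * βt) * N l = RatFunc.C β⁻¹ * G l := by
    intro l
    rw [hGN l, map_mul]
    ring
  have hmem : β⁻¹ * βt ∈ O := by
    obtain ⟨l, hl⟩ := hne
    have h1 := hG l
    rw [← hc1 l] at h1
    exact rd_mem (hNr l) (mul_ne_zero hl hw') h1
  have hmem' : (β⁻¹ * βt)⁻¹ ∈ O := by
    obtain ⟨l, hl⟩ := hG0
    refine rd_mem (hG l) hl (s' := α' l * w') ?_
    rw [← hc1 l, ← mul_assoc, ← map_mul, inv_mul_cancel₀ (mul_ne_zero (inv_ne_zero hβ) hβt), map_one, one_mul]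
    exact hNr l
  refine ⟨βt, α', rs O ⟨β⁻¹ * βt, hmem⟩, hβt, ?_, hα', ?_⟩
  · intro h0
    have h1 : rs O ((⟨β⁻¹ * βt, hmem⟩ : O) * ⟨(β⁻¹ * βt)⁻¹, hmem'⟩) = 0 := by
      rw [map_mul, h0, zero_mul]
    have h2 : (⟨β⁻¹ * βt, hmem⟩ : O) * ⟨(β⁻¹ * βt)⁻¹, hmem'⟩ = 1 := by
      apply Subtype.ext
      exact mul_inv_cancel₀ (mul_ne_zero (inv_ne_zero hβ) hβt)
    rw [h2, map_one] at h1
    exact one_ne_zero h1
  · intro l
    refine rd_unique (hG l) ?_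
    rw [← hc1 l, mul_assoc]
    exact rd_mul (rd_C ⟨β⁻¹ * βt, hmem⟩) (hNr l)

/-- divisibility by the product over the classes -/
theorem NT_dvd {κ : Type} [Field κ] {A B P : κ[X]} {I : Finset κ} {m : κ → ℕ} (hB : ∀ y ∈ I, B.eval y ≠ 0)
    (hW : ∀ y ∈ I, (derivative A * B - A * derivative B).eval y ≠ 0) {M : ℕ} (a : κ → RatFunc κ)
    (ha : ∀ y ∈ I, (a y).denom.eval y ≠ 0)
    (h : ∀ y ∈ I, algebraMap κ[X] (RatFunc κ) P = a y *
      ((algebraMap κ[X] (RatFunc κ) A / algebraMap κ[X] (RatFunc κ) B - RatFunc.C (A.eval y / B.eval y)) ^ m y) ^ M) :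
    (∏ y ∈ I, (X - C y) ^ m y) ^ M ∣ P := by
  rw [← Finset.prod_pow]
  apply Finset.prod_dvd_of_coprime
  · intro y _ z _ hyz
    apply IsCoprime.pow
    apply IsCoprime.pow
    exact isCoprime_X_sub_C_of_isUnit_sub (sub_ne_zero.mpr hyz).isUnit
  · intro y hy
    rw [← pow_mul]
    refine div_arg (hB y hy) (hW y hy) (ha y hy) ?_
    rw [pow_mul]
    exact h y hy

end Pool.Agent.LibCW77
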