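import Pool.Agent.LibCW77.NT3

/-!
[CW77 NT4] the data of one residue class.
-/

open scoped Classical
open Polynomial

namespace Pool.Agent.LibCW77

variable {k : Type} [Field k] {O : ValuationSubring k}

/-- powers with a common scale -/
theorem NT_pw {L : Type} [Field L] (j : RatFunc k →+* L) {v : L} {f : RatFunc k}
    {f' : RatFunc (KK O)} (hv : v ^ 3 = j f) (hf : Rd O f f') (h3 : rs O 3 = 0) {M : ℕ} (hM : 0 < M)
    {b : O} (hb0 : (b : k) ≠ 0) {r : Fin 2 → RatFunc k} (hr : ∀ l, Rd O (r l) 0)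
    {τ : Fin 2 → RatFunc (KK O)} (hτ : ∀ l, Rd O (RatFunc.C (b : k)⁻¹ * (RatFunc.C (M : k) * r l)) (τ l)) :
    ∃ (Z : RatFunc k) (s : Fin 2 → RatFunc k), Rd O Z 1 ∧ (∀ l, Rd O (s l) (τ l)) ∧
      (1 + (j (r 0) * v + j (r 1) * v ^ 2)) ^ M =
        j Z * (1 + j (RatFunc.C (b : k)) * (j (s 0) * v + j (s 1) * v ^ 2)) := by
  by_cases h0 : ∃ l, r l ≠ 0
  · obtain ⟨β1, hβ1, r', hr', ⟨l0, hl0⟩⟩ := rd_scale (O := O) r h0
    obtain ⟨b1, hb1, hb1'⟩ := NT_small (hr l0) hβ1 (hr' l0) hl0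
    obtain ⟨Z, s1, s2, hZ, hs1, hs2, h⟩ := pw j hv hf h3 hb1' (hr' 0) (hr' 1) M hM
    have hc : ∀ l, RatFunc.C ((b : k)⁻¹ * ((M : k) * β1)) * (RatFunc.C β1⁻¹ * r l) =
        RatFunc.C (b : k)⁻¹ * (RatFunc.C (M : k) * r l) := by
      intro l
      have hCβ : RatFunc.C β1 * RatFunc.C β1⁻¹ = (1 : RatFunc k) := by
        rw [← map_mul, mul_inv_cancel₀ hβ1, map_one]
      rw [map_mul, map_mul]
      linear_combination (RatFunc.C (b : k)⁻¹ * (RatFunc.C (M : k) * r l)) * hCβ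
    have hmem : (b : k)⁻¹ * ((M : k) * β1) ∈ O := by
      refine rd_mem (hr' l0) hl0 (s' := τ l0) ?_
      rw [hc l0]
      exact hτ l0
    set c : O := ⟨(b : k)⁻¹ * ((M : k) * β1), hmem⟩ with hcdef
    have hτ' : ∀ l, τ l = RatFunc.C (rs O c) * r' l := by
      intro l
      refine rd_unique (hτ l) ?_
      rw [← hc l]
      exact rd_mul (rd_C c) (hr' l)
    refine ⟨Z, ![RatFunc.C (c : k) * s1, RatFunc.C (c : k) * s2], hZ, ?_, ?_⟩
    · intro l
      fin_cases l
      · show Rd O (RatFunc.C (c : k) * s1) (τ 0)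
        rw [hτ' 0]
        exact rd_mul (rd_C c) hs1
      · show Rd O (RatFunc.C (c : k) * s2) (τ 1)
        rw [hτ' 1]
        exact rd_mul (rd_C c) hs2
    · have e1 : ∀ l, j (RatFunc.C (b1 : k)) * j (RatFunc.C β1⁻¹ * r l) = j (r l) := by
        intro l
        rw [← map_mul, hb1, ← mul_assoc, ← map_mul, mul_inv_cancel₀ hβ1, map_one, one_mul]
      have e2 : 1 + (j (r 0) * v + j (r 1) * v ^ 2) =
          1 + j (RatFunc.C (b1 : k)) * (j (RatFunc.C β1⁻¹ * r 0) * v + j (RatFunc.C β1⁻¹ * r 1) * v ^ 2) := by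
        rw [← e1 0, ← e1 1]
        simp only [e1]
        rw [← e1 0, ← e1 1]
        simp only [e1]
        linear_combination (-v) * e1 0 + (-v ^ 2) * e1 1
      rw [e2, h]
      congr 1
      have e3 : RatFunc.C ((M : k) * (b1 : k)) = RatFunc.C (b : k) * RatFunc.C (c : k) := by
        rw [← map_mul, hcdef]
        congr 1
        rw [hb1]
        field_simp
      rw [e3]
      show _ = 1 + j (RatFunc.C (b : k)) * (j (RatFunc.C (c : k) * s1) * v + j (RatFunc.C (c : k) * s2) * v ^ 2)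
      simp only [map_mul]
      ring
  · push Not at h0
    refine ⟨1, ![0, 0], rd_one, ?_, ?_⟩
    · intro l
      have h1 := hτ l
      rw [h0 l, mul_zero, mul_zero] at h1
      rw [rd_unique h1 rd_zero]
      fin_cases l
      · exact rd_zero
      · exact rd_zero
    · rw [h0 0, h0 1]
      simp

end Pool.Agent.LibCW77
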