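import Pool.Agent.LibCW77.NT4

/-!
[CW77 NT5] the data of one residue class, continued.
-/

open scoped Classical
open Polynomial

namespace Pool.Agent.LibCW77

variable {k : Type} [Field k] {O : ValuationSubring k}

/-- the data of one class -/
structure NTData {L : Type} [Field L] (j : RatFunc k →+* L) (v : L) (f : RatFunc k) (g : L)
    (f' : RatFunc (KK O)) (G' : Fin 3 → RatFunc (KK O)) (S : Multiset (O × O)) (M : ℕ) (t : KK O) (m : ℕ) (φ : KK O)
    (P : Fin 3 → O[X]) (α : Fin 3 → RatFunc k) (βt : k) (α' : Fin 3 → RatFunc (KK O)) (c : KK O) : Prop where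
  pj : ∀ n, (P 0).coeff n = (PJ S t).coeff (3 * n) ∧ (P 1).coeff n = (PJ S t).coeff (3 * n + 1) ∧
        (P 2).coeff n = (PJ S t).coeff (3 * n + 2)
  p0 : Rd O (aeval f ((P 0).map (algebraMap O k))) ((f' - RatFunc.C φ) ^ m)
  p1 : Rd O (aeval f ((P 1).map (algebraMap O k))) 0
  p2 : Rd O (aeval f ((P 2).map (algebraMap O k))) 0
  d1 : ∀ n, m ≤ n → (P 1).coeff n = 0
  d2 : ∀ n, m ≤ n → (P 2).coeff n = 0
  eq : g = (j (α 0) + j (α 1) * v + j (α 2) * v ^ 2) *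
    (j (aeval f ((P 0).map (algebraMap O k))) + j (aeval f ((P 1).map (algebraMap O k))) * v +
      j (aeval f ((P 2).map (algebraMap O k))) * v ^ 2) ^ M
  reg : ∀ l, ∀ a : O, rs O a = t → (α l).denom.eval (a : k) ≠ 0
  hβ : βt ≠ 0
  hc : c ≠ 0
  rd : ∀ l, Rd O (RatFunc.C βt⁻¹ * α l) (α' l)
  gl : ∀ l, G' l = RatFunc.C c * α' l * ((f' - RatFunc.C φ) ^ m) ^ M

theorem NT_data (h3 : rs O 3 = 0) {A B : O[X]}
    {S : Multiset (O × O)}
    (hSB : ∀ p ∈ S, rs O (B.eval p.1) ≠ 0)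
    (hSb : ∀ p ∈ S, p.2 ^ 3 * B.eval p.1 = A.eval p.1)
    {L : Type} [Field L] (j : RatFunc k →+* L) {v : L} {f : RatFunc k} {f' : RatFunc (KK O)}
    (hv : v ^ 3 = j f) (hf : Rd O f f') (ht' : Transcendental (KK O) f')
    (hu : ∀ r0 r1 r2 : RatFunc k, j r0 + j r1 * v + j r2 * v ^ 2 = 0 → r0 = 0 ∧ r1 = 0 ∧ r2 = 0)
    {M : ℕ} {g : L} {G : Fin 3 → RatFunc k} (hgg : g = j (G 0) + j (G 1) * v + j (G 2) * v ^ 2)
    {β : k} (hβ : β ≠ 0) {G' : Fin 3 → RatFunc (KK O)}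
    (hG : ∀ l, Rd O (RatFunc.C β⁻¹ * G l) (G' l)) (hG0 : ∃ l, G' l ≠ 0) {t : KK O} {m : ℕ}
    (hm : (cl S t).card = 3 * m)
    (hα : ∃ α0 α1 α2 : RatFunc k,
      g = (j α0 + j α1 * v + j α2 * v ^ 2) * (((cl S t).map fun p => v - j (RatFunc.C (p.2 : k))).prod) ^ M ∧
      ∀ a : O, rs O a = t → α0.denom.eval (a : k) ≠ 0 ∧ α1.denom.eval (a : k) ≠ 0 ∧ α2.denom.eval (a : k) ≠ 0) :
    ∃ (P : Fin 3 → O[X]) (α : Fin 3 → RatFunc k) (βt : k) (α' : Fin 3 → RatFunc (KK O)) (c : KK O),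
      NTData j v f g f' G' S M t m ((A.map (rs O)).eval t / (B.map (rs O)).eval t) P α βt α' c := by
  obtain ⟨α0, α1, α2, hg1, hreg⟩ := hα
  obtain ⟨P0, P1, P2, hP, hco, hm0, hm1, hm2, hd1, hd2⟩ := NT_split h3 hSB hSb t hm
  have e0 : Rd O (aeval f (P0.map (algebraMap O k)))
      ((f' - RatFunc.C ((A.map (rs O)).eval t / (B.map (rs O)).eval t)) ^ m) := by
    have h1 := NT_eval hf P0
    rw [hm0, map_pow, map_sub, aeval_X, aeval_C] at h1
    exact h1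
  have e1 : Rd O (aeval f (P1.map (algebraMap O k))) 0 := by
    have h1 := NT_eval hf P1
    rw [hm1, map_zero] at h1
    exact h1
  have e2 : Rd O (aeval f (P2.map (algebraMap O k))) 0 := by
    have h1 := NT_eval hf P2
    rw [hm2, map_zero] at h1
    exact h1
  rw [NT_prod j hv hP] at hg1
  obtain ⟨b0, b1, b2, k0, k1, k2, hb⟩ := NT_pow j hv hf e0 e1 e2 M
  have hw : ((f' - RatFunc.C ((A.map (rs O)).eval t / (B.map (rs O)).eval t)) ^ m) ^ M ≠ 0 := by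
    apply pow_ne_zero
    apply pow_ne_zero
    intro h0
    have h1 := (transcendental_iff.mp ht') (X - C ((A.map (rs O)).eval t / (B.map (rs O)).eval t)) (by
      rw [map_sub, aeval_X, aeval_C]
      exact h0)
    exact X_sub_C_ne_zero _ h1
  obtain ⟨βt, α', c, hβt, hc, hr, hl⟩ := NT_lead j hv hf hu (G := G) (α := ![α0, α1, α2]) (W := ![b0, b1, b2]) hβ hG
    hG0 hw k0 k1 k2 (by
      rw [← hgg, hg1, hb]
      rfl)
  refine ⟨![P0, P1, P2], ![α0, α1, α2], βt, α', c, ⟨hco, e0, e1, e2, hd1, hd2, hg1, ?_, hβt, hc, hr, hl⟩⟩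
  intro l a ha
  obtain ⟨q0, q1, q2⟩ := hreg a ha
  fin_cases l
  · exact q0
  · exact q1
  · exact q2

/-- numbers of the classes -/
theorem NT_card {S : Multiset (O × O)} (hcard : S.card = 6) (hdiv : ∀ t, 3 ∣ (cl S t).card) :
    ∑ t ∈ (S.map fun p => rs O p.1).toFinset, (cl S t).card / 3 = 2 := by
  have h1 := Multiset.toFinset_sum_count_eq (S.map fun p => rs O p.1)
  rw [Multiset.card_map, hcard] at h1
  have h2 : ∀ t, (S.map fun p => rs O p.1).count t = 3 * ((cl S t).card / 3) := by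
    intro t
    rw [Nat.mul_div_cancel' (hdiv t), Multiset.count_map, cl]
    congr 1
    apply Multiset.filter_congr
    intro p _
    exact eq_comm
  rw [Finset.sum_congr rfl fun t _ => h2 t, ← Finset.mul_sum] at h1
  omega

end Pool.Agent.LibCW77
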