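import Pool.Agent.LibCW77.NT5

/-!
[CW77 NT6] the leading parts, all classes together.
-/

open scoped Classical
open Polynomial

namespace Pool.Agent.LibCW77

variable {k : Type} [Field k] {O : ValuationSubring k}

/-- the parts with `v`, `v ^ 2` of the reduction vanish -/
theorem NT_first {A' B' : (KK O)[X]} {I : Finset (KK O)} {m : KK O → ℕ} {M : ℕ}
    (hs : ∑ y ∈ I, m y = 2) (hB : ∀ y ∈ I, B'.eval y ≠ 0) 
    (hW : ∀ y ∈ I, (derivative A' * B' - A' * derivative B').eval y ≠ 0) {P : Fin 3 → (KK O)[X]}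
    (hne : ∃ l, P l ≠ 0) (h0 : (P 0).natDegree ≤ 2 * M) (h1 : P 1 = 0 ∨ (P 1).natDegree + 3 ≤ 2 * M)
    (h2 : P 2 = 0 ∨ (P 2).natDegree + 3 ≤ 2 * M) {c : KK O → KK O} (hc : ∀ y ∈ I, c y ≠ 0)
    {α' : KK O → Fin 3 → RatFunc (KK O)} (hreg : ∀ y ∈ I, ∀ l, (α' y l).denom.eval y ≠ 0)
    (h : ∀ y ∈ I, ∀ l : Fin 3, (![algebraMap (KK O)[X] (RatFunc (KK O)) (P 0), algebraMap (KK O)[X] (RatFunc (KK O)) (B' * P 1),
      algebraMap (KK O)[X] (RatFunc (KK O)) (B' * P 2)] : Fin 3 → RatFunc (KK O)) l = RatFunc.C (c y) * α' y l *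
        ((algebraMap (KK O)[X] (RatFunc (KK O)) A' / algebraMap (KK O)[X] (RatFunc (KK O)) B' -
          RatFunc.C (A'.eval y / B'.eval y)) ^ m y) ^ M) :
    P 1 = 0 ∧ P 2 = 0 ∧ ∃ e : KK O, e ≠ 0 ∧ P 0 = C e * (∏ y ∈ I, (X - C y) ^ m y) ^ M := by
  set Q : (KK O)[X] := (∏ y ∈ I, (X - C y) ^ m y) ^ M with hQ
  have hregc : ∀ y ∈ I, ∀ l, (RatFunc.C (c y) * α' y l).denom.eval y ≠ 0 := by
    intro y hy l
    apply NT_reg_mul
    · refine NT_reg_of (p := C (c y)) (q := 1) (by simp) ?_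
      rw [RatFunc.algebraMap_C, map_one, div_one]
    · exact hreg y hy l
  have hQm : Q.Monic := by
    apply Monic.pow
    apply monic_prod_of_monic
    intro y _
    exact (monic_X_sub_C y).pow _
  have hQd : Q.natDegree = 2 * M := by
    have hmon : ∀ y ∈ I, ((X - C y) ^ m y).Monic := fun y _ => (monic_X_sub_C y).pow _
    rw [hQ, (monic_prod_of_monic _ _ hmon).natDegree_pow, natDegree_prod_of_monic _ _ hmon]
    rw [Finset.sum_congr rfl fun y _ => show ((X - C y) ^ m y).natDegree = m y by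
      rw [(monic_X_sub_C y).natDegree_pow, natDegree_X_sub_C, mul_one]]
    rw [hs, mul_comm]
  have hcop : IsCoprime Q B' := by
    rw [hQ]
    apply IsCoprime.pow_left
    apply IsCoprime.prod_left
    intro y hy
    apply IsCoprime.pow_left
    rw [(irreducible_X_sub_C y).coprime_iff_not_dvd, dvd_iff_isRoot]
    exact hB y hy
  have hd0 : Q ∣ P 0 := NT_dvd hB hW (fun y => RatFunc.C (c y) * α' y 0) (fun y hy => hregc y hy 0)
    (fun y hy => h y hy 0)
  have hd1 : Q ∣ B' * P 1 := NT_dvd hB hW (fun y => RatFunc.C (c y) * α' y 1) (fun y hy => hregc y hy 1)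
    (fun y hy => h y hy 1)
  have hd2 : Q ∣ B' * P 2 := NT_dvd hB hW (fun y => RatFunc.C (c y) * α' y 2) (fun y hy => hregc y hy 2)
    (fun y hy => h y hy 2)
  have hz : ∀ R : (KK O)[X], Q ∣ B' * R → (R = 0 ∨ R.natDegree + 3 ≤ 2 * M) → R = 0 := by
    intro R hR hR1
    rcases hR1 with hR1 | hR1
    · exact hR1
    · by_contra hR0
      have := natDegree_le_of_dvd (hcop.dvd_of_dvd_mul_left hR) hR0
      omega
  have hP1 := hz _ hd1 h1
  have hP2 := hz _ hd2 h2
  refine ⟨hP1, hP2, ?_⟩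
  have hP0 : P 0 ≠ 0 := by
    obtain ⟨l, hl⟩ := hne
    fin_cases l
    · exact hl
    · exact absurd hP1 hl
    · exact absurd hP2 hl
  obtain ⟨R, hR⟩ := hd0
  have hR0 : R ≠ 0 := by
    rintro rfl
    rw [mul_zero] at hR
    exact hP0 hR
  have hRd : R.natDegree = 0 := by
    have h4 := natDegree_mul hQm.ne_zero hR0
    rw [← hR, hQd] at h4
    omega
  obtain ⟨e, he⟩ := natDegree_eq_zero.mp hRd
  refine ⟨e, ?_, ?_⟩
  · rintro rfl
    rw [map_zero] at he
    exact hR0 he.symm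
  · rw [hR, ← he, mul_comm]

/-- the inverse of the leading part of `α` is regular -/
theorem NT_inv {A' B' : (KK O)[X]} {I : Finset (KK O)} {m : KK O → ℕ} {M : ℕ}
    {y : KK O} (hy : y ∈ I) (hB : B'.eval y ≠ 0) (hW : (derivative A' * B' - A' * derivative B').eval y ≠ 0)
    {e c : KK O} (he : e ≠ 0) {a : RatFunc (KK O)}
    (h : algebraMap (KK O)[X] (RatFunc (KK O)) (C e * (∏ y ∈ I, (X - C y) ^ m y) ^ M) = RatFunc.C c * a *
        ((algebraMap (KK O)[X] (RatFunc (KK O)) A' / algebraMap (KK O)[X] (RatFunc (KK O)) B' -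
          RatFunc.C (A'.eval y / B'.eval y)) ^ m y) ^ M) : (a⁻¹).denom.eval y ≠ 0 ∧ a ≠ 0 := by
  have hinj := RatFunc.algebraMap_injective (KK O)
  have hB0 : B' ≠ 0 := by
    rintro rfl
    simp at hB
  obtain ⟨u, hu, hsub⟩ := NT_sub hB hW
  rw [hsub] at h
  rw [← Finset.mul_prod_erase I _ hy] at h
  set R : (KK O)[X] := (∏ x ∈ I.erase y, (X - C x) ^ m x) ^ M with hR
  have hR0 : R.eval y ≠ 0 := by
    rw [hR, eval_pow]
    apply pow_ne_zero
    rw [eval_prod]
    apply Finset.prod_ne_zero_iff.mpr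
    intro x hx
    rw [eval_pow, eval_sub, eval_X, eval_C]
    exact pow_ne_zero _ (sub_ne_zero.mpr (Finset.ne_of_mem_erase hx).symm)
  have hX : algebraMap (KK O)[X] (RatFunc (KK O)) (X - C y) ≠ 0 := by
    rw [map_ne_zero_iff _ hinj]
    exact X_sub_C_ne_zero y
  have hden : algebraMap (KK O)[X] (RatFunc (KK O)) (C (B'.eval y) * B') ≠ 0 := by
    rw [map_ne_zero_iff _ hinj]
    exact mul_ne_zero (by simpa using hB) hB0
  have h1 : algebraMap (KK O)[X] (RatFunc (KK O)) (C e * R * (C (B'.eval y) * B') ^ (m y * M)) =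
      algebraMap (KK O)[X] (RatFunc (KK O)) (C c * u ^ (m y * M)) * a := by
    rw [mul_pow (( X - C y) ^ m y), ← hR, ← pow_mul, ← pow_mul, div_pow, mul_div_assoc', eq_div_iff (pow_ne_zero _ hden)] at h
    apply mul_left_cancel₀ (pow_ne_zero (m y * M) hX)
    simp only [map_mul, map_pow, mul_pow, RatFunc.algebraMap_C] at h ⊢
    linear_combination h
  have ha : a ≠ 0 := by
    rintro rfl
    rw [mul_zero, map_eq_zero_iff _ hinj] at h1
    have h2 := congrArg (eval y) h1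
    simp only [eval_mul, eval_C, eval_pow, eval_zero] at h2
    exact mul_ne_zero (mul_ne_zero he hR0) (pow_ne_zero _ (mul_ne_zero hB hB)) h2
  refine ⟨?_, ha⟩
  refine NT_reg_of (p := C c * u ^ (m y * M)) (q := C e * R * (C (B'.eval y) * B') ^ (m y * M)) ?_ ?_
  · simp only [eval_mul, eval_C, eval_pow]
    exact mul_ne_zero (mul_ne_zero he hR0) (pow_ne_zero _ (mul_ne_zero hB hB))
  · rw [h1]
    by_cases h0 : algebraMap (KK O)[X] (RatFunc (KK O)) (C c * u ^ (m y * M)) = 0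
    · rw [h0, zero_mul, map_eq_zero_iff _ hinj] at h1
      have h2 := congrArg (eval y) h1
      simp only [eval_mul, eval_C, eval_pow, eval_zero] at h2
      exact absurd h2 (mul_ne_zero (mul_ne_zero he hR0) (pow_ne_zero _ (mul_ne_zero hB hB)))
    · rw [← div_div, div_self h0, one_div]

end Pool.Agent.LibCW77
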