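import Pool.Agent.LibCW77.NT
import Pool.Agent.LibCW77.NE3
import Pool.Agent.LibCW77.NE4
import Pool.Agent.LibCW77.NE5
import Pool.Agent.LibCW77.NR1
import Pool.Agent.LibCW77.NR3
import Pool.Agent.LibCW77.NI2

/-!
[CW77 NU] the 3-adic theorem.
-/

open scoped Classical
open Polynomial

namespace Pool.Agent.LibCW77

open Pool.Agent.LibBH2
open Pool.Agent.LibCHd (VR RF Red FunF)

variable {k : Type} [Field k]

theorem NU_evAp (c : Dat k) (a : k) : (Ap c).eval a = ∏ i, (a - c.a i) := by
  rw [Ap, eval_prod]
  simp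

theorem NU_evBp (c : Dat k) (a : k) : (Bp c).eval a = ∏ i, (a - c.b i) := by
  rw [Bp, eval_prod]
  simp

/-- `3` is in the maximal ideal -/
theorem NU_three {O : ValuationSubring k} (h : (3 : k)⁻¹ ∉ O) : rs O 3 = 0 := by
  rw [IsLocalRing.residue_eq_zero_iff, IsLocalRing.mem_maximalIdeal, mem_nonunits_iff]
  intro hu
  apply h
  obtain ⟨u, hu⟩ := hu
  have h4 : ((u⁻¹ : Oˣ) : O) * (3 : O) = 1 := by
    rw [← hu, Units.inv_mul]
  have h5 := congrArg (fun z : O => (z : k)) h4
  simp only [MulMemClass.coe_mul, OneMemClass.coe_one] at h5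
  have h6 : ((3 : O) : k) = 3 := rfl
  rw [h6] at h5
  rw [← eq_inv_of_mul_eq_one_left h5]
  exact ((u⁻¹ : Oˣ) : O).2

/-- the comparison of leading terms for a function with the divisor `M (∑_(p in S) p - 2 F)`, `F` the fibre at infinity -/
theorem sep_alg [IsAlgClosed k] [CharZero k] {c : Dat k} (hc : c.Good) (h3 : c.n = 3) {O : ValuationSubring k}
    (hO3 : rs O 3 = 0) (hmem : ∀ s, Sum.elim c.a c.b s ∈ O) {S : Multiset (O × O)} (hcard : S.card = 6)
    (hp : ∀ p ∈ S, (p.2 : k) ^ 3 * (Bp c).eval (p.1 : k) = (Ap c).eval (p.1 : k) ∧ (Wp c).eval (p.1 : k) ≠ 0 ∧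
      ((Wp c).eval (p.1 : k))⁻¹ ∈ O) (hdiv : ∀ t, 3 ∣ (cl S t).card)
    {N : Type} [Field N] [Algebra k N] {x v : N} (hgen : GenC c x v) {M : ℕ} (hM : 0 < M) {g : N} (hg0 : g ≠ 0)
    (hord : ∀ (w : Place k N) (Q : Fin 2 → Option k), OnC c (Q 0) (Q 1) →
      SpO w (some x) ((Q 0).map (algebraMap k (RF w))) → SpO w (some v) ((Q 1).map (algebraMap k (RF w))) →
      w.ord g = if Q 0 = none then -(2 * (M : ℤ)) else
        (M : ℤ) * ((S.map fun p => ![some (p.1 : k), some (p.2 : k)]).count Q : ℤ)) :
    ∀ t n, ¬ 3 ∣ n → (PJ S t).coeff n = 0 := by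
  -- the polynomials over `O`
  set A : O[X] := ∏ i : Fin 3, (X - C (⟨c.a i, hmem (Sum.inl i)⟩ : O)) with hAdef
  set B : O[X] := ∏ i : Fin 3, (X - C (⟨c.b i, hmem (Sum.inr i)⟩ : O)) with hBdef
  have hAm : A.Monic := monic_prod_of_monic _ _ fun i _ => monic_X_sub_C _
  have hBm : B.Monic := monic_prod_of_monic _ _ fun i _ => monic_X_sub_C _
  have hAk : A.map (algebraMap O k) = Ap c := by
    rw [hAdef, Polynomial.map_prod, Ap]
    apply Finset.prod_congr rfl
    intro i _
    rw [Polynomial.map_sub, Polynomial.map_X, Polynomial.map_C]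
    rfl
  have hBk : B.map (algebraMap O k) = Bp c := by
    rw [hBdef, Polynomial.map_prod, Bp]
    apply Finset.prod_congr rfl
    intro i _
    rw [Polynomial.map_sub, Polynomial.map_X, Polynomial.map_C]
    rfl
  have hev : ∀ (P : O[X]) (a : O), ((P.eval a : O) : k) = (P.map (algebraMap O k)).eval (a : k) := by
    intro P a
    rw [show (a : k) = algebraMap O k a from rfl, eval_map, eval₂_hom]
    rfl
  -- units
  have hunit : ∀ p ∈ S, rs O (A.eval p.1) ≠ 0 ∧ rs O (B.eval p.1) ≠ 0 ∧
      rs O ((derivative A * B - A * derivative B).eval p.1) ≠ 0 := by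
    intro p hpS
    obtain ⟨-, h1, h2⟩ := hp p hpS
    have h4 : (((A * B * (derivative A * B - A * derivative B)).eval p.1 : O) : k) = (Wp c).eval (p.1 : k) := by
      rw [hev, Wp, ← hAk, ← hBk]
      simp only [Polynomial.map_mul, Polynomial.map_sub, derivative_map]
    have h5 : rs O ((A * B * (derivative A * B - A * derivative B)).eval p.1) ≠ 0 := by
      intro h0
      rw [← h4] at h1 h2
      have h6 : (A * B * (derivative A * B - A * derivative B)).eval p.1 *
          (⟨_, h2⟩ : O) = 1 := by
        apply Subtype.ext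
        exact mul_inv_cancel₀ h1
      have h7 := congrArg (rs O) h6
      rw [map_mul, h0, zero_mul, map_one] at h7
      exact zero_ne_one h7
    rw [eval_mul, eval_mul, map_mul, map_mul] at h5
    exact ⟨left_ne_zero_of_mul (left_ne_zero_of_mul h5), right_ne_zero_of_mul (left_ne_zero_of_mul h5),
      right_ne_zero_of_mul h5⟩
  have hWk : ∀ p ∈ S, (Ap c).eval (p.1 : k) ≠ 0 ∧ (Bp c).eval (p.1 : k) ≠ 0 ∧ (p.2 : k) ≠ 0 := by
    intro p hpS
    obtain ⟨h1, h2, -⟩ := hp p hpS
    have h4 : (Ap c).eval (p.1 : k) ≠ 0 := by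
      intro h0
      apply h2
      rw [Wp, eval_mul, eval_mul, h0, zero_mul, zero_mul]
    refine ⟨h4, ?_, ?_⟩
    · intro h0
      apply h2
      rw [Wp, eval_mul, eval_mul, h0, mul_zero, zero_mul]
    · intro h0
      rw [h0] at h1
      apply h4
      rw [← h1]
      ring
  obtain ⟨j, hj, hspan, hu⟩ := ne_rep hc h3 hgen
  obtain ⟨g0, g1, g2, hd0, hd1, hd2, hgg⟩ := ne_glob hc h3 hgen (z := g) (2 * M) (by
    intro w Q h1 h2 h4
    rw [hord w Q h1 h2 h4]
    split_ifs with h0
    · push_cast
      exact le_refl _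
    · positivity)
  have hv : v ^ 3 * j (algebraMap k[X] (RatFunc k) (B.map (algebraMap O k))) =
      j (algebraMap k[X] (RatFunc k) (A.map (algebraMap O k))) := by
    rw [hAk, hBk, hj, hj]
    have h1 : v ^ c.n * ∏ i, (x - algebraMap k N (c.b i)) = ∏ i, (x - algebraMap k N (c.a i)) := hgen.on
    rw [h3] at h1
    rw [Ap, Bp, map_prod, map_prod]
    simpa using h1
  -- comparison
  exact nt_alg hO3 hAm hBm hcard hdiv (fun p hpS => (hunit p hpS).2.1) (fun p hpS => (hunit p hpS).1)
    (fun p hpS => (hunit p hpS).2.2) (fun p hpS => by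
      apply Subtype.ext
      have h1 := (hp p hpS).1
      rw [← hAk, ← hBk, ← hev, ← hev] at h1
      exact h1) j hv hu (M := M) hM (g0 := g0) (g1 := g1) (g2 := g2) hd0
    hd1 hd2 hg0
    (by
      rw [hj, hj, hj, hBk]
      exact hgg)
    (by
      intro t ht0
      set D : N := ((cl S t).map fun p => v - j (RatFunc.C (p.2 : k))).prod with hD
      set J : Multiset (k × k) := (cl S t).map fun p => ((p.1 : k), (p.2 : k)) with hJdef
      have hDJ : D = (J.map fun p => v - algebraMap k N p.2).prod := by
        rw [hD, hJdef, Multiset.map_map]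
        congr 1
        apply Multiset.map_congr rfl
        intro p _
        simp only [Function.comp_apply]
        rw [← RatFunc.algebraMap_C, hj, aeval_C]
      obtain ⟨p0, hp0⟩ := Multiset.exists_mem_of_ne_zero ht0
      obtain ⟨hp0S, hp0t⟩ := NT_cl.mp hp0
      have hJ : ∀ p ∈ J, p.2 ^ 3 * (Bp c).eval p.1 = (Ap c).eval p.1 ∧ (Wp c).eval p.1 ≠ 0 := by
        intro p hpJ
        obtain ⟨q, hq, rfl⟩ := Multiset.mem_map.mp hpJ
        have := hp q (NT_cl.mp hq).1
        exact ⟨this.1, this.2.1⟩
      -- values at numbers of the class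
      have hcls : ∀ a : O, rs O a = t → (Ap c).eval (a : k) ≠ 0 ∧ (Bp c).eval (a : k) ≠ 0 := by
        intro a ha
        have e1 : ∀ P : O[X], rs O (P.eval a) = rs O (P.eval p0.1) := by
          intro P
          rw [← eval₂_hom, ← eval₂_hom, ha, hp0t]
        constructor
        · intro h0
          rw [← hAk, ← hev] at h0
          have h1 : A.eval a = 0 := Subtype.ext h0
          apply (hunit p0 hp0S).1
          rw [← e1, h1, map_zero]
        · intro h0
          rw [← hBk, ← hev] at h0
          have h1 : B.eval a = 0 := Subtype.ext h0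
          apply (hunit p0 hp0S).2.1
          rw [← e1, h1, map_zero]
      have hD0 : D ≠ 0 := by
        rw [hD]
        apply Multiset.prod_ne_zero
        intro h0
        obtain ⟨q, _, hq⟩ := Multiset.mem_map.mp h0
        have h1 := hu (-RatFunc.C (q.2 : k)) 1 0 (by
          rw [map_neg, map_one, map_zero]
          linear_combination hq)
        exact one_ne_zero h1.2.1
      obtain ⟨r0, r1, r2, hr⟩ := hspan (g / D ^ M)
      refine ⟨r0, r1, r2, ?_, ?_⟩
      · rw [← hr, div_mul_cancel₀ _ (pow_ne_zero _ hD0)]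
      · intro a ha
        apply ne_loc hc h3 hgen j hj (hcls a ha).1 (hcls a ha).2
        intro w b hb hx hv1
        rw [← hr]
        have hinj : ∀ p ∈ J, p.2 = b → p.1 = (a : k) := by
          intro p hpJ hpb
          obtain ⟨q, hq, rfl⟩ := Multiset.mem_map.mp hpJ
          obtain ⟨hqS, hqt⟩ := NT_cl.mp hq
          have e1 := (hp q hqS).1
          have e2 : (q.2 : k) = b := hpb
          rw [e2] at e1
          have e3 : A.eval q.1 * B.eval a = A.eval a * B.eval q.1 := by
            apply Subtype.ext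
            rw [MulMemClass.coe_mul, MulMemClass.coe_mul, hev, hev, hev, hev, hAk, hBk, ← e1, ← hb]
            ring
          have hroot : (C (B.eval a) * A - C (A.eval a) * B).IsRoot a := by
            rw [IsRoot.def, eval_sub, eval_mul, eval_mul, eval_C, eval_C]
            ring
          obtain ⟨U, hU⟩ := dvd_iff_isRoot.mpr hroot
          have e4 : U.eval a = (derivative A * B - A * derivative B).eval a := by
            have h1 := congrArg (fun p => (derivative p).eval a) hU
            simp only [derivative_sub, derivative_mul, derivative_C, derivative_X, eval_sub, eval_add, eval_mul,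
              eval_C, eval_X, sub_self, zero_mul, zero_add, sub_zero, one_mul, add_zero, eval_one] at h1
            rw [← h1, eval_sub, eval_mul, eval_mul]
            ring
          have e5 : rs O (U.eval q.1) ≠ 0 := by
            have h1 : rs O (U.eval q.1) = rs O (U.eval a) := by
              rw [← eval₂_hom, ← eval₂_hom, ha, hqt]
            rw [h1, e4]
            have h2 : rs O ((derivative A * B - A * derivative B).eval a) =
                rs O ((derivative A * B - A * derivative B).eval q.1) := by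
              rw [← eval₂_hom, ← eval₂_hom, ha, hqt]
            rw [h2]
            exact (hunit q hqS).2.2
          have e6 : (q.1 - a) * U.eval q.1 = 0 := by
            have h1 := congrArg (fun p => p.eval q.1) hU
            simp only [eval_mul, eval_sub, eval_C, eval_X] at h1
            rw [← h1]
            linear_combination e3
          rcases mul_eq_zero.mp e6 with e7 | e7
          · have : q.1 = a := sub_eq_zero.mp e7
            exact congrArg (fun z : O => (z : k)) this
          · rw [e7, map_zero] at e5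
            exact absurd rfl e5
        have hordD := (ne_ordv hc h3 hgen J hJ (hcls a ha).1 (hcls a ha).2 hb hinj w hx hv1).2
        rw [← hDJ] at hordD
        have hOn : OnC c ((![some (a : k), some b] : Fin 2 → Option k) 0) ((![some (a : k), some b] : Fin 2 → Option k) 1) := by
          show b ^ c.n * ∏ i, ((a : k) - c.b i) = ∏ i, ((a : k) - c.a i)
          rw [h3, ← NU_evAp, ← NU_evBp]
          exact hb
        have hordg := hord w ![some (a : k), some b] hOn hx hv1
        have hne : ¬ (![some (a : k), some b] : Fin 2 → Option k) 0 = none := by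
          show ¬ some (a : k) = none
          exact Option.some_ne_none _
        rw [if_neg hne] at hordg
        have hcount : (S.map fun p => ![some (p.1 : k), some (p.2 : k)]).count ![some (a : k), some b] =
            J.count ((a : k), b) := by
          rw [hJdef, Multiset.count_map, Multiset.count_map, cl, Multiset.filter_filter]
          congr 1
          apply Multiset.filter_congr
          intro p _
          constructor
          · intro h1
            have h4 : (a : k) = (p.1 : k) := Option.some_injective _ (congrFun h1 0)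
            have h5 : b = (p.2 : k) := Option.some_injective _ (congrFun h1 1)
            refine ⟨Prod.ext h4 h5, ?_⟩
            have h6 : a = p.1 := Subtype.ext h4
            rw [← h6, ha]
          · rintro ⟨h1, -⟩
            have h4 : (a : k) = (p.1 : k) := congrArg Prod.fst h1
            have h5 : b = (p.2 : k) := congrArg Prod.snd h1
            rw [h4, h5]
        rcases Pool.Agent.LibCHd.reg_or w (g / D ^ M) with h1 | h1
        · exact h1
        · exfalso
          rw [w.ord_div _ _ hg0 (pow_ne_zero _ hD0), w.ord_pow, hordg, hordD, hcount] at h1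
          push_cast at h1
          rw [sub_self] at h1
          exact lt_irrefl _ h1)

theorem theta_sep [IsAlgClosed k] [CharZero k] {c : Dat k} (hc : c.Good) (h3 : c.n = 3) {O : ValuationSubring k}
    (hS : Sep O c) {ζ ν : k} (hζ : IsPrimitiveRoot ζ 3) (hν : ν ^ 3 = ∏ i, (-(kb c i) / ka c i))
    (hF : FlexF c ν) (ht : IsOfFinAddOrder (theta c ζ ν)) : False := by
  obtain ⟨S, hcard, hmap, hp, hdiv⟩ := flx_mod hc h3 hS hν hF
  have hO3 : rs O 3 = 0 := NU_three hS.three
  have hY : ∀ o ∈ rts c, ∃ y b : k, Qk c ν o = ![some y, some b] ∧ b ≠ 0 := by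
    intro o ho
    have h1 : Qk c ν o ∈ (rts c).map (Qk c ν) := Multiset.mem_map_of_mem _ ho
    rw [hmap] at h1
    obtain ⟨p, hpS, h2⟩ := Multiset.mem_map.mp h1
    refine ⟨p.1, p.2, h2.symm, ?_⟩
    intro h0
    obtain ⟨h5, h6, -⟩ := hp p hpS
    apply h6
    rw [h0] at h5
    rw [Wp, eval_mul, eval_mul, ← h5]
    ring
  obtain ⟨N, iN, iA, x, v, hgen⟩ := (gs_crit hc h3 hζ hν).2.1
  obtain ⟨m, g, hm0, hg0, hord⟩ := ne_fun hc h3 hζ hF hY ht hgen
  refine flx_no hc h3 hS hζ hF hcard hmap hp (sep_alg hc h3 hO3 hS.mem hcard hp hdiv hgen (M := 3 * m) (by omega) hg0 ?_)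
  intro w Q h1 h2 h4
  rw [hord w Q h1 h2 h4, hmap]
  push_cast
  split_ifs
  · ring
  · rfl

theorem gs_sep [IsAlgClosed k] [CharZero k] {c : Dat k} (hc : c.Good) (h3 : c.n = 3) {O : ValuationSubring k}
    (hS : Sep O c) : GSIff c False := by
  have hnz : NeZero ((3 : ℕ) : k) := ⟨by norm_num⟩
  obtain ⟨ζ, hζ⟩ : ∃ ζ : k, IsPrimitiveRoot ζ 3 := HasEnoughRootsOfUnity.exists_primitiveRoot k 3
  obtain ⟨ν, hν⟩ := IsAlgClosed.exists_pow_nat_eq (∏ i, (-(kb c i) / ka c i)) (n := 3) (by norm_num)
  obtain ⟨hF, h⟩ := gs_crit hc h3 hζ hν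
  exact gsIff_congr h ⟨fun ht => theta_sep hc h3 hS hζ hν hF ht, False.elim⟩

theorem gs_indep [IsAlgClosed k] [CharZero k] {c : Dat k} (hc : c.Good) (h3 : c.n = 3)
    (h : AlgebraicIndependent ℚ (Sum.elim c.a c.b)) : GSIff c False := by
  obtain ⟨O, hS⟩ := indep_sep hc h
  exact gs_sep hc h3 hS

end Pool.Agent.LibCW77
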