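import Pool.Agent.LibCW77.ODefs
import Pool.Agent.LibCW77.D4

/-!
[CW77 OA1] MEDIUM: the automorphism (x, v) -> (1 / x, mu / v)

`rec_facts`: `hc.inj` (`Sum.elim a (fun i => (a i)⁻¹)` is injective): `a i = 0` would give `a i = (a i)⁻¹`. `rec_fv`: `1 - (a i)⁻¹ = - (1 - a i) (a i)⁻¹` etc.,
`Fin.prod_univ_three`, `field_simp`, `ring` (all denominators are not `0` by `rec_facts`). `th_on`: cases of `P 0`, `P 1` (`none`, `some 0`, `some y` with `y ≠ 0`); for finite
`x ≠ 0`, `v ≠ 0`: `∏ (1 / x - a_i) = (∏ a_i) ∏ (1 / a_i - x) / x ^ 3`, `∏ (1 / x - 1 / a_i) = ∏ (a_i - x) / (x ^ 3 ∏ a_i)`; `v = 0` exactly for `x = a_i`, and then the image is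
`(1 / a_i, none)`; `none` is over `x = b_i = 1 / a_i`. `th_map`: cases of `Option`, `σ` is injective and commutes with `algebraMap`. `th_sp`: for each coordinate the cases
of `SpO` (Defs.lean): `y = 0`; `y ≠ 0` with residue `0` (then `w.ord (s / y) < 0`), residue `≠ 0` (`Red` of a quotient), pole (then `Red w (s / y) 0`). See D4.lean (`tw`) for the style.
-/

open scoped Classical
open Polynomial

namespace Pool.Agent.LibCW77

open Pool.Agent.LibBH2
open Pool.Agent.LibCHd (VR RF Red FunF)
open Pool.Agent.LibHL77 (Lf tt EHom NC HE BE mult hypf)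

variable {k : Type} [Field k]

theorem rec_facts {n : ℕ} {a : Fin 3 → k} (hc : (recD n a).Good) :
    (∀ i, a i ≠ 0) ∧ (∀ i j, i ≠ j → a i ≠ a j) ∧ ∀ i j, a i * a j ≠ 1 := by
  have hi := hc.inj
  have h0 : ∀ i, a i ≠ 0 := by
    intro i h
    have h1 : Sum.elim (recD n a).a (recD n a).b (Sum.inl i) =
        Sum.elim (recD n a).a (recD n a).b (Sum.inr i) := by
      change a i = (a i)⁻¹
      rw [h, inv_zero]
    exact absurd (hi h1) (by simp)
  refine ⟨h0, ?_, ?_⟩
  · intro i j hij h
    have h1 : Sum.elim (recD n a).a (recD n a).b (Sum.inl i) =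
        Sum.elim (recD n a).a (recD n a).b (Sum.inl j) := h
    exact hij (Sum.inl_injective (hi h1))
  · intro i j h
    have h1 : Sum.elim (recD n a).a (recD n a).b (Sum.inl i) =
        Sum.elim (recD n a).a (recD n a).b (Sum.inr j) := by
      change a i = (a j)⁻¹
      exact eq_inv_of_mul_eq_one_left h
    exact absurd (hi h1) (by simp)

theorem rec_fv {n : ℕ} {a : Fin 3 → k} (hc : (recD n a).Good) :
    fv (recD n a) (some 1) = -∏ i, a i ∧ fv (recD n a) (some (-1)) = ∏ i, a i ∧ fv (recD n a) none = 1 ∧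
      fv (recD n a) (some 0) = (∏ i, a i) ^ 2 := by
  obtain ⟨h0, -, h2⟩ := rec_facts hc
  have e : ∀ i, (1 : k) - a i ≠ 0 := by
    intro i h
    apply h2 i i
    have : a i = 1 := (sub_eq_zero.1 h).symm
    rw [this, mul_one]
  have e' : ∀ i, (1 : k) + a i ≠ 0 := by
    intro i h
    apply h2 i i
    have : a i = -1 := by linear_combination h
    rw [this]; ring
  refine ⟨?_, ?_, rfl, ?_⟩
  · change (∏ i, (1 - a i)) / ∏ i, (1 - (a i)⁻¹) = _
    have h3 : ∀ i, 1 - (a i)⁻¹ = -(1 - a i) * (a i)⁻¹ := by
      intro i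
      have := h0 i
      field_simp
      ring
    simp only [h3, Fin.prod_univ_three]
    have := h0 0; have := h0 1; have := h0 2
    have := e 0; have := e 1; have := e 2
    field_simp
  · change (∏ i, (-1 - a i)) / ∏ i, (-1 - (a i)⁻¹) = _
    have h3 : ∀ i, -1 - (a i)⁻¹ = -(1 + a i) * (a i)⁻¹ := by
      intro i
      have := h0 i
      field_simp
      ring
    have h4 : ∀ i, -1 - a i = -(1 + a i) := fun i => by ring
    simp only [h3, h4, Fin.prod_univ_three]
    have := h0 0; have := h0 1; have := h0 2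
    have := e' 0; have := e' 1; have := e' 2
    field_simp
  · change (∏ i, (0 - a i)) / ∏ i, (0 - (a i)⁻¹) = _
    simp only [Fin.prod_univ_three]
    have := h0 0; have := h0 1; have := h0 2
    field_simp
    ring

theorem th_on {n : ℕ} {a : Fin 3 → k} (hc : (recD n a).Good) {μ : k} (hμ : μ ^ n = (∏ i, a i) ^ 2) {M : Type}
    [Field M] [Algebra k M] {P : Fin 2 → Option M} (hP : OnC ((recD n a).over M) (P 0) (P 1)) :
    OnC ((recD n a).over M) (th μ P 0) (th μ P 1) := by
  obtain ⟨h0, -, h2⟩ := rec_facts hc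
  have hn : n ≠ 0 := by
    have := hc.two
    change 2 ≤ n at this
    omega
  have hinj := (algebraMap k M).injective
  have hμ0 : μ ≠ 0 := by
    rintro rfl
    rw [zero_pow hn] at hμ
    exact (pow_ne_zero 2 (Finset.prod_ne_zero_iff.2 fun i _ => h0 i)) hμ.symm
  set A : Fin 3 → M := fun i => algebraMap k M (a i) with hA
  have hA0 : ∀ i, A i ≠ 0 := fun i h => h0 i ((map_eq_zero (algebraMap k M)).1 h)
  have hAA : ∀ i j, A i * A j ≠ 1 := by
    intro i j h
    apply h2 i j
    apply hinj
    rw [map_mul, map_one]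
    exact h
  have hm : (algebraMap k M μ) ^ n = (∏ i, A i) ^ 2 := by
    rw [← map_pow, hμ, map_pow, map_prod]
  have hm0 : algebraMap k M μ ≠ 0 := fun h => hμ0 ((map_eq_zero (algebraMap k M)).1 h)
  have hb : ∀ i, ((recD n a).over M).b i = (A i)⁻¹ := fun i => map_inv₀ (algebraMap k M) (a i)
  have ha : ∀ i, ((recD n a).over M).a i = A i := fun i => rfl
  have hnn : ((recD n a).over M).n = n := rfl
  have hPA : ∏ i, A i ≠ 0 := Finset.prod_ne_zero_iff.2 fun i _ => hA0 i
  change OnC ((recD n a).over M) (oi 1 (P 0)) (oi (algebraMap k M μ) (P 1))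
  revert hP
  generalize algebraMap k M μ = m at hm hm0
  generalize P 0 = X
  generalize P 1 = V
  intro hP
  rcases X with _ | x <;> rcases V with _ | v
  · exact hP.elim
  · change v ^ n = 1 at hP
    have hv : v ≠ 0 := by
      rintro rfl
      rw [zero_pow hn] at hP
      exact zero_ne_one hP
    have e1 : oi m (some v) = some (m / v) := if_neg hv
    rw [e1]
    change (m / v) ^ n * ∏ i, (0 - ((recD n a).over M).b i) = ∏ i, (0 - ((recD n a).over M).a i)
    simp only [hb, ha]
    rw [div_pow, hP, hm, div_one]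
    simp only [Fin.prod_univ_three]
    have := hA0 0; have := hA0 1; have := hA0 2
    field_simp
    ring
  · obtain ⟨i, hi⟩ := hP
    rw [hb] at hi
    have hx : x ≠ 0 := by rw [hi]; exact inv_ne_zero (hA0 i)
    have e1 : oi 1 (some x) = some (1 / x) := if_neg hx
    rw [e1]
    change (0 : M) ^ n * ∏ i, (1 / x - ((recD n a).over M).b i) =
      ∏ i, (1 / x - ((recD n a).over M).a i)
    rw [zero_pow hn, zero_mul]
    symm
    apply Finset.prod_eq_zero (Finset.mem_univ i)
    rw [ha, hi, one_div, inv_inv, sub_self]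
  · change v ^ n * ∏ i, (x - ((recD n a).over M).b i) = ∏ i, (x - ((recD n a).over M).a i) at hP
    simp only [hb, ha] at hP
    by_cases hv : v = 0
    · subst hv
      rw [zero_pow hn, zero_mul] at hP
      obtain ⟨i, -, hi⟩ := Finset.prod_eq_zero_iff.1 hP.symm
      have hxi : x = A i := sub_eq_zero.1 hi
      have hx : x ≠ 0 := by rw [hxi]; exact hA0 i
      have e1 : oi 1 (some x) = some (1 / x) := if_neg hx
      have e2 : oi m (some (0 : M)) = none := if_pos rfl
      rw [e1, e2]
      refine ⟨i, ?_⟩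
      rw [hb, hxi, one_div]
    · have e2 : oi m (some v) = some (m / v) := if_neg hv
      rw [e2]
      have hvn : v ^ n ≠ 0 := pow_ne_zero n hv
      by_cases hx : x = 0
      · subst hx
        have e1 : oi (1 : M) (some 0) = none := if_pos rfl
        rw [e1]
        change (m / v) ^ n = 1
        rw [div_pow, hm, div_eq_one_iff_eq hvn]
        simp only [Fin.prod_univ_three] at hP hPA ⊢
        have h7 : (0 - (A 0)⁻¹) * (0 - (A 1)⁻¹) * (0 - (A 2)⁻¹) = -(A 0 * A 1 * A 2)⁻¹ := by
          rw [mul_inv, mul_inv]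
          ring
        rw [h7] at hP
        have h8 : v ^ n * -(A 0 * A 1 * A 2)⁻¹ * -(A 0 * A 1 * A 2) = v ^ n := by
          rw [mul_assoc, neg_mul_neg, inv_mul_cancel₀ hPA, mul_one]
        rw [← h8, hP]
        ring
      · have e1 : oi (1 : M) (some x) = some (1 / x) := if_neg hx
        rw [e1]
        change (m / v) ^ n * ∏ i, (1 / x - ((recD n a).over M).b i) =
          ∏ i, (1 / x - ((recD n a).over M).a i)
        simp only [hb, ha]
        rw [div_pow, hm, div_mul_eq_mul_div, div_eq_iff hvn]
        have h5 : ∏ i, (1 / x - (A i)⁻¹) = -(∏ i, (x - A i)) * ((x ^ 3)⁻¹ * (∏ i, A i)⁻¹) := by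
          simp only [Fin.prod_univ_three]
          have := hA0 0; have := hA0 1; have := hA0 2
          field_simp
          ring
        have h6 : ∏ i, (1 / x - A i) = -(∏ i, (x - (A i)⁻¹)) * ((x ^ 3)⁻¹ * ∏ i, A i) := by
          simp only [Fin.prod_univ_three]
          have := hA0 0; have := hA0 1; have := hA0 2
          field_simp
          ring
        rw [h5, h6, ← hP]
        field_simp

theorem th_map (μ : k) {M M' : Type} [Field M] [Algebra k M] [Field M'] [Algebra k M'] (σ : M →ₐ[k] M')
    (u : Pnt 3 M) : mpP σ (th3 μ u) = th3 μ (mpP σ u) := by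
  have hoi : ∀ (s : M) (y : Option M), (oi s y).map σ = oi (σ s) (y.map σ) := by
    intro s y
    rcases y with _ | y
    · change some (σ 0) = some 0
      rw [map_zero]
    · by_cases hy : y = 0
      · subst hy
        have e1 : oi s (some (0 : M)) = none := if_pos rfl
        have e2 : oi (σ s) ((some (0 : M)).map σ) = none := if_pos (map_zero σ)
        rw [e1, e2]
        rfl
      · have e1 : oi s (some y) = some (s / y) := if_neg hy
        have hy' : σ y ≠ 0 := (map_ne_zero σ).2 hy
        have e2 : oi (σ s) ((some y).map σ) = some (σ s / σ y) := if_neg hy'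
        rw [e1, e2]
        change some (σ (s / y)) = _
        rw [map_div₀]
  funext j i
  fin_cases j
  · rfl
  · fin_cases i
    · change (oi 1 (u 1 0)).map σ = oi 1 ((u 1 0).map σ)
      rw [hoi, map_one]
    · change (oi (algebraMap k M μ) (u 1 1)).map σ = oi (algebraMap k M' μ) ((u 1 1).map σ)
      rw [hoi, σ.commutes]
  · rfl

theorem th_sp {μ : k} (hμ : μ ≠ 0) {K : Type} [Field K] [Algebra k K] (w : Place k K) {u : Pnt 3 K}
    {q : Pnt 3 (RF w)} (h : SpP w u q) : SpP w (th3 μ u) (th3 μ q) := by
  have hoi : ∀ {s : K} {s' : RF w}, w.ord s = 0 → s ≠ 0 → Red w s s' → s' ≠ 0 →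
      ∀ {Y : Option K} {Q : Option (RF w)}, SpO w Y Q → SpO w (oi s Y) (oi s' Q) := by
    intro s s' hs0 hs1 hs hs' Y Q hYQ
    rcases Y with _ | y
    · have h2 : Q = none := hYQ
      rw [h2]
      exact Pool.Agent.LibCHd.red_zero w
    · rcases Q with _ | y0
      · have h2 : w.ord y < 0 := hYQ
        have hy : y ≠ 0 := by
          rintro rfl
          rw [w.ord_zero] at h2
          exact lt_irrefl _ h2
        have e1 : oi s (some y) = some (s / y) := if_neg hy
        rw [e1]
        change Red w (s / y) 0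
        rw [Pool.Agent.LibCHd.red_zero_iff]
        right
        rw [div_eq_mul_inv, w.ord_mul _ _ hs1 (inv_ne_zero hy), w.ord_inv, hs0]
        omega
      · have h2 : Red w y y0 := hYQ
        by_cases hy : y = 0
        · subst hy
          have h3 : y0 = 0 := h2.unique (Pool.Agent.LibCHd.red_zero w)
          have e1 : oi s (some (0 : K)) = none := if_pos rfl
          have e2 : oi s' (some y0) = none := if_pos h3
          rw [e1, e2]
          rfl
        · have e1 : oi s (some y) = some (s / y) := if_neg hy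
          rw [e1]
          by_cases hy0 : y0 = 0
          · have e2 : oi s' (some y0) = none := if_pos hy0
            rw [e2]
            rw [hy0, Pool.Agent.LibCHd.red_zero_iff] at h2
            rcases h2 with h2 | h2
            · exact absurd h2 hy
            · change w.ord (s / y) < 0
              rw [div_eq_mul_inv, w.ord_mul _ _ hs1 (inv_ne_zero hy), w.ord_inv, hs0]
              omega
          · have e2 : oi s' (some y0) = some (s' / y0) := if_neg hy0
            rw [e2]
            exact hs.div h2 hy0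
  have hA0 : algebraMap k K μ ≠ 0 := fun h => hμ ((map_eq_zero (algebraMap k K)).1 h)
  have hA1 : algebraMap k (RF w) μ ≠ 0 := fun h => hμ ((map_eq_zero (algebraMap k (RF w))).1 h)
  intro j i
  fin_cases j
  · exact h 0 i
  · fin_cases i
    · exact hoi w.ord_one one_ne_zero (Pool.Agent.LibCHd.red_one w) one_ne_zero (h 1 0)
    · exact hoi (w.ord_const μ hμ) hA0 (Pool.Agent.LibCHd.red_const w μ) hA1 (h 1 1)
  · exact h 2 i

end Pool.Agent.LibCW77
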