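import Pool.Agent.LibCW77.OA1

/-!
[CW77 OA2] MEDIUM: the automorphism on cycle classes

Copy of `exists_tw` (D4.lean) with `th3 μ` in place of `tw w`: `exists_hom` (needs `th_map`, `cls_map`), `desc`, `div_rel` with `th_sp`, `th_on`.
-/

open scoped Classical
open Polynomial

namespace Pool.Agent.LibCW77

open Pool.Agent.LibBH2
open Pool.Agent.LibCHd (VR RF Red FunF)
open Pool.Agent.LibHL77 (Lf tt EHom NC HE BE mult hypf)

variable {k : Type} [Field k]

private theorem OA2_on {n : ℕ} {a : Fin 3 → k} (hc : (recD n a).Good) {μ : k} (hμ : μ ^ n = (∏ i, a i) ^ 2)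
    {M : Type} [Field M] [Algebra k M] {u : Pnt 3 M} (hu : On ((recD n a).over M) u) :
    On ((recD n a).over M) (th3 μ u) := by
  intro j
  fin_cases j
  · exact hu 0
  · exact th_on hc hμ (hu 1)
  · exact hu 2

private theorem OA2_getD {M : Type} [Field M] (s : M) (y : Option M) :
    (oi s y).getD 0 = s * (y.getD 0)⁻¹ := by
  rcases y with _ | y
  · change (0 : M) = s * (0 : M)⁻¹
    rw [inv_zero, mul_zero]
  · change (if y = 0 then (none : Option M) else some (s / y)).getD 0 = s * y⁻¹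
    by_cases h : y = 0
    · rw [if_pos h, h, inv_zero, mul_zero]
      rfl
    · rw [if_neg h]
      exact div_eq_mul_inv s y

private theorem OA2_co0 (μ : k) {M : Type} [Field M] [Algebra k M] (u : Pnt 3 M) (i : Fin 2) :
    co (th3 μ u) (0, i) = co u (0, i) := rfl

private theorem OA2_co2 (μ : k) {M : Type} [Field M] [Algebra k M] (u : Pnt 3 M) (i : Fin 2) :
    co (th3 μ u) (2, i) = co u (2, i) := rfl

private theorem OA2_co1 (μ : k) {M : Type} [Field M] [Algebra k M] (u : Pnt 3 M) (i : Fin 2) :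
    co (th3 μ u) (1, i) = algebraMap k M (if i = 0 then 1 else μ) * (co u (1, i))⁻¹ := by
  fin_cases i
  · change (oi (1 : M) (u 1 0)).getD 0 = algebraMap k M (if (0 : Fin 2) = 0 then 1 else μ) * ((u 1 0).getD 0)⁻¹
    rw [OA2_getD, if_pos rfl, map_one]
  · change (oi (algebraMap k M μ) (u 1 1)).getD 0 =
      algebraMap k M (if (1 : Fin 2) = 0 then 1 else μ) * ((u 1 1).getD 0)⁻¹
    rw [OA2_getD, if_neg (by decide)]

private theorem OA2_fld {μ : k} (hμ : μ ≠ 0) {M : Type} [Field M] [Algebra k M] (u : Pnt 3 M) :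
    fld k (th3 μ u) = fld k u := by
  unfold fld
  apply le_antisymm
  · rw [IntermediateField.adjoin_le_iff]
    rintro _ ⟨⟨j, i⟩, rfl⟩
    fin_cases j
    · exact IntermediateField.subset_adjoin k _ ⟨(0, i), rfl⟩
    · change co (th3 μ u) (1, i) ∈ _
      rw [OA2_co1]
      exact mul_mem (IntermediateField.algebraMap_mem _ _)
        (inv_mem (IntermediateField.subset_adjoin k _ ⟨(1, i), rfl⟩))
    · exact IntermediateField.subset_adjoin k _ ⟨(2, i), rfl⟩
  · rw [IntermediateField.adjoin_le_iff]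
    rintro _ ⟨⟨j, i⟩, rfl⟩
    fin_cases j
    · exact IntermediateField.subset_adjoin k _ ⟨(0, i), rfl⟩
    · change co u (1, i) ∈ _
      have h0 : (if i = 0 then 1 else μ) ≠ 0 := by
        split_ifs
        · exact one_ne_zero
        · exact hμ
      have h0' : algebraMap k M (if i = 0 then 1 else μ) ≠ 0 :=
        (map_ne_zero_iff _ (algebraMap k M).injective).2 h0
      have h1 : co u (1, i) = algebraMap k M (if i = 0 then 1 else μ) * (co (th3 μ u) (1, i))⁻¹ := by
        rw [OA2_co1, mul_inv, inv_inv, ← mul_assoc, mul_inv_cancel₀ h0', one_mul]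
      rw [h1]
      exact mul_mem (IntermediateField.algebraMap_mem _ _)
        (inv_mem (IntermediateField.subset_adjoin k _ ⟨(1, i), rfl⟩))
    · exact IntermediateField.subset_adjoin k _ ⟨(2, i), rfl⟩

private theorem OA2_zero {μ : k} (hμ : μ ≠ 0) {M : Type} [Field M] [Algebra k M] (u : Pnt 3 M)
    (h : cyc k u = 0) : cyc k (th3 μ u) = 0 := by
  rw [cyc_zero_iff] at h ⊢
  rw [OA2_fld hμ]
  exact h

theorem exists_th {n : ℕ} {a : Fin 3 → k} (hc : (recD n a).Good) {μ : k} (hμ : μ ^ n = (∏ i, a i) ^ 2) :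
    ∃ Γ : CH (recD n a) 3 1 →+ CH (recD n a) 3 1, ∀ (M : Type) [Field M] [Algebra k M] (u : Pnt 3 M),
      FunF k 1 M → On ((recD n a).over M) u → Γ (cls (recD n a) 1 u) = cls (recD n a) 1 (th3 μ u) := by
  have hn : n ≠ 0 := by
    have : 2 ≤ n := hc.two
    omega
  have hμ0 : μ ≠ 0 := by
    rintro rfl
    rw [zero_pow hn] at hμ
    exact pow_ne_zero 2 (Finset.prod_ne_zero_iff.2 fun i _ => (rec_facts hc).1 i) hμ.symm
  obtain ⟨H, hH⟩ := exists_hom (recD n a) 1 (G := CH (recD n a) 3 1)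
    (fun M _ _ (u : Pnt 3 M) => cls (recD n a) 1 (th3 μ u))
    (by
      intro M M' _ _ _ _ σ u _ _ _
      change cls (recD n a) 1 (th3 μ (mpP σ u)) = _
      rw [← th_map, cls_map])
  have hker : RatEq (recD n a) 3 1 ≤ H.ker := by
    apply desc (recD n a) 1 H
    intro K _ _ u g S q hK hu hg hq h1 h2
    have h3 : ∑ v ∈ S, v.ord g • H (cyc k (q v)) = ∑ v ∈ S, v.ord g • cls (recD n a) 1 (th3 μ (q v)) := by
      refine Finset.sum_congr rfl ?_
      intro v hv
      rw [hH (RF v) (q v) (h1 v hv) (on_sp hc hu (hq v))]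
    rw [h3]
    exact div_rel (recD n a) 3 1 hK (th3 μ u) (OA2_on hc hμ hu) g hg S (fun v => th3 μ (q v))
      (fun v => th_sp hμ0 v (hq v)) h1 (fun v hv hvg hF => OA2_zero hμ0 _ (h2 v hv hvg hF))
  refine ⟨QuotientAddGroup.lift (RatEq (recD n a) 3 1) H hker, ?_⟩
  intro M _ _ u hM hu
  change QuotientAddGroup.lift (RatEq (recD n a) 3 1) H hker (QuotientAddGroup.mk (cyc k u)) = _
  rw [QuotientAddGroup.lift_mk]
  exact hH M u hM hu

end Pool.Agent.LibCW77
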