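import Pool.Agent.LibCW77.ODefs
import Pool.Agent.LibCW77.C1

/-!
[CW77 OC1] MEDIUM: the operator Con as a sum over points

`S` = the set of the places `W Q` (`placeC` in C1.lean) of the points `Q` of `D.support`; `q₀ w` = `pr` of the point of `w` (`place_pt` in C1.lean; the point of a place is unique:
`spO_unique` and injectivity of `algebraMap k (RF w)`; the place of a point is unique: last clause of `placeC`). A place `w` outside `S`: its point `Q` has `D Q = 0`, so `mult φ z w = 0`.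
`hCon` gives `Con (cls c 1 u) = ∑_{w ∈ S} mult φ z w • bpt c (q₀ w) = ∑_{Q ∈ D.support} D Q • bpt c (pr Q) = dvL c pr D` (`Finset.sum_image` / `sum_bij`; `Finsupp.liftAddHom_apply`,
`Finsupp.sum`, `zmultiplesHom_apply`). `genC_funF` (C1.lean) gives `FunF k 1 N`.
-/

open scoped Classical
open Polynomial

namespace Pool.Agent.LibCW77

open Pool.Agent.LibBH2
open Pool.Agent.LibCHd (VR RF Red FunF)
open Pool.Agent.LibHL77 (Lf tt EHom NC HE BE mult hypf)

variable {k : Type} [Field k]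

private theorem OC1_map_inj {A B : Type} {g : A → B} (hg : Function.Injective g) {p q : Option A}
    (h : p.map g = q.map g) : p = q := Option.map_injective hg h

private theorem OC1_pt_unique {N : Type} [Field N] [Algebra k N] {x v : N} {w : Place k N}
    {Q Q' : Fin 2 → Option k} (h1 : SpO w (some x) ((Q 0).map (algebraMap k (RF w))))
    (h2 : SpO w (some v) ((Q 1).map (algebraMap k (RF w))))
    (h1' : SpO w (some x) ((Q' 0).map (algebraMap k (RF w))))
    (h2' : SpO w (some v) ((Q' 1).map (algebraMap k (RF w)))) : Q = Q' := by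
  have hinj := (algebraMap k (RF w)).injective
  funext i
  fin_cases i
  · exact OC1_map_inj hinj (spO_unique h1 h1')
  · exact OC1_map_inj hinj (spO_unique h2 h2')

theorem con_gen [IsAlgClosed k] [CharZero k] {c : Dat k} (hc : c.Good) {α : k}
    {Con : CH c 3 1 →+ CH (c.over (Lf k)) 1 0} (hCon : IsCon c α Con) {N : Type} [Field N] [Algebra k N] {x v : N}
    (h : GenC c x v) {u : Pnt 3 N} (hu : On (c.over N) u) {φ : Fin 3 → N}
    (hφ : sec (c.over N) (algebraMap k N α) (u 1) (u 2) = φ) {z : Fin 3} (hz : φ z ≠ 0) (D : Dv k)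
    (hD : ∀ Q, D Q ≠ 0 → OnC c (Q 0) (Q 1)) (pr : (Fin 2 → Option k) → Fin 2 → Option k)
    (H : ∀ (w : Place k N) (Q : Fin 2 → Option k), OnC c (Q 0) (Q 1) →
      SpO w (some x) ((Q 0).map (algebraMap k (RF w))) → SpO w (some v) ((Q 1).map (algebraMap k (RF w))) →
      mult φ z w = D Q ∧ ∀ i, SpO w (u 0 i) ((pr Q i).map (algebraMap k (RF w)))) :
    Con (cls c 1 u) = dvL c pr D := by
  obtain ⟨ζ, hζ⟩ : ∃ ζ : k, IsPrimitiveRoot ζ c.n := by
    have : NeZero (c.n : k) := ⟨by have := hc.two; exact_mod_cast (show c.n ≠ 0 by omega)⟩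
    exact HasEnoughRootsOfUnity.exists_primitiveRoot k c.n
  choose q hq hqx hqv using fun w : Place k N => place_pt hc h w
  choose W hWs _ _ _ _ _ hWu using fun (Q : Fin 2 → Option k) (hQ : OnC c (Q 0) (Q 1)) =>
    placeC hc hζ h Q hQ
  subst hφ
  have hDQ : ∀ Q : {Q // Q ∈ D.support}, OnC c (Q.1 0) (Q.1 1) := fun Q =>
    hD Q.1 (Finsupp.mem_support_iff.1 Q.2)
  have hqW : ∀ Q : {Q // Q ∈ D.support}, q (W Q.1 (hDQ Q)) = Q.1 := fun Q =>
    OC1_pt_unique (hqx _) (hqv _) (hWs Q.1 (hDQ Q)).1 (hWs Q.1 (hDQ Q)).2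
  have h1 := hCon N u z (D.support.attach.image fun Q => W Q.1 (hDQ Q)) (fun w => pr (q w))
    (genC_funF hc h).1 hu hz ?_ ?_
  · rw [h1, Finset.sum_image, dvL, Finsupp.liftAddHom_apply, Finsupp.sum,
      ← Finset.sum_attach D.support]
    · refine Finset.sum_congr rfl fun Q _ => ?_
      rw [hqW Q, zmultiplesHom_apply]
      congr 1
      exact (H (W Q.1 (hDQ Q)) Q.1 (hDQ Q) (hWs Q.1 (hDQ Q)).1 (hWs Q.1 (hDQ Q)).2).1
    · intro Q _ Q' _ hQQ
      have h2 : W Q.1 (hDQ Q) = W Q'.1 (hDQ Q') := hQQ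
      refine Subtype.ext ?_
      rw [← hqW Q, h2, hqW Q']
  · intro w hw
    rw [(H w (q w) (hq w) (hqx w) (hqv w)).1]
    by_contra hne
    refine hw (Finset.mem_image.2 ⟨⟨q w, Finsupp.mem_support_iff.2 hne⟩, Finset.mem_attach _ _, ?_⟩)
    exact (hWu (q w) _ w (hqx w) (hqv w)).symm
  · intro w _ i
    exact (H w (q w) (hq w) (hqx w) (hqv w)).2 i

end Pool.Agent.LibCW77
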