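import Pool.Agent.LibCW77.OA1
import Pool.Agent.LibCW77.Ds

/-!
[CW77 OD1] MEDIUM: descent for divisors, degrees

`dv_desc`: `descent` (Ds.lean) with `J = D.support` (as a type), `m = D`, `Q = id`; `dvL c id D = ∑_{Q ∈ D.support} D Q • bpt c Q` (`Finsupp.liftAddHom_apply`, `Finsupp.sum`, `Finset.sum_coe_sort`). `dv_const`: the same
formula, `Finset.sum_smul`. `deg_ABC`: the degree is an additive map (`Finsupp.liftAddHom fun _ => AddMonoidHom.id ℤ`), it is `n` on `FF c T` for `fv c T ≠ 0` (the equation `X ^ n = y ≠ 0` has `n` solutions: `IsAlgClosed`,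
`CharZero`: `nthRoots`/ `HasEnoughRootsOfUnity`), so `2 n + 3 + 3 - 2 - (n - 1 + 3) - (n + 2) = 0`. The values `fv` are not `0` by `rec_fv`, `rec_facts`.
-/

open scoped Classical
open Polynomial

namespace Pool.Agent.LibCW77

open Pool.Agent.LibBH2
open Pool.Agent.LibCHd (VR RF Red FunF)
open Pool.Agent.LibHL77 (Lf tt EHom NC HE BE mult hypf)

variable {k : Type} [Field k]

private theorem OD1_dvL (c : Dat k) (pr : (Fin 2 → Option k) → Fin 2 → Option k) (D : Dv k) :
    dvL c pr D = ∑ Q ∈ D.support, D Q • bpt c (pr Q) := by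
  unfold dvL
  rw [Finsupp.liftAddHom_apply, Finsupp.sum]
  exact Finset.sum_congr rfl fun Q _ => zmultiplesHom_apply _ _ _

private theorem OD1_dvk (c : Dat k) (D : Dv k) :
    dvk c D = ∑ Q ∈ D.support, D Q • cls c 0 (pt1 Q) := by
  unfold dvk
  rw [Finsupp.liftAddHom_apply, Finsupp.sum]
  exact Finset.sum_congr rfl fun Q _ => zmultiplesHom_apply _ _ _

theorem dv_desc [IsAlgClosed k] [CharZero k] {c : Dat k} (hc : c.Good) (D : Dv k)
    (hD : ∀ Q, D Q ≠ 0 → OnC c (Q 0) (Q 1)) (h : IsOfFinAddOrder (dvL c id D)) : IsOfFinAddOrder (dvk c D) := by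
  rw [OD1_dvL] at h
  rw [OD1_dvk]
  have h1 : ∑ Q ∈ D.support, D Q • bpt c (id Q) =
      ∑ Q : D.support, D (Q : Fin 2 → Option k) • bpt c (Q : Fin 2 → Option k) :=
    (Finset.sum_coe_sort D.support (fun Q => D Q • bpt c Q)).symm
  have h2 : ∑ Q ∈ D.support, D Q • cls c 0 (pt1 Q) =
      ∑ Q : D.support, D (Q : Fin 2 → Option k) • cls c 0 (pt1 (Q : Fin 2 → Option k)) :=
    (Finset.sum_coe_sort D.support (fun Q => D Q • cls c 0 (pt1 Q))).symm
  rw [h1] at h
  rw [h2]
  exact descent hc (fun Q : D.support => D (Q : Fin 2 → Option k))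
    (fun Q : D.support => (Q : Fin 2 → Option k))
    (fun Q => hD _ (Finsupp.mem_support_iff.1 Q.2)) h

theorem dv_const (c : Dat k) (E : Fin 2 → Option k) (D : Dv k) :
    dvL c (fun _ => E) D = (D.sum fun _ m => m) • bpt c E := by
  rw [OD1_dvL, Finsupp.sum]
  have h := map_sum (zmultiplesHom (CH (c.over (Lf k)) 1 0) (bpt c E)) (fun Q => D Q) D.support
  simpa only [zmultiplesHom_apply] using h.symm

/-- the degree -/
private noncomputable def OD1_deg : Dv k →+ ℤ := Finsupp.liftAddHom fun _ => AddMonoidHom.id ℤ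

private theorem OD1_deg_eq (D : Dv k) : OD1_deg D = D.sum fun _ m => m := by
  unfold OD1_deg
  rw [Finsupp.liftAddHom_apply]
  rfl

private theorem OD1_deg_single (Q : Fin 2 → Option k) (m : ℤ) :
    OD1_deg (Finsupp.single Q m) = m := by
  unfold OD1_deg
  rw [Finsupp.liftAddHom_apply_single]
  rfl

private theorem OD1_card [IsAlgClosed k] [CharZero k] (n : ℕ) (hn : 0 < n) (a : k) (ha : a ≠ 0) :
    (nthRootsFinset n a).card = n := by
  have : NeZero n := ⟨hn.ne'⟩
  have : NeZero (n : k) := ⟨Nat.cast_ne_zero.2 hn.ne'⟩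
  obtain ⟨ζ, hζ⟩ : ∃ ζ : k, IsPrimitiveRoot ζ n := HasEnoughRootsOfUnity.exists_primitiveRoot k n
  have h1 : Multiset.card (nthRoots n a) = n := by
    rw [hζ.card_nthRoots, if_pos]
    exact IsAlgClosed.exists_pow_nat_eq a hn
  have h2 : (nthRoots n a).Nodup := hζ.nthRoots_nodup ha
  rw [nthRootsFinset_def, Multiset.toFinset_card_of_nodup h2, h1]

private theorem OD1_deg_FF [IsAlgClosed k] [CharZero k] (c : Dat k) (hn : 0 < c.n) (T : Option k)
    (hT : fv c T ≠ 0) : OD1_deg (FF c T) = c.n := by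
  unfold FF
  rw [map_sum]
  simp only [OD1_deg_single]
  rw [Finset.sum_const, OD1_card c.n hn _ hT]
  simp

theorem deg_ABC [IsAlgClosed k] [CharZero k] {n : ℕ} {a : Fin 3 → k} (hc : (recD n a).Good) (s e₁ e₂ : k) :
    ((DA (recD n a) s e₁ e₂ - DB (recD n a) - DC (recD n a) : Dv k).sum fun _ m => m) = 0 := by
  obtain ⟨f1, f2, f3, -⟩ := rec_fv hc
  obtain ⟨g1, -, -⟩ := rec_facts hc
  have hp : ∏ i, a i ≠ 0 := Finset.prod_ne_zero_iff.2 fun i _ => g1 i
  have hn : 0 < (recD n a).n := by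
    have := hc.two
    omega
  have d1 := OD1_deg_FF (recD n a) hn (some 1) (by rw [f1]; exact neg_ne_zero.2 hp)
  have d2 := OD1_deg_FF (recD n a) hn (some (-1)) (by rw [f2]; exact hp)
  have d3 := OD1_deg_FF (recD n a) hn none (by rw [f3]; exact one_ne_zero)
  rw [← OD1_deg_eq]
  unfold DA DB DC
  simp only [map_sub, map_add, map_sum, map_zsmul, OD1_deg_single, d1, d2, d3, Finset.sum_const,
    Finset.card_univ, Fintype.card_fin, smul_eq_mul, nsmul_eq_mul]
  push_cast
  ring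

end Pool.Agent.LibCW77
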