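import Pool.Agent.LibCW77.GDefs
import Pool.Agent.LibCW77.V1
import Pool.Agent.LibCW77.D6

/-!
Definitions for the curves `v ^ n ∏ (x - 1 / a_i) = ∏ (x - a_i)` with the automorphisms `(x, v) ↦ (1 / x, μ / v)`.
-/

open scoped Classical
open Polynomial

namespace Pool.Agent.LibCW77

open Pool.Agent.LibBH2
open Pool.Agent.LibCHd (VR RF Red FunF)
open Pool.Agent.LibHL77 (Lf tt EHom NC HE BE mult hypf)

variable {k : Type} [Field k]

/-- the curve `v ^ n ∏ (x - 1 / a_i) = ∏ (x - a_i)` -/
def recD (n : ℕ) (a : Fin 3 → k) : Dat k := ⟨n, a, fun i => (a i)⁻¹⟩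

/-- `y ↦ s / y` on the projective line -/
noncomputable def oi {M : Type} [Field M] (s : M) : Option M → Option M
  | none => some 0
  | some y => if y = 0 then none else some (s / y)

/-- `(x, v) ↦ (1 / x, μ / v)` on points -/
noncomputable def th (μ : k) {M : Type} [Field M] [Algebra k M] (P : Fin 2 → Option M) : Fin 2 → Option M :=
  ![oi 1 (P 0), oi (algebraMap k M μ) (P 1)]

/-- the automorphism on the second factor of `C ^ 3` -/
noncomputable def th3 (μ : k) {M : Type} [Field M] [Algebra k M] (u : Pnt 3 M) : Pnt 3 M :=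
  ![u 0, th μ (u 1), u 2]

/-- the value of `v ^ n` over the point `T` of the line -/
noncomputable def fv (c : Dat k) : Option k → k
  | none => 1
  | some t => (∏ i, (t - c.a i)) / ∏ i, (t - c.b i)

/-- divisors: combinations of points over `k` -/
abbrev Dv (k : Type) : Type := (Fin 2 → Option k) →₀ ℤ

/-- the fibre over the point `T` of the line -/
noncomputable def FF (c : Dat k) (T : Option k) : Dv k :=
  ∑ s ∈ nthRootsFinset c.n (fv c T), Finsupp.single ![T, some s] 1

/-- the point `(a_i, 0)` -/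
def pa (c : Dat k) (i : Fin 3) : Fin 2 → Option k := ![some (c.a i), some 0]

/-- the point `(b_i, ∞)` -/
def pb (c : Dat k) (i : Fin 3) : Fin 2 → Option k := ![some (c.b i), none]

/-- the class over `k(T_1, T_2)` of the divisor `∑ m_Q pr(Q)` -/
noncomputable def dvL (c : Dat k) (pr : (Fin 2 → Option k) → Fin 2 → Option k) :
    Dv k →+ CH (c.over (Lf k)) 1 0 :=
  Finsupp.liftAddHom fun Q => zmultiplesHom _ (bpt c (pr Q))

/-- the class of a divisor -/
noncomputable def dvk (c : Dat k) : Dv k →+ CH c 1 0 :=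
  Finsupp.liftAddHom fun Q => zmultiplesHom _ (cls c 0 (pt1 Q))

/-- zeros of the section number `0` on `P ↦ (θ P, P)` -/
noncomputable def DA (c : Dat k) (s e₁ e₂ : k) : Dv k :=
  FF c (some 1) + FF c (some (-1)) + ∑ i, Finsupp.single (pa c i) 1 + ∑ i, Finsupp.single (pb c i) 1 -
    Finsupp.single ![some e₁, some s] 1 - Finsupp.single ![some e₂, some (-s)] 1

/-- zeros of the section number `0` on `P ↦ (θ P, e)` -/
noncomputable def DB (c : Dat k) : Dv k :=
  ((c.n : ℤ) - 1) • Finsupp.single (pb c 0) 1 + ∑ i, Finsupp.single (pa c i) 1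

/-- zeros of the section number `1` on `P ↦ (θ e, P)` -/
noncomputable def DC (c : Dat k) : Dv k :=
  FF c none + Finsupp.single (pb c 1) 1 + Finsupp.single (pb c 2) 1

end Pool.Agent.LibCW77
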