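import Pool.Agent.LibCW77.ODefs
import Pool.Agent.LibCW77.C1
import Pool.Agent.LibCW77.DE7

/-!
[CW77 OF1] MEDIUM: fibres are equivalent to n (b_0, infinity)

`genC_exists` gives the generic point `(x, v)`, `gpt x v : Pnt 1 N`; `div_rel` with the function `g = (x - t) / (x - b_0)` (`T = some t`), `g = 1 / (x - b_0)` (`T = none`): by `placeC` (C1.lean) its order is `1` at the
`n` places of the fibre, `- n` at the place of `pb c 0` and `0` elsewhere (for `T = none`: `1 / (x - b_0)` has order `1` at the `n` places at infinity; for `T = some t` it has order `0` there). See L2.lean / Z-files for other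
uses of `div_rel` with `placeC`. `dvk c (FF c T) = ∑_{s ^ n = fv c T} cls c 0 (pt1 ![T, some s])` (`map_sum`, `Finsupp.liftAddHom_apply_single`).
-/

open scoped Classical
open Polynomial

namespace Pool.Agent.LibCW77

open Pool.Agent.LibBH2
open Pool.Agent.LibCHd (VR RF Red FunF)
open Pool.Agent.LibHL77 (Lf tt EHom NC HE BE mult hypf)

variable {k : Type} [Field k]

private theorem OF1_sum {ι A : Type} [AddCommGroup A] (s : Finset ι) (g : ι → ℤ) (t : A) :
    (∑ x ∈ s, g x) • t = ∑ x ∈ s, g x • t := by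
  have h := map_sum (zmultiplesHom A t) g s
  simpa only [zmultiplesHom_apply] using h

private theorem OF1_map0 {M : Type} [Field M] [Algebra k M] (Q : Fin 2 → Option k) :
    mpP (Algebra.ofId k M) (pt1 Q) = pt1 (ctp M Q) := rfl

private theorem OF1_spP {K : Type} [Field K] [Algebra k K] {w : Place k K} {x y : K} {Q : Fin 2 → Option (RF w)}
    (h1 : SpO w (some x) (Q 0)) (h2 : SpO w (some y) (Q 1)) : SpP w (gpt x y) (pt1 Q) := by
  intro j i
  fin_cases i
  · exact h1
  · exact h2

/-- a relation from a function on the curve -/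
private theorem OF1_rel [IsAlgClosed k] [CharZero k] {c : Dat k} (hc : c.Good) {ζ : k}
    (hζ : IsPrimitiveRoot ζ c.n) {F : Type} [Field F] [Algebra k F] {x y : F} (hg : GenC c x y) (f : F)
    (hf : f ≠ 0) {J : Type} [Fintype J] (m : J → ℤ) (Q : J → Fin 2 → Option k)
    (hQ : ∀ j, OnC c (Q j 0) (Q j 1)) (P : Place k F → Fin 2 → Option k)
    (hP2 : ∀ p, SpO p (some x) ((P p 0).map (algebraMap k (RF p))))
    (hP3 : ∀ p, SpO p (some y) ((P p 1).map (algebraMap k (RF p))))
    (hord : ∀ p : Place k F, p.ord f = ∑ j, (if Q j = P p then m j else 0)) :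
    ∑ j, m j • cls c 0 (pt1 (Q j)) = 0 := by
  have hF := (genC_funF hc hg).1
  have hpl : ∀ j, ∃ p : Place k F, P p = Q j ∧ ∀ p', P p' = Q j → p' = p := by
    intro j
    obtain ⟨p, ⟨hp1, hp2⟩, -, -, -, -, -, huniq⟩ := placeC hc hζ hg (Q j) (hQ j)
    refine ⟨p, ?_, ?_⟩
    · funext a
      have hinj := Option.map_injective (algebraMap k (RF p)).injective
      fin_cases a
      · exact hinj (spO_unique (hP2 p) hp1)
      · exact hinj (spO_unique (hP3 p) hp2)
    · intro p' hp'
      apply huniq
      · rw [← hp']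
        exact hP2 p'
      · rw [← hp']
        exact hP3 p'
  choose pl hpl1 hpl2 using hpl
  have hclsP : ∀ p : Place k F, cls c 0 (pt1 (ctp (RF p) (P p))) = cls c 0 (pt1 (P p)) := by
    intro p
    rw [← OF1_map0, cls_map]
    have h1 : Function.Surjective (algebraMap k (RF p)) := res_k hF p
    have h2 : (Algebra.ofId k (RF p)).fieldRange = ⊤ := by
      rw [eq_top_iff]
      intro z _
      obtain ⟨a, rfl⟩ := h1 z
      exact ⟨a, rfl⟩
    have h3 : Module.finrank (Algebra.ofId k (RF p)).fieldRange (RF p) = 1 := by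
      rw [h2]
      exact IntermediateField.finrank_top
    rw [h3]
    simp
  obtain ⟨S, hS⟩ : ∃ S : Finset (Place k F), S = (fin_zero hF f).toFinset ∪ Finset.univ.image pl := ⟨_, rfl⟩
  have hrel := div_rel c 1 0 hF (gpt x y) (fun _ => hg.on) f hf S
    (fun p => pt1 (ctp (RF p) (P p))) (fun p => OF1_spP (hP2 p) (hP3 p))
    (fun p _ => Pool.Agent.LibHL77.res_finite hF p) (fun p hp h1 _ => by
      exfalso
      apply hp
      rw [hS, Finset.mem_union, Set.Finite.mem_toFinset]
      exact Or.inl h1)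
  rw [← hrel]
  symm
  calc ∑ p ∈ S, p.ord f • cls c 0 (pt1 (ctp (RF p) (P p)))
      = ∑ p ∈ S, ∑ j, (if p = pl j then m j • cls c 0 (pt1 (Q j)) else 0) := by
        refine Finset.sum_congr rfl fun p _ => ?_
        rw [hclsP, hord, OF1_sum]
        refine Finset.sum_congr rfl fun j _ => ?_
        by_cases h1 : Q j = P p
        · rw [if_pos h1, if_pos (hpl2 j p h1.symm), h1]
        · rw [if_neg h1, if_neg, zero_zsmul]
          rintro rfl
          exact h1 (hpl1 j).symm
    _ = ∑ j, m j • cls c 0 (pt1 (Q j)) := by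
        rw [Finset.sum_comm]
        refine Finset.sum_congr rfl fun j _ => ?_
        rw [Finset.sum_ite_eq', if_pos]
        rw [hS, Finset.mem_union]
        exact Or.inr (Finset.mem_image_of_mem _ (Finset.mem_univ _))

private theorem OF1_tr {M : Type} [Field M] [Algebra k M] {x : M} (hx : Transcendental k x) (a : k) :
    x - algebraMap k M a ≠ 0 := by
  intro h
  rw [sub_eq_zero] at h
  rw [h] at hx
  exact hx (isAlgebraic_algebraMap a)

private theorem OF1_neg {K : Type} [Field K] [Algebra k K] (v : Place k K) {s : K}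
    (h : v.ord s < 0) (c : k) : v.ord (s - algebraMap k K c) = v.ord s := by
  have hs : s ≠ 0 := by rintro rfl; rw [v.ord_zero] at h; omega
  by_cases hc : c = 0
  · rw [hc, map_zero, sub_zero]
  · have h1 : v.ord (-algebraMap k K c) = 0 := by rw [Place.ord_neg, v.ord_const c hc]
    have h2 : -algebraMap k K c ≠ 0 := by simpa using hc
    rw [sub_eq_add_neg]
    exact (Place.ord_add_of_lt hs h2 (by rw [h1]; exact h)).2

private theorem OF1_shift {K : Type} [Field K] [Algebra k K] {w : Place k K} {x : K} {a b : k}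
    (h : Red w x (algebraMap k (RF w) a)) (hab : a ≠ b) : w.ord (x - algebraMap k K b) = 0 := by
  rw [LibCHd.red_iff_val] at h
  refine Place.ord_eq_zero_of_val (c := a - b) ?_ (sub_ne_zero.mpr hab)
  have e : x - algebraMap k K b - algebraMap k K (a - b) = x - algebraMap k K a := by
    rw [map_sub]
    ring
  rw [e]
  exact h

private theorem OF1_ab {c : Dat k} (hc : c.Good) (i j : Fin 3) : c.a i ≠ c.b j := by
  intro h
  have h1 : Sum.elim c.a c.b (Sum.inl i) = Sum.elim c.a c.b (Sum.inr j) := h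
  exact absurd (hc.inj h1) (by simp)

/-- the points over `T` -/
private theorem OF1_over [CharZero k] {c : Dat k} (hc : c.Good) (T : Option k)
    (hT : ∀ i, T ≠ some (c.a i) ∧ T ≠ some (c.b i)) (R : Option k) (h : OnC c T R) :
    ∃ v, R = some v ∧ v ≠ 0 ∧ v ^ c.n = fv c T := by
  have hn : c.n ≠ 0 := by have := hc.two; omega
  rcases T with _ | t
  · rcases R with _ | v
    · exact h.elim
    · have h1 : v ^ c.n = 1 := h
      refine ⟨v, rfl, ?_, h1⟩
      rintro rfl
      rw [zero_pow hn] at h1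
      exact zero_ne_one h1
  · rcases R with _ | v
    · obtain ⟨i, hi⟩ := h
      exact absurd (congrArg some hi) (hT i).2
    · have h1 : v ^ c.n * ∏ i, (t - c.b i) = ∏ i, (t - c.a i) := h
      have hb : ∏ i, (t - c.b i) ≠ 0 :=
        Finset.prod_ne_zero_iff.2 fun i _ => sub_ne_zero.2 fun h => (hT i).2 (congrArg some h)
      have ha : ∏ i, (t - c.a i) ≠ 0 :=
        Finset.prod_ne_zero_iff.2 fun i _ => sub_ne_zero.2 fun h => (hT i).1 (congrArg some h)
      refine ⟨v, rfl, ?_, ?_⟩
      · rintro rfl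
        rw [zero_pow hn, zero_mul] at h1
        exact ha h1.symm
      · show v ^ c.n = (∏ i, (t - c.a i)) / ∏ i, (t - c.b i)
        rw [eq_div_iff hb]
        exact h1

/-- the point over `b_0` -/
private theorem OF1_b {c : Dat k} (hc : c.Good) (R : Fin 2 → Option k) (h : OnC c (R 0) (R 1))
    (h0 : R 0 = some (c.b 0)) : pb c 0 = R := by
  have h1 : R 1 = none := by
    rcases hR : R 1 with _ | v
    · rfl
    · exfalso
      rw [h0, hR] at h
      have h1 : v ^ c.n * ∏ i, (c.b 0 - c.b i) = ∏ i, (c.b 0 - c.a i) := h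
      have h2 : ∏ i, (c.b 0 - c.b i) = 0 := Finset.prod_eq_zero (Finset.mem_univ 0) (sub_self _)
      rw [h2, mul_zero] at h1
      obtain ⟨i, -, hi⟩ := Finset.prod_eq_zero_iff.1 h1.symm
      exact OF1_ab hc i 0 (sub_eq_zero.1 hi).symm
  funext a
  fin_cases a
  · exact h0.symm
  · exact h1.symm

theorem fib_rel [IsAlgClosed k] [CharZero k] {c : Dat k} (hc : c.Good) (T : Option k)
    (hT : ∀ i, T ≠ some (c.a i) ∧ T ≠ some (c.b i)) : dvk c (FF c T) = (c.n : ℤ) • cls c 0 (pt1 (pb c 0)) := by
  have hn : 0 < c.n := by have := hc.two; omega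
  obtain ⟨ζ, hζ⟩ : ∃ ζ : k, IsPrimitiveRoot ζ c.n := by
    have : NeZero c.n := ⟨hn.ne'⟩
    have : NeZero (c.n : k) := ⟨Nat.cast_ne_zero.2 hn.ne'⟩
    exact HasEnoughRootsOfUnity.exists_primitiveRoot k c.n
  obtain ⟨F, _, _, x, y, hg⟩ := genC_exists hc
  choose P hP1 hP2 hP3 using place_pt hc hg
  have key : ∀ p : Place k F,
      (∀ x₀ v₀, P p 0 = some x₀ → P p 1 = some v₀ → v₀ ≠ 0 → p.ord (x - algebraMap k F x₀) = 1) ∧
      (P p 0 = none → p.ord x = -1) ∧
      (∀ i, P p 0 = some (c.b i) → p.ord (x - algebraMap k F (c.b i)) = c.n) := by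
    intro p
    obtain ⟨w, -, -, h1, h2, -, h3, huniq⟩ := placeC hc hζ hg (P p) (hP1 p)
    have hw : p = w := huniq p (hP2 p) (hP3 p)
    rw [← hw] at h1 h2 h3
    exact ⟨h1, h2, fun i hi => (h3 i hi).1⟩
  have hxn : ∀ (p : Place k F) (b : k), P p 0 = none → p.ord (x - algebraMap k F b) = -1 := by
    intro p b h
    have h1 := (key p).2.1 h
    rw [OF1_neg p (by rw [h1]; norm_num), h1]
  have hxs : ∀ (p : Place k F) (b x₀ : k), P p 0 = some x₀ → x₀ ≠ b →
      p.ord (x - algebraMap k F b) = 0 := by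
    intro p b x₀ h hne
    have h1 := hP2 p
    rw [h] at h1
    exact OF1_shift h1 hne
  obtain ⟨A, hA⟩ : ∃ A : Finset k, A = nthRootsFinset c.n (fv c T) := ⟨_, rfl⟩
  have hmem : ∀ v, v ∈ A ↔ v ^ c.n = fv c T := by
    intro v
    rw [hA]
    exact mem_nthRootsFinset hn _
  obtain ⟨m, hm⟩ : ∃ m : Option A → ℤ, m = fun o => o.elim (-(c.n : ℤ)) (fun _ => 1) := ⟨_, rfl⟩
  obtain ⟨Q, hQd⟩ : ∃ Q : Option A → Fin 2 → Option k,
      Q = fun o => o.elim (pb c 0) (fun s => ![T, some (s : k)]) := ⟨_, rfl⟩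
  have hQ : ∀ j, OnC c (Q j 0) (Q j 1) := by
    intro j
    rw [hQd]
    rcases j with _ | ⟨s, hs⟩
    · exact ⟨0, rfl⟩
    · have hs' := (hmem s).1 hs
      rcases T with _ | t
      · exact hs'
      · have hb : ∏ i, (t - c.b i) ≠ 0 :=
          Finset.prod_ne_zero_iff.2 fun i _ => sub_ne_zero.2 fun h => (hT i).2 (congrArg some h)
        show s ^ c.n * ∏ i, (t - c.b i) = ∏ i, (t - c.a i)
        rw [hs']
        exact div_mul_cancel₀ _ hb
  have hT0 : T ≠ some (c.b 0) := (hT 0).2
  have hsum : ∀ p : Place k F, ∑ j, (if Q j = P p then m j else 0) =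
      (if P p 0 = some (c.b 0) then -(c.n : ℤ) else 0) + (if P p 0 = T then 1 else 0) := by
    intro p
    rw [Fintype.sum_option]
    have e1 : (if Q none = P p then m none else 0) =
        (if P p 0 = some (c.b 0) then -(c.n : ℤ) else 0) := by
      rw [hQd, hm]
      show (if pb c 0 = P p then -(c.n : ℤ) else 0) = _
      by_cases h : P p 0 = some (c.b 0)
      · rw [if_pos h, if_pos (OF1_b hc (P p) (hP1 p) h)]
      · rw [if_neg h, if_neg]
        intro h1
        apply h
        rw [← h1]
        rfl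
    rw [e1]
    congr 1
    have e2 : ∀ s : A, (if Q (some s) = P p then m (some s) else 0) =
        (if ![T, some (s : k)] = P p then (1 : ℤ) else 0) := by
      intro s
      rw [hQd, hm]
      rfl
    rw [Finset.sum_congr rfl fun s _ => e2 s]
    by_cases h : P p 0 = T
    · have h1 := hP1 p
      rw [h] at h1
      obtain ⟨v, hv1, hv2, hv3⟩ := OF1_over hc T hT (P p 1) h1
      rw [if_pos h, Finset.sum_eq_single ⟨v, (hmem v).2 hv3⟩]
      · rw [if_pos]
        funext a
        fin_cases a
        · exact h.symm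
        · exact hv1.symm
      · intro s _ hs
        rw [if_neg]
        intro h2
        apply hs
        have h3 : some (s : k) = P p 1 := congrFun h2 1
        rw [hv1] at h3
        exact Subtype.ext (Option.some.inj h3)
      · intro h2
        exact absurd (Finset.mem_univ _) h2
    · rw [if_neg h]
      refine Finset.sum_eq_zero fun s _ => ?_
      rw [if_neg]
      intro h2
      exact h (congrFun h2 0).symm
  obtain ⟨G, hG⟩ : ∃ G : F, G = T.elim 1 (fun t => x - algebraMap k F t) := ⟨_, rfl⟩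
  have hG0 : G ≠ 0 := by
    rw [hG]
    rcases T with _ | t
    · exact one_ne_zero
    · exact OF1_tr hg.tr t
  have hx0 : x - algebraMap k F (c.b 0) ≠ 0 := OF1_tr hg.tr _
  have hGp : ∀ p : Place k F, p.ord G = (if P p 0 = T then 1 else 0) -
      (if P p 0 = none then 1 else 0) := by
    intro p
    rcases T with _ | t
    · rw [hG]
      show p.ord 1 = _
      rw [Place.ord_one, sub_self]
    · rw [hG]
      show p.ord (x - algebraMap k F t) = _
      rcases h : P p 0 with _ | x₀
      · rw [hxn p t h]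
        simp
      · by_cases hx : x₀ = t
        · subst hx
          have h1 := hP1 p
          rw [h] at h1
          obtain ⟨v, hv1, hv2, hv3⟩ := OF1_over hc (some x₀) hT (P p 1) h1
          rw [(key p).1 x₀ v h hv1 hv2]
          simp
        · rw [hxs p t x₀ h hx]
          simp [hx]
  have hBp : ∀ p : Place k F, p.ord (x - algebraMap k F (c.b 0)) =
      (if P p 0 = some (c.b 0) then (c.n : ℤ) else 0) - (if P p 0 = none then 1 else 0) := by
    intro p
    rcases h : P p 0 with _ | x₀
    · rw [hxn p _ h]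
      simp
    · by_cases hx : x₀ = c.b 0
      · rw [hx] at h
        rw [(key p).2.2 0 h, hx]
        simp
      · rw [hxs p _ x₀ h hx]
        simp [hx]
  have hfin := OF1_rel hc hζ hg (G / (x - algebraMap k F (c.b 0))) (div_ne_zero hG0 hx0) m Q hQ P
    hP2 hP3 (by
      intro p
      rw [Place.ord_div _ _ _ hG0 hx0, hsum, hGp, hBp]
      by_cases h : P p 0 = some (c.b 0)
      · rw [if_pos h, if_pos h]
        ring
      · rw [if_neg h, if_neg h]
        ring)
  rw [Fintype.sum_option] at hfin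
  have e1 : m none • cls c 0 (pt1 (Q none)) = -((c.n : ℤ) • cls c 0 (pt1 (pb c 0))) := by
    rw [hQd, hm]
    show (-(c.n : ℤ)) • cls c 0 (pt1 (pb c 0)) = _
    rw [neg_smul]
  have e2 : ∑ s : A, m (some s) • cls c 0 (pt1 (Q (some s))) = dvk c (FF c T) := by
    unfold dvk FF
    rw [map_sum, ← hA, ← Finset.sum_coe_sort A]
    refine Finset.sum_congr rfl fun s _ => ?_
    rw [Finsupp.liftAddHom_apply_single, zmultiplesHom_apply, hQd, hm]
    rfl
  rw [e1, e2] at hfin
  exact (neg_add_eq_zero.1 hfin).symm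

end Pool.Agent.LibCW77
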