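import Pool.Agent.LibCW77.OA1
import Pool.Agent.LibCW77.C1

/-!
[CW77 OM1] STRONG: multiplicities on P -> (theta P, P)

`placeC` (C1.lean): orders of `x - t`, `x`, `v` at the place of the point `Q`. `mult φ z w = w.ord (φ z) - min_j w.ord (φ j)` (over `φ j ≠ 0`; `sInf`, see `V1_mult` in V1.lean). The third
coordinate is a combination with constant coefficients of the first two, so the minimum is that of the first two; so
`mult = w.ord (x - 1 / x) - min (w.ord (x - 1 / x)) (w.ord (v - s ^ 2 / v))` (`x - 1 / x ≠ 0`, `v ^ 2 ≠ s ^ 2`: `x`, `v` are transcendental). Cases: `Q = (t, s')` with `t = ± 1`: `w.ord (x - 1 / x) = 1`;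
`v ^ 2 - s ^ 2` has order `≥ 1` if `s' = ± s`, so `mult = 0`, else order `0`, `mult = 1`; if `s' = s` then `s' ^ n = fv (some t) = - t ∏ a_i` and `hs1` give `t = e₁`, if `s' = -s`
then `t = e₂` (so `DA Q = 1 - 1`). `Q = (0, s')`, `(none, s')`: `w.ord (x - 1 / x) = -1` is the minimum: `0`. `Q = pa i`, `pb i`: `w.ord (x - 1 / x) = 0` (`a_i ^ 2 ≠ 1`), `v - s ^ 2 / v` has order `-1`:
`mult = 1`. Else `x - 1 / x` has order `0` and `v - s ^ 2 / v` order `≥ 0`: `0`. `DA Q`: `Finsupp` evaluation; a helper lemma for `FF c T Q` (`1` if `Q 0 = T` and `Q` is on the curve, else `0`, for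
`T` not a branch point) is useful. `on_DA`: the points of `DA` are on the curve.
-/

open scoped Classical
open Polynomial

namespace Pool.Agent.LibCW77

open Pool.Agent.LibBH2
open Pool.Agent.LibCHd (VR RF Red FunF)
open Pool.Agent.LibHL77 (Lf tt EHom NC HE BE mult hypf)

variable {k : Type} [Field k]

private theorem OM1_root [IsAlgClosed k] [CharZero k] {n : ℕ} (hn : 2 ≤ n) : ∃ ζ : k, IsPrimitiveRoot ζ n := by
  have : NeZero (n : k) := ⟨Nat.cast_ne_zero.2 (by omega)⟩
  exact HasEnoughRootsOfUnity.exists_primitiveRoot k n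

private theorem OM1_single {P Q : Fin 2 → Option k} :
    (Finsupp.single P (1 : ℤ)) Q = if P = Q then 1 else 0 := by
  rw [Finsupp.single_apply]

private theorem OM1_ext {P Q : Fin 2 → Option k} : P = Q ↔ P 0 = Q 0 ∧ P 1 = Q 1 := by
  constructor
  · rintro rfl
    exact ⟨rfl, rfl⟩
  · rintro ⟨h0, h1⟩
    funext i
    fin_cases i
    · exact h0
    · exact h1

/-- evaluation of a fibre -/
private theorem OM1_FF {c : Dat k} (hn : 0 < c.n) (T : Option k) (Q : Fin 2 → Option k) :
    FF c T Q = if Q 0 = T ∧ ∃ s, Q 1 = some s ∧ s ^ c.n = fv c T then 1 else 0 := by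
  unfold FF
  rw [Finsupp.finsetSum_apply]
  by_cases h : Q 0 = T ∧ ∃ s, Q 1 = some s ∧ s ^ c.n = fv c T
  · rw [if_pos h]
    obtain ⟨h0, s, h1, hs⟩ := h
    rw [Finset.sum_eq_single s]
    · rw [OM1_single, if_pos]
      rw [OM1_ext]
      exact ⟨h0.symm, h1.symm⟩
    · intro s' _ hs'
      rw [OM1_single, if_neg]
      rw [OM1_ext]
      rintro ⟨-, h2⟩
      have h3 : some s' = Q 1 := h2
      rw [h1, Option.some_inj] at h3
      exact hs' h3
    · intro h2
      rw [mem_nthRootsFinset hn] at h2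
      exact absurd hs h2
  · rw [if_neg h]
    refine Finset.sum_eq_zero fun s hs => ?_
    rw [mem_nthRootsFinset hn] at hs
    rw [OM1_single, if_neg]
    rw [OM1_ext]
    rintro ⟨h0, h1⟩
    exact h ⟨h0.symm, s, h1.symm, hs⟩

/-- evaluation of `DA` -/
private theorem OM1_DA {n : ℕ} {a : Fin 3 → k} (hn : 0 < n) (s e₁ e₂ : k) (Q : Fin 2 → Option k) :
    DA (recD n a) s e₁ e₂ Q =
      (if Q 0 = some 1 ∧ ∃ s, Q 1 = some s ∧ s ^ n = fv (recD n a) (some 1) then 1 else 0) +
      (if Q 0 = some (-1) ∧ ∃ s, Q 1 = some s ∧ s ^ n = fv (recD n a) (some (-1)) then 1 else 0) +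
      (∑ i, if some (a i) = Q 0 ∧ some 0 = Q 1 then 1 else 0) +
      (∑ i, if some (a i)⁻¹ = Q 0 ∧ none = Q 1 then 1 else 0) -
      (if some e₁ = Q 0 ∧ some s = Q 1 then 1 else 0) -
      (if some e₂ = Q 0 ∧ some (-s) = Q 1 then 1 else 0) := by
  have hF := fun T => OM1_FF (c := recD n a) hn T Q
  unfold DA
  rw [Finsupp.sub_apply, Finsupp.sub_apply, Finsupp.add_apply, Finsupp.add_apply, Finsupp.add_apply, hF, hF,
    Finsupp.finsetSum_apply, Finsupp.finsetSum_apply]
  simp only [OM1_single, OM1_ext, pa, pb]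
  rfl

private theorem OM1_sq {e : k} (h : e ^ 2 = 1) : e = 1 ∨ e = -1 := by
  have h1 : (e - 1) * (e + 1) = 0 := by linear_combination h
  rcases mul_eq_zero.1 h1 with h2 | h2
  · left
    exact sub_eq_zero.1 h2
  · right
    exact eq_neg_of_add_eq_zero_left h2

private theorem OM1_fv {n : ℕ} {a : Fin 3 → k} (hc : (recD n a).Good) {e : k} (h : e ^ 2 = 1) :
    fv (recD n a) (some e) = -e * ∏ i, a i := by
  obtain ⟨h1, h2, -, -⟩ := rec_fv hc
  rcases OM1_sq h with rfl | rfl
  · rw [h1]
    ring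
  · rw [h2]
    ring

private theorem OM1_facts [CharZero k] {n : ℕ} {a : Fin 3 → k} (hc : (recD n a).Good) {e : k} (h : e ^ 2 = 1) :
    e ≠ 0 ∧ (∀ i, e ≠ a i) ∧ (∀ i, e ≠ (a i)⁻¹) ∧ e ≠ -e ∧ (∏ i, (e - a i)) ≠ 0 ∧ (∏ i, (e - (a i)⁻¹)) ≠ 0 := by
  obtain ⟨h1, h2, h3⟩ := rec_facts hc
  have he : e ≠ 0 := by
    rintro rfl
    rw [zero_pow two_ne_zero] at h
    exact zero_ne_one h
  have ha : ∀ i, e ≠ a i := by
    intro i hi
    apply h3 i i
    rw [← hi, ← sq]
    exact h
  have hb : ∀ i, e ≠ (a i)⁻¹ := by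
    intro i hi
    apply h3 i i
    have h4 : (a i) ^ 2 * e ^ 2 = 1 := by
      rw [hi, inv_pow, mul_inv_cancel₀ (pow_ne_zero 2 (h1 i))]
    rw [h, mul_one, sq] at h4
    exact h4
  refine ⟨he, ha, hb, ?_, ?_, ?_⟩
  · intro h4
    have h5 : (2 : k) * e = 0 := by linear_combination h4
    rcases mul_eq_zero.1 h5 with h6 | h6
    · exact two_ne_zero h6
    · exact he h6
  · exact Finset.prod_ne_zero_iff.2 fun i _ => sub_ne_zero.2 (ha i)
  · exact Finset.prod_ne_zero_iff.2 fun i _ => sub_ne_zero.2 (hb i)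

/-- over `t = ± 1` -/
private theorem OM1_on [CharZero k] {n : ℕ} {a : Fin 3 → k} (hc : (recD n a).Good) {t : k} (h : t ^ 2 = 1) (y : k) :
    OnC (recD n a) (some t) (some y) ↔ y ^ n = -t * ∏ i, a i := by
  obtain ⟨-, -, -, -, h5, h6⟩ := OM1_facts hc h
  have h7 : (∏ i, (t - a i)) / ∏ i, (t - (a i)⁻¹) = -t * ∏ i, a i := OM1_fv hc h
  rw [← h7, eq_div_iff h6]
  exact Iff.rfl

theorem on_DA [IsAlgClosed k] [CharZero k] {n : ℕ} {a : Fin 3 → k} (hc : (recD n a).Good) {s e₁ e₂ : k}
    (h1 : e₁ ^ 2 = 1) (h2 : e₂ ^ 2 = 1) (hs1 : s ^ n = -e₁ * ∏ i, a i) (hs2 : (-s) ^ n = -e₂ * ∏ i, a i)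
    (Q : Fin 2 → Option k) (hQ : DA (recD n a) s e₁ e₂ Q ≠ 0) : OnC (recD n a) (Q 0) (Q 1) := by
  have hn2 : 2 ≤ n := hc.two
  by_contra hcon
  apply hQ
  rw [OM1_DA (by omega)]
  have c1 : ∀ t : k, t ^ 2 = 1 →
      ¬ (Q 0 = some t ∧ ∃ s, Q 1 = some s ∧ s ^ n = fv (recD n a) (some t)) := by
    rintro t ht ⟨h3, y, h4, h5⟩
    apply hcon
    rw [h3, h4, OM1_on hc ht, h5, OM1_fv hc ht]
  have c2 : ∀ i, ¬ (some (a i) = Q 0 ∧ some 0 = Q 1) := by
    rintro i ⟨h3, h4⟩
    apply hcon
    rw [← h3, ← h4]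
    change (0 : k) ^ n * ∏ j, (a i - (a j)⁻¹) = ∏ j, (a i - a j)
    rw [zero_pow (by omega), zero_mul]
    exact (Finset.prod_eq_zero (Finset.mem_univ i) (sub_self _)).symm
  have c3 : ∀ i, ¬ (some (a i)⁻¹ = Q 0 ∧ none = Q 1) := by
    rintro i ⟨h3, h4⟩
    apply hcon
    rw [← h3, ← h4]
    exact ⟨i, rfl⟩
  have c4 : ¬ (some e₁ = Q 0 ∧ some s = Q 1) := by
    rintro ⟨h3, h4⟩
    apply hcon
    rw [← h3, ← h4, OM1_on hc h1, hs1]
  have c5 : ¬ (some e₂ = Q 0 ∧ some (-s) = Q 1) := by
    rintro ⟨h3, h4⟩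
    apply hcon
    rw [← h3, ← h4, OM1_on hc h2, hs2]
  rw [if_neg (c1 1 (one_pow 2)), if_neg (c1 (-1) (by ring)), if_neg c4, if_neg c5,
    Finset.sum_eq_zero fun i _ => if_neg (c2 i), Finset.sum_eq_zero fun i _ => if_neg (c3 i)]
  ring

section

variable {N : Type} [Field N] [Algebra k N]

private theorem OM1_mult {φ : Fin 3 → N} {z : Fin 3} {w : Place k N} (hz : φ z ≠ 0) {s : N} (hs : s ≠ 0)
    (hreg : ∀ j, w.Reg (s * φ j)) (hu : ∃ j, φ j ≠ 0 ∧ w.ord (s * φ j) = 0) :
    mult φ z w = w.ord (s * φ z) := by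
  have h1 : IsLeast {m | ∃ j, φ j ≠ 0 ∧ m = w.ord (φ j)} (- w.ord s) := by
    constructor
    · obtain ⟨j, hj, hj'⟩ := hu
      refine ⟨j, hj, ?_⟩
      rw [w.ord_mul _ _ hs hj] at hj'
      omega
    · rintro m ⟨j, hj, rfl⟩
      have h2 := (hreg j).resolve_left (mul_ne_zero hs hj)
      rw [w.ord_mul _ _ hs hj] at h2
      omega
  unfold mult
  rw [h1.csInf_eq, w.ord_mul _ _ hs hz]
  ring

/-- the minimum is that of the first coordinate -/
private theorem OM1_m0 {w : Place k N} {f g : N} (hf : f ≠ 0) (h : w.Reg (f⁻¹ * g)) (α β : k) :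
    mult ![f, g, algebraMap k N α * f * algebraMap k N β + g] 0 w = 0 := by
  have e1 : f⁻¹ * f = 1 := inv_mul_cancel₀ hf
  rw [OM1_mult (s := f⁻¹) (by exact hf) (inv_ne_zero hf) ?_ ⟨0, hf, ?_⟩]
  · change w.ord (f⁻¹ * f) = 0
    rw [e1, w.ord_one]
  · intro j
    fin_cases j
    · change w.Reg (f⁻¹ * f)
      rw [e1]
      exact Or.inr (by rw [w.ord_one])
    · exact h
    · change w.Reg (f⁻¹ * (algebraMap k N α * f * algebraMap k N β + g))
      have e2 : f⁻¹ * (algebraMap k N α * f * algebraMap k N β + g) =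
          algebraMap k N α * algebraMap k N β + f⁻¹ * g := by
        linear_combination (algebraMap k N α * algebraMap k N β) * e1
      rw [e2]
      exact ((w.reg_const α).mul (w.reg_const β)).add h
  · change w.ord (f⁻¹ * f) = 0
    rw [e1, w.ord_one]

/-- the minimum is that of the second coordinate -/
private theorem OM1_m1 {w : Place k N} {f g : N} (hf : f ≠ 0) (hg : g ≠ 0) (h : w.ord g ≤ w.ord f) (α β : k) :
    mult ![f, g, algebraMap k N α * f * algebraMap k N β + g] 0 w = w.ord f - w.ord g := by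
  have e1 : g⁻¹ * g = 1 := inv_mul_cancel₀ hg
  have e0 : w.ord (g⁻¹ * f) = w.ord f - w.ord g := by
    rw [w.ord_mul _ _ (inv_ne_zero hg) hf, w.ord_inv]
    ring
  have hr : w.Reg (g⁻¹ * f) := Or.inr (by rw [e0]; omega)
  rw [OM1_mult (s := g⁻¹) (by exact hf) (inv_ne_zero hg) ?_ ⟨1, hg, ?_⟩]
  · exact e0
  · intro j
    fin_cases j
    · exact hr
    · change w.Reg (g⁻¹ * g)
      rw [e1]
      exact Or.inr (by rw [w.ord_one])
    · change w.Reg (g⁻¹ * (algebraMap k N α * f * algebraMap k N β + g))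
      have e2 : g⁻¹ * (algebraMap k N α * f * algebraMap k N β + g) =
          algebraMap k N α * (g⁻¹ * f) * algebraMap k N β + 1 := by
        linear_combination e1
      rw [e2]
      exact (((w.reg_const α).mul hr).mul (w.reg_const β)).add (Or.inr (by rw [w.ord_one]))
  · change w.ord (g⁻¹ * g) = 0
    rw [e1, w.ord_one]

/-- `v - m / v` for a value `v₀ ≠ 0` -/
private theorem OM1_v {w : Place k N} {v : N} {v₀ m : k} (hv : w.Zer (v - algebraMap k N v₀)) (h0 : v₀ ≠ 0) :
    w.Zer (v - algebraMap k N m / v - algebraMap k N (v₀ - m / v₀)) :=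
  Place.val_sub hv (Place.val_div (Place.val_const m) hv h0)

/-- `x - 1 / x` for a value `x₀ ≠ 0` -/
private theorem OM1_x {w : Place k N} {x : N} {x₀ : k} (hx : w.Zer (x - algebraMap k N x₀)) (h0 : x₀ ≠ 0) :
    w.Zer (x - 1 / x - algebraMap k N (x₀ - 1 / x₀)) := by
  have h1 := Place.val_sub hx (Place.val_div (Place.val_const (1 : k)) hx h0)
  rwa [map_one] at h1

end

theorem mult_A [IsAlgClosed k] [CharZero k] {n : ℕ} {a : Fin 3 → k} (hc : (recD n a).Good) {s e₁ e₂ : k}
    (h1 : e₁ ^ 2 = 1) (h2 : e₂ ^ 2 = 1) (hs1 : s ^ n = -e₁ * ∏ i, a i) (hs2 : (-s) ^ n = -e₂ * ∏ i, a i)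
    {N : Type} [Field N] [Algebra k N] {x v : N} (h : GenC (recD n a) x v) (α : k) (w : Place k N)
    (Q : Fin 2 → Option k) (hQ : OnC (recD n a) (Q 0) (Q 1))
    (hx : SpO w (some x) ((Q 0).map (algebraMap k (RF w)))) (hv : SpO w (some v) ((Q 1).map (algebraMap k (RF w)))) :
    mult ![x - 1 / x, v - algebraMap k N (s ^ 2) / v,
      algebraMap k N α * (x - 1 / x) * algebraMap k N (s ^ 2) + (v - algebraMap k N (s ^ 2) / v)] 0 w =
      DA (recD n a) s e₁ e₂ Q := by
  have hn2 : 2 ≤ n := hc.two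
  have hn : 0 < n := by omega
  obtain ⟨ζ, hζ⟩ := OM1_root (k := k) hn2
  obtain ⟨w₀, -, -, pl1, pl2, pl3, pl4, pl5⟩ := placeC hc (ζ := ζ) hζ h Q hQ
  have hw := pl5 w hx hv
  subst hw
  obtain ⟨ra, raa, rab⟩ := rec_facts hc
  have hpa : (∏ i, a i) ≠ 0 := Finset.prod_ne_zero_iff.2 fun i _ => ra i
  obtain ⟨e10, e1a, e1b, e1n, -, -⟩ := OM1_facts hc h1
  obtain ⟨e20, e2a, e2b, e2n, -, -⟩ := OM1_facts hc h2
  obtain ⟨-, o1a, o1b, o1n, -, -⟩ := OM1_facts hc (one_pow 2 : (1 : k) ^ 2 = 1)
  obtain ⟨-, m1a, m1b, -, -, -⟩ := OM1_facts hc (by ring : (-1 : k) ^ 2 = 1)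
  have hs0 : s ≠ 0 := by
    rintro rfl
    rw [zero_pow (by omega)] at hs1
    exact mul_ne_zero (neg_ne_zero.2 e10) hpa hs1.symm
  have hs20 : s ^ 2 ≠ 0 := pow_ne_zero 2 hs0
  have hssn : s ≠ -s := by
    intro h3
    have h5 : (2 : k) * s = 0 := by linear_combination h3
    rcases mul_eq_zero.1 h5 with h6 | h6
    · exact two_ne_zero h6
    · exact hs0 h6
  have hxt := h.tr
  have hx0 : x ≠ 0 := by
    rintro rfl
    exact hxt isAlgebraic_zero
  have hxe : ∀ e : k, x - algebraMap k N e ≠ 0 := by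
    intro e h3
    exact hxt (by rw [sub_eq_zero.1 h3]; exact isAlgebraic_algebraMap e)
  have hv0 : v ≠ 0 := by
    obtain ⟨v', hv1, hv2, -⟩ := v_fin hc hxt h.on
    rw [Option.some_inj] at hv1
    rwa [hv1]
  have hfac : x - 1 / x = (x - algebraMap k N 1) * (x - algebraMap k N (-1)) * x⁻¹ := by
    rw [map_neg, map_one]
    field_simp
    ring
  have hf0 : x - 1 / x ≠ 0 := by
    rw [hfac]
    exact mul_ne_zero (mul_ne_zero (hxe 1) (hxe (-1))) (inv_ne_zero hx0)
  have hsqN : algebraMap k N (s ^ 2) ≠ 0 := (_root_.map_ne_zero _).2 hs20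
  have hdN : algebraMap k N (s ^ 2) / v ≠ 0 := div_ne_zero hsqN hv0
  have hod : w.ord (algebraMap k N (s ^ 2) / v) = -w.ord v := by
    rw [w.ord_div _ _ hsqN hv0, w.ord_const _ hs20, zero_sub]
  have hoi : w.ord (1 / x) = -w.ord x := by rw [one_div, w.ord_inv]
  rw [OM1_DA hn]
  generalize hP : Q 0 = P at hQ hx pl1 pl2 pl3 pl4 ⊢
  generalize hR : Q 1 = R at hQ hv pl1 ⊢
  rcases P with _ | x₀
  · -- infinity
    rcases R with _ | v₀
    · exact hQ.elim
    have hxo : w.ord x < 0 := hx
    have hvn : v₀ ^ n = 1 := hQ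
    have hv00 : v₀ ≠ 0 := by
      rintro rfl
      rw [zero_pow (by omega)] at hvn
      exact zero_ne_one hvn
    have hvZ : w.Zer (v - algebraMap k N v₀) := LibCHd.red_iff_val.1 hv
    have hgR : w.Reg (v - algebraMap k N (s ^ 2) / v) := Place.reg_of_val (OM1_v hvZ hv00)
    have hinv0 : -(1 / x) ≠ 0 := neg_ne_zero.2 (one_div_ne_zero hx0)
    have hfo : w.ord (x - 1 / x) = w.ord x := by
      rw [sub_eq_add_neg]
      exact (Place.ord_add_of_lt hx0 hinv0 (by rw [w.ord_neg, hoi]; omega)).2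
    rw [OM1_m0 hf0 ?_]
    · simp
    · refine Place.Reg.mul (Or.inr ?_) hgR
      rw [w.ord_inv, hfo]
      omega
  · have hxZ : w.Zer (x - algebraMap k N x₀) := LibCHd.red_iff_val.1 hx
    rcases R with _ | v₀
    · -- poles of `v`
      obtain ⟨i, hi⟩ := hQ
      have hi' : x₀ = (a i)⁻¹ := hi
      obtain ⟨-, hvo⟩ := pl4 i (by rw [hi])
      have hx00 : x₀ ≠ 0 := by rw [hi']; exact inv_ne_zero (ra i)
      have hval : x₀ - 1 / x₀ ≠ 0 := by
        intro h3
        have h4 : x₀ ^ 2 = 1 := by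
          field_simp at h3
          linear_combination h3
        obtain ⟨-, -, h5, -, -, -⟩ := OM1_facts hc h4
        exact h5 i hi'
      have hfo : w.ord (x - 1 / x) = 0 := Place.ord_eq_zero_of_val (OM1_x hxZ hx00) hval
      have hgo := Place.ord_add_of_lt hv0 (neg_ne_zero.2 hdN) (by rw [w.ord_neg, hod, hvo]; norm_num)
      rw [← sub_eq_add_neg] at hgo
      rw [OM1_m1 hf0 hgo.1 (by rw [hgo.2, hfo, hvo]; norm_num), hfo, hgo.2, hvo]
      have c1 : ¬ ((some x₀ : Option k) = some 1 ∧ ∃ s, (none : Option k) = some s ∧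
          s ^ n = fv (recD n a) (some 1)) := by
        rintro ⟨-, y, h3, -⟩
        cases h3
      have c2 : ¬ ((some x₀ : Option k) = some (-1) ∧ ∃ s, (none : Option k) = some s ∧
          s ^ n = fv (recD n a) (some (-1))) := by
        rintro ⟨-, y, h3, -⟩
        cases h3
      have c3 : ∀ j, ¬ (some (a j) = (some x₀ : Option k) ∧ (some 0 : Option k) = none) := by
        rintro j ⟨-, h3⟩
        cases h3
      have c4 : ∀ j, (if some (a j)⁻¹ = (some x₀ : Option k) ∧ (none : Option k) = none then (1 : ℤ) else 0) =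
          if j = i then 1 else 0 := by
        intro j
        by_cases hj : j = i
        · rw [if_pos hj, if_pos]
          rw [hj, hi']
          exact ⟨rfl, rfl⟩
        · rw [if_neg hj, if_neg]
          rintro ⟨h3, -⟩
          rw [Option.some_inj, hi'] at h3
          exact raa j i hj (inv_injective h3)
      have c5 : ¬ ((some e₁ : Option k) = some x₀ ∧ (some s : Option k) = none) := by
        rintro ⟨-, h3⟩
        cases h3
      have c6 : ¬ ((some e₂ : Option k) = some x₀ ∧ (some (-s) : Option k) = none) := by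
        rintro ⟨-, h3⟩
        cases h3
      rw [if_neg c1, if_neg c2, if_neg c5, if_neg c6, Finset.sum_eq_zero fun j _ => if_neg (c3 j),
        Finset.sum_congr rfl fun j _ => c4 j, Finset.sum_ite_eq' Finset.univ i, if_pos (Finset.mem_univ i)]
      norm_num
    have hvZ : w.Zer (v - algebraMap k N v₀) := LibCHd.red_iff_val.1 hv
    have hon : v₀ ^ n * ∏ i, (x₀ - (a i)⁻¹) = ∏ i, (x₀ - a i) := hQ
    have c4 : ∀ j, ¬ (some (a j)⁻¹ = (some x₀ : Option k) ∧ (none : Option k) = some v₀) := by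
      rintro j ⟨-, h3⟩
      cases h3
    rw [Finset.sum_eq_zero fun j _ => if_neg (c4 j)]
    by_cases hv00 : v₀ = 0
    · -- zeros of `v`
      subst hv00
      rw [zero_pow (by omega), zero_mul] at hon
      obtain ⟨i, -, hi⟩ := Finset.prod_eq_zero_iff.1 hon.symm
      have hi' : x₀ = a i := sub_eq_zero.1 hi
      obtain ⟨-, hvo⟩ := pl3 i (by rw [hi']; rfl)
      have hx00 : x₀ ≠ 0 := by rw [hi']; exact ra i
      have hval : x₀ - 1 / x₀ ≠ 0 := by
        intro h3
        have h4 : x₀ ^ 2 = 1 := by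
          field_simp at h3
          linear_combination h3
        obtain ⟨-, h5, -, -, -, -⟩ := OM1_facts hc h4
        exact h5 i hi'
      have hfo : w.ord (x - 1 / x) = 0 := Place.ord_eq_zero_of_val (OM1_x hxZ hx00) hval
      have hgo := Place.ord_add_of_lt (neg_ne_zero.2 hdN) hv0 (by rw [w.ord_neg, hod, hvo]; norm_num)
      rw [neg_add_eq_sub] at hgo
      have hgo2 : w.ord (v - algebraMap k N (s ^ 2) / v) = -1 := by
        rw [hgo.2, w.ord_neg, hod, hvo]
      rw [OM1_m1 hf0 hgo.1 (by rw [hgo2, hfo]; norm_num), hfo, hgo2]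
      have hnt : ∀ t : k, t ^ 2 = 1 → x₀ ≠ t := by
        rintro t ht rfl
        obtain ⟨-, h5, -, -, -, -⟩ := OM1_facts hc ht
        exact h5 i hi'
      have c1 : ¬ ((some x₀ : Option k) = some 1 ∧ ∃ s, (some 0 : Option k) = some s ∧
          s ^ n = fv (recD n a) (some 1)) := by
        rintro ⟨h3, -⟩
        exact hnt 1 (one_pow 2) (Option.some.inj h3)
      have c2 : ¬ ((some x₀ : Option k) = some (-1) ∧ ∃ s, (some 0 : Option k) = some s ∧
          s ^ n = fv (recD n a) (some (-1))) := by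
        rintro ⟨h3, -⟩
        exact hnt (-1) (by ring) (Option.some.inj h3)
      have c3 : ∀ j, (if some (a j) = (some x₀ : Option k) ∧ (some 0 : Option k) = some 0 then (1 : ℤ) else 0) =
          if j = i then 1 else 0 := by
        intro j
        by_cases hj : j = i
        · rw [if_pos hj, if_pos]
          rw [hj, hi']
          exact ⟨rfl, rfl⟩
        · rw [if_neg hj, if_neg]
          rintro ⟨h3, -⟩
          rw [Option.some_inj, hi'] at h3
          exact raa j i hj h3
      have c5 : ¬ ((some e₁ : Option k) = some x₀ ∧ (some s : Option k) = some 0) := by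
        rintro ⟨-, h3⟩
        exact hs0 (Option.some.inj h3)
      have c6 : ¬ ((some e₂ : Option k) = some x₀ ∧ (some (-s) : Option k) = some 0) := by
        rintro ⟨-, h3⟩
        exact neg_ne_zero.2 hs0 (Option.some.inj h3)
      rw [if_neg c1, if_neg c2, if_neg c5, if_neg c6, Finset.sum_congr rfl fun j _ => c3 j,
        Finset.sum_ite_eq' Finset.univ i, if_pos (Finset.mem_univ i)]
      norm_num
    -- unramified points
    have c3 : ∀ j, ¬ (some (a j) = (some x₀ : Option k) ∧ (some 0 : Option k) = some v₀) := by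
      rintro j ⟨-, h3⟩
      exact hv00 (Option.some.inj h3).symm
    rw [Finset.sum_eq_zero fun j _ => if_neg (c3 j)]
    have hgZ := OM1_v (m := s ^ 2) hvZ hv00
    have hgR : w.Reg (v - algebraMap k N (s ^ 2) / v) := Place.reg_of_val hgZ
    by_cases hx00 : x₀ = 0
    · -- `x = 0`
      subst hx00
      have hxo : 0 < w.ord x := by
        rw [map_zero, sub_zero] at hxZ
        exact hxZ.resolve_left hx0
      have hinv0 : -(1 / x) ≠ 0 := neg_ne_zero.2 (one_div_ne_zero hx0)
      have hfo : w.ord (x - 1 / x) = -w.ord x := by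
        have h3 := Place.ord_add_of_lt hinv0 hx0 (by rw [w.ord_neg, hoi]; omega)
        rw [neg_add_eq_sub] at h3
        rw [h3.2, w.ord_neg, hoi]
      rw [OM1_m0 hf0 ?_]
      · have c1 : ¬ ((some 0 : Option k) = some 1 ∧ ∃ s, (some v₀ : Option k) = some s ∧
            s ^ n = fv (recD n a) (some 1)) := by
          rintro ⟨h3, -⟩
          exact zero_ne_one (Option.some.inj h3)
        have c2 : ¬ ((some 0 : Option k) = some (-1) ∧ ∃ s, (some v₀ : Option k) = some s ∧
            s ^ n = fv (recD n a) (some (-1))) := by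
          rintro ⟨h3, -⟩
          exact neg_ne_zero.2 (one_ne_zero (α := k)) (Option.some.inj h3).symm
        have c5 : ¬ ((some e₁ : Option k) = some 0 ∧ (some s : Option k) = some v₀) := by
          rintro ⟨h3, -⟩
          exact e10 (Option.some.inj h3)
        have c6 : ¬ ((some e₂ : Option k) = some 0 ∧ (some (-s) : Option k) = some v₀) := by
          rintro ⟨h3, -⟩
          exact e20 (Option.some.inj h3)
        rw [if_neg c1, if_neg c2, if_neg c5, if_neg c6]
        norm_num
      · refine Place.Reg.mul (Or.inr ?_) hgR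
        rw [w.ord_inv, hfo]
        omega
    have hfZ := OM1_x hxZ hx00
    by_cases ht : x₀ ^ 2 = 1
    · -- `x = ± 1`
      obtain ⟨-, -, -, htn, -, -⟩ := OM1_facts hc ht
      have hvn : v₀ ^ n = -x₀ * ∏ i, a i := (OM1_on hc ht v₀).1 hQ
      have hox := pl1 x₀ v₀ rfl rfl hv00
      have hon' : w.ord (x - algebraMap k N (-x₀)) = 0 := by
        refine Place.ord_eq_zero_of_val (c := x₀ - (-x₀)) (Place.val_sub hxZ (Place.val_const _)) ?_
        exact sub_ne_zero.2 htn
      have hoxx : w.ord x = 0 := Place.ord_eq_zero_of_val hxZ hx00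
      have hfo : w.ord (x - 1 / x) = 1 := by
        have hfac' : x - 1 / x = (x - algebraMap k N x₀) * (x - algebraMap k N (-x₀)) * x⁻¹ := by
          have h3 : (algebraMap k N x₀) ^ 2 = 1 := by rw [← map_pow, ht, map_one]
          rw [map_neg]
          field_simp
          linear_combination h3
        rw [hfac', w.ord_mul _ _ (mul_ne_zero (hxe _) (hxe _)) (inv_ne_zero hx0), w.ord_mul _ _ (hxe _) (hxe _),
          w.ord_inv, hox, hon', hoxx]
        norm_num
      -- the two fibres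
      have hFF : (if (some x₀ : Option k) = some 1 ∧ ∃ s, (some v₀ : Option k) = some s ∧
          s ^ n = fv (recD n a) (some 1) then (1 : ℤ) else 0) +
          (if (some x₀ : Option k) = some (-1) ∧ ∃ s, (some v₀ : Option k) = some s ∧
          s ^ n = fv (recD n a) (some (-1)) then (1 : ℤ) else 0) = 1 := by
        rcases OM1_sq ht with h3 | h3
        · rw [if_pos, if_neg]
          · norm_num
          · rintro ⟨h4, -⟩
            rw [Option.some_inj, h3] at h4
            exact o1n h4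
          · refine ⟨by rw [h3], v₀, rfl, ?_⟩
            rw [hvn, OM1_fv hc (one_pow 2), h3]
        · rw [if_neg, if_pos]
          · norm_num
          · refine ⟨by rw [h3], v₀, rfl, ?_⟩
            rw [hvn, OM1_fv hc (by ring), h3]
          · rintro ⟨h4, -⟩
            rw [Option.some_inj, h3] at h4
            exact o1n h4.symm
      rw [hFF]
      by_cases hvs : v₀ = s
      · have h3 : x₀ = e₁ := by
          rw [hvs, hs1] at hvn
          have h4 := mul_right_cancel₀ hpa hvn
          exact (neg_injective h4).symm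
        have hgZ' : w.Zer (v - algebraMap k N (s ^ 2) / v) := by
          have h4 : v₀ - s ^ 2 / v₀ = 0 := by
            rw [hvs]
            field_simp
            ring
          rw [h4, map_zero, sub_zero] at hgZ
          exact hgZ
        rw [OM1_m0 hf0 ?_, if_pos ⟨by rw [h3], by rw [hvs]⟩, if_neg]
        · norm_num
        · rintro ⟨-, h4⟩
          rw [Option.some_inj, hvs] at h4
          exact hssn h4.symm
        · by_cases hg0 : v - algebraMap k N (s ^ 2) / v = 0
          · rw [hg0, mul_zero]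
            exact Or.inl rfl
          · refine Or.inr ?_
            have h4 := hgZ'.resolve_left hg0
            rw [w.ord_mul _ _ (inv_ne_zero hf0) hg0, w.ord_inv, hfo]
            omega
      by_cases hvs' : v₀ = -s
      · have h3 : x₀ = e₂ := by
          rw [hvs', hs2] at hvn
          have h4 := mul_right_cancel₀ hpa hvn
          exact (neg_injective h4).symm
        have hgZ' : w.Zer (v - algebraMap k N (s ^ 2) / v) := by
          have h4 : v₀ - s ^ 2 / v₀ = 0 := by
            rw [hvs']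
            field_simp
            ring
          rw [h4, map_zero, sub_zero] at hgZ
          exact hgZ
        rw [OM1_m0 hf0 ?_, if_neg, if_pos ⟨by rw [h3], by rw [hvs']⟩]
        · norm_num
        · rintro ⟨-, h4⟩
          rw [Option.some_inj, hvs'] at h4
          exact hssn h4
        · by_cases hg0 : v - algebraMap k N (s ^ 2) / v = 0
          · rw [hg0, mul_zero]
            exact Or.inl rfl
          · refine Or.inr ?_
            have h4 := hgZ'.resolve_left hg0
            rw [w.ord_mul _ _ (inv_ne_zero hf0) hg0, w.ord_inv, hfo]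
            omega
      have hgv : v₀ - s ^ 2 / v₀ ≠ 0 := by
        intro h4
        have h5 : (v₀ - s) * (v₀ + s) = 0 := by
          field_simp at h4
          linear_combination h4
        rcases mul_eq_zero.1 h5 with h6 | h6
        · exact hvs (sub_eq_zero.1 h6)
        · exact hvs' (eq_neg_of_add_eq_zero_left h6)
      have hgo : w.ord (v - algebraMap k N (s ^ 2) / v) = 0 := Place.ord_eq_zero_of_val hgZ hgv
      rw [OM1_m1 hf0 (Place.ne_zero_of_val hgZ hgv) (by rw [hgo, hfo]; norm_num), hfo, hgo, if_neg, if_neg]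
      · norm_num
      · rintro ⟨-, h4⟩
        exact hvs' (Option.some.inj h4).symm
      · rintro ⟨-, h4⟩
        exact hvs (Option.some.inj h4).symm
    · have hval : x₀ - 1 / x₀ ≠ 0 := by
        intro h3
        apply ht
        field_simp at h3
        linear_combination h3
      have hfo : w.ord (x - 1 / x) = 0 := Place.ord_eq_zero_of_val hfZ hval
      have hnt : ∀ t : k, t ^ 2 = 1 → x₀ ≠ t := by
        rintro t ht' rfl
        exact ht ht'
      rw [OM1_m0 hf0 ?_]
      · have c1 : ¬ ((some x₀ : Option k) = some 1 ∧ ∃ s, (some v₀ : Option k) = some s ∧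
            s ^ n = fv (recD n a) (some 1)) := by
          rintro ⟨h3, -⟩
          exact hnt 1 (one_pow 2) (Option.some.inj h3)
        have c2 : ¬ ((some x₀ : Option k) = some (-1) ∧ ∃ s, (some v₀ : Option k) = some s ∧
            s ^ n = fv (recD n a) (some (-1))) := by
          rintro ⟨h3, -⟩
          exact hnt (-1) (by ring) (Option.some.inj h3)
        have c5 : ¬ ((some e₁ : Option k) = some x₀ ∧ (some s : Option k) = some v₀) := by
          rintro ⟨h3, -⟩
          exact hnt e₁ h1 (Option.some.inj h3).symm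
        have c6 : ¬ ((some e₂ : Option k) = some x₀ ∧ (some (-s) : Option k) = some v₀) := by
          rintro ⟨h3, -⟩
          exact hnt e₂ h2 (Option.some.inj h3).symm
        rw [if_neg c1, if_neg c2, if_neg c5, if_neg c6]
        norm_num
      · refine Place.Reg.mul (Or.inr ?_) hgR
        rw [w.ord_inv, hfo, neg_zero]

end Pool.Agent.LibCW77
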