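import Pool.Agent.LibCW77.OA1
import Pool.Agent.LibCW77.C1

/-!
[CW77 OM2] multiplicities on P -> (theta P, e) (typed by helper32)
-/

open scoped Classical
open Polynomial

namespace Pool.Agent.LibCW77

open Pool.Agent.LibBH2
open Pool.Agent.LibCHd (VR RF Red FunF)
open Pool.Agent.LibHL77 (Lf tt EHom NC HE BE mult hypf)

variable {k : Type} [Field k]

private theorem OM2_mult {N : Type} [Field N] [Algebra k N] (φ : Fin 3 → N) (hφ : ∀ i, φ i ≠ 0)
    (w : Place k N) :
    mult φ 0 w = w.ord (φ 0) - min (w.ord (φ 0)) (min (w.ord (φ 1)) (w.ord (φ 2))) := by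
  have h1 : IsLeast {m | ∃ j, φ j ≠ 0 ∧ m = w.ord (φ j)}
      (min (w.ord (φ 0)) (min (w.ord (φ 1)) (w.ord (φ 2)))) := by
    constructor
    · rcases min_choice (w.ord (φ 0)) (min (w.ord (φ 1)) (w.ord (φ 2))) with h | h
      · exact ⟨0, hφ 0, h⟩
      · rcases min_choice (w.ord (φ 1)) (w.ord (φ 2)) with h' | h'
        · exact ⟨1, hφ 1, h.trans h'⟩
        · exact ⟨2, hφ 2, h.trans h'⟩
    · rintro m ⟨j, -, rfl⟩
      fin_cases j
      · exact min_le_left _ _
      · exact (min_le_right _ _).trans (min_le_left _ _)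
      · exact (min_le_right _ _).trans (min_le_right _ _)
  unfold mult
  rw [h1.csInf_eq]

private theorem OM2_sub_ne {N : Type} [Field N] [Algebra k N] {x : N} (hx : Transcendental k x) (a : k) :
    x - algebraMap k N a ≠ 0 := by
  intro h
  exact hx (by rw [sub_eq_zero.1 h]; exact isAlgebraic_algebraMap a)

private theorem OM2_pa_inj {n : ℕ} {a : Fin 3 → k} (hc : (recD n a).Good) {i j : Fin 3}
    (h : pa (recD n a) i = pa (recD n a) j) : i = j := by
  by_contra hij
  have h1 := congrFun h 0
  exact (rec_facts hc).2.1 i j hij (Option.some.inj h1)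

private theorem OM2_DB {n : ℕ} (a : Fin 3 → k) (Q : Fin 2 → Option k) :
    DB (recD n a) Q = ((n : ℤ) - 1) * (if pb (recD n a) 0 = Q then 1 else 0) +
      ∑ i, (if pa (recD n a) i = Q then (1 : ℤ) else 0) := by
  unfold DB
  rw [Finsupp.add_apply, Finsupp.smul_apply, Finsupp.finsetSum_apply, Finsupp.single_apply]
  simp only [Finsupp.single_apply, smul_eq_mul]
  rfl

theorem on_DB {n : ℕ} {a : Fin 3 → k} (hc : (recD n a).Good) (Q : Fin 2 → Option k) (hQ : DB (recD n a) Q ≠ 0) :
    OnC (recD n a) (Q 0) (Q 1) := by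
  rw [OM2_DB] at hQ
  by_cases h1 : pb (recD n a) 0 = Q
  · rw [← h1]
    exact ⟨0, rfl⟩
  · rw [if_neg h1, mul_zero, zero_add] at hQ
    obtain ⟨i, -, hi⟩ := Finset.exists_ne_zero_of_sum_ne_zero hQ
    have h2 : pa (recD n a) i = Q := by
      by_contra h3
      exact hi (if_neg h3)
    rw [← h2]
    show (0 : k) ^ n * ∏ j, (a i - (a j)⁻¹) = ∏ j, (a i - a j)
    have hn : n ≠ 0 := by
      have h3 : 2 ≤ n := hc.two
      omega
    rw [zero_pow hn, zero_mul]
    exact (Finset.prod_eq_zero (Finset.mem_univ i) (sub_self _)).symm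

theorem mult_B [IsAlgClosed k] [CharZero k] {n : ℕ} {a : Fin 3 → k} (hc : (recD n a).Good) {μ : k} (hμ : μ ≠ 0)
    {N : Type} [Field N] [Algebra k N] {x v : N} (h : GenC (recD n a) x v) (w : Place k N)
    (Q : Fin 2 → Option k) (hQ : OnC (recD n a) (Q 0) (Q 1))
    (hx : SpO w (some x) ((Q 0).map (algebraMap k (RF w)))) (hv : SpO w (some v) ((Q 1).map (algebraMap k (RF w)))) :
    mult ![algebraMap k N (a 0) - 1 / x, -(algebraMap k N μ / v), -(algebraMap k N μ / v) * (1 / x) * algebraMap k N (a 0)]
      0 w = DB (recD n a) Q := by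
  obtain ⟨ha0, hane, haa⟩ := rec_facts hc
  have hn2 : 2 ≤ n := hc.two
  have hx0 : x ≠ 0 := by
    have := OM2_sub_ne h.tr 0
    rwa [map_zero, sub_zero] at this
  have hv0 : v ≠ 0 := (genC_funF hc h).2
  have hA0 : algebraMap k N (a 0) ≠ 0 := (_root_.map_ne_zero _).2 (ha0 0)
  have hM0 : algebraMap k N μ ≠ 0 := (_root_.map_ne_zero _).2 hμ
  have hB0 : x - algebraMap k N (a 0)⁻¹ ≠ 0 := OM2_sub_ne h.tr _
  have e0 : algebraMap k N (a 0) - 1 / x =
      algebraMap k N (a 0) * (x - algebraMap k N (a 0)⁻¹) / x := by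
    rw [map_inv₀]
    field_simp
  have n0 : algebraMap k N (a 0) - 1 / x ≠ 0 := by
    rw [e0]
    exact div_ne_zero (mul_ne_zero hA0 hB0) hx0
  have n1 : -(algebraMap k N μ / v) ≠ 0 := neg_ne_zero.2 (div_ne_zero hM0 hv0)
  have n2 : -(algebraMap k N μ / v) * (1 / x) * algebraMap k N (a 0) ≠ 0 :=
    mul_ne_zero (mul_ne_zero n1 (one_div_ne_zero hx0)) hA0
  have oA : w.ord (algebraMap k N (a 0)) = 0 := w.ord_const _ (ha0 0)
  have oM : w.ord (algebraMap k N μ) = 0 := w.ord_const _ hμ
  have o0 : w.ord (algebraMap k N (a 0) - 1 / x) =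
      w.ord (x - algebraMap k N (a 0)⁻¹) - w.ord x := by
    rw [e0, w.ord_div _ _ (mul_ne_zero hA0 hB0) hx0, w.ord_mul _ _ hA0 hB0, oA, zero_add]
  have o1 : w.ord (-(algebraMap k N μ / v)) = - w.ord v := by
    rw [w.ord_neg, w.ord_div _ _ hM0 hv0, oM, zero_sub]
  have o2 : w.ord (-(algebraMap k N μ / v) * (1 / x) * algebraMap k N (a 0)) =
      - w.ord v - w.ord x := by
    rw [w.ord_mul _ _ (mul_ne_zero n1 (one_div_ne_zero hx0)) hA0,
      w.ord_mul _ _ n1 (one_div_ne_zero hx0), o1, oA, one_div, w.ord_inv]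
    ring
  have hm := OM2_mult (k := k) ![algebraMap k N (a 0) - 1 / x, -(algebraMap k N μ / v),
    -(algebraMap k N μ / v) * (1 / x) * algebraMap k N (a 0)] (by
      intro i
      fin_cases i
      · exact n0
      · exact n1
      · exact n2) w
  have hm' : mult ![algebraMap k N (a 0) - 1 / x, -(algebraMap k N μ / v),
      -(algebraMap k N μ / v) * (1 / x) * algebraMap k N (a 0)] 0 w =
      (w.ord (x - algebraMap k N (a 0)⁻¹) - w.ord x) -
        min (w.ord (x - algebraMap k N (a 0)⁻¹) - w.ord x) (min (- w.ord v) (- w.ord v - w.ord x)) := by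
    rw [hm]
    show w.ord (algebraMap k N (a 0) - 1 / x) - min (w.ord (algebraMap k N (a 0) - 1 / x))
      (min (w.ord (-(algebraMap k N μ / v)))
        (w.ord (-(algebraMap k N μ / v) * (1 / x) * algebraMap k N (a 0)))) = _
    rw [o0, o1, o2]
  rw [hm', OM2_DB]
  clear hm hm' o0 o1 o2 e0 n0 n1 n2
  -- the place
  obtain ⟨ζ, hζ⟩ : ∃ ζ : k, IsPrimitiveRoot ζ (recD n a).n := by
    have : NeZero ((recD n a).n : k) := ⟨by
      have h2 := hc.two
      exact_mod_cast (by omega : (recD n a).n ≠ 0)⟩
    exact HasEnoughRootsOfUnity.exists_primitiveRoot k (recD n a).n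
  obtain ⟨w', -, -, p1, p2, p3, p4, p5⟩ := placeC hc hζ h Q hQ
  have hw : w = w' := p5 w hx hv
  subst hw
  clear p5
  -- shift of the values
  have sh : ∀ {y : N} {p q : k}, 0 < w.ord (y - algebraMap k N p) → p ≠ q →
      w.ord (y - algebraMap k N q) = 0 := by
    intro y p q hp hpq
    apply Place.ord_eq_zero_of_val (c := p - q) _ (sub_ne_zero.2 hpq)
    rw [map_sub, sub_sub_sub_cancel_right]
    exact Or.inr hp
  have sh0 : ∀ {y : N} {p : k}, 0 < w.ord (y - algebraMap k N p) → p ≠ 0 → w.ord y = 0 := by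
    intro y p hp hpq
    have := sh hp hpq
    rwa [map_zero, sub_zero] at this
  have hnpos : (0 : ℤ) < n := by exact_mod_cast (by omega : 0 < n)
  rcases hP : Q 0 with _ | x₀
  · -- infinity
    rcases hR : Q 1 with _ | v₀
    · rw [hP, hR] at hQ
      exact hQ.elim
    · have hX : w.ord x = -1 := p2 hP
      have hv₀ : v₀ ^ n = 1 := by
        rw [hP, hR] at hQ
        exact hQ
      have hv₀' : v₀ ≠ 0 := by
        rintro rfl
        rw [zero_pow (by omega)] at hv₀
        exact zero_ne_one hv₀
      have hV : w.ord v = 0 := by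
        rw [hR] at hv
        have hv' : Red w v (algebraMap k (RF w) v₀) := hv
        exact hv'.ord_eq_zero ((_root_.map_ne_zero _).2 hv₀')
      have hB : w.ord (x - algebraMap k N (a 0)⁻¹) = -1 := by
        have hne : -(algebraMap k N (a 0)⁻¹) ≠ 0 := by
          rw [neg_ne_zero, _root_.map_ne_zero]
          exact inv_ne_zero (ha0 0)
        have h2 := w.ord_add_of_lt hx0 hne (by
          rw [w.ord_neg, w.ord_const _ (inv_ne_zero (ha0 0)), hX]; norm_num)
        rw [sub_eq_add_neg, h2.2, hX]
      have hpb : ¬ pb (recD n a) 0 = Q := by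
        intro h3
        rw [← h3] at hP
        cases hP
      have hpa : ∀ i, ¬ pa (recD n a) i = Q := by
        intro i h3
        rw [← h3] at hP
        cases hP
      rw [if_neg hpb, Finset.sum_eq_zero (fun i _ => if_neg (hpa i)), hX, hV, hB]
      norm_num
  · rcases hR : Q 1 with _ | v₀
    · -- poles of v
      rw [hP, hR] at hQ
      obtain ⟨i, hi⟩ := hQ
      have hi' : x₀ = (a i)⁻¹ := hi
      obtain ⟨q1, q2⟩ := p4 i (by rw [hP]; exact congrArg some hi)
      have q1' : w.ord (x - algebraMap k N (a i)⁻¹) = n := q1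
      have hpos : 0 < w.ord (x - algebraMap k N (a i)⁻¹) := by rw [q1']; exact hnpos
      have hX : w.ord x = 0 := sh0 hpos (inv_ne_zero (ha0 i))
      have hpa : ∀ j, ¬ pa (recD n a) j = Q := by
        intro j h3
        rw [← h3] at hR
        cases hR
      rw [Finset.sum_eq_zero (fun i _ => if_neg (hpa i)), hX, q2]
      by_cases h0 : i = 0
      · subst h0
        have hpb : pb (recD n a) 0 = Q := by
          funext j
          fin_cases j
          · show some (a 0)⁻¹ = Q 0
            rw [hP, hi']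
          · show none = Q 1
            rw [hR]
        rw [if_pos hpb, q1']
        have : min ((n : ℤ) - 0) (min (- -1) (- -1 - 0)) = 1 := by
          rw [show (- -1 - 0 : ℤ) = 1 by norm_num, show (- -1 : ℤ) = 1 by norm_num, min_self]
          apply min_eq_right
          have : (2 : ℤ) ≤ n := by exact_mod_cast hn2
          linarith
        rw [this]
        ring
      · have hB : w.ord (x - algebraMap k N (a 0)⁻¹) = 0 := by
          apply sh hpos
          intro h3
          exact hane i 0 h0 (inv_injective h3)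
        have hpb : ¬ pb (recD n a) 0 = Q := by
          intro h3
          have h4 := congrFun h3 0
          have h5 : some (a 0)⁻¹ = Q 0 := h4
          rw [hP, hi'] at h5
          exact hane i 0 h0 (inv_injective (Option.some.inj h5).symm)
        rw [if_neg hpb, hB]
        norm_num
    · have hpb : ¬ pb (recD n a) 0 = Q := by
        intro h3
        rw [← h3] at hR
        cases hR
      rw [if_neg hpb]
      have hE : v₀ ^ n * ∏ i, (x₀ - (a i)⁻¹) = ∏ i, (x₀ - a i) := by
        rw [hP, hR] at hQ
        exact hQ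
      by_cases hv₀ : v₀ = 0
      · rw [hv₀, zero_pow (by omega), zero_mul] at hE
        obtain ⟨i, -, hi⟩ := Finset.prod_eq_zero_iff.1 hE.symm
        have hi' : x₀ = a i := sub_eq_zero.1 hi
        obtain ⟨q1, q2⟩ := p3 i (by rw [hP, hi']; rfl)
        have q1' : w.ord (x - algebraMap k N (a i)) = n := q1
        have hpos : 0 < w.ord (x - algebraMap k N (a i)) := by rw [q1']; exact hnpos
        have hX : w.ord x = 0 := sh0 hpos (ha0 i)
        have hB : w.ord (x - algebraMap k N (a 0)⁻¹) = 0 := by
          apply sh hpos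
          intro h3
          apply haa i 0
          rw [h3, inv_mul_cancel₀ (ha0 0)]
        have hpa : pa (recD n a) i = Q := by
          funext j
          fin_cases j
          · show some (a i) = Q 0
            rw [hP, hi']
          · show some 0 = Q 1
            rw [hR, hv₀]
        rw [Finset.sum_eq_single i, if_pos hpa, hX, hB, q2]
        · norm_num
        · intro j _ hj
          apply if_neg
          intro h3
          exact hj (OM2_pa_inj hc (h3.trans hpa.symm))
        · intro h3
          exact absurd (Finset.mem_univ i) h3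
      · have hpa : ∀ j, ¬ pa (recD n a) j = Q := by
          intro j h3
          have h4 : some (0 : k) = Q 1 := congrFun h3 1
          rw [hR] at h4
          exact hv₀ (Option.some.inj h4).symm
        rw [Finset.sum_eq_zero (fun i _ => if_neg (hpa i))]
        have hV : w.ord v = 0 := by
          rw [hR] at hv
          have hv' : Red w v (algebraMap k (RF w) v₀) := hv
          exact hv'.ord_eq_zero ((_root_.map_ne_zero _).2 hv₀)
        have hq : w.ord (x - algebraMap k N x₀) = 1 := p1 x₀ v₀ hP hR hv₀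
        have hpos : 0 < w.ord (x - algebraMap k N x₀) := by rw [hq]; exact one_pos
        have hB : w.ord (x - algebraMap k N (a 0)⁻¹) = 0 := by
          apply sh hpos
          intro h3
          rw [h3, Finset.prod_eq_zero (Finset.mem_univ (0 : Fin 3)) (sub_self _), mul_zero] at hE
          obtain ⟨j, -, hj⟩ := Finset.prod_eq_zero_iff.1 hE.symm
          apply haa j 0
          rw [← sub_eq_zero.1 hj, inv_mul_cancel₀ (ha0 0)]
        rw [hV, hB]
        by_cases hx₀ : x₀ = 0
        · rw [hx₀, map_zero, sub_zero] at hq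
          rw [hq]
          norm_num
        · rw [sh0 hpos hx₀]
          norm_num

end Pool.Agent.LibCW77
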