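import Pool.Agent.LibCW77.OA1
import Pool.Agent.LibCW77.C1

/-!
[CW77 OM3] MEDIUM: multiplicities on P -> (theta e, P)

As OM1. `mult = - min 0 (order of the third coordinate)` (the first one is `0` and does not count). Third coordinate `α (x - b) v - b x`, `b = 1 / a_0`: at `(none, s')` it is `x (α v - b) - α b v`, of order `-1`, as
`α s' ≠ b` (`hα`: `α ^ n ≠ b ^ n`, `s' ^ n = 1`); at `pb i`, `i ≠ 0`: order `-1`; at `pb 0`: order `≥ 0` (`n ≥ 2`, `(x - b) v` has order `n - 1`); elsewhere `≥ 0`.
-/

open scoped Classical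
open Polynomial

namespace Pool.Agent.LibCW77

open Pool.Agent.LibBH2
open Pool.Agent.LibCHd (VR RF Red FunF)
open Pool.Agent.LibHL77 (Lf tt EHom NC HE BE mult hypf)

variable {k : Type} [Field k]

private theorem OM3_mult {N : Type} [Field N] [Algebra k N] (w : Place k N) (T : N) :
    mult ![0, -1, T] 1 w = -min 0 (w.ord T) := by
  have h1 : w.ord (-1 : N) = 0 := by rw [w.ord_neg, w.ord_one]
  unfold mult
  have hs : {m : ℤ | ∃ j, (![0, -1, T] : Fin 3 → N) j ≠ 0 ∧ m = w.ord ((![0, -1, T] : Fin 3 → N) j)} =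
      {m : ℤ | m = 0 ∨ (T ≠ 0 ∧ m = w.ord T)} := by
    ext m
    simp only [Set.mem_setOf_eq, Fin.exists_fin_succ]
    simp [h1]
  rw [hs]
  simp only [Matrix.cons_val_one, Matrix.cons_val_zero, h1, zero_sub, neg_inj]
  by_cases hT : T = 0
  · subst hT
    rw [w.ord_zero, min_self]
    have : {m : ℤ | m = 0 ∨ ((0 : N) ≠ 0 ∧ m = 0)} = {0} := by
      ext m
      simp
    rw [this, csInf_singleton]
  · have : {m : ℤ | m = 0 ∨ (T ≠ 0 ∧ m = w.ord T)} = {0, w.ord T} := by
      ext m
      simp [hT]
    rw [this, csInf_pair]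

private theorem OM3_FF_none {c : Dat k} (hn : 0 < c.n) (h1 : fv c none = 1) {s : k} (hs : s ^ c.n = 1)
    {Q : Fin 2 → Option k} (h0 : Q 0 = none) (hQ : Q 1 = some s) : FF c none Q = 1 := by
  unfold FF
  rw [Finsupp.finsetSum_apply, h1]
  have h2 : ∀ t : k, (Finsupp.single ![none, some t] (1 : ℤ) : Dv k) Q = if t = s then 1 else 0 := by
    intro t
    rw [Finsupp.single_apply]
    congr 1
    apply propext
    constructor
    · intro h
      have h3 := congrFun h 1
      rw [hQ] at h3
      simpa using h3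
    · rintro rfl
      funext i
      fin_cases i
      · exact h0.symm
      · exact hQ.symm
  rw [Finset.sum_congr rfl (fun t _ => h2 t), Finset.sum_ite_eq' _ s, if_pos]
  rw [mem_nthRootsFinset hn]
  exact hs

private theorem OM3_FF_zero {c : Dat k} {Q : Fin 2 → Option k} (h0 : Q 0 ≠ none ∨ Q 1 = none) :
    FF c none Q = 0 := by
  unfold FF
  rw [Finsupp.finsetSum_apply]
  refine Finset.sum_eq_zero fun t _ => ?_
  rw [Finsupp.single_apply, if_neg]
  intro h
  rcases h0 with h0 | h0
  · exact h0 (by rw [← h]; rfl)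
  · rw [← h] at h0
    simp at h0

private theorem OM3_pb {c : Dat k} {Q : Fin 2 → Option k} {i : Fin 3} (h0 : Q 1 ≠ none) :
    (Finsupp.single (pb c i) (1 : ℤ) : Dv k) Q = 0 := by
  rw [Finsupp.single_apply, if_neg]
  intro h
  exact h0 (by rw [← h]; rfl)

private theorem OM3_pb' {c : Dat k} (hc : c.Good) {Q : Fin 2 → Option k} {i j : Fin 3} (h0 : Q 0 = some (c.b j))
    (h1 : Q 1 = none) : (Finsupp.single (pb c i) (1 : ℤ) : Dv k) Q = if i = j then 1 else 0 := by
  rw [Finsupp.single_apply]
  congr 1
  apply propext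
  constructor
  · intro h
    have h3 := congrFun h 0
    rw [h0] at h3
    have h4 : c.b i = c.b j := by
      simpa [pb] using h3
    exact Sum.inr_injective (hc.inj (a₁ := Sum.inr i) (a₂ := Sum.inr j) h4)
  · rintro rfl
    funext l
    fin_cases l
    · exact h0.symm
    · exact h1.symm

theorem on_DC [IsAlgClosed k] [CharZero k] {n : ℕ} {a : Fin 3 → k} (hc : (recD n a).Good) (Q : Fin 2 → Option k)
    (hQ : DC (recD n a) Q ≠ 0) : OnC (recD n a) (Q 0) (Q 1) := by
  have hn : 0 < (recD n a).n := by have := hc.two; omega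
  unfold DC at hQ
  rw [Finsupp.add_apply, Finsupp.add_apply] at hQ
  by_cases h1 : Q = pb (recD n a) 1
  · subst h1
    exact ⟨1, rfl⟩
  by_cases h2 : Q = pb (recD n a) 2
  · subst h2
    exact ⟨2, rfl⟩
  rw [Finsupp.single_apply, if_neg (Ne.symm h1), Finsupp.single_apply, if_neg (Ne.symm h2), add_zero, add_zero] at hQ
  unfold FF at hQ
  rw [Finsupp.finsetSum_apply] at hQ
  obtain ⟨s, hs, h3⟩ := Finset.exists_ne_zero_of_sum_ne_zero hQ
  rw [Finsupp.single_apply] at h3
  have h4 : ![none, some s] = Q := by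
    by_contra h
    rw [if_neg h] at h3
    exact h3 rfl
  rw [← h4]
  rw [(rec_fv hc).2.2.1, mem_nthRootsFinset hn] at hs
  exact hs

theorem mult_C [IsAlgClosed k] [CharZero k] {n : ℕ} {a : Fin 3 → k} (hc : (recD n a).Good) {α : k}
    (hα : IsAl (recD n a) α) {N : Type} [Field N] [Algebra k N] {x v : N} (h : GenC (recD n a) x v) (w : Place k N)
    (Q : Fin 2 → Option k) (hQ : OnC (recD n a) (Q 0) (Q 1))
    (hx : SpO w (some x) ((Q 0).map (algebraMap k (RF w)))) (hv : SpO w (some v) ((Q 1).map (algebraMap k (RF w)))) :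
    mult ![0, -1, algebraMap k N α * (x - algebraMap k N (a 0)⁻¹) * v - algebraMap k N (a 0)⁻¹ * x] 1 w =
      DC (recD n a) Q := by
  have hn : 0 < (recD n a).n := by have := hc.two; omega
  have : NeZero (recD n a).n := ⟨hn.ne'⟩
  have : NeZero ((recD n a).n : k) := ⟨by exact_mod_cast hn.ne'⟩
  obtain ⟨ζ, hζ⟩ := HasEnoughRootsOfUnity.exists_primitiveRoot k (recD n a).n
  obtain ⟨w₀, -, -, -, hnone, -, hb, huniq⟩ := placeC hc hζ h Q hQ
  obtain rfl := huniq w hx hv
  rw [OM3_mult]
  have hDC : DC (recD n a) Q = FF (recD n a) none Q + (Finsupp.single (pb (recD n a) 1) 1 : Dv k) Q +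
      (Finsupp.single (pb (recD n a) 2) 1 : Dv k) Q := by
    unfold DC
    rw [Finsupp.add_apply, Finsupp.add_apply]
  rw [hDC]
  have hb0 : (recD n a).b 0 = (a 0)⁻¹ := rfl
  have hb0' : (a 0)⁻¹ ≠ 0 := inv_ne_zero ((rec_facts hc).1 0)
  have hAb : algebraMap k N (a 0)⁻¹ ≠ 0 := by
    rw [Ne, FaithfulSMul.algebraMap_eq_zero_iff]
    exact hb0'
  have hAα : algebraMap k N α ≠ 0 := by
    rw [Ne, FaithfulSMul.algebraMap_eq_zero_iff]
    exact hα.1
  generalize hP : Q 0 = P at hQ hx
  generalize hR : Q 1 = R at hQ hv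
  rcases P with _ | t
  · rcases R with _ | s
    · exact hQ.elim
    · -- infinity
      have hs : s ^ (recD n a).n = 1 := hQ
      have hox : w.ord x = -1 := hnone hP
      rw [OM3_FF_none hn (rec_fv hc).2.2.1 hs hP hR, OM3_pb (by rw [hR]; simp), OM3_pb (by rw [hR]; simp)]
      have hv' : Red w v (algebraMap k (RF w) s) := hv
      have h1 : Red w (algebraMap k N α * v - algebraMap k N (a 0)⁻¹)
          (algebraMap k (RF w) (α * s - (a 0)⁻¹)) := by
        rw [map_sub, map_mul]
        exact ((LibCHd.red_const w α).mul hv').sub (LibCHd.red_const w _)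
      have h2 : α * s - (a 0)⁻¹ ≠ 0 := by
        intro h0
        apply hα.2 0
        rw [hb0, ← sub_eq_zero.1 h0, mul_pow, hs, mul_one]
      have h2' : algebraMap k (RF w) (α * s - (a 0)⁻¹) ≠ 0 := by
        rw [Ne, FaithfulSMul.algebraMap_eq_zero_iff]
        exact h2
      have h3 := h1.ord_eq_zero h2'
      have h4 := h1.ne_zero h2'
      have hx0 : x ≠ 0 := by
        rintro rfl
        rw [w.ord_zero] at hox
        omega
      have h5 : w.ord (x * (algebraMap k N α * v - algebraMap k N (a 0)⁻¹)) = -1 := by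
        rw [w.ord_mul _ _ hx0 h4, h3, hox, add_zero]
      have hs0 : s ≠ 0 := by
        rintro rfl
        rw [zero_pow hn.ne'] at hs
        exact zero_ne_one hs
      have hs0' : algebraMap k (RF w) s ≠ 0 := by
        rw [Ne, FaithfulSMul.algebraMap_eq_zero_iff]
        exact hs0
      have hv0 := hv'.ne_zero hs0'
      have hov := hv'.ord_eq_zero hs0'
      have h6 : w.ord (-(algebraMap k N α * algebraMap k N (a 0)⁻¹ * v)) = 0 := by
        rw [w.ord_neg, w.ord_mul _ _ (mul_ne_zero hAα hAb) hv0, w.ord_mul _ _ hAα hAb,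
          w.ord_const _ hα.1, w.ord_const _ hb0', hov]
        rfl
      have h7 := w.ord_add_of_lt (f := x * (algebraMap k N α * v - algebraMap k N (a 0)⁻¹))
        (g := -(algebraMap k N α * algebraMap k N (a 0)⁻¹ * v)) (mul_ne_zero hx0 h4)
        (neg_ne_zero.2 (mul_ne_zero (mul_ne_zero hAα hAb) hv0)) (by rw [h5, h6]; norm_num)
      have h8 : algebraMap k N α * (x - algebraMap k N (a 0)⁻¹) * v - algebraMap k N (a 0)⁻¹ * x =
          x * (algebraMap k N α * v - algebraMap k N (a 0)⁻¹) +
            -(algebraMap k N α * algebraMap k N (a 0)⁻¹ * v) := by ring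
      rw [h8, h7.2, h5]
      rfl
  · have hx' : Red w x (algebraMap k (RF w) t) := hx
    have hxr : w.Reg x := hx'.reg
    rw [OM3_FF_zero (Or.inl (by rw [hP]; simp)), zero_add]
    rcases R with _ | s
    · -- poles of v
      obtain ⟨i, rfl⟩ : ∃ i, t = (recD n a).b i := hQ
      have ho := hb i hP
      rw [OM3_pb' hc hP hR, OM3_pb' hc hP hR]
      have hv0 : v ≠ 0 := by
        rintro rfl
        rw [w.ord_zero] at ho
        omega
      by_cases hi : i = 0
      · subst hi
        rw [if_neg (by decide), if_neg (by decide), add_zero, neg_eq_zero, min_eq_left_iff]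
        have hxb0 : x - algebraMap k N (a 0)⁻¹ ≠ 0 := by
          intro h0
          have h1 := ho.1
          rw [hb0, h0, w.ord_zero] at h1
          omega
        have h1 : w.Reg ((x - algebraMap k N (a 0)⁻¹) * v) := by
          right
          rw [w.ord_mul _ _ hxb0 hv0, ho.2, ← hb0, ho.1]
          omega
        have h2 : w.Reg (algebraMap k N α * (x - algebraMap k N (a 0)⁻¹) * v - algebraMap k N (a 0)⁻¹ * x) := by
          rw [mul_assoc]
          exact ((Place.reg_const w α).mul h1).sub ((Place.reg_const w _).mul hxr)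
        rcases h2 with h2 | h2
        · rw [h2, w.ord_zero]
        · exact h2
      · have hbi : (recD n a).b i ≠ (a 0)⁻¹ := by
          intro h0
          exact hi (Sum.inr_injective (hc.inj (a₁ := Sum.inr i) (a₂ := Sum.inr 0) h0))
        have h1 : Red w (x - algebraMap k N (a 0)⁻¹) (algebraMap k (RF w) ((recD n a).b i - (a 0)⁻¹)) := by
          rw [map_sub]
          exact hx'.sub (LibCHd.red_const w _)
        have h1' : algebraMap k (RF w) ((recD n a).b i - (a 0)⁻¹) ≠ 0 := by
          rw [Ne, FaithfulSMul.algebraMap_eq_zero_iff]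
          exact sub_ne_zero.2 hbi
        have h2 := h1.ord_eq_zero h1'
        have h3 := h1.ne_zero h1'
        have h4 : w.ord (algebraMap k N α * (x - algebraMap k N (a 0)⁻¹) * v) = -1 := by
          rw [w.ord_mul _ _ (mul_ne_zero hAα h3) hv0, w.ord_mul _ _ hAα h3, w.ord_const _ hα.1, h2, ho.2]
          rfl
        have hT : w.ord (algebraMap k N α * (x - algebraMap k N (a 0)⁻¹) * v - algebraMap k N (a 0)⁻¹ * x) =
            -1 := by
          by_cases hx0 : x = 0
          · rw [hx0, mul_zero, sub_zero, ← hx0]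
            exact h4
          · have h5 : 0 ≤ w.ord x := by
              rcases hxr with h | h
              · exact absurd h hx0
              · exact h
            have h6 : w.ord (-(algebraMap k N (a 0)⁻¹ * x)) = w.ord x := by
              rw [w.ord_neg, w.ord_mul _ _ hAb hx0, w.ord_const _ hb0', zero_add]
            have h7 := w.ord_add_of_lt (f := algebraMap k N α * (x - algebraMap k N (a 0)⁻¹) * v)
              (g := -(algebraMap k N (a 0)⁻¹ * x)) (mul_ne_zero (mul_ne_zero hAα h3) hv0)
              (neg_ne_zero.2 (mul_ne_zero hAb hx0)) (by rw [h4, h6]; omega)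
            rw [sub_eq_add_neg, h7.2, h4]
        rw [hT]
        have hi12 : i = 1 ∨ i = 2 := by
          fin_cases i
          · exact absurd rfl hi
          · left; rfl
          · right; rfl
        rcases hi12 with rfl | rfl
        · rw [if_pos rfl, if_neg (by decide)]
          rfl
        · rw [if_neg (by decide), if_pos rfl]
          rfl
    · have hv' : Red w v (algebraMap k (RF w) s) := hv
      have hvr : w.Reg v := hv'.reg
      rw [OM3_pb (by rw [hR]; simp), OM3_pb (by rw [hR]; simp), add_zero, neg_eq_zero, min_eq_left_iff]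
      have h2 : w.Reg (algebraMap k N α * (x - algebraMap k N (a 0)⁻¹) * v - algebraMap k N (a 0)⁻¹ * x) :=
        (((Place.reg_const w α).mul (hxr.sub (Place.reg_const w _))).mul hvr).sub
          ((Place.reg_const w _).mul hxr)
      rcases h2 with h2 | h2
      · rw [h2, w.ord_zero]
      · exact h2

end Pool.Agent.LibCW77
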