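import Pool.Agent.LibCW77.OA1

/-!
[CW77 OS1] SHORT/MEDIUM: the secant coordinates

Unfold `sec`, `dt`, `hco`, `th`, `oi`, `e0` (M1.lean, ODefs.lean). `x`, `v` are not in `k` (`h.tr`; `v ^ n ∏ (x - b_i) = ∏ (x - a_i)`), so `x ≠ 0`, `v ≠ 0`, `x ≠ 1 / x`, and the `if` is decided by the first coordinate
(for `sec_A`: `x ^ 2 ≠ 1`; `sec_B`: `1 / x ≠ a_0`; `sec_C`, `sec_E`: `none ≠ some _` in the second coordinate). `sec_E`: `φ = ![0, -1, -1]` up to the order of factors (`b_0 a_0 = 1`).
`mult_const`: `w.ord` of non zero constants is `0` (`Place.ord_const`), see `H7_const` in H7.lean.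
-/

open scoped Classical
open Polynomial

namespace Pool.Agent.LibCW77

open Pool.Agent.LibBH2
open Pool.Agent.LibCHd (VR RF Red FunF)
open Pool.Agent.LibHL77 (Lf tt EHom NC HE BE mult hypf)

variable {k : Type} [Field k]

private theorem OS1_x0 {c : Dat k} {N : Type} [Field N] [Algebra k N] {x v : N}
    (h : GenC c x v) (t : k) : x ≠ algebraMap k N t := by
  intro hx
  exact h.tr (hx ▸ isAlgebraic_algebraMap t)

private theorem OS1_xne {c : Dat k} {N : Type} [Field N] [Algebra k N] {x v : N}
    (h : GenC c x v) : x ≠ 0 := by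
  intro hx
  exact OS1_x0 h 0 (by rw [map_zero]; exact hx)

private theorem OS1_vne {c : Dat k} (hc : c.Good) {N : Type} [Field N] [Algebra k N] {x v : N}
    (h : GenC c x v) : v ≠ 0 := by
  rintro rfl
  have h1 := h.on
  have h2 : (0 : N) ^ c.n * ∏ i, (x - algebraMap k N (c.b i)) = ∏ i, (x - algebraMap k N (c.a i)) := h1
  have h3 : c.n ≠ 0 := by
    have := hc.two
    omega
  rw [zero_pow h3, zero_mul] at h2
  obtain ⟨i, _, hi⟩ := Finset.prod_eq_zero_iff.1 h2.symm
  exact OS1_x0 h (c.a i) (sub_eq_zero.1 hi)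

private theorem OS1_xinv {c : Dat k} {N : Type} [Field N] [Algebra k N] {x v : N}
    (h : GenC c x v) : (1 / x : N) ≠ x := by
  intro hx
  apply h.tr
  have h0 := OS1_xne h
  have h1 : x ^ 2 - 1 = 0 := by
    have h2 : (1 : N) = x * x := by
      calc (1 : N) = (1 / x) * x := by field_simp
        _ = x * x := by rw [hx]
    rw [sq, ← h2, sub_self]
  refine ⟨X ^ 2 - 1, ?_, ?_⟩
  · have h3 : (X ^ 2 - C (1 : k) : k[X]) ≠ 0 := X_pow_sub_C_ne_zero (by norm_num) _
    rwa [C_1] at h3
  · simpa using h1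

theorem sec_A {n : ℕ} {a : Fin 3 → k} {μ : k} {N : Type} [Field N] [Algebra k N] {x v : N}
    (h : GenC (recD n a) x v) (hc : (recD n a).Good) (α : k) :
    sec ((recD n a).over N) (algebraMap k N α) (th μ ![some x, some v]) ![some x, some v] =
      ![x - 1 / x, v - algebraMap k N μ / v,
        algebraMap k N α * (x - 1 / x) * algebraMap k N μ + (v - algebraMap k N μ / v)] := by
  have hx := OS1_xne h
  have hv := OS1_vne hc h
  have hth : th μ ![some x, some v] = ![some (1 / x), some (algebraMap k N μ / v)] := by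
    simp [th, oi, hx, hv]
  have hne : ¬ (![some (1 / x), some (algebraMap k N μ / v)] : Fin 2 → Option N) = ![some x, some v] := by
    intro he
    have h1 := congrFun he 0
    simp only [Matrix.cons_val_zero, Option.some.injEq] at h1
    exact OS1_xinv h h1
  rw [hth]
  unfold sec
  rw [if_neg hne]
  funext i
  fin_cases i
  · simp [dt, hco]
  · simp [dt, hco]
  · simp [dt, hco]
    field_simp

theorem sec_B {n : ℕ} {a : Fin 3 → k} {μ : k} {N : Type} [Field N] [Algebra k N] {x v : N}
    (h : GenC (recD n a) x v) (hc : (recD n a).Good) (hμ : μ ≠ 0) (α : k) :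
    sec ((recD n a).over N) (algebraMap k N α) (th μ ![some x, some v]) (e0 (recD n a) N) =
      ![algebraMap k N (a 0) - 1 / x, -(algebraMap k N μ / v),
        -(algebraMap k N μ / v) * (1 / x) * algebraMap k N (a 0)] := by
  have hx := OS1_xne h
  have hv := OS1_vne hc h
  have hth : th μ ![some x, some v] = ![some (1 / x), some (algebraMap k N μ / v)] := by
    simp [th, oi, hx, hv]
  have he0 : e0 (recD n a) N = ![some (algebraMap k N (a 0)), some 0] := rfl
  have hne : ¬ (![some (1 / x), some (algebraMap k N μ / v)] : Fin 2 → Option N) =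
      ![some (algebraMap k N (a 0)), some 0] := by
    intro he
    have h1 := congrFun he 0
    simp only [Matrix.cons_val_zero, Option.some.injEq] at h1
    apply OS1_x0 h (a 0)⁻¹
    rw [map_inv₀, ← h1]
    field_simp
  rw [hth, he0]
  unfold sec
  rw [if_neg hne]
  funext i
  fin_cases i
  · simp [dt, hco]
  · simp [dt, hco]
  · simp [dt, hco]

theorem sec_C {n : ℕ} {a : Fin 3 → k} {μ : k} {N : Type} [Field N] [Algebra k N] {x v : N}
    (h : GenC (recD n a) x v) (hc : (recD n a).Good) (α : k) :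
    sec ((recD n a).over N) (algebraMap k N α) (th μ (e0 (recD n a) N)) ![some x, some v] =
      ![0, -1, algebraMap k N α * (x - algebraMap k N (a 0)⁻¹) * v - algebraMap k N (a 0)⁻¹ * x] := by
  have ha : a 0 ≠ 0 := (rec_facts hc).1 0
  have ha' : algebraMap k N (a 0) ≠ 0 := by
    rwa [Ne, map_eq_zero]
  have he0 : e0 (recD n a) N = ![some (algebraMap k N (a 0)), some 0] := rfl
  have hth : th μ (e0 (recD n a) N) = ![some (algebraMap k N (a 0)⁻¹), none] := by
    rw [he0]
    simp [th, oi, ha]
  have hne : ¬ (![some (algebraMap k N (a 0)⁻¹), none] : Fin 2 → Option N) = ![some x, some v] := by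
    intro he
    have h1 := congrFun he 1
    simp at h1
  rw [hth]
  unfold sec
  rw [if_neg hne]
  funext i
  fin_cases i
  · simp [dt, hco]
  · simp [dt, hco]
  · simp [dt, hco]
    try ring

theorem sec_E {n : ℕ} {a : Fin 3 → k} {μ : k} {N : Type} [Field N] [Algebra k N] (hc : (recD n a).Good) (α : k) :
    ∃ φ : Fin 3 → k, φ 1 = -1 ∧
      sec ((recD n a).over N) (algebraMap k N α) (th μ (e0 (recD n a) N)) (e0 (recD n a) N) =
        fun i => algebraMap k N (φ i) := by
  have ha : a 0 ≠ 0 := (rec_facts hc).1 0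
  have ha' : algebraMap k N (a 0) ≠ 0 := by
    rwa [Ne, map_eq_zero]
  have he0 : e0 (recD n a) N = ![some (algebraMap k N (a 0)), some 0] := rfl
  have hth : th μ (e0 (recD n a) N) = ![some (algebraMap k N (a 0)⁻¹), none] := by
    rw [he0]
    simp [th, oi, ha]
  have hne : ¬ (![some (algebraMap k N (a 0)⁻¹), none] : Fin 2 → Option N) =
      ![some (algebraMap k N (a 0)), some 0] := by
    intro he
    have h1 := congrFun he 1
    simp at h1
  refine ⟨![0, -1, -1], rfl, ?_⟩
  rw [hth, he0]
  unfold sec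
  rw [if_neg hne]
  funext i
  fin_cases i
  · simp [dt, hco]
  · simp [dt, hco]
  · simp [dt, hco, ha]

theorem mult_const {N : Type} [Field N] [Algebra k N] (φ : Fin 3 → k) {z : Fin 3} (hz : φ z ≠ 0) (w : Place k N) :
    mult (fun i => algebraMap k N (φ i)) z w = 0 := by
  have h1 : ∀ j, algebraMap k N (φ j) ≠ 0 → w.ord (algebraMap k N (φ j)) = 0 := by
    intro j hj
    refine w.ord_const _ ?_
    intro h
    exact hj (by rw [h, map_zero])
  have hz' : algebraMap k N (φ z) ≠ 0 := by
    rwa [Ne, map_eq_zero]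
  have h2 : {m | ∃ j, algebraMap k N (φ j) ≠ 0 ∧ m = w.ord (algebraMap k N (φ j))} = {(0 : ℤ)} := by
    ext m
    constructor
    · rintro ⟨j, hj, rfl⟩
      exact h1 j hj
    · intro hm
      exact ⟨z, hz', by rw [h1 z hz']; exact hm⟩
  unfold mult
  simp only
  rw [h1 z hz']
  rw [h2]
  simp

end Pool.Agent.LibCW77
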