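import Pool.Agent.LibCW77.OA2
import Pool.Agent.LibCW77.OC1
import Pool.Agent.LibCW77.OM1
import Pool.Agent.LibCW77.OM2
import Pool.Agent.LibCW77.OM3
import Pool.Agent.LibCW77.OS1
import Pool.Agent.LibCW77.OF1
import Pool.Agent.LibCW77.OD1
import Pool.Agent.LibCW77.M4

/-!
[CW77 OZ] The cycle of Gross and Schoen and the fixed points of the automorphisms.
-/

open scoped Classical
open Polynomial

namespace Pool.Agent.LibCW77

open Pool.Agent.LibBH2
open Pool.Agent.LibCHd (VR RF Red FunF)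
open Pool.Agent.LibHL77 (Lf tt EHom NC HE BE mult hypf)

variable {k : Type} [Field k]

private theorem OZ_single (c : Dat k) (Q : Fin 2 → Option k) (m : ℤ) :
    dvk c (Finsupp.single Q m) = m • cls c 0 (pt1 Q) := by
  rw [dvk, Finsupp.liftAddHom_apply_single]
  rfl

private theorem OZ_sp {c : Dat k} {N : Type} [Field N] [Algebra k N] (w : Place k N) (i : Fin 2) :
    SpO w (e0 c N i) ((pa c 0 i).map (algebraMap k (RF w))) := by
  fin_cases i
  · exact Pool.Agent.LibCHd.red_const w (c.a 0)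
  · have h := Pool.Agent.LibCHd.red_const w (0 : k)
    rw [map_zero] at h
    exact h

theorem theta_tors [IsAlgClosed k] [CharZero k] {n : ℕ} {a : Fin 3 → k} (hc : (recD n a).Good) {s e₁ e₂ : k}
    (h1 : e₁ ^ 2 = 1) (h2 : e₂ ^ 2 = 1) (hs1 : s ^ n = -e₁ * ∏ i, a i) (hs2 : (-s) ^ n = -e₂ * ∏ i, a i)
    {N : Type} [Field N] [Algebra k N] {x v : N} (h : GenC (recD n a) x v)
    (ht : IsOfFinAddOrder (GS (recD n a) ![some x, some v])) :
    IsOfFinAddOrder (cls (recD n a) 0 (pt1 ![some e₁, some s]) + cls (recD n a) 0 (pt1 ![some e₂, some (-s)]) -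
      2 • cls (recD n a) 0 (pt1 ![some (a 0)⁻¹, none])) := by
  set c : Dat k := recD n a with hcdef
  obtain ⟨ha0, haij, hab⟩ := rec_facts hc
  obtain ⟨fv1, fv2, fv3, -⟩ := rec_fv hc
  have hn2 : 2 ≤ n := hc.two
  have he0 : ∏ i, a i ≠ 0 := Finset.prod_ne_zero_iff.mpr fun i _ => ha0 i
  have hμ : (s ^ 2) ^ n = (∏ i, a i) ^ 2 := by
    rw [← pow_mul, mul_comm 2 n, pow_mul, hs1, mul_pow, neg_sq, h1, one_mul]
  have hs0 : s ≠ 0 := by
    rintro rfl
    rw [zero_pow (by omega)] at hs1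
    have : e₁ = 0 := by
      rcases mul_eq_zero.mp hs1.symm with h3 | h3
      · exact neg_eq_zero.mp h3
      · exact absurd h3 he0
    rw [this] at h1
    norm_num at h1
  have hμ0 : s ^ 2 ≠ 0 := pow_ne_zero _ hs0
  have hF : FunF k 1 N := (genC_funF hc h).1
  have hx0 : x ≠ 0 := by
    rintro rfl
    exact h.tr isAlgebraic_zero
  have htr : ∀ t : k, x ≠ algebraMap k N t := by
    rintro t rfl
    exact h.tr (isAlgebraic_algebraMap t)
  set P : Fin 2 → Option N := ![some x, some v] with hP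
  set e : Fin 2 → Option N := e0 c N with he
  have hPon : OnC (c.over N) (P 0) (P 1) := h.on
  have heon : OnC (c.over N) (e 0) (e 1) := by
    show (0 : N) ^ c.n * ∏ i, (algebraMap k N (c.a 0) - algebraMap k N (c.b i)) =
      ∏ i, (algebraMap k N (c.a 0) - algebraMap k N (c.a i))
    rw [zero_pow (by have := hc.two; omega), zero_mul, eq_comm]
    exact Finset.prod_eq_zero (Finset.mem_univ 0) (sub_self _)
  have hthP : OnC (c.over N) (th (s ^ 2) P 0) (th (s ^ 2) P 1) := th_on hc hμ hPon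
  have hthe : OnC (c.over N) (th (s ^ 2) e 0) (th (s ^ 2) e 1) := th_on hc hμ heon
  have hOn : ∀ A B C : Fin 2 → Option N, OnC (c.over N) (A 0) (A 1) → OnC (c.over N) (B 0) (B 1) →
      OnC (c.over N) (C 0) (C 1) → On (c.over N) (tri A B C) := by
    intro A B C hA hB hC j
    fin_cases j
    · exact hA
    · exact hB
    · exact hC
  have hspP : ∀ (w : Place k N) (Q : Fin 2 → Option k), SpO w (some x) ((Q 0).map (algebraMap k (RF w))) →
      SpO w (some v) ((Q 1).map (algebraMap k (RF w))) → ∀ i, SpO w (P i) ((id Q i).map (algebraMap k (RF w))) := by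
    intro w Q hx hv i
    fin_cases i
    · exact hx
    · exact hv
  obtain ⟨Γ, hΓ⟩ := exists_th hc hμ
  obtain ⟨α, hα⟩ := exists_al hc
  obtain ⟨Con, hCon⟩ := exists_op hc hα
  have hCon' : IsCon c α Con := hCon
  have hΓ' : ∀ A B C : Fin 2 → Option N, OnC (c.over N) (A 0) (A 1) → OnC (c.over N) (B 0) (B 1) →
      OnC (c.over N) (C 0) (C 1) → Γ (cls c 1 (tri A B C)) = cls c 1 (tri A (th (s ^ 2) B) C) := by
    intro A B C hA hB hC
    rw [hΓ N (tri A B C) hF (hOn A B C hA hB hC)]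
    rfl
  -- the seven values
  have hzA : (![x - 1 / x, v - algebraMap k N (s ^ 2) / v,
      algebraMap k N α * (x - 1 / x) * algebraMap k N (s ^ 2) + (v - algebraMap k N (s ^ 2) / v)] : Fin 3 → N) 0 ≠ 0 := by
    show x - 1 / x ≠ 0
    intro h0
    have h3 : (x - 1) * (x + 1) = 0 := by
      field_simp at h0
      linear_combination h0
    rcases mul_eq_zero.mp h3 with h4 | h4
    · exact htr 1 (by rw [map_one]; linear_combination h4)
    · exact htr (-1) (by rw [map_neg, map_one]; linear_combination h4)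
  have hzB : (![algebraMap k N (a 0) - 1 / x, -(algebraMap k N (s ^ 2) / v),
      -(algebraMap k N (s ^ 2) / v) * (1 / x) * algebraMap k N (a 0)] : Fin 3 → N) 0 ≠ 0 := by
    show algebraMap k N (a 0) - 1 / x ≠ 0
    intro h0
    have h5 : algebraMap k N (a 0) ≠ 0 := by
      rw [_root_.map_ne_zero]
      exact ha0 0
    apply htr (a 0)⁻¹
    rw [map_inv₀]
    field_simp at h0 ⊢
    linear_combination h0
  have hzC : (![0, -1, algebraMap k N α * (x - algebraMap k N (a 0)⁻¹) * v - algebraMap k N (a 0)⁻¹ * x] :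
      Fin 3 → N) 1 ≠ 0 := by
    show (-1 : N) ≠ 0
    exact neg_ne_zero.mpr one_ne_zero
  have vPPP : Con (cls c 1 (tri P (th (s ^ 2) P) P)) = dvL c id (DA c s e₁ e₂) :=
    con_gen hc hCon' h (hOn _ _ _ hPon hthP hPon) (sec_A h hc α) hzA _ (on_DA hc h1 h2 hs1 hs2) id
      fun w Q hQ hx hv => ⟨mult_A hc h1 h2 hs1 hs2 h α w Q hQ hx hv, hspP w Q hx hv⟩
  have vPPe : Con (cls c 1 (tri P (th (s ^ 2) P) e)) = dvL c id (DB c) :=
    con_gen hc hCon' h (hOn _ _ _ hPon hthP heon) (sec_B h hc hμ0 α) hzB _ (on_DB hc) id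
      fun w Q hQ hx hv => ⟨mult_B hc hμ0 h w Q hQ hx hv, hspP w Q hx hv⟩
  have vPeP : Con (cls c 1 (tri P (th (s ^ 2) e) P)) = dvL c id (DC c) :=
    con_gen hc hCon' h (hOn _ _ _ hPon hthe hPon) (sec_C h hc α) hzC _ (on_DC hc) id
      fun w Q hQ hx hv => ⟨mult_C hc hα h w Q hQ hx hv, hspP w Q hx hv⟩
  have vePP : Con (cls c 1 (tri e (th (s ^ 2) P) P)) = dvL c (fun _ => pa c 0) (DA c s e₁ e₂) :=
    con_gen hc hCon' h (hOn _ _ _ heon hthP hPon) (sec_A h hc α) hzA _ (on_DA hc h1 h2 hs1 hs2) _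
      fun w Q hQ hx hv => ⟨mult_A hc h1 h2 hs1 hs2 h α w Q hQ hx hv, fun i => OZ_sp w i⟩
  have vePe : Con (cls c 1 (tri e (th (s ^ 2) P) e)) = dvL c (fun _ => pa c 0) (DB c) :=
    con_gen hc hCon' h (hOn _ _ _ heon hthP heon) (sec_B h hc hμ0 α) hzB _ (on_DB hc) _
      fun w Q hQ hx hv => ⟨mult_B hc hμ0 h w Q hQ hx hv, fun i => OZ_sp w i⟩
  have veeP : Con (cls c 1 (tri e (th (s ^ 2) e) P)) = dvL c (fun _ => pa c 0) (DC c) :=
    con_gen hc hCon' h (hOn _ _ _ heon hthe hPon) (sec_C h hc α) hzC _ (on_DC hc) _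
      fun w Q hQ hx hv => ⟨mult_C hc hα h w Q hQ hx hv, fun i => OZ_sp w i⟩
  have vPee : Con (cls c 1 (tri P (th (s ^ 2) e) e)) = 0 := by
    obtain ⟨φ, hφ1, hφ⟩ := sec_E (N := N) (μ := s ^ 2) hc α
    have hφ0 : φ 1 ≠ 0 := by
      rw [hφ1]
      exact neg_ne_zero.mpr one_ne_zero
    have := con_gen hc hCon' h (hOn _ _ _ hPon hthe heon) hφ (z := 1) (by
      rw [_root_.map_ne_zero]
      exact hφ0) 0 (fun Q hQ => absurd rfl hQ) id
      fun w Q hQ hx hv => ⟨mult_const φ hφ0 w, hspP w Q hx hv⟩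
    rw [this, map_zero]
  set D : Dv k := DA c s e₁ e₂ - DB c - DC c with hD
  have hval : Con (Γ (GS c P)) = dvL c id D := by
    have hdeg := deg_ABC hc s e₁ e₂
    have hc0 : dvL c (fun _ => pa c 0) D = 0 := by
      rw [dv_const, hD, hdeg, zero_zsmul]
    rw [GS]
    simp only [map_add, map_sub]
    rw [hΓ' _ _ _ hPon hPon hPon, hΓ' _ _ _ hPon hPon heon, hΓ' _ _ _ hPon heon hPon, hΓ' _ _ _ heon hPon hPon,
      hΓ' _ _ _ hPon heon heon, hΓ' _ _ _ heon hPon heon, hΓ' _ _ _ heon heon hPon,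
      vPPP, vPPe, vPeP, vePP, vPee, vePe, veeP]
    rw [hD] at hc0 ⊢
    simp only [map_sub] at hc0 ⊢
    have h3 : dvL c (fun _ => pa c 0) (DA c s e₁ e₂) = dvL c (fun _ => pa c 0) (DB c) +
        dvL c (fun _ => pa c 0) (DC c) := by
      rw [sub_eq_zero, sub_eq_iff_eq_add] at hc0
      rw [hc0]
      abel
    rw [h3]
    abel
  have hfin : IsOfFinAddOrder (dvL c id D) := by
    rw [← hval]
    exact (Con.comp Γ).isOfFinAddOrder ht
  have hDon : ∀ Q, D Q ≠ 0 → OnC c (Q 0) (Q 1) := by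
    intro Q hQ
    by_contra hno
    apply hQ
    have e1 : DA c s e₁ e₂ Q = 0 := by
      by_contra h0
      exact hno (on_DA hc h1 h2 hs1 hs2 Q h0)
    have e2 : DB c Q = 0 := by
      by_contra h0
      exact hno (on_DB hc Q h0)
    have e3 : DC c Q = 0 := by
      by_contra h0
      exact hno (on_DC hc Q h0)
    rw [hD, Finsupp.sub_apply, Finsupp.sub_apply, e1, e2, e3]
    rfl
  have hk := dv_desc hc D hDon hfin
  -- fibres
  have hneq : ∀ t : k, t ^ 2 = 1 → ∀ i, some t ≠ some (c.a i) ∧ some t ≠ some (c.b i) := by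
    intro t ht i
    constructor
    · intro h0
      have h3 : t = a i := Option.some_injective _ h0
      apply hab i i
      rw [← h3, ← sq, ht]
    · intro h0
      have h3 : t = (a i)⁻¹ := Option.some_injective _ h0
      apply hab i i
      have h4 : a i = t⁻¹ := by rw [h3, inv_inv]
      rw [h4, ← mul_inv, ← sq, ht, inv_one]
  have r1 := fib_rel hc (some 1) (hneq 1 (one_pow 2))
  have r2 := fib_rel hc (some (-1)) (hneq (-1) (by norm_num))
  have r3 := fib_rel hc none (fun i => ⟨by simp, by simp⟩)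
  have hres : dvk c D = -(cls c 0 (pt1 ![some e₁, some s]) + cls c 0 (pt1 ![some e₂, some (-s)]) -
      2 • cls c 0 (pt1 ![some (a 0)⁻¹, none])) := by
    have hb0 : (![some (a 0)⁻¹, none] : Fin 2 → Option k) = pb c 0 := rfl
    rw [hb0, hD, DA, DB, DC]
    simp only [map_sub, map_add, map_sum, map_zsmul, OZ_single, Fin.sum_univ_three, one_smul, r1, r2, r3]
    rw [two_nsmul]
    module
  rw [hres] at hk
  exact (isOfFinAddOrder_neg_iff).mp hk

end Pool.Agent.LibCW77
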