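import Pool.Agent.LibCW77.F4
import Pool.Agent.LibCW77.T7
import Pool.Agent.LibCW77.Defs7

/-!
The same curve with the `b_i` permuted: transport of cycles.
-/

open scoped Classical
open Polynomial

namespace Pool.Agent.LibCW77

open Pool.Agent.LibBH2
open Pool.Agent.LibCHd (VR RF Red FunF)

variable {k : Type} [Field k]

theorem perm_over (c : Dat k) (σ : Equiv.Perm (Fin 3)) (M : Type) [Field M] [Algebra k M] :
    (c.perm σ).over M = (c.over M).perm σ := rfl

theorem onC_perm {M : Type} [Field M] (c : Dat M) (σ : Equiv.Perm (Fin 3)) (x v : Option M) :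
    OnC (c.perm σ) x v ↔ OnC c x v := by
  have hp : ∀ y : M, ∏ i, (y - (c.perm σ).b i) = ∏ i, (y - c.b i) := fun y =>
    Equiv.prod_comp σ fun i => y - c.b i
  rcases x with _ | x <;> rcases v with _ | v
  · exact Iff.rfl
  · exact Iff.rfl
  · constructor
    · rintro ⟨i, hi⟩
      exact ⟨σ i, hi⟩
    · rintro ⟨i, hi⟩
      refine ⟨σ.symm i, ?_⟩
      change x = c.b (σ (σ.symm i))
      rw [Equiv.apply_symm_apply]
      exact hi
  · change v ^ c.n * ∏ i, (x - (c.perm σ).b i) = _ ↔ _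
    rw [hp]
    rfl

theorem on_perm {M : Type} [Field M] (c : Dat M) (σ : Equiv.Perm (Fin 3)) {m : ℕ} (u : Pnt m M) :
    On (c.perm σ) u ↔ On c u := forall_congr' fun j => onC_perm c σ (u j 0) (u j 1)

theorem isDiv_perm (c : Dat k) (σ : Equiv.Perm (Fin 3)) (m d : ℕ) (e : Cyc k m) :
    IsDiv (c.perm σ) m d e ↔ IsDiv c m d e := by
  unfold IsDiv
  constructor
  · rintro ⟨K, _, _, u, g, S, E, h1, h2, h3⟩
    exact ⟨K, _, _, u, g, S, E, h1, (on_perm (c.over K) σ u).1 h2, h3⟩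
  · rintro ⟨K, _, _, u, g, S, E, h1, h2, h3⟩
    exact ⟨K, _, _, u, g, S, E, h1, (on_perm (c.over K) σ u).2 h2, h3⟩

theorem ratEq_perm (c : Dat k) (σ : Equiv.Perm (Fin 3)) (m d : ℕ) : RatEq c m d = RatEq (c.perm σ) m d := by
  unfold RatEq
  congr 1
  ext e
  exact (isDiv_perm c σ m d e).symm

/-- the same cycles on the curve with the `b_i` permuted -/
noncomputable def cpe (c : Dat k) (σ : Equiv.Perm (Fin 3)) (m d : ℕ) : CH c m d ≃+ CH (c.perm σ) m d :=
  QuotientAddGroup.quotientAddEquivOfEq (ratEq_perm c σ m d)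

theorem cpe_cls (c : Dat k) (σ : Equiv.Perm (Fin 3)) {m : ℕ} (d : ℕ) {M : Type} [Field M] [Algebra k M] (u : Pnt m M) :
    cpe c σ m d (cls c d u) = cls (c.perm σ) d u := rfl

theorem cpe_mns (c : Dat k) (σ : Equiv.Perm (Fin 3)) (ζ : k) {M : Type} [Field M] [Algebra k M] (u : Pnt 3 M) :
    cpe c σ 3 1 (mns c ζ u) = mns (c.perm σ) ζ u := by
  unfold mns
  rw [map_sum]
  refine Finset.sum_congr rfl fun s _ => ?_
  rw [map_sum]
  refine Finset.sum_congr rfl fun w _ => ?_
  rw [map_sub, cpe_cls, cpe_cls]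

theorem ka_perm {M : Type} [Field M] (c : Dat M) (σ : Equiv.Perm (Fin 3)) (i : Fin 3) : ka (c.perm σ) i = ka c i := by
  unfold ka
  congr 2
  exact Equiv.prod_comp σ fun j => c.a i - c.b j

theorem kb_perm {M : Type} [Field M] (c : Dat M) (σ : Equiv.Perm (Fin 3)) (i : Fin 3) :
    kb (c.perm σ) i = kb c (σ i) := by
  unfold kb
  congr 2
  refine Finset.prod_bij (fun j _ => σ j) ?_ ?_ ?_ ?_
  · intro j hj
    exact Finset.mem_erase.2 ⟨fun h => Finset.ne_of_mem_erase hj (σ.injective h), Finset.mem_univ _⟩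
  · intro j _ j' _ h
    exact σ.injective h
  · intro j hj
    refine ⟨σ.symm j, Finset.mem_erase.2 ⟨fun h => Finset.ne_of_mem_erase hj ?_, Finset.mem_univ _⟩,
      σ.apply_symm_apply j⟩
    rw [← h, Equiv.apply_symm_apply]
  · intro j _
    rfl

theorem Xv_perm {M : Type} [Field M] (c : Dat M) (σ : Equiv.Perm (Fin 3)) {m : ℕ} (u : Pnt m M) (i : Fin 3) :
    Xv (c.perm σ) u i = Xv c u i := rfl

theorem Yv_perm {M : Type} [Field M] (c : Dat M) (σ : Equiv.Perm (Fin 3)) {m : ℕ} (u : Pnt m M) (i : Fin 3) :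
    Yv (c.perm σ) u i = Yv c u (σ i) := rfl

theorem nu_perm {M : Type} [Field M] (c : Dat M) (σ : Equiv.Perm (Fin 3)) :
    ∏ i, (-(kb (c.perm σ) i) / ka (c.perm σ) i) = ∏ i, (-(kb c i) / ka c i) := by
  rw [Finset.prod_div_distrib, Finset.prod_div_distrib]
  congr 1
  · rw [Finset.prod_congr rfl fun i _ => by rw [kb_perm]]
    exact Equiv.prod_comp σ fun i => -(kb c i)
  · exact Finset.prod_congr rfl fun i _ => ka_perm c σ i

/-- the Z-point with respect to the other pairing -/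
noncomputable def zperm {M : Type} [Field M] (σ : Equiv.Perm (Fin 3)) (z : Zp M) : Zp M :=
  ⟨fun i => z.R i * z.Y i / z.Y (σ i), fun i => z.Y (σ i), z.u⟩

theorem zperm_map {M M' : Type} [Field M] [Field M'] (f : M →+* M') (σ : Equiv.Perm (Fin 3)) (z : Zp M) :
    zperm σ (z.map f) = (zperm σ z).map f := by
  unfold zperm Zp.map
  simp only [map_mul, map_div₀]

theorem isLift_perm {M : Type} [Field M] (c : Dat M) (σ : Equiv.Perm (Fin 3)) {z : Zp M} (hY : ∀ i, z.Y i ≠ 0)
    (P : Pnt 3 M) : IsLift (c.perm σ) (zperm σ z) P ↔ IsLift c z P := by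
  have key : ∀ i, z.R i * z.Y i / z.Y (σ i) * z.Y (σ i) = z.R i * z.Y i := fun i =>
    div_mul_cancel₀ _ (hY _)
  constructor
  · rintro ⟨h1, ⟨l, hl, h2⟩, h3⟩
    refine ⟨(on_perm c σ P).1 h1, ⟨l, hl, fun i => ⟨?_, ?_⟩⟩, h3⟩
    · have := (h2 i).1
      rw [Xv_perm] at this
      rw [this]
      change l * (z.R i * z.Y i / z.Y (σ i) * z.Y (σ i)) = _
      rw [key]
    · have := (h2 (σ.symm i)).2
      rw [Yv_perm, Equiv.apply_symm_apply] at this
      rw [this]
      change l * z.Y (σ (σ.symm i)) = _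
      rw [Equiv.apply_symm_apply]
  · rintro ⟨h1, ⟨l, hl, h2⟩, h3⟩
    refine ⟨(on_perm c σ P).2 h1, ⟨l, hl, fun i => ⟨?_, ?_⟩⟩, h3⟩
    · rw [Xv_perm, (h2 i).1]
      change _ = l * (z.R i * z.Y i / z.Y (σ i) * z.Y (σ i))
      rw [key]
    · rw [Yv_perm]
      exact (h2 (σ i)).2

theorem isZ_perm {M : Type} [Field M] (c : Dat M) (σ : Equiv.Perm (Fin 3)) {z : Zp M} (h : IsZ c z) :
    IsZ (c.perm σ) (zperm σ z) := by
  have key : ∀ i, z.R i * z.Y i / z.Y (σ i) * z.Y (σ i) = z.R i * z.Y i := fun i =>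
    div_mul_cancel₀ _ (h.Y0 _)
  refine ⟨fun i => div_ne_zero (mul_ne_zero (h.R0 i) (h.Y0 i)) (h.Y0 _), fun i => h.Y0 _, h.u0, ?_, ?_, ?_⟩
  · change z.u ^ c.n = ∏ i, z.R i * z.Y i / z.Y (σ i)
    rw [Finset.prod_div_distrib, Finset.prod_mul_distrib, Equiv.prod_comp σ z.Y, mul_div_assoc,
      div_self (Finset.prod_ne_zero_iff.2 fun i _ => h.Y0 i), mul_one]
    exact h.un
  · have h1 : ∀ i, cA (c.perm σ) (zperm σ z).R i * (zperm σ z).Y i =
        ka c i * (z.R i * z.Y i) + kb c (σ i) * z.Y (σ i) := by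
      intro i
      change (ka (c.perm σ) i * (z.R i * z.Y i / z.Y (σ i)) + kb (c.perm σ) i) * z.Y (σ i) = _
      rw [ka_perm, kb_perm, add_mul, mul_assoc, key]
    rw [Finset.sum_congr rfl fun i _ => h1 i, Finset.sum_add_distrib, Equiv.sum_comp σ fun i => kb c i * z.Y i,
      ← Finset.sum_add_distrib, ← h.r1]
    refine Finset.sum_congr rfl fun i _ => ?_
    unfold cA
    ring
  · have h1 : ∀ i, cB (c.perm σ) (zperm σ z).R i * (zperm σ z).Y i =
        ka c i * c.a i * (z.R i * z.Y i) + kb c (σ i) * c.b (σ i) * z.Y (σ i) := by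
      intro i
      change (ka (c.perm σ) i * c.a i * (z.R i * z.Y i / z.Y (σ i)) + kb (c.perm σ) i * c.b (σ i)) * z.Y (σ i) = _
      rw [ka_perm, kb_perm, add_mul, mul_assoc, key]
    rw [Finset.sum_congr rfl fun i _ => h1 i, Finset.sum_add_distrib,
      Equiv.sum_comp σ fun i => kb c i * c.b i * z.Y i, ← Finset.sum_add_distrib, ← h.r2]
    refine Finset.sum_congr rfl fun i _ => ?_
    unfold cB
    ring

variable {V : Type} [AddCommGroup V] [Module ℚ V]

theorem TZ_perm (c : Dat k) (σ : Equiv.Perm (Fin 3)) (ζ : k) (q : CH (c.perm σ) 3 1 →+ V) {M : Type} [Field M]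
    [Algebra k M] {z : Zp M} (hY : ∀ i, z.Y i ≠ 0) :
    TZ (c.perm σ) ζ q (zperm σ z) = TZ c ζ (q.comp (cpe c σ 3 1).toAddMonoidHom) z := by
  have h : (fun t : V => ∀ (M' : Type) (_ : Field M') (_ : Algebra k M') (i : M →ₐ[k] M') (P : Pnt 3 M'),
      Module.finrank i.fieldRange M' ≠ 0 → IsLift ((c.perm σ).over M') ((zperm σ z).map i) P →
      q (mns (c.perm σ) ζ P) = Module.finrank i.fieldRange M' • t) =
    (fun t : V => ∀ (M' : Type) (_ : Field M') (_ : Algebra k M') (i : M →ₐ[k] M') (P : Pnt 3 M'),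
      Module.finrank i.fieldRange M' ≠ 0 → IsLift (c.over M') (z.map i) P →
      (q.comp (cpe c σ 3 1).toAddMonoidHom) (mns c ζ P) = Module.finrank i.fieldRange M' • t) := by
    funext t
    refine propext (forall_congr' fun M' => forall_congr' fun _ => forall_congr' fun _ => forall_congr' fun i =>
      forall_congr' fun P => forall_congr' fun _ => ?_)
    have h1 : (q.comp (cpe c σ 3 1).toAddMonoidHom) (mns c ζ P) = q (mns (c.perm σ) ζ P) := by
      rw [← cpe_mns]
      rfl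
    rw [h1]
    have h2 : IsLift ((c.perm σ).over M') ((zperm σ z).map i) P ↔ IsLift (c.over M') (z.map i) P := by
      have h3 : (zperm σ z).map i = zperm σ (z.map i) := (zperm_map (i : M →+* M') σ z).symm
      rw [h3, perm_over]
      exact isLift_perm (c.over M') σ (fun j h4 => hY j ((map_eq_zero (i : M →+* M')).1 h4)) P
    rw [h2]
  unfold TZ
  have e : ∀ (p q : V → Prop) (_ : p = q), (if h : ∃ t, p t then h.choose else 0) = if h : ∃ t, q t then h.choose else 0 := by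
    rintro p _ rfl
    rfl
  exact e _ _ h

end Pool.Agent.LibCW77
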