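import Pool.Agent.LibCW77.PI1
import Pool.Agent.LibCW77.P7
import Pool.Agent.LibCW77.LN
import Pool.Agent.LibCW77.L4

/-!
The lines `L(Q)` for two pairings which differ by a transposition are opposite.
-/

open scoped Classical
open Polynomial

namespace Pool.Agent.LibCW77

open Pool.Agent.LibBH2
open Pool.Agent.LibCHd (VR RF Red FunF)

variable {k : Type} [Field k]

theorem PI2_ev {M : Type} [Field M] (x : Option M) : ∃ α β : M, ∀ t, ev x t = α * t - β := by
  cases x with
  | none => exact ⟨0, -1, fun t => by simp [ev]⟩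
  | some x => exact ⟨1, x, fun t => by simp [ev]⟩

theorem PI2_ab {F : Type} [Field F] {c : Dat F} (hc : c.Good) (i j : Fin 3) : c.a i - c.b j ≠ 0 := by
  intro h
  have h1 : Sum.elim c.a c.b (Sum.inl i) = Sum.elim c.a c.b (Sum.inr j) := by
    simp only [Sum.elim_inl, Sum.elim_inr]
    exact sub_eq_zero.1 h
  exact absurd (hc.inj h1) (by simp)

noncomputable def PI2_C {F : Type} [Field F] (c : Dat F) (x : Option F) (j : Fin 3) : F :=
  kb c j * (c.a j - c.b j) / ev x (c.a j)

theorem PI2_C_ne {F : Type} [Field F] {c : Dat F} (hc : c.Good) {x : Option F} (ha : ∀ i, ev x (c.a i) ≠ 0)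
    (j : Fin 3) : PI2_C c x j ≠ 0 :=
  div_ne_zero (mul_ne_zero (kb_ne hc j) (PI2_ab hc j j)) (ha j)

theorem PI2_A {F : Type} [Field F] {c : Dat F} (hc : c.Good) {x : Option F} {α β : F}
    (he : ∀ t, ev x t = α * t - β) (ha : ∀ i, ev x (c.a i) ≠ 0) (j : Fin 3) :
    cA c (lR c x) j = α * PI2_C c x j := by
  have h1 := ka_ne hc j
  have h2 := ha j
  unfold cA lR PI2_C
  field_simp
  rw [he, he]
  ring

theorem PI2_B {F : Type} [Field F] {c : Dat F} (hc : c.Good) {x : Option F} {α β : F}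
    (he : ∀ t, ev x t = α * t - β) (ha : ∀ i, ev x (c.a i) ≠ 0) (j : Fin 3) :
    cB c (lR c x) j = β * PI2_C c x j := by
  have h1 := ka_ne hc j
  have h2 := ha j
  unfold cB lR PI2_C
  field_simp
  rw [he, he]
  ring

/-- the ratio `lR` determines the point -/
theorem lR_inj {F : Type} [Field F] {c : Dat F} (hc : c.Good) {x x' : Option F} (i : Fin 3)
    (ha : ev x (c.a i) ≠ 0) (ha' : ev x' (c.a i) ≠ 0) (h : lR c x i = lR c x' i) : x = x' := by
  have h1 := ka_ne hc i
  have h2 := kb_ne hc i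
  have h3 : ev x (c.b i) * ev x' (c.a i) = ev x' (c.b i) * ev x (c.a i) := by
    unfold lR at h
    rw [div_eq_div_iff (mul_ne_zero h1 ha) (mul_ne_zero h1 ha')] at h
    have h4 : (ka c i * kb c i) * (ev x (c.b i) * ev x' (c.a i)) =
        (ka c i * kb c i) * (ev x' (c.b i) * ev x (c.a i)) := by linear_combination -h
    exact mul_left_cancel₀ (mul_ne_zero h1 h2) h4
  have h5 := PI2_ab hc i i
  cases x with
  | none =>
    cases x' with
    | none => rfl
    | some x' =>
      exfalso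
      simp only [ev] at h3
      exact h5 (by linear_combination h3)
  | some x =>
    cases x' with
    | none =>
      exfalso
      simp only [ev] at h3
      exact h5 (by linear_combination -h3)
    | some x' =>
      simp only [ev] at h3
      have h6 : (c.a i - c.b i) * (x - x') = 0 := by linear_combination -h3
      rcases mul_eq_zero.1 h6 with h7 | h7
      · exact absurd h7 h5
      · rw [sub_eq_zero.1 h7]

theorem PI2_adj {N : Type} [Field N] [Algebra k N] {i : k →ₐ[k] N} {μ : N} (h : Rat1 i μ) :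
    Transcendental k μ ∧ IntermediateField.adjoin k {μ} = ⊤ := by
  have hi : (i : k →+* N) = algebraMap k N := by
    ext x
    exact i.commutes x
  constructor
  · rintro ⟨G, hG, h1⟩
    refine h.tr G hG ?_
    rw [hi]
    exact h1
  · rw [eq_top_iff]
    rintro z -
    obtain ⟨P, Q, hQ, rfl⟩ := h.gen z
    have h2 : ∀ P : k[X], P.eval₂ (i : k →+* N) μ ∈ IntermediateField.adjoin k {μ} := by
      intro P
      rw [hi]
      exact IntermediateField.algebra_adjoin_le_adjoin k {μ} (aeval_mem_adjoin_singleton k μ)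
    exact div_mem (h2 P) (h2 Q)

theorem PI2_sum (i0 : Fin 3) {F : Type} [AddCommMonoid F] (f : Fin 3 → F) :
    ∑ j, f j = f i0 + f (i0 + 1) + f (i0 + 2) := by
  fin_cases i0
  · rw [Fin.sum_univ_three]; rfl
  · rw [Fin.sum_univ_three]
    change f 0 + f 1 + f 2 = f 1 + f 2 + f 0
    rw [add_assoc, add_comm (f 0)]
  · rw [Fin.sum_univ_three]
    change f 0 + f 1 + f 2 = f 2 + f 0 + f 1
    rw [add_comm (f 0 + f 1), add_assoc]

theorem PI2_prod (i0 : Fin 3) {F : Type} [CommMonoid F] (f : Fin 3 → F) :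
    ∏ j, f j = f i0 * f (i0 + 1) * f (i0 + 2) := by
  fin_cases i0
  · rw [Fin.prod_univ_three]; rfl
  · rw [Fin.prod_univ_three]
    change f 0 * f 1 * f 2 = f 1 * f 2 * f 0
    rw [mul_assoc, mul_comm (f 0)]
  · rw [Fin.prod_univ_three]
    change f 0 * f 1 * f 2 = f 2 * f 0 * f 1
    rw [mul_comm (f 0 * f 1), mul_assoc]

variable {V : Type} [AddCommGroup V] [Module ℚ V]

theorem Lval_tr [IsAlgClosed k] [CharZero k] {c : Dat k} (hc : c.Good) {ζ ν : k} (hζ : IsPrimitiveRoot ζ c.n)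
    (hν : ν ^ c.n = ∏ i, (-(kb c i) / ka c i)) (i0 : Fin 3) (σ : Equiv.Perm (Fin 3)) (hs0 : σ i0 = i0)
    (hs1 : σ (i0 + 1) = i0 + 2) (hs2 : σ (i0 + 2) = i0 + 1)
    (q : CH (c.perm σ) 3 1 →+ V) (Q : Fin 2 → Option k) (hQ : OnC c (Q 0) (Q 1)) :
    Lval (c.perm σ) ζ ν q Q = -Lval c ζ ν (q.comp (cpe c σ 3 1).toAddMonoidHom) Q := by
  by_cases hr : Q 1 = none ∨ Q 1 = some 0
  · rw [Lval_ram _ _ hr, Lval_ram _ _ hr, neg_zero]
  obtain ⟨y, hy⟩ : ∃ v, Q 1 = some v := by
    rcases h : Q 1 with _ | v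
    · exact absurd (Or.inl h) hr
    · exact ⟨v, rfl⟩
  have hy0 : y ≠ 0 := by
    rintro rfl
    exact hr (Or.inr hy)
  have hQ' : OnC c (Q 0) (some y) := hy ▸ hQ
  have hi01 : i0 ≠ i0 + 1 := by fin_cases i0 <;> decide
  have hi02 : i0 ≠ i0 + 2 := by fin_cases i0 <;> decide
  have hi12 : i0 + 1 ≠ i0 + 2 := by fin_cases i0 <;> decide
  have hc' : (c.perm σ).Good := perm_good hc σ
  have hν' : ν ^ (c.perm σ).n = ∏ i, (-(kb (c.perm σ) i) / ka (c.perm σ) i) := by
    rw [nu_perm]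
    exact hν
  have hν0 : ν ≠ 0 := nu_ne hc hν
  obtain ⟨ha, hb, hR, hcr, hun⟩ := lR_props hc ν hν (Q 0) y hy0 hQ'
  have hQ'' : OnC (c.perm σ) (Q 0) (some y) := (onC_perm c σ _ _).2 hQ'
  obtain ⟨ha', hb', hR', hcr', hun'⟩ := lR_props hc' ν hν' (Q 0) y hy0 hQ''
  obtain ⟨α, β, he⟩ := PI2_ev (Q 0)
  have hC := PI2_C_ne hc ha
  set C := PI2_C c (Q 0) with hCdef
  set ρ0 := lR (c.perm σ) (Q 0) (i0 + 1) with hρ0
  have hρ0n : ρ0 ≠ 0 := hR' (i0 + 1)
  set t0 := ρ0 * C (i0 + 1) / (lR c (Q 0) (i0 + 1) * C (i0 + 2)) with ht0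
  have ht0n : t0 ≠ 0 := div_ne_zero (mul_ne_zero hρ0n (hC _)) (mul_ne_zero (hR _) (hC _))
  obtain ⟨N, _, _, i, μ, hrat⟩ := rat1_exists (k := k) k
  have hF0 : FunF k 0 k := Pool.Agent.LibHL77.funF_zero.2 inferInstance
  have hN : FunF k 1 N := rat1_funF hrat hF0
  obtain ⟨htr, hadj⟩ := PI2_adj hrat
  obtain ⟨v0, -, -, -, hv01, hv0u⟩ := place_triv hrat
  have hinj : ∀ r : k, algebraMap k N r = 0 → r = 0 := fun r hr => (map_eq_zero (algebraMap k N)).1 hr
  have hμ0 : μ ≠ 0 := by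
    rintro rfl
    exact htr isAlgebraic_zero
  have hμt : algebraMap k N t0 * μ + 1 ≠ 0 := by
    intro h0
    apply htr
    have h1 : μ = algebraMap k N (-1 / t0) := by
      have h2 : algebraMap k N t0 ≠ 0 := fun h => ht0n (hinj _ h)
      rw [map_div₀, map_neg, map_one, eq_div_iff h2]
      linear_combination h0
    rw [h1]
    exact isAlgebraic_algebraMap _
  let yy : Fin 3 → N := fun j => if j = i0 + 1 then algebraMap k N t0 * μ else if j = i0 + 2 then 1 else
    -(algebraMap k N t0 * μ + 1)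
  have yy1 : yy (i0 + 1) = algebraMap k N t0 * μ := if_pos rfl
  have yy2 : yy (i0 + 2) = 1 := by
    change (if i0 + 2 = i0 + 1 then _ else if i0 + 2 = i0 + 2 then _ else _) = _
    rw [if_neg hi12.symm, if_pos rfl]
  have yy0 : yy i0 = -(algebraMap k N t0 * μ + 1) := by
    change (if i0 = i0 + 1 then _ else if i0 = i0 + 2 then _ else _) = _
    rw [if_neg hi01, if_neg hi02]
  have hyy : ∀ j, yy j ≠ 0 := by
    intro j
    change (if j = i0 + 1 then _ else if j = i0 + 2 then _ else _) ≠ _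
    split_ifs
    · exact mul_ne_zero (fun h => ht0n (hinj _ h)) hμ0
    · exact one_ne_zero
    · exact neg_ne_zero.2 hμt
  let z : Zp N := ⟨fun j => algebraMap k N (lR c (Q 0) j), fun j => (algebraMap k N (C j))⁻¹ * yy j,
    algebraMap k N (ν / y)⟩
  have hCN : ∀ j, algebraMap k N (C j) ≠ 0 := fun j h => hC j (hinj _ h)
  have hY0 : ∀ j, z.Y j ≠ 0 := fun j => mul_ne_zero (inv_ne_zero (hCN j)) (hyy j)
  have hsum : ∑ j, algebraMap k N (C j) * z.Y j = 0 := by
    have h1 : ∀ j, algebraMap k N (C j) * z.Y j = yy j := fun j => by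
      change algebraMap k N (C j) * ((algebraMap k N (C j))⁻¹ * yy j) = yy j
      rw [mul_inv_cancel_left₀ (hCN j)]
    rw [Finset.sum_congr rfl fun j _ => h1 j, PI2_sum i0]
    change yy i0 + yy (i0 + 1) + yy (i0 + 2) = 0
    rw [yy0, yy1, yy2]
    ring
  have hcA : ∀ j, cA (c.over N) z.R j = algebraMap k N (cA c (lR c (Q 0)) j) := by
    intro j
    change ka (c.over N) j * algebraMap k N (lR c (Q 0) j) + kb (c.over N) j = _
    rw [ka_map, kb_map]
    simp [cA]
  have hcB : ∀ j, cB (c.over N) z.R j = algebraMap k N (cB c (lR c (Q 0)) j) := by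
    intro j
    change ka (c.over N) j * algebraMap k N (c.a j) * algebraMap k N (lR c (Q 0) j) +
      kb (c.over N) j * algebraMap k N (c.b j) = _
    rw [ka_map, kb_map]
    simp [cB]
  have hz : IsZ (c.over N) z := by
    refine ⟨fun j h => hR j (hinj _ h), hY0, fun h => div_ne_zero hν0 hy0 (hinj _ h), ?_, ?_, ?_⟩
    · change algebraMap k N (ν / y) ^ c.n = ∏ j, algebraMap k N (lR c (Q 0) j)
      rw [← map_pow, hun, map_prod]
    · have h1 : ∀ j, cA (c.over N) z.R j * z.Y j = algebraMap k N α * (algebraMap k N (C j) * z.Y j) := by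
        intro j
        rw [hcA, PI2_A hc he ha, map_mul]
        ring
      rw [Finset.sum_congr rfl fun j _ => h1 j, ← Finset.mul_sum, hsum, mul_zero]
    · have h1 : ∀ j, cB (c.over N) z.R j * z.Y j = algebraMap k N β * (algebraMap k N (C j) * z.Y j) := by
        intro j
        rw [hcB, PI2_B hc he ha, map_mul]
        ring
      rw [Finset.sum_congr rfl fun j _ => h1 j, ← Finset.mul_sum, hsum, mul_zero]
  have hl : OnLine c ν Q z := by
    refine ⟨fun j => rfl, y, hy, hy0, ?_⟩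
    change algebraMap k N (ν / y) * algebraMap k N y = algebraMap k N ν
    rw [← map_mul, div_mul_cancel₀ _ hy0]
  have hfr : Module.finrank (yf k z.Y) N = 1 := by
    refine line_gen μ htr hadj
      (fun j => (C j)⁻¹ * (if j = i0 + 1 then 0 else if j = i0 + 2 then 1 else -1))
      (fun j => (C j)⁻¹ * (if j = i0 + 1 then t0 else if j = i0 + 2 then 0 else -t0))
      ⟨i0 + 1, i0 + 2, ?_⟩ _ hY0 1 one_ne_zero ?_
    · simp only [if_true, if_neg hi12.symm]
      intro h
      have h2 : (C (i0 + 2))⁻¹ * ((C (i0 + 1))⁻¹ * t0) = 0 := by linear_combination -h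
      exact mul_ne_zero (inv_ne_zero (hC _)) (mul_ne_zero (inv_ne_zero (hC _)) ht0n) h2
    · intro j
      change (algebraMap k N (C j))⁻¹ * (if j = i0 + 1 then _ else if j = i0 + 2 then _ else _) = _
      rw [map_mul, map_mul, map_inv₀]
      split_ifs
      · rw [map_zero]; ring
      · rw [map_one, map_zero]; ring
      · rw [map_neg, map_neg, map_one]; ring
  have hTZ : TZ c ζ (q.comp (cpe c σ 3 1).toAddMonoidHom) z =
      Lval c ζ ν (q.comp (cpe c σ 3 1).toAddMonoidHom) Q := by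
    rw [Lval_spec hc hζ hν _ Q hQ hN hz hl, hfr, one_smul]
  have hTZ' : TZ (c.perm σ) ζ q (zperm σ z) = Lval c ζ ν (q.comp (cpe c σ 3 1).toAddMonoidHom) Q := by
    rw [TZ_perm c σ ζ q hY0, hTZ]
  have hz' : IsZ ((c.perm σ).over N) (zperm σ z) := isZ_perm (c.over N) σ hz
  -- the ratios for the other pairing
  have hR0 : (zperm σ z).R i0 = algebraMap k N (lR (c.perm σ) (Q 0) i0) := by
    change z.R i0 * z.Y i0 / z.Y (σ i0) = _
    rw [hs0, mul_div_assoc, div_self (hY0 i0), mul_one]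
    change algebraMap k N (lR c (Q 0) i0) = _
    congr 1
    unfold lR
    rw [ka_perm, kb_perm, hs0]
    change _ = -(kb c i0 * ev (Q 0) (c.b (σ i0))) / _
    rw [hs0]
    rfl
  have hR1 : (zperm σ z).R (i0 + 1) = algebraMap k N ρ0 * μ := by
    change z.R (i0 + 1) * z.Y (i0 + 1) / z.Y (σ (i0 + 1)) = _
    rw [hs1]
    change algebraMap k N (lR c (Q 0) (i0 + 1)) * ((algebraMap k N (C (i0 + 1)))⁻¹ * yy (i0 + 1)) /
      ((algebraMap k N (C (i0 + 2)))⁻¹ * yy (i0 + 2)) = _
    rw [yy1, yy2, ht0, map_div₀, map_mul, map_mul]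
    have h1 : algebraMap k N (lR c (Q 0) (i0 + 1)) ≠ 0 := fun h => hR _ (hinj _ h)
    have h2 := hCN (i0 + 1)
    have h3 := hCN (i0 + 2)
    field_simp
  have hprod : ρ0 * lR (c.perm σ) (Q 0) (i0 + 2) = lR c (Q 0) (i0 + 1) * lR c (Q 0) (i0 + 2) := by
    rw [hρ0]
    unfold lR
    rw [ka_perm, kb_perm, ka_perm, kb_perm, hs1, hs2]
    change -(kb c (i0 + 2) * ev (Q 0) (c.b (σ (i0 + 1)))) / (ka c (i0 + 1) * ev (Q 0) (c.a (i0 + 1))) *
      (-(kb c (i0 + 1) * ev (Q 0) (c.b (σ (i0 + 2)))) / (ka c (i0 + 2) * ev (Q 0) (c.a (i0 + 2)))) = _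
    rw [hs1, hs2]
    have h1 := ka_ne hc (i0 + 1)
    have h2 := ka_ne hc (i0 + 2)
    have h3 := ha (i0 + 1)
    have h4 := ha (i0 + 2)
    field_simp
  have hR2 : (zperm σ z).R (i0 + 2) = algebraMap k N (lR (c.perm σ) (Q 0) (i0 + 2)) / μ := by
    have h5 : (zperm σ z).R (i0 + 1) * (zperm σ z).R (i0 + 2) =
        algebraMap k N (lR c (Q 0) (i0 + 1)) * algebraMap k N (lR c (Q 0) (i0 + 2)) := by
      change z.R (i0 + 1) * z.Y (i0 + 1) / z.Y (σ (i0 + 1)) * (z.R (i0 + 2) * z.Y (i0 + 2) / z.Y (σ (i0 + 2))) = _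
      rw [hs1, hs2]
      have h6 := hY0 (i0 + 1)
      have h7 := hY0 (i0 + 2)
      change algebraMap k N (lR c (Q 0) (i0 + 1)) * z.Y (i0 + 1) / z.Y (i0 + 2) *
        (algebraMap k N (lR c (Q 0) (i0 + 2)) * z.Y (i0 + 2) / z.Y (i0 + 1)) = _
      field_simp
    have hρN : algebraMap k N ρ0 ≠ 0 := fun h => hρ0n (hinj _ h)
    rw [hR1, ← map_mul, ← hprod, map_mul] at h5
    rw [eq_div_iff hμ0]
    have h8 : algebraMap k N ρ0 * ((zperm σ z).R (i0 + 2) * μ) =
        algebraMap k N ρ0 * algebraMap k N (lR (c.perm σ) (Q 0) (i0 + 2)) := by linear_combination h5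
    exact mul_left_cancel₀ hρN h8
  -- the minor
  have hmin : crs ((c.perm σ).over N) (zperm σ z).R (i0 + 2) =
      algebraMap k N (PI2_C (c.perm σ) (Q 0) i0 * ka (c.perm σ) (i0 + 1) * ev (Q 0) ((c.perm σ).a (i0 + 1)) * ρ0) *
        (μ - 1) := by
    have h3 : i0 + 2 + 1 = i0 := by fin_cases i0 <;> rfl
    have h4 : i0 + 2 + 2 = i0 + 1 := by fin_cases i0 <;> rfl
    unfold crs
    rw [h3, h4]
    have hA0 : cA ((c.perm σ).over N) (zperm σ z).R i0 = algebraMap k N (α * PI2_C (c.perm σ) (Q 0) i0) := by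
      rw [← PI2_A hc' he ha' i0]
      unfold cA
      rw [hR0, ka_map, kb_map, map_add, map_mul]
    have hB0 : cB ((c.perm σ).over N) (zperm σ z).R i0 = algebraMap k N (β * PI2_C (c.perm σ) (Q 0) i0) := by
      rw [← PI2_B hc' he ha' i0]
      unfold cB
      rw [hR0, ka_map, kb_map, map_add, map_mul, map_mul, map_mul]
      rfl
    have hA1 : cA ((c.perm σ).over N) (zperm σ z).R (i0 + 1) =
        algebraMap k N (ka (c.perm σ) (i0 + 1)) * (algebraMap k N ρ0 * μ) + algebraMap k N (kb (c.perm σ) (i0 + 1)) := by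
      unfold cA
      rw [hR1, ka_map, kb_map]
    have hB1 : cB ((c.perm σ).over N) (zperm σ z).R (i0 + 1) =
        algebraMap k N (ka (c.perm σ) (i0 + 1)) * algebraMap k N ((c.perm σ).a (i0 + 1)) * (algebraMap k N ρ0 * μ) +
          algebraMap k N (kb (c.perm σ) (i0 + 1)) * algebraMap k N ((c.perm σ).b (i0 + 1)) := by
      unfold cB
      rw [hR1, ka_map, kb_map]
      rfl
    have hk : ka (c.perm σ) (i0 + 1) * (α * (c.perm σ).a (i0 + 1) - β) * ρ0 +
        kb (c.perm σ) (i0 + 1) * (α * (c.perm σ).b (i0 + 1) - β) = 0 := by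
      rw [← he, ← he, hρ0]
      unfold lR
      have h5 := ka_ne hc' (i0 + 1)
      have h6 := ha' (i0 + 1)
      field_simp
      ring
    rw [hA0, hB0, hA1, hB1, he]
    have hk' := congrArg (algebraMap k N) hk
    simp only [map_mul, map_sub, map_add, map_zero] at hk' ⊢
    linear_combination (algebraMap k N (PI2_C (c.perm σ) (Q 0) i0)) * hk'
  have hconst : PI2_C (c.perm σ) (Q 0) i0 * ka (c.perm σ) (i0 + 1) * ev (Q 0) ((c.perm σ).a (i0 + 1)) * ρ0 ≠ 0 :=
    mul_ne_zero (mul_ne_zero (mul_ne_zero (PI2_C_ne hc' ha' i0) (ka_ne hc' _)) (ha' _)) hρ0n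
  have hμ1 : μ - 1 ≠ 0 := by
    have := rat1_ne hrat 1
    rw [map_one] at this
    exact sub_ne_zero.2 this
  have hminne : crs ((c.perm σ).over N) (zperm σ z).R (i0 + 2) ≠ 0 := by
    rw [hmin]
    exact mul_ne_zero (fun h => hconst (hinj _ h)) hμ1
  have hminord : ∀ w : Place k N, w.ord (crs ((c.perm σ).over N) (zperm σ z).R (i0 + 2)) = w.ord (μ - 1) := by
    intro w
    rw [hmin, w.ord_mul _ _ (fun h => hconst (hinj _ h)) hμ1, w.ord_const _ hconst, zero_add]
  have htriv : ∀ w : Place k N, ∀ x, w.ord (i x) = 0 := by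
    intro w x
    by_cases hx : x = 0
    · rw [hx, map_zero, w.ord_zero]
    · have h5 : i x = algebraMap k N x := i.commutes x
      rw [h5]
      exact w.ord_const x hx
  have hv1 : Red v0 μ 1 := (Pool.Agent.LibCHd.red_iff_sub (Pool.Agent.LibCHd.red_one v0)).2
    (Or.inr (by rw [hv01]; exact one_pos))
  have hRed : ∀ j, Red v0 ((zperm σ z).R j) (algebraMap k (RF v0) (lR (c.perm σ) (Q 0) j)) := by
    have h0 : Red v0 ((zperm σ z).R i0) (algebraMap k (RF v0) (lR (c.perm σ) (Q 0) i0)) := by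
      rw [hR0]
      exact Pool.Agent.LibCHd.red_const v0 _
    have h1 : Red v0 ((zperm σ z).R (i0 + 1)) (algebraMap k (RF v0) (lR (c.perm σ) (Q 0) (i0 + 1))) := by
      rw [hR1]
      have := (Pool.Agent.LibCHd.red_const v0 ρ0).mul hv1
      rwa [mul_one] at this
    have h2 : Red v0 ((zperm σ z).R (i0 + 2)) (algebraMap k (RF v0) (lR (c.perm σ) (Q 0) (i0 + 2))) := by
      rw [hR2]
      have := (Pool.Agent.LibCHd.red_const v0 (lR (c.perm σ) (Q 0) (i0 + 2))).div hv1 one_ne_zero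
      rwa [div_one] at this
    intro j
    have hj : j = i0 ∨ j = i0 + 1 ∨ j = i0 + 2 := by
      fin_cases i0 <;> fin_cases j <;> decide
    rcases hj with rfl | rfl | rfl
    · exact h0
    · exact h1
    · exact h2
  obtain ⟨S, m, Qw, hS, hw, hT⟩ := path1_full hc' hζ hν' q hN hz' ⟨i0 + 2, hminne⟩
  have hS0 : S = {v0} := by
    ext w
    rw [Finset.mem_singleton, hS]
    constructor
    · rintro ⟨-, h2⟩
      have h3 := h2 (i0 + 2) hminne
      rw [hminord] at h3
      exact hv0u w (htriv w) h3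
    · rintro rfl
      refine ⟨fun j => (hRed j).ord_eq_zero ?_, fun j hj => ?_⟩
      · intro h
        rw [map_eq_zero] at h
        exact hR' j h
      · have h5 := P1_red_crs (c.perm σ) hRed j
        have h6 : crs ((c.perm σ).over (RF w)) (fun j => algebraMap k (RF w) (lR (c.perm σ) (Q 0) j)) j = 0 := by
          have h7 : crs ((c.perm σ).over (RF w)) (fun j => algebraMap k (RF w) (lR (c.perm σ) (Q 0) j)) j =
              algebraMap k (RF w) (crs (c.perm σ) (lR (c.perm σ) (Q 0)) j) := by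
            unfold crs cA cB
            simp only [ka_map, kb_map, map_sub, map_mul, map_add]
            rfl
          rw [h7, hcr' j, map_zero]
        rw [h6] at h5
        rcases Pool.Agent.LibCHd.red_zero_iff.1 h5 with h7 | h7
        · exact absurd h7 hj
        · exact h7
  have hv0S : v0 ∈ S := by
    rw [hS0]
    exact Finset.mem_singleton_self _
  obtain ⟨hm0, hm1, -, hon, hRw, x', hx', hx'0, hux'⟩ := hw v0 hv0S
  have hm : m v0 = 1 := by
    have h5 := hm1 (i0 + 2) hminne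
    rw [hminord, hv01] at h5
    omega
  have hQw : Qw v0 = Q := by
    have hon' : OnC (c.perm σ) (Qw v0 0) (some x') := hx' ▸ hon
    obtain ⟨ha'', -, -, -, -⟩ := lR_props hc' ν hν' (Qw v0 0) x' hx'0 hon'
    have h5 : lR (c.perm σ) (Qw v0 0) i0 = lR (c.perm σ) (Q 0) i0 := by
      have h6 := (hRw i0).unique (hRed i0)
      exact (algebraMap k (RF v0)).injective h6
    have h7 : Qw v0 0 = Q 0 := lR_inj hc' i0 (ha'' i0) (ha' i0) h5
    have h8 : ν / x' = ν / y := by
      have h9 : Red v0 (zperm σ z).u (algebraMap k (RF v0) (ν / y)) := Pool.Agent.LibCHd.red_const v0 (ν / y)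
      exact (algebraMap k (RF v0)).injective (hux'.unique h9)
    have h10 : x' = y := by
      rw [div_eq_div_iff hx'0 hy0] at h8
      exact (mul_left_cancel₀ hν0 h8).symm
    funext j
    fin_cases j
    · exact h7
    · change Qw v0 1 = Q 1
      rw [hx', hy, h10]
  rw [hTZ', hS0, Finset.sum_singleton, hm, one_smul, hQw] at hT
  rw [hT, neg_neg]

end Pool.Agent.LibCW77
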