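import Pool.Agent.LibCW77.Defs7
import Pool.Agent.LibCW77.A0
import Pool.Agent.LibCW77.LN
import Pool.Agent.LibCW77.T4
import Pool.Agent.LibCW77.T7

/-!
[CW77 Z1] Triples on the line of a point. `col_line`: all `v_j` and `y` are finite and nonzero (`ν ≠ 0`), so no point is ramified and all `Xv, Yv, ev` are nonzero (`lR_props` for `Q`; `zpt_lift`); `R_i = Xv i / Yv i = lR c (Q 0) i` (`lR_map`, `ka_map`, `kb_map`). `mns_col`: `zpt_lift`, `TZ_zpt`, `Lval_spec` (`(zpt P).Y = Yv P`).
-/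

open scoped Classical
open Polynomial

namespace Pool.Agent.LibCW77

open Pool.Agent.LibBH2
open Pool.Agent.LibCHd (VR RF Red FunF)

variable {k : Type} [Field k]

private theorem Z1_ev_map {M M' : Type} [Field M] [Field M'] (f : M →+* M') (x : Option M) (t : M) :
    ev (x.map f) (f t) = f (ev x t) := by
  cases x with
  | none => exact (map_one f).symm
  | some x => exact (map_sub f t x).symm

/-- the relation between `R_i` and the values at `a_i`, `b_i`, over `M` -/
private theorem Z1_rel {c : Dat k} (hc : c.Good) {ν : k} (hν : ν ^ c.n = ∏ i, (-(kb c i) / ka c i))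
    {x : Option k} {y : k} (hy : y ≠ 0) (hQ : OnC c x (some y)) (M : Type) [Field M] [Algebra k M] (i : Fin 3) :
    ev (x.map (algebraMap k M)) ((c.over M).a i) ≠ 0 ∧
      ka (c.over M) i * algebraMap k M (lR c x i) * ev (x.map (algebraMap k M)) ((c.over M).a i) +
        kb (c.over M) i * ev (x.map (algebraMap k M)) ((c.over M).b i) = 0 := by
  obtain ⟨ha, -, -, -, -⟩ := lR_props hc ν hν x y hy hQ
  have h1 : ka c i * lR c x i * ev x (c.a i) + kb c i * ev x (c.b i) = 0 := by
    unfold lR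
    have h2 := ka_ne hc i
    have h3 := ha i
    field_simp
    ring
  have hA : ev (x.map (algebraMap k M)) ((c.over M).a i) = algebraMap k M (ev x (c.a i)) :=
    Z1_ev_map (algebraMap k M) x (c.a i)
  have hB : ev (x.map (algebraMap k M)) ((c.over M).b i) = algebraMap k M (ev x (c.b i)) :=
    Z1_ev_map (algebraMap k M) x (c.b i)
  rw [hA, hB]
  refine ⟨(_root_.map_ne_zero _).2 (ha i), ?_⟩
  have h4 : ka (c.over M) i = algebraMap k M (ka c i) := ka_map (algebraMap k M) c i
  have h5 : kb (c.over M) i = algebraMap k M (kb c i) := kb_map (algebraMap k M) c i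
  rw [h4, h5, ← map_mul, ← map_mul, ← map_mul, ← map_add, h1, map_zero]

theorem col_line [IsAlgClosed k] {c : Dat k} (hc : c.Good) {ν : k} (hν : ν ^ c.n = ∏ i, (-(kb c i) / ka c i))
    {Q : Fin 2 → Option k} (hQ : OnC c (Q 0) (Q 1)) {M : Type} [Field M] [Algebra k M] {P : Pnt 3 M}
    (hP : On (c.over M) P) (h : Col c ν Q P) : ¬ Ram P ∧ UnR Q ∧ OnLine c ν Q (zpt (c.over M) P) := by
  obtain ⟨hrel, v, y, hv, hy, hprod⟩ := h
  have hν0 := nu_ne hc hν
  have hνM : algebraMap k M ν ≠ 0 := (_root_.map_ne_zero _).2 hν0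
  rw [← hprod] at hνM
  have hv0 : ∏ j, v j ≠ 0 := left_ne_zero_of_mul hνM
  have hyM : algebraMap k M y ≠ 0 := right_ne_zero_of_mul hνM
  have hy0 : y ≠ 0 := by
    rintro rfl
    exact hyM (map_zero _)
  have hr : ¬ Ram P := by
    rintro ⟨j, hj⟩
    rw [hv j] at hj
    rcases hj with hj | hj
    · exact absurd hj (by simp)
    · exact Finset.prod_ne_zero_iff.1 hv0 j (Finset.mem_univ j) (Option.some.inj hj)
  refine ⟨hr, ⟨y, hy, hy0⟩, ?_, y, hy, hy0, ?_⟩
  · intro i
    rw [hy] at hQ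
    obtain ⟨hA, hR⟩ := Z1_rel hc hν hy0 hQ M i
    have hY : Yv (c.over M) P i ≠ 0 := (zpt_lift (good_map hc) hP hr).1.Y0 i
    have hka := ka_ne (good_map (M := M) hc) i
    change Xv (c.over M) P i / Yv (c.over M) P i = _
    rw [div_eq_iff hY]
    refine mul_left_cancel₀ (mul_ne_zero hka hA) ?_
    linear_combination hrel i - Yv (c.over M) P i * hR
  · have e : (zpt (c.over M) P).u = ∏ j, v j := by
      change ∏ j, (P j 1).getD 0 = ∏ j, v j
      refine Finset.prod_congr rfl fun j _ => ?_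
      rw [hv j]
      rfl
    rw [e]
    exact hprod

variable {V : Type} [AddCommGroup V] [Module ℚ V]

theorem mns_col [IsAlgClosed k] [CharZero k] {c : Dat k} (hc : c.Good) {ζ ν : k} (hζ : IsPrimitiveRoot ζ c.n)
    (hν : ν ^ c.n = ∏ i, (-(kb c i) / ka c i)) (q : CH c 3 1 →+ V) {Q : Fin 2 → Option k}
    (hQ : OnC c (Q 0) (Q 1)) {M : Type} [Field M] [Algebra k M] (hM : FunF k 1 M) {P : Pnt 3 M}
    (hP : On (c.over M) P) (h : Col c ν Q P) : q (mns c ζ P) = Module.finrank (pf c P) M • Lval c ζ ν q Q := by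
  obtain ⟨hr, -, hl⟩ := col_line hc hν hQ hP h
  obtain ⟨hz, -⟩ := zpt_lift (good_map hc) hP hr
  rw [← TZ_zpt hc hζ q hP hr]
  exact Lval_spec hc hζ hν q Q hQ hM hz hl

/-- there are curves on `C ^ 3` on the line of every point -/
theorem exists_col [IsAlgClosed k] [CharZero k] {c : Dat k} (hc : c.Good) {ν : k}
    (hν : ν ^ c.n = ∏ i, (-(kb c i) / ka c i)) {Q : Fin 2 → Option k} (hQ : OnC c (Q 0) (Q 1)) (hu : UnR Q) :
    ∃ (M : Type) (_ : Field M) (_ : Algebra k M) (P : Pnt 3 M), FunF k 1 M ∧ On (c.over M) P ∧ Col c ν Q P ∧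
      Module.finrank (pf c P) M ≠ 0 := by
  obtain ⟨y, hy, hy0⟩ := hu
  have hnr : ¬ (Q 1 = none ∨ Q 1 = some 0) := by
    rw [hy]
    rintro (h | h)
    · exact absurd h (by simp)
    · exact hy0 (Option.some.inj h)
  obtain ⟨M, _, _, z, hM, hz, ⟨hzR, y', hy', -, hzu⟩, hfin⟩ := line_pt hc hν Q hQ hnr
  have hyy : y' = y := by
    rw [hy] at hy'
    exact (Option.some.inj hy').symm
  rw [hyy] at hzu
  obtain ⟨M', _, _, i, P, h0, hP⟩ := exists_lift hc z hz
  have hz' : IsZ (c.over M') (z.map i) := (isZ_map i).2 hz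
  obtain ⟨l, hl, hval⟩ := hP.val
  obtain ⟨v, hv, hvp⟩ := hP.prod
  refine ⟨M', inferInstance, inferInstance, P, funF_finite i h0 hM, hP.on, ⟨?_, v, y, hv, hy, ?_⟩, ?_⟩
  · intro t
    rw [hy] at hQ
    obtain ⟨-, hR⟩ := Z1_rel hc hν hy0 hQ M' t
    obtain ⟨e1, e2⟩ := hval t
    have e3 : (z.map i).R t = algebraMap k M' (lR c (Q 0) t) := by
      change i (z.R t) = _
      rw [hzR t, i.commutes]
    rw [e3] at e1
    rw [e1, e2]
    linear_combination l * (z.map i).Y t * hR
  · rw [hvp]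
    change i z.u * algebraMap k M' y = _
    rw [← i.commutes y, ← map_mul, hzu, i.commutes]
  · have htop : yf k z.Y = ⊤ := IntermediateField.finrank_eq_one_iff_eq_top.1 hfin
    have hmap : pf c P = i.fieldRange := by
      rw [AlgHom.fieldRange_eq_map, ← htop]
      unfold pf yf
      rw [IntermediateField.adjoin_map, ← Set.range_comp]
      congr 2
      funext p
      change Yv (c.over M') P p.1 / Yv (c.over M') P p.2 = i (z.Y p.1 / z.Y p.2)
      rw [(hval p.1).2, (hval p.2).2, mul_div_mul_left _ _ hl, map_div₀]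
      rfl
    rw [hmap]
    exact h0

end Pool.Agent.LibCW77
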