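import Pool.Agent.LibCW77.Defs7

/-!
[CW77 Z2] Linear algebra. `lin_iso`: rational relations between the `f x` are, after clearing denominators, integral relations; so `Finsupp.linearCombination ℚ f` and `.. g` on `X →₀ ℚ` have the same kernel, the spans are the ranges (`Finsupp.range_linearCombination`), `LinearMap.quotKerEquivRange`. `qt_ext`: the base change of a homomorphism.
-/

open scoped Classical
open Polynomial

namespace Pool.Agent.LibCW77

open Pool.Agent.LibBH2
open Pool.Agent.LibCHd (VR RF Red FunF)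

private theorem Z2_ker {X A B : Type} [AddCommGroup A] [Module ℚ A] [AddCommGroup B] [Module ℚ B] (f : X → A) (g : X → B)
    (h : ∀ (n : ℕ) (m : Fin n → ℤ) (x : Fin n → X), ∑ j, m j • f (x j) = 0 → ∑ j, m j • g (x j) = 0)
    (c : X →₀ ℚ) (hc : Finsupp.linearCombination ℚ f c = 0) : Finsupp.linearCombination ℚ g c = 0 := by
  set d : ℕ := ∏ x ∈ c.support, (c x).den with hd
  have hd0 : (d : ℚ) ≠ 0 := by
    rw [hd]
    exact_mod_cast Finset.prod_ne_zero_iff.2 fun x _ => (c x).den_nz
  have h1 : ∀ x : c.support, ∃ m : ℤ, (m : ℚ) = (d : ℚ) * c (x : X) := by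
    intro x
    obtain ⟨k, hk⟩ := Finset.dvd_prod_of_mem (fun y => (c y).den) x.2
    refine ⟨(c (x : X)).num * k, ?_⟩
    rw [hd, hk]
    push_cast
    have := Rat.mul_den_eq_num (c (x : X))
    rw [← this]
    ring
  choose M hM using h1
  have key : ∀ {C : Type} [AddCommGroup C] [Module ℚ C] (v : X → C),
      ∑ j : Fin c.support.card, M (c.support.equivFin.symm j) • v (c.support.equivFin.symm j : X) =
        (d : ℚ) • Finsupp.linearCombination ℚ v c := by
    intro C _ _ v
    have e1 : ∑ j : Fin c.support.card, M (c.support.equivFin.symm j) • v (c.support.equivFin.symm j : X) =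
        ∑ x : c.support, M x • v (x : X) :=
      Equiv.sum_comp c.support.equivFin.symm (fun x : c.support => M x • v (x : X))
    have e2 : ∑ x ∈ c.support, (d : ℚ) • c x • v x = ∑ x : c.support, (d : ℚ) • c (x : X) • v (x : X) :=
      (Finset.sum_coe_sort c.support (fun x => (d : ℚ) • c x • v x)).symm
    rw [e1, Finsupp.linearCombination_apply, Finsupp.sum, Finset.smul_sum, e2]
    refine Finset.sum_congr rfl fun x _ => ?_
    rw [smul_smul, ← hM x, Int.cast_smul_eq_zsmul]
  have h2 := h c.support.card (fun j => M (c.support.equivFin.symm j)) (fun j => (c.support.equivFin.symm j : X))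
    (by rw [key f, hc, smul_zero])
  rw [key g] at h2
  exact (smul_eq_zero.1 h2).resolve_left hd0

theorem lin_iso {X A B : Type} [AddCommGroup A] [Module ℚ A] [AddCommGroup B] [Module ℚ B] (f : X → A) (g : X → B)
    (h : ∀ (n : ℕ) (m : Fin n → ℤ) (x : Fin n → X), ∑ j, m j • f (x j) = 0 ↔ ∑ j, m j • g (x j) = 0) :
    ∃ Φ : Submodule.span ℚ (Set.range f) ≃ₗ[ℚ] Submodule.span ℚ (Set.range g),
      ∀ x, (Φ ⟨f x, Submodule.subset_span ⟨x, rfl⟩⟩ : B) = g x := by
  have hk : LinearMap.ker (Finsupp.linearCombination ℚ f) = LinearMap.ker (Finsupp.linearCombination ℚ g) := by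
    ext c
    rw [LinearMap.mem_ker, LinearMap.mem_ker]
    exact ⟨Z2_ker f g (fun n m x => (h n m x).1) c, Z2_ker g f (fun n m x => (h n m x).2) c⟩
  have hf : Submodule.span ℚ (Set.range f) = LinearMap.range (Finsupp.linearCombination ℚ f) :=
    (Finsupp.range_linearCombination ℚ).symm
  have hg : LinearMap.range (Finsupp.linearCombination ℚ g) = Submodule.span ℚ (Set.range g) :=
    Finsupp.range_linearCombination ℚ
  refine ⟨(LinearEquiv.ofEq _ _ hf).trans ((LinearMap.quotKerEquivRange _).symm.trans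
    ((Submodule.quotEquivOfEq _ _ hk).trans ((LinearMap.quotKerEquivRange _).trans (LinearEquiv.ofEq _ _ hg)))), ?_⟩
  intro x
  have h1 : Finsupp.linearCombination ℚ f (Finsupp.single x 1) = f x := by
    rw [Finsupp.linearCombination_single, one_smul]
  have h2 : Finsupp.linearCombination ℚ g (Finsupp.single x 1) = g x := by
    rw [Finsupp.linearCombination_single, one_smul]
  have h3 : (LinearMap.quotKerEquivRange (Finsupp.linearCombination ℚ f)).symm
      (LinearEquiv.ofEq _ _ hf ⟨f x, Submodule.subset_span ⟨x, rfl⟩⟩) =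
      (LinearMap.ker (Finsupp.linearCombination ℚ f)).mkQ (Finsupp.single x 1) := by
    rw [LinearEquiv.symm_apply_eq]
    apply Subtype.ext
    simp
  simp only [LinearEquiv.trans_apply]
  rw [h3]
  simp

theorem qt_ext {A B : Type} [AddCommGroup A] [AddCommGroup B] (Γ : A →+ B) :
    ∃ Γ' : TensorProduct ℤ ℚ A →ₗ[ℚ] TensorProduct ℤ ℚ B, ∀ x, Γ' (qt A x) = qt B (Γ x) := by
  refine ⟨TensorProduct.AlgebraTensorModule.lTensor ℚ ℚ Γ.toIntLinearMap, fun x => ?_⟩
  show TensorProduct.AlgebraTensorModule.lTensor ℚ ℚ Γ.toIntLinearMap ((1 : ℚ) ⊗ₜ[ℤ] x) = (1 : ℚ) ⊗ₜ[ℤ] (Γ x)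
  rw [TensorProduct.AlgebraTensorModule.lTensor_tmul]
  rfl

theorem qt_span {A : Type} [AddCommGroup A] {W : Type} [AddCommGroup W] [Module ℚ W] {f g : TensorProduct ℤ ℚ A →ₗ[ℚ] W}
    (h : ∀ x, f (qt A x) = g (qt A x)) : f = g := by
  apply LinearMap.ext
  intro z
  induction z using TensorProduct.induction_on with
  | zero => rw [map_zero, map_zero]
  | tmul q x =>
    have h1 : q ⊗ₜ[ℤ] x = q • (qt A x) := by
      show q ⊗ₜ[ℤ] x = q • ((1 : ℚ) ⊗ₜ[ℤ] x)
      rw [TensorProduct.smul_tmul', smul_eq_mul, mul_one]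
    rw [h1, map_smul, map_smul, h x]
  | add x y hx hy => rw [map_add, map_add, hx, hy]

end Pool.Agent.LibCW77
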