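import Pool.Agent.LibCW77.PI2
import Pool.Agent.LibCW77.Z1
import Pool.Agent.LibCW77.Z2
import Pool.Agent.LibCW77.F3

/-!
Independence of the pairing; the relations between the classes of the lines for all data.
-/

open scoped Classical
open Polynomial

namespace Pool.Agent.LibCW77

open Pool.Agent.LibBH2
open Pool.Agent.LibCHd (VR RF Red FunF)

variable {k : Type} [Field k] {V : Type} [AddCommGroup V] [Module ℚ V]

theorem PI3_swap : ∀ x y : Fin 3, x ≠ y → ∃ i0 : Fin 3, Equiv.swap x y i0 = i0 ∧ Equiv.swap x y (i0 + 1) = i0 + 2 ∧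
    Equiv.swap x y (i0 + 2) = i0 + 1 := by decide

/-- the same cycles for two data with the same relations -/
noncomputable def cqe {c c' : Dat k} {m d : ℕ} (e : RatEq c m d = RatEq c' m d) : CH c m d ≃+ CH c' m d :=
  QuotientAddGroup.quotientAddEquivOfEq e

theorem cqe_mk {c c' : Dat k} {m d : ℕ} (e : RatEq c m d = RatEq c' m d) (z : Cyc k m) :
    cqe e (QuotientAddGroup.mk z) = QuotientAddGroup.mk z := rfl

theorem cqe_self {c : Dat k} {m d : ℕ} (e : RatEq c m d = RatEq c m d) (q : CH c m d →+ V) :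
    q.comp (cqe e).toAddMonoidHom = q := by
  refine AddMonoidHom.ext fun x => ?_
  obtain ⟨z, rfl⟩ := QuotientAddGroup.mk_surjective x
  exact congrArg q (cqe_mk e z)

theorem cqe_comp {c c' c'' : Dat k} {m d : ℕ} (e : RatEq c m d = RatEq c' m d) (e' : RatEq c' m d = RatEq c'' m d)
    (e'' : RatEq c m d = RatEq c'' m d) (q : CH c'' m d →+ V) :
    (q.comp (cqe e').toAddMonoidHom).comp (cqe e).toAddMonoidHom = q.comp (cqe e'').toAddMonoidHom := by
  refine AddMonoidHom.ext fun x => ?_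
  obtain ⟨z, rfl⟩ := QuotientAddGroup.mk_surjective x
  change q (cqe e' (cqe e (QuotientAddGroup.mk z))) = q (cqe e'' (QuotientAddGroup.mk z))
  rw [cqe_mk, cqe_mk, cqe_mk]

/-- the classes of the lines for two pairings agree up to sign -/
theorem Lval_pg [IsAlgClosed k] [CharZero k] {c : Dat k} (hc : c.Good) {ζ ν : k} (hζ : IsPrimitiveRoot ζ c.n)
    (hν : ν ^ c.n = ∏ i, (-(kb c i) / ka c i)) (σ : Equiv.Perm (Fin 3)) :
    ∀ (c' : Dat k), c' = c.perm σ → ∀ (e : RatEq c 3 1 = RatEq c' 3 1) (q : CH c' 3 1 →+ V) (Q : Fin 2 → Option k),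
      OnC c (Q 0) (Q 1) →
      Lval c' ζ ν q Q = ((Equiv.Perm.sign σ : ℤˣ) : ℤ) • Lval c ζ ν (q.comp (cqe e).toAddMonoidHom) Q := by
  induction σ using Equiv.Perm.swap_induction_on' with
  | one =>
    intro c' h e q Q hQ
    have h0 : c' = c := h
    subst h0
    rw [Equiv.Perm.sign_one, Units.val_one, one_smul, cqe_self]
  | mul_swap f x y hxy ih =>
    intro c' h e q Q hQ
    obtain ⟨c1, hc1⟩ : ∃ c1, c1 = c.perm f := ⟨_, rfl⟩
    have h0 : c' = c1.perm (Equiv.swap x y) := by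
      rw [h, hc1]
      rfl
    obtain ⟨i0, hs0, hs1, hs2⟩ := PI3_swap x y hxy
    have hgood : c1.Good := by
      rw [hc1]
      exact perm_good hc f
    have hn1 : c1.n = c.n := by rw [hc1]; rfl
    have hζ1 : IsPrimitiveRoot ζ c1.n := by rw [hn1]; exact hζ
    have hν1 : ν ^ c1.n = ∏ i, (-(kb c1 i) / ka c1 i) := by
      rw [hc1, nu_perm]
      exact hν
    have hQ1 : OnC c1 (Q 0) (Q 1) := by
      rw [hc1]
      exact (onC_perm c f _ _).2 hQ
    have e1 : RatEq c 3 1 = RatEq c1 3 1 := by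
      rw [hc1]
      exact ratEq_perm c f 3 1
    have ih1 := ih c1 hc1 e1

    clear ih h
    subst h0
    have h3 := Lval_tr hgood hζ1 hν1 i0 (Equiv.swap x y) hs0 hs1 hs2 q Q hQ1
    have h4 := ih1 (q.comp (cpe c1 (Equiv.swap x y) 3 1).toAddMonoidHom) Q hQ
    have h5 : (q.comp (cpe c1 (Equiv.swap x y) 3 1).toAddMonoidHom).comp (cqe e1).toAddMonoidHom =
        q.comp (cqe e).toAddMonoidHom := cqe_comp e1 (ratEq_perm c1 (Equiv.swap x y) 3 1) e q
    rw [h3, h4, h5, Equiv.Perm.sign_mul, Equiv.Perm.sign_swap hxy, mul_neg, mul_one, Units.val_neg, neg_smul]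

/-- the classes of the lines for two pairings agree up to sign -/
theorem Lval_perm [IsAlgClosed k] [CharZero k] {c : Dat k} (hc : c.Good) {ζ ν : k} (hζ : IsPrimitiveRoot ζ c.n)
    (hν : ν ^ c.n = ∏ i, (-(kb c i) / ka c i)) (σ : Equiv.Perm (Fin 3)) (q : CH (c.perm σ) 3 1 →+ V)
    (Q : Fin 2 → Option k) (hQ : OnC c (Q 0) (Q 1)) :
    Lval (c.perm σ) ζ ν q Q =
      ((Equiv.Perm.sign σ : ℤˣ) : ℤ) • Lval c ζ ν (q.comp (cpe c σ 3 1).toAddMonoidHom) Q :=
  Lval_pg hc hζ hν σ (c.perm σ) rfl (ratEq_perm c σ 3 1) q Q hQ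

/-- naturality of the class of the line -/
theorem Lval_nat [IsAlgClosed k] [CharZero k] {c : Dat k} (hc : c.Good) {ζ ν : k} (hζ : IsPrimitiveRoot ζ c.n)
    (hν : ν ^ c.n = ∏ i, (-(kb c i) / ka c i)) {V' : Type} [AddCommGroup V'] [Module ℚ V'] (q : CH c 3 1 →+ V)
    (q' : CH c 3 1 →+ V') (f : V →ₗ[ℚ] V') (hf : ∀ x, f (q x) = q' x) (Q : Fin 2 → Option k)
    (hQ : OnC c (Q 0) (Q 1)) : f (Lval c ζ ν q Q) = Lval c ζ ν q' Q := by
  by_cases hu : UnR Q
  · obtain ⟨M, _, _, P, hM, hP, hcol, hfin⟩ := exists_col hc hν hQ hu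
    have h1 := mns_col hc hζ hν q hQ hM hP hcol
    have h2 := mns_col hc hζ hν q' hQ hM hP hcol
    have h3 : ((Module.finrank (pf c P) M : ℕ) : ℚ) • f (Lval c ζ ν q Q) =
        ((Module.finrank (pf c P) M : ℕ) : ℚ) • Lval c ζ ν q' Q := by
      rw [← map_smul, Nat.cast_smul_eq_nsmul, Nat.cast_smul_eq_nsmul, ← h1, ← h2, hf]
    exact smul_right_injective V' (show ((Module.finrank (pf c P) M : ℕ) : ℚ) ≠ 0 by exact_mod_cast hfin) h3
  · have h1 : Q 1 = none ∨ Q 1 = some 0 := by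
      rcases h : Q 1 with _ | y
      · exact Or.inl rfl
      · right
        by_cases hy : y = 0
        · rw [hy]
        · exact absurd ⟨y, h, hy⟩ hu
    rw [Lval_ram _ Q h1, Lval_ram _ Q h1, map_zero]

/-- the converse for all data -/
theorem line_inj' [IsAlgClosed k] [CharZero k] {c : Dat k} (hc : c.Good) {ζ ν : k}
    (hζ : IsPrimitiveRoot ζ c.n) (hν : ν ^ c.n = ∏ i, (-(kb c i) / ka c i)) {J : Type} [Fintype J] (m : J → ℤ)
    (Q : J → Fin 2 → Option k) (hQ : ∀ j, OnC c (Q j 0) (Q j 1))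
    (h : ∑ j, m j • Lval c ζ ν (qt (CH c 3 1)) (Q j) = 0) :
    IsOfFinAddOrder (∑ j, m j • (cls c 0 (pt1 (Q j)) - cls c 0 (pt1 (tau ζ (Q j))))) := by
  obtain ⟨σ, hσ⟩ := nd_some hc
  have hc' : (c.perm σ).Good := perm_good hc σ
  have hν' : ν ^ (c.perm σ).n = ∏ i, (-(kb (c.perm σ) i) / ka (c.perm σ) i) := by
    rw [nu_perm]
    exact hν
  obtain ⟨f, hf⟩ := qt_ext (cpe c σ 3 1).toAddMonoidHom
  have h1 : ∑ j, m j • Lval (c.perm σ) ζ ν (qt (CH (c.perm σ) 3 1)) (Q j) = 0 := by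
    have h2 : ∀ j, Lval (c.perm σ) ζ ν (qt (CH (c.perm σ) 3 1)) (Q j) =
        ((Equiv.Perm.sign σ : ℤˣ) : ℤ) • f (Lval c ζ ν (qt (CH c 3 1)) (Q j)) := by
      intro j
      rw [Lval_perm hc hζ hν σ _ (Q j) (hQ j), Lval_nat hc hζ hν (qt (CH c 3 1))
        ((qt (CH (c.perm σ) 3 1)).comp (cpe c σ 3 1).toAddMonoidHom) f (fun x => hf x) (Q j) (hQ j)]
    have h3 : ∑ j, m j • Lval (c.perm σ) ζ ν (qt (CH (c.perm σ) 3 1)) (Q j) =
        ((Equiv.Perm.sign σ : ℤˣ) : ℤ) • f (∑ j, m j • Lval c ζ ν (qt (CH c 3 1)) (Q j)) := by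
      rw [map_sum, Finset.smul_sum]
      refine Finset.sum_congr rfl fun j _ => ?_
      rw [h2 j, map_zsmul, smul_comm]
    rw [h3, h, map_zero, smul_zero]
  have h4 := line_inj hc' hσ hζ hν' m Q (fun j => (onC_perm c σ _ _).2 (hQ j)) h1
  have h5 : (cpe c σ 1 0) (∑ j, m j • (cls c 0 (pt1 (Q j)) - cls c 0 (pt1 (tau ζ (Q j))))) =
      ∑ j, m j • (cls (c.perm σ) 0 (pt1 (Q j)) - cls (c.perm σ) 0 (pt1 (tau ζ (Q j)))) := by
    rw [map_sum]
    refine Finset.sum_congr rfl fun j _ => ?_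
    rw [map_zsmul, map_sub, cpe_cls, cpe_cls]
  rw [← h5] at h4
  have h6 := (cpe c σ 1 0).symm.toAddMonoidHom.isOfFinAddOrder h4
  simpa using h6

end Pool.Agent.LibCW77
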