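import Pool.Agent.LibCW77.RG1

/-!
[CW77 RC] MEDIUM: comparison of leading terms, general p

The p-version of NC.lean (done: CW77_NC.lean). In `(O1 O)[X]`: `(1 + b a)(1 + b s) = 1 + b (a + s) + b ^ 2 (a s)`. By `hu` (applied to the difference of both sides, written with `cmpo_eval`, `cmpo_add`, `cmpo_lt`): coordinate `0`:
`g0 = w0 (1 + b ^ 2 cmpo (a s) 0)`; coordinate `l`, `0 < l < p`: `g0 b γ_l = w0 b (a_l + s_l + b cmpo (a s) l)`. Cancel `b ≠ 0` and `w0 ≠ 0`: `γ_l (1 + b ^ 2 ...) = a_l + s_l + b (...)` in `RatFunc k`, hence in `O1 O`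
(`Subtype.ext`), and apply `rdh O` (`rdh O (cO O b) = 0`). Coefficients `0` and `≥ p` are `0` on both sides.
-/

open scoped Classical
open Polynomial

namespace Pool.Agent.LibCW77

open Pool.Agent.LibBH2
open Pool.Agent.LibCHd (VR RF Red FunF)

variable {k : Type} [Field k]

theorem cmpp {O : ValuationSubring k} {p : ℕ} (hp : 2 ≤ p) {L : Type} [Field L] (j : RatFunc k →+* L) {v : L}
    {f : O1 O} (hv : v ^ p = j f)
    (hu : ∀ r : ℕ → RatFunc k, ∑ l ∈ Finset.range p, j (r l) * v ^ l = 0 → ∀ l < p, r l = 0)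
    {b : O} (hb : rs O b = 0) (hb0 : b ≠ 0) {g0 w0 : RatFunc k} (hw : w0 ≠ 0) {γ a s : (O1 O)[X]}
    (hγ : γ.natDegree < p ∧ γ.coeff 0 = 0) (ha : a.natDegree < p ∧ a.coeff 0 = 0)
    (hs : s.natDegree < p ∧ s.coeff 0 = 0)
    (h : j g0 * (1 + j (RatFunc.C (b : k)) * evL j v γ) =
      j w0 * ((1 + j (RatFunc.C (b : k)) * evL j v a) * (1 + j (RatFunc.C (b : k)) * evL j v s))) :
    γ.map (rdh O) = a.map (rdh O) + s.map (rdh O) := by
  have hp0 : 0 < p := by omega
  obtain ⟨φ, hφ⟩ : ∃ φ : O1 O →+* L, φ = j.comp (O1 O).subtype := ⟨_, rfl⟩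
  have hφj : ∀ x : O1 O, φ x = j (x : RatFunc k) := fun x => by rw [hφ]; rfl
  have hv' : v ^ p = φ f := by rw [hφj]; exact hv
  have hev : ∀ P : (O1 O)[X], evL j v P = ∑ l ∈ Finset.range p, φ (cmpo p f P l) * v ^ l := by
    intro P
    have h1 := cmpo_eval φ hp0 hv' P
    rw [← h1, hφ]
    rfl
  obtain ⟨b', hb'⟩ : ∃ b' : O1 O, b' = cO O b := ⟨_, rfl⟩
  have hbc : (b' : RatFunc k) = RatFunc.C (b : k) := by rw [hb']; rfl
  have hbr : rdh O b' = 0 := by rw [hb', rdh_cO, hb, map_zero]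
  have hbn : (b' : RatFunc k) ≠ 0 := by
    rw [hbc, ne_eq, map_eq_zero]
    exact fun h0 => hb0 (Subtype.ext h0)
  rw [← hbc] at h
  obtain ⟨c, hc⟩ : ∃ c : ℕ → O1 O, c = fun l => cmpo p f (a * s) l := ⟨_, rfl⟩
  -- the relation
  have key : ∀ l < p, (if l = 0 then g0 - w0 else 0) + (g0 * (b' : RatFunc k) * (γ.coeff l : RatFunc k) -
      w0 * ((b' : RatFunc k) * ((a.coeff l : RatFunc k) + (s.coeff l : RatFunc k)) +
        (b' : RatFunc k) ^ 2 * (c l : RatFunc k))) = 0 := by
    apply hu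
    have e1 : evL j v γ = ∑ l ∈ Finset.range p, j (γ.coeff l : RatFunc k) * v ^ l := by
      rw [hev]
      refine Finset.sum_congr rfl fun l hl => ?_
      rw [cmpo_lt f hγ.1 (Finset.mem_range.1 hl), hφj]
    have e2 : evL j v a = ∑ l ∈ Finset.range p, j (a.coeff l : RatFunc k) * v ^ l := by
      rw [hev]
      refine Finset.sum_congr rfl fun l hl => ?_
      rw [cmpo_lt f ha.1 (Finset.mem_range.1 hl), hφj]
    have e3 : evL j v s = ∑ l ∈ Finset.range p, j (s.coeff l : RatFunc k) * v ^ l := by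
      rw [hev]
      refine Finset.sum_congr rfl fun l hl => ?_
      rw [cmpo_lt f hs.1 (Finset.mem_range.1 hl), hφj]
    have e4 : evL j v a * evL j v s = ∑ l ∈ Finset.range p, j (c l : RatFunc k) * v ^ l := by
      rw [← map_mul, hev]
      refine Finset.sum_congr rfl fun l hl => ?_
      rw [hφj, hc]
    have e5 : ∑ l ∈ Finset.range p, j (if l = 0 then g0 - w0 else 0) * v ^ l = j g0 - j w0 := by
      rw [Finset.sum_eq_single 0]
      · rw [if_pos rfl, pow_zero, mul_one, map_sub]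
      · intro l _ hl0
        rw [if_neg hl0, map_zero, zero_mul]
      · intro h0
        exact absurd (Finset.mem_range.2 hp0) h0
    have e6 : ∑ l ∈ Finset.range p, j ((if l = 0 then g0 - w0 else 0) +
        (g0 * (b' : RatFunc k) * (γ.coeff l : RatFunc k) -
        w0 * ((b' : RatFunc k) * ((a.coeff l : RatFunc k) + (s.coeff l : RatFunc k)) +
        (b' : RatFunc k) ^ 2 * (c l : RatFunc k)))) * v ^ l =
        (j g0 - j w0) + (j g0 * j (b' : RatFunc k) * evL j v γ -
        j w0 * (j (b' : RatFunc k) * (evL j v a + evL j v s) +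
          j (b' : RatFunc k) ^ 2 * (evL j v a * evL j v s))) := by
      rw [e4, ← e5, e1, e2, e3, ← Finset.sum_add_distrib, Finset.mul_sum, Finset.mul_sum, Finset.mul_sum,
        ← Finset.sum_add_distrib, Finset.mul_sum, ← Finset.sum_sub_distrib, ← Finset.sum_add_distrib]
      refine Finset.sum_congr rfl fun l _ => ?_
      rw [map_add, map_sub, map_mul, map_mul, map_mul, map_add, map_mul, map_mul, map_add, map_pow]
      ring
    rw [e6]
    linear_combination h
  have k0 := key 0 hp0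
  rw [if_pos rfl, hγ.2, ha.2, hs.2] at k0
  have hg : g0 = w0 * (1 + (b' : RatFunc k) ^ 2 * (c 0 : RatFunc k)) := by
    have hz : ((0 : O1 O) : RatFunc k) = 0 := rfl
    rw [hz] at k0
    linear_combination k0
  have main : ∀ l, 0 < l → l < p → rdh O (γ.coeff l) = rdh O (a.coeff l) + rdh O (s.coeff l) := by
    intro l hl0 hlp
    have k1 := key l hlp
    rw [if_neg hl0.ne', hg] at k1
    have q : (γ.coeff l : RatFunc k) * (1 + (b' : RatFunc k) ^ 2 * (c 0 : RatFunc k)) =
        (a.coeff l : RatFunc k) + (s.coeff l : RatFunc k) + (b' : RatFunc k) * (c l : RatFunc k) := by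
      refine mul_left_cancel₀ (mul_ne_zero hw hbn) ?_
      linear_combination k1
    have q' : γ.coeff l * (1 + b' ^ 2 * c 0) = a.coeff l + s.coeff l + b' * c l := Subtype.ext q
    have q2 := congrArg (rdh O) q'
    rw [map_mul, map_add, map_mul, map_pow, map_add, map_add, map_mul, hbr, map_one] at q2
    linear_combination q2
  ext1
  rename_i l
  rw [coeff_add, coeff_map, coeff_map, coeff_map]
  rcases Nat.eq_zero_or_pos l with hl0 | hl0
  · rw [hl0, hγ.2, ha.2, hs.2, map_zero, add_zero]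
  · by_cases hlp : l < p
    · exact main l hl0 hlp
    · have hlp' : p ≤ l := not_lt.1 hlp
      rw [coeff_eq_zero_of_natDegree_lt (hγ.1.trans_le hlp'), coeff_eq_zero_of_natDegree_lt (ha.1.trans_le hlp'),
        coeff_eq_zero_of_natDegree_lt (hs.1.trans_le hlp'), map_zero, add_zero]

end Pool.Agent.LibCW77
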