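import Pool.Agent.LibCW77.D3
import Pool.Agent.LibCW77.D4
import Pool.Agent.LibCW77.C1
import Pool.Agent.LibCW77.GDefs
import Pool.Agent.LibEV91.Defs

/-!
[CW77 RD1] The cycle of Gross and Schoen of the curve with the exponent `e m` and of the curve with the exponent `m`.
-/

open scoped Classical
open Polynomial

namespace Pool.Agent.LibCW77

open Pool.Agent.LibBH2
open Pool.Agent.LibCHd (VR RF Red FunF)

variable {k : Type} [Field k]

/-- `(x, v) ↦ (x, v ^ e)` on the factors -/
def pwE (e : ℕ) {m : ℕ} {M : Type} [Field M] (u : Pnt m M) : Pnt m M :=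
  fun j => ![u j 0, (u j 1).map fun z => z ^ e]

theorem pwE_on {c : Dat k} {e m l : ℕ} (he : c.n = e * m) {M : Type} [Field M] [Algebra k M]
    {u : Pnt l M} (hu : On (c.over M) u) : On ((expo c m).over M) (pwE e u) := by
  intro j
  have h := hu j
  change OnC ((expo c m).over M) (u j 0) ((u j 1).map fun z => z ^ e)
  revert h
  rcases u j 0 with _ | x <;> rcases u j 1 with _ | v <;> intro h
  · exact h
  · change v ^ c.n = 1 at h
    change (v ^ e) ^ m = 1
    rw [← pow_mul, ← he, h]
  · exact h
  · change v ^ c.n * ∏ i, (x - (c.over M).b i) = ∏ i, (x - (c.over M).a i) at h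
    change (v ^ e) ^ m * ∏ i, (x - (c.over M).b i) = ∏ i, (x - (c.over M).a i)
    rw [← pow_mul, ← he, h]

theorem pwE_map (e : ℕ) {m : ℕ} {M M' : Type} [Field M] [Algebra k M] [Field M'] [Algebra k M']
    (σ : M →ₐ[k] M') (u : Pnt m M) : mpP σ (pwE e u) = pwE e (mpP σ u) := by
  funext j i
  fin_cases i
  · rfl
  · change ((u j 1).map fun z => z ^ e).map σ = ((u j 1).map σ).map fun z => z ^ e
    rcases u j 1 with _ | v
    · rfl
    · change some (σ (v ^ e)) = some (σ v ^ e)
      rw [map_pow]

private theorem RD1_sp {e m : ℕ} (he : e ≠ 0) {K : Type} [Field K] [Algebra k K] {v : Place k K}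
    {u : Pnt m K} {q : Pnt m (RF v)} (h : SpP v u q) : SpP v (pwE e u) (pwE e q) := by
  intro j i
  fin_cases i
  · exact h j 0
  · have h1 := h j 1
    change SpO v ((u j 1).map fun z => z ^ e) ((q j 1).map fun z => z ^ e)
    revert h1
    generalize u j 1 = Y
    generalize q j 1 = Q
    intro h1
    rcases Y with _ | y
    · have h2 : Q = none := h1
      rw [h2]
      rfl
    · rcases Q with _ | y0
      · have h2 : v.ord y < 0 := h1
        change v.ord (y ^ e) < 0
        rw [v.ord_pow]
        have h3 : (0 : ℤ) < (e : ℤ) := by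
          have := Nat.pos_of_ne_zero he
          exact_mod_cast this
        exact mul_neg_of_pos_of_neg h3 h2
      · have h2 : Red v y y0 := h1
        exact h2.pow e

private theorem RD1_fld (e : ℕ) {m : ℕ} {M : Type} [Field M] [Algebra k M] (u : Pnt m M) :
    fld k (pwE e u) ≤ fld k u := by
  unfold fld
  rw [IntermediateField.adjoin_le_iff]
  rintro _ ⟨⟨j, i⟩, rfl⟩
  fin_cases i
  · exact IntermediateField.subset_adjoin k _ ⟨(j, 0), rfl⟩
  · change ((u j 1).map fun z => z ^ e).getD 0 ∈ IntermediateField.adjoin k (Set.range (co u))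
    have h1 : (u j 1).getD 0 ∈ IntermediateField.adjoin k (Set.range (co u)) :=
      IntermediateField.subset_adjoin k _ ⟨(j, 1), rfl⟩
    revert h1
    rcases u j 1 with _ | v
    · intro _
      exact zero_mem _
    · intro h1
      exact pow_mem h1 e

private theorem RD1_zero (e : ℕ) {m : ℕ} {M : Type} [Field M] [Algebra k M] (u : Pnt m M)
    (h : cyc k u = 0) : cyc k (pwE e u) = 0 := by
  rw [cyc_zero_iff] at h ⊢
  have h1 := IntermediateField.finrank_dvd_of_le_left (RD1_fld (k := k) e u)
  rw [h] at h1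
  exact Nat.eq_zero_of_zero_dvd h1

/-- push-forward of cycles on `C ^ l` -/
theorem push_c (c : Dat k) (hc : c.Good) {e m : ℕ} (he : c.n = e * m) (l d : ℕ) :
    ∃ Φ : CH c l d →+ CH (expo c m) l d, ∀ (M : Type) [Field M] [Algebra k M] (u : Pnt l M), FunF k d M →
      On (c.over M) u → Φ (cls c d u) = cls (expo c m) d (pwE e u) := by
  have he0 : e ≠ 0 := by
    rintro rfl
    have := hc.two
    rw [he, zero_mul] at this
    omega
  obtain ⟨H, hH⟩ := exists_hom c d (G := CH (expo c m) l d)
    (fun M _ _ (u : Pnt l M) => cls (expo c m) d (pwE e u))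
    (by
      intro M M' _ _ _ _ σ u _ _ _
      change cls (expo c m) d (pwE e (mpP σ u)) = _
      rw [← pwE_map, cls_map])
  have hker : RatEq c l d ≤ H.ker := by
    apply desc c d H
    intro K _ _ u g S q hK hu hg hq h1 h2
    have h3 : ∑ v ∈ S, v.ord g • H (cyc k (q v)) =
        ∑ v ∈ S, v.ord g • cls (expo c m) d (pwE e (q v)) := by
      refine Finset.sum_congr rfl ?_
      intro v hv
      rw [hH (RF v) (q v) (h1 v hv) (on_sp hc hu (hq v))]
    rw [h3]
    exact div_rel (expo c m) l d hK (pwE e u) (pwE_on he hu) g hg S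
      (fun v => pwE e (q v)) (fun v => RD1_sp he0 (hq v)) h1
      (fun v hv hvg hF => RD1_zero e _ (h2 v hv hvg hF))
  refine ⟨QuotientAddGroup.lift (RatEq c l d) H hker, ?_⟩
  intro M _ _ u hM hu
  change QuotientAddGroup.lift (RatEq c l d) H hker (QuotientAddGroup.mk (cyc k u)) = _
  rw [QuotientAddGroup.lift_mk]
  exact hH M u hM hu

/-- if the cycle has infinite order for the exponent `m`, then also for the exponent `e m` -/
theorem gs_mul {c : Dat k} (hc : c.Good) {e m : ℕ} (he : c.n = e * m) (h : GSIff (expo c m) False) :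
    GSIff c False := by
  have he0 : e ≠ 0 := by
    rintro rfl
    have := hc.two
    rw [he, zero_mul] at this
    omega
  refine ⟨genC_exists hc, fun N _ _ x v hg => ⟨fun h0 => ?_, False.elim⟩⟩
  obtain ⟨Φ, hΦ⟩ := push_c c hc he 3 1
  have h1 := Φ.isOfFinAddOrder h0
  -- the subfield
  set L : IntermediateField k N := IntermediateField.adjoin k {x, v ^ e} with hL
  have hxm : x ∈ L := IntermediateField.subset_adjoin k _ (by simp)
  have hvm : v ^ e ∈ L := IntermediateField.subset_adjoin k _ (by simp)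
  have hgL : GenC (expo c m) (⟨x, hxm⟩ : L) (⟨v ^ e, hvm⟩ : L) := by
    refine ⟨?_, ?_, ?_⟩
    · show (⟨v ^ e, hvm⟩ : L) ^ m * ∏ i, ((⟨x, hxm⟩ : L) - algebraMap k L (c.b i)) =
        ∏ i, ((⟨x, hxm⟩ : L) - algebraMap k L (c.a i))
      apply L.val.injective
      rw [map_mul, map_pow, map_prod, map_prod]
      simp only [map_sub]
      show (v ^ e) ^ m * ∏ i, (x - algebraMap k N (c.b i)) = ∏ i, (x - algebraMap k N (c.a i))
      have h2 : v ^ c.n * ∏ i, (x - algebraMap k N (c.b i)) = ∏ i, (x - algebraMap k N (c.a i)) := hg.on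
      rw [← pow_mul, ← he, h2]
    · intro h2
      exact hg.tr ((isAlgebraic_algHom_iff L.val L.val.injective).2 h2)
    · apply IntermediateField.lift_injective L
      rw [IntermediateField.lift_adjoin, IntermediateField.lift_top, Set.image_pair]
  have hv : IsIntegral L v := by
    refine ⟨X ^ e - C (⟨v ^ e, hvm⟩ : L), monic_X_pow_sub_C _ he0, ?_⟩
    rw [eval₂_sub, eval₂_pow, eval₂_X, eval₂_C]
    exact sub_self _
  have htop : IntermediateField.adjoin L {v} = ⊤ := by
    rw [eq_top_iff]
    intro z _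
    have hz : z ∈ IntermediateField.adjoin k {x, v} := by rw [hg.gen]; trivial
    have hle : IntermediateField.adjoin k {x, v} ≤ (IntermediateField.adjoin L {v}).restrictScalars k := by
      rw [IntermediateField.adjoin_le_iff]
      rintro y (rfl | rfl)
      · exact (IntermediateField.adjoin L {v}).algebraMap_mem (⟨y, hxm⟩ : L)
      · exact IntermediateField.subset_adjoin L _ rfl
    exact hle hz
  have hfd : FiniteDimensional L N := by
    have h2 := IntermediateField.adjoin.finiteDimensional hv
    rw [htop] at h2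
    exact (IntermediateField.topEquiv (F := L) (E := N)).toLinearEquiv.finiteDimensional
  have hr : (Module.finrank L.val.fieldRange N : ℤ) ≠ 0 := by
    rw [IntermediateField.fieldRange_val]
    exact_mod_cast (Module.finrank_pos (R := L) (M := N)).ne'
  -- the points
  set P : Fin 2 → Option N := ![some x, some v] with hP
  set P' : Fin 2 → Option L := ![some ⟨x, hxm⟩, some ⟨v ^ e, hvm⟩] with hP'
  have hF : FunF k 1 N := (genC_funF hc hg).1
  have hPon : OnC (c.over N) (P 0) (P 1) := hg.on
  have heon : OnC (c.over N) (e0 c N 0) (e0 c N 1) := by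
    show (0 : N) ^ c.n * ∏ i, (algebraMap k N (c.a 0) - algebraMap k N (c.b i)) =
      ∏ i, (algebraMap k N (c.a 0) - algebraMap k N (c.a i))
    rw [zero_pow (by have := hc.two; omega), zero_mul, eq_comm]
    exact Finset.prod_eq_zero (Finset.mem_univ 0) (sub_self _)
  have hOn : ∀ A B C : Fin 2 → Option N, OnC (c.over N) (A 0) (A 1) → OnC (c.over N) (B 0) (B 1) →
      OnC (c.over N) (C 0) (C 1) → On (c.over N) (tri A B C) := by
    intro A B C hA hB hC j
    fin_cases j
    · exact hA
    · exact hB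
    · exact hC
  have hmP : (![P 0, (P 1).map fun z => z ^ e] : Fin 2 → Option N) = fun i => (P' i).map L.val := by
    funext i
    fin_cases i
    · rfl
    · rfl
  have hme : (![e0 c N 0, (e0 c N 1).map fun z => z ^ e] : Fin 2 → Option N) =
      fun i => (e0 (expo c m) L i).map L.val := by
    funext i
    fin_cases i
    · rfl
    · show some ((0 : N) ^ e) = some (L.val 0)
      rw [zero_pow he0, map_zero]
  have htri : ∀ (A B C : Fin 2 → Option N) (A' B' C' : Fin 2 → Option L),
      (![A 0, (A 1).map fun z => z ^ e] : Fin 2 → Option N) = (fun i => (A' i).map L.val) →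
      (![B 0, (B 1).map fun z => z ^ e] : Fin 2 → Option N) = (fun i => (B' i).map L.val) →
      (![C 0, (C 1).map fun z => z ^ e] : Fin 2 → Option N) = (fun i => (C' i).map L.val) →
      cls (expo c m) 1 (pwE e (tri A B C)) = (Module.finrank L.val.fieldRange N : ℤ) •
        cls (expo c m) 1 (tri A' B' C') := by
    intro A B C A' B' C' hA hB hC
    rw [← cls_map]
    congr 1
    funext j
    fin_cases j
    · exact hA
    · exact hB
    · exact hC
  rw [GS, map_add, map_add, map_add, map_sub, map_sub, map_sub,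
    hΦ N _ hF (hOn _ _ _ hPon hPon hPon), hΦ N _ hF (hOn _ _ _ hPon hPon heon),
    hΦ N _ hF (hOn _ _ _ hPon heon hPon), hΦ N _ hF (hOn _ _ _ heon hPon hPon),
    hΦ N _ hF (hOn _ _ _ hPon heon heon), hΦ N _ hF (hOn _ _ _ heon hPon heon),
    hΦ N _ hF (hOn _ _ _ heon heon hPon), htri _ _ _ _ _ _ hmP hmP hmP, htri _ _ _ _ _ _ hmP hmP hme,
    htri _ _ _ _ _ _ hmP hme hmP, htri _ _ _ _ _ _ hme hmP hmP, htri _ _ _ _ _ _ hmP hme hme,
    htri _ _ _ _ _ _ hme hmP hme, htri _ _ _ _ _ _ hme hme hmP, ← zsmul_sub, ← zsmul_sub, ← zsmul_sub,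
    ← zsmul_add, ← zsmul_add, ← zsmul_add] at h1
  have h2 : IsOfFinAddOrder (GS (expo c m) P') := by
    have h5 := h1
    rw [isOfFinAddOrder_iff_zsmul_eq_zero] at h5 ⊢
    obtain ⟨a, ha, h6⟩ := h5
    refine ⟨a * (Module.finrank L.val.fieldRange N : ℤ), mul_ne_zero ha hr, ?_⟩
    rw [mul_smul]
    exact h6
  exact (h.2 L _ _ hgL).mp h2

end Pool.Agent.LibCW77
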