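import Pool.Agent.LibCW77.NG1
import Pool.Agent.LibCW77.ODefs

/-!
Definitions for the p-adic theorem.
-/

open scoped Classical
open Polynomial

namespace Pool.Agent.LibCW77

open Pool.Agent.LibBH2
open Pool.Agent.LibCHd (VR RF Red FunF)

variable {k : Type} [Field k]

/-- the curve `v ^ n ∏ (x + t_i) = ∏ (x - t_i)` -/
def symN (n : ℕ) (t : Fin 3 → k) : Dat k := ⟨n, t, fun i => -t i⟩

/-- the ring of the rational functions with a reduction -/
def O1 (O : ValuationSubring k) : Subring (RatFunc k) where
  carrier := {r | ∃ r', Rd O r r'}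
  mul_mem' := fun ⟨_, h⟩ ⟨_, h'⟩ => ⟨_, rd_mul h h'⟩
  one_mem' := ⟨_, rd_one⟩
  add_mem' := fun ⟨_, h⟩ ⟨_, h'⟩ => ⟨_, rd_add h h'⟩
  zero_mem' := ⟨_, rd_zero⟩
  neg_mem' := fun ⟨_, h⟩ => ⟨_, rd_neg h⟩

/-- the reduction of a rational function -/
noncomputable def rdh (O : ValuationSubring k) : O1 O →+* RatFunc (KK O) where
  toFun r := Classical.choose r.2
  map_one' := rd_unique (Classical.choose_spec (1 : O1 O).2) rd_one
  map_mul' r s := rd_unique (Classical.choose_spec (r * s).2)
    (rd_mul (Classical.choose_spec r.2) (Classical.choose_spec s.2))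
  map_zero' := rd_unique (Classical.choose_spec (0 : O1 O).2) rd_zero
  map_add' r s := rd_unique (Classical.choose_spec (r + s).2)
    (rd_add (Classical.choose_spec r.2) (Classical.choose_spec s.2))

theorem rdh_spec {O : ValuationSubring k} (r : O1 O) : Rd O (r : RatFunc k) (rdh O r) := Classical.choose_spec r.2

theorem rdh_eq {O : ValuationSubring k} {r : O1 O} {r' : RatFunc (KK O)} (h : Rd O (r : RatFunc k) r') :
    rdh O r = r' := rd_unique (rdh_spec r) h

/-- constants -/
noncomputable def cO (O : ValuationSubring k) : O →+* O1 O where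
  toFun a := ⟨RatFunc.C (a : k), ⟨_, rd_C a⟩⟩
  map_one' := Subtype.ext (map_one RatFunc.C)
  map_mul' a b := Subtype.ext (map_mul RatFunc.C (a : k) (b : k))
  map_zero' := Subtype.ext (map_zero RatFunc.C)
  map_add' a b := Subtype.ext (map_add RatFunc.C (a : k) (b : k))

theorem rdh_cO {O : ValuationSubring k} (a : O) : rdh O (cO O a) = RatFunc.C (rs O a) := rdh_eq (rd_C a)

/-- the coordinate number `l` of `P(v)`, where `v ^ n = f` -/
noncomputable def cmpo {R : Type} [CommRing R] (n : ℕ) (f : R) (P : R[X]) (l : ℕ) : R :=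
  P.sum fun i a => if i % n = l then a * f ^ (i / n) else 0

/-- the value `P(v)` in the field `L` -/
noncomputable def evL {O : ValuationSubring k} {L : Type} [Field L] (j : RatFunc k →+* L) (v : L) :
    (O1 O)[X] →+* L := eval₂RingHom (j.comp (O1 O).subtype) v

end Pool.Agent.LibCW77
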