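import Pool.Agent.LibCW77.NDefs
import Pool.Agent.LibCW77.C1

/-!
[CW77 RE1] MEDIUM: the function field as a space over k(x), general n

The general version of NE1.lean (done for `n = 3`: CW77_NE1.lean in the store, copy and adapt): `j` from `aeval x`; `finrank_x` (C1.lean): the degree of `N` over `k(x)` is `c.n`; `v ^ n = j f`, so `1, v, ..., v ^ (n - 1)` span `N` over `k(x)` and are
`n` elements, hence independent.
-/

open scoped Classical
open Polynomial

namespace Pool.Agent.LibCW77

open Pool.Agent.LibBH2
open Pool.Agent.LibCHd (VR RF Red FunF)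

variable {k : Type} [Field k]

theorem ne_repn [CharZero k] {c : Dat k} (hc : c.Good) {N : Type} [Field N] [Algebra k N] {x v : N}
    (h : GenC c x v) :
    ∃ j : RatFunc k →+* N, (∀ p : k[X], j (algebraMap k[X] (RatFunc k) p) = aeval x p) ∧
      (∀ z : N, ∃ r : ℕ → RatFunc k, z = ∑ l ∈ Finset.range c.n, j (r l) * v ^ l) ∧
      ∀ r : ℕ → RatFunc k, ∑ l ∈ Finset.range c.n, j (r l) * v ^ l = 0 → ∀ l < c.n, r l = 0 := by
  have hn2 : 2 ≤ c.n := hc.two
  have hfin : Module.finrank (IntermediateField.adjoin k {x}) N = c.n := finrank_x hc h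
  set F := IntermediateField.adjoin k {x} with hF
  let e : RatFunc k ≃ₐ[k] F := RatFunc.algEquivOfTranscendental x h.tr
  have hfd : FiniteDimensional F N := Module.finite_of_finrank_pos (by rw [hfin]; omega)
  have hint : IsIntegral F v := Algebra.IsIntegral.isIntegral v
  have htop : IntermediateField.adjoin F {v} = ⊤ := by
    apply IntermediateField.restrictScalars_injective k
    rw [IntermediateField.restrictScalars_top]
    exact (IntermediateField.adjoin_simple_adjoin_simple k x v).trans h.gen
  have hdeg : (minpoly F v).natDegree = c.n := by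
    have h1 := IntermediateField.adjoin.finrank hint
    rw [htop, IntermediateField.finrank_top', hfin] at h1
    exact h1.symm
  have hmon : (minpoly F v).Monic := minpoly.monic hint
  let j : RatFunc k →+* N := (algebraMap F N).comp (e : RatFunc k →+* F)
  have hj : ∀ r, j r = algebraMap F N (e r) := fun _ => rfl
  refine ⟨j, ?_, ?_, ?_⟩
  · intro p
    rw [hj]
    have h1 : e (algebraMap k[X] (RatFunc k) p) = aeval (IntermediateField.AdjoinSimple.gen k x) p :=
      RatFunc.algEquivOfTranscendental_algebraMap x h.tr p
    rw [h1]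
    have h2 := Polynomial.aeval_algHom_apply F.val (IntermediateField.AdjoinSimple.gen k x) p
    exact h2.symm
  · intro z
    have hz : z ∈ (IntermediateField.adjoin F {v}).toSubalgebra := by
      rw [htop]
      trivial
    rw [IntermediateField.adjoin_simple_toSubalgebra_of_isAlgebraic hint.isAlgebraic,
      Algebra.adjoin_singleton_eq_range_aeval] at hz
    obtain ⟨q, hq⟩ := hz
    have hq' : aeval v q = z := hq
    have h1 : aeval v (q %ₘ minpoly F v) = z := by
      rw [← hq']
      exact Polynomial.aeval_modByMonic_eq_self_of_root (minpoly.aeval F v)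
    have h2 : (q %ₘ minpoly F v).natDegree < c.n := by
      rw [← hdeg]
      apply Polynomial.natDegree_modByMonic_lt _ hmon
      intro h5
      rw [h5, natDegree_one] at hdeg
      omega
    set q' := q %ₘ minpoly F v with hq'd
    refine ⟨fun l => e.symm (q'.coeff l), ?_⟩
    rw [← h1]
    conv_lhs => rw [q'.as_sum_range_C_mul_X_pow' h2]
    rw [map_sum]
    refine Finset.sum_congr rfl fun l _ => ?_
    rw [hj, e.apply_symm_apply, map_mul, map_pow, aeval_X, aeval_C]
  · intro r h0
    have h1 : aeval v (∑ l ∈ Finset.range c.n, C (e (r l)) * X ^ l : F[X]) = 0 := by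
      rw [map_sum, ← h0]
      refine Finset.sum_congr rfl fun l _ => ?_
      rw [hj, map_mul, map_pow, aeval_X, aeval_C]
    have h2 := minpoly.dvd F v h1
    have h4 : (∑ l ∈ Finset.range c.n, C (e (r l)) * X ^ l : F[X]) = 0 := by
      by_contra hne
      have h5 := natDegree_le_of_dvd h2 hne
      have h6 : (∑ l ∈ Finset.range c.n, C (e (r l)) * X ^ l : F[X]).natDegree ≤ c.n - 1 := by
        refine natDegree_sum_le_of_forall_le _ _ fun l hl => ?_
        refine (natDegree_C_mul_X_pow_le _ _).trans ?_
        have := Finset.mem_range.1 hl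
        omega
      omega
    intro l hl
    have c0 := congrArg (fun P : F[X] => P.coeff l) h4
    simp only [finsetSum_coeff, coeff_C_mul_X_pow, coeff_zero] at c0
    rw [Finset.sum_ite_eq, if_pos (Finset.mem_range.2 hl)] at c0
    exact (map_eq_zero_iff e e.injective).1 c0

end Pool.Agent.LibCW77
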