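import Pool.Agent.LibCW77.NDefs
import Pool.Agent.LibCW77.C1

/-!
[CW77 RE2] STRONG: local coordinates, general n

The general version of NE2.lean (done for `n = 3`: CW77_NE2.lean in the store). If some `r l` (`l < n`) has a pole at `a`, let `s > 0` be the largest multiplicity of `a` in the denominators; `r l = (x - a) ^ (-s) u_l`, `u_l` regular at `a`, not all `u_l(a) = 0`.
The polynomial `∑ u_l(a) T ^ l` of degree `< n` is not zero and does not vanish at all `n` numbers `b` with `b ^ n = A(a) / B(a) ≠ 0`; at the place of `(a, b)` (`placeC`) the function has the order `- s < 0`.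
-/

open scoped Classical
open Polynomial

namespace Pool.Agent.LibCW77

open Pool.Agent.LibBH2
open Pool.Agent.LibCHd (VR RF Red FunF)

variable {k : Type} [Field k]

/-- the value of a polynomial in `x` at a place -/
private theorem RE2_poly {N : Type} [Field N] [Algebra k N] {x : N} {w : Place k N} {a : k}
    (h : Red w x (algebraMap k (RF w) a)) (p : k[X]) :
    Red w (aeval x p) (algebraMap k (RF w) (p.eval a)) := by
  induction p using Polynomial.induction_on' with
  | add p q hp hq =>
    rw [map_add, eval_add, map_add]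
    exact hp.add hq
  | monomial n c =>
    rw [aeval_monomial, eval_monomial, map_mul, map_pow]
    exact (LibCHd.red_const w c).mul (h.pow n)

private theorem RE2_aeval_ne {N : Type} [Field N] [Algebra k N] {x : N} (hx : Transcendental k x)
    {p : k[X]} (hp : p ≠ 0) : aeval x p ≠ 0 := fun h => hx ⟨p, hp, h⟩

/-- clearing the pole of a rational function -/
private theorem RE2_clear {N : Type} [Field N] [Algebra k N] {x : N} (hx : Transcendental k x)
    (j : RatFunc k →+* N) (hj : ∀ p : k[X], j (algebraMap k[X] (RatFunc k) p) = aeval x p)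
    (r : RatFunc k) (a : k) (s : ℕ) (hs : r.denom.rootMultiplicity a ≤ s) :
    ∃ u : k, (∀ w : Place k N, Red w x (algebraMap k (RF w) a) →
      Red w (j r * (x - algebraMap k N a) ^ s) (algebraMap k (RF w) u)) ∧
      (0 < s → s = r.denom.rootMultiplicity a → u ≠ 0) := by
  set n := r.denom.rootMultiplicity a with hn
  set q := r.denom /ₘ (X - C a) ^ n with hq
  have h1 : (X - C a) ^ n * q = r.denom :=
    Polynomial.pow_mul_divByMonic_rootMultiplicity_eq r.denom a
  have h2 : q.eval a ≠ 0 :=
    Polynomial.eval_divByMonic_pow_rootMultiplicity_ne_zero a r.denom_ne_zero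
  have hq0 : q ≠ 0 := by
    intro h
    rw [h, eval_zero] at h2
    exact h2 rfl
  have hd0 := RE2_aeval_ne hx r.denom_ne_zero
  have hq1 := RE2_aeval_ne hx hq0
  have ht : aeval x (X - C a : k[X]) = x - algebraMap k N a := by
    rw [map_sub, aeval_X, aeval_C]
  have h3 : j r = aeval x r.num / aeval x r.denom := by
    have e := RatFunc.num_div_denom r
    rw [← hj, ← hj, ← map_div₀, e]
  have hd1 : aeval x r.denom = (x - algebraMap k N a) ^ n * aeval x q := by
    rw [← h1, map_mul, map_pow, ht]
  have h4 : j r * (x - algebraMap k N a) ^ s =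
      aeval x (r.num * (X - C a) ^ (s - n)) / aeval x q := by
    have e : (x - algebraMap k N a) ^ s =
        (x - algebraMap k N a) ^ n * (x - algebraMap k N a) ^ (s - n) := by
      rw [← pow_add]
      congr 1
      omega
    rw [h3, map_mul, map_pow, ht, e, div_mul_eq_mul_div, div_eq_div_iff hd0 hq1, hd1]
    ring
  refine ⟨(r.num * (X - C a) ^ (s - n)).eval a / q.eval a, ?_, ?_⟩
  · intro w hw
    rw [h4, map_div₀]
    refine (RE2_poly hw _).div (RE2_poly hw _) ?_
    intro h0
    exact h2 ((algebraMap k (RF w)).injective (by rw [h0, map_zero]))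
  · intro hs0 hsn
    have e : s - n = 0 := by omega
    rw [e, pow_zero, mul_one]
    refine div_ne_zero ?_ h2
    intro h5
    have hn0 : 0 < n := by omega
    have h6 : r.denom.eval a = 0 := by
      rw [← h1, eval_mul, eval_pow, eval_sub, eval_X, eval_C, sub_self, zero_pow hn0.ne', zero_mul]
    obtain ⟨A, B, hAB⟩ := r.isCoprime_num_denom
    have h7 := congrArg (Polynomial.eval a) hAB
    rw [eval_add, eval_mul, eval_mul, h5, h6, mul_zero, mul_zero, add_zero, eval_one] at h7
    exact zero_ne_one h7

/-- a polynomial of degree `< n` vanishing at the `n` numbers `ζ ^ i b` is zero -/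
private theorem RE2_vdm {n : ℕ} {ζ b : k} (hζ : IsPrimitiveRoot ζ n) (hb : b ≠ 0) (u : ℕ → k)
    (h : ∀ i < n, ∑ l ∈ Finset.range n, u l * (ζ ^ i * b) ^ l = 0) : ∀ l < n, u l = 0 := by
  set P : k[X] := ∑ l ∈ Finset.range n, C (u l) * X ^ l with hP
  have hdeg : P.degree < n := by
    rw [Polynomial.degree_lt_iff_coeff_zero]
    intro d hd
    rw [hP, Polynomial.finsetSum_coeff]
    refine Finset.sum_eq_zero fun l hl => ?_
    have hl' := Finset.mem_range.1 hl
    rw [coeff_C_mul, coeff_X_pow, if_neg (by omega), mul_zero]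
  have hev : ∀ i < n, P.eval (ζ ^ i * b) = 0 := by
    intro i hi
    rw [hP, eval_finsetSum]
    rw [← h i hi]
    refine Finset.sum_congr rfl fun l _ => ?_
    rw [eval_mul, eval_C, eval_pow, eval_X]
  have hinj : Set.InjOn (fun i : ℕ => ζ ^ i * b) (Finset.range n : Set ℕ) := by
    intro i hi i' hi' e
    exact hζ.pow_inj (Finset.mem_range.1 hi) (Finset.mem_range.1 hi') (mul_right_cancel₀ hb e)
  have h0 : P = 0 := by
    refine Polynomial.eq_zero_of_degree_lt_of_eval_finset_eq_zero
      ((Finset.range n).image fun i : ℕ => ζ ^ i * b) ?_ ?_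
    · rw [Finset.card_image_of_injOn hinj, Finset.card_range]
      exact hdeg
    · intro y hy
      obtain ⟨i, hi, rfl⟩ := Finset.mem_image.1 hy
      exact hev i (Finset.mem_range.1 hi)
  intro l hl
  have h1 : P.coeff l = u l := by
    rw [hP, finsetSum_coeff]
    rw [Finset.sum_eq_single l]
    · rw [coeff_C_mul, coeff_X_pow_self, mul_one]
    · intro m _ hm
      rw [coeff_C_mul, coeff_X_pow, if_neg (Ne.symm hm), mul_zero]
    · intro hl'
      exact absurd (Finset.mem_range.2 hl) hl'
  rw [← h1, h0, coeff_zero]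

private theorem RE2_prim (k : Type) [Field k] [IsAlgClosed k] [CharZero k] (n : ℕ) (hn : n ≠ 0) :
    ∃ ζ : k, IsPrimitiveRoot ζ n := by
  have : NeZero ((n : ℕ) : k) := ⟨by exact_mod_cast hn⟩
  exact HasEnoughRootsOfUnity.exists_primitiveRoot k n

theorem ne_locn [IsAlgClosed k] [CharZero k] {c : Dat k} (hc : c.Good) {N : Type} [Field N]
    [Algebra k N] {x v : N} (h : GenC c x v) (j : RatFunc k →+* N)
    (hj : ∀ p : k[X], j (algebraMap k[X] (RatFunc k) p) = aeval x p) {r : ℕ → RatFunc k} {a : k}
    (hA : (Ap c).eval a ≠ 0) (hB : (Bp c).eval a ≠ 0)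
    (hz : ∀ (w : Place k N) (b : k), b ^ c.n * (Bp c).eval a = (Ap c).eval a → Red w x (algebraMap k (RF w) a) →
      Red w v (algebraMap k (RF w) b) → w.Reg (∑ l ∈ Finset.range c.n, j (r l) * v ^ l)) :
    ∀ l < c.n, (r l).denom.eval a ≠ 0 := by
  intro l0 hl0 hcon
  have hn2 : 2 ≤ c.n := hc.two
  have hn0 : c.n ≠ 0 := by omega
  obtain ⟨ζ, hζ⟩ := RE2_prim k c.n hn0
  have hζn : ζ ^ c.n = 1 := hζ.pow_eq_one
  have hAe : (Ap c).eval a = ∏ i, (a - c.a i) := by
    rw [Ap, eval_prod]
    simp only [eval_sub, eval_X, eval_C]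
  have hBe : (Bp c).eval a = ∏ i, (a - c.b i) := by
    rw [Bp, eval_prod]
    simp only [eval_sub, eval_X, eval_C]
  obtain ⟨m, hm, hmax⟩ := Finset.exists_max_image (Finset.range c.n)
    (fun l => (r l).denom.rootMultiplicity a) ⟨l0, Finset.mem_range.2 hl0⟩
  set s := (r m).denom.rootMultiplicity a with hs
  have hs0 : 0 < s := by
    have h1 : 0 < (r l0).denom.rootMultiplicity a :=
      (Polynomial.rootMultiplicity_pos (r l0).denom_ne_zero).2 hcon
    exact lt_of_lt_of_le h1 (hmax l0 (Finset.mem_range.2 hl0))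
  have hcl : ∀ l : ℕ, ∃ u : k, l < c.n → ((∀ w : Place k N, Red w x (algebraMap k (RF w) a) →
      Red w (j (r l) * (x - algebraMap k N a) ^ s) (algebraMap k (RF w) u)) ∧
      (0 < s → s = (r l).denom.rootMultiplicity a → u ≠ 0)) := by
    intro l
    by_cases hl : l < c.n
    · obtain ⟨u, hu⟩ := RE2_clear h.tr j hj (r l) a s (hmax l (Finset.mem_range.2 hl))
      exact ⟨u, fun _ => hu⟩
    · exact ⟨0, fun h' => absurd h' hl⟩
  choose u hu using hcl
  -- a root
  obtain ⟨b0, hb0⟩ := IsAlgClosed.exists_pow_nat_eq ((Ap c).eval a / (Bp c).eval a)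
    (n := c.n) (Nat.pos_of_ne_zero hn0)
  have hb0' : b0 ^ c.n * (Bp c).eval a = (Ap c).eval a := by
    rw [hb0, div_mul_cancel₀ _ hB]
  have hb0ne : b0 ≠ 0 := by
    rintro rfl
    rw [zero_pow hn0, zero_mul] at hb0'
    exact hA hb0'.symm
  -- the contradiction at a point where the polynomial does not vanish
  have key : ∀ b : k, b ^ c.n * (Bp c).eval a = (Ap c).eval a →
      ∑ l ∈ Finset.range c.n, u l * b ^ l = 0 := by
    intro b hb
    by_contra hne'
    have hb1 : b ≠ 0 := by
      rintro rfl
      rw [zero_pow hn0, zero_mul] at hb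
      exact hA hb.symm
    have hQ : OnC c ((![some a, some b] : Fin 2 → Option k) 0)
        ((![some a, some b] : Fin 2 → Option k) 1) := by
      show b ^ c.n * ∏ i, (a - c.b i) = ∏ i, (a - c.a i)
      rw [← hAe, ← hBe]
      exact hb
    obtain ⟨w, ⟨hw1, hw2⟩, -, hw3, -⟩ := placeC hc (ζ := ζ) hζ h ![some a, some b] hQ
    have hx : Red w x (algebraMap k (RF w) a) := hw1
    have hv : Red w v (algebraMap k (RF w) b) := hw2
    have ht : w.ord (x - algebraMap k N a) = 1 := hw3 a b rfl rfl hb1
    have hreg := hz w b hb hx hv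
    have hsum : ∀ S : Finset ℕ, (∀ l ∈ S, l < c.n) →
        Red w ((∑ l ∈ S, j (r l) * v ^ l) * (x - algebraMap k N a) ^ s)
          (algebraMap k (RF w) (∑ l ∈ S, u l * b ^ l)) := by
      intro S
      induction S using Finset.induction_on with
      | empty =>
        intro _
        rw [Finset.sum_empty, Finset.sum_empty, zero_mul]
        have h0 := LibCHd.red_const (K := N) w (0 : k)
        rw [map_zero] at h0
        exact h0
      | insert l S hlS ih =>
        intro hS
        rw [Finset.sum_insert hlS, Finset.sum_insert hlS, add_mul, map_add]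
        refine Red.add ?_ (ih fun l' hl' => hS l' (Finset.mem_insert_of_mem hl'))
        have hl := hS l (Finset.mem_insert_self l S)
        have e : j (r l) * v ^ l * (x - algebraMap k N a) ^ s =
            j (r l) * (x - algebraMap k N a) ^ s * v ^ l := by ring
        rw [e, map_mul, map_pow]
        exact ((hu l hl).1 w hx).mul (hv.pow l)
    have hR := hsum (Finset.range c.n) (fun l hl => Finset.mem_range.1 hl)
    have hne2 : algebraMap k (RF w) (∑ l ∈ Finset.range c.n, u l * b ^ l) ≠ 0 := by
      intro h0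
      exact hne' ((algebraMap k (RF w)).injective (by rw [h0, map_zero]))
    have ho := hR.ord_eq_zero hne2
    have hn0' := hR.ne_zero hne2
    have hz0 : (∑ l ∈ Finset.range c.n, j (r l) * v ^ l) ≠ 0 := left_ne_zero_of_mul hn0'
    have ht0 : (x - algebraMap k N a) ^ s ≠ 0 := right_ne_zero_of_mul hn0'
    rw [w.ord_mul _ _ hz0 ht0, w.ord_pow, ht] at ho
    have h5 := hreg.resolve_left hz0
    have h6 : (0 : ℤ) < s := by exact_mod_cast hs0
    linarith
  have hall := RE2_vdm hζ hb0ne u (fun i _ => key (ζ ^ i * b0) (by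
    rw [mul_pow, ← pow_mul, mul_comm i c.n, pow_mul, hζn, one_pow, one_mul]
    exact hb0'))
  exact (hu m (Finset.mem_range.1 hm)).2 hs0 hs (hall m (Finset.mem_range.1 hm))

end Pool.Agent.LibCW77
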