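import Pool.Agent.LibCW77.RE1
import Pool.Agent.LibCW77.RE2

/-!
[CW77 RE3] STRONG: global coordinates, general n

The general version of NE3.lean (done for `n = 3`: CW77_NE3.lean in the store). At `a_i`: orders `n o_l + l` (`l < n`) are different modulo `n`; at `b_i`: `n o_l - l`, so `o_l ≥ 1` for `0 < l < n`. At infinity (unramified): as in NE3/RE2 with the `n` numbers `b ^ n = 1`.
Put `g l = 0` for `l ≥ n`.
-/

open scoped Classical
open Polynomial

namespace Pool.Agent.LibCW77

open Pool.Agent.LibBH2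
open Pool.Agent.LibCHd (VR RF Red FunF)

variable {k : Type} [Field k]

section aux

variable {N : Type} [Field N] [Algebra k N]

private def RE3_ge (w : Place k N) (m : ℤ) (f : N) : Prop := f = 0 ∨ m ≤ w.ord f

private theorem RE3_ge_add {w : Place k N} {m : ℤ} {f g : N} (hf : RE3_ge w m f)
    (hg : RE3_ge w m g) : RE3_ge w m (f + g) := by
  by_cases h0 : f + g = 0
  · exact Or.inl h0
  rcases hf with rfl | hf
  · simpa [RE3_ge] using hg
  rcases hg with rfl | hg
  · right
    simpa using hf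
  by_cases hf0 : f = 0
  · subst hf0
    right
    simpa using hg
  by_cases hg0 : g = 0
  · subst hg0
    right
    simpa using hf
  exact Or.inr ((le_min hf hg).trans (w.ord_add f g hf0 hg0 h0))

private theorem RE3_ge_neg {w : Place k N} {m : ℤ} {f : N} (hf : RE3_ge w m f) :
    RE3_ge w m (-f) := by
  rcases hf with rfl | hf
  · left; simp
  · right; rwa [w.ord_neg]

private theorem RE3_ge_mono {w : Place k N} {m m' : ℤ} (h : m' ≤ m) {f : N} (hf : RE3_ge w m f) :
    RE3_ge w m' f := hf.imp id (h.trans)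

private theorem RE3_ge_sum {w : Place k N} {m : ℤ} {ι : Type} (S : Finset ι) (t : ι → N)
    (h : ∀ i ∈ S, RE3_ge w m (t i)) : RE3_ge w m (∑ i ∈ S, t i) := by
  induction S using Finset.induction_on with
  | empty => left; simp
  | insert a S ha ih =>
    rw [Finset.sum_insert ha]
    exact RE3_ge_add (h a (Finset.mem_insert_self _ _))
      (ih fun i hi => h i (Finset.mem_insert_of_mem hi))

/-- terms with different orders do not cancel -/
private theorem RE3_sep {n : ℕ} {w : Place k N} (t : Fin n → N) (m : ℤ) (h : RE3_ge w m (∑ i, t i))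
    (hd : ∀ i j, i ≠ j → t i ≠ 0 → t j ≠ 0 → w.ord (t i) ≠ w.ord (t j)) (l : Fin n)
    (hl : t l ≠ 0) : m ≤ w.ord (t l) := by
  by_contra hcon
  push Not at hcon
  obtain ⟨i₀, hi₀, hmin⟩ := Finset.exists_min_image (Finset.univ.filter fun i => t i ≠ 0)
    (fun i => w.ord (t i)) ⟨l, by simp [hl]⟩
  have hti₀ : t i₀ ≠ 0 := by simpa using hi₀
  have hlt : w.ord (t i₀) < m := (hmin l (by simp [hl])).trans_lt hcon
  have h1 : RE3_ge w (w.ord (t i₀) + 1) (∑ i ∈ Finset.univ.erase i₀, t i) := by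
    refine RE3_ge_sum _ _ fun i hi => ?_
    by_cases h0 : t i = 0
    · exact Or.inl h0
    · right
      have h2 := hmin i (by simp [h0])
      have h3 := hd i₀ i (Finset.ne_of_mem_erase hi).symm hti₀ h0
      omega
  have h2 : RE3_ge w (w.ord (t i₀) + 1) (t i₀) := by
    have h3 : t i₀ = ∑ i, t i + -(∑ i ∈ Finset.univ.erase i₀, t i) := by
      rw [← Finset.add_sum_erase Finset.univ t (Finset.mem_univ i₀)]
      ring
    have h4 := RE3_ge_add (RE3_ge_mono (show w.ord (t i₀) + 1 ≤ m by omega) h) (RE3_ge_neg h1)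
    rwa [← h3] at h4
  rcases h2 with h2 | h2
  · exact hti₀ h2
  · omega

private theorem RE3_poly {w : Place k N} {x : N} {a : k} (he : 0 < w.ord (x - algebraMap k N a))
    {p : k[X]} (hp : p ≠ 0) : aeval x p ≠ 0 ∧
      w.ord (aeval x p) = w.ord (x - algebraMap k N a) * (rootMultiplicity a p : ℤ) := by
  obtain ⟨q, hq, hq'⟩ := exists_eq_pow_rootMultiplicity_mul_and_not_dvd p hp a
  have hqa : q.eval a ≠ 0 := fun h0 => hq' (dvd_iff_isRoot.2 h0)
  have hxa : x - algebraMap k N a ≠ 0 := by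
    intro h0
    rw [h0, w.ord_zero] at he
    exact lt_irrefl _ he
  have hval := Place.val_aeval (v := w) (Or.inr he : w.Zer (x - algebraMap k N a)) q
  have hq0 := Place.ne_zero_of_val hval hqa
  have hqo := Place.ord_eq_zero_of_val hval hqa
  have h1 : aeval x p = (x - algebraMap k N a) ^ rootMultiplicity a p * aeval x q := by
    conv_lhs => rw [hq]
    simp
  rw [h1]
  refine ⟨mul_ne_zero (pow_ne_zero _ hxa) hq0, ?_⟩
  rw [w.ord_mul _ _ (pow_ne_zero _ hxa) hq0, w.ord_pow, hqo]
  ring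

private theorem RE3_rat {w : Place k N} {x : N} {a : k} (he : 0 < w.ord (x - algebraMap k N a))
    (j : RatFunc k →+* N) (hj : ∀ p : k[X], j (algebraMap k[X] (RatFunc k) p) = aeval x p)
    {r : RatFunc k} (hr : r ≠ 0) : j r ≠ 0 ∧
      w.ord (j r) = w.ord (x - algebraMap k N a) *
        ((rootMultiplicity a r.num : ℤ) - rootMultiplicity a r.denom) := by
  have hn : r.num ≠ 0 := RatFunc.num_ne_zero hr
  have hd : r.denom ≠ 0 := RatFunc.denom_ne_zero r
  obtain ⟨h1, h2⟩ := RE3_poly he hn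
  obtain ⟨h3, h4⟩ := RE3_poly he hd
  have h5 : j r = aeval x r.num / aeval x r.denom := by
    conv_lhs => rw [← RatFunc.num_div_denom r]
    rw [map_div₀, hj, hj]
  rw [h5]
  refine ⟨div_ne_zero h1 h3, ?_⟩
  rw [w.ord_div _ _ h1 h3, h2, h4]
  ring

private theorem RE3_den {r : RatFunc k} {a : k}
    (h : 0 ≤ (rootMultiplicity a r.num : ℤ) - rootMultiplicity a r.denom) : r.denom.eval a ≠ 0 := by
  intro h0
  have hd : r.denom ≠ 0 := RatFunc.denom_ne_zero r
  have h1 : 0 < rootMultiplicity a r.denom := (rootMultiplicity_pos hd).2 h0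
  have h2 : r.num.eval a ≠ 0 := by
    intro h2
    obtain ⟨u, v, huv⟩ := RatFunc.isCoprime_num_denom r
    have h3 := congrArg (Polynomial.eval a) huv
    rw [eval_add, eval_mul, eval_mul, h0, h2, mul_zero, mul_zero, add_zero, eval_one] at h3
    exact zero_ne_one h3
  have h3 : rootMultiplicity a r.num = 0 := rootMultiplicity_eq_zero h2
  omega

private theorem RE3_cop {r : RatFunc k} {a : k}
    (h : 1 ≤ (rootMultiplicity a r.num : ℤ) - rootMultiplicity a r.denom) : r.num.eval a = 0 := by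
  by_contra h2
  have h3 : rootMultiplicity a r.num = 0 := rootMultiplicity_eq_zero h2
  omega

private theorem RE3_ne {n : ℕ} {o o' ε : ℤ} (hε : ε = 1 ∨ ε = -1) {i i' : ℕ} (hi : i < n) (hi' : i' < n)
    (h : (n : ℤ) * o + i * ε = n * o' + i' * ε) : i = i' := by
  have h1 : (n : ℤ) ∣ ((i : ℤ) - i') := by
    rcases hε with rfl | rfl
    · exact ⟨o' - o, by linarith⟩
    · exact ⟨o - o', by linarith⟩
  have h2 : ((i : ℤ) - i') = 0 := by
    apply Int.eq_zero_of_abs_lt_dvd h1
    rw [abs_lt]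
    constructor <;> omega
  omega

/-- a ramified point -/
private theorem RE3_ram {n : ℕ} {w : Place k N} {x v : N} {a : k} (j : RatFunc k →+* N)
    (hj : ∀ p : k[X], j (algebraMap k[X] (RatFunc k) p) = aeval x p) (r : Fin n → RatFunc k)
    (hn : 0 < n)
    (he : w.ord (x - algebraMap k N a) = n) {ε : ℤ} (hε : ε = 1 ∨ ε = -1) (hv : w.ord v = ε)
    (hz : RE3_ge w 0 (∑ l : Fin n, j (r l) * v ^ (l : ℕ))) (l : Fin n) (hl : r l ≠ 0) :
    0 ≤ (n : ℤ) * ((rootMultiplicity a (r l).num : ℤ) - rootMultiplicity a (r l).denom) + (l : ℕ) * ε := by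
  have hv0 : v ≠ 0 := by
    rintro rfl
    rw [w.ord_zero] at hv
    rcases hε with h | h <;> omega
  have hord : ∀ i : Fin n, r i ≠ 0 → j (r i) * v ^ (i : ℕ) ≠ 0 ∧ w.ord (j (r i) * v ^ (i : ℕ)) =
      n * ((rootMultiplicity a (r i).num : ℤ) - rootMultiplicity a (r i).denom) + (i : ℕ) * ε := by
    intro i hi
    obtain ⟨h1, h2⟩ := RE3_rat (w := w) (x := x) (a := a) (by rw [he]; exact_mod_cast hn) j hj hi
    refine ⟨mul_ne_zero h1 (pow_ne_zero _ hv0), ?_⟩
    rw [w.ord_mul _ _ h1 (pow_ne_zero _ hv0), w.ord_pow, h2, he, hv]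
  have hne : ∀ i : Fin n, j (r i) * v ^ (i : ℕ) ≠ 0 → r i ≠ 0 := by
    intro i hi h0
    rw [h0, map_zero, zero_mul] at hi
    exact hi rfl
  have h3 := RE3_sep (w := w) (fun l : Fin n => j (r l) * v ^ (l : ℕ)) 0 hz (by
    intro i i' hii hi hi' h5
    rw [(hord i (hne i hi)).2, (hord i' (hne i' hi')).2] at h5
    exact hii (Fin.ext (RE3_ne hε i.2 i'.2 h5))) l (hord l hl).1
  rwa [(hord l hl).2] at h3

private theorem RE3_valsum {w : Place k N} {ι : Type} (S : Finset ι) (t : ι → N) (u : ι → k)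
    (h : ∀ i ∈ S, w.Zer (t i - algebraMap k N (u i))) :
    w.Zer (∑ i ∈ S, t i - algebraMap k N (∑ i ∈ S, u i)) := by
  induction S using Finset.induction_on with
  | empty =>
    simp only [Finset.sum_empty, map_zero, sub_zero]
    left
    rfl
  | insert a S ha ih =>
    rw [Finset.sum_insert ha, Finset.sum_insert ha]
    exact Place.val_add (h a (Finset.mem_insert_self _ _))
      (ih fun i hi => h i (Finset.mem_insert_of_mem hi))

/-- points at infinity -/
private theorem RE3_inf {n : ℕ} {w : Place k N} {x v : N} {b : k} (hx : w.ord x = -1)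
    (hv : w.Zer (v - algebraMap k N b)) (P : Fin n → k[X]) (s : ℕ)
    (hP : ∀ l, (P l).natDegree ≤ s) (hb : ∑ l : Fin n, (P l).coeff s * b ^ (l : ℕ) ≠ 0) :
    w.ord (∑ l : Fin n, aeval x (P l) * v ^ (l : ℕ)) = - (s : ℤ) := by
  have hx0 : x ≠ 0 := by
    rintro rfl
    rw [w.ord_zero] at hx
    omega
  have hy : w.Zer (x⁻¹ - algebraMap k N 0) := by
    right
    rw [map_zero, sub_zero, w.ord_inv, hx]
    norm_num
  have hval : ∀ l : Fin n, w.Zer (aeval x⁻¹ (reflect s (P l)) * v ^ (l : ℕ) -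
      algebraMap k N ((P l).coeff s * b ^ (l : ℕ))) := by
    intro l
    have h1 := Place.val_aeval hy (reflect s (P l))
    have h2 : (reflect s (P l)).eval 0 = (P l).coeff s := by
      rw [← coeff_zero_eq_eval_zero, coeff_reflect, revAt_le (Nat.zero_le s), Nat.sub_zero]
    rw [h2] at h1
    exact Place.val_mul h1 (Place.val_pow hv l)
  have hrefl : ∀ l : Fin n, aeval x (P l) = x ^ s * aeval x⁻¹ (reflect s (P l)) := by
    intro l
    let _ : Invertible x := invertibleOfNonzero hx0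
    have h1 := eval₂_reflect_mul_pow (algebraMap k N) x s (P l) (hP l)
    rw [aeval_def, aeval_def, ← h1, mul_comm, invOf_eq_inv]
  have hsum : ∑ l : Fin n, aeval x (P l) * v ^ (l : ℕ) =
      x ^ s * ∑ l : Fin n, aeval x⁻¹ (reflect s (P l)) * v ^ (l : ℕ) := by
    rw [Finset.mul_sum]
    refine Finset.sum_congr rfl fun l _ => ?_
    rw [hrefl l, mul_assoc]
  have hZ : w.Zer (∑ l : Fin n, aeval x⁻¹ (reflect s (P l)) * v ^ (l : ℕ) -
      algebraMap k N (∑ l : Fin n, (P l).coeff s * b ^ (l : ℕ))) := by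
    exact RE3_valsum Finset.univ _ _ fun l _ => hval l
  have hne := Place.ne_zero_of_val hZ hb
  have ho := Place.ord_eq_zero_of_val hZ hb
  rw [hsum, w.ord_mul _ _ (pow_ne_zero _ hx0) hne, w.ord_pow, hx, ho]
  ring

private theorem RE3_const [IsAlgClosed k] {r : RatFunc k} (h : ∀ a : k, r.denom.eval a ≠ 0) :
    r = algebraMap k[X] (RatFunc k) r.num := by
  have h1 : r.denom.degree = 0 := by
    by_contra hne
    obtain ⟨a, ha⟩ := IsAlgClosed.exists_root r.denom hne
    exact h a ha
  have h2 : r.denom = 1 := by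
    have h3 := (RatFunc.monic_denom r)
    exact (Monic.degree_le_zero_iff_eq_one h3).1 h1.le
  conv_lhs => rw [← RatFunc.num_div_denom r, h2, map_one, div_one]

end aux

theorem ne_globn [IsAlgClosed k] [CharZero k] {c : Dat k} (hc : c.Good) {N : Type} [Field N]
    [Algebra k N] {x v : N} (h : GenC c x v) {z : N} (D : ℕ)
    (hz : ∀ (w : Place k N) (Q : Fin 2 → Option k), OnC c (Q 0) (Q 1) →
      SpO w (some x) ((Q 0).map (algebraMap k (RF w))) → SpO w (some v) ((Q 1).map (algebraMap k (RF w))) →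
      (if Q 0 = none then -(D : ℤ) else 0) ≤ w.ord z) :
    ∃ g : ℕ → k[X], (g 0).natDegree ≤ D ∧ (∀ l, l ≠ 0 → g l = 0 ∨ (g l).natDegree + 3 ≤ D) ∧
      z = ∑ l ∈ Finset.range c.n, aeval x (if l = 0 then g 0 else Bp c * g l) * v ^ l := by
  have hn2 := hc.two
  have hn0 : 0 < c.n := by omega
  obtain ⟨j, hj, hrep, -⟩ := ne_repn hc h
  obtain ⟨r', hzr⟩ := hrep z
  obtain ⟨ζ, hζ⟩ : ∃ ζ : k, IsPrimitiveRoot ζ c.n := by
    have : NeZero c.n := ⟨by omega⟩
    exact HasEnoughRootsOfUnity.exists_primitiveRoot k c.n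
  let r : Fin c.n → RatFunc k := fun l => r' l
  have hsum : z = ∑ l : Fin c.n, j (r l) * v ^ (l : ℕ) := by
    rw [hzr, Finset.sum_range]
  have evA : ∀ a : k, (Ap c).eval a = ∏ i, (a - c.a i) := fun a => by
    simp [Ap, eval_prod]
  have evB : ∀ a : k, (Bp c).eval a = ∏ i, (a - c.b i) := fun a => by
    simp [Bp, eval_prod]
  -- the zeros `a_i`
  have hai : ∀ (i : Fin 3) (l : Fin c.n), r l ≠ 0 →
      0 ≤ (c.n : ℤ) * ((rootMultiplicity (c.a i) (r l).num : ℤ) - rootMultiplicity (c.a i) (r l).denom) +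
        (l : ℕ) * 1 := by
    intro i l hl
    have hQ : OnC c ((![some (c.a i), some 0] : Fin 2 → Option k) 0)
        ((![some (c.a i), some 0] : Fin 2 → Option k) 1) := by
      show (0 : k) ^ c.n * ∏ i', (c.a i - c.b i') = ∏ i', (c.a i - c.a i')
      rw [zero_pow hn0.ne', zero_mul, eq_comm]
      exact Finset.prod_eq_zero (Finset.mem_univ i) (sub_self _)
    obtain ⟨w, ⟨hw1, hw2⟩, -, -, -, hw3, -, -⟩ := placeC hc hζ h _ hQ
    obtain ⟨hw4, hw5⟩ := hw3 i rfl
    have hzw := hz w _ hQ hw1 hw2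
    rw [if_neg (by simp)] at hzw
    refine RE3_ram (w := w) (x := x) (v := v) j hj r hn0 hw4 (Or.inl rfl) hw5 ?_ l hl
    rw [← hsum]
    exact Or.inr hzw
  have hbi : ∀ (i : Fin 3) (l : Fin c.n), r l ≠ 0 →
      0 ≤ (c.n : ℤ) * ((rootMultiplicity (c.b i) (r l).num : ℤ) - rootMultiplicity (c.b i) (r l).denom) +
        (l : ℕ) * (-1) := by
    intro i l hl
    have hQ : OnC c ((![some (c.b i), none] : Fin 2 → Option k) 0)
        ((![some (c.b i), none] : Fin 2 → Option k) 1) := ⟨i, rfl⟩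
    obtain ⟨w, ⟨hw1, hw2⟩, -, -, -, -, hw3, -⟩ := placeC hc hζ h _ hQ
    obtain ⟨hw4, hw5⟩ := hw3 i rfl
    have hzw := hz w _ hQ hw1 hw2
    rw [if_neg (by simp)] at hzw
    refine RE3_ram (w := w) (x := x) (v := v) j hj r hn0 hw4 (Or.inr rfl) hw5 ?_ l hl
    rw [← hsum]
    exact Or.inr hzw
  -- all other points
  have hloc : ∀ (a : k) (l : Fin c.n), (Ap c).eval a ≠ 0 → (Bp c).eval a ≠ 0 →
      (r l).denom.eval a ≠ 0 := by
    intro a l hA hB
    have h4 := ne_locn hc h j hj (r := r') hA hB (by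
      intro w b hb hw1 hw2
      have hQ : OnC c ((![some a, some b] : Fin 2 → Option k) 0)
          ((![some a, some b] : Fin 2 → Option k) 1) := by
        show b ^ c.n * ∏ i', (a - c.b i') = ∏ i', (a - c.a i')
        rw [← evA, ← evB]
        exact hb
      have hzw := hz w _ hQ hw1 hw2
      rw [if_neg (by simp)] at hzw
      rw [← hzr]
      exact Or.inr hzw)
    exact h4 l l.2
  have hden : ∀ (l : Fin c.n) (a : k), (r l).denom.eval a ≠ 0 := by
    intro l a
    by_cases hl : r l = 0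
    · rw [hl, RatFunc.denom_zero, eval_one]
      exact one_ne_zero
    by_cases hA : (Ap c).eval a = 0
    · rw [evA, Finset.prod_eq_zero_iff] at hA
      obtain ⟨i, _, hi⟩ := hA
      rw [sub_eq_zero] at hi
      subst hi
      have h5 := hai i l hl
      have h6 : ((l : ℕ) : ℤ) < c.n := by exact_mod_cast l.2
      refine RE3_den ?_
      by_contra h7
      push Not at h7
      nlinarith
    by_cases hB : (Bp c).eval a = 0
    · rw [evB, Finset.prod_eq_zero_iff] at hB
      obtain ⟨i, _, hi⟩ := hB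
      rw [sub_eq_zero] at hi
      subst hi
      have h5 := hbi i l hl
      have h6 : (0 : ℤ) < c.n := by exact_mod_cast hn0
      refine RE3_den ?_
      by_contra h7
      push Not at h7
      nlinarith
    exact hloc a l hA hB
  let P : Fin c.n → k[X] := fun l => (r l).num
  have hP : ∀ l, r l = algebraMap k[X] (RatFunc k) (P l) := fun l => RE3_const (hden l)
  have hjP : ∀ l, j (r l) = aeval x (P l) := fun l => by rw [hP l, hj]
  have hsumP : z = ∑ l : Fin c.n, aeval x (P l) * v ^ (l : ℕ) := by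
    rw [hsum]
    exact Finset.sum_congr rfl fun l _ => by rw [hjP l]
  -- the degrees
  have hdeg : ∀ l, (P l).natDegree ≤ D := by
    by_contra hcon
    push Not at hcon
    obtain ⟨l₁, hl₁⟩ := hcon
    have hne : Nonempty (Fin c.n) := ⟨l₁⟩
    obtain ⟨l₀, hl₀⟩ := Finite.exists_max fun l => (P l).natDegree
    have hDlt : D < (P l₀).natDegree := hl₁.trans_le (hl₀ l₁)
    obtain ⟨b, hb3, hb⟩ : ∃ b : k, b ^ c.n = 1 ∧
        ∑ l : Fin c.n, (P l).coeff (P l₀).natDegree * b ^ (l : ℕ) ≠ 0 := by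
      by_contra hno
      push Not at hno
      let q : k[X] := ∑ l : Fin c.n, C ((P l).coeff (P l₀).natDegree) * X ^ (l : ℕ)
      have hq0 : q = 0 := by
        refine eq_zero_of_natDegree_lt_card_of_eval_eq_zero q
          (f := fun i : Fin c.n => ζ ^ (i : ℕ)) ?_ ?_ ?_
        · intro i i' hii
          have h6 := hζ.pow_inj i.2 i'.2 hii
          exact Fin.ext h6
        · intro i
          have h6 := hno (ζ ^ (i : ℕ)) (by
            rw [← pow_mul, mul_comm, pow_mul, hζ.pow_eq_one, one_pow])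
          simpa [q, eval_finsetSum] using h6
        · rw [Fintype.card_fin]
          have h7 : q.natDegree ≤ c.n - 1 := by
            refine natDegree_sum_le_of_forall_le _ _ fun l _ => ?_
            refine (natDegree_C_mul_X_pow_le _ _).trans ?_
            have := l.2
            omega
          omega
      have h6 : q.coeff (l₀ : ℕ) = (P l₀).coeff (P l₀).natDegree := by
        simp only [q, finsetSum_coeff, coeff_C_mul_X_pow]
        rw [Finset.sum_eq_single l₀]
        · simp
        · intro l _ hl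
          rw [if_neg]
          intro h7
          exact hl (Fin.ext h7.symm)
        · simp
      rw [hq0, coeff_zero, coeff_natDegree, eq_comm, leadingCoeff_eq_zero] at h6
      rw [h6, natDegree_zero] at hDlt
      exact absurd hDlt (Nat.not_lt_zero _)
    have hQ : OnC c ((![none, some b] : Fin 2 → Option k) 0)
        ((![none, some b] : Fin 2 → Option k) 1) := hb3
    obtain ⟨w, ⟨hw1, hw2⟩, -, -, hw3, -, -, -⟩ := placeC hc hζ h _ hQ
    have hzw := hz w _ hQ hw1 hw2
    rw [if_pos (by simp)] at hzw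
    have hvb : w.Zer (v - algebraMap k N b) := LibCHd.red_iff_val.1 hw2
    have h6 := RE3_inf (hw3 rfl) hvb P (P l₀).natDegree hl₀ hb
    rw [← hsumP] at h6
    omega
  -- divisibility
  have hBm : (Bp c).Monic := monic_prod_of_monic _ _ fun i _ => monic_X_sub_C _
  have hBd : (Bp c).natDegree = 3 := by
    unfold Bp
    rw [natDegree_prod_of_monic _ _ fun i _ => monic_X_sub_C _]
    simp
  have hdvd : ∀ l : Fin c.n, 0 < (l : ℕ) → ∃ g : k[X], P l = Bp c * g := by
    intro l hl
    by_cases hr : r l = 0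
    · refine ⟨0, ?_⟩
      show (r l).num = _
      rw [hr, RatFunc.num_zero, mul_zero]
    have h6 : Bp c ∣ P l := by
      unfold Bp
      refine Finset.prod_dvd_of_coprime ?_ ?_
      · have hinj : Function.Injective c.b := by
          intro i i' hii
          have h7 := hc.inj (a₁ := Sum.inr i) (a₂ := Sum.inr i') hii
          exact Sum.inr.inj h7
        exact (pairwise_coprime_X_sub_C hinj).set_pairwise _
      · intro i _
        rw [dvd_iff_isRoot]
        have h7 := hbi i l hr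
        have h8 : (0 : ℤ) < (l : ℕ) := by exact_mod_cast hl
        have h9 : (0 : ℤ) < c.n := by exact_mod_cast hn0
        refine RE3_cop ?_
        by_contra h10
        push Not at h10
        nlinarith
    exact h6
  have hdvd' : ∀ l : ℕ, ∃ g : k[X], l ≠ 0 → (g = 0 ∨ g.natDegree + 3 ≤ D) ∧
      ∀ hl : l < c.n, P ⟨l, hl⟩ = Bp c * g := by
    intro l
    by_cases hl : l < c.n
    · by_cases h0 : l = 0
      · exact ⟨0, fun h1 => absurd h0 h1⟩
      · obtain ⟨g, hg⟩ := hdvd ⟨l, hl⟩ (Nat.pos_of_ne_zero h0)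
        refine ⟨g, fun _ => ⟨?_, fun _ => hg⟩⟩
        by_cases hg0 : g = 0
        · exact Or.inl hg0
        · right
          have h6 := hdeg ⟨l, hl⟩
          rw [hg, natDegree_mul hBm.ne_zero hg0, hBd] at h6
          omega
    · exact ⟨0, fun _ => ⟨Or.inl rfl, fun h1 => absurd h1 hl⟩⟩
  choose g hg using hdvd'
  obtain ⟨G, hG0, hG1⟩ : ∃ G : ℕ → k[X], G 0 = P ⟨0, hn0⟩ ∧ ∀ l, l ≠ 0 → G l = g l :=
    ⟨fun l => if l = 0 then P ⟨0, hn0⟩ else g l, if_pos rfl, fun l hl => if_neg hl⟩
  refine ⟨G, ?_, ?_, ?_⟩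
  · rw [hG0]
    exact hdeg _
  · intro l hl
    rw [hG1 l hl]
    exact (hg l hl).1
  · rw [hsumP, Finset.sum_range]
    refine Finset.sum_congr rfl fun l _ => ?_
    by_cases hl : (l : ℕ) = 0
    · rw [if_pos hl, hG0]
      have h6 : l = ⟨0, hn0⟩ := Fin.ext hl
      rw [h6]
    · rw [if_neg hl, hG1 _ hl, ← (hg l hl).2 l.2]

end Pool.Agent.LibCW77
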