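import Pool.Agent.LibCW77.NDefs
import Pool.Agent.LibCW77.C1

/-!
[CW77 RE5] MEDIUM: the order of v - b

As NE5.lean (CW77_NE5.lean in the store; there `n = 3`). If `b' ≠ b`: `v - b` has the value `b' - b ≠ 0` at `w`. If `b' = b`, `a = y`: `v ^ n - b ^ n = (v - b) S`, `S = ∑ v ^ i b ^ (n - 1 - i)` with the value `n b ^ (n - 1) ≠ 0` (`mul_geom_sum`/`Commute.geom_sum₂_mul`), and
`(v ^ n - b ^ n) B(x) B(y) = A(x) B(y) - A(y) B(x) = (x - y) U(x)`, `U(y) = (A' B - A B')(y) ≠ 0`; `w.ord (x - y) = 1` (`placeC`).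
-/

open scoped Classical
open Polynomial

namespace Pool.Agent.LibCW77

open Pool.Agent.LibBH2
open Pool.Agent.LibCHd (VR RF Red FunF)

variable {k : Type} [Field k]

private theorem RE5_prim [IsAlgClosed k] [CharZero k] (n : ℕ) (hn : n ≠ 0) :
    ∃ ζ : k, IsPrimitiveRoot ζ n := by
  have : NeZero n := ⟨hn⟩
  have : NeZero ((n : ℕ) : k) := ⟨by exact_mod_cast hn⟩
  exact HasEnoughRootsOfUnity.exists_primitiveRoot k n

private theorem RE5_evA (c : Dat k) (a : k) : (Ap c).eval a = ∏ i, (a - c.a i) := by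
  unfold Ap
  rw [eval_prod]
  simp

private theorem RE5_evB (c : Dat k) (a : k) : (Bp c).eval a = ∏ i, (a - c.b i) := by
  unfold Bp
  rw [eval_prod]
  simp

private theorem RE5_aeA (c : Dat k) {N : Type} [Field N] [Algebra k N] (x : N) :
    aeval x (Ap c) = ∏ i, (x - algebraMap k N (c.a i)) := by
  unfold Ap
  rw [map_prod]
  simp

private theorem RE5_aeB (c : Dat k) {N : Type} [Field N] [Algebra k N] (x : N) :
    aeval x (Bp c) = ∏ i, (x - algebraMap k N (c.b i)) := by
  unfold Bp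
  rw [map_prod]
  simp

/-- the order of `v - b` -/
private theorem RE5_one [IsAlgClosed k] [CharZero k] {c : Dat k} (hc : c.Good)
    {N : Type} [Field N] [Algebra k N] {x v : N} (h : GenC c x v) {a b : k}
    (hW : (Wp c).eval a ≠ 0)
    (hA : (Ap c).eval a ≠ 0) (hB : (Bp c).eval a ≠ 0) (hb : b ^ c.n * (Bp c).eval a = (Ap c).eval a)
    (w : Place k N) (hx : Red w x (algebraMap k (RF w) a))
    (hv : Red w v (algebraMap k (RF w) b)) :
    v - algebraMap k N b ≠ 0 ∧ w.ord (v - algebraMap k N b) = 1 := by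
  have hn0 : c.n ≠ 0 := by
    have := hc.two
    omega
  have hb0 : b ≠ 0 := by
    rintro rfl
    rw [zero_pow hn0, zero_mul] at hb
    exact hA hb.symm
  obtain ⟨ζ, hζ⟩ := RE5_prim (k := k) c.n hn0
  have hQ : OnC c (some a) (some b) := by
    show b ^ c.n * ∏ i, (a - c.b i) = ∏ i, (a - c.a i)
    rw [← RE5_evA, ← RE5_evB]
    exact hb
  obtain ⟨w', -, -, h4, -, -, -, h5⟩ := placeC hc hζ h ![some a, some b] hQ
  have hww : w = w' := h5 w hx hv
  have hxa : w.ord (x - algebraMap k N a) = 1 := by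
    rw [hww]
    exact h4 a b rfl rfl hb0
  have hx' := LibCHd.red_iff_val.1 hx
  have hv' := LibCHd.red_iff_val.1 hv
  have hxa0 : x - algebraMap k N a ≠ 0 := by
    intro h0
    rw [h0, w.ord_zero] at hxa
    exact zero_ne_one hxa
  -- the factor
  have hroot : (Ap c * C ((Bp c).eval a) - C ((Ap c).eval a) * Bp c).IsRoot a := by
    rw [IsRoot.def]
    simp
  obtain ⟨U, hU⟩ := dvd_iff_isRoot.2 hroot
  have hU0 : U.eval a ≠ 0 := by
    intro h0
    apply hW
    have h6 := congrArg (fun P => eval a (derivative P)) hU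
    simp only [derivative_sub, derivative_mul, derivative_C, mul_zero, add_zero, zero_mul, zero_add,
      derivative_X, sub_zero, one_mul, eval_sub, eval_mul, eval_C, eval_add, eval_X, sub_self, h0] at h6
    unfold Wp
    simp only [eval_mul, eval_sub]
    have h7 : eval a (derivative (Ap c)) * eval a (Bp c) - eval a (Ap c) * eval a (derivative (Bp c)) = 0 := h6
    rw [h7, mul_zero]
  have hUx := Place.val_aeval hx' U
  have hBx := Place.val_aeval hx' (Bp c)
  have hUo := Place.ord_eq_zero_of_val hUx hU0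
  have hUn := Place.ne_zero_of_val hUx hU0
  have hBo := Place.ord_eq_zero_of_val hBx hB
  have hBn := Place.ne_zero_of_val hBx hB
  have hBa : algebraMap k N ((Bp c).eval a) ≠ 0 := by
    simpa using hB
  have hq := Place.val_aeval hv' (∑ i ∈ Finset.range c.n, (X : k[X]) ^ i * C b ^ (c.n - 1 - i))
  have hqe : aeval v (∑ i ∈ Finset.range c.n, (X : k[X]) ^ i * C b ^ (c.n - 1 - i))
      = ∑ i ∈ Finset.range c.n, v ^ i * algebraMap k N b ^ (c.n - 1 - i) := by
    rw [map_sum]
    refine Finset.sum_congr rfl fun i _ => ?_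
    rw [map_mul, map_pow, map_pow, aeval_X, aeval_C]
  have hq0 : (∑ i ∈ Finset.range c.n, (X : k[X]) ^ i * C b ^ (c.n - 1 - i)).eval b ≠ 0 := by
    have : (∑ i ∈ Finset.range c.n, (X : k[X]) ^ i * C b ^ (c.n - 1 - i)).eval b
        = (c.n : k) * b ^ (c.n - 1) := by
      rw [eval_finsetSum]
      simp only [eval_mul, eval_pow, eval_X, eval_C]
      exact geom_sum₂_self b c.n
    rw [this]
    exact mul_ne_zero (by exact_mod_cast hn0) (pow_ne_zero _ hb0)
  rw [hqe] at hq
  have hqo := Place.ord_eq_zero_of_val hq hq0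
  have hqn := Place.ne_zero_of_val hq hq0
  have hon : v ^ c.n * aeval x (Bp c) = aeval x (Ap c) := by
    have h6 : v ^ c.n * ∏ i, (x - algebraMap k N (c.b i)) = ∏ i, (x - algebraMap k N (c.a i)) := h.on
    rw [RE5_aeA, RE5_aeB]
    exact h6
  have hUe := congrArg (fun P => aeval x P) hU
  simp only [map_sub, map_mul, aeval_C, aeval_X] at hUe
  have hbN : algebraMap k N b ^ c.n * algebraMap k N ((Bp c).eval a) = algebraMap k N ((Ap c).eval a) := by
    rw [← hb, map_mul, map_pow]
  have hgs : (∑ i ∈ Finset.range c.n, v ^ i * algebraMap k N b ^ (c.n - 1 - i)) *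
      (v - algebraMap k N b) = v ^ c.n - algebraMap k N b ^ c.n :=
    (Commute.all v (algebraMap k N b)).geom_sum₂_mul c.n
  have key : (v - algebraMap k N b) * ((∑ i ∈ Finset.range c.n, v ^ i * algebraMap k N b ^ (c.n - 1 - i)) *
      (aeval x (Bp c) * algebraMap k N ((Bp c).eval a))) =
      (x - algebraMap k N a) * aeval x U := by
    rw [← hUe, ← hon, ← hbN]
    have : (v - algebraMap k N b) * ((∑ i ∈ Finset.range c.n, v ^ i * algebraMap k N b ^ (c.n - 1 - i)) *
      (aeval x (Bp c) * algebraMap k N ((Bp c).eval a))) =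
      ((∑ i ∈ Finset.range c.n, v ^ i * algebraMap k N b ^ (c.n - 1 - i)) * (v - algebraMap k N b)) *
      (aeval x (Bp c) * algebraMap k N ((Bp c).eval a)) := by ring
    rw [this, hgs]
    ring
  have hrn : (x - algebraMap k N a) * aeval x U ≠ 0 := mul_ne_zero hxa0 hUn
  have hvn : v - algebraMap k N b ≠ 0 := by
    intro h0
    rw [h0, zero_mul] at key
    exact hrn key.symm
  refine ⟨hvn, ?_⟩
  have h6 := congrArg w.ord key
  rw [w.ord_mul _ _ hvn (mul_ne_zero hqn (mul_ne_zero hBn hBa)), w.ord_mul _ _ hqn (mul_ne_zero hBn hBa),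
    w.ord_mul _ _ hBn hBa, w.ord_mul _ _ hxa0 hUn, hqo, hBo, w.ord_const _ hB, hUo, hxa] at h6
  simpa using h6

theorem ne_ordn [IsAlgClosed k] [CharZero k] {c : Dat k} (hc : c.Good) {N : Type} [Field N]
    [Algebra k N] {x v : N} (h : GenC c x v) {y b a b' : k} (hyb : b ^ c.n * (Bp c).eval y = (Ap c).eval y)
    (hW : (Wp c).eval y ≠ 0) (hA : (Ap c).eval a ≠ 0) (hB : (Bp c).eval a ≠ 0)
    (hb : b' ^ c.n * (Bp c).eval a = (Ap c).eval a) (hinj : b' = b → a = y) (w : Place k N)
    (hx : Red w x (algebraMap k (RF w) a)) (hv : Red w v (algebraMap k (RF w) b')) :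
    v - algebraMap k N b ≠ 0 ∧ w.ord (v - algebraMap k N b) = if b' = b then 1 else 0 := by
  by_cases h1 : b' = b
  · rw [if_pos h1]
    have h2 := hinj h1
    subst h2
    subst h1
    exact RE5_one hc h hW hA hB hb w hx hv
  · rw [if_neg h1]
    have hv' := LibCHd.red_iff_val.1 hv
    have h6 := Place.val_sub hv' (Place.val_const (v := w) b)
    have h7 : b' - b ≠ 0 := sub_ne_zero.2 h1
    exact ⟨Place.ne_zero_of_val h6 h7, Place.ord_eq_zero_of_val h6 h7⟩

end Pool.Agent.LibCW77
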