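import Pool.Agent.LibCW77.RDefs

/-!
[CW77 RF] STRONG: final argument over the residue field, general (Mathlib only)

Models: NF.lean (`fin_arg`, `div_arg`: CW77_NF.lean in the store) and NT6.lean (`NT_first`, `NT_inv`), NT1.lean (`NT_reg_of`, `NT_reg_mul`, `NT_sub`), all in CW77N_v2.tar; copy what you need with your own names (private RF_...). `f = A / B`,
`f - f(t) = (X - t) u / (B(t) B)` with `u(t) ≠ 0`. `firstp`: from the equation at `t i`: `(X - t_i) ^ M` divides `P 0`, and `B * P l`, so `P l` (`B(t_i) ≠ 0`); product over `i` (coprime: `ht`): `(∏ (X - t_i)) ^ M` of degree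
`card ι * M` divides `P l`: so `P l = 0` for `l ≠ 0` (degrees) and `P 0` is a constant times it (`P 0 ≠ 0` by `hne`). `fin_argp`: `γ * (f - f(t_i))` is regular at `t_i`, so `(X - t_i) ^ (M - 1) ∣ h` (`B(t_i) ≠ 0`), for all `i`: degree `card ι * (M - 1)`:
`h = 0`, `γ = 0`; then `a i = - c i / (f - f(t_i))` is regular at `t_i` only if `c i = 0`. (`ι` empty: `hdeg` gives `h = 0`.) `invp`: as `NT_inv` in NT6.lean.
-/

open scoped Classical
open Polynomial

namespace Pool.Agent.LibCW77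

open Pool.Agent.LibBH2
open Pool.Agent.LibCHd (VR RF Red FunF)

variable {k : Type} [Field k]

/-- the rational function `r` is regular at `y`, with the value `c` -/
private def RF_val {κ : Type} [Field κ] (y : κ) (r : RatFunc κ) (c : κ) : Prop :=
  ∃ p q : κ[X], q.eval y ≠ 0 ∧ r * algebraMap κ[X] (RatFunc κ) q = algebraMap κ[X] (RatFunc κ) p ∧
    p.eval y = c * q.eval y

private theorem RF_inj {κ : Type} [Field κ] : Function.Injective (algebraMap κ[X] (RatFunc κ)) :=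
  IsFractionRing.injective _ _

private theorem RF_poly {κ : Type} [Field κ] (y : κ) (p : κ[X]) :
    RF_val y (algebraMap κ[X] (RatFunc κ) p) (p.eval y) :=
  ⟨p, 1, by simp, by simp, by simp⟩

private theorem RF_add {κ : Type} [Field κ] {y : κ} {r s : RatFunc κ} {c d : κ} (hr : RF_val y r c)
    (hs : RF_val y s d) : RF_val y (r + s) (c + d) := by
  obtain ⟨p, q, hq, h1, h2⟩ := hr
  obtain ⟨p', q', hq', h1', h2'⟩ := hs
  refine ⟨p * q' + p' * q, q * q', ?_, ?_, ?_⟩
  · rw [eval_mul]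
    exact mul_ne_zero hq hq'
  · rw [map_mul, map_add, map_mul, map_mul, ← h1, ← h1']
    ring
  · rw [eval_mul, eval_add, eval_mul, eval_mul, h2, h2']
    ring

private theorem RF_mul {κ : Type} [Field κ] {y : κ} {r s : RatFunc κ} {c d : κ} (hr : RF_val y r c)
    (hs : RF_val y s d) : RF_val y (r * s) (c * d) := by
  obtain ⟨p, q, hq, h1, h2⟩ := hr
  obtain ⟨p', q', hq', h1', h2'⟩ := hs
  refine ⟨p * p', q * q', ?_, ?_, ?_⟩
  · rw [eval_mul]
    exact mul_ne_zero hq hq'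
  · rw [map_mul, map_mul, ← h1, ← h1']
    ring
  · rw [eval_mul, eval_mul, h2, h2']
    ring

private theorem RF_pow {κ : Type} [Field κ] {y : κ} {r : RatFunc κ} {c : κ} (hr : RF_val y r c) (n : ℕ) :
    RF_val y (r ^ n) (c ^ n) := by
  induction n with
  | zero =>
    rw [pow_zero, pow_zero]
    have h := RF_poly y (1 : κ[X])
    rwa [map_one, eval_one] at h
  | succ n ih =>
    rw [pow_succ, pow_succ]
    exact RF_mul ih hr

private theorem RF_uniq {κ : Type} [Field κ] {y : κ} {r : RatFunc κ} {c d : κ} (hr : RF_val y r c)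
    (hs : RF_val y r d) : c = d := by
  obtain ⟨p, q, hq, h1, h2⟩ := hr
  obtain ⟨p', q', hq', h1', h2'⟩ := hs
  have h3 : p * q' = p' * q := by
    apply RF_inj
    rw [map_mul, map_mul, ← h1, ← h1']
    ring
  have h4 := congrArg (eval y) h3
  rw [eval_mul, eval_mul, h2, h2'] at h4
  have h5 : (c - d) * (q.eval y * q'.eval y) = 0 := by linear_combination h4
  rcases mul_eq_zero.1 h5 with h6 | h6
  · exact sub_eq_zero.1 h6
  · exact absurd h6 (mul_ne_zero hq hq')

private theorem RF_C {κ : Type} [Field κ] (y c : κ) : RF_val y (RatFunc.C c) c := by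
  have h := RF_poly y (C c)
  rwa [eval_C, RatFunc.algebraMap_C] at h

private theorem RF_denom {κ : Type} [Field κ] {y : κ} {r : RatFunc κ} (h : r.denom.eval y ≠ 0) :
    ∃ c, RF_val y r c := by
  refine ⟨r.num.eval y / r.denom.eval y, r.num, r.denom, h, ?_, ?_⟩
  · have h1 : algebraMap κ[X] (RatFunc κ) r.denom ≠ 0 := by
      rw [Ne, map_eq_zero_iff _ RF_inj]
      exact r.denom_ne_zero
    have h2 := RatFunc.num_div_denom r
    rw [div_eq_iff h1] at h2
    exact h2.symm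
  · rw [div_mul_cancel₀ _ h]

private theorem RF_aeval {κ : Type} [Field κ] {y : κ} {r : RatFunc κ} {c : κ} (hr : RF_val y r c) (P : κ[X]) :
    RF_val y (aeval r P) (P.eval c) := by
  induction P using Polynomial.induction_on' with
  | add p q hp hq =>
    rw [map_add, eval_add]
    exact RF_add hp hq
  | monomial n a =>
    rw [aeval_monomial, eval_monomial]
    exact RF_mul (RF_C y a) (RF_pow hr n)

private theorem RF_f {κ : Type} [Field κ] {A B : κ[X]} {y : κ} (hB : B.eval y ≠ 0) :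
    RF_val y (algebraMap κ[X] (RatFunc κ) A / algebraMap κ[X] (RatFunc κ) B) (A.eval y / B.eval y) := by
  have hB0 : algebraMap κ[X] (RatFunc κ) B ≠ 0 := by
    rw [Ne, map_eq_zero_iff _ RF_inj]
    rintro rfl
    exact hB eval_zero
  exact ⟨A, B, hB, div_mul_cancel₀ _ hB0, (div_mul_cancel₀ _ hB).symm⟩

private theorem RF_delta {κ : Type} [Field κ] {A B : κ[X]} {y : κ} (hB : B.eval y ≠ 0) :
    RF_val y (algebraMap κ[X] (RatFunc κ) A / algebraMap κ[X] (RatFunc κ) B -
      RatFunc.C (A.eval y / B.eval y)) 0 := by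
  have h := RF_add (RF_f (A := A) hB) (RF_C y (-(A.eval y / B.eval y)))
  rwa [map_neg, ← sub_eq_add_neg, ← sub_eq_add_neg, sub_self] at h

private theorem RF_N {κ : Type} [Field κ] {A B : κ[X]} {y : κ} (hB : B.eval y ≠ 0)
    (hW : (derivative A * B - A * derivative B).eval y ≠ 0) :
    ∃ u : κ[X], u.eval y ≠ 0 ∧ (algebraMap κ[X] (RatFunc κ) A / algebraMap κ[X] (RatFunc κ) B -
      RatFunc.C (A.eval y / B.eval y)) * algebraMap κ[X] (RatFunc κ) (C (B.eval y) * B) =
        algebraMap κ[X] (RatFunc κ) ((X - C y) * u) := by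
  obtain ⟨N, hN⟩ : ∃ N : κ[X], N = C (B.eval y) * A - C (A.eval y) * B := ⟨_, rfl⟩
  have h0 : N.IsRoot y := by
    rw [IsRoot, hN, eval_sub, eval_mul, eval_mul, eval_C, eval_C]
    ring
  obtain ⟨u, hu⟩ := dvd_iff_isRoot.2 h0
  have hB0 : algebraMap κ[X] (RatFunc κ) B ≠ 0 := by
    rw [Ne, map_eq_zero_iff _ RF_inj]
    rintro rfl
    exact hB eval_zero
  refine ⟨u, ?_, ?_⟩
  · have h1 : (derivative N).eval y = u.eval y := by
      rw [hu, derivative_mul, eval_add, eval_mul, eval_mul, derivative_sub, derivative_X, derivative_C, sub_zero,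
        eval_one, eval_sub, eval_X, eval_C, sub_self, zero_mul, add_zero, one_mul]
    have h2 : (derivative N).eval y = (derivative A * B - A * derivative B).eval y := by
      rw [hN, derivative_sub, derivative_C_mul, derivative_C_mul, eval_sub, eval_sub, eval_mul, eval_mul, eval_mul,
        eval_mul, eval_C, eval_C]
      ring
    rw [← h1, h2]
    exact hW
  · rw [← hu, hN, map_sub, map_mul, map_mul, map_mul, ← RatFunc.algebraMap_C, sub_mul]
    congr 1
    · field_simp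
    · rw [← mul_assoc, ← map_mul (algebraMap κ[X] (RatFunc κ)), ← C_mul, div_mul_cancel₀ _ hB]

private theorem RF_cop {κ : Type} [Field κ] {y : κ} {q : κ[X]} (hq : q.eval y ≠ 0) (n : ℕ) :
    IsCoprime ((X - C y) ^ n) q := by
  refine IsCoprime.pow_left ?_
  rw [(irreducible_X_sub_C y).coprime_iff_not_dvd]
  intro h
  exact hq (dvd_iff_isRoot.1 h)


private theorem RF_reg {κ : Type} [Field κ] {y : κ} {r : RatFunc κ} {p q : κ[X]} (hq : q.eval y ≠ 0)
    (h : r * algebraMap κ[X] (RatFunc κ) q = algebraMap κ[X] (RatFunc κ) p) : r.denom.eval y ≠ 0 := by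
  have hq0 : q ≠ 0 := by
    rintro rfl
    simp at hq
  have hq1 : algebraMap κ[X] (RatFunc κ) q ≠ 0 := by
    rw [Ne, map_eq_zero_iff _ RF_inj]
    exact hq0
  intro hd
  apply hq
  obtain ⟨s, hs⟩ : r.denom ∣ q := by
    rw [← eq_div_iff hq1] at h
    rw [h]
    exact RatFunc.denom_div_dvd p q
  rw [hs, eval_mul, hd, zero_mul]

/-- a polynomial which is a regular function times `(f - f(t)) ^ m` -/
private theorem RF_dvd {κ : Type} [Field κ] {A B P : κ[X]} {t : κ} (hB : B.eval t ≠ 0)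
    (hW : (derivative A * B - A * derivative B).eval t ≠ 0) {m : ℕ} {α : RatFunc κ} {c : κ} (hα : RF_val t α c)
    (h : algebraMap κ[X] (RatFunc κ) P = α *
      (algebraMap κ[X] (RatFunc κ) A / algebraMap κ[X] (RatFunc κ) B - RatFunc.C (A.eval t / B.eval t)) ^ m) :
    (X - C t) ^ m ∣ P := by
  obtain ⟨u, hu, hN⟩ := RF_N hB hW
  obtain ⟨p, q, hq, hpq, -⟩ := hα
  obtain ⟨δ, hδ⟩ : ∃ δ : RatFunc κ, δ = algebraMap κ[X] (RatFunc κ) A / algebraMap κ[X] (RatFunc κ) B -
    RatFunc.C (A.eval t / B.eval t) := ⟨_, rfl⟩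
  rw [← hδ] at hN h
  have hpoly : P * q * (C (B.eval t) * B) ^ m = p * ((X - C t) * u) ^ m := by
    apply RF_inj
    rw [map_mul, map_mul, map_pow, map_mul _ p, map_pow, ← hN, ← hpq, h]
    ring
  have h1 : (X - C t) ^ m ∣ P * (q * (C (B.eval t) * B) ^ m) := by
    rw [← mul_assoc, hpoly, mul_pow]
    exact (dvd_mul_right _ _).mul_left p
  refine (RF_cop ?_ _).dvd_of_dvd_mul_right h1
  rw [eval_mul, eval_pow, eval_mul, eval_C]
  exact mul_ne_zero hq (pow_ne_zero _ (mul_ne_zero hB hB))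

private theorem RF_prod {κ ι : Type} [Field κ] [Fintype ι] {t : ι → κ} (ht : Function.Injective t) {m : ℕ}
    {P : κ[X]} (h : ∀ i, (X - C (t i)) ^ m ∣ P) : (∏ i, (X - C (t i))) ^ m ∣ P := by
  rw [← Finset.prod_pow]
  refine Finset.prod_dvd_of_coprime (fun y _ z _ hyz => ?_) (fun i _ => h i)
  exact (isCoprime_X_sub_C_of_isUnit_sub (sub_ne_zero.2 (fun h => hyz (ht h))).isUnit).pow

private theorem RF_monic {κ ι : Type} [Field κ] [Fintype ι] (t : ι → κ) (m : ℕ) :
    ((∏ i, (X - C (t i))) ^ m).Monic :=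
  (monic_prod_of_monic _ _ fun i _ => monic_X_sub_C (t i)).pow m

private theorem RF_deg {κ ι : Type} [Field κ] [Fintype ι] (t : ι → κ) (m : ℕ) :
    ((∏ i, (X - C (t i))) ^ m).natDegree = Fintype.card ι * m := by
  have hmon : ∀ i ∈ (Finset.univ : Finset ι), (X - C (t i)).Monic := fun i _ => monic_X_sub_C (t i)
  rw [(monic_prod_of_monic _ _ hmon).natDegree_pow, natDegree_prod_of_monic _ _ hmon]
  rw [Finset.sum_congr rfl fun i _ => natDegree_X_sub_C (t i)]
  rw [Finset.sum_const, smul_eq_mul, mul_one, Finset.card_univ, mul_comm]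

private theorem RF_delta_ne {κ : Type} [Field κ] {A B : κ[X]} {y : κ} (hB : B.eval y ≠ 0)
    (hW : (derivative A * B - A * derivative B).eval y ≠ 0) :
    algebraMap κ[X] (RatFunc κ) A / algebraMap κ[X] (RatFunc κ) B - RatFunc.C (A.eval y / B.eval y) ≠ 0 := by
  obtain ⟨u, hu, hN⟩ := RF_N hB hW
  intro h0
  rw [h0, zero_mul] at hN
  have h1 : (X - C y) * u = 0 := by
    apply RF_inj
    rw [map_zero]
    exact hN.symm
  rcases mul_eq_zero.1 h1 with h2 | h2
  · exact X_sub_C_ne_zero y h2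
  · rw [h2, eval_zero] at hu
    exact hu rfl

section

variable {κ : Type} [Field κ] {A B : κ[X]} {ι : Type} [Fintype ι]

theorem firstp (t : ι → κ) (ht : Function.Injective t) (hB : ∀ i, B.eval (t i) ≠ 0)
    (hW : ∀ i, (derivative A * B - A * derivative B).eval (t i) ≠ 0) {p : ℕ} {P : ℕ → κ[X]}
    (hne : ∃ l < p, P l ≠ 0) {M : ℕ} (h0 : (P 0).natDegree ≤ Fintype.card ι * M)
    (hl : ∀ l, l ≠ 0 → P l = 0 ∨ (P l).natDegree + Fintype.card ι + 1 ≤ Fintype.card ι * M)
    (hi : ∀ i, ∃ (c : κ) (α : ℕ → RatFunc κ), c ≠ 0 ∧ (∀ l < p, (α l).denom.eval (t i) ≠ 0) ∧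
      ∀ l < p, algebraMap κ[X] (RatFunc κ) (if l = 0 then P 0 else B * P l) = RatFunc.C c * α l *
        (algebraMap κ[X] (RatFunc κ) A / algebraMap κ[X] (RatFunc κ) B -
          RatFunc.C (A.eval (t i) / B.eval (t i))) ^ M) [Nonempty ι] :
    (∀ l, l ≠ 0 → l < p → P l = 0) ∧ ∃ e : κ, e ≠ 0 ∧ P 0 = C e * (∏ i, (X - C (t i))) ^ M := by
  have hd : ∀ l < p, ∀ i, (X - C (t i)) ^ M ∣ (if l = 0 then P 0 else B * P l) := by
    intro l hl i
    obtain ⟨c, α, hc, hα, hE⟩ := hi i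
    obtain ⟨d, hd⟩ := RF_denom (hα l hl)
    exact RF_dvd (hB i) (hW i) (RF_mul (RF_C (t i) c) hd) (hE l hl)
  have hz : ∀ l, l ≠ 0 → l < p → P l = 0 := by
    intro l hl0 hlp
    rcases hl l hl0 with h1 | h1
    · exact h1
    · by_contra hne0
      have h2 : ∀ i, (X - C (t i)) ^ M ∣ P l := by
        intro i
        have h3 := hd l hlp i
        rw [if_neg hl0] at h3
        exact (RF_cop (hB i) _).dvd_of_dvd_mul_left h3
      have h4 := natDegree_le_of_dvd (RF_prod ht h2) hne0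
      rw [RF_deg] at h4
      omega
  refine ⟨hz, ?_⟩
  obtain ⟨l, hlp, hl1⟩ := hne
  have hl00 : l = 0 := by
    by_contra h
    exact hl1 (hz l h hlp)
  rw [hl00] at hl1 hlp
  obtain ⟨R, hR⟩ : (∏ i, (X - C (t i))) ^ M ∣ P 0 := by
    refine RF_prod ht fun i => ?_
    have h3 := hd 0 hlp i
    rwa [if_pos rfl] at h3
  have hR0 : R ≠ 0 := by
    rintro rfl
    rw [mul_zero] at hR
    exact hl1 hR
  have hRd : R.natDegree = 0 := by
    have h4 := natDegree_mul (RF_monic t M).ne_zero hR0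
    rw [← hR, RF_deg] at h4
    omega
  obtain ⟨e, he⟩ := natDegree_eq_zero.mp hRd
  refine ⟨e, ?_, ?_⟩
  · rintro rfl
    rw [map_zero] at he
    exact hR0 he.symm
  · rw [hR, ← he, mul_comm]

theorem fin_argp (t : ι → κ) (ht : Function.Injective t) (hB : ∀ i, B.eval (t i) ≠ 0)
    (hW : ∀ i, (derivative A * B - A * derivative B).eval (t i) ≠ 0) {M : ℕ} (hM : 0 < M)
    {γ : RatFunc κ} {h : κ[X]} (hdeg : h = 0 ∨ h.natDegree + Fintype.card ι + 1 ≤ Fintype.card ι * M) {e : κ}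
    (he : e ≠ 0) (hγ : γ = algebraMap κ[X] (RatFunc κ) (B * h) /
      algebraMap κ[X] (RatFunc κ) (C e * (∏ i, (X - C (t i))) ^ M))
    (a : ι → RatFunc κ) (c : ι → κ) (ha : ∀ i, (a i).denom.eval (t i) ≠ 0)
    (hE : ∀ i, γ = a i + RatFunc.C (c i) / (algebraMap κ[X] (RatFunc κ) A / algebraMap κ[X] (RatFunc κ) B -
      RatFunc.C (A.eval (t i) / B.eval (t i)))) : γ = 0 ∧ ∀ i, c i = 0 ∧ a i = 0 := by
  have hb : ∀ i, (X - C (t i)) ^ (M - 1) ∣ h := by
    intro i
    obtain ⟨u, hu, hN⟩ := RF_N (hB i) (hW i)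
    have hδ0 := RF_delta_ne (hB i) (hW i)
    have hδv := RF_delta (A := A) (hB i)
    have hE' := hE i
    obtain ⟨δ, hδ⟩ : ∃ δ : RatFunc κ, δ = algebraMap κ[X] (RatFunc κ) A / algebraMap κ[X] (RatFunc κ) B -
      RatFunc.C (A.eval (t i) / B.eval (t i)) := ⟨_, rfl⟩
    rw [← hδ] at hE' hN hδ0 hδv
    obtain ⟨d, hd⟩ := RF_denom (ha i)
    have hr : γ * δ = a i * δ + RatFunc.C (c i) := by
      rw [hE', add_mul, div_mul_cancel₀ _ hδ0]
    have hval : ∃ d, RF_val (t i) (γ * δ) d := by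
      rw [hr]
      exact ⟨_, RF_add (RF_mul hd hδv) (RF_C _ _)⟩
    obtain ⟨d, p, q, hq, hpq, -⟩ := hval
    obtain ⟨QQ, hQQ⟩ : ∃ QQ : κ[X], QQ = ∏ i, (X - C (t i)) := ⟨_, rfl⟩
    have hQQ0 : QQ ≠ 0 := by
      rw [hQQ]
      exact Finset.prod_ne_zero_iff.2 fun z _ => X_sub_C_ne_zero (t z)
    have hD0 : algebraMap κ[X] (RatFunc κ) (C e * QQ ^ M) ≠ 0 := by
      rw [Ne, map_eq_zero_iff _ RF_inj]
      exact mul_ne_zero (C_ne_zero.2 he) (pow_ne_zero _ hQQ0)
    have hγ' := hγ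
    rw [← hQQ, eq_div_iff hD0] at hγ'
    have hpoly : p * (C e * QQ ^ M) * (C (B.eval (t i)) * B) = q * (B * h) * ((X - C (t i)) * u) := by
      apply RF_inj
      rw [map_mul, map_mul _ p, map_mul _ (q * (B * h)), map_mul _ q, ← hN, ← hpq, ← hγ']
      ring
    have hdv : (X - C (t i)) ^ M ∣ QQ ^ M := by
      apply pow_dvd_pow_of_dvd
      rw [hQQ]
      exact Finset.dvd_prod_of_mem (fun z => X - C (t z)) (Finset.mem_univ i)
    have hdv2 : (X - C (t i)) ^ M ∣ q * (B * h) * ((X - C (t i)) * u) := by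
      rw [← hpoly]
      exact (hdv.mul_left (C e)).mul_left p |>.mul_right _
    have hMe : M = 1 + (M - 1) := by omega
    have hfac : q * (B * h) * ((X - C (t i)) * u) = (X - C (t i)) * (h * (q * B * u)) := by
      ring
    rw [hMe, pow_add, pow_one, hfac] at hdv2
    have hdv3 := (mul_dvd_mul_iff_left (X_sub_C_ne_zero (t i))).1 hdv2
    refine (RF_cop ?_ _).dvd_of_dvd_mul_right hdv3
    rw [eval_mul, eval_mul]
    exact mul_ne_zero (mul_ne_zero hq (hB i)) hu
  have hh : h = 0 := by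
    rcases hdeg with h0 | hdeg
    · exact h0
    by_contra hne
    have h2 := natDegree_le_of_dvd (RF_prod ht hb) hne
    rw [RF_deg] at h2
    have h3 : Fintype.card ι * M = Fintype.card ι * (M - 1) + Fintype.card ι := by
      obtain ⟨M', rfl⟩ : ∃ M', M = M' + 1 := ⟨M - 1, by omega⟩
      rw [Nat.add_sub_cancel]
      ring
    omega
  have hγ0 : γ = 0 := by
    rw [hγ, hh, mul_zero, map_zero, zero_div]
  refine ⟨hγ0, fun i => ?_⟩
  have hδ0 := RF_delta_ne (hB i) (hW i)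
  have hδv := RF_delta (A := A) (hB i)
  have hE' := hE i
  obtain ⟨δ, hδ⟩ : ∃ δ : RatFunc κ, δ = algebraMap κ[X] (RatFunc κ) A / algebraMap κ[X] (RatFunc κ) B -
    RatFunc.C (A.eval (t i) / B.eval (t i)) := ⟨_, rfl⟩
  rw [← hδ] at hE' hδ0 hδv
  rw [hγ0] at hE'
  obtain ⟨d, hd⟩ := RF_denom (ha i)
  have h5 : RatFunc.C (c i) = RatFunc.C (-1) * (a i * δ) := by
    have h6 : (0 : RatFunc κ) * δ = a i * δ + RatFunc.C (c i) := by
      rw [hE', add_mul, div_mul_cancel₀ _ hδ0]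
    rw [map_neg, map_one]
    linear_combination -h6
  have h7 : c i = 0 := by
    have h8 := RF_mul (RF_C (t i) (-1)) (RF_mul hd hδv)
    rw [← h5] at h8
    have h9 := RF_uniq (RF_C (t i) (c i)) h8
    rw [h9, mul_zero, mul_zero]
  refine ⟨h7, ?_⟩
  rw [h7, map_zero, zero_div, add_zero] at hE'
  exact hE'.symm

theorem invp (t : ι → κ) (ht : Function.Injective t) {i : ι} (hB : B.eval (t i) ≠ 0)
    (hW : (derivative A * B - A * derivative B).eval (t i) ≠ 0) {M : ℕ} {e c : κ} (he : e ≠ 0) {a : RatFunc κ}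
    (h : algebraMap κ[X] (RatFunc κ) (C e * (∏ i, (X - C (t i))) ^ M) = RatFunc.C c * a *
        (algebraMap κ[X] (RatFunc κ) A / algebraMap κ[X] (RatFunc κ) B -
          RatFunc.C (A.eval (t i) / B.eval (t i))) ^ M) : (a⁻¹).denom.eval (t i) ≠ 0 ∧ a ≠ 0 := by
  obtain ⟨u, hu, hN⟩ := RF_N hB hW
  obtain ⟨δ, hδ⟩ : ∃ δ : RatFunc κ, δ = algebraMap κ[X] (RatFunc κ) A / algebraMap κ[X] (RatFunc κ) B -
    RatFunc.C (A.eval (t i) / B.eval (t i)) := ⟨_, rfl⟩
  rw [← hδ] at h hN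
  rw [← Finset.mul_prod_erase Finset.univ (fun i => X - C (t i)) (Finset.mem_univ i)] at h
  obtain ⟨R, hR⟩ : ∃ R : κ[X], R = (∏ j ∈ Finset.univ.erase i, (X - C (t j))) ^ M := ⟨_, rfl⟩
  have hR0 : R.eval (t i) ≠ 0 := by
    rw [hR, eval_pow]
    apply pow_ne_zero
    rw [eval_prod]
    apply Finset.prod_ne_zero_iff.mpr
    intro x hx
    rw [eval_sub, eval_X, eval_C]
    exact sub_ne_zero.mpr (fun h => (Finset.ne_of_mem_erase hx) (ht h).symm)
  have hX : algebraMap κ[X] (RatFunc κ) (X - C (t i)) ≠ 0 := by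
    rw [Ne, map_eq_zero_iff _ RF_inj]
    exact X_sub_C_ne_zero (t i)
  have h1 : algebraMap κ[X] (RatFunc κ) (C e * R * (C (B.eval (t i)) * B) ^ M) =
      algebraMap κ[X] (RatFunc κ) (C c * u ^ M) * a := by
    apply mul_left_cancel₀ (pow_ne_zero M hX)
    have h2 : algebraMap κ[X] (RatFunc κ) ((X - C (t i)) ^ M * (C e * R * (C (B.eval (t i)) * B) ^ M)) =
        RatFunc.C c * a * (δ * algebraMap κ[X] (RatFunc κ) (C (B.eval (t i)) * B)) ^ M := by
      have h3 : (X - C (t i)) ^ M * (C e * R * (C (B.eval (t i)) * B) ^ M) =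
          C e * ((X - C (t i)) * ∏ j ∈ Finset.univ.erase i, (X - C (t j))) ^ M * (C (B.eval (t i)) * B) ^ M := by
        rw [hR, mul_pow (X - C (t i))]
        ring
      rw [h3, map_mul _ (C e * _), h, map_pow]
      ring
    rw [hN] at h2
    rw [← map_pow, ← map_mul, h2, map_mul, map_mul, map_pow, map_pow, RatFunc.algebraMap_C]
    ring
  have hne : C e * R * (C (B.eval (t i)) * B) ^ M ≠ 0 := by
    intro h0
    have h2 := congrArg (eval (t i)) h0
    simp only [eval_mul, eval_C, eval_pow, eval_zero] at h2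
    exact mul_ne_zero (mul_ne_zero he hR0) (pow_ne_zero _ (mul_ne_zero hB hB)) h2
  have ha : a ≠ 0 := by
    rintro rfl
    rw [mul_zero, map_eq_zero_iff _ RF_inj] at h1
    exact hne h1
  refine ⟨?_, ha⟩
  refine RF_reg (p := C c * u ^ M) (q := C e * R * (C (B.eval (t i)) * B) ^ M) ?_ ?_
  · simp only [eval_mul, eval_C, eval_pow]
    exact mul_ne_zero (mul_ne_zero he hR0) (pow_ne_zero _ (mul_ne_zero hB hB))
  · rw [h1, mul_comm, mul_assoc, mul_inv_cancel₀ ha, mul_one]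

end

end Pool.Agent.LibCW77
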