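import Pool.Agent.LibCW77.RDefs

/-!
[CW77 RG1] SHORT/MEDIUM: coordinates of P(v), v^n = f (Mathlib only)

`cmpo n f P l = ∑_{i % n = l} (coeff i) f ^ (i / n)` (RDefs.lean). `cmpo_add`: `Polynomial.sum_add_index`; `cmpo_C_mul`: `Polynomial.sum_C_mul...`, or first show
`cmpo n f P l = ∑ i ∈ range N, if i % n = l then P.coeff i * f ^ (i / n) else 0` for every `N > P.natDegree` (`Polynomial.sum_over_range'`). `cmpo_lt`: for `i < n`: `i % n = i`, `i / n = 0`. `cmpo_eval`:
`v ^ i = v ^ (i % n) * (v ^ n) ^ (i / n)` (`Nat.mod_add_div`), exchange the sums. `cmpo_X_pow`: `C a * X ^ (n i)` is a monomial (`Polynomial.C_mul_X_pow_eq_monomial`, `sum_monomial_index`).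
-/

open scoped Classical
open Polynomial

namespace Pool.Agent.LibCW77

open Pool.Agent.LibBH2
open Pool.Agent.LibCHd (VR RF Red FunF)

variable {k : Type} [Field k]

private theorem RG1_zero {R : Type} [CommRing R] (f : R) (n l : ℕ) (i : ℕ) :
    (if i % n = l then (0 : R) * f ^ (i / n) else 0) = 0 := by
  split_ifs <;> simp

private theorem RG1_range {R : Type} [CommRing R] (n : ℕ) (f : R) (P : R[X]) (l : ℕ) {N : ℕ}
    (hN : P.natDegree < N) :
    cmpo n f P l = ∑ i ∈ Finset.range N, if i % n = l then P.coeff i * f ^ (i / n) else 0 := by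
  unfold cmpo
  exact P.sum_over_range' (f := fun i a => if i % n = l then a * f ^ (i / n) else 0)
    (fun i => RG1_zero f n l i) N hN

theorem cmpo_add {R : Type} [CommRing R] (n : ℕ) (f : R) (P Q : R[X]) (l : ℕ) :
    cmpo n f (P + Q) l = cmpo n f P l + cmpo n f Q l := by
  unfold cmpo
  apply Polynomial.sum_add_index
  · intro i
    exact RG1_zero f n l i
  · intro i a b
    split_ifs
    · ring
    · simp

theorem cmpo_C_mul {R : Type} [CommRing R] (n : ℕ) (f a : R) (P : R[X]) (l : ℕ) :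
    cmpo n f (C a * P) l = a * cmpo n f P l := by
  rw [RG1_range n f (C a * P) l (N := P.natDegree + 1)
      (Nat.lt_succ_of_le (Polynomial.natDegree_C_mul_le a P)),
    RG1_range n f P l (N := P.natDegree + 1) (Nat.lt_succ_self _), Finset.mul_sum]
  refine Finset.sum_congr rfl fun i _ => ?_
  rw [Polynomial.coeff_C_mul]
  split_ifs
  · ring
  · simp

theorem cmpo_map {R S : Type} [CommRing R] [CommRing S] (n : ℕ) (f : R) (φ : R →+* S) (P : R[X]) (l : ℕ) :
    cmpo n (φ f) (P.map φ) l = φ (cmpo n f P l) := by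
  rw [RG1_range n (φ f) (P.map φ) l (N := P.natDegree + 1)
      (Nat.lt_succ_of_le (Polynomial.natDegree_map_le)),
    RG1_range n f P l (N := P.natDegree + 1) (Nat.lt_succ_self _), map_sum]
  refine Finset.sum_congr rfl fun i _ => ?_
  rw [Polynomial.coeff_map]
  split_ifs
  · simp
  · simp

theorem cmpo_lt {R : Type} [CommRing R] {n : ℕ} (f : R) {P : R[X]} (h : P.natDegree < n) {l : ℕ} (hl : l < n) :
    cmpo n f P l = P.coeff l := by
  rw [RG1_range n f P l h, Finset.sum_eq_single l]
  · rw [Nat.mod_eq_of_lt hl, if_pos rfl, Nat.div_eq_of_lt hl, pow_zero, mul_one]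
  · intro i hi hil
    rw [Nat.mod_eq_of_lt (Finset.mem_range.1 hi), if_neg hil]
  · intro h'
    exact absurd (Finset.mem_range.2 hl) h'

theorem cmpo_eval {R L : Type} [CommRing R] [CommRing L] (φ : R →+* L) {n : ℕ} (hn : 0 < n) {f : R} {v : L}
    (hv : v ^ n = φ f) (P : R[X]) :
    eval₂ φ v P = ∑ l ∈ Finset.range n, φ (cmpo n f P l) * v ^ l := by
  have h1 : ∀ l, φ (cmpo n f P l) * v ^ l =
      ∑ i ∈ Finset.range (P.natDegree + 1), if i % n = l then φ (P.coeff i) * v ^ i else 0 := by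
    intro l
    rw [RG1_range n f P l (N := P.natDegree + 1) (Nat.lt_succ_self _), map_sum, Finset.sum_mul]
    refine Finset.sum_congr rfl fun i _ => ?_
    split_ifs with h
    · rw [map_mul, map_pow, ← hv, mul_assoc, ← pow_mul, ← pow_add]
      congr 2
      rw [← h, add_comm]
      exact Nat.mod_add_div i n
    · simp
  rw [Finset.sum_congr rfl fun l _ => h1 l, Finset.sum_comm, Polynomial.eval₂_eq_sum_range]
  refine Finset.sum_congr rfl fun i _ => ?_
  rw [Finset.sum_ite_eq, if_pos (Finset.mem_range.2 (Nat.mod_lt _ hn))]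

theorem cmpo_X_pow {R : Type} [CommRing R] {n : ℕ} (hn : 0 < n) (f a : R) (i l : ℕ) :
    cmpo n f (C a * X ^ (n * i)) l = if l = 0 then a * f ^ i else 0 := by
  unfold cmpo
  rw [Polynomial.C_mul_X_pow_eq_monomial, Polynomial.sum_monomial_index _ _ (RG1_zero f n l _),
    Nat.mul_mod_right, Nat.mul_div_cancel_left _ hn]
  by_cases h : l = 0
  · rw [if_pos h, if_pos h.symm]
  · rw [if_neg h, if_neg (fun h' => h h'.symm)]

end Pool.Agent.LibCW77
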