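import Pool.Agent.LibCW77.RDefs
import Pool.Agent.LibCW77.NG2

/-!
[CW77 RG3] SHORT/MEDIUM: scaling of the coordinates

`rd_scale` (NG2) for the family `fun i : Fin p => r i`: `β`, reductions `t'`; `P = ∑ i : Fin p, C ⟨RatFunc.C β⁻¹ * r i, _⟩ * X ^ (i : ℕ)` (elements of `O1 O`, RDefs.lean). `P.coeff l` for `l < p`
(`Polynomial.finset_sum_coeff`), `natDegree P < p` (`Polynomial.natDegree_lt_iff_degree_lt`, or `P ∈ degreeLT`), and `P.map (rdh O)` has the coefficient `t' i ≠ 0` (`rdh_eq`). `p > 0` follows from `h`.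
-/

open scoped Classical
open Polynomial

namespace Pool.Agent.LibCW77

open Pool.Agent.LibBH2
open Pool.Agent.LibCHd (VR RF Red FunF)

variable {k : Type} [Field k]

theorem scaleP {O : ValuationSubring k} {p : ℕ} (r : ℕ → RatFunc k) (h : ∃ l < p, r l ≠ 0) :
    ∃ (β : k) (P : (O1 O)[X]), β ≠ 0 ∧ P.natDegree < p ∧ (∀ l < p, r l = RatFunc.C β * (P.coeff l : RatFunc k)) ∧
      P.map (rdh O) ≠ 0 := by
  obtain ⟨l0, hl0, hr0⟩ := h
  have hp : 0 < p := lt_of_le_of_lt (Nat.zero_le _) hl0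
  obtain ⟨β, hβ, t', ht', i0, hi0⟩ := rd_scale (O := O) (fun i : Fin p => r i) ⟨⟨l0, hl0⟩, hr0⟩
  let c : ℕ → O1 O := fun i => if hi : i < p then ⟨RatFunc.C β⁻¹ * r i, ⟨t' ⟨i, hi⟩, ht' ⟨i, hi⟩⟩⟩ else 0
  let P : (O1 O)[X] := ∑ i ∈ Finset.range p, C (c i) * X ^ i
  have hcoeff : ∀ l < p, P.coeff l = c l := by
    intro l hl
    simp only [P, Polynomial.finsetSum_coeff, Polynomial.coeff_C_mul_X_pow]
    rw [Finset.sum_ite_eq, if_pos (Finset.mem_range.2 hl)]
  have hc : ∀ l (hl : l < p), ((c l : O1 O) : RatFunc k) = RatFunc.C β⁻¹ * r l := by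
    intro l hl
    simp only [c, dif_pos hl]
  refine ⟨β, P, hβ, ?_, ?_, ?_⟩
  · have h1 : P.degree < (p : ℕ) := by
      rw [Polynomial.degree_lt_iff_coeff_zero]
      intro m hm
      simp only [P, Polynomial.finsetSum_coeff, Polynomial.coeff_C_mul_X_pow]
      rw [Finset.sum_ite_eq, if_neg]
      intro h
      exact absurd (Finset.mem_range.1 h) (not_lt.2 hm)
    by_cases h0 : P = 0
    · rw [h0, Polynomial.natDegree_zero]
      exact hp
    · exact (Polynomial.natDegree_lt_iff_degree_lt h0).2 h1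
  · intro l hl
    rw [hcoeff l hl, hc l hl, ← mul_assoc, ← map_mul, mul_inv_cancel₀ hβ, map_one, one_mul]
  · intro h0
    have h1 : (P.map (rdh O)).coeff (i0 : ℕ) = 0 := by rw [h0, Polynomial.coeff_zero]
    rw [Polynomial.coeff_map, hcoeff _ i0.2] at h1
    have h2 : rdh O (c i0) = t' i0 := by
      apply rdh_eq
      rw [hc _ i0.2]
      exact ht' i0
    rw [h2] at h1
    exact hi0 h1

end Pool.Agent.LibCW77
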