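import Pool.Agent.LibCW77.RG1

/-!
[CW77 RH] MEDIUM: the p-th power of v - b

`(v - b) ^ p = v ^ p + (-b) ^ p + ∑_{0 < l < p} choose p l (-b) ^ (p - l) v ^ l` (`add_pow`, `Finset.sum_range_succ`, `sum_range_succ'`), `choose p l = p (choose p l / p)` (`Nat.Prime.dvd_choose_self`, `Nat.mul_div_cancel'`).
`φ = f + cO O ((-b) ^ p)`; its reduction is `f' + (-b') ^ p = f' - b' ^ p` (odd `p`: `Odd.neg_pow`; `p = 2`: `2 = 0` in `KK O`; or `neg_pow_char`-like lemmas with `CharP (KK O) p`, see `NT_char` in NT2.lean); it is not `0` by `hf`, so `φ⁻¹` is in `O1 O`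
(`rd_inv`). `ρ = ∑_{0 < l < p} C (cO O (choose p l / p * (-b) ^ (p - l)) * φ⁻¹) * X ^ l`. `choose p l / p` is not divisible by `p`: `p * (choose p l / p) * (l! (p - l)!) = p!` and `p ^ 2 ∤ p!`
(or `choose p l / p * l = choose (p - 1) (l - 1)` and `choose (p - 1) (l - 1) ≡ ± 1`: `Nat.Prime.dvd_choose`, ...).
-/

open scoped Classical
open Polynomial

namespace Pool.Agent.LibCW77

open Pool.Agent.LibBH2
open Pool.Agent.LibCHd (VR RF Red FunF)

variable {k : Type} [Field k]

private theorem RH_char {O : ValuationSubring k} {p : ℕ} (hp : p.Prime) (hO : rs O (p : O) = 0) :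
    CharP (KK O) p := by
  rw [CharP.charP_iff_prime_eq_zero hp]
  rw [← map_natCast (rs O) p]
  exact hO

private theorem RH_choose {p : ℕ} (hp : p.Prime) {l : ℕ} (h0 : l ≠ 0) (hl : l < p) :
    ¬ p ∣ p.choose l / p := by
  intro h
  have h1 : p ∣ p.choose l := hp.dvd_choose_self h0 hl
  have h2 : p * (p.choose l / p) = p.choose l := Nat.mul_div_cancel' h1
  have h3 : p * p ∣ p.choose l := by
    rw [← h2]
    exact Nat.mul_dvd_mul_left p h
  have h4 : p.choose l * l.factorial * (p - l).factorial = p.factorial :=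
    Nat.choose_mul_factorial_mul_factorial hl.le
  have h5 : p * p ∣ p.factorial := by
    rw [← h4, mul_assoc]
    exact h3.mul_right _
  have h6 : p.factorial = p * (p - 1).factorial := (Nat.mul_factorial_pred hp.ne_zero).symm
  rw [h6] at h5
  have h7 : p ∣ (p - 1).factorial := Nat.dvd_of_mul_dvd_mul_left hp.pos h5
  rw [hp.dvd_factorial] at h7
  have := hp.pos
  omega

private theorem RH_negpow {O : ValuationSubring k} {p : ℕ} (hp : p.Prime) (hO : rs O (p : O) = 0)
    (x : KK O) : (-x) ^ p = -(x ^ p) := by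
  have := RH_char hp hO
  have : Fact p.Prime := ⟨hp⟩
  have h := map_neg (frobenius (KK O) p) x
  simpa only [frobenius_def] using h

theorem bin_p {O : ValuationSubring k} {p : ℕ} (hp : p.Prime) (hO : rs O (p : O) = 0) {L : Type} [Field L]
    (j : RatFunc k →+* L) {v : L} {f : O1 O} (hv : v ^ p = j f) (b : O)
    (hf : rdh O f ≠ RatFunc.C (rs O b ^ p)) :
    ∃ (φ : O1 O) (ρ : (O1 O)[X]), rdh O φ = rdh O f - RatFunc.C (rs O b ^ p) ∧
      (ρ.natDegree < p ∧ ρ.coeff 0 = 0) ∧
      (∀ l, l ≠ 0 → l < p → rdh O (ρ.coeff l) =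
        RatFunc.C (((p.choose l / p : ℕ) : KK O) * (-rs O b) ^ (p - l)) / (rdh O f - RatFunc.C (rs O b ^ p))) ∧
      (∀ l, l ≠ 0 → l < p → ((p.choose l / p : ℕ) : KK O) ≠ 0) ∧
      (v - j (RatFunc.C (b : k))) ^ p = j φ * (1 + j (RatFunc.C (p : k)) * evL j v ρ) := by
  have := RH_char hp hO
  have : Fact p.Prime := ⟨hp⟩
  have hr : rdh O (f + cO O ((-b) ^ p)) = rdh O f - RatFunc.C (rs O b ^ p) := by
    rw [map_add, rdh_cO, map_pow, map_neg, RH_negpow hp hO, map_neg]
    ring
  have hr0 : rdh O (f + cO O ((-b) ^ p)) ≠ 0 := by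
    rw [hr]
    exact sub_ne_zero.mpr hf
  obtain ⟨φ, hφ⟩ : ∃ φ, φ = f + cO O ((-b) ^ p) := ⟨_, rfl⟩
  rw [← hφ] at hr hr0
  have hφ0 : (φ : RatFunc k) ≠ 0 := by
    intro h
    have : φ = 0 := Subtype.ext h
    rw [this, map_zero] at hr0
    exact hr0 rfl
  have hinv : Rd O (φ : RatFunc k)⁻¹ (rdh O φ)⁻¹ := rd_inv (rdh_spec φ) hr0
  obtain ⟨ψ, hψ⟩ : ∃ ψ : O1 O, (ψ : RatFunc k) = (φ : RatFunc k)⁻¹ :=
    ⟨⟨(φ : RatFunc k)⁻¹, ⟨_, hinv⟩⟩, rfl⟩
  have hrψ : rdh O ψ = (rdh O φ)⁻¹ := by
    apply rdh_eq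
    rw [hψ]
    exact hinv
  obtain ⟨c, hc⟩ : ∃ c : ℕ → O, ∀ l, c l = ((p.choose l / p : ℕ) : O) * (-b) ^ (p - l) :=
    ⟨_, fun _ => rfl⟩
  obtain ⟨ρ, hρ⟩ : ∃ ρ : (O1 O)[X], ρ = ∑ l ∈ Finset.range p,
      C (if l = 0 then 0 else cO O (c l) * ψ) * X ^ l := ⟨_, rfl⟩
  have hcoef : ∀ m, ρ.coeff m = if m < p then (if m = 0 then 0 else cO O (c m) * ψ) else 0 := by
    intro m
    rw [hρ, finsetSum_coeff]
    simp only [coeff_C_mul_X_pow]
    by_cases hm : m < p
    · rw [if_pos hm]
      rw [Finset.sum_eq_single m]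
      · rw [if_pos rfl]
      · intro l _ hl
        rw [if_neg (fun h => hl h.symm)]
      · intro h
        exact absurd (Finset.mem_range.mpr hm) h
    · rw [if_neg hm]
      apply Finset.sum_eq_zero
      intro l hl
      rw [if_neg]
      rintro rfl
      exact hm (Finset.mem_range.mp hl)
  refine ⟨φ, ρ, hr, ⟨?_, ?_⟩, ?_, ?_, ?_⟩
  · by_cases h0 : ρ = 0
    · rw [h0, natDegree_zero]
      exact hp.pos
    · rw [natDegree_lt_iff_degree_lt h0, degree_lt_iff_coeff_zero]
      intro m hm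
      rw [hcoef, if_neg (by omega)]
  · rw [hcoef, if_pos hp.pos, if_pos rfl]
  · intro l hl0 hlp
    rw [hcoef, if_pos hlp, if_neg hl0, map_mul, rdh_cO, hrψ, hr, hc, map_mul, map_pow, map_neg,
      map_natCast, div_eq_mul_inv]
  · intro l hl0 hlp h
    rw [CharP.cast_eq_zero_iff (KK O) p] at h
    exact RH_choose hp hl0 hlp h
  · have hev : evL j v ρ = ∑ l ∈ Finset.range p,
        (if l = 0 then 0 else j (RatFunc.C ((c l : O) : k)) * j ((φ : RatFunc k)⁻¹)) * v ^ l := by
      rw [hρ, map_sum]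
      apply Finset.sum_congr rfl
      intro l _
      have h1 : evL j v (C (if l = 0 then 0 else cO O (c l) * ψ) * X ^ l) =
          j (((if l = 0 then 0 else cO O (c l) * ψ : O1 O) : RatFunc k)) * v ^ l := by
        simp only [evL, coe_eval₂RingHom, eval₂_mul, eval₂_C, eval₂_pow, eval₂_X,
          RingHom.comp_apply, Subring.subtype_apply]
      rw [h1]
      congr 1
      by_cases hl : l = 0
      · rw [if_pos hl, if_pos hl]
        exact map_zero j
      · rw [if_neg hl, if_neg hl]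
        change j ((cO O (c l) : RatFunc k) * (ψ : RatFunc k)) = _
        rw [hψ, map_mul]
        rfl
    have hjφ : j (φ : RatFunc k) * j ((φ : RatFunc k)⁻¹) = 1 := by
      rw [← map_mul, mul_inv_cancel₀ hφ0, map_one]
    have hjφ2 : j (φ : RatFunc k) = v ^ p + j (RatFunc.C (-(b : k))) ^ p := by
      rw [hφ]
      change j ((f : RatFunc k) + RatFunc.C (((-b) ^ p : O) : k)) = _
      rw [map_add, hv]
      congr 1
      rw [← map_pow, ← map_pow]
      congr 2
    have hexp : v - j (RatFunc.C (b : k)) = v + j (RatFunc.C (-(b : k))) := by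
      rw [map_neg, map_neg, sub_eq_add_neg]
    rw [hexp, add_pow, mul_add, mul_one, hev, Finset.mul_sum, Finset.mul_sum, Finset.sum_range_succ]
    obtain ⟨q, hq⟩ : ∃ q, p = q + 1 := ⟨p - 1, by have := hp.pos; omega⟩
    have hS : ∑ l ∈ Finset.range p, v ^ l * j (RatFunc.C (-(b : k))) ^ (p - l) * (p.choose l : L) =
        j (RatFunc.C (-(b : k))) ^ p + ∑ l ∈ Finset.range p, (if l = 0 then 0 else
          v ^ l * j (RatFunc.C (-(b : k))) ^ (p - l) * (p.choose l : L)) := by
      have : Finset.range p = insert 0 ((Finset.range p).erase 0) := by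
        rw [Finset.insert_erase (Finset.mem_range.mpr hp.pos)]
      rw [this, Finset.sum_insert (by simp), Finset.sum_insert (by simp), if_pos rfl, zero_add,
        pow_zero, Nat.choose_zero_right, Nat.cast_one, mul_one, one_mul, Nat.sub_zero]
      congr 1
      apply Finset.sum_congr rfl
      intro l hl
      rw [if_neg (Finset.ne_of_mem_erase hl)]
    rw [hS, hjφ2]
    have hT : ∑ l ∈ Finset.range p, (if l = 0 then 0 else
          v ^ l * j (RatFunc.C (-(b : k))) ^ (p - l) * (p.choose l : L)) =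
        ∑ l ∈ Finset.range p, (v ^ p + j (RatFunc.C (-(b : k))) ^ p) * (j (RatFunc.C (p : k)) *
          ((if l = 0 then 0 else j (RatFunc.C ((c l : O) : k)) * j ((φ : RatFunc k)⁻¹)) * v ^ l)) := by
      apply Finset.sum_congr rfl
      intro l hl
      by_cases hl0 : l = 0
      · rw [if_pos hl0, if_pos hl0]
        ring
      · rw [if_neg hl0, if_neg hl0, ← hjφ2]
        have hlp := Finset.mem_range.mp hl
        have h1 : p * (p.choose l / p) = p.choose l :=
          Nat.mul_div_cancel' (hp.dvd_choose_self hl0 hlp)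
        have h2 : j (RatFunc.C (p : k)) * j (RatFunc.C ((c l : O) : k)) =
            j (RatFunc.C (-(b : k))) ^ (p - l) * (p.choose l : L) := by
          have h3 : ((c l : O) : k) = ((p.choose l / p : ℕ) : k) * (-(b : k)) ^ (p - l) := by
            rw [hc]
            push_cast
            rfl
          rw [h3]
          have h4 : (p.choose l : L) = j (RatFunc.C (((p * (p.choose l / p) : ℕ)) : k)) := by
            rw [h1, map_natCast, map_natCast]
          rw [h4, ← map_pow, ← map_pow, ← map_mul, ← map_mul, ← map_mul, ← map_mul]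
          congr 2
          push_cast
          ring
        calc v ^ l * j (RatFunc.C (-(b : k))) ^ (p - l) * (p.choose l : L)
            = (j (φ : RatFunc k) * j ((φ : RatFunc k)⁻¹)) *
              (j (RatFunc.C (-(b : k))) ^ (p - l) * (p.choose l : L)) * v ^ l := by
              rw [hjφ]; ring
          _ = _ := by
              rw [← h2]; ring
    rw [hT, Nat.choose_self, Nat.cast_one, mul_one, Nat.sub_self, pow_zero, mul_one]
    ring

end Pool.Agent.LibCW77
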