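import Pool.Agent.LibCW77.RDefs
import Pool.Agent.LibCW77.Z7

/-!
[CW77 RI1] MEDIUM: change of the coordinate x, general n

The general-n version of QM1.lean (`genC_moeb`, see CW77_QM1.lean in the store if it is already there; for `n = 3`). `X = (x - l) / (x + l)`, `V = κ v`, `α_i = (t_i - l) / (t_i + l)`. Good: `z ↦ (z - l) / (z + l)` is injective on the six numbers `t_i`, `- t_i`
(`hc.inj`), `1 / α_i = (- t_i - l) / (- t_i + l)`. Equation: `V ^ n = κ ^ n v ^ n`, `v ^ n ∏ (x + t_i) = ∏ (x - t_i)`, `X - α_i = 2 l (x - t_i) / ((x + l)(t_i + l))`, `X - 1 / α_i` similarly. `GenC`: `x = l (1 + X) / (1 - X)`, `κ ≠ 0`.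
-/

open scoped Classical
open Polynomial

namespace Pool.Agent.LibCW77

open Pool.Agent.LibBH2
open Pool.Agent.LibCHd (VR RF Red FunF)

variable {k : Type} [Field k]

private theorem ri1_inj {k : Type} [Field k] [CharZero k] {l z w : k} (hl : l ≠ 0) (hz : z + l ≠ 0)
    (hw : w + l ≠ 0) (h : (z - l) / (z + l) = (w - l) / (w + l)) : z = w := by
  rw [div_eq_div_iff hz hw] at h
  have h2 : (2 * l) * (z - w) = 0 := by linear_combination h
  have h3 : (2 * l) ≠ 0 := mul_ne_zero two_ne_zero hl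
  exact sub_eq_zero.1 ((mul_eq_zero.1 h2).resolve_left h3)

private theorem ri1_key {N : Type} [Field N] {n : ℕ} {T0 T1 T2 l κ x v : N} (hx : x + l ≠ 0)
    (h0 : T0 - l ≠ 0) (h1 : T1 - l ≠ 0) (h2 : T2 - l ≠ 0)
    (g0 : T0 + l ≠ 0) (g1 : T1 + l ≠ 0) (g2 : T2 + l ≠ 0)
    (hκ : κ ^ n = -((T0 - l) / (T0 + l) * ((T1 - l) / (T1 + l)) * ((T2 - l) / (T2 + l))))
    (hv : v ^ n * ((x + T0) * (x + T1) * (x + T2)) = (x - T0) * (x - T1) * (x - T2)) :
    (κ * v) ^ n * (((x - l) / (x + l) - (T0 + l) / (T0 - l)) * ((x - l) / (x + l) - (T1 + l) / (T1 - l)) *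
      ((x - l) / (x + l) - (T2 + l) / (T2 - l))) =
      ((x - l) / (x + l) - (T0 - l) / (T0 + l)) * ((x - l) / (x + l) - (T1 - l) / (T1 + l)) *
      ((x - l) / (x + l) - (T2 - l) / (T2 + l)) := by
  have e : ∀ T : N, T - l ≠ 0 → (x - l) / (x + l) - (T + l) / (T - l) =
      -(2 * l) * (x + T) / ((x + l) * (T - l)) := by
    intro T hT
    field_simp
    ring
  have e' : ∀ T : N, T + l ≠ 0 → (x - l) / (x + l) - (T - l) / (T + l) =
      (2 * l) * (x - T) / ((x + l) * (T + l)) := by
    intro T hT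
    field_simp
    ring
  rw [e T0 h0, e T1 h1, e T2 h2, e' T0 g0, e' T1 g1, e' T2 g2, mul_pow, hκ]
  have r : (2 * l) * (x - T0) / ((x + l) * (T0 + l)) * ((2 * l) * (x - T1) / ((x + l) * (T1 + l))) *
      ((2 * l) * (x - T2) / ((x + l) * (T2 + l))) =
      (2 * l) ^ 3 * ((x - T0) * (x - T1) * (x - T2)) /
        ((x + l) ^ 3 * ((T0 + l) * (T1 + l) * (T2 + l))) := by
    field_simp
  rw [r, ← hv]
  field_simp

theorem genC_moebn [CharZero k] {n : ℕ} {t : Fin 3 → k} (hc : (symN n t).Good) {l κ : k} (hl : l ≠ 0)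
    (ht : ∀ i, t i ≠ l ∧ t i ≠ -l) (hκ : κ ^ n = -∏ i, ((t i - l) / (t i + l))) {N : Type} [Field N] [Algebra k N]
    {x v : N} (h : GenC (symN n t) x v) :
    (recD n fun i => (t i - l) / (t i + l)).Good ∧ GenC (recD n fun i => (t i - l) / (t i + l))
      ((x - algebraMap k N l) / (x + algebraMap k N l)) (algebraMap k N κ * v) := by
  have hin := hc.inj
  have htl : ∀ i, t i - l ≠ 0 := fun i => sub_ne_zero.2 (ht i).1
  have htl' : ∀ i, t i + l ≠ 0 := fun i h0 => (ht i).2 (eq_neg_of_add_eq_zero_left h0)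
  have hntl : ∀ i, -t i + l ≠ 0 := fun i h0 => htl i (by linear_combination -h0)
  have hinv : ∀ i, ((t i - l) / (t i + l))⁻¹ = (-t i - l) / (-t i + l) := by
    intro i
    rw [inv_div, div_eq_div_iff (htl i) (hntl i)]
    ring
  obtain ⟨F, hF⟩ : ∃ F : k → k, F = fun z => (z - l) / (z + l) := ⟨_, rfl⟩
  have hgood : (recD n fun i => (t i - l) / (t i + l)).Good := by
    refine ⟨hc.two, ?_⟩
    have hS : Sum.elim (recD n fun i => (t i - l) / (t i + l)).a (recD n fun i => (t i - l) / (t i + l)).b =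
        fun s => F (Sum.elim (symN n t).a (symN n t).b s) := by
      funext s
      rcases s with i | i
      · rw [hF]
        rfl
      · rw [hF]
        exact hinv i
    rw [hS]
    have hne : ∀ s : Fin 3 ⊕ Fin 3, Sum.elim (symN n t).a (symN n t).b s + l ≠ 0 := by
      intro s
      rcases s with i | i
      · exact htl' i
      · exact hntl i
    intro s s' hss
    have h1 : F (Sum.elim (symN n t).a (symN n t).b s) = F (Sum.elim (symN n t).a (symN n t).b s') := hss
    rw [hF] at h1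
    exact hin (ri1_inj hl (hne s) (hne s') h1)
  refine ⟨hgood, ?_⟩
  obtain ⟨L, hL⟩ : ∃ L : N, L = algebraMap k N l := ⟨_, rfl⟩
  have hne : ∀ a : k, x - algebraMap k N a ≠ 0 := by
    intro a h0
    exact h.tr (by rw [sub_eq_zero.1 h0]; exact isAlgebraic_algebraMap a)
  have hxL : x + L ≠ 0 := by
    have := hne (-l)
    rw [map_neg, sub_neg_eq_add, ← hL] at this
    exact this
  have hL0 : L ≠ 0 := by
    rw [hL]
    exact (map_ne_zero (algebraMap k N)).2 hl
  have h2 : (2 : N) ≠ 0 := by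
    have : (algebraMap k N) 2 ≠ 0 := (map_ne_zero (algebraMap k N)).2 two_ne_zero
    rwa [map_ofNat] at this
  rw [← hL]
  obtain ⟨Xc, hXc⟩ : ∃ Xc : N, Xc = (x - L) / (x + L) := ⟨_, rfl⟩
  have h1X : 1 - Xc ≠ 0 := by
    have e : 1 - Xc = 2 * L / (x + L) := by
      rw [hXc]
      field_simp
      ring
    rw [e]
    exact div_ne_zero (mul_ne_zero h2 hL0) hxL
  have hxX : x = L * (1 + Xc) / (1 - Xc) := by
    rw [eq_div_iff h1X, hXc]
    field_simp
    ring
  have hκ0 : κ ≠ 0 := by
    rintro rfl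
    rw [zero_pow (by have h2 : 2 ≤ n := hc.two; omega)] at hκ
    have : ∏ i, ((t i - l) / (t i + l)) ≠ 0 :=
      Finset.prod_ne_zero_iff.2 fun i _ => div_ne_zero (htl i) (htl' i)
    exact this (neg_eq_zero.1 hκ.symm)
  refine ⟨?_, ?_, ?_⟩
  · -- on the curve
    have hon : v ^ n * ∏ i, (x - algebraMap k N (-t i)) = ∏ i, (x - algebraMap k N (t i)) := h.on
    rw [Fin.prod_univ_three, Fin.prod_univ_three] at hon
    simp only [map_neg, sub_neg_eq_add] at hon
    have hm : ∀ a : k, a ≠ 0 → algebraMap k N a ≠ 0 := fun a ha => (map_ne_zero (algebraMap k N)).2 ha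
    have m1 : ∀ i, algebraMap k N (t i) - L ≠ 0 := by
      intro i
      rw [hL, ← map_sub]
      exact hm _ (htl i)
    have m2 : ∀ i, algebraMap k N (t i) + L ≠ 0 := by
      intro i
      rw [hL, ← map_add]
      exact hm _ (htl' i)
    have hκN : (algebraMap k N κ) ^ n = -((algebraMap k N (t 0) - L) / (algebraMap k N (t 0) + L) *
        ((algebraMap k N (t 1) - L) / (algebraMap k N (t 1) + L)) *
        ((algebraMap k N (t 2) - L) / (algebraMap k N (t 2) + L))) := by
      have := congrArg (algebraMap k N) hκ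
      rw [Fin.prod_univ_three] at this
      simp only [map_pow, map_neg, map_mul, map_div₀, map_sub, map_add] at this
      rw [this, hL]
    have key := ri1_key hxL (m1 0) (m1 1) (m1 2) (m2 0) (m2 1) (m2 2) hκN hon
    show (algebraMap k N κ * v) ^ n *
      ∏ i, ((x - L) / (x + L) - algebraMap k N ((t i - l) / (t i + l))⁻¹) =
      ∏ i, ((x - L) / (x + L) - algebraMap k N ((t i - l) / (t i + l)))
    rw [Fin.prod_univ_three, Fin.prod_univ_three]
    simp only [inv_div, map_div₀, map_sub, map_add, ← hL]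
    exact key
  · -- transcendental
    intro halg
    rw [← hXc] at halg
    apply h.tr
    rw [hxX]
    have hLa : IsAlgebraic k L := by
      rw [hL]
      exact isAlgebraic_algebraMap l
    have h1a : IsAlgebraic k (1 : N) := isAlgebraic_one
    rw [div_eq_mul_inv]
    exact (hLa.mul (h1a.add halg)).mul (h1a.sub halg).inv
  · -- generated
    rw [eq_top_iff, ← h.gen, IntermediateField.adjoin_le_iff]
    obtain ⟨K, hK⟩ : ∃ K : IntermediateField k N,
      K = IntermediateField.adjoin k {(x - L) / (x + L), algebraMap k N κ * v} := ⟨_, rfl⟩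
    rw [← hK]
    have hXm : Xc ∈ K := by
      rw [hXc, hK]
      exact IntermediateField.subset_adjoin k _ (by simp)
    have hVm : algebraMap k N κ * v ∈ K := by
      rw [hK]
      exact IntermediateField.subset_adjoin k _ (by simp)
    have hcm : ∀ a : k, algebraMap k N a ∈ K := fun a => K.algebraMap_mem a
    have hx' : L * (1 + Xc) / (1 - Xc) ∈ K := by
      refine div_mem (mul_mem ?_ (add_mem (one_mem _) hXm)) (sub_mem (one_mem _) hXm)
      rw [hL]
      exact hcm l
    have hv' : algebraMap k N κ⁻¹ * (algebraMap k N κ * v) ∈ K := mul_mem (hcm _) hVm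
    rw [← mul_assoc, ← map_mul, inv_mul_cancel₀ hκ0, map_one, one_mul] at hv'
    rw [← hxX] at hx'
    rintro u (rfl | rfl)
    · exact hx'
    · exact hv'

end Pool.Agent.LibCW77
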