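import Pool.Agent.LibCW77.RI1
import Pool.Agent.LibCW77.D4

/-!
[CW77 RI2] MEDIUM/STRONG: the isomorphism of the curves on cycle classes

As `exists_tw` (D4.lean) and `exists_th` (CW77_OA2.lean, with `th_on`, `th_map`, `th_sp` in CW77_OA1.lean): `exists_hom` with values in `CH (recD n _) 3 1`, `desc`, `div_rel`. Needed: (i) `mb l κ u` is on the curve `recD` if `u` is on `symN` (cases of `OnC`: `x = -l` goes to infinity, `x = none` to
`1`; branch points to branch points); (ii) `mpP σ (mb l κ u) = mb l κ (mpP σ u)`; (iii) `SpP w u q → SpP w (mb l κ u) (mb l κ q)` (`Red` of quotients, poles; `l ≠ 0`; `x` with residue `-l` but `x ≠ -l`: pole of the quotient).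
-/

open scoped Classical
open Polynomial

namespace Pool.Agent.LibCW77

open Pool.Agent.LibBH2
open Pool.Agent.LibCHd (VR RF Red FunF)

variable {k : Type} [Field k]

/-- `x ↦ (x - l) / (x + l)` -/
noncomputable def mo {M : Type} [Field M] (l : M) : Option M → Option M
  | none => some 1
  | some x => if x = -l then none else some ((x - l) / (x + l))

/-- `(x, v) ↦ ((x - l) / (x + l), κ v)` on the points of `C ^ 3` -/
noncomputable def mb (l κ : k) {M : Type} [Field M] [Algebra k M] (u : Pnt 3 M) : Pnt 3 M :=
  fun j => ![mo (algebraMap k M l) (u j 0), (u j 1).map fun v => algebraMap k M κ * v]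

private theorem RI2_fact {K : Type} [Field K] [CharZero k] [Algebra k K] : (2 : K) ≠ 0 := by
  have : (algebraMap k K) 2 ≠ 0 := (map_ne_zero (algebraMap k K)).2 two_ne_zero
  rwa [map_ofNat] at this

private theorem RI2_mo_none {M : Type} [Field M] (l : M) : mo l none = some 1 := rfl

private theorem RI2_mo_pole {M : Type} [Field M] {l x : M} (h : x = -l) : mo l (some x) = none := if_pos h

private theorem RI2_mo_some {M : Type} [Field M] {l x : M} (h : x ≠ -l) :
    mo l (some x) = some ((x - l) / (x + l)) := if_neg h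

private theorem RI2_key {N : Type} [Field N] {n : ℕ} {T0 T1 T2 l κ x v : N} (hx : x + l ≠ 0)
    (h0 : T0 - l ≠ 0) (h1 : T1 - l ≠ 0) (h2 : T2 - l ≠ 0)
    (g0 : T0 + l ≠ 0) (g1 : T1 + l ≠ 0) (g2 : T2 + l ≠ 0)
    (hκ : κ ^ n = -((T0 - l) / (T0 + l) * ((T1 - l) / (T1 + l)) * ((T2 - l) / (T2 + l))))
    (hv : v ^ n * ((x + T0) * (x + T1) * (x + T2)) = (x - T0) * (x - T1) * (x - T2)) :
    (κ * v) ^ n * (((x - l) / (x + l) - (T0 + l) / (T0 - l)) * ((x - l) / (x + l) - (T1 + l) / (T1 - l)) *
      ((x - l) / (x + l) - (T2 + l) / (T2 - l))) =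
      ((x - l) / (x + l) - (T0 - l) / (T0 + l)) * ((x - l) / (x + l) - (T1 - l) / (T1 + l)) *
      ((x - l) / (x + l) - (T2 - l) / (T2 + l)) := by
  have e : ∀ T : N, T - l ≠ 0 → (x - l) / (x + l) - (T + l) / (T - l) =
      -(2 * l) * (x + T) / ((x + l) * (T - l)) := by
    intro T hT
    field_simp
    ring
  have e' : ∀ T : N, T + l ≠ 0 → (x - l) / (x + l) - (T - l) / (T + l) =
      (2 * l) * (x - T) / ((x + l) * (T + l)) := by
    intro T hT
    field_simp
    ring
  rw [e T0 h0, e T1 h1, e T2 h2, e' T0 g0, e' T1 g1, e' T2 g2, mul_pow, hκ]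
  have r : (2 * l) * (x - T0) / ((x + l) * (T0 + l)) * ((2 * l) * (x - T1) / ((x + l) * (T1 + l))) *
      ((2 * l) * (x - T2) / ((x + l) * (T2 + l))) =
      (2 * l) ^ 3 * ((x - T0) * (x - T1) * (x - T2)) /
        ((x + l) ^ 3 * ((T0 + l) * (T1 + l) * (T2 + l))) := by
    field_simp
  rw [r, ← hv]
  field_simp

private theorem RI2_on {n : ℕ} {t : Fin 3 → k} (hc : (symN n t).Good) {l κ : k}
    (ht : ∀ i, t i ≠ l ∧ t i ≠ -l) (hκ : κ ^ n = -∏ i, ((t i - l) / (t i + l))) {M : Type}
    [Field M] [Algebra k M] {u : Pnt 3 M} (hu : On ((symN n t).over M) u) :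
    On ((recD n fun i => (t i - l) / (t i + l)).over M) (mb l κ u) := by
  have htl : ∀ i, t i - l ≠ 0 := fun i => sub_ne_zero.2 (ht i).1
  have htl' : ∀ i, t i + l ≠ 0 := fun i h0 => (ht i).2 (eq_neg_of_add_eq_zero_left h0)
  obtain ⟨L, hL⟩ : ∃ L : M, L = algebraMap k M l := ⟨_, rfl⟩
  obtain ⟨T, hT⟩ : ∃ T : Fin 3 → M, T = fun i => algebraMap k M (t i) := ⟨_, rfl⟩
  obtain ⟨K, hK⟩ : ∃ K : M, K = algebraMap k M κ := ⟨_, rfl⟩
  have hTL : ∀ i, T i - L ≠ 0 := by
    intro i
    rw [hT, hL, ← map_sub]
    exact (map_ne_zero (algebraMap k M)).2 (htl i)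
  have hTL' : ∀ i, T i + L ≠ 0 := by
    intro i
    rw [hT, hL, ← map_add]
    exact (map_ne_zero (algebraMap k M)).2 (htl' i)
  have hKn : K ^ n = -((T 0 - L) / (T 0 + L) * ((T 1 - L) / (T 1 + L)) * ((T 2 - L) / (T 2 + L))) := by
    rw [hK, ← map_pow, hκ, Fin.prod_univ_three, map_neg, map_mul, map_mul, map_div₀, map_div₀, map_div₀,
      map_sub, map_sub, map_sub, map_add, map_add, map_add, hT, hL]
  have ha : ∀ i, ((recD n fun i => (t i - l) / (t i + l)).over M).a i = (T i - L) / (T i + L) := by
    intro i
    change algebraMap k M ((t i - l) / (t i + l)) = _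
    rw [map_div₀, map_sub, map_add, hT, hL]
  have hb : ∀ i, ((recD n fun i => (t i - l) / (t i + l)).over M).b i = (T i + L) / (T i - L) := by
    intro i
    change algebraMap k M ((t i - l) / (t i + l))⁻¹ = _
    rw [map_inv₀, map_div₀, map_sub, map_add, hT, hL, inv_div]
  have sa : ∀ i, ((symN n t).over M).a i = T i := by
    intro i
    rw [hT]
    rfl
  have sb : ∀ i, ((symN n t).over M).b i = -T i := by
    intro i
    change algebraMap k M (-t i) = _
    rw [map_neg, hT]
  intro j
  have h := hu j
  change OnC ((recD n fun i => (t i - l) / (t i + l)).over M) (mo (algebraMap k M l) (u j 0))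
    ((u j 1).map fun v => algebraMap k M κ * v)
  rw [← hL, ← hK]
  revert h
  generalize u j 0 = X
  generalize u j 1 = V
  intro h
  rcases X with _ | x
  · rw [RI2_mo_none]
    rcases V with _ | v
    · exact h.elim
    · change v ^ n = 1 at h
      change (K * v) ^ n * ∏ i, (1 - ((recD n fun i => (t i - l) / (t i + l)).over M).b i) =
        ∏ i, (1 - ((recD n fun i => (t i - l) / (t i + l)).over M).a i)
      rw [Fin.prod_univ_three, Fin.prod_univ_three, ha, ha, ha, hb, hb, hb, mul_pow, h, mul_one, hKn]
      have e1 : ∀ i, 1 - (T i + L) / (T i - L) = -(2 * L) / (T i - L) := by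
        intro i
        have := hTL i
        field_simp
        ring
      have e2 : ∀ i, 1 - (T i - L) / (T i + L) = (2 * L) / (T i + L) := by
        intro i
        have := hTL' i
        field_simp
        ring
      rw [e1, e1, e1, e2, e2, e2]
      have := hTL 0; have := hTL 1; have := hTL 2
      have := hTL' 0; have := hTL' 1; have := hTL' 2
      field_simp
  · rcases V with _ | v
    · obtain ⟨i, hi⟩ := h
      rw [sb] at hi
      have hx : x ≠ -L := by
        intro h1
        rw [h1, neg_inj] at hi
        exact hTL i (by rw [hi, sub_self])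
      rw [RI2_mo_some hx]
      refine ⟨i, ?_⟩
      rw [hb, hi]
      have h1 := hTL i
      have h2 : -T i + L ≠ 0 := by
        intro h0
        exact h1 (by linear_combination -h0)
      rw [div_eq_div_iff h2 h1]
      ring
    · change v ^ n * ∏ i, (x - ((symN n t).over M).b i) = ∏ i, (x - ((symN n t).over M).a i) at h
      rw [Fin.prod_univ_three, Fin.prod_univ_three, sa, sa, sa, sb, sb, sb, sub_neg_eq_add, sub_neg_eq_add,
        sub_neg_eq_add] at h
      by_cases hx : x = -L
      · rw [RI2_mo_pole hx]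
        change (K * v) ^ n = 1
        subst hx
        have g0 : -L + T 0 ≠ 0 := by rw [neg_add_eq_sub]; exact hTL 0
        have g1 : -L + T 1 ≠ 0 := by rw [neg_add_eq_sub]; exact hTL 1
        have g2 : -L + T 2 ≠ 0 := by rw [neg_add_eq_sub]; exact hTL 2
        have hv : v ^ n = (-L - T 0) * (-L - T 1) * (-L - T 2) / ((-L + T 0) * (-L + T 1) * (-L + T 2)) := by
          rw [eq_div_iff (mul_ne_zero (mul_ne_zero g0 g1) g2)]
          exact h
        rw [mul_pow, hKn, hv]
        have a0 : -L + T 0 = T 0 - L := by ring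
        have a1 : -L + T 1 = T 1 - L := by ring
        have a2 : -L + T 2 = T 2 - L := by ring
        have b0 : -L - T 0 = -(T 0 + L) := by ring
        have b1 : -L - T 1 = -(T 1 + L) := by ring
        have b2 : -L - T 2 = -(T 2 + L) := by ring
        rw [a0, a1, a2, b0, b1, b2]
        have := hTL 0; have := hTL 1; have := hTL 2
        have := hTL' 0; have := hTL' 1; have := hTL' 2
        field_simp
      · rw [RI2_mo_some hx]
        have hx' : x + L ≠ 0 := fun h0 => hx (eq_neg_of_add_eq_zero_left h0)
        change (K * v) ^ n * ∏ i, ((x - L) / (x + L) - ((recD n fun i => (t i - l) / (t i + l)).over M).b i) =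
          ∏ i, ((x - L) / (x + L) - ((recD n fun i => (t i - l) / (t i + l)).over M).a i)
        rw [Fin.prod_univ_three, Fin.prod_univ_three, ha, ha, ha, hb, hb, hb]
        exact RI2_key hx' (hTL 0) (hTL 1) (hTL 2) (hTL' 0) (hTL' 1) (hTL' 2) hKn h

private theorem RI2_map (l κ : k) {M M' : Type} [Field M] [Algebra k M] [Field M'] [Algebra k M']
    (σ : M →ₐ[k] M') (u : Pnt 3 M) : mpP σ (mb l κ u) = mb l κ (mpP σ u) := by
  have hmo : ∀ X : Option M, (mo (algebraMap k M l) X).map σ = mo (algebraMap k M' l) (X.map σ) := by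
    intro X
    rcases X with _ | x
    · change some (σ 1) = some 1
      rw [map_one]
    · by_cases hx : x = -algebraMap k M l
      · have hx' : σ x = -algebraMap k M' l := by rw [hx, map_neg, σ.commutes]
        rw [RI2_mo_pole hx]
        change none = mo (algebraMap k M' l) (some (σ x))
        rw [RI2_mo_pole hx']
      · have hx' : σ x ≠ -algebraMap k M' l := by
          intro h
          have h5 : σ x = σ (-algebraMap k M l) := by rw [h, map_neg, σ.commutes]
          exact hx (σ.injective h5)
        rw [RI2_mo_some hx]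
        change some (σ _) = mo (algebraMap k M' l) (some (σ x))
        rw [RI2_mo_some hx', map_div₀, map_sub, map_add, σ.commutes]
  funext j i
  fin_cases i
  · exact hmo (u j 0)
  · change ((u j 1).map fun v => algebraMap k M κ * v).map σ =
      ((u j 1).map σ).map fun v => algebraMap k M' κ * v
    rcases u j 1 with _ | v
    · rfl
    · change some (σ (algebraMap k M κ * v)) = some (algebraMap k M' κ * σ v)
      rw [map_mul, σ.commutes]

private theorem RI2_sp [CharZero k] {l κ : k} (hl : l ≠ 0) (hκ0 : κ ≠ 0) {K : Type} [Field K] [Algebra k K]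
    (w : Place k K) {u : Pnt 3 K} {q : Pnt 3 (RF w)} (h : SpP w u q) : SpP w (mb l κ u) (mb l κ q) := by
  have h2' : (2 : RF w) ≠ 0 := RI2_fact (k := k)
  have hL' : algebraMap k (RF w) l ≠ 0 := (map_ne_zero (algebraMap k (RF w))).2 hl
  have hrL : Red w (algebraMap k K l) (algebraMap k (RF w) l) := Pool.Agent.LibCHd.red_const w l
  intro j i
  fin_cases i
  · have h1 := h j 0
    change SpO w (mo (algebraMap k K l) (u j 0)) (mo (algebraMap k (RF w) l) (q j 0))
    revert h1
    generalize u j 0 = X
    generalize q j 0 = Q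
    intro h1
    rcases X with _ | x
    · have h2 : Q = none := h1
      rw [h2]
      exact Pool.Agent.LibCHd.red_one w
    · rcases Q with _ | x0
      · have h2 : w.ord x < 0 := h1
        have hx0 : x ≠ 0 := by
          rintro rfl
          rw [w.ord_zero] at h2
          exact lt_irrefl _ h2
        have hx : x ≠ -algebraMap k K l := by
          intro h3
          rw [h3, w.ord_neg, w.ord_const l hl] at h2
          exact lt_irrefl _ h2
        have hx' : x + algebraMap k K l ≠ 0 := fun h0 => hx (eq_neg_of_add_eq_zero_left h0)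
        rw [RI2_mo_some hx]
        change Red w ((x - algebraMap k K l) / (x + algebraMap k K l)) 1
        have hord : w.ord (x + algebraMap k K l) < 0 := by
          have hK0 : algebraMap k K l ≠ 0 := (map_ne_zero (algebraMap k K)).2 hl
          rw [(w.ord_add_of_lt hx0 hK0 (by rw [w.ord_const l hl]; exact h2)).2]
          exact h2
        rw [Pool.Agent.LibCHd.red_iff_sub (Pool.Agent.LibCHd.red_one w)]
        have h3 : (x - algebraMap k K l) / (x + algebraMap k K l) - 1 =
            algebraMap k K (-(2 * l)) * (x + algebraMap k K l)⁻¹ := by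
          rw [map_neg, map_mul, map_ofNat]
          field_simp
          ring
        rw [h3]
        refine Place.Zer.reg_mul (w.reg_const _) (Or.inr ?_)
        rw [w.ord_inv]
        omega
      · have h2 : Red w x x0 := h1
        by_cases hx : x = -algebraMap k K l
        · have hx0 : x0 = -algebraMap k (RF w) l := by
            rw [hx] at h2
            exact h2.unique hrL.neg
          rw [RI2_mo_pole hx, RI2_mo_pole hx0]
          rfl
        · have hx' : x + algebraMap k K l ≠ 0 := fun h0 => hx (eq_neg_of_add_eq_zero_left h0)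
          rw [RI2_mo_some hx]
          have ha : Red w (x + algebraMap k K l) (x0 + algebraMap k (RF w) l) := h2.add hrL
          have hs : Red w (x - algebraMap k K l) (x0 - algebraMap k (RF w) l) := h2.sub hrL
          by_cases hx0 : x0 = -algebraMap k (RF w) l
          · rw [RI2_mo_pole hx0]
            change w.ord ((x - algebraMap k K l) / (x + algebraMap k K l)) < 0
            rw [hx0, neg_add_cancel, Pool.Agent.LibCHd.red_zero_iff] at ha
            have ha' : 0 < w.ord (x + algebraMap k K l) := ha.resolve_left hx'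
            have hne : x0 - algebraMap k (RF w) l ≠ 0 := by
              rw [hx0]
              intro h0
              have h4 : (2 : RF w) * algebraMap k (RF w) l = 0 := by linear_combination -h0
              exact (mul_ne_zero h2' hL') h4
            rw [w.ord_div _ _ (hs.ne_zero hne) hx', hs.ord_eq_zero hne]
            omega
          · have hx0' : x0 + algebraMap k (RF w) l ≠ 0 := fun h0 => hx0 (eq_neg_of_add_eq_zero_left h0)
            rw [RI2_mo_some hx0]
            exact hs.div ha hx0'
  · have h1 := h j 1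
    change SpO w ((u j 1).map fun z => algebraMap k K κ * z)
      ((q j 1).map fun z => algebraMap k (RF w) κ * z)
    revert h1
    generalize u j 1 = Y
    generalize q j 1 = Q
    intro h1
    rcases Y with _ | y
    · have h2 : Q = none := h1
      rw [h2]
      rfl
    · rcases Q with _ | y0
      · have h2 : w.ord y < 0 := h1
        have hy : y ≠ 0 := by
          rintro rfl
          rw [w.ord_zero] at h2
          exact lt_irrefl _ h2
        change w.ord (algebraMap k K κ * y) < 0
        have hw' : algebraMap k K κ ≠ 0 := (map_ne_zero (algebraMap k K)).2 hκ0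
        rw [w.ord_mul _ _ hw' hy, w.ord_const _ hκ0, zero_add]
        exact h2
      · have h2 : Red w y y0 := h1
        exact (Pool.Agent.LibCHd.red_const w κ).mul h2

private theorem RI2_mem1 {l : k} {M : Type} [Field M] [Algebra k M] (F : IntermediateField k M) (X : Option M)
    (h : X.getD 0 ∈ F) : (mo (algebraMap k M l) X).getD 0 ∈ F := by
  rcases X with _ | x
  · exact one_mem F
  · change x ∈ F at h
    by_cases hx : x = -algebraMap k M l
    · rw [RI2_mo_pole hx]
      exact zero_mem F
    · rw [RI2_mo_some hx]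
      exact div_mem (sub_mem h (IntermediateField.algebraMap_mem F l))
        (add_mem h (IntermediateField.algebraMap_mem F l))

private theorem RI2_mem2 [CharZero k] {l : k} (hl : l ≠ 0) {M : Type} [Field M] [Algebra k M]
    (F : IntermediateField k M) (X : Option M) (h : (mo (algebraMap k M l) X).getD 0 ∈ F) : X.getD 0 ∈ F := by
  have h2 : (2 : M) ≠ 0 := RI2_fact (k := k)
  have hL : algebraMap k M l ≠ 0 := (map_ne_zero (algebraMap k M)).2 hl
  rcases X with _ | x
  · exact zero_mem F
  · change x ∈ F
    by_cases hx : x = -algebraMap k M l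
    · rw [hx]
      exact neg_mem (IntermediateField.algebraMap_mem F l)
    · have hx' : x + algebraMap k M l ≠ 0 := fun h0 => hx (eq_neg_of_add_eq_zero_left h0)
      rw [RI2_mo_some hx] at h
      change (x - algebraMap k M l) / (x + algebraMap k M l) ∈ F at h
      obtain ⟨X, hX⟩ : ∃ X : M, X = (x - algebraMap k M l) / (x + algebraMap k M l) := ⟨_, rfl⟩
      rw [← hX] at h
      have h1X : 1 - X ≠ 0 := by
        have e : 1 - X = 2 * algebraMap k M l / (x + algebraMap k M l) := by
          rw [hX]
          field_simp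
          ring
        rw [e]
        exact div_ne_zero (mul_ne_zero h2 hL) hx'
      have hxX : x = algebraMap k M l * (1 + X) / (1 - X) := by
        rw [eq_div_iff h1X, hX]
        field_simp
        ring
      rw [hxX]
      exact div_mem (mul_mem (IntermediateField.algebraMap_mem F l) (add_mem (one_mem F) h))
        (sub_mem (one_mem F) h)

private theorem RI2_mem3 {κ : k} {M : Type} [Field M] [Algebra k M] (F : IntermediateField k M) (V : Option M)
    (h : V.getD 0 ∈ F) : (V.map fun v => algebraMap k M κ * v).getD 0 ∈ F := by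
  rcases V with _ | v
  · exact zero_mem F
  · exact mul_mem (IntermediateField.algebraMap_mem F κ) h

private theorem RI2_mem4 {κ : k} (hκ0 : κ ≠ 0) {M : Type} [Field M] [Algebra k M] (F : IntermediateField k M)
    (V : Option M) (h : (V.map fun v => algebraMap k M κ * v).getD 0 ∈ F) : V.getD 0 ∈ F := by
  have hK : algebraMap k M κ ≠ 0 := (map_ne_zero (algebraMap k M)).2 hκ0
  rcases V with _ | v
  · exact zero_mem F
  · change algebraMap k M κ * v ∈ F at h
    change v ∈ F
    have h1 : v = (algebraMap k M κ)⁻¹ * (algebraMap k M κ * v) := by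
      rw [← mul_assoc, inv_mul_cancel₀ hK, one_mul]
    rw [h1]
    exact mul_mem (inv_mem (IntermediateField.algebraMap_mem F κ)) h

private theorem RI2_fld [CharZero k] {l κ : k} (hl : l ≠ 0) (hκ0 : κ ≠ 0) {M : Type} [Field M] [Algebra k M]
    (u : Pnt 3 M) : fld k (mb l κ u) = fld k u := by
  unfold fld
  apply le_antisymm
  · rw [IntermediateField.adjoin_le_iff]
    rintro _ ⟨⟨j, i⟩, rfl⟩
    have h0 : co u (j, i) ∈ IntermediateField.adjoin k (Set.range (co u)) :=
      IntermediateField.subset_adjoin k _ ⟨(j, i), rfl⟩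
    fin_cases i
    · exact RI2_mem1 _ (u j 0) h0
    · exact RI2_mem3 _ (u j 1) h0
  · rw [IntermediateField.adjoin_le_iff]
    rintro _ ⟨⟨j, i⟩, rfl⟩
    have h0 : co (mb l κ u) (j, i) ∈ IntermediateField.adjoin k (Set.range (co (mb l κ u))) :=
      IntermediateField.subset_adjoin k _ ⟨(j, i), rfl⟩
    fin_cases i
    · exact RI2_mem2 hl _ (u j 0) h0
    · exact RI2_mem4 hκ0 _ (u j 1) h0

private theorem RI2_zero [CharZero k] {l κ : k} (hl : l ≠ 0) (hκ0 : κ ≠ 0) {M : Type} [Field M] [Algebra k M]
    (u : Pnt 3 M) (h : cyc k u = 0) : cyc k (mb l κ u) = 0 := by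
  rw [cyc_zero_iff] at h ⊢
  rw [RI2_fld hl hκ0]
  exact h

theorem exists_mb [CharZero k] {n : ℕ} {t : Fin 3 → k} (hc : (symN n t).Good) {l κ : k} (hl : l ≠ 0)
    (ht : ∀ i, t i ≠ l ∧ t i ≠ -l) (hκ : κ ^ n = -∏ i, ((t i - l) / (t i + l))) :
    ∃ Γ : CH (symN n t) 3 1 →+ CH (recD n fun i => (t i - l) / (t i + l)) 3 1,
      ∀ (M : Type) [Field M] [Algebra k M] (u : Pnt 3 M), FunF k 1 M → On ((symN n t).over M) u →
        Γ (cls (symN n t) 1 u) = cls (recD n fun i => (t i - l) / (t i + l)) 1 (mb l κ u) := by
  have hn : n ≠ 0 := by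
    have : 2 ≤ n := hc.two
    omega
  have hκ0 : κ ≠ 0 := by
    rintro rfl
    rw [zero_pow hn] at hκ
    have h1 : ∏ i, ((t i - l) / (t i + l)) ≠ 0 := Finset.prod_ne_zero_iff.2 fun i _ =>
      div_ne_zero (sub_ne_zero.2 (ht i).1) (fun h0 => (ht i).2 (eq_neg_of_add_eq_zero_left h0))
    exact h1 (neg_eq_zero.1 hκ.symm)
  obtain ⟨H, hH⟩ := exists_hom (symN n t) 1 (G := CH (recD n fun i => (t i - l) / (t i + l)) 3 1)
    (fun M _ _ (u : Pnt 3 M) => cls (recD n fun i => (t i - l) / (t i + l)) 1 (mb l κ u))
    (by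
      intro M M' _ _ _ _ σ u _ _ _
      change cls (recD n fun i => (t i - l) / (t i + l)) 1 (mb l κ (mpP σ u)) = _
      rw [← RI2_map, cls_map])
  have hker : RatEq (symN n t) 3 1 ≤ H.ker := by
    apply desc (symN n t) 1 H
    intro K _ _ u g S q hK hu hg hq h1 h2
    have h3 : ∑ v ∈ S, v.ord g • H (cyc k (q v)) =
        ∑ v ∈ S, v.ord g • cls (recD n fun i => (t i - l) / (t i + l)) 1 (mb l κ (q v)) := by
      refine Finset.sum_congr rfl ?_
      intro v hv
      rw [hH (RF v) (q v) (h1 v hv) (on_sp hc hu (hq v))]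
    rw [h3]
    exact div_rel (recD n fun i => (t i - l) / (t i + l)) 3 1 hK (mb l κ u) (RI2_on hc ht hκ hu) g hg S
      (fun v => mb l κ (q v)) (fun v => RI2_sp hl hκ0 v (hq v)) h1
      (fun v hv hvg hF => RI2_zero hl hκ0 _ (h2 v hv hvg hF))
  refine ⟨QuotientAddGroup.lift (RatEq (symN n t) 3 1) H hker, ?_⟩
  intro M _ _ u hM hu
  change QuotientAddGroup.lift (RatEq (symN n t) 3 1) H hker (QuotientAddGroup.mk (cyc k u)) = _
  rw [QuotientAddGroup.lift_mk]
  exact hH M u hM hu

end Pool.Agent.LibCW77
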