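import Pool.Agent.LibCW77.RG1
import Pool.Agent.LibCW77.NG2

/-!
[CW77 RL] MEDIUM/STRONG: comparison of leading parts, general p

`evL (α * W) = ∑_{l < p} j (cmpo p f (α W) l) v ^ l` (`cmpo_eval`), `evL G = ∑_{l < p} j (G.coeff l) v ^ l`. By `hu`: `G_l = γ cmpo (α W) l` for `l < p` (in `RatFunc k`). The reduction of `cmpo (α W) l` is
`cmpo p f' (α' * C w') l = w' α'_l` (`cmpo_map` with `rdh O`, `cmpo_C_mul`, `cmpo_lt`; `natDegree (α.map _) < p`). Some `α'_l ≠ 0`: `γ * (...)` has a reduction, so `γ ∈ O` (`rd_mem`, NG2); some `G'_l ≠ 0` and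
`γ⁻¹ G_l = cmpo (α W) l`: `γ⁻¹ ∈ O`. So `c = rs O γ ≠ 0` and `G'_l = C c * w' * α'_l` for `l < p`; both sides have degree `< p`.
-/

open scoped Classical
open Polynomial

namespace Pool.Agent.LibCW77

open Pool.Agent.LibBH2
open Pool.Agent.LibCHd (VR RF Red FunF)

variable {k : Type} [Field k]

theorem leadp {O : ValuationSubring k} {p : ℕ} (hp : 0 < p) {L : Type} [Field L] (j : RatFunc k →+* L) {v : L}
    {f : O1 O} (hv : v ^ p = j f)
    (hu : ∀ r : ℕ → RatFunc k, ∑ l ∈ Finset.range p, j (r l) * v ^ l = 0 → ∀ l < p, r l = 0)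
    {G α W : (O1 O)[X]} (hG : G.natDegree < p) (hα : α.natDegree < p) {γ : k} (hγ : γ ≠ 0)
    (hG0 : G.map (rdh O) ≠ 0) (hα0 : α.map (rdh O) ≠ 0) {w' : RatFunc (KK O)} (hw : w' ≠ 0)
    (hW : W.map (rdh O) = C w') (h : evL j v G = j (RatFunc.C γ) * (evL j v α * evL j v W)) :
    ∃ c : KK O, c ≠ 0 ∧ G.map (rdh O) = C (RatFunc.C c * w') * α.map (rdh O) := by
  have hφ : v ^ p = (j.comp (O1 O).subtype) f := hv
  have hev : ∀ P : (O1 O)[X], evL j v P = ∑ l ∈ Finset.range p, j ((cmpo p f P l : O1 O) : RatFunc k) * v ^ l := by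
    intro P
    exact cmpo_eval (j.comp (O1 O).subtype) hp hφ P
  have hmul : evL j v α * evL j v W = evL j v (α * W) := (map_mul _ _ _).symm
  have key : ∀ l < p, ((G.coeff l : O1 O) : RatFunc k) =
      RatFunc.C γ * ((cmpo p f (α * W) l : O1 O) : RatFunc k) := by
    have h1 : ∑ l ∈ Finset.range p, j (((cmpo p f G l : O1 O) : RatFunc k) -
        RatFunc.C γ * ((cmpo p f (α * W) l : O1 O) : RatFunc k)) * v ^ l = 0 := by
      have h2 : ∀ l ∈ Finset.range p, j (((cmpo p f G l : O1 O) : RatFunc k) -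
          RatFunc.C γ * ((cmpo p f (α * W) l : O1 O) : RatFunc k)) * v ^ l =
          j ((cmpo p f G l : O1 O) : RatFunc k) * v ^ l -
            j (RatFunc.C γ) * (j ((cmpo p f (α * W) l : O1 O) : RatFunc k) * v ^ l) := by
        intro l _
        rw [map_sub, map_mul]
        ring
      rw [Finset.sum_congr rfl h2, Finset.sum_sub_distrib, ← Finset.mul_sum, ← hev, ← hev, ← hmul, h, sub_self]
    intro l hl
    have h3 := hu _ h1 l hl
    rw [cmpo_lt f hG hl] at h3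
    exact sub_eq_zero.1 h3
  have hαd : (α.map (rdh O)).natDegree < p := lt_of_le_of_lt natDegree_map_le hα
  have hGd : (G.map (rdh O)).natDegree < p := lt_of_le_of_lt natDegree_map_le hG
  have hred : ∀ l < p, Rd O ((cmpo p f (α * W) l : O1 O) : RatFunc k) (w' * (α.map (rdh O)).coeff l) := by
    intro l hl
    have h1 : rdh O (cmpo p f (α * W) l) = w' * (α.map (rdh O)).coeff l := by
      rw [← cmpo_map, Polynomial.map_mul, hW, mul_comm, cmpo_C_mul, cmpo_lt _ hαd hl]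
    rw [← h1]
    exact rdh_spec _
  have hGr : ∀ l, Rd O ((G.coeff l : O1 O) : RatFunc k) ((G.map (rdh O)).coeff l) := by
    intro l
    rw [coeff_map]
    exact rdh_spec _
  have hlt : ∀ P : (RatFunc (KK O))[X], P ≠ 0 → P.natDegree < p → ∃ l < p, P.coeff l ≠ 0 := by
    intro P hP hd
    exact ⟨P.natDegree, hd, by rw [coeff_natDegree, Ne, leadingCoeff_eq_zero]; exact hP⟩
  have hγO : γ ∈ O := by
    obtain ⟨l, hl, hl0⟩ := hlt _ hα0 hαd
    have h1 := hGr l
    rw [key l hl] at h1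
    exact rd_mem (hred l hl) (mul_ne_zero hw hl0) h1
  have hγi : γ⁻¹ ∈ O := by
    obtain ⟨l, hl, hl0⟩ := hlt _ hG0 hGd
    have h1 := hred l hl
    have h2 : ((cmpo p f (α * W) l : O1 O) : RatFunc k) = RatFunc.C γ⁻¹ * ((G.coeff l : O1 O) : RatFunc k) := by
      rw [key l hl, ← mul_assoc, ← map_mul, inv_mul_cancel₀ hγ, map_one, one_mul]
    rw [h2] at h1
    exact rd_mem (hGr l) hl0 h1
  refine ⟨rs O ⟨γ, hγO⟩, ?_, ?_⟩
  · intro h0
    have h1 : rs O ⟨γ, hγO⟩ * rs O ⟨γ⁻¹, hγi⟩ = 1 := by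
      rw [← map_mul]
      have h2 : (⟨γ, hγO⟩ : O) * ⟨γ⁻¹, hγi⟩ = 1 := Subtype.ext (mul_inv_cancel₀ hγ)
      rw [h2, map_one]
    rw [h0, zero_mul] at h1
    exact zero_ne_one h1
  · ext l
    rw [coeff_C_mul]
    by_cases hl : l < p
    · have h1 := rd_mul (rd_C (⟨γ, hγO⟩ : O)) (hred l hl)
      have h2 : RatFunc.C ((⟨γ, hγO⟩ : O) : k) * ((cmpo p f (α * W) l : O1 O) : RatFunc k) =
          ((G.coeff l : O1 O) : RatFunc k) := (key l hl).symm
      rw [h2] at h1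
      rw [rd_unique (hGr l) h1, mul_assoc]
    · push Not at hl
      rw [coeff_eq_zero_of_natDegree_lt (lt_of_lt_of_le hGd hl), coeff_eq_zero_of_natDegree_lt (lt_of_lt_of_le hαd hl),
        mul_zero]

end Pool.Agent.LibCW77
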