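import Pool.Agent.LibCW77.RN0
import Pool.Agent.LibCW77.NG3

/-!
[CW77 RN] the p-adic argument for functions with the divisor `M (p ∑ (a_i, b_i) - (number) F)`.
-/

open scoped Classical
open Polynomial

namespace Pool.Agent.LibCW77

variable {k : Type} [Field k]

/-- the first step for one point: comparison of the leading parts -/
theorem RN_lead [IsAlgClosed k] [CharZero k] {O : ValuationSubring k} {p : ℕ} (hp : p.Prime) (hO : rs O (p : O) = 0)
    {L : Type} [Field L] (j : RatFunc k →+* L) {v : L} {f : O1 O} (hv : v ^ p = j (f : RatFunc k))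
    (hu : ∀ r : ℕ → RatFunc k, ∑ l ∈ Finset.range p, j (r l) * v ^ l = 0 → ∀ l < p, r l = 0) {b : O}
    (hf : rdh O f ≠ RatFunc.C (rs O b ^ p)) {M : ℕ} {g : L} {Gs : (O1 O)[X]} (hGs : Gs.natDegree < p)
    (hGs0 : Gs.map (rdh O) ≠ 0) {β : k} (hβ : β ≠ 0) (hg : g = j (RatFunc.C β) * evL j v Gs)
    {t : KK O} {α : ℕ → RatFunc k}
    (hα : g = (∑ l ∈ Finset.range p, j (α l) * v ^ l) * (v - j (RatFunc.C (b : k))) ^ (p * M))
    (hreg : ∀ c : O, rs O c = t → ∀ l < p, (α l).denom.eval (c : k) ≠ 0) :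
    ∃ (βt : k) (αs : (O1 O)[X]) (c : KK O) (φ : O1 O) (ρ : (O1 O)[X]), βt ≠ 0 ∧ c ≠ 0 ∧ αs.natDegree < p ∧
      (∀ l < p, α l = RatFunc.C βt * (αs.coeff l : RatFunc k)) ∧
      (∀ l < p, (rdh O (αs.coeff l)).denom.eval t ≠ 0) ∧
      rdh O φ = rdh O f - RatFunc.C (rs O b ^ p) ∧
      (ρ.natDegree < p ∧ ρ.coeff 0 = 0) ∧
      (∀ l, l ≠ 0 → l < p → rdh O (ρ.coeff l) =
        RatFunc.C (((p.choose l / p : ℕ) : KK O) * (-rs O b) ^ (p - l)) / (rdh O f - RatFunc.C (rs O b ^ p))) ∧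
      (∀ l, l ≠ 0 → l < p → ((p.choose l / p : ℕ) : KK O) ≠ 0) ∧
      (v - j (RatFunc.C (b : k))) ^ p = j (φ : RatFunc k) * (1 + j (RatFunc.C (p : k)) * evL j v ρ) ∧
      Gs.map (rdh O) = C (RatFunc.C c * (rdh O f - RatFunc.C (rs O b ^ p)) ^ M) * αs.map (rdh O) := by
  obtain ⟨φ, ρ, hφ, hρ, hρl, hbin, hpow⟩ := bin_p hp hO j hv b hf
  have hg0 : g ≠ 0 := by
    rw [hg]
    apply mul_ne_zero
    · rw [_root_.map_ne_zero, _root_.map_ne_zero]
      exact hβ
    · intro h0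
      rw [evL_sum j v hGs] at h0
      have h1 := hu (fun l => (Gs.coeff l : RatFunc k)) h0
      apply hGs0
      ext l
      rw [coeff_map, coeff_zero]
      by_cases hl : l < p
      · have h2 : Gs.coeff l = 0 := Subtype.ext (h1 l hl)
        rw [h2, map_zero]
      · rw [coeff_eq_zero_of_natDegree_lt (by omega), map_zero]
  have hα0 : ∃ l < p, α l ≠ 0 := by
    by_contra hc
    push Not at hc
    apply hg0
    rw [hα, Finset.sum_eq_zero, zero_mul]
    intro l hl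
    rw [hc l (Finset.mem_range.mp hl), map_zero, zero_mul]
  obtain ⟨βt, αs, hβt, hαd, hαl, hαs0⟩ := scaleP (O := O) α hα0
  set W : (O1 O)[X] := (C φ * (1 + C (cO O (p : O)) * ρ)) ^ M with hW
  have hWe : evL j v W = (v - j (RatFunc.C (b : k))) ^ (p * M) := by
    rw [hW, pow_mul, hpow, map_pow, map_mul, map_add, map_one, map_mul, evL_C, evL_C]
    have : ((cO O (p : O) : O1 O) : RatFunc k) = RatFunc.C (p : k) := by
      show RatFunc.C (((p : O) : O) : k) = _
      norm_cast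
    rw [this]
  have hWr : W.map (rdh O) = C ((rdh O f - RatFunc.C (rs O b ^ p)) ^ M) := by
    rw [hW, Polynomial.map_pow, Polynomial.map_mul, Polynomial.map_add, Polynomial.map_mul, Polynomial.map_C,
      Polynomial.map_C, Polynomial.map_one, rdh_cO, hO, map_zero, map_zero, zero_mul, add_zero, mul_one, hφ, C_pow]
  have hw0 : (rdh O f - RatFunc.C (rs O b ^ p)) ^ M ≠ 0 := pow_ne_zero _ (sub_ne_zero.mpr hf)
  have hαe : ∑ l ∈ Finset.range p, j (α l) * v ^ l = j (RatFunc.C βt) * evL j v αs := by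
    rw [evL_sum j v hαd, Finset.mul_sum]
    apply Finset.sum_congr rfl
    intro l hl
    rw [hαl l (Finset.mem_range.mp hl), map_mul]
    ring
  have hβ' : RatFunc.C β * RatFunc.C β⁻¹ = (1 : RatFunc k) := by
    rw [← map_mul, mul_inv_cancel₀ hβ, map_one]
  obtain ⟨c, hc, hlead⟩ := leadp hp.pos j hv hu hGs hαd (γ := β⁻¹ * βt) (mul_ne_zero (inv_ne_zero hβ) hβt) hGs0 hαs0
    hw0 hWr (by
      have h1 : j (RatFunc.C β) * evL j v Gs = j (RatFunc.C βt) * evL j v αs * evL j v W := by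
        rw [← hg, hα, hαe, hWe]
      have h2 : j (RatFunc.C β) * j (RatFunc.C β⁻¹) = 1 := by
        rw [← map_mul, hβ', map_one]
      rw [map_mul, map_mul]
      linear_combination (j (RatFunc.C β⁻¹)) * h1 - evL j v Gs * h2)
  refine ⟨βt, αs, c, φ, ρ, hβt, hc, hαd, hαl, ?_, hφ, hρ, hρl, hbin, hpow, hlead⟩
  intro l hl
  refine rd_reg (rdh_spec (αs.coeff l)) t ?_
  intro a ha
  have h1 : (αs.coeff l : RatFunc k) = RatFunc.C βt⁻¹ * α l := by
    rw [hαl l hl, ← mul_assoc, ← map_mul, inv_mul_cancel₀ hβt, map_one, one_mul]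
  rw [h1]
  refine NT_reg_mul ?_ (hreg a ha l hl)
  refine NT_reg_of (p := C βt⁻¹) (q := 1) (by simp) ?_
  rw [RatFunc.algebraMap_C, map_one, div_one]

end Pool.Agent.LibCW77
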