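import Pool.Agent.LibCW77.RG1

/-!
[CW77 RP] STRONG: powers, prime p

The p-version of NP.lean (done, in the store: CW77_NP.lean; for `p = 3`). Everything in the ring `(O1 O)[X]`, `ev = evL j v`, `ev (C (cO O b)) = j (RatFunc.C b)`; an element `R` of `(O1 O)[X]` has
`ev R = ∑_{l < p} j (cmpo p f R l) v ^ l` (`cmpo_eval`). (1) `M` with `rs O M ≠ 0` (i.e. `p ∤ M`: `M` and `p` are coprime and `rs O p = 0`): `(1 + b ρ) ^ M = 1 + M b ρ + b ^ 2 U` in the ring (induction, or
`add_pow_two`-like: exists `U`), so with `Z = 1 + b ^ 2 cmpo U 0` (reduction `1`, a unit of `O1 O`: `rd_inv`) and `σ_l = (ρ_l + b M⁻¹ cmpo U l) / Z` for `0 < l < p`. (2) exponent `p`: `(1 + b ρ) ^ p = 1 + p b (ρ + b U) + b ^ p ρ ^ p` (`add_pow`, `p ∣ choose p i` for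
`0 < i < p`: `Nat.Prime.dvd_choose_self`) and `ρ ^ p = ∑_l C (ρ_l ^ p) X ^ (l p) + p V` (induction on the number of terms with `exists_add_pow_prime_eq` / `add_pow`, or: the difference is in the kernel
of ... ; `Commute.exists_add_pow_prime_eq`), whose coordinates `l > 0` are `p cmpo V l` (`cmpo_X_pow`); so `Z = 1 + b ^ p ∑ ρ_l ^ p f ^ l + p b (...)` reduces to `1`, and the coordinate `l > 0` is `p b (ρ_l + b (...))`: `σ_l = (ρ_l + b ...) / Z`.
(3) Strong induction on `M`: `M = p M'`: `(1 + b ρ) ^ M' = Z' (1 + M' b σ')`, then (2) with `M' b` (`rs O (M' b) = 0`) and `σ'`. (If `p ∤ M`: (1).)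
-/

open scoped Classical
open Polynomial

namespace Pool.Agent.LibCW77

open Pool.Agent.LibBH2
open Pool.Agent.LibCHd (VR RF Red FunF)

variable {k : Type} [Field k]

private theorem RP_pow_p {R : Type} [CommRing R] {p : ℕ} (hp : p.Prime) (y : R) :
    ∃ s, (1 + y) ^ p = 1 + y ^ p + p * (y * (1 + y * s)) := by
  obtain ⟨q, rfl⟩ : ∃ q, p = q + 2 := ⟨p - 2, by have := hp.two_le; omega⟩
  have hd : ∀ i, i < q → ∃ c : ℕ, (q + 2).choose (i + 1 + 1) = (q + 2) * c := by
    intro i hi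
    exact hp.dvd_choose_self (by omega) (by omega)
  choose! c hc using hd
  refine ⟨∑ i ∈ Finset.range q, y ^ i * c i, ?_⟩
  rw [add_comm 1 y, add_pow]
  rw [Finset.sum_range_succ, Finset.sum_range_succ', Finset.sum_range_succ']
  have h1 : ∑ i ∈ Finset.range q, y ^ (i + 1 + 1) * 1 ^ (q + 2 - (i + 1 + 1)) *
      ((q + 2).choose (i + 1 + 1) : R) =
      ((q + 2 : ℕ) : R) * (y * (y * ∑ i ∈ Finset.range q, y ^ i * c i)) := by
    simp only [Finset.mul_sum]
    refine Finset.sum_congr rfl fun i hi => ?_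
    rw [hc i (Finset.mem_range.1 hi)]
    push_cast
    ring
  rw [h1]
  simp
  ring

private theorem RP_sum_pow {R ι : Type} [CommRing R] {p : ℕ} (hp : p.Prime) (s : Finset ι) (g : ι → R) :
    ∃ V, (∑ i ∈ s, g i) ^ p = (∑ i ∈ s, g i ^ p) + p * V := by
  induction s using Finset.induction_on with
  | empty => exact ⟨0, by simp [hp.ne_zero]⟩
  | insert a s ha ih =>
    obtain ⟨V, hV⟩ := ih
    obtain ⟨r, hr⟩ := exists_add_pow_prime_eq hp (g a) (∑ i ∈ s, g i)
    refine ⟨V + g a * (∑ i ∈ s, g i) * r, ?_⟩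
    rw [Finset.sum_insert ha, Finset.sum_insert ha, hr, hV]
    ring

private theorem RP_exp {R : Type} [CommRing R] (y : R) (M : ℕ) :
    ∃ U, (1 + y) ^ M = 1 + M * y + y ^ 2 * U := by
  induction M with
  | zero => exact ⟨0, by simp⟩
  | succ M ih =>
    obtain ⟨U, hU⟩ := ih
    refine ⟨U + M + y * U, ?_⟩
    rw [pow_succ, hU]
    push_cast
    ring

/-- the normal form -/
private theorem RP_nf {A B L : Type} [CommRing A] [CommRing B] [Nontrivial B] [CommRing L] (red : A →+* B)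
    (hu : ∀ z, red z = 1 → ∃ w, z * w = 1) {p : ℕ} (hp : 0 < p) (φ : A →+* L) {v : L} {f : A}
    (hv : v ^ p = φ f) {β : A} (hβ : red β = 0) {ρ : A[X]} (hρ : ρ.natDegree < p ∧ ρ.coeff 0 = 0)
    {Z0 : A} (hZ0 : red Z0 = 1) (m : A) (U : A[X]) :
    ∃ (Z : A) (σ : A[X]), red Z = 1 ∧ (σ.natDegree < p ∧ σ.coeff 0 = 0) ∧ σ.map red = ρ.map red ∧
      φ Z0 + φ m * eval₂ φ v (ρ + C β * U) = φ Z * (1 + φ m * eval₂ φ v σ) := by
  have hZ : red (Z0 + m * (β * cmpo p f U 0)) = 1 := by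
    rw [map_add, map_mul, map_mul, hβ, hZ0]; ring
  obtain ⟨w, hw⟩ := hu _ hZ
  have hw1 : red w = 1 := by
    have := congrArg red hw
    rw [map_mul, hZ, one_mul, map_one] at this
    exact this
  set Z := Z0 + m * (β * cmpo p f U 0) with hZdef
  set c : ℕ → A := fun l => if l = 0 then 0 else w * (ρ.coeff l + β * cmpo p f U l) with hc
  have hcoeff : ∀ l, (∑ i ∈ Finset.range p, C (c i) * X ^ i : A[X]).coeff l = if l < p then c l else 0 := by
    intro l
    rw [Polynomial.finsetSum_coeff]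
    simp only [Polynomial.coeff_C_mul_X_pow]
    rw [Finset.sum_ite_eq (Finset.range p) l c]
    simp only [Finset.mem_range]
  refine ⟨Z, ∑ i ∈ Finset.range p, C (c i) * X ^ i, hZ, ⟨?_, ?_⟩, ?_, ?_⟩
  · refine lt_of_le_of_lt (Polynomial.natDegree_sum_le_of_forall_le (n := p - 1) _ _ ?_) (by omega)
    intro i hi
    refine (Polynomial.natDegree_C_mul_X_pow_le _ _).trans ?_
    have := Finset.mem_range.1 hi
    omega
  · rw [hcoeff, if_pos hp, hc]
    simp
  · ext l
    rw [Polynomial.coeff_map, Polynomial.coeff_map, hcoeff]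
    by_cases hl : l < p
    · rw [if_pos hl, hc]
      by_cases h0 : l = 0
      · subst h0
        simp [hρ.2]
      · simp only [if_neg h0, map_mul, map_add, hw1, hβ, zero_mul, add_zero, one_mul]
    · rw [if_neg hl, map_zero, Polynomial.coeff_eq_zero_of_natDegree_lt (by omega), map_zero]
  · have hw' : φ Z * φ w = 1 := by rw [← map_mul, hw, map_one]
    have e1 : eval₂ φ v (∑ i ∈ Finset.range p, C (c i) * X ^ i : A[X]) =
        ∑ i ∈ Finset.range p, φ (c i) * v ^ i := by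
      rw [Polynomial.eval₂_finsetSum]
      refine Finset.sum_congr rfl fun i _ => ?_
      rw [Polynomial.eval₂_mul, Polynomial.eval₂_C, Polynomial.eval₂_X_pow]
    have e2 : eval₂ φ v ρ = ∑ i ∈ Finset.range p, φ (ρ.coeff i) * v ^ i := by
      rw [cmpo_eval φ hp hv]
      refine Finset.sum_congr rfl fun i hi => ?_
      rw [cmpo_lt f hρ.1 (Finset.mem_range.1 hi)]
    have e3 : eval₂ φ v U = ∑ i ∈ Finset.range p, φ (cmpo p f U i) * v ^ i := cmpo_eval φ hp hv U
    rw [Polynomial.eval₂_add, Polynomial.eval₂_mul, Polynomial.eval₂_C, e1, e2, e3]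
    obtain ⟨q, rfl⟩ : ∃ q, p = q + 1 := ⟨p - 1, by omega⟩
    rw [Finset.sum_range_succ', Finset.sum_range_succ', Finset.sum_range_succ']
    have h5 : φ Z * ∑ i ∈ Finset.range q, φ (c (i + 1)) * v ^ (i + 1) =
        ∑ i ∈ Finset.range q, φ (ρ.coeff (i + 1)) * v ^ (i + 1) +
          φ β * ∑ i ∈ Finset.range q, φ (cmpo (q + 1) f U (i + 1)) * v ^ (i + 1) := by
      rw [Finset.mul_sum, Finset.mul_sum, ← Finset.sum_add_distrib]
      refine Finset.sum_congr rfl fun i _ => ?_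
      have h6 : c (i + 1) = w * (ρ.coeff (i + 1) + β * cmpo (q + 1) f U (i + 1)) := by
        rw [hc]; simp
      rw [h6]
      simp only [map_mul, map_add]
      linear_combination ((φ (ρ.coeff (i + 1)) + φ β * φ (cmpo (q + 1) f U (i + 1))) * v ^ (i + 1)) * hw'
    have h7 : c 0 = 0 := by rw [hc]; simp
    have h8 : φ Z = φ Z0 + φ m * (φ β * φ (cmpo (q + 1) f U 0)) := by
      rw [hZdef, map_add, map_mul, map_mul]
    rw [h7, hρ.2, map_zero]
    linear_combination (-φ m) * h5 - h8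

private theorem RP_prime {A B L : Type} [CommRing A] [CommRing B] [Nontrivial B] [CommRing L] (red : A →+* B)
    (hu : ∀ z, red z = 1 → ∃ w, z * w = 1) {p : ℕ} (hp : p.Prime) (φ : A →+* L) {v : L} {f : A}
    (hv : v ^ p = φ f) {β : A} (hβ : red β = 0) {ρ : A[X]} (hρ : ρ.natDegree < p ∧ ρ.coeff 0 = 0) :
    ∃ (Z : A) (σ : A[X]), red Z = 1 ∧ (σ.natDegree < p ∧ σ.coeff 0 = 0) ∧ σ.map red = ρ.map red ∧
      (1 + φ β * eval₂ φ v ρ) ^ p = φ Z * (1 + φ (p * β) * eval₂ φ v σ) := by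
  obtain ⟨s, hs⟩ := RP_pow_p hp (C β * ρ)
  obtain ⟨V, hV⟩ := RP_sum_pow hp (Finset.range p) (fun i => C (ρ.coeff i) * X ^ i)
  have hsum : ∑ i ∈ Finset.range p, C (ρ.coeff i) * X ^ i = ρ := by
    conv_rhs => rw [Polynomial.as_sum_range' ρ p hρ.1]
    exact Finset.sum_congr rfl fun i _ => Polynomial.C_mul_X_pow_eq_monomial
  rw [hsum] at hV
  obtain ⟨q, hq⟩ : ∃ q, p = q + 2 := ⟨p - 2, by have := hp.two_le; omega⟩
  set N : A := ∑ i ∈ Finset.range p, ρ.coeff i ^ p * f ^ i with hN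
  have hZ0 : red (1 + β ^ p * N) = 1 := by
    rw [map_add, map_one, map_mul, map_pow, hβ, zero_pow hp.ne_zero, zero_mul, add_zero]
  obtain ⟨Z, σ, h1, h2, h3, h4⟩ := RP_nf red hu hp.pos φ hv hβ hρ hZ0 (p * β)
    (ρ ^ 2 * s + C β ^ q * V)
  refine ⟨Z, σ, h1, h2, h3, ?_⟩
  rw [← h4]
  have e1 : (1 + φ β * eval₂ φ v ρ) ^ p = eval₂ φ v ((1 + C β * ρ) ^ p) := by
    rw [Polynomial.eval₂_pow, Polynomial.eval₂_add, Polynomial.eval₂_one, Polynomial.eval₂_mul,
      Polynomial.eval₂_C]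
  have e2 : eval₂ φ v (∑ i ∈ Finset.range p, (C (ρ.coeff i) * X ^ i) ^ p) = φ N := by
    rw [Polynomial.eval₂_finsetSum, hN, map_sum]
    refine Finset.sum_congr rfl fun i _ => ?_
    rw [Polynomial.eval₂_pow, Polynomial.eval₂_mul, Polynomial.eval₂_C, Polynomial.eval₂_X_pow, mul_pow,
      map_mul, map_pow, map_pow, ← hv, ← pow_mul, ← pow_mul, mul_comm i p]
  rw [e1, hs, mul_pow, hV]
  simp only [Polynomial.eval₂_add, Polynomial.eval₂_mul, Polynomial.eval₂_pow, Polynomial.eval₂_one,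
    Polynomial.eval₂_C, Polynomial.eval₂_natCast] at e2 ⊢
  rw [e2]
  simp only [map_add, map_mul, map_pow, map_one, map_natCast]
  have hpw : φ β ^ p = φ β * (φ β * φ β ^ q) := by rw [hq]; ring
  rw [hpw]
  ring

private theorem RP_unit {O : ValuationSubring k} {p : ℕ} (hp : p.Prime) (h3 : rs O (p : O) = 0) {M : ℕ}
    (hM : ¬ p ∣ M) : ∃ w : O, (M : O) * w = 1 := by
  have h1 : rs O (M : O) ≠ 0 := by
    intro h
    have hc : Nat.Coprime M p := ((Nat.Prime.coprime_iff_not_dvd hp).2 hM).symm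
    have h2 := congrArg (fun t : ℤ => rs O (t : O)) (Nat.gcd_eq_gcd_ab M p)
    simp only [hc.gcd_eq_one, Nat.cast_one, Int.cast_one, map_one, Int.cast_add, Int.cast_mul,
      Int.cast_natCast, map_add, map_mul, h, h3, zero_mul, add_zero] at h2
    exact one_ne_zero h2
  have h2 : IsUnit (M : O) := by
    by_contra hc
    exact h1 ((IsLocalRing.residue_eq_zero_iff _).2 hc)
  exact h2.exists_right_inv

theorem pwp {O : ValuationSubring k} {p : ℕ} (hp : p.Prime) (hO : rs O (p : O) = 0) {L : Type} [Field L]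
    (j : RatFunc k →+* L) {v : L} {f : O1 O} (hv : v ^ p = j f) {b : O} (hb : rs O b = 0) {ρ : (O1 O)[X]}
    (hρ : ρ.natDegree < p ∧ ρ.coeff 0 = 0) (M : ℕ) (hM : 0 < M) :
    ∃ (Z : O1 O) (σ : (O1 O)[X]), rdh O Z = 1 ∧ (σ.natDegree < p ∧ σ.coeff 0 = 0) ∧
      σ.map (rdh O) = ρ.map (rdh O) ∧
      (1 + j (RatFunc.C (b : k)) * evL j v ρ) ^ M =
        j Z * (1 + j (RatFunc.C ((M : k) * (b : k))) * evL j v σ) := by
  have hu : ∀ z : O1 O, rdh O z = 1 → ∃ w, z * w = 1 := by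
    intro z hz
    have h1 : Rd O (z : RatFunc k) 1 := by
      have := rdh_spec z
      rwa [hz] at this
    have h0 := rd_ne h1 one_ne_zero
    have h2 := rd_div rd_one h1 one_ne_zero
    refine ⟨⟨1 / (z : RatFunc k), ⟨_, h2⟩⟩, Subtype.ext ?_⟩
    show (z : RatFunc k) * (1 / (z : RatFunc k)) = 1
    field_simp
  have hv' : v ^ p = (j.comp (O1 O).subtype) f := hv
  have key : ∀ M : ℕ, 0 < M → ∃ (Z : O1 O) (σ : (O1 O)[X]), rdh O Z = 1 ∧
      (σ.natDegree < p ∧ σ.coeff 0 = 0) ∧ σ.map (rdh O) = ρ.map (rdh O) ∧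
      (1 + (j.comp (O1 O).subtype) (cO O b) * eval₂ (j.comp (O1 O).subtype) v ρ) ^ M =
        (j.comp (O1 O).subtype) Z * (1 + (j.comp (O1 O).subtype) (cO O ((M : O) * b)) *
          eval₂ (j.comp (O1 O).subtype) v σ) := by
    generalize j.comp (O1 O).subtype = φ at hv'
    intro M
    induction M using Nat.strong_induction_on with
    | _ M ih =>
      intro hM
      by_cases hMp : p ∣ M
      · obtain ⟨m, rfl⟩ := hMp
        have hm : 0 < m := Nat.pos_of_mul_pos_left hM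
        obtain ⟨Z, σ, h1, h2, h3, h4⟩ := ih m (by nlinarith [hp.two_le]) hm
        have hmb : rdh O (cO O ((m : O) * b)) = 0 := by
          rw [rdh_cO, map_mul, hb, mul_zero, map_zero]
        obtain ⟨Z', τ, g1, g2, g3, g4⟩ := RP_prime (rdh O) hu hp φ hv' hmb h2
        refine ⟨Z ^ p * Z', τ, ?_, g2, g3.trans h3, ?_⟩
        · rw [map_mul, map_pow, h1, g1, one_pow, one_mul]
        · rw [mul_comm p m, pow_mul, h4, mul_pow, g4, map_mul φ (p : O1 O)]
          have h5 : cO O (((m * p : ℕ) : O) * b) = p * cO O ((m : O) * b) := by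
            rw [← map_natCast (cO O), ← map_mul]
            congr 1
            push_cast
            ring
          rw [h5, map_mul φ (Z ^ p) Z', map_pow φ Z p, map_mul φ (p : O1 O)]
          ring
      · obtain ⟨w, hw⟩ := RP_unit hp hO hMp
        obtain ⟨U, hU⟩ := RP_exp (C (cO O b) * ρ) M
        have hb' : rdh O (cO O b) = 0 := by rw [rdh_cO, hb, map_zero]
        obtain ⟨Z, σ, h1, h2, h3, h4⟩ := RP_nf (rdh O) hu hp.pos φ hv' hb' hρ (map_one (rdh O))
          (cO O ((M : O) * b)) (C (cO O w) * (ρ ^ 2 * U))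
        refine ⟨Z, σ, h1, h2, h3, ?_⟩
        rw [← h4]
        have e1 : (1 + φ (cO O b) * eval₂ φ v ρ) ^ M = eval₂ φ v ((1 + C (cO O b) * ρ) ^ M) := by
          rw [Polynomial.eval₂_pow, Polynomial.eval₂_add, Polynomial.eval₂_one, Polynomial.eval₂_mul,
            Polynomial.eval₂_C]
        have hw' : (M : L) * φ (cO O w) = 1 := by
          rw [← map_natCast φ, ← map_natCast (cO O), ← map_mul, ← map_mul, hw, map_one, map_one]
        rw [e1, hU]
        simp only [Polynomial.eval₂_add, Polynomial.eval₂_mul, Polynomial.eval₂_pow, Polynomial.eval₂_one,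
          Polynomial.eval₂_C, Polynomial.eval₂_natCast, map_mul, map_one, map_natCast]
        linear_combination (-(φ (cO O b) ^ 2 * eval₂ φ v ρ ^ 2 * eval₂ φ v U)) * hw'
  obtain ⟨Z, σ, h1, h2, h3, h4⟩ := key M hM
  refine ⟨Z, σ, h1, h2, h3, ?_⟩
  have h5 : (((M : O) * b : O) : k) = (M : k) * (b : k) := by push_cast; rfl
  have h6 : (j.comp (O1 O).subtype) (cO O ((M : O) * b)) = j (RatFunc.C ((M : k) * (b : k))) := by
    rw [← h5]; rfl
  rw [h6] at h4
  exact h4

end Pool.Agent.LibCW77
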