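import Pool.Agent.LibCW77.RG1
import Pool.Agent.LibCW77.RG3
import Pool.Agent.LibCW77.RP
import Pool.Agent.LibCW77.RC
import Pool.Agent.LibCW77.RL
import Pool.Agent.LibCW77.RH
import Pool.Agent.LibCW77.RF
import Pool.Agent.LibCW77.NT1

/-!
[CW77 RN0] lemmas for the p-adic argument.
-/

open scoped Classical
open Polynomial

namespace Pool.Agent.LibCW77

variable {k : Type} [Field k] {O : ValuationSubring k}

/-- the polynomial with the coefficients `r l`, `l < p` -/
noncomputable def mkp {R : Type} [CommRing R] (p : ℕ) (r : ℕ → R) : R[X] := ∑ l ∈ Finset.range p, C (r l) * X ^ l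

theorem mkp_coeff {R : Type} [CommRing R] (p : ℕ) (r : ℕ → R) (l : ℕ) : (mkp p r).coeff l = if l < p then r l else 0 := by
  rw [mkp, finset_sum_coeff]
  simp only [coeff_C_mul, coeff_X_pow]
  by_cases h : l < p
  · rw [if_pos h, Finset.sum_eq_single l]
    · simp
    · intro i _ hi
      rw [if_neg hi.symm, mul_zero]
    · intro hl
      exact absurd (Finset.mem_range.mpr h) hl
  · rw [if_neg h]
    apply Finset.sum_eq_zero
    intro i hi
    rw [if_neg, mul_zero]
    intro h1
    rw [h1] at h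
    exact h (Finset.mem_range.mp hi)

theorem mkp_deg {R : Type} [CommRing R] {p : ℕ} (hp : 0 < p) (r : ℕ → R) : (mkp p r).natDegree < p := by
  by_contra h
  push Not at h
  have h1 : (mkp p r) ≠ 0 := by
    intro h0
    rw [h0, natDegree_zero] at h
    omega
  have h2 := leadingCoeff_ne_zero.mpr h1
  rw [leadingCoeff, mkp_coeff, if_neg (by omega)] at h2
  exact h2 rfl

theorem evL_C {L : Type} [Field L] (j : RatFunc k →+* L) (v : L) (r : O1 O) : evL j v (C r) = j (r : RatFunc k) := by
  show eval₂ (j.comp (O1 O).subtype) v (C r) = _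
  rw [eval₂_C]
  rfl

theorem evL_sum {L : Type} [Field L] (j : RatFunc k →+* L) (v : L) {p : ℕ} {P : (O1 O)[X]} (h : P.natDegree < p) :
    evL j v P = ∑ l ∈ Finset.range p, j (P.coeff l : RatFunc k) * v ^ l := by
  show eval₂ (j.comp (O1 O).subtype) v P = _
  rw [eval₂_eq_sum_range' _ h]
  rfl

theorem evL_mkp {L : Type} [Field L] (j : RatFunc k →+* L) (v : L) {p : ℕ} (hp : 0 < p) (r : ℕ → O1 O) :
    evL j v (mkp p r) = ∑ l ∈ Finset.range p, j (r l : RatFunc k) * v ^ l := by
  rw [evL_sum j v (mkp_deg hp r)]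
  apply Finset.sum_congr rfl
  intro l hl
  rw [mkp_coeff, if_pos (Finset.mem_range.mp hl)]

/-- split off the coordinate `0` -/
theorem sum_split {L : Type} [Field L] {p : ℕ} (hp : 0 < p) (F : ℕ → L) (v : L) :
    ∑ l ∈ Finset.range p, F l * v ^ l = F 0 + ∑ l ∈ Finset.range p, (if l = 0 then 0 else F l) * v ^ l := by
  obtain ⟨q, rfl⟩ := Nat.exists_eq_succ_of_ne_zero hp.ne'
  rw [Finset.sum_range_succ', Finset.sum_range_succ']
  simp only [if_true, zero_mul, add_zero, pow_zero, mul_one]
  rw [add_comm]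
  congr 1

/-- the normal form `P_0 (1 + q r)` -/
theorem evL_norm {L : Type} [Field L] (j : RatFunc k →+* L) (v : L) {p : ℕ} (hp : 0 < p) {P : (O1 O)[X]}
    (hP : P.natDegree < p) {q : k} {r : ℕ → O1 O}
    (h : ∀ l < p, (P.coeff 0 : RatFunc k) * (RatFunc.C q * (r l : RatFunc k)) = if l = 0 then 0 else (P.coeff l : RatFunc k)) :
    evL j v P = j (P.coeff 0 : RatFunc k) * (1 + j (RatFunc.C q) * evL j v (mkp p r)) := by
  rw [evL_sum j v hP, evL_mkp j v hp, sum_split hp (fun l => j (P.coeff l : RatFunc k)), mul_add, mul_one, ← mul_assoc,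
    Finset.mul_sum]
  congr 1
  apply Finset.sum_congr rfl
  intro l hl
  have h1 := congrArg j (h l (Finset.mem_range.mp hl))
  rw [map_mul, map_mul] at h1
  by_cases hl0 : l = 0
  · rw [if_pos hl0] at h1 ⊢
    rw [map_zero] at h1
    linear_combination (-v ^ l) * h1
  · rw [if_neg hl0] at h1 ⊢
    linear_combination (-v ^ l) * h1

end Pool.Agent.LibCW77
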