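import Pool.Agent.LibCW77.RN
import Pool.Agent.LibCW77.NT1

/-!
[CW77 RN2] the p-adic argument, conclusion.
-/

open scoped Classical
open Polynomial

namespace Pool.Agent.LibCW77

variable {k : Type} [Field k]

theorem nfp [IsAlgClosed k] [CharZero k] {O : ValuationSubring k} {p : ℕ} (hp : p.Prime) (hO : rs O (p : O) = 0)
    {A B : O[X]} {ι : Type} [Fintype ι] [Nonempty ι] (a b : ι → O) (ha : ∀ i i', rs O (a i) = rs O (a i') → i = i')
    (hA : ∀ i, rs O (A.eval (a i)) ≠ 0) (hB : ∀ i, rs O (B.eval (a i)) ≠ 0)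
    (hW : ∀ i, rs O ((derivative A * B - A * derivative B).eval (a i)) ≠ 0)
    (hb : ∀ i, b i ^ p * B.eval (a i) = A.eval (a i))
    {L : Type} [Field L] (j : RatFunc k →+* L) {v : L}
    (hv : v ^ p * j (algebraMap k[X] (RatFunc k) (B.map (algebraMap O k))) =
      j (algebraMap k[X] (RatFunc k) (A.map (algebraMap O k))))
    (hu : ∀ r : ℕ → RatFunc k, ∑ l ∈ Finset.range p, j (r l) * v ^ l = 0 → ∀ l < p, r l = 0)
    {M : ℕ} (hM : 0 < M) {gg : ℕ → k[X]} (hg0 : (gg 0).natDegree ≤ Fintype.card ι * M)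
    (hgl : ∀ l, l ≠ 0 → gg l = 0 ∨ (gg l).natDegree + Fintype.card ι + 1 ≤ Fintype.card ι * M) {g : L} (hg : g ≠ 0)
    (hgg : g = ∑ l ∈ Finset.range p,
      j (algebraMap k[X] (RatFunc k) (if l = 0 then gg 0 else B.map (algebraMap O k) * gg l)) * v ^ l)
    (hα : ∀ i, ∃ α : ℕ → RatFunc k,
      g = (∑ l ∈ Finset.range p, j (α l) * v ^ l) * (v - j (RatFunc.C (b i : k))) ^ (p * M) ∧
      ∀ c : O, rs O c = rs O (a i) → ∀ l < p, (α l).denom.eval (c : k) ≠ 0) : False := by
  have hinj := RatFunc.algebraMap_injective k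
  have hinj' := RatFunc.algebraMap_injective (KK O)
  have hev : ∀ (P : O[X]) (y : O), (P.map (rs O)).eval (rs O y) = rs O (P.eval y) := by
    intro P y
    rw [eval_map, eval₂_hom]
  obtain ⟨i1⟩ := (inferInstance : Nonempty ι)
  have hBne : B.map (rs O) ≠ 0 := by
    intro h0
    apply hB i1
    rw [← hev, h0, eval_zero]
  -- reductions
  have hBk : algebraMap k[X] (RatFunc k) (B.map (algebraMap O k)) ≠ 0 := by
    rw [map_ne_zero_iff _ hinj]
    intro h0
    apply hBne
    rw [(Polynomial.map_eq_zero_iff NT_inj).mp h0, Polynomial.map_zero]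
  have hBK : algebraMap (KK O)[X] (RatFunc (KK O)) (B.map (rs O)) ≠ 0 := by
    rw [map_ne_zero_iff _ hinj']
    exact hBne
  set f' : RatFunc (KK O) := algebraMap (KK O)[X] (RatFunc (KK O)) (A.map (rs O)) /
    algebraMap (KK O)[X] (RatFunc (KK O)) (B.map (rs O)) with hf'def
  have hf : Rd O (algebraMap k[X] (RatFunc k) (A.map (algebraMap O k)) /
    algebraMap k[X] (RatFunc k) (B.map (algebraMap O k))) f' := rd_div (rd_pol A) (rd_pol B) hBK
  set f : O1 O := ⟨_, ⟨_, hf⟩⟩ with hfdef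
  have hff' : rdh O f = f' := rdh_eq hf
  have hv' : v ^ p = j (f : RatFunc k) := by
    show v ^ p = j (algebraMap k[X] (RatFunc k) (A.map (algebraMap O k)) /
      algebraMap k[X] (RatFunc k) (B.map (algebraMap O k)))
    rw [map_div₀, eq_div_iff (by rwa [_root_.map_ne_zero]), hv]
  set t : ι → KK O := fun i => rs O (a i) with ht
  have htinj : Function.Injective t := fun i i' h => ha i i' h
  have hBt : ∀ i, (B.map (rs O)).eval (t i) ≠ 0 := by
    intro i
    rw [ht, hev]
    exact hB i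
  have hWt : ∀ i, (derivative (A.map (rs O)) * (B.map (rs O)) - (A.map (rs O)) * derivative (B.map (rs O))).eval (t i) ≠
      0 := by
    intro i
    rw [derivative_map, derivative_map, ← Polynomial.map_mul, ← Polynomial.map_mul, ← Polynomial.map_sub, ht, hev]
    exact hW i
  have hbt : ∀ i, rs O (b i) ^ p = (A.map (rs O)).eval (t i) / (B.map (rs O)).eval (t i) := by
    intro i
    rw [eq_div_iff (hBt i), ht, hev, hev, ← hb i, map_mul, map_pow]
  have hb0 : ∀ i, rs O (b i) ≠ 0 := by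
    intro i h0
    apply hA i
    rw [← hb i, map_mul, map_pow, h0, zero_pow hp.ne_zero, zero_mul]
  have htr' : Transcendental (KK O) f' := NT_tr (hWt i1)
  have hfne : ∀ z : KK O, f' ≠ RatFunc.C z := by
    intro z h0
    have h1 := (transcendental_iff.mp htr') (X - C z) (by
      rw [map_sub, aeval_X, aeval_C, h0]
      exact sub_self _)
    exact X_sub_C_ne_zero _ h1
  -- scaling of the polynomials
  have hg3 : ∃ i : Fin p, gg i ≠ 0 := by
    by_contra hc
    push Not at hc
    apply hg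
    rw [hgg]
    apply Finset.sum_eq_zero
    intro l hl
    have h1 := hc ⟨l, Finset.mem_range.mp hl⟩
    have h2 : gg l = 0 := h1
    by_cases hl0 : l = 0
    · rw [if_pos hl0, ← hl0, h2, map_zero, map_zero, zero_mul]
    · rw [if_neg hl0, h2, mul_zero, map_zero, map_zero, zero_mul]
  obtain ⟨β, P, hβ, hP, ⟨iP, hiP⟩⟩ := pol_scale (O := O) (fun i : Fin p => gg i) hg3
  set PN : ℕ → O[X] := fun l => if h : l < p then P ⟨l, h⟩ else 0 with hPN
  have hPNl : ∀ l < p, gg l = C β * (PN l).map (algebraMap O k) := by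
    intro l hl
    simp only [hPN, dif_pos hl]
    exact hP ⟨l, hl⟩
  have hPNg : ∀ l, ¬ l < p → PN l = 0 := by
    intro l hl
    simp only [hPN, dif_neg hl]
  have hne : ∃ l < p, (PN l).map (rs O) ≠ 0 := by
    refine ⟨iP, iP.2, ?_⟩
    simp only [hPN, dif_pos iP.2]
    exact hiP
  have hCβ : C β⁻¹ * C β = (1 : k[X]) := by
    rw [← C_mul, inv_mul_cancel₀ hβ, C_1]
  have hCβ' : RatFunc.C β * RatFunc.C β⁻¹ = (1 : RatFunc k) := by
    rw [← map_mul, mul_inv_cancel₀ hβ, map_one]
  set N : ℕ → O[X] := fun l => if l = 0 then PN 0 else B * PN l with hN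
  set Gr : ℕ → O1 O := fun l => ⟨algebraMap k[X] (RatFunc k) ((N l).map (algebraMap O k)), ⟨_, rd_pol (N l)⟩⟩ with hGr
  have hGrr : ∀ l, rdh O (Gr l) = algebraMap (KK O)[X] (RatFunc (KK O)) ((N l).map (rs O)) := fun l =>
    rdh_eq (rd_pol (N l))
  set Gs : (O1 O)[X] := mkp p Gr with hGs
  have hGsd : Gs.natDegree < p := mkp_deg hp.pos Gr
  have hGsl : ∀ l < p, Gs.coeff l = Gr l := by
    intro l hl
    rw [hGs, mkp_coeff, if_pos hl]
  have hNk : ∀ l < p, algebraMap k[X] (RatFunc k) (if l = 0 then gg 0 else B.map (algebraMap O k) * gg l) =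
      RatFunc.C β * (Gr l : RatFunc k) := by
    intro l hl
    show _ = RatFunc.C β * algebraMap k[X] (RatFunc k) ((N l).map (algebraMap O k))
    rw [← RatFunc.algebraMap_C, ← map_mul]
    congr 1
    by_cases hl0 : l = 0
    · rw [if_pos hl0, hN]
      simp only [if_pos hl0]
      rw [← hPNl 0 hp.pos]
    · rw [if_neg hl0, hN]
      simp only [if_neg hl0]
      rw [Polynomial.map_mul, hPNl l hl]
      ring
  have hgs : g = j (RatFunc.C β) * evL j v Gs := by
    rw [hgg, hGs, evL_mkp j v hp.pos, Finset.mul_sum]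
    apply Finset.sum_congr rfl
    intro l hl
    rw [hNk l (Finset.mem_range.mp hl), map_mul]
    ring
  have hGs0 : Gs.map (rdh O) ≠ 0 := by
    obtain ⟨l, hl, hl0⟩ := hne
    intro h0
    have h1 : (Gs.map (rdh O)).coeff l = 0 := by rw [h0, coeff_zero]
    rw [coeff_map, hGsl l hl, hGrr, map_eq_zero_iff _ hinj'] at h1
    by_cases hl0' : l = 0
    · rw [hN] at h1
      simp only [if_pos hl0'] at h1
      rw [hl0'] at hl0
      exact hl0 h1
    · rw [hN] at h1
      simp only [if_neg hl0', Polynomial.map_mul] at h1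
      exact mul_ne_zero hBne hl0 h1
  -- data of the points
  have hdata : ∀ i, ∃ (α : ℕ → RatFunc k) (βt : k) (αs : (O1 O)[X]) (c : KK O) (φ : O1 O) (ρ : (O1 O)[X]),
      (g = (∑ l ∈ Finset.range p, j (α l) * v ^ l) * (v - j (RatFunc.C (b i : k))) ^ (p * M) ∧
      ∀ c : O, rs O c = t i → ∀ l < p, (α l).denom.eval (c : k) ≠ 0) ∧ βt ≠ 0 ∧ c ≠ 0 ∧ αs.natDegree < p ∧
      (∀ l < p, α l = RatFunc.C βt * (αs.coeff l : RatFunc k)) ∧
      (∀ l < p, (rdh O (αs.coeff l)).denom.eval (t i) ≠ 0) ∧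
      rdh O φ = f' - RatFunc.C (rs O (b i) ^ p) ∧
      (ρ.natDegree < p ∧ ρ.coeff 0 = 0) ∧
      (∀ l, l ≠ 0 → l < p → rdh O (ρ.coeff l) =
        RatFunc.C (((p.choose l / p : ℕ) : KK O) * (-rs O (b i)) ^ (p - l)) / (f' - RatFunc.C (rs O (b i) ^ p))) ∧
      (∀ l, l ≠ 0 → l < p → ((p.choose l / p : ℕ) : KK O) ≠ 0) ∧
      (v - j (RatFunc.C (b i : k))) ^ p = j (φ : RatFunc k) * (1 + j (RatFunc.C (p : k)) * evL j v ρ) ∧
      Gs.map (rdh O) = C (RatFunc.C c * (f' - RatFunc.C (rs O (b i) ^ p)) ^ M) * αs.map (rdh O) := by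
    intro i
    obtain ⟨α, h1, h2⟩ := hα i
    obtain ⟨βt, αs, c, φ, ρ, h3⟩ := RN_lead hp hO j hv' hu (b := b i) (by rw [hff']; exact hfne _) hGsd hGs0 hβ hgs h1 h2
    rw [hff'] at h3
    exact ⟨α, βt, αs, c, φ, ρ, ⟨h1, h2⟩, h3⟩
  choose α βt αs c φ ρ hdec hβt hc hαd hαl hregα hφ hρ hρl hbin hpow hlead using hdata
  have hcoe : ∀ i, ∀ l < p, rdh O (Gr l) = RatFunc.C (c i) * rdh O ((αs i).coeff l) *
      (f' - RatFunc.C (rs O (b i) ^ p)) ^ M := by
    intro i l hl
    have h1 := congrArg (fun q => q.coeff l) (hlead i)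
    simp only [coeff_map, coeff_C_mul] at h1
    rw [hGsl l hl] at h1
    rw [h1]
    ring
  -- first step
  have hdegP : ∀ l < p, ((PN l).map (rs O)).natDegree ≤ (gg l).natDegree := by
    intro l hl
    rw [hPNl l hl, natDegree_C_mul hβ, natDegree_map_eq_of_injective NT_inj]
    exact natDegree_map_le
  have hdeg' : ∀ l, l ≠ 0 → ((PN l).map (rs O) = 0 ∨ ((PN l).map (rs O)).natDegree + Fintype.card ι + 1 ≤
      Fintype.card ι * M) := by
    intro l hl0
    by_cases hl : l < p
    · rcases hgl l hl0 with h | h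
      · left
        have hq := hPNl l hl
        rw [h] at hq
        have h1 : (PN l).map (algebraMap O k) = 0 := by
          rcases mul_eq_zero.mp hq.symm with h2 | h2
          · exact absurd (C_eq_zero.mp h2) hβ
          · exact h2
        rw [(Polynomial.map_eq_zero_iff NT_inj).mp h1, Polynomial.map_zero]
      · right
        have := hdegP l hl
        omega
    · left
      rw [hPNg l hl, Polynomial.map_zero]
  obtain ⟨hz, e, he, hPe⟩ := firstp (A := A.map (rs O)) (B := B.map (rs O)) t htinj hBt hWt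
    (P := fun l => (PN l).map (rs O)) hne (le_trans (hdegP 0 hp.pos) hg0) hdeg' (by
      intro i
      refine ⟨c i, fun l => rdh O ((αs i).coeff l), hc i, hregα i, ?_⟩
      intro l hl
      rw [← hbt i, ← hcoe i l hl, hGrr]
      congr 1
      by_cases hl0 : l = 0
      · rw [hN]
        simp only [if_pos hl0]
      · rw [hN]
        simp only [if_neg hl0, Polynomial.map_mul])
  have hG0 : rdh O (Gr 0) = algebraMap (KK O)[X] (RatFunc (KK O)) (C e * (∏ i, (X - C (t i))) ^ M) := by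
    rw [hGrr, hN]
    simp only [if_true]
    rw [← hPe]
  have hQ0 : C e * (∏ i, (X - C (t i))) ^ M ≠ 0 := by
    apply mul_ne_zero (C_ne_zero.mpr he)
    apply pow_ne_zero
    apply Finset.prod_ne_zero_iff.mpr
    intro i _
    exact X_sub_C_ne_zero _
  have hG0ne : rdh O (Gr 0) ≠ 0 := by
    rw [hG0, map_ne_zero_iff _ hinj']
    exact hQ0
  have hGl : ∀ l, l ≠ 0 → l < p → rdh O (Gr l) = 0 := by
    intro l hl0 hl
    rw [hGrr, hN]
    simp only [if_neg hl0, Polynomial.map_mul]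
    rw [hz l hl0 hl, mul_zero, map_zero]
  have hφne : ∀ i, (f' - RatFunc.C (rs O (b i) ^ p)) ≠ 0 := fun i => sub_ne_zero.mpr (hfne _)
  have hinv : ∀ i, ((rdh O ((αs i).coeff 0))⁻¹).denom.eval (t i) ≠ 0 ∧ rdh O ((αs i).coeff 0) ≠ 0 := by
    intro i
    refine invp (A := A.map (rs O)) (B := B.map (rs O)) t htinj (hBt i) (hWt i) (M := M) (e := e) (c := c i) he ?_
    rw [← hG0, ← hbt i]
    exact hcoe i 0 hp.pos
  have hα1' : ∀ i l, l ≠ 0 → l < p → rdh O ((αs i).coeff l) = 0 := by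
    intro i l hl0 hl
    have h1 := hcoe i l hl
    rw [hGl l hl0 hl] at h1
    rcases mul_eq_zero.mp h1.symm with h2 | h2
    · rcases mul_eq_zero.mp h2 with h4 | h4
      · exact absurd ((map_eq_zero _).mp h4) (hc i)
      · exact h4
    · exact absurd h2 (pow_ne_zero _ (hφne i))
  have hGne : (Gr 0 : RatFunc k) ≠ 0 := rd_ne (rdh_spec (Gr 0)) hG0ne
  have hαne : ∀ i, ((αs i).coeff 0 : RatFunc k) ≠ 0 := fun i => rd_ne (rdh_spec _) (hinv i).2
  have hMk : (M : k) ≠ 0 := Nat.cast_ne_zero.mpr hM.ne'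
  have hpk : (p : k) ≠ 0 := Nat.cast_ne_zero.mpr hp.ne_zero
  -- the family
  set T : Option (Fin p × Option ι) → RatFunc k := fun x => match x with
    | none => RatFunc.C ((M : k) * (p : k))
    | some (l, none) => if (l : ℕ) = 0 then 0 else (Gr l : RatFunc k) / (Gr 0 : RatFunc k)
    | some (l, some i) => if (l : ℕ) = 0 then 0 else ((αs i).coeff l : RatFunc k) / ((αs i).coeff 0 : RatFunc k) with hT
  have hT0 : ∀ x, Rd O (T x) 0 := by
    rintro (_ | ⟨l, _ | i⟩)
    · have h1 := rd_C ((M : O) * (p : O))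
      rw [map_mul, hO, mul_zero, map_zero] at h1
      have h2 : (((M : O) * (p : O) : O) : k) = (M : k) * (p : k) := by push_cast; rfl
      rw [h2] at h1
      exact h1
    · show Rd O (if (l : ℕ) = 0 then 0 else (Gr l : RatFunc k) / (Gr 0 : RatFunc k)) 0
      by_cases hl : (l : ℕ) = 0
      · rw [if_pos hl]
        exact rd_zero
      · rw [if_neg hl]
        have h1 := rd_div (rdh_spec (Gr l)) (rdh_spec (Gr 0)) hG0ne
        rw [hGl l hl l.2, zero_div] at h1
        exact h1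
    · show Rd O (if (l : ℕ) = 0 then 0 else ((αs i).coeff l : RatFunc k) / ((αs i).coeff 0 : RatFunc k)) 0
      by_cases hl : (l : ℕ) = 0
      · rw [if_pos hl]
        exact rd_zero
      · rw [if_neg hl]
        have h1 := rd_div (rdh_spec ((αs i).coeff l)) (rdh_spec ((αs i).coeff 0)) (hinv i).2
        rw [hα1' i l hl l.2, zero_div] at h1
        exact h1
  have hTne : ∃ x, T x ≠ 0 := by
    refine ⟨none, ?_⟩
    show RatFunc.C ((M : k) * (p : k)) ≠ 0
    rw [_root_.map_ne_zero]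
    exact mul_ne_zero hMk hpk
  obtain ⟨β0, hβ0, T', hT', ⟨i0, hi0⟩⟩ := rd_scale (O := O) T hTne
  obtain ⟨q, hq, hq'⟩ := NT_small (hT0 i0) hβ0 (hT' i0) hi0
  subst hq
  have hq0 : q ≠ 0 := by
    intro h0
    apply hβ0
    rw [h0]
    rfl
  have hCq : RatFunc.C (q : k) * RatFunc.C (q : k)⁻¹ = (1 : RatFunc k) := by
    rw [← map_mul, mul_inv_cancel₀ hβ0, map_one]
  have hx0 : (q : k)⁻¹ * ((M : k) * (p : k)) ∈ O := by
    refine rd_mem (r := 1) rd_one one_ne_zero (s' := T' none) ?_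
    rw [mul_one, map_mul]
    exact hT' none
  set x0 : O := ⟨_, hx0⟩ with hx0def
  have hTn : T' none = RatFunc.C (rs O x0) := by
    refine rd_unique (hT' none) ?_
    have h1 := rd_C x0
    have h2 : RatFunc.C (x0 : k) = RatFunc.C (q : k)⁻¹ * T none := by
      show RatFunc.C ((q : k)⁻¹ * ((M : k) * (p : k))) = RatFunc.C (q : k)⁻¹ * RatFunc.C ((M : k) * (p : k))
      rw [map_mul]
    rw [h2] at h1
    exact h1
  set γO : ℕ → O1 O := fun l => if h : l < p then
    ⟨RatFunc.C (q : k)⁻¹ * T (some (⟨l, h⟩, none)), ⟨_, hT' (some (⟨l, h⟩, none))⟩⟩ else 0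
    with hγO
  set aO : ι → ℕ → O1 O := fun i l =>
    if h : l < p then
      ⟨RatFunc.C (q : k)⁻¹ * T (some (⟨l, h⟩, some i)), ⟨_, hT' (some (⟨l, h⟩, some i))⟩⟩ else 0 with haO
  have hγl : ∀ l (h : l < p), (γO l : RatFunc k) = RatFunc.C (q : k)⁻¹ * T (some (⟨l, h⟩, none)) := by
    intro l h
    simp only [hγO, dif_pos h]
  have hal : ∀ i l (h : l < p), (aO i l : RatFunc k) = RatFunc.C (q : k)⁻¹ * T (some (⟨l, h⟩, some i)) := by
    intro i l h
    simp only [haO, dif_pos h]
  have hγr : ∀ l (h : l < p), rdh O (γO l) = T' (some (⟨l, h⟩, none)) := by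
    intro l h
    apply rdh_eq
    rw [hγl l h]
    exact hT' (some (⟨l, h⟩, none))
  have har : ∀ i l (h : l < p), rdh O (aO i l) = T' (some (⟨l, h⟩, some i)) := by
    intro i l h
    apply rdh_eq
    rw [hal i l h]
    exact hT' (some (⟨l, h⟩, some i))
  have hγ0 : γO 0 = 0 := by
    apply Subtype.ext
    rw [hγl 0 hp.pos]
    show RatFunc.C (q : k)⁻¹ * (if ((⟨0, hp.pos⟩ : Fin p) : ℕ) = 0 then 0 else _) = 0
    rw [if_pos rfl, mul_zero]
  have ha0 : ∀ i, aO i 0 = 0 := by
    intro i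
    apply Subtype.ext
    rw [hal i 0 hp.pos]
    show RatFunc.C (q : k)⁻¹ * (if ((⟨0, hp.pos⟩ : Fin p) : ℕ) = 0 then 0 else _) = 0
    rw [if_pos rfl, mul_zero]
  have hcmp : ∀ i l (h : l < p), l ≠ 0 → T' (some (⟨l, h⟩, none)) = T' (some (⟨l, h⟩, some i)) +
      RatFunc.C (rs O x0 * (((p.choose l / p : ℕ) : KK O) * (-rs O (b i)) ^ (p - l))) /
        (f' - RatFunc.C (rs O (b i) ^ p)) := by
    intro i
    have hpr : rs O ((p : O)) = 0 := hO
    obtain ⟨Z, σ, hZ, hσ, hσm, hpw⟩ := pwp hp hO j hv' hpr (hρ i) M hM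
    have hpp : ((p : O) : k) = (p : k) := by norm_cast
    rw [hpp] at hpw
    have hw0 : RatFunc.C (βt i) * ((αs i).coeff 0 : RatFunc k) * (φ i : RatFunc k) ^ M * (Z : RatFunc k) ≠ 0 := by
      have e1 : RatFunc.C (βt i) ≠ (0 : RatFunc k) := by
        rw [_root_.map_ne_zero]
        exact hβt i
      have e2 : (φ i : RatFunc k) ≠ 0 := rd_ne (rdh_spec (φ i)) (by
        rw [hφ i]
        exact hφne i)
      have e3 : (Z : RatFunc k) ≠ 0 := rd_ne (rdh_spec Z) (by
        rw [hZ]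
        exact one_ne_zero)
      exact mul_ne_zero (mul_ne_zero (mul_ne_zero e1 (hαne i)) (pow_ne_zero _ e2)) e3
    have hsd : (C (cO O x0) * σ).natDegree < p ∧ (C (cO O x0) * σ).coeff 0 = 0 := by
      refine ⟨lt_of_le_of_lt (natDegree_C_mul_le _ _) hσ.1, ?_⟩
      rw [coeff_C_mul, hσ.2, mul_zero]
    have key := cmpp hp.two_le j hv' hu hq' hq0 hw0 (g0 := RatFunc.C β * (Gr 0 : RatFunc k)) (γ := mkp p γO)
      (a := mkp p (aO i)) (s := C (cO O x0) * σ)
      ⟨mkp_deg hp.pos _, by rw [mkp_coeff, if_pos hp.pos, hγ0]⟩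
      ⟨mkp_deg hp.pos _, by rw [mkp_coeff, if_pos hp.pos, ha0]⟩ hsd (by
        have e1 : evL j v Gs = j (Gr 0 : RatFunc k) * (1 + j (RatFunc.C (q : k)) * evL j v (mkp p γO)) := by
          rw [← hGsl 0 hp.pos]
          refine evL_norm j v hp.pos hGsd ?_
          intro l hl
          rw [hγl l hl, hGsl 0 hp.pos, hGsl l hl, ← mul_assoc (RatFunc.C (q : k)), hCq, one_mul]
          show (Gr 0 : RatFunc k) * (if l = 0 then 0 else (Gr l : RatFunc k) / (Gr 0 : RatFunc k)) = _
          by_cases hl0 : l = 0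
          · rw [if_pos hl0, if_pos hl0, mul_zero]
          · rw [if_neg hl0, if_neg hl0, mul_div_cancel₀ _ hGne]
        have e2 : evL j v (αs i) = j ((αs i).coeff 0 : RatFunc k) *
            (1 + j (RatFunc.C (q : k)) * evL j v (mkp p (aO i))) := by
          refine evL_norm j v hp.pos (hαd i) ?_
          intro l hl
          rw [hal i l hl, ← mul_assoc (RatFunc.C (q : k)), hCq, one_mul]
          show ((αs i).coeff 0 : RatFunc k) *
            (if l = 0 then 0 else ((αs i).coeff l : RatFunc k) / ((αs i).coeff 0 : RatFunc k)) = _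
          by_cases hl0 : l = 0
          · rw [if_pos hl0, if_pos hl0, mul_zero]
          · rw [if_neg hl0, if_neg hl0, mul_div_cancel₀ _ (hαne i)]
        have e3 : ∑ l ∈ Finset.range p, j (α i l) * v ^ l = j (RatFunc.C (βt i)) * evL j v (αs i) := by
          rw [evL_sum j v (hαd i), Finset.mul_sum]
          apply Finset.sum_congr rfl
          intro l hl
          rw [hαl i l (Finset.mem_range.mp hl), map_mul]
          ring
        have e4 : (v - j (RatFunc.C (b i : k))) ^ (p * M) = j (φ i : RatFunc k) ^ M *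
            (j (Z : RatFunc k) * (1 + j (RatFunc.C (q : k)) * evL j v (C (cO O x0) * σ))) := by
          have e7 : evL j v (C (cO O x0) * σ) = j ((cO O x0 : O1 O) : RatFunc k) * evL j v σ := by
            rw [map_mul, evL_C]
          rw [pow_mul, hpow i, mul_pow, hpw, e7]
          have e5 : RatFunc.C ((M : k) * (p : k)) = RatFunc.C (q : k) * ((cO O x0 : O1 O) : RatFunc k) := by
            show RatFunc.C ((M : k) * (p : k)) = RatFunc.C (q : k) * RatFunc.C ((q : k)⁻¹ * ((M : k) * (p : k)))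
            rw [← map_mul, ← mul_assoc, mul_inv_cancel₀ hβ0, one_mul]
          rw [e5, map_mul]
          ring
        have e6 := (hdec i).1
        rw [hgs, e1, e3, e2, e4] at e6
        simp only [map_mul, map_pow] at e6 ⊢
        linear_combination e6)
    intro l h hl0
    have h1 := congrArg (fun P => P.coeff l) key
    simp only [coeff_map, coeff_add, mkp_coeff, if_pos h, coeff_C_mul] at h1
    rw [hγr l h, har i l h, map_mul, rdh_cO] at h1
    have h2 := congrArg (fun P => P.coeff l) hσm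
    simp only [coeff_map] at h2
    rw [h2, hρl i l hl0 h, mul_div_assoc', ← map_mul] at h1
    exact h1
  -- the final argument
  have hfin : ∀ l (h : l < p), l ≠ 0 → T' (some (⟨l, h⟩, none)) = 0 ∧ ∀ i,
      rs O x0 * (((p.choose l / p : ℕ) : KK O) * (-rs O (b i)) ^ (p - l)) = 0 ∧ T' (some (⟨l, h⟩, some i)) = 0 := by
    intro l h hl0
    have h1 := rd_div (rd_mul (hT' (some (⟨l, h⟩, none))) (rdh_spec (Gr 0))) (rd_pol B) hBK
    have h2 : RatFunc.C (q : k)⁻¹ * T (some (⟨l, h⟩, none)) * (Gr 0 : RatFunc k) /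
        algebraMap k[X] (RatFunc k) (B.map (algebraMap O k)) =
        algebraMap k[X] (RatFunc k) (C ((q : k)⁻¹ * β⁻¹) * gg l) := by
      rw [div_eq_iff hBk]
      show RatFunc.C (q : k)⁻¹ * (if l = 0 then 0 else (Gr l : RatFunc k) / (Gr 0 : RatFunc k)) * (Gr 0 : RatFunc k) = _
      rw [if_neg hl0]
      have h4 : (Gr l : RatFunc k) / (Gr 0 : RatFunc k) * (Gr 0 : RatFunc k) = Gr l := div_mul_cancel₀ _ hGne
      have h5 := hNk l h
      rw [if_neg hl0, map_mul] at h5
      rw [map_mul, RatFunc.algebraMap_C, map_mul]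
      linear_combination RatFunc.C (q : k)⁻¹ * h4 - RatFunc.C (q : k)⁻¹ * RatFunc.C β⁻¹ * h5 -
        RatFunc.C (q : k)⁻¹ * (Gr l : RatFunc k) * hCβ'
    rw [h2] at h1
    obtain ⟨Q1, hQ1, hQ2⟩ := NT_poly h1
    have hh : Q1.map (rs O) = 0 ∨ (Q1.map (rs O)).natDegree + Fintype.card ι + 1 ≤ Fintype.card ι * M := by
      rcases hgl l hl0 with h5 | h5
      · left
        rw [h5, mul_zero] at hQ1
        rw [(Polynomial.map_eq_zero_iff NT_inj).mp hQ1.symm, Polynomial.map_zero]
      · right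
        have h6 : (Q1.map (rs O)).natDegree ≤ Q1.natDegree := natDegree_map_le
        have h7 : Q1.natDegree = (Q1.map (algebraMap O k)).natDegree :=
          (natDegree_map_eq_of_injective NT_inj _).symm
        have h8 : (C ((q : k)⁻¹ * β⁻¹) * gg l).natDegree ≤ (gg l).natDegree := natDegree_C_mul_le _ _
        rw [← hQ1] at h7
        omega
    have hγ : T' (some (⟨l, h⟩, none)) = algebraMap (KK O)[X] (RatFunc (KK O)) (B.map (rs O) * Q1.map (rs O)) /
        algebraMap (KK O)[X] (RatFunc (KK O)) (C e * (∏ i, (X - C (t i))) ^ M) := by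
      rw [← hG0, eq_div_iff hG0ne, map_mul, ← hQ2, mul_div_cancel₀ _ hBK]
    refine fin_argp (A := A.map (rs O)) (B := B.map (rs O)) t htinj hBt hWt hM hh he hγ
      (fun i => T' (some (⟨l, h⟩, some i)))
      (fun i => rs O x0 * (((p.choose l / p : ℕ) : KK O) * (-rs O (b i)) ^ (p - l))) ?_ ?_
    · intro i
      have h5 := rd_mul (hT' (some (⟨l, h⟩, some i))) (rdh_spec ((αs i).coeff 0))
      have h6 : RatFunc.C (q : k)⁻¹ * T (some (⟨l, h⟩, some i)) * ((αs i).coeff 0 : RatFunc k) =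
          RatFunc.C ((q : k)⁻¹ * (βt i)⁻¹) * α i l := by
        show RatFunc.C (q : k)⁻¹ * (if l = 0 then 0 else ((αs i).coeff l : RatFunc k) / ((αs i).coeff 0 : RatFunc k)) *
          ((αs i).coeff 0 : RatFunc k) = _
        rw [if_neg hl0]
        have h4 : ((αs i).coeff l : RatFunc k) / ((αs i).coeff 0 : RatFunc k) * ((αs i).coeff 0 : RatFunc k) =
            (αs i).coeff l := div_mul_cancel₀ _ (hαne i)
        have h7 : RatFunc.C (βt i) * RatFunc.C (βt i)⁻¹ = (1 : RatFunc k) := by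
          rw [← map_mul, mul_inv_cancel₀ (hβt i), map_one]
        rw [hαl i l h, map_mul]
        linear_combination RatFunc.C (q : k)⁻¹ * h4 - RatFunc.C (q : k)⁻¹ * ((αs i).coeff l : RatFunc k) * h7
      rw [h6] at h5
      have h7 := rd_reg h5 (t i) (fun y hy => by
        refine NT_reg_mul ?_ ((hdec i).2 y hy l h)
        refine NT_reg_of (p := C ((q : k)⁻¹ * (βt i)⁻¹)) (q := 1) (by simp) ?_
        rw [RatFunc.algebraMap_C, map_one, div_one])
      have h8 := NT_reg_mul h7 (hinv i).1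
      rw [mul_assoc, mul_inv_cancel₀ (hinv i).2, mul_one] at h8
      exact h8
    · intro i
      show T' (some (⟨l, h⟩, none)) = T' (some (⟨l, h⟩, some i)) + _
      rw [← hbt i]
      exact hcmp i l h hl0
  have h10 : (1 : ℕ) < p := hp.one_lt
  have he0 : rs O x0 = 0 := by
    have h1 := ((hfin 1 h10 one_ne_zero).2 i1).1
    rcases mul_eq_zero.mp h1 with h2 | h2
    · exact h2
    · rcases mul_eq_zero.mp h2 with h4 | h4
      · exact absurd h4 (hbin i1 1 one_ne_zero h10)
      · exact absurd h4 (pow_ne_zero _ (neg_ne_zero.mpr (hb0 i1)))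
  apply hi0
  rcases i0 with _ | ⟨l, _ | i⟩
  · rw [hTn, he0, map_zero]
  · by_cases hl : (l : ℕ) = 0
    · refine rd_unique (hT' _) ?_
      have h1 : T (some (l, none)) = 0 := by
        show (if (l : ℕ) = 0 then 0 else (Gr l : RatFunc k) / (Gr 0 : RatFunc k)) = 0
        rw [if_pos hl]
      rw [h1, mul_zero]
      exact rd_zero
    · exact (hfin l l.2 hl).1
  · by_cases hl : (l : ℕ) = 0
    · refine rd_unique (hT' _) ?_
      have h1 : T (some (l, some i)) = 0 := by
        show (if (l : ℕ) = 0 then 0 else ((αs i).coeff l : RatFunc k) / ((αs i).coeff 0 : RatFunc k)) = 0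
        rw [if_pos hl]
      rw [h1, mul_zero]
      exact rd_zero
    · exact ((hfin l l.2 hl).2 i).2

end Pool.Agent.LibCW77
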