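import Pool.Agent.LibCW77.ODefs
import Pool.Agent.LibCW77.NDefs
import Pool.Agent.LibCW77.DE7
import Pool.Agent.LibCW77.FG3
import Pool.Agent.LibCW77.C1

/-!
[CW77 RT1] STRONG: the function of a torsion class, general

As NE4.lean (CW77_NE4.lean in the store), but easier. `m • (∑ cls Q_p - card • cls (pb c 0)) = 0`: `e = m • (∑_p cyc k (pt1 Q_p)) - m card • cyc k (pt1 (pb c 0))` is in `RatEq c 1 0`; for points over `k`: `cyc k (pt1 Q) = single (eqs k (pt1 Q)) 1`,
`eqs k (pt1 Q) = eqs k (pt1 Q')` iff `Q = Q'`. `ratEq_fun` (DE7): `f` with `w.ord f = m count Q - m card [Q = pb c 0]`. `g = f ^ n * (x - b_0) ^ (m card)`, `n = c.n`: `w.ord (x - b_0) = n` if `Q = pb c 0` (`placeC`), `-1` if `Q 0 = none`, else `0`.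
So at `pb c 0`: `- n m card + n m card = 0`; at infinity: `- m card` (no `Q_p` is there); elsewhere `n m count Q`. (`Q_p` is never `pb c 0`, as its second coordinate is finite; `Q 0 = some b_0` implies `Q 1 = none` by `OnC`, `hc.inj`.)
-/

open scoped Classical
open Polynomial

namespace Pool.Agent.LibCW77

open Pool.Agent.LibBH2
open Pool.Agent.LibCHd (VR RF Red FunF)

variable {k : Type} [Field k]

private theorem RT1_eqs {M : Type} [Field M] [Algebra k M] (Q : Fin 2 → Option k) :
    eqs k (pt1 (ctp M Q)) = eqs k (pt1 Q) := by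
  have h := eqs_map (Algebra.ofId k M) (pt1 Q)
  exact h

private theorem RT1_inj (Q Q' : Fin 2 → Option k) (h : eqs k (pt1 Q) = eqs k (pt1 Q')) :
    Q = Q' := by
  have h1 : eqs k (pt1 Q) = eqs k (pt1 (ctp k Q')) := by rw [h, RT1_eqs]
  have h2 := eqs_rat (M := k) (M' := k) (pt1 Q) Q' h1
  have h3 : ctp k Q' = Q' := by
    funext i
    change (Q' i).map (algebraMap k k) = Q' i
    cases Q' i <;> rfl
  rw [h3] at h2
  exact congrFun h2 0

private theorem RT1_cyc (Q : Fin 2 → Option k) :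
    cyc k (pt1 Q) = Finsupp.single (eqs k (pt1 Q)) 1 := by
  unfold cyc
  have h : fld k (pt1 Q) = ⊤ := by
    rw [eq_top_iff]
    intro z _
    exact (fld k (pt1 Q)).algebraMap_mem z
  rw [h, IntermediateField.finrank_top]
  rfl

private theorem RT1_val (Q R : Fin 2 → Option k) :
    (cyc k (pt1 Q)) (eqs k (pt1 R)) = if Q = R then (1 : ℤ) else 0 := by
  rw [RT1_cyc, Finsupp.single_apply]
  by_cases h : Q = R
  · subst h
    rw [if_pos rfl, if_pos rfl]
  · rw [if_neg h, if_neg fun h' => h (RT1_inj _ _ h')]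

private theorem RT1_coef (Z : Multiset (Fin 2 → Option k)) (R : Fin 2 → Option k) :
    (Z.map fun Q => cyc k (pt1 Q)).sum (eqs k (pt1 R)) = (Z.count R : ℤ) := by
  induction Z using Multiset.induction with
  | empty => simp
  | cons a Z ih =>
    rw [Multiset.map_cons, Multiset.sum_cons, Finsupp.add_apply, ih, RT1_val, Multiset.count_cons]
    by_cases h : a = R
    · rw [if_pos h, if_pos h.symm]
      push_cast
      ring
    · rw [if_neg h, if_neg fun h' => h h'.symm]
      push_cast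
      ring

private theorem RT1_sp {N : Type} [Field N] [Algebra k N] {x v : N} {w : Place k N} {Q : Fin 2 → Option k}
    (h0 : SpO w (some x) ((Q 0).map (algebraMap k (RF w))))
    (h1 : SpO w (some v) ((Q 1).map (algebraMap k (RF w)))) : SpP w (gpt x v) (pt1 (ctp (RF w) Q)) := by
  intro j i
  fin_cases i
  · exact h0
  · exact h1

private theorem RT1_inf {K : Type} [Field K] [Algebra k K] (v : Place k K) {s : K}
    (h : v.ord s < 0) (c : k) : v.ord (s - algebraMap k K c) = v.ord s := by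
  have hs : s ≠ 0 := by rintro rfl; rw [v.ord_zero] at h; omega
  by_cases hc : c = 0
  · rw [hc, map_zero, sub_zero]
  · have h1 : v.ord (-algebraMap k K c) = 0 := by rw [Place.ord_neg, v.ord_const c hc]
    have h2 : -algebraMap k K c ≠ 0 := by simpa using hc
    rw [sub_eq_add_neg]
    exact (Place.ord_add_of_lt hs h2 (by rw [h1]; exact h)).2

private theorem RT1_ab {c : Dat k} (hc : c.Good) {a : k} (h1 : ∏ i, (a - c.a i) = 0) (h2 : ∏ i, (a - c.b i) = 0) :
    False := by
  obtain ⟨i, -, hi⟩ := Finset.prod_eq_zero_iff.1 h1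
  obtain ⟨j, -, hj⟩ := Finset.prod_eq_zero_iff.1 h2
  have h3 : Sum.elim c.a c.b (Sum.inl i) = Sum.elim c.a c.b (Sum.inr j) := by
    change c.a i = c.b j
    rw [← sub_eq_zero.1 hi, ← sub_eq_zero.1 hj]
  exact Sum.inl_ne_inr (hc.inj h3)

private theorem RT1_mk {c : Dat k} (s : Multiset (k × k)) :
    (s.map fun p => cls c 0 (pt1 (![some p.1, some p.2] : Fin 2 → Option k))).sum =
      QuotientAddGroup.mk (((s.map fun p => (![some p.1, some p.2] : Fin 2 → Option k)).map
        fun Q => cyc k (pt1 Q)).sum) := by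
  induction s using Multiset.induction with
  | empty => rfl
  | cons a s ih =>
    rw [Multiset.map_cons, Multiset.sum_cons, ih, Multiset.map_cons, Multiset.map_cons, Multiset.sum_cons,
      QuotientAddGroup.mk_add]
    rfl

theorem tors_fun [IsAlgClosed k] [CharZero k] {c : Dat k} (hc : c.Good) (Z : Multiset (k × k))
    (hZ : ∀ p ∈ Z, p.2 ^ c.n * (Bp c).eval p.1 = (Ap c).eval p.1 ∧ p.2 ≠ 0)
    (h0 : IsOfFinAddOrder ((Z.map fun p => cls c 0 (pt1 ![some p.1, some p.2])).sum -
      Z.card • cls c 0 (pt1 (pb c 0)))) {N : Type} [Field N] [Algebra k N] {x v : N} (h : GenC c x v) :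
    ∃ (m : ℕ) (g : N), 0 < m ∧ g ≠ 0 ∧ ∀ (w : Place k N) (Q : Fin 2 → Option k), OnC c (Q 0) (Q 1) →
      SpO w (some x) ((Q 0).map (algebraMap k (RF w))) → SpO w (some v) ((Q 1).map (algebraMap k (RF w))) →
      w.ord g = if Q 0 = none then -((Z.card : ℤ) * m) else
        (c.n : ℤ) * m * ((Z.map fun p => ![some p.1, some p.2]).count Q : ℤ) := by
  have hn0 : c.n ≠ 0 := by
    have := hc.two
    omega
  obtain ⟨ζ, hζ⟩ : ∃ ζ : k, IsPrimitiveRoot ζ c.n := by
    have : NeZero ((c.n : ℕ) : k) := ⟨by exact_mod_cast hn0⟩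
    exact HasEnoughRootsOfUnity.exists_primitiveRoot k c.n
  obtain ⟨m, hm, hm0⟩ := isOfFinAddOrder_iff_nsmul_eq_zero.1 h0
  obtain ⟨Y, hY⟩ : ∃ Y : Multiset (Fin 2 → Option k), Y = Z.map fun p => ![some p.1, some p.2] := ⟨_, rfl⟩
  have he : (m • ((Y.map fun Q => cyc k (pt1 Q)).sum - Z.card • cyc k (pt1 (pb c 0)))) ∈ RatEq c 1 0 := by
    rw [← QuotientAddGroup.eq_zero_iff, QuotientAddGroup.mk_nsmul, QuotientAddGroup.mk_sub,
      QuotientAddGroup.mk_nsmul, hY, ← RT1_mk]
    exact hm0
  obtain ⟨f, hf0, hf⟩ := ratEq_fun hc hζ h _ he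
  have hx : x - algebraMap k N (c.b 0) ≠ 0 := by
    intro h1
    apply h.tr
    rw [sub_eq_zero.1 h1]
    exact isAlgebraic_algebraMap _
  have hYQ : ∀ Q ∈ Y, ∃ y b : k, Q = ![some y, some b] := by
    intro Q hQ
    rw [hY] at hQ
    obtain ⟨p, -, rfl⟩ := Multiset.mem_map.1 hQ
    exact ⟨p.1, p.2, rfl⟩
  refine ⟨m, f ^ c.n * (x - algebraMap k N (c.b 0)) ^ (m * Z.card), hm,
    mul_ne_zero (pow_ne_zero _ hf0) (pow_ne_zero _ hx), ?_⟩
  intro w Q hQ hw0 hw1
  rw [← hY]
  have e1 : w.ord f = (m : ℤ) * ((Y.count Q : ℤ) - (Z.card : ℤ) * (if pb c 0 = Q then (1 : ℤ) else 0)) := by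
    rw [← hf w _ (RT1_sp hw0 hw1), RT1_eqs, Finsupp.smul_apply, Finsupp.sub_apply, Finsupp.smul_apply, RT1_coef,
      RT1_val, nsmul_eq_mul, nsmul_eq_mul]
  obtain ⟨w₀, -, -, -, hinf, -, hbb, huniq⟩ := placeC hc hζ h Q hQ
  have hw : w = w₀ := huniq w hw0 hw1
  subst hw
  rw [w.ord_mul _ _ (pow_ne_zero _ hf0) (pow_ne_zero _ hx), Place.ord_pow, Place.ord_pow, e1]
  by_cases hQ0 : Q 0 = none
  · have c1 : Y.count Q = 0 := by
      rw [Multiset.count_eq_zero]
      intro hmem
      obtain ⟨y, b, rfl⟩ := hYQ Q hmem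
      exact Option.some_ne_none y hQ0
    have c2 : pb c 0 ≠ Q := by
      rintro rfl
      exact Option.some_ne_none (c.b 0) hQ0
    have h5 := hinf hQ0
    have h6 := RT1_inf w (s := x) (by omega) (c.b 0)
    rw [if_pos hQ0, if_neg c2, c1, h6, h5]
    push_cast
    ring
  · rw [if_neg hQ0]
    obtain ⟨a, ha⟩ := Option.ne_none_iff_exists'.1 hQ0
    by_cases hab : a = c.b 0
    · have hQ1 : Q 1 = none := by
        cases hq : Q 1 with
        | none => rfl
        | some b =>
          exfalso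
          rw [ha, hq] at hQ
          have h7 : b ^ c.n * ∏ i, (a - c.b i) = ∏ i, (a - c.a i) := hQ
          have hB : ∏ i, (a - c.b i) = 0 :=
            Finset.prod_eq_zero (Finset.mem_univ 0) (by rw [hab, sub_self])
          rw [hB, mul_zero] at h7
          exact RT1_ab hc h7.symm hB
      have hQe : pb c 0 = Q := by
        funext i
        fin_cases i
        · change some (c.b 0) = Q 0
          rw [ha, hab]
        · exact hQ1.symm
      have c1 : Y.count Q = 0 := by
        rw [Multiset.count_eq_zero]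
        intro hmem
        obtain ⟨y, b, rfl⟩ := hYQ Q hmem
        exact Option.some_ne_none b hQ1
      have h8 := (hbb 0 (by rw [ha, hab])).1
      rw [if_pos hQe, c1, h8]
      push_cast
      ring
    · have c2 : pb c 0 ≠ Q := by
        rintro rfl
        apply hab
        have h9 : some (c.b 0) = some a := ha
        exact (Option.some.inj h9).symm
      rw [ha] at hw0
      have h5 : Red w x (algebraMap k (RF w) a) := hw0
      have h6 := h5.sub (LibCHd.red_const w (c.b 0))
      rw [← map_sub] at h6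
      have hay : a - c.b 0 ≠ 0 := sub_ne_zero.2 hab
      rw [if_neg c2, h6.ord_eq_zero (fun h => hay ((map_eq_zero _).1 h))]
      push_cast
      ring

end Pool.Agent.LibCW77
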