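import Pool.Agent.LibCW77.NDefs

/-!
Units of a valuation ring.
-/

open scoped Classical
open Polynomial

namespace Pool.Agent.LibCW77

open Pool.Agent.LibBH2
open Pool.Agent.LibCHd (VR RF Red FunF)

variable {k : Type} [Field k]

/-- `z` is a unit of `O` -/
def IsU (O : ValuationSubring k) (z : k) : Prop := z ≠ 0 ∧ z ∈ O ∧ z⁻¹ ∈ O

theorem isU_mul {O : ValuationSubring k} {y z : k} (hy : IsU O y) (hz : IsU O z) : IsU O (y * z) :=
  ⟨mul_ne_zero hy.1 hz.1, mul_mem hy.2.1 hz.2.1, by rw [mul_inv]; exact mul_mem hy.2.2 hz.2.2⟩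

theorem isU_inv {O : ValuationSubring k} {y : k} (hy : IsU O y) : IsU O y⁻¹ :=
  ⟨inv_ne_zero hy.1, hy.2.2, by rw [inv_inv]; exact hy.2.1⟩

theorem isU_div {O : ValuationSubring k} {y z : k} (hy : IsU O y) (hz : IsU O z) : IsU O (y / z) := by
  rw [div_eq_mul_inv]
  exact isU_mul hy (isU_inv hz)

theorem isU_neg {O : ValuationSubring k} {y : k} (hy : IsU O y) : IsU O (-y) :=
  ⟨neg_ne_zero.mpr hy.1, neg_mem hy.2.1, by rw [inv_neg]; exact neg_mem hy.2.2⟩

theorem isU_of_rs {O : ValuationSubring k} {y : O} (h : rs O y ≠ 0) : IsU O (y : k) := by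
  rw [Ne, IsLocalRing.residue_eq_zero_iff, IsLocalRing.mem_maximalIdeal, mem_nonunits_iff, not_not] at h
  obtain ⟨u, hu⟩ := h
  have h4 : ((u⁻¹ : Oˣ) : O) * y = 1 := by
    rw [← hu, Units.inv_mul]
  have h5 := congrArg (fun z : O => (z : k)) h4
  simp only [MulMemClass.coe_mul, OneMemClass.coe_one] at h5
  refine ⟨right_ne_zero_of_mul_eq_one h5, y.2, ?_⟩
  rw [← eq_inv_of_mul_eq_one_left h5]
  exact ((u⁻¹ : Oˣ) : O).2

theorem isU_root {O : ValuationSubring k} {y : k} {n : ℕ} (hn : n ≠ 0) (h : IsU O (y ^ n)) : IsU O y := by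
  have hy0 : y ≠ 0 := by
    rintro rfl
    exact h.1 (zero_pow hn)
  obtain ⟨m, rfl⟩ := Nat.exists_eq_succ_of_ne_zero hn
  have e1 : y ∈ O := by
    rcases O.mem_or_inv_mem y with h1 | h1
    · exact h1
    · have h2 : y = y ^ (m + 1) * y⁻¹ ^ m := by
        rw [pow_succ, inv_pow]
        field_simp
      rw [h2]
      exact mul_mem h.2.1 (pow_mem h1 m)
  have e2 : y⁻¹ ∈ O := by
    rcases O.mem_or_inv_mem y with h1 | h1
    · have h2 : y⁻¹ = (y ^ (m + 1))⁻¹ * y ^ m := by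
        rw [pow_succ]
        field_simp
      rw [h2]
      exact mul_mem h.2.2 (pow_mem h1 m)
    · exact h1
  exact ⟨hy0, e1, e2⟩

theorem isU_pow {O : ValuationSubring k} {y : k} (hy : IsU O y) (n : ℕ) : IsU O (y ^ n) :=
  ⟨pow_ne_zero _ hy.1, pow_mem hy.2.1 n, by rw [← inv_pow]; exact pow_mem hy.2.2 n⟩

theorem rs_isU {O : ValuationSubring k} {y : O} (h : IsU O (y : k)) : rs O y ≠ 0 := by
  intro h0
  have h1 : y * (⟨(y : k)⁻¹, h.2.2⟩ : O) = 1 := Subtype.ext (mul_inv_cancel₀ h.1)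
  have h2 := congrArg (rs O) h1
  rw [map_mul, h0, zero_mul, map_one] at h2
  exact zero_ne_one h2

theorem isU_one {O : ValuationSubring k} : IsU O (1 : k) :=
  ⟨one_ne_zero, one_mem O, by rw [inv_one]; exact one_mem O⟩

theorem isU_prod {O : ValuationSubring k} {ι : Type} (s : Finset ι) (f : ι → k) (h : ∀ i ∈ s, IsU O (f i)) :
    IsU O (∏ i ∈ s, f i) := by
  induction s using Finset.induction with
  | empty => exact isU_one
  | insert i s hi ih =>
    rw [Finset.prod_insert hi]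
    exact isU_mul (h i (Finset.mem_insert_self i s)) (ih fun j hj => h j (Finset.mem_insert_of_mem hj))

theorem rs_pp [CharZero k] {O : ValuationSubring k} {p : ℕ} (hp : p.Prime) (h : (p : k)⁻¹ ∉ O) :
    rs O (p : O) = 0 := by
  by_contra h0
  have h1 := isU_of_rs h0
  apply h
  have h2 : (((p : ℕ) : O) : k) = (p : k) := by push_cast; rfl
  rw [h2] at h1
  exact h1.2.2

theorem rs_two {O : ValuationSubring k} {p : ℕ} (hp : p.Prime) (h2 : p ≠ 2) (hO : rs O (p : O) = 0) :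
    rs O (2 : O) ≠ 0 := by
  intro h0
  obtain ⟨q, hq⟩ := hp.odd_of_ne_two h2
  rw [hq] at hO
  push_cast at hO
  rw [map_add, map_mul, h0, zero_mul, zero_add, map_one] at hO
  exact one_ne_zero hO

end Pool.Agent.LibCW77
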