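import Pool.Agent.LibCW77.NDefs

/-!
[CW77 RV] MEDIUM: valuation rings over p

`exists_lp`: as `exists_l` in QM3.lean (CW77_QM3.lean in the store when ready): the eight eighth roots of unity of `k` are in `O` and have different residues (`rs O 8 = rs O 2 ^ 3 ≠ 0`; `∏_{ξ' ≠ ξ} (ξ - ξ') = 8 ξ ^ 7`), and at most six of them are `± rs (t_i)`.
`exists_Op`: as `exists_val` (CW77_NI1.lean) and `exists_O3` for the prime `p`: the local ring `ℤ_(p) ⊂ k` (or the image of `ℤ → k` with the prime ideal `(p)`) is dominated by a valuation ring of `k` (`LocalSubring.exists_le_valuationSubring`).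
-/

open scoped Classical
open Polynomial

namespace Pool.Agent.LibCW77

open Pool.Agent.LibBH2
open Pool.Agent.LibCHd (VR RF Red FunF)

variable {k : Type} [Field k]

/-- the residue field of a valuation ring of an algebraically closed field is algebraically closed -/
private theorem RV_algClosed [IsAlgClosed k] (O : ValuationSubring k) : IsAlgClosed (KK O) := by
  apply IsAlgClosed.of_exists_root
  intro p hp hirr
  have hl : p ∈ Polynomial.lifts (rs O) := by
    rw [Polynomial.mem_lifts]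
    exact Polynomial.map_surjective (rs O) IsLocalRing.residue_surjective p
  obtain ⟨q, hq, hdeg, hm⟩ := Polynomial.lifts_and_natDegree_eq_and_monic hl hp
  have hnd : 0 < p.natDegree := hirr.natDegree_pos
  have hqm : (q.map (algebraMap O k)).Monic := hm.map _
  have hd : (q.map (algebraMap O k)).degree ≠ 0 := by
    intro h0
    have h1 : (q.map (algebraMap O k)).natDegree = 0 := Polynomial.natDegree_eq_of_degree_eq_some h0
    rw [hm.natDegree_map, hdeg] at h1
    omega
  obtain ⟨x, hx⟩ := IsAlgClosed.exists_root _ hd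
  have hxint : IsIntegral O x := by
    refine ⟨q, hm, ?_⟩
    rw [Polynomial.IsRoot.def, Polynomial.eval_map] at hx
    exact hx
  obtain ⟨y, hy⟩ := IsIntegrallyClosed.isIntegral_iff.1 hxint
  refine ⟨rs O y, ?_⟩
  have h0 : q.eval y = 0 := by
    have hinj : Function.Injective (algebraMap O k) := IsFractionRing.injective O k
    apply hinj
    rw [map_zero, ← Polynomial.eval₂_at_apply, hy, ← Polynomial.eval_map]
    exact hx
  rw [← hq, Polynomial.eval_map, Polynomial.eval₂_at_apply, h0, map_zero]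

theorem exists_lp [IsAlgClosed k] [CharZero k] {O : ValuationSubring k} (h2 : rs O 2 ≠ 0) {t : Fin 3 → k}
    (ht : ∀ i, t i ∈ O) :
    ∃ l : O, rs O l ≠ 0 ∧ ∀ i, rs O (⟨t i, ht i⟩ - l) ≠ 0 ∧ rs O (⟨t i, ht i⟩ + l) ≠ 0 := by
  have _ := h2
  haveI := RV_algClosed O
  haveI : Infinite (KK O) := inferInstance
  let B : Finset (KK O) := insert 0 ((Finset.univ.image fun i => rs O ⟨t i, ht i⟩) ∪
    (Finset.univ.image fun i => - rs O ⟨t i, ht i⟩))
  obtain ⟨c, hc⟩ := Infinite.exists_notMem_finset B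
  obtain ⟨l, hl⟩ := IsLocalRing.residue_surjective (R := O) c
  have hc' : c ∉ B := hc
  simp only [B, Finset.mem_insert, Finset.mem_union, Finset.mem_image, Finset.mem_univ, true_and, not_or,
    not_exists] at hc'
  obtain ⟨h0, h1, h3⟩ := hc'
  have hl' : rs O l = c := hl
  refine ⟨l, by rw [hl']; exact h0, fun i => ⟨?_, ?_⟩⟩
  · rw [map_sub, hl']
    intro h
    exact h1 i (sub_eq_zero.1 h)
  · rw [map_add, hl']
    intro h
    exact h3 i (neg_eq_of_add_eq_zero_right h)

theorem exists_Op [CharZero k] {p : ℕ} (hp : p.Prime) : ∃ O : ValuationSubring k, (p : k)⁻¹ ∉ O ∧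
    (∀ m : ℤ, (m : k) ∈ O) ∧ ∀ m : ℤ, ¬ (p : ℤ) ∣ m → ((m : ℤ) : k)⁻¹ ∈ O := by
  haveI : Fact p.Prime := ⟨hp⟩
  let φ : ℤ →+* k := Int.castRingHom k
  have hφinj : Function.Injective φ := RingHom.injective_int φ
  have hφ : ∀ m : ℤ, φ m = (m : k) := fun m => rfl
  let e : ℤ ≃+* φ.range :=
    RingEquiv.ofBijective φ.rangeRestrict
      ⟨fun a b hab => hφinj (congrArg Subtype.val hab), φ.rangeRestrict_surjective⟩
  have he : ∀ m : ℤ, ((e m : φ.range) : k) = φ m := fun m => rfl
  let ψ : φ.range →+* ZMod p := (Int.castRingHom (ZMod p)).comp (e.symm : φ.range ≃+* ℤ).toRingHom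
  have hψ : ∀ m : ℤ, ψ (e m) = (m : ZMod p) := by
    intro m
    change ((e.symm (e m) : ℤ) : ZMod p) = (m : ZMod p)
    rw [RingEquiv.symm_apply_apply]
  haveI hprime : (RingHom.ker ψ).IsPrime := RingHom.ker_isPrime ψ
  let L : LocalSubring k := LocalSubring.ofPrime φ.range (RingHom.ker ψ)
  obtain ⟨O, hO⟩ := L.exists_le_valuationSubring
  obtain ⟨hle, hloc⟩ := LocalSubring.le_def.mp hO
  have hAL : φ.range ≤ L.toSubring := LocalSubring.le_ofPrime φ.range (RingHom.ker ψ)
  have key : ∀ m : ℤ, ∃ z : O, (z : k) = (m : k) ∧ (¬ IsUnit z ↔ (p : ℤ) ∣ m) := by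
    intro m
    let y : L.toSubring := Subring.inclusion hAL (e m)
    let z : O := ⟨(y : k), hle y.2⟩
    have h1 : IsUnit y ↔ e m ∈ (RingHom.ker ψ).primeCompl := by
      have := IsLocalization.AtPrime.isUnit_to_map_iff (LocalSubring.ofPrime φ.range (RingHom.ker ψ)).toSubring
        (RingHom.ker ψ) (e m)
      exact this
    have h2 : IsUnit (Subring.inclusion hle y) ↔ IsUnit y :=
      ⟨fun h => hloc.map_nonunit y h, fun h => h.map _⟩
    have h3 : IsUnit z ↔ IsUnit (Subring.inclusion hle y) := Iff.rfl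
    refine ⟨z, rfl, ?_⟩
    rw [h3, h2, h1]
    have h5 : e m ∈ (RingHom.ker ψ).primeCompl ↔ ¬ (ψ (e m) = 0) := by
      rw [Ideal.mem_primeCompl_iff, RingHom.mem_ker]
    rw [h5, not_not, hψ]
    exact ZMod.intCast_zmod_eq_zero_iff_dvd m p
  have hval : ∀ {z w : O}, z * w = 1 → (w : k) = (z : k)⁻¹ := by
    intro z w hzw
    have h5 := congrArg (fun z : O => (z : k)) hzw
    simp only [MulMemClass.coe_mul, OneMemClass.coe_one] at h5
    exact eq_inv_of_mul_eq_one_right h5
  refine ⟨O, ?_, fun m => ?_, fun m hm => ?_⟩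
  · intro h3
    obtain ⟨z, hz, hz2⟩ := key p
    apply hz2.2 (dvd_refl _)
    have hp0 : (p : k) ≠ 0 := by exact_mod_cast hp.ne_zero
    refine IsUnit.of_mul_eq_one (⟨(p : k)⁻¹, h3⟩ : O) ?_
    apply Subtype.ext
    change (z : k) * (p : k)⁻¹ = 1
    rw [hz]
    push_cast
    exact mul_inv_cancel₀ hp0
  · obtain ⟨z, hz, -⟩ := key m
    rw [← hz]
    exact z.2
  · obtain ⟨z, hz, hz'⟩ := key m
    have hu : IsUnit z := by
      by_contra hcon
      exact hm (hz'.1 hcon)
    obtain ⟨w, hw⟩ := hu.exists_right_inv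
    rw [← hz, ← hval hw]
    exact w.2

end Pool.Agent.LibCW77
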