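import Pool.Agent.LibCW77.RN2
import Pool.Agent.LibCW77.RE1
import Pool.Agent.LibCW77.RE2
import Pool.Agent.LibCW77.RE3
import Pool.Agent.LibCW77.RE5
import Pool.Agent.LibCW77.RT1

/-!
[CW77 RZ1] points whose difference to the ramified points is not torsion.
-/

open scoped Classical
open Polynomial

namespace Pool.Agent.LibCW77

open Pool.Agent.LibBH2
open Pool.Agent.LibCHd (VR RF Red FunF)

variable {k : Type} [Field k]

theorem sep_p [IsAlgClosed k] [CharZero k] {c : Dat k} (hc : c.Good) {p : ℕ} (hp : p.Prime) (hcp : c.n = p)
    {O : ValuationSubring k} (hO : rs O (p : O) = 0) (hmem : ∀ s, Sum.elim c.a c.b s ∈ O) {ι : Type} [Fintype ι]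
    [Nonempty ι] (hι : Fintype.card ι ≤ 2) (a b : ι → O) (ha : ∀ i i', rs O (a i) = rs O (a i') → i = i')
    (hab : ∀ i, (b i : k) ^ p * (Bp c).eval (a i : k) = (Ap c).eval (a i : k) ∧ (Wp c).eval (a i : k) ≠ 0 ∧
      ((Wp c).eval (a i : k))⁻¹ ∈ O)
    (ht : IsOfFinAddOrder (∑ i, cls c 0 (pt1 ![some (a i : k), some (b i : k)]) -
      Fintype.card ι • cls c 0 (pt1 (pb c 0)))) : False := by
  -- the polynomials over `O`
  set A : O[X] := ∏ i : Fin 3, (X - C (⟨c.a i, hmem (Sum.inl i)⟩ : O)) with hAdef
  set B : O[X] := ∏ i : Fin 3, (X - C (⟨c.b i, hmem (Sum.inr i)⟩ : O)) with hBdef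
  have hAk : A.map (algebraMap O k) = Ap c := by
    rw [hAdef, Polynomial.map_prod, Ap]
    apply Finset.prod_congr rfl
    intro i _
    rw [Polynomial.map_sub, Polynomial.map_X, Polynomial.map_C]
    rfl
  have hBk : B.map (algebraMap O k) = Bp c := by
    rw [hBdef, Polynomial.map_prod, Bp]
    apply Finset.prod_congr rfl
    intro i _
    rw [Polynomial.map_sub, Polynomial.map_X, Polynomial.map_C]
    rfl
  have hev : ∀ (P : O[X]) (a : O), ((P.eval a : O) : k) = (P.map (algebraMap O k)).eval (a : k) := by
    intro P a
    rw [show (a : k) = algebraMap O k a from rfl, eval_map, eval₂_hom]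
    rfl
  -- units
  have hunit : ∀ i, rs O (A.eval (a i)) ≠ 0 ∧ rs O (B.eval (a i)) ≠ 0 ∧
      rs O ((derivative A * B - A * derivative B).eval (a i)) ≠ 0 := by
    intro i
    obtain ⟨-, h1, h2⟩ := hab i
    have h4 : (((A * B * (derivative A * B - A * derivative B)).eval (a i) : O) : k) = (Wp c).eval (a i : k) := by
      rw [hev, Wp, ← hAk, ← hBk]
      simp only [Polynomial.map_mul, Polynomial.map_sub, derivative_map]
    have h5 : rs O ((A * B * (derivative A * B - A * derivative B)).eval (a i)) ≠ 0 := by
      intro h0
      rw [← h4] at h1 h2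
      have h6 : (A * B * (derivative A * B - A * derivative B)).eval (a i) *
          (⟨_, h2⟩ : O) = 1 := by
        apply Subtype.ext
        exact mul_inv_cancel₀ h1
      have h7 := congrArg (rs O) h6
      rw [map_mul, h0, zero_mul, map_one] at h7
      exact zero_ne_one h7
    rw [eval_mul, eval_mul, map_mul, map_mul] at h5
    exact ⟨left_ne_zero_of_mul (left_ne_zero_of_mul h5), right_ne_zero_of_mul (left_ne_zero_of_mul h5),
      right_ne_zero_of_mul h5⟩
  have hb0 : ∀ i, (b i : k) ≠ 0 := by
    intro i h0
    obtain ⟨h1, h2, -⟩ := hab i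
    apply h2
    rw [h0, zero_pow hp.ne_zero, zero_mul] at h1
    rw [Wp, eval_mul, eval_mul, ← h1]
    ring
  -- the function
  obtain ⟨N, _, _, x, v, hgen⟩ := genC_exists hc
  set Z : Multiset (k × k) := (Finset.univ : Finset ι).val.map fun i => ((a i : k), (b i : k)) with hZ
  have hZc : Z.card = Fintype.card ι := by
    rw [hZ, Multiset.card_map]
    rfl
  obtain ⟨m, g, hm, hg0, hord⟩ := tors_fun hc Z (by
      intro q hq
      obtain ⟨i, _, rfl⟩ := Multiset.mem_map.mp hq
      rw [hcp]
      exact ⟨(hab i).1, hb0 i⟩) (by
      rw [hZc, hZ, Multiset.map_map]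
      exact ht) hgen
  rw [hZc] at hord
  obtain ⟨j, hj, hspan, hu⟩ := ne_repn hc hgen
  rw [hcp] at hspan hu
  obtain ⟨gg, hd0, hdl, hgg⟩ := ne_globn hc hgen (z := g) (Fintype.card ι * m) (by
    intro w Q h1 h2 h4
    rw [hord w Q h1 h2 h4]
    split_ifs with h0
    · push_cast
      exact le_refl _
    · positivity)
  rw [hcp] at hgg
  have hv : v ^ p * j (algebraMap k[X] (RatFunc k) (B.map (algebraMap O k))) =
      j (algebraMap k[X] (RatFunc k) (A.map (algebraMap O k))) := by
    rw [hAk, hBk, hj, hj]
    have h1 : v ^ c.n * ∏ i, (x - algebraMap k N (c.b i)) = ∏ i, (x - algebraMap k N (c.a i)) := hgen.on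
    rw [hcp] at h1
    rw [Ap, Bp, map_prod, map_prod]
    simpa using h1
  refine nfp hp hO a b ha (fun i => (hunit i).1) (fun i => (hunit i).2.1) (fun i => (hunit i).2.2) (fun i => by
      apply Subtype.ext
      have h1 := (hab i).1
      rw [← hAk, ← hBk, ← hev, ← hev] at h1
      exact h1) j hv hu hm (gg := gg) hd0 (fun l hl => (hdl l hl).imp_right fun h => by omega) hg0
    (by
      rw [hgg]
      apply Finset.sum_congr rfl
      intro l _
      rw [hj, hBk]) ?_
  intro i
  have hD0 : v - j (RatFunc.C (b i : k)) ≠ 0 := by
    intro hq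
    have h1 := hu (fun l => if l = 0 then -RatFunc.C (b i : k) else if l = 1 then 1 else 0) (by
      obtain ⟨q, hq2⟩ : ∃ q, p = q + 2 := ⟨p - 2, by have := hp.two_le; omega⟩
      rw [hq2, Finset.sum_range_succ', Finset.sum_range_succ']
      rw [Finset.sum_eq_zero]
      · simp only [zero_add, one_ne_zero, if_false, if_true, pow_one, pow_zero, mul_one, map_one, one_mul, map_neg]
        linear_combination hq
      · intro l _
        rw [if_neg (by omega), if_neg (by omega), map_zero, zero_mul]) 1 hp.one_lt
    simp at h1
  have hCb : j (RatFunc.C (b i : k)) = algebraMap k N (b i : k) := by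
    rw [← RatFunc.algebraMap_C, hj, aeval_C]
  obtain ⟨r, hr⟩ := hspan (g / (v - j (RatFunc.C (b i : k))) ^ (p * m))
  refine ⟨r, ?_, ?_⟩
  · rw [← hr, div_mul_cancel₀ _ (pow_ne_zero _ hD0)]
  · intro y hy
    have hval : ∀ P : O[X], rs O (P.eval y) = rs O (P.eval (a i)) := by
      intro P
      rw [← eval₂_hom, ← eval₂_hom, hy]
    have hyA : (Ap c).eval (y : k) ≠ 0 := by
      intro h0
      rw [← hAk, ← hev] at h0
      have h1 : A.eval y = 0 := Subtype.ext h0
      apply (hunit i).1
      rw [← hval, h1, map_zero]
    have hyB : (Bp c).eval (y : k) ≠ 0 := by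
      intro h0
      rw [← hBk, ← hev] at h0
      have h1 : B.eval y = 0 := Subtype.ext h0
      apply (hunit i).2.1
      rw [← hval, h1, map_zero]
    have hreg := ne_locn hc hgen j hj (r := r) hyA hyB
    rw [hcp] at hreg
    apply hreg
    intro w b' hb' hx hv1
    rw [← hr]
    have hinj : b' = (b i : k) → (y : k) = (a i : k) := by
      intro hbb
      have e1 := (hab i).1
      rw [← hbb] at e1
      have e3 : A.eval (a i) * B.eval y = A.eval y * B.eval (a i) := by
        apply Subtype.ext
        rw [MulMemClass.coe_mul, MulMemClass.coe_mul, hev, hev, hev, hev, hAk, hBk, ← e1, ← hb']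
        ring
      have hroot : (C (B.eval y) * A - C (A.eval y) * B).IsRoot y := by
        rw [IsRoot.def, eval_sub, eval_mul, eval_mul, eval_C, eval_C]
        ring
      obtain ⟨U, hU⟩ := dvd_iff_isRoot.mpr hroot
      have e4 : U.eval y = (derivative A * B - A * derivative B).eval y := by
        have h1 := congrArg (fun p => (derivative p).eval y) hU
        simp only [derivative_sub, derivative_mul, derivative_C, derivative_X, eval_sub, eval_add, eval_mul,
          eval_C, eval_X, sub_self, zero_mul, zero_add, sub_zero, one_mul, add_zero, eval_one] at h1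
        rw [← h1, eval_sub, eval_mul, eval_mul]
        ring
      have e5 : rs O (U.eval (a i)) ≠ 0 := by
        rw [← hval U, e4, hval]
        exact (hunit i).2.2
      have e6 : (a i - y) * U.eval (a i) = 0 := by
        have h1 := congrArg (fun p => p.eval (a i)) hU
        simp only [eval_mul, eval_sub, eval_C, eval_X] at h1
        rw [← h1]
        linear_combination e3
      rcases mul_eq_zero.mp e6 with e7 | e7
      · have : a i = y := sub_eq_zero.mp e7
        rw [this]
      · rw [e7, map_zero] at e5
        exact absurd rfl e5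
    have hordD := (ne_ordn hc hgen (y := (a i : k)) (b := (b i : k)) (by rw [hcp]; exact (hab i).1) (hab i).2.1 hyA hyB
      (by rw [hcp]; exact hb') hinj w hx hv1).2
    have hOn : OnC c ((![some (y : k), some b'] : Fin 2 → Option k) 0) ((![some (y : k), some b'] : Fin 2 → Option k) 1) := by
      show b' ^ c.n * ∏ i, ((y : k) - c.b i) = ∏ i, ((y : k) - c.a i)
      have h1 : (Ap c).eval (y : k) = ∏ i, ((y : k) - c.a i) := by
        rw [Ap, eval_prod]
        simp
      have h2 : (Bp c).eval (y : k) = ∏ i, ((y : k) - c.b i) := by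
        rw [Bp, eval_prod]
        simp
      rw [← h1, ← h2, hcp]
      exact hb'
    have hordg := hord w ![some (y : k), some b'] hOn hx hv1
    have hne : ¬ (![some (y : k), some b'] : Fin 2 → Option k) 0 = none := by
      show ¬ some (y : k) = none
      exact Option.some_ne_none _
    rw [if_neg hne] at hordg
    have hcount : ((Z.map fun q => ![some q.1, some q.2]).count ![some (y : k), some b'] : ℤ) =
        if b' = (b i : k) then 1 else 0 := by
      have h1 : (Z.map fun q => ![some q.1, some q.2]).count ![some (y : k), some b'] =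
          (Finset.univ.filter fun i' : ι => (![some (y : k), some b'] : Fin 2 → Option k) =
            ![some (a i' : k), some (b i' : k)]).card := by
        rw [hZ, Multiset.map_map, Multiset.count_map]
        rfl
      rw [h1]
      have h2 : ∀ i', (![some (y : k), some b'] : Fin 2 → Option k) = ![some (a i' : k), some (b i' : k)] →
          i' = i ∧ b' = (b i' : k) := by
        intro i' h
        have h4 : (y : k) = (a i' : k) := Option.some_injective _ (congrFun h 0)
        have h5 : b' = (b i' : k) := Option.some_injective _ (congrFun h 1)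
        refine ⟨ha i' i ?_, h5⟩
        rw [← hy]
        congr 1
        exact (Subtype.ext h4).symm
      by_cases hbb : b' = (b i : k)
      · rw [if_pos hbb]
        have : (Finset.univ.filter fun i' : ι => (![some (y : k), some b'] : Fin 2 → Option k) =
            ![some (a i' : k), some (b i' : k)]) = {i} := by
          ext i'
          simp only [Finset.mem_filter, Finset.mem_univ, true_and, Finset.mem_singleton]
          constructor
          · intro h
            exact (h2 i' h).1
          · rintro rfl
            rw [hinj hbb, hbb]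
        rw [this, Finset.card_singleton]
        rfl
      · rw [if_neg hbb]
        have : (Finset.univ.filter fun i' : ι => (![some (y : k), some b'] : Fin 2 → Option k) =
            ![some (a i' : k), some (b i' : k)]) = ∅ := by
          apply Finset.filter_eq_empty_iff.mpr
          intro i' _ h
          obtain ⟨h4, h5⟩ := h2 i' h
          rw [h4] at h5
          exact hbb h5
        rw [this, Finset.card_empty]
        rfl
    rcases Pool.Agent.LibCHd.reg_or w (g / (v - j (RatFunc.C (b i : k))) ^ (p * m)) with h1 | h1
    · exact h1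
    · exfalso
      rw [w.ord_div _ _ hg0 (pow_ne_zero _ hD0), w.ord_pow, hordg, hcount, hCb, hordD, hcp] at h1
      push_cast at h1
      rw [sub_self] at h1
      exact lt_irrefl _ h1

end Pool.Agent.LibCW77
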