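import Pool.Agent.LibCW77.RZ1
import Pool.Agent.LibCW77.RU
import Pool.Agent.LibCW77.OZ
import Pool.Agent.LibEV91.P1

/-!
[CW77 RZ2] The cycle of Gross and Schoen on the curves `v ^ n ∏ (x - 1 / a_i) = ∏ (x - a_i)`, from the exponent `n` to
the prime exponent `p`.
-/

open scoped Classical
open Polynomial

namespace Pool.Agent.LibCW77

open Pool.Agent.LibBH2
open Pool.Agent.LibCHd (VR RF Red FunF)

variable {k : Type} [Field k]

theorem rec_evA (n : ℕ) (a : Fin 3 → k) (y : k) : (Ap (recD n a)).eval y = ∏ i, (y - a i) := by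
  rw [Ap, eval_prod]
  simp [recD]

theorem rec_evB (n : ℕ) (a : Fin 3 → k) (y : k) : (Bp (recD n a)).eval y = ∏ i, (y - (a i)⁻¹) := by
  rw [Bp, eval_prod]
  simp [recD]

theorem rec_fix {a : Fin 3 → k} (ha : ∀ i, a i ≠ 0) {ε : k} (hε : ε ^ 2 = 1) :
    (-ε * ∏ i, a i) * ∏ i, (ε - (a i)⁻¹) = ∏ i, (ε - a i) := by
  have key : ∀ i, a i * (ε - (a i)⁻¹) = -ε * (ε - a i) := by
    intro i
    rw [mul_sub, mul_inv_cancel₀ (ha i)]
    linear_combination hε
  rw [mul_assoc, ← Finset.prod_mul_distrib, Finset.prod_congr rfl (fun i _ => key i), Finset.prod_mul_distrib,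
    Finset.prod_const, Finset.card_univ, Fintype.card_fin, ← mul_assoc]
  have h1 : -ε * (-ε) ^ 3 = 1 := by linear_combination (ε ^ 2 + 1) * hε
  rw [h1, one_mul]

theorem rec_good {n m : ℕ} {a : Fin 3 → k} (hc : (recD n a).Good) (hm : 2 ≤ m) : (recD m a).Good := ⟨hm, hc.inj⟩

/-- the push-forward of the relation of `theta_tors` to the exponent `m` -/
theorem rec_push [IsAlgClosed k] [CharZero k] {n m e : ℕ} {a : Fin 3 → k} (hc : (recD n a).Good) (hn : n = e * m)
    (hm : 2 ≤ m) {s e₁ e₂ : k} (h1 : e₁ ^ 2 = 1) (h2 : e₂ ^ 2 = 1) (hs1 : s ^ n = -e₁ * ∏ i, a i)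
    (hs2 : (-s) ^ n = -e₂ * ∏ i, a i) {N : Type} [Field N] [Algebra k N] {x v : N} (h : GenC (recD n a) x v)
    (ht : IsOfFinAddOrder (GS (recD n a) ![some x, some v])) :
    IsOfFinAddOrder (cls (recD m a) 0 (pt1 ![some e₁, some (s ^ e)]) +
      cls (recD m a) 0 (pt1 ![some e₂, some ((-s) ^ e)]) - 2 • cls (recD m a) 0 (pt1 (pb (recD m a) 0))) := by
  have T := theta_tors hc h1 h2 hs1 hs2 h ht
  obtain ⟨Φ, hΦ⟩ := push_pt (recD n a) hc (e := e) (m := m) hn hm
  have ha : ∀ i, a i ≠ 0 := (rec_facts hc).1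
  have T2 := Φ.isOfFinAddOrder T
  have o1 : OnC (recD n a) ((![some e₁, some s] : Fin 2 → Option k) 0) ((![some e₁, some s] : Fin 2 → Option k) 1) := by
    show s ^ n * ∏ i, (e₁ - (a i)⁻¹) = ∏ i, (e₁ - a i)
    rw [hs1]
    exact rec_fix ha h1
  have o2 : OnC (recD n a) ((![some e₂, some (-s)] : Fin 2 → Option k) 0)
      ((![some e₂, some (-s)] : Fin 2 → Option k) 1) := by
    show (-s) ^ n * ∏ i, (e₂ - (a i)⁻¹) = ∏ i, (e₂ - a i)
    rw [hs2]
    exact rec_fix ha h2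
  have o3 : OnC (recD n a) ((![some (a 0)⁻¹, none] : Fin 2 → Option k) 0)
      ((![some (a 0)⁻¹, none] : Fin 2 → Option k) 1) := ⟨0, rfl⟩
  rw [map_sub, map_add, map_nsmul, hΦ _ o1, hΦ _ o2, hΦ _ o3] at T2
  exact T2

/-- even index -/
theorem rec_even [IsAlgClosed k] [CharZero k] {n p e : ℕ} {a : Fin 3 → k} (hc : (recD n a).Good) (hp : p.Prime)
    (hn : n = e * p) (he : Even e) {O : ValuationSubring k} (hO : rs O (p : O) = 0) (ua : ∀ i, IsU O (a i)) {ε : k}
    (hε : ε ^ 2 = 1) (hW : IsU O ((Wp (recD p a)).eval ε)) {N : Type} [Field N] [Algebra k N] {x v : N}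
    (h : GenC (recD n a) x v) : ¬ IsOfFinAddOrder (GS (recD n a) ![some x, some v]) := by
  intro ht
  have hn0 : 0 < n := by have := hc.two; exact lt_of_lt_of_le two_pos this
  obtain ⟨s, hs⟩ := IsAlgClosed.exists_pow_nat_eq (-ε * ∏ i, a i) hn0
  have hes : (-s) ^ e = s ^ e := he.neg_pow s
  have hs2 : (-s) ^ n = -ε * ∏ i, a i := by
    rw [← hs, hn]
    exact (he.mul_right p).neg_pow s
  have T := rec_push hc hn hp.two_le hε hε hs hs2 h ht
  rw [hes, ← two_nsmul, ← nsmul_sub] at T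
  have T1 := IsOfFinAddOrder.of_nsmul T two_ne_zero
  have uε : IsU O ε := isU_root two_ne_zero (by rw [hε]; exact isU_one)
  have us : IsU O s := isU_root hn0.ne' (by
    rw [hs]
    exact isU_mul (isU_neg uε) (isU_prod _ _ fun i _ => ua i))
  have hsp : (s ^ e) ^ p = -ε * ∏ i, a i := by
    rw [← pow_mul, ← hn, hs]
  refine sep_p (c := recD p a) (rec_good hc hp.two_le) hp rfl hO (ι := Unit) ?_ ?_ (fun _ => (⟨ε, uε.2.1⟩ : O))
    (fun _ => (⟨s ^ e, (isU_pow us e).2.1⟩ : O)) (fun _ _ _ => rfl) (fun _ => ⟨?_, hW.1, hW.2.2⟩) ?_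
  · rintro (i | i)
    · exact (ua i).2.1
    · exact (ua i).2.2
  · simp
  · rw [rec_evA, rec_evB, hsp]
    exact rec_fix (rec_facts hc).1 hε
  · simp only [Finset.univ_unique, Finset.sum_singleton, Fintype.card_unit, one_smul]
    exact T1

/-- odd index -/
theorem rec_odd [IsAlgClosed k] [CharZero k] {n p e : ℕ} {a : Fin 3 → k} (hc : (recD n a).Good) (hp : p.Prime)
    (hn : n = e * p) (he : Odd n) {O : ValuationSubring k} (hO : rs O (p : O) = 0) (ua : ∀ i, IsU O (a i))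
    (hW1 : IsU O ((Wp (recD p a)).eval 1)) (hW2 : IsU O ((Wp (recD p a)).eval (-1))) {N : Type} [Field N]
    [Algebra k N] {x v : N} (h : GenC (recD n a) x v) : ¬ IsOfFinAddOrder (GS (recD n a) ![some x, some v]) := by
  intro ht
  have hn0 : 0 < n := by have := hc.two; exact lt_of_lt_of_le two_pos this
  have hop : Odd e ∧ Odd p := by rw [hn] at he; exact Nat.odd_mul.mp he
  have hp2 : p ≠ 2 := by
    rintro rfl
    exact absurd hop.2 (by decide)
  obtain ⟨s, hs⟩ := IsAlgClosed.exists_pow_nat_eq (-1 * ∏ i, a i) hn0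
  have hes : (-s) ^ e = -s ^ e := hop.1.neg_pow s
  have hs2 : (-s) ^ n = -(-1) * ∏ i, a i := by
    rw [he.neg_pow, hs]
    ring
  have T := rec_push hc hn hp.two_le (one_pow 2) (by norm_num) hs hs2 h ht
  rw [hes] at T
  have us : IsU O s := isU_root hn0.ne' (by
    rw [hs]
    exact isU_mul (isU_neg isU_one) (isU_prod _ _ fun i _ => ua i))
  have hsp : (s ^ e) ^ p = -1 * ∏ i, a i := by
    rw [← pow_mul, ← hn, hs]
  have hsp2 : (-s ^ e) ^ p = -(-1) * ∏ i, a i := by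
    rw [hop.2.neg_pow, hsp]
    ring
  refine sep_p (c := recD p a) (rec_good hc hp.two_le) hp rfl hO (ι := Fin 2) ?_ ?_ ![(1 : O), (-1 : O)]
    ![(⟨s ^ e, (isU_pow us e).2.1⟩ : O), -(⟨s ^ e, (isU_pow us e).2.1⟩ : O)] ?_ ?_ ?_
  · rintro (i | i)
    · exact (ua i).2.1
    · exact (ua i).2.2
  · simp
  · have h5 : rs O (1 : O) ≠ rs O (-1 : O) := by
      intro h6
      apply rs_two hp hp2 hO
      have h8 : (2 : O) = 1 - (-1) := by norm_num
      rw [h8, map_sub, h6, sub_self]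
    intro i i' hi
    fin_cases i <;> fin_cases i'
    · rfl
    · exact absurd hi h5
    · exact absurd hi.symm h5
    · rfl
  · intro i
    fin_cases i
    · refine ⟨?_, hW1.1, hW1.2.2⟩
      show (s ^ e) ^ p * (Bp (recD p a)).eval (1 : k) = (Ap (recD p a)).eval (1 : k)
      rw [rec_evA, rec_evB, hsp]
      exact rec_fix (rec_facts hc).1 (one_pow 2)
    · refine ⟨?_, hW2.1, hW2.2.2⟩
      show (-s ^ e) ^ p * (Bp (recD p a)).eval (-1 : k) = (Ap (recD p a)).eval (-1 : k)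
      rw [rec_evA, rec_evB, hsp2]
      exact rec_fix (rec_facts hc).1 (by norm_num)
  · rw [Fin.sum_univ_two, Fintype.card_fin]
    exact T

end Pool.Agent.LibCW77
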