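import Pool.Agent.LibCW77.RZ2
import Pool.Agent.LibCW77.RV
import Pool.Agent.LibCW77.RI2

/-!
[CW77 RZ3] The p-adic theorem.
-/

open scoped Classical
open Polynomial

namespace Pool.Agent.LibCW77

open Pool.Agent.LibBH2
open Pool.Agent.LibCHd (VR RF Red FunF)

variable {k : Type} [Field k]

/-- the coordinates of `symN` -/
theorem sym_tors [IsAlgClosed k] [CharZero k] {n : ℕ} {t : Fin 3 → k} (hc : (symN n t).Good) {l κ : k} (hl : l ≠ 0)
    (ht : ∀ i, t i ≠ l ∧ t i ≠ -l) (hκ : κ ^ n = -∏ i, ((t i - l) / (t i + l))) {N : Type} [Field N] [Algebra k N]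
    {x v : N} (h : GenC (symN n t) x v) (h0 : IsOfFinAddOrder (GS (symN n t) ![some x, some v])) :
    IsOfFinAddOrder (GS (recD n fun i => (t i - l) / (t i + l))
      ![some ((x - algebraMap k N l) / (x + algebraMap k N l)), some (algebraMap k N κ * v)]) := by
  obtain ⟨Γ, hΓ⟩ := exists_mb hc hl ht hκ
  have h1 := Γ.isOfFinAddOrder h0
  have hF : FunF k 1 N := (genC_funF hc h).1
  have hPon : OnC ((symN n t).over N) ((![some x, some v] : Fin 2 → Option N) 0)
    ((![some x, some v] : Fin 2 → Option N) 1) := h.on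
  have heon : OnC ((symN n t).over N) (e0 (symN n t) N 0) (e0 (symN n t) N 1) := by
    show (0 : N) ^ n * ∏ i, (algebraMap k N (t 0) - algebraMap k N (-t i)) =
      ∏ i, (algebraMap k N (t 0) - algebraMap k N (t i))
    rw [zero_pow (by have : 2 ≤ n := hc.two; omega), zero_mul, eq_comm]
    exact Finset.prod_eq_zero (Finset.mem_univ 0) (sub_self _)
  have hOn : ∀ A B C : Fin 2 → Option N, OnC ((symN n t).over N) (A 0) (A 1) → OnC ((symN n t).over N) (B 0) (B 1) →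
      OnC ((symN n t).over N) (C 0) (C 1) → On ((symN n t).over N) (tri A B C) := by
    intro A B C hA hB hC j
    fin_cases j
    · exact hA
    · exact hB
    · exact hC
  set P : Fin 2 → Option N := ![some x, some v] with hP
  set P' : Fin 2 → Option N := ![some ((x - algebraMap k N l) / (x + algebraMap k N l)), some (algebraMap k N κ * v)]
    with hP'
  have hmP : (![mo (algebraMap k N l) (P 0), (P 1).map fun v => algebraMap k N κ * v] : Fin 2 → Option N) = P' := by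
    have hxl : x ≠ -algebraMap k N l := by
      intro h2
      apply h.tr
      rw [h2, ← map_neg]
      exact isAlgebraic_algebraMap _
    rw [hP, hP']
    funext j
    fin_cases j
    · show (if x = -algebraMap k N l then none else _) = _
      rw [if_neg hxl]
      rfl
    · rfl
  have hme : (![mo (algebraMap k N l) (e0 (symN n t) N 0), (e0 (symN n t) N 1).map fun v => algebraMap k N κ * v] :
      Fin 2 → Option N) = e0 (recD n fun i => (t i - l) / (t i + l)) N := by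
    have hxl : algebraMap k N (t 0) ≠ -algebraMap k N l := by
      rw [← map_neg]
      exact fun h2 => (ht 0).2 ((algebraMap k N).injective h2)
    funext j
    fin_cases j
    · show (if algebraMap k N (t 0) = -algebraMap k N l then none else _) = _
      rw [if_neg hxl, ← map_sub, ← map_add, ← map_div₀]
      rfl
    · show some (algebraMap k N κ * 0) = some 0
      rw [mul_zero]
  have htri : ∀ A B C A' B' C' : Fin 2 → Option N,
      (![mo (algebraMap k N l) (A 0), (A 1).map fun v => algebraMap k N κ * v] : Fin 2 → Option N) = A' →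
      (![mo (algebraMap k N l) (B 0), (B 1).map fun v => algebraMap k N κ * v] : Fin 2 → Option N) = B' →
      (![mo (algebraMap k N l) (C 0), (C 1).map fun v => algebraMap k N κ * v] : Fin 2 → Option N) = C' →
      mb l κ (tri A B C) = tri A' B' C' := by
    intro A B C A' B' C' hA hB hC
    funext j
    fin_cases j
    · exact hA
    · exact hB
    · exact hC
  rw [GS, map_add, map_add, map_add, map_sub, map_sub, map_sub,
    hΓ N _ hF (hOn _ _ _ hPon hPon hPon), hΓ N _ hF (hOn _ _ _ hPon hPon heon),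
    hΓ N _ hF (hOn _ _ _ hPon heon hPon), hΓ N _ hF (hOn _ _ _ heon hPon hPon),
    hΓ N _ hF (hOn _ _ _ hPon heon heon), hΓ N _ hF (hOn _ _ _ heon hPon heon),
    hΓ N _ hF (hOn _ _ _ heon heon hPon), htri _ _ _ _ _ _ hmP hmP hmP, htri _ _ _ _ _ _ hmP hmP hme,
    htri _ _ _ _ _ _ hmP hme hmP, htri _ _ _ _ _ _ hme hmP hmP, htri _ _ _ _ _ _ hmP hme hme,
    htri _ _ _ _ _ _ hme hmP hme, htri _ _ _ _ _ _ hme hme hmP] at h1
  exact h1

theorem rec_dA (n : ℕ) (a : Fin 3 → k) (y : k) : (derivative (Ap (recD n a))).eval y =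
    (y - a 1) * (y - a 2) + (y - a 0) * (y - a 2) + (y - a 0) * (y - a 1) := by
  rw [Ap, Fin.prod_univ_three]
  simp only [recD, derivative_mul, derivative_sub, derivative_X, derivative_C, sub_zero, one_mul, mul_one, eval_add,
    eval_mul, eval_sub, eval_X, eval_C]
  ring

theorem rec_dB (n : ℕ) (a : Fin 3 → k) (y : k) : (derivative (Bp (recD n a))).eval y =
    (y - (a 1)⁻¹) * (y - (a 2)⁻¹) + (y - (a 0)⁻¹) * (y - (a 2)⁻¹) + (y - (a 0)⁻¹) * (y - (a 1)⁻¹) := by
  rw [Bp, Fin.prod_univ_three]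
  simp only [recD, derivative_mul, derivative_sub, derivative_X, derivative_C, sub_zero, one_mul, mul_one, eval_add,
    eval_mul, eval_sub, eval_X, eval_C]
  ring

/-- the curve with the prime exponent: the values of `Wp` -/
theorem sym_W {O : ValuationSubring k} {p : ℕ} {t : Fin 3 → k} {l : k} (u2 : IsU O (2 : k)) (ul : IsU O l)
    (ht : ∀ i, IsU O (t i)) (um : ∀ i, IsU O (t i - l)) (up : ∀ i, IsU O (t i + l)) :
    (IsU O (t 0 + t 1 + t 2) → IsU O ((Wp (recD p fun i => (t i - l) / (t i + l))).eval 1)) ∧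
    (IsU O (t 0 * t 1 + t 0 * t 2 + t 1 * t 2) →
      IsU O ((Wp (recD p fun i => (t i - l) / (t i + l))).eval (-1))) := by
  set a : Fin 3 → k := fun i => (t i - l) / (t i + l) with ha
  have hAe : ∀ y : k, (Ap (recD p a)).eval y = (y - a 0) * (y - a 1) * (y - a 2) := by
    intro y
    rw [rec_evA, Fin.prod_univ_three]
  have hBe : ∀ y : k, (Bp (recD p a)).eval y = (y - (a 0)⁻¹) * (y - (a 1)⁻¹) * (y - (a 2)⁻¹) := by
    intro y
    rw [rec_evB, Fin.prod_univ_three]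
  have q0 := (up 0).1
  have q1 := (up 1).1
  have q2 := (up 2).1
  have p0 := (um 0).1
  have p1 := (um 1).1
  have p2 := (um 2).1
  have hA1 : (Ap (recD p a)).eval 1 = 2 * l * (2 * l) * (2 * l) / ((t 0 + l) * (t 1 + l) * (t 2 + l)) := by
    rw [hAe, ha]
    field_simp
    ring
  have hB1 : (Bp (recD p a)).eval 1 = -(2 * l * (2 * l) * (2 * l)) / ((t 0 - l) * (t 1 - l) * (t 2 - l)) := by
    rw [hBe, ha]
    field_simp
    ring
  have hA2 : (Ap (recD p a)).eval (-1) = -(2 * t 0 * (2 * t 1) * (2 * t 2)) / ((t 0 + l) * (t 1 + l) * (t 2 + l)) := by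
    rw [hAe, ha]
    field_simp
    ring
  have hB2 : (Bp (recD p a)).eval (-1) = -(2 * t 0 * (2 * t 1) * (2 * t 2)) / ((t 0 - l) * (t 1 - l) * (t 2 - l)) := by
    rw [hBe, ha]
    field_simp
    ring
  have hW1 : (Wp (recD p a)).eval 1 = (Ap (recD p a)).eval 1 ^ 2 * (Bp (recD p a)).eval 1 ^ 2 *
      ((t 0 + t 1 + t 2) / l) := by
    rw [Wp, eval_mul, eval_mul, eval_sub, eval_mul, eval_mul, rec_dA, rec_dB, hAe, hBe, ha]
    have := ul.1
    field_simp
    ring
  have hW2 : (Wp (recD p a)).eval (-1) = -((Ap (recD p a)).eval (-1) ^ 2 * (Bp (recD p a)).eval (-1) ^ 2 *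
      (l * (t 0 * t 1 + t 0 * t 2 + t 1 * t 2) / (t 0 * t 1 * t 2))) := by
    rw [Wp, eval_mul, eval_mul, eval_sub, eval_mul, eval_mul, rec_dA, rec_dB, hAe, hBe, ha]
    have := ul.1
    have := (ht 0).1
    have := (ht 1).1
    have := (ht 2).1
    field_simp
    ring
  have uA1 : IsU O ((Ap (recD p a)).eval 1) := by
    rw [hA1]
    exact isU_div (isU_mul (isU_mul (isU_mul u2 ul) (isU_mul u2 ul)) (isU_mul u2 ul))
      (isU_mul (isU_mul (up 0) (up 1)) (up 2))
  have uB1 : IsU O ((Bp (recD p a)).eval 1) := by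
    rw [hB1]
    exact isU_div (isU_neg (isU_mul (isU_mul (isU_mul u2 ul) (isU_mul u2 ul)) (isU_mul u2 ul)))
      (isU_mul (isU_mul (um 0) (um 1)) (um 2))
  have uA2 : IsU O ((Ap (recD p a)).eval (-1)) := by
    rw [hA2]
    exact isU_div (isU_neg (isU_mul (isU_mul (isU_mul u2 (ht 0)) (isU_mul u2 (ht 1))) (isU_mul u2 (ht 2))))
      (isU_mul (isU_mul (up 0) (up 1)) (up 2))
  have uB2 : IsU O ((Bp (recD p a)).eval (-1)) := by
    rw [hB2]
    exact isU_div (isU_neg (isU_mul (isU_mul (isU_mul u2 (ht 0)) (isU_mul u2 (ht 1))) (isU_mul u2 (ht 2))))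
      (isU_mul (isU_mul (um 0) (um 1)) (um 2))
  refine ⟨fun h1 => ?_, fun h2 => ?_⟩
  · rw [hW1]
    exact isU_mul (isU_mul (isU_pow uA1 2) (isU_pow uB1 2)) (isU_div h1 ul)
  · rw [hW2]
    exact isU_neg (isU_mul (isU_mul (isU_pow uA2 2) (isU_pow uB2 2))
      (isU_div (isU_mul ul h2) (isU_mul (isU_mul (ht 0) (ht 1)) (ht 2))))

/-- the curves `v ^ n ∏ (x + t_i) = ∏ (x - t_i)`, odd primes -/
theorem gs_symN [IsAlgClosed k] [CharZero k] {n p : ℕ} {t : Fin 3 → k} (hc : (symN n t).Good) (hp : p.Prime)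
    (hp2 : p ≠ 2) (hpn : p ∣ n) {O : ValuationSubring k} (h3 : (p : k)⁻¹ ∉ O) (ht : ∀ i, IsU O (t i))
    (h : (IsU O (t 0 + t 1 + t 2) ∧ IsU O (t 0 * t 1 + t 0 * t 2 + t 1 * t 2)) ∨
      (Even n ∧ (IsU O (t 0 + t 1 + t 2) ∨ IsU O (t 0 * t 1 + t 0 * t 2 + t 1 * t 2)))) :
    GSIff (symN n t) False := by
  refine ⟨genC_exists hc, fun N _ _ x v hg => ⟨fun h0 => ?_, False.elim⟩⟩
  have hO : rs O (p : O) = 0 := rs_pp hp h3
  have h2 := rs_two hp hp2 hO
  have u2 : IsU O (2 : k) := isU_of_rs h2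
  have hn0 : 0 < n := by have : 2 ≤ n := hc.two; omega
  obtain ⟨l, hl, hlt⟩ := exists_lp h2 (t := t) fun i => (ht i).2.1
  have ul : IsU O (l : k) := isU_of_rs hl
  have um : ∀ i, IsU O (t i - l) := fun i => isU_of_rs (hlt i).1
  have up : ∀ i, IsU O (t i + l) := fun i => isU_of_rs (hlt i).2
  have htl : ∀ i, t i ≠ l ∧ t i ≠ -l := by
    intro i
    refine ⟨fun h => (um i).1 (sub_eq_zero.mpr h), fun h => (up i).1 ?_⟩
    rw [h, neg_add_cancel]
  obtain ⟨κ, hκ⟩ := IsAlgClosed.exists_pow_nat_eq (-∏ i, ((t i - (l : k)) / (t i + l))) hn0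
  obtain ⟨hc', hg'⟩ := genC_moebn hc ul.1 htl hκ hg
  have T := sym_tors hc ul.1 htl hκ hg h0
  have ua : ∀ i, IsU O ((t i - (l : k)) / (t i + l)) := fun i => isU_div (um i) (up i)
  obtain ⟨W1, W2⟩ := sym_W (p := p) u2 ul ht um up
  obtain ⟨e, he⟩ := hpn
  rw [mul_comm] at he
  rcases Nat.even_or_odd n with hev | hod
  · have hee : Even e := by
      rw [he] at hev
      rcases Nat.even_mul.mp hev with h5 | h5
      · exact h5
      · exact absurd ((Nat.Prime.even_iff hp).mp h5) hp2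
    have h' : IsU O (t 0 + t 1 + t 2) ∨ IsU O (t 0 * t 1 + t 0 * t 2 + t 1 * t 2) := by
      rcases h with h | h
      · exact Or.inl h.1
      · exact h.2
    rcases h' with h' | h'
    · exact rec_even hc' hp he hee hO ua (one_pow 2) (W1 h') hg' T
    · exact rec_even hc' hp he hee hO ua (by norm_num) (W2 h') hg' T
  · have h' : IsU O (t 0 + t 1 + t 2) ∧ IsU O (t 0 * t 1 + t 0 * t 2 + t 1 * t 2) := by
      rcases h with h | h
      · exact h
      · exact absurd hod (Nat.not_odd_iff_even.mpr h.1)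
    exact rec_odd hc' hp he hod hO ua (W1 h'.1) (W2 h'.2) hg' T

/-- the curves `v ^ n ∏ (x - 1 / a_i) = ∏ (x - a_i)`, `4 ∣ n` -/
theorem gs_rec2 [IsAlgClosed k] [CharZero k] {n : ℕ} {a : Fin 3 → k} (hc : (recD n a).Good) (h4 : 4 ∣ n)
    {O : ValuationSubring k} (h3 : (2 : k)⁻¹ ∉ O) (ha : ∀ i, IsU O (a i) ∧ IsU O (1 - a i)) :
    GSIff (recD n a) False := by
  refine ⟨genC_exists hc, fun N _ _ x v hg => ⟨fun h0 => ?_, False.elim⟩⟩
  have hO : rs O ((2 : ℕ) : O) = 0 := rs_pp Nat.prime_two (by push_cast; exact h3)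
  obtain ⟨e, he⟩ := h4
  have q0 := (ha 0).1.1
  have q1 := (ha 1).1.1
  have q2 := (ha 2).1.1
  have p0 := (ha 0).2.1
  have p1 := (ha 1).2.1
  have p2 := (ha 2).2.1
  have hW : (Wp (recD 2 a)).eval 1 = ((1 - a 0) * (1 - a 1) * (1 - a 2)) ^ 4 / (a 0 * a 1 * a 2) ^ 2 *
      (1 + 2 * (1 + a 0 / (1 - a 0) + a 1 / (1 - a 1) + a 2 / (1 - a 2))) := by
    rw [Wp, eval_mul, eval_mul, eval_sub, eval_mul, eval_mul, rec_dA, rec_dB, rec_evA, rec_evB,
      Fin.prod_univ_three, Fin.prod_univ_three]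
    field_simp
    ring
  have hm : 1 + a 0 / (1 - a 0) + a 1 / (1 - a 1) + a 2 / (1 - a 2) ∈ O := by
    have h5 : ∀ i, a i / (1 - a i) ∈ O := fun i => (isU_div (ha i).1 (ha i).2).2.1
    exact add_mem (add_mem (add_mem (one_mem O) (h5 0)) (h5 1)) (h5 2)
  have hu : IsU O (1 + 2 * (1 + a 0 / (1 - a 0) + a 1 / (1 - a 1) + a 2 / (1 - a 2))) := by
    have h6 : rs O (1 + ((2 : ℕ) : O) * ⟨_, hm⟩) ≠ 0 := by
      rw [map_add, map_mul, hO, zero_mul, add_zero, map_one]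
      exact one_ne_zero
    have h7 := isU_of_rs h6
    have h8 : ((1 + ((2 : ℕ) : O) * ⟨_, hm⟩ : O) : k) =
        1 + 2 * (1 + a 0 / (1 - a 0) + a 1 / (1 - a 1) + a 2 / (1 - a 2)) := by
      push_cast
      rfl
    rw [h8] at h7
    exact h7
  refine rec_even (p := 2) (e := 2 * e) hc Nat.prime_two (by omega) (even_two_mul e) hO (fun i => (ha i).1)
    (ε := 1) (one_pow 2) ?_ hg h0
  rw [hW]
  exact isU_mul (isU_div (isU_pow (isU_mul (isU_mul (ha 0).2 (ha 1).2) (ha 2).2) 4)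
    (isU_pow (isU_mul (isU_mul (ha 0).1 (ha 1).1) (ha 2).1) 2)) hu

/-- roots of polynomials with integer coefficients -/
theorem root_units [CharZero k] {O : ValuationSubring k} (hm : ∀ m : ℤ, (m : k) ∈ O) {t : Fin 3 → k}
    {c : Fin 3 → ℤ} (hc : ∏ i, (X - C (t i)) = X ^ 3 + C (c 2 : k) * X ^ 2 + C (c 1 : k) * X + C (c 0 : k)) :
    ∀ i, t i ∈ O := by
  intro i
  have h1 := congrArg (fun q => q.eval (t i)) hc
  simp only [eval_prod, eval_sub, eval_X, eval_C, eval_add, eval_mul, eval_pow] at h1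
  rw [Finset.prod_eq_zero (Finset.mem_univ i) (sub_self _)] at h1
  rcases O.mem_or_inv_mem (t i) with h2 | h2
  · exact h2
  · by_cases h0 : t i = 0
    · rw [h0]
      exact zero_mem O
    have h3 : t i = -((c 2 : k) + (c 1 : k) * (t i)⁻¹ + (c 0 : k) * ((t i)⁻¹ * (t i)⁻¹)) := by
      field_simp
      linear_combination -h1
    rw [h3]
    exact neg_mem (add_mem (add_mem (hm _) (mul_mem (hm _) h2)) (mul_mem (hm _) (mul_mem h2 h2)))

theorem isU_of_prod {O : ValuationSubring k} {t : Fin 3 → k} (h : ∀ i, t i ∈ O) (hu : IsU O (t 0 * t 1 * t 2)) :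
    ∀ i, IsU O (t i) := by
  have h0 : t 0 * t 1 * t 2 ≠ 0 := hu.1
  have e2 := right_ne_zero_of_mul h0
  have e0 := left_ne_zero_of_mul (left_ne_zero_of_mul h0)
  have e1 := right_ne_zero_of_mul (left_ne_zero_of_mul h0)
  intro i
  fin_cases i
  · refine ⟨e0, h 0, ?_⟩
    have : (t 0)⁻¹ = t 1 * t 2 * (t 0 * t 1 * t 2)⁻¹ := by field_simp
    show (t 0)⁻¹ ∈ O
    rw [this]
    exact mul_mem (mul_mem (h 1) (h 2)) hu.2.2
  · refine ⟨e1, h 1, ?_⟩
    have : (t 1)⁻¹ = t 0 * t 2 * (t 0 * t 1 * t 2)⁻¹ := by field_simp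
    show (t 1)⁻¹ ∈ O
    rw [this]
    exact mul_mem (mul_mem (h 0) (h 2)) hu.2.2
  · refine ⟨e2, h 2, ?_⟩
    have : (t 2)⁻¹ = t 0 * t 1 * (t 0 * t 1 * t 2)⁻¹ := by field_simp
    show (t 2)⁻¹ ∈ O
    rw [this]
    exact mul_mem (mul_mem (h 0) (h 1)) hu.2.2

theorem coef_three {t : Fin 3 → k} {c : Fin 3 → k}
    (hc : ∏ i, (X - C (t i)) = X ^ 3 + C (c 2) * X ^ 2 + C (c 1) * X + C (c 0)) :
    c 2 = -(t 0 + t 1 + t 2) ∧ c 1 = t 0 * t 1 + t 0 * t 2 + t 1 * t 2 ∧ c 0 = -(t 0 * t 1 * t 2) := by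
  have h1 : ∏ i, (X - C (t i)) = X ^ 3 + C (-(t 0 + t 1 + t 2)) * X ^ 2 +
      C (t 0 * t 1 + t 0 * t 2 + t 1 * t 2) * X + C (-(t 0 * t 1 * t 2)) := by
    rw [Fin.prod_univ_three]
    simp only [map_neg, map_add, map_mul]
    ring
  rw [h1] at hc
  refine ⟨?_, ?_, ?_⟩
  · have := congrArg (fun q => q.coeff 2) hc
    simp only [coeff_add, coeff_X_pow, coeff_C_mul, coeff_X, coeff_C] at this
    norm_num at this
    rw [← this]
    ring
  · have := congrArg (fun q => q.coeff 1) hc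
    simp only [coeff_add, coeff_X_pow, coeff_C_mul, coeff_X, coeff_C] at this
    norm_num at this
    exact this.symm
  · have := congrArg (fun q => q.coeff 0) hc
    simp only [coeff_add, coeff_X_pow, coeff_C_mul, coeff_X, coeff_C] at this
    norm_num at this
    exact this.symm

/-- integers, `n` with an odd prime factor `p` -/
theorem gs_symNZ [IsAlgClosed k] [CharZero k] {n p : ℕ} {t : Fin 3 → k} (hc : (symN n t).Good) (hp : p.Prime)
    (hp2 : p ≠ 2) (hpn : p ∣ n) {c : Fin 3 → ℤ}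
    (ht : ∏ i, (X - C (t i)) = X ^ 3 + C (c 2 : k) * X ^ 2 + C (c 1 : k) * X + C (c 0 : k))
    (h0 : ¬ (p : ℤ) ∣ c 0) (h : (¬ (p : ℤ) ∣ c 1 ∧ ¬ (p : ℤ) ∣ c 2) ∨ (Even n ∧ ¬ ((p : ℤ) ∣ c 1 ∧ (p : ℤ) ∣ c 2))) :
    GSIff (symN n t) False := by
  obtain ⟨O, h3, hm, hi⟩ := exists_Op (k := k) hp
  have hu : ∀ m : ℤ, ¬ (p : ℤ) ∣ m → IsU O (m : k) := by
    intro m hm3
    refine ⟨?_, hm m, hi m hm3⟩
    intro h
    have : m = 0 := by exact_mod_cast h
    apply hm3
    rw [this]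
    exact dvd_zero _
  obtain ⟨c2, c1, c0⟩ := coef_three (c := fun i => (c i : k)) ht
  have hti := root_units hm ht
  have u3 : IsU O (t 0 * t 1 * t 2) := by
    have := isU_neg (hu _ h0)
    have h5 : -((c 0 : ℤ) : k) = t 0 * t 1 * t 2 := by
      have : ((c 0 : ℤ) : k) = -(t 0 * t 1 * t 2) := c0
      rw [this, neg_neg]
    rwa [h5] at this
  have g1 : ¬ (p : ℤ) ∣ c 2 → IsU O (t 0 + t 1 + t 2) := by
    intro h6
    have := isU_neg (hu _ h6)
    have h5 : -((c 2 : ℤ) : k) = t 0 + t 1 + t 2 := by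
      have : ((c 2 : ℤ) : k) = -(t 0 + t 1 + t 2) := c2
      rw [this, neg_neg]
    rwa [h5] at this
  have g2 : ¬ (p : ℤ) ∣ c 1 → IsU O (t 0 * t 1 + t 0 * t 2 + t 1 * t 2) := by
    intro h6
    have := hu _ h6
    have h5 : ((c 1 : ℤ) : k) = t 0 * t 1 + t 0 * t 2 + t 1 * t 2 := c1
    rwa [h5] at this
  refine gs_symN hc hp hp2 hpn h3 (isU_of_prod hti u3) ?_
  rcases h with ⟨h6, h7⟩ | ⟨hev, h6⟩
  · exact Or.inl ⟨g1 h7, g2 h6⟩
  · right
    refine ⟨hev, ?_⟩
    by_cases h7 : (p : ℤ) ∣ c 2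
    · right
      exact g2 fun h8 => h6 ⟨h8, h7⟩
    · left
      exact g1 h7

/-- integers, `4 ∣ n` -/
theorem gs_recZ [IsAlgClosed k] [CharZero k] {n : ℕ} {a : Fin 3 → k} (hc : (recD n a).Good) (h4 : 4 ∣ n)
    {c : Fin 3 → ℤ}
    (ht : ∏ i, (X - C (a i)) = X ^ 3 + C (c 2 : k) * X ^ 2 + C (c 1 : k) * X + C (c 0 : k))
    (h0 : Odd (c 0)) (h1 : Odd (c 1 + c 2)) : GSIff (recD n a) False := by
  obtain ⟨O, h3, hm, hi⟩ := exists_Op (k := k) Nat.prime_two
  have hu : ∀ m : ℤ, Odd m → IsU O (m : k) := by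
    intro m hm3
    refine ⟨?_, hm m, hi m ?_⟩
    · intro h
      have : m = 0 := by exact_mod_cast h
      rw [this] at hm3
      exact absurd hm3 (by decide)
    · intro h
      push_cast at h
      exact (Int.not_even_iff_odd.mpr hm3) (even_iff_two_dvd.mpr h)
  obtain ⟨c2, c1, c0⟩ := coef_three (c := fun i => (c i : k)) ht
  have c0' : ((c 0 : ℤ) : k) = -(a 0 * a 1 * a 2) := c0
  have c1' : ((c 1 : ℤ) : k) = a 0 * a 1 + a 0 * a 2 + a 1 * a 2 := c1
  have c2' : ((c 2 : ℤ) : k) = -(a 0 + a 1 + a 2) := c2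
  have hti := root_units hm ht
  have u3 : IsU O (a 0 * a 1 * a 2) := by
    have := isU_neg (hu _ h0)
    rwa [c0', neg_neg] at this
  have u4 : IsU O ((1 - a 0) * (1 - a 1) * (1 - a 2)) := by
    have h5 : Odd (1 + c 0 + (c 1 + c 2)) := by
      obtain ⟨y, hy⟩ := h0
      obtain ⟨z, hz⟩ := h1
      exact ⟨y + z + 1, by rw [hy, hz]; ring⟩
    have := hu _ h5
    push_cast at this
    rw [c0', c1', c2'] at this
    have h6 : 1 + -(a 0 * a 1 * a 2) + (a 0 * a 1 + a 0 * a 2 + a 1 * a 2 + -(a 0 + a 1 + a 2)) =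
        (1 - a 0) * (1 - a 1) * (1 - a 2) := by ring
    rwa [h6] at this
  have v1 := isU_of_prod hti u3
  have v2 := isU_of_prod (t := fun i => 1 - a i) (fun i => sub_mem (one_mem O) (hti i)) u4
  refine gs_rec2 hc h4 (O := O) ?_ fun i => ⟨v1 i, v2 i⟩
  intro h
  apply h3
  push_cast
  exact h

end Pool.Agent.LibCW77
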