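import Pool.Agent.LibCW77.RZ3

/-!
[CW77 RZ4] The 2-adic theorem for the curves `v ^ n ∏ (x + t_i) = ∏ (x - t_i)`.
-/

open scoped Classical
open Polynomial

namespace Pool.Agent.LibCW77

open Pool.Agent.LibBH2
open Pool.Agent.LibCHd (VR RF Red FunF)

variable {k : Type} [Field k]

theorem dat_symN {c : Dat k} (h : ∀ i, c.b i = -c.a i) : c = symN c.n c.a := by
  obtain ⟨n, a, b⟩ := c
  have h1 : b = fun i => -a i := funext h
  subst h1
  rfl

/-- the residue field of a valuation ring of an algebraically closed field is infinite -/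
private theorem RZ4_inf [IsAlgClosed k] (O : ValuationSubring k) : Infinite (KK O) := by
  haveI : IsAlgClosed (KK O) := by
    apply IsAlgClosed.of_exists_root
    intro p hp hirr
    have hl : p ∈ Polynomial.lifts (rs O) := by
      rw [Polynomial.mem_lifts]
      exact Polynomial.map_surjective (rs O) IsLocalRing.residue_surjective p
    obtain ⟨q, hq, hdeg, hm⟩ := Polynomial.lifts_and_natDegree_eq_and_monic hl hp
    have hnd : 0 < p.natDegree := hirr.natDegree_pos
    have hd : (q.map (algebraMap O k)).degree ≠ 0 := by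
      intro h0
      have h1 : (q.map (algebraMap O k)).natDegree = 0 := Polynomial.natDegree_eq_of_degree_eq_some h0
      rw [hm.natDegree_map, hdeg] at h1
      omega
    obtain ⟨x, hx⟩ := IsAlgClosed.exists_root _ hd
    have hxint : IsIntegral O x := by
      refine ⟨q, hm, ?_⟩
      rw [Polynomial.IsRoot.def, Polynomial.eval_map] at hx
      exact hx
    obtain ⟨y, hy⟩ := IsIntegrallyClosed.isIntegral_iff.1 hxint
    refine ⟨rs O y, ?_⟩
    have h0 : q.eval y = 0 := by
      have hinj : Function.Injective (algebraMap O k) := IsFractionRing.injective O k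
      apply hinj
      rw [map_zero, ← Polynomial.eval₂_at_apply, hy, ← Polynomial.eval_map]
      exact hx
    rw [← hq, Polynomial.eval_map, Polynomial.eval₂_at_apply, h0, map_zero]
  exact inferInstance

/-- the curves `v ^ n ∏ (x + t_i) = ∏ (x - t_i)`, `4 ∣ n` -/
theorem gs_symN2 [IsAlgClosed k] [CharZero k] {n : ℕ} {t : Fin 3 → k} (hc : (symN n t).Good) (h4 : 4 ∣ n)
    {O : ValuationSubring k} (h3 : (2 : k)⁻¹ ∉ O) (ht : ∀ i, (t i - 1) / 2 ∈ O) : GSIff (symN n t) False := by
  refine ⟨genC_exists hc, fun N _ _ x v hg => ⟨fun h0 => ?_, False.elim⟩⟩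
  have hO : rs O ((2 : ℕ) : O) = 0 := rs_pp Nat.prime_two (by push_cast; exact h3)
  have hn0 : 0 < n := by have : 2 ≤ n := hc.two; omega
  haveI := RZ4_inf O
  set s : Fin 3 → O := fun i => ⟨(t i - 1) / 2, ht i⟩ with hs
  obtain ⟨c, hcB⟩ := Infinite.exists_notMem_finset
    ((Finset.univ.image fun i => rs O (s i)) ∪ (Finset.univ.image fun i => rs O (s i) + 1))
  obtain ⟨ν, hν⟩ := IsLocalRing.residue_surjective (R := O) c
  have hν' : rs O ν = c := hν
  simp only [Finset.mem_union, Finset.mem_image, Finset.mem_univ, true_and, not_or, not_exists] at hcB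
  -- `μ = - 1 + 2 ν`
  have hμ : rs O (-1 + ((2 : ℕ) : O) * ν) ≠ 0 := by
    rw [map_add, map_mul, hO, zero_mul, add_zero, map_neg, map_one]
    exact neg_ne_zero.mpr one_ne_zero
  have uμ := isU_of_rs hμ
  have hμe : ((-1 + ((2 : ℕ) : O) * ν : O) : k) = -1 + 2 * (ν : k) := by
    push_cast
    rfl
  rw [hμe] at uμ
  set μ : k := -1 + 2 * (ν : k) with hμd
  set u : Fin 3 → O := fun i => ν - s i + ((2 : ℕ) : O) * (ν * s i) with hu
  have hue : ∀ i, (u i : k) = (ν : k) - (t i - 1) / 2 + 2 * ((ν : k) * ((t i - 1) / 2)) := by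
    intro i
    rw [hu]
    push_cast
    rfl
  have hu2 : ∀ i, 2 * (u i : k) = 1 + μ * t i := by
    intro i
    rw [hue, hμd]
    ring
  have hru : ∀ i, rs O (u i) = c - rs O (s i) := by
    intro i
    rw [hu, map_add, map_mul, hO, zero_mul, add_zero, map_sub, hν']
  have uu : ∀ i, IsU O (u i : k) := by
    intro i
    apply isU_of_rs
    rw [hru]
    intro h5
    exact hcB.1 i (sub_eq_zero.mp h5).symm
  have uu1 : ∀ i, IsU O ((u i : k) - 1) := by
    intro i
    have h5 : rs O (u i - 1) ≠ 0 := by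
      rw [map_sub, hru, map_one]
      intro h5
      apply hcB.2 i
      linear_combination -h5
    exact isU_of_rs h5
  set l : k := μ⁻¹ with hl
  have hl0 : l ≠ 0 := inv_ne_zero uμ.1
  have hp : ∀ i, t i + l = 2 * l * (u i : k) := by
    intro i
    have h5 := hu2 i
    have h6 : l * μ = 1 := inv_mul_cancel₀ uμ.1
    linear_combination -l * h5 - t i * h6
  have hm : ∀ i, t i - l = 2 * l * ((u i : k) - 1) := by
    intro i
    have h5 := hu2 i
    have h6 : l * μ = 1 := inv_mul_cancel₀ uμ.1
    linear_combination -l * h5 - t i * h6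
  have h20 : (2 : k) ≠ 0 := two_ne_zero
  have htl : ∀ i, t i ≠ l ∧ t i ≠ -l := by
    intro i
    refine ⟨fun h => ?_, fun h => ?_⟩
    · have h5 := hm i
      rw [h, sub_self] at h5
      exact mul_ne_zero (mul_ne_zero h20 hl0) (uu1 i).1 h5.symm
    · have h5 := hp i
      rw [h, neg_add_cancel] at h5
      exact mul_ne_zero (mul_ne_zero h20 hl0) (uu i).1 h5.symm
  have ha : ∀ i, (t i - l) / (t i + l) = ((u i : k) - 1) / (u i : k) := by
    intro i
    rw [hp, hm]
    have := (uu i).1
    field_simp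
  obtain ⟨κ, hκ⟩ := IsAlgClosed.exists_pow_nat_eq (-∏ i, ((t i - l) / (t i + l))) hn0
  obtain ⟨hc', hg'⟩ := genC_moebn hc hl0 htl hκ hg
  have T := sym_tors hc hl0 htl hκ hg h0
  refine ((gs_rec2 hc' h4 h3 fun i => ?_).2 N _ _ hg').mp T
  refine ⟨?_, ?_⟩
  · show IsU O ((t i - l) / (t i + l))
    rw [ha]
    exact isU_div (uu1 i) (uu i)
  · show IsU O (1 - (t i - l) / (t i + l))
    rw [ha]
    have h5 : 1 - ((u i : k) - 1) / (u i : k) = (u i : k)⁻¹ := by
      have := (uu i).1
      field_simp
      ring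
    rw [h5]
    exact isU_inv (uu i)

/-- odd integers -/
theorem gs_symN2Z [IsAlgClosed k] [CharZero k] {n : ℕ} (h4 : 4 ∣ n) (h0 : n ≠ 0) {t : Fin 3 → ℤ}
    (ht : ∀ i, Odd (t i)) (h1 : ∀ i j, i ≠ j → t i ^ 2 ≠ t j ^ 2) :
    (symN n fun i => (t i : k)).Good ∧ GSIff (symN n fun i => (t i : k)) False := by
  have hc : (symN n fun i => (t i : k)).Good := by
    refine ⟨?_, ?_⟩
    · show 2 ≤ n
      obtain ⟨m, hm⟩ := h4
      omega
    have e1 : ∀ i j, (t i : k) = (t j : k) → i = j := by
      intro i j h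
      by_contra hij
      apply h1 i j hij
      rw [Int.cast_injective h]
    have e2 : ∀ i j, (t i : k) ≠ -(t j : k) := by
      intro i j h
      have h3 : t i = - t j := by
        apply Int.cast_injective (α := k)
        rw [h, Int.cast_neg]
      by_cases hij : i = j
      · subst hij
        have h4 : t i = 0 := by omega
        have h5 := ht i
        rw [h4] at h5
        exact absurd h5 (by decide)
      · apply h1 i j hij
        rw [h3, neg_sq]
    rintro (i | i) (j | j) h
    · exact congrArg Sum.inl (e1 i j h)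
    · exact absurd h (e2 i j)
    · exact absurd h.symm (e2 j i)
    · exact congrArg Sum.inr (e1 i j (neg_injective h))
  obtain ⟨O, h3, hm, hi⟩ := exists_Op (k := k) Nat.prime_two
  refine ⟨hc, gs_symN2 hc h4 (O := O) ?_ fun i => ?_⟩
  · intro h
    apply h3
    push_cast
    exact h
  · obtain ⟨m, hm2⟩ := ht i
    have h5 : ((t i : k) - 1) / 2 = (m : k) := by
      rw [hm2]
      push_cast
      field_simp
      ring
    rw [h5]
    exact hm m

end Pool.Agent.LibCW77
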