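import Pool.Agent.LibCW77.RZ4
import Pool.Agent.LibCW77.RD1
import Pool.Agent.LibCW77.NU
import Pool.Agent.LibCW77.Z7

/-!
[CW77 RZ5] Exponents divisible by `3`; integers.
-/

open scoped Classical
open Polynomial

namespace Pool.Agent.LibCW77

open Pool.Agent.LibBH2
open Pool.Agent.LibCHd (VR RF Red FunF)

variable {k : Type} [Field k]

/-- algebraically independent branch points, `3 ∣ n` -/
theorem gs_indep3 [IsAlgClosed k] [CharZero k] {c : Dat k} (hc : c.Good) (h3 : 3 ∣ c.n)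
    (h : AlgebraicIndependent ℚ (Sum.elim c.a c.b)) : GSIff c False := by
  obtain ⟨e, he⟩ := h3
  rw [mul_comm] at he
  exact gs_mul hc he (gs_indep (c := expo c 3) ⟨by norm_num [expo], hc.inj⟩ rfl h)

/-- `a = (1, α, 1 / α)`, `b = - a`, `3 ∣ n` -/
theorem gs_fam3 [IsAlgClosed k] [CharZero k] {c : Dat k} (hc : c.Good) (h3 : 3 ∣ c.n) (hb : ∀ i, c.b i = -c.a i)
    {α : k} (ha : c.a = ![1, α, α⁻¹])
    (h : Transcendental ℚ α ∨ ∃ q : ℚ, α = (q : k) ∧ q ≠ -2 ∧ q ≠ -1 / 2) : GSIff c False := by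
  obtain ⟨e, he⟩ := h3
  rw [mul_comm] at he
  have hfam : expo c 3 = fam α := by
    rw [dat_symN hb, ha]
    rfl
  have hg : (fam α).Good := by
    rw [← hfam]
    exact ⟨by norm_num [expo], hc.inj⟩
  apply gs_mul hc he
  rw [hfam]
  have h0 : α ≠ 0 := by
    intro h0
    have h5 := @hg.inj (Sum.inl 1) (Sum.inl 2) (by
      show α = α⁻¹
      rw [h0, inv_zero])
    exact absurd (Sum.inl_injective h5) (by decide)
  have h1 : α ≠ 1 := by
    intro h0
    have h5 := @hg.inj (Sum.inl 0) (Sum.inl 1) (by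
      show (1 : k) = α
      rw [h0])
    exact absurd (Sum.inl_injective h5) (by decide)
  have h2 : α ≠ -1 := by
    intro h0
    have h5 := @hg.inj (Sum.inl 1) (Sum.inl 2) (by
      show α = α⁻¹
      rw [h0]
      norm_num)
    exact absurd (Sum.inl_injective h5) (by decide)
  rcases h with h | ⟨q, rfl, hq1, hq2⟩
  · refine gsIff_congr (gs_fam hg) ⟨fun hT => ?_, False.elim⟩
    apply h
    have h5 := torsB_alg hT
    have h6 : IsAlgebraic ℚ ((α - 1) / (α + 1)) := by
      have h7 : IsAlgebraic ℚ (((α - 1) / (α + 1)) ^ 2) := by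
        have h8 : ((α - 1) / (α + 1)) ^ 2 = -rr α := by rw [rr, neg_neg]
        rw [h8]
        exact h5.neg
      exact h7.of_pow two_pos
    have hp : α + 1 ≠ 0 := fun h8 => h2 (eq_neg_of_add_eq_zero_left h8)
    set w := (α - 1) / (α + 1) with hw
    have hw1 : 1 - w ≠ 0 := by
      intro h8
      have h9 : w = 1 := (sub_eq_zero.mp h8).symm
      rw [hw, div_eq_one_iff_eq hp] at h9
      have : (2 : k) = 0 := by linear_combination -h9
      exact two_ne_zero this
    have h10 : α = (1 + w) / (1 - w) := by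
      rw [eq_div_iff hw1, hw]
      field_simp
      ring
    rw [h10, div_eq_mul_inv]
    exact (isAlgebraic_one.add h6).mul (isAlgebraic_one.sub h6).inv
  · have e0 : q ≠ 0 := by
      rintro rfl
      exact h0 Rat.cast_zero
    have e1 : q ≠ 1 := by
      rintro rfl
      exact h1 Rat.cast_one
    have e2 : q ≠ -1 := by
      rintro rfl
      exact h2 (by push_cast; rfl)
    refine gsIff_congr (gs_famQ e0 e1 e2).2 ⟨?_, False.elim⟩
    rintro (h5 | h5)
    · exact hq1 h5
    · exact hq2 h5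

/-- integers -/
theorem gs_int [IsAlgClosed k] [CharZero k] {n : ℕ} (hn : 3 ≤ n) {t : Fin 3 → ℤ}
    (h1 : ∀ i j, i ≠ j → t i ^ 2 ≠ t j ^ 2)
    (h : (4 ∣ n ∧ ∀ i, Odd (t i)) ∨ ∃ p : ℕ, p.Prime ∧ p ≠ 2 ∧ p ∣ n ∧
      ¬ (p : ℤ) ∣ t 0 * t 1 * t 2 * (t 0 + t 1 + t 2) * (t 0 * t 1 + t 0 * t 2 + t 1 * t 2)) :
    (⟨n, fun i => (t i : k), fun i => -(t i : k)⟩ : Dat k).Good ∧
      GSIff (⟨n, fun i => (t i : k), fun i => -(t i : k)⟩ : Dat k) False := by
  rcases h with ⟨h4, ho⟩ | ⟨p, hp, hp2, hpn, hd⟩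
  · exact gs_symN2Z h4 (by omega) ho h1
  · have hf : (¬ (p : ℤ) ∣ t 0 ∧ ¬ (p : ℤ) ∣ t 1 ∧ ¬ (p : ℤ) ∣ t 2) ∧ ¬ (p : ℤ) ∣ t 0 + t 1 + t 2 ∧
        ¬ (p : ℤ) ∣ t 0 * t 1 + t 0 * t 2 + t 1 * t 2 := by
      refine ⟨⟨fun h5 => hd ?_, fun h5 => hd ?_, fun h5 => hd ?_⟩, fun h5 => hd ?_, fun h5 => hd (Dvd.dvd.mul_left h5 _)⟩
      · exact Dvd.dvd.mul_right (Dvd.dvd.mul_right (Dvd.dvd.mul_right (Dvd.dvd.mul_right h5 _) _) _) _
      · exact Dvd.dvd.mul_right (Dvd.dvd.mul_right (Dvd.dvd.mul_right (Dvd.dvd.mul_left h5 _) _) _) _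
      · exact Dvd.dvd.mul_right (Dvd.dvd.mul_right (Dvd.dvd.mul_left h5 _) _) _
      · exact Dvd.dvd.mul_right (Dvd.dvd.mul_left h5 _) _
    have hne : ∀ i, ¬ (p : ℤ) ∣ t i := by
      intro i
      fin_cases i
      · exact hf.1.1
      · exact hf.1.2.1
      · exact hf.1.2.2
    have hc : (symN n fun i => (t i : k)).Good := by
      refine ⟨by show 2 ≤ n; omega, ?_⟩
      have e1 : ∀ i j, (t i : k) = (t j : k) → i = j := by
        intro i j h
        by_contra hij
        apply h1 i j hij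
        rw [Int.cast_injective h]
      have e2 : ∀ i j, (t i : k) ≠ -(t j : k) := by
        intro i j h
        have h3 : t i = - t j := by
          apply Int.cast_injective (α := k)
          rw [h, Int.cast_neg]
        by_cases hij : i = j
        · subst hij
          have h4 : t i = 0 := by omega
          apply hne i
          rw [h4]
          exact dvd_zero _
        · apply h1 i j hij
          rw [h3, neg_sq]
      rintro (i | i) (j | j) h
      · exact congrArg Sum.inl (e1 i j h)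
      · exact absurd h (e2 i j)
      · exact absurd h.symm (e2 j i)
      · exact congrArg Sum.inr (e1 i j (neg_injective h))
    obtain ⟨O, h3, hm, hi⟩ := exists_Op (k := k) hp
    have hu : ∀ m : ℤ, ¬ (p : ℤ) ∣ m → IsU O (m : k) := by
      intro m hm3
      refine ⟨?_, hm m, hi m hm3⟩
      intro h
      have : m = 0 := by exact_mod_cast h
      apply hm3
      rw [this]
      exact dvd_zero _
    refine ⟨hc, gs_symN hc hp hp2 hpn h3 (fun i => hu _ (hne i)) (Or.inl ⟨?_, ?_⟩)⟩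
    · have := hu _ hf.2.1
      push_cast at this
      exact this
    · have := hu _ hf.2.2
      push_cast at this
      exact this

end Pool.Agent.LibCW77
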