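import Pool.Agent.LibCW77.RZ4

/-!
[CW77 RZ6] Algebraically independent parameters.
-/

open scoped Classical
open Polynomial

namespace Pool.Agent.LibCW77

open Pool.Agent.LibBH2
open Pool.Agent.LibCHd (VR RF Red FunF)

variable {k : Type} [Field k]

theorem exists_valp {ι : Type} [Finite ι] (u : ι → k) [CharZero k] (hu : AlgebraicIndependent ℚ u) {p : ℕ}
    (hp : p.Prime) {F : Type} [Field F] [CharP F p] (w : ι → F) :
    ∃ O : ValuationSubring k, (p : k)⁻¹ ∉ O ∧ ∀ P : MvPolynomial ι ℤ, ∃ z : O, (z : k) = MvPolynomial.aeval u P ∧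
      (rs O z = 0 ↔ MvPolynomial.aeval w P = 0) := by
  classical
  have huZ : AlgebraicIndependent ℤ u :=
    AlgebraicIndependent.restrictScalars (R := ℤ) (K := ℚ) (RingHom.injective_int (algebraMap ℤ ℚ)) hu
  let φ : MvPolynomial ι ℤ →+* k := (MvPolynomial.aeval u : MvPolynomial ι ℤ →ₐ[ℤ] k).toRingHom
  have hφinj : Function.Injective φ := huZ
  have hφ : ∀ P : MvPolynomial ι ℤ, φ P = MvPolynomial.aeval u P := fun P => rfl
  let e : MvPolynomial ι ℤ ≃+* φ.range :=
    RingEquiv.ofBijective φ.rangeRestrict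
      ⟨fun a b hab => hφinj (congrArg Subtype.val hab), φ.rangeRestrict_surjective⟩
  have he : ∀ P : MvPolynomial ι ℤ, ((e P : φ.range) : k) = φ P := fun P => rfl
  let ψ : φ.range →+* F :=
    ((MvPolynomial.aeval w : MvPolynomial ι ℤ →ₐ[ℤ] F).toRingHom).comp (e.symm : φ.range ≃+* MvPolynomial ι ℤ).toRingHom
  have hψ : ∀ P : MvPolynomial ι ℤ, ψ (e P) = MvPolynomial.aeval w P := by
    intro P
    change MvPolynomial.aeval w (e.symm (e P)) = MvPolynomial.aeval w P
    rw [RingEquiv.symm_apply_apply]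
  haveI hprime : (RingHom.ker ψ).IsPrime := RingHom.ker_isPrime ψ
  let L : LocalSubring k := LocalSubring.ofPrime φ.range (RingHom.ker ψ)
  obtain ⟨O, hO⟩ := L.exists_le_valuationSubring
  obtain ⟨hle, hloc⟩ := LocalSubring.le_def.mp hO
  have hAL : φ.range ≤ L.toSubring := LocalSubring.le_ofPrime φ.range (RingHom.ker ψ)
  have key : ∀ P : MvPolynomial ι ℤ, ∃ z : O, (z : k) = MvPolynomial.aeval u P ∧
      (rs O z = 0 ↔ MvPolynomial.aeval w P = 0) := by
    intro P
    let y : L.toSubring := Subring.inclusion hAL (e P)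
    let z : O := ⟨(y : k), hle y.2⟩
    have hyz : ((Subring.inclusion hle y : O.toLocalSubring.toSubring) : k) = (z : k) := rfl
    have h1 : IsUnit y ↔ e P ∈ (RingHom.ker ψ).primeCompl := by
      have := IsLocalization.AtPrime.isUnit_to_map_iff (LocalSubring.ofPrime φ.range (RingHom.ker ψ)).toSubring
        (RingHom.ker ψ) (e P)
      exact this
    have h2 : IsUnit (Subring.inclusion hle y) ↔ IsUnit y :=
      ⟨fun h => hloc.map_nonunit y h, fun h => h.map _⟩
    have h3 : IsUnit z ↔ IsUnit (Subring.inclusion hle y) := Iff.rfl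
    refine ⟨z, rfl, ?_⟩
    have h4 : rs O z = 0 ↔ ¬ IsUnit z := by
      rw [IsLocalRing.residue_eq_zero_iff, IsLocalRing.mem_maximalIdeal, mem_nonunits_iff]
    rw [h4, h3, h2, h1]
    have h5 : e P ∈ (RingHom.ker ψ).primeCompl ↔ ¬ (ψ (e P) = 0) := by
      rw [Ideal.mem_primeCompl_iff, RingHom.mem_ker]
    rw [h5, not_not, hψ]
  refine ⟨O, ?_, key⟩
  intro h3
  obtain ⟨z, hz, hz2⟩ := key (p : MvPolynomial ι ℤ)
  have hw3 : (MvPolynomial.aeval w ((p : ℕ) : MvPolynomial ι ℤ) : F) = 0 := by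
    rw [map_natCast]
    exact CharP.cast_eq_zero F p
  have hu3 : (MvPolynomial.aeval u ((p : ℕ) : MvPolynomial ι ℤ) : k) = p := by
    rw [map_natCast]
  have h0 := hz2.mpr hw3
  rw [IsLocalRing.residue_eq_zero_iff, IsLocalRing.mem_maximalIdeal, mem_nonunits_iff] at h0
  apply h0
  have h30 : (p : k) ≠ 0 := Nat.cast_ne_zero.mpr hp.ne_zero
  refine IsUnit.of_mul_eq_one (⟨(p : k)⁻¹, h3⟩ : O) ?_
  apply Subtype.ext
  change (z : k) * (p : k)⁻¹ = 1
  rw [hz, hu3]
  exact mul_inv_cancel₀ h30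

theorem four_or {n : ℕ} (hn : 3 ≤ n) : 4 ∣ n ∨ ∃ p : ℕ, p.Prime ∧ p ≠ 2 ∧ p ∣ n := by
  by_cases h : ∃ p : ℕ, p.Prime ∧ p ≠ 2 ∧ p ∣ n
  · exact Or.inr h
  · left
    push_neg at h
    have h1 : n = 2 ^ n.primeFactorsList.length :=
      Nat.eq_prime_pow_of_unique_prime_dvd (by omega) fun {d} hd hdn => by
        by_contra h2
        exact h d hd h2 hdn
    rw [h1]
    have h2 : 2 ≤ n.primeFactorsList.length := by
      by_contra h3
      have h4 : n.primeFactorsList.length = 0 ∨ n.primeFactorsList.length = 1 := by omega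
      rcases h4 with h4 | h4 <;> rw [h4] at h1 <;> omega
    exact pow_dvd_pow 2 h2

/-- algebraically independent parameters -/
theorem gs_gen [IsAlgClosed k] [CharZero k] {c : Dat k} (hc : c.Good) (hn : 3 ≤ c.n) (hb : ∀ i, c.b i = -c.a i)
    (h : AlgebraicIndependent ℚ c.a) : GSIff c False := by
  have hcs := dat_symN hb
  have hc' := hc
  rw [hcs] at hc' ⊢
  rcases four_or hn with h4 | ⟨p, hp, hp2, hpn⟩
  · set s : Fin 3 → k := fun i => (c.a i - 1) / 2 with hs
    have hsi : AlgebraicIndependent ℚ s := by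
      rw [algebraicIndependent_iff]
      intro P hP
      set g : MvPolynomial (Fin 3) ℚ →ₐ[ℚ] MvPolynomial (Fin 3) ℚ :=
        MvPolynomial.aeval fun i => MvPolynomial.C (1 / 2 : ℚ) * (MvPolynomial.X i - 1) with hg
      set g' : MvPolynomial (Fin 3) ℚ →ₐ[ℚ] MvPolynomial (Fin 3) ℚ :=
        MvPolynomial.aeval fun i => 1 + MvPolynomial.C (2 : ℚ) * MvPolynomial.X i with hg'
      have h1 : (MvPolynomial.aeval c.a : MvPolynomial (Fin 3) ℚ →ₐ[ℚ] k).comp g = MvPolynomial.aeval s := by
        apply MvPolynomial.algHom_ext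
        intro i
        rw [AlgHom.comp_apply, hg, MvPolynomial.aeval_X, MvPolynomial.aeval_X, map_mul, map_sub, map_one,
          MvPolynomial.aeval_X, MvPolynomial.aeval_C, hs]
        rw [map_div₀, map_one, map_ofNat]
        ring
      have h2 : g'.comp g = AlgHom.id ℚ _ := by
        apply MvPolynomial.algHom_ext
        intro i
        rw [AlgHom.comp_apply, hg, MvPolynomial.aeval_X, map_mul, map_sub, map_one, hg', MvPolynomial.aeval_X,
          MvPolynomial.aeval_C, AlgHom.id_apply, add_sub_cancel_left, ← mul_assoc]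
        have h3 : (algebraMap ℚ (MvPolynomial (Fin 3) ℚ)) (1 / 2) * MvPolynomial.C (2 : ℚ) = 1 := by
          rw [MvPolynomial.algebraMap_eq, ← MvPolynomial.C_mul]
          norm_num
        rw [h3, one_mul]
      have h3 : MvPolynomial.aeval c.a (g P) = 0 := by
        rw [← AlgHom.comp_apply, h1, hP]
      have h4 : g P = 0 := (algebraicIndependent_iff.mp h) _ h3
      have h5 : g' (g P) = P := by
        rw [← AlgHom.comp_apply, h2, AlgHom.id_apply]
      rw [← h5, h4, map_zero]
    obtain ⟨O, h3, hO⟩ := exists_valp s hsi Nat.prime_two (F := ZMod 2) (fun _ => 0)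
    refine gs_symN2 hc' h4 (O := O) ?_ fun i => ?_
    · intro h
      apply h3
      push_cast
      exact h
    · obtain ⟨z, hz, -⟩ := hO (MvPolynomial.X i)
      rw [MvPolynomial.aeval_X] at hz
      have h6 : s i ∈ O := by
        rw [← hz]
        exact z.2
      exact h6
  · haveI : Fact p.Prime := ⟨hp⟩
    obtain ⟨O, h3, hO⟩ := exists_valp c.a h hp (F := ZMod p) ![1, 1, -1]
    have hu : ∀ P : MvPolynomial (Fin 3) ℤ, MvPolynomial.aeval (![1, 1, -1] : Fin 3 → ZMod p) P ≠ 0 →
        IsU O (MvPolynomial.aeval c.a P) := by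
      intro P hP
      obtain ⟨z, hz, hz2⟩ := hO P
      rw [← hz]
      exact isU_of_rs fun h5 => hP (hz2.mp h5)
    refine gs_symN hc' hp hp2 hpn h3 (fun i => ?_) (Or.inl ⟨?_, ?_⟩)
    · have h5 := hu (MvPolynomial.X i) (by
        rw [MvPolynomial.aeval_X]
        fin_cases i
        · exact one_ne_zero
        · exact one_ne_zero
        · exact neg_ne_zero.mpr one_ne_zero)
      rw [MvPolynomial.aeval_X] at h5
      exact h5
    · have h5 := hu (MvPolynomial.X 0 + MvPolynomial.X 1 + MvPolynomial.X 2) (by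
        rw [map_add, map_add, MvPolynomial.aeval_X, MvPolynomial.aeval_X, MvPolynomial.aeval_X]
        show (1 : ZMod p) + 1 + -1 ≠ 0
        rw [add_neg_cancel_right]
        exact one_ne_zero)
      rw [map_add, map_add, MvPolynomial.aeval_X, MvPolynomial.aeval_X, MvPolynomial.aeval_X] at h5
      exact h5
    · have h5 := hu (MvPolynomial.X 0 * MvPolynomial.X 1 + MvPolynomial.X 0 * MvPolynomial.X 2 +
          MvPolynomial.X 1 * MvPolynomial.X 2) (by
        rw [map_add, map_add, map_mul, map_mul, map_mul, MvPolynomial.aeval_X, MvPolynomial.aeval_X,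
          MvPolynomial.aeval_X]
        show (1 : ZMod p) * 1 + 1 * -1 + 1 * -1 ≠ 0
        have h6 : (1 : ZMod p) * 1 + 1 * -1 + 1 * -1 = -1 := by ring
        rw [h6]
        exact neg_ne_zero.mpr one_ne_zero)
      rw [map_add, map_add, map_mul, map_mul, map_mul, MvPolynomial.aeval_X, MvPolynomial.aeval_X,
        MvPolynomial.aeval_X] at h5
      exact h5

end Pool.Agent.LibCW77
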