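import Pool.Agent.LibCW77.FE2

/-!
[CW77 TR1] The points `3 B` and `6 B`.

`3 B = (4 (r ^ 2 - 9) / 9, 8 r (r ^ 2 + 27) / 27)`; with `s = r / 3`, `s ^ 2 ≠ -3`: the abscissa of `6 B` is
`(s ^ 2 - 1) (s ^ 4 - 138 s ^ 2 + 9) / (s ^ 2 + 3) ^ 2`.
-/

open scoped Classical
open Polynomial

namespace Pool.Agent.LibCW77

open Pool.Agent.LibBH2
open Pool.Agent.LibCHd (VR RF Red FunF)

variable {k : Type} [Field k]

private theorem TR1_tr {W : WeierstrassCurve.Affine k} {a b a' b' : k} (h : W.Nonsingular a b) (ha : a = a')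
    (hb : b = b') : ∃ h' : W.Nonsingular a' b',
      WeierstrassCurve.Affine.Point.some _ _ h = WeierstrassCurve.Affine.Point.some _ _ h' := by
  subst ha
  subst hb
  exact ⟨h, rfl⟩

theorem fe_3B [CharZero k] {r : k} (h0 : r ≠ 0) (h1 : r ^ 2 ≠ 1)
    (h : (Er r).Nonsingular (4 * (r ^ 2 - 1)) (8 * r * (r ^ 2 - 1))) :
    ∃ h' : (Er r).Nonsingular (4 * (r ^ 2 - 9) / 9) (8 * r * (r ^ 2 + 27) / 27),
      3 • WeierstrassCurve.Affine.Point.some _ _ h = WeierstrassCurve.Affine.Point.some _ _ h' := by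
  have h1' : r ^ 2 - 1 ≠ 0 := sub_ne_zero.2 h1
  obtain ⟨h2, e2⟩ := fe_2B h0 h1 h
  have hX : r ^ 2 - 1 ≠ 4 * (r ^ 2 - 1) := by
    intro hX
    have h3 : (3 : k) * (r ^ 2 - 1) = 0 := by linear_combination -hX
    rcases mul_eq_zero.1 h3 with h4 | h4
    · exact absurd h4 (by norm_num)
    · exact h1' h4
  have h3 : r ^ 2 - 1 - 4 * (r ^ 2 - 1) ≠ 0 := sub_ne_zero.2 hX
  have hsl : (Er r).slope (r ^ 2 - 1) (4 * (r ^ 2 - 1)) (r * (r ^ 2 - 1)) (8 * r * (r ^ 2 - 1)) = 7 * r / 3 := by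
    rw [WeierstrassCurve.Affine.slope_of_X_ne hX, div_eq_div_iff h3 (by norm_num)]
    ring
  have e3 : 3 • WeierstrassCurve.Affine.Point.some _ _ h = 2 • WeierstrassCurve.Affine.Point.some _ _ h +
      WeierstrassCurve.Affine.Point.some _ _ h := by
    rw [← succ_nsmul]
  have hadd := WeierstrassCurve.Affine.Point.add_of_X_ne (W := Er r) (h₁ := h2) (h₂ := h) hX
  obtain ⟨h4, e4⟩ := TR1_tr (W := Er r) (WeierstrassCurve.Affine.nonsingular_add h2 h fun hxy => hX hxy.left)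
    (a' := 4 * (r ^ 2 - 9) / 9) (b' := 8 * r * (r ^ 2 + 27) / 27) (by
      rw [hsl]
      simp only [WeierstrassCurve.Affine.addX, Er]
      field_simp
      ring) (by
      rw [hsl]
      simp only [WeierstrassCurve.Affine.addY, WeierstrassCurve.Affine.negAddY, WeierstrassCurve.Affine.negY,
        WeierstrassCurve.Affine.addX, Er]
      field_simp
      ring)
  exact ⟨h4, by rw [e3, e2, hadd, e4]⟩

theorem fe_6B [CharZero k] {r : k} (h0 : r ≠ 0) (h1 : r ^ 2 ≠ 1) (h27 : r ^ 2 ≠ -27)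
    (h : (Er r).Nonsingular (4 * (r ^ 2 - 1)) (8 * r * (r ^ 2 - 1))) :
    ∃ (y : k) (h' : (Er r).Nonsingular
        ((r ^ 2 - 9) * (r ^ 4 - 1242 * r ^ 2 + 729) / (9 * (r ^ 2 + 27) ^ 2)) y),
      6 • WeierstrassCurve.Affine.Point.some _ _ h = WeierstrassCurve.Affine.Point.some _ _ h' := by
  obtain ⟨h3, e3⟩ := fe_3B h0 h1 h
  have h27' : r ^ 2 + 27 ≠ 0 := by
    intro h4
    exact h27 (by linear_combination h4)
  have hy : 8 * r * (r ^ 2 + 27) / 27 ≠ 0 :=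
    div_ne_zero (mul_ne_zero (mul_ne_zero (by norm_num) h0) h27') (by norm_num)
  obtain ⟨h6, e6⟩ := fe_dbl h3 hy
  have hden : (4 * (r ^ 2 - 9) / 9) ^ 3 + (3 * (4 * (r ^ 2 - 9) / 9) + cE r) ^ 2 =
      64 * r ^ 2 * (r ^ 2 + 27) ^ 2 / 729 := by
    unfold cE
    field_simp
    ring
  obtain ⟨h7, e7⟩ := TR1_tr h6 (a' := (r ^ 2 - 9) * (r ^ 4 - 1242 * r ^ 2 + 729) / (9 * (r ^ 2 + 27) ^ 2)) (by
    rw [hden]
    unfold cE
    field_simp
    ring) rfl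
  refine ⟨_, h7, ?_⟩
  have h8 : 6 • WeierstrassCurve.Affine.Point.some _ _ h = 2 • (3 • WeierstrassCurve.Affine.Point.some _ _ h) := by
    rw [← mul_nsmul]
  rw [h8, e3, e6, e7]

end Pool.Agent.LibCW77
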