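import Pool.Agent.LibCW77.RZ5
import Pool.Agent.LibCW77.RZ6
import Pool.Agent.LibEV91.Z

/-!
[CW77 RZ7] Assembly: the cases in which the cycle of Gross and Schoen has infinite order.
-/

open scoped Classical
open Polynomial

namespace Pool.Agent.LibCW77

open Pool.Agent.LibBH2
open Pool.Agent.LibCHd (VR RF Red FunF)

variable {k : Type} [Field k]

theorem cov_of_good {n : ℕ} {ω α : k} (hω : IsPrimitiveRoot ω 3) (hc : (cov n ω α).Good) : α ≠ 0 ∧ α ^ 6 ≠ 1 := by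
  have h0 : α ≠ 0 := by
    rintro rfl
    have h5 := @hc.inj (Sum.inl 0) (Sum.inl 1) (by
      show (0 : k) = ω * 0
      rw [mul_zero])
    exact absurd (Sum.inl_injective h5) (by decide)
  refine ⟨h0, fun h6 => ?_⟩
  have h1 : (α ^ 2) ^ 3 = 1 := by rw [← pow_mul]; exact h6
  obtain ⟨j, hj, hj2⟩ := hω.eq_pow_of_pow_eq_one h1
  have h3 := hω.pow_eq_one
  have hb : ∀ i : Fin 3, α = (![α, ω * α, ω ^ 2 * α] i)⁻¹ → False := by
    intro i hi
    have h5 := @hc.inj (Sum.inl 0) (Sum.inr i) hi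
    exact absurd h5 (by simp)
  have hj3 : j = 0 ∨ j = 1 ∨ j = 2 := by omega
  rcases hj3 with rfl | rfl | rfl
  · apply hb 0
    show α = α⁻¹
    apply eq_inv_of_mul_eq_one_left
    rw [← sq, ← hj2, pow_zero]
  · apply hb 2
    show α = (ω ^ 2 * α)⁻¹
    apply eq_inv_of_mul_eq_one_left
    have : α * (ω ^ 2 * α) = ω ^ 2 * α ^ 2 := by ring
    rw [this, ← hj2, pow_one, ← pow_succ, h3]
  · apply hb 1
    show α = (ω * α)⁻¹
    apply eq_inv_of_mul_eq_one_left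
    have : α * (ω * α) = ω * α ^ 2 := by ring
    rw [this, ← hj2, ← pow_succ', h3]

theorem gs_cov [IsAlgClosed k] [CharZero k] {ω : k} (hω : IsPrimitiveRoot ω 3) {n : ℕ} (hn : 3 ≤ n)
    (hn3 : ∀ j, n ≠ 3 ^ j) {α : k} (hc : (cov n ω α).Good)
    (h : Even n ∨ (∃ O : ValuationSubring k, (3 : k)⁻¹ ∉ O ∧ (1 - α ^ 6)⁻¹ ∈ O) ∨ Transcendental ℚ α ∨
        ∃ q : ℚ, α ^ 3 = (q : k) ∧ padicValRat 3 q ≠ 0) : GSIff (cov n ω α) False := by
  obtain ⟨h0, h1⟩ := cov_of_good hω hc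
  have hn4 : 4 ≤ n := by
    rcases Nat.lt_or_ge 3 n with h5 | h5
    · exact h5
    · exfalso
      apply hn3 1
      omega
  refine ⟨genC_exists hc, fun N _ _ x v hg => iff_false_intro ?_⟩
  rcases Nat.even_or_odd n with he | ho
  · exact ev_even hω hn4 he h0 h1 hg
  have hO : ∃ O : ValuationSubring k, (3 : k)⁻¹ ∉ O ∧ (1 - α ^ 6)⁻¹ ∈ O := by
    rcases h with h | h | h | ⟨q, hq, hv⟩
    · exact absurd h (Nat.not_even_iff_odd.2 ho)
    · exact h
    · obtain ⟨O, h3, h4⟩ := val_tr (T := α ^ 3) (h.pow (by norm_num))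
      refine ⟨O, h3, ?_⟩
      have e : (α ^ 3) ^ 2 = α ^ 6 := by ring
      rwa [e] at h4
    · obtain ⟨O, h3, h4⟩ := val_rat (k := k) hv
      refine ⟨O, h3, ?_⟩
      have e : (q : k) ^ 2 = α ^ 6 := by rw [← hq]; ring
      rwa [e] at h4
  exact ev_odd hω ho hn3 h0 h1 hO hg

/-- integers, every exponent -/
theorem gs_int_all [IsAlgClosed k] [CharZero k] {n : ℕ} (hn : 3 ≤ n) {t : Fin 3 → ℤ}
    (h1 : ∀ i j, i ≠ j → t i ^ 2 ≠ t j ^ 2)
    (h : ((n : ℤ) ∣ t 0 - 1 ∧ (n : ℤ) ∣ t 1 - 1 ∧ (n : ℤ) ∣ t 2 + 1) ∨ (4 ∣ n ∧ ∀ i, Odd (t i)) ∨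
      ∃ p : ℕ, p.Prime ∧ p ≠ 2 ∧ p ∣ n ∧
        ¬ (p : ℤ) ∣ t 0 * t 1 * t 2 * (t 0 + t 1 + t 2) * (t 0 * t 1 + t 0 * t 2 + t 1 * t 2)) :
    (⟨n, fun i => (t i : k), fun i => -(t i : k)⟩ : Dat k).Good ∧
      GSIff (⟨n, fun i => (t i : k), fun i => -(t i : k)⟩ : Dat k) False := by
  rcases h with ⟨h2, h3, h4⟩ | h
  · apply gs_int hn h1
    rcases four_or hn with h5 | ⟨p, hp, hp2, hpn⟩
    · left
      have h6 : (4 : ℤ) ∣ (n : ℤ) := by exact_mod_cast h5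
      refine ⟨h5, fun i => ?_⟩
      have h7 := h6.trans h2
      have h8 := h6.trans h3
      have h9 := h6.trans h4
      rw [Int.odd_iff]
      fin_cases i
      · show t 0 % 2 = 1
        omega
      · show t 1 % 2 = 1
        omega
      · show t 2 % 2 = 1
        omega
    · right
      refine ⟨p, hp, hp2, hpn, fun hd => ?_⟩
      haveI : Fact p.Prime := ⟨hp⟩
      have h6 : (p : ℤ) ∣ (n : ℤ) := by exact_mod_cast hpn
      have e0 : ((t 0 : ℤ) : ZMod p) = 1 := by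
        have h7 := (ZMod.intCast_zmod_eq_zero_iff_dvd _ p).mpr (h6.trans h2)
        push_cast at h7
        exact sub_eq_zero.mp h7
      have e1 : ((t 1 : ℤ) : ZMod p) = 1 := by
        have h7 := (ZMod.intCast_zmod_eq_zero_iff_dvd _ p).mpr (h6.trans h3)
        push_cast at h7
        exact sub_eq_zero.mp h7
      have e2 : ((t 2 : ℤ) : ZMod p) = -1 := by
        have h7 := (ZMod.intCast_zmod_eq_zero_iff_dvd _ p).mpr (h6.trans h4)
        push_cast at h7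
        exact eq_neg_of_add_eq_zero_left h7
      have h7 := (ZMod.intCast_zmod_eq_zero_iff_dvd _ p).mpr hd
      push_cast at h7
      rw [e0, e1, e2] at h7
      have h8 : (1 : ZMod p) * 1 * -1 * (1 + 1 + -1) * (1 * 1 + 1 * -1 + 1 * -1) = 1 := by ring
      rw [h8] at h7
      exact one_ne_zero h7
  · exact gs_int hn h1 h

end Pool.Agent.LibCW77
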