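import Pool.Agent.LibCW77.FE1

/-!
[CW77 TQ1] The product of the abscissas of `P + Q` and `P - Q`.

Plan. Cite FE1 (`fe_eq`, `fe_neg`). `x₁ ≠ x₂`: `WeierstrassCurve.Affine.Point.add_some` (or `add_of_X_ne`), slope `(y₁ - y₂) / (x₁ - x₂)`
(`slope_of_X_ne`), `addX = slope ^ 2 - 9 - x₁ - x₂`; for `P - Q = P + (- Q)` the slope is `(y₁ + y₂) / (x₁ - x₂)`. Then
`x₃ x₄ (x₁ - x₂) ^ 2 = x₁ ^ 2 x₂ ^ 2 - 12 c x₁ x₂ - 4 c ^ 2 (x₁ + x₂)`: multiply by `(x₁ - x₂) ^ 2`, use `y_i ^ 2 = x_i ^ 3 + (3 x_i + c) ^ 2`: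
`((y₁ - y₂) ^ 2 - (9 + x₁ + x₂)(x₁ - x₂) ^ 2) ((y₁ + y₂) ^ 2 - (9 + x₁ + x₂)(x₁ - x₂) ^ 2)` is a polynomial in `y₁ ^ 2`, `y₂ ^ 2` (`field_simp`,
`linear_combination`; the identity is the classical one with `b₄ = 12 c`, `b₆ = 4 c ^ 2`, `b₈ = 0`).
-/

open scoped Classical
open Polynomial

namespace Pool.Agent.LibCW77

open Pool.Agent.LibBH2
open Pool.Agent.LibCHd (VR RF Red FunF)

variable {k : Type} [Field k]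

theorem tq_addsub {r x₁ y₁ x₂ y₂ : k} (h₁ : (Er r).Nonsingular x₁ y₁) (h₂ : (Er r).Nonsingular x₂ y₂) (h : x₁ ≠ x₂) :
    ∃ (x₃ y₃ x₄ y₄ : k) (h₃ : (Er r).Nonsingular x₃ y₃) (h₄ : (Er r).Nonsingular x₄ y₄),
      WeierstrassCurve.Affine.Point.some _ _ h₁ + WeierstrassCurve.Affine.Point.some _ _ h₂ =
        WeierstrassCurve.Affine.Point.some _ _ h₃ ∧
      WeierstrassCurve.Affine.Point.some _ _ h₁ - WeierstrassCurve.Affine.Point.some _ _ h₂ =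
        WeierstrassCurve.Affine.Point.some _ _ h₄ ∧
      x₃ * x₄ * (x₁ - x₂) ^ 2 = x₁ ^ 2 * x₂ ^ 2 - 12 * cE r * x₁ * x₂ - 4 * cE r ^ 2 * (x₁ + x₂) := by
  obtain ⟨h', hn⟩ := fe_neg h₂
  refine ⟨_, _, _, _, WeierstrassCurve.Affine.nonsingular_add h₁ h₂ fun hxy => h hxy.left,
    WeierstrassCurve.Affine.nonsingular_add h₁ h' fun hxy => h hxy.left,
    WeierstrassCurve.Affine.Point.add_of_X_ne h, ?_, ?_⟩
  · rw [sub_eq_add_neg, hn, WeierstrassCurve.Affine.Point.add_of_X_ne h]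
  · have e1 := fe_eq h₁
    have e2 := fe_eq h₂
    have hD : x₁ - x₂ ≠ 0 := sub_ne_zero.mpr h
    have h3 : (Er r).addX x₁ x₂ ((Er r).slope x₁ x₂ y₁ y₂) = ((y₁ - y₂) / (x₁ - x₂)) ^ 2 - 9 - x₁ - x₂ := by
      rw [WeierstrassCurve.Affine.slope_of_X_ne h]
      simp [WeierstrassCurve.Affine.addX, Er]
    have h4 : (Er r).addX x₁ x₂ ((Er r).slope x₁ x₂ y₁ (-y₂)) =
        ((y₁ + y₂) / (x₁ - x₂)) ^ 2 - 9 - x₁ - x₂ := by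
      rw [WeierstrassCurve.Affine.slope_of_X_ne h]
      simp [WeierstrassCurve.Affine.addX, Er]
    rw [h3, h4]
    have h5 : ((y₁ - y₂) ^ 2 - (9 + x₁ + x₂) * (x₁ - x₂) ^ 2) * ((y₁ + y₂) ^ 2 - (9 + x₁ + x₂) * (x₁ - x₂) ^ 2) =
        (x₁ ^ 2 * x₂ ^ 2 - 12 * cE r * x₁ * x₂ - 4 * cE r ^ 2 * (x₁ + x₂)) * (x₁ - x₂) ^ 2 := by
      linear_combination (y₁ ^ 2 - y₂ ^ 2 + (x₁ ^ 3 + (3 * x₁ + cE r) ^ 2) - (x₂ ^ 3 + (3 * x₂ + cE r) ^ 2)) *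
        (e1 - e2) - 2 * (9 + x₁ + x₂) * (x₁ - x₂) ^ 2 * (e1 + e2)
    apply mul_right_cancel₀ (pow_ne_zero 2 hD)
    rw [← h5]
    field_simp
    ring

end Pool.Agent.LibCW77
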