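import Pool.Agent.LibCW77.TQ1

/-!
[CW77 TQ2] Multiplication by an odd prime `q` of a point whose abscissa is not `q`-integral.

Plan. Write `v = padicValRat q`, `c = cE r` (an integer). For `1 ≤ m ≤ q - 1` claim `A(m)`: `m • P = some (x_m : k) _ _` with `x_m : ℚ`, `x_m ≠ 0`, and
`ρ_m = x / x_m` satisfies: `ρ_m - m ^ 2` is `0` or has `v ≥ 2` (say: `ρ_m - m ^ 2 = q ^ 2 t` with `t = 0 ∨ 0 ≤ v t`; closure of `{t | t = 0 ∨ 0 ≤ v t}` under sums and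
products, `padicValRat.add...`; or use `padicNorm q t ≤ 1`, `padicNorm.nonarchimedean`, which is shorter). `A(1)`: `ρ_1 = 1`. `A(2)`: `fe_dbl`:
`ρ_2 = 4 (1 + (3 x + c) ^ 2 / x ^ 3) / (1 - 12 c / x ^ 2 - 8 c ^ 2 / x ^ 3)`, and `v (1 / x) ≥ 2`, `v ((3 x + c) ^ 2 / x ^ 3) ≥ - v x ≥ 2`
(`y ≠ 0` because `y ^ 2 = x ^ 3 (1 + (3 x + c) ^ 2 / x ^ 3) ≠ 0`). Step `A(m - 1), A(m) ⇒ A(m + 1)`, `2 ≤ m ≤ q - 2`: `ρ_m` is congruent to `m ^ 2`, not to `1`, mod `q`,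
so `x_m ≠ x`; `tq_addsub` for `m • P` and `P` (`m • P - P = (m - 1) • P`) gives
`ρ_(m+1) = (1 - ρ_m) ^ 2 / (ρ_(m-1) (1 + δ))`, `δ = - 12 c ρ_m / x ^ 2 - 4 c ^ 2 ρ_m (1 + ρ_m) / x ^ 3`, `v δ ≥ 4`,
and `ρ_(m-1)` is a unit congruent to `(m - 1) ^ 2`, so `ρ_(m+1)` is congruent to `(m ^ 2 - 1) ^ 2 / (m - 1) ^ 2 = (m + 1) ^ 2` mod `q ^ 2`.
Last step `m = q - 1`: `ρ_(q-1) - 1` is congruent to `(q - 1) ^ 2 - 1 = q (q - 2)` mod `q ^ 2`, so its valuation is exactly `1` (`q` odd), and `v ρ_q = 2` by the same formula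
(for `q = 3` this is `m = 2`, `ρ_1 = 1`). Hence `x' = x / ρ_q`.
-/

open scoped Classical
open Polynomial

namespace Pool.Agent.LibCW77

open Pool.Agent.LibBH2
open Pool.Agent.LibCHd (VR RF Red FunF)

variable {k : Type} [Field k]

/-- `t` is divisible by `q ^ n` -/
private def TQ2_D (q n : ℕ) (t : ℚ) : Prop := padicNorm q t ≤ ((q : ℚ) ^ n)⁻¹

private theorem TQ2_add {q n : ℕ} [Fact q.Prime] {a b : ℚ} (ha : TQ2_D q n a) (hb : TQ2_D q n b) :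
    TQ2_D q n (a + b) :=
  padicNorm.nonarchimedean.trans (max_le ha hb)

private theorem TQ2_neg {q n : ℕ} [Fact q.Prime] {a : ℚ} (ha : TQ2_D q n a) : TQ2_D q n (-a) := by
  unfold TQ2_D
  rw [padicNorm.neg]
  exact ha

private theorem TQ2_sub {q n : ℕ} [Fact q.Prime] {a b : ℚ} (ha : TQ2_D q n a) (hb : TQ2_D q n b) :
    TQ2_D q n (a - b) := by
  rw [sub_eq_add_neg]
  exact TQ2_add ha (TQ2_neg hb)

private theorem TQ2_pos (q : ℕ) [hq : Fact q.Prime] : (0 : ℚ) < (q : ℚ) := by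
  exact_mod_cast hq.1.pos

private theorem TQ2_mul {q n m : ℕ} [Fact q.Prime] {a b : ℚ} (ha : TQ2_D q n a) (hb : TQ2_D q m b) :
    TQ2_D q (n + m) (a * b) := by
  have hq := TQ2_pos q
  unfold TQ2_D
  rw [padicNorm.mul, pow_add, mul_inv]
  exact mul_le_mul ha hb (padicNorm.nonneg _) (by positivity)

private theorem TQ2_mono {q n m : ℕ} [hq : Fact q.Prime] {a : ℚ} (ha : TQ2_D q n a) (h : m ≤ n) :
    TQ2_D q m a := by
  have hq0 := TQ2_pos q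
  have hq1 : (1 : ℚ) ≤ (q : ℚ) := by exact_mod_cast hq.1.one_lt.le
  refine le_trans ha ?_
  exact inv_anti₀ (by positivity) (pow_le_pow_right₀ hq1 h)

private theorem TQ2_int (q : ℕ) [Fact q.Prime] (z : ℤ) : TQ2_D q 0 (z : ℚ) := by
  unfold TQ2_D
  rw [pow_zero, inv_one]
  exact padicNorm.of_int z

private theorem TQ2_zmul {q n : ℕ} [Fact q.Prime] {a : ℚ} (z : ℤ) (ha : TQ2_D q n a) :
    TQ2_D q n ((z : ℚ) * a) := by
  have h := TQ2_mul (TQ2_int q z) ha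
  rwa [zero_add] at h

private theorem TQ2_div {q n : ℕ} [Fact q.Prime] {a u : ℚ} (hu : padicNorm q u = 1) (ha : TQ2_D q n a) :
    TQ2_D q n (a / u) := by
  unfold TQ2_D
  rw [padicNorm.div, hu, div_one]
  exact ha

private theorem TQ2_unit {q : ℕ} [hq : Fact q.Prime] {u a : ℚ} (hu : padicNorm q u = 1) (ha : TQ2_D q 1 a) :
    padicNorm q (u + a) = 1 := by
  have hq1 : (1 : ℚ) < (q : ℚ) := by exact_mod_cast hq.1.one_lt
  have h1 : padicNorm q a < 1 := by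
    refine lt_of_le_of_lt ha ?_
    rw [pow_one]
    exact inv_lt_one_of_one_lt₀ hq1
  rw [padicNorm.add_eq_max_of_ne (by rw [hu]; exact h1.ne'), hu]
  exact max_eq_left h1.le

private theorem TQ2_ne {q : ℕ} [Fact q.Prime] {u : ℚ} (hu : padicNorm q u = 1) : u ≠ 0 := by
  rintro rfl
  rw [padicNorm.zero] at hu
  exact zero_ne_one hu

private theorem TQ2_int1 {q : ℕ} [Fact q.Prime] {m : ℕ} (h : ¬ q ∣ m) : padicNorm q (m : ℚ) = 1 :=
  (padicNorm.nat_eq_one_iff m).2 h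

private theorem TQ2_cE [CharZero k] {r : ℤ} : cE (r : k) = (((4 * (1 - r ^ 2) : ℤ) : ℚ) : k) := by
  unfold cE
  push_cast
  ring

private theorem TQ2_tr {r X X2 Y : k} (hX : X = X2) (h : (Er r).Nonsingular X Y) :
    ∃ h2 : (Er r).Nonsingular X2 Y,
      WeierstrassCurve.Affine.Point.some _ _ h = WeierstrassCurve.Affine.Point.some _ _ h2 := by
  subst hX
  exact ⟨h, rfl⟩

/-- one addition -/
private theorem TQ2_step [CharZero k] {r : ℤ} {q : ℕ} [Fact q.Prime] {x u s : ℚ} {y yu ys : k}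
    (h : (Er (r : k)).Nonsingular (x : k) y) (hu : (Er (r : k)).Nonsingular (u : k) yu)
    (hs : (Er (r : k)).Nonsingular (s : k) ys)
    (hsub : WeierstrassCurve.Affine.Point.some _ _ hu - WeierstrassCurve.Affine.Point.some _ _ h =
      WeierstrassCurve.Affine.Point.some _ _ hs)
    (hx : x ≠ 0) (hu0 : u ≠ 0) (hs0 : s ≠ 0) (hw : TQ2_D q 2 x⁻¹) (hρ : TQ2_D q 0 (x / u))
    (hne : x / u - 1 ≠ 0) :
    ∃ (t : ℚ) (yt : k) (ht : (Er (r : k)).Nonsingular (t : k) yt) (δ : ℚ),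
      WeierstrassCurve.Affine.Point.some _ _ hu + WeierstrassCurve.Affine.Point.some _ _ h =
        WeierstrassCurve.Affine.Point.some _ _ ht ∧ t ≠ 0 ∧ TQ2_D q 2 δ ∧
      x / t = (x / u - 1) ^ 2 / (x / s * (1 + δ)) := by
  have hux : u - x ≠ 0 := by
    intro h1
    apply hne
    have h2 : u = x := by linarith
    rw [h2, div_self hx, sub_self]
  have hux' : (u : k) ≠ (x : k) := by
    intro h1
    apply hux
    have h2 : u = x := by exact_mod_cast h1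
    rw [h2, sub_self]
  obtain ⟨x₃, y₃, x₄, y₄, h₃, h₄, e3, e4, hid⟩ := tq_addsub hu h hux'
  have h4 : x₄ = (s : k) := by
    rw [hsub] at e4
    exact (WeierstrassCurve.Affine.Point.some.inj e4).1.symm
  set c : ℤ := 4 * (1 - r ^ 2) with hc
  set δ : ℚ := -(((12 * c : ℤ) : ℚ) * (x / u * (x⁻¹ * x⁻¹))) -
    ((4 * c ^ 2 : ℤ) : ℚ) * ((x / u * (1 + x / u)) * (x⁻¹ * (x⁻¹ * x⁻¹))) with hδ
  have hww : TQ2_D q 4 (x⁻¹ * x⁻¹) := TQ2_mul hw hw
  have hδD : TQ2_D q 2 δ := by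
    refine TQ2_sub (TQ2_neg (TQ2_zmul _ ?_)) (TQ2_zmul _ ?_)
    · exact TQ2_mono (TQ2_mul hρ hww) (by norm_num)
    · have h1 : TQ2_D q 0 (1 + x / u) := by
        have := TQ2_add (TQ2_int q 1) hρ
        rwa [Int.cast_one] at this
      exact TQ2_mono (TQ2_mul (TQ2_mul hρ h1) (TQ2_mul hw hww)) (by norm_num)
  have h1δ : padicNorm q (1 + δ) = 1 := TQ2_unit padicNorm.one (TQ2_mono hδD (by norm_num))
  have h1δ0 : 1 + δ ≠ 0 := TQ2_ne h1δ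
  have hnum : u ^ 2 * x ^ 2 * (1 + δ) = u ^ 2 * x ^ 2 - 12 * (c : ℚ) * u * x - 4 * (c : ℚ) ^ 2 * (u + x) := by
    rw [hδ]
    push_cast
    field_simp
    ring
  set t : ℚ := u ^ 2 * x ^ 2 * (1 + δ) / (s * (u - x) ^ 2) with ht
  have hsk : (s : k) ≠ 0 := by exact_mod_cast hs0
  have huxk : (u : k) - (x : k) ≠ 0 := sub_ne_zero.2 hux'
  have ht3 : x₃ = (t : k) := by
    have h5 : ((u ^ 2 * x ^ 2 * (1 + δ) : ℚ) : k) =
        (u : k) ^ 2 * (x : k) ^ 2 - 12 * cE (r : k) * (u : k) * (x : k) -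
          4 * cE (r : k) ^ 2 * ((u : k) + (x : k)) := by
      have hcE : cE (r : k) = ((c : ℚ) : k) := TQ2_cE
      rw [hnum, hcE]
      push_cast
      ring
    have h6 : (t : k) = ((u ^ 2 * x ^ 2 * (1 + δ) : ℚ) : k) / ((s : k) * ((u : k) - (x : k)) ^ 2) := by
      rw [ht, Rat.cast_div, Rat.cast_mul s, Rat.cast_pow, Rat.cast_sub]
    rw [h6, h5, eq_div_iff (mul_ne_zero hsk (pow_ne_zero 2 huxk)), ← hid, h4]
    ring
  obtain ⟨h3', e3'⟩ := TQ2_tr ht3 h₃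
  refine ⟨t, y₃, h3', δ, e3.trans e3', ?_, hδD, ?_⟩
  · exact div_ne_zero (mul_ne_zero (mul_ne_zero (pow_ne_zero 2 hu0) (pow_ne_zero 2 hx)) h1δ0)
      (mul_ne_zero hs0 (pow_ne_zero 2 hux))
  · rw [ht]
    field_simp
    ring

/-- the rational part of one step -/
private theorem TQ2_rat {q : ℕ} [Fact q.Prime] {m : ℕ} (hm : ¬ q ∣ m) {ρ ρ' δ : ℚ}
    (h1 : TQ2_D q 2 (ρ - ((m : ℚ) + 1) ^ 2)) (h2 : TQ2_D q 2 (ρ' - (m : ℚ) ^ 2)) (h3 : TQ2_D q 2 δ) :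
    padicNorm q (ρ' * (1 + δ)) = 1 ∧
      TQ2_D q 2 ((ρ - 1) ^ 2 / (ρ' * (1 + δ)) - ((m : ℚ) + 2) ^ 2) := by
  have h4 : padicNorm q ρ' = 1 := by
    have h5 : padicNorm q ((m : ℚ) ^ 2) = 1 := by
      rw [pow_two, padicNorm.mul, TQ2_int1 hm, one_mul]
    have h6 := TQ2_unit h5 (TQ2_mono h2 (by norm_num : 1 ≤ 2))
    rwa [show (m : ℚ) ^ 2 + (ρ' - (m : ℚ) ^ 2) = ρ' by ring] at h6
  have h5 : padicNorm q (1 + δ) = 1 := TQ2_unit padicNorm.one (TQ2_mono h3 (by norm_num))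
  have h6 : padicNorm q (ρ' * (1 + δ)) = 1 := by
    rw [padicNorm.mul, h4, h5, one_mul]
  refine ⟨h6, ?_⟩
  have h7 : ρ' * (1 + δ) ≠ 0 := TQ2_ne h6
  set a := ρ - ((m : ℚ) + 1) ^ 2 with ha
  set b := ρ' - (m : ℚ) ^ 2 with hb
  have h8 : (ρ - 1) ^ 2 / (ρ' * (1 + δ)) - ((m : ℚ) + 2) ^ 2 =
      (((2 * m * (m + 2) : ℤ) : ℚ) * a + a * a - (((m + 2) ^ 2 : ℤ) : ℚ) * b -
        (((m + 2) ^ 2 : ℤ) : ℚ) * (ρ' * δ)) / (ρ' * (1 + δ)) := by
    rw [eq_div_iff h7, sub_mul, div_mul_cancel₀ _ h7]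
    have e1 : ρ = a + ((m : ℚ) + 1) ^ 2 := by rw [ha]; ring
    have e2 : b = ρ' - (m : ℚ) ^ 2 := hb
    rw [e1, e2]
    push_cast
    ring
  rw [h8]
  refine TQ2_div h6 ?_
  have h9 : TQ2_D q 0 ρ' := by
    unfold TQ2_D
    rw [h4, pow_zero, inv_one]
  have h10 : TQ2_D q 2 (ρ' * δ) := by
    have := TQ2_mul h9 h3
    rwa [zero_add] at this
  exact TQ2_sub (TQ2_sub (TQ2_add (TQ2_zmul _ h1) (TQ2_mono (TQ2_mul h1 h1) (by norm_num)))
    (TQ2_zmul _ h2)) (TQ2_zmul _ h10)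

/-- the claim `A(m)` -/
private def TQ2_A (q m : ℕ) {r : ℤ} {x : ℚ} {y : k} (h : (Er (r : k)).Nonsingular (x : k) y) : Prop :=
  ∃ (u : ℚ) (yu : k) (hu : (Er (r : k)).Nonsingular (u : k) yu),
    m • WeierstrassCurve.Affine.Point.some _ _ h = WeierstrassCurve.Affine.Point.some _ _ hu ∧ u ≠ 0 ∧
      TQ2_D q 2 (x / u - (m : ℚ) ^ 2)

private theorem TQ2_one {q : ℕ} [Fact q.Prime] {r : ℤ} {x : ℚ} {y : k} (hx : x ≠ 0)
    (h : (Er (r : k)).Nonsingular (x : k) y) : TQ2_A q 1 h := by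
  refine ⟨x, y, h, one_nsmul _, hx, ?_⟩
  rw [div_self hx, Nat.cast_one, one_pow, sub_self]
  unfold TQ2_D
  rw [padicNorm.zero]
  have := TQ2_pos q
  positivity

private theorem TQ2_two [CharZero k] {q : ℕ} [Fact q.Prime] {r : ℤ} {x : ℚ} {y : k} (hx : x ≠ 0)
    (hw : TQ2_D q 2 x⁻¹) (h : (Er (r : k)).Nonsingular (x : k) y) : TQ2_A q 2 h := by
  set c : ℤ := 4 * (1 - r ^ 2) with hc
  -- `1 + w (3 + c w) ^ 2`
  set α : ℚ := x⁻¹ * ((3 + (c : ℚ) * x⁻¹) * (3 + (c : ℚ) * x⁻¹)) with hα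
  set β : ℚ := -(((12 * c : ℤ) : ℚ) * (x⁻¹ * x⁻¹)) - ((8 * c ^ 2 : ℤ) : ℚ) * (x⁻¹ * (x⁻¹ * x⁻¹)) with hβ
  have hαD : TQ2_D q 2 α := by
    have h1 : TQ2_D q 0 (3 + (c : ℚ) * x⁻¹) := by
      have h2 := TQ2_add (TQ2_int q 3) (TQ2_mono (TQ2_zmul c hw) (by norm_num : 0 ≤ 2))
      exact_mod_cast h2
    have h3 := TQ2_mul hw (TQ2_mul h1 h1)
    exact h3
  have hββ : TQ2_D q 2 β := by
    have hww : TQ2_D q 4 (x⁻¹ * x⁻¹) := TQ2_mul hw hw
    exact TQ2_sub (TQ2_neg (TQ2_zmul _ (TQ2_mono hww (by norm_num))))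
      (TQ2_zmul _ (TQ2_mono (TQ2_mul hw hww) (by norm_num)))
  have h1α : 1 + α ≠ 0 := TQ2_ne (TQ2_unit padicNorm.one (TQ2_mono hαD (by norm_num)))
  have h1β' : padicNorm q (1 + β) = 1 := TQ2_unit padicNorm.one (TQ2_mono hββ (by norm_num))
  have h1β : 1 + β ≠ 0 := TQ2_ne h1β'
  have e1 : x ^ 3 + (3 * x + (c : ℚ)) ^ 2 = x ^ 3 * (1 + α) := by
    rw [hα]
    field_simp
  have e2 : x ^ 3 - 12 * (c : ℚ) * x - 8 * (c : ℚ) ^ 2 = x ^ 3 * (1 + β) := by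
    rw [hβ]
    push_cast
    field_simp
    ring
  have hy : y ≠ 0 := by
    rintro rfl
    have h2 := fe_eq h
    rw [TQ2_cE] at h2
    have h3 : ((x ^ 3 + (3 * x + (c : ℚ)) ^ 2 : ℚ) : k) = 0 := by
      push_cast
      rw [hc]
      push_cast at h2 ⊢
      rw [← h2]
      ring
    have h4 : x ^ 3 + (3 * x + (c : ℚ)) ^ 2 = 0 := by exact_mod_cast h3
    rw [e1] at h4
    exact mul_ne_zero (pow_ne_zero 3 hx) h1α h4
  obtain ⟨h', e'⟩ := fe_dbl h hy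
  set t : ℚ := x * (x ^ 3 - 12 * (c : ℚ) * x - 8 * (c : ℚ) ^ 2) / (4 * (x ^ 3 + (3 * x + (c : ℚ)) ^ 2)) with ht
  have hcE : cE (r : k) = ((c : ℚ) : k) := TQ2_cE
  obtain ⟨h'', e''⟩ := TQ2_tr (X2 := (t : k)) (by
    rw [ht, hcE]
    push_cast
    rfl) h'
  have hx3 : x ^ 3 ≠ 0 := pow_ne_zero 3 hx
  have ht2 : t = x * (1 + β) / (4 * (1 + α)) := by
    rw [ht, e1, e2]
    field_simp
  have ht0 : t ≠ 0 := by
    rw [ht2]
    exact div_ne_zero (mul_ne_zero hx h1β) (mul_ne_zero (by norm_num) h1α)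
  refine ⟨t, _, h'', e'.trans e'', ht0, ?_⟩
  have e3 : x / t - ((2 : ℕ) : ℚ) ^ 2 = (((4 : ℤ) : ℚ) * (α - β)) / (1 + β) := by
    rw [ht2]
    push_cast
    field_simp
    ring
  rw [e3]
  exact TQ2_div h1β' (TQ2_zmul 4 (TQ2_sub hαD hββ))

theorem tq_prime [CharZero k] {r : ℤ} {q : ℕ} [Fact q.Prime] (hq : q ≠ 2) {x : ℚ} {y : k}
    (h : (Er (r : k)).Nonsingular (x : k) y) (hx : x ≠ 0) (hv : padicValRat q x ≤ -2) :
    ∃ (x' : ℚ) (y' : k) (h' : (Er (r : k)).Nonsingular (x' : k) y'),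
      q • WeierstrassCurve.Affine.Point.some _ _ h = WeierstrassCurve.Affine.Point.some _ _ h' ∧ x' ≠ 0 ∧
        padicValRat q x' = padicValRat q x - 2 := by
  have hp : q.Prime := Fact.out
  have hq3 : 3 ≤ q := by
    have h2 := hp.two_le
    omega
  have hqpos := TQ2_pos q
  have hq1 : (1 : ℚ) < (q : ℚ) := by exact_mod_cast hp.one_lt
  have hw : TQ2_D q 2 x⁻¹ := by
    unfold TQ2_D
    rw [padicNorm.eq_zpow_of_nonzero (inv_ne_zero hx), padicValRat.inv, neg_neg, ← zpow_natCast, ← zpow_neg]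
    exact zpow_le_zpow_right₀ hq1.le (by push_cast; exact hv)
  -- a step: from `m` and `m + 1` to `m + 2`
  have key : ∀ m, 1 ≤ m → m + 1 < q → TQ2_A q m h ∧ TQ2_A q (m + 1) h := by
    intro m hm
    induction m, hm using Nat.le_induction with
    | base => intro _; exact ⟨TQ2_one hx h, TQ2_two hx hw h⟩
    | succ m hm ih =>
      intro hlt
      obtain ⟨⟨s, ys, hs, es, hs0, hsD⟩, ⟨u, yu, hu, eu, hu0, huD⟩⟩ := ih (by omega)
      refine ⟨⟨u, yu, hu, eu, hu0, huD⟩, ?_⟩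
      have hm' : ¬ q ∣ m := fun hd => by
        have := Nat.le_of_dvd (by omega) hd
        omega
      have hm2 : ¬ q ∣ m * (m + 2) := fun hd => by
        rcases (Nat.Prime.dvd_mul hp).1 hd with h1 | h1
        · exact hm' h1
        · have := Nat.le_of_dvd (by omega) h1
          omega
      have huD' : TQ2_D q 2 (x / u - ((m : ℚ) + 1) ^ 2) := by
        push_cast at huD
        exact huD
      have hρ : TQ2_D q 0 (x / u) := by
        have h1 := TQ2_add (TQ2_int q (((m : ℤ) + 1) ^ 2)) (TQ2_mono huD' (by norm_num : 0 ≤ 2))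
        push_cast at h1
        rwa [show ((m : ℚ) + 1) ^ 2 + (x / u - ((m : ℚ) + 1) ^ 2) = x / u by ring] at h1
      have hne : x / u - 1 ≠ 0 := by
        have h1 := TQ2_unit (TQ2_int1 hm2) (TQ2_mono huD' (by norm_num : 1 ≤ 2))
        have h2 : ((m * (m + 2) : ℕ) : ℚ) + (x / u - ((m : ℚ) + 1) ^ 2) = x / u - 1 := by
          push_cast
          ring
        rw [h2] at h1
        exact TQ2_ne h1
      obtain ⟨t, yt, ht, δ, et, ht0, hδ, hr⟩ := TQ2_step h hu hs (by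
        rw [← eu, ← es, succ_nsmul, add_sub_cancel_right]) hx hu0 hs0 hw hρ hne
      refine ⟨t, yt, ht, ?_, ht0, ?_⟩
      · rw [succ_nsmul, eu, et]
      · rw [hr]
        have h1 := (TQ2_rat hm' huD' hsD hδ).2
        push_cast
        rw [show (m : ℚ) + 1 + 1 = (m : ℚ) + 2 by ring]
        exact h1
  obtain ⟨m, rfl⟩ : ∃ m, q = m + 2 := ⟨q - 2, by omega⟩
  obtain ⟨⟨s, ys, hs, es, hs0, hsD⟩, ⟨u, yu, hu, eu, hu0, huD⟩⟩ := key m (by omega) (by omega)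
  have hm' : ¬ (m + 2) ∣ m := fun hd => by
    have := Nat.le_of_dvd (by omega) hd
    omega
  have huD' : TQ2_D (m + 2) 2 (x / u - ((m : ℚ) + 1) ^ 2) := by
    push_cast at huD
    exact huD
  have hρ : TQ2_D (m + 2) 0 (x / u) := by
    have h1 := TQ2_add (TQ2_int (m + 2) (((m : ℤ) + 1) ^ 2)) (TQ2_mono huD' (by norm_num : 0 ≤ 2))
    push_cast at h1
    rwa [show ((m : ℚ) + 1) ^ 2 + (x / u - ((m : ℚ) + 1) ^ 2) = x / u by ring] at h1
  have hnorm : padicNorm (m + 2) (x / u - 1) = (((m + 2 : ℕ) : ℚ))⁻¹ := by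
    have h1 : padicNorm (m + 2) ((m : ℚ) * ((m + 2 : ℕ) : ℚ)) = (((m + 2 : ℕ) : ℚ))⁻¹ := by
      rw [padicNorm.mul, TQ2_int1 hm', one_mul, padicNorm.padicNorm_p_of_prime]
    have h2 : padicNorm (m + 2) (x / u - ((m : ℚ) + 1) ^ 2) < (((m + 2 : ℕ) : ℚ))⁻¹ := by
      refine lt_of_le_of_lt huD' ?_
      refine inv_strictAnti₀ hqpos ?_
      rw [pow_two]
      exact lt_mul_of_one_lt_left hqpos hq1
    have h3 : x / u - 1 = (m : ℚ) * ((m + 2 : ℕ) : ℚ) + (x / u - ((m : ℚ) + 1) ^ 2) := by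
      push_cast
      ring
    rw [h3, padicNorm.add_eq_max_of_ne (by rw [h1]; exact h2.ne'), h1]
    exact max_eq_left h2.le
  have hne : x / u - 1 ≠ 0 := by
    intro h0
    rw [h0, padicNorm.zero] at hnorm
    exact (inv_pos.2 hqpos).ne hnorm
  obtain ⟨t, yt, ht, δ, et, ht0, hδ, hr⟩ := TQ2_step h hu hs (by
    rw [← eu, ← es, succ_nsmul, add_sub_cancel_right]) hx hu0 hs0 hw hρ hne
  refine ⟨t, yt, ht, ?_, ht0, ?_⟩
  · rw [succ_nsmul, eu, et]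
  · have h1 := (TQ2_rat hm' huD' hsD hδ).1
    have h2 : padicNorm (m + 2) (x / t) = (((m + 2 : ℕ) : ℚ)) ^ (-(2 : ℤ)) := by
      rw [hr, padicNorm.div, h1, div_one, pow_two, padicNorm.mul, hnorm, zpow_neg, ← mul_inv]
      congr 1
      norm_cast
      ring
    have hxt : x / t ≠ 0 := div_ne_zero hx ht0
    rw [padicNorm.eq_zpow_of_nonzero hxt] at h2
    have h3 := zpow_right_injective₀ hqpos hq1.ne' h2
    beta_reduce at h3
    rw [padicValRat.div hx ht0] at h3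
    linarith

end Pool.Agent.LibCW77
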