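import Pool.Agent.LibCW77.Defs7
import Pool.Agent.LibCW77.PI3
import Pool.Agent.LibCW77.L3
import Pool.Agent.LibCW77.L4
import Pool.Agent.LibCW77.Z1
import Pool.Agent.LibCW77.Z2
import Pool.Agent.LibCW77.GA3
import Pool.Agent.LibCW77.GS2
import Pool.Agent.LibCW77.GS4

/-!
The isomorphism, its equivariance and the cycle of Gross and Schoen.
-/

open scoped Classical
open Polynomial

namespace Pool.Agent.LibCW77

open Pool.Agent.LibBH2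
open Pool.Agent.LibCHd (VR RF Red FunF)

variable {k : Type} [Field k]

theorem z3_span (c : Dat k) (ζ : k) : V0 c ζ =
    Submodule.span ℚ (Set.range fun Q : {Q : Fin 2 → Option k // OnC c (Q 0) (Q 1)} => dQ c ζ Q.1) := by
  unfold V0
  congr 1
  ext x
  constructor
  · rintro ⟨Q, hQ, rfl⟩
    exact ⟨⟨Q, hQ⟩, rfl⟩
  · rintro ⟨Q, rfl⟩
    exact ⟨Q.1, Q.2, rfl⟩

theorem z3_span1 [IsAlgClosed k] [CharZero k] {c : Dat k} (hc : c.Good) {ζ ν : k} (hζ : IsPrimitiveRoot ζ c.n)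
    (hν : ν ^ c.n = ∏ i, (-(kb c i) / ka c i)) : V1 c ζ =
    Submodule.span ℚ (Set.range fun Q : {Q : Fin 2 → Option k // OnC c (Q 0) (Q 1)} =>
      Lval c ζ ν (qt (CH c 3 1)) Q.1) := by
  apply le_antisymm
  · unfold V1
    rw [Submodule.span_le]
    rintro x ⟨M, _, _, P, hM, hP, rfl⟩
    obtain ⟨n, m, Q, hQ, he⟩ := mns_mem hc hζ hν (qt (CH c 3 1)) hM P hP
    rw [he]
    refine Submodule.sum_mem _ fun j _ => ?_
    rw [← Int.cast_smul_eq_zsmul ℚ]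
    exact Submodule.smul_mem _ _ (Submodule.subset_span ⟨⟨Q j, hQ j⟩, rfl⟩)
  · rw [Submodule.span_le]
    rintro x ⟨⟨Q, hQ⟩, rfl⟩
    change Lval c ζ ν (qt (CH c 3 1)) Q ∈ V1 c ζ
    by_cases hu : UnR Q
    · obtain ⟨M, _, _, P, hM, hP, hcol, hfin⟩ := exists_col hc hν hQ hu
      have h1 := mns_col hc hζ hν (qt (CH c 3 1)) hQ hM hP hcol
      have h2 : Lval c ζ ν (qt (CH c 3 1)) Q =
          ((Module.finrank (pf c P) M : ℚ)⁻¹) • qt (CH c 3 1) (mns c ζ P) := by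
        rw [h1, ← Nat.cast_smul_eq_nsmul ℚ, smul_smul, inv_mul_cancel₀ (by exact_mod_cast hfin), one_smul]
      rw [h2]
      exact Submodule.smul_mem _ _ (Submodule.subset_span ⟨M, _, _, P, hM, hP, rfl⟩)
    · have h1 : Q 1 = none ∨ Q 1 = some 0 := by
        rcases h : Q 1 with _ | y
        · exact Or.inl rfl
        · right
          by_cases hy : y = 0
          · rw [hy]
          · exact absurd ⟨y, h, hy⟩ hu
      rw [Lval_ram _ Q h1]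
      exact Submodule.zero_mem _

theorem z3_rel [IsAlgClosed k] [CharZero k] {c : Dat k} (hc : c.Good) {ζ ν : k}
    (hζ : IsPrimitiveRoot ζ c.n) (hν : ν ^ c.n = ∏ i, (-(kb c i) / ka c i)) (n : ℕ) (m : Fin n → ℤ)
    (Q : Fin n → {Q : Fin 2 → Option k // OnC c (Q 0) (Q 1)}) :
    ∑ j, m j • dQ c ζ (Q j).1 = 0 ↔ ∑ j, m j • Lval c ζ ν (qt (CH c 3 1)) (Q j).1 = 0 := by
  have h1 : ∑ j, m j • dQ c ζ (Q j).1 =
      qt _ (∑ j, m j • (cls c 0 (pt1 (Q j).1) - cls c 0 (pt1 (tau ζ (Q j).1)))) := by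
    rw [map_sum]
    refine Finset.sum_congr rfl fun j _ => ?_
    rw [map_zsmul]
    rfl
  have h2 : ∑ j, m j • dQ c ζ (Q j).1 = 0 ↔
      IsOfFinAddOrder (∑ j, m j • (cls c 0 (pt1 (Q j).1) - cls c 0 (pt1 (tau ζ (Q j).1)))) := by
    rw [h1]
    exact tensor_zero _
  rw [h2]
  constructor
  · intro h
    exact Lval_zero hc hζ hν (qt (CH c 3 1)) m (fun j => (Q j).1) (fun j => (Q j).2) h
  · intro h
    exact line_inj' hc hζ hν m (fun j => (Q j).1) (fun j => (Q j).2) h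

theorem exists_phi [IsAlgClosed k] [CharZero k] {c : Dat k} (hc : c.Good) {ζ ν : k}
    (hζ : IsPrimitiveRoot ζ c.n) (hν : ν ^ c.n = ∏ i, (-(kb c i) / ka c i)) :
    ∃ Φ : V0 c ζ ≃ₗ[ℚ] V1 c ζ, ∀ (Q : Fin 2 → Option k), OnC c (Q 0) (Q 1) → ∀ y : V0 c ζ,
      (y : TensorProduct ℤ ℚ (CH c 1 0)) = dQ c ζ Q →
      (Φ y : TensorProduct ℤ ℚ (CH c 3 1)) = Lval c ζ ν (qt (CH c 3 1)) Q := by
  obtain ⟨Φ, hΦ⟩ := lin_iso
    (fun Q : {Q : Fin 2 → Option k // OnC c (Q 0) (Q 1)} => dQ c ζ Q.1)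
    (fun Q : {Q : Fin 2 → Option k // OnC c (Q 0) (Q 1)} => Lval c ζ ν (qt (CH c 3 1)) Q.1)
    (fun n m Q => z3_rel hc hζ hν n m Q)
  refine ⟨(LinearEquiv.ofEq _ _ (z3_span c ζ)).trans (Φ.trans (LinearEquiv.ofEq _ _ (z3_span1 hc hζ hν).symm)),
    fun Q hQ y hy => ?_⟩
  have h1 : (LinearEquiv.ofEq _ _ (z3_span c ζ)) y =
      ⟨dQ c ζ Q, Submodule.subset_span ⟨⟨Q, hQ⟩, rfl⟩⟩ := Subtype.ext hy
  rw [LinearEquiv.trans_apply, LinearEquiv.trans_apply, h1]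
  exact hΦ ⟨Q, hQ⟩

theorem mem_V0 {c : Dat k} {ζ : k} {Q : Fin 2 → Option k} (hQ : OnC c (Q 0) (Q 1)) : dQ c ζ Q ∈ V0 c ζ :=
  Submodule.subset_span ⟨Q, hQ, rfl⟩

theorem z3_onC {c : Dat k} {s : k ≃+* k} (hs : Fix c s) {Q : Fin 2 → Option k} (hQ : OnC c (Q 0) (Q 1)) :
    OnC c ((Q 0).map s) ((Q 1).map s) := by
  rcases h0 : Q 0 with _ | x <;> rcases h1 : Q 1 with _ | v
  · rw [h0, h1] at hQ
    exact hQ
  · rw [h0, h1] at hQ
    have h2 : v ^ c.n = 1 := hQ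
    change (s v) ^ c.n = 1
    rw [← map_pow, h2, map_one]
  · rw [h0, h1] at hQ
    obtain ⟨i, hi⟩ : ∃ i, x = c.b i := hQ
    exact ⟨i, by rw [hi, (hs i).2]⟩
  · rw [h0, h1] at hQ
    have h2 : v ^ c.n * ∏ i, (x - c.b i) = ∏ i, (x - c.a i) := hQ
    change (s v) ^ c.n * ∏ i, (s x - c.b i) = ∏ i, (s x - c.a i)
    have h3 : ∀ i, s x - c.b i = s (x - c.b i) := fun i => by rw [map_sub, (hs i).2]
    have h4 : ∀ i, s x - c.a i = s (x - c.a i) := fun i => by rw [map_sub, (hs i).1]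
    simp only [h3, h4]
    rw [← map_pow, ← map_prod, ← map_prod, ← map_mul, h2]

/-- the identity as a semilinear map from `k` to `k` -/
def siK (s : k ≃+* k) : SI s k k := ⟨s, fun _ => rfl⟩

theorem act_dQ {c : Dat k} {s : k ≃+* k} {ζ : k} (hsζ : s ζ = ζ) {Γ : CH c 1 0 →+ CH c 1 0} (hΓ : IsAct s Γ)
    (Γ' : TensorProduct ℤ ℚ (CH c 1 0) →ₗ[ℚ] TensorProduct ℤ ℚ (CH c 1 0))
    (h : ∀ x, Γ' (qt _ x) = qt _ (Γ x)) (Q : Fin 2 → Option k) :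
    Γ' (dQ c ζ Q) = dQ c ζ (fun a => (Q a).map s) := by
  unfold dQ
  rw [h, map_sub, hΓ k k (siK s) (pt1 Q), hΓ k k (siK s) (pt1 (tau ζ Q))]
  congr 1
  congr 1
  congr 1
  funext j a
  fin_cases a
  · rfl
  · change (((Q 1).map fun v => algebraMap k k ζ * v).map s) = ((Q 1).map s).map fun v => algebraMap k k ζ * v
    rw [Option.map_map, Option.map_map]
    congr 1
    funext v
    change s (ζ * v) = ζ * s v
    rw [map_mul, hsζ]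

theorem phi_act [IsAlgClosed k] [CharZero k] {c : Dat k} (hc : c.Good) {ζ ν : k}
    (hζ : IsPrimitiveRoot ζ c.n) (hν : ν ^ c.n = ∏ i, (-(kb c i) / ka c i)) {s : k ≃+* k} (hs : Fix c s)
    (hsζ : s ζ = ζ) (hsν : s ν = ν) (Φ : V0 c ζ ≃ₗ[ℚ] V1 c ζ)
    (hΦ : ∀ (Q : Fin 2 → Option k), OnC c (Q 0) (Q 1) → ∀ y : V0 c ζ,
      (y : TensorProduct ℤ ℚ (CH c 1 0)) = dQ c ζ Q →
      (Φ y : TensorProduct ℤ ℚ (CH c 3 1)) = Lval c ζ ν (qt (CH c 3 1)) Q)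
    {Γ₀ : CH c 1 0 →+ CH c 1 0} (h0 : IsAct s Γ₀) {Γ₁ : CH c 3 1 →+ CH c 3 1} (h1 : IsAct s Γ₁)
    (G₀ : TensorProduct ℤ ℚ (CH c 1 0) →ₗ[ℚ] TensorProduct ℤ ℚ (CH c 1 0)) (hG₀ : ∀ x, G₀ (qt _ x) = qt _ (Γ₀ x))
    (G₁ : TensorProduct ℤ ℚ (CH c 3 1) →ₗ[ℚ] TensorProduct ℤ ℚ (CH c 3 1)) (hG₁ : ∀ x, G₁ (qt _ x) = qt _ (Γ₁ x))
    (y : V0 c ζ) : ∃ y' : V0 c ζ, (y' : TensorProduct ℤ ℚ (CH c 1 0)) = G₀ y ∧
      (Φ y' : TensorProduct ℤ ℚ (CH c 3 1)) = G₁ (Φ y) := by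
  obtain ⟨y, hy⟩ := y
  refine Submodule.span_induction (p := fun y hy => ∃ y' : V0 c ζ, (y' : TensorProduct ℤ ℚ (CH c 1 0)) = G₀ y ∧
    (Φ y' : TensorProduct ℤ ℚ (CH c 3 1)) = G₁ (Φ ⟨y, hy⟩)) ?_ ?_ ?_ ?_ hy
  · rintro _ ⟨Q, hQ, rfl⟩
    have hQ' := z3_onC hs hQ
    refine ⟨⟨dQ c ζ (fun a => (Q a).map s), mem_V0 hQ'⟩, ?_, ?_⟩
    · exact (act_dQ hsζ h0 G₀ hG₀ Q).symm
    · rw [hΦ (fun a => (Q a).map s) hQ' _ rfl, hΦ Q hQ _ rfl]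
      exact (act_Lval hs hc hζ hν hsζ hsν h1 (qt _) G₁ hG₁ Q hQ).symm
  · refine ⟨0, ?_, ?_⟩
    · rw [map_zero]; rfl
    · have : (⟨0, Submodule.zero_mem _⟩ : V0 c ζ) = 0 := rfl
      rw [this, map_zero]
      change (0 : TensorProduct ℤ ℚ (CH c 3 1)) = G₁ 0
      rw [map_zero]
  · rintro a b ha hb ⟨a', ha1, ha2⟩ ⟨b', hb1, hb2⟩
    refine ⟨a' + b', ?_, ?_⟩
    · rw [Submodule.coe_add, ha1, hb1, map_add]
    · have : (⟨a + b, Submodule.add_mem _ ha hb⟩ : V0 c ζ) = ⟨a, ha⟩ + ⟨b, hb⟩ := rfl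
      rw [this, map_add, map_add, Submodule.coe_add, Submodule.coe_add, ha2, hb2, map_add]
  · rintro r a ha ⟨a', ha1, ha2⟩
    refine ⟨r • a', ?_, ?_⟩
    · rw [Submodule.coe_smul, ha1, map_smul]
    · have : (⟨r • a, Submodule.smul_mem _ r ha⟩ : V0 c ζ) = r • ⟨a, ha⟩ := rfl
      rw [this, map_smul, map_smul, Submodule.coe_smul, Submodule.coe_smul, ha2, map_smul]

/-- the sum over the flexes -/
theorem phi_sum [IsAlgClosed k] [CharZero k] {c : Dat k} {ζ ν : k} (Φ : V0 c ζ ≃ₗ[ℚ] V1 c ζ)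
    (hΦ : ∀ (Q : Fin 2 → Option k), OnC c (Q 0) (Q 1) → ∀ y : V0 c ζ,
      (y : TensorProduct ℤ ℚ (CH c 1 0)) = dQ c ζ Q →
      (Φ y : TensorProduct ℤ ℚ (CH c 3 1)) = Lval c ζ ν (qt (CH c 3 1)) Q)
    (T : Multiset (Option k)) (F : Option k → Fin 2 → Option k) (hF : ∀ o ∈ T, OnC c (F o 0) (F o 1)) :
    ∃ y : V0 c ζ, (y : TensorProduct ℤ ℚ (CH c 1 0)) = (T.map fun o => dQ c ζ (F o)).sum ∧
      (Φ y : TensorProduct ℤ ℚ (CH c 3 1)) = (T.map fun o => Lval c ζ ν (qt (CH c 3 1)) (F o)).sum := by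
  induction T using Multiset.induction_on with
  | empty =>
    refine ⟨0, ?_, ?_⟩
    · rw [Multiset.map_zero, Multiset.sum_zero]; rfl
    · rw [map_zero, Multiset.map_zero, Multiset.sum_zero]; rfl
  | cons a T ih =>
    obtain ⟨y, h1, h2⟩ := ih fun o ho => hF o (Multiset.mem_cons_of_mem ho)
    have ha := hF a (Multiset.mem_cons_self a T)
    refine ⟨⟨dQ c ζ (F a), mem_V0 ha⟩ + y, ?_, ?_⟩
    · rw [Submodule.coe_add, h1, Multiset.map_cons, Multiset.sum_cons]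
    · rw [map_add, Submodule.coe_add, h2, Multiset.map_cons, Multiset.sum_cons, hΦ (F a) ha _ rfl]

theorem gs_main [IsAlgClosed k] [CharZero k] {c : Dat k} (hc : c.Good) {ζ ν : k} (h3 : c.n = 3)
    (hζ : IsPrimitiveRoot ζ c.n) (hν : ν ^ c.n = ∏ i, (-(kb c i) / ka c i)) (Φ : V0 c ζ ≃ₗ[ℚ] V1 c ζ)
    (hΦ : ∀ (Q : Fin 2 → Option k), OnC c (Q 0) (Q 1) → ∀ y : V0 c ζ,
      (y : TensorProduct ℤ ℚ (CH c 1 0)) = dQ c ζ Q →
      (Φ y : TensorProduct ℤ ℚ (CH c 3 1)) = Lval c ζ ν (qt (CH c 3 1)) Q) {N : Type} [Field N] [Algebra k N]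
    {x v : N} (h : GenC c x v) :
    (∃ y : V0 c ζ, (y : TensorProduct ℤ ℚ (CH c 1 0)) = ((rts c).map fun o => dQ c ζ (Qk c ν o)).sum ∧
      qt _ (mns c ζ (tri ![some x, some v] ![some x, some v] ![some x, some v])) =
        -3 • (Φ y : TensorProduct ℤ ℚ (CH c 3 1))) ∧
    (IsOfFinAddOrder (GS c ![some x, some v]) ↔
      IsOfFinAddOrder ((rts c).map fun o => cls c 0 (pt1 (Qk c ν o)) - cls c 0 (pt1 (tau ζ (Qk c ν o)))).sum) := by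
  have hon : ∀ o ∈ rts c, OnC c (Qk c ν o 0) (Qk c ν o 1) := fun o ho => Qk_on hc hν h3 ho
  obtain ⟨y, h1, h2⟩ := phi_sum Φ hΦ (rts c) (Qk c ν) hon
  have h4 := mns_diag hc h3 hζ hν (qt (CH c 3 1)) h
  have h5 : qt _ (mns c ζ (tri ![some x, some v] ![some x, some v] ![some x, some v])) =
      -3 • (Φ y : TensorProduct ℤ ℚ (CH c 3 1)) := by rw [h4, h2]
  refine ⟨⟨y, h1, h5⟩, ?_⟩
  rw [GS_iff hc h3 hζ h]
  have h6 : ∀ z : CH c 3 1, IsOfFinAddOrder z ↔ qt _ z = 0 := fun z => (tensor_zero z).symm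
  have h7 : ∀ z : CH c 1 0, IsOfFinAddOrder z ↔ qt _ z = 0 := fun z => (tensor_zero z).symm
  rw [h6, h7, h5]
  have h8 : qt _ ((rts c).map fun o => cls c 0 (pt1 (Qk c ν o)) - cls c 0 (pt1 (tau ζ (Qk c ν o)))).sum =
      (y : TensorProduct ℤ ℚ (CH c 1 0)) := by
    rw [h1, map_multiset_sum, Multiset.map_map]
    rfl
  rw [h8]
  constructor
  · intro h9
    have h10 : (Φ y : TensorProduct ℤ ℚ (CH c 3 1)) = 0 := by
      rw [neg_smul, neg_eq_zero] at h9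
      have h11 : (3 : ℚ) • (Φ y : TensorProduct ℤ ℚ (CH c 3 1)) = 0 := by
        rw [← Int.cast_smul_eq_zsmul ℚ] at h9
        rw [← h9]
        norm_num
      exact (smul_eq_zero.1 h11).resolve_left (by norm_num)
    have h12 : Φ y = 0 := Subtype.ext h10
    rw [(LinearEquiv.map_eq_zero_iff Φ).1 h12]
    rfl
  · intro h9
    have h12 : y = 0 := Subtype.ext h9
    rw [h12, map_zero]
    change -3 • (0 : TensorProduct ℤ ℚ (CH c 3 1)) = 0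
    rw [smul_zero]

end Pool.Agent.LibCW77
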