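import Pool.Agent.LibCW77.Defs8
import Pool.Agent.LibCW77.Z3
import Pool.Agent.LibCW77.P7
import Pool.Agent.LibCW77.E1

/-!
The formula for an arbitrary curve on `C ^ 3`.
-/

open scoped Classical
open Polynomial

namespace Pool.Agent.LibCW77

open Pool.Agent.LibBH2
open Pool.Agent.LibCHd (VR RF Red FunF)

variable {k : Type} [Field k]

/-- a finite sum -/
theorem phi_fsum [IsAlgClosed k] [CharZero k] {c : Dat k} {ζ ν : k} (Φ : V0 c ζ ≃ₗ[ℚ] V1 c ζ)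
    (hΦ : ∀ (Q : Fin 2 → Option k), OnC c (Q 0) (Q 1) → ∀ y : V0 c ζ,
      (y : TensorProduct ℤ ℚ (CH c 1 0)) = dQ c ζ Q →
      (Φ y : TensorProduct ℤ ℚ (CH c 3 1)) = Lval c ζ ν (qt (CH c 3 1)) Q)
    {ι : Type} (T : Finset ι) (m : ι → ℤ) (F : ι → Fin 2 → Option k) (hF : ∀ o ∈ T, OnC c (F o 0) (F o 1)) :
    ∃ y : V0 c ζ, (y : TensorProduct ℤ ℚ (CH c 1 0)) = ∑ o ∈ T, m o • dQ c ζ (F o) ∧
      (Φ y : TensorProduct ℤ ℚ (CH c 3 1)) = ∑ o ∈ T, m o • Lval c ζ ν (qt (CH c 3 1)) (F o) := by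
  induction T using Finset.induction_on with
  | empty =>
    refine ⟨0, ?_, ?_⟩
    · rw [Finset.sum_empty]; rfl
    · rw [map_zero, Finset.sum_empty]; rfl
  | insert a T ha ih =>
    obtain ⟨y, h1, h2⟩ := ih fun o ho => hF o (Finset.mem_insert_of_mem ho)
    have haC := hF a (Finset.mem_insert_self a T)
    refine ⟨m a • ⟨dQ c ζ (F a), mem_V0 haC⟩ + y, ?_, ?_⟩
    · rw [Submodule.coe_add, h1, Finset.sum_insert ha]
      rfl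
    · rw [map_add, Submodule.coe_add, h2, Finset.sum_insert ha, map_zsmul, ← hΦ (F a) haC ⟨dQ c ζ (F a), mem_V0 haC⟩ rfl]
      rfl

theorem phi_tors [IsAlgClosed k] [CharZero k] {c : Dat k} {ζ : k} (Φ : V0 c ζ ≃ₗ[ℚ] V1 c ζ) {y : V0 c ζ} {a : CH c 1 0}
    {b : CH c 3 1} (h1 : qt _ a = (y : TensorProduct ℤ ℚ (CH c 1 0)))
    (h2 : qt _ b = (Φ y : TensorProduct ℤ ℚ (CH c 3 1))) : IsOfFinAddOrder b ↔ IsOfFinAddOrder a := by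
  have h6 : ∀ z : CH c 3 1, IsOfFinAddOrder z ↔ qt _ z = 0 := fun z => (tensor_zero z).symm
  have h7 : ∀ z : CH c 1 0, IsOfFinAddOrder z ↔ qt _ z = 0 := fun z => (tensor_zero z).symm
  rw [h6, h7, h1, h2]
  constructor
  · intro h9
    have h12 : Φ y = 0 := Subtype.ext h9
    rw [(LinearEquiv.map_eq_zero_iff Φ).1 h12]
    rfl
  · intro h9
    have h12 : y = 0 := Subtype.ext h9
    rw [h12, map_zero]
    rfl

/-- the sum of the classes `m_w (Q_w - τ Q_w)` -/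
noncomputable def sumD (c : Dat k) (ζ : k) {ι : Type} (S : Finset ι) (m : ι → ℤ) (Q : ι → Fin 2 → Option k) :
    CH c 1 0 :=
  ∑ w ∈ S, m w • (cls c 0 (pt1 (Q w)) - cls c 0 (pt1 (tau ζ (Q w))))

theorem qt_sumD (c : Dat k) (ζ : k) {ι : Type} (S : Finset ι) (m : ι → ℤ) (Q : ι → Fin 2 → Option k) :
    qt _ (sumD c ζ S m Q) = ∑ w ∈ S, m w • dQ c ζ (Q w) := by
  unfold sumD
  rw [map_sum]
  refine Finset.sum_congr rfl fun w _ => ?_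
  rw [map_zsmul]
  rfl

theorem curve_main [IsAlgClosed k] [CharZero k] {c : Dat k} (hc : c.Good) {ζ ν : k}
    (hζ : IsPrimitiveRoot ζ c.n) (hν : ν ^ c.n = ∏ i, (-(kb c i) / ka c i)) (Φ : V0 c ζ ≃ₗ[ℚ] V1 c ζ)
    (hΦ : ∀ (Q : Fin 2 → Option k), OnC c (Q 0) (Q 1) → ∀ y : V0 c ζ,
      (y : TensorProduct ℤ ℚ (CH c 1 0)) = dQ c ζ Q →
      (Φ y : TensorProduct ℤ ℚ (CH c 3 1)) = Lval c ζ ν (qt (CH c 3 1)) Q) {M : Type} [Field M] [Algebra k M]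
    (P : Pnt 3 M) (hM : FunF k 1 M) (hP : On (c.over M) P) (hr : ¬ Ram P) (h0 : ∃ j, mnr (c.over M) P j ≠ 0) :
    ∃ (S : Finset (Place k M)) (m : Place k M → ℕ) (Q : Place k M → Fin 2 → Option k), CurveData c ν P S m Q ∧
      (∃ y : V0 c ζ, (y : TensorProduct ℤ ℚ (CH c 1 0)) = ∑ w ∈ S, (m w : ℤ) • dQ c ζ (Q w) ∧
        qt _ (mns c ζ P) = -(Φ y : TensorProduct ℤ ℚ (CH c 3 1))) ∧
      (IsOfFinAddOrder (mns c ζ P) ↔
        IsOfFinAddOrder (∑ w ∈ S, (m w : ℤ) • (cls c 0 (pt1 (Q w)) - cls c 0 (pt1 (tau ζ (Q w)))))) := by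
  obtain ⟨hz, hl⟩ := zpt_lift (good_map hc) hP hr
  obtain ⟨S, m, Q, hS, hw, hT⟩ := path1_full hc hζ hν (qt (CH c 3 1)) hM hz h0
  rw [TZ_zpt hc hζ (qt _) hP hr] at hT
  obtain ⟨y, h1, h2⟩ := phi_fsum Φ hΦ S (fun w => (m w : ℤ)) Q fun w hwS => (hw w hwS).2.2.2.1
  have h3 : qt _ (mns c ζ P) = -(Φ y : TensorProduct ℤ ℚ (CH c 3 1)) := by
    rw [hT, h2]
    congr 1
  refine ⟨S, m, Q, ⟨hS, fun w hwS => (hw w hwS).1, fun w hwS => (hw w hwS).2.1, fun w hwS => (hw w hwS).2.2.1,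
    fun w hwS => (hw w hwS).2.2.2.1, fun w hwS => (hw w hwS).2.2.2.2.1, fun w hwS => (hw w hwS).2.2.2.2.2⟩,
    ⟨y, h1, h3⟩, ?_⟩
  have h4 : qt _ (mns c ζ P) = (Φ (-y) : TensorProduct ℤ ℚ (CH c 3 1)) := by
    rw [h3, map_neg]
    rfl
  have h5 : qt _ (sumD c ζ S (fun w => -(m w : ℤ)) Q) = ((-y : V0 c ζ) : TensorProduct ℤ ℚ (CH c 1 0)) := by
    rw [qt_sumD, Submodule.coe_neg, h1, ← Finset.sum_neg_distrib]
    exact Finset.sum_congr rfl fun w _ => by rw [neg_smul]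
  rw [phi_tors Φ h5 h4]
  have h6 : sumD c ζ S (fun w => -(m w : ℤ)) Q =
      -∑ w ∈ S, (m w : ℤ) • (cls c 0 (pt1 (Q w)) - cls c 0 (pt1 (tau ζ (Q w)))) := by
    unfold sumD
    rw [← Finset.sum_neg_distrib]
    exact Finset.sum_congr rfl fun w _ => by rw [neg_smul]
  rw [h6]
  exact isOfFinAddOrder_neg_iff

theorem cone_main [IsAlgClosed k] [CharZero k] {c : Dat k} (hc : c.Good) {ζ ν : k}
    (hζ : IsPrimitiveRoot ζ c.n) (hν : ν ^ c.n = ∏ i, (-(kb c i) / ka c i)) (Φ : V0 c ζ ≃ₗ[ℚ] V1 c ζ)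
    (hΦ : ∀ (Q : Fin 2 → Option k), OnC c (Q 0) (Q 1) → ∀ y : V0 c ζ,
      (y : TensorProduct ℤ ℚ (CH c 1 0)) = dQ c ζ Q →
      (Φ y : TensorProduct ℤ ℚ (CH c 3 1)) = Lval c ζ ν (qt (CH c 3 1)) Q) {M : Type} [Field M] [Algebra k M]
    (P : Pnt 3 M) (hM : FunF k 1 M) (hP : On (c.over M) P) (hr : ¬ Ram P) (h0 : ∀ j, mnr (c.over M) P j = 0) :
    ∃ (x : Option M) (y : M) (S : Finset (Place k M)) (Q : Place k M → Fin 2 → Option k), ConeData c ν P x y S Q ∧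
      (∃ y : V0 c ζ, (y : TensorProduct ℤ ℚ (CH c 1 0)) =
          ∑ w ∈ S, w.ord (Yv (c.over M) P 0 / Yv (c.over M) P 1) • dQ c ζ (Q w) ∧
        qt _ (mns c ζ P) = (Φ y : TensorProduct ℤ ℚ (CH c 3 1))) ∧
      (IsOfFinAddOrder (mns c ζ P) ↔ IsOfFinAddOrder (∑ w ∈ S, w.ord (Yv (c.over M) P 0 / Yv (c.over M) P 1) •
        (cls c 0 (pt1 (Q w)) - cls c 0 (pt1 (tau ζ (Q w)))))) := by
  obtain ⟨hz, hl⟩ := zpt_lift (good_map hc) hP hr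
  obtain ⟨x, y, S, Q, h1, h2, h3, h4, h5, h6, hT⟩ := path2_full hc hζ hν (qt (CH c 3 1)) hM hz h0
  rw [TZ_zpt hc hζ (qt _) hP hr] at hT
  obtain ⟨t, h7, h8⟩ := phi_fsum Φ hΦ S (fun w => w.ord (Yv (c.over M) P 0 / Yv (c.over M) P 1)) Q
    fun w _ => (h6 w).2.2
  have h9 : qt _ (mns c ζ P) = (Φ t : TensorProduct ℤ ℚ (CH c 3 1)) := by
    rw [hT, h8]
    rfl
  refine ⟨x, y, S, Q, ⟨h1, h2, h3, h4, h5, fun w => (h6 w).1, fun w => (h6 w).2.1, fun w => (h6 w).2.2⟩,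
    ⟨t, h7, h9⟩, ?_⟩
  exact phi_tors Φ (a := sumD c ζ S (fun w => w.ord (Yv (c.over M) P 0 / Yv (c.over M) P 1)) Q)
    (by rw [qt_sumD, h7]) h9

end Pool.Agent.LibCW77
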